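import Pool.Agent.MP_5cfbf6_gt.P8.Base
import Pool.Agent.MP_5cfbf6_gt.P7.Param

set_option autoImplicit false

namespace Pool.Agent.MP_5cfbf6_gt.P8

open P7 Set Filter Topology Real

lemma side_Ana {c E T : ℝ} (h0 : 0 < c) (hE : c ^ 2 * E = 1) (b s : ℝ) (S : Sd) :
    sdv b s S ((E - 1) / (1 + T ^ 2)) T = sdp b s S c (arctan (c * T)) := by
  obtain ⟨X, hX⟩ : ∃ X, X = c * T := ⟨_, rfl⟩
  have hT : T = X / c := by rw [hX]; field_simp
  have hE' : E = 1 / c ^ 2 := by field_simp; linarith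
  have p1 : 0 < 1 + X ^ 2 := by positivity
  have p2 : 0 < X ^ 2 + c := by positivity
  have p3 : 0 < X ^ 2 + c ^ 2 := by positivity
  have hc : 1 + cos (2 * arctan X) = 2 / (1 + X ^ 2) := by
    rw [cos_two_mul, cos_sq_arctan]; ring
  have hs : sin (2 * arctan X) = 2 * X / (1 + X ^ 2) := by
    rw [sin_two_mul, sin_Param, mul_assoc, mul_assoc, ← sq, cos_sq_arctan]; ring
  have hy : yy c (arctan X) = (1 - c ^ 2) / (1 + X ^ 2) := by rw [yy, hc]; ring
  have hy1 : 1 - (1 - c ^ 2) / (1 + X ^ 2) = (X ^ 2 + c ^ 2) / (1 + X ^ 2) := by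
    field_simp; ring
  have hw0 : 1 - (1 - c) / 2 * (2 / (1 + X ^ 2)) = (X ^ 2 + c) / (1 + X ^ 2) := by
    field_simp; ring
  have hw : (1 - c) / 2 * (2 * X / (1 + X ^ 2)) / ((X ^ 2 + c) / (1 + X ^ 2)) =
      (1 - c) * X / (X ^ 2 + c) := by field_simp
  have hw1 : 1 - X * ((1 - c) * X / (X ^ 2 + c)) = c * (1 + X ^ 2) / (X ^ 2 + c) := by
    field_simp; ring
  have ha : arctan X + arctan ((1 - c) * X / (X ^ 2 + c)) = arctan T := by
    rw [arctan_add (by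
      have : 0 < c * (1 + X ^ 2) / (X ^ 2 + c) := by positivity
      linarith), hw1, hT]
    congr 1
    field_simp
    ring
  have hx : (E - 1) / (1 + T ^ 2) = (1 - c ^ 2) / (X ^ 2 + c ^ 2) := by
    rw [hE', hT]; field_simp; ring
  have x1 : 1 + (1 - c ^ 2) / (X ^ 2 + c ^ 2) = (1 + X ^ 2) / (X ^ 2 + c ^ 2) := by
    field_simp; ring
  have x2 : (1 - c ^ 2) / (X ^ 2 + c ^ 2) / ((1 + X ^ 2) / (X ^ 2 + c ^ 2)) =
      (1 - c ^ 2) / (1 + X ^ 2) := by field_simp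
  have x3 : (1 - c ^ 2) / (X ^ 2 + c ^ 2) * (1 + T ^ 2) = (1 - c ^ 2) / c ^ 2 := by
    rw [hT]; field_simp; ring
  have x4 : (1 - c ^ 2) / c ^ 2 / (1 + (1 - c ^ 2) / c ^ 2) = 1 - c ^ 2 := by
    have : 1 + (1 - c ^ 2) / c ^ 2 = 1 / c ^ 2 := by field_simp; ring
    rw [this]; field_simp
  rw [← hX, sdp, f0, th, hy, hc, hs, hy1, hw0, hw, ha, sdv, Hg, hx, x1, x2, x3, x4]
  congr 2
  generalize 1 - b * max 0 ((1 - c ^ 2) / (1 + X ^ 2) + 4 / 5 * (1 - c ^ 2) - s) = Z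
  rw [hT]
  field_simp

theorem ana_st : AnaSt := by
  intro b s L hB hL
  have K : ∀ (E a1 a2 a3 : ℝ), Dom a1 a2 a3 → E = e2 a1 a2 a3 → a1 ≤ a2 → a2 ≤ a3 → ∀ C ∈ L,
      (C.m : ℝ) ≤ sdv b s C.s1 ((E - 1) / (1 + a1 ^ 2)) a1
        + sdv b s C.s2 ((E - 1) / (1 + a2 ^ 2)) a2 + sdv b s C.s3 ((E - 1) / (1 + a3 ^ 2)) a3 := by
    rintro E a1 a2 a3 ⟨h1, -, -, h4, h5⟩ hE l1 l2 C hC
    rw [← hE] at h4 h5
    have s1 : 1 ≤ √E := one_le_sqrt.2 h4
    have s5 : √E ≤ 5 := sqrt_le_iff.2 ⟨by norm_num, by linarith⟩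
    have s0 : 0 < √E := by linarith
    obtain ⟨c, hc⟩ : ∃ c, c = 1 / √E := ⟨_, rfl⟩
    have c0 : 0 < c := by rw [hc]; positivity
    have cE : c ^ 2 * E = 1 := by
      rw [hc, div_pow, sq_sqrt (by linarith)]
      field_simp
    have h3 : arctan (c * a3) = π / 2 - arctan (c * a1) - arctan (c * a2) := by
      refine third_Param (by rw [← mul_add]; positivity) ?_
      rw [← cE, hE, e2]
      ring
    have ab : ∀ X, |arctan X| < π / 2 := fun X =>
      abs_lt.2 ⟨neg_pi_div_two_lt_arctan X, arctan_lt_pi_div_two X⟩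
    have mo : ∀ x y : ℝ, x ≤ y → arctan (c * x) ≤ arctan (c * y) := fun x y h =>
      arctan_strictMono.monotone (mul_le_mul_of_nonneg_left h c0.le)
    rw [side_Ana c0 cE, side_Ana c0 cE, side_Ana c0 cE, h3]
    refine hB c _ _ ⟨?_, ?_, ab _, ab _, h3 ▸ ab _⟩ (mo _ _ l1) (h3 ▸ mo _ _ l2) C hC
    · rw [hc]
      exact one_div_le_one_div_of_le s0 s5
    · rw [hc]
      exact (div_le_one s0).2 s1
  intro C hC x y z h
  have e : ∀ u v w : ℝ, u * v + v * w + w * u = x * y + y * z + z * x → e2 x y z = e2 u v w :=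
    fun u v w h => by rw [e2, e2, h]
  have c1 := (hL C hC).1
  have c2 := (hL C hC).2
  rcases le_total x y with h1 | h1 <;> rcases le_total y z with h2 | h2 <;>
    rcases le_total x z with h3 | h3
  · exact K _ x y z h rfl h1 h2 C hC
  · exact K _ x y z h rfl h1 h2 C hC
  · have := K _ x z y h.swap (e _ _ _ (by ring)) h3 h2 _ c2
    simp only [Chk.sw2] at this
    linarith
  · have := K _ z x y h.rot.rot (e _ _ _ (by ring)) h3 h1 _ (hL _ c2).1
    simp only [Chk.sw1, Chk.sw2] at this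
    linarith
  · have := K _ y x z h.rot.swap (e _ _ _ (by ring)) h1 h3 _ c1
    simp only [Chk.sw1] at this
    linarith
  · have := K _ y z x h.rot (e _ _ _ (by ring)) h2 h3 _ (hL _ c1).2
    simp only [Chk.sw1, Chk.sw2] at this
    linarith
  · have := K _ z y x h.rot.rot.swap (e _ _ _ (by ring)) h2 h1 _ (hL _ (hL _ c1).2).1
    simp only [Chk.sw1, Chk.sw2] at this
    linarith
  · have := K _ z y x h.rot.rot.swap (e _ _ _ (by ring)) h2 h1 _ (hL _ (hL _ c1).2).1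
    simp only [Chk.sw1, Chk.sw2] at this
    linarith

end Pool.Agent.MP_5cfbf6_gt.P8
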