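import Pool.Agent.MP_5cfbf6_gt.P8.Ana

set_option autoImplicit false

namespace Pool.Agent.MP_5cfbf6_gt.P8

open P7 Set Filter Topology Real

/-- an inequality at a vertex, with restrictions on the three edges -/
structure Ck where
  m : ℤ
  s1 : Sd
  s2 : Sd
  s3 : Sd
  r1 : ℤ
  r2 : ℤ
  r3 : ℤ
deriving DecidableEq

def Rst (r : ℤ) (y : ℝ) : Prop := (0 < r → y ≤ 53 / 125) ∧ (r < 0 → 53 / 125 ≤ y)

noncomputable def yx (x : ℝ) : ℝ := x / (1 + x)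

def Ck.Valid (b s : ℝ) (C : Ck) : Prop :=
  ∀ a1 a2 a3 : ℝ, Dom a1 a2 a3 → Rst C.r1 (yx ((e2 a1 a2 a3 - 1) / (1 + a1 ^ 2))) →
    Rst C.r2 (yx ((e2 a1 a2 a3 - 1) / (1 + a2 ^ 2))) →
    Rst C.r3 (yx ((e2 a1 a2 a3 - 1) / (1 + a3 ^ 2))) →
    (C.m : ℝ) ≤ sdv b s C.s1 ((e2 a1 a2 a3 - 1) / (1 + a1 ^ 2)) a1
      + sdv b s C.s2 ((e2 a1 a2 a3 - 1) / (1 + a2 ^ 2)) a2
      + sdv b s C.s3 ((e2 a1 a2 a3 - 1) / (1 + a3 ^ 2)) a3

def Ck.sw1 (C : Ck) : Ck := ⟨C.m, C.s2, C.s1, C.s3, C.r2, C.r1, C.r3⟩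

def Ck.sw2 (C : Ck) : Ck := ⟨C.m, C.s1, C.s3, C.s2, C.r1, C.r3, C.r2⟩

def Ck.perms (C : Ck) : List Ck :=
  [C, C.sw1, C.sw2, C.sw2.sw1, C.sw1.sw2, C.sw1.sw2.sw1]

def BB2 (b s : ℝ) (L : List Ck) : Prop :=
  ∀ c a1 a2 : ℝ, DomP c a1 a2 → a1 ≤ a2 → a2 ≤ π / 2 - a1 - a2 → ∀ C ∈ L,
    Rst C.r1 (yy c a1) → Rst C.r2 (yy c a2) → Rst C.r3 (yy c (π / 2 - a1 - a2)) →
    (C.m : ℝ) ≤ sdp b s C.s1 c a1 + sdp b s C.s2 c a2 + sdp b s C.s3 c (π / 2 - a1 - a2)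

lemma y_Ana2 {c E T : ℝ} (h0 : 0 < c) (hE : c ^ 2 * E = 1) :
    yx ((E - 1) / (1 + T ^ 2)) = yy c (arctan (c * T)) := by
  obtain ⟨X, hX⟩ : ∃ X, X = c * T := ⟨_, rfl⟩
  have hT : T = X / c := by rw [hX]; field_simp
  have hE' : E = 1 / c ^ 2 := by field_simp; linarith
  have p1 : 0 < 1 + X ^ 2 := by positivity
  have p3 : 0 < X ^ 2 + c ^ 2 := by positivity
  have hc : 1 + cos (2 * arctan X) = 2 / (1 + X ^ 2) := by
    rw [cos_two_mul, cos_sq_arctan]; ring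
  have hy : yy c (arctan X) = (1 - c ^ 2) / (1 + X ^ 2) := by rw [yy, hc]; ring
  have hx : (E - 1) / (1 + T ^ 2) = (1 - c ^ 2) / (X ^ 2 + c ^ 2) := by
    rw [hE', hT]; field_simp; ring
  have x1 : 1 + (1 - c ^ 2) / (X ^ 2 + c ^ 2) = (1 + X ^ 2) / (X ^ 2 + c ^ 2) := by
    field_simp; ring
  rw [← hX, hy, yx, hx, x1]
  field_simp

lemma Ck.Valid.sw1 {b s : ℝ} {C : Ck} (h : C.Valid b s) : C.sw1.Valid b s := by
  intro x y z d h1 h2 h3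
  have e : e2 x y z = e2 y x z := by rw [e2, e2]; ring
  rw [e] at h1 h2 h3 ⊢
  have := h y x z d.rot.swap h2 h1 h3
  simp only [Ck.sw1]
  linarith

lemma Ck.Valid.sw2 {b s : ℝ} {C : Ck} (h : C.Valid b s) : C.sw2.Valid b s := by
  intro x y z d h1 h2 h3
  have e : e2 x y z = e2 x z y := by rw [e2, e2]; ring
  rw [e] at h1 h2 h3 ⊢
  have := h x z y d.swap h1 h3 h2
  simp only [Ck.sw2]
  linarith

lemma Ck.Valid.perms {b s : ℝ} {C D : Ck} (h : C.Valid b s) (hD : D ∈ C.perms) : D.Valid b s := by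
  simp only [Ck.perms, List.mem_cons, List.not_mem_nil, or_false] at hD
  rcases hD with rfl | rfl | rfl | rfl | rfl | rfl
  exacts [h, h.sw1, h.sw2, h.sw2.sw1, h.sw1.sw2, h.sw1.sw2.sw1]

theorem ana2 {b s : ℝ} {L : List Ck} (hB : BB2 b s L) {C : Ck} (hC : ∀ D ∈ C.perms, D ∈ L) :
    C.Valid b s := by
  have K : ∀ (E a1 a2 a3 : ℝ), Dom a1 a2 a3 → E = e2 a1 a2 a3 → a1 ≤ a2 → a2 ≤ a3 → ∀ C ∈ L,
      Rst C.r1 (yx ((E - 1) / (1 + a1 ^ 2))) → Rst C.r2 (yx ((E - 1) / (1 + a2 ^ 2))) →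
      Rst C.r3 (yx ((E - 1) / (1 + a3 ^ 2))) →
      (C.m : ℝ) ≤ sdv b s C.s1 ((E - 1) / (1 + a1 ^ 2)) a1
        + sdv b s C.s2 ((E - 1) / (1 + a2 ^ 2)) a2 + sdv b s C.s3 ((E - 1) / (1 + a3 ^ 2)) a3 := by
    rintro E a1 a2 a3 ⟨h1, -, -, h4, h5⟩ hE l1 l2 C hC
    rw [← hE] at h4 h5
    have s1 : 1 ≤ √E := one_le_sqrt.2 h4
    have s5 : √E ≤ 5 := sqrt_le_iff.2 ⟨by norm_num, by linarith⟩
    have s0 : 0 < √E := by linarith
    obtain ⟨c, hc⟩ : ∃ c, c = 1 / √E := ⟨_, rfl⟩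
    have c0 : 0 < c := by rw [hc]; positivity
    have cE : c ^ 2 * E = 1 := by
      rw [hc, div_pow, sq_sqrt (by linarith)]
      field_simp
    have h3 : arctan (c * a3) = π / 2 - arctan (c * a1) - arctan (c * a2) := by
      refine third_Param (by rw [← mul_add]; positivity) ?_
      rw [← cE, hE, e2]
      ring
    have ab : ∀ X, |arctan X| < π / 2 := fun X =>
      abs_lt.2 ⟨neg_pi_div_two_lt_arctan X, arctan_lt_pi_div_two X⟩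
    have mo : ∀ x y : ℝ, x ≤ y → arctan (c * x) ≤ arctan (c * y) := fun x y h =>
      arctan_strictMono.monotone (mul_le_mul_of_nonneg_left h c0.le)
    rw [side_Ana c0 cE, side_Ana c0 cE, side_Ana c0 cE, y_Ana2 c0 cE, y_Ana2 c0 cE, y_Ana2 c0 cE,
      h3]
    refine hB c _ _ ⟨?_, ?_, ab _, ab _, h3 ▸ ab _⟩ (mo _ _ l1) (h3 ▸ mo _ _ l2) C hC
    · rw [hc]
      exact one_div_le_one_div_of_le s0 s5
    · rw [hc]
      exact (div_le_one s0).2 s1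
  intro x y z h r1 r2 r3
  have e : ∀ u v w : ℝ, u * v + v * w + w * u = x * y + y * z + z * x → e2 x y z = e2 u v w :=
    fun u v w h => by rw [e2, e2, h]
  simp only [Ck.perms, List.forall_mem_cons] at hC
  obtain ⟨c0, c1, c2, c3, c4, c5, -⟩ := hC
  rcases le_total x y with h1 | h1 <;> rcases le_total y z with h2 | h2 <;>
    rcases le_total x z with h3 | h3
  · exact K _ x y z h rfl h1 h2 C c0 r1 r2 r3
  · exact K _ x y z h rfl h1 h2 C c0 r1 r2 r3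
  · have := K _ x z y h.swap (e _ _ _ (by ring)) h3 h2 _ c2 r1 r3 r2
    simp only [Ck.sw2] at this
    linarith
  · have := K _ z x y h.rot.rot (e _ _ _ (by ring)) h3 h1 _ c3 r3 r1 r2
    simp only [Ck.sw1, Ck.sw2] at this
    linarith
  · have := K _ y x z h.rot.swap (e _ _ _ (by ring)) h1 h3 _ c1 r2 r1 r3
    simp only [Ck.sw1] at this
    linarith
  · have := K _ y z x h.rot (e _ _ _ (by ring)) h2 h3 _ c4 r2 r3 r1
    simp only [Ck.sw1, Ck.sw2] at this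
    linarith
  · have := K _ z y x h.rot.rot.swap (e _ _ _ (by ring)) h2 h1 _ c5 r3 r2 r1
    simp only [Ck.sw1, Ck.sw2] at this
    linarith
  · have := K _ z y x h.rot.rot.swap (e _ _ _ (by ring)) h2 h1 _ c5 r3 r2 r1
    simp only [Ck.sw1, Ck.sw2] at this
    linarith

end Pool.Agent.MP_5cfbf6_gt.P8
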