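import Pool.Agent.MP_5cfbf6_gt.Defs

set_option autoImplicit false

namespace Pool.Agent.MP_5cfbf6_gt

/-- `P` is a simple polytope whose 2-faces can be numbered `0, …, n - 1` so that three different
faces have a common point (a vertex) exactly when their numbers form one of the triples in `V`. -/
def HasType {n : ℕ} (V : Finset (Finset (Fin n))) (P : Set E3) : Prop :=
  IsPolytope P ∧ IsSimple P ∧ ∃ F : Fin n → Set E3, Function.Injective F ∧
    Set.range F = twoFaces P ∧
    ∀ i j k, i ≠ j → j ≠ k → i ≠ k → ((F i ∩ F j ∩ F k).Nonempty ↔ {i, j, k} ∈ V)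

/-- The twelve vertices of Goldberg's 8-hedron (dual of the snub disphenoid): the faces `0, …, 3`
are quadrilaterals, the faces `4, …, 7` are pentagons. -/
def gold8 : Finset (Finset (Fin 8)) :=
  {{0, 1, 4}, {0, 1, 6}, {0, 4, 5}, {0, 5, 6}, {1, 4, 7}, {1, 6, 7}, {2, 3, 5}, {2, 3, 7},
    {2, 4, 5}, {2, 4, 7}, {3, 5, 6}, {3, 6, 7}}

/-- The fourteen vertices of Goldberg's 9-hedron (dual of the triaugmented triangular prism): the
faces `0, 1, 2` are quadrilaterals, the faces `3, …, 8` are pentagons. -/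
def gold9 : Finset (Finset (Fin 9)) :=
  {{3, 4, 5}, {6, 7, 8}, {0, 4, 5}, {0, 7, 8}, {0, 4, 7}, {0, 5, 8}, {1, 3, 5}, {1, 6, 8},
    {1, 5, 8}, {1, 3, 6}, {2, 3, 4}, {2, 6, 7}, {2, 3, 6}, {2, 4, 7}}

end Pool.Agent.MP_5cfbf6_gt
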