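import Pool.Agent.MP_5cfbf6_gt.P7.Base
import Pool.Agent.MP_5cfbf6_gt.P8.Def

set_option autoImplicit false

namespace Pool.Agent.MP_5cfbf6_gt.P8

open P7 Set Filter Topology Real

/-- the corrected contribution of a half edge -/
noncomputable def Hg (b s x T : ℝ) : ℝ :=
  x * T * (1 - b * max 0
    (x / (1 + x) + 4 / 5 * (x * (1 + T ^ 2) / (1 + x * (1 + T ^ 2))) - s))

/-- multipliers of one end of an edge, in units of `1 / 10000` -/
structure Sd where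
  l : ℤ
  p : ℤ
  q : ℤ
  w : ℤ
deriving DecidableEq

/-- an inequality at a vertex -/
structure Chk where
  m : ℤ
  s1 : Sd
  s2 : Sd
  s3 : Sd
deriving DecidableEq

def Sd.val (S : Sd) (y θ : ℝ) : ℝ := S.p * y + S.q * y ^ 2 - S.l * θ - S.w * (y * θ)

noncomputable def sdv (b s : ℝ) (S : Sd) (x T : ℝ) : ℝ :=
  10000 * Hg b s x T + S.val (x / (1 + x)) (arctan T)

def Chk.Valid (b s : ℝ) (C : Chk) : Prop :=
  ∀ a1 a2 a3 : ℝ, Dom a1 a2 a3 →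
    (C.m : ℝ) ≤ sdv b s C.s1 ((e2 a1 a2 a3 - 1) / (1 + a1 ^ 2)) a1
      + sdv b s C.s2 ((e2 a1 a2 a3 - 1) / (1 + a2 ^ 2)) a2
      + sdv b s C.s3 ((e2 a1 a2 a3 - 1) / (1 + a3 ^ 2)) a3

def Chk.sw1 (C : Chk) : Chk := ⟨C.m, C.s2, C.s1, C.s3⟩

def Chk.sw2 (C : Chk) : Chk := ⟨C.m, C.s1, C.s3, C.s2⟩

/-- the half angle of a side in polar form -/
noncomputable def th (c a : ℝ) : ℝ :=
  a + arctan ((1 - c) / 2 * sin (2 * a) / (1 - (1 - c) / 2 * (1 + cos (2 * a))))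

/-- the function `Hg` in polar form -/
noncomputable def f0 (b s c a : ℝ) : ℝ :=
  (1 - c ^ 2) / 2 / c * (sin (2 * a) * (1 - b * max 0 (yy c a + 4 / 5 * (1 - c ^ 2) - s))
    / (1 - yy c a))

noncomputable def sdp (b s : ℝ) (S : Sd) (c a : ℝ) : ℝ :=
  10000 * f0 b s c a + S.val (yy c a) (th c a)

def BBSt (b s : ℝ) (L : List Chk) : Prop :=
  ∀ c a1 a2 : ℝ, DomP c a1 a2 → a1 ≤ a2 → a2 ≤ π / 2 - a1 - a2 → ∀ C ∈ L,
    (C.m : ℝ) ≤ sdp b s C.s1 c a1 + sdp b s C.s2 c a2 + sdp b s C.s3 c (π / 2 - a1 - a2)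

def AnaSt : Prop :=
  ∀ (b s : ℝ) (L : List Chk), BBSt b s L → (∀ C ∈ L, C.sw1 ∈ L ∧ C.sw2 ∈ L) →
    ∀ C ∈ L, C.Valid b s

open Classical in
def CertG : Prop :=
  ∀ (b s : ℝ) (ι : Type) [Fintype ι] [DecidableEq ι] (u : ι → E3) (Tr : ι → ι → ι → Prop)
    (al : ι → ℝ) (S : ι → ι → ι → Sd) (m : ι → ι → ι → ℤ) (β : ι → ι → ℝ), 0 ≤ b → Unit1 u →
    Sys u 1 Tr → (∀ x ∈ poly u 1, dt x x ≤ 25) → (∀ i, 0 ≤ al i) → (∀ i j, 0 ≤ β i j) →
    (∀ i j k, Tr i j k → Chk.Valid b s ⟨m i j k, S j k i, S k i j, S i j k⟩) →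
    (∀ i j k l, Tr i j k → Tr i j l → k ≠ l →
      (S i j k).val (xx u i j / (1 + xx u i j)) (arctan (TT3 u i j k))
        + (S i j l).val (xx u i j / (1 + xx u i j)) (arctan (TT3 u i j l))
        + (al i + al j) * (arctan (TT3 u i j k) + arctan (TT3 u i j l)) ≤ β i j) →
    (∑ i, ∑ j, ∑ k, if Tr i j k then (m i j k : ℝ) else 0) / 6 + 2 * π * ∑ i, al i
      - (∑ i, ∑ j, β i j) / 2 ≤ 30000 * vol u 1

/-- the inequality at a vertex for multipliers that depend only on the classes of the faces -/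
def addC (A : Bool → ℕ) (G : Bool → ℤ) (p q r : Bool) : Chk :=
  ⟨G p + G q + G r, ⟨A q + A r, 0, 0, 0⟩, ⟨A r + A p, 0, 0, 0⟩, ⟨A p + A q, 0, 0, 0⟩⟩

def AddSt : Prop :=
  ∀ (b s : ℝ) (ι : Type) [Fintype ι] [DecidableEq ι] (u : ι → E3) (Tr : ι → ι → ι → Prop)
    (A : Bool → ℕ) (G : Bool → ℤ) (cl : ι → Bool), 0 ≤ b → Unit1 u → Sys u 1 Tr →
    (∀ x ∈ poly u 1, dt x x ≤ 25) → (∀ p q r, (addC A G p q r).Valid b s) →
    ∑ i, (2 * π * (A (cl i) : ℝ) + (dg Tr i : ℝ) * (G (cl i) : ℝ)) ≤ 30000 * vol u 1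

/-- a certificate for one labelled type with the edge `i0 j0` short -/
structure Lab (n : ℕ) where
  al : Fin n → ℕ
  S : Fin n → Fin n → Fin n → Sd
  m : Fin n → Fin n → Fin n → ℤ
  i0 : Fin n
  j0 : Fin n
  cst : ℕ

def Lab.Ok {n : ℕ} (D : Lab n) (t : Fin n → Fin n → Fin n → Bool) (L : List Chk) (W : ℤ) :
    Prop :=
  (∀ i j k, t i j k = true → (⟨D.m i j k, D.S j k i, D.S k i j, D.S i j k⟩ : Chk) ∈ L) ∧
  (∀ i j k, t i j k = true → ∀ l, t i j l = true → k ≠ l →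
    (D.S i j k).p + (D.S i j l).p = 0 ∧ (D.S i j k).q + (D.S i j l).q = 0 ∧
    (D.S i j k).l = (D.S i j l).l ∧ (D.S i j k).w = (D.S i j l).w ∧
    if (i = D.i0 ∧ j = D.j0) ∨ (i = D.j0 ∧ j = D.i0) then
      (D.al i : ℤ) + D.al j - (D.S i j k).l ≤ D.cst ∧
        (D.al i : ℤ) + D.al j - (D.S i j k).l - (D.S i j k).w ≤ D.cst
    else (D.S i j k).l = D.al i + D.al j ∧ (D.S i j k).w = 0) ∧
  6000000 * W + 600 * D.cst ≤
    1000000 * (∑ i, ∑ j, ∑ k, if t i j k = true then D.m i j k else 0)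
      + 37699104 * ∑ i, (D.al i : ℤ)

instance {n : ℕ} (D : Lab n) (t : Fin n → Fin n → Fin n → Bool) (L : List Chk) (W : ℤ) :
    Decidable (D.Ok t L W) := by
  unfold Lab.Ok; infer_instance

def LabSt : Prop :=
  ∀ (n : ℕ) (b s : ℝ) (L : List Chk) (t : Fin n → Fin n → Fin n → Bool) (D : Lab n) (W : ℤ)
    (u : Fin n → E3) (Tr : Fin n → Fin n → Fin n → Prop) (σ : Equiv.Perm (Fin n)), 0 ≤ b →
    (∀ C ∈ L, C.Valid b s) → D.Ok t L W → Unit1 u → Sys u 1 Tr →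
    (∀ x ∈ poly u 1, dt x x ≤ 25) → (∀ i j k, Tr (σ i) (σ j) (σ k) ↔ t i j k = true) →
    (∀ k l, t D.i0 D.j0 k = true → t D.i0 D.j0 l = true → k ≠ l →
      TT3 u (σ D.i0) (σ D.j0) (σ k) + TT3 u (σ D.i0) (σ D.j0) (σ l) ≤ 1 / 10000) →
    (W : ℝ) ≤ 30000 * vol u 1

/-- no edge is short -/
def Long {ι : Type} (η : ℝ) (u : ι → E3) (Tr : ι → ι → ι → Prop) : Prop :=
  ∀ i j k l, Tr i j k → Tr i j l → k ≠ l → η ≤ TT3 u i j k + TT3 u i j l

def ExSt : Prop :=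
  ∀ (n : ℕ) (u₀ : Fin n → E3), Unit1 u₀ → Bornology.IsBounded (poly u₀ 1) →
    vol u₀ 1 < 7 * π / 3 →
    ∃ u : Fin n → E3, Unit1 u ∧ Bornology.IsBounded (poly u 1) ∧
      ∀ w : Fin n → E3, Unit1 w → Bornology.IsBounded (poly w 1) → vol u 1 ≤ vol w 1

def ContSt : Prop :=
  ∀ (n : ℕ) (u : Fin n → E3) (W : ℝ), Bornology.IsBounded (poly u 1) → vol u 1 < W →
    ∃ δ : ℝ, 0 < δ ∧ ∀ w : Fin n → E3, (∀ i, ‖w i - u i‖ ≤ δ) → vol w 1 < W

def RedG : Prop :=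
  ∀ (n : ℕ) (V : ℝ), (∀ (u : Fin n → E3) (Tr : Fin n → Fin n → Fin n → Prop), Unit1 u →
      Sys u 1 Tr → V ≤ vol u 1) →
    ∀ (ι : Type) [Fintype ι] [DecidableEq ι] (u : ι → E3), Fintype.card ι ≤ n → Unit1 u →
      Bornology.IsBounded (poly u 1) → V ≤ vol u 1

def LimSt : Prop :=
  ∀ (n : ℕ) (u : Fin n → E3) (η δ : ℝ), 0 < η → 0 < δ → Unit1 u → Function.Injective u →
    Bornology.IsBounded (poly u 1) →
    (∀ (w : Fin n → E3) (Tr : Fin n → Fin n → Fin n → Prop), Unit1 w → (∀ i, ‖w i - u i‖ ≤ δ) →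
      Sys w 1 Tr → Long η w Tr) →
    No4 u (poly u 1)

def TypeSt : Prop :=
  ∀ (n : ℕ) (V : Finset (Finset (Fin n))) (u : Fin n → E3) (h : Fin n → ℝ)
    (Tr : Fin n → Fin n → Fin n → Prop) (σ : Equiv.Perm (Fin n)), Sys u h Tr →
    (∀ i j k, i ≠ j → j ≠ k → i ≠ k → (Tr (σ i) (σ j) (σ k) ↔ {i, j, k} ∈ V)) →
    HasType V (poly u h)

def MainSt : Prop :=
  ∀ (n : ℕ) (V : Finset (Finset (Fin (n + 1)))) (W η : ℝ), 0 < η → W ≤ 7 * π / 3 →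
    (∃ u : Fin (n + 1) → E3, Unit1 u ∧ Bornology.IsBounded (poly u 1) ∧ vol u 1 < W) →
    (∀ (u : Fin n → E3) (Tr : Fin n → Fin n → Fin n → Prop), Unit1 u → Sys u 1 Tr →
      W ≤ vol u 1) →
    (∀ (u : Fin (n + 1) → E3) (Tr : Fin (n + 1) → Fin (n + 1) → Fin (n + 1) → Prop), Unit1 u →
      Sys u 1 Tr → vol u 1 < W → Long η u Tr ∧ HasType V (poly u 1)) →
    ∃ Q : Set E3, HasType V Q ∧ IsBest Q ∧
      ∀ R : Set E3, IsPolytope R → (twoFaces R).ncard ≤ n + 1 → isoQuot R ≤ isoQuot Q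

/-- the combinatorial properties of the triples of faces through a vertex -/
structure Comb {ι : Type} (Tr : ι → ι → ι → Prop) : Prop where
  s12 : ∀ i j k, Tr i j k → Tr j i k
  s23 : ∀ i j k, Tr i j k → Tr i k j
  ne : ∀ i j k, Tr i j k → i ≠ j
  two : ∀ i j k, Tr i j k → ∃ k', k' ≠ k ∧ Tr i j k' ∧ ∀ l, Tr i j l → l = k ∨ l = k'

/-- distance of a degree from `{4, 5}` -/
def un (d : ℕ) : ℕ := (4 - d) + (d - 5)

/-- triples 014 016 045 056 147 167 235 237 245 247 356 367 in every order -/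
def t8 (i j k : Fin 8) : Bool :=
  Nat.testBit 0xa0006441850000a000900a000812200090005441800500600050000a0812244a0440000a00000180018a0a000000050810081000000500022502200005000
    (64 * i.1 + 8 * j.1 + k.1)

/-- triples 345 678 045 078 047 058 135 168 158 136 234 267 236 247 in every order -/
def t9 (i j k : Fin 9) : Bool :=
  Nat.testBit 0x20a08060000000c0a020802080002800a0008820a0800000000c888400006000000012120042220000280012001222000a0000000c1212000a06000000a08800220a00000000c0008442000600000000a08800220a0000000000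
    (81 * i.1 + 9 * j.1 + k.1)

/-- triples 014 018 045 058 146 168 237 238 257 258 367 368 457 467 in every order -/
def t9b (i j k : Fin 9) : Bool :=
  Nat.testBit 0x280a00220a082220000030143011050000002830000020b0000880000a14000010200c00022000302090200000008222221130000000030000000a05000c00030000000008200880008200000022022000022022000022000
    (81 * i.1 + 9 * j.1 + k.1)

def Enum8St : Prop :=
  ∀ Tr : Fin 8 → Fin 8 → Fin 8 → Prop, Comb Tr → ∑ i, dg Tr i = 36 → ∑ i, un (dg Tr i) ≤ 1 →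
    ∃ σ : Equiv.Perm (Fin 8), ∀ i j k, Tr (σ i) (σ j) (σ k) ↔ t8 i j k = true

def Enum9St : Prop :=
  ∀ Tr : Fin 9 → Fin 9 → Fin 9 → Prop, Comb Tr → ∑ i, dg Tr i = 42 → ∑ i, un (dg Tr i) ≤ 1 →
    ∃ σ : Equiv.Perm (Fin 9), (∀ i j k, Tr (σ i) (σ j) (σ k) ↔ t9 i j k = true) ∨
      ∀ i j k, Tr (σ i) (σ j) (σ k) ↔ t9b i j k = true

def Comp8St : Prop :=
  ∃ u : Fin 8 → E3, Unit1 u ∧ Bornology.IsBounded (poly u 1) ∧ 30000 * vol u 1 < 201030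

def Comp9St : Prop :=
  ∃ u : Fin 9 → E3, Unit1 u ∧ Bornology.IsBounded (poly u 1) ∧ 30000 * vol u 1 < 187898

lemma t8_iff : ∀ i j k : Fin 8, i ≠ j → j ≠ k → i ≠ k →
    (t8 i j k = true ↔ {i, j, k} ∈ gold8) := by
  decide +kernel

lemma t9_iff : ∀ i j k : Fin 9, i ≠ j → j ≠ k → i ≠ k →
    (t9 i j k = true ↔ {i, j, k} ∈ gold9) := by
  decide +kernel

lemma comb_of_sys {ι : Type} [Fintype ι] [DecidableEq ι] {u : ι → E3} {h : ι → ℝ}
    {Tr : ι → ι → ι → Prop} (S : Sys u h Tr) : Comb Tr :=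
  ⟨S.s12, S.s23, fun _ _ _ T => S.ne12 T, fun _ _ _ T => two_tr S T⟩

end Pool.Agent.MP_5cfbf6_gt.P8
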