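import Pool.Agent.MP_5cfbf6_gt.P8.Base

set_option autoImplicit false

namespace Pool.Agent.MP_5cfbf6_gt.P8

open P7 Set Filter Topology Real

/-- the neighbours of a face form one cycle -/
def LinkC {ι : Type} (Tr : ι → ι → ι → Prop) : Prop :=
  ∀ (i : ι) (A : Set ι), (∀ j ∈ A, ∀ k, Tr i j k → k ∈ A) → ∀ j ∈ A, Adj Tr i j →
    ∀ k, Adj Tr i k → k ∈ A

/-- the faces are connected through their edges -/
def GlobC {ι : Type} (Tr : ι → ι → ι → Prop) : Prop :=
  ∀ A : Set ι, (∀ i ∈ A, ∀ j, Adj Tr i j → j ∈ A) → ∀ i ∈ A, ∀ j, j ∈ A

def ConnSt : Prop :=
  ∀ (ι : Type) [Fintype ι] [DecidableEq ι] (u : ι → E3) (h : ι → ℝ) (Tr : ι → ι → ι → Prop),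
    Sys u h Tr → LinkC Tr ∧ GlobC Tr

/-- the triples stored in the bits of `M` -/
def tb (n M : ℕ) (i j k : Fin n) : Bool := M.testBit (n * (n * i.1 + j.1) + k.1)

def EnumSt (n tot U : ℕ) (Ms : List ℕ) : Prop :=
  ∀ Tr : Fin n → Fin n → Fin n → Prop, Comb Tr → LinkC Tr → GlobC Tr → ∑ i, dg Tr i = tot →
    ∑ i, un (dg Tr i) ≤ U →
    ∃ σ : Equiv.Perm (Fin n), ∃ M ∈ Ms, ∀ i j k, Tr (σ i) (σ j) (σ k) ↔ tb n M i j k = true

/-- triples 012 013 025 035 124 136 146 247 257 358 368 469 479 578 689 789 -/
def M10_0 : ℕ :=
  0xc044110000c00000000000300008820822000180000000044220000004120400030000004420800000002024080006000000884100000000404810000c30000812020000000082110000006000102404000000010422000000c000204820000004422000000001800044104110000c0000000000030000882203000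

/-- triples 012 013 025 035 124 136 146 247 257 358 368 469 479 579 589 689 -/
def M10_1 : ℕ :=
  0x600c110600c0000000000018000002088200018000000000c000000008120400030000004420800000002024080006000602088100000000404810000c30000812020000000082110000006000102404000000010422000000c000204820000004422000000001800044104110000c0000000000030000882203000

/-- triples 012 013 025 035 124 134 246 256 347 357 468 478 569 579 689 789 -/
def M10_2 : ℕ :=
  0xc0481203000000000000003000084210000c000000000004821000000821080c000000004821000000811040003000000300008220400000204410000c000c042104000002084203000000000c000204820000004422000000003010442000000442200000000000000c044110000c0000000000030000882203000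

/-- triples 012 013 025 035 124 134 246 256 348 357 378 468 569 579 689 789 -/
def M10_3 : ℕ :=
  0xc048120300000000000000300008221000048240000000048208000008200048000000004821000000811040003000000300008220400000204410000c00048001040000040842030000009048000205020000004422000000003010442000000442200000000000000c044110000c0000000000030000882203000

/-- triples 012 013 025 035 124 134 246 257 267 349 358 389 469 578 679 789 -/
def M10_4 : ℕ :=
  0x8850090000484400000000220008800022000880000000050220002044100000060000002400081000002040009000000000884100000000404810000c12000002040000080842030004422000000406020000004422000001809020442000000442200000000000000c044110000c0000000000030000882203000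

def Enum10St : Prop := EnumSt 10 48 2 [M10_0, M10_1, M10_2, M10_3, M10_4]

def Comp10St : Prop :=
  ∃ u : Fin 10 → E3, Unit1 u ∧ Bornology.IsBounded (poly u 1) ∧ 30000 * vol u 1 < 179238

end Pool.Agent.MP_5cfbf6_gt.P8
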