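import Pool.Agent.MP_5cfbf6_gt.P8.Base
import Pool.Agent.MP_5cfbf6_gt.P7.Cert
import Pool.Agent.MP_5cfbf6_gt.P7.Tri
import Pool.Agent.MP_5cfbf6_gt.P7.Angle

set_option autoImplicit false

namespace Pool.Agent.MP_5cfbf6_gt.P8

open P7 Set Filter Topology Real

noncomputable def mx_CertG (s x T : ℝ) : ℝ :=
  max 0 (x / (1 + x) + 4 / 5 * (x * (1 + T ^ 2) / (1 + x * (1 + T ^ 2))) - s)

lemma mx_nonneg_CertG (s x T : ℝ) : 0 ≤ mx_CertG s x T := le_max_left _ _

lemma mx_mono_CertG (s : ℝ) {x T T' : ℝ} (hx : 0 ≤ x) (h : T ^ 2 ≤ T' ^ 2) :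
    mx_CertG s x T ≤ mx_CertG s x T' := by
  unfold mx_CertG
  apply max_le_max le_rfl
  have h1 : 0 < 1 + x * (1 + T ^ 2) := by positivity
  have h2 : 0 < 1 + x * (1 + T' ^ 2) := by positivity
  have : x * (1 + T ^ 2) / (1 + x * (1 + T ^ 2)) ≤ x * (1 + T' ^ 2) / (1 + x * (1 + T' ^ 2)) := by
    rw [div_le_div_iff₀ h1 h2]
    nlinarith [mul_le_mul_of_nonneg_left h hx]
  linarith

lemma key_CertG (s : ℝ) {x A B : ℝ} (hx : 0 ≤ x) (h : 0 ≤ A + B) (hB : B ≤ A) :
    0 ≤ A * mx_CertG s x A + B * mx_CertG s x B := by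
  have hA : 0 ≤ A := by linarith
  have h2 : B ^ 2 ≤ A ^ 2 := by nlinarith
  have h3 := mul_le_mul_of_nonneg_left (mx_mono_CertG s hx h2) hA
  have h4 := mul_nonneg h (mx_nonneg_CertG s x B)
  linarith [add_mul A B (mx_CertG s x B)]

lemma hg_CertG {b : ℝ} (s : ℝ) {x T T' : ℝ} (hb : 0 ≤ b) (hx : 0 ≤ x) (hT : 0 ≤ T + T') :
    Hg b s x T + Hg b s x T' ≤ x * T + x * T' := by
  have e : ∀ t, Hg b s x t = x * t * (1 - b * mx_CertG s x t) := fun t => rfl
  have k : 0 ≤ T * mx_CertG s x T + T' * mx_CertG s x T' := by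
    rcases le_total T' T with h | h
    · exact key_CertG s hx hT h
    · have := key_CertG s hx (show 0 ≤ T' + T by linarith) h
      linarith
  have k2 := mul_nonneg hb (mul_nonneg hx k)
  rw [e, e]
  nlinarith

theorem certG_st : CertG := by
  classical
  intro b s ι _ _ u Tr al S m β hb hu Sy h25 hal hβ H E
  obtain ⟨ha1, ha2⟩ := area_st ι u Tr hu Sy
  have hang := angle_st ι u Tr hu Sy
  have htri := tri_st ι u Tr hu Sy
  have eF := Sg_three_Cert Sy fun i j k => sdv b s (S i j k) (xx u i j) (TT3 u i j k)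
  have main : Sg_Cert Tr (fun i j k => (m i j k : ℝ)) ≤
      Sg_Cert Tr (fun i j k => sdv b s (S j k i) (xx u j k) (TT3 u j k i) +
        sdv b s (S k i j) (xx u k i) (TT3 u k i j) +
        sdv b s (S i j k) (xx u i j) (TT3 u i j k)) := by
    refine Sg_mono_Cert fun i j k T => ?_
    obtain ⟨d1, d2, d3, d4, d5, -, t1⟩ := htri i j k T
    have t2 := (htri j k i (Sy.rot T)).2.2.2.2.2.2
    have t3 := (htri k i j (Sy.rot (Sy.rot T))).2.2.2.2.2.2
    rw [e2_rot] at t2
    rw [← e2_rot] at t3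
    have := H i j k T _ _ _ ⟨d1, d2, d3, d5, d4 ▸ h25 _ (Sy.vx_mem T)⟩
    rw [← t1, ← t2, ← t3] at this
    exact this
  rw [eF] at main
  have bH : Sg_Cert Tr (fun i j k => sdv b s (S i j k) (xx u i j) (TT3 u i j k) +
      (al i + al j) * arctan (TT3 u i j k)) ≤ 10000 * (6 * vol u 1) + ∑ i, ∑ j, β i j := by
    rw [ha2, Finset.mul_sum, ← Finset.sum_add_distrib]
    unfold Sg_Cert
    refine Finset.sum_le_sum fun i _ => ?_
    rw [Finset.mul_sum, ← Finset.sum_add_distrib]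
    refine Finset.sum_le_sum fun j _ => ?_
    rw [sum_tr Sy i j fun k => sdv b s (S i j k) (xx u i j) (TT3 u i j k) +
        (al i + al j) * arctan (TT3 u i j k),
      sum_tr Sy i j fun k => xx u i j * TT3 u i j k]
    split_ifs with A
    · have h1 := hg_CertG s hb (htri i j _ (Sy.kp_spec A).1).2.2.2.2.2.1.le (ha1 i j A).le
      have h2 := E i j _ _ (Sy.kp_spec A).1 (Sy.km_spec A).1 (Sy.kp_ne_km A)
      unfold sdv
      linarith
    · linarith [hβ i j]
  have bA0 : ∑ i, 2 * π * al i ≤ Sg_Cert Tr (fun i j k => al i * arctan (TT3 u i j k)) := by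
    unfold Sg_Cert
    refine Finset.sum_le_sum fun i _ => ?_
    have := mul_le_mul_of_nonneg_left (hang i) (hal i)
    rw [mul_comm]
    refine this.trans (le_of_eq ?_)
    rw [Finset.mul_sum]
    refine Finset.sum_congr rfl fun j _ => ?_
    rw [Finset.mul_sum]
    refine Finset.sum_congr rfl fun k _ => ?_
    split_ifs <;> simp
  have bA : Sg_Cert Tr (fun i j k => (al i + al j) * arctan (TT3 u i j k)) =
      2 * Sg_Cert Tr (fun i j k => al i * arctan (TT3 u i j k)) := by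
    have s := Sg_s12_Cert Sy fun i j k => al i * arctan (TT3 u i j k)
    have a := Sg_add_Cert (Tr := Tr) (fun i j k => al i * arctan (TT3 u i j k))
      fun i j k => al j * arctan (TT3 u j i k)
    rw [s] at a
    rw [two_mul, ← a]
    congr 1
    funext i j k
    rw [TT3_swap u i j k, add_mul]
  rw [Sg_add_Cert (fun i j k => sdv b s (S i j k) (xx u i j) (TT3 u i j k))
    fun i j k => (al i + al j) * arctan (TT3 u i j k), bA] at bH
  rw [← Finset.mul_sum] at bA0
  change Sg_Cert Tr (fun i j k => (m i j k : ℝ)) / 6 + _ - _ ≤ _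
  linarith

end Pool.Agent.MP_5cfbf6_gt.P8
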