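import Pool.Agent.MP_5cfbf6_gt.P8.Base2
import Pool.Agent.MP_5cfbf6_gt.P7.Simple
import Pool.Agent.MP_5cfbf6_gt.P7.Tri

set_option autoImplicit false

namespace Pool.Agent.MP_5cfbf6_gt.P8

open P7 Set Filter Topology Real

/-- rational coordinates of the normals -/
def q_Comp10 : Fin 10 → ℚ × ℚ × ℚ :=
  ![(0, 0, 1), (0, 0, -1), (80 / 89, 0, 39 / 89), (0, 80 / 89, 39 / 89),
    (-80 / 89, 0, 39 / 89), (0, -80 / 89, 39 / 89), (155 / 245, 156 / 245, -108 / 245),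
    (-155 / 245, 156 / 245, -108 / 245), (-155 / 245, -156 / 245, -108 / 245),
    (155 / 245, -156 / 245, -108 / 245)]

/-- the normals -/
noncomputable def uu_Comp10 (i : Fin 10) : E3 :=
  !₂[((q_Comp10 i).1 : ℝ), ((q_Comp10 i).2.1 : ℝ), ((q_Comp10 i).2.2 : ℝ)]

def dq_Comp10 (i j : Fin 10) : ℚ :=
  (q_Comp10 i).1 * (q_Comp10 j).1 + (q_Comp10 i).2.1 * (q_Comp10 j).2.1 +
    (q_Comp10 i).2.2 * (q_Comp10 j).2.2

def det_Comp10 (i j k : Fin 10) : ℚ :=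
  (q_Comp10 i).1 * ((q_Comp10 j).2.1 * (q_Comp10 k).2.2 - (q_Comp10 j).2.2 * (q_Comp10 k).2.1) +
    (q_Comp10 i).2.1 * ((q_Comp10 j).2.2 * (q_Comp10 k).1 - (q_Comp10 j).1 * (q_Comp10 k).2.2) +
    (q_Comp10 i).2.2 * ((q_Comp10 j).1 * (q_Comp10 k).2.1 - (q_Comp10 j).2.1 * (q_Comp10 k).1)

def tm_Comp10 (i j k : Fin 10) : ℚ :=
  (1 - dq_Comp10 i j) / (1 + dq_Comp10 i j) *
    ((1 + dq_Comp10 i j - dq_Comp10 j k - dq_Comp10 k i) / |det_Comp10 i j k|)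

/-- adjacency of the faces -/
def Q_Comp10 (i j : Fin 10) : Bool := Nat.testBit 0x59ab256a8ec55a935669f003c (10 * i.1 + j.1)

lemma dt_Comp10 (i j : Fin 10) : dt (uu_Comp10 i) (uu_Comp10 j) = dq_Comp10 i j := by
  simp [uu_Comp10, dt, dq_Comp10]

lemma det3_Comp10 (i j k : Fin 10) :
    det3 (uu_Comp10 i) (uu_Comp10 j) (uu_Comp10 k) = det_Comp10 i j k := by
  simp only [det3, dt, cr_0, cr_1, cr_2]
  simp [uu_Comp10, det_Comp10]

lemma term_Comp10 (i j k : Fin 10) : xx uu_Comp10 i j * TT3 uu_Comp10 i j k = tm_Comp10 i j k := by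
  rw [xx, TT3, dt_Comp10, dt_Comp10, dt_Comp10, det3_Comp10, tm_Comp10]
  push_cast
  rfl

lemma unit_Comp10 : Unit1 uu_Comp10 := fun i => by
  have : ∀ i, dq_Comp10 i i = 1 := by decide +kernel
  rw [dt_Comp10, this, Rat.cast_one]

lemma inj_Comp10 : Function.Injective uu_Comp10 := by
  intro i j e
  have : ∀ i j, dq_Comp10 i j = 1 → i = j := by decide +kernel
  refine this i j (Rat.cast_injective (α := ℝ) ?_)
  rw [← dt_Comp10, ← e, unit_Comp10 i, Rat.cast_one]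

lemma mem_Comp10 {x : E3} (hx : x ∈ poly uu_Comp10 1) : x 2 ≤ 1 ∧ -x 2 ≤ 1 ∧
    80 * x 0 + 39 * x 2 ≤ 89 ∧ 80 * x 1 + 39 * x 2 ≤ 89 ∧ -80 * x 0 + 39 * x 2 ≤ 89 ∧
    -80 * x 1 + 39 * x 2 ≤ 89 ∧ 155 * x 0 + 156 * x 1 - 108 * x 2 ≤ 245 ∧
    -155 * x 0 + 156 * x 1 - 108 * x 2 ≤ 245 ∧ -155 * x 0 - 156 * x 1 - 108 * x 2 ≤ 245 ∧
    155 * x 0 - 156 * x 1 - 108 * x 2 ≤ 245 := by
  simp [poly, uu_Comp10, q_Comp10, dt, Fin.forall_fin_succ] at hx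
  obtain ⟨a1, a2, a3, a4, a5, a6, a7, a8, a9, a10⟩ := hx
  refine ⟨?_, ?_, ?_, ?_, ?_, ?_, ?_, ?_, ?_, ?_⟩ <;> linarith

lemma bdd_Comp10 : Bornology.IsBounded (poly uu_Comp10 1) := by
  refine (Metric.isBounded_closedBall (x := (0 : E3)) (r := 5)).subset fun x hx => ?_
  obtain ⟨a1, a2, a3, a4, a5, a6, a7, a8, a9, a10⟩ := mem_Comp10 hx
  have b0 : x 0 ^ 2 ≤ 2 ^ 2 := sq_le_sq' (by linarith) (by linarith)
  have b1 : x 1 ^ 2 ≤ 3 ^ 2 := sq_le_sq' (by linarith) (by linarith)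
  have b2 : x 2 ^ 2 ≤ 2 ^ 2 := sq_le_sq' (by linarith) (by linarith)
  rw [mem_closedBall_zero_iff]
  have : ‖x‖ ^ 2 ≤ 5 ^ 2 := by
    rw [← dt_self, dt]
    linarith
  exact (abs_le_of_sq_le_sq' this (by norm_num)).2

lemma act_Comp10 {x : E3} (hx : x ∈ poly uu_Comp10 1) (i j : Fin 10) (h : i ≠ j)
    (hi : dt (uu_Comp10 i) x = 1) (hj : dt (uu_Comp10 j) x = 1) : Q_Comp10 i j = true := by
  obtain ⟨a1, a2, a3, a4, a5, a6, a7, a8, a9, a10⟩ := mem_Comp10 hx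
  fin_cases i <;> fin_cases j <;>
    first
    | rfl
    | exact absurd rfl h
    | (exfalso; simp [uu_Comp10, q_Comp10, dt] at hi hj; linarith)

lemma k4_Comp10 : ∀ i j : Fin 10, Q_Comp10 i j = true → ∀ k, Q_Comp10 i k = true →
    Q_Comp10 j k = true → ∀ l, Q_Comp10 i l = true → Q_Comp10 j l = true → Q_Comp10 k l = true →
    False := by
  decide +kernel

lemma pos_Comp10 : ∀ i j k : Fin 10, Q_Comp10 i j = true ∧ Q_Comp10 j k = true ∧ Q_Comp10 k i = true →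
    0 ≤ tm_Comp10 i j k := by
  decide +kernel

lemma sum_Comp10 : (∑ i : Fin 10, ∑ j : Fin 10, ∑ k : Fin 10,
    if Q_Comp10 i j = true ∧ Q_Comp10 j k = true ∧ Q_Comp10 k i = true then tm_Comp10 i j k else 0)
      < 179238 / 5000 := by
  decide +kernel

lemma no4_Comp10 : No4 uu_Comp10 (poly uu_Comp10 1) := by
  intro x hx i j k l hi hj hk hl
  by_contra hn
  simp only [not_or] at hn
  obtain ⟨n1, n2, n3, n4, n5, n6⟩ := hn
  exact k4_Comp10 i j (act_Comp10 hx _ _ n1 hi hj) k (act_Comp10 hx _ _ n2 hi hk)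
    (act_Comp10 hx _ _ n4 hj hk) l (act_Comp10 hx _ _ n3 hi hl) (act_Comp10 hx _ _ n5 hj hl)
    (act_Comp10 hx _ _ n6 hk hl)

lemma tri_Comp10 {i j k : Fin 10} (hd : det3 (uu_Comp10 i) (uu_Comp10 j) (uu_Comp10 k) ≠ 0)
    (hv : vx uu_Comp10 1 i j k ∈ poly uu_Comp10 1) :
    Q_Comp10 i j = true ∧ Q_Comp10 j k = true ∧ Q_Comp10 k i = true := by
  have hi : dt (uu_Comp10 i) (vx uu_Comp10 1 i j k) = 1 := dt_sol1 hd _ _ _
  have hj : dt (uu_Comp10 j) (vx uu_Comp10 1 i j k) = 1 := dt_sol2 hd _ _ _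
  have hk : dt (uu_Comp10 k) (vx uu_Comp10 1 i j k) = 1 := dt_sol3 hd _ _ _
  refine ⟨act_Comp10 hv _ _ ?_ hi hj, act_Comp10 hv _ _ ?_ hj hk, act_Comp10 hv _ _ ?_ hk hi⟩
  · rintro rfl; exact hd (det3_same12 _ _)
  · rintro rfl; exact hd (det3_same23 _ _)
  · rintro rfl; exact hd (det3_same13 _ _)

theorem comp10_st : Comp10St := by
  classical
  have S := simple_st (Fin 10) _ unit_Comp10 inj_Comp10 bdd_Comp10 no4_Comp10
  refine ⟨_, unit_Comp10, bdd_Comp10, ?_⟩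
  have A := (area_st (Fin 10) _ _ unit_Comp10 S).2
  have C := (Rat.cast_lt (K := ℝ)).2 sum_Comp10
  simp only [Rat.cast_sum, apply_ite (Rat.cast : ℚ → ℝ), Rat.cast_zero, Rat.cast_div,
    Rat.cast_ofNat] at C
  suffices 6 * vol uu_Comp10 1 < 179238 / 5000 by linarith
  rw [A]
  refine lt_of_le_of_lt (Finset.sum_le_sum fun i _ => Finset.sum_le_sum fun j _ =>
    Finset.sum_le_sum fun k _ => ?_) C
  split_ifs with T P P
  · rw [term_Comp10]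
  · exact absurd (tri_Comp10 T.1 T.2) P
  · exact_mod_cast pos_Comp10 i j k P
  · exact le_rfl

end Pool.Agent.MP_5cfbf6_gt.P8
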