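import Pool.Agent.MP_5cfbf6_gt.P8.Base
import Pool.Agent.MP_5cfbf6_gt.P7.Tri
import Pool.Agent.MP_5cfbf6_gt.P7.Simple

set_option autoImplicit false

namespace Pool.Agent.MP_5cfbf6_gt.P8

open P7 Set Filter Topology Real

/-- rational unit normals -/
def q_Comp8 : Fin 8 → ℚ × ℚ × ℚ :=
  ![(3 / 5, 0, 4 / 5), (-3 / 5, 0, 4 / 5), (0, 3 / 5, -4 / 5), (0, -3 / 5, -4 / 5),
    (221 / 229, 0, -60 / 229), (-221 / 229, 0, -60 / 229), (0, 221 / 229, 60 / 229),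
    (0, -221 / 229, 60 / 229)]

noncomputable def u_Comp8 (i : Fin 8) : E3 :=
  !₂[((q_Comp8 i).1 : ℝ), ((q_Comp8 i).2.1 : ℝ), ((q_Comp8 i).2.2 : ℝ)]

def dt_Comp8 (i j : Fin 8) : ℚ :=
  (q_Comp8 i).1 * (q_Comp8 j).1 + (q_Comp8 i).2.1 * (q_Comp8 j).2.1
    + (q_Comp8 i).2.2 * (q_Comp8 j).2.2

def det_Comp8 (i j k : Fin 8) : ℚ :=
  (q_Comp8 i).1 * ((q_Comp8 j).2.1 * (q_Comp8 k).2.2 - (q_Comp8 j).2.2 * (q_Comp8 k).2.1)
    + (q_Comp8 i).2.1 * ((q_Comp8 j).2.2 * (q_Comp8 k).1 - (q_Comp8 j).1 * (q_Comp8 k).2.2)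
    + (q_Comp8 i).2.2 * ((q_Comp8 j).1 * (q_Comp8 k).2.1 - (q_Comp8 j).2.1 * (q_Comp8 k).1)

def nn_Comp8 (i j k l : Fin 8) : ℚ := det_Comp8 l j k + det_Comp8 i l k + det_Comp8 i j l

lemma dtc_Comp8 (i j : Fin 8) : dt (u_Comp8 i) (u_Comp8 j) = dt_Comp8 i j := by
  simp [dt, u_Comp8, dt_Comp8]

lemma detc_Comp8 (i j k : Fin 8) :
    det3 (u_Comp8 i) (u_Comp8 j) (u_Comp8 k) = det_Comp8 i j k := by
  simp [det3, dt, u_Comp8, det_Comp8]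

lemma gram_Comp8 : ∀ i j : Fin 8, dt_Comp8 i j = 1 ↔ i = j := by
  decide +kernel

lemma four_Comp8 : ∀ i j k l : Fin 8, i = j ∨ i = k ∨ i = l ∨ j = k ∨ j = l ∨ k = l ∨
    nn_Comp8 i j k l ≠ det_Comp8 i j k ∨ (det_Comp8 i j k = 0 ∧ ∃ m, nn_Comp8 i j k m ≠ 0) := by
  decide +kernel

lemma sum_Comp8 : (∑ i, ∑ j, ∑ k,
    if det_Comp8 i j k ≠ 0 ∧ ∀ l, (det_Comp8 i j k)⁻¹ * nn_Comp8 i j k l ≤ 1 then
      (1 - dt_Comp8 i j) / (1 + dt_Comp8 i j) *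
        ((1 + dt_Comp8 i j - dt_Comp8 j k - dt_Comp8 k i) / |det_Comp8 i j k|) else 0)
    = 96220392 / 2393209 := by
  decide +kernel

lemma cram_Comp8 {x : E3} {i j k : Fin 8} (hi : dt (u_Comp8 i) x = 1) (hj : dt (u_Comp8 j) x = 1)
    (hk : dt (u_Comp8 k) x = 1) (l : Fin 8) :
    (nn_Comp8 i j k l : ℝ) = det_Comp8 i j k * dt (u_Comp8 l) x := by
  have e : ∀ a b c d : E3, dt a x * det3 d b c + dt b x * det3 a d c + dt c x * det3 a b d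
      = det3 a b c * dt d x := fun a b c d => by
    simp only [det3, dt, cr_0, cr_1, cr_2]
    ring
  rw [← detc_Comp8, ← e, hi, hj, hk, detc_Comp8, detc_Comp8, detc_Comp8, nn_Comp8]
  push_cast
  ring

lemma no4_Comp8 : No4 u_Comp8 (poly u_Comp8 1) := by
  intro x _ i j k l hi hj hk hl
  by_contra hn
  have h := four_Comp8 i j k l
  simp only [not_or] at hn
  simp only [hn, false_or] at h
  rcases h with h | ⟨h, m, hm⟩
  · have e := cram_Comp8 hi hj hk l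
    rw [hl, mul_one] at e
    exact h (by exact_mod_cast e)
  · have e := cram_Comp8 hi hj hk m
    rw [h, Rat.cast_zero, zero_mul] at e
    exact hm (by exact_mod_cast e)

lemma bdd_Comp8 : Bornology.IsBounded (poly u_Comp8 1) := by
  refine (Metric.isBounded_closedBall (x := (0 : E3)) (r := 6)).subset fun x hx => ?_
  have a0 : ((3 / 5 : ℚ) : ℝ) * x 0 + ((0 : ℚ) : ℝ) * x 1 + ((4 / 5 : ℚ) : ℝ) * x 2 ≤ 1 := hx 0
  have a1 : ((-3 / 5 : ℚ) : ℝ) * x 0 + ((0 : ℚ) : ℝ) * x 1 + ((4 / 5 : ℚ) : ℝ) * x 2 ≤ 1 := hx 1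
  have a2 : ((0 : ℚ) : ℝ) * x 0 + ((3 / 5 : ℚ) : ℝ) * x 1 + ((-4 / 5 : ℚ) : ℝ) * x 2 ≤ 1 := hx 2
  have a3 : ((0 : ℚ) : ℝ) * x 0 + ((-3 / 5 : ℚ) : ℝ) * x 1 + ((-4 / 5 : ℚ) : ℝ) * x 2 ≤ 1 := hx 3
  push_cast at a0 a1 a2 a3
  rw [mem_closedBall_zero_iff]
  have b0 : x 0 ^ 2 ≤ 4 ^ 2 := sq_le_sq' (by linarith) (by linarith)
  have b1 : x 1 ^ 2 ≤ 4 ^ 2 := sq_le_sq' (by linarith) (by linarith)
  have b2 : x 2 ^ 2 ≤ 2 ^ 2 := sq_le_sq' (by linarith) (by linarith)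
  have : ‖x‖ ^ 2 ≤ 6 ^ 2 := by
    rw [← dt_self, dt]
    nlinarith
  exact (abs_le_of_sq_le_sq' this (by norm_num)).2

theorem comp8_st : Comp8St := by
  classical
  have hu : Unit1 u_Comp8 := fun i => by
    rw [dtc_Comp8, (gram_Comp8 i i).2 rfl, Rat.cast_one]
  have hi : Function.Injective u_Comp8 := fun i j e => by
    have := hu i
    nth_rewrite 2 [e] at this
    rw [dtc_Comp8] at this
    exact (gram_Comp8 i j).1 (by exact_mod_cast this)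
  refine ⟨u_Comp8, hu, bdd_Comp8, ?_⟩
  have A := (area_st (Fin 8) _ _ hu (simple_st (Fin 8) _ hu hi bdd_Comp8 no4_Comp8)).2
  have C := congrArg (fun r : ℚ => (r : ℝ)) sum_Comp8
  simp only [Rat.cast_sum] at C
  suffices 6 * vol u_Comp8 1 = ((96220392 / 2393209 : ℚ) : ℝ) by
    norm_num at this
    linarith
  rw [A, ← C]
  refine Finset.sum_congr rfl fun i _ => Finset.sum_congr rfl fun j _ =>
    Finset.sum_congr rfl fun k _ => ?_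
  have e : (det3 (u_Comp8 i) (u_Comp8 j) (u_Comp8 k) ≠ 0 ∧ vx u_Comp8 1 i j k ∈ poly u_Comp8 1) ↔
      det_Comp8 i j k ≠ 0 ∧ ∀ l, (det_Comp8 i j k)⁻¹ * nn_Comp8 i j k l ≤ 1 := by
    simp only [poly, vx, mem_ofPred_eq, dt_sol, detc_Comp8, Pi.one_apply, one_mul, nn_Comp8]
    norm_cast
  by_cases T : det_Comp8 i j k ≠ 0 ∧ ∀ l, (det_Comp8 i j k)⁻¹ * nn_Comp8 i j k l ≤ 1
  · rw [if_pos T, if_pos (e.2 T)]
    simp only [xx, TT3, dtc_Comp8, detc_Comp8]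
    push_cast
    rfl
  · rw [if_neg T, if_neg fun h => T (e.1 h), Rat.cast_zero]

end Pool.Agent.MP_5cfbf6_gt.P8
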