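import Pool.Agent.MP_5cfbf6_gt.P8.Base
import Pool.Agent.MP_5cfbf6_gt.P7.Simple
import Pool.Agent.MP_5cfbf6_gt.P7.Tri

set_option autoImplicit false

namespace Pool.Agent.MP_5cfbf6_gt.P8

open P7 Set Filter Topology Real

/-- rational coordinates of the normals -/
def q_Comp9 : Fin 9 → ℚ × ℚ × ℚ :=
  ![(0, 0, 1), (209 / 241, 0, -120 / 241), (-209 / 241, 0, -120 / 241), (0, 20 / 29, -21 / 29),
    (0, -20 / 29, -21 / 29), (150 / 239, 165 / 239, 86 / 239), (150 / 239, -165 / 239, 86 / 239),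
    (-150 / 239, 165 / 239, 86 / 239), (-150 / 239, -165 / 239, 86 / 239)]

/-- the normals -/
noncomputable def uu_Comp9 (i : Fin 9) : E3 :=
  !₂[((q_Comp9 i).1 : ℝ), ((q_Comp9 i).2.1 : ℝ), ((q_Comp9 i).2.2 : ℝ)]

def dq_Comp9 (i j : Fin 9) : ℚ :=
  (q_Comp9 i).1 * (q_Comp9 j).1 + (q_Comp9 i).2.1 * (q_Comp9 j).2.1 +
    (q_Comp9 i).2.2 * (q_Comp9 j).2.2

def det_Comp9 (i j k : Fin 9) : ℚ :=
  (q_Comp9 i).1 * ((q_Comp9 j).2.1 * (q_Comp9 k).2.2 - (q_Comp9 j).2.2 * (q_Comp9 k).2.1) +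
    (q_Comp9 i).2.1 * ((q_Comp9 j).2.2 * (q_Comp9 k).1 - (q_Comp9 j).1 * (q_Comp9 k).2.2) +
    (q_Comp9 i).2.2 * ((q_Comp9 j).1 * (q_Comp9 k).2.1 - (q_Comp9 j).2.1 * (q_Comp9 k).1)

def tm_Comp9 (i j k : Fin 9) : ℚ :=
  (1 - dq_Comp9 i j) / (1 + dq_Comp9 i j) *
    ((1 + dq_Comp9 i j - dq_Comp9 j k - dq_Comp9 k i) / |det_Comp9 i j k|)

/-- adjacency of the faces -/
def Q_Comp9 (i j : Fin 9) : Bool := Nat.testBit 0xd596ccd974e5b660f1e0 (9 * i.1 + j.1)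

lemma dt_Comp9 (i j : Fin 9) : dt (uu_Comp9 i) (uu_Comp9 j) = dq_Comp9 i j := by
  simp [uu_Comp9, dt, dq_Comp9]

lemma det3_Comp9 (i j k : Fin 9) :
    det3 (uu_Comp9 i) (uu_Comp9 j) (uu_Comp9 k) = det_Comp9 i j k := by
  simp only [det3, dt, cr_0, cr_1, cr_2]
  simp [uu_Comp9, det_Comp9]

lemma term_Comp9 (i j k : Fin 9) : xx uu_Comp9 i j * TT3 uu_Comp9 i j k = tm_Comp9 i j k := by
  rw [xx, TT3, dt_Comp9, dt_Comp9, dt_Comp9, det3_Comp9, tm_Comp9]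
  push_cast
  rfl

lemma unit_Comp9 : Unit1 uu_Comp9 := fun i => by
  have : ∀ i, dq_Comp9 i i = 1 := by decide +kernel
  rw [dt_Comp9, this, Rat.cast_one]

lemma inj_Comp9 : Function.Injective uu_Comp9 := by
  intro i j e
  have : ∀ i j, dq_Comp9 i j = 1 → i = j := by decide +kernel
  refine this i j (Rat.cast_injective (α := ℝ) ?_)
  rw [← dt_Comp9, ← e, unit_Comp9 i, Rat.cast_one]

lemma mem_Comp9 {x : E3} (hx : x ∈ poly uu_Comp9 1) : x 2 ≤ 1 ∧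
    209 * x 0 - 120 * x 2 ≤ 241 ∧ -209 * x 0 - 120 * x 2 ≤ 241 ∧ 20 * x 1 - 21 * x 2 ≤ 29 ∧
    -20 * x 1 - 21 * x 2 ≤ 29 ∧ 150 * x 0 + 165 * x 1 + 86 * x 2 ≤ 239 ∧
    150 * x 0 - 165 * x 1 + 86 * x 2 ≤ 239 ∧ -150 * x 0 + 165 * x 1 + 86 * x 2 ≤ 239 ∧
    -150 * x 0 - 165 * x 1 + 86 * x 2 ≤ 239 := by
  simp [poly, uu_Comp9, q_Comp9, dt, Fin.forall_fin_succ] at hx
  obtain ⟨a1, a2, a3, a4, a5, a6, a7, a8, a9⟩ := hx
  refine ⟨?_, ?_, ?_, ?_, ?_, ?_, ?_, ?_, ?_⟩ <;> linarith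

lemma bdd_Comp9 : Bornology.IsBounded (poly uu_Comp9 1) := by
  refine (Metric.isBounded_closedBall (x := (0 : E3)) (r := 5)).subset fun x hx => ?_
  obtain ⟨a1, a2, a3, a4, a5, a6, a7, a8, a9⟩ := mem_Comp9 hx
  have b0 : x 0 ^ 2 ≤ 2 ^ 2 := sq_le_sq' (by linarith) (by linarith)
  have b1 : x 1 ^ 2 ≤ 3 ^ 2 := sq_le_sq' (by linarith) (by linarith)
  have b2 : x 2 ^ 2 ≤ 2 ^ 2 := sq_le_sq' (by linarith) (by linarith)
  rw [mem_closedBall_zero_iff]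
  have : ‖x‖ ^ 2 ≤ 5 ^ 2 := by
    rw [← dt_self, dt]
    linarith
  exact (abs_le_of_sq_le_sq' this (by norm_num)).2

lemma act_Comp9 {x : E3} (hx : x ∈ poly uu_Comp9 1) (i j : Fin 9) (h : i ≠ j)
    (hi : dt (uu_Comp9 i) x = 1) (hj : dt (uu_Comp9 j) x = 1) : Q_Comp9 i j = true := by
  obtain ⟨a1, a2, a3, a4, a5, a6, a7, a8, a9⟩ := mem_Comp9 hx
  fin_cases i <;> fin_cases j <;>
    first
    | rfl
    | exact absurd rfl h
    | (exfalso; simp [uu_Comp9, q_Comp9, dt] at hi hj; linarith)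

lemma k4_Comp9 : ∀ i j : Fin 9, Q_Comp9 i j = true → ∀ k, Q_Comp9 i k = true →
    Q_Comp9 j k = true → ∀ l, Q_Comp9 i l = true → Q_Comp9 j l = true → Q_Comp9 k l = true →
    False := by
  decide +kernel

lemma pos_Comp9 : ∀ i j k : Fin 9, Q_Comp9 i j = true ∧ Q_Comp9 j k = true ∧ Q_Comp9 k i = true →
    0 ≤ tm_Comp9 i j k := by
  decide +kernel

lemma sum_Comp9 : (∑ i : Fin 9, ∑ j : Fin 9, ∑ k : Fin 9,
    if Q_Comp9 i j = true ∧ Q_Comp9 j k = true ∧ Q_Comp9 k i = true then tm_Comp9 i j k else 0)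
      < 187898 / 5000 := by
  decide +kernel

lemma no4_Comp9 : No4 uu_Comp9 (poly uu_Comp9 1) := by
  intro x hx i j k l hi hj hk hl
  by_contra hn
  simp only [not_or] at hn
  obtain ⟨n1, n2, n3, n4, n5, n6⟩ := hn
  exact k4_Comp9 i j (act_Comp9 hx _ _ n1 hi hj) k (act_Comp9 hx _ _ n2 hi hk)
    (act_Comp9 hx _ _ n4 hj hk) l (act_Comp9 hx _ _ n3 hi hl) (act_Comp9 hx _ _ n5 hj hl)
    (act_Comp9 hx _ _ n6 hk hl)

lemma tri_Comp9 {i j k : Fin 9} (hd : det3 (uu_Comp9 i) (uu_Comp9 j) (uu_Comp9 k) ≠ 0)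
    (hv : vx uu_Comp9 1 i j k ∈ poly uu_Comp9 1) :
    Q_Comp9 i j = true ∧ Q_Comp9 j k = true ∧ Q_Comp9 k i = true := by
  have hi : dt (uu_Comp9 i) (vx uu_Comp9 1 i j k) = 1 := dt_sol1 hd _ _ _
  have hj : dt (uu_Comp9 j) (vx uu_Comp9 1 i j k) = 1 := dt_sol2 hd _ _ _
  have hk : dt (uu_Comp9 k) (vx uu_Comp9 1 i j k) = 1 := dt_sol3 hd _ _ _
  refine ⟨act_Comp9 hv _ _ ?_ hi hj, act_Comp9 hv _ _ ?_ hj hk, act_Comp9 hv _ _ ?_ hk hi⟩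
  · rintro rfl; exact hd (det3_same12 _ _)
  · rintro rfl; exact hd (det3_same23 _ _)
  · rintro rfl; exact hd (det3_same13 _ _)

theorem comp9_st : Comp9St := by
  classical
  have S := simple_st (Fin 9) _ unit_Comp9 inj_Comp9 bdd_Comp9 no4_Comp9
  refine ⟨_, unit_Comp9, bdd_Comp9, ?_⟩
  have A := (area_st (Fin 9) _ _ unit_Comp9 S).2
  have C := (Rat.cast_lt (K := ℝ)).2 sum_Comp9
  simp only [Rat.cast_sum, apply_ite (Rat.cast : ℚ → ℝ), Rat.cast_zero, Rat.cast_div,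
    Rat.cast_ofNat] at C
  suffices 6 * vol uu_Comp9 1 < 187898 / 5000 by linarith
  rw [A]
  refine lt_of_le_of_lt (Finset.sum_le_sum fun i _ => Finset.sum_le_sum fun j _ =>
    Finset.sum_le_sum fun k _ => ?_) C
  split_ifs with T P P
  · rw [term_Comp9]
  · exact absurd (tri_Comp9 T.1 T.2) P
  · exact_mod_cast pos_Comp9 i j k P
  · exact le_rfl

end Pool.Agent.MP_5cfbf6_gt.P8
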