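import Pool.Agent.MP_5cfbf6_gt.P8.Base2

set_option autoImplicit false
set_option linter.unusedSectionVars false

namespace Pool.Agent.MP_5cfbf6_gt.P8

open P7 Set Filter Topology Real

section

variable {ι : Type} [Fintype ι] [DecidableEq ι] {u : ι → E3} {h : ι → ℝ} {Tr : ι → ι → ι → Prop}

lemma coef_Conn {a b c : E3} (hd : det3 a b c ≠ 0) (y : E3) :
    ∃ p q r : ℝ, ∀ x, dt y x = p * dt a x + q * dt b x + r * dt c x := by
  refine ⟨det3 y b c / det3 a b c, det3 a y c / det3 a b c, det3 a b y / det3 a b c, fun x => ?_⟩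
  have e : det3 a b c * dt y x =
      det3 y b c * dt a x + det3 a y c * dt b x + det3 a b y * dt c x := by
    simp [det3, dt]; ring
  field_simp
  linear_combination e

lemma vx_rot_Conn (u : ι → E3) (h : ι → ℝ) (i j k : ι) : vx u h j k i = vx u h i j k := by
  rw [vx_swap23, vx_swap12]

/-- moving along an edge with negative coefficient increases the linear form -/
lemma step_Conn (S : Sys u h Tr) {i j k : ι} (T : Tr i j k) {y : E3} {p q r : ℝ}
    (H : ∀ x, dt y x = p * dt (u i) x + q * dt (u j) x + r * dt (u k) x) (hr : r < 0) :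
    ∃ k', Tr i j k' ∧ dt y (vx u h i j k) < dt y (vx u h i j k') := by
  obtain ⟨k', hk, T', -⟩ := two_tr S T
  have s := S.strict _ _ _ T' k (S.ne13 T).symm (S.ne23 T).symm hk.symm
  refine ⟨k', T', ?_⟩
  rw [H, H, S.vx1 T, S.vx2 T, S.vx3 T, S.vx1 T', S.vx2 T']
  nlinarith

/-- a vertex which is not optimal has an improving edge -/
lemma imp_Conn (S : Sys u h Tr) {i j k : ι} (T : Tr i j k) (y : E3) {w : E3} (hw : w ∈ poly u h)
    (hlt : dt y (vx u h i j k) < dt y w) :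
    (dt (u i) w < h i ∧ ∃ l, Tr j k l ∧ dt y (vx u h i j k) < dt y (vx u h j k l)) ∨
      (∃ l, Tr i k l ∧ dt y (vx u h i j k) < dt y (vx u h i k l)) ∨
      (∃ l, Tr i j l ∧ dt y (vx u h i j k) < dt y (vx u h i j l)) := by
  obtain ⟨p, q, r, H⟩ := coef_Conn (S.det _ _ _ T) y
  by_cases hr : r < 0
  · exact Or.inr (Or.inr (step_Conn S T H hr))
  by_cases hq : q < 0
  · refine Or.inr (Or.inl ?_)
    have := step_Conn S (S.s23 _ _ _ T) (y := y) (p := p) (q := r) (r := q)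
      (fun x => by rw [H]; ring) hq
    rwa [vx_swap23] at this
  push Not at hr hq
  have m1 := hw i
  have m2 := mul_le_mul_of_nonneg_left (hw j) hq
  have m3 := mul_le_mul_of_nonneg_left (hw k) hr
  have hlt' := hlt
  rw [H, H, S.vx1 T, S.vx2 T, S.vx3 T] at hlt'
  have m4 : 0 < p * (dt (u i) w - h i) := by linarith
  have m5 : dt (u i) w < h i := by
    refine lt_of_le_of_ne m1 fun e => ?_
    rw [e, sub_self, mul_zero] at m4
    exact lt_irrefl _ m4
  have hp : p < 0 := by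
    by_contra hc
    push Not at hc
    nlinarith
  refine Or.inl ⟨m5, ?_⟩
  have := step_Conn S (S.rot T) (y := y) (p := q) (q := r) (r := p)
    (fun x => by rw [H]; ring) hp
  rwa [vx_rot_Conn] at this

lemma link_Conn (S : Sys u h Tr) : LinkC Tr := by
  rintro i A hA j hj ⟨m, T⟩ k ⟨l, Tk⟩
  obtain ⟨⟨a, b⟩, ⟨ha, Ta⟩, M⟩ := Set.exists_max_image {p : ι × ι | p.1 ∈ A ∧ Tr i p.1 p.2}
    (fun p => dt (u k + u l) (vx u h i p.1 p.2)) (Set.toFinite _) ⟨(j, m), hj, T⟩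
  simp only at ha Ta M
  have hb : b ∈ A := hA a ha b Ta
  have hge : dt (u k + u l) (vx u h i k l) ≤ dt (u k + u l) (vx u h i a b) := by
    by_contra hc
    push Not at hc
    rcases imp_Conn S Ta _ (S.vx_mem Tk) hc with ⟨h1, -⟩ | ⟨c, Tc, h1⟩ | ⟨c, Tc, h1⟩
    · rw [S.vx1 Tk] at h1
      exact lt_irrefl _ h1
    · exact absurd (M (b, c) ⟨hb, Tc⟩) (not_le.2 h1)
    · exact absurd (M (a, c) ⟨ha, Tc⟩) (not_le.2 h1)
  rw [add_dt, add_dt, S.vx2 Tk, S.vx3 Tk] at hge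
  have m1 := S.vx_mem Ta k
  have m2 := S.vx_mem Ta l
  have e : dt (u k) (vx u h i a b) = h k := by linarith
  rcases S.vx_act Ta e with z | z | z
  · exact absurd z.symm (S.ne12 Tk)
  · exact z ▸ ha
  · exact z ▸ hb

lemma glob_Conn (S : Sys u h Tr) : GlobC Tr := by
  intro A hA i hi j
  have c2 : ∀ a b c, Tr a b c → a ∈ A → b ∈ A := fun a b c T ha => hA a ha b ⟨c, T⟩
  obtain ⟨i2, i3, T⟩ := S.used i
  obtain ⟨j2, j3, Tj⟩ := S.used j
  obtain ⟨⟨a, b, c⟩, ⟨ha, Ta⟩, M⟩ := Set.exists_max_image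
    {p : ι × ι × ι | p.1 ∈ A ∧ Tr p.1 p.2.1 p.2.2}
    (fun p => dt (u j) (vx u h p.1 p.2.1 p.2.2)) (Set.toFinite _) ⟨(i, i2, i3), hi, T⟩
  simp only at ha Ta M
  have hb : b ∈ A := c2 _ _ _ Ta ha
  have hc : c ∈ A := c2 _ _ _ (S.s23 _ _ _ Ta) ha
  have hge : dt (u j) (vx u h j j2 j3) ≤ dt (u j) (vx u h a b c) := by
    by_contra hn
    push Not at hn
    rcases imp_Conn S Ta _ (S.vx_mem Tj) hn with ⟨-, d, Td, h1⟩ | ⟨d, Td, h1⟩ | ⟨d, Td, h1⟩
    · exact absurd (M (b, c, d) ⟨hb, Td⟩) (not_le.2 h1)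
    · exact absurd (M (a, c, d) ⟨ha, Td⟩) (not_le.2 h1)
    · exact absurd (M (a, b, d) ⟨ha, Td⟩) (not_le.2 h1)
  rw [S.vx1 Tj] at hge
  have e : dt (u j) (vx u h a b c) = h j := le_antisymm (S.vx_mem Ta j) hge
  rcases S.vx_act Ta e with z | z | z
  · exact z ▸ ha
  · exact z ▸ hb
  · exact z ▸ hc

end

theorem conn_st : ConnSt := fun _ _ _ _ _ _ S => ⟨link_Conn S, glob_Conn S⟩

end Pool.Agent.MP_5cfbf6_gt.P8
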