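import Pool.Agent.MP_5cfbf6_gt.P8.Def

set_option autoImplicit false

namespace Pool.Agent.MP_5cfbf6_gt

/-- The sixteen vertices of Goldberg's 10-hedron (dual of the gyroelongated square bipyramid): the
faces `0, 9` are quadrilaterals, the faces `1, …, 8` are pentagons. -/
def gold10 : Finset (Finset (Fin 10)) :=
  {{0, 1, 2}, {0, 1, 3}, {0, 2, 5}, {0, 3, 5}, {1, 2, 4}, {1, 3, 6}, {1, 4, 6}, {2, 4, 7},
    {2, 5, 7}, {3, 5, 8}, {3, 6, 8}, {4, 6, 9}, {4, 7, 9}, {5, 7, 8}, {6, 8, 9}, {7, 8, 9}}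

end Pool.Agent.MP_5cfbf6_gt
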