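import Pool.Agent.MP_5cfbf6_gt.P8.Def2

set_option autoImplicit false

namespace Pool.Agent.MP_5cfbf6_gt

/-- The eighteen vertices of Goldberg's 11-hedron: the faces `0, 10` are quadrilaterals, the face
`5` is a hexagon, the other eight faces are pentagons. -/
def gold11 : Finset (Finset (Fin 11)) :=
  {{0, 1, 2}, {0, 1, 3}, {0, 2, 5}, {0, 3, 5}, {1, 2, 4}, {1, 3, 6}, {1, 4, 6}, {2, 4, 7}, {2, 5, 7}, {3, 5, 8}, {3, 6, 8}, {4, 6, 9}, {4, 7, 9}, {5, 7, 10}, {5, 8, 10}, {6, 8, 9}, {7, 9, 10}, {8, 9, 10}}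

end Pool.Agent.MP_5cfbf6_gt
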