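import Pool.Agent.MP_5cfbf6_gt.P8.Enum11K0
import Pool.Agent.MP_5cfbf6_gt.P8.Enum11K1
import Pool.Agent.MP_5cfbf6_gt.P8.Enum11K2
import Pool.Agent.MP_5cfbf6_gt.P8.Enum11K3

set_option autoImplicit false

namespace Pool.Agent.MP_5cfbf6_gt.P8

open P7 EnumH

lemma ok0_Enum11 : Ok 11 54 5 Ls_Enum11 q0_Enum11 := ok_run (by omega) ok_nil run0_Enum11

lemma ok1_Enum11 : Ok 11 54 5 Ls_Enum11 q1_Enum11 := ok_run (by omega) ok_nil run1_Enum11

lemma ok2_Enum11 : Ok 11 54 5 Ls_Enum11 q2_Enum11 := ok_run (by omega) (ok_cons ok1_Enum11 ok_nil) run2_Enum11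

lemma ok3_Enum11 : Ok 11 54 5 Ls_Enum11 q3_Enum11 := ok_run (by omega) (ok_cons ok2_Enum11 ok_nil) run3_Enum11

lemma ok4_Enum11 : Ok 11 54 5 Ls_Enum11 q4_Enum11 := ok_run (by omega) ok_nil run4_Enum11

lemma ok5_Enum11 : Ok 11 54 5 Ls_Enum11 q5_Enum11 := ok_run (by omega) ok_nil run5_Enum11

lemma ok6_Enum11 : Ok 11 54 5 Ls_Enum11 q6_Enum11 := ok_run (by omega) (ok_cons ok4_Enum11 ok_nil) run6_Enum11

lemma ok7_Enum11 : Ok 11 54 5 Ls_Enum11 q7_Enum11 := ok_run (by omega) (ok_cons ok6_Enum11 (ok_cons ok5_Enum11 ok_nil)) run7_Enum11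

lemma ok8_Enum11 : Ok 11 54 5 Ls_Enum11 q8_Enum11 := ok_run (by omega) (ok_cons ok7_Enum11 ok_nil) run8_Enum11

lemma ok9_Enum11 : Ok 11 54 5 Ls_Enum11 q9_Enum11 := ok_run (by omega) ok_nil run9_Enum11

lemma ok10_Enum11 : Ok 11 54 5 Ls_Enum11 q10_Enum11 := ok_run (by omega) (ok_cons ok9_Enum11 ok_nil) run10_Enum11

lemma ok11_Enum11 : Ok 11 54 5 Ls_Enum11 q11_Enum11 := ok_run (by omega) ok_nil run11_Enum11

lemma ok12_Enum11 : Ok 11 54 5 Ls_Enum11 q12_Enum11 := ok_run (by omega) (ok_cons ok10_Enum11 (ok_cons ok11_Enum11 ok_nil)) run12_Enum11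

lemma ok13_Enum11 : Ok 11 54 5 Ls_Enum11 q13_Enum11 := ok_run (by omega) (ok_cons ok0_Enum11 (ok_cons ok3_Enum11 (ok_cons ok8_Enum11 ok_nil))) run13_Enum11

lemma ok14_Enum11 : Ok 11 54 5 Ls_Enum11 q14_Enum11 := ok_run (by omega) ok_nil run14_Enum11

lemma ok15_Enum11 : Ok 11 54 5 Ls_Enum11 q15_Enum11 := ok_run (by omega) (ok_cons ok14_Enum11 ok_nil) run15_Enum11

lemma ok16_Enum11 : Ok 11 54 5 Ls_Enum11 q16_Enum11 := ok_run (by omega) (ok_cons ok15_Enum11 ok_nil) run16_Enum11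

lemma ok17_Enum11 : Ok 11 54 5 Ls_Enum11 q17_Enum11 := ok_run (by omega) (ok_cons ok13_Enum11 (ok_cons ok12_Enum11 ok_nil)) run17_Enum11

lemma ok18_Enum11 : Ok 11 54 5 Ls_Enum11 q18_Enum11 := ok_run (by omega) ok_nil run18_Enum11

lemma ok19_Enum11 : Ok 11 54 5 Ls_Enum11 q19_Enum11 := ok_run (by omega) ok_nil run19_Enum11

lemma ok20_Enum11 : Ok 11 54 5 Ls_Enum11 q20_Enum11 := ok_run (by omega) ok_nil run20_Enum11

lemma ok21_Enum11 : Ok 11 54 5 Ls_Enum11 q21_Enum11 := ok_run (by omega) (ok_cons ok20_Enum11 ok_nil) run21_Enum11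

lemma ok22_Enum11 : Ok 11 54 5 Ls_Enum11 q22_Enum11 := ok_run (by omega) (ok_cons ok18_Enum11 (ok_cons ok19_Enum11 (ok_cons ok21_Enum11 ok_nil))) run22_Enum11

lemma ok23_Enum11 : Ok 11 54 5 Ls_Enum11 q23_Enum11 := ok_run (by omega) (ok_cons ok22_Enum11 ok_nil) run23_Enum11

lemma ok24_Enum11 : Ok 11 54 5 Ls_Enum11 q0 := ok_run (by omega) (ok_cons ok17_Enum11 (ok_cons ok16_Enum11 (ok_cons ok23_Enum11 ok_nil))) run24_Enum11

theorem enum11_st : Enum11St :=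
  enumH (by omega) ok24_Enum11 (by decide +kernel)

end Pool.Agent.MP_5cfbf6_gt.P8
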