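import Pool.Agent.MP_5cfbf6_gt.P8.EnumG

set_option autoImplicit false

namespace Pool.Agent.MP_5cfbf6_gt.P8

open P7 EnumG

def lt8_Enum8 : TL 8 :=
  [(0, 1, 4), (0, 1, 6), (0, 4, 5), (0, 5, 6), (1, 4, 7), (1, 6, 7), (2, 3, 5), (2, 3, 7), (2, 4, 5), (2, 4, 7), (3, 5, 6), (3, 6, 7)]

lemma ft8_Enum8 {Tr : Fin 8 → Fin 8 → Fin 8 → Prop} (H : Hy 36 Tr)
    (h : ∀ p ∈ lt8_Enum8, Tr p.1 p.2.1 p.2.2) (i j k : Fin 8) :
    Tr i j k ↔ t8 i j k = true := by
  rw [fin_ok H (L := lt8_Enum8)
    (M := 0xa0006441850000a000900a000812200090005441800500600050000a0812244a0440000a00000180018a0a000000050810081000000500022502200005000)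
    (by decide +kernel) (by decide +kernel) (by decide +kernel) h, bt, t8, ix]
  rw [show 8 * (8 * i.1 + j.1) + k.1 = 64 * i.1 + 8 * j.1 + k.1 by ring]

lemma run_Enum8 : go 36 lt8_Enum8 lt8_Enum8 40
    0x22f120944627111422384624108844e2229a8427097c2283270944421106a70984286a888444253325044261114223844535085a1384366096260984c6208e46884422510a1aaa221108c47422a1682ad194a08d46e08a3660ae2688c4675095250844089b940a98826a909d07e8f58a8f5942b2f8d126a4c504722ccf97223b97af78ba86f611ecdeb456417448d161a0e7e2f3bd5662c5541eb28566f5a2fa1f32429f8c72b81e8941d946c6168cc5f14ae812d0c53c9646a9bd847b314b822a52829516a3ad47822a16828d1c22284469868f59570453a885a930c360ecac2229a842d091f329ac425896a7cba0e5c7eb3b5cceac09787d39aae2a35650acd0b4ecf9deaa0d5ae2c4a982c3f4f4e6ba78a157c63964e1c484cca3630b4659f9237308e66a9c5892b70454a505aa3c6896526282391fa4cc7a8fbd68a0f5a1744a182c27cc974f142bf8fa7355c6a0d5942b3f4bd68a0d5a1744a182c37ad15332553c53d284f53ffd29cd44f14ae812d0c73df83d1283328d8c2d1966648dcc23998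a593cf9a162ce5486aca1598a5c11529414a8bb9c6a3c1150b41468e8114222ccae77349c6894ab14ae815d098b55c689398a08e47bfb21626a3bffd01ad415946c6128c846b4156542d051a38445088c06b51cd1d2858599854535484e930c97492c5239ffcd0b1672a505650acb52e08a94a0a545a16215c48d8c23196a47228f04542d051a384450889b0c86142c48c66231e08a85a0a347088a11182b2ae08a7510a527408aa5409c27308a0c9a65b694f55548e7ff07a2506651b185632d0b1352888a111ccd486aca159b2352a95c7422a1682ad194a08d47354aa6315141926c31194c174491929411a8942c4cca2228446274acec29d08a0c98a5905d128a4a5046a250b13537d9d08a85a0a346888a11182a2a9502b09ae470235aa6208d45aa4254946453a9e9cd6b2578a7a50a6a47d5a35e899b984733d7d98b13515ffe14c4a888a94a09d4417126222a1682ad11ab285662829896aa142c28c8332a95025096a452a858891b1846331845064a3199ccbd68ab992d63d284f53f0b145734d5d025a1e7e835685d12861bffc15653a114ea214a4c09940e89350856122c2cc373482aca1594631a245c41168c31994c81328d8c25198c228444224d8c26a109407998ca64311874611ccb3298443e9dd528dc2a29e442789e8bba0f53f15d3b5baa57117a7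39b88d2a74611cce2a5ec7afe8a539ac7d4b08753e4dc468de9c09786b9ac67d486aca3630a567871213328466a9c5893525282351ca6b0a7aaf7eae648e8c239955a81e893a1145461668dc11531414c8f92c67e43fcac5e9cd632a5443a9e2c48de9c09f8739b88d350e8c2399f257f4529cd632a5043a9f95885d1295e2967027a1ffeb846b454a55c09586b9f7ccca90d5946c614ac8ae25066508cb52291c74228a8c28d112a28444d8641994254514e05612356535484a93d4ca35118845f1c7d495b822a6282991ee3aa11f7bd68be35ac9d2a88b52a8f5947c614ece93711a862ce04b43dcad68be35ac9d2988b53f1ad5732435651d185333ffd708d666a46c611acd93ef85d1289d2957027610f44a0aca119b844aa94c411a8c72b9708d44e94ab812b0d93efae11a89d295702561b8469995236308d677dab11282b28465a96462a28a8c28d112a28445991cae142342545088895145381384b15141928c8a550b11282b28465ab0a62228325a85381284a31994cac44a04ca11932b49888a11186151845a21125c4116091108c4e25eb455cc968e95ac7a9f8d8a2b9ad5429ad0f1f4c6b54e894105ffe18d6a968281d2a504a8c207449a842b01361625c1a46a611aca10bd120ab2834608c4a241594546128c97104623056535084a1284625104ad22a308c644ad22e208c4608c445068b111419244089281441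
    (pm (0 : Fin 8) 1 2) 3 = 1 := by decide +kernel

theorem enum8_st : Enum8St := by
  intro Tr C h1 h2
  have H : Hy 36 Tr := ⟨C, h1, h2⟩
  obtain ⟨σ, h⟩ := base (0 : Fin 8) 1 2 (by decide) (by decide) (by decide)
    ⟨by decide, by decide, by decide⟩ run_Enum8 H
  exact ⟨σ, ft8_Enum8 (H.perm σ) (h.elim id id)⟩

end Pool.Agent.MP_5cfbf6_gt.P8
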