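import Pool.Agent.MP_5cfbf6_gt.P8.Base

set_option autoImplicit false

namespace Pool.Agent.MP_5cfbf6_gt.P8

open P7

namespace EnumG

variable {n : ℕ}

def ix (i j k : Fin n) : ℕ := n * (n * i.1 + j.1) + k.1

def bt (m : ℕ) (i j k : Fin n) : Bool := m.testBit (ix i j k)

def pm (i j k : Fin n) : ℕ :=
  2 ^ ix i j k ||| 2 ^ ix i k j ||| 2 ^ ix j i k ||| 2 ^ ix j k i ||| 2 ^ ix k i j ||| 2 ^ ix k j i

def dd [NeZero n] (t p : ℕ) : Fin n := ⟨t / n ^ p % n, Nat.mod_lt _ (Nat.pos_of_neZero n)⟩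

def cnt (T : ℕ) (i : Fin n) : ℕ := (Finset.univ.filter fun j => ∃ l, bt T i j l = true).card

/-- every known edge at `v` has two known triples -/
def sl (T : ℕ) (v : Fin n) : Prop :=
  ∀ a c, bt T v a c = true → bt T v c a = true ∧ ∃ d, d ≠ c ∧ bt T v a d = true

instance (T : ℕ) (v : Fin n) : Decidable (sl T v) := by unfold sl; infer_instance

def row (n T x : ℕ) : ℕ := (T >>> (n * x)) % 2 ^ n

def cN (n T b m : ℕ) : ℕ :=
  Nat.rec 0 (fun j r => cond (Nat.beq (row n T (b + j)) 0) r (r + 1)) m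

def sN (n T b m : ℕ) : Bool :=
  Nat.rec true (fun j r => (Nat.beq (row n T (b + j)) 0 ||
    !Nat.beq (row n T (b + j) &&& (row n T (b + j) - 1)) 0) && r) m

def cf (T : ℕ) (i : Fin n) : ℕ := cN n T (n * i.1) n

def sf (T : ℕ) (i : Fin n) : Bool := sN n T (n * i.1) n

def mk (T : ℕ) (v : Fin n) : Bool := Nat.ble 6 (cf T v) || (Nat.beq (cf T v) 3 && sf T v)

def lp (g : ℕ → ℕ → ℕ → ℕ) (T s : ℕ) (i j k : Fin n) : List (Fin n) → ℕ → ℕ
  | [], t => t
  | l :: r, t => lp g T s i j k r (cond (decide (l = i ∨ l = j ∨ l = k ∨ s < l.1)) t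
      (g t (T ||| pm i j l) (max s (l.1 + 1))))

def inj (σ : Fin n → Fin n) : Prop := ∀ a b, σ a = σ b → a = b

instance (σ : Fin n → Fin n) : Decidable (inj σ) := by unfold inj; infer_instance

abbrev TL (n : ℕ) := List (Fin n × Fin n × Fin n)

def mt (T : ℕ) (σ : Fin n → Fin n) (L : TL n) : Bool :=
  L.all fun p => bt T (σ p.1) (σ p.2.1) (σ p.2.2)

def step (tot : ℕ) (t1 t2 : TL n) (g : ℕ → ℕ → ℕ → ℕ) (t T s o : ℕ)
    (i j k l m : Fin n) (σ : Fin n → Fin n) : ℕ :=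
  match o with
  | 1 => cond (bt T i j k) (lp g T s i j k (List.finRange n) (t / n ^ 4)) 0
  | 2 => cond (bt T i j k && bt T i j l && bt T i j m && decide (k ≠ l ∧ k ≠ m ∧ l ≠ m))
      (t / n ^ 6) 0
  | 3 => cond (decide (tot < ∑ a : Fin n, cf T a)) (t / n) 0
  | 4 => cond (decide (i ≠ j) && mk T i && mk T j) (t / n ^ 3) 0
  | 5 => cond (Nat.ble 7 (cf T i)) (t / n ^ 2) 0
  | 6 => cond (decide (∀ v, v = i ∨ v = j ∨ v = k ∨
      (4 ≤ cf T v ∧ sf T v = true ∧ row n T (n * v.1 + i.1) = 0))) (t / n ^ 4) 0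
  | 7 => cond ((mt T σ t1 || mt T σ t2) && decide (inj σ)) (t / n ^ (n + 1)) 0
  | _ => 0

def step1 [NeZero n] (tot : ℕ) (t1 t2 : TL n) (g : ℕ → ℕ → ℕ → ℕ) (t T s w : ℕ) : ℕ :=
  step tot t1 t2 g t T s (w % n) (dd w 1) (dd w 2) (dd w 3) (dd w 4) (dd w 5)
    (fun a => dd w (a.1 + 1))

def go [NeZero n] (tot : ℕ) (t1 t2 : TL n) : ℕ → ℕ → ℕ → ℕ → ℕ
  | 0, _, _, _ => 0
  | f + 1, t, T, s => step1 tot t1 t2 (go tot t1 t2 f) t T s (t % n ^ (n + 1))

lemma lin {x y x' y' : ℕ} (h : n * x + y = n * x' + y') (hy : y < n) (hy' : y' < n) :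
    x = x' ∧ y = y' := by
  have h1 : (n * x + y) % n = (n * x' + y') % n := by rw [h]
  rw [Nat.mul_add_mod, Nat.mul_add_mod, Nat.mod_eq_of_lt hy, Nat.mod_eq_of_lt hy'] at h1
  subst h1
  exact ⟨Nat.eq_of_mul_eq_mul_left (by omega) (Nat.add_right_cancel h), rfl⟩

lemma ix_inj {i j k a b c : Fin n} (h : ix i j k = ix a b c) : i = a ∧ j = b ∧ k = c := by
  obtain ⟨h1, h2⟩ := lin h k.2 c.2
  obtain ⟨h3, h4⟩ := lin h1 j.2 b.2
  exact ⟨Fin.ext h3, Fin.ext h4, Fin.ext h2⟩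

lemma bt_pm {m : ℕ} {i j k a b c : Fin n} (h : bt (m ||| pm i j k) a b c = true) :
    bt m a b c = true ∨ (a = i ∧ b = j ∧ c = k) ∨ (a = i ∧ b = k ∧ c = j) ∨
      (a = j ∧ b = i ∧ c = k) ∨ (a = j ∧ b = k ∧ c = i) ∨ (a = k ∧ b = i ∧ c = j) ∨
      (a = k ∧ b = j ∧ c = i) := by
  simp only [bt, pm, Nat.testBit_or, Nat.testBit_two_pow, Bool.or_eq_true, decide_eq_true_eq] at h
  rcases h with h | ((((h | h) | h) | h) | h) | h
  · exact Or.inl h
  all_goals
    obtain ⟨rfl, rfl, rfl⟩ := ix_inj h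
    simp

def Sy (n T : ℕ) : Prop := ∀ a b c : Fin n, bt T a b c = true → bt T a c b = true

lemma Sy.add {T : ℕ} (h : Sy n T) (i j k : Fin n) : Sy n (T ||| pm i j k) := by
  intro a b c H
  rcases bt_pm H with H | ⟨rfl, rfl, rfl⟩ | ⟨rfl, rfl, rfl⟩ | ⟨rfl, rfl, rfl⟩ | ⟨rfl, rfl, rfl⟩ |
    ⟨rfl, rfl, rfl⟩ | ⟨rfl, rfl, rfl⟩
  · have := h _ _ _ H
    simp only [bt, Nat.testBit_or, Bool.or_eq_true] at this ⊢
    exact Or.inl this
  all_goals simp [bt, pm, Nat.testBit_or]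

lemma row_bit (T x l : ℕ) :
    (row n T x).testBit l = (decide (l < n) && T.testBit (n * x + l)) := by
  simp [row, Nat.testBit_mod_two_pow, Nat.testBit_shiftRight]

lemma row_bt (T : ℕ) (i j l : Fin n) : (row n T (n * i.1 + j.1)).testBit l.1 = bt T i j l := by
  rw [row_bit, decide_eq_true l.2, Bool.true_and]
  rfl

lemma row_zero {T : ℕ} {i j : Fin n} :
    row n T (n * i.1 + j.1) = 0 ↔ ∀ l, bt T i j l = false := by
  refine ⟨fun h l => by rw [← row_bt, h, Nat.zero_testBit], fun h => ?_⟩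
  refine Nat.eq_of_testBit_eq fun l => ?_
  rw [Nat.zero_testBit]
  by_cases c : l < n
  · exact (row_bt T i j ⟨l, c⟩).trans (h _)
  · rw [row_bit, decide_eq_false c, Bool.false_and]

lemma cN_eq (T b m : ℕ) :
    cN n T b m = ∑ j ∈ Finset.range m, if row n T (b + j) = 0 then 0 else 1 := by
  induction m with
  | zero => rfl
  | succ m ih =>
    rw [Finset.sum_range_succ, ← ih]
    change cond (Nat.beq (row n T (b + m)) 0) (cN n T b m) (cN n T b m + 1) = _
    by_cases c : row n T (b + m) = 0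
    · rw [if_pos c, c]
      rfl
    · rw [if_neg c, Bool.eq_false_iff.2 fun e => c (Nat.eq_of_beq_eq_true e)]
      rfl

lemma cf_eq (T : ℕ) (i : Fin n) : cf T i = cnt T i := by
  rw [cf, cN_eq, cnt, Finset.card_filter,
    ← Fin.sum_univ_eq_sum_range (fun j => if row n T (n * i.1 + j) = 0 then 0 else 1) n]
  refine Finset.sum_congr rfl fun j _ => ?_
  by_cases c : ∃ l, bt T i j l = true
  · rw [if_pos c, if_neg]
    intro e
    obtain ⟨l, hl⟩ := c
    rw [row_zero.1 e l] at hl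
    exact Bool.false_ne_true hl
  · rw [if_neg c, if_pos]
    exact row_zero.2 fun l => Bool.eq_false_iff.2 fun e => c ⟨l, e⟩

lemma sN_ok (T b : ℕ) : ∀ m, sN n T b m = true → ∀ j < m,
    row n T (b + j) = 0 ∨ row n T (b + j) &&& (row n T (b + j) - 1) ≠ 0
  | 0, _, _, h => absurd h (Nat.not_lt_zero _)
  | m + 1, h, j, hj => by
    change ((Nat.beq (row n T (b + m)) 0 ||
      !Nat.beq (row n T (b + m) &&& (row n T (b + m) - 1)) 0) && sN n T b m) = true at h
    simp only [Bool.and_eq_true, Bool.or_eq_true, Bool.not_eq_true', Nat.beq_eq] at h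
    rcases Nat.lt_succ_iff_lt_or_eq.1 hj with r | rfl
    · exact sN_ok T b m h.2 j r
    · refine h.1.imp id fun e e' => ?_
      rw [e'] at e
      exact Bool.noConfusion e

lemma sf_ok {T : ℕ} (hS : Sy n T) {v : Fin n} (h : sf T v = true) : sl T v := by
  intro a c H
  refine ⟨hS _ _ _ H, ?_⟩
  by_contra hn
  push Not at hn
  have e : row n T (n * v.1 + a.1) = 2 ^ c.1 := by
    refine Nat.eq_of_testBit_eq fun l => ?_
    rw [Nat.testBit_two_pow]
    by_cases q : l < n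
    · rw [row_bt T v a ⟨l, q⟩]
      by_cases r : c.1 = l
      · subst r
        rw [H, decide_eq_true rfl]
      · rw [decide_eq_false r]
        exact Bool.eq_false_iff.2 (hn _ fun e => r (by rw [← e]))
    · rw [row_bit, decide_eq_false q, Bool.false_and, decide_eq_false]
      have := c.2
      omega
  rcases sN_ok T _ n h a.1 a.2 with r | r
  · rw [row_zero.1 r c] at H
    exact Bool.false_ne_true H
  · rw [e, Nat.and_two_pow_sub_one_eq_mod, Nat.mod_self] at r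
    exact r rfl

structure Hy (tot : ℕ) (Tr : Fin n → Fin n → Fin n → Prop) : Prop where
  cb : Comb Tr
  sm : ∑ i, dg Tr i = tot
  u1 : ∑ i, un (dg Tr i) ≤ 1

def Gd (t1 t2 : TL n) (Tr : Fin n → Fin n → Fin n → Prop) : Prop :=
  ∃ σ : Equiv.Perm (Fin n), (∀ p ∈ t1, Tr (σ p.1) (σ p.2.1) (σ p.2.2)) ∨
    ∀ p ∈ t2, Tr (σ p.1) (σ p.2.1) (σ p.2.2)

def Iv (P : Fin n → Fin n → Fin n → Prop) (m : ℕ) : Prop := ∀ i j k, bt m i j k = true → P i j k

lemma Iv.add {P : Fin n → Fin n → Fin n → Prop} (s1 : ∀ i j k, P i j k → P j i k)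
    (s2 : ∀ i j k, P i j k → P i k j) {m : ℕ} (h : Iv P m) {i j k : Fin n} (p : P i j k) :
    Iv P (m ||| pm i j k) := by
  intro a b c H
  rcases bt_pm H with H | ⟨rfl, rfl, rfl⟩ | ⟨rfl, rfl, rfl⟩ | ⟨rfl, rfl, rfl⟩ | ⟨rfl, rfl, rfl⟩ |
    ⟨rfl, rfl, rfl⟩ | ⟨rfl, rfl, rfl⟩
  exacts [h _ _ _ H, p, s2 _ _ _ p, s1 _ _ _ p, s2 _ _ _ (s1 _ _ _ p), s1 _ _ _ (s2 _ _ _ p),
    s1 _ _ _ (s2 _ _ _ (s1 _ _ _ p))]

/-- all three labels are below `s` -/
def Bd (s : ℕ) (i j k : Fin n) : Prop := i.1 < s ∧ j.1 < s ∧ k.1 < s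

lemma Bd_add {s T : ℕ} (h : Iv (Bd (n := n) s) T) {i j l : Fin n} (hi : i.1 < s) (hj : j.1 < s) :
    Iv (Bd (n := n) (max s (l.1 + 1))) (T ||| pm i j l) := by
  refine Iv.add (fun _ _ _ p => ⟨p.2.1, p.1, p.2.2⟩) (fun _ _ _ p => ⟨p.1, p.2.2, p.2.1⟩)
    (fun a b c p => ?_) ⟨by omega, by omega, by omega⟩
  obtain ⟨h1, h2, h3⟩ := h a b c p
  exact ⟨by omega, by omega, by omega⟩

lemma cond_ne {b : Bool} {t : ℕ} (h : cond b t 0 ≠ 0) : b = true ∧ t ≠ 0 := by
  cases b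
  · exact absurd rfl h
  · exact ⟨rfl, h⟩

variable {Tr : Fin n → Fin n → Fin n → Prop} {tot : ℕ} {t1 t2 : TL n}

lemma dg_perm (σ : Equiv.Perm (Fin n)) (i : Fin n) :
    dg (fun a b c => Tr (σ a) (σ b) (σ c)) i = dg Tr (σ i) := by
  unfold dg
  rw [← Set.ncard_image_of_injective _ σ.injective]
  congr 1
  ext b
  constructor
  · rintro ⟨a, ⟨c, p⟩, rfl⟩
    exact ⟨_, p⟩
  · rintro ⟨c, p⟩
    exact ⟨σ.symm b, ⟨σ.symm c, by simpa using p⟩, by simp⟩

lemma Hy.perm (H : Hy tot Tr) (σ : Equiv.Perm (Fin n)) :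
    Hy tot fun a b c => Tr (σ a) (σ b) (σ c) := by
  refine ⟨⟨fun _ _ _ => H.cb.s12 _ _ _, fun _ _ _ => H.cb.s23 _ _ _,
    fun _ _ _ h e => H.cb.ne _ _ _ h (by rw [e]), fun a b c h => ?_⟩, ?_, ?_⟩
  · obtain ⟨x, h1, h2, h3⟩ := H.cb.two _ _ _ h
    refine ⟨σ.symm x, fun e => h1 (by rw [← e]; simp), by simpa using h2, fun y hy => ?_⟩
    exact (h3 _ hy).imp (fun e => σ.injective e) fun e => by rw [← e]; simp
  · simp only [dg_perm]
    rw [Equiv.sum_comp σ (dg Tr)]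
    exact H.sm
  · simp only [dg_perm]
    rw [Equiv.sum_comp σ (fun i => un (dg Tr i))]
    exact H.u1

lemma Gd.perm (σ : Equiv.Perm (Fin n)) (h : Gd t1 t2 fun a b c => Tr (σ a) (σ b) (σ c)) :
    Gd t1 t2 Tr := by
  obtain ⟨τ, h⟩ := h
  exact ⟨τ.trans σ, h⟩

lemma cnt_le {T : ℕ} (hT : Iv Tr T) (v : Fin n) : cnt T v ≤ dg Tr v := by
  rw [cnt, ← Set.ncard_coe_finset]
  refine Set.ncard_le_ncard fun b hb => ?_
  obtain ⟨c, hc⟩ := (Finset.mem_filter.1 hb).2
  exact ⟨c, hT _ _ _ hc⟩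

lemma le_cnt {T : ℕ} {v : Fin n} (h : ∀ u, Adj Tr v u → ∃ a, bt T v u a = true) :
    dg Tr v ≤ cnt T v := by
  rw [cnt, ← Set.ncard_coe_finset]
  refine Set.ncard_le_ncard fun b hb => ?_
  simpa using h b hb

lemma third (C : Comb Tr) {T : ℕ} (hT : Iv Tr T) {v a l c : Fin n} (hs : sl T v)
    (h : bt T v a l = true) (p : Tr v a c) : bt T v a c = true := by
  obtain ⟨-, d, hd, h2⟩ := hs a l h
  obtain ⟨k', -, -, q⟩ := C.two _ _ _ (hT _ _ _ h)
  rcases q c p with r | r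
  · rwa [r]
  · rcases q d (hT _ _ _ h2) with r' | r'
    · exact absurd r' hd
    · rwa [r, ← r']

lemma shut (C : Comb Tr) {T : ℕ} (hT : Iv Tr T) {v u : Fin n} (hs : sl T v) (h : Adj Tr v u)
    (hu : ∀ a, bt T v u a = false) : cnt T v + 3 ≤ dg Tr v := by
  classical
  obtain ⟨e, he⟩ := h
  obtain ⟨e', hne, he', -⟩ := C.two _ _ _ he
  have key : ∀ x, Tr v u x → ¬ ∃ l, bt T v x l = true := by
    rintro x hx ⟨l, hl⟩
    have h1 := (hs _ _ (third C hT hs hl (C.s23 _ _ _ hx))).1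
    rw [hu] at h1
    exact Bool.false_ne_true h1
  have nu : ∀ x, Tr v u x → u ≠ x := fun x hx => C.ne _ _ _ (C.s23 _ _ _ (C.s12 _ _ _ hx))
  set S := Finset.univ.filter fun j => ∃ l, bt T v j l = true with hS
  have m1 : e' ∉ S := fun hm => key _ he' (Finset.mem_filter.1 hm).2
  have m2 : e ∉ insert e' S := by
    intro hm
    rcases Finset.mem_insert.1 hm with r | r
    · exact hne r.symm
    · exact key _ he (Finset.mem_filter.1 r).2
  have m3 : u ∉ insert e (insert e' S) := by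
    intro hm
    rcases Finset.mem_insert.1 hm with r | r
    · exact nu _ he r
    rcases Finset.mem_insert.1 r with r | r
    · exact nu _ he' r
    · obtain ⟨l, hl⟩ := (Finset.mem_filter.1 r).2
      rw [hu] at hl
      exact Bool.false_ne_true hl
  have hc : (insert u (insert e (insert e' S))).card = cnt T v + 3 := by
    rw [Finset.card_insert_of_notMem m3, Finset.card_insert_of_notMem m2,
      Finset.card_insert_of_notMem m1, cnt]
  rw [← hc, ← Set.ncard_coe_finset]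
  refine Set.ncard_le_ncard fun b hb => ?_
  simp only [Finset.coe_insert, Set.mem_insert_iff] at hb
  rcases hb with rfl | rfl | rfl | hb
  · exact ⟨_, he⟩
  · exact ⟨_, C.s23 _ _ _ he⟩
  · exact ⟨_, C.s23 _ _ _ he'⟩
  · obtain ⟨c, hc⟩ := (Finset.mem_filter.1 hb).2
    exact ⟨c, hT _ _ _ hc⟩

lemma mk_ok (C : Comb Tr) {T : ℕ} (hT : Iv Tr T) (hS : Sy n T) {v : Fin n}
    (h : mk T v = true) : 1 ≤ un (dg Tr v) := by
  simp only [mk, Bool.or_eq_true, Bool.and_eq_true, Nat.ble_eq, Nat.beq_eq, cf_eq] at h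
  have h0 := cnt_le hT v
  unfold un
  rcases h with h | ⟨h1, h2⟩
  · omega
  · by_cases h3 : ∀ u, Adj Tr v u → ∃ a, bt T v u a = true
    · have := le_cnt h3
      omega
    · push Not at h3
      obtain ⟨u, h4, h5⟩ := h3
      have := shut C hT (sf_ok hS h2) h4 fun a => by simpa using h5 a
      omega

lemma Hy.one (H : Hy tot Tr) (v : Fin n) : 3 ≤ dg Tr v ∧ dg Tr v ≤ 6 := by
  have h1 : un (dg Tr v) ≤ ∑ i, un (dg Tr i) :=
    Finset.single_le_sum (f := fun i => un (dg Tr i)) (fun _ _ => Nat.zero_le _)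
      (Finset.mem_univ v)
  have h2 := h1.trans H.u1
  unfold un at h2
  omega

lemma lp_ok {g : ℕ → ℕ → ℕ → ℕ} (g0 : ∀ T s, g 0 T s = 0) {T s : ℕ} {i j k : Fin n} :
    ∀ (L : List (Fin n)) (t : ℕ), lp g T s i j k L t ≠ 0 → t ≠ 0 ∧ ∀ l ∈ L,
      ¬ (l = i ∨ l = j ∨ l = k ∨ s < l.1) → ∃ t', g t' (T ||| pm i j l) (max s (l.1 + 1)) ≠ 0
  | [], t, h => ⟨h, fun _ hl => absurd hl List.not_mem_nil⟩
  | l :: r, t, h => by
    obtain ⟨h1, h2⟩ := lp_ok g0 r _ h
    by_cases c : l = i ∨ l = j ∨ l = k ∨ s < l.1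
    · rw [decide_eq_true c, cond_true] at h1
      refine ⟨h1, fun x hx hc => ?_⟩
      rcases List.mem_cons.1 hx with rfl | hx
      · exact absurd c hc
      · exact h2 x hx hc
    · rw [decide_eq_false c, cond_false] at h1
      refine ⟨fun e => h1 (by rw [e, g0]), fun x hx hc => ?_⟩
      rcases List.mem_cons.1 hx with rfl | hx
      · exact ⟨t, h1⟩
      · exact h2 x hx hc

lemma go_zero [NeZero n] (f T s : ℕ) : go tot t1 t2 f 0 T s = 0 := by
  cases f
  · rfl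
  · simp [go, step1, step]

lemma go_ok [NeZero n] (f : ℕ) : ∀ t T s : ℕ, go tot t1 t2 f t T s ≠ 0 →
    Iv (Bd (n := n) s) T → Sy n T → ∀ Tr : Fin n → Fin n → Fin n → Prop, Hy tot Tr → Iv Tr T →
    Gd t1 t2 Tr := by
  induction f with
  | zero => exact fun t T s h => absurd rfl h
  | succ f ih =>
    intro t T s h hB hS Tr H hT
    have C := H.cb
    rw [go, step1] at h
    generalize (fun a : Fin n => (dd (t % n ^ (n + 1)) (a.1 + 1) : Fin n)) = σ at h
    generalize (dd (t % n ^ (n + 1)) 1 : Fin n) = i at h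
    generalize (dd (t % n ^ (n + 1)) 2 : Fin n) = j at h
    generalize (dd (t % n ^ (n + 1)) 3 : Fin n) = k at h
    generalize (dd (t % n ^ (n + 1)) 4 : Fin n) = l at h
    generalize (dd (t % n ^ (n + 1)) 5 : Fin n) = m at h
    unfold step at h
    split at h
    · obtain ⟨h1, h2⟩ := cond_ne h
      have h3 := (lp_ok (go_zero f) _ _ h2).2
      obtain ⟨b1, b2, b3⟩ := hB _ _ _ h1
      obtain ⟨x, hx, p, -⟩ := C.two _ _ _ (hT _ _ _ h1)
      by_cases c : s < x.1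
      · have hs : s < n := c.trans x.2
        obtain ⟨t', h4⟩ := h3 ⟨s, hs⟩ (List.mem_finRange _) (by
          simp only [Fin.ext_iff]; omega)
        have fx : ∀ a : Fin n, a.1 < s → Equiv.swap (⟨s, hs⟩ : Fin n) x a = a := fun a ha =>
          Equiv.swap_apply_of_ne_of_ne (by simp only [Ne, Fin.ext_iff]; omega)
            (by simp only [Ne, Fin.ext_iff]; omega)
        have H' := H.perm (Equiv.swap (⟨s, hs⟩ : Fin n) x)
        refine Gd.perm _ (ih _ _ _ h4 (Bd_add hB b1 b2) (hS.add _ _ _) _ H'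
          (Iv.add H'.cb.s12 H'.cb.s23 (fun a b c q => ?_) ?_))
        · obtain ⟨q1, q2, q3⟩ := hB _ _ _ q
          simp only [fx _ q1, fx _ q2, fx _ q3]
          exact hT _ _ _ q
        · simp only [fx _ b1, fx _ b2, Equiv.swap_apply_left]
          exact p
      · obtain ⟨t', h4⟩ := h3 x (List.mem_finRange _) (by
          rintro (r | r | r | r)
          · exact C.ne _ _ _ (C.s23 _ _ _ p) r.symm
          · exact C.ne _ _ _ (C.s23 _ _ _ (C.s12 _ _ _ p)) r.symm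
          · exact hx r
          · exact c r)
        exact ih _ _ _ h4 (Bd_add hB b1 b2) (hS.add _ _ _) _ H (hT.add C.s12 C.s23 p)
    · have h1 := (cond_ne h).1
      simp only [Bool.and_eq_true, decide_eq_true_eq] at h1
      obtain ⟨⟨⟨a, b⟩, c⟩, d, e, g⟩ := h1
      obtain ⟨k', -, -, q⟩ := C.two _ _ _ (hT _ _ _ a)
      rcases q l (hT _ _ _ b) with r | r
      · exact absurd r.symm d
      · rcases q m (hT _ _ _ c) with r' | r'
        · exact absurd r'.symm e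
        · exact absurd (r.trans r'.symm) g
    · have h1 := of_decide_eq_true (cond_ne h).1
      simp only [cf_eq] at h1
      exact absurd (h1.trans_le ((Finset.sum_le_sum fun a _ => cnt_le hT a).trans H.sm.le))
        (lt_irrefl _)
    · have h1 := (cond_ne h).1
      simp only [Bool.and_eq_true, decide_eq_true_eq] at h1
      obtain ⟨⟨a, b⟩, c⟩ := h1
      have h2 := mk_ok C hT hS b
      have h3 := mk_ok C hT hS c
      have h4 : un (dg Tr i) + un (dg Tr j) ≤ ∑ v, un (dg Tr v) :=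
        Finset.add_le_sum (f := fun v => un (dg Tr v)) (fun _ _ => Nat.zero_le _)
          (Finset.mem_univ i) (Finset.mem_univ j) a
      have h5 := H.u1
      omega
    · have h1 := Nat.le_of_ble_eq_true (cond_ne h).1
      rw [cf_eq] at h1
      have h2 := cnt_le hT i
      have h3 := H.one i
      omega
    · have h1 := of_decide_eq_true (cond_ne h).1
      have h2 : {a | Adj Tr i a} ⊆ {j, k} := by
        rintro a ⟨b, p⟩
        rcases h1 a with r | r | r | ⟨r1, r2, r3⟩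
        · exact absurd r.symm (C.ne _ _ _ p)
        · exact Or.inl r
        · exact Or.inr r
        · have h3 := shut C hT (sf_ok hS r2) ⟨b, C.s12 _ _ _ p⟩ (row_zero.1 r3)
          rw [cf_eq] at r1
          have h4 := H.one a
          omega
      have h3 := Set.ncard_le_ncard h2
      have h5 := Set.ncard_insert_le j ({k} : Set (Fin n))
      have h6 := H.one i
      rw [Set.ncard_singleton] at h5
      unfold dg at h6
      omega
    · have h1 := (cond_ne h).1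
      simp only [mt, Bool.and_eq_true, Bool.or_eq_true, decide_eq_true_eq, List.all_eq_true] at h1
      have h6 : Function.Bijective σ := Finite.injective_iff_bijective.1 fun a b => h1.2 a b
      exact ⟨Equiv.ofBijective σ h6, h1.1.imp (fun q p hp => hT _ _ _ (q p hp))
        fun q p hp => hT _ _ _ (q p hp)⟩
    · exact absurd rfl h

lemma inj3 {a b c : Fin n} (hab : a ≠ b) (hac : a ≠ c) (hbc : b ≠ c) :
    Function.Injective (![a, b, c] : Fin 3 → Fin n) := by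
  intro x y h
  fin_cases x <;> fin_cases y
  exacts [rfl, absurd h hab, absurd h hac, absurd h hab.symm, rfl, absurd h hbc,
    absurd h hac.symm, absurd h hbc.symm, rfl]

theorem base [NeZero n] {f t : ℕ} (a b c : Fin n) (hab : a ≠ b) (hac : a ≠ c) (hbc : b ≠ c)
    (hB : Bd 3 a b c) (run : go tot t1 t2 f t (pm a b c) 3 = 1) (H : Hy tot Tr) :
    Gd t1 t2 Tr := by
  have C := H.cb
  obtain ⟨j, k, p⟩ : ({j | Adj Tr a j} : Set (Fin n)).Nonempty :=
    Set.nonempty_of_ncard_ne_zero (fun e => by have := (H.one a).1; rw [dg, e] at this; omega)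
  have d1 := C.ne _ _ _ p
  have d2 := C.ne _ _ _ (C.s23 _ _ _ p)
  have d3 := C.ne _ _ _ (C.s23 _ _ _ (C.s12 _ _ _ p))
  obtain ⟨σ, hσ⟩ := Equiv.Perm.exists_extending_pair (f := (![a, b, c] : Fin 3 → Fin n))
    (g := ![a, j, k]) (inj3 hab hac hbc) (inj3 d1 d2 d3)
  have e0 : σ a = a := hσ 0
  have e1 : σ b = j := hσ 1
  have e2 : σ c = k := hσ 2
  have H' := H.perm σ
  have z : ∀ P : Fin n → Fin n → Fin n → Prop, Iv P 0 := fun P i j k h => by simp [bt] at h
  refine Gd.perm σ (go_ok f t _ 3 (by rw [run]; exact one_ne_zero) ?_ ?_ _ H' ?_)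
  · simpa only [Nat.zero_or] using Iv.add (P := Bd (n := n) 3) (fun _ _ _ p => ⟨p.2.1, p.1, p.2.2⟩)
      (fun _ _ _ p => ⟨p.1, p.2.2, p.2.1⟩) (z _) hB
  · simpa only [Nat.zero_or] using Sy.add (T := 0) (fun i j k h => by simp [bt] at h) a b c
  · simpa only [Nat.zero_or] using Iv.add H'.cb.s12 H'.cb.s23 (z _)
      (i := a) (j := b) (k := c) (by rw [e0, e1, e2]; exact p)

def msk : TL n → ℕ
  | [] => 0
  | p :: r => msk r ||| pm p.1 p.2.1 p.2.2

lemma msk_ok (C : Comb Tr) : ∀ L : TL n, (∀ p ∈ L, Tr p.1 p.2.1 p.2.2) →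
    Iv Tr (msk L) ∧ Sy n (msk L)
  | [], _ => ⟨fun i j k h => by simp [bt, msk] at h, fun i j k h => by simp [bt, msk] at h⟩
  | p :: r, h => by
    obtain ⟨h1, h2⟩ := msk_ok C r fun q hq => h q (List.mem_cons_of_mem _ hq)
    exact ⟨h1.add C.s12 C.s23 (h p List.mem_cons_self), h2.add _ _ _⟩

/-- a closed list of triples with all the edges is the whole structure -/
theorem fin_ok (H : Hy tot Tr) {L : TL n} {M : ℕ} (e : msk L = M)
    (h1 : tot ≤ ∑ a : Fin n, cf M a) (h2 : ∀ v : Fin n, sf M v = true)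
    (h : ∀ p ∈ L, Tr p.1 p.2.1 p.2.2) (a b c : Fin n) : Tr a b c ↔ bt M a b c = true := by
  have C := H.cb
  obtain ⟨hT, hS⟩ := msk_ok C L h
  rw [e] at hT hS
  simp only [cf_eq] at h1
  refine ⟨fun p => ?_, hT a b c⟩
  by_cases q : ∃ x, bt M a b x = true
  · obtain ⟨x, q⟩ := q
    exact third C hT (sf_ok hS (h2 a)) q p
  · push Not at q
    have h6 := shut C hT (sf_ok hS (h2 a)) ⟨c, p⟩ fun x => by simpa using q x
    have h7 : ∑ v, cnt M v < ∑ v, dg Tr v :=
      Finset.sum_lt_sum (fun v _ => cnt_le hT v) ⟨a, Finset.mem_univ a, by omega⟩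
    have h8 := H.sm
    omega

end EnumG

end Pool.Agent.MP_5cfbf6_gt.P8
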