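import Pool.Agent.MP_5cfbf6_gt.P8.Base2
import Pool.Agent.MP_5cfbf6_gt.P8.EnumG

set_option autoImplicit false

namespace Pool.Agent.MP_5cfbf6_gt.P8

open P7

namespace EnumH

def tab : ℕ :=
  0xcbbabaa9baa9a998baa9a998a9989887baa9a998a9989887a998988798878776baa9a998a9989887a998988798878776a9989887988787769887877687767665baa9a998a9989887a998988798878776a9989887988787769887877687767665a998988798878776988787768776766598878776877676658776766576656554baa9a998a9989887a998988798878776a9989887988787769887877687767665a998988798878776988787768776766598878776877676658776766576656554a9989887988787769887877687767665988787768776766587767665766565549887877687767665877676657665655487767665766565547665655465545443baa9a998a9989887a998988798878776a9989887988787769887877687767665a998988798878776988787768776766598878776877676658776766576656554a9989887988787769887877687767665988787768776766587767665766565549887877687767665877676657665655487767665766565547665655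465545443a998988798878776988787768776766598878776877676658776766576656554988787768776766587767665766565548776766576656554766565546554544398878776877676658776766576656554877676657665655476656554655454438776766576656554766565546554544376656554655454436554544354434332baa9a998a9989887a998988798878776a9989887988787769887877687767665a998988798878776988787768776766598878776877676658776766576656554a9989887988787769887877687767665988787768776766587767665766565549887877687767665877676657665655487767665766565547665655465545443a998988798878776988787768776766598878776877676658776766576656554988787768776766587767665766565548776766576656554766565546554544398878776877676658776766576656554877676657665655476656554655454438776766576656554766565546554544376656554655454436554544354434332a99898879887877698878776877676659887877687767665877676657665655498878776877676658776766576656554877676657665655476656554655454439887877687767665877676657665655487767665766565547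66565546554544387767665766565547665655465545443766565546554544365545443544343329887877687767665877676657665655487767665766565547665655465545443877676657665655476656554655454437665655465545443655454435443433287767665766565547665655465545443766565546554544365545443544343327665655465545443655454435443433265545443544343325443433243323221baa9a998a9989887a998988798878776a9989887988787769887877687767665a998988798878776988787768776766598878776877676658776766576656554a9989887988787769887877687767665988787768776766587767665766565549887877687767665877676657665655487767665766565547665655465545443a998988798878776988787768776766598878776877676658776766576656554988787768776766587767665766565548776766576656554766565546554544398878776877676658776766576656554877676657665655476656554655454438776766576656554766565546554544376656554655454436554544354434332a9989887988787769887877687767665988787768776766587767665766565549887877687767665877676657665655487767665766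565547665655465545443988787768776766587767665766565548776766576656554766565546554544387767665766565547665655465545443766565546554544365545443544343329887877687767665877676657665655487767665766565547665655465545443877676657665655476656554655454437665655465545443655454435443433287767665766565547665655465545443766565546554544365545443544343327665655465545443655454435443433265545443544343325443433243323221a998988798878776988787768776766598878776877676658776766576656554988787768776766587767665766565548776766576656554766565546554544398878776877676658776766576656554877676657665655476656554655454438776766576656554766565546554544376656554655454436554544354434332988787768776766587767665766565548776766576656554766565546554544387767665766565547665655465545443766565546554544365545443544343328776766576656554766565546554544376656554655454436554544354434332766565546554544365545443544343326554544354434332544343324332322198878776877676658776766576656554877676657665655476656554655454438776766576656554766565546554544376656554655454436554544354434332877676657665655476656554655454437665655465545443655454435443433276656554655454436554544354434332655454435443433254434332433232218776766576656554766565546554544376656554655454436554544354434332766565546554544365545443544343326554544354434332544343324332322176656554655454436554544354434332655454435443433254434332433232216554544354434332544343324332322154434332433232214332322132212110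

def bit (x i : ℕ) : Bool := Nat.beq (Nat.land (Nat.shiftRight x i) 1) 1

def p2 (i : ℕ) : ℕ := Nat.shiftLeft 1 i

def pr (i j : ℕ) : ℕ := Nat.lor (p2 i) (p2 j)

def tm (i j k : ℕ) : ℕ := Nat.lor (pr i j) (p2 k)

def ro (E v : ℕ) : ℕ := Nat.land (Nat.shiftRight E (Nat.mul 16 v)) 4095

def hx (w i : ℕ) : ℕ := Nat.land (Nat.shiftRight w (Nat.mul 4 i)) 15

def pc (x : ℕ) : ℕ := hx tab x

def sm (w : ℕ → ℕ) (m : ℕ) : ℕ := Nat.rec 0 (fun v r => Nat.add (w v) r) m

def al (w : ℕ → Bool) (m : ℕ) : Bool := Nat.rec true (fun v r => cond (w v) r false) m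

def ors (w : ℕ → ℕ) (m : ℕ) : ℕ := Nat.rec 0 (fun v r => Nat.lor (p2 (w v)) r) m

def pp (i j l : ℕ) : ℕ :=
  Nat.lor (Nat.lor (Nat.shiftLeft (pr j l) (Nat.mul 16 i)) (Nat.shiftLeft (pr i l) (Nat.mul 16 j)))
    (Nat.shiftLeft (pr i j) (Nat.mul 16 l))

def cl (E F v : ℕ) : ℕ := cond (Nat.beq (ro E v) (ro F v)) (p2 v) 0

def nC (C E F i j l : ℕ) : ℕ := Nat.lor (Nat.lor C (cl E F i)) (Nat.lor (cl E F j) (cl E F l))

/-- add a triple and continue -/
def ad {α : Type} (g : ℕ → ℕ → ℕ → ℕ → α) (T E F C i j l : ℕ) : α :=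
  g (Nat.lor T (p2 (tm i j l))) (Nat.lor E (pp i j l)) (Nat.lor F (Nat.land E (pp i j l)))
    (nC C (Nat.lor E (pp i j l)) (Nat.lor F (Nat.land E (pp i j l))) i j l)

def lp (g : ℕ → ℕ → ℕ) (f : ℕ) : ℕ → ℕ → ℕ :=
  Nat.rec (fun _ _ => 0) (fun _ ih m t => cond (Nat.beq m 0) t
    (ih (Nat.xor m (p2 (Nat.log2 m))) (g t (Nat.log2 m)))) f

def mx (a b : ℕ) : ℕ := cond (Nat.ble a b) b a

/-- a sum of lower bounds -/
def sb (n E C : ℕ) (wc wo : ℕ → ℕ) : ℕ :=
  sm (fun v => cond (bit C v) (wc (pc (ro E v))) (wo (mx (pc (ro E v)) (pc (ro E 0))))) n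

def w0 (c : ℕ) : ℕ := Nat.add (Nat.sub 4 c) (Nat.sub c 5)

def w1 (c : ℕ) : ℕ := Nat.add (w0 c) c

def w2 (c : ℕ) : ℕ := Nat.add (Nat.sub 4 c) (Nat.sub 5 c)

abbrev TN := List (ℕ × ℕ × ℕ)

abbrev SN := ℕ × ℕ × ℕ × ℕ × ℕ

def mt (T σ : ℕ) (L : TN) : Bool :=
  List.rec true (fun p _ r => cond (bit T (tm (hx σ p.1) (hx σ p.2.1) (hx σ p.2.2))) r false) L

def nth {α : Type} (P : α → Bool) (L : List α) : ℕ → Bool :=
  List.rec (fun _ => false) (fun a _ r i => cond (Nat.beq i 0) (P a) (r (Nat.sub i 1))) L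

def lk (T E F v a b A : ℕ) : Bool :=
  bit A a && !bit A b && bit (ro E v) a && bit (ro E v) b && Nat.beq (Nat.land (ro F v) A) A &&
    al (fun j => cond (bit A j) (al (fun k => bit A k || !bit T (tm v j k)) 12) true) 12

def by2 (w : ℕ) : ℕ := Nat.land (Nat.shiftRight w 4) 255

def chk (n tot U : ℕ) (Ls : List TN) (K : List SN) (o w s T E F C : ℕ) : Bool :=
  cond (Nat.beq o 2) (Nat.blt U (sb n E C w0 fun c => Nat.sub c 5))
  (cond (Nat.beq o 3) (Nat.blt (Nat.add U tot) (sb n E C w1 w1))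
  (cond (Nat.beq o 4) (bit C (hx w 1) && Nat.blt (pc (ro E (hx w 1))) (pc (ro E 0)))
  (cond (Nat.beq o 5) (nth (mt T (Nat.shiftRight w 12)) Ls (by2 w) &&
    Nat.beq (ors (hx (Nat.shiftRight w 12)) n) (Nat.sub (p2 n) 1))
  (cond (Nat.beq o 6) (Nat.blt (Nat.add U (Nat.mul 5 n)) (Nat.add (sb n E C w2 fun _ => 0) tot))
  (cond (Nat.beq o 7) (Nat.blt tot (sb n E C id id))
  (cond (Nat.beq o 8) (lk T E F (hx w 1) (hx w 2) (hx w 3) (Nat.land (Nat.shiftRight w 16) 4095))
  (cond (Nat.beq o 9) (Nat.beq E F && Nat.blt s n && bit (ro E 0) (hx w 1))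
  (cond (Nat.beq o 10) (nth (fun q => Nat.beq q.1 s && Nat.beq q.2.1 T && Nat.beq q.2.2.1 E &&
    Nat.beq q.2.2.2.1 F && Nat.beq q.2.2.2.2 C) K (by2 w)) false))))))))

def cand (n s X : ℕ) : ℕ :=
  Nat.xor (Nat.land (Nat.sub (p2 (Nat.succ s)) 1) (Nat.sub (p2 n) 1))
    (Nat.land (Nat.land (Nat.sub (p2 (Nat.succ s)) 1) (Nat.sub (p2 n) 1)) X)

def br (n : ℕ) (g : ℕ → ℕ → ℕ → ℕ → ℕ → ℕ → ℕ) (t s T E F C i j k : ℕ) : ℕ :=
  cond (bit T (tm i j k) && !bit (ro F i) j)
    (lp (fun t l => ad (g t (cond (Nat.beq l s) (Nat.succ s) s)) T E F C i j l) 16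
      (cand n s (Nat.lor (Nat.lor (ro F i) (ro F j)) (Nat.lor C (tm i j k)))) t) 0

def st (n tot U : ℕ) (Ls : List TN) (K : List SN) (g : ℕ → ℕ → ℕ → ℕ → ℕ → ℕ → ℕ)
    (t s T E F C w : ℕ) : ℕ :=
  cond (Nat.beq (Nat.land w 15) 1)
    (br n g (Nat.shiftRight t 16) s T E F C (hx w 1) (hx w 2) (hx w 3))
    (cond (chk n tot U Ls K (Nat.land w 15) w s T E F C)
      (Nat.shiftRight t (Nat.mul 4 (hx 0x32711f21100 (Nat.land w 15)))) 0)

def go (n tot U : ℕ) (Ls : List TN) (K : List SN) (f : ℕ) : ℕ → ℕ → ℕ → ℕ → ℕ → ℕ → ℕ :=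
  Nat.rec (fun _ _ _ _ _ _ => 0) (fun _ ih t s T E F C =>
    st n tot U Ls K ih t s T E F C (Nat.land t 0xffffffffffffffff)) f

lemma bit_eq (x i : ℕ) : bit x i = x.testBit i := by
  change Nat.beq ((x >>> i) &&& 1) 1 = _
  rw [Nat.and_one_is_mod, Nat.testBit_eq_decide_div_mod_eq, Nat.shiftRight_eq_div_pow,
    Bool.eq_iff_iff, Nat.beq_eq, decide_eq_true_eq]

lemma p2_eq (i : ℕ) : p2 i = 2 ^ i := Nat.one_shiftLeft i

lemma lor_bit (x y i : ℕ) : (Nat.lor x y).testBit i = true ↔ x.testBit i = true ∨ y.testBit i = true := by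
  change (x ||| y).testBit i = true ↔ _
  rw [Nat.testBit_or, Bool.or_eq_true]

lemma land_bit (x y i : ℕ) :
    (Nat.land x y).testBit i = true ↔ x.testBit i = true ∧ y.testBit i = true := by
  change (x &&& y).testBit i = true ↔ _
  rw [Nat.testBit_and, Bool.and_eq_true]

lemma xor_bit (x y i : ℕ) :
    (Nat.xor x y).testBit i = true ↔ ¬ (x.testBit i = true ↔ y.testBit i = true) := by
  change (x ^^^ y).testBit i = true ↔ _
  rw [Nat.testBit_xor]
  cases x.testBit i <;> cases y.testBit i <;> simp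

lemma p2_bit (i y : ℕ) : (p2 i).testBit y = true ↔ y = i := by
  rw [p2_eq, Nat.testBit_two_pow, decide_eq_true_eq, eq_comm]

lemma ones_bit (i y : ℕ) : (Nat.sub (p2 i) 1).testBit y = true ↔ y < i := by
  change (p2 i - 1).testBit y = true ↔ _
  rw [p2_eq, Nat.testBit_two_pow_sub_one, decide_eq_true_eq]

lemma tm_bit (i j k y : ℕ) : (tm i j k).testBit y = true ↔ y = i ∨ y = j ∨ y = k := by
  simp only [tm, pr, lor_bit, p2_bit, or_assoc]

lemma mk12 (i j k : ℕ) : tm i j k = tm j i k :=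
  Nat.eq_of_testBit_eq fun y => by rw [Bool.eq_iff_iff, tm_bit, tm_bit]; tauto

lemma mk23 (i j k : ℕ) : tm i j k = tm i k j :=
  Nat.eq_of_testBit_eq fun y => by rw [Bool.eq_iff_iff, tm_bit, tm_bit]; tauto

lemma perm6 {a b c i j l : ℕ} (h : tm a b c = tm i j l) (h1 : i ≠ j) (h2 : i ≠ l) (h3 : j ≠ l) :
    (a = i ∧ b = j ∧ c = l) ∨ (a = i ∧ b = l ∧ c = j) ∨ (a = j ∧ b = i ∧ c = l) ∨
      (a = j ∧ b = l ∧ c = i) ∨ (a = l ∧ b = i ∧ c = j) ∨ (a = l ∧ b = j ∧ c = i) := by
  have k1 : ∀ y, (y = a ∨ y = b ∨ y = c) ↔ (y = i ∨ y = j ∨ y = l) := fun y => by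
    rw [← tm_bit, ← tm_bit, h]
  have a1 := (k1 i).2 (by simp)
  have a2 := (k1 j).2 (by simp)
  have a3 := (k1 l).2 (by simp)
  rcases a1 with rfl | rfl | rfl <;> rcases a2 with rfl | rfl | rfl <;>
    rcases a3 with rfl | rfl | rfl <;>
    first | exact absurd rfl h1 | exact absurd rfl h2 | exact absurd rfl h3 | simp

lemma ro_bit (E v b : ℕ) :
    (ro E v).testBit b = true ↔ b < 12 ∧ E.testBit (16 * v + b) = true := by
  change ((E >>> (16 * v)) &&& (2 ^ 12 - 1)).testBit b = true ↔ _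
  rw [Nat.testBit_and, Nat.testBit_shiftRight, Nat.testBit_two_pow_sub_one, Bool.and_eq_true,
    decide_eq_true_eq, and_comm]

lemma ro_lt (E v : ℕ) : ro E v < 4096 := Nat.lt_succ_of_le Nat.and_le_right

lemma sh_bit (i j k y : ℕ) : (Nat.shiftLeft (pr i j) (Nat.mul 16 k)).testBit y = true ↔
    y = 16 * k + i ∨ y = 16 * k + j := by
  change (pr i j <<< (16 * k)).testBit y = true ↔ _
  rw [Nat.testBit_shiftLeft, Bool.and_eq_true, decide_eq_true_eq, pr, lor_bit, p2_bit, p2_bit]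
  omega

lemma pp_bit {i j l a b : ℕ} (hi : i < 12) (hj : j < 12) (hl : l < 12) (hb : b < 12)
    (h1 : i ≠ j) (h2 : i ≠ l) (h3 : j ≠ l) :
    (pp i j l).testBit (16 * a + b) = true ↔ ∃ c, tm a b c = tm i j l := by
  simp only [pp, lor_bit, sh_bit]
  constructor
  · intro h
    have k : ∀ x y, y < 12 → 16 * a + b = 16 * x + y → a = x ∧ b = y := fun x y _ _ => by omega
    rcases h with ((h | h) | h | h) | h | h <;> obtain ⟨rfl, rfl⟩ := k _ _ (by assumption) h
    exacts [⟨_, rfl⟩, ⟨_, mk23 _ _ _⟩, ⟨_, mk12 _ _ _⟩, ⟨_, (mk23 _ _ _).trans (mk12 _ _ _)⟩,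
      ⟨_, (mk12 _ _ _).trans (mk23 _ _ _)⟩,
      ⟨_, (mk12 _ _ _).trans ((mk23 _ _ _).trans (mk12 _ _ _))⟩]
  · rintro ⟨c, h⟩
    rcases perm6 h h1 h2 h3 with ⟨rfl, rfl, rfl⟩ | ⟨rfl, rfl, rfl⟩ | ⟨rfl, rfl, rfl⟩ |
      ⟨rfl, rfl, rfl⟩ | ⟨rfl, rfl, rfl⟩ | ⟨rfl, rfl, rfl⟩ <;> simp

lemma sm_eq (w : ℕ → ℕ) (m : ℕ) : sm w m = ∑ v ∈ Finset.range m, w v := by
  induction m with
  | zero => rfl
  | succ m ih => rw [Finset.sum_range_succ, ← ih]; exact Nat.add_comm _ _

lemma al_ok {w : ℕ → Bool} : ∀ {m : ℕ}, al w m = true → ∀ v < m, w v = true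
  | 0, _, _, h => absurd h (Nat.not_lt_zero _)
  | m + 1, h, v, hv => by
    change cond (w m) (al w m) false = true at h
    cases e : w m
    · rw [e] at h; exact absurd h Bool.false_ne_true
    · rw [e] at h
      rcases Nat.lt_succ_iff_lt_or_eq.1 hv with r | rfl
      · exact al_ok h v r
      · exact e

lemma ors_bit (w : ℕ → ℕ) (m y : ℕ) : (ors w m).testBit y = true ↔ ∃ v < m, w v = y := by
  induction m with
  | zero => simp [ors]
  | succ m ih =>
    change (Nat.lor (p2 (w m)) (ors w m)).testBit y = true ↔ _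
    rw [lor_bit, p2_bit, ih, Nat.exists_lt_succ_right, or_comm, eq_comm]

lemma tab_chk : al (fun a => al (fun b => Nat.beq (pc (64 * a + b))
    (sm (fun j => cond (bit (64 * a + b) j) 1 0) 12)) 64) 64 = true := by decide +kernel

lemma pc_eq {x : ℕ} (h : x < 4096) :
    pc x = ((Finset.range 12).filter fun j => x.testBit j = true).card := by
  have h1 := al_ok (al_ok tab_chk (x / 64) (by omega)) (x % 64) (by omega)
  rw [Nat.div_add_mod, Nat.beq_eq, sm_eq] at h1
  rw [h1, Finset.card_filter]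
  refine Finset.sum_congr rfl fun j _ => ?_
  rw [bit_eq]
  cases x.testBit j <;> rfl

section perm

variable {ι : Type} {R : ι → ι → ι → Prop} (σ : Equiv.Perm ι)

lemma dg_perm (i : ι) : dg (fun a b c => R (σ a) (σ b) (σ c)) i = dg R (σ i) := by
  unfold dg
  rw [← Set.ncard_image_of_injective _ σ.injective]
  congr 1
  ext b
  constructor
  · rintro ⟨a, ⟨c, p⟩, rfl⟩
    exact ⟨_, p⟩
  · rintro ⟨c, p⟩
    exact ⟨σ.symm b, ⟨σ.symm c, by simpa using p⟩, by simp⟩

lemma comb_perm (C : Comb R) : Comb fun a b c => R (σ a) (σ b) (σ c) := by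
  refine ⟨fun _ _ _ => C.s12 _ _ _, fun _ _ _ => C.s23 _ _ _,
    fun _ _ _ h e => C.ne _ _ _ h (by rw [e]), fun a b c h => ?_⟩
  obtain ⟨x, h1, h2, h3⟩ := C.two _ _ _ h
  refine ⟨σ.symm x, fun e => h1 (by rw [← e]; simp), by simpa using h2, fun y hy => ?_⟩
  exact (h3 _ hy).imp (fun e => σ.injective e) fun e => by rw [← e]; simp

lemma link_perm (L : LinkC R) : LinkC fun a b c => R (σ a) (σ b) (σ c) := by
  rintro i A h1 j hj ⟨c, p⟩ k ⟨d, q⟩
  have := L (σ i) {x | σ.symm x ∈ A} (fun x hx y r => h1 _ hx _ (by simpa using r)) (σ j)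
    (by simpa using hj) ⟨_, p⟩ (σ k) ⟨_, q⟩
  simpa using this

end perm

variable {n tot U : ℕ} {Ls : List TN} {K : List SN} {R : ℕ → ℕ → ℕ → Prop}

structure Hy (n tot U : ℕ) (R : ℕ → ℕ → ℕ → Prop) : Prop where
  cb : Comb R
  lc : LinkC R
  gc : ∀ A : Set ℕ, (∀ i ∈ A, ∀ j, Adj R i j → j ∈ A) → ∀ i ∈ A, i < n → ∀ j < n, j ∈ A
  bd : ∀ a b c, R a b c → b < n
  sm : ∑ v ∈ Finset.range n, dg R v = tot
  su : ∑ v ∈ Finset.range n, un (dg R v) ≤ U

def Mn (n : ℕ) (R : ℕ → ℕ → ℕ → Prop) : Prop := ∀ v < n, dg R 0 ≤ dg R v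

def Gd (n : ℕ) (Ls : List TN) (R : ℕ → ℕ → ℕ → Prop) : Prop :=
  ∃ σ : ℕ → ℕ, (∀ a < n, σ a < n) ∧ (∀ b < n, ∃ a < n, σ a = b) ∧
    ∃ L ∈ Ls, ∀ p ∈ L, R (σ p.1) (σ p.2.1) (σ p.2.2)

lemma swap_lt {x y a : ℕ} (hx : x < n) (hy : y < n) : Equiv.swap x y a < n ↔ a < n := by
  rw [Equiv.swap_apply_def]
  split_ifs <;> omega

lemma Hy.swap (H : Hy n tot U R) {x y : ℕ} (hx : x < n) (hy : y < n) :
    Hy n tot U fun a b c => R (Equiv.swap x y a) (Equiv.swap x y b) (Equiv.swap x y c) := by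
  have hs : {a | Equiv.swap x y a ≠ a} ⊆ (Finset.range n : Set ℕ) := by
    intro a ha
    simp only [Set.mem_ofPred_eq, Equiv.swap_apply_def] at ha
    simp only [Finset.coe_range, Set.mem_Iio]
    split_ifs at ha <;> omega
  refine ⟨comb_perm _ H.cb, link_perm _ H.lc, fun A h1 i hi hin j hj => ?_,
    fun a b c p => (swap_lt hx hy).1 (H.bd _ _ _ p), ?_, ?_⟩
  · have := H.gc {z | Equiv.swap x y z ∈ A}
      (fun a ha b ⟨c, p⟩ => h1 _ ha _ ⟨Equiv.swap x y c, by simpa using p⟩) (Equiv.swap x y i)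
      (by simpa using hi) ((swap_lt hx hy).2 hin) (Equiv.swap x y j) ((swap_lt hx hy).2 hj)
    simpa using this
  · simp only [dg_perm]
    rw [Equiv.Perm.sum_comp _ _ (dg R) hs, H.sm]
  · simp only [dg_perm]
    rw [Equiv.Perm.sum_comp _ _ (fun v => un (dg R v)) hs]
    exact H.su

lemma Mn.swap (H : Mn n R) {x y : ℕ} (hx : x < n) (hy : y < n) (x0 : x ≠ 0) (y0 : y ≠ 0) :
    Mn n fun a b c => R (Equiv.swap x y a) (Equiv.swap x y b) (Equiv.swap x y c) := by
  intro v hv
  rw [dg_perm, dg_perm, Equiv.swap_apply_of_ne_of_ne x0.symm y0.symm]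
  exact H _ ((swap_lt hx hy).2 hv)

lemma Gd.swap {x y : ℕ} (hx : x < n) (hy : y < n)
    (h : Gd n Ls fun a b c => R (Equiv.swap x y a) (Equiv.swap x y b) (Equiv.swap x y c)) :
    Gd n Ls R := by
  obtain ⟨σ, h1, h2, h3⟩ := h
  refine ⟨fun a => Equiv.swap x y (σ a), fun a ha => (swap_lt hx hy).2 (h1 a ha), fun b hb => ?_, h3⟩
  obtain ⟨a, ha, e⟩ := h2 _ ((swap_lt hx hy).2 hb)
  exact ⟨a, ha, by simp [e]⟩

structure Iv (R : ℕ → ℕ → ℕ → Prop) (s T E F C : ℕ) : Prop where
  t : ∀ a b c, T.testBit (tm a b c) = true → a < s ∧ R a b c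
  e : ∀ a b, (ro E a).testBit b = true ↔ ∃ c, T.testBit (tm a b c) = true
  f : ∀ a b, (ro F a).testBit b = true →
    a < s ∧ b < s ∧ ∀ c, R a b c → T.testBit (tm a b c) = true
  g : ∀ a b c d, T.testBit (tm a b c) = true → T.testBit (tm a b d) = true → c ≠ d →
    (ro F a).testBit b = true
  c : ∀ v, C.testBit v = true → v < s ∧ ∀ a b, R v a b → T.testBit (tm v a b) = true

variable {s T E F C : ℕ}

lemma Iv.swap (I : Iv R s T E F C) {x : ℕ} (hx : s ≤ x) :
    Iv (fun a b c => R (Equiv.swap s x a) (Equiv.swap s x b) (Equiv.swap s x c)) s T E F C := by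
  have fx : ∀ a < s, Equiv.swap s x a = a := fun a ha =>
    Equiv.swap_apply_of_ne_of_ne (by omega) (by omega)
  have fy : ∀ a, Equiv.swap s x a < s → Equiv.swap s x a = a := fun a ha =>
    (Equiv.swap s x).injective (fx _ ha)
  have b2 : ∀ a b c, T.testBit (tm a b c) = true → b < s := fun a b c p =>
    (I.t b a c (by rwa [mk12])).1
  have b3 : ∀ a b c, T.testBit (tm a b c) = true → c < s := fun a b c p =>
    b2 a c b (by rwa [mk23])
  refine ⟨fun a b c p => ⟨(I.t _ _ _ p).1, ?_⟩, I.e, fun a b p => ?_, I.g, fun v p => ?_⟩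
  · simp only [fx _ (I.t _ _ _ p).1, fx _ (b2 _ _ _ p), fx _ (b3 _ _ _ p)]
    exact (I.t _ _ _ p).2
  · obtain ⟨h1, h2, h3⟩ := I.f a b p
    refine ⟨h1, h2, fun c q => ?_⟩
    simp only [fx _ h1, fx _ h2] at q
    have := h3 _ q
    rwa [fy _ (b3 _ _ _ this)] at this
  · obtain ⟨h1, h2⟩ := I.c v p
    refine ⟨h1, fun a b q => ?_⟩
    simp only [fx _ h1] at q
    have := h2 _ _ q
    rwa [fy _ (b3 _ _ _ this), fy _ (b2 _ _ _ this)] at this

lemma shut (L : LinkC R) {v j : ℕ} (t : ∀ a b c, T.testBit (tm a b c) = true → R a b c)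
    (e : ∀ b, (ro E v).testBit b = true ↔ ∃ c, T.testBit (tm v b c) = true)
    (f : ∀ b, (ro F v).testBit b = true → ∀ c, R v b c → T.testBit (tm v b c) = true)
    (h : ro E v = ro F v) (hj : (ro E v).testBit j = true) (a b : ℕ) (p : R v a b) :
    T.testBit (tm v a b) = true := by
  obtain ⟨c, hc⟩ := (e j).1 hj
  have := L v {x | (ro E v).testBit x = true}
    (fun x hx y r => (e y).2 ⟨x, by rw [mk23]; exact f x (h ▸ hx) y r⟩) j hj ⟨c, t _ _ _ hc⟩ a ⟨b, p⟩
  exact f a (h ▸ this) b p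

lemma Iv.add (Cb : Comb R) (L : LinkC R) (I : Iv R s T E F C) {s' i j l : ℕ} (hs : s ≤ s')
    (h12 : s' ≤ 12) (hi : i < s') (hj : j < s') (hl : l < s') (p : R i j l)
    (hn : ¬ T.testBit (tm i j l) = true) : ad (Iv R s') T E F C i j l := by
  have d1 := Cb.ne _ _ _ p
  have d2 := Cb.ne _ _ _ (Cb.s23 _ _ _ p)
  have d3 := Cb.ne _ _ _ (Cb.s23 _ _ _ (Cb.s12 _ _ _ p))
  have tb : ∀ y, (Nat.lor T (p2 (tm i j l))).testBit y = true ↔
      T.testBit y = true ∨ y = tm i j l := fun y => by rw [lor_bit, p2_bit]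
  have nw : ∀ a b c, tm a b c = tm i j l → a < s' ∧ b < s' ∧ R a b c := by
    intro a b c h
    rcases perm6 h d1 d2 d3 with ⟨rfl, rfl, rfl⟩ | ⟨rfl, rfl, rfl⟩ | ⟨rfl, rfl, rfl⟩ |
      ⟨rfl, rfl, rfl⟩ | ⟨rfl, rfl, rfl⟩ | ⟨rfl, rfl, rfl⟩
    exacts [⟨hi, hj, p⟩, ⟨hi, hl, Cb.s23 _ _ _ p⟩, ⟨hj, hi, Cb.s12 _ _ _ p⟩,
      ⟨hj, hl, Cb.s23 _ _ _ (Cb.s12 _ _ _ p)⟩, ⟨hl, hi, Cb.s12 _ _ _ (Cb.s23 _ _ _ p)⟩,
      ⟨hl, hj, Cb.s12 _ _ _ (Cb.s23 _ _ _ (Cb.s12 _ _ _ p))⟩]
  have pb : ∀ a b, b < 12 → ((pp i j l).testBit (16 * a + b) = true ↔ ∃ c, tm a b c = tm i j l) :=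
    fun a b hb => pp_bit (by omega) (by omega) (by omega) hb d1 d2 d3
  have eb : ∀ a b, (ro (Nat.lor E (pp i j l)) a).testBit b = true ↔
      (ro E a).testBit b = true ∨ ∃ c, tm a b c = tm i j l := by
    intro a b
    rw [ro_bit, ro_bit, lor_bit]
    constructor
    · rintro ⟨h1, h2 | h2⟩
      exacts [Or.inl ⟨h1, h2⟩, Or.inr ((pb a b h1).1 h2)]
    · rintro (⟨h1, h2⟩ | ⟨c, h⟩)
      · exact ⟨h1, Or.inl h2⟩
      · have : b < 12 := (nw _ _ _ h).2.1.trans_le h12
        exact ⟨this, Or.inr ((pb a b this).2 ⟨c, h⟩)⟩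
  have fb : ∀ a b, (ro (Nat.lor F (Nat.land E (pp i j l))) a).testBit b = true ↔
      (ro F a).testBit b = true ∨ ((ro E a).testBit b = true ∧ ∃ c, tm a b c = tm i j l) := by
    intro a b
    rw [ro_bit, ro_bit, ro_bit, lor_bit, land_bit]
    constructor
    · rintro ⟨h1, h2 | h2⟩
      exacts [Or.inl ⟨h1, h2⟩, Or.inr ⟨⟨h1, h2.1⟩, (pb a b h1).1 h2.2⟩]
    · rintro (⟨h1, h2⟩ | ⟨⟨h1, h2⟩, h3⟩)
      exacts [⟨h1, Or.inl h2⟩, ⟨h1, Or.inr ⟨h2, (pb a b h1).2 h3⟩⟩]
  have t' : ∀ a b c, (Nat.lor T (p2 (tm i j l))).testBit (tm a b c) = true → a < s' ∧ R a b c := by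
    intro a b c h
    rcases (tb _).1 h with h | h
    exacts [⟨(I.t _ _ _ h).1.trans_le hs, (I.t _ _ _ h).2⟩, ⟨(nw _ _ _ h).1, (nw _ _ _ h).2.2⟩]
  have e' : ∀ a b, (ro (Nat.lor E (pp i j l)) a).testBit b = true ↔
      ∃ c, (Nat.lor T (p2 (tm i j l))).testBit (tm a b c) = true := by
    intro a b
    simp only [eb, I.e, tb, exists_or]
  have f' : ∀ a b, (ro (Nat.lor F (Nat.land E (pp i j l))) a).testBit b = true → a < s' ∧ b < s' ∧
      ∀ c, R a b c → (Nat.lor T (p2 (tm i j l))).testBit (tm a b c) = true := by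
    intro a b h
    rcases (fb a b).1 h with h | ⟨h, c1, h1⟩
    · obtain ⟨a1, a2, a3⟩ := I.f a b h
      exact ⟨by omega, by omega, fun c q => (tb _).2 (Or.inl (a3 c q))⟩
    · obtain ⟨c0, h0⟩ := (I.e a b).1 h
      refine ⟨(nw _ _ _ h1).1, (nw _ _ _ h1).2.1, fun c q => (tb _).2 ?_⟩
      obtain ⟨k, -, -, hk⟩ := Cb.two _ _ _ (I.t _ _ _ h0).2
      rcases hk c q with rfl | rfl
      · exact Or.inl h0
      · rcases hk c1 (nw _ _ _ h1).2.2 with rfl | rfl
        · exact absurd (h1 ▸ h0) hn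
        · exact Or.inr h1
  refine ⟨t', e', f', fun a b c d h1 h2 h3 => (fb a b).2 ?_, fun v hv => ?_⟩
  · rcases (tb _).1 h1 with h1 | h1 <;> rcases (tb _).1 h2 with h2 | h2
    · exact Or.inl (I.g _ _ _ _ h1 h2 h3)
    · exact Or.inr ⟨(I.e a b).2 ⟨c, h1⟩, d, h2⟩
    · exact Or.inr ⟨(I.e a b).2 ⟨d, h2⟩, c, h1⟩
    · have a1 := (nw _ _ _ h1).2.2
      have a2 := (tm_bit a b d c).1 (by rw [h2, ← h1, tm_bit]; simp)
      rcases a2 with rfl | rfl | rfl
      · exact absurd rfl (Cb.ne _ _ _ (Cb.s23 _ _ _ a1))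
      · exact absurd rfl (Cb.ne _ _ _ (Cb.s23 _ _ _ (Cb.s12 _ _ _ a1)))
      · exact absurd rfl h3
  · have key : ∀ x y z, tm x y z = tm i j l → (cl (Nat.lor E (pp i j l))
        (Nat.lor F (Nat.land E (pp i j l))) x).testBit v = true → v < s' ∧ ∀ a b, R v a b →
        (Nat.lor T (p2 (tm i j l))).testBit (tm v a b) = true := by
      intro x y z h q
      unfold cl at q
      cases r : Nat.beq (ro (Nat.lor E (pp i j l)) x) (ro (Nat.lor F (Nat.land E (pp i j l))) x)
      · rw [r, cond_false, Nat.zero_testBit] at q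
        exact absurd q Bool.false_ne_true
      · rw [r, cond_true, p2_bit] at q
        subst q
        exact ⟨(nw _ _ _ h).1, shut L (fun a b c q => (t' a b c q).2) (e' v)
          (fun b q => (f' v b q).2.2) (Nat.eq_of_beq_eq_true r) ((eb v y).2 (Or.inr ⟨z, h⟩))⟩
    simp only [nC, lor_bit] at hv
    rcases hv with (hv | hv) | hv | hv
    · exact ⟨(I.c v hv).1.trans_le hs, fun a b q => (tb _).2 (Or.inl ((I.c v hv).2 a b q))⟩
    · exact key i j l rfl hv
    · exact key j i l (mk12 _ _ _) hv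
    · exact key l i j ((mk12 _ _ _).trans (mk23 _ _ _)) hv

lemma cnt_le (H : Hy n tot U R) (I : Iv R s T E F C) (v : ℕ) : pc (ro E v) ≤ dg R v := by
  rw [pc_eq (ro_lt _ _), ← Set.ncard_coe_finset]
  refine Set.ncard_le_ncard (fun b hb => ?_)
    ((Set.finite_Iio n).subset fun j ⟨c, p⟩ => H.bd _ _ _ p)
  obtain ⟨c, hc⟩ := (I.e v b).1 (Finset.mem_filter.1 hb).2
  exact ⟨c, (I.t _ _ _ hc).2⟩

lemma le_cnt (I : Iv R s T E F C) {v : ℕ} (hv : C.testBit v = true) : dg R v ≤ pc (ro E v) := by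
  rw [pc_eq (ro_lt _ _), ← Set.ncard_coe_finset]
  refine Set.ncard_le_ncard fun b ⟨c, p⟩ => ?_
  have := (I.e v b).2 ⟨c, (I.c v hv).2 _ _ p⟩
  exact Finset.mem_coe.2 (Finset.mem_filter.2 ⟨Finset.mem_range.2 ((ro_bit _ _ _).1 this).1, this⟩)

lemma sb_le (H : Hy n tot U R) (M : Mn n R) (I : Iv R s T E F C) {wc wo : ℕ → ℕ} (val : ℕ → ℕ)
    (hc : ∀ c, wc c ≤ val c) (ho : ∀ c d, c ≤ d → wo c ≤ val d) :
    sb n E C wc wo ≤ ∑ v ∈ Finset.range n, val (dg R v) := by
  rw [sb, sm_eq]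
  refine Finset.sum_le_sum fun v hv => ?_
  have h1 := cnt_le H I v
  rw [bit_eq]
  cases e : C.testBit v
  · refine ho _ _ ?_
    have h2 := (cnt_le H I 0).trans (M v (Finset.mem_range.1 hv))
    unfold mx
    cases Nat.ble (pc (ro E v)) (pc (ro E 0))
    exacts [h1, h2]
  · rw [le_antisymm (le_cnt I e) h1]
    exact hc _

lemma cond_or {b x y : Bool} (h : cond b x y = true) : x = true ∨ y = true := by
  cases b
  exacts [Or.inr h, Or.inl h]

lemma cond_ne {b : Bool} {t : ℕ} (h : cond b t 0 ≠ 0) : b = true ∧ t ≠ 0 := by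
  cases b
  · exact absurd rfl h
  · exact ⟨rfl, h⟩

lemma nth_ok {α : Type} {P : α → Bool} : ∀ {L : List α} {i : ℕ}, nth P L i = true →
    ∃ a ∈ L, P a = true
  | [], _, h => absurd h Bool.false_ne_true
  | a :: L, i, h => by
    rcases cond_or (b := Nat.beq i 0) (x := P a) (y := nth P L (i - 1)) h with h | h
    · exact ⟨a, List.mem_cons_self, h⟩
    · obtain ⟨x, hx, e⟩ := nth_ok h
      exact ⟨x, List.mem_cons_of_mem _ hx, e⟩

lemma mt_ok {σ : ℕ} : ∀ {L : TN}, mt T σ L = true →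
    ∀ p ∈ L, T.testBit (tm (hx σ p.1) (hx σ p.2.1) (hx σ p.2.2)) = true
  | [], _, _, hp => absurd hp List.not_mem_nil
  | a :: L, h, p, hp => by
    change cond (bit T (tm (hx σ a.1) (hx σ a.2.1) (hx σ a.2.2))) (mt T σ L) false = true at h
    cases e : bit T (tm (hx σ a.1) (hx σ a.2.1) (hx σ a.2.2))
    · rw [e] at h; exact absurd h Bool.false_ne_true
    · rw [e] at h
      rcases List.mem_cons.1 hp with rfl | hp
      · rwa [bit_eq] at e
      · exact mt_ok h p hp

def Ok (n tot U : ℕ) (Ls : List TN) (q : SN) : Prop :=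
  ∀ R, Hy n tot U R → Mn n R → Iv R q.1 q.2.1 q.2.2.1 q.2.2.2.1 q.2.2.2.2 → Gd n Ls R

lemma chk_ok (sn : s ≤ n) (hn : n ≤ 12) (hK : ∀ q ∈ K, Ok n tot U Ls q) {o w : ℕ}
    (h : chk n tot U Ls K o w s T E F C = true) : Ok n tot U Ls (s, T, E, F, C) := by
  intro R H M I
  change Iv R s T E F C at I
  have a1 := H.sm
  have a2 := H.su
  unfold chk at h
  rcases cond_or h with h | h
  · have := sb_le H M I (wc := w0) (wo := fun c => Nat.sub c 5) un (fun c => le_rfl)
      (fun c d hd => by change c - 5 ≤ (4 - d) + (d - 5); omega)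
    rw [Nat.blt_eq] at h
    omega
  rcases cond_or h with h | h
  · have := sb_le H M I (wc := w1) (wo := w1) (fun d => un d + d) (fun c => le_rfl)
      (fun c d hd => by change (4 - c) + (c - 5) + c ≤ (4 - d) + (d - 5) + d; omega)
    rw [Finset.sum_add_distrib] at this
    rw [Nat.blt_eq, Nat.add_eq] at h
    omega
  rcases cond_or h with h | h
  · rw [Bool.and_eq_true, bit_eq, Nat.blt_eq] at h
    have b1 := le_cnt I h.1
    have b2 := cnt_le H I 0
    have := M _ ((I.c _ h.1).1.trans_le sn)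
    omega
  rcases cond_or h with h | h
  · rw [Bool.and_eq_true, Nat.beq_eq] at h
    obtain ⟨L, hL, e⟩ := nth_ok h.1
    have k : ∀ y, (∃ v < n, hx (Nat.shiftRight w 12) v = y) ↔ y < n := fun y => by
      rw [← ors_bit, h.2, ones_bit]
    exact ⟨hx (Nat.shiftRight w 12), fun a ha => (k _).1 ⟨a, ha, rfl⟩, fun b hb => (k b).2 hb,
      L, hL, fun p hp => (I.t _ _ _ (mt_ok e p hp)).2⟩
  rcases cond_or h with h | h
  · have := sb_le H M I (wc := w2) (wo := fun _ => 0) (fun d => (4 - d) + (5 - d)) (fun c => le_rfl)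
      (fun c d hd => Nat.zero_le _)
    have b : ∑ v ∈ Finset.range n, ((4 - dg R v) + (5 - dg R v) + dg R v) =
        ∑ v ∈ Finset.range n, (un (dg R v) + 5) :=
      Finset.sum_congr rfl fun v _ => by unfold un; omega
    rw [Finset.sum_add_distrib, Finset.sum_add_distrib (f := fun v => un (dg R v)),
      Finset.sum_const, Finset.card_range, smul_eq_mul] at b
    rw [Nat.blt_eq, Nat.add_eq, Nat.add_eq, Nat.mul_eq] at h
    omega
  rcases cond_or h with h | h
  · have := sb_le H M I (wc := id) (wo := id) id (fun c => le_rfl) (fun c d hd => hd)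
    rw [Nat.blt_eq] at h
    simp only [id] at this
    omega
  rcases cond_or h with h | h
  · simp only [lk, Bool.and_eq_true, bit_eq, Nat.beq_eq, Bool.not_eq_true'] at h
    obtain ⟨⟨⟨⟨⟨b1, b2⟩, b3⟩, b4⟩, b5⟩, b6⟩ := h
    obtain ⟨c, hc⟩ := (I.e _ _).1 b3
    obtain ⟨d, hd⟩ := (I.e _ _).1 b4
    refine absurd (H.lc (hx w 1) {x | Nat.testBit _ x = true} (fun j hj k p => ?_) _ b1
      ⟨c, (I.t _ _ _ hc).2⟩ _ ⟨d, (I.t _ _ _ hd).2⟩) (Bool.eq_false_iff.1 b2)
    have hj' : Nat.testBit _ j = true := hj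
    have c1 : (ro F (hx w 1)).testBit j = true := by
      rw [← b5, land_bit] at hj'; exact hj'.1
    have c2 := al_ok b6 j ((ro_bit _ _ _).1 c1).1
    simp only [hj', cond_true] at c2
    have c3 := al_ok c2 k ((H.bd _ _ _ (H.cb.s23 _ _ _ p)).trans_le hn)
    simpa [(I.f _ _ c1).2.2 k p] using c3
  rcases cond_or h with h | h
  · simp only [Bool.and_eq_true, bit_eq, Nat.beq_eq, Nat.blt_eq] at h
    obtain ⟨⟨rfl, b2⟩, b3⟩ := h
    obtain ⟨b, hb⟩ := H.gc {v | ∃ b, (ro E v).testBit b = true} (fun v ⟨b, hb⟩ j ⟨c, p⟩ =>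
      ⟨v, (I.e j v).2 ⟨c, by
        rw [mk12]
        exact shut H.lc (fun a b c q => (I.t a b c q).2) (I.e v) (fun b q => (I.f v b q).2.2)
          rfl hb j c p⟩⟩) 0 ⟨_, b3⟩ (by omega) s b2
    obtain ⟨c, hc⟩ := (I.e _ _).1 hb
    exact absurd (I.t _ _ _ hc).1 (lt_irrefl _)
  rcases cond_or h with h | h
  · obtain ⟨q, hq, e⟩ := nth_ok h
    simp only [Bool.and_eq_true, Nat.beq_eq] at e
    obtain ⟨⟨⟨⟨rfl, rfl⟩, rfl⟩, rfl⟩, rfl⟩ := e
    exact hK q hq R H M I
  · exact absurd h Bool.false_ne_true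

lemma lp_ok {g : ℕ → ℕ → ℕ} (g0 : ∀ l, g 0 l = 0) : ∀ (f m t : ℕ), lp g f m t ≠ 0 →
    t ≠ 0 ∧ ∀ l, m.testBit l = true → ∃ t', g t' l ≠ 0
  | 0, _, _, h => absurd rfl h
  | f + 1, m, t, h => by
    change cond (Nat.beq m 0) t (lp g f (Nat.xor m (p2 (Nat.log2 m))) (g t (Nat.log2 m))) ≠ 0 at h
    cases e : Nat.beq m 0
    · rw [e, cond_false] at h
      obtain ⟨h1, h2⟩ := lp_ok g0 f _ _ h
      refine ⟨fun r => h1 (by rw [r, g0]), fun l hl => ?_⟩
      by_cases r : l = Nat.log2 m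
      · exact ⟨t, r ▸ h1⟩
      · exact h2 l (by rw [xor_bit, p2_bit]; simp [hl, r])
    · rw [e, cond_true] at h
      rw [Nat.eq_of_beq_eq_true e]
      exact ⟨h, fun l hl => by simp at hl⟩

lemma go_zero (f : ℕ) : go n tot U Ls K f 0 s T E F C = 0 := by
  cases f
  · rfl
  · change st n tot U Ls K _ 0 s T E F C (Nat.land 0 0xffffffffffffffff) = 0
    unfold st
    rw [show Nat.beq (Nat.land (Nat.land 0 0xffffffffffffffff) 15) 1 = false from rfl, cond_false,
      Nat.shiftRight_eq, Nat.zero_shiftRight, Bool.cond_self]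

lemma go_ok (hn : n ≤ 12) (hK : ∀ q ∈ K, Ok n tot U Ls q) (f : ℕ) : ∀ t s T E F C : ℕ,
    go n tot U Ls K f t s T E F C ≠ 0 → 0 < s → s ≤ n → Ok n tot U Ls (s, T, E, F, C) := by
  induction f with
  | zero => exact fun t s T E F C h => absurd rfl h
  | succ f ih =>
    intro t s T E F C h s0 sn
    change st n tot U Ls K (go n tot U Ls K f) t s T E F C _ ≠ 0 at h
    generalize Nat.land t 0xffffffffffffffff = w at h
    unfold st at h
    cases e : Nat.beq (Nat.land w 15) 1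
    · rw [e, cond_false] at h
      exact chk_ok sn hn hK (cond_ne h).1
    rw [e, cond_true] at h
    generalize hx w 1 = i at h
    generalize hx w 2 = j at h
    generalize hx w 3 = k at h
    obtain ⟨h1, h2⟩ := cond_ne h
    have h3 := (lp_ok (g := fun t l => ad (go n tot U Ls K f t (cond (Nat.beq l s) (Nat.succ s) s))
      T E F C i j l) (fun l => go_zero f) _ _ _ h2).2
    simp only [Bool.and_eq_true, bit_eq, Bool.not_eq_true', Bool.eq_false_iff] at h1
    have key : ∀ R, Hy n tot U R → Mn n R → Iv R s T E F C → ∀ x ≤ s, x ≠ k → R i j x →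
        Gd n Ls R := by
      intro R H M I x xs xk p
      have B := H.cb
      have xn := H.bd _ _ _ (B.s23 _ _ _ p)
      have nt : ¬ T.testBit (tm i j x) = true := fun q => h1.2 (I.g _ _ _ _ q h1.1 xk)
      obtain ⟨t', h4⟩ := h3 x (by
        simp only [cand, xor_bit, land_bit, ones_bit, lor_bit, tm_bit]
        intro q
        rcases (q.1 ⟨Nat.lt_succ_of_le xs, xn⟩).2 with (q | q) | q | q | q | q
        · exact nt (by rw [mk23]; exact (I.f _ _ q).2.2 _ (B.s23 _ _ _ p))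
        · exact nt (by rw [mk12, mk23]; exact (I.f _ _ q).2.2 _ (B.s23 _ _ _ (B.s12 _ _ _ p)))
        · exact nt (by rw [mk23, mk12]; exact (I.c _ q).2 _ _ (B.s12 _ _ _ (B.s23 _ _ _ p)))
        · exact B.ne _ _ _ (B.s23 _ _ _ p) q.symm
        · exact B.ne _ _ _ (B.s23 _ _ _ (B.s12 _ _ _ p)) q.symm
        · exact xk q)
      have hs : s ≤ cond (Nat.beq x s) (Nat.succ s) s ∧ x < cond (Nat.beq x s) (Nat.succ s) s ∧
          cond (Nat.beq x s) (Nat.succ s) s ≤ n := by
        cases r : Nat.beq x s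
        · have := Nat.ne_of_beq_eq_false r
          simp only [cond_false]; omega
        · have := Nat.eq_of_beq_eq_true r
          simp only [cond_true]; omega
      have b1 := (I.t _ _ _ h1.1).1
      have b2 := (I.t j i k (by rw [mk12]; exact h1.1)).1
      exact ih _ _ _ _ _ _ h4 (by omega) hs.2.2 R H M
        (I.add B H.lc hs.1 (by omega) (by omega) (by omega) hs.2.1 p nt)
    intro R H M I
    change Iv R s T E F C at I
    obtain ⟨x, hx, p, -⟩ := H.cb.two _ _ _ (I.t _ _ _ h1.1).2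
    by_cases c : x ≤ s
    · exact key R H M I x c hx p
    · have xn := H.bd _ _ _ (H.cb.s23 _ _ _ p)
      have b1 := (I.t _ _ _ h1.1).1
      have b2 := (I.t j i k (by rw [mk12]; exact h1.1)).1
      have b3 := (I.t k i j (by rw [mk12, mk23]; exact h1.1)).1
      refine Gd.swap (x := s) (y := x) (by omega) xn (key _ (H.swap (by omega) xn)
        (M.swap (by omega) xn (by omega) (by omega)) (I.swap (by omega)) s le_rfl (by omega) ?_)
      rw [Equiv.swap_apply_of_ne_of_ne (by omega) (by omega),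
        Equiv.swap_apply_of_ne_of_ne (by omega) (by omega), Equiv.swap_apply_left]
      exact p

/-- the state with one triple -/
def q0 : SN := ad (fun T E F C => (3, T, E, F, C)) 0 0 0 0 0 1 2

lemma root (h3 : 3 ≤ n) (h : Ok n tot U Ls q0) (H : Hy n tot U R) : Gd n Ls R := by
  have k3 : ∀ R, Hy n tot U R → Mn n R → R 0 1 2 → Gd n Ls R := fun R H M p =>
    h R H M (Iv.add H.cb H.lc (s := 0) (T := 0) (E := 0) (F := 0) (C := 0)
      ⟨by simp, by simp [ro_bit], by simp [ro_bit], by simp, by simp⟩ (s' := 3) (by omega)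
      (by omega) (by omega) (by omega) (by omega) p (by simp))
  have k2 : ∀ R, Hy n tot U R → Mn n R → ∀ c, R 0 1 c → Gd n Ls R := by
    intro R H M c p
    have c0 := H.cb.ne _ _ _ (H.cb.s23 _ _ _ p)
    have c1 := H.cb.ne _ _ _ (H.cb.s23 _ _ _ (H.cb.s12 _ _ _ p))
    have cn := H.bd _ _ _ (H.cb.s23 _ _ _ p)
    refine Gd.swap (x := 2) (y := c) (by omega) cn (k3 _ (H.swap (by omega) cn)
      (M.swap (by omega) cn (by omega) (by omega)) ?_)
    rw [Equiv.swap_apply_of_ne_of_ne (by omega) (by omega),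
      Equiv.swap_apply_of_ne_of_ne (by omega) (by omega), Equiv.swap_apply_left]
    exact p
  have k1 : ∀ R, Hy n tot U R → Mn n R → Gd n Ls R := by
    intro R H M
    obtain ⟨b, c, p⟩ : ∃ b c, R 0 b c := by
      by_contra hc
      have := H.gc {0} (fun i hi j ⟨c, p⟩ => absurd ⟨j, c, Set.mem_singleton_iff.1 hi ▸ p⟩ hc)
        0 rfl (by omega) 1 (by omega)
      exact absurd (Set.mem_singleton_iff.1 this) one_ne_zero
    have b0 := H.cb.ne _ _ _ p
    have bn := H.bd _ _ _ p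
    refine Gd.swap (x := 1) (y := b) (by omega) bn (k2 _ (H.swap (by omega) bn)
      (M.swap (by omega) bn (by omega) (by omega)) (Equiv.swap 1 b c) ?_)
    rw [Equiv.swap_apply_of_ne_of_ne (by omega) (by omega), Equiv.swap_apply_left,
      Equiv.swap_apply_self]
    exact p
  obtain ⟨v, hv, hm⟩ := (Finset.range n).exists_min_image (dg R) ⟨0, by simp; omega⟩
  have vn := Finset.mem_range.1 hv
  refine Gd.swap (x := 0) (y := v) (by omega) vn (k1 _ (H.swap (by omega) vn) fun u hu => ?_)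
  rw [dg_perm, dg_perm, Equiv.swap_apply_left]
  exact hm _ (Finset.mem_range.2 ((swap_lt (by omega) vn).2 hu))

/-- the relation on natural numbers -/
def nR (Tr : Fin n → Fin n → Fin n → Prop) (a b c : ℕ) : Prop :=
  ∃ ha hb hc, Tr ⟨a, ha⟩ ⟨b, hb⟩ ⟨c, hc⟩

lemma dg_nR (Tr : Fin n → Fin n → Fin n → Prop) (i : Fin n) : dg (nR Tr) i.1 = dg Tr i := by
  unfold dg
  rw [← Set.ncard_image_of_injective _ Fin.val_injective]
  congr 1
  ext b
  constructor
  · rintro ⟨c, _, hb, hc, p⟩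
    exact ⟨⟨b, hb⟩, ⟨_, p⟩, rfl⟩
  · rintro ⟨a, ⟨c, p⟩, rfl⟩
    exact ⟨c.1, i.2, a.2, c.2, p⟩

lemma hy_nR {Tr : Fin n → Fin n → Fin n → Prop} (B : Comb Tr) (L : LinkC Tr) (G : GlobC Tr)
    (h1 : ∑ i, dg Tr i = tot) (h2 : ∑ i, un (dg Tr i) ≤ U) : Hy n tot U (nR Tr) := by
  refine ⟨⟨?_, ?_, ?_, ?_⟩, ?_, ?_, fun _ _ _ ⟨_, hb, _⟩ => hb, ?_, ?_⟩
  · exact fun _ _ _ ⟨ha, hb, hc, p⟩ => ⟨hb, ha, hc, B.s12 _ _ _ p⟩
  · exact fun _ _ _ ⟨ha, hb, hc, p⟩ => ⟨ha, hc, hb, B.s23 _ _ _ p⟩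
  · exact fun _ _ _ ⟨ha, hb, hc, p⟩ e => B.ne _ _ _ p (Fin.ext e)
  · rintro a b c ⟨ha, hb, hc, p⟩
    obtain ⟨k, k1, k2, k3⟩ := B.two _ _ _ p
    exact ⟨k.1, fun e => k1 (Fin.ext e), ⟨ha, hb, k.2, k2⟩, fun l ⟨_, _, hl, q⟩ =>
      (k3 _ q).imp (congrArg Fin.val) (congrArg Fin.val)⟩
  · rintro i A a1 j hj ⟨c, hi, hj', hc, p⟩ k ⟨d, _, hk, hd, q⟩
    exact L ⟨i, hi⟩ {x | x.1 ∈ A} (fun x hx y r => a1 _ hx _ ⟨hi, x.2, y.2, r⟩) ⟨j, hj'⟩ hj ⟨_, p⟩
      ⟨k, hk⟩ ⟨_, q⟩
  · intro A a1 i hi hin j hj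
    exact G {x | x.1 ∈ A} (fun x hx y ⟨c, r⟩ => a1 _ hx _ ⟨c.1, x.2, y.2, c.2, r⟩) ⟨i, hin⟩ hi ⟨j, hj⟩
  · rw [← h1, ← Fin.sum_univ_eq_sum_range (dg (nR Tr))]
    simp only [dg_nR]
  · rw [← Fin.sum_univ_eq_sum_range (fun v => un (dg (nR Tr) v))]
    simpa only [dg_nR] using h2

def toF (n : ℕ) [NeZero n] (L : TN) : EnumG.TL n :=
  L.map fun p => (Fin.ofNat n p.1, Fin.ofNat n p.2.1, Fin.ofNat n p.2.2)

/-- the target is a closed list of triples with all the edges -/
def tg (n tot : ℕ) [NeZero n] (L : TN) (M : ℕ) : Bool :=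
  L.all (fun p => Nat.blt p.1 n && Nat.blt p.2.1 n && Nat.blt p.2.2 n) &&
    Nat.beq (EnumG.msk (toF n L)) M &&
    Nat.ble tot (sm (fun a => EnumG.cN n M (n * a) n) n) && al (fun a => EnumG.sN n M (n * a) n) n

def tgs (n tot : ℕ) [NeZero n] : List TN → List ℕ → Bool
  | [], _ => true
  | _ :: _, [] => false
  | L :: Ls, M :: Ms => tg n tot L M && tgs n tot Ls Ms

lemma tgs_ok [NeZero n] : ∀ {Ls : List TN} {Ms : List ℕ}, tgs n tot Ls Ms = true →
    ∀ L ∈ Ls, ∃ M ∈ Ms, tg n tot L M = true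
  | [], _, _, _, h => absurd h List.not_mem_nil
  | _ :: _, [], h, _, _ => absurd h Bool.false_ne_true
  | L :: Ls, M :: Ms, h, L', h' => by
    rw [tgs, Bool.and_eq_true] at h
    rcases List.mem_cons.1 h' with rfl | h'
    · exact ⟨M, List.mem_cons_self, h.1⟩
    · obtain ⟨M', a, b⟩ := tgs_ok h.2 L' h'
      exact ⟨M', List.mem_cons_of_mem _ a, b⟩

open EnumG in
theorem enumH [NeZero n] {Ms : List ℕ} (h3 : 3 ≤ n) (h : Ok n tot U Ls q0)
    (hM : tgs n tot Ls Ms = true) : EnumSt n tot U Ms := by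
  intro Tr B L G h1 h2
  obtain ⟨σ, a1, a2, L, hL, a3⟩ := root h3 h (hy_nR B L G h1 h2)
  obtain ⟨M, hM, e⟩ := tgs_ok hM L hL
  simp only [tg, Bool.and_eq_true, List.all_eq_true, Nat.blt_eq, Nat.beq_eq, Nat.ble_eq] at e
  obtain ⟨⟨⟨e1, e2⟩, e3⟩, e4⟩ := e
  have hb : Function.Bijective fun a : Fin n => (⟨σ a.1, a1 _ a.2⟩ : Fin n) :=
    Finite.surjective_iff_bijective.1 fun b => by
      obtain ⟨a, ha, e⟩ := a2 b.1 b.2
      exact ⟨⟨a, ha⟩, Fin.ext e⟩
  refine ⟨Equiv.ofBijective _ hb, M, hM, fun a b c => ?_⟩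
  set τ := Equiv.ofBijective _ hb
  have B' := comb_perm τ B
  obtain ⟨hT, hS⟩ := msk_ok B' (toF n L) (by
    intro p hp
    obtain ⟨q, hq, rfl⟩ := List.mem_map.1 hp
    obtain ⟨_, _, _, r⟩ := a3 q hq
    obtain ⟨⟨b1, b2⟩, b3⟩ := e1 q hq
    simpa [τ, Fin.ofNat, Nat.mod_eq_of_lt, b1, b2, b3] using r)
  rw [e2] at hT hS
  have h4 : tot ≤ ∑ a : Fin n, cnt M a := by
    rw [sm_eq, ← Fin.sum_univ_eq_sum_range (fun a => cN n M (n * a) n)] at e3
    simpa only [← cf_eq, cf] using e3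
  have h5 : sl M a := sf_ok hS (al_ok e4 a.1 a.2)
  refine ⟨fun p => ?_, hT a b c⟩
  by_cases q : ∃ x, bt M a b x = true
  · obtain ⟨x, q⟩ := q
    exact third B' hT h5 q p
  · push Not at q
    have h6 := EnumG.shut B' hT h5 ⟨c, p⟩ fun x => by simpa using q x
    have h7 := Finset.sum_lt_sum (s := Finset.univ) (fun v _ => EnumG.cnt_le hT v)
      ⟨a, Finset.mem_univ a, by omega⟩
    simp only [EnumH.dg_perm] at h7
    rw [Equiv.sum_comp τ (dg Tr)] at h7
    omega

lemma ok_nil : ∀ q ∈ ([] : List SN), Ok n tot U Ls q := fun _ h => absurd h List.not_mem_nil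

lemma ok_cons {q : SN} (h : Ok n tot U Ls q) (hK : ∀ q ∈ K, Ok n tot U Ls q) :
    ∀ x ∈ q :: K, Ok n tot U Ls x := List.forall_mem_cons.2 ⟨h, hK⟩

lemma ok_run (hn : n ≤ 12) (hK : ∀ q ∈ K, Ok n tot U Ls q) {q : SN} {f t : ℕ}
    (h : (Nat.blt 0 q.1 && Nat.ble q.1 n &&
      Nat.beq (go n tot U Ls K f t q.1 q.2.1 q.2.2.1 q.2.2.2.1 q.2.2.2.2) 1) = true) :
    Ok n tot U Ls q := by
  simp only [Bool.and_eq_true, Nat.blt_eq, Nat.ble_eq, Nat.beq_eq] at h
  exact go_ok hn hK f t _ _ _ _ _ (by rw [h.2]; exact one_ne_zero) h.1.1 h.1.2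

end EnumH

end Pool.Agent.MP_5cfbf6_gt.P8
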