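import Pool.Agent.MP_5cfbf6_gt.P8.Base
import Pool.Agent.MP_5cfbf6_gt.P7.Red
import Pool.Agent.MP_5cfbf6_gt.P7.Apr

set_option autoImplicit false

namespace Pool.Agent.MP_5cfbf6_gt.P8

open P7 Set Filter Topology Real

theorem strict_Ex {ι : Type} {w : ι → E3} (h : ∀ x : E3, (∀ i, dt (w i) x < 1) → ‖x‖ ≤ 5) :
    ∀ x ∈ poly w 1, ‖x‖ ≤ 5 := by
  intro x hx
  by_contra hn
  push Not at hn
  have h0 : 0 < ‖x‖ := by linarith
  obtain ⟨t, t1, t2⟩ := exists_between ((div_lt_one h0).2 hn)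
  have t0 : 0 < t := lt_trans (by positivity) t1
  have h1 := h (t • x) fun i => by
    have h2 : dt (w i) x ≤ 1 := hx i
    rw [dt_eq_inner, real_inner_smul_right, ← dt_eq_inner]
    nlinarith
  rw [norm_smul, Real.norm_of_nonneg t0.le] at h1
  rw [div_lt_iff₀ h0] at t1
  linarith

theorem comp_Ex {n : ℕ} {u w : Fin n → E3} (hu : ∀ x ∈ poly u 1, ‖x‖ ≤ 5)
    (hw : ∀ x ∈ poly w 1, ‖x‖ ≤ 5) : vol u 1 ≤ (1 + ‖w - u‖ * 5) ^ 3 * vol w 1 := by
  have ht : 0 < 1 + ‖w - u‖ * 5 := by positivity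
  have hb : Bornology.IsBounded (poly w 1) := isBounded_iff_forall_norm_le.2 ⟨_, hw⟩
  rw [← vol_affine w 1 ht 0]
  refine ENNReal.toReal_mono ?_ (MeasureTheory.measure_mono fun x hx i => ?_)
  · rw [aff_poly w 1 ht]
    exact ((hb.smul₀ _).vadd _).measure_lt_top.ne
  · have h3 := near_Red (u := w) (w := u) (δ := ‖w - u‖)
      (fun j => by rw [norm_sub_rev]; exact norm_le_pi_norm (w - u) j) hx i
    have h4 := mul_le_mul_of_nonneg_left (hu x hx) (norm_nonneg (w - u))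
    have h5 : dt (w i) 0 = 0 := by simp [dt]
    simp only [Pi.one_apply, h5]
    linarith

theorem ex_st : ExSt := by
  intro n u₀ h1 h2 h3
  obtain ⟨K, hK⟩ : ∃ K : Set (Fin n → E3), K = {w | Unit1 w} ∩
    ⋂ x : E3, {w | (∀ i, dt (w i) x < 1) → ‖x‖ ≤ 5} := ⟨_, rfl⟩
  have mem : ∀ w, w ∈ K ↔ Unit1 w ∧ ∀ x ∈ poly w 1, ‖x‖ ≤ 5 := fun w => by
    rw [hK, mem_inter_iff, mem_iInter]
    exact and_congr Iff.rfl ⟨strict_Ex, fun h x hx => h x fun i => (hx i).le⟩
  have cl : IsClosed K := by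
    rw [hK]
    refine IsClosed.inter ?_ (isClosed_iInter fun x => ?_)
    · simp only [Unit1, ofPred_forall]
      exact isClosed_iInter fun i => isClosed_eq (by fun_prop) continuous_const
    · refine isClosed_imp ?_ isClosed_const
      simp only [ofPred_forall]
      exact isOpen_iInter_of_finite fun i => isOpen_lt (by fun_prop) continuous_const
  have bd : Bornology.IsBounded K := isBounded_iff_forall_norm_le.2 ⟨1, fun w hw => by
    refine (pi_norm_le_iff_of_nonneg zero_le_one).2 fun i => ?_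
    have := ((mem w).1 hw).1 i
    rw [dt_self] at this
    nlinarith [norm_nonneg (w i)]⟩
  have small : ∀ w : Fin n → E3, Unit1 w → Bornology.IsBounded (poly w 1) →
      vol w 1 < 7 * π / 3 → w ∈ K := fun w a b c => (mem w).2 ⟨a, fun x hx => by
    by_contra hn
    push Not at hn
    exact absurd (apr_st _ w a b x hx (by rw [dt_self]; nlinarith)) (not_le.2 c)⟩
  have lsc : LowerSemicontinuousOn (fun w : Fin n → E3 => vol w 1) K := by
    intro u hu y hy
    have c : ContinuousAt (fun w : Fin n → E3 => vol u 1 / (1 + ‖w - u‖ * 5) ^ 3) u :=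
      ContinuousAt.div continuousAt_const (by fun_prop) (by positivity)
    have e : ∀ᶠ w in 𝓝 u, y < vol u 1 / (1 + ‖w - u‖ * 5) ^ 3 :=
      c.eventually (lt_mem_nhds (by simpa using hy))
    filter_upwards [mem_nhdsWithin_of_mem_nhds e, self_mem_nhdsWithin] with w a b
    refine a.trans_le ?_
    rw [div_le_iff₀ (by positivity), mul_comm]
    exact comp_Ex ((mem u).1 hu).2 ((mem w).1 b).2
  obtain ⟨u, hu, hmin⟩ := lsc.exists_isMinOn ⟨u₀, small u₀ h1 h2 h3⟩
    (Metric.isCompact_of_isClosed_isBounded cl bd)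
  refine ⟨u, ((mem u).1 hu).1, isBounded_iff_forall_norm_le.2 ⟨_, ((mem u).1 hu).2⟩,
    fun w a b => ?_⟩
  by_cases c : vol w 1 < 7 * π / 3
  · exact hmin (small w a b c)
  · exact (le_of_lt (lt_of_le_of_lt (hmin (small u₀ h1 h2 h3)) h3)).trans (not_lt.1 c)

end Pool.Agent.MP_5cfbf6_gt.P8
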