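import Pool.Agent.MP_5cfbf6_gt.P8.KP10

set_option autoImplicit false

namespace Pool.Agent.MP_5cfbf6_gt.P8.KK

theorem c10_174 : go p10 60 0x32290b91485a90c8548642948a449990c85c8642d48a44e452268a90c85c8642d48642e452268c8642e43216a452190a722913453
    1181116006 107374183 (-843314855) 281104953 6465413901 281104953 = 1 := by decide +kernel

theorem c10_108 : go p10 60 0x32391a91c8d191c8d48e468b90c85486428c8642a432145a91c8d486428c8e46a432145c8642a432146432152190a2d1
    2362232014 214748365 281104953 281104953 4216574283 281104953 = 1 := by decide +kernel

theorem c10_310 : go p10 60 0x3642e485a90c85190c72190b52190a2ec51486428c8a445990c85c8642d48a448c8642e435a90c8517218642a43214ca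
    2899102924 107374183 1967734667 281104953 2529944569 281104953 = 1 := by decide +kernel

theorem c10_388 : go p10 60 0xc8644643222e488c9116a485490992228c8642a432152391a25c8642a432172190b46432152191990c8ca2d1
    3113851290 107374183 140552477 140552477 3513811903 140552477 = 1 := by decide +kernel

theorem c10_94 : go p10 60 0xc9099212e484c9096a432176290c85332190a90c85c8642d172190b90c85486429990c8548642e435a2d1
    2469606196 107374183 2108287143 140552477 2389392093 140552477 = 1 := by decide +kernel

theorem c10_27 : go p10 60 0xc91c46432390a2e452189a90c89c8a46548e468c8a44e47232a472345c8e291c8634647148e435a2d1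
    2791728742 214748365 (-2529944569) 281104953 4778784187 281104953 = 1 := by decide +kernel

theorem c10_257 : go p10 60 0xc86426432352191a2e485488c90b9216a485c90b45a90c32190a91172290991c8d490a2d1
    2899102924 107374183 (-983867331) 140552477 4357126759 140552477 = 1 := by decide +kernel

theorem c10_119 : go p10 60 0x32190a90c85290c8548624e43213242548642948642a431266452172190b52290b90c68a
    1503238554 214748365 (-1686629713) 562209905 5340994091 281104953 = 1 := by decide +kernel

theorem c10_4 : go p10 60 0xc8642643212a43219094e485c8cc8642e484b52391192135a6a4321723521aea72190aad2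
    1073741824 214748365 (-5059889139) 562209905 5903203997 281104953 = 1 := by decide +kernel

theorem c10_419 : go p10 60 0xc8643222e43215219116a452428c90a90c85152190a91c8d191c90b52391a299
    3006477107 429496730 (-562209903) 562209905 6184308949 562209905 = 1 := by decide +kernel

theorem c10_415 : go p10 60 0x32426452190a2e432232190a90c8516a43213242a445c8642643215222d1
    2791728742 214748365 (-281104951) 281104953 4778784187 281104953 = 1 := by decide +kernel

theorem c10_135 : go p10 60 0x32190b91489991c8642ca9148cc86445291c8642cc8a4654864264293
    1181116006 107374183 (-1405524761) 281104953 5903203997 281104953 = 1 := by decide +kernel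

theorem c10_82 : go p10 60 0xc8644e432166432272190b2a452190a7229133242e46a4721453
    2174327195 26843546 2038010905 70276239 2459668331 70276239 = 1 := by decide +kernel

theorem c10_78 : go p10 60 0x3242e485a9217242d192132190972190b52190c2e432168b
    2201170741 53687092 1756905953 70276239 2670497045 140552477 = 1 := by decide +kernel

theorem c10_168 : go p10 60 0x32292146432252190c85a2a432152191290c90a453
    1181116006 107374183 (-281104951) 281104953 5903203997 281104953 = 1 := by decide +kernel

theorem c10_72 : go p10 60 0x32190990c84b90d6a4321321a9c86b46b
    2254857832 107374183 1264972287 140552477 2529944569 281104953 = 1 := by decide +kernel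

theorem c10_25 : go p10 60 0xc8a4321723465521aab2e432390a35a
    3006477107 429496730 (-3935469331) 562209905 5059889139 562209905 = 1 := by decide +kernel

end Pool.Agent.MP_5cfbf6_gt.P8.KK
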