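import Pool.Agent.MP_5cfbf6_gt.P8.KP10

set_option autoImplicit false

namespace Pool.Agent.MP_5cfbf6_gt.P8.KK

theorem c10_241 : go p10 60 0x3239216a432346432190972191484b52190b90c86168b92172190b5242e485a32190991488b90c84c86425a90c86172186430b45a
    2845415833 53687092 (-421657427) 140552477 3794916855 140552477 = 1 := by decide +kernel

theorem c10_129 : go p10 60 0x32190a90c85290c84c8a445390c85486429490a90c85266432152190a52291191488a7242642a43214a432152190a4ca
    1503238554 214748365 (-562209903) 562209905 4778784187 281104953 = 1 := by decide +kernel

theorem c10_198 : go p10 60 0xd90a90c853b2152190a66432185486429c8643212a43214ca90c85486429c8642a44cc8642a43214e432152190a653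
    1073741824 214748365 562209905 562209905 5059889139 562209905 = 1 := by decide +kernel

theorem c10_273 : go p10 60 0xc8642e43216a452191190c8ca32190a91c8d490b90c85a25c8a452252392168990c52391290c85c8642d12d1
    3113851290 107374183 (-421657427) 140552477 3794916855 140552477 = 1 := by decide +kernel

theorem c10_89 : go p10 60 0xc86c4643222e432190a32192145ab239216548e46a431c8642d172391a90c85c8642d191cad48642e435a2d1
    2308544923 53687092 2178563381 70276239 2319115855 70276239 = 1 := by decide +kernel

theorem c10_191 : go p10 60 0x32290c85390c85486429991486429c8642a43214ca90c86429c8642a43214cc8644e432152190a652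
    2362232014 214748365 (-562209903) 562209905 5340994091 281104953 = 1 := by decide +kernel

theorem c10_357 : go p10 60 0xc8642e452266452190a32192145c8a432146452190a2d19148a44cc8642643212a43214cb
    3274912563 53687092 1897458429 70276239 2670497045 140552477 = 1 := by decide +kernel

theorem c10_122 : go p10 60 0x32191a91c8d292132445491192229486484a90c85266432152189490990b90c6a472148a
    966367642 107374183 (-843314855) 281104953 5200441615 140552477 = 1 := by decide +kernel

theorem c10_112 : go p10 60 0x3643217242ca90c85c8642d48a43214ca90c85486429c8a44cc8642a43214e4522653
    2254857832 107374183 1405524763 281104953 3654364379 281104953 = 1 := by decide +kernel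

theorem c10_249 : go p10 60 0xc8642a485192172190c2d48e485a2e472352190a32190c2e43216a485c90b45a
    2845415833 53687092 (-140552475) 140552477 3794916855 140552477 = 1 := by decide +kernel

theorem c10_121 : go p10 60 0x32190a90c86425292152190a4e45223242a489491265490a921521912299
    1073741824 214748365 (-281104951) 281104953 4778784187 281104953 = 1 := by decide +kernel

theorem c10_206 : go p10 60 0xc90a91190c85488b90c85488c8642a445a90c84c8a4254864264521299
    1932735284 214748365 281104953 281104953 4778784187 281104953 = 1 := by decide +kernel

theorem c10_286 : go p10 60 0x32190b90c8616a472190b46430c85c86426430b52190b91428b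
    2845415833 53687092 491933667 70276239 3232706949 140552477 = 1 := by decide +kernel

theorem c10_255 : go p10 60 0xc8a44a489c9134e45213238a445a90c3229097218645212d1
    2952790015 53687092 (-1054143569) 70276239 4146298045 70276239 = 1 := by decide +kernel

theorem c10_297 : go p10 60 0x3218a43539148642cc864654909aea66432190b95a35a
    3328599654 107374183 281104953 281104953 3092154473 281104953 = 1 := by decide +kernel

theorem c10_331 : go p10 60 0x32290990c8d488b9215213242e485a92145a
    3060164199 53687092 1264972287 140552477 3232706949 140552477 = 1 := by decide +kernel

theorem c10_233 : go p10 60 0xc86a90d46b90d52184d66aaea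
    2899102924 107374183 (-702762379) 140552477 3513811903 140552477 = 1 := by decide +kernel

theorem c10_266 : go p10 60 0xc86b92426b35566a
    3113851290 107374183 (-702762379) 140552477 3513811903 140552477 = 1 := by decide +kernel

end Pool.Agent.MP_5cfbf6_gt.P8.KK
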