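import Pool.Agent.MP_5cfbf6_gt.P8.KP10

set_option autoImplicit false

namespace Pool.Agent.MP_5cfbf6_gt.P8.KK

theorem c10_347 : go p10 60 0x32190a90990c5212e431484c8a48516a430c86425c8a426485484b46432132190972191190c84b52190990c88b92152132291168b
    3167538381 53687092 1756905953 70276239 2670497045 140552477 = 1 := by decide +kernel

theorem c10_204 : go p10 60 0x36c86445486426432129d90c8558a42cab215229114cab6432129db219094cc8642643212a43213219094e432132190952190c84a653
    1503238554 214748365 562209905 562209905 6184308949 562209905 = 1 := by decide +kernel

theorem c10_179 : go p10 60 0x32190990c84a90c84c9094a432132190952190992129390c88c8a46548a46645232948644645222a4323321911499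
    1503238554 214748365 (-843314855) 281104953 5903203997 281104953 = 1 := by decide +kernel

theorem c10_81 : go p10 60 0xc8642e43216a432172190b46484c86135d4e4321721ad48642e435a35a90c85c8642d48e468c861aea72190b95a91c851ad1
    2201170741 53687092 2038010905 70276239 2319115855 70276239 = 1 := by decide +kernel

theorem c10_238 : go p10 60 0xc8619215212e450c8642a425a90c85c8642d190c8d488c8e46a445c8e46a446432b5222d48642e472128b
    2684354560 107374183 (-140552475) 140552477 3654364379 281104953 = 1 := by decide +kernel

theorem c10_239 : go p10 60 0xc8a44645222e45223229116a430c86172186430b46435486135d4e4522321a9c8a446b52186430b90c35a35a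
    2845415833 53687092 (-421657427) 140552477 3513811903 140552477 = 1 := by decide +kernel

theorem c10_259 : go p10 60 0xc90b90c85a9217242d190c84c86484a72190a90c84c8642535218645212e452132190a91168b
    2952790015 53687092 (-773038617) 70276239 4076021807 140552477 = 1 := by decide +kernel

theorem c10_323 : go p10 60 0xc8a485190c86428b90c86428c86432145a90c85484c8642a445c8642a44643215222d1
    3167538381 53687092 1616353477 70276239 2740773283 70276239 = 1 := by decide +kernel

theorem c10_408 : go p10 60 0x3239216a432146432185c86430b52391a2e485c8642d486468c8642e43216a472345a
    2684354560 107374183 (-1967734665) 281104953 4778784187 281104953 = 1 := by decide +kernel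

theorem c10_338 : go p10 60 0x32190b90c89991486428c8642e432168b90c8548e468c8e42a432172190b45a
    3274912563 53687092 1264972287 140552477 3232706949 140552477 = 1 := by decide +kernel

theorem c10_104 : go p10 60 0x32190a91190c8548cb90c85488c8642a445a90c84c864254864264321299
    1932735284 214748365 843314857 281104953 4216574283 281104953 = 1 := by decide +kernel

theorem c10_21 : go p10 60 0xc8e43216643216a432172190b4a47233239195219142e4854321911693
    1932735284 214748365 (-2811049521) 562209905 6184308949 562209905 = 1 := by decide +kernel

theorem c10_189 : go p10 60 0x32190a91488b90c84c8e190c29a90c85486429c8642a43214d1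
    2362232014 214748365 (-843314855) 281104953 4778784187 281104953 = 1 := by decide +kernel

theorem c10_151 : go p10 60 0xc8e45229214e432152191a68c8a485490a72190a90c853459
    885837005 26843546 (-790607676) 17569060 5832927759 70276239 = 1 := by decide +kernel

theorem c10_90 : go p10 60 0xd9212a588c864453b6432329590d8ca90c89c8a4853299
    2308544923 53687092 2178563381 70276239 2459668331 70276239 = 1 := by decide +kernel

theorem c10_145 : go p10 60 0x32190a92190b91a32431c8517243119222d1
    912680551 53687092 (-948729212) 35138120 5832927759 70276239 = 1 := by decide +kernel

theorem c10_38 : go p10 60 0xc86b90d465751aeaaab90d55d521aea35566a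
    2147483649 429496730 (-1124419808) 1124419810 2811049521 562209905 = 1 := by decide +kernel

theorem c10_2 : go p10 60 0xc951aebaeaaab90d55d55566a
    1288490189 429496730 (-5622099044) 1124419810 5059889139 562209905 = 1 := by decide +kernel

end Pool.Agent.MP_5cfbf6_gt.P8.KK
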