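import Pool.Agent.MP_5cfbf6_gt.P8.KP10

set_option autoImplicit false

namespace Pool.Agent.MP_5cfbf6_gt.P8.KK

theorem c10_15 : go p10 60 0x32291c85190c52390a2e48623243116a435c86a35d4e4521721ad56a485484c8a425c8642a44643215222d486290d4e432152a66472155a52a909aeaa99
    2147483649 429496730 (-3935469331) 562209905 5059889139 562209905 = 1 := by decide +kernel

theorem c10_105 : go p10 60 0x32390a91c85191c90b52190a2e432352190a32190b90c84a90c8d16a432152190b32190a90c85952390a91190c521299
    2362232014 214748365 281104953 281104953 3654364379 281104953 = 1 := by decide +kernel

theorem c10_235 : go p10 60 0xc8a432146485490a2e485486428c86290c45a91484c8a425c8a42645212d190c85486a72190aad48a426435391484d68b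
    2952790015 53687092 (-773038617) 70276239 3794916855 140552477 = 1 := by decide +kernel

theorem c10_336 : go p10 60 0x3219214e432146432172190b52190a2e432190a72190a32190b90c85a91c8d16a430c90a9097218643215212d1
    3113851290 107374183 1546077239 140552477 3232706949 140552477 = 1 := by decide +kernel

theorem c10_85 : go p10 60 0xd90c85c8642ca90c85c8642d48642e432168b90c85c86484b52190b90c86168c8642a435390c85486a65a
    2228014287 26843546 2178563381 70276239 2319115855 70276239 = 1 := by decide +kernel

theorem c10_208 : go p10 60 0xdb214e43213229096ac86425486426432129990c84c8a445c8a44645222d48642643212a43213229094ca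
    1932735284 214748365 562209905 562209905 5340994091 281104953 = 1 := by decide +kernel

theorem c10_16 : go p10 60 0x3244e46645217242ca90c85c8642cc8642e43194a43217218cc8642e46548642e466430d693
    1932735284 214748365 (-2811049521) 562209905 5059889139 562209905 = 1 := by decide +kernel

theorem c10_378 : go p10 60 0xc8642a43213219194e43215239216a485c90b45a90c32190a91172290991c90b52190a2d1
    2899102924 107374183 140552477 140552477 3794916855 140552477 = 1 := by decide +kernel

theorem c10_362 : go p10 60 0x32190c2e432185a91486429991484c8642a425c8a426431484b52190b90c86168b
    3167538381 53687092 1756905953 70276239 2951601997 140552477 = 1 := by decide +kernel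

theorem c10_183 : go p10 60 0xc8642a43214e432429a90c85486429c8642d190c86429c8642cc8a42e4321652
    1932735284 214748365 (-1686629713) 562209905 4778784187 281104953 = 1 := by decide +kernel

theorem c10_115 : go p10 60 0xdb6485c8642ca90c85c8642d48642e432168b56c90b90952190b90c85a91c85168a
    2362232014 214748365 1686629715 562209905 4216574283 281104953 = 1 := by decide +kernel

theorem c10_100 : go p10 60 0x36c85486429d90a90c8532ad90c86c44a72291190c85392132191172426488b453
    2469606196 107374183 1967734667 281104953 3092154473 281104953 = 1 := by decide +kernel

theorem c10_36 : go p10 60 0x32190b90c85a90c90a52192149990c521a9c86b52190a90c4a43554ca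
    1503238554 214748365 (-562209903) 562209905 3654364379 281104953 = 1 := by decide +kernel

theorem c10_309 : go p10 60 0xc8642e484c89990c89c90990b2a452232390a3242654e432b453
    2684354560 107374183 1967734667 281104953 2529944569 281104953 = 1 := by decide +kernel

theorem c10_69 : go p10 60 0x32190a91190c85488a91c8d486428c8642a4453
    1825361102 107374183 1405524763 281104953 3092154473 281104953 = 1 := by decide +kernel

theorem c10_425 : go p10 60 0x36c9097219222d590c88ab21b1952190a91c8d14ca
    3006477107 429496730 1124419810 1124419810 6184308949 562209905 = 1 := by decide +kernel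

theorem c10_365 : go p10 60 0xdb6db215212ec8594ed90a909653
    3113851290 107374183 2108287143 140552477 3092154473 281104953 = 1 := by decide +kernel

theorem c10_152 : go p10 60 0x32391a
    939524097 26843546 (-808176736) 35138120 5832927759 70276239 = 1 := by decide +kernel

end Pool.Agent.MP_5cfbf6_gt.P8.KK
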