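import Pool.Agent.MP_5cfbf6_gt.P8.KP10

set_option autoImplicit false

namespace Pool.Agent.MP_5cfbf6_gt.P8.KK

theorem c10_213 : go p10 60 0xdb2190ab1c8d156c86425a9217242d48642e432268a76c85c90b5642e432425a2ad90b56c86425a32190c84b90c86425a90c8642548642643212994ca
    2147483649 429496730 1124419810 1124419810 6184308949 562209905 = 1 := by decide +kernel

theorem c10_98 : go p10 60 0x32190a90c85390c85486429990c85486429c8a44643214ca91488c86429c86488b90c90968c8642a44e432172190b453
    2469606196 107374183 1405524763 281104953 3092154473 281104953 = 1 := by decide +kernel

theorem c10_345 : go p10 60 0x32190990c84b9213219096a432132190972191190c84b46432135c86426b353921321909721911ad486446432a2e452235a35a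
    3167538381 53687092 1827182191 140552477 2389392093 140552477 = 1 := by decide +kernel

theorem c10_24 : go p10 60 0xc8642a472346485486568c8642e435a2a435d55390c86428c86432145c8a432146432190a2d48e46a575392152195a35a521aeaaaba99
    3435973837 858993460 (-5622099044) 1124419810 5622099044 1124419810 = 1 := by decide +kernel

theorem c10_377 : go p10 60 0xc90b90c85990c90972190c84b2a432132191172191190c88b52190991488b91490a32190a90c85168b
    2952790015 53687092 210828715 70276239 3513811903 140552477 = 1 := by decide +kernel

theorem c10_45 : go p10 60 0xc90b86431c84a90c72352390a2e432152390a32391a90c8516a43215242a445c90a91190c5222d1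
    2362232014 214748365 (-843314855) 281104953 4216574283 281104953 = 1 := by decide +kernel

theorem c10_91 : go p10 60 0x36db2425590a2d3b1486429d8a43214cd90a90c84a90c86425c90b92165390c3219095242a446485c88a65a
    2201170741 53687092 2108287143 140552477 2670497045 140552477 = 1 := by decide +kernel

theorem c10_125 : go p10 60 0xc92146452190b92132168a9149119212e486428c90968c8a486428c90972431190b452
    912680551 53687092 (-702762379) 140552477 5551822805 70276239 = 1 := by decide +kernel

theorem c10_301 : go p10 60 0xc8e42647212a432146472132190b52190a2e472132190b52190a32190b90d6a432145a
    3060164199 53687092 983867333 140552477 2951601997 140552477 = 1 := by decide +kernel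

theorem c10_219 : go p10 60 0x32186450b90c32285a92172190b4645213229097228645212d48642e432168b
    2684354560 107374183 (-1264972285) 140552477 4216574283 281104953 = 1 := by decide +kernel

theorem c10_396 : go p10 60 0xc86484a90c86428c86432145390c84c8642e432165c86426432172190a2d1
    3221225472 214748365 843314857 281104953 4216574283 281104953 = 1 := by decide +kernel

theorem c10_109 : go p10 60 0xc90b91a90c85190c85c8642d486428b91c8d486428c8e46a432145a
    2254857832 107374183 843314857 281104953 4216574283 281104953 = 1 := by decide +kernel

theorem c10_248 : go p10 60 0x3242643222e484c86445a90c8548642a432145c8642a43148622d1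
    2952790015 53687092 (-70276237) 70276239 3584088141 70276239 = 1 := by decide +kernel

theorem c10_376 : go p10 60 0xc8643222e484c86445a92132291172190992152190a2d1
    2952790015 53687092 70276239 70276239 3584088141 70276239 = 1 := by decide +kernel

theorem c10_157 : go p10 60 0x32390a92190b91a32432172345c91c85192390a2d1
    912680551 53687092 (-948729212) 35138120 5973480235 70276239 = 1 := by decide +kernel

theorem c10_60 : go p10 60 0xc8642e46a432146435c84d4e432152235a
    1825361102 107374183 1405524763 281104953 2529944569 281104953 = 1 := by decide +kernel

theorem c10_163 : go p10 60 0xc86485191490b90c90968a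
    912680551 53687092 (-632486141) 70276239 5973480235 70276239 = 1 := by decide +kernel

theorem c10_404 : go p10 60 0xd
    3221225472 214748365 1967734667 281104953 3935469331 562209905 = 1 := by decide +kernel

end Pool.Agent.MP_5cfbf6_gt.P8.KK
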