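import Pool.Agent.MP_5cfbf6_gt.P8.KP10

set_option autoImplicit false

namespace Pool.Agent.MP_5cfbf6_gt.P8.KK

theorem c10_99 : go p10 60 0xdb6c864255b2168b4ec85c8642d590c84b90c86425a3219119217219132e432232190a90c8996a452232191390c89972291190c89c8644cb45a
    2254857832 107374183 1967734667 281104953 3092154473 281104953 = 1 := by decide +kernel

theorem c10_70 : go p10 60 0x32190b90c85a9217242d190c84c8629117218645212d48642e432168b90c85c90b52391a32190c2e43216a432172345a
    2040109466 107374183 1405524763 281104953 3092154473 281104953 = 1 := by decide +kernel

theorem c10_6 : go p10 60 0x3244643148626e484c8627218a43136e472189a91489c8642d290c52189c8627218a431372190a90c85352295390d693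
    1503238554 214748365 (-5059889139) 562209905 6184308949 562209905 = 1 := by decide +kernel

theorem c10_77 : go p10 60 0x32426488b92132425a90c52390a32190a91c85172290c46452188b464a8c86566a35d4e4321721ad48642643212e435a35a
    2308544923 53687092 1827182191 140552477 2389392093 140552477 = 1 := by decide +kernel

theorem c10_44 : go p10 60 0x3242e43216a432346432152190a2e432352390a32190a9116a45242cc90a91152191290990c85c90a299
    2362232014 214748365 (-281104951) 281104953 3654364379 281104953 = 1 := by decide +kernel

theorem c10_337 : go p10 60 0xc8a472146432172190b4648cc86352190b90c85a2e485c8548e466432168c8642a432172190b45a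
    3274912563 53687092 1264972287 140552477 2951601997 140552477 = 1 := by decide +kernel

theorem c10_321 : go p10 60 0x32190b90c85486429990c85c8642a43214ca90c85486429c8642a44cc8642a44643215222d1
    3167538381 53687092 1475801001 70276239 2740773283 70276239 = 1 := by decide +kernel

theorem c10_47 : go p10 60 0xc8642e43216a431489990c85c86b52190a9532a435d52ba8d4e45227229133242a54e4854a99521ae4359a99
    1288490189 429496730 562209905 562209905 2811049521 562209905 = 1 := by decide +kernel

theorem c10_63 : go p10 60 0xc8619142e430c8616a432172346550c84d75390c85cad48e428d6a432152232186a722909ad1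
    2040109466 107374183 1827182191 140552477 2389392093 140552477 = 1 := by decide +kernel

theorem c10_290 : go p10 60 0x32190a90c8d190c84d4e431c86b52190b90d68d6a432352428c861a9c8642e435a90c851ad1
    2899102924 107374183 702762381 140552477 2951601997 140552477 = 1 := by decide +kernel

theorem c10_272 : go p10 60 0xc8642e435a90c8548e46a432172190b44c86484d66a7218a472252190b90d689ad1
    3113851290 107374183 (-421657427) 140552477 3513811903 140552477 = 1 := by decide +kernel

theorem c10_398 : go p10 60 0x3642a452190a2ec85486430a66452232186485a72190c2a43213229194ca
    2899102924 107374183 1405524763 281104953 3654364379 281104953 = 1 := by decide +kernel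

theorem c10_207 : go p10 60 0xc8a44643215222e452232190a9116a4321321909521864321299
    1932735284 214748365 843314857 281104953 4778784187 281104953 = 1 := by decide +kernel

theorem c10_293 : go p10 60 0x3218643212e432132190a92145a90c8617219099215212d1
    2899102924 107374183 983867333 140552477 3232706949 140552477 = 1 := by decide +kernel

theorem c10_422 : go p10 60 0xd90b9216ac85c86484b46485c90b5219212e432168a
    2791728742 214748365 562209905 562209905 5340994091 281104953 = 1 := by decide +kernel

theorem c10_339 : go p10 60 0xc8642a43217242d190c8548642e432168b
    3382286745 53687092 1264972287 140552477 3092154473 281104953 = 1 := by decide +kernel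

theorem c10_271 : go p10 60 0xc86484b90c85a
    3328599654 107374183 (-843314855) 281104953 4216574283 281104953 = 1 := by decide +kernel

theorem c10_325 : go p10 60 0xc909ae555c86aacd66a
    3328599654 107374183 1546077239 140552477 2389392093 140552477 = 1 := by decide +kernel

end Pool.Agent.MP_5cfbf6_gt.P8.KK
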