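import Pool.Agent.MP_5cfbf6_gt.P8.KP10

set_option autoImplicit false

namespace Pool.Agent.MP_5cfbf6_gt.P8.KK

theorem c10_406 : go p10 60 0xc90990c85c8642d48642ad90a72190b9212d190c85490991392132190a68b90c8548642a43214e452189a32190a90c85486b722ad1689
    3865470567 429496730 1686629715 562209905 2811049521 562209905 = 1 := by decide +kernel

theorem c10_52 : go p10 60 0x32190a90c85390c85486429990c89486429c8642a43214ca90c85486429c8642a43214cc8642e43216a432152190a653
    1503238554 214748365 562209905 562209905 3935469331 562209905 = 1 := by decide +kernel

theorem c10_120 : go p10 60 0xc8642643212a43213214a432152190a4e45225218e431a90c72348c8642a43215214548642a4321521891922321499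
    1073741824 214748365 (-843314855) 281104953 4778784187 281104953 = 1 := by decide +kernel

theorem c10_76 : go p10 60 0xc8e42a472146472352391a2e43148623218a43116a472152188c8e42a43117218a446431488b46435d52b909a8d753
    2201170741 53687092 1897458429 70276239 2389392093 140552477 = 1 := by decide +kernel

theorem c10_240 : go p10 60 0xc8a44643222e45223229116a432232191172191190c88b46435486a35d4e4321521a9c8642ab52191190d4e432235a35a
    2952790015 53687092 (-421657427) 140552477 3513811903 140552477 = 1 := by decide +kernel

theorem c10_37 : go p10 60 0x3218643212a43219094e432190a52190c85266432132189c8642642d48642a431290c8548624ca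
    1503238554 214748365 (-562209903) 562209905 4216574283 281104953 = 1 := by decide +kernel

theorem c10_402 : go p10 60 0xd90ab242d190c85c8643214ca9148644cc8642a43223219114cc8a432266432152191190c88a653
    3328599654 107374183 1405524763 281104953 3654364379 281104953 = 1 := by decide +kernel

theorem c10_134 : go p10 60 0xc8642a431391489a90c86232445486431992129c8642a431346432172290b32290c652
    966367642 107374183 (-1405524761) 281104953 6043756473 140552477 = 1 := by decide +kernel

theorem c10_138 : go p10 60 0x3218a43214e45226a472152190a52446485a90c85266452272190b52290c4e452268a
    966367642 107374183 (-1405524761) 281104953 6605966377 140552477 = 1 := by decide +kernel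

theorem c10_59 : go p10 60 0xc90b91a90c7218d190c72190b52390a2e47242d48a190a32190a90d4e432145a
    2469606196 107374183 843314857 281104953 3092154473 281104953 = 1 := by decide +kernel

theorem c10_333 : go p10 60 0xc86485a90990c85c8642d486428b92172190b52428c8e44647222a432145a
    3060164199 53687092 1546077239 140552477 2951601997 140552477 = 1 := by decide +kernel

theorem c10_106 : go p10 60 0xc86391a92172346432152272391a2e472352190b3218a44e432145a
    2254857832 107374183 843314857 281104953 3654364379 281104953 = 1 := by decide +kernel

theorem c10_96 : go p10 60 0x3242e485a90c85c8642d190c86425c8642d48642643212e432168b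
    2254857832 107374183 1264972287 140552477 3092154473 281104953 = 1 := by decide +kernel

theorem c10_260 : go p10 60 0xc86485a90c8d190c86425c8645222d48642e432190968b
    2952790015 53687092 (-632486141) 70276239 4076021807 140552477 = 1 := by decide +kernel

theorem c10_352 : go p10 60 0x3643212a436428c864321453b219095642a4264321521299
    3167538381 53687092 2178563381 70276239 2459668331 70276239 = 1 := by decide +kernel

theorem c10_29 : go p10 60 0x32191c8519148e428b90c85486429a
    3221225472 214748365 (-2811049521) 562209905 5059889139 562209905 = 1 := by decide +kernel

theorem c10_126 : go p10 60 0x32390c85a90c85c8642d2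
    1020054733 53687092 (-702762379) 140552477 5481546567 140552477 = 1 := by decide +kernel

theorem c10_399 : go p10 60 0xd
    2791728742 214748365 1967734667 281104953 3654364379 281104953 = 1 := by decide +kernel

end Pool.Agent.MP_5cfbf6_gt.P8.KK
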