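import Pool.Agent.MP_5cfbf6_gt.P8.KP10

set_option autoImplicit false

namespace Pool.Agent.MP_5cfbf6_gt.P8.KK

theorem c10_401 : go p10 60 0x36485c8ca90c8615242a426432152129c8642a43214cb91486429c8643214cc86190c85484b90c84c8642a445a90c85c86430b45a
    3113851290 107374183 1405524763 281104953 3654364379 281104953 = 1 := by decide +kernel

theorem c10_18 : go p10 60 0x3218645212e430c85990c85490a9117219132a432185486190c29c90a90c85332426488b90c52190a2e432152190a652
    2362232014 214748365 (-2811049521) 562209905 5340994091 281104953 = 1 := by decide +kernel

theorem c10_73 : go p10 60 0xc8642a472146472152391a2e452188c8a43116a472352390a32190b91a92172345c86290c4643148622d190d75486426ba8d753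
    2254857832 107374183 1546077239 140552477 2529944569 281104953 = 1 := by decide +kernel

theorem c10_171 : go p10 60 0xc90a90c85292152192129390c91152192166452191329490990c90a2a452392168c90b921521921299499
    966367642 107374183 (-702762379) 140552477 6324861425 140552477 = 1 := by decide +kernel

theorem c10_7 : go p10 60 0xc8e46a47234e47235239126a43217242d48e46948a44e43216a472b49990c85c8642d486ba9c8642e435aad295575572aaabaab353
    2147483649 429496730 (-5622099044) 1124419810 5622099044 1124419810 = 1 := by decide +kernel

theorem c10_382 : go p10 60 0x32391a90c85c8642d192172190c2d48e468b92172190b52391a32186484b92132185a91c90b45a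
    2684354560 107374183 843314857 281104953 3654364379 281104953 = 1 := by decide +kernel

theorem c10_137 : go p10 60 0xc8642a43214e45226a43233244548e429486432166488a90c8526645217229133219119212d2
    966367642 107374183 (-1405524761) 281104953 6324861425 140552477 = 1 := by decide +kernel

theorem c10_172 : go p10 60 0xc8642a43214a432152190a4e488c91152190b92169486485990c90b2a4323321911499
    966367642 107374183 (-983867331) 140552477 6605966377 140552477 = 1 := by decide +kernel

theorem c10_190 : go p10 60 0x32190a90c84c9094e432132190952190a90c85166432152190a7242642a43213214ca
    2362232014 214748365 (-281104951) 281104953 4778784187 281104953 = 1 := by decide +kernel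

theorem c10_243 : go p10 60 0x3242e43216a485c90b46432132291172190991488b52190c84b90c32190968b
    2952790015 53687092 (-351381189) 70276239 3794916855 140552477 = 1 := by decide +kernel

theorem c10_53 : go p10 60 0x36c85590a7642ac8532ac86190a90c32185390c8548642994ed90ab13b15899564522722913299
    1288490189 429496730 1686629715 562209905 3935469331 562209905 = 1 := by decide +kernel

theorem c10_386 : go p10 60 0x32290c85190c90b52190b91a2e432152390a3242e43216a485c90b45a
    2899102924 107374183 281104953 281104953 4216574283 281104953 = 1 := by decide +kernel

theorem c10_374 : go p10 60 0xc90b90c8616a432346430c86425c86191488b52190b90c86168b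
    2845415833 53687092 210828715 70276239 3513811903 140552477 = 1 := by decide +kernel

theorem c10_177 : go p10 60 0xc90a8e43215216a43214e43215217219212a42d4864499
    966367642 107374183 (-140552475) 140552477 6605966377 140552477 = 1 := by decide +kernel

theorem c10_389 : go p10 60 0xc86484b90c9096a484c8a432145c86426452190a2d1
    3113851290 107374183 140552477 140552477 3794916855 140552477 = 1 := by decide +kernel

theorem c10_149 : go p10 60 0x32190c8d19148642e432291328a
    912680551 53687092 (-632486141) 70276239 5692375283 70276239 = 1 := by decide +kernel

theorem c10_75 : go p10 60 0xc8a446435390d6a430c86425c86b46b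
    2201170741 53687092 1756905953 70276239 2389392093 140552477 = 1 := by decide +kernel

end Pool.Agent.MP_5cfbf6_gt.P8.KK
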