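import Pool.Agent.MP_5cfbf6_gt.P8.KP10

set_option autoImplicit false

namespace Pool.Agent.MP_5cfbf6_gt.P8.KK

theorem c10_291 : go p10 60 0xc8a485190c85486468b90c8d486485a3242e43216a485c8642d16a485488c8646a48517219216a432146432172190b52191a2d1
    2899102924 107374183 702762381 140552477 3232706949 140552477 = 1 := by decide +kernel

theorem c10_55 : go p10 60 0xc8e46a432146432172352190a2e432152188c8642a445a91484c8a425c86426430b464521321a9c86426b52186430b90d68a
    1932735284 214748365 562209905 562209905 3092154473 281104953 = 1 := by decide +kernel

theorem c10_117 : go p10 60 0xc8a44643212a43214a432132152189390c72390a32291152426429486446484a90c49990c52152189c86290a90c4ca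
    1073741824 214748365 (-1686629713) 562209905 5340994091 281104953 = 1 := by decide +kernel

theorem c10_217 : go p10 60 0x32290c52189990c85a92135575390c89488c8644a445c86190c2a452152aa9c8614d4861aaba9991452190b914a9991c55a35a
    2899102924 107374183 (-1967734665) 281104953 4216574283 281104953 = 1 := by decide +kernel

theorem c10_113 : go p10 60 0xd90c85c8642ca90c85c8642d48642e432168b90c85c8642d48642e432168c8642e43216a432172190b45a
    2469606196 107374183 1405524763 281104953 3654364379 281104953 = 1 := by decide +kernel

theorem c10_178 : go p10 60 0xc86390c6a484c7218e42d191485c8a42d48642a43214a43224ca90c85486448c8a46a472190b453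
    1181116006 107374183 (-281104951) 281104953 6465413901 281104953 = 1 := by decide +kernel

theorem c10_167 : go p10 60 0x3242a45226648549127219214a432484a4ca9148a44cc9129224e4321921294864324252653
    966367642 107374183 (-281104951) 281104953 5903203997 281104953 = 1 := by decide +kernel

theorem c10_332 : go p10 60 0x32190c85390c85190c85c8642d490b92168b9217242d486428c8642e43216a485c90b45a
    3167538381 53687092 1264972287 140552477 3232706949 140552477 = 1 := by decide +kernel

theorem c10_367 : go p10 60 0xc8642ac72346c85486426432129990c8548a44cc86c46452190a2e432232290c85168b
    3274912563 53687092 1897458429 70276239 2951601997 140552477 = 1 := by decide +kernel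

theorem c10_176 : go p10 60 0xc9099212a484c9094a452429392131c90990b5242642e43216948642a4321499
    966367642 107374183 (-421657427) 140552477 6605966377 140552477 = 1 := by decide +kernel

theorem c10_102 : go p10 60 0xc8642e446432152190a2e43217223218a445a90c84c8a425c8642643212d1
    1932735284 214748365 843314857 281104953 3654364379 281104953 = 1 := by decide +kernel

theorem c10_344 : go p10 60 0xc86190c2e43217232a432152226430d754aea2e452172332186b52190a91135a
    3060164199 53687092 1827182191 140552477 2389392093 140552477 = 1 := by decide +kernel

theorem c10_372 : go p10 60 0x3219212e484c85a91c90b46432285c8619215212d48642e432168b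
    2684354560 107374183 421657429 140552477 3654364379 281104953 = 1 := by decide +kernel

theorem c10_133 : go p10 60 0x3218a44e43216a488c85c86352290b4645218cc864252
    966367642 107374183 (-1405524761) 281104953 5762651521 140552477 = 1 := by decide +kernel

theorem c10_48 : go p10 60 0x362913b1485991489c8642ca91489c8642cc8a54e4321653
    1073741824 214748365 1686629715 562209905 2811049521 562209905 = 1 := by decide +kernel

theorem c10_368 : go p10 60 0x32391a90c85486429c8642a43214d1
    3382286745 53687092 1827182191 140552477 2951601997 140552477 = 1 := by decide +kernel

theorem c10_327 : go p10 60 0xc8e42a431485c8642d1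
    3382286745 53687092 1546077239 140552477 2670497045 140552477 = 1 := by decide +kernel

theorem c10_201 : go p10 60 0xd
    1288490189 429496730 1686629715 562209905 5059889139 562209905 = 1 := by decide +kernel

end Pool.Agent.MP_5cfbf6_gt.P8.KK
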