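import Pool.Agent.MP_5cfbf6_gt.P8.KP10

set_option autoImplicit false

namespace Pool.Agent.MP_5cfbf6_gt.P8.KK

theorem c10_411 : go p10 60 0xc8646a43214643219097242e489952190b90c86168b91c8d48e485a32426486428b90c85490c8916a432290972186485484b45a
    2899102924 107374183 (-1405524761) 281104953 4778784187 281104953 = 1 := by decide +kernel

theorem c10_267 : go p10 60 0x3242e46a452272190c85990c8e432264a9148642cc86432165332192390a91c89332431486265190c90c521ad992135a2d1
    3113851290 107374183 (-702762379) 140552477 3794916855 140552477 = 1 := by decide +kernel

theorem c10_274 : go p10 60 0x32390c8999148642ca90c8d48642e432168c8646a432172190b45c8642a484c85c9099212d191c85486484b92135a2d1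
    3113851290 107374183 (-140552475) 140552477 3513811903 140552477 = 1 := by decide +kernel

theorem c10_417 : go p10 60 0x32190a90c89991486429c86484b90c86445a2e432152392168c90b91a92152190c85172190a90c8e468b45a
    3221225472 214748365 (-562209903) 562209905 5059889139 562209905 = 1 := by decide +kernel

theorem c10_407 : go p10 60 0xc909b2190bb242d490b90c85486429965192132190b91a9148644cc86292172345c86485990c8e428b44a
    3865470567 429496730 1124419810 1124419810 3935469331 562209905 = 1 := by decide +kernel

theorem c10_13 : go p10 60 0x32390a90c85290c85489390c85c8635218e46948642a431266431485c8a42d48e42a43214a45214ca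
    1073741824 214748365 (-2811049521) 562209905 6465413901 281104953 = 1 := by decide +kernel

theorem c10_88 : go p10 60 0xc9119222a43223219114e432172191332190b90c89952291391486429991c85490b91a299
    2308544923 53687092 2038010905 70276239 2459668331 70276239 = 1 := by decide +kernel

theorem c10_62 : go p10 60 0xd90c2e43216ac72346432172190b52390a2a430c86172186430b52391a32190b90d6a4721453
    1825361102 107374183 1967734667 281104953 2529944569 281104953 = 1 := by decide +kernel

theorem c10_123 : go p10 60 0xc8642e431a90c7234a45244642e431a32190c72145491190a52432146488a90c499
    966367642 107374183 (-983867331) 140552477 5481546567 140552477 = 1 := by decide +kernel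

theorem c10_275 : go p10 60 0xc86484b90c9096a452428c8642a47242d172290c8d190c8548642e432425a2d1
    3113851290 107374183 (-140552475) 140552477 3794916855 140552477 = 1 := by decide +kernel

theorem c10_194 : go p10 60 0x3239216647232a43233219194a485c8642cc8e43216548e489a921723453
    2362232014 214748365 (-1686629713) 562209905 6184308949 562209905 = 1 := by decide +kernel

theorem c10_86 : go p10 60 0xdb2190b4ad90c84b5242a43214e48548642994ed91c84a56c7632a452190a721913299
    2201170741 53687092 2178563381 70276239 2459668331 70276239 = 1 := by decide +kernel

theorem c10_223 : go p10 60 0xc91c52389990c85a9218a435b321ad390c86172190b52190b90d699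
    2952790015 53687092 (-1335248523) 70276239 4076021807 140552477 = 1 := by decide +kernel

theorem c10_58 : go p10 60 0xc8e46a485c8d191c8d48642e468b90c52190a3218a432145a
    2254857832 107374183 843314857 281104953 3092154473 281104953 = 1 := by decide +kernel

theorem c10_31 : go p10 60 0xc86452266432391a2a432190b91a3242e472b453
    3865470567 429496730 (-3373259426) 1124419810 5622099044 1124419810 = 1 := by decide +kernel

theorem c10_265 : go p10 60 0x32190a9218a431390c85a32435566a72472146b46b
    3113851290 107374183 (-983867331) 140552477 3654364379 281104953 = 1 := by decide +kernel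

theorem c10_23 : go p10 60 0xc86435566aae435d55d521aea95572b351aeaaea35566a
    3435973837 858993460 (-4497679235) 2248839619 3373259426 1124419810 = 1 := by decide +kernel

theorem c10_205 : go p10 60 0xd
    1288490189 429496730 1686629715 562209905 6184308949 562209905 = 1 := by decide +kernel

end Pool.Agent.MP_5cfbf6_gt.P8.KK
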