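import Pool.Agent.MP_5cfbf6_gt.P8.KP10

set_option autoImplicit false

namespace Pool.Agent.MP_5cfbf6_gt.P8.KK

theorem c10_232 : go p10 60 0x32191290c85191488b91452188c8a445a90c85488c8a425c86291191484b46484d521a8d7539147228d4aea7218a426b52290990d4e432135a35a
    2952790015 53687092 (-983867331) 140552477 3794916855 140552477 = 1 := by decide +kernel

theorem c10_421 : go p10 60 0xc8643212e43219096a432232290c85172191191486428b46432190972426432428b52191191486428b90c88c8a431168a
    2791728742 214748365 562209905 562209905 4778784187 281104953 = 1 := by decide +kernel

theorem c10_221 : go p10 60 0x32290c4e489c90b52291390c86169991c91190c85a9223229134ca90c85488c8e46a432145c8642a44643215222d1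
    2899102924 107374183 (-1546077237) 140552477 4357126759 140552477 = 1 := by decide +kernel

theorem c10_130 : go p10 60 0x32190990c84a92132425290c84c90952426429390c88c8644548644643212948642643212a4321321909499
    1503238554 214748365 (-843314855) 281104953 5340994091 281104953 = 1 := by decide +kernel

theorem c10_317 : go p10 60 0x32190c4643222e484c86425a90c52232291172290990c84b46432a32a95135d4e484c909721ad48642643212e435a35a
    3167538381 53687092 1264972287 140552477 2670497045 140552477 = 1 := by decide +kernel

theorem c10_360 : go p10 60 0xd8a44ec864294864299b6c85592128b72190ab14899b21b11762b1190c88b46452291332190990c84a9213242532d1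
    3328599654 107374183 2108287143 140552477 2670497045 140552477 = 1 := by decide +kernel

theorem c10_354 : go p10 60 0x36d90c84ab218516ed8e425d90a90991484b5642e472228c8642643212a43213219094e432152186430a65a
    3167538381 53687092 2108287143 140552477 2670497045 140552477 = 1 := by decide +kernel

theorem c10_394 : go p10 60 0x32190a90c8539217242d190c84c8642a485172190990c85486428b52190c2e432190968b
    3113851290 107374183 983867333 140552477 3654364379 281104953 = 1 := by decide +kernel

theorem c10_329 : go p10 60 0x32190b90c85a90c86425c8642d191c8642cc8e46548642643212e432132190968b
    3167538381 53687092 1194696049 70276239 2951601997 140552477 = 1 := by decide +kernel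

theorem c10_351 : go p10 60 0x362b2146452190a2e432190a32290c8516ac85484c8642a425c8642a42643215212d1
    3167538381 53687092 2178563381 70276239 2319115855 70276239 = 1 := by decide +kernel

theorem c10_180 : go p10 60 0xc8642a432425290c85486432129390c85490990c84a52190a921321909499
    1503238554 214748365 (-281104951) 281104953 5903203997 281104953 = 1 := by decide +kernel

theorem c10_202 : go p10 60 0xdb219094ed90c84a66432132190952190c84a72191191488a9213219094ca
    1073741824 214748365 562209905 562209905 5903203997 281104953 = 1 := by decide +kernel

theorem c10_295 : go p10 60 0x32191190ca8b92235a90c85490a91c8d132192a26a72190a90c8cc86b46b46b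
    3113851290 107374183 140552477 140552477 3092154473 281104953 = 1 := by decide +kernel

theorem c10_57 : go p10 60 0x3242e484a90c8d190d72b35391488c8642cd6a4321521aea722909ad1
    2362232014 214748365 281104953 281104953 3092154473 281104953 = 1 := by decide +kernel

theorem c10_3 : go p10 60 0x32190b90c85a90d55b90c72b55a91489c8a44d48a54e455a52aaaba99
    1288490189 429496730 (-6184308949) 562209905 6184308949 562209905 = 1 := by decide +kernel

theorem c10_155 : go p10 60 0xc8642a484c9094a4321521921293
    1020054733 53687092 (-702762379) 140552477 5762651521 140552477 = 1 := by decide +kernel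

theorem c10_154 : go p10 60 0xc8648d19148642e484c91168a
    912680551 53687092 (-632486141) 70276239 5832927759 70276239 = 1 := by decide +kernel

end Pool.Agent.MP_5cfbf6_gt.P8.KK
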