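import Pool.Agent.MP_5cfbf6_gt.P8.KP10

set_option autoImplicit false

namespace Pool.Agent.MP_5cfbf6_gt.P8.KK

theorem c10_40 : go p10 60 0x32190a90c4647215222e432152232190a9116a431488c86425c86426430b46432152232186a722909ad486190c2e435a2a570d52190935d553
    2362232014 214748365 (-1686629713) 562209905 3935469331 562209905 = 1 := by decide +kernel

theorem c10_195 : go p10 60 0xc8642a43214e432152190a6a432152190a52190a90c85266432152190a72190a90c85352190a90c85292132152190a4ca
    1932735284 214748365 (-562209903) 562209905 5903203997 281104953 = 1 := by decide +kernel

theorem c10_9 : go p10 60 0x32391990c85a90c85c86190b4a472352391a32191190d69391c8948e448c8646a43224548642a432146472b521912299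
    1288490189 429496730 (-2811049521) 562209905 5059889139 562209905 = 1 := by decide +kernel

theorem c10_146 : go p10 60 0x32391a92291c8548e429c8642a43214d132452390a90c4e431489a25c9148a44e432168992291485c8d12d1
    912680551 53687092 (-878452974) 35138120 5832927759 70276239 = 1 := by decide +kernel

theorem c10_227 : go p10 60 0x32190b91a91486431390c85a32290c8a44cc8642d172472146432390a2d190c90d559a8d75390c52190a90d4e435a35a
    3221225472 214748365 (-1686629713) 562209905 3935469331 562209905 = 1 := by decide +kernel

theorem c10_282 : go p10 60 0x32291191488b91488c8a445a90c32185c86190c2d190d55c861acd4e4522321a9c8a446b52186430b90c35a35a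
    2845415833 53687092 140552477 140552477 3232706949 140552477 = 1 := by decide +kernel

theorem c10_330 : go p10 60 0xc8642e43216a432190972190c84b46432132191172390c85952290990c5222e432132290968b
    3167538381 53687092 1335248525 70276239 2951601997 140552477 = 1 := by decide +kernel

theorem c10_373 : go p10 60 0xc86430b90c3229096a485c8642d191484c8a445c8642a42645212d486430b90c86168b
    2845415833 53687092 70276239 70276239 3513811903 140552477 = 1 := by decide +kernel

theorem c10_8 : go p10 60 0x32190990b90c32185a91484c86a72190a911ad290d7554e432172190b5218642e432155a521aeaa99
    1288490189 429496730 (-3935469331) 562209905 5059889139 562209905 = 1 := by decide +kernel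

theorem c10_285 : go p10 60 0x3218645212e45213229116a432172190c2d191484c86425c8a426b52390990d68b
    2845415833 53687092 351381191 70276239 3232706949 140552477 = 1 := by decide +kernel

theorem c10_92 : go p10 60 0xdb1489d8a43214cab6484d90a2d48642a484c9094e484c8642548a485191486428a653
    2308544923 53687092 2108287143 140552477 2670497045 140552477 = 1 := by decide +kernel

theorem c10_199 : go p10 60 0xc8642a43214e432152190a66430c86425486432129c8642a43214ca
    1503238554 214748365 562209905 562209905 4778784187 281104953 = 1 := by decide +kernel

theorem c10_258 : go p10 60 0x3242a446485c90b52190a2e47242d490a32190b90c8616a432345a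
    2845415833 53687092 (-702762379) 140552477 4076021807 140552477 = 1 := by decide +kernel

theorem c10_43 : go p10 60 0x32390c6a431195c84d4e472b52235a90c52190a32a909721909ad1
    2362232014 214748365 (-843314855) 281104953 3654364379 281104953 = 1 := by decide +kernel

theorem c10_141 : go p10 60 0xc8642a44a43215224e431c8548642948642a4321499
    1503238554 214748365 (-1967734665) 281104953 6465413901 281104953 = 1 := by decide +kernel

theorem c10_165 : go p10 60 0xc90a92132425290c854909921293
    1020054733 53687092 (-702762379) 140552477 6043756473 140552477 = 1 := by decide +kernel

theorem c10_276 : go p10 60 0x32390c85486429991c8a44ca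
    3328599654 107374183 (-281104951) 281104953 3654364379 281104953 = 1 := by decide +kernel

theorem c10_424 : go p10 60 0xd
    3006477107 429496730 1686629715 562209905 5059889139 562209905 = 1 := by decide +kernel

end Pool.Agent.MP_5cfbf6_gt.P8.KK
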