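import Pool.Agent.MP_5cfbf6_gt.P8.KP10

set_option autoImplicit false

namespace Pool.Agent.MP_5cfbf6_gt.P8.KK

theorem c10_296 : go p10 60 0x32290c46452190a2e43223219116a432152426484a32190a92132425172190a92232190b46432152190b90d68b465521a8c864849a8d753
    3113851290 107374183 421657429 140552477 3092154473 281104953 = 1 := by decide +kernel

theorem c10_35 : go p10 60 0xc8643214a432190a4e48548a48515242a452428a66432152190a52190a90c8527229148519213214a452190a32190a4ca
    1073741824 214748365 (-562209903) 562209905 4216574283 281104953 = 1 := by decide +kernel

theorem c10_128 : go p10 60 0xc8642a43213219114a432152190c84a4e452428c86485290c86484a52192149952291190c90a5219214a4324293299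
    1073741824 214748365 (-281104951) 281104953 5340994091 281104953 = 1 := by decide +kernel

theorem c10_93 : go p10 60 0xc8642e43216a452190b32291489972190c8519148e428b46432425c86b5218a485c8d190c86b3539148e428d68b
    2469606196 107374183 1827182191 140552477 2529944569 281104953 = 1 := by decide +kernel

theorem c10_67 : go p10 60 0xdb1484ab2185490b9114ec85486190c299b2390952391a90c85172390a91191c8548622d486190c2e430c86168b
    2093796557 53687092 2178563381 70276239 2389392093 140552477 = 1 := by decide +kernel

theorem c10_262 : go p10 60 0xc90b91a90c85190c85c8642d490b90c85a2e47235242e432168c86430b90c8a425a90c85c90b45a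
    2684354560 107374183 (-281104951) 281104953 4216574283 281104953 = 1 := by decide +kernel

theorem c10_250 : go p10 60 0x3242a432146485c90b5242e432429a2e43242d48a468c8642e43219096a432425c86430b45a
    2952790015 53687092 (-140552475) 140552477 3794916855 140552477 = 1 := by decide +kernel

theorem c10_341 : go p10 60 0x32190a91c8d190c84c86425c8642643212d190c8548e468c8642643212e432132190968b
    3274912563 53687092 1616353477 70276239 2951601997 140552477 = 1 := by decide +kernel

theorem c10_322 : go p10 60 0x32190c85190c88b90c86428c86432145a90c85484c8a425c8642a42643215222d1
    3167538381 53687092 1616353477 70276239 2600220807 70276239 = 1 := by decide +kernel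

theorem c10_423 : go p10 60 0x32290c89990c86429c8642a43214cb90c8548644cc8a43214e432152426484a65a
    3221225472 214748365 562209905 562209905 5059889139 562209905 = 1 := by decide +kernel

theorem c10_74 : go p10 60 0xc8642e43216a432232190c45c9099212d190c86435135d4e485cad48642e435a35a
    2469606196 107374183 1405524763 281104953 2529944569 281104953 = 1 := by decide +kernel

theorem c10_305 : go p10 60 0xc90990a90c85c85390c85c86290c8533239148995218e431486b66484d699
    3328599654 107374183 702762381 140552477 3092154473 281104953 = 1 := by decide +kernel

theorem c10_153 : go p10 60 0x32190a92191a32432345c8e432172426484b52191c8642d1651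
    912680551 53687092 (-737900498) 35138120 5832927759 70276239 = 1 := by decide +kernel

theorem c10_116 : go p10 60 0xc8642a430a90c5214e43215215218a429990c7225218a44ca
    1073741824 214748365 (-1686629713) 562209905 4778784187 281104953 = 1 := by decide +kernel

theorem c10_261 : go p10 60 0x32191484b90c3242a48516a432185c8645212d1
    2899102924 107374183 (-702762379) 140552477 4357126759 140552477 = 1 := by decide +kernel

theorem c10_162 : go p10 60 0xc8642a488c92145c90c8d192390c85a2d1
    912680551 53687092 (-737900498) 35138120 5973480235 70276239 = 1 := by decide +kernel

theorem c10_279 : go p10 60 0x321aa426b90c359aa435d521aab26baaa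
    2791728742 214748365 562209905 562209905 2529944569 281104953 = 1 := by decide +kernel

theorem c10_212 : go p10 60 0xd
    2147483649 429496730 1686629715 562209905 5059889139 562209905 = 1 := by decide +kernel

end Pool.Agent.MP_5cfbf6_gt.P8.KK
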