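import Pool.Agent.MP_5cfbf6_gt.P8.KP10

set_option autoImplicit false

namespace Pool.Agent.MP_5cfbf6_gt.P8.KK

theorem c10_19 : go p10 60 0x32192150b92150c8a48516a490a32352432146449a91490a3229097242a44643215222d48a485190c85290c52190a32390a4d3
    1932735284 214748365 (-3935469331) 562209905 6184308949 562209905 = 1 := by decide +kernel

theorem c10_159 : go p10 60 0x3219139242cc92165491486429992290c4ca6643217248599222a48644cc9216532a43217242642a484c853322921723452
    912680551 53687092 (-983867331) 140552477 6114032711 70276239 = 1 := by decide +kernel

theorem c10_326 : go p10 60 0x3218a47234643223219097219099212d191486232190b90c85a2e43217218d490990b90c85a32191190c8cc86b45a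
    3274912563 53687092 1546077239 140552477 2670497045 140552477 = 1 := by decide +kernel

theorem c10_263 : go p10 60 0xc90b90c85a9217242d190c84c8642a48517242a48519217242d48e485a2d486191488b91484c8642a485168b
    2899102924 107374183 (-421657427) 140552477 4216574283 281104953 = 1 := by decide +kernel

theorem c10_33 : go p10 60 0x32190b90c85a90c85486429992172b5239122a435d521aab35391485486429c86290a91485332190a914a99521aab955559a99
    1288490189 429496730 (-1686629713) 562209905 3935469331 562209905 = 1 := by decide +kernel

theorem c10_46 : go p10 60 0xc86426484a90c8948622e485488c90b90990c85c84a6a432152190a3218a445c8642642a45222d1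
    2362232014 214748365 (-281104951) 281104953 4216574283 281104953 = 1 := by decide +kernel

theorem c10_61 : go p10 60 0xc8642a446472152188b91484c8a425a90c32185c8642d195c84d52184d75390c32185c86b52190b95a35a
    2040109466 107374183 1405524763 281104953 2529944569 281104953 = 1 := by decide +kernel

theorem c10_139 : go p10 60 0xc8642e452266472190b2a472190b3229194a432172291332390c85952290c664523293
    1181116006 107374183 (-1405524761) 281104953 6465413901 281104953 = 1 := by decide +kernel

theorem c10_173 : go p10 60 0x32426484a90c85290c85486429390c85c86445486446432229486484a922321919499
    966367642 107374183 (-702762379) 140552477 6605966377 140552477 = 1 := by decide +kernel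

theorem c10_186 : go p10 60 0x32190b90c86429a91486272190b46452191172190990c84b52190b90c86168a
    2362232014 214748365 (-1686629713) 562209905 5340994091 281104953 = 1 := by decide +kernel

theorem c10_269 : go p10 60 0xc8a432445c86488b4643149217234648a431390c85a2e452190a91c85328b
    3113851290 107374183 (-983867331) 140552477 4216574283 281104953 = 1 := by decide +kernel

theorem c10_103 : go p10 60 0xc8642a44643215222e431488c8a445a90c84c86425c8642643212d1
    1932735284 214748365 281104953 281104953 4216574283 281104953 = 1 := by decide +kernel

theorem c10_369 : go p10 60 0xc8644ec854864499b6c85d90b29c8642e432266452190a72190a90c8532d1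
    3328599654 107374183 1827182191 140552477 3232706949 140552477 = 1 := by decide +kernel

theorem c10_216 : go p10 60 0xc86190c2e432185a91c8d190c35c86b35390c85c86b52395a35a
    2684354560 107374183 (-1967734665) 281104953 4216574283 281104953 = 1 := by decide +kernel

theorem c10_320 : go p10 60 0x32190c85190c86b2e432235a90c85488c86a95172190a911ad1
    3167538381 53687092 1475801001 70276239 2600220807 70276239 = 1 := by decide +kernel

theorem c10_170 : go p10 60 0xc9099212a43214a484c909524264293
    1020054733 53687092 (-983867331) 140552477 6324861425 140552477 = 1 := by decide +kernel

theorem c10_1 : go p10 60 0x321aa426baaaae435d55566aae435d55572aaa4351aab35566a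
    1717986919 858993460 (-4497679235) 2248839619 3373259426 1124419810 = 1 := by decide +kernel

theorem c10_114 : go p10 60 0xd
    2362232014 214748365 1967734667 281104953 3654364379 281104953 = 1 := by decide +kernel

end Pool.Agent.MP_5cfbf6_gt.P8.KK
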