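import Pool.Agent.MP_5cfbf6_gt.P8.KP10

set_option autoImplicit false

namespace Pool.Agent.MP_5cfbf6_gt.P8.KK

theorem c10_169 : go p10 60 0x32290c8999148644ca9148644cc8a432165290c85c8642a484c9094cc8642e432152426484a65490b90c52190a664522913293
    912680551 53687092 (-983867331) 140552477 6324861425 140552477 = 1 := by decide +kernel

theorem c10_188 : go p10 60 0x32190a90c85390c85486429a90c85486484a52190a90c85266432152190a72190a90c8535242642a43214e432152190a68a
    1932735284 214748365 (-562209903) 562209905 5340994091 281104953 = 1 := by decide +kernel

theorem c10_42 : go p10 60 0xc8a44645222e45223229116a432132190972291190c84b46452232190972190991484b52291190c2e432132168a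
    1932735284 214748365 (-562209903) 562209905 4216574283 281104953 = 1 := by decide +kernel

theorem c10_17 : go p10 60 0x32190a91190c85488b91489990c85488c8642a445c90a9132a430c8e152186a72190a90d4cc86290c85190c851ad2
    2362232014 214748365 (-2811049521) 562209905 4778784187 281104953 = 1 := by decide +kernel

theorem c10_182 : go p10 60 0xc8e431a90c85c9094a432152192129390c85c90990b52390c6647218ca5242643212a4321321911499
    1503238554 214748365 (-281104951) 281104953 6465413901 281104953 = 1 := by decide +kernel

theorem c10_246 : go p10 60 0xc8642643212e43213219096a432132291172190990c88b464322321909721909ad48a446435391488d68b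
    2952790015 53687092 (-210828713) 70276239 3513811903 140552477 = 1 := by decide +kernel

theorem c10_161 : go p10 60 0xc8e46a490b92168c91490b90c90a68972452290c89326432291486429c8642a47234d12d1
    912680551 53687092 (-808176736) 35138120 5973480235 70276239 = 1 := by decide +kernel

theorem c10_5 : go p10 60 0x32190c85a91484c86465390c7242cc86391b52391192369a91c8548e469c8642a43214d2
    1073741824 214748365 (-5059889139) 562209905 6465413901 281104953 = 1 := by decide +kernel

theorem c10_299 : go p10 60 0xc8642a4321723464321acd4e431486428d6a432172352190a321ae426a72190a921324251ad1
    3113851290 107374183 702762381 140552477 2951601997 140552477 = 1 := by decide +kernel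

theorem c10_84 : go p10 60 0xd90c85c8ca90c85c8642d48642e485a2e432172190b52291332190a90d4e472b45a
    2174327195 26843546 2178563381 70276239 2319115855 70276239 = 1 := by decide +kernel

theorem c10_420 : go p10 60 0x32191486429990c90b91a2a484c8644e43215218a429932190c90972190b453
    3865470567 429496730 (-1124419808) 1124419810 5622099044 1124419810 = 1 := by decide +kernel

theorem c10_252 : go p10 60 0xc90b9216a472346430c90a90972190990c85488b52190b90c86168b
    2684354560 107374183 (-702762379) 140552477 4216574283 281104953 = 1 := by decide +kernel

theorem c10_278 : go p10 60 0xc86472252190a90c85391489a26432426484b90d68a921324351aea353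
    3865470567 429496730 (-1124419808) 1124419810 3373259426 1124419810 = 1 := by decide +kernel

theorem c10_28 : go p10 60 0xc8643214e45223239216a432145992172191a90c52391a2ca
    2791728742 214748365 (-2529944569) 281104953 5340994091 281104953 = 1 := by decide +kernel

theorem c10_361 : go p10 60 0xc8642a190c85488b90c85484c90b9216a432145a
    3060164199 53687092 1827182191 140552477 2951601997 140552477 = 1 := by decide +kernel

theorem c10_95 : go p10 60 0x3642e43216ad96329c8a43216645229132d1
    2469606196 107374183 2108287143 140552477 2670497045 140552477 = 1 := by decide +kernel

theorem c10_358 : go p10 60 0x32291390c854864294864299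
    3382286745 53687092 1827182191 140552477 2670497045 140552477 = 1 := by decide +kernel

end Pool.Agent.MP_5cfbf6_gt.P8.KK
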