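import Pool.Agent.MP_5cfbf6_gt.P8.KP10

set_option autoImplicit false

namespace Pool.Agent.MP_5cfbf6_gt.P8.KK

theorem c10_185 : go p10 60 0x32190c2a431486428b9148623242a445a90c5229097242a45222d191484c8642a445c8a42643215222d48642643212e432268a
    2362232014 214748365 (-1686629713) 562209905 4778784187 281104953 = 1 := by decide +kernel

theorem c10_390 : go p10 60 0x32190b90c85a90c86425c8643212d190c84c8a445c8644643222d48a485190c85486485a2e452190a32190a9217242d168b
    3113851290 107374183 421657429 140552477 3654364379 281104953 = 1 := by decide +kernel

theorem c10_136 : go p10 60 0xc8642e43216a43217234a432172190b52190a4e432132425c90990b52190b90c85a5242642e43216a4321723499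
    1073741824 214748365 (-1967734665) 281104953 6465413901 281104953 = 1 := by decide +kernel

theorem c10_10 : go p10 60 0xc8a42e45216a452172290b4645217229214d48a42e452268a91c90b52391a32190a90c88b90c90952190a693
    1073741824 214748365 (-3935469331) 562209905 6184308949 562209905 = 1 := by decide +kernel

theorem c10_64 : go p10 60 0x32291390c85990c86172190b52391a2e472352190a32190b91a91c8516a452132190a9117228645212d1
    2040109466 107374183 1827182191 140552477 2670497045 140552477 = 1 := by decide +kernel

theorem c10_143 : go p10 60 0x32190a92190c52264c91c85172431c8d192188b46431490c46484b92132168a91486390a324452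
    912680551 53687092 (-983867331) 140552477 5692375283 70276239 = 1 := by decide +kernel

theorem c10_14 : go p10 60 0xc8a42e43216a432152252290a66432232425c90990b4a432172352190b90c68c8642e4321693
    1503238554 214748365 (-2811049521) 562209905 6184308949 562209905 = 1 := by decide +kernel

theorem c10_287 : go p10 60 0xc8642e432132425a90c84c86445c8644645222d190c85c86426b52191190c84b90c88d68b
    2952790015 53687092 351381191 70276239 3232706949 140552477 = 1 := by decide +kernel

theorem c10_392 : go p10 60 0x32426484a90c86428c90c45390c88c8644e485c90b45c8a43214643227242e485a2d1
    3221225472 214748365 281104953 281104953 4216574283 281104953 = 1 := by decide +kernel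

theorem c10_254 : go p10 60 0x32291391489a91489c8a44d391c5223238a445a91484c8a445c8a42645212d1
    2952790015 53687092 (-1054143569) 70276239 4005745569 70276239 = 1 := by decide +kernel

theorem c10_203 : go p10 60 0x36d90a90bb215216558ac66452428a76c86425489db2151a90c8532ac85d90b32190a90c8594ca
    1073741824 214748365 562209905 562209905 6465413901 281104953 = 1 := by decide +kernel

theorem c10_87 : go p10 60 0x32190c85990c86a2e432235a91c8d48642e432168c909aea72395a90c85cad1ad1
    2308544923 53687092 2038010905 70276239 2319115855 70276239 = 1 := by decide +kernel

theorem c10_20 : go p10 60 0x3218e46e43216a47234a432252190c8517218a488b52190b921693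
    2362232014 214748365 (-3935469331) 562209905 6184308949 562209905 = 1 := by decide +kernel

theorem c10_225 : go p10 60 0xc90a9119217242d486428b90c85488c90b9216a432145a
    2845415833 53687092 (-1264972285) 140552477 4357126759 140552477 = 1 := by decide +kernel

theorem c10_316 : go p10 60 0x32190b91c8ca90c85488990d75486ba8b91c88c86b52190a35a
    3060164199 53687092 1264972287 140552477 2670497045 140552477 = 1 := by decide +kernel

theorem c10_403 : go p10 60 0x36432190c85172190992172190a2ca
    3221225472 214748365 1405524763 281104953 4216574283 281104953 = 1 := by decide +kernel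

theorem c10_144 : go p10 60 0xc8629213217218d190c8e428a
    912680551 53687092 (-1054143569) 70276239 5832927759 70276239 = 1 := by decide +kernel

end Pool.Agent.MP_5cfbf6_gt.P8.KK
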