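import Pool.Agent.MP_5cfbf6_gt.P8.KP10

set_option autoImplicit false

namespace Pool.Agent.MP_5cfbf6_gt.P8.KK

theorem c10_256 : go p10 60 0x32190c84b90c8a445a90c86172191484b46452428c8644a432145c8a432146452152190a2d48a42643215222e452232290968b
    2952790015 53687092 (-913591093) 70276239 4076021807 140552477 = 1 := by decide +kernel

theorem c10_234 : go p10 60 0xc8642e43216a485c8642d190c84c86429c86431352186430b90c85a2e432172190b52190b92168c8642e435a90c85c86b45a
    2845415833 53687092 (-702762379) 140552477 3794916855 140552477 = 1 := by decide +kernel

theorem c10_11 : go p10 60 0xc86290b9148616a485490a90972191c2a432152428b4a432185c8a42643212d48a44645212e432152232186430a693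
    1503238554 214748365 (-3935469331) 562209905 6184308949 562209905 = 1 := by decide +kernel

theorem c10_414 : go p10 60 0x32190990c90b52191a2e485490a3242e485a9217242d16a432152132190a91c8d172292146432352190a2d1
    2791728742 214748365 (-843314855) 281104953 4778784187 281104953 = 1 := by decide +kernel

theorem c10_350 : go p10 60 0xc8642643222e43213219096a432132290972190990c84b464322321951721909ad48a426435484b90c84d68b
    3167538381 53687092 2038010905 70276239 2389392093 140552477 = 1 := by decide +kernel

theorem c10_242 : go p10 60 0x3219212e43213219096a432172190c2d190c84c8a445c8642643212d48642643212e432132190968b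
    2952790015 53687092 (-491933665) 70276239 3794916855 140552477 = 1 := by decide +kernel

theorem c10_366 : go p10 60 0xc8642a472346432190972190990c84b46432152391a32191191486428b90c88c86431168b
    3274912563 53687092 1756905953 70276239 2951601997 140552477 = 1 := by decide +kernel

theorem c10_142 : go p10 60 0x3242642a43214a484c85486429390c8cc86445486446484a52191990c88a90c84c909499
    1503238554 214748365 (-1405524761) 281104953 6465413901 281104953 = 1 := by decide +kernel

theorem c10_397 : go p10 60 0x36432172190b2a472352190b90c85a2e432172352190b90c85a32391a90c85c86345a
    2684354560 107374183 1405524763 281104953 3654364379 281104953 = 1 := by decide +kernel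

theorem c10_251 : go p10 60 0xc86430b90c8616a485c90b46452132190a91172290991484b52190c2e432168b
    2684354560 107374183 (-983867331) 140552477 4216574283 281104953 = 1 := by decide +kernel

theorem c10_192 : go p10 60 0x32290c85390c89a90c85486429c8642a43214d190c85c8a44cc8e4321652
    1932735284 214748365 (-1686629713) 562209905 5903203997 281104953 = 1 := by decide +kernel

theorem c10_288 : go p10 60 0xc8642e43216a432172190c84b46432172190b5242642e432132190968b
    2952790015 53687092 491933667 70276239 3232706949 140552477 = 1 := by decide +kernel

theorem c10_379 : go p10 60 0x3242a42643242d486428b90c8d490a32190b90c85a91c90b45a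
    2845415833 53687092 421657429 140552477 3513811903 140552477 = 1 := by decide +kernel

theorem c10_313 : go p10 60 0xc8a46a432146485c90b52191a2e485c8644548642e4321699
    2899102924 107374183 1546077239 140552477 3092154473 281104953 = 1 := by decide +kernel

theorem c10_405 : go p10 60 0xc90990c85cad48a432172346484d7539148e428d689
    3865470567 429496730 562209905 562209905 2811049521 562209905 = 1 := by decide +kernel

theorem c10_353 : go p10 60 0x36d90b56428b90c89c8642cc8642e43216a432145a
    3060164199 53687092 2108287143 140552477 2670497045 140552477 = 1 := by decide +kernel

theorem c10_268 : go p10 60 0xc9099212e435a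
    3328599654 107374183 (-843314855) 281104953 3654364379 281104953 = 1 := by decide +kernel

theorem c10_370 : go p10 60 0xdb6590a2edb2176c5622ca653
    3328599654 107374183 2108287143 140552477 3092154473 281104953 = 1 := by decide +kernel

end Pool.Agent.MP_5cfbf6_gt.P8.KK
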