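import Pool.Agent.MP_5cfbf6_gt.P8.KP10

set_option autoImplicit false

namespace Pool.Agent.MP_5cfbf6_gt.P8.KK

theorem c10_300 : go p10 60 0x32190a90c85190c85490b91a2e432152190a32190a90c8516a432152190a3242e46a432145c8642a432425191c85486484a2d1
    3113851290 107374183 702762381 140552477 3232706949 140552477 = 1 := by decide +kernel

theorem c10_319 : go p10 60 0x32190c2e432185a90c85488990c32185c8642e46548642a444b90c86172190c2d48642a444c8642e466430d6a432152225a
    3060164199 53687092 1546077239 140552477 2670497045 140552477 = 1 := by decide +kernel

theorem c10_237 : go p10 60 0x3242a42647235222e43235223242e43216a432145a90c85c86430b46472190b52232b86a72190b90d6a4851ad48e426430d68b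
    2684354560 107374183 (-421657427) 140552477 3654364379 281104953 = 1 := by decide +kernel

theorem c10_110 : go p10 60 0xc90b9216a432172190b46432172190b52190b90c85a2e485c8d490b92168c8642e43216a432172190b45a
    2469606196 107374183 843314857 281104953 4216574283 281104953 = 1 := by decide +kernel

theorem c10_270 : go p10 60 0xc8642a432445c86488b4647235243242d190c91990c85490968b9242e485a32192190c85332432265168b
    3113851290 107374183 (-702762379) 140552477 4216574283 281104953 = 1 := by decide +kernel

theorem c10_418 : go p10 60 0x32190a90c88b91486445a90c85486428c86290c8515242e485a9217242d191c8d490b90c85a299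
    3006477107 429496730 (-1686629713) 562209905 6184308949 562209905 = 1 := by decide +kernel

theorem c10_335 : go p10 60 0xc86190c2e43217232a432152190a66432132190972190990c88b52190c84b90c84c90a90968b
    3167538381 53687092 1616353477 70276239 2951601997 140552477 = 1 := by decide +kernel

theorem c10_211 : go p10 60 0x36c85390c86445ab6429c8642645222d191486445c8a43214d48642645222e432232291168a
    2362232014 214748365 562209905 562209905 5340994091 281104953 = 1 := by decide +kernel

theorem c10_244 : go p10 60 0xc8642645222e43213229116a432185c86190c2d191488c86a722911ad486190c2e430d68b
    2845415833 53687092 (-210828713) 70276239 3513811903 140552477 = 1 := by decide +kernel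

theorem c10_49 : go p10 60 0x32190b90991484a90c5213229094e432152190a66430c86152186a72190a90d4ca
    1503238554 214748365 1686629715 562209905 2529944569 281104953 = 1 := by decide +kernel

theorem c10_68 : go p10 60 0xdb6430c84b4ec52272190b32190a90c3218539148642996ac8a425590c2a4321722299
    2040109466 107374183 2108287143 140552477 2670497045 140552477 = 1 := by decide +kernel

theorem c10_50 : go p10 60 0x3645212ac5213229094ec85486429990c3218548a190c29c8642a43214ca
    1503238554 214748365 1686629715 562209905 3092154473 281104953 = 1 := by decide +kernel

theorem c10_416 : go p10 60 0x32190b90c85a90c85c8642d190c90972190c2d48642e432190968a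
    2791728742 214748365 (-562209903) 562209905 5340994091 281104953 = 1 := by decide +kernel

theorem c10_214 : go p10 60 0x32435192132190d66a35d46baabaa432a321909a8d721aa4264309acd55d52b86a909aea35d55566a
    3006477107 429496730 (-1124419808) 1124419810 2811049521 562209905 = 1 := by decide +kernel

theorem c10_231 : go p10 60 0xc86190b90c32185a91c8d190c35cacd4e432185c86b52395a35a
    2845415833 53687092 (-983867331) 140552477 3794916855 140552477 = 1 := by decide +kernel

theorem c10_160 : go p10 60 0x32446484a92132425392132152426429a
    1020054733 53687092 (-983867331) 140552477 6043756473 140552477 = 1 := by decide +kernel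

theorem c10_307 : go p10 60 0x32291c8d19148e468b
    3382286745 53687092 983867333 140552477 3092154473 281104953 = 1 := by decide +kernel

theorem c10_294 : go p10 60 0xd
    3221225472 214748365 281104953 281104953 2529944569 281104953 = 1 := by decide +kernel

end Pool.Agent.MP_5cfbf6_gt.P8.KK
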