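import Pool.Agent.MP_5cfbf6_gt.P8.KP10

set_option autoImplicit false

namespace Pool.Agent.MP_5cfbf6_gt.P8.KK

theorem c10_308 : go p10 60 0xc8642e43216a472346430d75390c8642d486a664321721ad48e568c8642e435a35a921724254864264853324264359a9c90990d6a4522321a99ad1
    2791728742 214748365 1405524763 281104953 2529944569 281104953 = 1 := by decide +kernel

theorem c10_148 : go p10 60 0x32190a9148646a43214cc8e432390c68c8e431a65190c8549148a42e452168992452264b92291489486264c90c7218d168a
    912680551 53687092 (-773038617) 70276239 5692375283 70276239 = 1 := by decide +kernel

theorem c10_306 : go p10 60 0x3218a432146432152190b92168b90c89c8642a43214ca90c8548642e432168c86290c72145c8a432146432190a2d3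
    3274912563 53687092 983867333 140552477 3092154473 281104953 = 1 := by decide +kernel

theorem c10_412 : go p10 60 0x32190c84b90c86445a90c3219117242643212d191486432145c86486428b5242645212e432132190a91168a
    2791728742 214748365 (-1686629713) 562209905 5340994091 281104953 = 1 := by decide +kernel

theorem c10_302 : go p10 60 0x32190b90c85a90c85c8642d19148cc8646548642e432168b90c85c8d48642e432168c90995a90c85c86b45a
    3167538381 53687092 983867333 140552477 2951601997 140552477 = 1 := by decide +kernel

theorem c10_97 : go p10 60 0xc8642e485a90c85c8642d190c88c8a432145c8642645222d48a446432152190a2e432132291168b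
    2254857832 107374183 1546077239 140552477 3092154473 281104953 = 1 := by decide +kernel

theorem c10_158 : go p10 60 0x32391a9229148a449932452190b90c4a472152190a4c972452290c4c992291489c8642d12d1
    912680551 53687092 (-878452974) 35138120 5973480235 70276239 = 1 := by decide +kernel

theorem c10_328 : go p10 60 0x32190b90c85a90c85191c88c8e44548e468b90c85c8e425486428c8e42647212a472145a
    3060164199 53687092 1264972287 140552477 2951601997 140552477 = 1 := by decide +kernel

theorem c10_66 : go p10 60 0xc8a426450a90c5223229094e432172190b46432152232186a722909ad486430b90d68b
    2093796557 53687092 2038010905 70276239 2389392093 140552477 = 1 := by decide +kernel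

theorem c10_127 : go p10 60 0xc8a432146431c8e468a90c72190b32290c8594a432232290c454864464322293
    1181116006 107374183 (-843314855) 281104953 5340994091 281104953 = 1 := by decide +kernel

theorem c10_51 : go p10 60 0xc8a44e452266432152429c90a9214ca91489c8a44cc90a9214e485490a653
    1073741824 214748365 562209905 562209905 3935469331 562209905 = 1 := by decide +kernel

theorem c10_355 : go p10 60 0x32195390c85486a66432188c8642e432168cae4359a9c8a4321464321721ad1ad1
    3328599654 107374183 1827182191 140552477 2389392093 140552477 = 1 := by decide +kernel

theorem c10_41 : go p10 60 0xc8642642e430c90a6a430c85c8642d190c321a9c8a426b52195390d68a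
    1932735284 214748365 (-562209903) 562209905 3654364379 281104953 = 1 := by decide +kernel

theorem c10_324 : go p10 60 0xc86290c85cad191c8548642e432228c86b90d75172190a92132b46b46b
    3328599654 107374183 1264972287 140552477 2529944569 281104953 = 1 := by decide +kernel

theorem c10_175 : go p10 60 0xc8a44e485489990c89486429c8a485290c90a4ca
    966367642 107374183 (-281104951) 281104953 6324861425 140552477 = 1 := by decide +kernel

theorem c10_228 : go p10 60 0x32190a91190c35391488d6a430c86172186b46b
    2684354560 107374183 (-983867331) 140552477 3654364379 281104953 = 1 := by decide +kernel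

theorem c10_215 : go p10 60 0xc861aeaaeaaea90d721351aea90d52135d46baaa
    2791728742 214748365 (-1686629713) 562209905 3654364379 281104953 = 1 := by decide +kernel

theorem c10_281 : go p10 60 0xd
    2899102924 107374183 140552477 140552477 2951601997 140552477 = 1 := by decide +kernel

end Pool.Agent.MP_5cfbf6_gt.P8.KK
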