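import Pool.Agent.MP_5cfbf6_gt.P8.KP10

set_option autoImplicit false

namespace Pool.Agent.MP_5cfbf6_gt.P8.KK

theorem c10_71 : go p10 60 0xdb6c86152184b4ec85c8642d590b92168c8a426485c88b90c84c8642a445a90c86172190c2d16ad8e46a4321455b217212a485c90b52190a299
    1932735284 214748365 1967734667 281104953 3092154473 281104953 = 1 := by decide +kernel

theorem c10_387 : go p10 60 0xc86290c85391486429991486428c8642a430c8644516a432152391a32391a90c85c8642d172190a91c8d191c85490b91a2d1
    2791728742 214748365 843314857 281104953 4216574283 281104953 = 1 := by decide +kernel

theorem c10_80 : go p10 60 0x32291391486429990c85490990a72426452188b92132191168b91c8d490b92168c8642e485a90c90972190b45a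
    2308544923 53687092 1827182191 140552477 2670497045 140552477 = 1 := by decide +kernel

theorem c10_334 : go p10 60 0x32190b91990c32185a90c85c8642d190c84c86432145c86426432190a2d48642643215222e432132190a91168b
    3167538381 53687092 1475801001 70276239 2951601997 140552477 = 1 := by decide +kernel

theorem c10_375 : go p10 60 0xc86432146432428b90c86428c86432145a90c85486428c8642a432145c8642a432146432152190a2d1
    2952790015 53687092 70276239 70276239 3443535665 70276239 = 1 := by decide +kernel

theorem c10_280 : go p10 60 0x3242a426485484b90c85486429c8642ca91484c8a146550d721acd4e4323521321aa425c8e56a426b52386435a35a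
    2684354560 107374183 281104953 281104953 3092154473 281104953 = 1 := by decide +kernel

theorem c10_34 : go p10 60 0x32190c85290c86429392152292145490a91488a66432152190a521aaa72290c4643214a5521a8d4ca
    1073741824 214748365 (-562209903) 562209905 3654364379 281104953 = 1 := by decide +kernel

theorem c10_413 : go p10 60 0xc8629217242d191c8548642a48e428b90c85490c45a2e452391a3218a432190a72190b45a
    3221225472 214748365 (-1686629713) 562209905 5059889139 562209905 = 1 := by decide +kernel

theorem c10_383 : go p10 60 0x3242e485a90c85c8642d190c86425c86426485490a2d48643212e430c90a91168b
    2899102924 107374183 702762381 140552477 3654364379 281104953 = 1 := by decide +kernel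

theorem c10_247 : go p10 60 0xc8644643222e43223219116a432152190a32190990c84a7219099212a45222d1
    2952790015 53687092 (-70276237) 70276239 3443535665 70276239 = 1 := by decide +kernel

theorem c10_363 : go p10 60 0xd90a90c321853b14864299b1484c8642a425c8a42643215212d48e426472128b
    3167538381 53687092 1897458429 70276239 2951601997 140552477 = 1 := by decide +kernel

theorem c10_385 : go p10 60 0xc8642a472146485c90b52390a2e432352190a32190b90c85a90c90b45a
    2684354560 107374183 281104953 281104953 4216574283 281104953 = 1 := by decide +kernel

theorem c10_391 : go p10 60 0x3229217242d190c5219212e432328b90c8e468c86432172345a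
    3328599654 107374183 281104953 281104953 3654364379 281104953 = 1 := by decide +kernel

theorem c10_410 : go p10 60 0xc90a9119217242d486428b90c85488c8642e43216a472345a
    2684354560 107374183 (-1405524761) 281104953 4778784187 281104953 = 1 := by decide +kernel

theorem c10_65 : go p10 60 0xd8a44e485991c8d486428b91c8d488c8e56a445a
    1986422375 53687092 2108287143 140552477 2389392093 140552477 = 1 := by decide +kernel

theorem c10_426 : go p10 60 0xd90c8a432264ab2426432272190a9217242d3253
    3865470567 429496730 1124419810 1124419810 5622099044 1124419810 = 1 := by decide +kernel

theorem c10_32 : go p10 60 0xc86baa435566aae435572aaab35566a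
    1288490189 429496730 (-1124419808) 1124419810 2811049521 562209905 = 1 := by decide +kernel

theorem c10_56 : go p10 60 0xc861aea92135d46baaa
    2362232014 214748365 562209905 562209905 2529944569 281104953 = 1 := by decide +kernel

end Pool.Agent.MP_5cfbf6_gt.P8.KK
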