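import Pool.Agent.MP_5cfbf6_gt.P8.KP10

set_option autoImplicit false

namespace Pool.Agent.MP_5cfbf6_gt.P8.KK

theorem c10_283 : go p10 60 0xc8644643222e43223219116a452232291172292146485490a2d190d521a8d75390c88c864351721911ad48642a432146432135390c84d75a35a
    2952790015 53687092 140552477 140552477 3232706949 140552477 = 1 := by decide +kernel

theorem c10_30 : go p10 60 0x32190c85390c8626a432272352190b9212e432445a72390a90c9097242d346432190a32292172345c86432146432190a2d2
    3006477107 429496730 (-3373259426) 1124419810 6184308949 562209905 = 1 := by decide +kernel

theorem c10_236 : go p10 60 0x32291191488b91488c8a445a90c32190972290991484b46432132190972291190c8535218643212e432132290968b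
    2952790015 53687092 (-632486141) 70276239 3794916855 140552477 = 1 := by decide +kernel

theorem c10_181 : go p10 60 0x32426484a92132425292132425490992129391c86332390c6548a46645232948644645232a4523322919499
    1503238554 214748365 (-843314855) 281104953 6465413901 281104953 = 1 := by decide +kernel

theorem c10_359 : go p10 60 0xc8642a431c8642d190c8633642a43222cc8642e432152391a25c86431990ca9b90c85486445c86466435a651
    3328599654 107374183 2108287143 140552477 2389392093 140552477 = 1 := by decide +kernel

theorem c10_229 : go p10 60 0x32391a92146432172190b52190a2e472352188c90b95a90c8516a430c86172186430b46435c84d52184d753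
    2684354560 107374183 (-702762379) 140552477 3654364379 281104953 = 1 := by decide +kernel

theorem c10_314 : go p10 60 0xdb642d5b1428b90c85c8642cc8642e472129c8642a44643215242cb2adb2169d8e46ac7234643215229132d1
    2791728742 214748365 1967734667 281104953 3092154473 281104953 = 1 := by decide +kernel

theorem c10_196 : go p10 60 0x32190b90c89a90c8548642948642a432149990c89c8644d48642a43214a432152190a4ca
    1932735284 214748365 (-562209903) 562209905 6465413901 281104953 = 1 := by decide +kernel

theorem c10_356 : go p10 60 0xc8642e472346452190a32190c45c86431190c88b46452290b32190990b92132168b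
    3274912563 53687092 1756905953 70276239 2670497045 140552477 = 1 := by decide +kernel

theorem c10_311 : go p10 60 0xc8e46a472346472190b5229132e485c8642d48e468c8642e45232a452190a65a
    2684354560 107374183 1405524763 281104953 3092154473 281104953 = 1 := by decide +kernel

theorem c10_304 : go p10 60 0x32390a90c85190c85c8642d490b92168b90c85486428c8e42a485c90b45a
    3167538381 53687092 983867333 140552477 3232706949 140552477 = 1 := by decide +kernel

theorem c10_220 : go p10 60 0xc86290d4e45227218642d4aaba9992446435a35a91c8d486428cae426a72390a911ad1
    2899102924 107374183 (-1546077237) 140552477 4076021807 140552477 = 1 := by decide +kernel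

theorem c10_118 : go p10 60 0x32190a90c84b90c85a90c85485486290a6643217235218e468a
    1503238554 214748365 (-1686629713) 562209905 4778784187 281104953 = 1 := by decide +kernel

theorem c10_364 : go p10 60 0x36d90b56428b90c89c86428c8642a43214e452125ab2185c86190c2d1
    3113851290 107374183 1827182191 140552477 3232706949 140552477 = 1 := by decide +kernel

theorem c10_124 : go p10 60 0x32485190c8e431a2a43218e431a32190c723452
    912680551 53687092 (-702762379) 140552477 5411270329 70276239 = 1 := by decide +kernel

theorem c10_12 : go p10 60 0xc8a42e431a9148548626647235218e468a
    1073741824 214748365 (-2811049521) 562209905 5903203997 281104953 = 1 := by decide +kernel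

theorem c10_318 : go p10 60 0x32190d46b90d52a359aa550d75486ba89aea
    3113851290 107374183 1546077239 140552477 2389392093 140552477 = 1 := by decide +kernel

theorem c10_230 : go p10 60 0xd
    2899102924 107374183 (-983867331) 140552477 3513811903 140552477 = 1 := by decide +kernel

end Pool.Agent.MP_5cfbf6_gt.P8.KK
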