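import Pool.Agent.MP_5cfbf6_gt.P8.KP10

set_option autoImplicit false

namespace Pool.Agent.MP_5cfbf6_gt.P8.KK

theorem c10_289 : go p10 60 0x32186484b9213216a47242d191c84c8e42548642e432328b90c86172186450b52190b91c8ca32190b91190c35a92152190a25a
    2684354560 107374183 843314857 281104953 3092154473 281104953 = 1 := by decide +kernel

theorem c10_277 : go p10 60 0xc9099222e432425a91486468c8e46a432425c86488b45c8642a485c90b46485c8d490990c86428b92428c86484c91945a2d1
    3221225472 214748365 (-281104951) 281104953 4216574283 281104953 = 1 := by decide +kernel

theorem c10_111 : go p10 60 0x36d90c2a43215242cb5643212ac8a42532ad91c84a91c8d486428b90c85c88c8e46a432145ab2152290952190a91191484a653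
    1932735284 214748365 1686629715 562209905 3935469331 562209905 = 1 := by decide +kernel

theorem c10_210 : go p10 60 0x32290c85191c8d48e468b91486428c8e46a472345a90c85486428c8e46a432145c8642a432146472352190a2d1
    2362232014 214748365 843314857 281104953 4778784187 281104953 = 1 := by decide +kernel

theorem c10_224 : go p10 60 0xc8e432166430c86425990c8644e464c86190c2ca90c72290b32190990c84b322914723264321321653
    2952790015 53687092 (-1194696047) 70276239 4076021807 140552477 = 1 := by decide +kernel

theorem c10_395 : go p10 60 0x32190b9148642999148e448c90990c88b90c86445a2e432152290c85332190c46432445c86484b45a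
    3328599654 107374183 843314857 281104953 3654364379 281104953 = 1 := by decide +kernel

theorem c10_371 : go p10 60 0xc86430b90c8a16a432172190b46485484c8646a425c8642a42647235222d48642e432168b
    2684354560 107374183 140552477 140552477 3654364379 281104953 = 1 := by decide +kernel

theorem c10_245 : go p10 60 0x32190991484b91484c8a425a90c85c8642d191484c8a425c8a42645212d48642e432168b
    2845415833 53687092 (-70276237) 70276239 3513811903 140552477 = 1 := by decide +kernel

theorem c10_380 : go p10 60 0xc90a9214643242d48e485a2e43233242e485952190b90c9096a432172190c84b45a
    2952790015 53687092 421657429 140552477 3513811903 140552477 = 1 := by decide +kernel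

theorem c10_340 : go p10 60 0xc86291c8d190c84c86425c90990c84b4643148e468c8642643212e432132168b
    3274912563 53687092 1475801001 70276239 2951601997 140552477 = 1 := by decide +kernel

theorem c10_312 : go p10 60 0x32391190c32185a90c85c8642d190c85c8642d48e485a32190b90c86168b
    2899102924 107374183 1264972287 140552477 3092154473 281104953 = 1 := by decide +kernel

theorem c10_131 : go p10 60 0x32190a90c86425290c85486429390c8548643212948642a4321909499
    1503238554 214748365 (-281104951) 281104953 5340994091 281104953 = 1 := by decide +kernel

theorem c10_218 : go p10 60 0xc86190c2e430c8616a432172190b46450c86172186b52190b90d68b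
    2684354560 107374183 (-1546077237) 140552477 4216574283 281104953 = 1 := by decide +kernel

theorem c10_132 : go p10 60 0xc90990a90c4a43215224e43223242548642948642a4499
    1073741824 214748365 (-1967734665) 281104953 5903203997 281104953 = 1 := by decide +kernel

theorem c10_384 : go p10 60 0xc8646a432132291146432172190c2d48642e432168b
    2899102924 107374183 983867333 140552477 3654364379 281104953 = 1 := by decide +kernel

theorem c10_147 : go p10 60 0x32426484a90c85390c85486429a
    1020054733 53687092 (-983867331) 140552477 5762651521 140552477 = 1 := by decide +kernel

theorem c10_342 : go p10 60 0x32391290c85486429c86290c4d1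
    3382286745 53687092 1546077239 140552477 2951601997 140552477 = 1 := by decide +kernel

end Pool.Agent.MP_5cfbf6_gt.P8.KK
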