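import Pool.Agent.MP_5cfbf6_gt.P8.KP10

set_option autoImplicit false

namespace Pool.Agent.MP_5cfbf6_gt.P8.KK

theorem c10_140 : go p10 60 0xc90990a90c85290c85486429390c88c8644549099212948644643212a484c85266431486272290b52190a90c4a43215214ca
    1503238554 214748365 (-1686629713) 562209905 5903203997 281104953 = 1 := by decide +kernel

theorem c10_166 : go p10 60 0xc8642e43216a452272291346432172190a90c4cc8642e452265290c85c8642d48646a472348c8642e4522664321722913293
    1181116006 107374183 (-843314855) 281104953 5903203997 281104953 = 1 := by decide +kernel

theorem c10_348 : go p10 60 0xc8642a42643215212e43215213218e425a91c8cc86430b46432132190952190990c84a72190c84b90c32190968b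
    3167538381 53687092 1897458429 70276239 2670497045 140552477 = 1 := by decide +kernel

theorem c10_209 : go p10 60 0xc8a432146432152391a2e484c8d486426432129a90c85486428c8e42a432145c8642a432146432152190a2d1
    2362232014 214748365 281104953 281104953 4778784187 281104953 = 1 := by decide +kernel

theorem c10_393 : go p10 60 0x32190b90c85a90c85c8642d190c84c8a432145c86426452190a2d486426452428b90c84c90a90c85168b
    3113851290 107374183 702762381 140552477 3654364379 281104953 = 1 := by decide +kernel

theorem c10_253 : go p10 60 0x3242e43216a432146432185c86190c2d48e468b90c85c8642d48e468c8642e46643216a472345a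
    2845415833 53687092 (-983867331) 140552477 4076021807 140552477 = 1 := by decide +kernel

theorem c10_107 : go p10 60 0xc8642e43216a432172190b4643217218d48642e485a2e432172352190b90c68c8e46a472345a
    2469606196 107374183 843314857 281104953 3654364379 281104953 = 1 := by decide +kernel

theorem c10_83 : go p10 60 0xc8a44e45226645227229132a432152190a72190a90c85332190b9216a432172190b453
    2228014287 26843546 2038010905 70276239 2459668331 70276239 = 1 := by decide +kernel

theorem c10_222 : go p10 60 0xc8642e43216a472146432172190b52391a2e432172190b52190a32190b90d6a432145a
    2845415833 53687092 (-1264972285) 140552477 4076021807 140552477 = 1 := by decide +kernel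

theorem c10_164 : go p10 60 0x32446452191a2a48548642e432445a32191a92232432145c9214648644cb452
    912680551 53687092 (-702762379) 140552477 6114032711 70276239 = 1 := by decide +kernel

theorem c10_184 : go p10 60 0xc8642a43214e45226a432152190a7218a431346432172190b3242e4321652
    1932735284 214748365 (-1686629713) 562209905 5340994091 281104953 = 1 := by decide +kernel

theorem c10_200 : go p10 60 0xd90a90c3214ec85486429990c32190952186432129c8643212a43224ca
    1503238554 214748365 562209905 562209905 5340994091 281104953 = 1 := by decide +kernel

theorem c10_303 : go p10 60 0x32190a9119217242d486428b90c85486428c8642e43216a432145a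
    3060164199 53687092 983867333 140552477 3232706949 140552477 = 1 := by decide +kernel

theorem c10_101 : go p10 60 0x3218a42645212e45213219096a432132185c86190c2d1
    1932735284 214748365 281104953 281104953 3654364379 281104953 = 1 := by decide +kernel

theorem c10_26 : go p10 60 0x3243119242e428b92132425a91c8642e42a435d4cc909ad3
    2791728742 214748365 (-3092154473) 281104953 5059889139 562209905 = 1 := by decide +kernel

theorem c10_156 : go p10 60 0x32190a92232445c8642d19148e468a
    912680551 53687092 (-1054143569) 70276239 5973480235 70276239 = 1 := by decide +kernel

theorem c10_298 : go p10 60 0x321ae5721acd66a90d721acd521aea90d44d751aea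
    3221225472 214748365 843314857 281104953 2529944569 281104953 = 1 := by decide +kernel

theorem c10_315 : go p10 60 0xd
    3113851290 107374183 1264972287 140552477 2389392093 140552477 = 1 := by decide +kernel

end Pool.Agent.MP_5cfbf6_gt.P8.KK
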