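import Pool.Agent.MP_5cfbf6_gt.P8.KS
import Pool.Agent.MP_5cfbf6_gt.P8.K1000
import Pool.Agent.MP_5cfbf6_gt.P8.K1001
import Pool.Agent.MP_5cfbf6_gt.P8.K1002
import Pool.Agent.MP_5cfbf6_gt.P8.K1003
import Pool.Agent.MP_5cfbf6_gt.P8.K1004
import Pool.Agent.MP_5cfbf6_gt.P8.K1005
import Pool.Agent.MP_5cfbf6_gt.P8.K1006
import Pool.Agent.MP_5cfbf6_gt.P8.K1007
import Pool.Agent.MP_5cfbf6_gt.P8.K1008
import Pool.Agent.MP_5cfbf6_gt.P8.K1009
import Pool.Agent.MP_5cfbf6_gt.P8.K1010
import Pool.Agent.MP_5cfbf6_gt.P8.K1011
import Pool.Agent.MP_5cfbf6_gt.P8.K1012
import Pool.Agent.MP_5cfbf6_gt.P8.K1013
import Pool.Agent.MP_5cfbf6_gt.P8.K1014
import Pool.Agent.MP_5cfbf6_gt.P8.K1015
import Pool.Agent.MP_5cfbf6_gt.P8.K1016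
import Pool.Agent.MP_5cfbf6_gt.P8.K1017
import Pool.Agent.MP_5cfbf6_gt.P8.K1018
import Pool.Agent.MP_5cfbf6_gt.P8.K1019
import Pool.Agent.MP_5cfbf6_gt.P8.K1020
import Pool.Agent.MP_5cfbf6_gt.P8.K1021
import Pool.Agent.MP_5cfbf6_gt.P8.K1022
import Pool.Agent.MP_5cfbf6_gt.P8.K1023

set_option autoImplicit false

namespace Pool.Agent.MP_5cfbf6_gt.P8.KK

theorem ok10 {L : List Chk} {b s : ℝ} (H : Good p10 L b s) :
    Ok L b s 2576980378 1717986919 (-2248839617) 4497679237 4497679235 2248839619 :=
  (.s2 (-4497679235) 1 2248839619 (by decide)
   (.s1 1717986919 3435973837 858993460 (by decide)
    (.s3 3373259426 5622099044 1124419810 (by decide)
     (ok_go H c10_1)
     (.s2 (-5622099044) (-3373259426) 1124419810 (by decide)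
      (.s1 1288490189 2147483649 429496730 (by decide)
       (.s3 5059889139 6184308949 562209905 (by decide)
        (ok_go H c10_2)
        (.s2 (-6184308949) (-5059889139) 562209905 (by decide)
         (ok_go H c10_3)
         (.s1 1073741824 1503238554 214748365 (by decide)
          (.s3 5903203997 6465413901 281104953 (by decide)
           (ok_go H c10_4)
           (ok_go H c10_5))
          (ok_go H c10_6))))
       (ok_go H c10_7))
      (.s1 1288490189 2147483649 429496730 (by decide)
       (.s3 5059889139 6184308949 562209905 (by decide)
        (.s2 (-3935469331) (-2811049521) 562209905 (by decide)
         (ok_go H c10_8)
         (ok_go H c10_9))
        (.s2 (-3935469331) (-2811049521) 562209905 (by decide)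
         (.s1 1073741824 1503238554 214748365 (by decide)
          (ok_go H c10_10)
          (ok_go H c10_11))
         (.s1 1073741824 1503238554 214748365 (by decide)
          (.s3 5903203997 6465413901 281104953 (by decide)
           (ok_go H c10_12)
           (ok_go H c10_13))
          (ok_go H c10_14))))
       (.s3 5059889139 6184308949 562209905 (by decide)
        (.s2 (-3935469331) (-2811049521) 562209905 (by decide)
         (ok_go H c10_15)
         (.s1 1932735284 2362232014 214748365 (by decide)
          (ok_go H c10_16)
          (.s3 4778784187 5340994091 281104953 (by decide)
           (ok_go H c10_17)
           (ok_go H c10_18))))
        (.s2 (-3935469331) (-2811049521) 562209905 (by decide)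
         (.s1 1932735284 2362232014 214748365 (by decide)
          (ok_go H c10_19)
          (ok_go H c10_20))
         (.s1 1932735284 2362232014 214748365 (by decide)
          (ok_go H c10_21)
          (ok_go H c10_22)))))))
    (.s3 3373259426 5622099044 1124419810 (by decide)
     (ok_go H c10_23)
     (.s2 (-5622099044) (-3373259426) 1124419810 (by decide)
      (ok_go H c10_24)
      (.s1 3006477107 3865470567 429496730 (by decide)
       (.s3 5059889139 6184308949 562209905 (by decide)
        (.s2 (-3935469331) (-2811049521) 562209905 (by decide)
         (ok_go H c10_25)
         (.s1 2791728742 3221225472 214748365 (by decide)
          (.s2 (-3092154473) (-2529944569) 281104953 (by decide)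
           (ok_go H c10_26)
           (.s3 4778784187 5340994091 281104953 (by decide)
            (ok_go H c10_27)
            (ok_go H c10_28)))
          (ok_go H c10_29)))
        (ok_go H c10_30))
       (ok_go H c10_31)))))
   (.s1 1717986919 3435973837 858993460 (by decide)
    (.s3 3373259426 5622099044 1124419810 (by decide)
     (.s2 (-1124419808) 1124419810 1124419810 (by decide)
      (.s1 1288490189 2147483649 429496730 (by decide)
       (.s3 2811049521 3935469331 562209905 (by decide)
        (ok_go H c10_32)
        (.s2 (-1686629713) (-562209903) 562209905 (by decide)
         (ok_go H c10_33)
         (.s1 1073741824 1503238554 214748365 (by decide)
          (.s3 3654364379 4216574283 281104953 (by decide)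
           (ok_go H c10_34)
           (ok_go H c10_35))
          (.s3 3654364379 4216574283 281104953 (by decide)
           (ok_go H c10_36)
           (ok_go H c10_37)))))
       (.s3 2811049521 3935469331 562209905 (by decide)
        (ok_go H c10_38)
        (.s2 (-1686629713) (-562209903) 562209905 (by decide)
         (.s1 1932735284 2362232014 214748365 (by decide)
          (ok_go H c10_39)
          (ok_go H c10_40))
         (.s1 1932735284 2362232014 214748365 (by decide)
          (.s3 3654364379 4216574283 281104953 (by decide)
           (ok_go H c10_41)
           (ok_go H c10_42))
          (.s3 3654364379 4216574283 281104953 (by decide)
           (.s2 (-843314855) (-281104951) 281104953 (by decide)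
            (ok_go H c10_43)
            (ok_go H c10_44))
           (.s2 (-843314855) (-281104951) 281104953 (by decide)
            (ok_go H c10_45)
            (ok_go H c10_46)))))))
      (.s1 1288490189 2147483649 429496730 (by decide)
       (.s3 2811049521 3935469331 562209905 (by decide)
        (.s2 562209905 1686629715 562209905 (by decide)
         (ok_go H c10_47)
         (.s1 1073741824 1503238554 214748365 (by decide)
          (ok_go H c10_48)
          (.s3 2529944569 3092154473 281104953 (by decide)
           (ok_go H c10_49)
           (ok_go H c10_50))))
        (.s2 562209905 1686629715 562209905 (by decide)
         (.s1 1073741824 1503238554 214748365 (by decide)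
          (ok_go H c10_51)
          (ok_go H c10_52))
         (ok_go H c10_53)))
       (.s3 2811049521 3935469331 562209905 (by decide)
        (.s2 562209905 1686629715 562209905 (by decide)
         (.s1 1932735284 2362232014 214748365 (by decide)
          (.s3 2529944569 3092154473 281104953 (by decide)
           (ok_go H c10_54)
           (ok_go H c10_55))
          (.s3 2529944569 3092154473 281104953 (by decide)
           (ok_go H c10_56)
           (.s2 281104953 843314857 281104953 (by decide)
            (ok_go H c10_57)
            (.s1 2254857832 2469606196 107374183 (by decide)
             (ok_go H c10_58)
             (ok_go H c10_59)))))
         (.s1 1932735284 2362232014 214748365 (by decide)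
          (.s3 2529944569 3092154473 281104953 (by decide)
           (.s2 1405524763 1967734667 281104953 (by decide)
            (.s1 1825361102 2040109466 107374183 (by decide)
             (ok_go H c10_60)
             (ok_go H c10_61))
            (.s1 1825361102 2040109466 107374183 (by decide)
             (ok_go H c10_62)
             (.s2 1827182191 2108287143 140552477 (by decide)
              (.s3 2389392093 2670497045 140552477 (by decide)
               (ok_go H c10_63)
               (ok_go H c10_64))
              (.s3 2389392093 2670497045 140552477 (by decide)
               (.s1 1986422375 2093796557 53687092 (by decide)
                (ok_go H c10_65)
                (.s2 2038010905 2178563381 70276239 (by decide)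
                 (ok_go H c10_66)
                 (ok_go H c10_67)))
               (ok_go H c10_68)))))
           (.s2 1405524763 1967734667 281104953 (by decide)
            (.s1 1825361102 2040109466 107374183 (by decide)
             (ok_go H c10_69)
             (ok_go H c10_70))
            (ok_go H c10_71)))
          (.s3 2529944569 3092154473 281104953 (by decide)
           (.s2 1405524763 1967734667 281104953 (by decide)
            (.s1 2254857832 2469606196 107374183 (by decide)
             (.s2 1264972287 1546077239 140552477 (by decide)
              (ok_go H c10_72)
              (ok_go H c10_73))
             (ok_go H c10_74))
            (.s1 2254857832 2469606196 107374183 (by decide)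
             (.s2 1827182191 2108287143 140552477 (by decide)
              (.s3 2389392093 2670497045 140552477 (by decide)
               (.s1 2201170741 2308544923 53687092 (by decide)
                (.s2 1756905953 1897458429 70276239 (by decide)
                 (ok_go H c10_75)
                 (ok_go H c10_76))
                (ok_go H c10_77))
               (.s1 2201170741 2308544923 53687092 (by decide)
                (.s2 1756905953 1897458429 70276239 (by decide)
                 (ok_go H c10_78)
                 (ok_go H c10_79))
                (ok_go H c10_80)))
              (.s3 2389392093 2670497045 140552477 (by decide)
               (.s1 2201170741 2308544923 53687092 (by decide)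
                (.s2 2038010905 2178563381 70276239 (by decide)
                 (.s3 2319115855 2459668331 70276239 (by decide)
                  (ok_go H c10_81)
                  (.s1 2174327195 2228014287 26843546 (by decide)
                   (ok_go H c10_82)
                   (ok_go H c10_83)))
                 (.s3 2319115855 2459668331 70276239 (by decide)
                  (.s1 2174327195 2228014287 26843546 (by decide)
                   (ok_go H c10_84)
                   (ok_go H c10_85))
                  (ok_go H c10_86)))
                (.s2 2038010905 2178563381 70276239 (by decide)
                 (.s3 2319115855 2459668331 70276239 (by decide)
                  (ok_go H c10_87)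
                  (ok_go H c10_88))
                 (.s3 2319115855 2459668331 70276239 (by decide)
                  (ok_go H c10_89)
                  (ok_go H c10_90))))
               (.s1 2201170741 2308544923 53687092 (by decide)
                (ok_go H c10_91)
                (ok_go H c10_92))))
             (.s2 1827182191 2108287143 140552477 (by decide)
              (ok_go H c10_93)
              (.s3 2389392093 2670497045 140552477 (by decide)
               (ok_go H c10_94)
               (ok_go H c10_95)))))
           (.s2 1405524763 1967734667 281104953 (by decide)
            (.s1 2254857832 2469606196 107374183 (by decide)
             (.s2 1264972287 1546077239 140552477 (by decide)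
              (ok_go H c10_96)
              (ok_go H c10_97))
             (ok_go H c10_98))
            (.s1 2254857832 2469606196 107374183 (by decide)
             (ok_go H c10_99)
             (ok_go H c10_100))))))
        (.s2 562209905 1686629715 562209905 (by decide)
         (.s1 1932735284 2362232014 214748365 (by decide)
          (.s3 3654364379 4216574283 281104953 (by decide)
           (.s2 281104953 843314857 281104953 (by decide)
            (ok_go H c10_101)
            (ok_go H c10_102))
           (.s2 281104953 843314857 281104953 (by decide)
            (ok_go H c10_103)
            (ok_go H c10_104)))
          (.s3 3654364379 4216574283 281104953 (by decide)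
           (.s2 281104953 843314857 281104953 (by decide)
            (ok_go H c10_105)
            (.s1 2254857832 2469606196 107374183 (by decide)
             (ok_go H c10_106)
             (ok_go H c10_107)))
           (.s2 281104953 843314857 281104953 (by decide)
            (ok_go H c10_108)
            (.s1 2254857832 2469606196 107374183 (by decide)
             (ok_go H c10_109)
             (ok_go H c10_110)))))
         (.s1 1932735284 2362232014 214748365 (by decide)
          (ok_go H c10_111)
          (.s3 3654364379 4216574283 281104953 (by decide)
           (.s2 1405524763 1967734667 281104953 (by decide)
            (.s1 2254857832 2469606196 107374183 (by decide)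
             (ok_go H c10_112)
             (ok_go H c10_113))
            (ok_go H c10_114))
           (ok_go H c10_115)))))))
     (.s2 (-1124419808) 1124419810 1124419810 (by decide)
      (.s1 1288490189 2147483649 429496730 (by decide)
       (.s3 5059889139 6184308949 562209905 (by decide)
        (.s2 (-1686629713) (-562209903) 562209905 (by decide)
         (.s1 1073741824 1503238554 214748365 (by decide)
          (.s3 4778784187 5340994091 281104953 (by decide)
           (ok_go H c10_116)
           (ok_go H c10_117))
          (.s3 4778784187 5340994091 281104953 (by decide)
           (ok_go H c10_118)
           (ok_go H c10_119)))
         (.s1 1073741824 1503238554 214748365 (by decide)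
          (.s3 4778784187 5340994091 281104953 (by decide)
           (.s2 (-843314855) (-281104951) 281104953 (by decide)
            (ok_go H c10_120)
            (ok_go H c10_121))
           (.s2 (-843314855) (-281104951) 281104953 (by decide)
            (.s1 966367642 1181116006 107374183 (by decide)
             (.s3 5200441615 5481546567 140552477 (by decide)
              (ok_go H c10_122)
              (.s2 (-983867331) (-702762379) 140552477 (by decide)
               (ok_go H c10_123)
               (.s1 912680551 1020054733 53687092 (by decide)
                (.s3 5411270329 5551822805 70276239 (by decide)
                 (ok_go H c10_124)
                 (ok_go H c10_125))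
                (ok_go H c10_126))))
             (ok_go H c10_127))
            (ok_go H c10_128)))
          (.s3 4778784187 5340994091 281104953 (by decide)
           (ok_go H c10_129)
           (.s2 (-843314855) (-281104951) 281104953 (by decide)
            (ok_go H c10_130)
            (ok_go H c10_131)))))
        (.s2 (-1686629713) (-562209903) 562209905 (by decide)
         (.s1 1073741824 1503238554 214748365 (by decide)
          (.s3 5903203997 6465413901 281104953 (by decide)
           (.s2 (-1967734665) (-1405524761) 281104953 (by decide)
            (ok_go H c10_132)
            (.s1 966367642 1181116006 107374183 (by decide)
             (.s3 5762651521 6043756473 140552477 (by decide)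
              (ok_go H c10_133)
              (ok_go H c10_134))
             (ok_go H c10_135)))
           (.s2 (-1967734665) (-1405524761) 281104953 (by decide)
            (ok_go H c10_136)
            (.s1 966367642 1181116006 107374183 (by decide)
             (.s3 6324861425 6605966377 140552477 (by decide)
              (ok_go H c10_137)
              (ok_go H c10_138))
             (ok_go H c10_139))))
          (.s3 5903203997 6465413901 281104953 (by decide)
           (ok_go H c10_140)
           (.s2 (-1967734665) (-1405524761) 281104953 (by decide)
            (ok_go H c10_141)
            (ok_go H c10_142))))
         (.s1 1073741824 1503238554 214748365 (by decide)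
          (.s3 5903203997 6465413901 281104953 (by decide)
           (.s2 (-843314855) (-281104951) 281104953 (by decide)
            (.s1 966367642 1181116006 107374183 (by decide)
             (.s3 5762651521 6043756473 140552477 (by decide)
              (.s2 (-983867331) (-702762379) 140552477 (by decide)
               (.s1 912680551 1020054733 53687092 (by decide)
                (.s3 5692375283 5832927759 70276239 (by decide)
                 (ok_go H c10_143)
                 (.s2 (-1054143569) (-913591093) 70276239 (by decide)
                  (ok_go H c10_144)
                  (.s2 (-948729212) (-878452974) 35138120 (by decide)
                   (ok_go H c10_145)
                   (ok_go H c10_146))))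
                (ok_go H c10_147))
               (.s1 912680551 1020054733 53687092 (by decide)
                (.s3 5692375283 5832927759 70276239 (by decide)
                 (.s2 (-773038617) (-632486141) 70276239 (by decide)
                  (ok_go H c10_148)
                  (ok_go H c10_149))
                 (.s2 (-773038617) (-632486141) 70276239 (by decide)
                  (.s2 (-808176736) (-737900498) 35138120 (by decide)
                   (.s1 885837005 939524097 26843546 (by decide)
                    (.s2 (-825745796) (-790607676) 17569060 (by decide)
                     (ok_go H c10_150)
                     (ok_go H c10_151))
                    (ok_go H c10_152))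
                   (ok_go H c10_153))
                  (ok_go H c10_154)))
                (ok_go H c10_155)))
              (.s2 (-983867331) (-702762379) 140552477 (by decide)
               (.s1 912680551 1020054733 53687092 (by decide)
                (.s3 5973480235 6114032711 70276239 (by decide)
                 (.s2 (-1054143569) (-913591093) 70276239 (by decide)
                  (ok_go H c10_156)
                  (.s2 (-948729212) (-878452974) 35138120 (by decide)
                   (ok_go H c10_157)
                   (ok_go H c10_158)))
                 (ok_go H c10_159))
                (ok_go H c10_160))
               (.s1 912680551 1020054733 53687092 (by decide)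
                (.s3 5973480235 6114032711 70276239 (by decide)
                 (.s2 (-773038617) (-632486141) 70276239 (by decide)
                  (.s2 (-808176736) (-737900498) 35138120 (by decide)
                   (ok_go H c10_161)
                   (ok_go H c10_162))
                  (ok_go H c10_163))
                 (ok_go H c10_164))
                (ok_go H c10_165))))
             (ok_go H c10_166))
            (.s1 966367642 1181116006 107374183 (by decide)
             (ok_go H c10_167)
             (ok_go H c10_168)))
           (.s2 (-843314855) (-281104951) 281104953 (by decide)
            (.s1 966367642 1181116006 107374183 (by decide)
             (.s3 6324861425 6605966377 140552477 (by decide)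
              (.s2 (-983867331) (-702762379) 140552477 (by decide)
               (.s1 912680551 1020054733 53687092 (by decide)
                (ok_go H c10_169)
                (ok_go H c10_170))
               (ok_go H c10_171))
              (.s2 (-983867331) (-702762379) 140552477 (by decide)
               (ok_go H c10_172)
               (ok_go H c10_173)))
             (ok_go H c10_174))
            (.s1 966367642 1181116006 107374183 (by decide)
             (.s3 6324861425 6605966377 140552477 (by decide)
              (ok_go H c10_175)
              (.s2 (-421657427) (-140552475) 140552477 (by decide)
               (ok_go H c10_176)
               (ok_go H c10_177)))
             (ok_go H c10_178))))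
          (.s3 5903203997 6465413901 281104953 (by decide)
           (.s2 (-843314855) (-281104951) 281104953 (by decide)
            (ok_go H c10_179)
            (ok_go H c10_180))
           (.s2 (-843314855) (-281104951) 281104953 (by decide)
            (ok_go H c10_181)
            (ok_go H c10_182))))))
       (.s3 5059889139 6184308949 562209905 (by decide)
        (.s2 (-1686629713) (-562209903) 562209905 (by decide)
         (.s1 1932735284 2362232014 214748365 (by decide)
          (.s3 4778784187 5340994091 281104953 (by decide)
           (ok_go H c10_183)
           (ok_go H c10_184))
          (.s3 4778784187 5340994091 281104953 (by decide)
           (ok_go H c10_185)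
           (ok_go H c10_186)))
         (.s1 1932735284 2362232014 214748365 (by decide)
          (.s3 4778784187 5340994091 281104953 (by decide)
           (ok_go H c10_187)
           (ok_go H c10_188))
          (.s3 4778784187 5340994091 281104953 (by decide)
           (.s2 (-843314855) (-281104951) 281104953 (by decide)
            (ok_go H c10_189)
            (ok_go H c10_190))
           (ok_go H c10_191))))
        (.s2 (-1686629713) (-562209903) 562209905 (by decide)
         (.s1 1932735284 2362232014 214748365 (by decide)
          (.s3 5903203997 6465413901 281104953 (by decide)
           (ok_go H c10_192)
           (ok_go H c10_193))
          (ok_go H c10_194))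
         (.s1 1932735284 2362232014 214748365 (by decide)
          (.s3 5903203997 6465413901 281104953 (by decide)
           (ok_go H c10_195)
           (ok_go H c10_196))
          (ok_go H c10_197)))))
      (.s1 1288490189 2147483649 429496730 (by decide)
       (.s3 5059889139 6184308949 562209905 (by decide)
        (.s2 562209905 1686629715 562209905 (by decide)
         (.s1 1073741824 1503238554 214748365 (by decide)
          (ok_go H c10_198)
          (.s3 4778784187 5340994091 281104953 (by decide)
           (ok_go H c10_199)
           (ok_go H c10_200)))
         (ok_go H c10_201))
        (.s2 562209905 1686629715 562209905 (by decide)
         (.s1 1073741824 1503238554 214748365 (by decide)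
          (.s3 5903203997 6465413901 281104953 (by decide)
           (ok_go H c10_202)
           (ok_go H c10_203))
          (ok_go H c10_204))
         (ok_go H c10_205)))
       (.s3 5059889139 6184308949 562209905 (by decide)
        (.s2 562209905 1686629715 562209905 (by decide)
         (.s1 1932735284 2362232014 214748365 (by decide)
          (.s3 4778784187 5340994091 281104953 (by decide)
           (.s2 281104953 843314857 281104953 (by decide)
            (ok_go H c10_206)
            (ok_go H c10_207))
           (ok_go H c10_208))
          (.s3 4778784187 5340994091 281104953 (by decide)
           (.s2 281104953 843314857 281104953 (by decide)
            (ok_go H c10_209)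
            (ok_go H c10_210))
           (ok_go H c10_211)))
         (ok_go H c10_212))
        (ok_go H c10_213)))))
    (.s3 3373259426 5622099044 1124419810 (by decide)
     (.s2 (-1124419808) 1124419810 1124419810 (by decide)
      (.s1 3006477107 3865470567 429496730 (by decide)
       (.s3 2811049521 3935469331 562209905 (by decide)
        (ok_go H c10_214)
        (.s2 (-1686629713) (-562209903) 562209905 (by decide)
         (.s1 2791728742 3221225472 214748365 (by decide)
          (.s3 3654364379 4216574283 281104953 (by decide)
           (ok_go H c10_215)
           (.s2 (-1967734665) (-1405524761) 281104953 (by decide)
            (.s1 2684354560 2899102924 107374183 (by decide)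
             (ok_go H c10_216)
             (ok_go H c10_217))
            (.s1 2684354560 2899102924 107374183 (by decide)
             (.s2 (-1546077237) (-1264972285) 140552477 (by decide)
              (ok_go H c10_218)
              (ok_go H c10_219))
             (.s2 (-1546077237) (-1264972285) 140552477 (by decide)
              (.s3 4076021807 4357126759 140552477 (by decide)
               (ok_go H c10_220)
               (ok_go H c10_221))
              (.s3 4076021807 4357126759 140552477 (by decide)
               (.s1 2845415833 2952790015 53687092 (by decide)
                (ok_go H c10_222)
                (.s2 (-1335248523) (-1194696047) 70276239 (by decide)
                 (ok_go H c10_223)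
                 (ok_go H c10_224)))
               (.s1 2845415833 2952790015 53687092 (by decide)
                (ok_go H c10_225)
                (ok_go H c10_226)))))))
          (ok_go H c10_227))
         (.s1 2791728742 3221225472 214748365 (by decide)
          (.s3 3654364379 4216574283 281104953 (by decide)
           (.s2 (-843314855) (-281104951) 281104953 (by decide)
            (.s1 2684354560 2899102924 107374183 (by decide)
             (.s2 (-983867331) (-702762379) 140552477 (by decide)
              (ok_go H c10_228)
              (ok_go H c10_229))
             (.s2 (-983867331) (-702762379) 140552477 (by decide)
              (.s3 3513811903 3794916855 140552477 (by decide)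
               (ok_go H c10_230)
               (.s1 2845415833 2952790015 53687092 (by decide)
                (ok_go H c10_231)
                (ok_go H c10_232)))
              (.s3 3513811903 3794916855 140552477 (by decide)
               (ok_go H c10_233)
               (.s1 2845415833 2952790015 53687092 (by decide)
                (ok_go H c10_234)
                (.s2 (-773038617) (-632486141) 70276239 (by decide)
                 (ok_go H c10_235)
                 (ok_go H c10_236))))))
            (.s1 2684354560 2899102924 107374183 (by decide)
             (.s2 (-421657427) (-140552475) 140552477 (by decide)
              (ok_go H c10_237)
              (ok_go H c10_238))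
             (.s2 (-421657427) (-140552475) 140552477 (by decide)
              (.s3 3513811903 3794916855 140552477 (by decide)
               (.s1 2845415833 2952790015 53687092 (by decide)
                (ok_go H c10_239)
                (ok_go H c10_240))
               (.s1 2845415833 2952790015 53687092 (by decide)
                (ok_go H c10_241)
                (.s2 (-491933665) (-351381189) 70276239 (by decide)
                 (ok_go H c10_242)
                 (ok_go H c10_243))))
              (.s3 3513811903 3794916855 140552477 (by decide)
               (.s1 2845415833 2952790015 53687092 (by decide)
                (.s2 (-210828713) (-70276237) 70276239 (by decide)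
                 (ok_go H c10_244)
                 (ok_go H c10_245))
                (.s2 (-210828713) (-70276237) 70276239 (by decide)
                 (ok_go H c10_246)
                 (.s3 3443535665 3584088141 70276239 (by decide)
                  (ok_go H c10_247)
                  (ok_go H c10_248))))
               (.s1 2845415833 2952790015 53687092 (by decide)
                (ok_go H c10_249)
                (ok_go H c10_250))))))
           (.s2 (-843314855) (-281104951) 281104953 (by decide)
            (.s1 2684354560 2899102924 107374183 (by decide)
             (.s2 (-983867331) (-702762379) 140552477 (by decide)
              (ok_go H c10_251)
              (ok_go H c10_252))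
             (.s2 (-983867331) (-702762379) 140552477 (by decide)
              (.s3 4076021807 4357126759 140552477 (by decide)
               (.s1 2845415833 2952790015 53687092 (by decide)
                (ok_go H c10_253)
                (.s2 (-1054143569) (-913591093) 70276239 (by decide)
                 (.s3 4005745569 4146298045 70276239 (by decide)
                  (ok_go H c10_254)
                  (ok_go H c10_255))
                 (ok_go H c10_256)))
               (ok_go H c10_257))
              (.s3 4076021807 4357126759 140552477 (by decide)
               (.s1 2845415833 2952790015 53687092 (by decide)
                (ok_go H c10_258)
                (.s2 (-773038617) (-632486141) 70276239 (by decide)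
                 (ok_go H c10_259)
                 (ok_go H c10_260)))
               (ok_go H c10_261))))
            (.s1 2684354560 2899102924 107374183 (by decide)
             (ok_go H c10_262)
             (.s2 (-421657427) (-140552475) 140552477 (by decide)
              (ok_go H c10_263)
              (ok_go H c10_264)))))
          (.s2 (-843314855) (-281104951) 281104953 (by decide)
           (.s3 3654364379 4216574283 281104953 (by decide)
            (.s1 3113851290 3328599654 107374183 (by decide)
             (.s2 (-983867331) (-702762379) 140552477 (by decide)
              (ok_go H c10_265)
              (.s3 3513811903 3794916855 140552477 (by decide)
               (ok_go H c10_266)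
               (ok_go H c10_267)))
             (ok_go H c10_268))
            (.s1 3113851290 3328599654 107374183 (by decide)
             (.s2 (-983867331) (-702762379) 140552477 (by decide)
              (ok_go H c10_269)
              (ok_go H c10_270))
             (ok_go H c10_271)))
           (.s3 3654364379 4216574283 281104953 (by decide)
            (.s1 3113851290 3328599654 107374183 (by decide)
             (.s2 (-421657427) (-140552475) 140552477 (by decide)
              (.s3 3513811903 3794916855 140552477 (by decide)
               (ok_go H c10_272)
               (ok_go H c10_273))
              (.s3 3513811903 3794916855 140552477 (by decide)
               (ok_go H c10_274)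
               (ok_go H c10_275)))
             (ok_go H c10_276))
            (ok_go H c10_277))))))
       (ok_go H c10_278))
      (.s1 3006477107 3865470567 429496730 (by decide)
       (.s3 2811049521 3935469331 562209905 (by decide)
        (.s2 562209905 1686629715 562209905 (by decide)
         (.s1 2791728742 3221225472 214748365 (by decide)
          (.s3 2529944569 3092154473 281104953 (by decide)
           (ok_go H c10_279)
           (.s2 281104953 843314857 281104953 (by decide)
            (.s1 2684354560 2899102924 107374183 (by decide)
             (ok_go H c10_280)
             (.s2 140552477 421657429 140552477 (by decide)
              (.s3 2951601997 3232706949 140552477 (by decide)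
               (ok_go H c10_281)
               (.s1 2845415833 2952790015 53687092 (by decide)
                (ok_go H c10_282)
                (ok_go H c10_283)))
              (.s3 2951601997 3232706949 140552477 (by decide)
               (ok_go H c10_284)
               (.s1 2845415833 2952790015 53687092 (by decide)
                (.s2 351381191 491933667 70276239 (by decide)
                 (ok_go H c10_285)
                 (ok_go H c10_286))
                (.s2 351381191 491933667 70276239 (by decide)
                 (ok_go H c10_287)
                 (ok_go H c10_288))))))
            (.s1 2684354560 2899102924 107374183 (by decide)
             (ok_go H c10_289)
             (.s2 702762381 983867333 140552477 (by decide)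
              (.s3 2951601997 3232706949 140552477 (by decide)
               (ok_go H c10_290)
               (ok_go H c10_291))
              (.s3 2951601997 3232706949 140552477 (by decide)
               (ok_go H c10_292)
               (ok_go H c10_293))))))
          (.s2 281104953 843314857 281104953 (by decide)
           (.s3 2529944569 3092154473 281104953 (by decide)
            (ok_go H c10_294)
            (.s1 3113851290 3328599654 107374183 (by decide)
             (.s2 140552477 421657429 140552477 (by decide)
              (ok_go H c10_295)
              (ok_go H c10_296))
             (ok_go H c10_297)))
           (.s3 2529944569 3092154473 281104953 (by decide)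
            (ok_go H c10_298)
            (.s1 3113851290 3328599654 107374183 (by decide)
             (.s2 702762381 983867333 140552477 (by decide)
              (.s3 2951601997 3232706949 140552477 (by decide)
               (ok_go H c10_299)
               (ok_go H c10_300))
              (.s3 2951601997 3232706949 140552477 (by decide)
               (.s1 3060164199 3167538381 53687092 (by decide)
                (ok_go H c10_301)
                (ok_go H c10_302))
               (.s1 3060164199 3167538381 53687092 (by decide)
                (ok_go H c10_303)
                (ok_go H c10_304))))
             (.s2 702762381 983867333 140552477 (by decide)
              (ok_go H c10_305)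
              (.s1 3274912563 3382286745 53687092 (by decide)
               (ok_go H c10_306)
               (ok_go H c10_307)))))))
         (.s1 2791728742 3221225472 214748365 (by decide)
          (.s3 2529944569 3092154473 281104953 (by decide)
           (.s2 1405524763 1967734667 281104953 (by decide)
            (ok_go H c10_308)
            (.s1 2684354560 2899102924 107374183 (by decide)
             (ok_go H c10_309)
             (ok_go H c10_310)))
           (.s2 1405524763 1967734667 281104953 (by decide)
            (.s1 2684354560 2899102924 107374183 (by decide)
             (ok_go H c10_311)
             (.s2 1264972287 1546077239 140552477 (by decide)
              (ok_go H c10_312)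
              (ok_go H c10_313)))
            (ok_go H c10_314)))
          (.s2 1405524763 1967734667 281104953 (by decide)
           (.s3 2529944569 3092154473 281104953 (by decide)
            (.s1 3113851290 3328599654 107374183 (by decide)
             (.s2 1264972287 1546077239 140552477 (by decide)
              (.s3 2389392093 2670497045 140552477 (by decide)
               (ok_go H c10_315)
               (.s1 3060164199 3167538381 53687092 (by decide)
                (ok_go H c10_316)
                (ok_go H c10_317)))
              (.s3 2389392093 2670497045 140552477 (by decide)
               (ok_go H c10_318)
               (.s1 3060164199 3167538381 53687092 (by decide)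
                (ok_go H c10_319)
                (.s2 1475801001 1616353477 70276239 (by decide)
                 (.s3 2600220807 2740773283 70276239 (by decide)
                  (ok_go H c10_320)
                  (ok_go H c10_321))
                 (.s3 2600220807 2740773283 70276239 (by decide)
                  (ok_go H c10_322)
                  (ok_go H c10_323))))))
             (.s2 1264972287 1546077239 140552477 (by decide)
              (ok_go H c10_324)
              (.s3 2389392093 2670497045 140552477 (by decide)
               (ok_go H c10_325)
               (.s1 3274912563 3382286745 53687092 (by decide)
                (ok_go H c10_326)
                (ok_go H c10_327)))))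
            (.s1 3113851290 3328599654 107374183 (by decide)
             (.s2 1264972287 1546077239 140552477 (by decide)
              (.s3 2951601997 3232706949 140552477 (by decide)
               (.s1 3060164199 3167538381 53687092 (by decide)
                (ok_go H c10_328)
                (.s2 1194696049 1335248525 70276239 (by decide)
                 (ok_go H c10_329)
                 (ok_go H c10_330)))
               (.s1 3060164199 3167538381 53687092 (by decide)
                (ok_go H c10_331)
                (ok_go H c10_332)))
              (.s3 2951601997 3232706949 140552477 (by decide)
               (.s1 3060164199 3167538381 53687092 (by decide)
                (ok_go H c10_333)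
                (.s2 1475801001 1616353477 70276239 (by decide)
                 (ok_go H c10_334)
                 (ok_go H c10_335)))
               (ok_go H c10_336)))
             (.s2 1264972287 1546077239 140552477 (by decide)
              (.s1 3274912563 3382286745 53687092 (by decide)
               (.s3 2951601997 3232706949 140552477 (by decide)
                (ok_go H c10_337)
                (ok_go H c10_338))
               (ok_go H c10_339))
              (.s3 2951601997 3232706949 140552477 (by decide)
               (.s1 3274912563 3382286745 53687092 (by decide)
                (.s2 1475801001 1616353477 70276239 (by decide)
                 (ok_go H c10_340)
                 (ok_go H c10_341))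
                (ok_go H c10_342))
               (ok_go H c10_343)))))
           (.s3 2529944569 3092154473 281104953 (by decide)
            (.s1 3113851290 3328599654 107374183 (by decide)
             (.s2 1827182191 2108287143 140552477 (by decide)
              (.s3 2389392093 2670497045 140552477 (by decide)
               (.s1 3060164199 3167538381 53687092 (by decide)
                (ok_go H c10_344)
                (ok_go H c10_345))
               (.s1 3060164199 3167538381 53687092 (by decide)
                (ok_go H c10_346)
                (.s2 1756905953 1897458429 70276239 (by decide)
                 (ok_go H c10_347)
                 (ok_go H c10_348))))
              (.s3 2389392093 2670497045 140552477 (by decide)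
               (.s1 3060164199 3167538381 53687092 (by decide)
                (ok_go H c10_349)
                (.s2 2038010905 2178563381 70276239 (by decide)
                 (ok_go H c10_350)
                 (.s3 2319115855 2459668331 70276239 (by decide)
                  (ok_go H c10_351)
                  (ok_go H c10_352))))
               (.s1 3060164199 3167538381 53687092 (by decide)
                (ok_go H c10_353)
                (ok_go H c10_354))))
             (.s2 1827182191 2108287143 140552477 (by decide)
              (.s3 2389392093 2670497045 140552477 (by decide)
               (ok_go H c10_355)
               (.s1 3274912563 3382286745 53687092 (by decide)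
                (.s2 1756905953 1897458429 70276239 (by decide)
                 (ok_go H c10_356)
                 (ok_go H c10_357))
                (ok_go H c10_358)))
              (.s3 2389392093 2670497045 140552477 (by decide)
               (ok_go H c10_359)
               (ok_go H c10_360))))
            (.s1 3113851290 3328599654 107374183 (by decide)
             (.s2 1827182191 2108287143 140552477 (by decide)
              (.s3 2951601997 3232706949 140552477 (by decide)
               (.s1 3060164199 3167538381 53687092 (by decide)
                (ok_go H c10_361)
                (.s2 1756905953 1897458429 70276239 (by decide)
                 (ok_go H c10_362)
                 (ok_go H c10_363)))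
               (ok_go H c10_364))
              (ok_go H c10_365))
             (.s2 1827182191 2108287143 140552477 (by decide)
              (.s3 2951601997 3232706949 140552477 (by decide)
               (.s1 3274912563 3382286745 53687092 (by decide)
                (.s2 1756905953 1897458429 70276239 (by decide)
                 (ok_go H c10_366)
                 (ok_go H c10_367))
                (ok_go H c10_368))
               (ok_go H c10_369))
              (ok_go H c10_370)))))))
        (.s2 562209905 1686629715 562209905 (by decide)
         (.s1 2791728742 3221225472 214748365 (by decide)
          (.s3 3654364379 4216574283 281104953 (by decide)
           (.s2 281104953 843314857 281104953 (by decide)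
            (.s1 2684354560 2899102924 107374183 (by decide)
             (.s2 140552477 421657429 140552477 (by decide)
              (ok_go H c10_371)
              (ok_go H c10_372))
             (.s2 140552477 421657429 140552477 (by decide)
              (.s3 3513811903 3794916855 140552477 (by decide)
               (.s1 2845415833 2952790015 53687092 (by decide)
                (.s2 70276239 210828715 70276239 (by decide)
                 (ok_go H c10_373)
                 (ok_go H c10_374))
                (.s2 70276239 210828715 70276239 (by decide)
                 (.s3 3443535665 3584088141 70276239 (by decide)
                  (ok_go H c10_375)
                  (ok_go H c10_376))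
                 (ok_go H c10_377)))
               (ok_go H c10_378))
              (.s3 3513811903 3794916855 140552477 (by decide)
               (.s1 2845415833 2952790015 53687092 (by decide)
                (ok_go H c10_379)
                (ok_go H c10_380))
               (ok_go H c10_381))))
            (.s1 2684354560 2899102924 107374183 (by decide)
             (ok_go H c10_382)
             (.s2 702762381 983867333 140552477 (by decide)
              (ok_go H c10_383)
              (ok_go H c10_384))))
           (.s2 281104953 843314857 281104953 (by decide)
            (.s1 2684354560 2899102924 107374183 (by decide)
             (ok_go H c10_385)
             (ok_go H c10_386))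
            (ok_go H c10_387)))
          (.s2 281104953 843314857 281104953 (by decide)
           (.s3 3654364379 4216574283 281104953 (by decide)
            (.s1 3113851290 3328599654 107374183 (by decide)
             (.s2 140552477 421657429 140552477 (by decide)
              (.s3 3513811903 3794916855 140552477 (by decide)
               (ok_go H c10_388)
               (ok_go H c10_389))
              (ok_go H c10_390))
             (ok_go H c10_391))
            (ok_go H c10_392))
           (.s3 3654364379 4216574283 281104953 (by decide)
            (.s1 3113851290 3328599654 107374183 (by decide)
             (.s2 702762381 983867333 140552477 (by decide)
              (ok_go H c10_393)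
              (ok_go H c10_394))
             (ok_go H c10_395))
            (ok_go H c10_396))))
         (.s1 2791728742 3221225472 214748365 (by decide)
          (.s3 3654364379 4216574283 281104953 (by decide)
           (.s2 1405524763 1967734667 281104953 (by decide)
            (.s1 2684354560 2899102924 107374183 (by decide)
             (ok_go H c10_397)
             (ok_go H c10_398))
            (ok_go H c10_399))
           (ok_go H c10_400))
          (.s2 1405524763 1967734667 281104953 (by decide)
           (.s3 3654364379 4216574283 281104953 (by decide)
            (.s1 3113851290 3328599654 107374183 (by decide)
             (ok_go H c10_401)
             (ok_go H c10_402))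
            (ok_go H c10_403))
           (ok_go H c10_404)))))
       (.s3 2811049521 3935469331 562209905 (by decide)
        (.s2 562209905 1686629715 562209905 (by decide)
         (ok_go H c10_405)
         (ok_go H c10_406))
        (ok_go H c10_407))))
     (.s2 (-1124419808) 1124419810 1124419810 (by decide)
      (.s1 3006477107 3865470567 429496730 (by decide)
       (.s3 5059889139 6184308949 562209905 (by decide)
        (.s2 (-1686629713) (-562209903) 562209905 (by decide)
         (.s1 2791728742 3221225472 214748365 (by decide)
          (.s3 4778784187 5340994091 281104953 (by decide)
           (.s2 (-1967734665) (-1405524761) 281104953 (by decide)
            (.s1 2684354560 2899102924 107374183 (by decide)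
             (ok_go H c10_408)
             (ok_go H c10_409))
            (.s1 2684354560 2899102924 107374183 (by decide)
             (ok_go H c10_410)
             (ok_go H c10_411)))
           (ok_go H c10_412))
          (ok_go H c10_413))
         (.s1 2791728742 3221225472 214748365 (by decide)
          (.s3 4778784187 5340994091 281104953 (by decide)
           (.s2 (-843314855) (-281104951) 281104953 (by decide)
            (ok_go H c10_414)
            (ok_go H c10_415))
           (ok_go H c10_416))
          (ok_go H c10_417)))
        (.s2 (-1686629713) (-562209903) 562209905 (by decide)
         (ok_go H c10_418)
         (ok_go H c10_419)))
       (ok_go H c10_420))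
      (.s1 3006477107 3865470567 429496730 (by decide)
       (.s3 5059889139 6184308949 562209905 (by decide)
        (.s2 562209905 1686629715 562209905 (by decide)
         (.s1 2791728742 3221225472 214748365 (by decide)
          (.s3 4778784187 5340994091 281104953 (by decide)
           (ok_go H c10_421)
           (ok_go H c10_422))
          (ok_go H c10_423))
         (ok_go H c10_424))
        (ok_go H c10_425))
       (ok_go H c10_426))))))

end Pool.Agent.MP_5cfbf6_gt.P8.KK
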