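import Pool.Agent.MP_5cfbf6_gt.P8.D10
import Pool.Agent.MP_5cfbf6_gt.P8.KA10
import Pool.Agent.MP_5cfbf6_gt.P8.Comp10
import Pool.Agent.MP_5cfbf6_gt.P8.Enum10
import Pool.Agent.MP_5cfbf6_gt.P8.Conn
import Pool.Agent.MP_5cfbf6_gt.P8.Def2

set_option autoImplicit false

namespace Pool.Agent.MP_5cfbf6_gt.P8

open P7 Set Filter Topology Real

lemma val10 : ∀ C ∈ L10, C.Valid 0.83 0.9 :=
  ana_st _ _ _ (KK.ok10 ⟨by norm_num [KK.p10, abs_le], by norm_num [KK.p10, abs_le], gp10⟩).root cl10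

lemma deg10 {n : ℕ} {u : Fin n → E3} {Tr : Fin n → Fin n → Fin n → Prop} (hu : Unit1 u)
    (S : Sys u 1 Tr) (h25 : ∀ x ∈ poly u 1, dt x x ≤ 25) :
    n * ((35129.1 : ℝ) + 4 * 21662.1) - 21662.1 * (∑ i, dg Tr i : ℕ)
      + 419 * (∑ i, un (dg Tr i) : ℕ) ≤ 30000 * vol u 1 :=
  deg_Key 35129.1 21662.1 419 (by norm_num) (fun p q r => val10 _ (ad10 p q r))
    (by norm_num [A10, G10]) (by norm_num [A10, G10]) (by norm_num [A10, G10]) (by norm_num [A10, G10])
    hu S h25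

lemma t10_iff : ∀ i j k : Fin 10, i ≠ j → j ≠ k → i ≠ k →
    (tb 10 M10_0 i j k = true ↔ {i, j, k} ∈ gold10) := by
  decide +kernel

theorem best10 : ∃ Q : Set E3, HasType gold10 Q ∧ IsBest Q ∧
    ∀ R : Set E3, IsPolytope R → (twoFaces R).ncard ≤ 10 → isoQuot R ≤ isoQuot Q := by
  refine mainG_st ex_st cont_st redG_st lim_st 9 gold10 (179238 / 30000) (1 / 10000) (by norm_num)
    (by linarith [pi_gt_d2]) ?_ (fun u Tr hu S => ?_) fun u Tr hu S hv => ?_
  · obtain ⟨u, h1, h2, h3⟩ := comp10_st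
    exact ⟨u, h1, h2, by linarith⟩
  · by_contra hv
    have h1 := deg10 hu S (ball_Key hu S (by linarith))
    have h2 := euler_st _ u 1 Tr S
    have h3 : ((∑ i, dg Tr i : ℕ) : ℝ) ≤ 42 := by
      rw [Fintype.card_fin] at h2
      exact_mod_cast (by omega : ∑ i, dg Tr i ≤ 42)
    have h4 := Nat.cast_nonneg (α := ℝ) (∑ i, un (dg Tr i))
    push_cast at h1 h3 h4
    linarith
  · have h25 := ball_Key hu S (by linarith)
    have h1 := deg10 hu S h25
    have h2 := euler_st _ u 1 Tr S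
    rw [Fintype.card_fin] at h2
    have h4 := Nat.cast_nonneg (α := ℝ) (∑ i, un (dg Tr i))
    have h5 : ∑ i, dg Tr i = 48 := by
      by_contra h
      have : ((∑ i, dg Tr i : ℕ) : ℝ) ≤ 47 := by exact_mod_cast (by omega : ∑ i, dg Tr i ≤ 47)
      rw [Nat.cast_add, Nat.cast_ofNat, Nat.cast_one] at h1
      linarith
    have h6 : ∑ i, un (dg Tr i) ≤ 2 := by
      by_contra h
      have : (3 : ℝ) ≤ (∑ i, un (dg Tr i) : ℕ) := by exact_mod_cast (by omega : 3 ≤ _)
      rw [h5, Nat.cast_add, Nat.cast_ofNat, Nat.cast_one, Nat.cast_ofNat] at h1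
      linarith
    obtain ⟨σ, M, hM, hσ⟩ := enum10_st Tr (comb_of_sys S) (conn_st _ u 1 Tr S).1
      (conn_st _ u 1 Tr S).2 h5 h6
    have hv' : ¬ ((179238 : ℤ) : ℝ) ≤ 30000 * vol u 1 := by
      push_cast
      linarith
    simp only [List.mem_cons, List.not_mem_nil, or_false] at hM
    rcases hM with rfl | rfl | rfl | rfl | rfl
    · refine ⟨long_Key (W := 179238) (by norm_num) val10 ?_ cov10 hu S h25 hσ (not_le.1 hv'),
        type_st _ _ u 1 Tr σ S fun i j k a b c => (hσ i j k).trans (t10_iff i j k a b c)⟩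
      simp only [List.forall_mem_cons, List.not_mem_nil, false_imp_iff, implies_true, and_true]
      exact ⟨ok10_0, ok10_1, ok10_2⟩
    · exact absurd (none_Key (by norm_num) val10 ok10_3 rfl hu S h25 hσ) hv'
    · exact absurd (none_Key (by norm_num) val10 ok10_4 rfl hu S h25 hσ) hv'
    · exact absurd (none_Key (by norm_num) val10 ok10_5 rfl hu S h25 hσ) hv'
    · exact absurd (none_Key (by norm_num) val10 ok10_6 rfl hu S h25 hσ) hv'

end Pool.Agent.MP_5cfbf6_gt.P8
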