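import Pool.Agent.MP_5cfbf6_gt.P8.KD

set_option autoImplicit false

namespace Pool.Agent.MP_5cfbf6_gt.P8.K2

open P7.AA KK

/-- packed coefficients of one side, with the packed bonus for violated restrictions -/
structure QS where
  P : PS
  u : Int
  v : Int

structure Qar where
  b : Int
  s : Int
  o : Nat
  c : Int
  f : Int
  f' : Nat
  s1 : QS
  s2 : QS
  s3 : QS

def bon2 (u v c : Int) (r : Nat) : Int :=
  cond (decide (1821066134 ≤ Int.sub c (Int.ofNat r))) u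
    (cond (decide (Int.add c (Int.ofNat r) ≤ 1821066133)) v 0)

def bon (u v : Int) (y : AF) : Int := bon2 u v y.c (rad y)

structure TD where
  f : AF
  t : AF
  m : Nat
  g : Int

def td3 (P : QS) (f t y y2 yt : AF) : TD := ⟨f, ps4 P.P t y y2 yt, mg4 t y y2 yt, bon P.u P.v y⟩

def td2 (P : QS) (b : Int) (w sn y t : AF) : TD :=
  td3 P (mul (mul sn (inv (subc one y) 171798691)) (subc one (smul b 1 (relu (add y w))))) t y
    (mul y y) (mul y t)

def td1 (P : QS) (b : Int) (yh w oh a sn u : AF) : TD := td2 P b w sn (mul yh u) (s2 oh a sn u)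

def td0 (P : QS) (b : Int) (yh w oh a : AF) : TD :=
  td1 P b yh w oh a (asin (add a a)) (addc one (acos (add a a)))

def fv4 (P : Qar) (F : AF) (S1 S2 S3 : TD) : Bool :=
  Nat.ble (Nat.add (Nat.add (mag F) S1.m) (Nat.add S2.m S3.m)) 70368744177664 &&
    c0 P.o (Int.add (Int.add P.c S1.g) (Int.add S2.g S3.g))
      (add (add (pm P.f P.f' F) S1.t) (add S2.t S3.t))

def fv3 (P : Qar) (z : AF) (S1 S2 S3 : TD) : Bool := fv4 P (mul z (add (add S1.f S2.f) S3.f)) S1 S2 S3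

def fv2 (P : Qar) (z yh w oh a1 a3 : AF) : Bool :=
  fv3 P z (td0 P.s1 P.b yh w oh a1) (td0 P.s2 P.b yh w oh (third a1 a3)) (td0 P.s3 P.b yh w oh a3)

def fv1 (P : Qar) (c yh a1 a3 : AF) : Bool :=
  fv2 P (mul yh (inv c 858993459)) yh (sub (smul 6871947674 1 yh) (cst P.s 1))
    (smul 2147483648 0 (subc one c)) a1 a3

def fv (P : Qar) (c a1 a3 : AF) : Bool := fv1 P c (smul 2147483648 0 (subc one (mul c c))) a1 a3

/-- run the instructions of `t` (digits in base 8); the value is the unused code, `0` for failure -/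
def go (P : Qar) : Nat → Nat → Int → Nat → Int → Nat → Int → Nat → Nat
  | 0, _, _, _, _, _, _, _ => 0
  | f + 1, t, m1, r1, m2, r2, m3, r3 =>
    match Nat.land t 7 with
    | 1 => go P f (go P f (Nat.shiftRight t 3) (Int.sub m1 (Int.ofNat (hf r1))) (hf' r1) m2 r2 m3 r3)
        (Int.add m1 (Int.ofNat (hf r1))) (hf' r1) m2 r2 m3 r3
    | 2 => go P f (go P f (Nat.shiftRight t 3) m1 r1 (Int.sub m2 (Int.ofNat (hf r2))) (hf' r2) m3 r3)
        m1 r1 (Int.add m2 (Int.ofNat (hf r2))) (hf' r2) m3 r3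
    | 3 => go P f (go P f (Nat.shiftRight t 3) m1 r1 m2 r2 (Int.sub m3 (Int.ofNat (hf r3))) (hf' r3))
        m1 r1 m2 r2 (Int.add m3 (Int.ofNat (hf r3))) (hf' r3)
    | 4 => cond (fv P ⟨m1, Int.ofNat r1, 0, 0, 0⟩ ⟨m2, 0, Int.ofNat r2, 0, 0⟩
        ⟨m3, 0, 0, Int.ofNat r3, 0⟩) (Nat.shiftRight t 3) 0
    | 5 => cond (leafP m2 r2 m3 r3) (Nat.shiftRight t 3) 0
    | _ => 0

end Pool.Agent.MP_5cfbf6_gt.P8.K2
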