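import Pool.Agent.MP_5cfbf6_gt.P7.AAD

set_option autoImplicit false

namespace Pool.Agent.MP_5cfbf6_gt.P8.KK

open P7.AA

/-- packed coefficients of one side and their absolute values -/
structure PS where
  l : Int
  l' : Nat
  p : Int
  p' : Nat
  q : Int
  q' : Nat
  w : Int
  w' : Nat

structure Par where
  b : Int
  s : Int
  o : Nat
  c : Int
  f : Int
  f' : Nat
  s1 : PS
  s2 : PS
  s3 : PS

def pm (k : Int) (n : Nat) (A : AF) : AF :=
  ⟨Int.mul k A.c, Int.mul k A.a, Int.mul k A.b, Int.mul k A.d, Nat.mul n A.r⟩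

def mag (A : AF) : Nat := Nat.add A.c.natAbs (rad A)

def ps4 (P : PS) (t y y2 yt : AF) : AF :=
  add (add (pm P.l P.l' t) (pm P.p P.p' y)) (add (pm P.q P.q' y2) (pm P.w P.w' yt))

def mg4 (t y y2 yt : AF) : Nat := Nat.add (Nat.add (mag t) (mag y)) (Nat.add (mag y2) (mag yt))

structure SD where
  f : AF
  t : AF
  m : Nat

def sd3 (P : PS) (f t y y2 yt : AF) : SD := ⟨f, ps4 P t y y2 yt, mg4 t y y2 yt⟩

def sd2 (P : PS) (b : Int) (w sn y t : AF) : SD :=
  sd3 P (mul (mul sn (inv (subc one y) 171798691)) (subc one (smul b 1 (relu (add y w))))) t y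
    (mul y y) (mul y t)

def sd1 (P : PS) (b : Int) (yh w oh a sn u : AF) : SD := sd2 P b w sn (mul yh u) (s2 oh a sn u)

def sd0 (P : PS) (b : Int) (yh w oh a : AF) : SD :=
  sd1 P b yh w oh a (asin (add a a)) (addc one (acos (add a a)))

def c4 (o : Nat) (x : Int) : Bool := Nat.beq (Nat.land x.toNat o) o

def c3 (o : Nat) (d x : Int) : Bool := c4 o (Int.add x d) && c4 o (Int.sub x d)

def c2 (o : Nat) (b d x : Int) : Bool := c3 o d (Int.add x b) && c3 o d (Int.sub x b)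

def c1 (o : Nat) (a b d x : Int) : Bool := c2 o b d (Int.add x a) && c2 o b d (Int.sub x a)

def c0 (o : Nat) (c : Int) (T : AF) : Bool :=
  c1 o T.a T.b T.d (Int.sub (Int.add c T.c) (Int.ofNat T.r))

def ev4 (P : Par) (F : AF) (S1 S2 S3 : SD) : Bool :=
  Nat.ble (Nat.add (Nat.add (mag F) S1.m) (Nat.add S2.m S3.m)) 70368744177664 &&
    c0 P.o P.c (add (add (pm P.f P.f' F) S1.t) (add S2.t S3.t))

def ev3 (P : Par) (z : AF) (S1 S2 S3 : SD) : Bool := ev4 P (mul z (add (add S1.f S2.f) S3.f)) S1 S2 S3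

def ev2 (P : Par) (z yh w oh a1 a3 : AF) : Bool :=
  ev3 P z (sd0 P.s1 P.b yh w oh a1) (sd0 P.s2 P.b yh w oh (third a1 a3)) (sd0 P.s3 P.b yh w oh a3)

def ev1 (P : Par) (c yh a1 a3 : AF) : Bool :=
  ev2 P (mul yh (inv c 858993459)) yh (sub (smul 6871947674 1 yh) (cst P.s 1))
    (smul 2147483648 0 (subc one c)) a1 a3

def ev (P : Par) (c a1 a3 : AF) : Bool := ev1 P c (smul 2147483648 0 (subc one (mul c c))) a1 a3

def leafP (m2 : Int) (r2 : Nat) (m3 : Int) (r3 : Nat) : Bool :=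
  decide (6746518853 ≤ 2 * (m2 - r2) + (m3 - r3)) || decide (m2 + r2 + 2 * (m3 + r3) ≤ 6746518852)

/-- run the instructions of `t` (digits in base 8); the value is the unused code, `0` for failure -/
def go (P : Par) : Nat → Nat → Int → Nat → Int → Nat → Int → Nat → Nat
  | 0, _, _, _, _, _, _, _ => 0
  | f + 1, t, m1, r1, m2, r2, m3, r3 =>
    match Nat.land t 7 with
    | 1 => go P f (go P f (Nat.shiftRight t 3) (Int.sub m1 (Int.ofNat (hf r1))) (hf' r1) m2 r2 m3 r3)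
        (Int.add m1 (Int.ofNat (hf r1))) (hf' r1) m2 r2 m3 r3
    | 2 => go P f (go P f (Nat.shiftRight t 3) m1 r1 (Int.sub m2 (Int.ofNat (hf r2))) (hf' r2) m3 r3)
        m1 r1 (Int.add m2 (Int.ofNat (hf r2))) (hf' r2) m3 r3
    | 3 => go P f (go P f (Nat.shiftRight t 3) m1 r1 m2 r2 (Int.sub m3 (Int.ofNat (hf r3))) (hf' r3))
        m1 r1 m2 r2 (Int.add m3 (Int.ofNat (hf r3))) (hf' r3)
    | 4 => cond (ev P ⟨m1, Int.ofNat r1, 0, 0, 0⟩ ⟨m2, 0, Int.ofNat r2, 0, 0⟩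
        ⟨m3, 0, 0, Int.ofNat r3, 0⟩) (Nat.shiftRight t 3) 0
    | 5 => cond (leafP m2 r2 m3 r3) (Nat.shiftRight t 3) 0
    | _ => 0

end Pool.Agent.MP_5cfbf6_gt.P8.KK
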