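import Pool.Agent.MP_5cfbf6_gt.P7.AAE
import Pool.Agent.MP_5cfbf6_gt.P8.KD2
import Pool.Agent.MP_5cfbf6_gt.P8.KS
import Pool.Agent.MP_5cfbf6_gt.P8.Ana2

set_option autoImplicit false

namespace Pool.Agent.MP_5cfbf6_gt.P8.K2

open P7 P7.AA Real
open KK (PS pm mag ps4 mg4 c4 c3 c2 c1 c0 leafP enc_pm mag_pm mag_add)

def pk (f : Ck → ℤ) : List Ck → ℤ
  | [] => 0
  | C :: L => f C + 2 ^ 72 * pk f L

variable {L : List Ck}

lemma pk_add (f g : Ck → ℤ) : pk f L + pk g L = pk (fun C => f C + g C) L := by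
  induction L with
  | nil => rfl
  | cons C L ih => simp only [pk, ← ih]; ring

lemma pk_sub (f g : Ck → ℤ) : pk f L - pk g L = pk (fun C => f C - g C) L := by
  induction L with
  | nil => rfl
  | cons C L ih => simp only [pk, ← ih]; ring

lemma pk_mul (f : Ck → ℤ) (z : ℤ) : pk f L * z = pk (fun C => f C * z) L := by
  induction L with
  | nil => simp [pk]
  | cons C L ih => simp only [pk, ← ih]; ring

lemma pk_nonneg {f : Ck → ℤ} (h : ∀ C ∈ L, 0 ≤ f C) : 0 ≤ pk f L := by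
  induction L with
  | nil => exact le_rfl
  | cons C L ih =>
    have := h C (List.mem_cons_self ..)
    have := ih fun D hD => h D (List.mem_cons_of_mem _ hD)
    simp only [pk]
    positivity

lemma pk_ge {f : Ck → ℤ} (h : ∀ C ∈ L, 0 ≤ f C ∧ f C < 2 ^ 72) {o : ℕ}
    (ho : (o : ℤ) = pk (fun _ => 2 ^ 71) L) (H : c4 o (pk f L) = true) :
    ∀ C ∈ L, 2 ^ 71 ≤ f C := by
  induction L generalizing o with
  | nil => exact fun C hC => absurd hC List.not_mem_nil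
  | cons C L ih =>
    have h1 := h C (List.mem_cons_self ..)
    have h2 : ∀ D ∈ L, 0 ≤ f D ∧ f D < 2 ^ 72 := fun D hD => h D (List.mem_cons_of_mem _ hD)
    obtain ⟨a, ha⟩ := Int.eq_ofNat_of_zero_le h1.1
    obtain ⟨x, hx⟩ := Int.eq_ofNat_of_zero_le (pk_nonneg fun D hD => (h2 D hD).1)
    obtain ⟨y, hy⟩ := Int.eq_ofNat_of_zero_le
      (pk_nonneg (L := L) (f := fun _ => 2 ^ 71) fun _ _ => by norm_num)
    have e1 : o = 2 ^ 71 + 2 ^ 72 * y := by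
      simp only [pk, hy] at ho
      exact_mod_cast ho
    have e2 : (pk f (C :: L)).toNat = a + 2 ^ 72 * x := by
      simp only [pk, ha, hx]
      exact_mod_cast Int.toNat_natCast (a + 2 ^ 72 * x)
    have ha' : a < 2 ^ 72 := by
      have := h1.2
      rw [ha] at this
      exact_mod_cast this
    have H' : (a + 2 ^ 72 * x) &&& (2 ^ 71 + 2 ^ 72 * y) = 2 ^ 71 + 2 ^ 72 * y := by
      rw [c4, e2, e1] at H
      exact Nat.eq_of_beq_eq_true H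
    have m := congrArg (· % 2 ^ 72) H'
    have d := congrArg (· / 2 ^ 72) H'
    have p71 : (2 : ℕ) ^ 71 < 2 ^ 72 := by norm_num
    simp only [Nat.and_mod_two_pow, Nat.add_mul_mod_self_left, Nat.mod_eq_of_lt ha',
      Nat.mod_eq_of_lt p71] at m
    simp only [Nat.and_div_two_pow, Nat.add_mul_div_left _ _ (Nat.two_pow_pos 72),
      Nat.div_eq_of_lt ha', Nat.div_eq_of_lt p71, zero_add] at d
    intro D hD
    rcases List.mem_cons.1 hD with rfl | hD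
    · have : 2 ^ 71 ≤ a := m ▸ Nat.and_le_left
      rw [ha]
      exact_mod_cast this
    · refine ih h2 hy.symm ?_ D hD
      rw [c4, hx, Int.toNat_natCast]
      exact (congrArg (Nat.beq · y) d).trans (Nat.beq_refl y)

structure Pk (L : List Ck) (g : Ck → AF) (T : AF) : Prop where
  c : T.c = pk (fun C => (g C).c) L
  a : T.a = pk (fun C => (g C).a) L
  b : T.b = pk (fun C => (g C).b) L
  d : T.d = pk (fun C => (g C).d) L
  r : (T.r : ℤ) = pk (fun C => (g C).r) L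

lemma Pk.add {g g' : Ck → AF} {T T' : AF} (h : Pk L g T) (h' : Pk L g' T') :
    Pk L (fun C => add (g C) (g' C)) (add T T') := by
  refine ⟨?_, ?_, ?_, ?_, ?_⟩ <;>
    simp only [AA.add, Int.add_def, Nat.add_eq, Nat.cast_add, ← pk_add, h.c, h.a, h.b, h.d, h.r,
      h'.c, h'.a, h'.b, h'.d, h'.r]

lemma pk_pm {f : Ck → ℤ} {k : ℤ} {n : ℕ} (h : k = pk f L)
    (h' : (n : ℤ) = pk (fun C => (f C).natAbs) L) (A : AF) :
    Pk L (fun C => pm (f C) (f C).natAbs A) (pm k n A) := by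
  refine ⟨?_, ?_, ?_, ?_, ?_⟩ <;>
    simp only [pm, Int.mul_def, Nat.mul_eq, Nat.cast_mul, ← pk_mul, h, h']

variable {E : Eps}

lemma c0_ok {g : Ck → AF} {T : AF} (h : Pk L g T) {o : ℕ} {c : ℤ}
    (ho : (o : ℤ) = pk (fun _ => 2 ^ 71) L) {B : Ck → ℤ}
    (hc : c = pk (fun C => 2 ^ 71 - C.m * 2 ^ 32 + B C) L)
    (hm : ∀ C ∈ L, mag (g C) ≤ 2 ^ 66 ∧ C.m.natAbs ≤ 2 ^ 30 ∧ 0 ≤ B C ∧ B C ≤ 2 ^ 70)
    (H : c0 o c T = true) {C : Ck} (hC : C ∈ L) (h0 : B C = 0) {x : ℝ} (hx : Enc E x (g C)) :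
    (C.m : ℝ) ≤ x := by
  simp only [c0, c1, c2, c3, Bool.and_eq_true, Int.add_def, isub, Int.ofNat_eq_natCast, hc, h.c,
    h.a, h.b, h.d, h.r, pk_add, pk_sub] at H
  obtain ⟨⟨⟨H1, H2⟩, H3, H4⟩, ⟨H5, H6⟩, H7, H8⟩ := H
  simp only [mag, rad, Nat.add_eq] at hm
  have k1 := pk_ge (fun D hD => by have := hm D hD; omega) ho H1 C hC
  have k2 := pk_ge (fun D hD => by have := hm D hD; omega) ho H2 C hC
  have k3 := pk_ge (fun D hD => by have := hm D hD; omega) ho H3 C hC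
  have k4 := pk_ge (fun D hD => by have := hm D hD; omega) ho H4 C hC
  have k5 := pk_ge (fun D hD => by have := hm D hD; omega) ho H5 C hC
  have k6 := pk_ge (fun D hD => by have := hm D hD; omega) ho H6 C hC
  have k7 := pk_ge (fun D hD => by have := hm D hD; omega) ho H7 C hC
  have k8 := pk_ge (fun D hD => by have := hm D hD; omega) ho H8 C hC
  have := hx.ge (m := C.m * 4294967296) (by
    refine decide_eq_true ?_
    simp only [rad, Nat.add_eq, Int.add_def, Int.ofNat_eq_natCast]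
    omega)
  push_cast at this
  linarith

def bu (r : ℤ) : ℤ := if 0 < r then 2 ^ 68 else 0

def bv (r : ℤ) : ℤ := if r < 0 then 2 ^ 68 else 0

def Sb (S : Sd) : Prop :=
  (-S.l).natAbs ≤ 1048576 ∧ S.p.natAbs ≤ 1048576 ∧ S.q.natAbs ≤ 1048576 ∧ (-S.w).natAbs ≤ 1048576

instance (S : Sd) : Decidable (Sb S) := by
  unfold Sb; infer_instance

/-- the packed vectors of one side, for a packing function `k` -/
def GS (k : (Ck → ℤ) → ℤ) (P : QS) (g : Ck → Sd) (r : Ck → ℤ) : Prop :=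
  (P.P.l = k (fun C => -(g C).l) ∧ (P.P.l' : ℤ) = k (fun C => (-(g C).l).natAbs)) ∧
  (P.P.p = k (fun C => (g C).p) ∧ (P.P.p' : ℤ) = k (fun C => (g C).p.natAbs)) ∧
  (P.P.q = k (fun C => (g C).q) ∧ (P.P.q' : ℤ) = k (fun C => (g C).q.natAbs)) ∧
  (P.P.w = k (fun C => -(g C).w) ∧ (P.P.w' : ℤ) = k (fun C => (-(g C).w).natAbs)) ∧
  P.u = k (fun C => bu (r C)) ∧ P.v = k (fun C => bv (r C))

instance (k : (Ck → ℤ) → ℤ) (P : QS) (g : Ck → Sd) (r : Ck → ℤ) : Decidable (GS k P g r) := by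
  unfold GS; infer_instance

def G0 (k : (Ck → ℤ) → ℤ) (P : Qar) : Prop :=
  (P.o : ℤ) = k (fun _ => 2 ^ 71) ∧ P.c = k (fun C => 2 ^ 71 - C.m * 2 ^ 32) ∧
  P.f = k (fun _ => 10000) ∧ (P.f' : ℤ) = k (fun _ => (10000 : ℤ).natAbs)

instance (k : (Ck → ℤ) → ℤ) (P : Qar) : Decidable (G0 k P) := by
  unfold G0; infer_instance

def Bd (C : Ck) : Prop := C.m.natAbs ≤ 2 ^ 30 ∧ Sb C.s1 ∧ Sb C.s2 ∧ Sb C.s3

instance (C : Ck) : Decidable (Bd C) := by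
  unfold Bd; infer_instance

def GP (P : Qar) (L : List Ck) : Prop :=
  G0 (fun f => pk f L) P ∧ (∀ C ∈ L, Bd C) ∧ GS (fun f => pk f L) P.s1 Ck.s1 Ck.r1 ∧
    GS (fun f => pk f L) P.s2 Ck.s2 Ck.r2 ∧ GS (fun f => pk f L) P.s3 Ck.s3 Ck.r3

def pk6 (f : Ck → ℤ) : List Ck → ℤ
  | [] => 0
  | C :: R => f C + 2 ^ 72 * (f C.sw1 + 2 ^ 72 * (f C.sw2 + 2 ^ 72 * (f C.sw2.sw1 + 2 ^ 72 *
      (f C.sw1.sw2 + 2 ^ 72 * (f C.sw1.sw2.sw1 + 2 ^ 72 * pk6 f R)))))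

def pk2 (f : Ck → ℤ) : List (List Ck) → ℤ
  | [] => 0
  | R :: LL => pk6 f R + ((2 ^ (432 * R.length) : ℕ) : ℤ) * pk2 f LL

/-- all permutations of all inequalities -/
def fl (LL : List (List Ck)) : List Ck := LL.flatMap fun R => R.flatMap Ck.perms

lemma pk6_app (f : Ck → ℤ) (R M : List Ck) : pk f (R.flatMap Ck.perms ++ M) =
    pk6 f R + ((2 ^ (432 * R.length) : ℕ) : ℤ) * pk f M := by
  induction R with
  | nil => simp [pk6]
  | cons C R ih =>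
    simp only [List.flatMap_cons, Ck.perms, List.cons_append, List.nil_append, pk, ih, pk6,
      List.length_cons, Nat.mul_add, Nat.pow_add]
    have e : ((2 ^ (432 * 1) : ℕ) : ℤ) = (2 ^ 72) ^ 6 := by rw [← pow_mul, Nat.cast_pow]; rfl
    rw [Nat.cast_mul, e]
    generalize (2 : ℤ) ^ 72 = B
    ring

lemma pk2_eq (f : Ck → ℤ) (LL : List (List Ck)) : pk f (fl LL) = pk2 f LL := by
  induction LL with
  | nil => rfl
  | cons R LL ih =>
    rw [pk2, ← ih, fl, List.flatMap_cons, pk6_app]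
    rfl

lemma gp_of {P : Qar} {LL : List (List Ck)} (h0 : G0 (fun f => pk2 f LL) P)
    (hb : ∀ R ∈ LL, ∀ C ∈ R, Bd C) (h1 : GS (fun f => pk2 f LL) P.s1 Ck.s1 Ck.r1)
    (h2 : GS (fun f => pk2 f LL) P.s2 Ck.s2 Ck.r2) (h3 : GS (fun f => pk2 f LL) P.s3 Ck.s3 Ck.r3) :
    GP P (fl LL) := by
  have e : (fun f => pk f (fl LL)) = fun f => pk2 f LL := funext fun f => pk2_eq f LL
  rw [GP, e]
  refine ⟨h0, fun D hD => ?_, h1, h2, h3⟩
  obtain ⟨R, hR, hD⟩ := List.mem_flatMap.1 hD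
  obtain ⟨C, hC, hD⟩ := List.mem_flatMap.1 hD
  obtain ⟨a, b, c, d⟩ := hb R hR C hC
  simp only [Ck.perms, List.mem_cons, List.not_mem_nil, or_false] at hD
  rcases hD with rfl | rfl | rfl | rfl | rfl | rfl
  exacts [⟨a, b, c, d⟩, ⟨a, c, b, d⟩, ⟨a, b, d, c⟩, ⟨a, d, b, c⟩, ⟨a, c, d, b⟩, ⟨a, d, c, b⟩]

structure Good (P : Qar) (L : List Ck) (b s : ℝ) : Prop where
  b : |b * 4294967296 - P.b| ≤ (1 : ℕ)
  s : |s * 4294967296 - P.s| ≤ (1 : ℕ)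
  g : GP P L

lemma pk_zero : pk (fun _ => 0) L = 0 := by
  induction L with
  | nil => rfl
  | cons C L ih => simp [pk, ih]

lemma bon_ok {u v : ℤ} {r : Ck → ℤ} (hu : u = pk (fun C => bu (r C)) L)
    (hv : v = pk (fun C => bv (r C)) L) {y : ℝ} {Y : AF} (hy : Enc E y Y) :
    ∃ B : Ck → ℤ, bon u v Y = pk B L ∧
      ∀ C, 0 ≤ B C ∧ B C ≤ 2 ^ 68 ∧ (Rst (r C) y → B C = 0) := by
  have h := abs_le.1 hy.rad
  unfold bon bon2
  cases h1 : decide (1821066134 ≤ Int.sub Y.c (Int.ofNat (rad Y)))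
  · cases h2 : decide (Int.add Y.c (Int.ofNat (rad Y)) ≤ 1821066133)
    · exact ⟨fun _ => 0, pk_zero.symm, fun _ => ⟨le_rfl, by norm_num, fun _ => rfl⟩⟩
    · refine ⟨_, hv, fun C => ?_⟩
      have h3 : Y.c + (rad Y : ℤ) ≤ 1821066133 := of_decide_eq_true h2
      have h4 : (Y.c : ℝ) + (rad Y : ℕ) ≤ 1821066133 := by exact_mod_cast h3
      unfold bv
      split_ifs with a
      · exact ⟨by norm_num, le_rfl, fun p => absurd (p.2 a) (not_le.2 (by linarith [h.2]))⟩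
      · exact ⟨le_rfl, by norm_num, fun _ => rfl⟩
  · refine ⟨_, hu, fun C => ?_⟩
    have h3 : 1821066134 ≤ Y.c - (rad Y : ℤ) := of_decide_eq_true h1
    have h4 : (1821066134 : ℝ) ≤ Y.c - (rad Y : ℕ) := by exact_mod_cast h3
    unfold bu
    split_ifs with a
    · exact ⟨by norm_num, le_rfl, fun p => absurd (p.1 a) (not_le.2 (by linarith [h.1]))⟩
    · exact ⟨le_rfl, by norm_num, fun _ => rfl⟩

/-- what is known about the value computed for one side -/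
def SOk (E : Eps) (L : List Ck) (g : Ck → Sd) (r : Ck → ℤ) (f y t : ℝ) (S : TD) : Prop :=
  Enc E f S.f ∧ (∃ G : Ck → AF, Pk L G S.t ∧
    ∀ C ∈ L, mag (G C) ≤ 1048576 * S.m ∧ Enc E ((g C).val y t) (G C)) ∧
    ∃ B : Ck → ℤ, S.g = pk B L ∧ ∀ C, 0 ≤ B C ∧ B C ≤ 2 ^ 68 ∧ (Rst (r C) y → B C = 0)

lemma sd3_ok {P : QS} {g : Ck → Sd} {r : Ck → ℤ} (h : GS (fun f => pk f L) P g r)
    (hb : ∀ C ∈ L, Sb (g C)) {f y t : ℝ} {F Y T : AF} (hf : Enc E f F)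
    (hy : Enc E y Y) (ht : Enc E t T) : SOk E L g r f y t (td3 P F T Y (mul Y Y) (mul Y T)) := by
  obtain ⟨⟨l1, l2⟩, ⟨p1, p2⟩, ⟨q1, q2⟩, ⟨w1, w2⟩, hu, hv⟩ := h
  refine ⟨hf, ⟨_, ((pk_pm l1 l2 T).add (pk_pm p1 p2 Y)).add
    ((pk_pm q1 q2 (mul Y Y)).add (pk_pm w1 w2 (mul Y T))), fun C hC => ⟨?_, ?_⟩⟩, bon_ok hu hv hy⟩
  · obtain ⟨b1, b2, b3, b4⟩ := hb C hC
    have a1 := mag_pm b1 T
    have a2 := mag_pm b2 Y
    have a3 := mag_pm b3 (mul Y Y)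
    have a4 := mag_pm b4 (mul Y T)
    refine (mag_add _ _).trans ((add_le_add (mag_add _ _) (mag_add _ _)).trans ?_)
    simp only [td3, mg4, Nat.add_eq]
    omega
  · refine (((enc_pm ht _).add (enc_pm hy _)).add
      ((enc_pm (hy.mul hy) _).add (enc_pm (hy.mul ht) _))).cg ?_
    rw [Sd.val]
    push_cast
    ring

lemma sd0_ok {P : QS} {g : Ck → Sd} {r : Ck → ℤ} (h : GS (fun f => pk f L) P g r)
    (hB : ∀ C ∈ L, Sb (g C)) {c a b s : ℝ} {YH W OH A : AF} {k : ℤ}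
    (hc : 1 / 5 ≤ c) (hc1 : c ≤ 1) (hb : |b * 4294967296 - k| ≤ (1 : ℕ))
    (hyh : Enc E (1 / 2 * (1 - c * c)) YH) (hw : Enc E (8 / 5 * (1 / 2 * (1 - c * c)) - s) W)
    (hoh : Enc E (1 / 2 * (1 - c)) OH) (ha : Enc E a A) :
    SOk E L g r (sin (2 * a) * (1 - b * max 0 (yy c a + 4 / 5 * (1 - c ^ 2) - s)) / (1 - yy c a))
      (yy c a) (th c a) (td0 P k YH W OH A) := by
  have hs := (ha.add ha).sin
  have hu := (ha.add ha).cos.addc
  have u0 := neg_one_le_cos (a + a)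
  have u1 := cos_le_one (a + a)
  have c2 : 1 / 25 ≤ c * c := by nlinarith
  have c3 : c * c ≤ 1 := by nlinarith
  have i1 := (hyh.mul hu).subc.inv (L := 171798691) (by norm_num) (by
    push_cast
    nlinarith [mul_nonneg (sub_nonneg.2 c3) (sub_nonneg.2 u1)])
  have i2 := (hoh.mul hu).subc.inv (L := 858993459) (by norm_num) (by
    push_cast
    nlinarith [mul_nonneg (sub_nonneg.2 hc1) (sub_nonneg.2 u1)])
  have h1 := (hs.mul i1).mul (((hyh.mul hu).add hw).relu.smul hb).subc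
  have h2 := ha.add ((hoh.mul hs).mul i2).atn
  have e1 : yy c a = 1 / 2 * (1 - c * c) * (1 + cos (a + a)) := by
    rw [yy, two_mul]; ring
  refine sd3_ok h hB (h1.cg ?_) ((hyh.mul hu).cg e1) (h2.cg ?_)
  · have e2 : yy c a + 4 / 5 * (1 - c ^ 2) - s =
        1 / 2 * (1 - c * c) * (1 + cos (a + a)) + (8 / 5 * (1 / 2 * (1 - c * c)) - s) := by
      rw [e1]; ring
    rw [e2, e1, two_mul a]
    ring
  · have e3 : (1 - c) / 2 = 1 / 2 * (1 - c) := by ring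
    rw [th, two_mul a, e3, div_eq_mul_inv (1 / 2 * (1 - c) * sin (a + a))]

variable {P : Qar} {b s : ℝ}

lemma ev_ok (H : Good P L b s) {c a1 a3 : ℝ} {C0 A1 A3 : AF} (hc : 1 / 5 ≤ c) (hc1 : c ≤ 1)
    (hC : Enc E c C0) (h1 : Enc E a1 A1) (h3 : Enc E a3 A3) (h : fv P C0 A1 A3 = true) {C : Ck}
    (hL : C ∈ L) (r1 : Rst C.r1 (yy c a1)) (r2 : Rst C.r2 (yy c (π / 2 - a1 - a3)))
    (r3 : Rst C.r3 (yy c a3)) :
    (C.m : ℝ) ≤ sdp b s C.s1 c a1 + sdp b s C.s2 c (π / 2 - a1 - a3) + sdp b s C.s3 c a3 := by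
  obtain ⟨⟨go, gc, gf, gf'⟩, gm, g1, g2, g3⟩ := H.g
  have hyh := (hC.mul hC).subc.smul (l := 1 / 2) (k := 2147483648) (e := 0) (by norm_num)
  have hoh := hC.subc.smul (l := 1 / 2) (k := 2147483648) (e := 0) (by norm_num)
  have hz := hyh.mul (hC.inv (L := 858993459) (by norm_num) (by push_cast; linarith))
  have hw := (hyh.smul (l := 8 / 5) (k := 6871947674) (e := 1) (by norm_num [abs_le])).sub
    (enc_cst H.s)
  obtain ⟨f1, ⟨G1, p1, q1⟩, B1, u1, v1⟩ := sd0_ok g1 (fun D hD => (gm D hD).2.1) hc hc1 H.b hyh hw hoh h1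
  obtain ⟨f2, ⟨G2, p2, q2⟩, B2, u2, v2⟩ := sd0_ok g2 (fun D hD => (gm D hD).2.2.1) hc hc1 H.b hyh
    hw hoh (enc_third h1 h3)
  obtain ⟨f3, ⟨G3, p3, q3⟩, B3, u3, v3⟩ := sd0_ok g3 (fun D hD => (gm D hD).2.2.2) hc hc1 H.b hyh
    hw hoh h3
  have hF := hz.mul ((f1.add f2).add f3)
  simp only [fv, fv1, fv2, fv3, fv4, Bool.and_eq_true] at h
  have hm := Nat.le_of_ble_eq_true h.1
  refine (c0_ok (((pk_pm gf gf' _).add p1).add (p2.add p3)) go (B := fun D => B1 D + B2 D + B3 D)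
    ?_ (fun D hD => ⟨?_, (gm D hD).1, ?_⟩) h.2 hL
    (by rw [(v1 C).2.2 r1, (v2 C).2.2 r2, (v3 C).2.2 r3]; rfl)
    (((enc_pm hF 10000).add (q1 C hL).2).add ((q2 C hL).2.add (q3 C hL).2))).trans_eq ?_
  · rw [u1, u2, u3, gc]
    simp only [Int.add_def, pk_add]
    congr 1
    funext D
    ring
  · refine (mag_add _ _).trans ((add_le_add ((mag_add _ _).trans (add_le_add
      (mag_pm (k := 10000) (by norm_num) _) (q1 D hD).1)) ((mag_add _ _).trans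
      (add_le_add (q2 D hD).1 (q3 D hD).1))).trans ?_)
    simp only [Nat.add_eq] at hm
    omega
  · have := v1 D
    have := v2 D
    have := v3 D
    omega
  · simp only [sdp, f0]
    push_cast
    ring

def Ok (L : List Ck) (b s : ℝ) (m1 : ℤ) (r1 : ℕ) (m2 : ℤ) (r2 : ℕ) (m3 : ℤ) (r3 : ℕ) : Prop :=
  ∀ c a1 a3 : ℝ, 1 / 5 ≤ c → c ≤ 1 → 2 * a1 + a3 ≤ π / 2 → π / 2 ≤ a1 + 2 * a3 →
    |c * 4294967296 - m1| ≤ r1 → |a1 * 4294967296 - m2| ≤ r2 → |a3 * 4294967296 - m3| ≤ r3 →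
    ∀ C ∈ L, Rst C.r1 (yy c a1) → Rst C.r2 (yy c (π / 2 - a1 - a3)) → Rst C.r3 (yy c a3) →
      (C.m : ℝ) ≤ sdp b s C.s1 c a1 + sdp b s C.s2 c (π / 2 - a1 - a3) + sdp b s C.s3 c a3

variable {m1 m2 m3 : ℤ} {r1 r2 r3 : ℕ}

lemma Ok.s1 (ml mr : ℤ) (r : ℕ) (h : spl m1 r1 ml mr r) (h1 : Ok L b s ml r m2 r2 m3 r3)
    (h2 : Ok L b s mr r m2 r2 m3 r3) : Ok L b s m1 r1 m2 r2 m3 r3 :=
  fun c a1 a2 p1 p2 p3 p4 b1 b2 b3 => (h.cases b1).elim
    (fun b => h1 c a1 a2 p1 p2 p3 p4 b b2 b3) (fun b => h2 c a1 a2 p1 p2 p3 p4 b b2 b3)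

lemma Ok.s2 (ml mr : ℤ) (r : ℕ) (h : spl m2 r2 ml mr r) (h1 : Ok L b s m1 r1 ml r m3 r3)
    (h2 : Ok L b s m1 r1 mr r m3 r3) : Ok L b s m1 r1 m2 r2 m3 r3 :=
  fun c a1 a2 p1 p2 p3 p4 b1 b2 b3 => (h.cases b2).elim
    (fun b => h1 c a1 a2 p1 p2 p3 p4 b1 b b3) (fun b => h2 c a1 a2 p1 p2 p3 p4 b1 b b3)

lemma Ok.s3 (ml mr : ℤ) (r : ℕ) (h : spl m3 r3 ml mr r) (h1 : Ok L b s m1 r1 m2 r2 ml r)
    (h2 : Ok L b s m1 r1 m2 r2 mr r) : Ok L b s m1 r1 m2 r2 m3 r3 :=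
  fun c a1 a2 p1 p2 p3 p4 b1 b2 b3 => (h.cases b3).elim
    (fun b => h1 c a1 a2 p1 p2 p3 p4 b1 b2 b) (fun b => h2 c a1 a2 p1 p2 p3 p4 b1 b2 b)

lemma ok_P (H : KK.leafP m2 r2 m3 r3 = true) : Ok L b s m1 r1 m2 r2 m3 r3 :=
  fun c a1 a3 _ _ p3 p4 _ b2 b3 => by
    exfalso
    have hp := pi_lt_d20
    have hq := pi_gt_d20
    norm_num at hp hq
    rw [abs_le] at b2 b3
    simp only [KK.leafP, Bool.or_eq_true, decide_eq_true_eq] at H
    rcases H with H | H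
    · have H : (6746518853 : ℝ) ≤ 2 * (m2 - r2) + (m3 - r3) := by exact_mod_cast H
      linarith [b2.1, b3.1]
    · have H : (m2 : ℝ) + r2 + 2 * (m3 + r3) ≤ 6746518852 := by exact_mod_cast H
      linarith [b2.2, b3.2]

lemma go_ne {f t : ℕ} (h : go P f t m1 r1 m2 r2 m3 r3 ≠ 0) : t ≠ 0 := by
  rintro rfl
  exact h (by cases f <;> rfl)

theorem go_ok (H : Good P L b s) (f : ℕ) :
    ∀ (t : ℕ) (m1 : ℤ) (r1 : ℕ) (m2 : ℤ) (r2 : ℕ) (m3 : ℤ) (r3 : ℕ),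
    go P f t m1 r1 m2 r2 m3 r3 ≠ 0 → Ok L b s m1 r1 m2 r2 m3 r3 := by
  induction f with
  | zero => exact fun t m1 r1 m2 r2 m3 r3 h => absurd rfl h
  | succ f ih =>
    intro t m1 r1 m2 r2 m3 r3 h
    rw [go] at h
    split at h
    · exact Ok.s1 _ _ _ (spl_hf m1 r1) (ih _ _ _ _ _ _ _ (go_ne h)) (ih _ _ _ _ _ _ _ h)
    · exact Ok.s2 _ _ _ (spl_hf m2 r2) (ih _ _ _ _ _ _ _ (go_ne h)) (ih _ _ _ _ _ _ _ h)
    · exact Ok.s3 _ _ _ (spl_hf m3 r3) (ih _ _ _ _ _ _ _ (go_ne h)) (ih _ _ _ _ _ _ _ h)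
    · intro c a1 a3 p1 p2 _ _ b1 b2 b3 C hC
      obtain ⟨E, e1, e2, e3⟩ := box_enc b1 b2 b3
      exact ev_ok H p1 p2 e1 e2 e3 (cond_ne h) hC
    · exact ok_P (cond_ne h)
    · exact absurd rfl h

lemma ok_go (H : Good P L b s) {t : ℕ} (h : go P 60 t m1 r1 m2 r2 m3 r3 = 1) :
    Ok L b s m1 r1 m2 r2 m3 r3 :=
  go_ok H 60 t _ _ _ _ _ _ (by rw [h]; exact one_ne_zero)

/-- the whole domain lies in the first box -/
lemma Ok.root
    (h : Ok L b s 2576980378 1717986919 (-2248839617) 4497679237 4497679235 2248839619) :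
    BB2 b s L := by
  intro c a1 a2 ⟨c1, c2, d1, _, d3⟩ h1 h2 C hC
  have hp := pi_lt_d20
  have hq := pi_gt_d20
  norm_num at hp hq
  rw [abs_lt] at d1 d3
  have := h c a1 (π / 2 - a1 - a2) c1 c2 (by linarith) (by linarith) ?_ ?_ ?_ C hC
  · rwa [show π / 2 - a1 - (π / 2 - a1 - a2) = a2 by ring] at this
  all_goals
    rw [abs_le]
    push_cast
    constructor <;> linarith [d1.1, d3.2]

end Pool.Agent.MP_5cfbf6_gt.P8.K2
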