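import Pool.Agent.MP_5cfbf6_gt.P8.R11
import Pool.Agent.MP_5cfbf6_gt.P8.KS2
import Pool.Agent.MP_5cfbf6_gt.P8.KP11a

set_option autoImplicit false

namespace Pool.Agent.MP_5cfbf6_gt.P8

open K2

lemma g0_11a : G0 (fun f => pk2 f LL11a) p11a := by decide +kernel

lemma gb_11a : ∀ R ∈ LL11a, ∀ C ∈ R, Bd C := by decide +kernel

lemma g1_11a : GS (fun f => pk2 f LL11a) p11a.s1 Ck.s1 Ck.r1 := by decide +kernel

lemma g2_11a : GS (fun f => pk2 f LL11a) p11a.s2 Ck.s2 Ck.r2 := by decide +kernel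

lemma g3_11a : GS (fun f => pk2 f LL11a) p11a.s3 Ck.s3 Ck.r3 := by decide +kernel

lemma gp11a : GP p11a (fl LL11a) := gp_of g0_11a gb_11a g1_11a g2_11a g3_11a

end Pool.Agent.MP_5cfbf6_gt.P8
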