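import Pool.Agent.MP_5cfbf6_gt.P8.R11
import Pool.Agent.MP_5cfbf6_gt.P8.KS2
import Pool.Agent.MP_5cfbf6_gt.P8.KP11b

set_option autoImplicit false

namespace Pool.Agent.MP_5cfbf6_gt.P8

open K2

lemma g0_11b : G0 (fun f => pk2 f LL11b) p11b := by decide +kernel

lemma gb_11b : ∀ R ∈ LL11b, ∀ C ∈ R, Bd C := by decide +kernel

lemma g1_11b : GS (fun f => pk2 f LL11b) p11b.s1 Ck.s1 Ck.r1 := by decide +kernel

lemma g2_11b : GS (fun f => pk2 f LL11b) p11b.s2 Ck.s2 Ck.r2 := by decide +kernel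

lemma g3_11b : GS (fun f => pk2 f LL11b) p11b.s3 Ck.s3 Ck.r3 := by decide +kernel

lemma gp11b : GP p11b (fl LL11b) := gp_of g0_11b gb_11b g1_11b g2_11b g3_11b

end Pool.Agent.MP_5cfbf6_gt.P8
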