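import Pool.Agent.MP_5cfbf6_gt.P8.KS2
import Pool.Agent.MP_5cfbf6_gt.P8.K11a00
import Pool.Agent.MP_5cfbf6_gt.P8.K11a01
import Pool.Agent.MP_5cfbf6_gt.P8.K11a02
import Pool.Agent.MP_5cfbf6_gt.P8.K11a03
import Pool.Agent.MP_5cfbf6_gt.P8.K11a04
import Pool.Agent.MP_5cfbf6_gt.P8.K11a05
import Pool.Agent.MP_5cfbf6_gt.P8.K11a06
import Pool.Agent.MP_5cfbf6_gt.P8.K11a07
import Pool.Agent.MP_5cfbf6_gt.P8.K11a08
import Pool.Agent.MP_5cfbf6_gt.P8.K11a09
import Pool.Agent.MP_5cfbf6_gt.P8.K11a10
import Pool.Agent.MP_5cfbf6_gt.P8.K11a11
import Pool.Agent.MP_5cfbf6_gt.P8.K11a12
import Pool.Agent.MP_5cfbf6_gt.P8.K11a13
import Pool.Agent.MP_5cfbf6_gt.P8.K11a14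
import Pool.Agent.MP_5cfbf6_gt.P8.K11a15
import Pool.Agent.MP_5cfbf6_gt.P8.K11a16
import Pool.Agent.MP_5cfbf6_gt.P8.K11a17
import Pool.Agent.MP_5cfbf6_gt.P8.K11a18
import Pool.Agent.MP_5cfbf6_gt.P8.K11a19
import Pool.Agent.MP_5cfbf6_gt.P8.K11a20
import Pool.Agent.MP_5cfbf6_gt.P8.K11a21
import Pool.Agent.MP_5cfbf6_gt.P8.K11a22
import Pool.Agent.MP_5cfbf6_gt.P8.K11a23
import Pool.Agent.MP_5cfbf6_gt.P8.K11a24
import Pool.Agent.MP_5cfbf6_gt.P8.K11a25
import Pool.Agent.MP_5cfbf6_gt.P8.K11a26
import Pool.Agent.MP_5cfbf6_gt.P8.K11a27
import Pool.Agent.MP_5cfbf6_gt.P8.K11a28
import Pool.Agent.MP_5cfbf6_gt.P8.K11a29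
import Pool.Agent.MP_5cfbf6_gt.P8.K11a30
import Pool.Agent.MP_5cfbf6_gt.P8.K11a31
import Pool.Agent.MP_5cfbf6_gt.P8.K11a32
import Pool.Agent.MP_5cfbf6_gt.P8.K11a33
import Pool.Agent.MP_5cfbf6_gt.P8.K11a34
import Pool.Agent.MP_5cfbf6_gt.P8.K11a35
import Pool.Agent.MP_5cfbf6_gt.P8.K11a36
import Pool.Agent.MP_5cfbf6_gt.P8.K11a37
import Pool.Agent.MP_5cfbf6_gt.P8.K11a38
import Pool.Agent.MP_5cfbf6_gt.P8.K11a39
import Pool.Agent.MP_5cfbf6_gt.P8.K11a40
import Pool.Agent.MP_5cfbf6_gt.P8.K11a41
import Pool.Agent.MP_5cfbf6_gt.P8.K11a42
import Pool.Agent.MP_5cfbf6_gt.P8.K11a43
import Pool.Agent.MP_5cfbf6_gt.P8.K11a44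
import Pool.Agent.MP_5cfbf6_gt.P8.K11a45
import Pool.Agent.MP_5cfbf6_gt.P8.K11a46
import Pool.Agent.MP_5cfbf6_gt.P8.K11a47
import Pool.Agent.MP_5cfbf6_gt.P8.K11a48
import Pool.Agent.MP_5cfbf6_gt.P8.K11a49
import Pool.Agent.MP_5cfbf6_gt.P8.K11a50
import Pool.Agent.MP_5cfbf6_gt.P8.K11a51
import Pool.Agent.MP_5cfbf6_gt.P8.K11a52
import Pool.Agent.MP_5cfbf6_gt.P8.K11a53
import Pool.Agent.MP_5cfbf6_gt.P8.K11a54
import Pool.Agent.MP_5cfbf6_gt.P8.K11a55
import Pool.Agent.MP_5cfbf6_gt.P8.K11a56
import Pool.Agent.MP_5cfbf6_gt.P8.K11a57
import Pool.Agent.MP_5cfbf6_gt.P8.K11a58
import Pool.Agent.MP_5cfbf6_gt.P8.K11a59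
import Pool.Agent.MP_5cfbf6_gt.P8.K11a60
import Pool.Agent.MP_5cfbf6_gt.P8.K11a61
import Pool.Agent.MP_5cfbf6_gt.P8.K11a62
import Pool.Agent.MP_5cfbf6_gt.P8.K11a63
import Pool.Agent.MP_5cfbf6_gt.P8.K11a64
import Pool.Agent.MP_5cfbf6_gt.P8.K11a65
import Pool.Agent.MP_5cfbf6_gt.P8.K11a66
import Pool.Agent.MP_5cfbf6_gt.P8.K11a67
import Pool.Agent.MP_5cfbf6_gt.P8.K11a68
import Pool.Agent.MP_5cfbf6_gt.P8.K11a69
import Pool.Agent.MP_5cfbf6_gt.P8.K11a70
import Pool.Agent.MP_5cfbf6_gt.P8.K11a71
import Pool.Agent.MP_5cfbf6_gt.P8.K11a72
import Pool.Agent.MP_5cfbf6_gt.P8.K11a73
import Pool.Agent.MP_5cfbf6_gt.P8.K11a74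
import Pool.Agent.MP_5cfbf6_gt.P8.K11a75
import Pool.Agent.MP_5cfbf6_gt.P8.K11a76
import Pool.Agent.MP_5cfbf6_gt.P8.K11a77
import Pool.Agent.MP_5cfbf6_gt.P8.K11a78
import Pool.Agent.MP_5cfbf6_gt.P8.K11a79
import Pool.Agent.MP_5cfbf6_gt.P8.K11a80
import Pool.Agent.MP_5cfbf6_gt.P8.K11a81
import Pool.Agent.MP_5cfbf6_gt.P8.K11a82
import Pool.Agent.MP_5cfbf6_gt.P8.K11a83
import Pool.Agent.MP_5cfbf6_gt.P8.K11a84
import Pool.Agent.MP_5cfbf6_gt.P8.K11a85
import Pool.Agent.MP_5cfbf6_gt.P8.K11a86
import Pool.Agent.MP_5cfbf6_gt.P8.K11a87
import Pool.Agent.MP_5cfbf6_gt.P8.K11a88
import Pool.Agent.MP_5cfbf6_gt.P8.K11a89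
import Pool.Agent.MP_5cfbf6_gt.P8.K11a90
import Pool.Agent.MP_5cfbf6_gt.P8.K11a91
import Pool.Agent.MP_5cfbf6_gt.P8.K11a92
import Pool.Agent.MP_5cfbf6_gt.P8.K11a93
import Pool.Agent.MP_5cfbf6_gt.P8.K11a94
import Pool.Agent.MP_5cfbf6_gt.P8.K11a95
import Pool.Agent.MP_5cfbf6_gt.P8.K11a96
import Pool.Agent.MP_5cfbf6_gt.P8.K11a97
import Pool.Agent.MP_5cfbf6_gt.P8.K11a98
import Pool.Agent.MP_5cfbf6_gt.P8.K11a99
import Pool.Agent.MP_5cfbf6_gt.P8.K11a100
import Pool.Agent.MP_5cfbf6_gt.P8.K11a101
import Pool.Agent.MP_5cfbf6_gt.P8.K11a102
import Pool.Agent.MP_5cfbf6_gt.P8.K11a103
import Pool.Agent.MP_5cfbf6_gt.P8.K11a104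
import Pool.Agent.MP_5cfbf6_gt.P8.K11a105
import Pool.Agent.MP_5cfbf6_gt.P8.K11a106
import Pool.Agent.MP_5cfbf6_gt.P8.K11a107
import Pool.Agent.MP_5cfbf6_gt.P8.K11a108
import Pool.Agent.MP_5cfbf6_gt.P8.K11a109
import Pool.Agent.MP_5cfbf6_gt.P8.K11a110
import Pool.Agent.MP_5cfbf6_gt.P8.K11a111
import Pool.Agent.MP_5cfbf6_gt.P8.K11a112
import Pool.Agent.MP_5cfbf6_gt.P8.K11a113
import Pool.Agent.MP_5cfbf6_gt.P8.K11a114
import Pool.Agent.MP_5cfbf6_gt.P8.K11a115
import Pool.Agent.MP_5cfbf6_gt.P8.K11a116
import Pool.Agent.MP_5cfbf6_gt.P8.K11a117
import Pool.Agent.MP_5cfbf6_gt.P8.K11a118
import Pool.Agent.MP_5cfbf6_gt.P8.K11a119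
import Pool.Agent.MP_5cfbf6_gt.P8.K11a120
import Pool.Agent.MP_5cfbf6_gt.P8.K11a121
import Pool.Agent.MP_5cfbf6_gt.P8.K11a122
import Pool.Agent.MP_5cfbf6_gt.P8.K11a123
import Pool.Agent.MP_5cfbf6_gt.P8.K11a124
import Pool.Agent.MP_5cfbf6_gt.P8.K11a125
import Pool.Agent.MP_5cfbf6_gt.P8.K11a126
import Pool.Agent.MP_5cfbf6_gt.P8.K11a127
import Pool.Agent.MP_5cfbf6_gt.P8.K11a128
import Pool.Agent.MP_5cfbf6_gt.P8.K11a129

set_option autoImplicit false

namespace Pool.Agent.MP_5cfbf6_gt.P8.K2

variable {L : List Ck} {b s : ℝ}

theorem ok11a_1 (H : Good p11a L b s) :
    Ok L b s 1288490189 429496730 (-4497679235) 2248839619 4497679235 2248839619 :=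
  (.s3 3373259426 5622099044 1124419810 (by decide)
   (ok_go H c11a_1)
   (.s2 (-5622099044) (-3373259426) 1124419810 (by decide)
    (.s1 1073741824 1503238554 214748365 (by decide)
     (.s3 5059889139 6184308949 562209905 (by decide)
      (ok_go H c11a_2)
      (.s2 (-6184308949) (-5059889139) 562209905 (by decide)
       (.s1 966367642 1181116006 107374183 (by decide)
        (.s3 5903203997 6465413901 281104953 (by decide)
         (ok_go H c11a_3)
         (.s2 (-6465413901) (-5903203997) 281104953 (by decide)
          (.s2 (-6605966377) (-6324861425) 140552477 (by decide)
           (ok_go H c11a_4)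
           (ok_go H c11a_5))
          (.s2 (-6043756473) (-5762651521) 140552477 (by decide)
           (ok_go H c11a_6)
           (ok_go H c11a_7))))
        (.s3 5903203997 6465413901 281104953 (by decide)
         (ok_go H c11a_8)
         (.s2 (-6465413901) (-5903203997) 281104953 (by decide)
          (.s2 (-6605966377) (-6324861425) 140552477 (by decide)
           (ok_go H c11a_9)
           (ok_go H c11a_10))
          (.s2 (-6043756473) (-5762651521) 140552477 (by decide)
           (ok_go H c11a_11)
           (ok_go H c11a_12)))))
       (.s1 966367642 1181116006 107374183 (by decide)
        (.s3 5903203997 6465413901 281104953 (by decide)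
         (.s2 (-5340994091) (-4778784187) 281104953 (by decide)
          (ok_go H c11a_13)
          (ok_go H c11a_14))
         (.s2 (-5340994091) (-4778784187) 281104953 (by decide)
          (.s2 (-5481546567) (-5200441615) 140552477 (by decide)
           (.s3 6324861425 6605966377 140552477 (by decide)
            (ok_go H c11a_15)
            (ok_go H c11a_16))
           (.s3 6324861425 6605966377 140552477 (by decide)
            (ok_go H c11a_17)
            (ok_go H c11a_18)))
          (ok_go H c11a_19)))
        (.s3 5903203997 6465413901 281104953 (by decide)
         (.s2 (-5340994091) (-4778784187) 281104953 (by decide)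
          (ok_go H c11a_20)
          (ok_go H c11a_21))
         (.s2 (-5340994091) (-4778784187) 281104953 (by decide)
          (.s2 (-5481546567) (-5200441615) 140552477 (by decide)
           (ok_go H c11a_22)
           (.s3 6324861425 6605966377 140552477 (by decide)
            (ok_go H c11a_23)
            (ok_go H c11a_24)))
          (ok_go H c11a_25))))))
     (.s3 5059889139 6184308949 562209905 (by decide)
      (ok_go H c11a_26)
      (.s2 (-6184308949) (-5059889139) 562209905 (by decide)
       (.s1 1395864372 1610612736 107374183 (by decide)
        (.s2 (-6465413901) (-5903203997) 281104953 (by decide)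
         (ok_go H c11a_27)
         (ok_go H c11a_28))
        (.s2 (-6465413901) (-5903203997) 281104953 (by decide)
         (ok_go H c11a_29)
         (ok_go H c11a_30)))
       (.s1 1395864372 1610612736 107374183 (by decide)
        (.s3 5903203997 6465413901 281104953 (by decide)
         (ok_go H c11a_31)
         (.s2 (-5340994091) (-4778784187) 281104953 (by decide)
          (ok_go H c11a_32)
          (ok_go H c11a_33)))
        (.s3 5903203997 6465413901 281104953 (by decide)
         (ok_go H c11a_34)
         (.s2 (-5340994091) (-4778784187) 281104953 (by decide)
          (ok_go H c11a_35)
          (ok_go H c11a_36)))))))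
    (.s1 1073741824 1503238554 214748365 (by decide)
     (.s3 5059889139 6184308949 562209905 (by decide)
      (.s2 (-3935469331) (-2811049521) 562209905 (by decide)
       (ok_go H c11a_37)
       (ok_go H c11a_38))
      (.s2 (-3935469331) (-2811049521) 562209905 (by decide)
       (.s1 966367642 1181116006 107374183 (by decide)
        (.s3 5903203997 6465413901 281104953 (by decide)
         (ok_go H c11a_39)
         (.s2 (-4216574283) (-3654364379) 281104953 (by decide)
          (ok_go H c11a_40)
          (ok_go H c11a_41)))
        (.s3 5903203997 6465413901 281104953 (by decide)
         (ok_go H c11a_42)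
         (.s2 (-4216574283) (-3654364379) 281104953 (by decide)
          (ok_go H c11a_43)
          (ok_go H c11a_44))))
       (.s1 966367642 1181116006 107374183 (by decide)
        (.s3 5903203997 6465413901 281104953 (by decide)
         (ok_go H c11a_45)
         (.s2 (-3092154473) (-2529944569) 281104953 (by decide)
          (ok_go H c11a_46)
          (ok_go H c11a_47)))
        (.s3 5903203997 6465413901 281104953 (by decide)
         (ok_go H c11a_48)
         (.s2 (-3092154473) (-2529944569) 281104953 (by decide)
          (ok_go H c11a_49)
          (ok_go H c11a_50))))))
     (.s3 5059889139 6184308949 562209905 (by decide)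
      (.s2 (-3935469331) (-2811049521) 562209905 (by decide)
       (ok_go H c11a_51)
       (ok_go H c11a_52))
      (.s2 (-3935469331) (-2811049521) 562209905 (by decide)
       (.s1 1395864372 1610612736 107374183 (by decide)
        (.s3 5903203997 6465413901 281104953 (by decide)
         (ok_go H c11a_53)
         (ok_go H c11a_54))
        (.s3 5903203997 6465413901 281104953 (by decide)
         (ok_go H c11a_55)
         (ok_go H c11a_56)))
       (.s1 1395864372 1610612736 107374183 (by decide)
        (.s3 5903203997 6465413901 281104953 (by decide)
         (ok_go H c11a_57)
         (.s2 (-3092154473) (-2529944569) 281104953 (by decide)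
          (ok_go H c11a_58)
          (ok_go H c11a_59)))
        (.s3 5903203997 6465413901 281104953 (by decide)
         (ok_go H c11a_60)
         (.s2 (-3092154473) (-2529944569) 281104953 (by decide)
          (ok_go H c11a_61)
          (ok_go H c11a_62)))))))))

theorem ok11a_2 (H : Good p11a L b s) :
    Ok L b s 2147483649 429496730 (-4497679235) 2248839619 4497679235 2248839619 :=
  (.s3 3373259426 5622099044 1124419810 (by decide)
   (ok_go H c11a_63)
   (.s2 (-5622099044) (-3373259426) 1124419810 (by decide)
    (.s1 1932735284 2362232014 214748365 (by decide)
     (.s3 5059889139 6184308949 562209905 (by decide)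
      (ok_go H c11a_64)
      (.s2 (-6184308949) (-5059889139) 562209905 (by decide)
       (.s2 (-6465413901) (-5903203997) 281104953 (by decide)
        (.s3 5903203997 6465413901 281104953 (by decide)
         (ok_go H c11a_65)
         (.s2 (-6605966377) (-6324861425) 140552477 (by decide)
          (ok_go H c11a_66)
          (ok_go H c11a_67)))
        (ok_go H c11a_68))
       (.s1 1825361102 2040109466 107374183 (by decide)
        (.s3 5903203997 6465413901 281104953 (by decide)
         (ok_go H c11a_69)
         (ok_go H c11a_70))
        (ok_go H c11a_71))))
     (.s3 5059889139 6184308949 562209905 (by decide)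
      (ok_go H c11a_72)
      (.s2 (-6184308949) (-5059889139) 562209905 (by decide)
       (.s2 (-6465413901) (-5903203997) 281104953 (by decide)
        (ok_go H c11a_73)
        (ok_go H c11a_74))
       (.s2 (-5340994091) (-4778784187) 281104953 (by decide)
        (ok_go H c11a_75)
        (ok_go H c11a_76)))))
    (.s1 1932735284 2362232014 214748365 (by decide)
     (.s3 5059889139 6184308949 562209905 (by decide)
      (.s2 (-3935469331) (-2811049521) 562209905 (by decide)
       (.s1 1825361102 2040109466 107374183 (by decide)
        (ok_go H c11a_77)
        (ok_go H c11a_78))
       (.s1 1825361102 2040109466 107374183 (by decide)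
        (ok_go H c11a_79)
        (ok_go H c11a_80)))
      (.s2 (-3935469331) (-2811049521) 562209905 (by decide)
       (.s1 1825361102 2040109466 107374183 (by decide)
        (.s3 5903203997 6465413901 281104953 (by decide)
         (ok_go H c11a_81)
         (ok_go H c11a_82))
        (.s3 5903203997 6465413901 281104953 (by decide)
         (ok_go H c11a_83)
         (ok_go H c11a_84)))
       (.s1 1825361102 2040109466 107374183 (by decide)
        (.s3 5903203997 6465413901 281104953 (by decide)
         (ok_go H c11a_85)
         (ok_go H c11a_86))
        (.s3 5903203997 6465413901 281104953 (by decide)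
         (ok_go H c11a_87)
         (ok_go H c11a_88)))))
     (.s3 5059889139 6184308949 562209905 (by decide)
      (.s2 (-3935469331) (-2811049521) 562209905 (by decide)
       (.s1 2254857832 2469606196 107374183 (by decide)
        (ok_go H c11a_89)
        (ok_go H c11a_90))
       (.s1 2254857832 2469606196 107374183 (by decide)
        (.s3 4778784187 5340994091 281104953 (by decide)
         (ok_go H c11a_91)
         (ok_go H c11a_92))
        (.s3 4778784187 5340994091 281104953 (by decide)
         (ok_go H c11a_93)
         (.s2 (-3092154473) (-2529944569) 281104953 (by decide)
          (ok_go H c11a_94)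
          (ok_go H c11a_95)))))
      (.s2 (-3935469331) (-2811049521) 562209905 (by decide)
       (.s1 2254857832 2469606196 107374183 (by decide)
        (.s3 5903203997 6465413901 281104953 (by decide)
         (ok_go H c11a_96)
         (ok_go H c11a_97))
        (ok_go H c11a_98))
       (.s1 2254857832 2469606196 107374183 (by decide)
        (.s3 5903203997 6465413901 281104953 (by decide)
         (ok_go H c11a_99)
         (ok_go H c11a_100))
        (.s3 5903203997 6465413901 281104953 (by decide)
         (ok_go H c11a_101)
         (ok_go H c11a_102))))))))

theorem ok11a_3 (H : Good p11a L b s) :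
    Ok L b s 1288490189 429496730 1 2248839619 3373259426 1124419810 :=
  (.s2 (-1124419808) 1124419810 1124419810 (by decide)
   (.s1 1073741824 1503238554 214748365 (by decide)
    (.s3 2811049521 3935469331 562209905 (by decide)
     (ok_go H c11a_103)
     (.s2 (-1686629713) (-562209903) 562209905 (by decide)
      (.s1 966367642 1181116006 107374183 (by decide)
       (ok_go H c11a_104)
       (ok_go H c11a_105))
      (.s1 966367642 1181116006 107374183 (by decide)
       (.s3 3654364379 4216574283 281104953 (by decide)
        (ok_go H c11a_106)
        (.s2 (-843314855) (-281104951) 281104953 (by decide)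
         (ok_go H c11a_107)
         (ok_go H c11a_108)))
       (.s3 3654364379 4216574283 281104953 (by decide)
        (ok_go H c11a_109)
        (ok_go H c11a_110)))))
    (.s3 2811049521 3935469331 562209905 (by decide)
     (ok_go H c11a_111)
     (.s2 (-1686629713) (-562209903) 562209905 (by decide)
      (.s1 1395864372 1610612736 107374183 (by decide)
       (ok_go H c11a_112)
       (ok_go H c11a_113))
      (.s1 1395864372 1610612736 107374183 (by decide)
       (.s3 3654364379 4216574283 281104953 (by decide)
        (ok_go H c11a_114)
        (ok_go H c11a_115))
       (.s3 3654364379 4216574283 281104953 (by decide)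
        (ok_go H c11a_116)
        (.s2 (-843314855) (-281104951) 281104953 (by decide)
         (ok_go H c11a_117)
         (ok_go H c11a_118)))))))
   (.s1 1073741824 1503238554 214748365 (by decide)
    (.s3 2811049521 3935469331 562209905 (by decide)
     (.s2 562209905 1686629715 562209905 (by decide)
      (ok_go H c11a_119)
      (.s1 966367642 1181116006 107374183 (by decide)
       (ok_go H c11a_120)
       (ok_go H c11a_121)))
     (.s2 562209905 1686629715 562209905 (by decide)
      (.s1 966367642 1181116006 107374183 (by decide)
       (ok_go H c11a_122)
       (ok_go H c11a_123))
      (ok_go H c11a_124)))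
    (.s3 2811049521 3935469331 562209905 (by decide)
     (.s2 562209905 1686629715 562209905 (by decide)
      (.s1 1395864372 1610612736 107374183 (by decide)
       (ok_go H c11a_125)
       (ok_go H c11a_126))
      (.s1 1395864372 1610612736 107374183 (by decide)
       (ok_go H c11a_127)
       (.s3 2529944569 3092154473 281104953 (by decide)
        (ok_go H c11a_128)
        (ok_go H c11a_129))))
     (.s2 562209905 1686629715 562209905 (by decide)
      (.s1 1395864372 1610612736 107374183 (by decide)
       (ok_go H c11a_130)
       (.s3 3654364379 4216574283 281104953 (by decide)
        (ok_go H c11a_131)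
        (ok_go H c11a_132)))
      (ok_go H c11a_133)))))

theorem ok11a_4 (H : Good p11a L b s) :
    Ok L b s 1073741824 214748365 (-1124419808) 1124419810 5059889139 562209905 :=
  (.s2 (-1686629713) (-562209903) 562209905 (by decide)
   (.s1 966367642 1181116006 107374183 (by decide)
    (.s3 4778784187 5340994091 281104953 (by decide)
     (ok_go H c11a_134)
     (.s2 (-1967734665) (-1405524761) 281104953 (by decide)
      (ok_go H c11a_135)
      (ok_go H c11a_136)))
    (.s3 4778784187 5340994091 281104953 (by decide)
     (ok_go H c11a_137)
     (ok_go H c11a_138)))
   (.s1 966367642 1181116006 107374183 (by decide)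
    (.s3 4778784187 5340994091 281104953 (by decide)
     (.s2 (-843314855) (-281104951) 281104953 (by decide)
      (.s1 912680551 1020054733 53687092 (by decide)
       (.s3 4638231711 4919336663 140552477 (by decide)
        (ok_go H c11a_139)
        (ok_go H c11a_140))
       (ok_go H c11a_141))
      (ok_go H c11a_142))
     (.s2 (-843314855) (-281104951) 281104953 (by decide)
      (.s1 912680551 1020054733 53687092 (by decide)
       (.s3 5200441615 5481546567 140552477 (by decide)
        (.s2 (-983867331) (-702762379) 140552477 (by decide)
         (ok_go H c11a_143)
         (ok_go H c11a_144))
        (.s2 (-983867331) (-702762379) 140552477 (by decide)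
         (ok_go H c11a_145)
         (.s1 885837005 939524097 26843546 (by decide)
          (.s3 5411270329 5551822805 70276239 (by decide)
           (ok_go H c11a_146)
           (ok_go H c11a_147))
          (ok_go H c11a_148))))
       (.s3 5200441615 5481546567 140552477 (by decide)
        (ok_go H c11a_149)
        (ok_go H c11a_150)))
      (.s1 912680551 1020054733 53687092 (by decide)
       (ok_go H c11a_151)
       (ok_go H c11a_152))))
    (.s3 4778784187 5340994091 281104953 (by decide)
     (.s2 (-843314855) (-281104951) 281104953 (by decide)
      (ok_go H c11a_153)
      (ok_go H c11a_154))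
     (.s2 (-843314855) (-281104951) 281104953 (by decide)
      (.s1 1127428915 1234803097 53687092 (by decide)
       (ok_go H c11a_155)
       (ok_go H c11a_156))
      (ok_go H c11a_157)))))

theorem ok11a_5 (H : Good p11a L b s) :
    Ok L b s 1073741824 214748365 (-1124419808) 1124419810 6184308949 562209905 :=
  (.s2 (-1686629713) (-562209903) 562209905 (by decide)
   (.s1 966367642 1181116006 107374183 (by decide)
    (.s3 5903203997 6465413901 281104953 (by decide)
     (.s2 (-1967734665) (-1405524761) 281104953 (by decide)
      (ok_go H c11a_158)
      (.s1 912680551 1020054733 53687092 (by decide)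
       (.s3 5762651521 6043756473 140552477 (by decide)
        (ok_go H c11a_159)
        (ok_go H c11a_160))
       (ok_go H c11a_161)))
     (.s2 (-1967734665) (-1405524761) 281104953 (by decide)
      (.s1 912680551 1020054733 53687092 (by decide)
       (ok_go H c11a_162)
       (ok_go H c11a_163))
      (.s1 912680551 1020054733 53687092 (by decide)
       (.s3 6324861425 6605966377 140552477 (by decide)
        (ok_go H c11a_164)
        (.s2 (-1546077237) (-1264972285) 140552477 (by decide)
         (ok_go H c11a_165)
         (ok_go H c11a_166)))
       (.s3 6324861425 6605966377 140552477 (by decide)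
        (ok_go H c11a_167)
        (ok_go H c11a_168)))))
    (.s3 5903203997 6465413901 281104953 (by decide)
     (.s2 (-1967734665) (-1405524761) 281104953 (by decide)
      (ok_go H c11a_169)
      (.s1 1127428915 1234803097 53687092 (by decide)
       (ok_go H c11a_170)
       (ok_go H c11a_171)))
     (.s2 (-1967734665) (-1405524761) 281104953 (by decide)
      (.s1 1127428915 1234803097 53687092 (by decide)
       (ok_go H c11a_172)
       (ok_go H c11a_173))
      (.s1 1127428915 1234803097 53687092 (by decide)
       (ok_go H c11a_174)
       (ok_go H c11a_175)))))
   (.s1 966367642 1181116006 107374183 (by decide)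
    (.s3 5903203997 6465413901 281104953 (by decide)
     (.s2 (-843314855) (-281104951) 281104953 (by decide)
      (.s1 912680551 1020054733 53687092 (by decide)
       (.s3 5762651521 6043756473 140552477 (by decide)
        (.s2 (-983867331) (-702762379) 140552477 (by decide)
         (.s1 885837005 939524097 26843546 (by decide)
          (.s2 (-1054143569) (-913591093) 70276239 (by decide)
           (ok_go H c11a_176)
           (.s3 5692375283 5832927759 70276239 (by decide)
            (ok_go H c11a_177)
            (.s2 (-948729212) (-878452974) 35138120 (by decide)
             (ok_go H c11a_178)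
             (.s2 (-896022034) (-860883914) 17569060 (by decide)
              (ok_go H c11a_179)
              (ok_go H c11a_180)))))
          (ok_go H c11a_181))
         (.s1 885837005 939524097 26843546 (by decide)
          (.s3 5692375283 5832927759 70276239 (by decide)
           (.s2 (-773038617) (-632486141) 70276239 (by decide)
            (.s2 (-808176736) (-737900498) 35138120 (by decide)
             (ok_go H c11a_182)
             (ok_go H c11a_183))
            (ok_go H c11a_184))
           (.s2 (-773038617) (-632486141) 70276239 (by decide)
            (.s2 (-808176736) (-737900498) 35138120 (by decide)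
             (.s2 (-825745796) (-790607676) 17569060 (by decide)
              (ok_go H c11a_185)
              (ok_go H c11a_186))
             (ok_go H c11a_187))
            (ok_go H c11a_188)))
          (ok_go H c11a_189)))
        (.s2 (-983867331) (-702762379) 140552477 (by decide)
         (.s1 885837005 939524097 26843546 (by decide)
          (.s3 5973480235 6114032711 70276239 (by decide)
           (.s2 (-1054143569) (-913591093) 70276239 (by decide)
            (ok_go H c11a_190)
            (.s2 (-948729212) (-878452974) 35138120 (by decide)
             (ok_go H c11a_191)
             (.s2 (-896022034) (-860883914) 17569060 (by decide)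
              (ok_go H c11a_192)
              (ok_go H c11a_193))))
           (.s2 (-1054143569) (-913591093) 70276239 (by decide)
            (ok_go H c11a_194)
            (.s2 (-948729212) (-878452974) 35138120 (by decide)
             (ok_go H c11a_195)
             (.s3 6078894592 6149170830 35138120 (by decide)
              (ok_go H c11a_196)
              (ok_go H c11a_197)))))
          (ok_go H c11a_198))
         (.s1 885837005 939524097 26843546 (by decide)
          (.s3 5973480235 6114032711 70276239 (by decide)
           (.s2 (-773038617) (-632486141) 70276239 (by decide)
            (.s2 (-808176736) (-737900498) 35138120 (by decide)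
             (.s2 (-825745796) (-790607676) 17569060 (by decide)
              (ok_go H c11a_199)
              (ok_go H c11a_200))
             (ok_go H c11a_201))
            (ok_go H c11a_202))
           (.s2 (-773038617) (-632486141) 70276239 (by decide)
            (.s2 (-808176736) (-737900498) 35138120 (by decide)
             (ok_go H c11a_203)
             (ok_go H c11a_204))
            (ok_go H c11a_205)))
          (ok_go H c11a_206))))
       (.s3 5762651521 6043756473 140552477 (by decide)
        (.s2 (-983867331) (-702762379) 140552477 (by decide)
         (ok_go H c11a_207)
         (ok_go H c11a_208))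
        (.s2 (-983867331) (-702762379) 140552477 (by decide)
         (ok_go H c11a_209)
         (ok_go H c11a_210))))
      (.s1 912680551 1020054733 53687092 (by decide)
       (ok_go H c11a_211)
       (ok_go H c11a_212)))
     (.s2 (-843314855) (-281104951) 281104953 (by decide)
      (.s1 912680551 1020054733 53687092 (by decide)
       (.s3 6324861425 6605966377 140552477 (by decide)
        (.s2 (-983867331) (-702762379) 140552477 (by decide)
         (.s1 885837005 939524097 26843546 (by decide)
          (.s3 6254585187 6395137663 70276239 (by decide)
           (.s2 (-1054143569) (-913591093) 70276239 (by decide)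
            (ok_go H c11a_213)
            (ok_go H c11a_214))
           (ok_go H c11a_215))
          (ok_go H c11a_216))
         (.s1 885837005 939524097 26843546 (by decide)
          (.s3 6254585187 6395137663 70276239 (by decide)
           (ok_go H c11a_217)
           (ok_go H c11a_218))
          (ok_go H c11a_219)))
        (.s2 (-983867331) (-702762379) 140552477 (by decide)
         (.s1 885837005 939524097 26843546 (by decide)
          (ok_go H c11a_220)
          (ok_go H c11a_221))
         (ok_go H c11a_222)))
       (.s3 6324861425 6605966377 140552477 (by decide)
        (.s2 (-983867331) (-702762379) 140552477 (by decide)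
         (ok_go H c11a_223)
         (ok_go H c11a_224))
        (.s2 (-983867331) (-702762379) 140552477 (by decide)
         (ok_go H c11a_225)
         (ok_go H c11a_226))))
      (.s1 912680551 1020054733 53687092 (by decide)
       (.s3 6324861425 6605966377 140552477 (by decide)
        (ok_go H c11a_227)
        (.s2 (-421657427) (-140552475) 140552477 (by decide)
         (ok_go H c11a_228)
         (ok_go H c11a_229)))
       (.s3 6324861425 6605966377 140552477 (by decide)
        (ok_go H c11a_230)
        (.s2 (-421657427) (-140552475) 140552477 (by decide)
         (ok_go H c11a_231)
         (ok_go H c11a_232))))))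
    (.s3 5903203997 6465413901 281104953 (by decide)
     (.s2 (-843314855) (-281104951) 281104953 (by decide)
      (.s1 1127428915 1234803097 53687092 (by decide)
       (.s3 5762651521 6043756473 140552477 (by decide)
        (ok_go H c11a_233)
        (ok_go H c11a_234))
       (ok_go H c11a_235))
      (ok_go H c11a_236))
     (.s2 (-843314855) (-281104951) 281104953 (by decide)
      (.s1 1127428915 1234803097 53687092 (by decide)
       (.s3 6324861425 6605966377 140552477 (by decide)
        (ok_go H c11a_237)
        (ok_go H c11a_238))
       (ok_go H c11a_239))
      (.s1 1127428915 1234803097 53687092 (by decide)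
       (ok_go H c11a_240)
       (ok_go H c11a_241))))))

theorem ok11a_6 (H : Good p11a L b s) :
    Ok L b s 1503238554 214748365 (-1124419808) 1124419810 5622099044 1124419810 :=
  (.s3 5059889139 6184308949 562209905 (by decide)
   (.s2 (-1686629713) (-562209903) 562209905 (by decide)
    (.s1 1395864372 1610612736 107374183 (by decide)
     (.s3 4778784187 5340994091 281104953 (by decide)
      (ok_go H c11a_242)
      (ok_go H c11a_243))
     (.s3 4778784187 5340994091 281104953 (by decide)
      (ok_go H c11a_244)
      (ok_go H c11a_245)))
    (.s1 1395864372 1610612736 107374183 (by decide)
     (.s3 4778784187 5340994091 281104953 (by decide)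
      (.s2 (-843314855) (-281104951) 281104953 (by decide)
       (ok_go H c11a_246)
       (ok_go H c11a_247))
      (.s2 (-843314855) (-281104951) 281104953 (by decide)
       (ok_go H c11a_248)
       (ok_go H c11a_249)))
     (.s3 4778784187 5340994091 281104953 (by decide)
      (.s2 (-843314855) (-281104951) 281104953 (by decide)
       (ok_go H c11a_250)
       (ok_go H c11a_251))
      (.s2 (-843314855) (-281104951) 281104953 (by decide)
       (ok_go H c11a_252)
       (ok_go H c11a_253)))))
   (.s2 (-1686629713) (-562209903) 562209905 (by decide)
    (.s1 1395864372 1610612736 107374183 (by decide)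
     (.s3 5903203997 6465413901 281104953 (by decide)
      (.s2 (-1967734665) (-1405524761) 281104953 (by decide)
       (ok_go H c11a_254)
       (ok_go H c11a_255))
      (.s2 (-1967734665) (-1405524761) 281104953 (by decide)
       (ok_go H c11a_256)
       (.s1 1342177281 1449551463 53687092 (by decide)
        (ok_go H c11a_257)
        (ok_go H c11a_258))))
     (.s3 5903203997 6465413901 281104953 (by decide)
      (.s2 (-1967734665) (-1405524761) 281104953 (by decide)
       (ok_go H c11a_259)
       (ok_go H c11a_260))
      (.s2 (-1967734665) (-1405524761) 281104953 (by decide)
       (ok_go H c11a_261)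
       (ok_go H c11a_262))))
    (.s1 1395864372 1610612736 107374183 (by decide)
     (.s3 5903203997 6465413901 281104953 (by decide)
      (.s2 (-843314855) (-281104951) 281104953 (by decide)
       (.s1 1342177281 1449551463 53687092 (by decide)
        (ok_go H c11a_263)
        (ok_go H c11a_264))
       (ok_go H c11a_265))
      (.s2 (-843314855) (-281104951) 281104953 (by decide)
       (.s1 1342177281 1449551463 53687092 (by decide)
        (ok_go H c11a_266)
        (ok_go H c11a_267))
       (ok_go H c11a_268)))
     (.s3 5903203997 6465413901 281104953 (by decide)
      (.s2 (-843314855) (-281104951) 281104953 (by decide)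
       (ok_go H c11a_269)
       (ok_go H c11a_270))
      (.s2 (-843314855) (-281104951) 281104953 (by decide)
       (ok_go H c11a_271)
       (ok_go H c11a_272))))))

theorem ok11a_7 (H : Good p11a L b s) :
    Ok L b s 1288490189 429496730 1124419810 1124419810 5622099044 1124419810 :=
  (.s1 1073741824 1503238554 214748365 (by decide)
   (.s3 5059889139 6184308949 562209905 (by decide)
    (.s2 562209905 1686629715 562209905 (by decide)
     (.s1 966367642 1181116006 107374183 (by decide)
      (ok_go H c11a_273)
      (ok_go H c11a_274))
     (ok_go H c11a_275))
    (.s2 562209905 1686629715 562209905 (by decide)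
     (.s1 966367642 1181116006 107374183 (by decide)
      (.s3 5903203997 6465413901 281104953 (by decide)
       (ok_go H c11a_276)
       (ok_go H c11a_277))
      (.s3 5903203997 6465413901 281104953 (by decide)
       (ok_go H c11a_278)
       (ok_go H c11a_279)))
     (ok_go H c11a_280)))
   (.s3 5059889139 6184308949 562209905 (by decide)
    (.s2 562209905 1686629715 562209905 (by decide)
     (.s1 1395864372 1610612736 107374183 (by decide)
      (ok_go H c11a_281)
      (.s3 4778784187 5340994091 281104953 (by decide)
       (ok_go H c11a_282)
       (ok_go H c11a_283)))
     (ok_go H c11a_284))
    (.s2 562209905 1686629715 562209905 (by decide)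
     (.s1 1395864372 1610612736 107374183 (by decide)
      (ok_go H c11a_285)
      (ok_go H c11a_286))
     (ok_go H c11a_287))))

theorem ok11a_8 (H : Good p11a L b s) :
    Ok L b s 2147483649 429496730 (-1124419808) 1124419810 3373259426 1124419810 :=
  (.s1 1932735284 2362232014 214748365 (by decide)
   (.s3 2811049521 3935469331 562209905 (by decide)
    (ok_go H c11a_288)
    (.s2 (-1686629713) (-562209903) 562209905 (by decide)
     (.s1 1825361102 2040109466 107374183 (by decide)
      (ok_go H c11a_289)
      (ok_go H c11a_290))
     (.s1 1825361102 2040109466 107374183 (by decide)
      (.s3 3654364379 4216574283 281104953 (by decide)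
       (.s2 (-843314855) (-281104951) 281104953 (by decide)
        (ok_go H c11a_291)
        (ok_go H c11a_292))
       (.s2 (-843314855) (-281104951) 281104953 (by decide)
        (ok_go H c11a_293)
        (ok_go H c11a_294)))
      (.s3 3654364379 4216574283 281104953 (by decide)
       (.s2 (-843314855) (-281104951) 281104953 (by decide)
        (ok_go H c11a_295)
        (ok_go H c11a_296))
       (.s2 (-843314855) (-281104951) 281104953 (by decide)
        (ok_go H c11a_297)
        (ok_go H c11a_298))))))
   (.s3 2811049521 3935469331 562209905 (by decide)
    (ok_go H c11a_299)
    (.s2 (-1686629713) (-562209903) 562209905 (by decide)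
     (.s1 2254857832 2469606196 107374183 (by decide)
      (.s3 3654364379 4216574283 281104953 (by decide)
       (ok_go H c11a_300)
       (ok_go H c11a_301))
      (.s3 3654364379 4216574283 281104953 (by decide)
       (ok_go H c11a_302)
       (.s2 (-1967734665) (-1405524761) 281104953 (by decide)
        (ok_go H c11a_303)
        (.s2 (-1546077237) (-1264972285) 140552477 (by decide)
         (ok_go H c11a_304)
         (ok_go H c11a_305)))))
     (.s1 2254857832 2469606196 107374183 (by decide)
      (.s3 3654364379 4216574283 281104953 (by decide)
       (.s2 (-843314855) (-281104951) 281104953 (by decide)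
        (ok_go H c11a_306)
        (ok_go H c11a_307))
       (.s2 (-843314855) (-281104951) 281104953 (by decide)
        (.s2 (-983867331) (-702762379) 140552477 (by decide)
         (ok_go H c11a_308)
         (ok_go H c11a_309))
        (.s2 (-421657427) (-140552475) 140552477 (by decide)
         (ok_go H c11a_310)
         (ok_go H c11a_311))))
      (.s3 3654364379 4216574283 281104953 (by decide)
       (.s2 (-843314855) (-281104951) 281104953 (by decide)
        (ok_go H c11a_312)
        (.s2 (-421657427) (-140552475) 140552477 (by decide)
         (ok_go H c11a_313)
         (ok_go H c11a_314)))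
       (.s2 (-843314855) (-281104951) 281104953 (by decide)
        (.s2 (-983867331) (-702762379) 140552477 (by decide)
         (ok_go H c11a_315)
         (ok_go H c11a_316))
        (.s2 (-421657427) (-140552475) 140552477 (by decide)
         (.s3 4076021807 4357126759 140552477 (by decide)
          (ok_go H c11a_317)
          (ok_go H c11a_318))
         (.s3 4076021807 4357126759 140552477 (by decide)
          (.s2 (-210828713) (-70276237) 70276239 (by decide)
           (ok_go H c11a_319)
           (ok_go H c11a_320))
          (.s2 (-210828713) (-70276237) 70276239 (by decide)
           (ok_go H c11a_321)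
           (ok_go H c11a_322))))))))))

theorem ok11a_9 (H : Good p11a L b s) :
    Ok L b s 1932735284 214748365 1124419810 1124419810 3373259426 1124419810 :=
  (.s3 2811049521 3935469331 562209905 (by decide)
   (.s2 562209905 1686629715 562209905 (by decide)
    (.s1 1825361102 2040109466 107374183 (by decide)
     (.s3 2529944569 3092154473 281104953 (by decide)
      (ok_go H c11a_323)
      (ok_go H c11a_324))
     (.s3 2529944569 3092154473 281104953 (by decide)
      (ok_go H c11a_325)
      (.s2 281104953 843314857 281104953 (by decide)
       (ok_go H c11a_326)
       (.s2 702762381 983867333 140552477 (by decide)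
        (ok_go H c11a_327)
        (.s3 2951601997 3232706949 140552477 (by decide)
         (ok_go H c11a_328)
         (ok_go H c11a_329))))))
    (.s1 1825361102 2040109466 107374183 (by decide)
     (.s3 2529944569 3092154473 281104953 (by decide)
      (.s2 1405524763 1967734667 281104953 (by decide)
       (ok_go H c11a_330)
       (.s1 1771674011 1879048193 53687092 (by decide)
        (ok_go H c11a_331)
        (.s2 1827182191 2108287143 140552477 (by decide)
         (ok_go H c11a_332)
         (ok_go H c11a_333))))
      (.s2 1405524763 1967734667 281104953 (by decide)
       (ok_go H c11a_334)
       (ok_go H c11a_335)))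
     (.s3 2529944569 3092154473 281104953 (by decide)
      (.s2 1405524763 1967734667 281104953 (by decide)
       (.s2 1264972287 1546077239 140552477 (by decide)
        (ok_go H c11a_336)
        (.s3 2389392093 2670497045 140552477 (by decide)
         (ok_go H c11a_337)
         (.s1 1986422375 2093796557 53687092 (by decide)
          (ok_go H c11a_338)
          (ok_go H c11a_339))))
       (.s2 1827182191 2108287143 140552477 (by decide)
        (.s3 2389392093 2670497045 140552477 (by decide)
         (.s1 1986422375 2093796557 53687092 (by decide)
          (ok_go H c11a_340)
          (.s2 1756905953 1897458429 70276239 (by decide)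
           (ok_go H c11a_341)
           (.s3 2319115855 2459668331 70276239 (by decide)
            (ok_go H c11a_342)
            (ok_go H c11a_343))))
         (.s1 1986422375 2093796557 53687092 (by decide)
          (ok_go H c11a_344)
          (.s2 1756905953 1897458429 70276239 (by decide)
           (ok_go H c11a_345)
           (.s3 2600220807 2740773283 70276239 (by decide)
            (ok_go H c11a_346)
            (ok_go H c11a_347)))))
        (.s3 2389392093 2670497045 140552477 (by decide)
         (.s1 1986422375 2093796557 53687092 (by decide)
          (.s2 2038010905 2178563381 70276239 (by decide)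
           (ok_go H c11a_348)
           (ok_go H c11a_349))
          (.s2 2038010905 2178563381 70276239 (by decide)
           (.s3 2319115855 2459668331 70276239 (by decide)
            (ok_go H c11a_350)
            (.s1 2066953011 2120640103 26843546 (by decide)
             (ok_go H c11a_351)
             (ok_go H c11a_352)))
           (.s3 2319115855 2459668331 70276239 (by decide)
            (.s1 2066953011 2120640103 26843546 (by decide)
             (ok_go H c11a_353)
             (ok_go H c11a_354))
            (ok_go H c11a_355))))
         (.s1 1986422375 2093796557 53687092 (by decide)
          (ok_go H c11a_356)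
          (.s2 2038010905 2178563381 70276239 (by decide)
           (.s3 2600220807 2740773283 70276239 (by decide)
            (ok_go H c11a_357)
            (ok_go H c11a_358))
           (ok_go H c11a_359))))))
      (.s2 1405524763 1967734667 281104953 (by decide)
       (.s2 1264972287 1546077239 140552477 (by decide)
        (.s3 2951601997 3232706949 140552477 (by decide)
         (ok_go H c11a_360)
         (ok_go H c11a_361))
        (.s3 2951601997 3232706949 140552477 (by decide)
         (.s1 1986422375 2093796557 53687092 (by decide)
          (ok_go H c11a_362)
          (ok_go H c11a_363))
         (ok_go H c11a_364)))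
       (.s2 1827182191 2108287143 140552477 (by decide)
        (.s3 2951601997 3232706949 140552477 (by decide)
         (.s1 1986422375 2093796557 53687092 (by decide)
          (ok_go H c11a_365)
          (.s2 1756905953 1897458429 70276239 (by decide)
           (ok_go H c11a_366)
           (ok_go H c11a_367)))
         (ok_go H c11a_368))
        (ok_go H c11a_369))))))
   (.s2 562209905 1686629715 562209905 (by decide)
    (.s1 1825361102 2040109466 107374183 (by decide)
     (.s3 3654364379 4216574283 281104953 (by decide)
      (.s2 281104953 843314857 281104953 (by decide)
       (ok_go H c11a_370)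
       (ok_go H c11a_371))
      (ok_go H c11a_372))
     (.s3 3654364379 4216574283 281104953 (by decide)
      (.s2 281104953 843314857 281104953 (by decide)
       (ok_go H c11a_373)
       (.s2 702762381 983867333 140552477 (by decide)
        (ok_go H c11a_374)
        (ok_go H c11a_375)))
      (.s2 281104953 843314857 281104953 (by decide)
       (ok_go H c11a_376)
       (ok_go H c11a_377))))
    (.s1 1825361102 2040109466 107374183 (by decide)
     (ok_go H c11a_378)
     (.s3 3654364379 4216574283 281104953 (by decide)
      (.s2 1405524763 1967734667 281104953 (by decide)
       (.s2 1264972287 1546077239 140552477 (by decide)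
        (ok_go H c11a_379)
        (ok_go H c11a_380))
       (ok_go H c11a_381))
      (ok_go H c11a_382)))))

theorem ok11a_10 (H : Good p11a L b s) :
    Ok L b s 2362232014 214748365 562209905 562209905 2811049521 562209905 :=
  (.s1 2254857832 2469606196 107374183 (by decide)
   (.s3 2529944569 3092154473 281104953 (by decide)
    (ok_go H c11a_383)
    (.s2 281104953 843314857 281104953 (by decide)
     (ok_go H c11a_384)
     (.s2 702762381 983867333 140552477 (by decide)
      (.s3 2951601997 3232706949 140552477 (by decide)
       (ok_go H c11a_385)
       (ok_go H c11a_386))
      (.s3 2951601997 3232706949 140552477 (by decide)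
       (.s1 2201170741 2308544923 53687092 (by decide)
        (.s2 913591095 1054143571 70276239 (by decide)
         (ok_go H c11a_387)
         (ok_go H c11a_388))
        (.s2 913591095 1054143571 70276239 (by decide)
         (ok_go H c11a_389)
         (.s3 2881325759 3021878235 70276239 (by decide)
          (ok_go H c11a_390)
          (ok_go H c11a_391))))
       (.s1 2201170741 2308544923 53687092 (by decide)
        (ok_go H c11a_392)
        (ok_go H c11a_393))))))
   (.s3 2529944569 3092154473 281104953 (by decide)
    (ok_go H c11a_394)
    (.s2 281104953 843314857 281104953 (by decide)
     (ok_go H c11a_395)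
     (.s2 702762381 983867333 140552477 (by decide)
      (.s3 2951601997 3232706949 140552477 (by decide)
       (ok_go H c11a_396)
       (ok_go H c11a_397))
      (.s3 2951601997 3232706949 140552477 (by decide)
       (.s1 2415919105 2523293287 53687092 (by decide)
        (.s2 913591095 1054143571 70276239 (by decide)
         (ok_go H c11a_398)
         (ok_go H c11a_399))
        (ok_go H c11a_400))
       (ok_go H c11a_401))))))

theorem ok11a_11 (H : Good p11a L b s) :
    Ok L b s 2254857832 107374183 1405524763 281104953 2529944569 281104953 :=
  (.s2 1264972287 1546077239 140552477 (by decide)
   (.s3 2389392093 2670497045 140552477 (by decide)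
    (ok_go H c11a_402)
    (.s1 2201170741 2308544923 53687092 (by decide)
     (.s2 1194696049 1335248525 70276239 (by decide)
      (ok_go H c11a_403)
      (ok_go H c11a_404))
     (.s2 1194696049 1335248525 70276239 (by decide)
      (ok_go H c11a_405)
      (.s3 2600220807 2740773283 70276239 (by decide)
       (ok_go H c11a_406)
       (.s1 2281701377 2335388469 26843546 (by decide)
        (ok_go H c11a_407)
        (ok_go H c11a_408))))))
   (.s3 2389392093 2670497045 140552477 (by decide)
    (ok_go H c11a_409)
    (.s1 2201170741 2308544923 53687092 (by decide)
     (.s2 1475801001 1616353477 70276239 (by decide)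
      (.s3 2600220807 2740773283 70276239 (by decide)
       (ok_go H c11a_410)
       (.s1 2174327195 2228014287 26843546 (by decide)
        (ok_go H c11a_411)
        (ok_go H c11a_412)))
      (.s3 2600220807 2740773283 70276239 (by decide)
       (.s1 2174327195 2228014287 26843546 (by decide)
        (ok_go H c11a_413)
        (ok_go H c11a_414))
       (.s1 2174327195 2228014287 26843546 (by decide)
        (ok_go H c11a_415)
        (ok_go H c11a_416))))
     (.s2 1475801001 1616353477 70276239 (by decide)
      (.s3 2600220807 2740773283 70276239 (by decide)
       (.s1 2281701377 2335388469 26843546 (by decide)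
        (ok_go H c11a_417)
        (ok_go H c11a_418))
       (.s1 2281701377 2335388469 26843546 (by decide)
        (.s2 1440662882 1510939120 35138120 (by decide)
         (ok_go H c11a_419)
         (ok_go H c11a_420))
        (.s2 1440662882 1510939120 35138120 (by decide)
         (ok_go H c11a_421)
         (ok_go H c11a_422))))
      (.s3 2600220807 2740773283 70276239 (by decide)
       (.s1 2281701377 2335388469 26843546 (by decide)
        (.s2 1581215358 1651491596 35138120 (by decide)
         (ok_go H c11a_423)
         (.s3 2565082688 2635358926 35138120 (by decide)
          (ok_go H c11a_424)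
          (ok_go H c11a_425)))
        (.s2 1581215358 1651491596 35138120 (by decide)
         (ok_go H c11a_426)
         (.s3 2565082688 2635358926 35138120 (by decide)
          (ok_go H c11a_427)
          (ok_go H c11a_428))))
       (.s1 2281701377 2335388469 26843546 (by decide)
        (.s2 1581215358 1651491596 35138120 (by decide)
         (ok_go H c11a_429)
         (ok_go H c11a_430))
        (.s2 1581215358 1651491596 35138120 (by decide)
         (ok_go H c11a_431)
         (ok_go H c11a_432))))))))

theorem ok11a_12 (H : Good p11a L b s) :
    Ok L b s 2254857832 107374183 1827182191 140552477 2529944569 281104953 :=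
  (.s3 2389392093 2670497045 140552477 (by decide)
   (.s1 2201170741 2308544923 53687092 (by decide)
    (.s2 1756905953 1897458429 70276239 (by decide)
     (ok_go H c11a_433)
     (.s3 2319115855 2459668331 70276239 (by decide)
      (ok_go H c11a_434)
      (.s1 2174327195 2228014287 26843546 (by decide)
       (ok_go H c11a_435)
       (.s2 1862320310 1932596548 35138120 (by decide)
        (ok_go H c11a_436)
        (ok_go H c11a_437)))))
    (.s2 1756905953 1897458429 70276239 (by decide)
     (.s3 2319115855 2459668331 70276239 (by decide)
      (ok_go H c11a_438)
      (.s1 2281701377 2335388469 26843546 (by decide)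
       (.s2 1721767834 1792044072 35138120 (by decide)
        (ok_go H c11a_439)
        (.s3 2424530212 2494806450 35138120 (by decide)
         (ok_go H c11a_440)
         (.s1 2268279604 2295123150 13421773 (by decide)
          (ok_go H c11a_441)
          (ok_go H c11a_442))))
       (.s2 1721767834 1792044072 35138120 (by decide)
        (ok_go H c11a_443)
        (.s3 2424530212 2494806450 35138120 (by decide)
         (ok_go H c11a_444)
         (.s1 2321966696 2348810242 13421773 (by decide)
          (ok_go H c11a_445)
          (ok_go H c11a_446))))))
     (.s3 2319115855 2459668331 70276239 (by decide)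
      (ok_go H c11a_447)
      (.s1 2281701377 2335388469 26843546 (by decide)
       (.s2 1862320310 1932596548 35138120 (by decide)
        (.s3 2424530212 2494806450 35138120 (by decide)
         (ok_go H c11a_448)
         (ok_go H c11a_449))
        (.s3 2424530212 2494806450 35138120 (by decide)
         (ok_go H c11a_450)
         (ok_go H c11a_451)))
       (.s2 1862320310 1932596548 35138120 (by decide)
        (.s3 2424530212 2494806450 35138120 (by decide)
         (ok_go H c11a_452)
         (ok_go H c11a_453))
        (.s3 2424530212 2494806450 35138120 (by decide)
         (ok_go H c11a_454)
         (ok_go H c11a_455)))))))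
   (.s1 2201170741 2308544923 53687092 (by decide)
    (.s2 1756905953 1897458429 70276239 (by decide)
     (.s3 2600220807 2740773283 70276239 (by decide)
      (.s1 2174327195 2228014287 26843546 (by decide)
       (ok_go H c11a_456)
       (.s2 1721767834 1792044072 35138120 (by decide)
        (ok_go H c11a_457)
        (ok_go H c11a_458)))
      (.s1 2174327195 2228014287 26843546 (by decide)
       (ok_go H c11a_459)
       (.s2 1721767834 1792044072 35138120 (by decide)
        (ok_go H c11a_460)
        (ok_go H c11a_461))))
     (.s3 2600220807 2740773283 70276239 (by decide)
      (.s1 2174327195 2228014287 26843546 (by decide)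
       (ok_go H c11a_462)
       (.s2 1862320310 1932596548 35138120 (by decide)
        (ok_go H c11a_463)
        (.s3 2565082688 2635358926 35138120 (by decide)
         (ok_go H c11a_464)
         (ok_go H c11a_465))))
      (.s1 2174327195 2228014287 26843546 (by decide)
       (ok_go H c11a_466)
       (.s2 1862320310 1932596548 35138120 (by decide)
        (.s3 2705635164 2775911402 35138120 (by decide)
         (ok_go H c11a_467)
         (ok_go H c11a_468))
        (.s3 2705635164 2775911402 35138120 (by decide)
         (.s1 2214592514 2241436060 13421773 (by decide)
          (ok_go H c11a_469)
          (ok_go H c11a_470))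
         (.s1 2214592514 2241436060 13421773 (by decide)
          (ok_go H c11a_471)
          (ok_go H c11a_472)))))))
    (.s2 1756905953 1897458429 70276239 (by decide)
     (.s3 2600220807 2740773283 70276239 (by decide)
      (.s1 2281701377 2335388469 26843546 (by decide)
       (.s2 1721767834 1792044072 35138120 (by decide)
        (.s3 2565082688 2635358926 35138120 (by decide)
         (.s1 2268279604 2295123150 13421773 (by decide)
          (ok_go H c11a_473)
          (ok_go H c11a_474))
         (ok_go H c11a_475))
        (.s3 2565082688 2635358926 35138120 (by decide)
         (ok_go H c11a_476)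
         (ok_go H c11a_477)))
       (.s2 1721767834 1792044072 35138120 (by decide)
        (.s3 2565082688 2635358926 35138120 (by decide)
         (ok_go H c11a_478)
         (ok_go H c11a_479))
        (.s3 2565082688 2635358926 35138120 (by decide)
         (ok_go H c11a_480)
         (ok_go H c11a_481))))
      (.s1 2281701377 2335388469 26843546 (by decide)
       (.s2 1721767834 1792044072 35138120 (by decide)
        (ok_go H c11a_482)
        (.s3 2705635164 2775911402 35138120 (by decide)
         (ok_go H c11a_483)
         (ok_go H c11a_484)))
       (.s2 1721767834 1792044072 35138120 (by decide)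
        (ok_go H c11a_485)
        (.s3 2705635164 2775911402 35138120 (by decide)
         (ok_go H c11a_486)
         (ok_go H c11a_487)))))
     (.s3 2600220807 2740773283 70276239 (by decide)
      (.s1 2281701377 2335388469 26843546 (by decide)
       (.s2 1862320310 1932596548 35138120 (by decide)
        (.s3 2565082688 2635358926 35138120 (by decide)
         (ok_go H c11a_488)
         (ok_go H c11a_489))
        (.s3 2565082688 2635358926 35138120 (by decide)
         (ok_go H c11a_490)
         (.s1 2268279604 2295123150 13421773 (by decide)
          (ok_go H c11a_491)
          (ok_go H c11a_492))))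
       (.s2 1862320310 1932596548 35138120 (by decide)
        (.s3 2565082688 2635358926 35138120 (by decide)
         (ok_go H c11a_493)
         (ok_go H c11a_494))
        (.s3 2565082688 2635358926 35138120 (by decide)
         (ok_go H c11a_495)
         (.s1 2321966696 2348810242 13421773 (by decide)
          (ok_go H c11a_496)
          (ok_go H c11a_497)))))
      (.s1 2281701377 2335388469 26843546 (by decide)
       (.s2 1862320310 1932596548 35138120 (by decide)
        (.s3 2705635164 2775911402 35138120 (by decide)
         (.s1 2268279604 2295123150 13421773 (by decide)
          (ok_go H c11a_498)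
          (ok_go H c11a_499))
         (.s1 2268279604 2295123150 13421773 (by decide)
          (ok_go H c11a_500)
          (ok_go H c11a_501)))
        (.s3 2705635164 2775911402 35138120 (by decide)
         (.s1 2268279604 2295123150 13421773 (by decide)
          (.s2 1915027488 1950165608 17569060 (by decide)
           (ok_go H c11a_502)
           (ok_go H c11a_503))
          (.s2 1915027488 1950165608 17569060 (by decide)
           (ok_go H c11a_504)
           (ok_go H c11a_505)))
         (.s1 2268279604 2295123150 13421773 (by decide)
          (.s2 1915027488 1950165608 17569060 (by decide)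
           (ok_go H c11a_506)
           (ok_go H c11a_507))
          (.s2 1915027488 1950165608 17569060 (by decide)
           (ok_go H c11a_508)
           (ok_go H c11a_509)))))
       (.s2 1862320310 1932596548 35138120 (by decide)
        (.s3 2705635164 2775911402 35138120 (by decide)
         (.s1 2321966696 2348810242 13421773 (by decide)
          (ok_go H c11a_510)
          (ok_go H c11a_511))
         (.s1 2321966696 2348810242 13421773 (by decide)
          (ok_go H c11a_512)
          (ok_go H c11a_513)))
        (.s3 2705635164 2775911402 35138120 (by decide)
         (.s1 2321966696 2348810242 13421773 (by decide)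
          (ok_go H c11a_514)
          (ok_go H c11a_515))
         (.s1 2321966696 2348810242 13421773 (by decide)
          (ok_go H c11a_516)
          (ok_go H c11a_517)))))))))

theorem ok11a_13 (H : Good p11a L b s) :
    Ok L b s 2254857832 107374183 2108287143 140552477 2529944569 281104953 :=
  (.s3 2389392093 2670497045 140552477 (by decide)
   (.s1 2201170741 2308544923 53687092 (by decide)
    (.s2 2038010905 2178563381 70276239 (by decide)
     (.s3 2319115855 2459668331 70276239 (by decide)
      (.s1 2174327195 2228014287 26843546 (by decide)
       (ok_go H c11a_518)
       (ok_go H c11a_519))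
      (.s1 2174327195 2228014287 26843546 (by decide)
       (.s2 2002872786 2073149024 35138120 (by decide)
        (ok_go H c11a_520)
        (ok_go H c11a_521))
       (.s2 2002872786 2073149024 35138120 (by decide)
        (ok_go H c11a_522)
        (ok_go H c11a_523))))
     (.s3 2319115855 2459668331 70276239 (by decide)
      (.s1 2174327195 2228014287 26843546 (by decide)
       (.s2 2143425262 2213701500 35138120 (by decide)
        (ok_go H c11a_524)
        (ok_go H c11a_525))
       (.s2 2143425262 2213701500 35138120 (by decide)
        (.s3 2283977736 2354253974 35138120 (by decide)
         (ok_go H c11a_526)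
         (ok_go H c11a_527))
        (.s3 2283977736 2354253974 35138120 (by decide)
         (.s1 2214592514 2241436060 13421773 (by decide)
          (ok_go H c11a_528)
          (ok_go H c11a_529))
         (ok_go H c11a_530))))
      (.s1 2174327195 2228014287 26843546 (by decide)
       (ok_go H c11a_531)
       (ok_go H c11a_532))))
    (.s2 2038010905 2178563381 70276239 (by decide)
     (.s3 2319115855 2459668331 70276239 (by decide)
      (.s1 2281701377 2335388469 26843546 (by decide)
       (ok_go H c11a_533)
       (ok_go H c11a_534))
      (.s1 2281701377 2335388469 26843546 (by decide)
       (.s2 2002872786 2073149024 35138120 (by decide)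
        (.s3 2424530212 2494806450 35138120 (by decide)
         (ok_go H c11a_535)
         (ok_go H c11a_536))
        (.s3 2424530212 2494806450 35138120 (by decide)
         (ok_go H c11a_537)
         (.s1 2268279604 2295123150 13421773 (by decide)
          (ok_go H c11a_538)
          (ok_go H c11a_539))))
       (.s2 2002872786 2073149024 35138120 (by decide)
        (.s3 2424530212 2494806450 35138120 (by decide)
         (ok_go H c11a_540)
         (ok_go H c11a_541))
        (.s3 2424530212 2494806450 35138120 (by decide)
         (ok_go H c11a_542)
         (.s1 2321966696 2348810242 13421773 (by decide)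
          (ok_go H c11a_543)
          (ok_go H c11a_544))))))
     (.s3 2319115855 2459668331 70276239 (by decide)
      (.s1 2281701377 2335388469 26843546 (by decide)
       (.s2 2143425262 2213701500 35138120 (by decide)
        (.s3 2283977736 2354253974 35138120 (by decide)
         (ok_go H c11a_545)
         (ok_go H c11a_546))
        (.s3 2283977736 2354253974 35138120 (by decide)
         (ok_go H c11a_547)
         (ok_go H c11a_548)))
       (.s2 2143425262 2213701500 35138120 (by decide)
        (ok_go H c11a_549)
        (ok_go H c11a_550)))
      (.s1 2281701377 2335388469 26843546 (by decide)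
       (.s3 2424530212 2494806450 35138120 (by decide)
        (ok_go H c11a_551)
        (ok_go H c11a_552))
       (.s3 2424530212 2494806450 35138120 (by decide)
        (ok_go H c11a_553)
        (ok_go H c11a_554))))))
   (.s1 2201170741 2308544923 53687092 (by decide)
    (.s2 2038010905 2178563381 70276239 (by decide)
     (.s3 2600220807 2740773283 70276239 (by decide)
      (.s1 2174327195 2228014287 26843546 (by decide)
       (ok_go H c11a_555)
       (.s2 2002872786 2073149024 35138120 (by decide)
        (.s3 2565082688 2635358926 35138120 (by decide)
         (ok_go H c11a_556)
         (.s1 2214592514 2241436060 13421773 (by decide)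
          (ok_go H c11a_557)
          (ok_go H c11a_558)))
        (.s3 2565082688 2635358926 35138120 (by decide)
         (ok_go H c11a_559)
         (ok_go H c11a_560))))
      (.s1 2174327195 2228014287 26843546 (by decide)
       (ok_go H c11a_561)
       (.s2 2002872786 2073149024 35138120 (by decide)
        (.s3 2705635164 2775911402 35138120 (by decide)
         (.s1 2214592514 2241436060 13421773 (by decide)
          (ok_go H c11a_562)
          (.s2 1985303726 2020441846 17569060 (by decide)
           (ok_go H c11a_563)
           (ok_go H c11a_564)))
         (ok_go H c11a_565))
        (ok_go H c11a_566))))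
     (ok_go H c11a_567))
    (.s2 2038010905 2178563381 70276239 (by decide)
     (.s3 2600220807 2740773283 70276239 (by decide)
      (.s1 2281701377 2335388469 26843546 (by decide)
       (.s2 2002872786 2073149024 35138120 (by decide)
        (.s3 2565082688 2635358926 35138120 (by decide)
         (.s1 2268279604 2295123150 13421773 (by decide)
          (ok_go H c11a_568)
          (ok_go H c11a_569))
         (.s1 2268279604 2295123150 13421773 (by decide)
          (.s2 1985303726 2020441846 17569060 (by decide)
           (ok_go H c11a_570)
           (ok_go H c11a_571))
          (.s2 1985303726 2020441846 17569060 (by decide)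
           (ok_go H c11a_572)
           (ok_go H c11a_573))))
        (.s3 2565082688 2635358926 35138120 (by decide)
         (.s1 2268279604 2295123150 13421773 (by decide)
          (ok_go H c11a_574)
          (.s2 2055579964 2090718084 17569060 (by decide)
           (ok_go H c11a_575)
           (ok_go H c11a_576)))
         (.s2 2055579964 2090718084 17569060 (by decide)
          (.s1 2268279604 2295123150 13421773 (by decide)
           (ok_go H c11a_577)
           (ok_go H c11a_578))
          (ok_go H c11a_579))))
       (.s2 2002872786 2073149024 35138120 (by decide)
        (.s3 2565082688 2635358926 35138120 (by decide)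
         (.s1 2321966696 2348810242 13421773 (by decide)
          (.s2 1985303726 2020441846 17569060 (by decide)
           (ok_go H c11a_580)
           (ok_go H c11a_581))
          (ok_go H c11a_582))
         (.s1 2321966696 2348810242 13421773 (by decide)
          (.s2 1985303726 2020441846 17569060 (by decide)
           (ok_go H c11a_583)
           (ok_go H c11a_584))
          (.s2 1985303726 2020441846 17569060 (by decide)
           (ok_go H c11a_585)
           (ok_go H c11a_586))))
        (.s3 2565082688 2635358926 35138120 (by decide)
         (.s1 2321966696 2348810242 13421773 (by decide)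
          (.s2 2055579964 2090718084 17569060 (by decide)
           (.s3 2547513628 2582651748 17569060 (by decide)
            (ok_go H c11a_587)
            (ok_go H c11a_588))
           (ok_go H c11a_589))
          (.s2 2055579964 2090718084 17569060 (by decide)
           (ok_go H c11a_590)
           (ok_go H c11a_591)))
         (.s2 2055579964 2090718084 17569060 (by decide)
          (.s1 2321966696 2348810242 13421773 (by decide)
           (ok_go H c11a_592)
           (ok_go H c11a_593))
          (ok_go H c11a_594)))))
      (.s1 2281701377 2335388469 26843546 (by decide)
       (.s2 2002872786 2073149024 35138120 (by decide)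
        (.s3 2705635164 2775911402 35138120 (by decide)
         (.s1 2268279604 2295123150 13421773 (by decide)
          (.s2 1985303726 2020441846 17569060 (by decide)
           (ok_go H c11a_595)
           (ok_go H c11a_596))
          (.s2 1985303726 2020441846 17569060 (by decide)
           (ok_go H c11a_597)
           (ok_go H c11a_598)))
         (.s2 1985303726 2020441846 17569060 (by decide)
          (.s1 2268279604 2295123150 13421773 (by decide)
           (ok_go H c11a_599)
           (ok_go H c11a_600))
          (ok_go H c11a_601)))
        (ok_go H c11a_602))
       (.s2 2002872786 2073149024 35138120 (by decide)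
        (.s3 2705635164 2775911402 35138120 (by decide)
         (.s1 2321966696 2348810242 13421773 (by decide)
          (.s2 1985303726 2020441846 17569060 (by decide)
           (ok_go H c11a_603)
           (ok_go H c11a_604))
          (ok_go H c11a_605))
         (ok_go H c11a_606))
        (ok_go H c11a_607))))
     (ok_go H c11a_608))))

theorem ok11a_14 (H : Good p11a L b s) :
    Ok L b s 2254857832 107374183 1686629715 562209905 3092154473 281104953 :=
  (.s2 1405524763 1967734667 281104953 (by decide)
   (.s2 1264972287 1546077239 140552477 (by decide)
    (.s3 2951601997 3232706949 140552477 (by decide)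
     (.s1 2201170741 2308544923 53687092 (by decide)
      (.s2 1194696049 1335248525 70276239 (by decide)
       (.s3 2881325759 3021878235 70276239 (by decide)
        (ok_go H c11a_609)
        (ok_go H c11a_610))
       (.s3 2881325759 3021878235 70276239 (by decide)
        (ok_go H c11a_611)
        (ok_go H c11a_612)))
      (.s2 1194696049 1335248525 70276239 (by decide)
       (.s3 2881325759 3021878235 70276239 (by decide)
        (.s1 2281701377 2335388469 26843546 (by decide)
         (ok_go H c11a_613)
         (ok_go H c11a_614))
        (ok_go H c11a_615))
       (.s3 2881325759 3021878235 70276239 (by decide)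
        (.s1 2281701377 2335388469 26843546 (by decide)
         (.s2 1300110406 1370386644 35138120 (by decide)
          (ok_go H c11a_616)
          (ok_go H c11a_617))
         (.s3 2846187640 2916463878 35138120 (by decide)
          (ok_go H c11a_618)
          (ok_go H c11a_619)))
        (ok_go H c11a_620))))
     (.s1 2201170741 2308544923 53687092 (by decide)
      (ok_go H c11a_621)
      (ok_go H c11a_622)))
    (.s3 2951601997 3232706949 140552477 (by decide)
     (.s1 2201170741 2308544923 53687092 (by decide)
      (.s2 1475801001 1616353477 70276239 (by decide)
       (.s3 2881325759 3021878235 70276239 (by decide)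
        (ok_go H c11a_623)
        (ok_go H c11a_624))
       (.s3 2881325759 3021878235 70276239 (by decide)
        (ok_go H c11a_625)
        (ok_go H c11a_626)))
      (.s2 1475801001 1616353477 70276239 (by decide)
       (.s3 2881325759 3021878235 70276239 (by decide)
        (.s1 2281701377 2335388469 26843546 (by decide)
         (.s2 1440662882 1510939120 35138120 (by decide)
          (ok_go H c11a_627)
          (ok_go H c11a_628))
         (.s3 2846187640 2916463878 35138120 (by decide)
          (ok_go H c11a_629)
          (ok_go H c11a_630)))
        (ok_go H c11a_631))
       (.s3 2881325759 3021878235 70276239 (by decide)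
        (.s1 2281701377 2335388469 26843546 (by decide)
         (ok_go H c11a_632)
         (.s3 2846187640 2916463878 35138120 (by decide)
          (ok_go H c11a_633)
          (ok_go H c11a_634)))
        (ok_go H c11a_635))))
     (.s1 2201170741 2308544923 53687092 (by decide)
      (.s2 1475801001 1616353477 70276239 (by decide)
       (ok_go H c11a_636)
       (ok_go H c11a_637))
      (.s2 1475801001 1616353477 70276239 (by decide)
       (ok_go H c11a_638)
       (ok_go H c11a_639)))))
   (.s2 1827182191 2108287143 140552477 (by decide)
    (.s3 2951601997 3232706949 140552477 (by decide)
     (.s1 2201170741 2308544923 53687092 (by decide)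
      (.s3 2881325759 3021878235 70276239 (by decide)
       (.s2 1756905953 1897458429 70276239 (by decide)
        (.s1 2174327195 2228014287 26843546 (by decide)
         (ok_go H c11a_640)
         (.s2 1721767834 1792044072 35138120 (by decide)
          (ok_go H c11a_641)
          (ok_go H c11a_642)))
        (.s1 2174327195 2228014287 26843546 (by decide)
         (ok_go H c11a_643)
         (.s2 1862320310 1932596548 35138120 (by decide)
          (.s3 2846187640 2916463878 35138120 (by decide)
           (ok_go H c11a_644)
           (ok_go H c11a_645))
          (ok_go H c11a_646))))
       (.s2 1756905953 1897458429 70276239 (by decide)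
        (ok_go H c11a_647)
        (ok_go H c11a_648)))
      (.s2 1756905953 1897458429 70276239 (by decide)
       (.s3 2881325759 3021878235 70276239 (by decide)
        (.s1 2281701377 2335388469 26843546 (by decide)
         (.s2 1721767834 1792044072 35138120 (by decide)
          (ok_go H c11a_649)
          (.s3 2846187640 2916463878 35138120 (by decide)
           (ok_go H c11a_650)
           (ok_go H c11a_651)))
         (.s3 2846187640 2916463878 35138120 (by decide)
          (ok_go H c11a_652)
          (ok_go H c11a_653)))
        (.s1 2281701377 2335388469 26843546 (by decide)
         (ok_go H c11a_654)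
         (ok_go H c11a_655)))
       (.s3 2881325759 3021878235 70276239 (by decide)
        (.s3 2846187640 2916463878 35138120 (by decide)
         (.s1 2281701377 2335388469 26843546 (by decide)
          (.s2 1862320310 1932596548 35138120 (by decide)
           (.s1 2268279604 2295123150 13421773 (by decide)
            (ok_go H c11a_656)
            (ok_go H c11a_657))
           (.s1 2268279604 2295123150 13421773 (by decide)
            (ok_go H c11a_658)
            (ok_go H c11a_659)))
          (.s2 1862320310 1932596548 35138120 (by decide)
           (ok_go H c11a_660)
           (.s1 2321966696 2348810242 13421773 (by decide)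
            (ok_go H c11a_661)
            (ok_go H c11a_662))))
         (.s1 2281701377 2335388469 26843546 (by decide)
          (ok_go H c11a_663)
          (ok_go H c11a_664)))
        (ok_go H c11a_665))))
     (.s1 2201170741 2308544923 53687092 (by decide)
      (ok_go H c11a_666)
      (ok_go H c11a_667)))
    (ok_go H c11a_668)))

theorem ok11a_15 (H : Good p11a L b s) :
    Ok L b s 2469606196 107374183 1686629715 562209905 2529944569 281104953 :=
  (.s2 1405524763 1967734667 281104953 (by decide)
   (.s2 1264972287 1546077239 140552477 (by decide)
    (.s3 2389392093 2670497045 140552477 (by decide)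
     (ok_go H c11a_669)
     (.s1 2415919105 2523293287 53687092 (by decide)
      (.s2 1194696049 1335248525 70276239 (by decide)
       (ok_go H c11a_670)
       (ok_go H c11a_671))
      (.s2 1194696049 1335248525 70276239 (by decide)
       (ok_go H c11a_672)
       (ok_go H c11a_673))))
    (.s3 2389392093 2670497045 140552477 (by decide)
     (ok_go H c11a_674)
     (.s1 2415919105 2523293287 53687092 (by decide)
      (.s2 1475801001 1616353477 70276239 (by decide)
       (.s3 2600220807 2740773283 70276239 (by decide)
        (ok_go H c11a_675)
        (.s1 2389075559 2442762651 26843546 (by decide)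
         (ok_go H c11a_676)
         (ok_go H c11a_677)))
       (.s3 2600220807 2740773283 70276239 (by decide)
        (.s1 2389075559 2442762651 26843546 (by decide)
         (ok_go H c11a_678)
         (ok_go H c11a_679))
        (.s1 2389075559 2442762651 26843546 (by decide)
         (ok_go H c11a_680)
         (ok_go H c11a_681))))
      (.s2 1475801001 1616353477 70276239 (by decide)
       (.s3 2600220807 2740773283 70276239 (by decide)
        (ok_go H c11a_682)
        (ok_go H c11a_683))
       (.s3 2600220807 2740773283 70276239 (by decide)
        (ok_go H c11a_684)
        (ok_go H c11a_685))))))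
   (.s2 1827182191 2108287143 140552477 (by decide)
    (.s3 2389392093 2670497045 140552477 (by decide)
     (.s1 2415919105 2523293287 53687092 (by decide)
      (.s2 1756905953 1897458429 70276239 (by decide)
       (ok_go H c11a_686)
       (.s3 2319115855 2459668331 70276239 (by decide)
        (ok_go H c11a_687)
        (.s1 2389075559 2442762651 26843546 (by decide)
         (.s2 1862320310 1932596548 35138120 (by decide)
          (ok_go H c11a_688)
          (ok_go H c11a_689))
         (ok_go H c11a_690))))
      (ok_go H c11a_691))
     (.s1 2415919105 2523293287 53687092 (by decide)
      (.s3 2600220807 2740773283 70276239 (by decide)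
       (.s2 1756905953 1897458429 70276239 (by decide)
        (.s1 2389075559 2442762651 26843546 (by decide)
         (.s2 1721767834 1792044072 35138120 (by decide)
          (ok_go H c11a_692)
          (ok_go H c11a_693))
         (ok_go H c11a_694))
        (.s1 2389075559 2442762651 26843546 (by decide)
         (.s2 1862320310 1932596548 35138120 (by decide)
          (.s3 2565082688 2635358926 35138120 (by decide)
           (ok_go H c11a_695)
           (ok_go H c11a_696))
          (.s3 2565082688 2635358926 35138120 (by decide)
           (ok_go H c11a_697)
           (ok_go H c11a_698)))
         (.s2 1862320310 1932596548 35138120 (by decide)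
          (ok_go H c11a_699)
          (ok_go H c11a_700))))
       (.s2 1756905953 1897458429 70276239 (by decide)
        (.s1 2389075559 2442762651 26843546 (by decide)
         (.s2 1721767834 1792044072 35138120 (by decide)
          (ok_go H c11a_701)
          (ok_go H c11a_702))
         (ok_go H c11a_703))
        (.s1 2389075559 2442762651 26843546 (by decide)
         (.s2 1862320310 1932596548 35138120 (by decide)
          (.s3 2705635164 2775911402 35138120 (by decide)
           (ok_go H c11a_704)
           (ok_go H c11a_705))
          (.s3 2705635164 2775911402 35138120 (by decide)
           (ok_go H c11a_706)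
           (ok_go H c11a_707)))
         (ok_go H c11a_708))))
      (.s3 2600220807 2740773283 70276239 (by decide)
       (ok_go H c11a_709)
       (.s2 1756905953 1897458429 70276239 (by decide)
        (ok_go H c11a_710)
        (ok_go H c11a_711)))))
    (.s3 2389392093 2670497045 140552477 (by decide)
     (.s1 2415919105 2523293287 53687092 (by decide)
      (.s2 2038010905 2178563381 70276239 (by decide)
       (.s3 2319115855 2459668331 70276239 (by decide)
        (ok_go H c11a_712)
        (.s1 2389075559 2442762651 26843546 (by decide)
         (.s2 2002872786 2073149024 35138120 (by decide)
          (ok_go H c11a_713)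
          (ok_go H c11a_714))
         (ok_go H c11a_715)))
       (.s3 2319115855 2459668331 70276239 (by decide)
        (.s1 2389075559 2442762651 26843546 (by decide)
         (ok_go H c11a_716)
         (ok_go H c11a_717))
        (ok_go H c11a_718)))
      (.s2 2038010905 2178563381 70276239 (by decide)
       (ok_go H c11a_719)
       (ok_go H c11a_720)))
     (.s1 2415919105 2523293287 53687092 (by decide)
      (.s3 2600220807 2740773283 70276239 (by decide)
       (.s2 2038010905 2178563381 70276239 (by decide)
        (.s1 2389075559 2442762651 26843546 (by decide)
         (.s2 2002872786 2073149024 35138120 (by decide)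
          (.s3 2565082688 2635358926 35138120 (by decide)
           (ok_go H c11a_721)
           (ok_go H c11a_722))
          (.s3 2565082688 2635358926 35138120 (by decide)
           (ok_go H c11a_723)
           (ok_go H c11a_724)))
         (ok_go H c11a_725))
        (ok_go H c11a_726))
       (.s2 2038010905 2178563381 70276239 (by decide)
        (.s1 2389075559 2442762651 26843546 (by decide)
         (.s2 2002872786 2073149024 35138120 (by decide)
          (.s3 2705635164 2775911402 35138120 (by decide)
           (ok_go H c11a_727)
           (ok_go H c11a_728))
          (ok_go H c11a_729))
         (ok_go H c11a_730))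
        (ok_go H c11a_731)))
      (ok_go H c11a_732)))))

theorem ok11a_16 (H : Good p11a L b s) :
    Ok L b s 2469606196 107374183 1686629715 562209905 3092154473 281104953 :=
  (.s2 1405524763 1967734667 281104953 (by decide)
   (.s2 1264972287 1546077239 140552477 (by decide)
    (.s3 2951601997 3232706949 140552477 (by decide)
     (.s1 2415919105 2523293287 53687092 (by decide)
      (.s2 1194696049 1335248525 70276239 (by decide)
       (.s3 2881325759 3021878235 70276239 (by decide)
        (ok_go H c11a_733)
        (ok_go H c11a_734))
       (.s3 2881325759 3021878235 70276239 (by decide)
        (.s1 2389075559 2442762651 26843546 (by decide)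
         (ok_go H c11a_735)
         (ok_go H c11a_736))
        (ok_go H c11a_737)))
      (ok_go H c11a_738))
     (.s1 2415919105 2523293287 53687092 (by decide)
      (ok_go H c11a_739)
      (ok_go H c11a_740)))
    (.s3 2951601997 3232706949 140552477 (by decide)
     (.s1 2415919105 2523293287 53687092 (by decide)
      (.s2 1475801001 1616353477 70276239 (by decide)
       (.s3 2881325759 3021878235 70276239 (by decide)
        (.s1 2389075559 2442762651 26843546 (by decide)
         (.s3 2846187640 2916463878 35138120 (by decide)
          (ok_go H c11a_741)
          (ok_go H c11a_742))
         (ok_go H c11a_743))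
        (ok_go H c11a_744))
       (.s3 2881325759 3021878235 70276239 (by decide)
        (.s1 2389075559 2442762651 26843546 (by decide)
         (.s3 2846187640 2916463878 35138120 (by decide)
          (ok_go H c11a_745)
          (ok_go H c11a_746))
         (ok_go H c11a_747))
        (ok_go H c11a_748)))
      (.s2 1475801001 1616353477 70276239 (by decide)
       (ok_go H c11a_749)
       (ok_go H c11a_750)))
     (.s1 2415919105 2523293287 53687092 (by decide)
      (ok_go H c11a_751)
      (ok_go H c11a_752))))
   (.s3 2951601997 3232706949 140552477 (by decide)
    (.s2 1827182191 2108287143 140552477 (by decide)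
     (.s1 2415919105 2523293287 53687092 (by decide)
      (.s2 1756905953 1897458429 70276239 (by decide)
       (.s3 2881325759 3021878235 70276239 (by decide)
        (.s1 2389075559 2442762651 26843546 (by decide)
         (.s3 2846187640 2916463878 35138120 (by decide)
          (ok_go H c11a_753)
          (ok_go H c11a_754))
         (ok_go H c11a_755))
        (ok_go H c11a_756))
       (.s3 2881325759 3021878235 70276239 (by decide)
        (.s1 2389075559 2442762651 26843546 (by decide)
         (.s3 2846187640 2916463878 35138120 (by decide)
          (.s2 1862320310 1932596548 35138120 (by decide)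
           (ok_go H c11a_757)
           (ok_go H c11a_758))
          (ok_go H c11a_759))
         (ok_go H c11a_760))
        (ok_go H c11a_761)))
      (.s2 1756905953 1897458429 70276239 (by decide)
       (ok_go H c11a_762)
       (ok_go H c11a_763)))
     (ok_go H c11a_764))
    (.s2 1827182191 2108287143 140552477 (by decide)
     (.s1 2415919105 2523293287 53687092 (by decide)
      (ok_go H c11a_765)
      (ok_go H c11a_766))
     (ok_go H c11a_767))))

theorem ok11a_17 (H : Good p11a L b s) :
    Ok L b s 2362232014 214748365 1124419810 1124419810 3935469331 562209905 :=
  (.s2 562209905 1686629715 562209905 (by decide)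
   (.s1 2254857832 2469606196 107374183 (by decide)
    (.s3 3654364379 4216574283 281104953 (by decide)
     (.s2 281104953 843314857 281104953 (by decide)
      (.s2 140552477 421657429 140552477 (by decide)
       (ok_go H c11a_768)
       (ok_go H c11a_769))
      (.s2 702762381 983867333 140552477 (by decide)
       (ok_go H c11a_770)
       (ok_go H c11a_771)))
     (.s2 281104953 843314857 281104953 (by decide)
      (.s2 140552477 421657429 140552477 (by decide)
       (ok_go H c11a_772)
       (ok_go H c11a_773))
      (.s2 702762381 983867333 140552477 (by decide)
       (ok_go H c11a_774)
       (ok_go H c11a_775))))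
    (.s3 3654364379 4216574283 281104953 (by decide)
     (.s2 281104953 843314857 281104953 (by decide)
      (.s2 140552477 421657429 140552477 (by decide)
       (.s3 3513811903 3794916855 140552477 (by decide)
        (ok_go H c11a_776)
        (.s1 2415919105 2523293287 53687092 (by decide)
         (ok_go H c11a_777)
         (ok_go H c11a_778)))
       (.s3 3513811903 3794916855 140552477 (by decide)
        (ok_go H c11a_779)
        (.s1 2415919105 2523293287 53687092 (by decide)
         (ok_go H c11a_780)
         (ok_go H c11a_781))))
      (.s2 702762381 983867333 140552477 (by decide)
       (.s3 3513811903 3794916855 140552477 (by decide)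
        (ok_go H c11a_782)
        (.s1 2415919105 2523293287 53687092 (by decide)
         (ok_go H c11a_783)
         (.s2 632486143 773038619 70276239 (by decide)
          (ok_go H c11a_784)
          (ok_go H c11a_785))))
       (.s3 3513811903 3794916855 140552477 (by decide)
        (.s1 2415919105 2523293287 53687092 (by decide)
         (ok_go H c11a_786)
         (ok_go H c11a_787))
        (.s1 2415919105 2523293287 53687092 (by decide)
         (ok_go H c11a_788)
         (.s2 913591095 1054143571 70276239 (by decide)
          (ok_go H c11a_789)
          (ok_go H c11a_790))))))
     (.s2 281104953 843314857 281104953 (by decide)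
      (.s2 140552477 421657429 140552477 (by decide)
       (.s3 4076021807 4357126759 140552477 (by decide)
        (.s2 70276239 210828715 70276239 (by decide)
         (ok_go H c11a_791)
         (ok_go H c11a_792))
        (.s1 2415919105 2523293287 53687092 (by decide)
         (ok_go H c11a_793)
         (ok_go H c11a_794)))
       (.s3 4076021807 4357126759 140552477 (by decide)
        (.s1 2415919105 2523293287 53687092 (by decide)
         (ok_go H c11a_795)
         (.s2 351381191 491933667 70276239 (by decide)
          (ok_go H c11a_796)
          (ok_go H c11a_797)))
        (.s1 2415919105 2523293287 53687092 (by decide)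
         (ok_go H c11a_798)
         (ok_go H c11a_799))))
      (.s2 702762381 983867333 140552477 (by decide)
       (.s3 4076021807 4357126759 140552477 (by decide)
        (.s1 2415919105 2523293287 53687092 (by decide)
         (ok_go H c11a_800)
         (.s2 632486143 773038619 70276239 (by decide)
          (ok_go H c11a_801)
          (ok_go H c11a_802)))
        (.s1 2415919105 2523293287 53687092 (by decide)
         (ok_go H c11a_803)
         (ok_go H c11a_804)))
       (.s3 4076021807 4357126759 140552477 (by decide)
        (.s1 2415919105 2523293287 53687092 (by decide)
         (ok_go H c11a_805)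
         (.s2 913591095 1054143571 70276239 (by decide)
          (ok_go H c11a_806)
          (.s3 4005745569 4146298045 70276239 (by decide)
           (ok_go H c11a_807)
           (ok_go H c11a_808))))
        (.s1 2415919105 2523293287 53687092 (by decide)
         (ok_go H c11a_809)
         (.s2 913591095 1054143571 70276239 (by decide)
          (ok_go H c11a_810)
          (ok_go H c11a_811))))))))
   (.s1 2254857832 2469606196 107374183 (by decide)
    (.s3 3654364379 4216574283 281104953 (by decide)
     (.s2 1405524763 1967734667 281104953 (by decide)
      (.s2 1264972287 1546077239 140552477 (by decide)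
       (.s3 3513811903 3794916855 140552477 (by decide)
        (ok_go H c11a_812)
        (ok_go H c11a_813))
       (.s3 3513811903 3794916855 140552477 (by decide)
        (ok_go H c11a_814)
        (ok_go H c11a_815)))
      (ok_go H c11a_816))
     (ok_go H c11a_817))
    (.s3 3654364379 4216574283 281104953 (by decide)
     (.s2 1405524763 1967734667 281104953 (by decide)
      (.s2 1264972287 1546077239 140552477 (by decide)
       (.s3 3513811903 3794916855 140552477 (by decide)
        (.s1 2415919105 2523293287 53687092 (by decide)
         (ok_go H c11a_818)
         (ok_go H c11a_819))
        (.s1 2415919105 2523293287 53687092 (by decide)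
         (ok_go H c11a_820)
         (.s2 1194696049 1335248525 70276239 (by decide)
          (.s3 3724640617 3865193093 70276239 (by decide)
           (ok_go H c11a_821)
           (ok_go H c11a_822))
          (.s3 3724640617 3865193093 70276239 (by decide)
           (ok_go H c11a_823)
           (ok_go H c11a_824)))))
       (.s3 3513811903 3794916855 140552477 (by decide)
        (.s1 2415919105 2523293287 53687092 (by decide)
         (ok_go H c11a_825)
         (ok_go H c11a_826))
        (.s2 1475801001 1616353477 70276239 (by decide)
         (.s1 2415919105 2523293287 53687092 (by decide)
          (ok_go H c11a_827)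
          (ok_go H c11a_828))
         (ok_go H c11a_829))))
      (ok_go H c11a_830))
     (.s2 1405524763 1967734667 281104953 (by decide)
      (.s2 1264972287 1546077239 140552477 (by decide)
       (.s3 4076021807 4357126759 140552477 (by decide)
        (.s1 2415919105 2523293287 53687092 (by decide)
         (ok_go H c11a_831)
         (.s2 1194696049 1335248525 70276239 (by decide)
          (.s3 4005745569 4146298045 70276239 (by decide)
           (ok_go H c11a_832)
           (ok_go H c11a_833))
          (.s3 4005745569 4146298045 70276239 (by decide)
           (ok_go H c11a_834)
           (ok_go H c11a_835))))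
        (ok_go H c11a_836))
       (ok_go H c11a_837))
      (ok_go H c11a_838)))))

theorem ok11a_18 (H : Good p11a L b s) :
    Ok L b s 2147483649 429496730 1 2248839619 5622099044 1124419810 :=
  (.s2 (-1124419808) 1124419810 1124419810 (by decide)
   (.s1 1932735284 2362232014 214748365 (by decide)
    (.s3 5059889139 6184308949 562209905 (by decide)
     (.s2 (-1686629713) (-562209903) 562209905 (by decide)
      (.s1 1825361102 2040109466 107374183 (by decide)
       (.s3 4778784187 5340994091 281104953 (by decide)
        (ok_go H c11a_839)
        (ok_go H c11a_840))
       (.s3 4778784187 5340994091 281104953 (by decide)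
        (ok_go H c11a_841)
        (ok_go H c11a_842)))
      (.s1 1825361102 2040109466 107374183 (by decide)
       (.s3 4778784187 5340994091 281104953 (by decide)
        (.s2 (-843314855) (-281104951) 281104953 (by decide)
         (ok_go H c11a_843)
         (ok_go H c11a_844))
        (.s2 (-843314855) (-281104951) 281104953 (by decide)
         (ok_go H c11a_845)
         (ok_go H c11a_846)))
       (.s3 4778784187 5340994091 281104953 (by decide)
        (.s2 (-843314855) (-281104951) 281104953 (by decide)
         (.s2 (-983867331) (-702762379) 140552477 (by decide)
          (ok_go H c11a_847)
          (ok_go H c11a_848))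
         (.s2 (-421657427) (-140552475) 140552477 (by decide)
          (ok_go H c11a_849)
          (ok_go H c11a_850)))
        (.s2 (-843314855) (-281104951) 281104953 (by decide)
         (ok_go H c11a_851)
         (ok_go H c11a_852)))))
     (.s2 (-1686629713) (-562209903) 562209905 (by decide)
      (.s1 1825361102 2040109466 107374183 (by decide)
       (.s3 5903203997 6465413901 281104953 (by decide)
        (.s2 (-1967734665) (-1405524761) 281104953 (by decide)
         (ok_go H c11a_853)
         (ok_go H c11a_854))
        (.s2 (-1967734665) (-1405524761) 281104953 (by decide)
         (ok_go H c11a_855)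
         (ok_go H c11a_856)))
       (.s3 5903203997 6465413901 281104953 (by decide)
        (ok_go H c11a_857)
        (ok_go H c11a_858)))
      (.s1 1825361102 2040109466 107374183 (by decide)
       (.s3 5903203997 6465413901 281104953 (by decide)
        (.s2 (-843314855) (-281104951) 281104953 (by decide)
         (ok_go H c11a_859)
         (ok_go H c11a_860))
        (.s2 (-843314855) (-281104951) 281104953 (by decide)
         (ok_go H c11a_861)
         (ok_go H c11a_862)))
       (.s3 5903203997 6465413901 281104953 (by decide)
        (.s2 (-843314855) (-281104951) 281104953 (by decide)
         (ok_go H c11a_863)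
         (ok_go H c11a_864))
        (ok_go H c11a_865)))))
    (.s3 5059889139 6184308949 562209905 (by decide)
     (.s2 (-1686629713) (-562209903) 562209905 (by decide)
      (.s1 2254857832 2469606196 107374183 (by decide)
       (.s3 4778784187 5340994091 281104953 (by decide)
        (.s2 (-1967734665) (-1405524761) 281104953 (by decide)
         (ok_go H c11a_866)
         (ok_go H c11a_867))
        (.s2 (-1967734665) (-1405524761) 281104953 (by decide)
         (ok_go H c11a_868)
         (ok_go H c11a_869)))
       (.s3 4778784187 5340994091 281104953 (by decide)
        (.s2 (-1967734665) (-1405524761) 281104953 (by decide)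
         (ok_go H c11a_870)
         (ok_go H c11a_871))
        (.s2 (-1967734665) (-1405524761) 281104953 (by decide)
         (ok_go H c11a_872)
         (ok_go H c11a_873))))
      (.s1 2254857832 2469606196 107374183 (by decide)
       (.s3 4778784187 5340994091 281104953 (by decide)
        (.s2 (-843314855) (-281104951) 281104953 (by decide)
         (.s2 (-983867331) (-702762379) 140552477 (by decide)
          (ok_go H c11a_874)
          (ok_go H c11a_875))
         (.s2 (-421657427) (-140552475) 140552477 (by decide)
          (ok_go H c11a_876)
          (ok_go H c11a_877)))
        (.s2 (-843314855) (-281104951) 281104953 (by decide)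
         (ok_go H c11a_878)
         (ok_go H c11a_879)))
       (.s3 4778784187 5340994091 281104953 (by decide)
        (.s2 (-843314855) (-281104951) 281104953 (by decide)
         (.s2 (-983867331) (-702762379) 140552477 (by decide)
          (ok_go H c11a_880)
          (ok_go H c11a_881))
         (.s2 (-421657427) (-140552475) 140552477 (by decide)
          (.s3 4638231711 4919336663 140552477 (by decide)
           (ok_go H c11a_882)
           (ok_go H c11a_883))
          (.s3 4638231711 4919336663 140552477 (by decide)
           (ok_go H c11a_884)
           (ok_go H c11a_885))))
        (.s2 (-843314855) (-281104951) 281104953 (by decide)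
         (ok_go H c11a_886)
         (ok_go H c11a_887)))))
     (.s2 (-1686629713) (-562209903) 562209905 (by decide)
      (.s1 2254857832 2469606196 107374183 (by decide)
       (.s3 5903203997 6465413901 281104953 (by decide)
        (ok_go H c11a_888)
        (ok_go H c11a_889))
       (.s3 5903203997 6465413901 281104953 (by decide)
        (ok_go H c11a_890)
        (ok_go H c11a_891)))
      (.s1 2254857832 2469606196 107374183 (by decide)
       (.s3 5903203997 6465413901 281104953 (by decide)
        (.s2 (-843314855) (-281104951) 281104953 (by decide)
         (ok_go H c11a_892)
         (ok_go H c11a_893))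
        (ok_go H c11a_894))
       (.s3 5903203997 6465413901 281104953 (by decide)
        (ok_go H c11a_895)
        (ok_go H c11a_896))))))
   (.s1 1932735284 2362232014 214748365 (by decide)
    (.s3 5059889139 6184308949 562209905 (by decide)
     (.s2 562209905 1686629715 562209905 (by decide)
      (.s1 1825361102 2040109466 107374183 (by decide)
       (.s3 4778784187 5340994091 281104953 (by decide)
        (ok_go H c11a_897)
        (ok_go H c11a_898))
       (.s3 4778784187 5340994091 281104953 (by decide)
        (.s2 281104953 843314857 281104953 (by decide)
         (ok_go H c11a_899)
         (ok_go H c11a_900))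
        (ok_go H c11a_901)))
      (ok_go H c11a_902))
     (.s2 562209905 1686629715 562209905 (by decide)
      (.s1 1825361102 2040109466 107374183 (by decide)
       (ok_go H c11a_903)
       (ok_go H c11a_904))
      (ok_go H c11a_905)))
    (.s3 5059889139 6184308949 562209905 (by decide)
     (.s2 562209905 1686629715 562209905 (by decide)
      (.s1 2254857832 2469606196 107374183 (by decide)
       (.s3 4778784187 5340994091 281104953 (by decide)
        (.s2 281104953 843314857 281104953 (by decide)
         (.s2 140552477 421657429 140552477 (by decide)
          (ok_go H c11a_906)
          (ok_go H c11a_907))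
         (.s2 702762381 983867333 140552477 (by decide)
          (ok_go H c11a_908)
          (ok_go H c11a_909)))
        (.s2 281104953 843314857 281104953 (by decide)
         (ok_go H c11a_910)
         (ok_go H c11a_911)))
       (.s3 4778784187 5340994091 281104953 (by decide)
        (.s2 281104953 843314857 281104953 (by decide)
         (.s2 140552477 421657429 140552477 (by decide)
          (.s3 4638231711 4919336663 140552477 (by decide)
           (ok_go H c11a_912)
           (ok_go H c11a_913))
          (.s3 4638231711 4919336663 140552477 (by decide)
           (ok_go H c11a_914)
           (ok_go H c11a_915)))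
         (.s2 702762381 983867333 140552477 (by decide)
          (.s3 4638231711 4919336663 140552477 (by decide)
           (ok_go H c11a_916)
           (ok_go H c11a_917))
          (ok_go H c11a_918)))
        (.s2 281104953 843314857 281104953 (by decide)
         (ok_go H c11a_919)
         (ok_go H c11a_920))))
      (ok_go H c11a_921))
     (.s2 562209905 1686629715 562209905 (by decide)
      (.s1 2254857832 2469606196 107374183 (by decide)
       (ok_go H c11a_922)
       (ok_go H c11a_923))
      (ok_go H c11a_924)))))

theorem ok11a_19 (H : Good p11a L b s) :
    Ok L b s 3435973837 858993460 (-4497679235) 2248839619 4497679235 2248839619 :=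
  (.s1 3006477107 3865470567 429496730 (by decide)
   (.s3 3373259426 5622099044 1124419810 (by decide)
    (ok_go H c11a_925)
    (.s2 (-5622099044) (-3373259426) 1124419810 (by decide)
     (.s1 2791728742 3221225472 214748365 (by decide)
      (.s3 5059889139 6184308949 562209905 (by decide)
       (ok_go H c11a_926)
       (.s2 (-6184308949) (-5059889139) 562209905 (by decide)
        (.s2 (-6465413901) (-5903203997) 281104953 (by decide)
         (ok_go H c11a_927)
         (ok_go H c11a_928))
        (ok_go H c11a_929)))
      (.s3 5059889139 6184308949 562209905 (by decide)
       (ok_go H c11a_930)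
       (.s2 (-6184308949) (-5059889139) 562209905 (by decide)
        (.s2 (-6465413901) (-5903203997) 281104953 (by decide)
         (ok_go H c11a_931)
         (ok_go H c11a_932))
        (ok_go H c11a_933))))
     (.s1 2791728742 3221225472 214748365 (by decide)
      (.s3 5059889139 6184308949 562209905 (by decide)
       (.s2 (-3935469331) (-2811049521) 562209905 (by decide)
        (ok_go H c11a_934)
        (.s2 (-3092154473) (-2529944569) 281104953 (by decide)
         (.s3 4778784187 5340994091 281104953 (by decide)
          (ok_go H c11a_935)
          (.s2 (-3232706949) (-2951601997) 140552477 (by decide)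
           (ok_go H c11a_936)
           (ok_go H c11a_937)))
         (.s3 4778784187 5340994091 281104953 (by decide)
          (.s1 2684354560 2899102924 107374183 (by decide)
           (.s2 (-2670497045) (-2389392093) 140552477 (by decide)
            (ok_go H c11a_938)
            (ok_go H c11a_939))
           (.s2 (-2670497045) (-2389392093) 140552477 (by decide)
            (ok_go H c11a_940)
            (.s3 4638231711 4919336663 140552477 (by decide)
             (.s1 2845415833 2952790015 53687092 (by decide)
              (.s2 (-2459668331) (-2319115855) 70276239 (by decide)
               (ok_go H c11a_941)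
               (ok_go H c11a_942))
              (ok_go H c11a_943))
             (ok_go H c11a_944))))
          (.s1 2684354560 2899102924 107374183 (by decide)
           (.s2 (-2670497045) (-2389392093) 140552477 (by decide)
            (ok_go H c11a_945)
            (ok_go H c11a_946))
           (.s2 (-2670497045) (-2389392093) 140552477 (by decide)
            (ok_go H c11a_947)
            (ok_go H c11a_948))))))
       (.s2 (-3935469331) (-2811049521) 562209905 (by decide)
        (ok_go H c11a_949)
        (.s1 2684354560 2899102924 107374183 (by decide)
         (.s3 5903203997 6465413901 281104953 (by decide)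
          (ok_go H c11a_950)
          (ok_go H c11a_951))
         (ok_go H c11a_952))))
      (.s3 5059889139 6184308949 562209905 (by decide)
       (.s2 (-3935469331) (-2811049521) 562209905 (by decide)
        (ok_go H c11a_953)
        (.s2 (-3092154473) (-2529944569) 281104953 (by decide)
         (ok_go H c11a_954)
         (ok_go H c11a_955)))
       (ok_go H c11a_956)))))
   (.s3 3373259426 5622099044 1124419810 (by decide)
    (ok_go H c11a_957)
    (.s2 (-5622099044) (-3373259426) 1124419810 (by decide)
     (.s1 3650722202 4080218932 214748365 (by decide)
      (.s3 5059889139 6184308949 562209905 (by decide)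
       (ok_go H c11a_958)
       (.s2 (-6184308949) (-5059889139) 562209905 (by decide)
        (.s2 (-6465413901) (-5903203997) 281104953 (by decide)
         (ok_go H c11a_959)
         (ok_go H c11a_960))
        (ok_go H c11a_961)))
      (.s1 3972844750 4187593114 107374183 (by decide)
       (ok_go H c11a_962)
       (ok_go H c11a_963)))
     (.s1 3650722202 4080218932 214748365 (by decide)
      (.s3 5059889139 6184308949 562209905 (by decide)
       (ok_go H c11a_964)
       (ok_go H c11a_965))
      (ok_go H c11a_966)))))

theorem ok11a_20 (H : Good p11a L b s) :
    Ok L b s 2791728742 214748365 (-1124419808) 1124419810 2811049521 562209905 :=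
  (ok_go H c11a_967)

theorem ok11a_21 (H : Good p11a L b s) :
    Ok L b s 2791728742 214748365 (-1686629713) 562209905 3935469331 562209905 :=
  (.s1 2684354560 2899102924 107374183 (by decide)
   (.s2 (-1967734665) (-1405524761) 281104953 (by decide)
    (.s3 3654364379 4216574283 281104953 (by decide)
     (ok_go H c11a_968)
     (.s2 (-2108287141) (-1827182189) 140552477 (by decide)
      (ok_go H c11a_969)
      (ok_go H c11a_970)))
    (.s3 3654364379 4216574283 281104953 (by decide)
     (ok_go H c11a_971)
     (.s2 (-1546077237) (-1264972285) 140552477 (by decide)
      (.s3 4076021807 4357126759 140552477 (by decide)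
       (ok_go H c11a_972)
       (ok_go H c11a_973))
      (.s3 4076021807 4357126759 140552477 (by decide)
       (.s1 2630667469 2738041651 53687092 (by decide)
        (ok_go H c11a_974)
        (.s2 (-1335248523) (-1194696047) 70276239 (by decide)
         (ok_go H c11a_975)
         (.s3 4005745569 4146298045 70276239 (by decide)
          (ok_go H c11a_976)
          (ok_go H c11a_977))))
       (ok_go H c11a_978)))))
   (.s2 (-1967734665) (-1405524761) 281104953 (by decide)
    (.s3 3654364379 4216574283 281104953 (by decide)
     (ok_go H c11a_979)
     (.s2 (-2108287141) (-1827182189) 140552477 (by decide)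
      (.s3 4076021807 4357126759 140552477 (by decide)
       (ok_go H c11a_980)
       (.s1 2845415833 2952790015 53687092 (by decide)
        (ok_go H c11a_981)
        (.s2 (-2178563379) (-2038010903) 70276239 (by decide)
         (ok_go H c11a_982)
         (.s1 2925946469 2979633561 26843546 (by decide)
          (.s3 4286850521 4427402997 70276239 (by decide)
           (ok_go H c11a_983)
           (.s3 4392264878 4462541116 35138120 (by decide)
            (ok_go H c11a_984)
            (ok_go H c11a_985)))
          (ok_go H c11a_986)))))
      (.s3 4076021807 4357126759 140552477 (by decide)
       (ok_go H c11a_987)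
       (.s1 2845415833 2952790015 53687092 (by decide)
        (ok_go H c11a_988)
        (.s2 (-1897458427) (-1756905951) 70276239 (by decide)
         (.s3 4286850521 4427402997 70276239 (by decide)
          (ok_go H c11a_989)
          (.s1 2925946469 2979633561 26843546 (by decide)
           (ok_go H c11a_990)
           (ok_go H c11a_991)))
         (.s3 4286850521 4427402997 70276239 (by decide)
          (.s1 2925946469 2979633561 26843546 (by decide)
           (ok_go H c11a_992)
           (ok_go H c11a_993))
          (ok_go H c11a_994)))))))
    (.s3 3654364379 4216574283 281104953 (by decide)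
     (ok_go H c11a_995)
     (.s2 (-1546077237) (-1264972285) 140552477 (by decide)
      (.s3 4076021807 4357126759 140552477 (by decide)
       (.s1 2845415833 2952790015 53687092 (by decide)
        (ok_go H c11a_996)
        (.s2 (-1616353475) (-1475800999) 70276239 (by decide)
         (ok_go H c11a_997)
         (ok_go H c11a_998)))
       (.s1 2845415833 2952790015 53687092 (by decide)
        (ok_go H c11a_999)
        (.s2 (-1616353475) (-1475800999) 70276239 (by decide)
         (.s3 4286850521 4427402997 70276239 (by decide)
          (ok_go H c11a_1000)
          (ok_go H c11a_1001))
         (ok_go H c11a_1002))))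
      (.s3 4076021807 4357126759 140552477 (by decide)
       (.s1 2845415833 2952790015 53687092 (by decide)
        (.s2 (-1335248523) (-1194696047) 70276239 (by decide)
         (ok_go H c11a_1003)
         (.s3 4005745569 4146298045 70276239 (by decide)
          (ok_go H c11a_1004)
          (ok_go H c11a_1005)))
        (.s2 (-1335248523) (-1194696047) 70276239 (by decide)
         (ok_go H c11a_1006)
         (.s3 4005745569 4146298045 70276239 (by decide)
          (ok_go H c11a_1007)
          (ok_go H c11a_1008))))
       (.s1 2845415833 2952790015 53687092 (by decide)
        (ok_go H c11a_1009)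
        (.s2 (-1335248523) (-1194696047) 70276239 (by decide)
         (ok_go H c11a_1010)
         (ok_go H c11a_1011))))))))

theorem ok11a_22 (H : Good p11a L b s) :
    Ok L b s 2684354560 107374183 (-562209903) 562209905 3935469331 562209905 :=
  (.s3 3654364379 4216574283 281104953 (by decide)
   (.s2 (-843314855) (-281104951) 281104953 (by decide)
    (.s2 (-983867331) (-702762379) 140552477 (by decide)
     (.s3 3513811903 3794916855 140552477 (by decide)
      (ok_go H c11a_1012)
      (.s1 2630667469 2738041651 53687092 (by decide)
       (ok_go H c11a_1013)
       (.s2 (-1054143569) (-913591093) 70276239 (by decide)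
        (ok_go H c11a_1014)
        (.s3 3724640617 3865193093 70276239 (by decide)
         (ok_go H c11a_1015)
         (.s1 2711198105 2764885197 26843546 (by decide)
          (ok_go H c11a_1016)
          (.s2 (-948729212) (-878452974) 35138120 (by decide)
           (ok_go H c11a_1017)
           (ok_go H c11a_1018)))))))
     (.s3 3513811903 3794916855 140552477 (by decide)
      (ok_go H c11a_1019)
      (.s1 2630667469 2738041651 53687092 (by decide)
       (ok_go H c11a_1020)
       (.s2 (-773038617) (-632486141) 70276239 (by decide)
        (.s3 3724640617 3865193093 70276239 (by decide)
         (ok_go H c11a_1021)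
         (ok_go H c11a_1022))
        (ok_go H c11a_1023)))))
    (.s2 (-421657427) (-140552475) 140552477 (by decide)
     (.s3 3513811903 3794916855 140552477 (by decide)
      (ok_go H c11a_1024)
      (.s1 2630667469 2738041651 53687092 (by decide)
       (ok_go H c11a_1025)
       (ok_go H c11a_1026)))
     (.s3 3513811903 3794916855 140552477 (by decide)
      (ok_go H c11a_1027)
      (ok_go H c11a_1028))))
   (.s2 (-843314855) (-281104951) 281104953 (by decide)
    (.s2 (-983867331) (-702762379) 140552477 (by decide)
     (.s3 4076021807 4357126759 140552477 (by decide)
      (.s1 2630667469 2738041651 53687092 (by decide)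
       (ok_go H c11a_1029)
       (.s2 (-1054143569) (-913591093) 70276239 (by decide)
        (.s3 4005745569 4146298045 70276239 (by decide)
         (ok_go H c11a_1030)
         (ok_go H c11a_1031))
        (.s3 4005745569 4146298045 70276239 (by decide)
         (ok_go H c11a_1032)
         (ok_go H c11a_1033))))
      (ok_go H c11a_1034))
     (.s3 4076021807 4357126759 140552477 (by decide)
      (.s1 2630667469 2738041651 53687092 (by decide)
       (ok_go H c11a_1035)
       (ok_go H c11a_1036))
      (ok_go H c11a_1037)))
    (.s2 (-421657427) (-140552475) 140552477 (by decide)
     (.s3 4076021807 4357126759 140552477 (by decide)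
      (ok_go H c11a_1038)
      (ok_go H c11a_1039))
     (.s3 4076021807 4357126759 140552477 (by decide)
      (.s1 2630667469 2738041651 53687092 (by decide)
       (ok_go H c11a_1040)
       (ok_go H c11a_1041))
      (.s1 2630667469 2738041651 53687092 (by decide)
       (ok_go H c11a_1042)
       (ok_go H c11a_1043))))))

theorem ok11a_23 (H : Good p11a L b s) :
    Ok L b s 2899102924 107374183 (-843314855) 281104953 3935469331 562209905 :=
  (.s3 3654364379 4216574283 281104953 (by decide)
   (.s2 (-983867331) (-702762379) 140552477 (by decide)
    (.s3 3513811903 3794916855 140552477 (by decide)
     (ok_go H c11a_1044)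
     (.s1 2845415833 2952790015 53687092 (by decide)
      (.s2 (-1054143569) (-913591093) 70276239 (by decide)
       (.s3 3724640617 3865193093 70276239 (by decide)
        (ok_go H c11a_1045)
        (.s1 2818572287 2872259379 26843546 (by decide)
         (ok_go H c11a_1046)
         (ok_go H c11a_1047)))
       (.s3 3724640617 3865193093 70276239 (by decide)
        (ok_go H c11a_1048)
        (.s1 2818572287 2872259379 26843546 (by decide)
         (.s2 (-948729212) (-878452974) 35138120 (by decide)
          (ok_go H c11a_1049)
          (ok_go H c11a_1050))
         (ok_go H c11a_1051))))
      (.s2 (-1054143569) (-913591093) 70276239 (by decide)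
       (ok_go H c11a_1052)
       (.s3 3724640617 3865193093 70276239 (by decide)
        (ok_go H c11a_1053)
        (.s1 2925946469 2979633561 26843546 (by decide)
         (ok_go H c11a_1054)
         (ok_go H c11a_1055))))))
    (.s3 3513811903 3794916855 140552477 (by decide)
     (ok_go H c11a_1056)
     (.s1 2845415833 2952790015 53687092 (by decide)
      (.s2 (-773038617) (-632486141) 70276239 (by decide)
       (.s3 3724640617 3865193093 70276239 (by decide)
        (.s1 2818572287 2872259379 26843546 (by decide)
         (ok_go H c11a_1057)
         (ok_go H c11a_1058))
        (.s1 2818572287 2872259379 26843546 (by decide)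
         (ok_go H c11a_1059)
         (ok_go H c11a_1060)))
       (.s3 3724640617 3865193093 70276239 (by decide)
        (.s1 2818572287 2872259379 26843546 (by decide)
         (ok_go H c11a_1061)
         (ok_go H c11a_1062))
        (ok_go H c11a_1063)))
      (.s2 (-773038617) (-632486141) 70276239 (by decide)
       (.s3 3724640617 3865193093 70276239 (by decide)
        (.s1 2925946469 2979633561 26843546 (by decide)
         (ok_go H c11a_1064)
         (ok_go H c11a_1065))
        (.s1 2925946469 2979633561 26843546 (by decide)
         (ok_go H c11a_1066)
         (.s2 (-808176736) (-737900498) 35138120 (by decide)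
          (ok_go H c11a_1067)
          (ok_go H c11a_1068))))
       (.s3 3724640617 3865193093 70276239 (by decide)
        (.s1 2925946469 2979633561 26843546 (by decide)
         (.s2 (-667624260) (-597348022) 35138120 (by decide)
          (ok_go H c11a_1069)
          (ok_go H c11a_1070))
         (.s2 (-667624260) (-597348022) 35138120 (by decide)
          (.s3 3689502498 3759778736 35138120 (by decide)
           (ok_go H c11a_1071)
           (ok_go H c11a_1072))
          (.s3 3689502498 3759778736 35138120 (by decide)
           (ok_go H c11a_1073)
           (ok_go H c11a_1074))))
        (.s1 2925946469 2979633561 26843546 (by decide)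
         (ok_go H c11a_1075)
         (.s2 (-667624260) (-597348022) 35138120 (by decide)
          (ok_go H c11a_1076)
          (ok_go H c11a_1077))))))))
   (.s2 (-983867331) (-702762379) 140552477 (by decide)
    (.s3 4076021807 4357126759 140552477 (by decide)
     (.s1 2845415833 2952790015 53687092 (by decide)
      (.s2 (-1054143569) (-913591093) 70276239 (by decide)
       (.s3 4005745569 4146298045 70276239 (by decide)
        (.s1 2818572287 2872259379 26843546 (by decide)
         (ok_go H c11a_1078)
         (ok_go H c11a_1079))
        (ok_go H c11a_1080))
       (.s3 4005745569 4146298045 70276239 (by decide)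
        (ok_go H c11a_1081)
        (ok_go H c11a_1082)))
      (.s2 (-1054143569) (-913591093) 70276239 (by decide)
       (.s3 4005745569 4146298045 70276239 (by decide)
        (ok_go H c11a_1083)
        (ok_go H c11a_1084))
       (.s3 4005745569 4146298045 70276239 (by decide)
        (.s1 2925946469 2979633561 26843546 (by decide)
         (ok_go H c11a_1085)
         (ok_go H c11a_1086))
        (ok_go H c11a_1087))))
     (.s1 2845415833 2952790015 53687092 (by decide)
      (ok_go H c11a_1088)
      (.s2 (-1054143569) (-913591093) 70276239 (by decide)
       (ok_go H c11a_1089)
       (ok_go H c11a_1090))))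
    (.s3 4076021807 4357126759 140552477 (by decide)
     (.s1 2845415833 2952790015 53687092 (by decide)
      (.s2 (-773038617) (-632486141) 70276239 (by decide)
       (ok_go H c11a_1091)
       (ok_go H c11a_1092))
      (.s2 (-773038617) (-632486141) 70276239 (by decide)
       (.s3 4005745569 4146298045 70276239 (by decide)
        (ok_go H c11a_1093)
        (ok_go H c11a_1094))
       (.s3 4005745569 4146298045 70276239 (by decide)
        (ok_go H c11a_1095)
        (ok_go H c11a_1096))))
     (.s1 2845415833 2952790015 53687092 (by decide)
      (ok_go H c11a_1097)
      (.s2 (-773038617) (-632486141) 70276239 (by decide)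
       (ok_go H c11a_1098)
       (ok_go H c11a_1099))))))

theorem ok11a_24 (H : Good p11a L b s) :
    Ok L b s 2899102924 107374183 (-281104951) 281104953 3935469331 562209905 :=
  (.s3 3654364379 4216574283 281104953 (by decide)
   (.s2 (-421657427) (-140552475) 140552477 (by decide)
    (.s3 3513811903 3794916855 140552477 (by decide)
     (.s1 2845415833 2952790015 53687092 (by decide)
      (.s2 (-491933665) (-351381189) 70276239 (by decide)
       (ok_go H c11a_1100)
       (ok_go H c11a_1101))
      (.s2 (-491933665) (-351381189) 70276239 (by decide)
       (.s3 3443535665 3584088141 70276239 (by decide)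
        (ok_go H c11a_1102)
        (.s1 2925946469 2979633561 26843546 (by decide)
         (.s2 (-527071784) (-456795546) 35138120 (by decide)
          (ok_go H c11a_1103)
          (ok_go H c11a_1104))
         (.s2 (-527071784) (-456795546) 35138120 (by decide)
          (ok_go H c11a_1105)
          (.s3 3548950022 3619226260 35138120 (by decide)
           (ok_go H c11a_1106)
           (.s1 2966211788 2993055334 13421773 (by decide)
            (.s2 (-474364606) (-439226486) 17569060 (by decide)
             (ok_go H c11a_1107)
             (ok_go H c11a_1108))
            (.s2 (-474364606) (-439226486) 17569060 (by decide)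
             (ok_go H c11a_1109)
             (ok_go H c11a_1110)))))))
       (.s3 3443535665 3584088141 70276239 (by decide)
        (ok_go H c11a_1111)
        (.s1 2925946469 2979633561 26843546 (by decide)
         (.s2 (-386519308) (-316243070) 35138120 (by decide)
          (.s3 3548950022 3619226260 35138120 (by decide)
           (ok_go H c11a_1112)
           (ok_go H c11a_1113))
          (.s3 3548950022 3619226260 35138120 (by decide)
           (ok_go H c11a_1114)
           (ok_go H c11a_1115)))
         (.s2 (-386519308) (-316243070) 35138120 (by decide)
          (.s3 3548950022 3619226260 35138120 (by decide)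
           (.s1 2966211788 2993055334 13421773 (by decide)
            (.s2 (-404088368) (-368950248) 17569060 (by decide)
             (ok_go H c11a_1116)
             (ok_go H c11a_1117))
            (.s2 (-404088368) (-368950248) 17569060 (by decide)
             (ok_go H c11a_1118)
             (ok_go H c11a_1119)))
           (.s1 2966211788 2993055334 13421773 (by decide)
            (.s2 (-404088368) (-368950248) 17569060 (by decide)
             (ok_go H c11a_1120)
             (ok_go H c11a_1121))
            (.s2 (-404088368) (-368950248) 17569060 (by decide)
             (ok_go H c11a_1122)
             (ok_go H c11a_1123))))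
          (.s3 3548950022 3619226260 35138120 (by decide)
           (.s1 2966211788 2993055334 13421773 (by decide)
            (.s2 (-333812130) (-298674010) 17569060 (by decide)
             (ok_go H c11a_1124)
             (ok_go H c11a_1125))
            (.s2 (-333812130) (-298674010) 17569060 (by decide)
             (ok_go H c11a_1126)
             (ok_go H c11a_1127)))
           (.s2 (-333812130) (-298674010) 17569060 (by decide)
            (ok_go H c11a_1128)
            (ok_go H c11a_1129))))))))
     (.s1 2845415833 2952790015 53687092 (by decide)
      (.s2 (-491933665) (-351381189) 70276239 (by decide)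
       (.s3 3724640617 3865193093 70276239 (by decide)
        (ok_go H c11a_1130)
        (ok_go H c11a_1131))
       (ok_go H c11a_1132))
      (.s2 (-491933665) (-351381189) 70276239 (by decide)
       (.s3 3724640617 3865193093 70276239 (by decide)
        (.s1 2925946469 2979633561 26843546 (by decide)
         (.s2 (-527071784) (-456795546) 35138120 (by decide)
          (.s3 3689502498 3759778736 35138120 (by decide)
           (ok_go H c11a_1133)
           (ok_go H c11a_1134))
          (ok_go H c11a_1135))
         (.s2 (-527071784) (-456795546) 35138120 (by decide)
          (.s3 3689502498 3759778736 35138120 (by decide)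
           (.s1 2966211788 2993055334 13421773 (by decide)
            (ok_go H c11a_1136)
            (ok_go H c11a_1137))
           (ok_go H c11a_1138))
          (.s3 3689502498 3759778736 35138120 (by decide)
           (.s1 2966211788 2993055334 13421773 (by decide)
            (ok_go H c11a_1139)
            (ok_go H c11a_1140))
           (ok_go H c11a_1141))))
        (.s1 2925946469 2979633561 26843546 (by decide)
         (ok_go H c11a_1142)
         (ok_go H c11a_1143)))
       (.s3 3724640617 3865193093 70276239 (by decide)
        (.s1 2925946469 2979633561 26843546 (by decide)
         (ok_go H c11a_1144)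
         (.s2 (-386519308) (-316243070) 35138120 (by decide)
          (.s3 3689502498 3759778736 35138120 (by decide)
           (ok_go H c11a_1145)
           (ok_go H c11a_1146))
          (ok_go H c11a_1147)))
        (ok_go H c11a_1148)))))
    (.s3 3513811903 3794916855 140552477 (by decide)
     (.s1 2845415833 2952790015 53687092 (by decide)
      (.s2 (-210828713) (-70276237) 70276239 (by decide)
       (ok_go H c11a_1149)
       (.s3 3443535665 3584088141 70276239 (by decide)
        (ok_go H c11a_1150)
        (ok_go H c11a_1151)))
      (.s2 (-210828713) (-70276237) 70276239 (by decide)
       (.s3 3443535665 3584088141 70276239 (by decide)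
        (.s1 2925946469 2979633561 26843546 (by decide)
         (ok_go H c11a_1152)
         (.s2 (-245966832) (-175690594) 35138120 (by decide)
          (ok_go H c11a_1153)
          (ok_go H c11a_1154)))
        (.s1 2925946469 2979633561 26843546 (by decide)
         (.s2 (-245966832) (-175690594) 35138120 (by decide)
          (ok_go H c11a_1155)
          (ok_go H c11a_1156))
         (.s2 (-245966832) (-175690594) 35138120 (by decide)
          (.s3 3548950022 3619226260 35138120 (by decide)
           (.s1 2966211788 2993055334 13421773 (by decide)
            (ok_go H c11a_1157)
            (ok_go H c11a_1158))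
           (ok_go H c11a_1159))
          (.s3 3548950022 3619226260 35138120 (by decide)
           (ok_go H c11a_1160)
           (ok_go H c11a_1161)))))
       (.s3 3443535665 3584088141 70276239 (by decide)
        (.s1 2925946469 2979633561 26843546 (by decide)
         (.s2 (-105414356) (-35138118) 35138120 (by decide)
          (ok_go H c11a_1162)
          (ok_go H c11a_1163))
         (.s2 (-105414356) (-35138118) 35138120 (by decide)
          (.s3 3408397546 3478673784 35138120 (by decide)
           (ok_go H c11a_1164)
           (ok_go H c11a_1165))
          (.s3 3408397546 3478673784 35138120 (by decide)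
           (ok_go H c11a_1166)
           (ok_go H c11a_1167))))
        (.s1 2925946469 2979633561 26843546 (by decide)
         (ok_go H c11a_1168)
         (.s2 (-105414356) (-35138118) 35138120 (by decide)
          (.s3 3548950022 3619226260 35138120 (by decide)
           (ok_go H c11a_1169)
           (ok_go H c11a_1170))
          (ok_go H c11a_1171))))))
     (.s1 2845415833 2952790015 53687092 (by decide)
      (.s2 (-210828713) (-70276237) 70276239 (by decide)
       (ok_go H c11a_1172)
       (ok_go H c11a_1173))
      (.s2 (-210828713) (-70276237) 70276239 (by decide)
       (.s3 3724640617 3865193093 70276239 (by decide)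
        (.s1 2925946469 2979633561 26843546 (by decide)
         (ok_go H c11a_1174)
         (ok_go H c11a_1175))
        (ok_go H c11a_1176))
       (.s3 3724640617 3865193093 70276239 (by decide)
        (.s1 2925946469 2979633561 26843546 (by decide)
         (ok_go H c11a_1177)
         (ok_go H c11a_1178))
        (ok_go H c11a_1179))))))
   (.s2 (-421657427) (-140552475) 140552477 (by decide)
    (.s3 4076021807 4357126759 140552477 (by decide)
     (.s1 2845415833 2952790015 53687092 (by decide)
      (ok_go H c11a_1180)
      (.s2 (-491933665) (-351381189) 70276239 (by decide)
       (.s3 4005745569 4146298045 70276239 (by decide)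
        (ok_go H c11a_1181)
        (ok_go H c11a_1182))
       (ok_go H c11a_1183)))
     (ok_go H c11a_1184))
    (.s3 4076021807 4357126759 140552477 (by decide)
     (.s1 2845415833 2952790015 53687092 (by decide)
      (ok_go H c11a_1185)
      (.s2 (-210828713) (-70276237) 70276239 (by decide)
       (ok_go H c11a_1186)
       (ok_go H c11a_1187)))
     (ok_go H c11a_1188))))

theorem ok11a_25 (H : Good p11a L b s) :
    Ok L b s 3221225472 214748365 (-1124419808) 1124419810 2811049521 562209905 :=
  (ok_go H c11a_1189)

theorem ok11a_26 (H : Good p11a L b s) :
    Ok L b s 3221225472 214748365 (-1686629713) 562209905 3935469331 562209905 :=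
  (.s2 (-1967734665) (-1405524761) 281104953 (by decide)
   (.s3 3654364379 4216574283 281104953 (by decide)
    (ok_go H c11a_1190)
    (.s1 3113851290 3328599654 107374183 (by decide)
     (.s2 (-2108287141) (-1827182189) 140552477 (by decide)
      (ok_go H c11a_1191)
      (.s3 4076021807 4357126759 140552477 (by decide)
       (ok_go H c11a_1192)
       (ok_go H c11a_1193)))
     (ok_go H c11a_1194)))
   (.s3 3654364379 4216574283 281104953 (by decide)
    (ok_go H c11a_1195)
    (.s1 3113851290 3328599654 107374183 (by decide)
     (.s2 (-1546077237) (-1264972285) 140552477 (by decide)
      (.s3 4076021807 4357126759 140552477 (by decide)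
       (.s1 3060164199 3167538381 53687092 (by decide)
        (.s2 (-1616353475) (-1475800999) 70276239 (by decide)
         (ok_go H c11a_1196)
         (.s1 3033320653 3087007745 26843546 (by decide)
          (.s3 4005745569 4146298045 70276239 (by decide)
           (ok_go H c11a_1197)
           (.s1 3019898880 3046742426 13421773 (by decide)
            (.s2 (-1510939118) (-1440662880) 35138120 (by decide)
             (ok_go H c11a_1198)
             (.s3 4111159926 4181436164 35138120 (by decide)
              (ok_go H c11a_1199)
              (ok_go H c11a_1200)))
            (ok_go H c11a_1201)))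
          (ok_go H c11a_1202)))
        (ok_go H c11a_1203))
       (.s1 3060164199 3167538381 53687092 (by decide)
        (.s2 (-1616353475) (-1475800999) 70276239 (by decide)
         (.s1 3033320653 3087007745 26843546 (by decide)
          (ok_go H c11a_1204)
          (ok_go H c11a_1205))
         (.s1 3033320653 3087007745 26843546 (by decide)
          (.s3 4286850521 4427402997 70276239 (by decide)
           (ok_go H c11a_1206)
           (ok_go H c11a_1207))
          (ok_go H c11a_1208)))
        (ok_go H c11a_1209)))
      (.s3 4076021807 4357126759 140552477 (by decide)
       (.s1 3060164199 3167538381 53687092 (by decide)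
        (.s2 (-1335248523) (-1194696047) 70276239 (by decide)
         (.s1 3033320653 3087007745 26843546 (by decide)
          (.s3 4005745569 4146298045 70276239 (by decide)
           (.s2 (-1370386642) (-1300110404) 35138120 (by decide)
            (ok_go H c11a_1210)
            (.s1 3019898880 3046742426 13421773 (by decide)
             (ok_go H c11a_1211)
             (.s3 3970607450 4040883688 35138120 (by decide)
              (ok_go H c11a_1212)
              (.s1 3040031540 3053453312 6710887 (by decide)
               (ok_go H c11a_1213)
               (ok_go H c11a_1214)))))
           (.s2 (-1370386642) (-1300110404) 35138120 (by decide)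
            (.s1 3019898880 3046742426 13421773 (by decide)
             (ok_go H c11a_1215)
             (.s3 4111159926 4181436164 35138120 (by decide)
              (ok_go H c11a_1216)
              (ok_go H c11a_1217)))
            (.s1 3019898880 3046742426 13421773 (by decide)
             (ok_go H c11a_1218)
             (.s3 4111159926 4181436164 35138120 (by decide)
              (ok_go H c11a_1219)
              (ok_go H c11a_1220)))))
          (ok_go H c11a_1221))
         (.s1 3033320653 3087007745 26843546 (by decide)
          (.s3 4005745569 4146298045 70276239 (by decide)
           (.s2 (-1229834166) (-1159557928) 35138120 (by decide)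
            (.s1 3019898880 3046742426 13421773 (by decide)
             (ok_go H c11a_1222)
             (.s3 3970607450 4040883688 35138120 (by decide)
              (ok_go H c11a_1223)
              (.s2 (-1247403226) (-1212265106) 17569060 (by decide)
               (ok_go H c11a_1224)
               (ok_go H c11a_1225))))
            (.s3 3970607450 4040883688 35138120 (by decide)
             (ok_go H c11a_1226)
             (ok_go H c11a_1227)))
           (.s2 (-1229834166) (-1159557928) 35138120 (by decide)
            (ok_go H c11a_1228)
            (ok_go H c11a_1229)))
          (.s3 4005745569 4146298045 70276239 (by decide)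
           (.s2 (-1229834166) (-1159557928) 35138120 (by decide)
            (ok_go H c11a_1230)
            (.s1 3073585972 3100429518 13421773 (by decide)
             (.s3 3970607450 4040883688 35138120 (by decide)
              (.s1 3066875086 3080296858 6710887 (by decide)
               (ok_go H c11a_1231)
               (ok_go H c11a_1232))
              (ok_go H c11a_1233))
             (ok_go H c11a_1234)))
           (ok_go H c11a_1235))))
        (ok_go H c11a_1236))
       (.s1 3060164199 3167538381 53687092 (by decide)
        (.s2 (-1335248523) (-1194696047) 70276239 (by decide)
         (.s1 3033320653 3087007745 26843546 (by decide)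
          (.s3 4286850521 4427402997 70276239 (by decide)
           (ok_go H c11a_1237)
           (ok_go H c11a_1238))
          (ok_go H c11a_1239))
         (.s1 3033320653 3087007745 26843546 (by decide)
          (ok_go H c11a_1240)
          (ok_go H c11a_1241)))
        (ok_go H c11a_1242))))
     (ok_go H c11a_1243))))

theorem ok11a_27 (H : Good p11a L b s) :
    Ok L b s 3221225472 214748365 (-843314855) 281104953 3654364379 281104953 :=
  (.s1 3113851290 3328599654 107374183 (by decide)
   (.s2 (-983867331) (-702762379) 140552477 (by decide)
    (.s3 3513811903 3794916855 140552477 (by decide)
     (ok_go H c11a_1244)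
     (.s1 3060164199 3167538381 53687092 (by decide)
      (.s2 (-1054143569) (-913591093) 70276239 (by decide)
       (.s3 3724640617 3865193093 70276239 (by decide)
        (ok_go H c11a_1245)
        (.s1 3033320653 3087007745 26843546 (by decide)
         (.s2 (-1089281688) (-1019005450) 35138120 (by decide)
          (ok_go H c11a_1246)
          (ok_go H c11a_1247))
         (.s2 (-1089281688) (-1019005450) 35138120 (by decide)
          (ok_go H c11a_1248)
          (.s1 3073585972 3100429518 13421773 (by decide)
           (.s3 3830054974 3900331212 35138120 (by decide)
            (ok_go H c11a_1249)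
            (ok_go H c11a_1250))
           (ok_go H c11a_1251)))))
       (.s3 3724640617 3865193093 70276239 (by decide)
        (ok_go H c11a_1252)
        (.s1 3033320653 3087007745 26843546 (by decide)
         (.s2 (-948729212) (-878452974) 35138120 (by decide)
          (.s3 3830054974 3900331212 35138120 (by decide)
           (ok_go H c11a_1253)
           (.s1 3019898880 3046742426 13421773 (by decide)
            (ok_go H c11a_1254)
            (ok_go H c11a_1255)))
          (.s3 3830054974 3900331212 35138120 (by decide)
           (.s1 3019898880 3046742426 13421773 (by decide)
            (ok_go H c11a_1256)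
            (ok_go H c11a_1257))
           (.s1 3019898880 3046742426 13421773 (by decide)
            (ok_go H c11a_1258)
            (.s2 (-896022034) (-860883914) 17569060 (by decide)
             (ok_go H c11a_1259)
             (ok_go H c11a_1260)))))
         (.s1 3073585972 3100429518 13421773 (by decide)
          (.s2 (-948729212) (-878452974) 35138120 (by decide)
           (.s3 3830054974 3900331212 35138120 (by decide)
            (ok_go H c11a_1261)
            (.s2 (-966298272) (-931160152) 17569060 (by decide)
             (ok_go H c11a_1262)
             (ok_go H c11a_1263)))
           (.s3 3830054974 3900331212 35138120 (by decide)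
            (ok_go H c11a_1264)
            (.s2 (-896022034) (-860883914) 17569060 (by decide)
             (ok_go H c11a_1265)
             (ok_go H c11a_1266))))
          (.s2 (-948729212) (-878452974) 35138120 (by decide)
           (ok_go H c11a_1267)
           (.s3 3830054974 3900331212 35138120 (by decide)
            (ok_go H c11a_1268)
            (ok_go H c11a_1269)))))))
      (ok_go H c11a_1270)))
    (.s1 3060164199 3167538381 53687092 (by decide)
     (.s3 3513811903 3794916855 140552477 (by decide)
      (ok_go H c11a_1271)
      (.s2 (-773038617) (-632486141) 70276239 (by decide)
       (.s3 3724640617 3865193093 70276239 (by decide)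
        (.s1 3033320653 3087007745 26843546 (by decide)
         (.s2 (-808176736) (-737900498) 35138120 (by decide)
          (ok_go H c11a_1272)
          (ok_go H c11a_1273))
         (.s2 (-808176736) (-737900498) 35138120 (by decide)
          (ok_go H c11a_1274)
          (.s3 3689502498 3759778736 35138120 (by decide)
           (ok_go H c11a_1275)
           (.s2 (-755469558) (-720331438) 17569060 (by decide)
            (.s1 3073585972 3100429518 13421773 (by decide)
             (ok_go H c11a_1276)
             (ok_go H c11a_1277))
            (.s3 3742209676 3777347796 17569060 (by decide)
             (ok_go H c11a_1278)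
             (ok_go H c11a_1279))))))
        (.s1 3033320653 3087007745 26843546 (by decide)
         (.s2 (-808176736) (-737900498) 35138120 (by decide)
          (.s3 3830054974 3900331212 35138120 (by decide)
           (.s1 3019898880 3046742426 13421773 (by decide)
            (ok_go H c11a_1280)
            (.s2 (-825745796) (-790607676) 17569060 (by decide)
             (ok_go H c11a_1281)
             (ok_go H c11a_1282)))
           (.s1 3019898880 3046742426 13421773 (by decide)
            (ok_go H c11a_1283)
            (ok_go H c11a_1284)))
          (.s3 3830054974 3900331212 35138120 (by decide)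
           (ok_go H c11a_1285)
           (ok_go H c11a_1286)))
         (.s2 (-808176736) (-737900498) 35138120 (by decide)
          (.s3 3830054974 3900331212 35138120 (by decide)
           (.s1 3073585972 3100429518 13421773 (by decide)
            (.s2 (-825745796) (-790607676) 17569060 (by decide)
             (ok_go H c11a_1287)
             (ok_go H c11a_1288))
            (ok_go H c11a_1289))
           (.s1 3073585972 3100429518 13421773 (by decide)
            (.s2 (-825745796) (-790607676) 17569060 (by decide)
             (ok_go H c11a_1290)
             (ok_go H c11a_1291))
            (ok_go H c11a_1292)))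
          (.s3 3830054974 3900331212 35138120 (by decide)
           (.s2 (-755469558) (-720331438) 17569060 (by decide)
            (ok_go H c11a_1293)
            (ok_go H c11a_1294))
           (.s2 (-755469558) (-720331438) 17569060 (by decide)
            (ok_go H c11a_1295)
            (ok_go H c11a_1296))))))
       (.s3 3724640617 3865193093 70276239 (by decide)
        (.s1 3033320653 3087007745 26843546 (by decide)
         (.s2 (-667624260) (-597348022) 35138120 (by decide)
          (.s3 3689502498 3759778736 35138120 (by decide)
           (ok_go H c11a_1297)
           (ok_go H c11a_1298))
          (.s3 3689502498 3759778736 35138120 (by decide)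
           (ok_go H c11a_1299)
           (ok_go H c11a_1300)))
         (.s2 (-667624260) (-597348022) 35138120 (by decide)
          (.s3 3689502498 3759778736 35138120 (by decide)
           (.s1 3073585972 3100429518 13421773 (by decide)
            (ok_go H c11a_1301)
            (ok_go H c11a_1302))
           (.s1 3073585972 3100429518 13421773 (by decide)
            (.s2 (-685193320) (-650055200) 17569060 (by decide)
             (ok_go H c11a_1303)
             (ok_go H c11a_1304))
            (.s3 3742209676 3777347796 17569060 (by decide)
             (ok_go H c11a_1305)
             (ok_go H c11a_1306))))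
          (.s3 3689502498 3759778736 35138120 (by decide)
           (.s1 3073585972 3100429518 13421773 (by decide)
            (ok_go H c11a_1307)
            (.s2 (-614917082) (-579778962) 17569060 (by decide)
             (ok_go H c11a_1308)
             (ok_go H c11a_1309)))
           (.s1 3073585972 3100429518 13421773 (by decide)
            (ok_go H c11a_1310)
            (ok_go H c11a_1311)))))
        (.s1 3033320653 3087007745 26843546 (by decide)
         (.s2 (-667624260) (-597348022) 35138120 (by decide)
          (.s3 3830054974 3900331212 35138120 (by decide)
           (ok_go H c11a_1312)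
           (ok_go H c11a_1313))
          (.s3 3830054974 3900331212 35138120 (by decide)
           (ok_go H c11a_1314)
           (ok_go H c11a_1315)))
         (.s2 (-667624260) (-597348022) 35138120 (by decide)
          (.s3 3830054974 3900331212 35138120 (by decide)
           (ok_go H c11a_1316)
           (ok_go H c11a_1317))
          (.s3 3830054974 3900331212 35138120 (by decide)
           (.s1 3073585972 3100429518 13421773 (by decide)
            (ok_go H c11a_1318)
            (ok_go H c11a_1319))
           (ok_go H c11a_1320)))))))
     (.s3 3513811903 3794916855 140552477 (by decide)
      (ok_go H c11a_1321)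
      (.s2 (-773038617) (-632486141) 70276239 (by decide)
       (ok_go H c11a_1322)
       (ok_go H c11a_1323)))))
   (ok_go H c11a_1324))

theorem ok11a_28 (H : Good p11a L b s) :
    Ok L b s 3113851290 107374183 (-983867331) 140552477 4216574283 281104953 :=
  (.s1 3060164199 3167538381 53687092 (by decide)
   (.s3 4076021807 4357126759 140552477 (by decide)
    (.s2 (-1054143569) (-913591093) 70276239 (by decide)
     (.s3 4005745569 4146298045 70276239 (by decide)
      (.s1 3033320653 3087007745 26843546 (by decide)
       (.s2 (-1089281688) (-1019005450) 35138120 (by decide)
        (ok_go H c11a_1325)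
        (.s3 3970607450 4040883688 35138120 (by decide)
         (ok_go H c11a_1326)
         (ok_go H c11a_1327)))
       (.s2 (-1089281688) (-1019005450) 35138120 (by decide)
        (.s1 3073585972 3100429518 13421773 (by decide)
         (.s3 3970607450 4040883688 35138120 (by decide)
          (.s1 3066875086 3080296858 6710887 (by decide)
           (ok_go H c11a_1328)
           (ok_go H c11a_1329))
          (ok_go H c11a_1330))
         (ok_go H c11a_1331))
        (.s1 3073585972 3100429518 13421773 (by decide)
         (.s3 3970607450 4040883688 35138120 (by decide)
          (ok_go H c11a_1332)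
          (ok_go H c11a_1333))
         (ok_go H c11a_1334))))
      (.s1 3033320653 3087007745 26843546 (by decide)
       (.s2 (-1089281688) (-1019005450) 35138120 (by decide)
        (ok_go H c11a_1335)
        (ok_go H c11a_1336))
       (.s2 (-1089281688) (-1019005450) 35138120 (by decide)
        (.s1 3073585972 3100429518 13421773 (by decide)
         (ok_go H c11a_1337)
         (ok_go H c11a_1338))
        (.s1 3073585972 3100429518 13421773 (by decide)
         (.s3 4111159926 4181436164 35138120 (by decide)
          (.s2 (-1036574510) (-1001436390) 17569060 (by decide)
           (ok_go H c11a_1339)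
           (.s3 4093590866 4128728986 17569060 (by decide)
            (ok_go H c11a_1340)
            (ok_go H c11a_1341)))
          (ok_go H c11a_1342))
         (ok_go H c11a_1343)))))
     (.s3 4005745569 4146298045 70276239 (by decide)
      (.s1 3033320653 3087007745 26843546 (by decide)
       (.s2 (-948729212) (-878452974) 35138120 (by decide)
        (.s3 3970607450 4040883688 35138120 (by decide)
         (ok_go H c11a_1344)
         (ok_go H c11a_1345))
        (.s3 3970607450 4040883688 35138120 (by decide)
         (ok_go H c11a_1346)
         (ok_go H c11a_1347)))
       (.s2 (-948729212) (-878452974) 35138120 (by decide)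
        (.s1 3073585972 3100429518 13421773 (by decide)
         (.s3 3970607450 4040883688 35138120 (by decide)
          (ok_go H c11a_1348)
          (.s2 (-966298272) (-931160152) 17569060 (by decide)
           (ok_go H c11a_1349)
           (ok_go H c11a_1350)))
         (ok_go H c11a_1351))
        (.s3 3970607450 4040883688 35138120 (by decide)
         (.s1 3073585972 3100429518 13421773 (by decide)
          (ok_go H c11a_1352)
          (ok_go H c11a_1353))
         (.s1 3073585972 3100429518 13421773 (by decide)
          (ok_go H c11a_1354)
          (ok_go H c11a_1355)))))
      (.s1 3033320653 3087007745 26843546 (by decide)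
       (.s2 (-948729212) (-878452974) 35138120 (by decide)
        (ok_go H c11a_1356)
        (ok_go H c11a_1357))
       (.s2 (-948729212) (-878452974) 35138120 (by decide)
        (.s1 3073585972 3100429518 13421773 (by decide)
         (.s3 4111159926 4181436164 35138120 (by decide)
          (.s2 (-966298272) (-931160152) 17569060 (by decide)
           (ok_go H c11a_1358)
           (ok_go H c11a_1359))
          (ok_go H c11a_1360))
         (ok_go H c11a_1361))
        (.s3 4111159926 4181436164 35138120 (by decide)
         (ok_go H c11a_1362)
         (ok_go H c11a_1363))))))
    (.s2 (-1054143569) (-913591093) 70276239 (by decide)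
     (.s3 4286850521 4427402997 70276239 (by decide)
      (.s1 3033320653 3087007745 26843546 (by decide)
       (ok_go H c11a_1364)
       (ok_go H c11a_1365))
      (ok_go H c11a_1366))
     (.s3 4286850521 4427402997 70276239 (by decide)
      (.s2 (-948729212) (-878452974) 35138120 (by decide)
       (ok_go H c11a_1367)
       (.s1 3033320653 3087007745 26843546 (by decide)
        (ok_go H c11a_1368)
        (ok_go H c11a_1369)))
      (ok_go H c11a_1370))))
   (.s3 4076021807 4357126759 140552477 (by decide)
    (ok_go H c11a_1371)
    (ok_go H c11a_1372)))

theorem ok11a_29 (H : Good p11a L b s) :
    Ok L b s 3113851290 107374183 (-702762379) 140552477 4216574283 281104953 :=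
  (.s1 3060164199 3167538381 53687092 (by decide)
   (.s3 4076021807 4357126759 140552477 (by decide)
    (.s2 (-773038617) (-632486141) 70276239 (by decide)
     (.s3 4005745569 4146298045 70276239 (by decide)
      (.s1 3033320653 3087007745 26843546 (by decide)
       (.s2 (-808176736) (-737900498) 35138120 (by decide)
        (.s3 3970607450 4040883688 35138120 (by decide)
         (ok_go H c11a_1373)
         (ok_go H c11a_1374))
        (.s3 3970607450 4040883688 35138120 (by decide)
         (ok_go H c11a_1375)
         (ok_go H c11a_1376)))
       (.s2 (-808176736) (-737900498) 35138120 (by decide)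
        (.s3 3970607450 4040883688 35138120 (by decide)
         (.s1 3073585972 3100429518 13421773 (by decide)
          (ok_go H c11a_1377)
          (ok_go H c11a_1378))
         (.s1 3073585972 3100429518 13421773 (by decide)
          (ok_go H c11a_1379)
          (ok_go H c11a_1380)))
        (.s3 3970607450 4040883688 35138120 (by decide)
         (ok_go H c11a_1381)
         (.s2 (-755469558) (-720331438) 17569060 (by decide)
          (ok_go H c11a_1382)
          (ok_go H c11a_1383)))))
      (.s1 3033320653 3087007745 26843546 (by decide)
       (.s2 (-808176736) (-737900498) 35138120 (by decide)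
        (ok_go H c11a_1384)
        (ok_go H c11a_1385))
       (.s2 (-808176736) (-737900498) 35138120 (by decide)
        (.s3 4111159926 4181436164 35138120 (by decide)
         (ok_go H c11a_1386)
         (ok_go H c11a_1387))
        (.s3 4111159926 4181436164 35138120 (by decide)
         (ok_go H c11a_1388)
         (ok_go H c11a_1389)))))
     (.s3 4005745569 4146298045 70276239 (by decide)
      (.s1 3033320653 3087007745 26843546 (by decide)
       (.s2 (-667624260) (-597348022) 35138120 (by decide)
        (.s3 3970607450 4040883688 35138120 (by decide)
         (ok_go H c11a_1390)
         (ok_go H c11a_1391))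
        (ok_go H c11a_1392))
       (.s2 (-667624260) (-597348022) 35138120 (by decide)
        (.s3 3970607450 4040883688 35138120 (by decide)
         (.s1 3073585972 3100429518 13421773 (by decide)
          (ok_go H c11a_1393)
          (ok_go H c11a_1394))
         (.s1 3073585972 3100429518 13421773 (by decide)
          (ok_go H c11a_1395)
          (ok_go H c11a_1396)))
        (.s3 3970607450 4040883688 35138120 (by decide)
         (.s1 3073585972 3100429518 13421773 (by decide)
          (ok_go H c11a_1397)
          (.s2 (-614917082) (-579778962) 17569060 (by decide)
           (ok_go H c11a_1398)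
           (ok_go H c11a_1399)))
         (.s1 3073585972 3100429518 13421773 (by decide)
          (ok_go H c11a_1400)
          (.s2 (-614917082) (-579778962) 17569060 (by decide)
           (ok_go H c11a_1401)
           (ok_go H c11a_1402))))))
      (.s1 3033320653 3087007745 26843546 (by decide)
       (.s2 (-667624260) (-597348022) 35138120 (by decide)
        (ok_go H c11a_1403)
        (ok_go H c11a_1404))
       (.s2 (-667624260) (-597348022) 35138120 (by decide)
        (.s3 4111159926 4181436164 35138120 (by decide)
         (.s1 3073585972 3100429518 13421773 (by decide)
          (ok_go H c11a_1405)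
          (ok_go H c11a_1406))
         (ok_go H c11a_1407))
        (.s3 4111159926 4181436164 35138120 (by decide)
         (.s1 3073585972 3100429518 13421773 (by decide)
          (ok_go H c11a_1408)
          (ok_go H c11a_1409))
         (ok_go H c11a_1410))))))
    (.s2 (-773038617) (-632486141) 70276239 (by decide)
     (.s3 4286850521 4427402997 70276239 (by decide)
      (.s1 3033320653 3087007745 26843546 (by decide)
       (ok_go H c11a_1411)
       (.s2 (-808176736) (-737900498) 35138120 (by decide)
        (ok_go H c11a_1412)
        (ok_go H c11a_1413)))
      (ok_go H c11a_1414))
     (.s3 4286850521 4427402997 70276239 (by decide)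
      (.s1 3033320653 3087007745 26843546 (by decide)
       (ok_go H c11a_1415)
       (ok_go H c11a_1416))
      (ok_go H c11a_1417))))
   (.s3 4076021807 4357126759 140552477 (by decide)
    (.s2 (-773038617) (-632486141) 70276239 (by decide)
     (ok_go H c11a_1418)
     (ok_go H c11a_1419))
    (ok_go H c11a_1420)))

theorem ok11a_30 (H : Good p11a L b s) :
    Ok L b s 3328599654 107374183 (-843314855) 281104953 4216574283 281104953 :=
  (ok_go H c11a_1421)

theorem ok11a_31 (H : Good p11a L b s) :
    Ok L b s 3113851290 107374183 (-421657427) 140552477 3654364379 281104953 :=
  (.s3 3513811903 3794916855 140552477 (by decide)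
   (.s1 3060164199 3167538381 53687092 (by decide)
    (.s2 (-491933665) (-351381189) 70276239 (by decide)
     (.s3 3443535665 3584088141 70276239 (by decide)
      (ok_go H c11a_1422)
      (.s1 3033320653 3087007745 26843546 (by decide)
       (.s2 (-527071784) (-456795546) 35138120 (by decide)
        (ok_go H c11a_1423)
        (ok_go H c11a_1424))
       (.s2 (-527071784) (-456795546) 35138120 (by decide)
        (ok_go H c11a_1425)
        (.s3 3548950022 3619226260 35138120 (by decide)
         (ok_go H c11a_1426)
         (.s1 3073585972 3100429518 13421773 (by decide)
          (ok_go H c11a_1427)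
          (ok_go H c11a_1428))))))
     (.s3 3443535665 3584088141 70276239 (by decide)
      (ok_go H c11a_1429)
      (.s1 3033320653 3087007745 26843546 (by decide)
       (.s2 (-386519308) (-316243070) 35138120 (by decide)
        (.s3 3548950022 3619226260 35138120 (by decide)
         (ok_go H c11a_1430)
         (ok_go H c11a_1431))
        (.s3 3548950022 3619226260 35138120 (by decide)
         (ok_go H c11a_1432)
         (ok_go H c11a_1433)))
       (.s2 (-386519308) (-316243070) 35138120 (by decide)
        (.s3 3548950022 3619226260 35138120 (by decide)
         (ok_go H c11a_1434)
         (ok_go H c11a_1435))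
        (.s3 3548950022 3619226260 35138120 (by decide)
         (ok_go H c11a_1436)
         (ok_go H c11a_1437))))))
    (.s2 (-491933665) (-351381189) 70276239 (by decide)
     (ok_go H c11a_1438)
     (ok_go H c11a_1439)))
   (.s1 3060164199 3167538381 53687092 (by decide)
    (.s2 (-491933665) (-351381189) 70276239 (by decide)
     (.s3 3724640617 3865193093 70276239 (by decide)
      (.s1 3033320653 3087007745 26843546 (by decide)
       (.s2 (-527071784) (-456795546) 35138120 (by decide)
        (.s3 3689502498 3759778736 35138120 (by decide)
         (ok_go H c11a_1440)
         (ok_go H c11a_1441))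
        (.s3 3689502498 3759778736 35138120 (by decide)
         (ok_go H c11a_1442)
         (ok_go H c11a_1443)))
       (.s2 (-527071784) (-456795546) 35138120 (by decide)
        (.s3 3689502498 3759778736 35138120 (by decide)
         (.s1 3073585972 3100429518 13421773 (by decide)
          (ok_go H c11a_1444)
          (ok_go H c11a_1445))
         (ok_go H c11a_1446))
        (.s3 3689502498 3759778736 35138120 (by decide)
         (ok_go H c11a_1447)
         (ok_go H c11a_1448))))
      (.s1 3033320653 3087007745 26843546 (by decide)
       (.s2 (-527071784) (-456795546) 35138120 (by decide)
        (.s3 3830054974 3900331212 35138120 (by decide)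
         (ok_go H c11a_1449)
         (ok_go H c11a_1450))
        (.s3 3830054974 3900331212 35138120 (by decide)
         (ok_go H c11a_1451)
         (ok_go H c11a_1452)))
       (.s2 (-527071784) (-456795546) 35138120 (by decide)
        (.s3 3830054974 3900331212 35138120 (by decide)
         (ok_go H c11a_1453)
         (ok_go H c11a_1454))
        (.s3 3830054974 3900331212 35138120 (by decide)
         (ok_go H c11a_1455)
         (ok_go H c11a_1456)))))
     (.s3 3724640617 3865193093 70276239 (by decide)
      (.s1 3033320653 3087007745 26843546 (by decide)
       (.s2 (-386519308) (-316243070) 35138120 (by decide)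
        (.s3 3689502498 3759778736 35138120 (by decide)
         (ok_go H c11a_1457)
         (ok_go H c11a_1458))
        (.s3 3689502498 3759778736 35138120 (by decide)
         (ok_go H c11a_1459)
         (ok_go H c11a_1460)))
       (.s2 (-386519308) (-316243070) 35138120 (by decide)
        (.s3 3689502498 3759778736 35138120 (by decide)
         (ok_go H c11a_1461)
         (ok_go H c11a_1462))
        (.s3 3689502498 3759778736 35138120 (by decide)
         (ok_go H c11a_1463)
         (ok_go H c11a_1464))))
      (.s1 3033320653 3087007745 26843546 (by decide)
       (.s2 (-386519308) (-316243070) 35138120 (by decide)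
        (.s3 3830054974 3900331212 35138120 (by decide)
         (ok_go H c11a_1465)
         (ok_go H c11a_1466))
        (.s3 3830054974 3900331212 35138120 (by decide)
         (ok_go H c11a_1467)
         (ok_go H c11a_1468)))
       (.s2 (-386519308) (-316243070) 35138120 (by decide)
        (.s3 3830054974 3900331212 35138120 (by decide)
         (.s1 3073585972 3100429518 13421773 (by decide)
          (ok_go H c11a_1469)
          (ok_go H c11a_1470))
         (ok_go H c11a_1471))
        (.s3 3830054974 3900331212 35138120 (by decide)
         (ok_go H c11a_1472)
         (ok_go H c11a_1473))))))
    (.s2 (-491933665) (-351381189) 70276239 (by decide)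
     (.s3 3724640617 3865193093 70276239 (by decide)
      (ok_go H c11a_1474)
      (ok_go H c11a_1475))
     (.s3 3724640617 3865193093 70276239 (by decide)
      (ok_go H c11a_1476)
      (ok_go H c11a_1477)))))

theorem ok11a_32 (H : Good p11a L b s) :
    Ok L b s 3113851290 107374183 (-140552475) 140552477 3654364379 281104953 :=
  (.s3 3513811903 3794916855 140552477 (by decide)
   (.s1 3060164199 3167538381 53687092 (by decide)
    (.s2 (-210828713) (-70276237) 70276239 (by decide)
     (.s3 3443535665 3584088141 70276239 (by decide)
      (.s1 3033320653 3087007745 26843546 (by decide)
       (.s2 (-245966832) (-175690594) 35138120 (by decide)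
        (ok_go H c11a_1478)
        (ok_go H c11a_1479))
       (ok_go H c11a_1480))
      (.s1 3033320653 3087007745 26843546 (by decide)
       (.s2 (-245966832) (-175690594) 35138120 (by decide)
        (ok_go H c11a_1481)
        (ok_go H c11a_1482))
       (.s2 (-245966832) (-175690594) 35138120 (by decide)
        (ok_go H c11a_1483)
        (ok_go H c11a_1484))))
     (.s3 3443535665 3584088141 70276239 (by decide)
      (.s1 3033320653 3087007745 26843546 (by decide)
       (.s2 (-105414356) (-35138118) 35138120 (by decide)
        (ok_go H c11a_1485)
        (ok_go H c11a_1486))
       (ok_go H c11a_1487))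
      (.s1 3033320653 3087007745 26843546 (by decide)
       (.s2 (-105414356) (-35138118) 35138120 (by decide)
        (ok_go H c11a_1488)
        (ok_go H c11a_1489))
       (ok_go H c11a_1490))))
    (.s2 (-210828713) (-70276237) 70276239 (by decide)
     (.s3 3443535665 3584088141 70276239 (by decide)
      (ok_go H c11a_1491)
      (ok_go H c11a_1492))
     (ok_go H c11a_1493)))
   (.s1 3060164199 3167538381 53687092 (by decide)
    (.s2 (-210828713) (-70276237) 70276239 (by decide)
     (.s3 3724640617 3865193093 70276239 (by decide)
      (.s1 3033320653 3087007745 26843546 (by decide)
       (.s2 (-245966832) (-175690594) 35138120 (by decide)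
        (.s3 3689502498 3759778736 35138120 (by decide)
         (ok_go H c11a_1494)
         (ok_go H c11a_1495))
        (ok_go H c11a_1496))
       (.s2 (-245966832) (-175690594) 35138120 (by decide)
        (.s3 3689502498 3759778736 35138120 (by decide)
         (ok_go H c11a_1497)
         (ok_go H c11a_1498))
        (ok_go H c11a_1499)))
      (.s1 3033320653 3087007745 26843546 (by decide)
       (.s2 (-245966832) (-175690594) 35138120 (by decide)
        (ok_go H c11a_1500)
        (ok_go H c11a_1501))
       (.s2 (-245966832) (-175690594) 35138120 (by decide)
        (ok_go H c11a_1502)
        (ok_go H c11a_1503))))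
     (.s3 3724640617 3865193093 70276239 (by decide)
      (.s1 3033320653 3087007745 26843546 (by decide)
       (ok_go H c11a_1504)
       (.s2 (-105414356) (-35138118) 35138120 (by decide)
        (ok_go H c11a_1505)
        (ok_go H c11a_1506)))
      (ok_go H c11a_1507)))
    (.s2 (-210828713) (-70276237) 70276239 (by decide)
     (.s3 3724640617 3865193093 70276239 (by decide)
      (ok_go H c11a_1508)
      (ok_go H c11a_1509))
     (.s3 3724640617 3865193093 70276239 (by decide)
      (ok_go H c11a_1510)
      (ok_go H c11a_1511)))))

theorem ok11a_33 (H : Good p11a L b s) :
    Ok L b s 3328599654 107374183 (-281104951) 281104953 3654364379 281104953 :=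
  (.s2 (-421657427) (-140552475) 140552477 (by decide)
   (.s3 3513811903 3794916855 140552477 (by decide)
    (ok_go H c11a_1512)
    (ok_go H c11a_1513))
   (.s3 3513811903 3794916855 140552477 (by decide)
    (ok_go H c11a_1514)
    (ok_go H c11a_1515)))

theorem ok11a_34 (H : Good p11a L b s) :
    Ok L b s 3221225472 214748365 (-281104951) 281104953 4216574283 281104953 :=
  (.s1 3113851290 3328599654 107374183 (by decide)
   (.s2 (-421657427) (-140552475) 140552477 (by decide)
    (.s3 4076021807 4357126759 140552477 (by decide)
     (.s1 3060164199 3167538381 53687092 (by decide)
      (.s2 (-491933665) (-351381189) 70276239 (by decide)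
       (.s3 4005745569 4146298045 70276239 (by decide)
        (.s1 3033320653 3087007745 26843546 (by decide)
         (.s2 (-527071784) (-456795546) 35138120 (by decide)
          (ok_go H c11a_1516)
          (ok_go H c11a_1517))
         (.s2 (-527071784) (-456795546) 35138120 (by decide)
          (.s3 3970607450 4040883688 35138120 (by decide)
           (ok_go H c11a_1518)
           (ok_go H c11a_1519))
          (.s3 3970607450 4040883688 35138120 (by decide)
           (ok_go H c11a_1520)
           (ok_go H c11a_1521))))
        (.s1 3033320653 3087007745 26843546 (by decide)
         (ok_go H c11a_1522)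
         (.s2 (-527071784) (-456795546) 35138120 (by decide)
          (ok_go H c11a_1523)
          (ok_go H c11a_1524))))
       (.s3 4005745569 4146298045 70276239 (by decide)
        (.s1 3033320653 3087007745 26843546 (by decide)
         (ok_go H c11a_1525)
         (.s2 (-386519308) (-316243070) 35138120 (by decide)
          (ok_go H c11a_1526)
          (ok_go H c11a_1527)))
        (ok_go H c11a_1528)))
      (.s2 (-491933665) (-351381189) 70276239 (by decide)
       (.s3 4005745569 4146298045 70276239 (by decide)
        (ok_go H c11a_1529)
        (ok_go H c11a_1530))
       (ok_go H c11a_1531)))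
     (.s1 3060164199 3167538381 53687092 (by decide)
      (.s2 (-491933665) (-351381189) 70276239 (by decide)
       (ok_go H c11a_1532)
       (ok_go H c11a_1533))
      (ok_go H c11a_1534)))
    (.s3 4076021807 4357126759 140552477 (by decide)
     (.s1 3060164199 3167538381 53687092 (by decide)
      (.s2 (-210828713) (-70276237) 70276239 (by decide)
       (.s3 4005745569 4146298045 70276239 (by decide)
        (ok_go H c11a_1535)
        (ok_go H c11a_1536))
       (ok_go H c11a_1537))
      (ok_go H c11a_1538))
     (ok_go H c11a_1539)))
   (.s2 (-421657427) (-140552475) 140552477 (by decide)
    (ok_go H c11a_1540)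
    (ok_go H c11a_1541)))

theorem ok11a_35 (H : Good p11a L b s) :
    Ok L b s 2791728742 214748365 1124419810 1124419810 2811049521 562209905 :=
  (.s2 562209905 1686629715 562209905 (by decide)
   (.s1 2684354560 2899102924 107374183 (by decide)
    (.s3 2529944569 3092154473 281104953 (by decide)
     (ok_go H c11a_1542)
     (.s2 281104953 843314857 281104953 (by decide)
      (.s2 140552477 421657429 140552477 (by decide)
       (ok_go H c11a_1543)
       (ok_go H c11a_1544))
      (.s2 702762381 983867333 140552477 (by decide)
       (.s3 2951601997 3232706949 140552477 (by decide)
        (ok_go H c11a_1545)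
        (ok_go H c11a_1546))
       (.s3 2951601997 3232706949 140552477 (by decide)
        (ok_go H c11a_1547)
        (.s1 2630667469 2738041651 53687092 (by decide)
         (ok_go H c11a_1548)
         (.s2 913591095 1054143571 70276239 (by decide)
          (ok_go H c11a_1549)
          (ok_go H c11a_1550)))))))
    (.s2 281104953 843314857 281104953 (by decide)
     (.s3 2529944569 3092154473 281104953 (by decide)
      (ok_go H c11a_1551)
      (.s2 140552477 421657429 140552477 (by decide)
       (.s3 2951601997 3232706949 140552477 (by decide)
        (ok_go H c11a_1552)
        (.s1 2845415833 2952790015 53687092 (by decide)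
         (.s2 70276239 210828715 70276239 (by decide)
          (ok_go H c11a_1553)
          (ok_go H c11a_1554))
         (.s2 70276239 210828715 70276239 (by decide)
          (.s3 3162430711 3302983187 70276239 (by decide)
           (ok_go H c11a_1555)
           (.s1 2925946469 2979633561 26843546 (by decide)
            (.s2 35138120 105414358 35138120 (by decide)
             (ok_go H c11a_1556)
             (ok_go H c11a_1557))
            (.s2 35138120 105414358 35138120 (by decide)
             (ok_go H c11a_1558)
             (.s3 3267845068 3338121306 35138120 (by decide)
              (ok_go H c11a_1559)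
              (.s1 2966211788 2993055334 13421773 (by decide)
               (ok_go H c11a_1560)
               (ok_go H c11a_1561))))))
          (.s3 3162430711 3302983187 70276239 (by decide)
           (ok_go H c11a_1562)
           (.s1 2925946469 2979633561 26843546 (by decide)
            (.s2 175690596 245966834 35138120 (by decide)
             (.s3 3267845068 3338121306 35138120 (by decide)
              (ok_go H c11a_1563)
              (ok_go H c11a_1564))
             (.s3 3267845068 3338121306 35138120 (by decide)
              (ok_go H c11a_1565)
              (ok_go H c11a_1566)))
            (.s2 175690596 245966834 35138120 (by decide)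
             (.s3 3267845068 3338121306 35138120 (by decide)
              (ok_go H c11a_1567)
              (.s1 2966211788 2993055334 13421773 (by decide)
               (ok_go H c11a_1568)
               (ok_go H c11a_1569)))
             (.s3 3267845068 3338121306 35138120 (by decide)
              (ok_go H c11a_1570)
              (.s1 2966211788 2993055334 13421773 (by decide)
               (ok_go H c11a_1571)
               (ok_go H c11a_1572)))))))))
       (.s3 2951601997 3232706949 140552477 (by decide)
        (ok_go H c11a_1573)
        (.s1 2845415833 2952790015 53687092 (by decide)
         (.s2 351381191 491933667 70276239 (by decide)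
          (ok_go H c11a_1574)
          (ok_go H c11a_1575))
         (.s2 351381191 491933667 70276239 (by decide)
          (.s3 3162430711 3302983187 70276239 (by decide)
           (.s1 2925946469 2979633561 26843546 (by decide)
            (ok_go H c11a_1576)
            (ok_go H c11a_1577))
           (.s1 2925946469 2979633561 26843546 (by decide)
            (.s2 316243072 386519310 35138120 (by decide)
             (ok_go H c11a_1578)
             (ok_go H c11a_1579))
            (.s2 316243072 386519310 35138120 (by decide)
             (.s3 3267845068 3338121306 35138120 (by decide)
              (ok_go H c11a_1580)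
              (ok_go H c11a_1581))
             (ok_go H c11a_1582))))
          (.s3 3162430711 3302983187 70276239 (by decide)
           (ok_go H c11a_1583)
           (.s1 2925946469 2979633561 26843546 (by decide)
            (ok_go H c11a_1584)
            (ok_go H c11a_1585))))))))
     (.s3 2529944569 3092154473 281104953 (by decide)
      (ok_go H c11a_1586)
      (.s2 702762381 983867333 140552477 (by decide)
       (.s3 2951601997 3232706949 140552477 (by decide)
        (.s1 2845415833 2952790015 53687092 (by decide)
         (ok_go H c11a_1587)
         (ok_go H c11a_1588))
        (.s1 2845415833 2952790015 53687092 (by decide)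
         (ok_go H c11a_1589)
         (.s2 632486143 773038619 70276239 (by decide)
          (.s3 3162430711 3302983187 70276239 (by decide)
           (ok_go H c11a_1590)
           (ok_go H c11a_1591))
          (.s3 3162430711 3302983187 70276239 (by decide)
           (ok_go H c11a_1592)
           (ok_go H c11a_1593)))))
       (.s3 2951601997 3232706949 140552477 (by decide)
        (.s1 2845415833 2952790015 53687092 (by decide)
         (ok_go H c11a_1594)
         (ok_go H c11a_1595))
        (.s1 2845415833 2952790015 53687092 (by decide)
         (.s2 913591095 1054143571 70276239 (by decide)
          (ok_go H c11a_1596)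
          (ok_go H c11a_1597))
         (.s2 913591095 1054143571 70276239 (by decide)
          (ok_go H c11a_1598)
          (ok_go H c11a_1599))))))))
   (.s1 2684354560 2899102924 107374183 (by decide)
    (.s3 2529944569 3092154473 281104953 (by decide)
     (.s2 1405524763 1967734667 281104953 (by decide)
      (.s2 1264972287 1546077239 140552477 (by decide)
       (ok_go H c11a_1600)
       (.s3 2389392093 2670497045 140552477 (by decide)
        (ok_go H c11a_1601)
        (.s1 2630667469 2738041651 53687092 (by decide)
         (ok_go H c11a_1602)
         (ok_go H c11a_1603))))
      (.s3 2389392093 2670497045 140552477 (by decide)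
       (.s2 1827182191 2108287143 140552477 (by decide)
        (ok_go H c11a_1604)
        (ok_go H c11a_1605))
       (.s2 1827182191 2108287143 140552477 (by decide)
        (ok_go H c11a_1606)
        (ok_go H c11a_1607))))
     (.s2 1405524763 1967734667 281104953 (by decide)
      (.s2 1264972287 1546077239 140552477 (by decide)
       (.s3 2951601997 3232706949 140552477 (by decide)
        (.s1 2630667469 2738041651 53687092 (by decide)
         (ok_go H c11a_1608)
         (ok_go H c11a_1609))
        (.s1 2630667469 2738041651 53687092 (by decide)
         (ok_go H c11a_1610)
         (ok_go H c11a_1611)))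
       (.s3 2951601997 3232706949 140552477 (by decide)
        (ok_go H c11a_1612)
        (.s1 2630667469 2738041651 53687092 (by decide)
         (ok_go H c11a_1613)
         (ok_go H c11a_1614))))
      (.s3 2951601997 3232706949 140552477 (by decide)
       (ok_go H c11a_1615)
       (ok_go H c11a_1616))))
    (.s3 2529944569 3092154473 281104953 (by decide)
     (.s2 1405524763 1967734667 281104953 (by decide)
      (ok_go H c11a_1617)
      (.s1 2845415833 2952790015 53687092 (by decide)
       (ok_go H c11a_1618)
       (ok_go H c11a_1619)))
     (.s2 1405524763 1967734667 281104953 (by decide)
      (.s2 1264972287 1546077239 140552477 (by decide)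
       (.s3 2951601997 3232706949 140552477 (by decide)
        (ok_go H c11a_1620)
        (.s1 2845415833 2952790015 53687092 (by decide)
         (.s2 1194696049 1335248525 70276239 (by decide)
          (ok_go H c11a_1621)
          (ok_go H c11a_1622))
         (.s2 1194696049 1335248525 70276239 (by decide)
          (ok_go H c11a_1623)
          (ok_go H c11a_1624))))
       (.s3 2951601997 3232706949 140552477 (by decide)
        (.s1 2845415833 2952790015 53687092 (by decide)
         (ok_go H c11a_1625)
         (ok_go H c11a_1626))
        (.s1 2845415833 2952790015 53687092 (by decide)
         (ok_go H c11a_1627)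
         (.s2 1475801001 1616353477 70276239 (by decide)
          (ok_go H c11a_1628)
          (ok_go H c11a_1629)))))
      (.s2 1827182191 2108287143 140552477 (by decide)
       (.s3 2951601997 3232706949 140552477 (by decide)
        (ok_go H c11a_1630)
        (ok_go H c11a_1631))
       (ok_go H c11a_1632))))))

theorem ok11a_36 (H : Good p11a L b s) :
    Ok L b s 2684354560 107374183 281104953 281104953 3654364379 281104953 :=
  (.s2 140552477 421657429 140552477 (by decide)
   (.s3 3513811903 3794916855 140552477 (by decide)
    (ok_go H c11a_1633)
    (.s1 2630667469 2738041651 53687092 (by decide)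
     (ok_go H c11a_1634)
     (ok_go H c11a_1635)))
   (.s3 3513811903 3794916855 140552477 (by decide)
    (.s1 2630667469 2738041651 53687092 (by decide)
     (ok_go H c11a_1636)
     (ok_go H c11a_1637))
    (.s1 2630667469 2738041651 53687092 (by decide)
     (.s2 351381191 491933667 70276239 (by decide)
      (.s3 3724640617 3865193093 70276239 (by decide)
       (ok_go H c11a_1638)
       (ok_go H c11a_1639))
      (.s3 3724640617 3865193093 70276239 (by decide)
       (ok_go H c11a_1640)
       (ok_go H c11a_1641)))
     (.s2 351381191 491933667 70276239 (by decide)
      (.s3 3724640617 3865193093 70276239 (by decide)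
       (ok_go H c11a_1642)
       (ok_go H c11a_1643))
      (.s3 3724640617 3865193093 70276239 (by decide)
       (ok_go H c11a_1644)
       (.s1 2711198105 2764885197 26843546 (by decide)
        (.s2 456795548 527071786 35138120 (by decide)
         (ok_go H c11a_1645)
         (ok_go H c11a_1646))
        (.s2 456795548 527071786 35138120 (by decide)
         (ok_go H c11a_1647)
         (.s3 3830054974 3900331212 35138120 (by decide)
          (ok_go H c11a_1648)
          (ok_go H c11a_1649)))))))))

theorem ok11a_37 (H : Good p11a L b s) :
    Ok L b s 2684354560 107374183 702762381 140552477 3654364379 281104953 :=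
  (.s3 3513811903 3794916855 140552477 (by decide)
   (.s1 2630667469 2738041651 53687092 (by decide)
    (.s2 632486143 773038619 70276239 (by decide)
     (ok_go H c11a_1650)
     (ok_go H c11a_1651))
    (.s2 632486143 773038619 70276239 (by decide)
     (ok_go H c11a_1652)
     (.s3 3443535665 3584088141 70276239 (by decide)
      (ok_go H c11a_1653)
      (.s1 2711198105 2764885197 26843546 (by decide)
       (ok_go H c11a_1654)
       (.s2 737900500 808176738 35138120 (by decide)
        (ok_go H c11a_1655)
        (ok_go H c11a_1656))))))
   (.s1 2630667469 2738041651 53687092 (by decide)
    (.s2 632486143 773038619 70276239 (by decide)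
     (.s3 3724640617 3865193093 70276239 (by decide)
      (ok_go H c11a_1657)
      (.s1 2603823923 2657511015 26843546 (by decide)
       (ok_go H c11a_1658)
       (ok_go H c11a_1659)))
     (.s3 3724640617 3865193093 70276239 (by decide)
      (.s1 2603823923 2657511015 26843546 (by decide)
       (ok_go H c11a_1660)
       (ok_go H c11a_1661))
      (.s1 2603823923 2657511015 26843546 (by decide)
       (ok_go H c11a_1662)
       (.s2 737900500 808176738 35138120 (by decide)
        (ok_go H c11a_1663)
        (.s3 3830054974 3900331212 35138120 (by decide)
         (ok_go H c11a_1664)
         (ok_go H c11a_1665))))))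
    (.s2 632486143 773038619 70276239 (by decide)
     (.s3 3724640617 3865193093 70276239 (by decide)
      (.s1 2711198105 2764885197 26843546 (by decide)
       (.s2 597348024 667624262 35138120 (by decide)
        (ok_go H c11a_1666)
        (ok_go H c11a_1667))
       (.s2 597348024 667624262 35138120 (by decide)
        (ok_go H c11a_1668)
        (.s3 3689502498 3759778736 35138120 (by decide)
         (ok_go H c11a_1669)
         (ok_go H c11a_1670))))
      (.s1 2711198105 2764885197 26843546 (by decide)
       (ok_go H c11a_1671)
       (.s2 597348024 667624262 35138120 (by decide)
        (ok_go H c11a_1672)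
        (ok_go H c11a_1673))))
     (.s3 3724640617 3865193093 70276239 (by decide)
      (.s1 2711198105 2764885197 26843546 (by decide)
       (.s2 737900500 808176738 35138120 (by decide)
        (ok_go H c11a_1674)
        (ok_go H c11a_1675))
       (.s2 737900500 808176738 35138120 (by decide)
        (ok_go H c11a_1676)
        (ok_go H c11a_1677)))
      (.s1 2711198105 2764885197 26843546 (by decide)
       (.s2 737900500 808176738 35138120 (by decide)
        (ok_go H c11a_1678)
        (.s3 3830054974 3900331212 35138120 (by decide)
         (ok_go H c11a_1679)
         (ok_go H c11a_1680)))
       (.s2 737900500 808176738 35138120 (by decide)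
        (ok_go H c11a_1681)
        (ok_go H c11a_1682)))))))

theorem ok11a_38 (H : Good p11a L b s) :
    Ok L b s 2684354560 107374183 983867333 140552477 3654364379 281104953 :=
  (.s3 3513811903 3794916855 140552477 (by decide)
   (.s1 2630667469 2738041651 53687092 (by decide)
    (.s2 913591095 1054143571 70276239 (by decide)
     (ok_go H c11a_1683)
     (.s3 3443535665 3584088141 70276239 (by decide)
      (ok_go H c11a_1684)
      (ok_go H c11a_1685)))
    (.s2 913591095 1054143571 70276239 (by decide)
     (.s3 3443535665 3584088141 70276239 (by decide)
      (.s1 2711198105 2764885197 26843546 (by decide)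
       (ok_go H c11a_1686)
       (ok_go H c11a_1687))
      (.s1 2711198105 2764885197 26843546 (by decide)
       (ok_go H c11a_1688)
       (ok_go H c11a_1689)))
     (.s3 3443535665 3584088141 70276239 (by decide)
      (ok_go H c11a_1690)
      (.s1 2711198105 2764885197 26843546 (by decide)
       (ok_go H c11a_1691)
       (ok_go H c11a_1692)))))
   (.s1 2630667469 2738041651 53687092 (by decide)
    (.s2 913591095 1054143571 70276239 (by decide)
     (.s3 3724640617 3865193093 70276239 (by decide)
      (.s1 2603823923 2657511015 26843546 (by decide)
       (ok_go H c11a_1693)
       (.s2 878452976 948729214 35138120 (by decide)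
        (ok_go H c11a_1694)
        (ok_go H c11a_1695)))
      (.s1 2603823923 2657511015 26843546 (by decide)
       (.s2 878452976 948729214 35138120 (by decide)
        (ok_go H c11a_1696)
        (ok_go H c11a_1697))
       (.s2 878452976 948729214 35138120 (by decide)
        (.s3 3830054974 3900331212 35138120 (by decide)
         (ok_go H c11a_1698)
         (ok_go H c11a_1699))
        (.s3 3830054974 3900331212 35138120 (by decide)
         (ok_go H c11a_1700)
         (ok_go H c11a_1701)))))
     (.s3 3724640617 3865193093 70276239 (by decide)
      (.s1 2603823923 2657511015 26843546 (by decide)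
       (ok_go H c11a_1702)
       (.s2 1019005452 1089281690 35138120 (by decide)
        (.s3 3689502498 3759778736 35138120 (by decide)
         (ok_go H c11a_1703)
         (ok_go H c11a_1704))
        (.s3 3689502498 3759778736 35138120 (by decide)
         (ok_go H c11a_1705)
         (ok_go H c11a_1706))))
      (.s1 2603823923 2657511015 26843546 (by decide)
       (.s2 1019005452 1089281690 35138120 (by decide)
        (ok_go H c11a_1707)
        (ok_go H c11a_1708))
       (.s2 1019005452 1089281690 35138120 (by decide)
        (.s3 3830054974 3900331212 35138120 (by decide)
         (ok_go H c11a_1709)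
         (ok_go H c11a_1710))
        (.s3 3830054974 3900331212 35138120 (by decide)
         (ok_go H c11a_1711)
         (ok_go H c11a_1712))))))
    (.s2 913591095 1054143571 70276239 (by decide)
     (.s3 3724640617 3865193093 70276239 (by decide)
      (.s1 2711198105 2764885197 26843546 (by decide)
       (.s2 878452976 948729214 35138120 (by decide)
        (ok_go H c11a_1713)
        (.s3 3689502498 3759778736 35138120 (by decide)
         (ok_go H c11a_1714)
         (.s1 2697776332 2724619878 13421773 (by decide)
          (ok_go H c11a_1715)
          (ok_go H c11a_1716))))
       (.s2 878452976 948729214 35138120 (by decide)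
        (ok_go H c11a_1717)
        (ok_go H c11a_1718)))
      (.s1 2711198105 2764885197 26843546 (by decide)
       (.s2 878452976 948729214 35138120 (by decide)
        (.s3 3830054974 3900331212 35138120 (by decide)
         (ok_go H c11a_1719)
         (ok_go H c11a_1720))
        (.s3 3830054974 3900331212 35138120 (by decide)
         (.s1 2697776332 2724619878 13421773 (by decide)
          (ok_go H c11a_1721)
          (ok_go H c11a_1722))
         (ok_go H c11a_1723)))
       (.s2 878452976 948729214 35138120 (by decide)
        (ok_go H c11a_1724)
        (ok_go H c11a_1725))))
     (.s3 3724640617 3865193093 70276239 (by decide)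
      (.s1 2711198105 2764885197 26843546 (by decide)
       (.s2 1019005452 1089281690 35138120 (by decide)
        (.s3 3689502498 3759778736 35138120 (by decide)
         (ok_go H c11a_1726)
         (.s1 2697776332 2724619878 13421773 (by decide)
          (ok_go H c11a_1727)
          (ok_go H c11a_1728)))
        (.s3 3689502498 3759778736 35138120 (by decide)
         (ok_go H c11a_1729)
         (.s1 2697776332 2724619878 13421773 (by decide)
          (ok_go H c11a_1730)
          (ok_go H c11a_1731))))
       (.s2 1019005452 1089281690 35138120 (by decide)
        (ok_go H c11a_1732)
        (ok_go H c11a_1733)))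
      (.s1 2711198105 2764885197 26843546 (by decide)
       (.s2 1019005452 1089281690 35138120 (by decide)
        (.s3 3830054974 3900331212 35138120 (by decide)
         (.s1 2697776332 2724619878 13421773 (by decide)
          (ok_go H c11a_1734)
          (ok_go H c11a_1735))
         (ok_go H c11a_1736))
        (.s3 3830054974 3900331212 35138120 (by decide)
         (.s1 2697776332 2724619878 13421773 (by decide)
          (ok_go H c11a_1737)
          (ok_go H c11a_1738))
         (ok_go H c11a_1739)))
       (.s2 1019005452 1089281690 35138120 (by decide)
        (ok_go H c11a_1740)
        (ok_go H c11a_1741)))))))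

theorem ok11a_39 (H : Good p11a L b s) :
    Ok L b s 2684354560 107374183 562209905 562209905 4216574283 281104953 :=
  (.s2 281104953 843314857 281104953 (by decide)
   (.s2 140552477 421657429 140552477 (by decide)
    (.s3 4076021807 4357126759 140552477 (by decide)
     (.s1 2630667469 2738041651 53687092 (by decide)
      (.s2 70276239 210828715 70276239 (by decide)
       (ok_go H c11a_1742)
       (.s3 4005745569 4146298045 70276239 (by decide)
        (ok_go H c11a_1743)
        (ok_go H c11a_1744)))
      (.s2 70276239 210828715 70276239 (by decide)
       (ok_go H c11a_1745)
       (.s3 4005745569 4146298045 70276239 (by decide)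
        (ok_go H c11a_1746)
        (ok_go H c11a_1747))))
     (.s1 2630667469 2738041651 53687092 (by decide)
      (ok_go H c11a_1748)
      (.s2 70276239 210828715 70276239 (by decide)
       (ok_go H c11a_1749)
       (ok_go H c11a_1750))))
    (.s3 4076021807 4357126759 140552477 (by decide)
     (.s1 2630667469 2738041651 53687092 (by decide)
      (.s2 351381191 491933667 70276239 (by decide)
       (.s3 4005745569 4146298045 70276239 (by decide)
        (ok_go H c11a_1751)
        (ok_go H c11a_1752))
       (.s3 4005745569 4146298045 70276239 (by decide)
        (.s1 2603823923 2657511015 26843546 (by decide)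
         (ok_go H c11a_1753)
         (ok_go H c11a_1754))
        (ok_go H c11a_1755)))
      (.s2 351381191 491933667 70276239 (by decide)
       (.s3 4005745569 4146298045 70276239 (by decide)
        (.s1 2711198105 2764885197 26843546 (by decide)
         (ok_go H c11a_1756)
         (ok_go H c11a_1757))
        (ok_go H c11a_1758))
       (.s3 4005745569 4146298045 70276239 (by decide)
        (.s1 2711198105 2764885197 26843546 (by decide)
         (ok_go H c11a_1759)
         (.s2 456795548 527071786 35138120 (by decide)
          (ok_go H c11a_1760)
          (ok_go H c11a_1761)))
        (ok_go H c11a_1762))))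
     (.s1 2630667469 2738041651 53687092 (by decide)
      (.s2 351381191 491933667 70276239 (by decide)
       (ok_go H c11a_1763)
       (ok_go H c11a_1764))
      (.s2 351381191 491933667 70276239 (by decide)
       (ok_go H c11a_1765)
       (ok_go H c11a_1766)))))
   (.s2 702762381 983867333 140552477 (by decide)
    (.s3 4076021807 4357126759 140552477 (by decide)
     (.s1 2630667469 2738041651 53687092 (by decide)
      (.s2 632486143 773038619 70276239 (by decide)
       (.s3 4005745569 4146298045 70276239 (by decide)
        (.s1 2603823923 2657511015 26843546 (by decide)
         (ok_go H c11a_1767)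
         (ok_go H c11a_1768))
        (.s1 2603823923 2657511015 26843546 (by decide)
         (ok_go H c11a_1769)
         (ok_go H c11a_1770)))
       (.s3 4005745569 4146298045 70276239 (by decide)
        (.s1 2603823923 2657511015 26843546 (by decide)
         (ok_go H c11a_1771)
         (.s2 737900500 808176738 35138120 (by decide)
          (ok_go H c11a_1772)
          (ok_go H c11a_1773)))
        (.s1 2603823923 2657511015 26843546 (by decide)
         (ok_go H c11a_1774)
         (ok_go H c11a_1775))))
      (.s2 632486143 773038619 70276239 (by decide)
       (.s3 4005745569 4146298045 70276239 (by decide)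
        (.s1 2711198105 2764885197 26843546 (by decide)
         (ok_go H c11a_1776)
         (ok_go H c11a_1777))
        (ok_go H c11a_1778))
       (.s3 4005745569 4146298045 70276239 (by decide)
        (.s1 2711198105 2764885197 26843546 (by decide)
         (.s2 737900500 808176738 35138120 (by decide)
          (ok_go H c11a_1779)
          (ok_go H c11a_1780))
         (ok_go H c11a_1781))
        (ok_go H c11a_1782))))
     (.s1 2630667469 2738041651 53687092 (by decide)
      (.s2 632486143 773038619 70276239 (by decide)
       (ok_go H c11a_1783)
       (ok_go H c11a_1784))
      (.s2 632486143 773038619 70276239 (by decide)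
       (ok_go H c11a_1785)
       (ok_go H c11a_1786))))
    (.s3 4076021807 4357126759 140552477 (by decide)
     (.s1 2630667469 2738041651 53687092 (by decide)
      (.s2 913591095 1054143571 70276239 (by decide)
       (.s3 4005745569 4146298045 70276239 (by decide)
        (.s1 2603823923 2657511015 26843546 (by decide)
         (ok_go H c11a_1787)
         (.s2 878452976 948729214 35138120 (by decide)
          (ok_go H c11a_1788)
          (ok_go H c11a_1789)))
        (ok_go H c11a_1790))
       (.s3 4005745569 4146298045 70276239 (by decide)
        (.s1 2603823923 2657511015 26843546 (by decide)
         (ok_go H c11a_1791)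
         (.s2 1019005452 1089281690 35138120 (by decide)
          (ok_go H c11a_1792)
          (ok_go H c11a_1793)))
        (.s1 2603823923 2657511015 26843546 (by decide)
         (ok_go H c11a_1794)
         (ok_go H c11a_1795))))
      (.s2 913591095 1054143571 70276239 (by decide)
       (.s3 4005745569 4146298045 70276239 (by decide)
        (.s1 2711198105 2764885197 26843546 (by decide)
         (.s2 878452976 948729214 35138120 (by decide)
          (ok_go H c11a_1796)
          (ok_go H c11a_1797))
         (ok_go H c11a_1798))
        (ok_go H c11a_1799))
       (.s3 4005745569 4146298045 70276239 (by decide)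
        (.s1 2711198105 2764885197 26843546 (by decide)
         (.s2 1019005452 1089281690 35138120 (by decide)
          (ok_go H c11a_1800)
          (ok_go H c11a_1801))
         (ok_go H c11a_1802))
        (ok_go H c11a_1803))))
     (.s1 2630667469 2738041651 53687092 (by decide)
      (.s2 913591095 1054143571 70276239 (by decide)
       (ok_go H c11a_1804)
       (ok_go H c11a_1805))
      (ok_go H c11a_1806)))))

theorem ok11a_40 (H : Good p11a L b s) :
    Ok L b s 2899102924 107374183 140552477 140552477 3654364379 281104953 :=
  (.s3 3513811903 3794916855 140552477 (by decide)
   (.s1 2845415833 2952790015 53687092 (by decide)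
    (.s2 70276239 210828715 70276239 (by decide)
     (.s3 3443535665 3584088141 70276239 (by decide)
      (ok_go H c11a_1807)
      (ok_go H c11a_1808))
     (ok_go H c11a_1809))
    (.s2 70276239 210828715 70276239 (by decide)
     (.s3 3443535665 3584088141 70276239 (by decide)
      (.s1 2925946469 2979633561 26843546 (by decide)
       (.s2 35138120 105414358 35138120 (by decide)
        (.s3 3408397546 3478673784 35138120 (by decide)
         (ok_go H c11a_1810)
         (ok_go H c11a_1811))
        (.s3 3408397546 3478673784 35138120 (by decide)
         (ok_go H c11a_1812)
         (ok_go H c11a_1813)))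
       (.s2 35138120 105414358 35138120 (by decide)
        (.s3 3408397546 3478673784 35138120 (by decide)
         (ok_go H c11a_1814)
         (ok_go H c11a_1815))
        (.s3 3408397546 3478673784 35138120 (by decide)
         (.s1 2966211788 2993055334 13421773 (by decide)
          (.s2 87845298 122983418 17569060 (by decide)
           (ok_go H c11a_1816)
           (ok_go H c11a_1817))
          (ok_go H c11a_1818))
         (.s1 2966211788 2993055334 13421773 (by decide)
          (ok_go H c11a_1819)
          (ok_go H c11a_1820)))))
      (.s1 2925946469 2979633561 26843546 (by decide)
       (.s2 35138120 105414358 35138120 (by decide)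
        (ok_go H c11a_1821)
        (ok_go H c11a_1822))
       (.s2 35138120 105414358 35138120 (by decide)
        (ok_go H c11a_1823)
        (ok_go H c11a_1824))))
     (.s3 3443535665 3584088141 70276239 (by decide)
      (.s1 2925946469 2979633561 26843546 (by decide)
       (.s2 175690596 245966834 35138120 (by decide)
        (.s3 3408397546 3478673784 35138120 (by decide)
         (ok_go H c11a_1825)
         (ok_go H c11a_1826))
        (.s3 3408397546 3478673784 35138120 (by decide)
         (ok_go H c11a_1827)
         (ok_go H c11a_1828)))
       (.s2 175690596 245966834 35138120 (by decide)
        (.s3 3408397546 3478673784 35138120 (by decide)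
         (.s1 2966211788 2993055334 13421773 (by decide)
          (.s2 158121536 193259656 17569060 (by decide)
           (ok_go H c11a_1829)
           (ok_go H c11a_1830))
          (ok_go H c11a_1831))
         (.s1 2966211788 2993055334 13421773 (by decide)
          (ok_go H c11a_1832)
          (ok_go H c11a_1833)))
        (.s3 3408397546 3478673784 35138120 (by decide)
         (.s1 2966211788 2993055334 13421773 (by decide)
          (ok_go H c11a_1834)
          (ok_go H c11a_1835))
         (ok_go H c11a_1836))))
      (.s1 2925946469 2979633561 26843546 (by decide)
       (.s2 175690596 245966834 35138120 (by decide)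
        (ok_go H c11a_1837)
        (ok_go H c11a_1838))
       (.s2 175690596 245966834 35138120 (by decide)
        (.s3 3548950022 3619226260 35138120 (by decide)
         (ok_go H c11a_1839)
         (ok_go H c11a_1840))
        (.s3 3548950022 3619226260 35138120 (by decide)
         (ok_go H c11a_1841)
         (.s1 2966211788 2993055334 13421773 (by decide)
          (ok_go H c11a_1842)
          (ok_go H c11a_1843))))))))
   (.s1 2845415833 2952790015 53687092 (by decide)
    (.s2 70276239 210828715 70276239 (by decide)
     (ok_go H c11a_1844)
     (ok_go H c11a_1845))
    (.s2 70276239 210828715 70276239 (by decide)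
     (.s3 3724640617 3865193093 70276239 (by decide)
      (.s1 2925946469 2979633561 26843546 (by decide)
       (ok_go H c11a_1846)
       (.s2 35138120 105414358 35138120 (by decide)
        (ok_go H c11a_1847)
        (ok_go H c11a_1848)))
      (.s1 2925946469 2979633561 26843546 (by decide)
       (ok_go H c11a_1849)
       (ok_go H c11a_1850)))
     (.s3 3724640617 3865193093 70276239 (by decide)
      (.s1 2925946469 2979633561 26843546 (by decide)
       (.s2 175690596 245966834 35138120 (by decide)
        (ok_go H c11a_1851)
        (ok_go H c11a_1852))
       (.s2 175690596 245966834 35138120 (by decide)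
        (.s3 3689502498 3759778736 35138120 (by decide)
         (ok_go H c11a_1853)
         (ok_go H c11a_1854))
        (.s3 3689502498 3759778736 35138120 (by decide)
         (.s1 2966211788 2993055334 13421773 (by decide)
          (ok_go H c11a_1855)
          (ok_go H c11a_1856))
         (ok_go H c11a_1857))))
      (.s1 2925946469 2979633561 26843546 (by decide)
       (ok_go H c11a_1858)
       (ok_go H c11a_1859))))))

theorem ok11a_41 (H : Good p11a L b s) :
    Ok L b s 2899102924 107374183 421657429 140552477 3654364379 281104953 :=
  (.s3 3513811903 3794916855 140552477 (by decide)
   (.s1 2845415833 2952790015 53687092 (by decide)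
    (.s2 351381191 491933667 70276239 (by decide)
     (ok_go H c11a_1860)
     (ok_go H c11a_1861))
    (.s2 351381191 491933667 70276239 (by decide)
     (.s3 3443535665 3584088141 70276239 (by decide)
      (.s1 2925946469 2979633561 26843546 (by decide)
       (.s2 316243072 386519310 35138120 (by decide)
        (ok_go H c11a_1862)
        (ok_go H c11a_1863))
       (.s2 316243072 386519310 35138120 (by decide)
        (.s3 3408397546 3478673784 35138120 (by decide)
         (ok_go H c11a_1864)
         (ok_go H c11a_1865))
        (ok_go H c11a_1866)))
      (.s1 2925946469 2979633561 26843546 (by decide)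
       (.s2 316243072 386519310 35138120 (by decide)
        (ok_go H c11a_1867)
        (ok_go H c11a_1868))
       (.s2 316243072 386519310 35138120 (by decide)
        (.s3 3548950022 3619226260 35138120 (by decide)
         (.s1 2966211788 2993055334 13421773 (by decide)
          (ok_go H c11a_1869)
          (ok_go H c11a_1870))
         (.s1 2966211788 2993055334 13421773 (by decide)
          (ok_go H c11a_1871)
          (ok_go H c11a_1872)))
        (.s3 3548950022 3619226260 35138120 (by decide)
         (.s1 2966211788 2993055334 13421773 (by decide)
          (ok_go H c11a_1873)
          (ok_go H c11a_1874))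
         (.s1 2966211788 2993055334 13421773 (by decide)
          (ok_go H c11a_1875)
          (ok_go H c11a_1876))))))
     (.s3 3443535665 3584088141 70276239 (by decide)
      (.s1 2925946469 2979633561 26843546 (by decide)
       (ok_go H c11a_1877)
       (.s2 456795548 527071786 35138120 (by decide)
        (ok_go H c11a_1878)
        (ok_go H c11a_1879)))
      (.s1 2925946469 2979633561 26843546 (by decide)
       (.s2 456795548 527071786 35138120 (by decide)
        (ok_go H c11a_1880)
        (ok_go H c11a_1881))
       (.s2 456795548 527071786 35138120 (by decide)
        (.s3 3548950022 3619226260 35138120 (by decide)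
         (.s1 2966211788 2993055334 13421773 (by decide)
          (ok_go H c11a_1882)
          (ok_go H c11a_1883))
         (.s1 2966211788 2993055334 13421773 (by decide)
          (ok_go H c11a_1884)
          (ok_go H c11a_1885)))
        (.s3 3548950022 3619226260 35138120 (by decide)
         (ok_go H c11a_1886)
         (ok_go H c11a_1887)))))))
   (.s1 2845415833 2952790015 53687092 (by decide)
    (.s2 351381191 491933667 70276239 (by decide)
     (ok_go H c11a_1888)
     (.s1 2818572287 2872259379 26843546 (by decide)
      (ok_go H c11a_1889)
      (ok_go H c11a_1890)))
    (.s2 351381191 491933667 70276239 (by decide)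
     (.s3 3724640617 3865193093 70276239 (by decide)
      (.s1 2925946469 2979633561 26843546 (by decide)
       (.s2 316243072 386519310 35138120 (by decide)
        (ok_go H c11a_1891)
        (ok_go H c11a_1892))
       (.s2 316243072 386519310 35138120 (by decide)
        (.s3 3689502498 3759778736 35138120 (by decide)
         (.s1 2966211788 2993055334 13421773 (by decide)
          (ok_go H c11a_1893)
          (ok_go H c11a_1894))
         (ok_go H c11a_1895))
        (.s3 3689502498 3759778736 35138120 (by decide)
         (ok_go H c11a_1896)
         (ok_go H c11a_1897))))
      (.s1 2925946469 2979633561 26843546 (by decide)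
       (ok_go H c11a_1898)
       (ok_go H c11a_1899)))
     (.s3 3724640617 3865193093 70276239 (by decide)
      (.s1 2925946469 2979633561 26843546 (by decide)
       (ok_go H c11a_1900)
       (.s2 456795548 527071786 35138120 (by decide)
        (ok_go H c11a_1901)
        (ok_go H c11a_1902)))
      (ok_go H c11a_1903)))))

theorem ok11a_42 (H : Good p11a L b s) :
    Ok L b s 2899102924 107374183 843314857 281104953 3654364379 281104953 :=
  (.s2 702762381 983867333 140552477 (by decide)
   (.s3 3513811903 3794916855 140552477 (by decide)
    (.s1 2845415833 2952790015 53687092 (by decide)
     (.s2 632486143 773038619 70276239 (by decide)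
      (ok_go H c11a_1904)
      (.s1 2818572287 2872259379 26843546 (by decide)
       (ok_go H c11a_1905)
       (ok_go H c11a_1906)))
     (.s2 632486143 773038619 70276239 (by decide)
      (.s3 3443535665 3584088141 70276239 (by decide)
       (.s1 2925946469 2979633561 26843546 (by decide)
        (ok_go H c11a_1907)
        (.s2 597348024 667624262 35138120 (by decide)
         (ok_go H c11a_1908)
         (ok_go H c11a_1909)))
       (.s1 2925946469 2979633561 26843546 (by decide)
        (ok_go H c11a_1910)
        (.s2 597348024 667624262 35138120 (by decide)
         (ok_go H c11a_1911)
         (ok_go H c11a_1912))))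
      (.s3 3443535665 3584088141 70276239 (by decide)
       (ok_go H c11a_1913)
       (ok_go H c11a_1914))))
    (.s1 2845415833 2952790015 53687092 (by decide)
     (.s2 632486143 773038619 70276239 (by decide)
      (.s3 3724640617 3865193093 70276239 (by decide)
       (.s1 2818572287 2872259379 26843546 (by decide)
        (ok_go H c11a_1915)
        (ok_go H c11a_1916))
       (.s1 2818572287 2872259379 26843546 (by decide)
        (.s2 597348024 667624262 35138120 (by decide)
         (.s3 3830054974 3900331212 35138120 (by decide)
          (ok_go H c11a_1917)
          (ok_go H c11a_1918))
         (.s3 3830054974 3900331212 35138120 (by decide)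
          (ok_go H c11a_1919)
          (ok_go H c11a_1920)))
        (ok_go H c11a_1921)))
      (.s3 3724640617 3865193093 70276239 (by decide)
       (.s1 2818572287 2872259379 26843546 (by decide)
        (.s2 737900500 808176738 35138120 (by decide)
         (.s3 3689502498 3759778736 35138120 (by decide)
          (ok_go H c11a_1922)
          (.s1 2805150514 2831994060 13421773 (by decide)
           (ok_go H c11a_1923)
           (ok_go H c11a_1924)))
         (.s3 3689502498 3759778736 35138120 (by decide)
          (ok_go H c11a_1925)
          (ok_go H c11a_1926)))
        (ok_go H c11a_1927))
       (.s1 2818572287 2872259379 26843546 (by decide)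
        (ok_go H c11a_1928)
        (.s2 737900500 808176738 35138120 (by decide)
         (ok_go H c11a_1929)
         (ok_go H c11a_1930)))))
     (.s2 632486143 773038619 70276239 (by decide)
      (.s3 3724640617 3865193093 70276239 (by decide)
       (.s1 2925946469 2979633561 26843546 (by decide)
        (ok_go H c11a_1931)
        (ok_go H c11a_1932))
       (ok_go H c11a_1933))
      (.s3 3724640617 3865193093 70276239 (by decide)
       (ok_go H c11a_1934)
       (.s1 2925946469 2979633561 26843546 (by decide)
        (ok_go H c11a_1935)
        (ok_go H c11a_1936))))))
   (.s3 3513811903 3794916855 140552477 (by decide)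
    (.s1 2845415833 2952790015 53687092 (by decide)
     (.s2 913591095 1054143571 70276239 (by decide)
      (.s3 3443535665 3584088141 70276239 (by decide)
       (ok_go H c11a_1937)
       (.s1 2818572287 2872259379 26843546 (by decide)
        (.s2 878452976 948729214 35138120 (by decide)
         (.s3 3548950022 3619226260 35138120 (by decide)
          (ok_go H c11a_1938)
          (ok_go H c11a_1939))
         (ok_go H c11a_1940))
        (ok_go H c11a_1941)))
      (.s3 3443535665 3584088141 70276239 (by decide)
       (.s1 2818572287 2872259379 26843546 (by decide)
        (ok_go H c11a_1942)
        (ok_go H c11a_1943))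
       (.s1 2818572287 2872259379 26843546 (by decide)
        (ok_go H c11a_1944)
        (ok_go H c11a_1945))))
     (.s2 913591095 1054143571 70276239 (by decide)
      (.s3 3443535665 3584088141 70276239 (by decide)
       (ok_go H c11a_1946)
       (ok_go H c11a_1947))
      (.s1 2925946469 2979633561 26843546 (by decide)
       (ok_go H c11a_1948)
       (ok_go H c11a_1949))))
    (.s1 2845415833 2952790015 53687092 (by decide)
     (.s2 913591095 1054143571 70276239 (by decide)
      (.s3 3724640617 3865193093 70276239 (by decide)
       (.s1 2818572287 2872259379 26843546 (by decide)
        (ok_go H c11a_1950)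
        (.s2 878452976 948729214 35138120 (by decide)
         (ok_go H c11a_1951)
         (ok_go H c11a_1952)))
       (.s1 2818572287 2872259379 26843546 (by decide)
        (ok_go H c11a_1953)
        (ok_go H c11a_1954)))
      (.s3 3724640617 3865193093 70276239 (by decide)
       (.s1 2818572287 2872259379 26843546 (by decide)
        (ok_go H c11a_1955)
        (ok_go H c11a_1956))
       (.s1 2818572287 2872259379 26843546 (by decide)
        (ok_go H c11a_1957)
        (ok_go H c11a_1958))))
     (.s2 913591095 1054143571 70276239 (by decide)
      (.s1 2925946469 2979633561 26843546 (by decide)
       (.s3 3724640617 3865193093 70276239 (by decide)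
        (ok_go H c11a_1959)
        (ok_go H c11a_1960))
       (.s3 3724640617 3865193093 70276239 (by decide)
        (ok_go H c11a_1961)
        (ok_go H c11a_1962)))
      (.s1 2925946469 2979633561 26843546 (by decide)
       (ok_go H c11a_1963)
       (.s3 3724640617 3865193093 70276239 (by decide)
        (ok_go H c11a_1964)
        (ok_go H c11a_1965)))))))

theorem ok11a_43 (H : Good p11a L b s) :
    Ok L b s 2899102924 107374183 562209905 562209905 4216574283 281104953 :=
  (.s2 281104953 843314857 281104953 (by decide)
   (.s2 140552477 421657429 140552477 (by decide)
    (.s1 2845415833 2952790015 53687092 (by decide)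
     (.s3 4076021807 4357126759 140552477 (by decide)
      (.s2 70276239 210828715 70276239 (by decide)
       (ok_go H c11a_1966)
       (ok_go H c11a_1967))
      (.s2 70276239 210828715 70276239 (by decide)
       (ok_go H c11a_1968)
       (ok_go H c11a_1969)))
     (.s3 4076021807 4357126759 140552477 (by decide)
      (.s2 70276239 210828715 70276239 (by decide)
       (ok_go H c11a_1970)
       (ok_go H c11a_1971))
      (ok_go H c11a_1972)))
    (.s3 4076021807 4357126759 140552477 (by decide)
     (.s1 2845415833 2952790015 53687092 (by decide)
      (.s2 351381191 491933667 70276239 (by decide)
       (.s3 4005745569 4146298045 70276239 (by decide)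
        (ok_go H c11a_1973)
        (ok_go H c11a_1974))
       (.s3 4005745569 4146298045 70276239 (by decide)
        (.s1 2818572287 2872259379 26843546 (by decide)
         (.s2 456795548 527071786 35138120 (by decide)
          (ok_go H c11a_1975)
          (ok_go H c11a_1976))
         (ok_go H c11a_1977))
        (ok_go H c11a_1978)))
      (.s2 351381191 491933667 70276239 (by decide)
       (ok_go H c11a_1979)
       (.s3 4005745569 4146298045 70276239 (by decide)
        (ok_go H c11a_1980)
        (ok_go H c11a_1981))))
     (.s1 2845415833 2952790015 53687092 (by decide)
      (.s2 351381191 491933667 70276239 (by decide)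
       (ok_go H c11a_1982)
       (ok_go H c11a_1983))
      (.s2 351381191 491933667 70276239 (by decide)
       (ok_go H c11a_1984)
       (ok_go H c11a_1985)))))
   (.s2 702762381 983867333 140552477 (by decide)
    (.s3 4076021807 4357126759 140552477 (by decide)
     (.s1 2845415833 2952790015 53687092 (by decide)
      (.s2 632486143 773038619 70276239 (by decide)
       (.s3 4005745569 4146298045 70276239 (by decide)
        (.s1 2818572287 2872259379 26843546 (by decide)
         (ok_go H c11a_1986)
         (ok_go H c11a_1987))
        (ok_go H c11a_1988))
       (.s3 4005745569 4146298045 70276239 (by decide)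
        (.s1 2818572287 2872259379 26843546 (by decide)
         (ok_go H c11a_1989)
         (ok_go H c11a_1990))
        (ok_go H c11a_1991)))
      (.s2 632486143 773038619 70276239 (by decide)
       (.s1 2925946469 2979633561 26843546 (by decide)
        (.s3 4005745569 4146298045 70276239 (by decide)
         (ok_go H c11a_1992)
         (ok_go H c11a_1993))
        (ok_go H c11a_1994))
       (.s1 2925946469 2979633561 26843546 (by decide)
        (ok_go H c11a_1995)
        (ok_go H c11a_1996))))
     (.s1 2845415833 2952790015 53687092 (by decide)
      (ok_go H c11a_1997)
      (ok_go H c11a_1998)))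
    (.s3 4076021807 4357126759 140552477 (by decide)
     (.s1 2845415833 2952790015 53687092 (by decide)
      (.s2 913591095 1054143571 70276239 (by decide)
       (.s3 4005745569 4146298045 70276239 (by decide)
        (ok_go H c11a_1999)
        (ok_go H c11a_2000))
       (.s3 4005745569 4146298045 70276239 (by decide)
        (ok_go H c11a_2001)
        (ok_go H c11a_2002)))
      (.s2 913591095 1054143571 70276239 (by decide)
       (ok_go H c11a_2003)
       (ok_go H c11a_2004)))
     (ok_go H c11a_2005))))

theorem ok11a_44 (H : Good p11a L b s) :
    Ok L b s 2684354560 107374183 1686629715 562209905 3654364379 281104953 :=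
  (.s2 1405524763 1967734667 281104953 (by decide)
   (.s2 1264972287 1546077239 140552477 (by decide)
    (.s3 3513811903 3794916855 140552477 (by decide)
     (.s1 2630667469 2738041651 53687092 (by decide)
      (.s2 1194696049 1335248525 70276239 (by decide)
       (.s3 3443535665 3584088141 70276239 (by decide)
        (ok_go H c11a_2006)
        (.s1 2603823923 2657511015 26843546 (by decide)
         (ok_go H c11a_2007)
         (ok_go H c11a_2008)))
       (.s3 3443535665 3584088141 70276239 (by decide)
        (ok_go H c11a_2009)
        (ok_go H c11a_2010)))
      (.s2 1194696049 1335248525 70276239 (by decide)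
       (.s3 3443535665 3584088141 70276239 (by decide)
        (ok_go H c11a_2011)
        (.s1 2711198105 2764885197 26843546 (by decide)
         (ok_go H c11a_2012)
         (ok_go H c11a_2013)))
       (.s3 3443535665 3584088141 70276239 (by decide)
        (ok_go H c11a_2014)
        (.s1 2711198105 2764885197 26843546 (by decide)
         (ok_go H c11a_2015)
         (ok_go H c11a_2016)))))
     (.s1 2630667469 2738041651 53687092 (by decide)
      (.s2 1194696049 1335248525 70276239 (by decide)
       (.s3 3724640617 3865193093 70276239 (by decide)
        (.s1 2603823923 2657511015 26843546 (by decide)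
         (ok_go H c11a_2017)
         (.s2 1159557930 1229834168 35138120 (by decide)
          (ok_go H c11a_2018)
          (ok_go H c11a_2019)))
        (.s1 2603823923 2657511015 26843546 (by decide)
         (.s2 1159557930 1229834168 35138120 (by decide)
          (ok_go H c11a_2020)
          (ok_go H c11a_2021))
         (.s2 1159557930 1229834168 35138120 (by decide)
          (.s3 3830054974 3900331212 35138120 (by decide)
           (ok_go H c11a_2022)
           (ok_go H c11a_2023))
          (.s3 3830054974 3900331212 35138120 (by decide)
           (ok_go H c11a_2024)
           (ok_go H c11a_2025)))))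
       (.s3 3724640617 3865193093 70276239 (by decide)
        (.s1 2603823923 2657511015 26843546 (by decide)
         (ok_go H c11a_2026)
         (.s2 1300110406 1370386644 35138120 (by decide)
          (ok_go H c11a_2027)
          (ok_go H c11a_2028)))
        (.s1 2603823923 2657511015 26843546 (by decide)
         (.s2 1300110406 1370386644 35138120 (by decide)
          (.s3 3830054974 3900331212 35138120 (by decide)
           (ok_go H c11a_2029)
           (ok_go H c11a_2030))
          (.s3 3830054974 3900331212 35138120 (by decide)
           (ok_go H c11a_2031)
           (ok_go H c11a_2032)))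
         (.s2 1300110406 1370386644 35138120 (by decide)
          (.s3 3830054974 3900331212 35138120 (by decide)
           (ok_go H c11a_2033)
           (.s1 2644089242 2670932788 13421773 (by decide)
            (ok_go H c11a_2034)
            (ok_go H c11a_2035)))
          (.s3 3830054974 3900331212 35138120 (by decide)
           (.s1 2644089242 2670932788 13421773 (by decide)
            (ok_go H c11a_2036)
            (ok_go H c11a_2037))
           (.s1 2644089242 2670932788 13421773 (by decide)
            (ok_go H c11a_2038)
            (ok_go H c11a_2039)))))))
      (.s2 1194696049 1335248525 70276239 (by decide)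
       (.s3 3724640617 3865193093 70276239 (by decide)
        (.s1 2711198105 2764885197 26843546 (by decide)
         (.s2 1159557930 1229834168 35138120 (by decide)
          (.s3 3689502498 3759778736 35138120 (by decide)
           (ok_go H c11a_2040)
           (ok_go H c11a_2041))
          (.s3 3689502498 3759778736 35138120 (by decide)
           (ok_go H c11a_2042)
           (ok_go H c11a_2043)))
         (.s2 1159557930 1229834168 35138120 (by decide)
          (ok_go H c11a_2044)
          (ok_go H c11a_2045)))
        (.s1 2711198105 2764885197 26843546 (by decide)
         (.s2 1159557930 1229834168 35138120 (by decide)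
          (.s3 3830054974 3900331212 35138120 (by decide)
           (ok_go H c11a_2046)
           (ok_go H c11a_2047))
          (ok_go H c11a_2048))
         (ok_go H c11a_2049)))
       (.s3 3724640617 3865193093 70276239 (by decide)
        (.s1 2711198105 2764885197 26843546 (by decide)
         (.s2 1300110406 1370386644 35138120 (by decide)
          (ok_go H c11a_2050)
          (ok_go H c11a_2051))
         (ok_go H c11a_2052))
        (.s1 2711198105 2764885197 26843546 (by decide)
         (.s2 1300110406 1370386644 35138120 (by decide)
          (.s3 3830054974 3900331212 35138120 (by decide)
           (ok_go H c11a_2053)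
           (ok_go H c11a_2054))
          (.s3 3830054974 3900331212 35138120 (by decide)
           (ok_go H c11a_2055)
           (ok_go H c11a_2056)))
         (ok_go H c11a_2057))))))
    (.s3 3513811903 3794916855 140552477 (by decide)
     (.s1 2630667469 2738041651 53687092 (by decide)
      (.s2 1475801001 1616353477 70276239 (by decide)
       (.s3 3443535665 3584088141 70276239 (by decide)
        (ok_go H c11a_2058)
        (ok_go H c11a_2059))
       (ok_go H c11a_2060))
      (.s2 1475801001 1616353477 70276239 (by decide)
       (.s3 3443535665 3584088141 70276239 (by decide)
        (ok_go H c11a_2061)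
        (ok_go H c11a_2062))
       (ok_go H c11a_2063)))
     (.s2 1475801001 1616353477 70276239 (by decide)
      (.s1 2630667469 2738041651 53687092 (by decide)
       (.s3 3724640617 3865193093 70276239 (by decide)
        (.s1 2603823923 2657511015 26843546 (by decide)
         (ok_go H c11a_2064)
         (.s2 1440662882 1510939120 35138120 (by decide)
          (.s3 3689502498 3759778736 35138120 (by decide)
           (ok_go H c11a_2065)
           (ok_go H c11a_2066))
          (ok_go H c11a_2067)))
        (.s2 1440662882 1510939120 35138120 (by decide)
         (.s1 2603823923 2657511015 26843546 (by decide)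
          (ok_go H c11a_2068)
          (.s3 3830054974 3900331212 35138120 (by decide)
           (.s1 2644089242 2670932788 13421773 (by decide)
            (ok_go H c11a_2069)
            (ok_go H c11a_2070))
           (ok_go H c11a_2071)))
         (ok_go H c11a_2072)))
       (.s3 3724640617 3865193093 70276239 (by decide)
        (.s1 2711198105 2764885197 26843546 (by decide)
         (.s2 1440662882 1510939120 35138120 (by decide)
          (ok_go H c11a_2073)
          (ok_go H c11a_2074))
         (ok_go H c11a_2075))
        (.s2 1440662882 1510939120 35138120 (by decide)
         (.s1 2711198105 2764885197 26843546 (by decide)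
          (ok_go H c11a_2076)
          (ok_go H c11a_2077))
         (ok_go H c11a_2078))))
      (ok_go H c11a_2079))))
   (ok_go H c11a_2080))

theorem ok11a_45 (H : Good p11a L b s) :
    Ok L b s 2684354560 107374183 1686629715 562209905 4216574283 281104953 :=
  (.s2 1405524763 1967734667 281104953 (by decide)
   (.s2 1264972287 1546077239 140552477 (by decide)
    (.s3 4076021807 4357126759 140552477 (by decide)
     (.s1 2630667469 2738041651 53687092 (by decide)
      (.s2 1194696049 1335248525 70276239 (by decide)
       (.s3 4005745569 4146298045 70276239 (by decide)
        (.s1 2603823923 2657511015 26843546 (by decide)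
         (.s2 1159557930 1229834168 35138120 (by decide)
          (ok_go H c11a_2081)
          (ok_go H c11a_2082))
         (.s2 1159557930 1229834168 35138120 (by decide)
          (ok_go H c11a_2083)
          (.s3 3970607450 4040883688 35138120 (by decide)
           (ok_go H c11a_2084)
           (ok_go H c11a_2085))))
        (.s1 2603823923 2657511015 26843546 (by decide)
         (ok_go H c11a_2086)
         (ok_go H c11a_2087)))
       (.s3 4005745569 4146298045 70276239 (by decide)
        (.s1 2603823923 2657511015 26843546 (by decide)
         (.s2 1300110406 1370386644 35138120 (by decide)
          (ok_go H c11a_2088)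
          (ok_go H c11a_2089))
         (.s2 1300110406 1370386644 35138120 (by decide)
          (.s3 3970607450 4040883688 35138120 (by decide)
           (ok_go H c11a_2090)
           (ok_go H c11a_2091))
          (.s3 3970607450 4040883688 35138120 (by decide)
           (.s1 2644089242 2670932788 13421773 (by decide)
            (ok_go H c11a_2092)
            (ok_go H c11a_2093))
           (ok_go H c11a_2094))))
        (ok_go H c11a_2095)))
      (.s2 1194696049 1335248525 70276239 (by decide)
       (.s3 4005745569 4146298045 70276239 (by decide)
        (.s1 2711198105 2764885197 26843546 (by decide)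
         (ok_go H c11a_2096)
         (ok_go H c11a_2097))
        (ok_go H c11a_2098))
       (.s3 4005745569 4146298045 70276239 (by decide)
        (.s1 2711198105 2764885197 26843546 (by decide)
         (.s2 1300110406 1370386644 35138120 (by decide)
          (ok_go H c11a_2099)
          (ok_go H c11a_2100))
         (ok_go H c11a_2101))
        (ok_go H c11a_2102))))
     (ok_go H c11a_2103))
    (ok_go H c11a_2104))
   (ok_go H c11a_2105))

theorem ok11a_46 (H : Good p11a L b s) :
    Ok L b s 2899102924 107374183 1686629715 562209905 3935469331 562209905 :=
  (.s3 3654364379 4216574283 281104953 (by decide)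
   (.s2 1405524763 1967734667 281104953 (by decide)
    (.s2 1264972287 1546077239 140552477 (by decide)
     (.s3 3513811903 3794916855 140552477 (by decide)
      (.s1 2845415833 2952790015 53687092 (by decide)
       (.s2 1194696049 1335248525 70276239 (by decide)
        (.s3 3443535665 3584088141 70276239 (by decide)
         (ok_go H c11a_2106)
         (ok_go H c11a_2107))
        (ok_go H c11a_2108))
       (.s2 1194696049 1335248525 70276239 (by decide)
        (.s1 2925946469 2979633561 26843546 (by decide)
         (.s3 3443535665 3584088141 70276239 (by decide)
          (ok_go H c11a_2109)
          (ok_go H c11a_2110))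
         (ok_go H c11a_2111))
        (.s1 2925946469 2979633561 26843546 (by decide)
         (ok_go H c11a_2112)
         (ok_go H c11a_2113))))
      (.s1 2845415833 2952790015 53687092 (by decide)
       (.s2 1194696049 1335248525 70276239 (by decide)
        (.s3 3724640617 3865193093 70276239 (by decide)
         (ok_go H c11a_2114)
         (ok_go H c11a_2115))
        (.s3 3724640617 3865193093 70276239 (by decide)
         (ok_go H c11a_2116)
         (ok_go H c11a_2117)))
       (.s2 1194696049 1335248525 70276239 (by decide)
        (ok_go H c11a_2118)
        (ok_go H c11a_2119))))
     (.s3 3513811903 3794916855 140552477 (by decide)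
      (.s1 2845415833 2952790015 53687092 (by decide)
       (.s2 1475801001 1616353477 70276239 (by decide)
        (ok_go H c11a_2120)
        (ok_go H c11a_2121))
       (ok_go H c11a_2122))
      (.s2 1475801001 1616353477 70276239 (by decide)
       (.s1 2845415833 2952790015 53687092 (by decide)
        (ok_go H c11a_2123)
        (ok_go H c11a_2124))
       (ok_go H c11a_2125))))
    (ok_go H c11a_2126))
   (.s2 1405524763 1967734667 281104953 (by decide)
    (.s2 1264972287 1546077239 140552477 (by decide)
     (.s3 4076021807 4357126759 140552477 (by decide)
      (.s1 2845415833 2952790015 53687092 (by decide)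
       (.s2 1194696049 1335248525 70276239 (by decide)
        (ok_go H c11a_2127)
        (ok_go H c11a_2128))
       (ok_go H c11a_2129))
      (ok_go H c11a_2130))
     (ok_go H c11a_2131))
    (ok_go H c11a_2132)))

theorem ok11a_47 (H : Good p11a L b s) :
    Ok L b s 3221225472 214748365 562209905 562209905 2811049521 562209905 :=
  (.s2 281104953 843314857 281104953 (by decide)
   (.s3 2529944569 3092154473 281104953 (by decide)
    (ok_go H c11a_2133)
    (.s1 3113851290 3328599654 107374183 (by decide)
     (.s2 140552477 421657429 140552477 (by decide)
      (.s3 2951601997 3232706949 140552477 (by decide)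
       (ok_go H c11a_2134)
       (.s1 3060164199 3167538381 53687092 (by decide)
        (.s2 70276239 210828715 70276239 (by decide)
         (ok_go H c11a_2135)
         (.s3 3162430711 3302983187 70276239 (by decide)
          (ok_go H c11a_2136)
          (.s1 3033320653 3087007745 26843546 (by decide)
           (ok_go H c11a_2137)
           (ok_go H c11a_2138))))
        (ok_go H c11a_2139)))
      (.s3 2951601997 3232706949 140552477 (by decide)
       (ok_go H c11a_2140)
       (.s1 3060164199 3167538381 53687092 (by decide)
        (.s2 351381191 491933667 70276239 (by decide)
         (.s3 3162430711 3302983187 70276239 (by decide)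
          (ok_go H c11a_2141)
          (.s1 3033320653 3087007745 26843546 (by decide)
           (.s2 316243072 386519310 35138120 (by decide)
            (ok_go H c11a_2142)
            (ok_go H c11a_2143))
           (ok_go H c11a_2144)))
         (.s3 3162430711 3302983187 70276239 (by decide)
          (ok_go H c11a_2145)
          (ok_go H c11a_2146)))
        (.s2 351381191 491933667 70276239 (by decide)
         (ok_go H c11a_2147)
         (ok_go H c11a_2148)))))
     (.s2 140552477 421657429 140552477 (by decide)
      (ok_go H c11a_2149)
      (.s3 2951601997 3232706949 140552477 (by decide)
       (ok_go H c11a_2150)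
       (.s1 3274912563 3382286745 53687092 (by decide)
        (.s2 351381191 491933667 70276239 (by decide)
         (ok_go H c11a_2151)
         (ok_go H c11a_2152))
        (ok_go H c11a_2153))))))
   (.s3 2529944569 3092154473 281104953 (by decide)
    (ok_go H c11a_2154)
    (.s1 3113851290 3328599654 107374183 (by decide)
     (.s2 702762381 983867333 140552477 (by decide)
      (.s1 3060164199 3167538381 53687092 (by decide)
       (.s3 2951601997 3232706949 140552477 (by decide)
        (ok_go H c11a_2155)
        (.s2 632486143 773038619 70276239 (by decide)
         (ok_go H c11a_2156)
         (ok_go H c11a_2157)))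
       (.s3 2951601997 3232706949 140552477 (by decide)
        (.s2 632486143 773038619 70276239 (by decide)
         (ok_go H c11a_2158)
         (ok_go H c11a_2159))
        (.s2 632486143 773038619 70276239 (by decide)
         (.s3 3162430711 3302983187 70276239 (by decide)
          (ok_go H c11a_2160)
          (ok_go H c11a_2161))
         (.s1 3140694835 3194381927 26843546 (by decide)
          (ok_go H c11a_2162)
          (.s3 3162430711 3302983187 70276239 (by decide)
           (ok_go H c11a_2163)
           (ok_go H c11a_2164))))))
      (.s1 3060164199 3167538381 53687092 (by decide)
       (.s3 2951601997 3232706949 140552477 (by decide)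
        (ok_go H c11a_2165)
        (.s2 913591095 1054143571 70276239 (by decide)
         (ok_go H c11a_2166)
         (ok_go H c11a_2167)))
       (.s3 2951601997 3232706949 140552477 (by decide)
        (.s2 913591095 1054143571 70276239 (by decide)
         (.s1 3140694835 3194381927 26843546 (by decide)
          (ok_go H c11a_2168)
          (.s3 2881325759 3021878235 70276239 (by decide)
           (ok_go H c11a_2169)
           (ok_go H c11a_2170)))
         (.s1 3140694835 3194381927 26843546 (by decide)
          (ok_go H c11a_2171)
          (.s3 2881325759 3021878235 70276239 (by decide)
           (.s2 1019005452 1089281690 35138120 (by decide)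
            (ok_go H c11a_2172)
            (ok_go H c11a_2173))
           (.s2 1019005452 1089281690 35138120 (by decide)
            (ok_go H c11a_2174)
            (.s1 3180960154 3207803700 13421773 (by decide)
             (ok_go H c11a_2175)
             (ok_go H c11a_2176))))))
        (.s2 913591095 1054143571 70276239 (by decide)
         (.s1 3140694835 3194381927 26843546 (by decide)
          (ok_go H c11a_2177)
          (.s3 3162430711 3302983187 70276239 (by decide)
           (.s2 878452976 948729214 35138120 (by decide)
            (ok_go H c11a_2178)
            (ok_go H c11a_2179))
           (ok_go H c11a_2180)))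
         (.s1 3140694835 3194381927 26843546 (by decide)
          (ok_go H c11a_2181)
          (.s3 3162430711 3302983187 70276239 (by decide)
           (.s2 1019005452 1089281690 35138120 (by decide)
            (ok_go H c11a_2182)
            (.s1 3180960154 3207803700 13421773 (by decide)
             (ok_go H c11a_2183)
             (ok_go H c11a_2184)))
           (ok_go H c11a_2185)))))))
     (.s2 702762381 983867333 140552477 (by decide)
      (.s3 2951601997 3232706949 140552477 (by decide)
       (.s1 3274912563 3382286745 53687092 (by decide)
        (.s2 632486143 773038619 70276239 (by decide)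
         (ok_go H c11a_2186)
         (ok_go H c11a_2187))
        (ok_go H c11a_2188))
       (.s1 3274912563 3382286745 53687092 (by decide)
        (.s2 632486143 773038619 70276239 (by decide)
         (.s3 3162430711 3302983187 70276239 (by decide)
          (ok_go H c11a_2189)
          (ok_go H c11a_2190))
         (.s1 3248069017 3301756109 26843546 (by decide)
          (ok_go H c11a_2191)
          (ok_go H c11a_2192)))
        (ok_go H c11a_2193)))
      (.s3 2951601997 3232706949 140552477 (by decide)
       (.s1 3274912563 3382286745 53687092 (by decide)
        (.s2 913591095 1054143571 70276239 (by decide)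
         (.s3 2881325759 3021878235 70276239 (by decide)
          (ok_go H c11a_2194)
          (ok_go H c11a_2195))
         (.s3 2881325759 3021878235 70276239 (by decide)
          (.s1 3248069017 3301756109 26843546 (by decide)
           (ok_go H c11a_2196)
           (ok_go H c11a_2197))
          (.s1 3248069017 3301756109 26843546 (by decide)
           (ok_go H c11a_2198)
           (ok_go H c11a_2199))))
        (.s2 913591095 1054143571 70276239 (by decide)
         (ok_go H c11a_2200)
         (.s1 3355443199 3409130291 26843546 (by decide)
          (ok_go H c11a_2201)
          (ok_go H c11a_2202))))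
       (.s1 3274912563 3382286745 53687092 (by decide)
        (.s2 913591095 1054143571 70276239 (by decide)
         (.s3 3162430711 3302983187 70276239 (by decide)
          (ok_go H c11a_2203)
          (ok_go H c11a_2204))
         (.s3 3162430711 3302983187 70276239 (by decide)
          (.s1 3248069017 3301756109 26843546 (by decide)
           (ok_go H c11a_2205)
           (ok_go H c11a_2206))
          (ok_go H c11a_2207)))
        (.s2 913591095 1054143571 70276239 (by decide)
         (ok_go H c11a_2208)
         (ok_go H c11a_2209))))))))

theorem ok11a_48 (H : Good p11a L b s) :
    Ok L b s 3113851290 107374183 1405524763 281104953 2529944569 281104953 :=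
  (.s2 1264972287 1546077239 140552477 (by decide)
   (.s3 2389392093 2670497045 140552477 (by decide)
    (ok_go H c11a_2210)
    (.s1 3060164199 3167538381 53687092 (by decide)
     (ok_go H c11a_2211)
     (.s2 1194696049 1335248525 70276239 (by decide)
      (ok_go H c11a_2212)
      (.s1 3140694835 3194381927 26843546 (by decide)
       (ok_go H c11a_2213)
       (ok_go H c11a_2214)))))
   (.s1 3060164199 3167538381 53687092 (by decide)
    (.s3 2389392093 2670497045 140552477 (by decide)
     (ok_go H c11a_2215)
     (ok_go H c11a_2216))
    (.s3 2389392093 2670497045 140552477 (by decide)
     (ok_go H c11a_2217)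
     (.s2 1475801001 1616353477 70276239 (by decide)
      (.s1 3140694835 3194381927 26843546 (by decide)
       (ok_go H c11a_2218)
       (.s3 2600220807 2740773283 70276239 (by decide)
        (ok_go H c11a_2219)
        (.s2 1440662882 1510939120 35138120 (by decide)
         (ok_go H c11a_2220)
         (ok_go H c11a_2221))))
      (.s3 2600220807 2740773283 70276239 (by decide)
       (ok_go H c11a_2222)
       (.s1 3140694835 3194381927 26843546 (by decide)
        (ok_go H c11a_2223)
        (.s2 1581215358 1651491596 35138120 (by decide)
         (ok_go H c11a_2224)
         (ok_go H c11a_2225))))))))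

theorem ok11a_49 (H : Good p11a L b s) :
    Ok L b s 3328599654 107374183 1405524763 281104953 2529944569 281104953 :=
  (.s2 1264972287 1546077239 140552477 (by decide)
   (.s3 2389392093 2670497045 140552477 (by decide)
    (ok_go H c11a_2226)
    (.s1 3274912563 3382286745 53687092 (by decide)
     (.s2 1194696049 1335248525 70276239 (by decide)
      (ok_go H c11a_2227)
      (.s3 2600220807 2740773283 70276239 (by decide)
       (ok_go H c11a_2228)
       (.s1 3248069017 3301756109 26843546 (by decide)
        (ok_go H c11a_2229)
        (.s2 1300110406 1370386644 35138120 (by decide)
         (ok_go H c11a_2230)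
         (.s1 3288334336 3315177882 13421773 (by decide)
          (ok_go H c11a_2231)
          (ok_go H c11a_2232))))))
     (.s2 1194696049 1335248525 70276239 (by decide)
      (ok_go H c11a_2233)
      (.s1 3355443199 3409130291 26843546 (by decide)
       (.s3 2600220807 2740773283 70276239 (by decide)
        (ok_go H c11a_2234)
        (.s2 1300110406 1370386644 35138120 (by decide)
         (ok_go H c11a_2235)
         (.s1 3342021426 3368864972 13421773 (by decide)
          (ok_go H c11a_2236)
          (ok_go H c11a_2237))))
       (ok_go H c11a_2238)))))
   (.s3 2389392093 2670497045 140552477 (by decide)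
    (ok_go H c11a_2239)
    (.s1 3274912563 3382286745 53687092 (by decide)
     (.s2 1475801001 1616353477 70276239 (by decide)
      (.s3 2600220807 2740773283 70276239 (by decide)
       (.s1 3248069017 3301756109 26843546 (by decide)
        (ok_go H c11a_2240)
        (.s2 1440662882 1510939120 35138120 (by decide)
         (ok_go H c11a_2241)
         (.s1 3288334336 3315177882 13421773 (by decide)
          (ok_go H c11a_2242)
          (.s3 2565082688 2635358926 35138120 (by decide)
           (ok_go H c11a_2243)
           (.s2 1493370060 1528508180 17569060 (by decide)
            (ok_go H c11a_2244)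
            (ok_go H c11a_2245))))))
       (.s1 3248069017 3301756109 26843546 (by decide)
        (ok_go H c11a_2246)
        (.s2 1440662882 1510939120 35138120 (by decide)
         (.s3 2705635164 2775911402 35138120 (by decide)
          (.s1 3288334336 3315177882 13421773 (by decide)
           (ok_go H c11a_2247)
           (ok_go H c11a_2248))
          (ok_go H c11a_2249))
         (.s3 2705635164 2775911402 35138120 (by decide)
          (.s1 3288334336 3315177882 13421773 (by decide)
           (ok_go H c11a_2250)
           (ok_go H c11a_2251))
          (.s1 3288334336 3315177882 13421773 (by decide)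
           (ok_go H c11a_2252)
           (ok_go H c11a_2253))))))
      (.s3 2600220807 2740773283 70276239 (by decide)
       (.s1 3248069017 3301756109 26843546 (by decide)
        (.s2 1581215358 1651491596 35138120 (by decide)
         (ok_go H c11a_2254)
         (ok_go H c11a_2255))
        (.s2 1581215358 1651491596 35138120 (by decide)
         (.s1 3288334336 3315177882 13421773 (by decide)
          (ok_go H c11a_2256)
          (.s3 2565082688 2635358926 35138120 (by decide)
           (ok_go H c11a_2257)
           (.s2 1563646298 1598784418 17569060 (by decide)
            (ok_go H c11a_2258)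
            (ok_go H c11a_2259))))
         (.s1 3288334336 3315177882 13421773 (by decide)
          (ok_go H c11a_2260)
          (.s3 2565082688 2635358926 35138120 (by decide)
           (.s2 1633922536 1669060656 17569060 (by decide)
            (ok_go H c11a_2261)
            (ok_go H c11a_2262))
           (ok_go H c11a_2263)))))
       (.s1 3248069017 3301756109 26843546 (by decide)
        (.s2 1581215358 1651491596 35138120 (by decide)
         (ok_go H c11a_2264)
         (ok_go H c11a_2265))
        (.s2 1581215358 1651491596 35138120 (by decide)
         (.s3 2705635164 2775911402 35138120 (by decide)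
          (.s1 3288334336 3315177882 13421773 (by decide)
           (ok_go H c11a_2266)
           (ok_go H c11a_2267))
          (.s1 3288334336 3315177882 13421773 (by decide)
           (ok_go H c11a_2268)
           (.s2 1563646298 1598784418 17569060 (by decide)
            (ok_go H c11a_2269)
            (ok_go H c11a_2270))))
         (.s3 2705635164 2775911402 35138120 (by decide)
          (.s1 3288334336 3315177882 13421773 (by decide)
           (ok_go H c11a_2271)
           (.s2 1633922536 1669060656 17569060 (by decide)
            (ok_go H c11a_2272)
            (ok_go H c11a_2273)))
          (.s1 3288334336 3315177882 13421773 (by decide)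
           (.s2 1633922536 1669060656 17569060 (by decide)
            (ok_go H c11a_2274)
            (ok_go H c11a_2275))
           (.s2 1633922536 1669060656 17569060 (by decide)
            (ok_go H c11a_2276)
            (ok_go H c11a_2277))))))))
     (.s2 1475801001 1616353477 70276239 (by decide)
      (.s1 3355443199 3409130291 26843546 (by decide)
       (.s3 2600220807 2740773283 70276239 (by decide)
        (.s2 1440662882 1510939120 35138120 (by decide)
         (ok_go H c11a_2278)
         (.s1 3342021426 3368864972 13421773 (by decide)
          (ok_go H c11a_2279)
          (ok_go H c11a_2280)))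
        (.s2 1440662882 1510939120 35138120 (by decide)
         (.s1 3342021426 3368864972 13421773 (by decide)
          (ok_go H c11a_2281)
          (ok_go H c11a_2282))
         (.s1 3342021426 3368864972 13421773 (by decide)
          (.s3 2705635164 2775911402 35138120 (by decide)
           (ok_go H c11a_2283)
           (ok_go H c11a_2284))
          (ok_go H c11a_2285))))
       (.s3 2600220807 2740773283 70276239 (by decide)
        (ok_go H c11a_2286)
        (ok_go H c11a_2287)))
      (.s1 3355443199 3409130291 26843546 (by decide)
       (.s3 2600220807 2740773283 70276239 (by decide)
        (.s2 1581215358 1651491596 35138120 (by decide)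
         (.s1 3342021426 3368864972 13421773 (by decide)
          (.s3 2565082688 2635358926 35138120 (by decide)
           (ok_go H c11a_2288)
           (ok_go H c11a_2289))
          (.s3 2565082688 2635358926 35138120 (by decide)
           (ok_go H c11a_2290)
           (ok_go H c11a_2291)))
         (.s1 3342021426 3368864972 13421773 (by decide)
          (.s3 2565082688 2635358926 35138120 (by decide)
           (.s2 1633922536 1669060656 17569060 (by decide)
            (ok_go H c11a_2292)
            (ok_go H c11a_2293))
           (ok_go H c11a_2294))
          (.s3 2565082688 2635358926 35138120 (by decide)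
           (ok_go H c11a_2295)
           (ok_go H c11a_2296))))
        (.s2 1581215358 1651491596 35138120 (by decide)
         (.s1 3342021426 3368864972 13421773 (by decide)
          (.s3 2705635164 2775911402 35138120 (by decide)
           (ok_go H c11a_2297)
           (ok_go H c11a_2298))
          (ok_go H c11a_2299))
         (.s3 2705635164 2775911402 35138120 (by decide)
          (.s1 3342021426 3368864972 13421773 (by decide)
           (ok_go H c11a_2300)
           (ok_go H c11a_2301))
          (.s1 3342021426 3368864972 13421773 (by decide)
           (ok_go H c11a_2302)
           (ok_go H c11a_2303)))))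
       (.s3 2600220807 2740773283 70276239 (by decide)
        (.s1 3395708518 3422552064 13421773 (by decide)
         (.s2 1581215358 1651491596 35138120 (by decide)
          (ok_go H c11a_2304)
          (ok_go H c11a_2305))
         (ok_go H c11a_2306))
        (ok_go H c11a_2307)))))))

theorem ok11a_50 (H : Good p11a L b s) :
    Ok L b s 3113851290 107374183 1264972287 140552477 3092154473 281104953 :=
  (.s1 3060164199 3167538381 53687092 (by decide)
   (.s3 2951601997 3232706949 140552477 (by decide)
    (ok_go H c11a_2308)
    (.s1 3033320653 3087007745 26843546 (by decide)
     (ok_go H c11a_2309)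
     (ok_go H c11a_2310)))
   (.s3 2951601997 3232706949 140552477 (by decide)
    (.s2 1194696049 1335248525 70276239 (by decide)
     (.s3 2881325759 3021878235 70276239 (by decide)
      (.s1 3140694835 3194381927 26843546 (by decide)
       (ok_go H c11a_2311)
       (.s2 1159557930 1229834168 35138120 (by decide)
        (ok_go H c11a_2312)
        (ok_go H c11a_2313)))
      (.s1 3140694835 3194381927 26843546 (by decide)
       (.s1 3127273062 3154116608 13421773 (by decide)
        (ok_go H c11a_2314)
        (.s2 1159557930 1229834168 35138120 (by decide)
         (ok_go H c11a_2315)
         (ok_go H c11a_2316)))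
       (.s1 3180960154 3207803700 13421773 (by decide)
        (.s2 1159557930 1229834168 35138120 (by decide)
         (.s3 2986740116 3057016354 35138120 (by decide)
          (ok_go H c11a_2317)
          (ok_go H c11a_2318))
         (ok_go H c11a_2319))
        (ok_go H c11a_2320))))
     (.s1 3140694835 3194381927 26843546 (by decide)
      (.s3 2881325759 3021878235 70276239 (by decide)
       (.s2 1300110406 1370386644 35138120 (by decide)
        (ok_go H c11a_2321)
        (ok_go H c11a_2322))
       (.s2 1300110406 1370386644 35138120 (by decide)
        (ok_go H c11a_2323)
        (ok_go H c11a_2324)))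
      (.s3 2881325759 3021878235 70276239 (by decide)
       (.s2 1300110406 1370386644 35138120 (by decide)
        (ok_go H c11a_2325)
        (.s3 2846187640 2916463878 35138120 (by decide)
         (ok_go H c11a_2326)
         (ok_go H c11a_2327)))
       (.s2 1300110406 1370386644 35138120 (by decide)
        (.s3 2986740116 3057016354 35138120 (by decide)
         (ok_go H c11a_2328)
         (ok_go H c11a_2329))
        (.s3 2986740116 3057016354 35138120 (by decide)
         (ok_go H c11a_2330)
         (ok_go H c11a_2331))))))
    (.s2 1194696049 1335248525 70276239 (by decide)
     (.s3 3162430711 3302983187 70276239 (by decide)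
      (.s1 3140694835 3194381927 26843546 (by decide)
       (.s1 3127273062 3154116608 13421773 (by decide)
        (ok_go H c11a_2332)
        (ok_go H c11a_2333))
       (.s1 3180960154 3207803700 13421773 (by decide)
        (.s2 1159557930 1229834168 35138120 (by decide)
         (ok_go H c11a_2334)
         (ok_go H c11a_2335))
        (ok_go H c11a_2336)))
      (.s1 3140694835 3194381927 26843546 (by decide)
       (.s1 3127273062 3154116608 13421773 (by decide)
        (ok_go H c11a_2337)
        (ok_go H c11a_2338))
       (ok_go H c11a_2339)))
     (.s1 3140694835 3194381927 26843546 (by decide)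
      (.s3 3162430711 3302983187 70276239 (by decide)
       (.s2 1300110406 1370386644 35138120 (by decide)
        (ok_go H c11a_2340)
        (ok_go H c11a_2341))
       (.s2 1300110406 1370386644 35138120 (by decide)
        (ok_go H c11a_2342)
        (ok_go H c11a_2343)))
      (.s3 3162430711 3302983187 70276239 (by decide)
       (.s2 1300110406 1370386644 35138120 (by decide)
        (ok_go H c11a_2344)
        (ok_go H c11a_2345))
       (ok_go H c11a_2346))))))

theorem ok11a_51 (H : Good p11a L b s) :
    Ok L b s 3113851290 107374183 1546077239 140552477 3092154473 281104953 :=
  (.s3 2951601997 3232706949 140552477 (by decide)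
   (.s1 3060164199 3167538381 53687092 (by decide)
    (.s2 1475801001 1616353477 70276239 (by decide)
     (ok_go H c11a_2347)
     (ok_go H c11a_2348))
    (.s2 1475801001 1616353477 70276239 (by decide)
     (.s1 3140694835 3194381927 26843546 (by decide)
      (.s3 2881325759 3021878235 70276239 (by decide)
       (.s2 1440662882 1510939120 35138120 (by decide)
        (ok_go H c11a_2349)
        (ok_go H c11a_2350))
       (.s2 1440662882 1510939120 35138120 (by decide)
        (ok_go H c11a_2351)
        (ok_go H c11a_2352)))
      (.s3 2881325759 3021878235 70276239 (by decide)
       (.s2 1440662882 1510939120 35138120 (by decide)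
        (.s3 2846187640 2916463878 35138120 (by decide)
         (ok_go H c11a_2353)
         (ok_go H c11a_2354))
        (.s3 2846187640 2916463878 35138120 (by decide)
         (ok_go H c11a_2355)
         (.s1 3180960154 3207803700 13421773 (by decide)
          (ok_go H c11a_2356)
          (ok_go H c11a_2357))))
       (.s2 1440662882 1510939120 35138120 (by decide)
        (.s3 2986740116 3057016354 35138120 (by decide)
         (ok_go H c11a_2358)
         (ok_go H c11a_2359))
        (.s3 2986740116 3057016354 35138120 (by decide)
         (.s1 3180960154 3207803700 13421773 (by decide)
          (ok_go H c11a_2360)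
          (ok_go H c11a_2361))
         (ok_go H c11a_2362)))))
     (.s3 2881325759 3021878235 70276239 (by decide)
      (.s1 3140694835 3194381927 26843546 (by decide)
       (ok_go H c11a_2363)
       (.s2 1581215358 1651491596 35138120 (by decide)
        (.s3 2846187640 2916463878 35138120 (by decide)
         (ok_go H c11a_2364)
         (.s1 3180960154 3207803700 13421773 (by decide)
          (ok_go H c11a_2365)
          (ok_go H c11a_2366)))
        (.s3 2846187640 2916463878 35138120 (by decide)
         (ok_go H c11a_2367)
         (.s1 3180960154 3207803700 13421773 (by decide)
          (ok_go H c11a_2368)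
          (ok_go H c11a_2369)))))
      (.s1 3140694835 3194381927 26843546 (by decide)
       (ok_go H c11a_2370)
       (.s2 1581215358 1651491596 35138120 (by decide)
        (.s3 2986740116 3057016354 35138120 (by decide)
         (.s1 3180960154 3207803700 13421773 (by decide)
          (ok_go H c11a_2371)
          (ok_go H c11a_2372))
         (ok_go H c11a_2373))
        (.s3 2986740116 3057016354 35138120 (by decide)
         (.s1 3180960154 3207803700 13421773 (by decide)
          (ok_go H c11a_2374)
          (ok_go H c11a_2375))
         (ok_go H c11a_2376)))))))
   (.s1 3060164199 3167538381 53687092 (by decide)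
    (.s1 3033320653 3087007745 26843546 (by decide)
     (ok_go H c11a_2377)
     (.s2 1475801001 1616353477 70276239 (by decide)
      (ok_go H c11a_2378)
      (ok_go H c11a_2379)))
    (.s2 1475801001 1616353477 70276239 (by decide)
     (.s1 3140694835 3194381927 26843546 (by decide)
      (.s3 3162430711 3302983187 70276239 (by decide)
       (.s2 1440662882 1510939120 35138120 (by decide)
        (ok_go H c11a_2380)
        (ok_go H c11a_2381))
       (.s2 1440662882 1510939120 35138120 (by decide)
        (ok_go H c11a_2382)
        (ok_go H c11a_2383)))
      (.s3 3162430711 3302983187 70276239 (by decide)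
       (.s2 1440662882 1510939120 35138120 (by decide)
        (ok_go H c11a_2384)
        (ok_go H c11a_2385))
       (ok_go H c11a_2386)))
     (.s3 3162430711 3302983187 70276239 (by decide)
      (.s1 3140694835 3194381927 26843546 (by decide)
       (.s2 1581215358 1651491596 35138120 (by decide)
        (ok_go H c11a_2387)
        (ok_go H c11a_2388))
       (.s2 1581215358 1651491596 35138120 (by decide)
        (ok_go H c11a_2389)
        (ok_go H c11a_2390)))
      (.s1 3140694835 3194381927 26843546 (by decide)
       (.s2 1581215358 1651491596 35138120 (by decide)
        (ok_go H c11a_2391)
        (ok_go H c11a_2392))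
       (ok_go H c11a_2393))))))

theorem ok11a_52 (H : Good p11a L b s) :
    Ok L b s 3328599654 107374183 1264972287 140552477 3092154473 281104953 :=
  (.s3 2951601997 3232706949 140552477 (by decide)
   (.s1 3274912563 3382286745 53687092 (by decide)
    (.s2 1194696049 1335248525 70276239 (by decide)
     (.s3 2881325759 3021878235 70276239 (by decide)
      (.s1 3248069017 3301756109 26843546 (by decide)
       (ok_go H c11a_2394)
       (.s2 1159557930 1229834168 35138120 (by decide)
        (ok_go H c11a_2395)
        (ok_go H c11a_2396)))
      (.s1 3248069017 3301756109 26843546 (by decide)
       (ok_go H c11a_2397)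
       (.s2 1159557930 1229834168 35138120 (by decide)
        (ok_go H c11a_2398)
        (ok_go H c11a_2399))))
     (.s3 2881325759 3021878235 70276239 (by decide)
      (.s1 3248069017 3301756109 26843546 (by decide)
       (ok_go H c11a_2400)
       (.s2 1300110406 1370386644 35138120 (by decide)
        (ok_go H c11a_2401)
        (.s3 2846187640 2916463878 35138120 (by decide)
         (ok_go H c11a_2402)
         (ok_go H c11a_2403))))
      (.s1 3248069017 3301756109 26843546 (by decide)
       (.s2 1300110406 1370386644 35138120 (by decide)
        (ok_go H c11a_2404)
        (ok_go H c11a_2405))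
       (.s2 1300110406 1370386644 35138120 (by decide)
        (ok_go H c11a_2406)
        (.s3 2986740116 3057016354 35138120 (by decide)
         (ok_go H c11a_2407)
         (ok_go H c11a_2408))))))
    (.s2 1194696049 1335248525 70276239 (by decide)
     (.s1 3355443199 3409130291 26843546 (by decide)
      (.s3 2881325759 3021878235 70276239 (by decide)
       (ok_go H c11a_2409)
       (ok_go H c11a_2410))
      (ok_go H c11a_2411))
     (.s1 3355443199 3409130291 26843546 (by decide)
      (.s3 2881325759 3021878235 70276239 (by decide)
       (.s2 1300110406 1370386644 35138120 (by decide)
        (ok_go H c11a_2412)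
        (ok_go H c11a_2413))
       (.s2 1300110406 1370386644 35138120 (by decide)
        (ok_go H c11a_2414)
        (ok_go H c11a_2415)))
      (ok_go H c11a_2416))))
   (.s1 3274912563 3382286745 53687092 (by decide)
    (.s2 1194696049 1335248525 70276239 (by decide)
     (.s3 3162430711 3302983187 70276239 (by decide)
      (.s1 3248069017 3301756109 26843546 (by decide)
       (ok_go H c11a_2417)
       (ok_go H c11a_2418))
      (ok_go H c11a_2419))
     (.s3 3162430711 3302983187 70276239 (by decide)
      (.s1 3248069017 3301756109 26843546 (by decide)
       (ok_go H c11a_2420)
       (ok_go H c11a_2421))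
      (ok_go H c11a_2422)))
    (.s2 1194696049 1335248525 70276239 (by decide)
     (.s1 3355443199 3409130291 26843546 (by decide)
      (ok_go H c11a_2423)
      (ok_go H c11a_2424))
     (.s3 3162430711 3302983187 70276239 (by decide)
      (.s1 3355443199 3409130291 26843546 (by decide)
       (ok_go H c11a_2425)
       (ok_go H c11a_2426))
      (ok_go H c11a_2427)))))

theorem ok11a_53 (H : Good p11a L b s) :
    Ok L b s 3328599654 107374183 1546077239 140552477 3092154473 281104953 :=
  (.s3 2951601997 3232706949 140552477 (by decide)
   (.s1 3274912563 3382286745 53687092 (by decide)
    (.s2 1475801001 1616353477 70276239 (by decide)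
     (.s3 2881325759 3021878235 70276239 (by decide)
      (.s1 3248069017 3301756109 26843546 (by decide)
       (.s2 1440662882 1510939120 35138120 (by decide)
        (ok_go H c11a_2428)
        (ok_go H c11a_2429))
       (.s2 1440662882 1510939120 35138120 (by decide)
        (.s3 2846187640 2916463878 35138120 (by decide)
         (.s1 3288334336 3315177882 13421773 (by decide)
          (ok_go H c11a_2430)
          (ok_go H c11a_2431))
         (.s1 3288334336 3315177882 13421773 (by decide)
          (ok_go H c11a_2432)
          (ok_go H c11a_2433)))
        (.s3 2846187640 2916463878 35138120 (by decide)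
         (.s1 3288334336 3315177882 13421773 (by decide)
          (ok_go H c11a_2434)
          (.s2 1493370060 1528508180 17569060 (by decide)
           (ok_go H c11a_2435)
           (ok_go H c11a_2436)))
         (.s1 3288334336 3315177882 13421773 (by decide)
          (ok_go H c11a_2437)
          (ok_go H c11a_2438)))))
      (.s1 3248069017 3301756109 26843546 (by decide)
       (.s2 1440662882 1510939120 35138120 (by decide)
        (ok_go H c11a_2439)
        (ok_go H c11a_2440))
       (.s2 1440662882 1510939120 35138120 (by decide)
        (.s3 2986740116 3057016354 35138120 (by decide)
         (ok_go H c11a_2441)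
         (ok_go H c11a_2442))
        (ok_go H c11a_2443))))
     (.s3 2881325759 3021878235 70276239 (by decide)
      (.s1 3248069017 3301756109 26843546 (by decide)
       (.s2 1581215358 1651491596 35138120 (by decide)
        (ok_go H c11a_2444)
        (.s3 2846187640 2916463878 35138120 (by decide)
         (ok_go H c11a_2445)
         (ok_go H c11a_2446)))
       (.s2 1581215358 1651491596 35138120 (by decide)
        (.s3 2846187640 2916463878 35138120 (by decide)
         (.s1 3288334336 3315177882 13421773 (by decide)
          (ok_go H c11a_2447)
          (.s2 1563646298 1598784418 17569060 (by decide)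
           (ok_go H c11a_2448)
           (ok_go H c11a_2449)))
         (.s1 3288334336 3315177882 13421773 (by decide)
          (ok_go H c11a_2450)
          (ok_go H c11a_2451)))
        (.s3 2846187640 2916463878 35138120 (by decide)
         (.s1 3288334336 3315177882 13421773 (by decide)
          (ok_go H c11a_2452)
          (ok_go H c11a_2453))
         (ok_go H c11a_2454))))
      (.s1 3248069017 3301756109 26843546 (by decide)
       (.s2 1581215358 1651491596 35138120 (by decide)
        (ok_go H c11a_2455)
        (ok_go H c11a_2456))
       (.s2 1581215358 1651491596 35138120 (by decide)
        (ok_go H c11a_2457)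
        (ok_go H c11a_2458)))))
    (.s2 1475801001 1616353477 70276239 (by decide)
     (.s1 3355443199 3409130291 26843546 (by decide)
      (.s3 2881325759 3021878235 70276239 (by decide)
       (.s2 1440662882 1510939120 35138120 (by decide)
        (.s1 3342021426 3368864972 13421773 (by decide)
         (ok_go H c11a_2459)
         (ok_go H c11a_2460))
        (.s1 3342021426 3368864972 13421773 (by decide)
         (ok_go H c11a_2461)
         (ok_go H c11a_2462)))
       (.s2 1440662882 1510939120 35138120 (by decide)
        (ok_go H c11a_2463)
        (ok_go H c11a_2464)))
      (.s3 2881325759 3021878235 70276239 (by decide)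
       (ok_go H c11a_2465)
       (ok_go H c11a_2466)))
     (.s1 3355443199 3409130291 26843546 (by decide)
      (.s3 2881325759 3021878235 70276239 (by decide)
       (.s2 1581215358 1651491596 35138120 (by decide)
        (.s1 3342021426 3368864972 13421773 (by decide)
         (.s3 2846187640 2916463878 35138120 (by decide)
          (ok_go H c11a_2467)
          (ok_go H c11a_2468))
         (ok_go H c11a_2469))
        (.s1 3342021426 3368864972 13421773 (by decide)
         (.s3 2846187640 2916463878 35138120 (by decide)
          (ok_go H c11a_2470)
          (ok_go H c11a_2471))
         (ok_go H c11a_2472)))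
       (.s2 1581215358 1651491596 35138120 (by decide)
        (.s3 2986740116 3057016354 35138120 (by decide)
         (ok_go H c11a_2473)
         (ok_go H c11a_2474))
        (.s3 2986740116 3057016354 35138120 (by decide)
         (ok_go H c11a_2475)
         (ok_go H c11a_2476))))
      (.s3 2881325759 3021878235 70276239 (by decide)
       (.s2 1581215358 1651491596 35138120 (by decide)
        (ok_go H c11a_2477)
        (ok_go H c11a_2478))
       (.s1 3395708518 3422552064 13421773 (by decide)
        (ok_go H c11a_2479)
        (ok_go H c11a_2480))))))
   (.s1 3274912563 3382286745 53687092 (by decide)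
    (.s2 1475801001 1616353477 70276239 (by decide)
     (.s3 3162430711 3302983187 70276239 (by decide)
      (.s1 3248069017 3301756109 26843546 (by decide)
       (ok_go H c11a_2481)
       (ok_go H c11a_2482))
      (ok_go H c11a_2483))
     (.s3 3162430711 3302983187 70276239 (by decide)
      (.s1 3248069017 3301756109 26843546 (by decide)
       (ok_go H c11a_2484)
       (ok_go H c11a_2485))
      (ok_go H c11a_2486)))
    (.s2 1475801001 1616353477 70276239 (by decide)
     (.s3 3162430711 3302983187 70276239 (by decide)
      (.s1 3355443199 3409130291 26843546 (by decide)
       (.s2 1440662882 1510939120 35138120 (by decide)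
        (ok_go H c11a_2487)
        (ok_go H c11a_2488))
       (ok_go H c11a_2489))
      (ok_go H c11a_2490))
     (.s3 3162430711 3302983187 70276239 (by decide)
      (.s1 3355443199 3409130291 26843546 (by decide)
       (.s2 1581215358 1651491596 35138120 (by decide)
        (ok_go H c11a_2491)
        (ok_go H c11a_2492))
       (ok_go H c11a_2493))
      (.s1 3355443199 3409130291 26843546 (by decide)
       (ok_go H c11a_2494)
       (ok_go H c11a_2495))))))

theorem ok11a_54 (H : Good p11a L b s) :
    Ok L b s 3113851290 107374183 1967734667 281104953 2529944569 281104953 :=
  (.s2 1827182191 2108287143 140552477 (by decide)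
   (.s1 3060164199 3167538381 53687092 (by decide)
    (.s3 2389392093 2670497045 140552477 (by decide)
     (ok_go H c11a_2496)
     (ok_go H c11a_2497))
    (.s3 2389392093 2670497045 140552477 (by decide)
     (.s2 1756905953 1897458429 70276239 (by decide)
      (ok_go H c11a_2498)
      (.s3 2319115855 2459668331 70276239 (by decide)
       (ok_go H c11a_2499)
       (.s1 3140694835 3194381927 26843546 (by decide)
        (ok_go H c11a_2500)
        (.s2 1862320310 1932596548 35138120 (by decide)
         (ok_go H c11a_2501)
         (ok_go H c11a_2502)))))
     (.s2 1756905953 1897458429 70276239 (by decide)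
      (.s3 2600220807 2740773283 70276239 (by decide)
       (.s1 3140694835 3194381927 26843546 (by decide)
        (ok_go H c11a_2503)
        (.s2 1721767834 1792044072 35138120 (by decide)
         (ok_go H c11a_2504)
         (ok_go H c11a_2505)))
       (.s1 3140694835 3194381927 26843546 (by decide)
        (ok_go H c11a_2506)
        (.s2 1721767834 1792044072 35138120 (by decide)
         (ok_go H c11a_2507)
         (ok_go H c11a_2508))))
      (.s3 2600220807 2740773283 70276239 (by decide)
       (.s1 3140694835 3194381927 26843546 (by decide)
        (ok_go H c11a_2509)
        (.s2 1862320310 1932596548 35138120 (by decide)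
         (ok_go H c11a_2510)
         (ok_go H c11a_2511)))
       (.s1 3140694835 3194381927 26843546 (by decide)
        (ok_go H c11a_2512)
        (.s2 1862320310 1932596548 35138120 (by decide)
         (.s3 2705635164 2775911402 35138120 (by decide)
          (ok_go H c11a_2513)
          (ok_go H c11a_2514))
         (.s3 2705635164 2775911402 35138120 (by decide)
          (ok_go H c11a_2515)
          (ok_go H c11a_2516))))))))
   (.s3 2389392093 2670497045 140552477 (by decide)
    (.s1 3060164199 3167538381 53687092 (by decide)
     (ok_go H c11a_2517)
     (.s2 2038010905 2178563381 70276239 (by decide)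
      (.s1 3140694835 3194381927 26843546 (by decide)
       (ok_go H c11a_2518)
       (.s3 2319115855 2459668331 70276239 (by decide)
        (ok_go H c11a_2519)
        (ok_go H c11a_2520)))
      (.s3 2319115855 2459668331 70276239 (by decide)
       (ok_go H c11a_2521)
       (ok_go H c11a_2522))))
    (.s1 3060164199 3167538381 53687092 (by decide)
     (ok_go H c11a_2523)
     (.s3 2600220807 2740773283 70276239 (by decide)
      (.s2 2038010905 2178563381 70276239 (by decide)
       (.s1 3140694835 3194381927 26843546 (by decide)
        (ok_go H c11a_2524)
        (ok_go H c11a_2525))
       (ok_go H c11a_2526))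
      (.s2 2038010905 2178563381 70276239 (by decide)
       (.s1 3140694835 3194381927 26843546 (by decide)
        (ok_go H c11a_2527)
        (ok_go H c11a_2528))
       (ok_go H c11a_2529))))))

theorem ok11a_55 (H : Good p11a L b s) :
    Ok L b s 3328599654 107374183 1827182191 140552477 2389392093 140552477 :=
  (.s1 3274912563 3382286745 53687092 (by decide)
   (.s2 1756905953 1897458429 70276239 (by decide)
    (.s3 2319115855 2459668331 70276239 (by decide)
     (ok_go H c11a_2530)
     (.s1 3248069017 3301756109 26843546 (by decide)
      (.s2 1721767834 1792044072 35138120 (by decide)
       (ok_go H c11a_2531)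
       (.s3 2424530212 2494806450 35138120 (by decide)
        (ok_go H c11a_2532)
        (ok_go H c11a_2533)))
      (.s2 1721767834 1792044072 35138120 (by decide)
       (ok_go H c11a_2534)
       (.s3 2424530212 2494806450 35138120 (by decide)
        (ok_go H c11a_2535)
        (.s1 3288334336 3315177882 13421773 (by decide)
         (ok_go H c11a_2536)
         (ok_go H c11a_2537))))))
    (.s3 2319115855 2459668331 70276239 (by decide)
     (ok_go H c11a_2538)
     (.s1 3248069017 3301756109 26843546 (by decide)
      (.s2 1862320310 1932596548 35138120 (by decide)
       (.s3 2424530212 2494806450 35138120 (by decide)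
        (ok_go H c11a_2539)
        (.s1 3234647244 3261490790 13421773 (by decide)
         (ok_go H c11a_2540)
         (.s2 1844751250 1879889370 17569060 (by decide)
          (ok_go H c11a_2541)
          (ok_go H c11a_2542))))
       (.s3 2424530212 2494806450 35138120 (by decide)
        (.s1 3234647244 3261490790 13421773 (by decide)
         (ok_go H c11a_2543)
         (.s2 1915027488 1950165608 17569060 (by decide)
          (ok_go H c11a_2544)
          (ok_go H c11a_2545)))
        (.s1 3234647244 3261490790 13421773 (by decide)
         (ok_go H c11a_2546)
         (.s2 1915027488 1950165608 17569060 (by decide)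
          (.s3 2477237390 2512375510 17569060 (by decide)
           (ok_go H c11a_2547)
           (ok_go H c11a_2548))
          (.s3 2477237390 2512375510 17569060 (by decide)
           (ok_go H c11a_2549)
           (ok_go H c11a_2550))))))
      (.s2 1862320310 1932596548 35138120 (by decide)
       (.s3 2424530212 2494806450 35138120 (by decide)
        (.s1 3288334336 3315177882 13421773 (by decide)
         (ok_go H c11a_2551)
         (ok_go H c11a_2552))
        (.s1 3288334336 3315177882 13421773 (by decide)
         (ok_go H c11a_2553)
         (ok_go H c11a_2554)))
       (.s3 2424530212 2494806450 35138120 (by decide)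
        (.s1 3288334336 3315177882 13421773 (by decide)
         (.s2 1915027488 1950165608 17569060 (by decide)
          (ok_go H c11a_2555)
          (ok_go H c11a_2556))
         (.s2 1915027488 1950165608 17569060 (by decide)
          (ok_go H c11a_2557)
          (ok_go H c11a_2558)))
        (.s1 3288334336 3315177882 13421773 (by decide)
         (.s2 1915027488 1950165608 17569060 (by decide)
          (ok_go H c11a_2559)
          (ok_go H c11a_2560))
         (.s2 1915027488 1950165608 17569060 (by decide)
          (ok_go H c11a_2561)
          (ok_go H c11a_2562))))))))
   (.s2 1756905953 1897458429 70276239 (by decide)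
    (.s3 2319115855 2459668331 70276239 (by decide)
     (ok_go H c11a_2563)
     (.s1 3355443199 3409130291 26843546 (by decide)
      (.s2 1721767834 1792044072 35138120 (by decide)
       (.s3 2424530212 2494806450 35138120 (by decide)
        (ok_go H c11a_2564)
        (.s1 3342021426 3368864972 13421773 (by decide)
         (ok_go H c11a_2565)
         (ok_go H c11a_2566)))
       (.s3 2424530212 2494806450 35138120 (by decide)
        (ok_go H c11a_2567)
        (.s1 3342021426 3368864972 13421773 (by decide)
         (.s2 1774475012 1809613132 17569060 (by decide)
          (ok_go H c11a_2568)
          (ok_go H c11a_2569))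
         (.s2 1774475012 1809613132 17569060 (by decide)
          (ok_go H c11a_2570)
          (ok_go H c11a_2571)))))
      (ok_go H c11a_2572)))
    (.s1 3355443199 3409130291 26843546 (by decide)
     (.s3 2319115855 2459668331 70276239 (by decide)
      (ok_go H c11a_2573)
      (.s2 1862320310 1932596548 35138120 (by decide)
       (.s3 2424530212 2494806450 35138120 (by decide)
        (ok_go H c11a_2574)
        (.s1 3342021426 3368864972 13421773 (by decide)
         (ok_go H c11a_2575)
         (.s2 1844751250 1879889370 17569060 (by decide)
          (ok_go H c11a_2576)
          (ok_go H c11a_2577))))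
       (.s3 2424530212 2494806450 35138120 (by decide)
        (.s1 3342021426 3368864972 13421773 (by decide)
         (ok_go H c11a_2578)
         (ok_go H c11a_2579))
        (.s1 3342021426 3368864972 13421773 (by decide)
         (ok_go H c11a_2580)
         (.s2 1915027488 1950165608 17569060 (by decide)
          (ok_go H c11a_2581)
          (ok_go H c11a_2582))))))
     (.s3 2319115855 2459668331 70276239 (by decide)
      (ok_go H c11a_2583)
      (.s1 3395708518 3422552064 13421773 (by decide)
       (.s2 1862320310 1932596548 35138120 (by decide)
        (ok_go H c11a_2584)
        (ok_go H c11a_2585))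
       (ok_go H c11a_2586))))))

theorem ok11a_56 (H : Good p11a L b s) :
    Ok L b s 3274912563 53687092 1756905953 70276239 2670497045 140552477 :=
  (.s3 2600220807 2740773283 70276239 (by decide)
   (.s1 3248069017 3301756109 26843546 (by decide)
    (.s2 1721767834 1792044072 35138120 (by decide)
     (.s3 2565082688 2635358926 35138120 (by decide)
      (ok_go H c11a_2587)
      (ok_go H c11a_2588))
     (.s3 2565082688 2635358926 35138120 (by decide)
      (.s1 3234647244 3261490790 13421773 (by decide)
       (ok_go H c11a_2589)
       (ok_go H c11a_2590))
      (.s1 3234647244 3261490790 13421773 (by decide)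
       (ok_go H c11a_2591)
       (ok_go H c11a_2592))))
    (.s2 1721767834 1792044072 35138120 (by decide)
     (.s3 2565082688 2635358926 35138120 (by decide)
      (.s1 3288334336 3315177882 13421773 (by decide)
       (ok_go H c11a_2593)
       (.s2 1704198774 1739336894 17569060 (by decide)
        (ok_go H c11a_2594)
        (ok_go H c11a_2595)))
      (.s1 3288334336 3315177882 13421773 (by decide)
       (ok_go H c11a_2596)
       (.s2 1704198774 1739336894 17569060 (by decide)
        (ok_go H c11a_2597)
        (ok_go H c11a_2598))))
     (.s3 2565082688 2635358926 35138120 (by decide)
      (.s1 3288334336 3315177882 13421773 (by decide)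
       (ok_go H c11a_2599)
       (.s2 1774475012 1809613132 17569060 (by decide)
        (ok_go H c11a_2600)
        (ok_go H c11a_2601)))
      (.s1 3288334336 3315177882 13421773 (by decide)
       (.s2 1774475012 1809613132 17569060 (by decide)
        (ok_go H c11a_2602)
        (ok_go H c11a_2603))
       (.s2 1774475012 1809613132 17569060 (by decide)
        (.s3 2617789866 2652927986 17569060 (by decide)
         (ok_go H c11a_2604)
         (ok_go H c11a_2605))
        (.s3 2617789866 2652927986 17569060 (by decide)
         (ok_go H c11a_2606)
         (ok_go H c11a_2607)))))))
   (.s1 3248069017 3301756109 26843546 (by decide)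
    (.s2 1721767834 1792044072 35138120 (by decide)
     (.s3 2705635164 2775911402 35138120 (by decide)
      (ok_go H c11a_2608)
      (ok_go H c11a_2609))
     (.s3 2705635164 2775911402 35138120 (by decide)
      (ok_go H c11a_2610)
      (.s1 3234647244 3261490790 13421773 (by decide)
       (ok_go H c11a_2611)
       (ok_go H c11a_2612))))
    (.s2 1721767834 1792044072 35138120 (by decide)
     (.s3 2705635164 2775911402 35138120 (by decide)
      (.s1 3288334336 3315177882 13421773 (by decide)
       (.s2 1704198774 1739336894 17569060 (by decide)
        (ok_go H c11a_2613)
        (ok_go H c11a_2614))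
       (.s2 1704198774 1739336894 17569060 (by decide)
        (ok_go H c11a_2615)
        (.s3 2688066104 2723204224 17569060 (by decide)
         (ok_go H c11a_2616)
         (ok_go H c11a_2617))))
      (.s1 3288334336 3315177882 13421773 (by decide)
       (.s2 1704198774 1739336894 17569060 (by decide)
        (ok_go H c11a_2618)
        (ok_go H c11a_2619))
       (.s2 1704198774 1739336894 17569060 (by decide)
        (ok_go H c11a_2620)
        (ok_go H c11a_2621))))
     (.s3 2705635164 2775911402 35138120 (by decide)
      (.s1 3288334336 3315177882 13421773 (by decide)
       (.s2 1774475012 1809613132 17569060 (by decide)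
        (.s3 2688066104 2723204224 17569060 (by decide)
         (ok_go H c11a_2622)
         (ok_go H c11a_2623))
        (.s3 2688066104 2723204224 17569060 (by decide)
         (ok_go H c11a_2624)
         (ok_go H c11a_2625)))
       (.s2 1774475012 1809613132 17569060 (by decide)
        (.s3 2688066104 2723204224 17569060 (by decide)
         (ok_go H c11a_2626)
         (ok_go H c11a_2627))
        (.s3 2688066104 2723204224 17569060 (by decide)
         (ok_go H c11a_2628)
         (ok_go H c11a_2629))))
      (.s1 3288334336 3315177882 13421773 (by decide)
       (.s2 1774475012 1809613132 17569060 (by decide)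
        (ok_go H c11a_2630)
        (ok_go H c11a_2631))
       (.s2 1774475012 1809613132 17569060 (by decide)
        (ok_go H c11a_2632)
        (ok_go H c11a_2633)))))))

theorem ok11a_57 (H : Good p11a L b s) :
    Ok L b s 3274912563 53687092 1897458429 70276239 2670497045 140552477 :=
  (.s3 2600220807 2740773283 70276239 (by decide)
   (.s1 3248069017 3301756109 26843546 (by decide)
    (.s2 1862320310 1932596548 35138120 (by decide)
     (.s3 2565082688 2635358926 35138120 (by decide)
      (.s1 3234647244 3261490790 13421773 (by decide)
       (ok_go H c11a_2634)
       (.s2 1844751250 1879889370 17569060 (by decide)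
        (ok_go H c11a_2635)
        (.s3 2547513628 2582651748 17569060 (by decide)
         (ok_go H c11a_2636)
         (ok_go H c11a_2637))))
      (.s1 3234647244 3261490790 13421773 (by decide)
       (ok_go H c11a_2638)
       (.s2 1844751250 1879889370 17569060 (by decide)
        (ok_go H c11a_2639)
        (ok_go H c11a_2640))))
     (.s3 2565082688 2635358926 35138120 (by decide)
      (.s1 3234647244 3261490790 13421773 (by decide)
       (ok_go H c11a_2641)
       (.s2 1915027488 1950165608 17569060 (by decide)
        (.s3 2547513628 2582651748 17569060 (by decide)
         (ok_go H c11a_2642)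
         (ok_go H c11a_2643))
        (.s3 2547513628 2582651748 17569060 (by decide)
         (ok_go H c11a_2644)
         (ok_go H c11a_2645))))
      (.s1 3234647244 3261490790 13421773 (by decide)
       (ok_go H c11a_2646)
       (.s3 2617789866 2652927986 17569060 (by decide)
        (ok_go H c11a_2647)
        (ok_go H c11a_2648)))))
    (.s2 1862320310 1932596548 35138120 (by decide)
     (.s3 2565082688 2635358926 35138120 (by decide)
      (.s1 3288334336 3315177882 13421773 (by decide)
       (ok_go H c11a_2649)
       (.s2 1844751250 1879889370 17569060 (by decide)
        (ok_go H c11a_2650)
        (ok_go H c11a_2651)))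
      (.s1 3288334336 3315177882 13421773 (by decide)
       (.s2 1844751250 1879889370 17569060 (by decide)
        (ok_go H c11a_2652)
        (ok_go H c11a_2653))
       (.s2 1844751250 1879889370 17569060 (by decide)
        (ok_go H c11a_2654)
        (ok_go H c11a_2655))))
     (.s3 2565082688 2635358926 35138120 (by decide)
      (.s1 3288334336 3315177882 13421773 (by decide)
       (.s3 2547513628 2582651748 17569060 (by decide)
        (ok_go H c11a_2656)
        (ok_go H c11a_2657))
       (.s3 2547513628 2582651748 17569060 (by decide)
        (ok_go H c11a_2658)
        (ok_go H c11a_2659)))
      (.s1 3288334336 3315177882 13421773 (by decide)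
       (ok_go H c11a_2660)
       (.s2 1915027488 1950165608 17569060 (by decide)
        (ok_go H c11a_2661)
        (ok_go H c11a_2662))))))
   (.s1 3248069017 3301756109 26843546 (by decide)
    (.s2 1862320310 1932596548 35138120 (by decide)
     (.s3 2705635164 2775911402 35138120 (by decide)
      (.s1 3234647244 3261490790 13421773 (by decide)
       (ok_go H c11a_2663)
       (ok_go H c11a_2664))
      (.s1 3234647244 3261490790 13421773 (by decide)
       (ok_go H c11a_2665)
       (ok_go H c11a_2666)))
     (.s3 2705635164 2775911402 35138120 (by decide)
      (.s1 3234647244 3261490790 13421773 (by decide)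
       (ok_go H c11a_2667)
       (ok_go H c11a_2668))
      (.s1 3234647244 3261490790 13421773 (by decide)
       (.s2 1915027488 1950165608 17569060 (by decide)
        (ok_go H c11a_2669)
        (ok_go H c11a_2670))
       (ok_go H c11a_2671))))
    (.s2 1862320310 1932596548 35138120 (by decide)
     (.s3 2705635164 2775911402 35138120 (by decide)
      (.s1 3288334336 3315177882 13421773 (by decide)
       (.s2 1844751250 1879889370 17569060 (by decide)
        (.s1 3281623450 3295045222 6710887 (by decide)
         (ok_go H c11a_2672)
         (ok_go H c11a_2673))
        (ok_go H c11a_2674))
       (.s2 1844751250 1879889370 17569060 (by decide)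
        (ok_go H c11a_2675)
        (ok_go H c11a_2676)))
      (.s1 3288334336 3315177882 13421773 (by decide)
       (.s2 1844751250 1879889370 17569060 (by decide)
        (ok_go H c11a_2677)
        (ok_go H c11a_2678))
       (.s2 1844751250 1879889370 17569060 (by decide)
        (ok_go H c11a_2679)
        (ok_go H c11a_2680))))
     (.s3 2705635164 2775911402 35138120 (by decide)
      (.s1 3288334336 3315177882 13421773 (by decide)
       (.s2 1915027488 1950165608 17569060 (by decide)
        (ok_go H c11a_2681)
        (ok_go H c11a_2682))
       (.s2 1915027488 1950165608 17569060 (by decide)
        (ok_go H c11a_2683)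
        (ok_go H c11a_2684)))
      (.s1 3288334336 3315177882 13421773 (by decide)
       (ok_go H c11a_2685)
       (.s3 2758342342 2793480462 17569060 (by decide)
        (ok_go H c11a_2686)
        (ok_go H c11a_2687)))))))

theorem ok11a_58 (H : Good p11a L b s) :
    Ok L b s 3382286745 53687092 1827182191 140552477 2670497045 140552477 :=
  (.s2 1756905953 1897458429 70276239 (by decide)
   (.s1 3355443199 3409130291 26843546 (by decide)
    (.s3 2600220807 2740773283 70276239 (by decide)
     (.s2 1721767834 1792044072 35138120 (by decide)
      (.s3 2565082688 2635358926 35138120 (by decide)
       (.s1 3342021426 3368864972 13421773 (by decide)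
        (.s2 1704198774 1739336894 17569060 (by decide)
         (ok_go H c11a_2688)
         (ok_go H c11a_2689))
        (ok_go H c11a_2690))
       (.s1 3342021426 3368864972 13421773 (by decide)
        (ok_go H c11a_2691)
        (ok_go H c11a_2692)))
      (.s3 2565082688 2635358926 35138120 (by decide)
       (.s1 3342021426 3368864972 13421773 (by decide)
        (ok_go H c11a_2693)
        (ok_go H c11a_2694))
       (.s1 3342021426 3368864972 13421773 (by decide)
        (ok_go H c11a_2695)
        (ok_go H c11a_2696))))
     (.s2 1721767834 1792044072 35138120 (by decide)
      (.s3 2705635164 2775911402 35138120 (by decide)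
       (.s1 3342021426 3368864972 13421773 (by decide)
        (ok_go H c11a_2697)
        (ok_go H c11a_2698))
       (ok_go H c11a_2699))
      (.s3 2705635164 2775911402 35138120 (by decide)
       (.s1 3342021426 3368864972 13421773 (by decide)
        (ok_go H c11a_2700)
        (ok_go H c11a_2701))
       (.s1 3342021426 3368864972 13421773 (by decide)
        (ok_go H c11a_2702)
        (ok_go H c11a_2703)))))
    (.s3 2600220807 2740773283 70276239 (by decide)
     (.s1 3395708518 3422552064 13421773 (by decide)
      (.s2 1721767834 1792044072 35138120 (by decide)
       (ok_go H c11a_2704)
       (ok_go H c11a_2705))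
      (ok_go H c11a_2706))
     (.s1 3395708518 3422552064 13421773 (by decide)
      (ok_go H c11a_2707)
      (ok_go H c11a_2708))))
   (.s3 2600220807 2740773283 70276239 (by decide)
    (.s1 3355443199 3409130291 26843546 (by decide)
     (.s2 1862320310 1932596548 35138120 (by decide)
      (.s3 2565082688 2635358926 35138120 (by decide)
       (.s1 3342021426 3368864972 13421773 (by decide)
        (ok_go H c11a_2709)
        (.s2 1844751250 1879889370 17569060 (by decide)
         (ok_go H c11a_2710)
         (ok_go H c11a_2711)))
       (.s1 3342021426 3368864972 13421773 (by decide)
        (ok_go H c11a_2712)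
        (ok_go H c11a_2713)))
      (.s3 2565082688 2635358926 35138120 (by decide)
       (.s1 3342021426 3368864972 13421773 (by decide)
        (ok_go H c11a_2714)
        (ok_go H c11a_2715))
       (ok_go H c11a_2716)))
     (.s1 3395708518 3422552064 13421773 (by decide)
      (.s2 1862320310 1932596548 35138120 (by decide)
       (ok_go H c11a_2717)
       (ok_go H c11a_2718))
      (ok_go H c11a_2719)))
    (.s1 3355443199 3409130291 26843546 (by decide)
     (.s2 1862320310 1932596548 35138120 (by decide)
      (.s3 2705635164 2775911402 35138120 (by decide)
       (ok_go H c11a_2720)
       (ok_go H c11a_2721))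
      (.s3 2705635164 2775911402 35138120 (by decide)
       (ok_go H c11a_2722)
       (ok_go H c11a_2723)))
     (.s3 2705635164 2775911402 35138120 (by decide)
      (ok_go H c11a_2724)
      (ok_go H c11a_2725)))))

theorem ok11a_59 (H : Good p11a L b s) :
    Ok L b s 3274912563 53687092 2108287143 140552477 2389392093 140552477 :=
  (.s3 2319115855 2459668331 70276239 (by decide)
   (.s2 2038010905 2178563381 70276239 (by decide)
    (.s1 3248069017 3301756109 26843546 (by decide)
     (.s2 2002872786 2073149024 35138120 (by decide)
      (.s3 2283977736 2354253974 35138120 (by decide)
       (ok_go H c11a_2726)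
       (.s1 3234647244 3261490790 13421773 (by decide)
        (ok_go H c11a_2727)
        (ok_go H c11a_2728)))
      (.s3 2283977736 2354253974 35138120 (by decide)
       (ok_go H c11a_2729)
       (.s1 3234647244 3261490790 13421773 (by decide)
        (ok_go H c11a_2730)
        (.s2 2055579964 2090718084 17569060 (by decide)
         (ok_go H c11a_2731)
         (ok_go H c11a_2732)))))
     (.s3 2283977736 2354253974 35138120 (by decide)
      (ok_go H c11a_2733)
      (.s2 2002872786 2073149024 35138120 (by decide)
       (.s1 3288334336 3315177882 13421773 (by decide)
        (.s2 1985303726 2020441846 17569060 (by decide)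
         (ok_go H c11a_2734)
         (ok_go H c11a_2735))
        (ok_go H c11a_2736))
       (.s1 3288334336 3315177882 13421773 (by decide)
        (.s2 2055579964 2090718084 17569060 (by decide)
         (.s3 2336684914 2371823034 17569060 (by decide)
          (ok_go H c11a_2737)
          (ok_go H c11a_2738))
         (ok_go H c11a_2739))
        (.s3 2336684914 2371823034 17569060 (by decide)
         (ok_go H c11a_2740)
         (ok_go H c11a_2741))))))
    (.s1 3248069017 3301756109 26843546 (by decide)
     (.s2 2143425262 2213701500 35138120 (by decide)
      (.s3 2283977736 2354253974 35138120 (by decide)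
       (ok_go H c11a_2742)
       (.s1 3234647244 3261490790 13421773 (by decide)
        (ok_go H c11a_2743)
        (ok_go H c11a_2744)))
      (.s3 2283977736 2354253974 35138120 (by decide)
       (ok_go H c11a_2745)
       (ok_go H c11a_2746)))
     (.s3 2283977736 2354253974 35138120 (by decide)
      (.s2 2143425262 2213701500 35138120 (by decide)
       (.s1 3288334336 3315177882 13421773 (by decide)
        (ok_go H c11a_2747)
        (ok_go H c11a_2748))
       (.s1 3288334336 3315177882 13421773 (by decide)
        (ok_go H c11a_2749)
        (.s3 2266408676 2301546796 17569060 (by decide)
         (ok_go H c11a_2750)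
         (ok_go H c11a_2751))))
      (.s2 2143425262 2213701500 35138120 (by decide)
       (.s1 3288334336 3315177882 13421773 (by decide)
        (.s3 2336684914 2371823034 17569060 (by decide)
         (ok_go H c11a_2752)
         (ok_go H c11a_2753))
        (.s3 2336684914 2371823034 17569060 (by decide)
         (ok_go H c11a_2754)
         (ok_go H c11a_2755)))
       (ok_go H c11a_2756)))))
   (.s2 2038010905 2178563381 70276239 (by decide)
    (.s1 3248069017 3301756109 26843546 (by decide)
     (.s2 2002872786 2073149024 35138120 (by decide)
      (.s3 2424530212 2494806450 35138120 (by decide)
       (.s1 3234647244 3261490790 13421773 (by decide)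
        (ok_go H c11a_2757)
        (.s2 1985303726 2020441846 17569060 (by decide)
         (.s3 2406961152 2442099272 17569060 (by decide)
          (ok_go H c11a_2758)
          (ok_go H c11a_2759))
         (.s3 2406961152 2442099272 17569060 (by decide)
          (ok_go H c11a_2760)
          (ok_go H c11a_2761))))
       (.s1 3234647244 3261490790 13421773 (by decide)
        (ok_go H c11a_2762)
        (.s2 1985303726 2020441846 17569060 (by decide)
         (.s3 2477237390 2512375510 17569060 (by decide)
          (ok_go H c11a_2763)
          (ok_go H c11a_2764))
         (.s3 2477237390 2512375510 17569060 (by decide)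
          (ok_go H c11a_2765)
          (ok_go H c11a_2766)))))
      (.s3 2424530212 2494806450 35138120 (by decide)
       (.s1 3234647244 3261490790 13421773 (by decide)
        (ok_go H c11a_2767)
        (.s2 2055579964 2090718084 17569060 (by decide)
         (ok_go H c11a_2768)
         (ok_go H c11a_2769)))
       (.s1 3234647244 3261490790 13421773 (by decide)
        (ok_go H c11a_2770)
        (.s2 2055579964 2090718084 17569060 (by decide)
         (ok_go H c11a_2771)
         (ok_go H c11a_2772)))))
     (.s2 2002872786 2073149024 35138120 (by decide)
      (.s3 2424530212 2494806450 35138120 (by decide)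
       (.s1 3288334336 3315177882 13421773 (by decide)
        (.s2 1985303726 2020441846 17569060 (by decide)
         (.s3 2406961152 2442099272 17569060 (by decide)
          (ok_go H c11a_2773)
          (ok_go H c11a_2774))
         (.s3 2406961152 2442099272 17569060 (by decide)
          (ok_go H c11a_2775)
          (ok_go H c11a_2776)))
        (.s2 1985303726 2020441846 17569060 (by decide)
         (ok_go H c11a_2777)
         (ok_go H c11a_2778)))
       (.s1 3288334336 3315177882 13421773 (by decide)
        (.s2 1985303726 2020441846 17569060 (by decide)
         (ok_go H c11a_2779)
         (ok_go H c11a_2780))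
        (.s2 1985303726 2020441846 17569060 (by decide)
         (ok_go H c11a_2781)
         (ok_go H c11a_2782))))
      (.s3 2424530212 2494806450 35138120 (by decide)
       (.s1 3288334336 3315177882 13421773 (by decide)
        (.s2 2055579964 2090718084 17569060 (by decide)
         (.s3 2406961152 2442099272 17569060 (by decide)
          (ok_go H c11a_2783)
          (ok_go H c11a_2784))
         (ok_go H c11a_2785))
        (.s3 2406961152 2442099272 17569060 (by decide)
         (ok_go H c11a_2786)
         (.s2 2055579964 2090718084 17569060 (by decide)
          (ok_go H c11a_2787)
          (ok_go H c11a_2788))))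
       (.s1 3288334336 3315177882 13421773 (by decide)
        (.s3 2477237390 2512375510 17569060 (by decide)
         (ok_go H c11a_2789)
         (ok_go H c11a_2790))
        (.s3 2477237390 2512375510 17569060 (by decide)
         (.s2 2055579964 2090718084 17569060 (by decide)
          (ok_go H c11a_2791)
          (ok_go H c11a_2792))
         (.s2 2055579964 2090718084 17569060 (by decide)
          (ok_go H c11a_2793)
          (ok_go H c11a_2794)))))))
    (.s1 3248069017 3301756109 26843546 (by decide)
     (.s2 2143425262 2213701500 35138120 (by decide)
      (.s3 2424530212 2494806450 35138120 (by decide)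
       (.s1 3234647244 3261490790 13421773 (by decide)
        (ok_go H c11a_2795)
        (ok_go H c11a_2796))
       (ok_go H c11a_2797))
      (ok_go H c11a_2798))
     (.s3 2424530212 2494806450 35138120 (by decide)
      (.s2 2143425262 2213701500 35138120 (by decide)
       (.s1 3288334336 3315177882 13421773 (by decide)
        (ok_go H c11a_2799)
        (.s3 2406961152 2442099272 17569060 (by decide)
         (ok_go H c11a_2800)
         (ok_go H c11a_2801)))
       (ok_go H c11a_2802))
      (.s2 2143425262 2213701500 35138120 (by decide)
       (.s2 2125856202 2160994322 17569060 (by decide)
        (.s1 3288334336 3315177882 13421773 (by decide)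
         (ok_go H c11a_2803)
         (ok_go H c11a_2804))
        (ok_go H c11a_2805))
       (ok_go H c11a_2806))))))

theorem ok11a_60 (H : Good p11a L b s) :
    Ok L b s 3382286745 53687092 2108287143 140552477 2389392093 140552477 :=
  (.s3 2319115855 2459668331 70276239 (by decide)
   (.s1 3355443199 3409130291 26843546 (by decide)
    (.s2 2038010905 2178563381 70276239 (by decide)
     (.s3 2283977736 2354253974 35138120 (by decide)
      (ok_go H c11a_2807)
      (.s2 2002872786 2073149024 35138120 (by decide)
       (.s1 3342021426 3368864972 13421773 (by decide)
        (ok_go H c11a_2808)
        (ok_go H c11a_2809))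
       (.s1 3342021426 3368864972 13421773 (by decide)
        (.s3 2336684914 2371823034 17569060 (by decide)
         (ok_go H c11a_2810)
         (ok_go H c11a_2811))
        (ok_go H c11a_2812))))
     (.s3 2283977736 2354253974 35138120 (by decide)
      (.s2 2143425262 2213701500 35138120 (by decide)
       (ok_go H c11a_2813)
       (ok_go H c11a_2814))
      (.s1 3342021426 3368864972 13421773 (by decide)
       (.s2 2143425262 2213701500 35138120 (by decide)
        (.s3 2336684914 2371823034 17569060 (by decide)
         (ok_go H c11a_2815)
         (ok_go H c11a_2816))
        (ok_go H c11a_2817))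
       (ok_go H c11a_2818))))
    (.s2 2038010905 2178563381 70276239 (by decide)
     (ok_go H c11a_2819)
     (ok_go H c11a_2820)))
   (.s1 3355443199 3409130291 26843546 (by decide)
    (.s2 2038010905 2178563381 70276239 (by decide)
     (.s1 3342021426 3368864972 13421773 (by decide)
      (.s2 2002872786 2073149024 35138120 (by decide)
       (.s3 2424530212 2494806450 35138120 (by decide)
        (.s2 1985303726 2020441846 17569060 (by decide)
         (ok_go H c11a_2821)
         (ok_go H c11a_2822))
        (.s2 1985303726 2020441846 17569060 (by decide)
         (ok_go H c11a_2823)
         (ok_go H c11a_2824)))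
       (.s3 2424530212 2494806450 35138120 (by decide)
        (.s3 2406961152 2442099272 17569060 (by decide)
         (ok_go H c11a_2825)
         (.s1 3335310540 3348732312 6710887 (by decide)
          (ok_go H c11a_2826)
          (ok_go H c11a_2827)))
        (.s3 2477237390 2512375510 17569060 (by decide)
         (.s1 3335310540 3348732312 6710887 (by decide)
          (ok_go H c11a_2828)
          (ok_go H c11a_2829))
         (ok_go H c11a_2830))))
      (.s2 2002872786 2073149024 35138120 (by decide)
       (.s3 2424530212 2494806450 35138120 (by decide)
        (ok_go H c11a_2831)
        (ok_go H c11a_2832))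
       (ok_go H c11a_2833)))
     (.s3 2424530212 2494806450 35138120 (by decide)
      (.s1 3342021426 3368864972 13421773 (by decide)
       (.s2 2143425262 2213701500 35138120 (by decide)
        (.s3 2406961152 2442099272 17569060 (by decide)
         (ok_go H c11a_2834)
         (ok_go H c11a_2835))
        (ok_go H c11a_2836))
       (ok_go H c11a_2837))
      (ok_go H c11a_2838)))
    (.s2 2038010905 2178563381 70276239 (by decide)
     (.s1 3395708518 3422552064 13421773 (by decide)
      (.s2 2002872786 2073149024 35138120 (by decide)
       (ok_go H c11a_2839)
       (ok_go H c11a_2840))
      (ok_go H c11a_2841))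
     (ok_go H c11a_2842))))

theorem ok11a_61 (H : Good p11a L b s) :
    Ok L b s 3328599654 107374183 2108287143 140552477 2670497045 140552477 :=
  (.s1 3274912563 3382286745 53687092 (by decide)
   (.s2 2038010905 2178563381 70276239 (by decide)
    (.s3 2600220807 2740773283 70276239 (by decide)
     (.s1 3248069017 3301756109 26843546 (by decide)
      (.s2 2002872786 2073149024 35138120 (by decide)
       (.s3 2565082688 2635358926 35138120 (by decide)
        (.s1 3234647244 3261490790 13421773 (by decide)
         (ok_go H c11a_2843)
         (.s2 1985303726 2020441846 17569060 (by decide)
          (.s3 2547513628 2582651748 17569060 (by decide)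
           (ok_go H c11a_2844)
           (ok_go H c11a_2845))
          (ok_go H c11a_2846)))
        (.s1 3234647244 3261490790 13421773 (by decide)
         (ok_go H c11a_2847)
         (ok_go H c11a_2848)))
       (.s3 2565082688 2635358926 35138120 (by decide)
        (.s1 3234647244 3261490790 13421773 (by decide)
         (ok_go H c11a_2849)
         (ok_go H c11a_2850))
        (ok_go H c11a_2851)))
      (.s3 2565082688 2635358926 35138120 (by decide)
       (.s2 2002872786 2073149024 35138120 (by decide)
        (.s1 3288334336 3315177882 13421773 (by decide)
         (.s2 1985303726 2020441846 17569060 (by decide)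
          (ok_go H c11a_2852)
          (ok_go H c11a_2853))
         (.s2 1985303726 2020441846 17569060 (by decide)
          (ok_go H c11a_2854)
          (ok_go H c11a_2855)))
        (.s1 3288334336 3315177882 13421773 (by decide)
         (.s1 3281623450 3295045222 6710887 (by decide)
          (ok_go H c11a_2856)
          (ok_go H c11a_2857))
         (.s3 2547513628 2582651748 17569060 (by decide)
          (.s2 2055579964 2090718084 17569060 (by decide)
           (ok_go H c11a_2858)
           (ok_go H c11a_2859))
          (ok_go H c11a_2860))))
       (.s2 2002872786 2073149024 35138120 (by decide)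
        (.s1 3288334336 3315177882 13421773 (by decide)
         (ok_go H c11a_2861)
         (.s3 2617789866 2652927986 17569060 (by decide)
          (ok_go H c11a_2862)
          (ok_go H c11a_2863)))
        (ok_go H c11a_2864))))
     (.s1 3248069017 3301756109 26843546 (by decide)
      (.s2 2002872786 2073149024 35138120 (by decide)
       (.s3 2705635164 2775911402 35138120 (by decide)
        (.s1 3234647244 3261490790 13421773 (by decide)
         (ok_go H c11a_2865)
         (ok_go H c11a_2866))
        (ok_go H c11a_2867))
       (ok_go H c11a_2868))
      (.s2 2002872786 2073149024 35138120 (by decide)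
       (.s3 2705635164 2775911402 35138120 (by decide)
        (.s1 3288334336 3315177882 13421773 (by decide)
         (ok_go H c11a_2869)
         (.s2 1985303726 2020441846 17569060 (by decide)
          (ok_go H c11a_2870)
          (ok_go H c11a_2871)))
        (ok_go H c11a_2872))
       (ok_go H c11a_2873))))
    (ok_go H c11a_2874))
   (.s1 3355443199 3409130291 26843546 (by decide)
    (.s2 2038010905 2178563381 70276239 (by decide)
     (.s3 2600220807 2740773283 70276239 (by decide)
      (.s3 2565082688 2635358926 35138120 (by decide)
       (.s1 3342021426 3368864972 13421773 (by decide)
        (.s2 2002872786 2073149024 35138120 (by decide)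
         (.s3 2547513628 2582651748 17569060 (by decide)
          (ok_go H c11a_2875)
          (ok_go H c11a_2876))
         (ok_go H c11a_2877))
        (ok_go H c11a_2878))
       (.s2 2002872786 2073149024 35138120 (by decide)
        (ok_go H c11a_2879)
        (ok_go H c11a_2880)))
      (.s2 2002872786 2073149024 35138120 (by decide)
       (ok_go H c11a_2881)
       (ok_go H c11a_2882)))
     (ok_go H c11a_2883))
    (.s3 2600220807 2740773283 70276239 (by decide)
     (ok_go H c11a_2884)
     (ok_go H c11a_2885))))

theorem ok11a_62 (H : Good p11a L b s) :
    Ok L b s 3113851290 107374183 1967734667 281104953 3092154473 281104953 :=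
  (.s2 1827182191 2108287143 140552477 (by decide)
   (.s3 2951601997 3232706949 140552477 (by decide)
    (.s1 3060164199 3167538381 53687092 (by decide)
     (.s1 3033320653 3087007745 26843546 (by decide)
      (ok_go H c11a_2886)
      (ok_go H c11a_2887))
     (.s2 1756905953 1897458429 70276239 (by decide)
      (.s3 2881325759 3021878235 70276239 (by decide)
       (.s1 3140694835 3194381927 26843546 (by decide)
        (ok_go H c11a_2888)
        (.s2 1721767834 1792044072 35138120 (by decide)
         (.s3 2846187640 2916463878 35138120 (by decide)
          (.s1 3180960154 3207803700 13421773 (by decide)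
           (ok_go H c11a_2889)
           (ok_go H c11a_2890))
          (.s1 3180960154 3207803700 13421773 (by decide)
           (ok_go H c11a_2891)
           (ok_go H c11a_2892)))
         (.s3 2846187640 2916463878 35138120 (by decide)
          (.s1 3180960154 3207803700 13421773 (by decide)
           (ok_go H c11a_2893)
           (ok_go H c11a_2894))
          (.s1 3180960154 3207803700 13421773 (by decide)
           (ok_go H c11a_2895)
           (ok_go H c11a_2896)))))
       (.s1 3140694835 3194381927 26843546 (by decide)
        (ok_go H c11a_2897)
        (.s2 1721767834 1792044072 35138120 (by decide)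
         (.s3 2986740116 3057016354 35138120 (by decide)
          (.s1 3180960154 3207803700 13421773 (by decide)
           (ok_go H c11a_2898)
           (ok_go H c11a_2899))
          (ok_go H c11a_2900))
         (.s3 2986740116 3057016354 35138120 (by decide)
          (.s1 3180960154 3207803700 13421773 (by decide)
           (ok_go H c11a_2901)
           (ok_go H c11a_2902))
          (ok_go H c11a_2903)))))
      (.s3 2881325759 3021878235 70276239 (by decide)
       (.s1 3140694835 3194381927 26843546 (by decide)
        (ok_go H c11a_2904)
        (.s2 1862320310 1932596548 35138120 (by decide)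
         (.s3 2846187640 2916463878 35138120 (by decide)
          (.s1 3180960154 3207803700 13421773 (by decide)
           (ok_go H c11a_2905)
           (ok_go H c11a_2906))
          (.s1 3180960154 3207803700 13421773 (by decide)
           (ok_go H c11a_2907)
           (ok_go H c11a_2908)))
         (.s3 2846187640 2916463878 35138120 (by decide)
          (.s1 3180960154 3207803700 13421773 (by decide)
           (ok_go H c11a_2909)
           (ok_go H c11a_2910))
          (ok_go H c11a_2911))))
       (.s1 3140694835 3194381927 26843546 (by decide)
        (ok_go H c11a_2912)
        (.s2 1862320310 1932596548 35138120 (by decide)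
         (.s3 2986740116 3057016354 35138120 (by decide)
          (.s1 3180960154 3207803700 13421773 (by decide)
           (ok_go H c11a_2913)
           (ok_go H c11a_2914))
          (ok_go H c11a_2915))
         (ok_go H c11a_2916))))))
    (.s1 3060164199 3167538381 53687092 (by decide)
     (.s2 1756905953 1897458429 70276239 (by decide)
      (ok_go H c11a_2917)
      (ok_go H c11a_2918))
     (.s2 1756905953 1897458429 70276239 (by decide)
      (.s3 3162430711 3302983187 70276239 (by decide)
       (.s1 3140694835 3194381927 26843546 (by decide)
        (ok_go H c11a_2919)
        (.s2 1721767834 1792044072 35138120 (by decide)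
         (ok_go H c11a_2920)
         (ok_go H c11a_2921)))
       (ok_go H c11a_2922))
      (ok_go H c11a_2923))))
   (ok_go H c11a_2924))

theorem ok11a_63 (H : Good p11a L b s) :
    Ok L b s 3328599654 107374183 1967734667 281104953 3092154473 281104953 :=
  (.s2 1827182191 2108287143 140552477 (by decide)
   (.s3 2951601997 3232706949 140552477 (by decide)
    (.s1 3274912563 3382286745 53687092 (by decide)
     (.s2 1756905953 1897458429 70276239 (by decide)
      (.s3 2881325759 3021878235 70276239 (by decide)
       (.s1 3248069017 3301756109 26843546 (by decide)
        (.s2 1721767834 1792044072 35138120 (by decide)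
         (.s3 2846187640 2916463878 35138120 (by decide)
          (ok_go H c11a_2925)
          (ok_go H c11a_2926))
         (.s3 2846187640 2916463878 35138120 (by decide)
          (ok_go H c11a_2927)
          (ok_go H c11a_2928)))
        (.s2 1721767834 1792044072 35138120 (by decide)
         (.s3 2846187640 2916463878 35138120 (by decide)
          (.s1 3288334336 3315177882 13421773 (by decide)
           (ok_go H c11a_2929)
           (ok_go H c11a_2930))
          (ok_go H c11a_2931))
         (.s3 2846187640 2916463878 35138120 (by decide)
          (.s1 3288334336 3315177882 13421773 (by decide)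
           (ok_go H c11a_2932)
           (ok_go H c11a_2933))
          (ok_go H c11a_2934))))
       (.s1 3248069017 3301756109 26843546 (by decide)
        (.s1 3234647244 3261490790 13421773 (by decide)
         (ok_go H c11a_2935)
         (ok_go H c11a_2936))
        (.s2 1721767834 1792044072 35138120 (by decide)
         (ok_go H c11a_2937)
         (ok_go H c11a_2938))))
      (.s3 2881325759 3021878235 70276239 (by decide)
       (.s1 3248069017 3301756109 26843546 (by decide)
        (.s2 1862320310 1932596548 35138120 (by decide)
         (.s3 2846187640 2916463878 35138120 (by decide)
          (ok_go H c11a_2939)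
          (ok_go H c11a_2940))
         (.s3 2846187640 2916463878 35138120 (by decide)
          (ok_go H c11a_2941)
          (ok_go H c11a_2942)))
        (.s2 1862320310 1932596548 35138120 (by decide)
         (.s3 2846187640 2916463878 35138120 (by decide)
          (ok_go H c11a_2943)
          (ok_go H c11a_2944))
         (.s3 2846187640 2916463878 35138120 (by decide)
          (ok_go H c11a_2945)
          (ok_go H c11a_2946))))
       (.s1 3248069017 3301756109 26843546 (by decide)
        (ok_go H c11a_2947)
        (ok_go H c11a_2948))))
     (.s2 1756905953 1897458429 70276239 (by decide)
      (.s3 2881325759 3021878235 70276239 (by decide)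
       (.s1 3355443199 3409130291 26843546 (by decide)
        (.s2 1721767834 1792044072 35138120 (by decide)
         (.s1 3342021426 3368864972 13421773 (by decide)
          (.s3 2846187640 2916463878 35138120 (by decide)
           (ok_go H c11a_2949)
           (ok_go H c11a_2950))
          (.s3 2846187640 2916463878 35138120 (by decide)
           (ok_go H c11a_2951)
           (ok_go H c11a_2952)))
         (.s3 2846187640 2916463878 35138120 (by decide)
          (.s1 3342021426 3368864972 13421773 (by decide)
           (ok_go H c11a_2953)
           (ok_go H c11a_2954))
          (.s1 3342021426 3368864972 13421773 (by decide)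
           (ok_go H c11a_2955)
           (ok_go H c11a_2956))))
        (.s2 1721767834 1792044072 35138120 (by decide)
         (ok_go H c11a_2957)
         (ok_go H c11a_2958)))
       (.s1 3355443199 3409130291 26843546 (by decide)
        (.s2 1721767834 1792044072 35138120 (by decide)
         (.s3 2986740116 3057016354 35138120 (by decide)
          (.s1 3342021426 3368864972 13421773 (by decide)
           (ok_go H c11a_2959)
           (ok_go H c11a_2960))
          (ok_go H c11a_2961))
         (.s3 2986740116 3057016354 35138120 (by decide)
          (ok_go H c11a_2962)
          (ok_go H c11a_2963)))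
        (.s2 1721767834 1792044072 35138120 (by decide)
         (ok_go H c11a_2964)
         (.s1 3395708518 3422552064 13421773 (by decide)
          (ok_go H c11a_2965)
          (ok_go H c11a_2966)))))
      (.s3 2881325759 3021878235 70276239 (by decide)
       (.s1 3355443199 3409130291 26843546 (by decide)
        (.s3 2846187640 2916463878 35138120 (by decide)
         (.s2 1862320310 1932596548 35138120 (by decide)
          (.s1 3342021426 3368864972 13421773 (by decide)
           (ok_go H c11a_2967)
           (ok_go H c11a_2968))
          (ok_go H c11a_2969))
         (.s2 1862320310 1932596548 35138120 (by decide)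
          (.s1 3342021426 3368864972 13421773 (by decide)
           (ok_go H c11a_2970)
           (ok_go H c11a_2971))
          (ok_go H c11a_2972)))
        (.s1 3395708518 3422552064 13421773 (by decide)
         (.s3 2846187640 2916463878 35138120 (by decide)
          (ok_go H c11a_2973)
          (ok_go H c11a_2974))
         (ok_go H c11a_2975)))
       (.s1 3355443199 3409130291 26843546 (by decide)
        (.s3 2986740116 3057016354 35138120 (by decide)
         (ok_go H c11a_2976)
         (ok_go H c11a_2977))
        (ok_go H c11a_2978)))))
    (.s1 3274912563 3382286745 53687092 (by decide)
     (.s3 3162430711 3302983187 70276239 (by decide)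
      (.s2 1756905953 1897458429 70276239 (by decide)
       (.s1 3248069017 3301756109 26843546 (by decide)
        (ok_go H c11a_2979)
        (ok_go H c11a_2980))
       (ok_go H c11a_2981))
      (ok_go H c11a_2982))
     (.s3 3162430711 3302983187 70276239 (by decide)
      (.s2 1756905953 1897458429 70276239 (by decide)
       (.s1 3355443199 3409130291 26843546 (by decide)
        (.s3 3127292592 3197568830 35138120 (by decide)
         (ok_go H c11a_2983)
         (ok_go H c11a_2984))
        (.s3 3127292592 3197568830 35138120 (by decide)
         (ok_go H c11a_2985)
         (ok_go H c11a_2986)))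
       (ok_go H c11a_2987))
      (ok_go H c11a_2988))))
   (ok_go H c11a_2989))

theorem ok11a_64 (H : Good p11a L b s) :
    Ok L b s 3221225472 214748365 562209905 562209905 3935469331 562209905 :=
  (.s2 281104953 843314857 281104953 (by decide)
   (.s3 3654364379 4216574283 281104953 (by decide)
    (.s1 3113851290 3328599654 107374183 (by decide)
     (.s2 140552477 421657429 140552477 (by decide)
      (.s3 3513811903 3794916855 140552477 (by decide)
       (.s1 3060164199 3167538381 53687092 (by decide)
        (.s2 70276239 210828715 70276239 (by decide)
         (.s3 3443535665 3584088141 70276239 (by decide)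
          (.s1 3033320653 3087007745 26843546 (by decide)
           (.s2 35138120 105414358 35138120 (by decide)
            (ok_go H c11a_2990)
            (ok_go H c11a_2991))
           (ok_go H c11a_2992))
          (.s1 3033320653 3087007745 26843546 (by decide)
           (ok_go H c11a_2993)
           (ok_go H c11a_2994)))
         (.s3 3443535665 3584088141 70276239 (by decide)
          (.s1 3033320653 3087007745 26843546 (by decide)
           (.s2 175690596 245966834 35138120 (by decide)
            (ok_go H c11a_2995)
            (ok_go H c11a_2996))
           (ok_go H c11a_2997))
          (.s1 3033320653 3087007745 26843546 (by decide)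
           (.s2 175690596 245966834 35138120 (by decide)
            (ok_go H c11a_2998)
            (ok_go H c11a_2999))
           (ok_go H c11a_3000))))
        (.s2 70276239 210828715 70276239 (by decide)
         (ok_go H c11a_3001)
         (ok_go H c11a_3002)))
       (.s1 3060164199 3167538381 53687092 (by decide)
        (.s2 70276239 210828715 70276239 (by decide)
         (.s3 3724640617 3865193093 70276239 (by decide)
          (.s1 3033320653 3087007745 26843546 (by decide)
           (ok_go H c11a_3003)
           (ok_go H c11a_3004))
          (ok_go H c11a_3005))
         (.s3 3724640617 3865193093 70276239 (by decide)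
          (.s1 3033320653 3087007745 26843546 (by decide)
           (ok_go H c11a_3006)
           (ok_go H c11a_3007))
          (ok_go H c11a_3008)))
        (.s2 70276239 210828715 70276239 (by decide)
         (ok_go H c11a_3009)
         (ok_go H c11a_3010))))
      (.s3 3513811903 3794916855 140552477 (by decide)
       (.s1 3060164199 3167538381 53687092 (by decide)
        (.s2 351381191 491933667 70276239 (by decide)
         (.s3 3443535665 3584088141 70276239 (by decide)
          (.s1 3033320653 3087007745 26843546 (by decide)
           (.s2 316243072 386519310 35138120 (by decide)
            (ok_go H c11a_3011)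
            (ok_go H c11a_3012))
           (ok_go H c11a_3013))
          (.s1 3033320653 3087007745 26843546 (by decide)
           (.s2 316243072 386519310 35138120 (by decide)
            (ok_go H c11a_3014)
            (ok_go H c11a_3015))
           (ok_go H c11a_3016)))
         (.s3 3443535665 3584088141 70276239 (by decide)
          (.s1 3033320653 3087007745 26843546 (by decide)
           (ok_go H c11a_3017)
           (ok_go H c11a_3018))
          (.s1 3033320653 3087007745 26843546 (by decide)
           (.s2 456795548 527071786 35138120 (by decide)
            (ok_go H c11a_3019)
            (ok_go H c11a_3020))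
           (ok_go H c11a_3021))))
        (.s2 351381191 491933667 70276239 (by decide)
         (ok_go H c11a_3022)
         (ok_go H c11a_3023)))
       (.s1 3060164199 3167538381 53687092 (by decide)
        (.s2 351381191 491933667 70276239 (by decide)
         (.s3 3724640617 3865193093 70276239 (by decide)
          (.s1 3033320653 3087007745 26843546 (by decide)
           (.s2 316243072 386519310 35138120 (by decide)
            (ok_go H c11a_3024)
            (ok_go H c11a_3025))
           (ok_go H c11a_3026))
          (ok_go H c11a_3027))
         (.s3 3724640617 3865193093 70276239 (by decide)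
          (.s1 3033320653 3087007745 26843546 (by decide)
           (ok_go H c11a_3028)
           (ok_go H c11a_3029))
          (ok_go H c11a_3030)))
        (ok_go H c11a_3031))))
     (.s2 140552477 421657429 140552477 (by decide)
      (.s3 3513811903 3794916855 140552477 (by decide)
       (.s1 3274912563 3382286745 53687092 (by decide)
        (.s2 70276239 210828715 70276239 (by decide)
         (ok_go H c11a_3032)
         (ok_go H c11a_3033))
        (ok_go H c11a_3034))
       (ok_go H c11a_3035))
      (.s3 3513811903 3794916855 140552477 (by decide)
       (.s1 3274912563 3382286745 53687092 (by decide)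
        (.s2 351381191 491933667 70276239 (by decide)
         (ok_go H c11a_3036)
         (ok_go H c11a_3037))
        (ok_go H c11a_3038))
       (ok_go H c11a_3039))))
    (.s1 3113851290 3328599654 107374183 (by decide)
     (.s2 140552477 421657429 140552477 (by decide)
      (.s3 4076021807 4357126759 140552477 (by decide)
       (.s1 3060164199 3167538381 53687092 (by decide)
        (ok_go H c11a_3040)
        (ok_go H c11a_3041))
       (ok_go H c11a_3042))
      (.s3 4076021807 4357126759 140552477 (by decide)
       (.s1 3060164199 3167538381 53687092 (by decide)
        (ok_go H c11a_3043)
        (ok_go H c11a_3044))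
       (ok_go H c11a_3045)))
     (.s2 140552477 421657429 140552477 (by decide)
      (ok_go H c11a_3046)
      (ok_go H c11a_3047))))
   (.s3 3654364379 4216574283 281104953 (by decide)
    (.s1 3113851290 3328599654 107374183 (by decide)
     (.s2 702762381 983867333 140552477 (by decide)
      (.s1 3060164199 3167538381 53687092 (by decide)
       (.s3 3513811903 3794916855 140552477 (by decide)
        (.s2 632486143 773038619 70276239 (by decide)
         (.s1 3033320653 3087007745 26843546 (by decide)
          (.s3 3443535665 3584088141 70276239 (by decide)
           (ok_go H c11a_3048)
           (ok_go H c11a_3049))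
          (ok_go H c11a_3050))
         (.s1 3033320653 3087007745 26843546 (by decide)
          (ok_go H c11a_3051)
          (ok_go H c11a_3052)))
        (.s2 632486143 773038619 70276239 (by decide)
         (.s3 3724640617 3865193093 70276239 (by decide)
          (ok_go H c11a_3053)
          (ok_go H c11a_3054))
         (ok_go H c11a_3055)))
       (.s3 3513811903 3794916855 140552477 (by decide)
        (.s2 632486143 773038619 70276239 (by decide)
         (ok_go H c11a_3056)
         (ok_go H c11a_3057))
        (ok_go H c11a_3058)))
      (.s1 3060164199 3167538381 53687092 (by decide)
       (.s3 3513811903 3794916855 140552477 (by decide)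
        (.s1 3033320653 3087007745 26843546 (by decide)
         (ok_go H c11a_3059)
         (ok_go H c11a_3060))
        (.s1 3033320653 3087007745 26843546 (by decide)
         (ok_go H c11a_3061)
         (ok_go H c11a_3062)))
       (.s3 3513811903 3794916855 140552477 (by decide)
        (.s2 913591095 1054143571 70276239 (by decide)
         (ok_go H c11a_3063)
         (.s1 3140694835 3194381927 26843546 (by decide)
          (ok_go H c11a_3064)
          (ok_go H c11a_3065)))
        (.s1 3140694835 3194381927 26843546 (by decide)
         (ok_go H c11a_3066)
         (ok_go H c11a_3067)))))
     (.s2 702762381 983867333 140552477 (by decide)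
      (.s3 3513811903 3794916855 140552477 (by decide)
       (.s1 3274912563 3382286745 53687092 (by decide)
        (.s2 632486143 773038619 70276239 (by decide)
         (ok_go H c11a_3068)
         (ok_go H c11a_3069))
        (ok_go H c11a_3070))
       (ok_go H c11a_3071))
      (.s3 3513811903 3794916855 140552477 (by decide)
       (.s1 3274912563 3382286745 53687092 (by decide)
        (.s2 913591095 1054143571 70276239 (by decide)
         (ok_go H c11a_3072)
         (ok_go H c11a_3073))
        (ok_go H c11a_3074))
       (ok_go H c11a_3075))))
    (.s1 3113851290 3328599654 107374183 (by decide)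
     (.s2 702762381 983867333 140552477 (by decide)
      (.s3 4076021807 4357126759 140552477 (by decide)
       (.s1 3060164199 3167538381 53687092 (by decide)
        (ok_go H c11a_3076)
        (ok_go H c11a_3077))
       (ok_go H c11a_3078))
      (.s3 4076021807 4357126759 140552477 (by decide)
       (.s1 3060164199 3167538381 53687092 (by decide)
        (.s2 913591095 1054143571 70276239 (by decide)
         (ok_go H c11a_3079)
         (ok_go H c11a_3080))
        (ok_go H c11a_3081))
       (ok_go H c11a_3082)))
     (.s2 702762381 983867333 140552477 (by decide)
      (ok_go H c11a_3083)
      (ok_go H c11a_3084)))))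

theorem ok11a_65 (H : Good p11a L b s) :
    Ok L b s 3221225472 214748365 1686629715 562209905 3935469331 562209905 :=
  (.s1 3113851290 3328599654 107374183 (by decide)
   (.s2 1405524763 1967734667 281104953 (by decide)
    (.s3 3654364379 4216574283 281104953 (by decide)
     (.s2 1264972287 1546077239 140552477 (by decide)
      (.s3 3513811903 3794916855 140552477 (by decide)
       (.s1 3060164199 3167538381 53687092 (by decide)
        (.s1 3033320653 3087007745 26843546 (by decide)
         (ok_go H c11a_3085)
         (ok_go H c11a_3086))
        (.s2 1194696049 1335248525 70276239 (by decide)
         (.s3 3443535665 3584088141 70276239 (by decide)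
          (.s1 3140694835 3194381927 26843546 (by decide)
           (.s1 3127273062 3154116608 13421773 (by decide)
            (ok_go H c11a_3087)
            (.s2 1159557930 1229834168 35138120 (by decide)
             (ok_go H c11a_3088)
             (ok_go H c11a_3089)))
           (ok_go H c11a_3090))
          (.s1 3140694835 3194381927 26843546 (by decide)
           (ok_go H c11a_3091)
           (ok_go H c11a_3092)))
         (.s1 3140694835 3194381927 26843546 (by decide)
          (.s3 3443535665 3584088141 70276239 (by decide)
           (.s2 1300110406 1370386644 35138120 (by decide)
            (ok_go H c11a_3093)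
            (ok_go H c11a_3094))
           (.s2 1300110406 1370386644 35138120 (by decide)
            (ok_go H c11a_3095)
            (ok_go H c11a_3096)))
          (.s3 3443535665 3584088141 70276239 (by decide)
           (ok_go H c11a_3097)
           (ok_go H c11a_3098)))))
       (.s1 3060164199 3167538381 53687092 (by decide)
        (.s1 3033320653 3087007745 26843546 (by decide)
         (ok_go H c11a_3099)
         (ok_go H c11a_3100))
        (.s2 1194696049 1335248525 70276239 (by decide)
         (ok_go H c11a_3101)
         (ok_go H c11a_3102))))
      (.s3 3513811903 3794916855 140552477 (by decide)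
       (.s1 3060164199 3167538381 53687092 (by decide)
        (.s1 3033320653 3087007745 26843546 (by decide)
         (ok_go H c11a_3103)
         (.s2 1475801001 1616353477 70276239 (by decide)
          (ok_go H c11a_3104)
          (ok_go H c11a_3105)))
        (.s1 3140694835 3194381927 26843546 (by decide)
         (.s2 1475801001 1616353477 70276239 (by decide)
          (.s3 3443535665 3584088141 70276239 (by decide)
           (.s2 1440662882 1510939120 35138120 (by decide)
            (ok_go H c11a_3106)
            (ok_go H c11a_3107))
           (ok_go H c11a_3108))
          (ok_go H c11a_3109))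
         (.s2 1475801001 1616353477 70276239 (by decide)
          (ok_go H c11a_3110)
          (ok_go H c11a_3111))))
       (.s2 1475801001 1616353477 70276239 (by decide)
        (.s1 3060164199 3167538381 53687092 (by decide)
         (ok_go H c11a_3112)
         (ok_go H c11a_3113))
        (ok_go H c11a_3114))))
     (.s2 1264972287 1546077239 140552477 (by decide)
      (.s3 4076021807 4357126759 140552477 (by decide)
       (.s1 3060164199 3167538381 53687092 (by decide)
        (ok_go H c11a_3115)
        (ok_go H c11a_3116))
       (ok_go H c11a_3117))
      (ok_go H c11a_3118)))
    (ok_go H c11a_3119))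
   (.s2 1405524763 1967734667 281104953 (by decide)
    (.s3 3654364379 4216574283 281104953 (by decide)
     (.s2 1264972287 1546077239 140552477 (by decide)
      (.s3 3513811903 3794916855 140552477 (by decide)
       (.s1 3274912563 3382286745 53687092 (by decide)
        (.s2 1194696049 1335248525 70276239 (by decide)
         (ok_go H c11a_3120)
         (ok_go H c11a_3121))
        (.s3 3443535665 3584088141 70276239 (by decide)
         (ok_go H c11a_3122)
         (ok_go H c11a_3123)))
       (ok_go H c11a_3124))
      (.s3 3513811903 3794916855 140552477 (by decide)
       (.s1 3274912563 3382286745 53687092 (by decide)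
        (.s3 3443535665 3584088141 70276239 (by decide)
         (ok_go H c11a_3125)
         (ok_go H c11a_3126))
        (.s3 3443535665 3584088141 70276239 (by decide)
         (ok_go H c11a_3127)
         (ok_go H c11a_3128)))
       (ok_go H c11a_3129)))
     (ok_go H c11a_3130))
    (ok_go H c11a_3131)))

theorem ok11a_66 (H : Good p11a L b s) :
    Ok L b s 3006477107 429496730 (-1124419808) 1124419810 5622099044 1124419810 :=
  (.s1 2791728742 3221225472 214748365 (by decide)
   (.s3 5059889139 6184308949 562209905 (by decide)
    (.s2 (-1686629713) (-562209903) 562209905 (by decide)
     (.s1 2684354560 2899102924 107374183 (by decide)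
      (.s3 4778784187 5340994091 281104953 (by decide)
       (.s2 (-1967734665) (-1405524761) 281104953 (by decide)
        (.s2 (-2108287141) (-1827182189) 140552477 (by decide)
         (ok_go H c11a_3132)
         (ok_go H c11a_3133))
        (.s2 (-1546077237) (-1264972285) 140552477 (by decide)
         (ok_go H c11a_3134)
         (ok_go H c11a_3135)))
       (.s2 (-1967734665) (-1405524761) 281104953 (by decide)
        (ok_go H c11a_3136)
        (ok_go H c11a_3137)))
      (.s2 (-1967734665) (-1405524761) 281104953 (by decide)
       (.s3 4778784187 5340994091 281104953 (by decide)
        (.s2 (-2108287141) (-1827182189) 140552477 (by decide)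
         (.s3 4638231711 4919336663 140552477 (by decide)
          (.s1 2845415833 2952790015 53687092 (by decide)
           (ok_go H c11a_3138)
           (.s2 (-2178563379) (-2038010903) 70276239 (by decide)
            (ok_go H c11a_3139)
            (.s1 2925946469 2979633561 26843546 (by decide)
             (.s3 4567955473 4708507949 70276239 (by decide)
              (.s3 4532817354 4603093592 35138120 (by decide)
               (ok_go H c11a_3140)
               (ok_go H c11a_3141))
              (.s3 4673369830 4743646068 35138120 (by decide)
               (ok_go H c11a_3142)
               (ok_go H c11a_3143)))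
             (ok_go H c11a_3144))))
          (.s1 2845415833 2952790015 53687092 (by decide)
           (ok_go H c11a_3145)
           (.s2 (-2178563379) (-2038010903) 70276239 (by decide)
            (ok_go H c11a_3146)
            (ok_go H c11a_3147))))
         (.s3 4638231711 4919336663 140552477 (by decide)
          (.s1 2845415833 2952790015 53687092 (by decide)
           (ok_go H c11a_3148)
           (.s2 (-1897458427) (-1756905951) 70276239 (by decide)
            (.s3 4567955473 4708507949 70276239 (by decide)
             (ok_go H c11a_3149)
             (ok_go H c11a_3150))
            (ok_go H c11a_3151)))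
          (.s1 2845415833 2952790015 53687092 (by decide)
           (ok_go H c11a_3152)
           (ok_go H c11a_3153))))
        (.s2 (-2108287141) (-1827182189) 140552477 (by decide)
         (ok_go H c11a_3154)
         (ok_go H c11a_3155)))
       (.s3 4778784187 5340994091 281104953 (by decide)
        (.s2 (-1546077237) (-1264972285) 140552477 (by decide)
         (.s3 4638231711 4919336663 140552477 (by decide)
          (ok_go H c11a_3156)
          (ok_go H c11a_3157))
         (.s3 4638231711 4919336663 140552477 (by decide)
          (ok_go H c11a_3158)
          (ok_go H c11a_3159)))
        (ok_go H c11a_3160))))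
     (.s1 2684354560 2899102924 107374183 (by decide)
      (.s3 4778784187 5340994091 281104953 (by decide)
       (.s2 (-843314855) (-281104951) 281104953 (by decide)
        (.s2 (-983867331) (-702762379) 140552477 (by decide)
         (ok_go H c11a_3161)
         (ok_go H c11a_3162))
        (.s2 (-421657427) (-140552475) 140552477 (by decide)
         (.s3 4638231711 4919336663 140552477 (by decide)
          (ok_go H c11a_3163)
          (ok_go H c11a_3164))
         (.s3 4638231711 4919336663 140552477 (by decide)
          (.s1 2630667469 2738041651 53687092 (by decide)
           (ok_go H c11a_3165)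
           (ok_go H c11a_3166))
          (ok_go H c11a_3167))))
       (.s2 (-843314855) (-281104951) 281104953 (by decide)
        (ok_go H c11a_3168)
        (ok_go H c11a_3169)))
      (.s3 4778784187 5340994091 281104953 (by decide)
       (.s2 (-843314855) (-281104951) 281104953 (by decide)
        (.s2 (-983867331) (-702762379) 140552477 (by decide)
         (.s3 4638231711 4919336663 140552477 (by decide)
          (ok_go H c11a_3170)
          (ok_go H c11a_3171))
         (ok_go H c11a_3172))
        (.s2 (-421657427) (-140552475) 140552477 (by decide)
         (.s3 4638231711 4919336663 140552477 (by decide)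
          (ok_go H c11a_3173)
          (ok_go H c11a_3174))
         (.s3 4638231711 4919336663 140552477 (by decide)
          (.s1 2845415833 2952790015 53687092 (by decide)
           (ok_go H c11a_3175)
           (ok_go H c11a_3176))
          (ok_go H c11a_3177))))
       (.s2 (-843314855) (-281104951) 281104953 (by decide)
        (.s2 (-983867331) (-702762379) 140552477 (by decide)
         (ok_go H c11a_3178)
         (ok_go H c11a_3179))
        (ok_go H c11a_3180)))))
    (.s2 (-1686629713) (-562209903) 562209905 (by decide)
     (.s1 2684354560 2899102924 107374183 (by decide)
      (.s3 5903203997 6465413901 281104953 (by decide)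
       (ok_go H c11a_3181)
       (ok_go H c11a_3182))
      (.s3 5903203997 6465413901 281104953 (by decide)
       (ok_go H c11a_3183)
       (ok_go H c11a_3184)))
     (.s1 2684354560 2899102924 107374183 (by decide)
      (ok_go H c11a_3185)
      (ok_go H c11a_3186))))
   (.s3 5059889139 6184308949 562209905 (by decide)
    (.s2 (-1686629713) (-562209903) 562209905 (by decide)
     (.s2 (-1967734665) (-1405524761) 281104953 (by decide)
      (.s3 4778784187 5340994091 281104953 (by decide)
       (.s1 3113851290 3328599654 107374183 (by decide)
        (.s2 (-2108287141) (-1827182189) 140552477 (by decide)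
         (ok_go H c11a_3187)
         (.s3 4638231711 4919336663 140552477 (by decide)
          (ok_go H c11a_3188)
          (ok_go H c11a_3189)))
        (ok_go H c11a_3190))
       (ok_go H c11a_3191))
      (.s3 4778784187 5340994091 281104953 (by decide)
       (.s1 3113851290 3328599654 107374183 (by decide)
        (.s2 (-1546077237) (-1264972285) 140552477 (by decide)
         (.s3 4638231711 4919336663 140552477 (by decide)
          (.s1 3060164199 3167538381 53687092 (by decide)
           (ok_go H c11a_3192)
           (ok_go H c11a_3193))
          (ok_go H c11a_3194))
         (.s3 4638231711 4919336663 140552477 (by decide)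
          (.s1 3060164199 3167538381 53687092 (by decide)
           (ok_go H c11a_3195)
           (ok_go H c11a_3196))
          (ok_go H c11a_3197)))
        (ok_go H c11a_3198))
       (ok_go H c11a_3199)))
     (.s2 (-843314855) (-281104951) 281104953 (by decide)
      (.s3 4778784187 5340994091 281104953 (by decide)
       (.s1 3113851290 3328599654 107374183 (by decide)
        (.s2 (-983867331) (-702762379) 140552477 (by decide)
         (.s3 4638231711 4919336663 140552477 (by decide)
          (.s1 3060164199 3167538381 53687092 (by decide)
           (.s2 (-1054143569) (-913591093) 70276239 (by decide)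
            (ok_go H c11a_3200)
            (ok_go H c11a_3201))
           (ok_go H c11a_3202))
          (ok_go H c11a_3203))
         (.s3 4638231711 4919336663 140552477 (by decide)
          (ok_go H c11a_3204)
          (ok_go H c11a_3205)))
        (ok_go H c11a_3206))
       (ok_go H c11a_3207))
      (.s3 4778784187 5340994091 281104953 (by decide)
       (.s1 3113851290 3328599654 107374183 (by decide)
        (.s2 (-421657427) (-140552475) 140552477 (by decide)
         (ok_go H c11a_3208)
         (ok_go H c11a_3209))
        (ok_go H c11a_3210))
       (ok_go H c11a_3211))))
    (.s2 (-1686629713) (-562209903) 562209905 (by decide)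
     (ok_go H c11a_3212)
     (ok_go H c11a_3213))))

theorem ok11a_67 (H : Good p11a L b s) :
    Ok L b s 3006477107 429496730 1124419810 1124419810 5622099044 1124419810 :=
  (.s1 2791728742 3221225472 214748365 (by decide)
   (.s3 5059889139 6184308949 562209905 (by decide)
    (.s2 562209905 1686629715 562209905 (by decide)
     (.s1 2684354560 2899102924 107374183 (by decide)
      (.s3 4778784187 5340994091 281104953 (by decide)
       (.s2 281104953 843314857 281104953 (by decide)
        (.s2 140552477 421657429 140552477 (by decide)
         (.s3 4638231711 4919336663 140552477 (by decide)
          (.s1 2630667469 2738041651 53687092 (by decide)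
           (ok_go H c11a_3214)
           (ok_go H c11a_3215))
          (ok_go H c11a_3216))
         (.s3 4638231711 4919336663 140552477 (by decide)
          (ok_go H c11a_3217)
          (ok_go H c11a_3218)))
        (.s2 702762381 983867333 140552477 (by decide)
         (.s3 4638231711 4919336663 140552477 (by decide)
          (ok_go H c11a_3219)
          (ok_go H c11a_3220))
         (ok_go H c11a_3221)))
       (ok_go H c11a_3222))
      (.s3 4778784187 5340994091 281104953 (by decide)
       (.s2 281104953 843314857 281104953 (by decide)
        (.s2 140552477 421657429 140552477 (by decide)
         (.s3 4638231711 4919336663 140552477 (by decide)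
          (.s1 2845415833 2952790015 53687092 (by decide)
           (ok_go H c11a_3223)
           (ok_go H c11a_3224))
          (ok_go H c11a_3225))
         (ok_go H c11a_3226))
        (.s2 702762381 983867333 140552477 (by decide)
         (ok_go H c11a_3227)
         (ok_go H c11a_3228)))
       (ok_go H c11a_3229)))
     (ok_go H c11a_3230))
    (ok_go H c11a_3231))
   (.s3 5059889139 6184308949 562209905 (by decide)
    (.s2 562209905 1686629715 562209905 (by decide)
     (.s2 281104953 843314857 281104953 (by decide)
      (.s3 4778784187 5340994091 281104953 (by decide)
       (.s1 3113851290 3328599654 107374183 (by decide)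
        (.s2 140552477 421657429 140552477 (by decide)
         (ok_go H c11a_3232)
         (ok_go H c11a_3233))
        (ok_go H c11a_3234))
       (ok_go H c11a_3235))
      (.s3 4778784187 5340994091 281104953 (by decide)
       (.s1 3113851290 3328599654 107374183 (by decide)
        (ok_go H c11a_3236)
        (ok_go H c11a_3237))
       (ok_go H c11a_3238)))
     (ok_go H c11a_3239))
    (ok_go H c11a_3240)))

theorem ok11a_68 (H : Good p11a L b s) :
    Ok L b s 3865470567 429496730 1 2248839619 4497679235 2248839619 :=
  (.s3 3373259426 5622099044 1124419810 (by decide)
   (.s2 (-1124419808) 1124419810 1124419810 (by decide)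
    (.s1 3650722202 4080218932 214748365 (by decide)
     (.s3 2811049521 3935469331 562209905 (by decide)
      (ok_go H c11a_3241)
      (.s2 (-1686629713) (-562209903) 562209905 (by decide)
       (ok_go H c11a_3242)
       (.s1 3543348020 3758096384 107374183 (by decide)
        (.s2 (-843314855) (-281104951) 281104953 (by decide)
         (ok_go H c11a_3243)
         (ok_go H c11a_3244))
        (ok_go H c11a_3245))))
     (ok_go H c11a_3246))
    (.s1 3650722202 4080218932 214748365 (by decide)
     (.s3 2811049521 3935469331 562209905 (by decide)
      (.s2 562209905 1686629715 562209905 (by decide)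
       (.s1 3543348020 3758096384 107374183 (by decide)
        (.s2 281104953 843314857 281104953 (by decide)
         (ok_go H c11a_3247)
         (.s3 2529944569 3092154473 281104953 (by decide)
          (ok_go H c11a_3248)
          (.s1 3489660929 3597035111 53687092 (by decide)
           (.s2 702762381 983867333 140552477 (by decide)
            (ok_go H c11a_3249)
            (ok_go H c11a_3250))
           (ok_go H c11a_3251))))
        (ok_go H c11a_3252))
       (.s1 3543348020 3758096384 107374183 (by decide)
        (.s2 1405524763 1967734667 281104953 (by decide)
         (.s3 2529944569 3092154473 281104953 (by decide)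
          (.s1 3489660929 3597035111 53687092 (by decide)
           (.s2 1264972287 1546077239 140552477 (by decide)
            (ok_go H c11a_3253)
            (ok_go H c11a_3254))
           (ok_go H c11a_3255))
          (.s1 3489660929 3597035111 53687092 (by decide)
           (.s2 1264972287 1546077239 140552477 (by decide)
            (.s3 2951601997 3232706949 140552477 (by decide)
             (ok_go H c11a_3256)
             (ok_go H c11a_3257))
            (.s3 2951601997 3232706949 140552477 (by decide)
             (.s1 3462817383 3516504475 26843546 (by decide)
              (ok_go H c11a_3258)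
              (ok_go H c11a_3259))
             (ok_go H c11a_3260)))
           (ok_go H c11a_3261)))
         (.s3 2529944569 3092154473 281104953 (by decide)
          (.s1 3489660929 3597035111 53687092 (by decide)
           (.s2 1827182191 2108287143 140552477 (by decide)
            (.s3 2389392093 2670497045 140552477 (by decide)
             (ok_go H c11a_3262)
             (.s1 3462817383 3516504475 26843546 (by decide)
              (ok_go H c11a_3263)
              (ok_go H c11a_3264)))
            (.s3 2389392093 2670497045 140552477 (by decide)
             (ok_go H c11a_3265)
             (ok_go H c11a_3266)))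
           (ok_go H c11a_3267))
          (.s1 3489660929 3597035111 53687092 (by decide)
           (.s3 2951601997 3232706949 140552477 (by decide)
            (.s2 1827182191 2108287143 140552477 (by decide)
             (.s1 3462817383 3516504475 26843546 (by decide)
              (.s2 1756905953 1897458429 70276239 (by decide)
               (ok_go H c11a_3268)
               (ok_go H c11a_3269))
              (ok_go H c11a_3270))
             (ok_go H c11a_3271))
            (ok_go H c11a_3272))
           (ok_go H c11a_3273))))
        (ok_go H c11a_3274)))
      (.s2 562209905 1686629715 562209905 (by decide)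
       (.s1 3543348020 3758096384 107374183 (by decide)
        (.s2 281104953 843314857 281104953 (by decide)
         (ok_go H c11a_3275)
         (.s3 3654364379 4216574283 281104953 (by decide)
          (.s1 3489660929 3597035111 53687092 (by decide)
           (ok_go H c11a_3276)
           (ok_go H c11a_3277))
          (ok_go H c11a_3278)))
        (ok_go H c11a_3279))
       (.s2 1405524763 1967734667 281104953 (by decide)
        (.s1 3543348020 3758096384 107374183 (by decide)
         (.s3 3654364379 4216574283 281104953 (by decide)
          (.s1 3489660929 3597035111 53687092 (by decide)
           (.s3 3513811903 3794916855 140552477 (by decide)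
            (ok_go H c11a_3280)
            (ok_go H c11a_3281))
           (ok_go H c11a_3282))
          (ok_go H c11a_3283))
         (ok_go H c11a_3284))
        (ok_go H c11a_3285))))
     (ok_go H c11a_3286)))
   (.s2 (-1124419808) 1124419810 1124419810 (by decide)
    (.s1 3650722202 4080218932 214748365 (by decide)
     (.s3 5059889139 6184308949 562209905 (by decide)
      (.s2 (-1686629713) (-562209903) 562209905 (by decide)
       (ok_go H c11a_3287)
       (ok_go H c11a_3288))
      (ok_go H c11a_3289))
     (ok_go H c11a_3290))
    (.s1 3650722202 4080218932 214748365 (by decide)
     (.s3 5059889139 6184308949 562209905 (by decide)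
      (ok_go H c11a_3291)
      (ok_go H c11a_3292))
     (ok_go H c11a_3293))))

theorem ok11a (H : Good p11a L b s) :
    Ok L b s 2576980378 1717986919 (-2248839617) 4497679237 4497679235 2248839619 :=
  (.s1 1717986919 3435973837 858993460 (by decide)
   (.s2 (-4497679235) 1 2248839619 (by decide)
    (.s1 1288490189 2147483649 429496730 (by decide)
     (ok11a_1 H)
     (ok11a_2 H))
    (.s1 1288490189 2147483649 429496730 (by decide)
     (.s3 3373259426 5622099044 1124419810 (by decide)
      (ok11a_3 H)
      (.s2 (-1124419808) 1124419810 1124419810 (by decide)
       (.s1 1073741824 1503238554 214748365 (by decide)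
        (.s3 5059889139 6184308949 562209905 (by decide)
         (ok11a_4 H)
         (ok11a_5 H))
        (ok11a_6 H))
       (ok11a_7 H)))
     (.s3 3373259426 5622099044 1124419810 (by decide)
      (.s2 (-1124419808) 1124419810 1124419810 (by decide)
       (ok11a_8 H)
       (.s1 1932735284 2362232014 214748365 (by decide)
        (ok11a_9 H)
        (.s3 2811049521 3935469331 562209905 (by decide)
         (.s2 562209905 1686629715 562209905 (by decide)
          (ok11a_10 H)
          (.s1 2254857832 2469606196 107374183 (by decide)
           (.s3 2529944569 3092154473 281104953 (by decide)
            (.s2 1405524763 1967734667 281104953 (by decide)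
             (ok11a_11 H)
             (.s2 1827182191 2108287143 140552477 (by decide)
              (ok11a_12 H)
              (ok11a_13 H)))
            (ok11a_14 H))
           (.s3 2529944569 3092154473 281104953 (by decide)
            (ok11a_15 H)
            (ok11a_16 H))))
         (ok11a_17 H))))
      (ok11a_18 H))))
   (.s2 (-4497679235) 1 2248839619 (by decide)
    (ok11a_19 H)
    (.s1 3006477107 3865470567 429496730 (by decide)
     (.s3 3373259426 5622099044 1124419810 (by decide)
      (.s2 (-1124419808) 1124419810 1124419810 (by decide)
       (.s1 2791728742 3221225472 214748365 (by decide)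
        (.s3 2811049521 3935469331 562209905 (by decide)
         (ok11a_20 H)
         (.s2 (-1686629713) (-562209903) 562209905 (by decide)
          (ok11a_21 H)
          (.s1 2684354560 2899102924 107374183 (by decide)
           (ok11a_22 H)
           (.s2 (-843314855) (-281104951) 281104953 (by decide)
            (ok11a_23 H)
            (ok11a_24 H)))))
        (.s3 2811049521 3935469331 562209905 (by decide)
         (ok11a_25 H)
         (.s2 (-1686629713) (-562209903) 562209905 (by decide)
          (ok11a_26 H)
          (.s2 (-843314855) (-281104951) 281104953 (by decide)
           (.s3 3654364379 4216574283 281104953 (by decide)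
            (ok11a_27 H)
            (.s1 3113851290 3328599654 107374183 (by decide)
             (.s2 (-983867331) (-702762379) 140552477 (by decide)
              (ok11a_28 H)
              (ok11a_29 H))
             (ok11a_30 H)))
           (.s3 3654364379 4216574283 281104953 (by decide)
            (.s1 3113851290 3328599654 107374183 (by decide)
             (.s2 (-421657427) (-140552475) 140552477 (by decide)
              (ok11a_31 H)
              (ok11a_32 H))
             (ok11a_33 H))
            (ok11a_34 H))))))
       (.s1 2791728742 3221225472 214748365 (by decide)
        (.s3 2811049521 3935469331 562209905 (by decide)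
         (ok11a_35 H)
         (.s2 562209905 1686629715 562209905 (by decide)
          (.s1 2684354560 2899102924 107374183 (by decide)
           (.s3 3654364379 4216574283 281104953 (by decide)
            (.s2 281104953 843314857 281104953 (by decide)
             (ok11a_36 H)
             (.s2 702762381 983867333 140552477 (by decide)
              (ok11a_37 H)
              (ok11a_38 H)))
            (ok11a_39 H))
           (.s3 3654364379 4216574283 281104953 (by decide)
            (.s2 281104953 843314857 281104953 (by decide)
             (.s2 140552477 421657429 140552477 (by decide)
              (ok11a_40 H)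
              (ok11a_41 H))
             (ok11a_42 H))
            (ok11a_43 H)))
          (.s1 2684354560 2899102924 107374183 (by decide)
           (.s3 3654364379 4216574283 281104953 (by decide)
            (ok11a_44 H)
            (ok11a_45 H))
           (ok11a_46 H))))
        (.s3 2811049521 3935469331 562209905 (by decide)
         (.s2 562209905 1686629715 562209905 (by decide)
          (ok11a_47 H)
          (.s2 1405524763 1967734667 281104953 (by decide)
           (.s3 2529944569 3092154473 281104953 (by decide)
            (.s1 3113851290 3328599654 107374183 (by decide)
             (ok11a_48 H)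
             (ok11a_49 H))
            (.s1 3113851290 3328599654 107374183 (by decide)
             (.s2 1264972287 1546077239 140552477 (by decide)
              (ok11a_50 H)
              (ok11a_51 H))
             (.s2 1264972287 1546077239 140552477 (by decide)
              (ok11a_52 H)
              (ok11a_53 H))))
           (.s3 2529944569 3092154473 281104953 (by decide)
            (.s1 3113851290 3328599654 107374183 (by decide)
             (ok11a_54 H)
             (.s2 1827182191 2108287143 140552477 (by decide)
              (.s3 2389392093 2670497045 140552477 (by decide)
               (ok11a_55 H)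
               (.s1 3274912563 3382286745 53687092 (by decide)
                (.s2 1756905953 1897458429 70276239 (by decide)
                 (ok11a_56 H)
                 (ok11a_57 H))
                (ok11a_58 H)))
              (.s3 2389392093 2670497045 140552477 (by decide)
               (.s1 3274912563 3382286745 53687092 (by decide)
                (ok11a_59 H)
                (ok11a_60 H))
               (ok11a_61 H))))
            (.s1 3113851290 3328599654 107374183 (by decide)
             (ok11a_62 H)
             (ok11a_63 H)))))
         (.s2 562209905 1686629715 562209905 (by decide)
          (ok11a_64 H)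
          (ok11a_65 H)))))
      (.s2 (-1124419808) 1124419810 1124419810 (by decide)
       (ok11a_66 H)
       (ok11a_67 H)))
     (ok11a_68 H))))

end Pool.Agent.MP_5cfbf6_gt.P8.K2
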