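import Pool.Agent.MP_5cfbf6_gt.P8.KP11b

set_option autoImplicit false

namespace Pool.Agent.MP_5cfbf6_gt.P8.K2

theorem c11b_28 : go p11b 60 0x3242a446485488b91486232290c45a
    1181116006 107374183 (-5200441615) 140552477 6043756473 140552477 = 1 := by decide +kernel

theorem c11b_569 : go p11b 60 0x32190b91a90c85190c85cad486428b
    2040109466 107374183 702762381 140552477 3092154473 281104953 = 1 := by decide +kernel

theorem c11b_829 : go p11b 60 0x36c8e42548642a445d8a42643212ca
    2469606196 107374183 1546077239 140552477 3794916855 140552477 = 1 := by decide +kernel

theorem c11b_494 : go p11b 60 0xd8a44ec52266485490a7242a44ca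
    1181116006 107374183 562209905 562209905 5340994091 281104953 = 1 := by decide +kernel

theorem c11b_499 : go p11b 60 0xdb2190a52176c51a90b2ac854864293
    1020054733 53687092 281104953 281104953 6465413901 281104953 = 1 := by decide +kernel

theorem c11b_613 : go p11b 60 0x32291391489a90c85c8642d1
    1825361102 107374183 843314857 281104953 4216574283 281104953 = 1 := by decide +kernel

theorem c11b_953 : go p11b 60 0x32190b90c85a90c85c8642d1
    2254857832 107374183 140552477 140552477 4638231711 140552477 = 1 := by decide +kernel

theorem c11b_1472 : go p11b 60 0x32190a90c85190c85486428b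
    3274912563 53687092 1335248525 70276239 2951601997 140552477 = 1 := by decide +kernel

theorem c11b_317 : go p11b 60 0xc86291391485a90c85c8d2
    1127428915 53687092 (-1405524761) 281104953 6043756473 140552477 = 1 := by decide +kernel

theorem c11b_732 : go p11b 60 0xc8a4321464acd4e452190a35a
    2523293287 53687092 1827182191 140552477 2389392093 140552477 = 1 := by decide +kernel

theorem c11b_461 : go p11b 60 0x32190b90c85a90c85c8d2
    1342177281 53687092 (-1405524761) 281104953 6605966377 140552477 = 1 := by decide +kernel

theorem c11b_1502 : go p11b 60 0x32446484b90c854864299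
    3382286745 53687092 1897458429 70276239 2670497045 140552477 = 1 := by decide +kernel

theorem c11b_1573 : go p11b 60 0xc90990c84b92132425a
    3382286745 53687092 1264972287 140552477 3513811903 140552477 = 1 := by decide +kernel

theorem c11b_391 : go p11b 60 0x32191290c85c8644d2
    885837005 26843546 (-702762379) 140552477 6535690139 70276239 = 1 := by decide +kernel

theorem c11b_1245 : go p11b 60 0x32446488b92232445a
    3167538381 53687092 (-421657427) 140552477 3794916855 140552477 = 1 := by decide +kernel

theorem c11b_183 : go p11b 60 0xc90b9119227242ca
    2254857832 107374183 (-3794916855) 140552477 6043756473 140552477 = 1 := by decide +kernel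

theorem c11b_1048 : go p11b 60 0xc8644e45218a429b
    2899102924 107374183 (-3092154473) 281104953 6184308949 562209905 = 1 := by decide +kernel

theorem c11b_945 : go p11b 60 0x32291190c85488b
    2040109466 107374183 421657429 140552477 5340994091 281104953 = 1 := by decide +kernel

theorem c11b_871 : go p11b 60 0xc8642a484c853
    2040109466 107374183 (-1546077237) 140552477 5903203997 281104953 = 1 := by decide +kernel

theorem c11b_1468 : go p11b 60 0x32391a90c851
    3060164199 53687092 1546077239 140552477 3232706949 140552477 = 1 := by decide +kernel

theorem c11b_747 : go p11b 60 0xdb643212d3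
    2415919105 53687092 2178563381 70276239 2670497045 140552477 = 1 := by decide +kernel

theorem c11b_599 : go p11b 60 0x36d90c2d3
    2093796557 53687092 2178563381 70276239 2670497045 140552477 = 1 := by decide +kernel

end Pool.Agent.MP_5cfbf6_gt.P8.K2
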