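import Pool.Agent.MP_5cfbf6_gt.P8.KP11b

set_option autoImplicit false

namespace Pool.Agent.MP_5cfbf6_gt.P8.K2

theorem c11b_57 : go p11b 60 0x32190b90c32285a90c85c8a190c2d3
    1610612736 107374183 (-4638231711) 140552477 5903203997 281104953 = 1 := by decide +kernel

theorem c11b_713 : go p11b 60 0x36291390c89990c85c8642d48a44cb
    2201170741 53687092 1897458429 70276239 2951601997 140552477 = 1 := by decide +kernel

theorem c11b_987 : go p11b 60 0x32190b90c84d6a432425c86446b46b
    2791728742 214748365 (-6605966377) 140552477 6465413901 281104953 = 1 := by decide +kernel

theorem c11b_834 : go p11b 60 0xdb2152190a90c8517218645212ca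
    2469606196 107374183 1264972287 140552477 4357126759 140552477 = 1 := by decide +kernel

theorem c11b_106 : go p11b 60 0x32390c85a90c85c8642d195d52ba8b
    1932735284 214748365 (-6324861425) 140552477 6465413901 281104953 = 1 := by decide +kernel

theorem c11b_601 : go p11b 60 0x32190c2e43216a43217242d1
    2040109466 107374183 1264972287 140552477 3232706949 140552477 = 1 := by decide +kernel

theorem c11b_938 : go p11b 60 0x32191391489a90c85c8a44d1
    1825361102 107374183 281104953 281104953 5340994091 281104953 = 1 := by decide +kernel

theorem c11b_1466 : go p11b 60 0x32190a90c85190c85486428b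
    3167538381 53687092 1475801001 70276239 2951601997 140552477 = 1 := by decide +kernel

theorem c11b_310 : go p11b 60 0xc8a44a45224e432152189a
    939524097 26843546 (-1264972285) 140552477 6605966377 140552477 = 1 := by decide +kernel

theorem c11b_719 : go p11b 60 0xdb642d391488c8644e432265a
    2308544923 53687092 1827182191 140552477 3232706949 140552477 = 1 := by decide +kernel

theorem c11b_405 : go p11b 60 0x32190a8e45225216a4853
    885837005 26843546 (-140552475) 140552477 6605966377 140552477 = 1 := by decide +kernel

theorem c11b_1501 : go p11b 60 0x32426431390c854864299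
    3382286745 53687092 1756905953 70276239 2670497045 140552477 = 1 := by decide +kernel

theorem c11b_1549 : go p11b 60 0xc8642e466430c86425a
    3060164199 53687092 983867333 140552477 3513811903 140552477 = 1 := by decide +kernel

theorem c11b_375 : go p11b 60 0x3242a432252292148a
    1020054733 53687092 (-281104951) 281104953 5762651521 140552477 = 1 := by decide +kernel

theorem c11b_1235 : go p11b 60 0x32446488b92232445a
    3167538381 53687092 (-702762379) 140552477 4076021807 140552477 = 1 := by decide +kernel

theorem c11b_142 : go p11b 60 0xc86426431a90c8d3
    1825361102 107374183 (-4076021807) 140552477 5903203997 281104953 = 1 := by decide +kernel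

theorem c11b_794 : go p11b 60 0xc86190c2e432185a
    2415919105 53687092 140552477 140552477 4357126759 140552477 = 1 := by decide +kernel

theorem c11b_787 : go p11b 60 0x32186430a90c853
    2415919105 53687092 983867333 140552477 3513811903 140552477 = 1 := by decide +kernel

theorem c11b_363 : go p11b 60 0xc9214648e468b
    885837005 26843546 (-790607676) 17569060 6114032711 70276239 = 1 := by decide +kernel

theorem c11b_1124 : go p11b 60 0x32190b90c85a
    2630667469 53687092 (-983867331) 140552477 4076021807 140552477 = 1 := by decide +kernel

theorem c11b_699 : go p11b 60 0xdb6c85590a2d3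
    2308544923 53687092 2178563381 70276239 2670497045 140552477 = 1 := by decide +kernel

theorem c11b_131 : go p11b 60 0xc86baaa
    1825361102 107374183 (-3935469331) 562209905 4778784187 281104953 = 1 := by decide +kernel

end Pool.Agent.MP_5cfbf6_gt.P8.K2
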