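import Pool.Agent.MP_5cfbf6_gt.P8.KP11b

set_option autoImplicit false

namespace Pool.Agent.MP_5cfbf6_gt.P8.K2

theorem c11b_63 : go p11b 60 0x32291291485191c89290c854864493
    966367642 107374183 (-2811049521) 562209905 5059889139 562209905 = 1 := by decide +kernel

theorem c11b_759 : go p11b 60 0x321913b1489991c8d48642e432168b
    2415919105 53687092 1897458429 70276239 2951601997 140552477 = 1 := by decide +kernel

theorem c11b_1305 : go p11b 60 0x36c85c90990b5643212a452190a2ca
    2684354560 107374183 1967734667 281104953 3232706949 140552477 = 1 := by decide +kernel

theorem c11b_1101 : go p11b 60 0xc8642a431190c84d4e432152235a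
    2845415833 53687092 (-1546077237) 140552477 4076021807 140552477 = 1 := by decide +kernel

theorem c11b_655 : go p11b 60 0xc8642643212e435a90c85c86b46b
    2201170741 53687092 1756905953 70276239 2389392093 140552477 = 1 := by decide +kernel

theorem c11b_563 : go p11b 60 0x32190b90c85a90c85c8642d1
    2469606196 107374183 (-140552475) 140552477 4357126759 140552477 = 1 := by decide +kernel

theorem c11b_931 : go p11b 60 0x32190a90c85390c85486429a
    2254857832 107374183 (-843314855) 281104953 6465413901 281104953 = 1 := by decide +kernel

theorem c11b_1452 : go p11b 60 0x32190a91484990c8548a424b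
    3167538381 53687092 1616353477 70276239 2670497045 140552477 = 1 := by decide +kernel

theorem c11b_303 : go p11b 60 0xc8a44e45216a43217218d2
    1020054733 53687092 (-1967734665) 281104953 6605966377 140552477 = 1 := by decide +kernel

theorem c11b_995 : go p11b 60 0xc90b90c84d6a485c86426b46b
    3221225472 214748365 (-6605966377) 140552477 6465413901 281104953 = 1 := by decide +kernel

theorem c11b_359 : go p11b 60 0x32452391a2648a472344b
    885837005 26843546 (-790607676) 17569060 5973480235 70276239 = 1 := by decide +kernel

theorem c11b_1471 : go p11b 60 0x3218a432146431486428b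
    3274912563 53687092 1194696049 70276239 2951601997 140552477 = 1 := by decide +kernel

theorem c11b_1368 : go p11b 60 0xc9099212e484c86425a
    2952790015 53687092 702762381 140552477 3794916855 140552477 = 1 := by decide +kernel

theorem c11b_366 : go p11b 60 0x32191290c8548e4692
    939524097 26843546 (-702762379) 140552477 5973480235 70276239 = 1 := by decide +kernel

theorem c11b_1140 : go p11b 60 0x32190b90c85a90c851
    2845415833 53687092 (-632486141) 70276239 3724640617 70276239 = 1 := by decide +kernel

theorem c11b_1069 : go p11b 60 0x3219099212e432235a
    3650722202 214748365 (-3935469331) 562209905 5059889139 562209905 = 1 := by decide +kernel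

theorem c11b_893 : go p11b 60 0xc90a91190c85488b
    2469606196 107374183 (-2108287141) 140552477 4778784187 281104953 = 1 := by decide +kernel

theorem c11b_840 : go p11b 60 0x32190990a90c853
    1825361102 107374183 (-1546077237) 140552477 5340994091 281104953 = 1 := by decide +kernel

theorem c11b_715 : go p11b 60 0xc8e46a485c8d1
    2308544923 53687092 1756905953 70276239 3021878235 70276239 = 1 := by decide +kernel

theorem c11b_1382 : go p11b 60 0x32391991c8ca
    2952790015 53687092 983867333 140552477 4076021807 140552477 = 1 := by decide +kernel

theorem c11b_519 : go p11b 60 0x36c85ab64299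
    1610612736 107374183 843314857 281104953 5903203997 281104953 = 1 := by decide +kernel

theorem c11b_989 : go p11b 60 0x321951aea
    2791728742 214748365 (-5903203997) 281104953 5903203997 281104953 = 1 := by decide +kernel

end Pool.Agent.MP_5cfbf6_gt.P8.K2
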