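import Pool.Agent.MP_5cfbf6_gt.P8.KP11b

set_option autoImplicit false

namespace Pool.Agent.MP_5cfbf6_gt.P8.K2

theorem c11b_71 : go p11b 60 0x3218e431a90c85390c7218d486429a
    1181116006 107374183 (-4216574283) 281104953 6465413901 281104953 = 1 := by decide +kernel

theorem c11b_1696 : go p11b 60 0x32190ab1c8d190c8548642e432168b
    2899102924 107374183 983867333 140552477 4778784187 281104953 = 1 := by decide +kernel

theorem c11b_981 : go p11b 60 0x36d90a6a484c86445c8642645222d2
    2469606196 107374183 562209905 562209905 5903203997 281104953 = 1 := by decide +kernel

theorem c11b_1723 : go p11b 60 0x32190a91c8d190d75390c52391235a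
    3489660929 53687092 1405524763 281104953 2529944569 281104953 = 1 := by decide +kernel

theorem c11b_64 : go p11b 60 0xc86391a91c8d290c854865693
    1181116006 107374183 (-2811049521) 562209905 5059889139 562209905 = 1 := by decide +kernel

theorem c11b_484 : go p11b 60 0x32191291c8d290c8d48e4693
    1664299827 53687092 (-843314855) 281104953 5903203997 281104953 = 1 := by decide +kernel

theorem c11b_902 : go p11b 60 0x32190b90c85a90c85c8642d1
    2254857832 107374183 (-421657427) 140552477 4638231711 140552477 = 1 := by decide +kernel

theorem c11b_1388 : go p11b 60 0x32391a91c8d191c8d486428b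
    2630667469 53687092 1194696049 70276239 3794916855 140552477 = 1 := by decide +kernel

theorem c11b_191 : go p11b 60 0xc86431390c52189b90c89a
    2469606196 107374183 (-3654364379) 281104953 6465413901 281104953 = 1 := by decide +kernel

theorem c11b_1558 : go p11b 60 0xc8642e43216a485c8642d1
    3113851290 107374183 702762381 140552477 4076021807 140552477 = 1 := by decide +kernel

theorem c11b_1369 : go p11b 60 0x32190990c2e450c86425a
    2845415833 53687092 983867333 140552477 3513811903 140552477 = 1 := by decide +kernel

theorem c11b_319 : go p11b 60 0xc8642e43216a431c892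
    1234803097 53687092 (-1405524761) 281104953 6043756473 140552477 = 1 := by decide +kernel

theorem c11b_1228 : go p11b 60 0xc90990c85a91c8642d1
    3060164199 53687092 (-1054143569) 70276239 4286850521 70276239 = 1 := by decide +kernel

theorem c11b_272 : go p11b 60 0x32290c7218d192188b
    912680551 53687092 (-878452974) 35138120 5481546567 140552477 = 1 := by decide +kernel

theorem c11b_1000 : go p11b 60 0x32390c85a91c8642d3
    3221225472 214748365 (-4778784187) 281104953 6184308949 562209905 = 1 := by decide +kernel

theorem c11b_984 : go p11b 60 0xc90d46baaaaeaae4354aab86a35d521aa1aea35d55d55566a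
    3006477107 429496730 (-4497679235) 2248839619 3373259426 1124419810 = 1 := by decide +kernel

theorem c11b_636 : go p11b 60 0xc86190c84b90c85a
    2201170741 53687092 983867333 140552477 3232706949 140552477 = 1 := by decide +kernel

theorem c11b_553 : go p11b 60 0x3218e431a914899
    2254857832 107374183 (-140552475) 140552477 4076021807 140552477 = 1 := by decide +kernel

theorem c11b_151 : go p11b 60 0xc8e42a485c8d3
    2040109466 107374183 (-4357126759) 140552477 6465413901 281104953 = 1 := by decide +kernel

theorem c11b_145 : go p11b 60 0x3242a47242d3
    1825361102 107374183 (-4076021807) 140552477 6465413901 281104953 = 1 := by decide +kernel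

theorem c11b_1001 : go p11b 60 0x32190b90d6ab
    2791728742 214748365 (-4216574283) 281104953 5059889139 562209905 = 1 := by decide +kernel

theorem c11b_1418 : go p11b 60 0xd
    2899102924 107374183 1546077239 140552477 4216574283 281104953 = 1 := by decide +kernel

end Pool.Agent.MP_5cfbf6_gt.P8.K2
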