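import Pool.Agent.MP_5cfbf6_gt.P8.KP11b

set_option autoImplicit false

namespace Pool.Agent.MP_5cfbf6_gt.P8.K2

theorem c11b_72 : go p11b 60 0x3218e431a90c85390c7218d486429a
    1181116006 107374183 (-3654364379) 281104953 6465413901 281104953 = 1 := by decide +kernel

theorem c11b_1741 : go p11b 60 0x3646a43242ca9148644cc8a4721453
    3489660929 53687092 1405524763 281104953 3654364379 281104953 = 1 := by decide +kernel

theorem c11b_1194 : go p11b 60 0x3218a452290c4cc8642d1921aab353
    3113851290 107374183 (-1827182189) 140552477 4216574283 281104953 = 1 := by decide +kernel

theorem c11b_38 : go p11b 60 0xc86426484b91488c86445a90d753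
    1395864372 107374183 (-6324861425) 140552477 6465413901 281104953 = 1 := by decide +kernel

theorem c11b_1068 : go p11b 60 0xc8a452246432ba9c95390cad56ab4a435d553
    4241280205 53687092 (-5622099044) 1124419810 5622099044 1124419810 = 1 := by decide +kernel

theorem c11b_619 : go p11b 60 0x32190a90c85191c8d486428b
    2040109466 107374183 421657429 140552477 4216574283 281104953 = 1 := by decide +kernel

theorem c11b_968 : go p11b 60 0x32190b90c85a90c85c8642d1
    2469606196 107374183 421657429 140552477 4919336663 140552477 = 1 := by decide +kernel

theorem c11b_1489 : go p11b 60 0x32190a91484990c8548a424b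
    3167538381 53687092 1756905953 70276239 2670497045 140552477 = 1 := by decide +kernel

theorem c11b_338 : go p11b 60 0xc8a452266472191a9214ca
    885837005 26843546 (-737900498) 35138120 5692375283 70276239 = 1 := by decide +kernel

theorem c11b_1119 : go p11b 60 0x32186430b90c35a90c721ad1
    2684354560 107374183 (-421657427) 140552477 3513811903 140552477 = 1 := by decide +kernel

theorem c11b_549 : go p11b 60 0x3218e46a432146484c853
    2254857832 107374183 (-140552475) 140552477 3654364379 281104953 = 1 := by decide +kernel

theorem c11b_1590 : go p11b 60 0x32391a91191c8642d488b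
    2845415833 53687092 (-2178563379) 70276239 4638231711 140552477 = 1 := by decide +kernel

theorem c11b_1646 : go p11b 60 0xc8643212e485486445a
    2684354560 107374183 (-281104951) 281104953 5903203997 281104953 = 1 := by decide +kernel

theorem c11b_434 : go p11b 60 0x32290a90c4a4314893
    1449551463 53687092 (-1405524761) 281104953 5340994091 281104953 = 1 := by decide +kernel

theorem c11b_1314 : go p11b 60 0x32190a90c859914859
    2899102924 107374183 1827182191 140552477 2951601997 140552477 = 1 := by decide +kernel

theorem c11b_313 : go p11b 60 0xc8642a431391489a
    1020054733 53687092 (-1546077237) 140552477 6605966377 140552477 = 1 := by decide +kernel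

theorem c11b_1237 : go p11b 60 0xc86426485486428b
    3060164199 53687092 (-632486141) 70276239 4357126759 140552477 = 1 := by decide +kernel

theorem c11b_1104 : go p11b 60 0x32290990c85488b
    2845415833 53687092 (-1475800999) 70276239 4357126759 140552477 = 1 := by decide +kernel

theorem c11b_1169 : go p11b 60 0xc8e485a91c8d1
    2952790015 53687092 (-491933665) 70276239 3865193093 70276239 = 1 := by decide +kernel

theorem c11b_1614 : go p11b 60 0x32190b90c85a
    2845415833 53687092 (-1264972285) 140552477 4638231711 140552477 = 1 := by decide +kernel

theorem c11b_1213 : go p11b 60 0x321909aea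
    3060164199 53687092 (-913591093) 70276239 3724640617 70276239 = 1 := by decide +kernel

theorem c11b_102 : go p11b 60 0xd
    1932735284 214748365 (-6465413901) 281104953 5903203997 281104953 = 1 := by decide +kernel

theorem c11b_986 : go p11b 60 0xd
    2791728742 214748365 (-6465413901) 281104953 5903203997 281104953 = 1 := by decide +kernel

end Pool.Agent.MP_5cfbf6_gt.P8.K2
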