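import Pool.Agent.MP_5cfbf6_gt.P8.KP11b

set_option autoImplicit false

namespace Pool.Agent.MP_5cfbf6_gt.P8.K2

theorem c11b_79 : go p11b 60 0x3218e431a90c85390c7218d486429a
    1181116006 107374183 (-3092154473) 281104953 6465413901 281104953 = 1 := by decide +kernel

theorem c11b_33 : go p11b 60 0xc86390c32285a90c3217242642d3
    1181116006 107374183 (-4919336663) 140552477 6465413901 281104953 = 1 := by decide +kernel

theorem c11b_147 : go p11b 60 0x32426484b9216a484c9097218d3
    2040109466 107374183 (-4357126759) 140552477 5903203997 281104953 = 1 := by decide +kernel

theorem c11b_462 : go p11b 60 0xc86391a91c8d291c8d48e4493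
    1449551463 53687092 (-1405524761) 281104953 6465413901 281104953 = 1 := by decide +kernel

theorem c11b_112 : go p11b 60 0x32426484b91a92132425c8d3
    1825361102 107374183 (-4638231711) 140552477 5903203997 281104953 = 1 := by decide +kernel

theorem c11b_620 : go p11b 60 0x32190a90c85191c8d486428b
    2040109466 107374183 702762381 140552477 4216574283 281104953 = 1 := by decide +kernel

theorem c11b_971 : go p11b 60 0x32190b90c85a90c85c8642d1
    2469606196 107374183 702762381 140552477 4919336663 140552477 = 1 := by decide +kernel

theorem c11b_1499 : go p11b 60 0x32190a90c85190c85486428b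
    3274912563 53687092 1756905953 70276239 2670497045 140552477 = 1 := by decide +kernel

theorem c11b_346 : go p11b 60 0xc9119212e43216a431c8d2
    885837005 26843546 (-1054143569) 70276239 5973480235 70276239 = 1 := by decide +kernel

theorem c11b_1439 : go p11b 60 0x32191990d6a484c909721ad1
    3328599654 107374183 702762381 140552477 2951601997 140552477 = 1 := by decide +kernel

theorem c11b_1036 : go p11b 60 0x3218a431490c45c8642d1
    2899102924 107374183 (-2670497045) 140552477 5200441615 140552477 = 1 := by decide +kernel

theorem c11b_18 : go p11b 60 0x32191a91391c8d486569a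
    966367642 107374183 (-4778784187) 281104953 5903203997 281104953 = 1 := by decide +kernel

theorem c11b_406 : go p11b 60 0xc90a8e43215216a4853
    939524097 26843546 (-140552475) 140552477 6605966377 140552477 = 1 := by decide +kernel

theorem c11b_1022 : go p11b 60 0xc86292188c909aea721ad1
    2899102924 107374183 (-2670497045) 140552477 4638231711 140552477 = 1 := by decide +kernel

theorem c11b_894 : go p11b 60 0x3218a485190c85488b
    2469606196 107374183 (-1827182189) 140552477 4778784187 281104953 = 1 := by decide +kernel

theorem c11b_1708 : go p11b 60 0x32190a90c84c864253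
    3328599654 107374183 843314857 281104953 4778784187 281104953 = 1 := by decide +kernel

theorem c11b_597 : go p11b 60 0x36c85391484c8a425a
    1986422375 53687092 2108287143 140552477 2670497045 140552477 = 1 := by decide +kernel

theorem c11b_1577 : go p11b 60 0xd90c85c8643212ca
    3328599654 107374183 1546077239 140552477 3794916855 140552477 = 1 := by decide +kernel

theorem c11b_951 : go p11b 60 0xdb2425c8643212d2
    2040109466 107374183 562209905 562209905 6465413901 281104953 = 1 := by decide +kernel

theorem c11b_311 : go p11b 60 0x32291391485a
    1020054733 53687092 (-1546077237) 140552477 6324861425 140552477 = 1 := by decide +kernel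

theorem c11b_213 : go p11b 60 0xc86aaeaaab90d754aaa35566a
    1503238554 214748365 (-1124419808) 1124419810 2811049521 562209905 = 1 := by decide +kernel

theorem c11b_947 : go p11b 60 0xd
    1932735284 214748365 1686629715 562209905 5059889139 562209905 = 1 := by decide +kernel

end Pool.Agent.MP_5cfbf6_gt.P8.K2
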