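import Pool.Agent.MP_5cfbf6_gt.P8.KP11b

set_option autoImplicit false

namespace Pool.Agent.MP_5cfbf6_gt.P8.K2

theorem c11b_114 : go p11b 60 0x32426391a92425c8d390c8548e469a
    1825361102 107374183 (-4778784187) 281104953 6465413901 281104953 = 1 := by decide +kernel

theorem c11b_60 : go p11b 60 0xc90c2e430c9096a432172190c2d3
    1610612736 107374183 (-4638231711) 140552477 6465413901 281104953 = 1 := by decide +kernel

theorem c11b_168 : go p11b 60 0x3218a431390c85991c8619214ca
    2469606196 107374183 (-3513811903) 140552477 5481546567 140552477 = 1 := by decide +kernel

theorem c11b_463 : go p11b 60 0xc90990a90c85390c85486429a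
    1610612736 107374183 (-1967734665) 281104953 5903203997 281104953 = 1 := by decide +kernel

theorem c11b_113 : go p11b 60 0x32190a91c85390c8d48e469a
    1825361102 107374183 (-5340994091) 281104953 6465413901 281104953 = 1 := by decide +kernel

theorem c11b_621 : go p11b 60 0x32190a90c85191485c86428b
    2040109466 107374183 983867333 140552477 4216574283 281104953 = 1 := by decide +kernel

theorem c11b_975 : go p11b 60 0x32190a90c85191c8d48e468b
    2469606196 107374183 140552477 140552477 5340994091 281104953 = 1 := by decide +kernel

theorem c11b_1500 : go p11b 60 0x32190a90c85190c85486428b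
    3274912563 53687092 1897458429 70276239 2670497045 140552477 = 1 := by decide +kernel

theorem c11b_355 : go p11b 60 0xc91486429990c8a452264b
    885837005 26843546 (-860883914) 17569060 6114032711 70276239 = 1 := by decide +kernel

theorem c11b_1578 : go p11b 60 0x36c8642548644e452190a65a
    3328599654 107374183 1405524763 281104953 4216574283 281104953 = 1 := by decide +kernel

theorem c11b_1052 : go p11b 60 0x32391a92232445c8644d1
    3221225472 214748365 (-2529944569) 281104953 4778784187 281104953 = 1 := by decide +kernel

theorem c11b_40 : go p11b 60 0x32190b90c85a90c721ad3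
    1395864372 107374183 (-6043756473) 140552477 6465413901 281104953 = 1 := by decide +kernel

theorem c11b_417 : go p11b 60 0xc90a90c8d2914864493
    1234803097 53687092 (-281104951) 281104953 5903203997 281104953 = 1 := by decide +kernel

theorem c11b_1212 : go p11b 60 0x32446432166431484d6ab
    3060164199 53687092 (-1054143569) 70276239 3794916855 140552477 = 1 := by decide +kernel

theorem c11b_676 : go p11b 60 0x32190990c84b90c85a
    2335388469 26843546 1897458429 70276239 2740773283 70276239 = 1 := by decide +kernel

theorem c11b_1491 : go p11b 60 0x32190b90c85a90c851
    3060164199 53687092 2108287143 140552477 2389392093 140552477 = 1 := by decide +kernel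

theorem c11b_1619 : go p11b 60 0xc86391a9217242d1
    2684354560 107374183 (-983867331) 140552477 4638231711 140552477 = 1 := by decide +kernel

theorem c11b_1612 : go p11b 60 0x32290990c85488b
    2952790015 53687092 (-1475800999) 70276239 4638231711 140552477 = 1 := by decide +kernel

theorem c11b_640 : go p11b 60 0x32395a90c85cad1
    2469606196 107374183 702762381 140552477 2951601997 140552477 = 1 := by decide +kernel

theorem c11b_723 : go p11b 60 0xc9099212e435a
    2523293287 53687092 1264972287 140552477 2670497045 140552477 = 1 := by decide +kernel

theorem c11b_262 : go p11b 60 0xc86390a912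
    912680551 53687092 (-983867331) 140552477 4919336663 140552477 = 1 := by decide +kernel

end Pool.Agent.MP_5cfbf6_gt.P8.K2
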