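import Pool.Agent.MP_5cfbf6_gt.P8.KP11b

set_option autoImplicit false

namespace Pool.Agent.MP_5cfbf6_gt.P8.K2

theorem c11b_141 : go p11b 60 0x32190b90c32185a90c85c86190c2d3
    1825361102 107374183 (-4357126759) 140552477 5903203997 281104953 = 1 := by decide +kernel

theorem c11b_140 : go p11b 60 0xc8642e432429a9215217218a44d2
    2040109466 107374183 (-2811049521) 562209905 5340994091 281104953 = 1 := by decide +kernel

theorem c11b_201 : go p11b 60 0x3228a451391452289990c52188a
    966367642 107374183 (-1686629713) 562209905 4216574283 281104953 = 1 := by decide +kernel

theorem c11b_507 : go p11b 60 0xc8a44e452266485489c8a44ca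
    1395864372 107374183 562209905 562209905 4778784187 281104953 = 1 := by decide +kernel

theorem c11b_128 : go p11b 60 0x32191190c88b91488c8a445a
    2362232014 214748365 (-5340994091) 281104953 6465413901 281104953 = 1 := by decide +kernel

theorem c11b_633 : go p11b 60 0x32190b90c85a90c85c8642d1
    2254857832 107374183 702762381 140552477 3232706949 140552477 = 1 := by decide +kernel

theorem c11b_976 : go p11b 60 0x32190a90c85191c8d48e468b
    2469606196 107374183 421657429 140552477 5340994091 281104953 = 1 := by decide +kernel

theorem c11b_1503 : go p11b 60 0x32190b90c85990c85c86428a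
    3274912563 53687092 2108287143 140552477 2319115855 70276239 = 1 := by decide +kernel

theorem c11b_378 : go p11b 60 0xc9119222a48642cc921653
    885837005 26843546 (-948729212) 35138120 6254585187 70276239 = 1 := by decide +kernel

theorem c11b_44 : go p11b 60 0x32190b90c84c86425a90d753
    1610612736 107374183 (-6324861425) 140552477 6465413901 281104953 = 1 := by decide +kernel

theorem c11b_1071 : go p11b 60 0x32426484b90c88c86445a
    3650722202 214748365 (-3935469331) 562209905 6184308949 562209905 = 1 := by decide +kernel

theorem c11b_166 : go p11b 60 0x32426484b91a90c85cad3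
    2469606196 107374183 (-3794916855) 140552477 5340994091 281104953 = 1 := by decide +kernel

theorem c11b_427 : go p11b 60 0xc8a390b90c85485c85a
    1127428915 53687092 (-140552475) 140552477 6605966377 140552477 = 1 := by decide +kernel

theorem c11b_1267 : go p11b 60 0x32390990d6a452190b26b
    2684354560 107374183 140552477 140552477 3092154473 281104953 = 1 := by decide +kernel

theorem c11b_679 : go p11b 60 0x32186430b90c32185a
    2174327195 26843546 2038010905 70276239 2459668331 70276239 = 1 := by decide +kernel

theorem c11b_1505 : go p11b 60 0x32190c88991486428a
    3382286745 53687092 2108287143 140552477 2319115855 70276239 = 1 := by decide +kernel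

theorem c11b_1620 : go p11b 60 0xc8642a43222a4851
    2684354560 107374183 (-983867331) 140552477 4919336663 140552477 = 1 := by decide +kernel

theorem c11b_1624 : go p11b 60 0x32391a9217242d1
    2684354560 107374183 (-140552475) 140552477 4919336663 140552477 = 1 := by decide +kernel

theorem c11b_1215 : go p11b 60 0x322914a9990c55a
    3167538381 53687092 (-983867331) 140552477 3794916855 140552477 = 1 := by decide +kernel

theorem c11b_1284 : go p11b 60 0xc86391990c35a
    2845415833 53687092 702762381 140552477 2951601997 140552477 = 1 := by decide +kernel

theorem c11b_294 : go p11b 60 0xc8a44e431a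
    912680551 53687092 (-1546077237) 140552477 6043756473 140552477 = 1 := by decide +kernel

end Pool.Agent.MP_5cfbf6_gt.P8.K2
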