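import Pool.Agent.MP_5cfbf6_gt.P8.KP11b

set_option autoImplicit false

namespace Pool.Agent.MP_5cfbf6_gt.P8.K2

theorem c11b_148 : go p11b 60 0x32190b90c32185a91c84c8642e4653
    2040109466 107374183 (-4076021807) 140552477 5903203997 281104953 = 1 := by decide +kernel

theorem c11b_181 : go p11b 60 0xc9099212e485a92132425c8642d3
    2254857832 107374183 (-4076021807) 140552477 5903203997 281104953 = 1 := by decide +kernel

theorem c11b_241 : go p11b 60 0x3218a431391489a90c85c8642d1
    1610612736 107374183 1967734667 281104953 2529944569 281104953 = 1 := by decide +kernel

theorem c11b_526 : go p11b 60 0xc8a431190c85390c84c86425a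
    2040109466 107374183 (-1405524761) 281104953 4216574283 281104953 = 1 := by decide +kernel

theorem c11b_138 : go p11b 60 0x32190b90c85a90c85c8a42d2
    1825361102 107374183 (-2811049521) 562209905 5340994091 281104953 = 1 := by decide +kernel

theorem c11b_653 : go p11b 60 0x32190b90c85a90c85c8642d1
    2308544923 53687092 1616353477 70276239 2600220807 70276239 = 1 := by decide +kernel

theorem c11b_992 : go p11b 60 0x32190b90c85a90c85c8642d3
    2791728742 214748365 (-4778784187) 281104953 6184308949 562209905 = 1 := by decide +kernel

theorem c11b_1504 : go p11b 60 0x32190b90c85990c85c86428a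
    3274912563 53687092 2108287143 140552477 2459668331 70276239 = 1 := by decide +kernel

theorem c11b_386 : go p11b 60 0xc86485a90c89c8a43214d2
    885837005 26843546 (-702762379) 140552477 6395137663 70276239 = 1 := by decide +kernel

theorem c11b_108 : go p11b 60 0x32391a91c8d191cad48e568b
    1932735284 214748365 (-6043756473) 140552477 6465413901 281104953 = 1 := by decide +kernel

theorem c11b_1074 : go p11b 60 0x32291190c85991c8642d1
    4080218932 214748365 (-3935469331) 562209905 6184308949 562209905 = 1 := by decide +kernel

theorem c11b_623 : go p11b 60 0x3642a43214e431486429a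
    1879048193 53687092 1405524763 281104953 3654364379 281104953 = 1 := by decide +kernel

theorem c11b_433 : go p11b 60 0xc8a42a431290c854893
    1342177281 53687092 (-1405524761) 281104953 5340994091 281104953 = 1 := by decide +kernel

theorem c11b_1722 : go p11b 60 0x32190c85192135392235a
    3758096384 107374183 562209905 562209905 2811049521 562209905 = 1 := by decide +kernel

theorem c11b_711 : go p11b 60 0x32291190c85486428b
    2308544923 53687092 1616353477 70276239 3232706949 140552477 = 1 := by decide +kernel

theorem c11b_1518 : go p11b 60 0x3242e488b90c52425a
    3409130291 26843546 1827182191 140552477 2951601997 140552477 = 1 := by decide +kernel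

theorem c11b_1716 : go p11b 60 0xc9099222e452189a
    3758096384 107374183 (-562209903) 562209905 3935469331 562209905 = 1 := by decide +kernel

theorem c11b_1629 : go p11b 60 0x3242e485a91c8d1
    2899102924 107374183 (-983867331) 140552477 4919336663 140552477 = 1 := by decide +kernel

theorem c11b_1724 : go p11b 60 0x32446435390c55a
    3597035111 53687092 1405524763 281104953 2529944569 281104953 = 1 := by decide +kernel

theorem c11b_1393 : go p11b 60 0xd90c84a91488b
    2630667469 53687092 1616353477 70276239 3513811903 140552477 = 1 := by decide +kernel

theorem c11b_298 : go p11b 60 0xc8a42e431a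
    1020054733 53687092 (-1546077237) 140552477 6043756473 140552477 = 1 := by decide +kernel

end Pool.Agent.MP_5cfbf6_gt.P8.K2
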