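import Pool.Agent.MP_5cfbf6_gt.P8.KP11b

set_option autoImplicit false

namespace Pool.Agent.MP_5cfbf6_gt.P8.K2

theorem c11b_179 : go p11b 60 0x3229119215222e43218548644a445a
    2469606196 107374183 (-2529944569) 281104953 5340994091 281104953 = 1 := by decide +kernel

theorem c11b_195 : go p11b 60 0xc86191c84a9217213219214e4653
    2469606196 107374183 (-3232706949) 140552477 5903203997 281104953 = 1 := by decide +kernel

theorem c11b_296 : go p11b 60 0x32291c85190c88a90c863324253
    912680551 53687092 (-1194696047) 70276239 6043756473 140552477 = 1 := by decide +kernel

theorem c11b_529 : go p11b 60 0xc86291191488b91488c86429a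
    1825361102 107374183 (-843314855) 281104953 4216574283 281104953 = 1 := by decide +kernel

theorem c11b_144 : go p11b 60 0x32390c32425a90c85c8642d3
    1825361102 107374183 (-4357126759) 140552477 6465413901 281104953 = 1 := by decide +kernel

theorem c11b_654 : go p11b 60 0x32190b90c85a90c85c8642d1
    2308544923 53687092 1616353477 70276239 2740773283 70276239 = 1 := by decide +kernel

theorem c11b_1029 : go p11b 60 0x32190a91190c85c91952428b
    2845415833 53687092 (-2319115855) 70276239 4919336663 140552477 = 1 := by decide +kernel

theorem c11b_1515 : go p11b 60 0x32190a90c85190c85486428b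
    3274912563 53687092 1756905953 70276239 2951601997 140552477 = 1 := by decide +kernel

theorem c11b_459 : go p11b 60 0xc8a44a43214a4521521893
    1449551463 53687092 (-1967734665) 281104953 6465413901 281104953 = 1 := by decide +kernel

theorem c11b_115 : go p11b 60 0x32291391490a6a452a722ad3
    2040109466 107374183 (-5340994091) 281104953 6184308949 562209905 = 1 := by decide +kernel

theorem c11b_1098 : go p11b 60 0x3218a446431488b91c8d1
    2952790015 53687092 (-1756905951) 70276239 4286850521 70276239 = 1 := by decide +kernel

theorem c11b_1024 : go p11b 60 0x3238a471390c8d4865699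
    2845415833 53687092 (-2459668331) 70276239 4638231711 140552477 = 1 := by decide +kernel

theorem c11b_438 : go p11b 60 0xc8642a43214e431489a
    1556925645 53687092 (-1405524761) 281104953 5340994091 281104953 = 1 := by decide +kernel

theorem c11b_632 : go p11b 60 0x32190b90d6a4321721ad1
    2254857832 107374183 702762381 140552477 2951601997 140552477 = 1 := by decide +kernel

theorem c11b_726 : go p11b 60 0x32391a90c85c8642d1
    2415919105 53687092 1616353477 70276239 2600220807 70276239 = 1 := by decide +kernel

theorem c11b_1529 : go p11b 60 0x32426484b92132445a
    3167538381 53687092 140552477 140552477 3794916855 140552477 = 1 := by decide +kernel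

theorem c11b_1727 : go p11b 60 0xc9099222e452189a
    3597035111 53687092 1405524763 281104953 3092154473 281104953 = 1 := by decide +kernel

theorem c11b_1640 : go p11b 60 0x3229212e432185a
    2684354560 107374183 (-1405524761) 281104953 5903203997 281104953 = 1 := by decide +kernel

theorem c11b_1732 : go p11b 60 0x36484ab21524453
    3597035111 53687092 1967734667 281104953 3092154473 281104953 = 1 := by decide +kernel

theorem c11b_1395 : go p11b 60 0xd90c84a91488b
    2738041651 53687092 1616353477 70276239 3513811903 140552477 = 1 := by decide +kernel

theorem c11b_305 : go p11b 60 0xc8a42a4513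
    885837005 26843546 (-1335248523) 70276239 6324861425 140552477 = 1 := by decide +kernel

end Pool.Agent.MP_5cfbf6_gt.P8.K2
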