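import Pool.Agent.MP_5cfbf6_gt.P8.KP11b

set_option autoImplicit false

namespace Pool.Agent.MP_5cfbf6_gt.P8.K2

theorem c11b_186 : go p11b 60 0x32290c32185390c32152190992129a
    2254857832 107374183 (-3654364379) 281104953 6465413901 281104953 = 1 := by decide +kernel

theorem c11b_227 : go p11b 60 0xc8642e431991c88a91488c8a4253
    966367642 107374183 1686629715 562209905 2811049521 562209905 = 1 := by decide +kernel

theorem c11b_312 : go p11b 60 0x3242642a484c85390c85486429a
    1020054733 53687092 (-1264972285) 140552477 6324861425 140552477 = 1 := by decide +kernel

theorem c11b_551 : go p11b 60 0xc86391991c8ca90c8548642cb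
    2254857832 107374183 (-702762379) 140552477 4216574283 281104953 = 1 := by decide +kernel

theorem c11b_158 : go p11b 60 0x32291391485a90c85c8642d2
    2040109466 107374183 (-2811049521) 562209905 6465413901 281104953 = 1 := by decide +kernel

theorem c11b_658 : go p11b 60 0x32291191488b91484c8a425a
    2228014287 26843546 1897458429 70276239 2459668331 70276239 = 1 := by decide +kernel

theorem c11b_1033 : go p11b 60 0x3219214e43229096a47242d1
    2684354560 107374183 (-2670497045) 140552477 5481546567 140552477 = 1 := by decide +kernel

theorem c11b_1516 : go p11b 60 0x32190a90c85190c85c86428b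
    3274912563 53687092 1897458429 70276239 2951601997 140552477 = 1 := by decide +kernel

theorem c11b_489 : go p11b 60 0xc8646a47234a4854864293
    1556925645 53687092 (-281104951) 281104953 6465413901 281104953 = 1 := by decide +kernel

theorem c11b_229 : go p11b 60 0x362913b1485991489c8642ca
    1181116006 107374183 1686629715 562209905 3092154473 281104953 = 1 := by decide +kernel

theorem c11b_1099 : go p11b 60 0x3219199129148d191c8d1
    2952790015 53687092 (-1756905951) 70276239 4427402997 70276239 = 1 := by decide +kernel

theorem c11b_1270 : go p11b 60 0x3242a4321664321521a99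
    2684354560 107374183 702762381 140552477 2951601997 140552477 = 1 := by decide +kernel

theorem c11b_439 : go p11b 60 0xc8642a43214e431489a
    1664299827 53687092 (-1405524761) 281104953 5340994091 281104953 = 1 := by decide +kernel

theorem c11b_739 : go p11b 60 0x32190b90d6a4321721ad1
    2415919105 53687092 2038010905 70276239 2319115855 70276239 = 1 := by decide +kernel

theorem c11b_734 : go p11b 60 0x32391a90c85c8642d1
    2415919105 53687092 1756905953 70276239 2740773283 70276239 = 1 := by decide +kernel

theorem c11b_1531 : go p11b 60 0x32291190c85486428b
    3060164199 53687092 491933667 70276239 3513811903 140552477 = 1 := by decide +kernel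

theorem c11b_1736 : go p11b 60 0xc8644e4314864299
    3543348020 107374183 281104953 281104953 4216574283 281104953 = 1 := by decide +kernel

theorem c11b_1661 : go p11b 60 0x3219212e432425a
    3328599654 107374183 (-1405524761) 281104953 4778784187 281104953 = 1 := by decide +kernel

theorem c11b_13 : go p11b 60 0xc90990b92135a
    1181116006 107374183 (-6043756473) 140552477 6324861425 140552477 = 1 := by decide +kernel

theorem c11b_47 : go p11b 60 0xc8642e452235a
    1395864372 107374183 (-4919336663) 140552477 5762651521 140552477 = 1 := by decide +kernel

theorem c11b_111 : go p11b 60 0x32391a91cad3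
    1825361102 107374183 (-4919336663) 140552477 5903203997 281104953 = 1 := by decide +kernel

end Pool.Agent.MP_5cfbf6_gt.P8.K2
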