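import Pool.Agent.MP_5cfbf6_gt.P8.KP11b

set_option autoImplicit false

namespace Pool.Agent.MP_5cfbf6_gt.P8.K2

theorem c11b_198 : go p11b 60 0x32190b9216a432429c90a91490a2d2
    2469606196 107374183 (-2811049521) 562209905 6465413901 281104953 = 1 := by decide +kernel

theorem c11b_274 : go p11b 60 0xc8642e484c85a9213217242642d2
    885837005 26843546 (-773038617) 70276239 5551822805 70276239 = 1 := by decide +kernel

theorem c11b_328 : go p11b 60 0x3242642e431a91c85291c854893
    885837005 26843546 (-1054143569) 70276239 5762651521 140552477 = 1 := by decide +kernel

theorem c11b_612 : go p11b 60 0xc8a42645212e485488c8a445a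
    1825361102 107374183 281104953 281104953 4216574283 281104953 = 1 := by decide +kernel

theorem c11b_167 : go p11b 60 0x3218a431390c85991c8a42ca
    2469606196 107374183 (-3513811903) 140552477 5200441615 140552477 = 1 := by decide +kernel

theorem c11b_663 : go p11b 60 0x32291191488b91488c8a445a
    2281701377 26843546 1897458429 70276239 2459668331 70276239 = 1 := by decide +kernel

theorem c11b_1047 : go p11b 60 0x3244e452185a90c52446429a
    2684354560 107374183 (-2811049521) 562209905 6465413901 281104953 = 1 := by decide +kernel

theorem c11b_1517 : go p11b 60 0x32190b90c85290c85c864293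
    3355443199 26843546 1827182191 140552477 2951601997 140552477 = 1 := by decide +kernel

theorem c11b_490 : go p11b 60 0xc8642a43224a4854864293
    1664299827 53687092 (-281104951) 281104953 6465413901 281104953 = 1 := by decide +kernel

theorem c11b_239 : go p11b 60 0x362913b1489991c8d48a44ca
    1395864372 107374183 1686629715 562209905 3092154473 281104953 = 1 := by decide +kernel

theorem c11b_1113 : go p11b 60 0x32190a91191c8d486428b
    2952790015 53687092 (-1335248523) 70276239 4357126759 140552477 = 1 := by decide +kernel

theorem c11b_1411 : go p11b 60 0x321b119212e432232425a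
    2845415833 53687092 1546077239 140552477 3513811903 140552477 = 1 := by decide +kernel

theorem c11b_448 : go p11b 60 0xc8642a431390c85489a
    1664299827 53687092 (-843314855) 281104953 4778784187 281104953 = 1 := by decide +kernel

theorem c11b_939 : go p11b 60 0x3642e43216ac85c8642d1
    1825361102 107374183 843314857 281104953 5340994091 281104953 = 1 := by decide +kernel

theorem c11b_737 : go p11b 60 0x32190c85191486428b
    2523293287 53687092 1756905953 70276239 2670497045 140552477 = 1 := by decide +kernel

theorem c11b_1535 : go p11b 60 0x32190a9148cc8642d1
    3328599654 107374183 140552477 140552477 3513811903 140552477 = 1 := by decide +kernel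

theorem c11b_1076 : go p11b 60 0x321909aea90c351aeaaeaaea90c35d55575566a
    2791728742 214748365 (-1124419808) 1124419810 2811049521 562209905 = 1 := by decide +kernel

theorem c11b_1238 : go p11b 60 0x3219212e432425a
    3167538381 53687092 (-702762379) 140552477 4357126759 140552477 = 1 := by decide +kernel

theorem c11b_1564 : go p11b 60 0xc8e485a9148d1
    3060164199 53687092 1264972287 140552477 3513811903 140552477 = 1 := by decide +kernel

theorem c11b_1748 : go p11b 60 0x32190b90c85a
    4187593114 107374183 1124419810 1124419810 3373259426 1124419810 = 1 := by decide +kernel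

theorem c11b_107 : go p11b 60 0x321aa5751aea
    1932735284 214748365 (-5903203997) 281104953 5903203997 281104953 = 1 := by decide +kernel

theorem c11b_539 : go p11b 60 0xcaa426baaa
    2254857832 107374183 (-1686629713) 562209905 3654364379 281104953 = 1 := by decide +kernel

end Pool.Agent.MP_5cfbf6_gt.P8.K2
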