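import Pool.Agent.MP_5cfbf6_gt.P8.KP11b

set_option autoImplicit false

namespace Pool.Agent.MP_5cfbf6_gt.P8.K2

theorem c11b_208 : go p11b 60 0x3219214a43224e4521912521922499
    966367642 107374183 (-281104951) 281104953 4216574283 281104953 = 1 := by decide +kernel

theorem c11b_285 : go p11b 60 0xc86485290c89390c90a521921499
    1181116006 107374183 (-281104951) 281104953 4778784187 281104953 = 1 := by decide +kernel

theorem c11b_351 : go p11b 60 0x32446488b92132425a90c85c8d2
    885837005 26843546 (-1054143569) 70276239 6114032711 70276239 = 1 := by decide +kernel

theorem c11b_616 : go p11b 60 0xc8e46a432146485c8d486428b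
    2040109466 107374183 702762381 140552477 3654364379 281104953 = 1 := by decide +kernel

theorem c11b_171 : go p11b 60 0x32190a90c85390c8d486429a
    2254857832 107374183 (-3092154473) 281104953 5340994091 281104953 = 1 := by decide +kernel

theorem c11b_664 : go p11b 60 0x32191190c88b90c84c86425a
    2335388469 26843546 1897458429 70276239 2459668331 70276239 = 1 := by decide +kernel

theorem c11b_1054 : go p11b 60 0x32190b91489b91c8d48e469a
    3221225472 214748365 (-3935469331) 562209905 6184308949 562209905 = 1 := by decide +kernel

theorem c11b_1520 : go p11b 60 0x32190b90c85990c8548642cb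
    3274912563 53687092 1756905953 70276239 3232706949 140552477 = 1 := by decide +kernel

theorem c11b_533 : go p11b 60 0xc8642a432146432152188b
    2040109466 107374183 (-140552475) 140552477 3654364379 281104953 = 1 := by decide +kernel

theorem c11b_1063 : go p11b 60 0x32190b90c85a90cad486568b
    3650722202 214748365 (-5340994091) 281104953 6184308949 562209905 = 1 := by decide +kernel

theorem c11b_1114 : go p11b 60 0x32190a91190c8d486428b
    2952790015 53687092 (-1194696047) 70276239 4357126759 140552477 = 1 := by decide +kernel

theorem c11b_1734 : go p11b 60 0x322b148999217218e468b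
    3758096384 107374183 1967734667 281104953 2811049521 562209905 = 1 := by decide +kernel

theorem c11b_466 : go p11b 60 0xc8642a43214e431489a
    1556925645 53687092 (-1967734665) 281104953 6465413901 281104953 = 1 := by decide +kernel

theorem c11b_1061 : go p11b 60 0x32190990c85190d521a8b
    3650722202 214748365 (-6324861425) 140552477 6465413901 281104953 = 1 := by decide +kernel

theorem c11b_738 : go p11b 60 0x32290c85191486428b
    2523293287 53687092 1897458429 70276239 2670497045 140552477 = 1 := by decide +kernel

theorem c11b_1536 : go p11b 60 0x32190a90c85c8642d1
    3328599654 107374183 140552477 140552477 3794916855 140552477 = 1 := by decide +kernel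

theorem c11b_209 : go p11b 60 0x3229129554e452252aa99
    1181116006 107374183 (-843314855) 281104953 3654364379 281104953 = 1 := by decide +kernel

theorem c11b_117 : go p11b 60 0x32291c85391489a
    2040109466 107374183 (-4778784187) 281104953 6465413901 281104953 = 1 := by decide +kernel

theorem c11b_1757 : go p11b 60 0x32190a9217242d3
    3758096384 107374183 562209905 562209905 5059889139 562209905 = 1 := by decide +kernel

theorem c11b_1091 : go p11b 60 0xc92291932b46b
    2952790015 53687092 (-2178563379) 70276239 4357126759 140552477 = 1 := by decide +kernel

theorem c11b_1512 : go p11b 60 0x36391ab1c851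
    3060164199 53687092 1827182191 140552477 3232706949 140552477 = 1 := by decide +kernel

theorem c11b_1420 : go p11b 60 0xd
    3221225472 214748365 281104953 281104953 2529944569 281104953 = 1 := by decide +kernel

end Pool.Agent.MP_5cfbf6_gt.P8.K2
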