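import Pool.Agent.MP_5cfbf6_gt.P8.KP11b

set_option autoImplicit false

namespace Pool.Agent.MP_5cfbf6_gt.P8.K2

theorem c11b_264 : go p11b 60 0x32190a90c85290c5214a4522521893
    1020054733 53687092 (-843314855) 281104953 4778784187 281104953 = 1 := by decide +kernel

theorem c11b_369 : go p11b 60 0xc8642e43216a484c85c9099212d2
    1020054733 53687092 (-702762379) 140552477 5762651521 140552477 = 1 := by decide +kernel

theorem c11b_373 : go p11b 60 0x32291192252449c9214a490a4ca
    912680551 53687092 (-281104951) 281104953 5762651521 140552477 = 1 := by decide +kernel

theorem c11b_706 : go p11b 60 0xc8e42a432146485c8d48e468b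
    2201170741 53687092 1616353477 70276239 2951601997 140552477 = 1 := by decide +kernel

theorem c11b_187 : go p11b 60 0x3244e485a90c52189c8642d3
    2469606196 107374183 (-4216574283) 281104953 6184308949 562209905 = 1 := by decide +kernel

theorem c11b_668 : go p11b 60 0x32190991484b90c84c8a425a
    2228014287 26843546 1897458429 70276239 2600220807 70276239 = 1 := by decide +kernel

theorem c11b_1108 : go p11b 60 0x32190a90c85190c85486428b
    2845415833 53687092 (-1335248523) 70276239 4076021807 140552477 = 1 := by decide +kernel

theorem c11b_1525 : go p11b 60 0x32190a90c85190c85486468b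
    3060164199 53687092 210828715 70276239 3513811903 140552477 = 1 := by decide +kernel

theorem c11b_550 : go p11b 60 0xc8642643212a43215218cb
    2254857832 107374183 (-983867331) 140552477 4216574283 281104953 = 1 := by decide +kernel

theorem c11b_136 : go p11b 60 0xc90a9214e43218d486569a
    2040109466 107374183 (-3654364379) 281104953 5340994091 281104953 = 1 := by decide +kernel

theorem c11b_873 : go p11b 60 0x32190a90c85390c52189a
    2040109466 107374183 (-1967734665) 281104953 6465413901 281104953 = 1 := by decide +kernel

theorem c11b_722 : go p11b 60 0xc8a432146484d4e432235a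
    2415919105 53687092 1264972287 140552477 2670497045 140552477 = 1 := by decide +kernel

theorem c11b_474 : go p11b 60 0xc90a90c892914864493
    1342177281 53687092 (-281104951) 281104953 5903203997 281104953 = 1 := by decide +kernel

theorem c11b_1142 : go p11b 60 0x32190b90d6a4321721ad1
    2952790015 53687092 (-773038617) 70276239 3724640617 70276239 = 1 := by decide +kernel

theorem c11b_768 : go p11b 60 0x32190a90c85391c8d1
    2254857832 107374183 702762381 140552477 3794916855 140552477 = 1 := by decide +kernel

theorem c11b_1581 : go p11b 60 0x32190b90c85a90c8d1
    2684354560 107374183 (-2108287141) 140552477 4919336663 140552477 = 1 := by decide +kernel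

theorem c11b_988 : go p11b 60 0x32391a91c8d195d52ba8b
    2791728742 214748365 (-6324861425) 140552477 6465413901 281104953 = 1 := by decide +kernel

theorem c11b_196 : go p11b 60 0x322921464322853
    2469606196 107374183 (-2951601997) 140552477 5903203997 281104953 = 1 := by decide +kernel

theorem c11b_579 : go p11b 60 0x36d8d390c85486429a
    1771674011 53687092 1967734667 281104953 3092154473 281104953 = 1 := by decide +kernel

theorem c11b_782 : go p11b 60 0x32190b90c85a
    2415919105 53687092 421657429 140552477 3794916855 140552477 = 1 := by decide +kernel

theorem c11b_1039 : go p11b 60 0xc90b91a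
    2952790015 53687092 (-2389392093) 140552477 5200441615 140552477 = 1 := by decide +kernel

theorem c11b_644 : go p11b 60 0xd
    2254857832 107374183 1264972287 140552477 2389392093 140552477 = 1 := by decide +kernel

theorem c11b_1745 : go p11b 60 0xd
    3650722202 214748365 1967734667 281104953 3935469331 562209905 = 1 := by decide +kernel

end Pool.Agent.MP_5cfbf6_gt.P8.K2
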