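import Pool.Agent.MP_5cfbf6_gt.P8.KP11b

set_option autoImplicit false

namespace Pool.Agent.MP_5cfbf6_gt.P8.K2

theorem c11b_292 : go p11b 60 0x32290a91291485391c8548948a4299
    966367642 107374183 (-1967734665) 281104953 5903203997 281104953 = 1 := by decide +kernel

theorem c11b_381 : go p11b 60 0xc8642a432425390c85490992129a
    885837005 26843546 (-913591093) 70276239 6395137663 70276239 = 1 := by decide +kernel

theorem c11b_393 : go p11b 60 0x3218e431a91c8d290c8548a4493
    939524097 26843546 (-702762379) 140552477 6605966377 140552477 = 1 := by decide +kernel

theorem c11b_731 : go p11b 60 0xc8642e43216a432425c8642d1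
    2415919105 53687092 1897458429 70276239 2459668331 70276239 = 1 := by decide +kernel

theorem c11b_203 : go p11b 60 0x32190b91a91452189991c852
    1181116006 107374183 (-1686629713) 562209905 4216574283 281104953 = 1 := by decide +kernel

theorem c11b_672 : go p11b 60 0x32190b90c85a90c85c8642d1
    2308544923 53687092 1756905953 70276239 2740773283 70276239 = 1 := by decide +kernel

theorem c11b_1109 : go p11b 60 0x32190a90c85191c85486428b
    2845415833 53687092 (-1194696047) 70276239 4076021807 140552477 = 1 := by decide +kernel

theorem c11b_1526 : go p11b 60 0x32190990c84b90c88c86445a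
    3167538381 53687092 140552477 140552477 3513811903 140552477 = 1 := by decide +kernel

theorem c11b_670 : go p11b 60 0xc8642643212e430c86425a
    2281701377 26843546 1756905953 70276239 2600220807 70276239 = 1 := by decide +kernel

theorem c11b_682 : go p11b 60 0xd90a91488b91488c8a445a
    2228014287 26843546 2178563381 70276239 2319115855 70276239 = 1 := by decide +kernel

theorem c11b_884 : go p11b 60 0x32190c84a90c84c864253
    2040109466 107374183 (-421657427) 140552477 5903203997 281104953 = 1 := by decide +kernel

theorem c11b_1222 : go p11b 60 0xc86472146484d4e486235a
    3328599654 107374183 (-843314855) 281104953 3654364379 281104953 = 1 := by decide +kernel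

theorem c11b_478 : go p11b 60 0xc8e431a90c85c8642d2
    1449551463 53687092 (-843314855) 281104953 6324861425 140552477 = 1 := by decide +kernel

theorem c11b_1174 : go p11b 60 0x32190b90d6a4321721ad1
    2952790015 53687092 (-210828713) 70276239 3443535665 70276239 = 1 := by decide +kernel

theorem c11b_770 : go p11b 60 0x32190a90c85391c8d1
    2254857832 107374183 983867333 140552477 3794916855 140552477 = 1 := by decide +kernel

theorem c11b_1591 : go p11b 60 0x32190a91190c8d488b
    2845415833 53687092 (-2038010903) 70276239 4638231711 140552477 = 1 := by decide +kernel

theorem c11b_996 : go p11b 60 0x32190a90c8d195d52ba8b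
    3221225472 214748365 (-6324861425) 140552477 6465413901 281104953 = 1 := by decide +kernel

theorem c11b_254 : go p11b 60 0x3228a44e4514899
    966367642 107374183 (-1967734665) 281104953 5340994091 281104953 = 1 := by decide +kernel

theorem c11b_729 : go p11b 60 0x32395a90c85c86b46b
    2415919105 53687092 1756905953 70276239 2389392093 140552477 = 1 := by decide +kernel

theorem c11b_837 : go p11b 60 0x32290b90c85a
    1825361102 107374183 (-1967734665) 281104953 4778784187 281104953 = 1 := by decide +kernel

theorem c11b_1594 : go p11b 60 0xc8a4313
    2979633561 26843546 (-2038010903) 70276239 4638231711 140552477 = 1 := by decide +kernel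

theorem c11b_659 : go p11b 60 0xd
    2308544923 53687092 1756905953 70276239 2319115855 70276239 = 1 := by decide +kernel

theorem c11b_1758 : go p11b 60 0xd
    3650722202 214748365 1686629715 562209905 5059889139 562209905 = 1 := by decide +kernel

end Pool.Agent.MP_5cfbf6_gt.P8.K2
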