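import Pool.Agent.MP_5cfbf6_gt.P8.KP11b

set_option autoImplicit false

namespace Pool.Agent.MP_5cfbf6_gt.P8.K2

theorem c11b_314 : go p11b 60 0x32190b91a9213242d390c85486429a
    1020054733 53687092 (-1264972285) 140552477 6605966377 140552477 = 1 := by decide +kernel

theorem c11b_384 : go p11b 60 0xc90b90c85a90c90952446490a29a
    885837005 26843546 (-773038617) 70276239 6254585187 70276239 = 1 := by decide +kernel

theorem c11b_443 : go p11b 60 0x32290c6a431c8d290c8948a4293
    1342177281 53687092 (-843314855) 281104953 5340994091 281104953 = 1 := by decide +kernel

theorem c11b_740 : go p11b 60 0xc8642e43216a432425c8642d1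
    2415919105 53687092 2178563381 70276239 2319115855 70276239 = 1 := by decide +kernel

theorem c11b_212 : go p11b 60 0x32191290c89390c894864499
    1181116006 107374183 (-281104951) 281104953 4216574283 281104953 = 1 := by decide +kernel

theorem c11b_673 : go p11b 60 0x32190991488b90c84c86445a
    2281701377 26843546 1897458429 70276239 2600220807 70276239 = 1 := by decide +kernel

theorem c11b_1110 : go p11b 60 0x32391a90c8d191c85486428b
    2952790015 53687092 (-1335248523) 70276239 4076021807 140552477 = 1 := by decide +kernel

theorem c11b_1532 : go p11b 60 0x32190990c84b90c84c86425a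
    3167538381 53687092 421657429 140552477 3513811903 140552477 = 1 := by decide +kernel

theorem c11b_675 : go p11b 60 0xc8642643212e430c86425a
    2281701377 26843546 1897458429 70276239 2740773283 70276239 = 1 := by decide +kernel

theorem c11b_688 : go p11b 60 0xd90a91488b91488c8a445a
    2281701377 26843546 2178563381 70276239 2319115855 70276239 = 1 := by decide +kernel

theorem c11b_890 : go p11b 60 0x32190a90c85391486429a
    2254857832 107374183 (-1967734665) 281104953 5340994091 281104953 = 1 := by decide +kernel

theorem c11b_1413 : go p11b 60 0xd90c85d9212a432190a2ca
    2899102924 107374183 1546077239 140552477 3794916855 140552477 = 1 := by decide +kernel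

theorem c11b_508 : go p11b 60 0xc8642a4853921524299
    1395864372 107374183 281104953 281104953 5340994091 281104953 = 1 := by decide +kernel

theorem c11b_1217 : go p11b 60 0x32190b90d6a4321721ad1
    3060164199 53687092 (-773038617) 70276239 3724640617 70276239 = 1 := by decide +kernel

theorem c11b_774 : go p11b 60 0x32190b90c85a91c8d1
    2254857832 107374183 421657429 140552477 4357126759 140552477 = 1 := by decide +kernel

theorem c11b_1597 : go p11b 60 0x3219139148548e4299
    2952790015 53687092 (-2038010903) 70276239 4919336663 140552477 = 1 := by decide +kernel

theorem c11b_949 : go p11b 60 0xdb6429c8644643212d2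
    1825361102 107374183 562209905 562209905 6465413901 281104953 = 1 := by decide +kernel

theorem c11b_122 : go p11b 60 0xc8643212e452235a
    2469606196 107374183 (-6605966377) 140552477 6605966377 140552477 = 1 := by decide +kernel

theorem c11b_1240 : go p11b 60 0x32395a90c85c86b46b
    3060164199 53687092 (-491933665) 70276239 3513811903 140552477 = 1 := by decide +kernel

theorem c11b_843 : go p11b 60 0x32190a90c853
    2040109466 107374183 (-1546077237) 140552477 4778784187 281104953 = 1 := by decide +kernel

theorem c11b_538 : go p11b 60 0x32b959aabaaaae435d55d55566a
    2362232014 214748365 (-1124419808) 1124419810 2811049521 562209905 = 1 := by decide +kernel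

theorem c11b_628 : go p11b 60 0xd
    2040109466 107374183 1967734667 281104953 3654364379 281104953 = 1 := by decide +kernel

theorem c11b_1702 : go p11b 60 0xd
    2791728742 214748365 1686629715 562209905 6184308949 562209905 = 1 := by decide +kernel

end Pool.Agent.MP_5cfbf6_gt.P8.K2
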