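import Pool.Agent.MP_5cfbf6_gt.P8.KP11b

set_option autoImplicit false

namespace Pool.Agent.MP_5cfbf6_gt.P8.K2

theorem c11b_315 : go p11b 60 0x32190a9129148939148548948a4499
    1181116006 107374183 (-1967734665) 281104953 5903203997 281104953 = 1 := by decide +kernel

theorem c11b_387 : go p11b 60 0xc90a9148642d29225242e4322693
    939524097 26843546 (-702762379) 140552477 6324861425 140552477 = 1 := by decide +kernel

theorem c11b_496 : go p11b 60 0x32191290c853914864254864299
    966367642 107374183 281104953 281104953 5903203997 281104953 = 1 := by decide +kernel

theorem c11b_745 : go p11b 60 0xc8642e43216a43217219212d1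
    2415919105 53687092 2038010905 70276239 2600220807 70276239 = 1 := by decide +kernel

theorem c11b_219 : go p11b 60 0x32291391489a9148948a4499
    1395864372 107374183 (-843314855) 281104953 4216574283 281104953 = 1 := by decide +kernel

theorem c11b_674 : go p11b 60 0x32190990c88b90c84c86425a
    2335388469 26843546 1897458429 70276239 2600220807 70276239 = 1 := by decide +kernel

theorem c11b_1126 : go p11b 60 0x32190b90c8616a43217242d1
    2684354560 107374183 (-983867331) 140552477 4357126759 140552477 = 1 := by decide +kernel

theorem c11b_1533 : go p11b 60 0x32190990c84b90c84c86445a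
    3060164199 53687092 421657429 140552477 3794916855 140552477 = 1 := by decide +kernel

theorem c11b_692 : go p11b 60 0xc86191484b90c84c8a445a
    2228014287 26843546 2038010905 70276239 2600220807 70276239 = 1 := by decide +kernel

theorem c11b_689 : go p11b 60 0xd90a90c84b90c88c86445a
    2335388469 26843546 2178563381 70276239 2319115855 70276239 = 1 := by decide +kernel

theorem c11b_892 : go p11b 60 0x3219099212a4321324253
    2254857832 107374183 (-1264972285) 140552477 5340994091 281104953 = 1 := by decide +kernel

theorem c11b_1709 : go p11b 60 0xd8a43214ec854909921299
    3221225472 214748365 843314857 281104953 5340994091 281104953 = 1 := by decide +kernel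

theorem c11b_535 : go p11b 60 0xc8e42a452166431488b
    2040109466 107374183 (-702762379) 140552477 4216574283 281104953 = 1 := by decide +kernel

theorem c11b_1285 : go p11b 60 0x32290990d4e432152235a
    2952790015 53687092 702762381 140552477 2951601997 140552477 = 1 := by decide +kernel

theorem c11b_776 : go p11b 60 0x32190b90c85a91c8d1
    2254857832 107374183 702762381 140552477 4357126759 140552477 = 1 := by decide +kernel

theorem c11b_1605 : go p11b 60 0x32190c2e430c8a425a
    2845415833 53687092 (-2108287141) 140552477 5200441615 140552477 = 1 := by decide +kernel

theorem c11b_1718 : go p11b 60 0xc8e431486a66484d6ab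
    3543348020 107374183 281104953 281104953 2811049521 562209905 = 1 := by decide +kernel

theorem c11b_573 : go p11b 60 0xc8642e435a91c851
    1825361102 107374183 1827182191 140552477 2389392093 140552477 = 1 := by decide +kernel

theorem c11b_1277 : go p11b 60 0x32395a90c85c86b46b
    2952790015 53687092 70276239 70276239 3232706949 140552477 = 1 := by decide +kernel

theorem c11b_891 : go p11b 60 0x32190a90c853
    2254857832 107374183 (-1546077237) 140552477 5340994091 281104953 = 1 := by decide +kernel

theorem c11b_35 : go p11b 60 0x321aeaaeaaab90d55d55566a
    1503238554 214748365 (-5622099044) 1124419810 5059889139 562209905 = 1 := by decide +kernel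

theorem c11b_624 : go p11b 60 0xd
    1825361102 107374183 1967734667 281104953 3654364379 281104953 = 1 := by decide +kernel

theorem c11b_1523 : go p11b 60 0xd
    3328599654 107374183 2108287143 140552477 3232706949 140552477 = 1 := by decide +kernel

end Pool.Agent.MP_5cfbf6_gt.P8.K2
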