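import Pool.Agent.MP_5cfbf6_gt.P8.KP11b

set_option autoImplicit false

namespace Pool.Agent.MP_5cfbf6_gt.P8.K2

theorem c11b_323 : go p11b 60 0x32190a90c85391489a91485c8642d2
    1127428915 53687092 (-1405524761) 281104953 6324861425 140552477 = 1 := by decide +kernel

theorem c11b_390 : go p11b 60 0xc8a44a45224a485c90b5242e4693
    939524097 26843546 (-983867331) 140552477 6605966377 140552477 = 1 := by decide +kernel

theorem c11b_591 : go p11b 60 0x32391a90c8519217242d486428b
    2093796557 53687092 1897458429 70276239 2670497045 140552477 = 1 := by decide +kernel

theorem c11b_754 : go p11b 60 0xc8642a47234647235242e468b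
    2415919105 53687092 1616353477 70276239 2951601997 140552477 = 1 := by decide +kernel

theorem c11b_220 : go p11b 60 0x32190b91489a90c894864499
    1395864372 107374183 (-281104951) 281104953 4216574283 281104953 = 1 := by decide +kernel

theorem c11b_680 : go p11b 60 0x32291191488b91488c8a445a
    2228014287 26843546 2038010905 70276239 2459668331 70276239 = 1 := by decide +kernel

theorem c11b_1128 : go p11b 60 0x32190b90c85a90c85c8642d1
    2684354560 107374183 (-702762379) 140552477 4357126759 140552477 = 1 := by decide +kernel

theorem c11b_1544 : go p11b 60 0x32290c85990c85490b92168b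
    3328599654 107374183 140552477 140552477 4216574283 281104953 = 1 := by decide +kernel

theorem c11b_703 : go p11b 60 0xc8642645222e430c8a425a
    2201170741 53687092 1264972287 140552477 3232706949 140552477 = 1 := by decide +kernel

theorem c11b_695 : go p11b 60 0xd90a91488b90c84c8a445a
    2281701377 26843546 2038010905 70276239 2600220807 70276239 = 1 := by decide +kernel

theorem c11b_895 : go p11b 60 0x32190a91190c8548e428b
    2469606196 107374183 (-1546077237) 140552477 4778784187 281104953 = 1 := by decide +kernel

theorem c11b_718 : go p11b 60 0xdb2185391484c8642e445a
    2201170741 53687092 1827182191 140552477 3232706949 140552477 = 1 := by decide +kernel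

theorem c11b_542 : go p11b 60 0xc86190c2a43148642cb
    2254857832 107374183 (-1264972285) 140552477 4216574283 281104953 = 1 := by decide +kernel

theorem c11b_1698 : go p11b 60 0x36c9094e484c86432145a
    2899102924 107374183 843314857 281104953 5340994091 281104953 = 1 := by decide +kernel

theorem c11b_778 : go p11b 60 0x32190b90c85a91c8d1
    2254857832 107374183 983867333 140552477 4357126759 140552477 = 1 := by decide +kernel

theorem c11b_1636 : go p11b 60 0x32291190c85486468b
    2899102924 107374183 (-983867331) 140552477 5340994091 281104953 = 1 := by decide +kernel

theorem c11b_6 : go p11b 60 0xc8a446552a2e452235a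
    966367642 107374183 (-6043756473) 140552477 6324861425 140552477 = 1 := by decide +kernel

theorem c11b_1423 : go p11b 60 0xc86426484b92235a
    3167538381 53687092 140552477 140552477 3232706949 140552477 = 1 := by decide +kernel

theorem c11b_100 : go p11b 60 0xc861aabaabaa555d55566aae435d555721aeaaab35566a
    2147483649 429496730 (-4497679235) 2248839619 3373259426 1124419810 = 1 := by decide +kernel

theorem c11b_1017 : go p11b 60 0x32190b90c85a
    2630667469 53687092 (-2670497045) 140552477 4919336663 140552477 = 1 := by decide +kernel

theorem c11b_1057 : go p11b 60 0x321aabaea92a35575566a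
    3865470567 429496730 (-4497679235) 2248839619 3373259426 1124419810 = 1 := by decide +kernel

theorem c11b_514 : go p11b 60 0xd
    1503238554 214748365 1686629715 562209905 5059889139 562209905 = 1 := by decide +kernel

theorem c11b_1419 : go p11b 60 0xd
    2899102924 107374183 1967734667 281104953 4216574283 281104953 = 1 := by decide +kernel

end Pool.Agent.MP_5cfbf6_gt.P8.K2
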