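import Pool.Agent.MP_5cfbf6_gt.P8.KP11b

set_option autoImplicit false

namespace Pool.Agent.MP_5cfbf6_gt.P8.K2

theorem c11b_342 : go p11b 60 0x32292152429991c90c8919219122ca
    885837005 26843546 (-737900498) 35138120 5832927759 70276239 = 1 := by decide +kernel

theorem c11b_411 : go p11b 60 0xc8646a47218d290c85489c8a44d2
    1127428915 53687092 (-843314855) 281104953 5762651521 140552477 = 1 := by decide +kernel

theorem c11b_603 : go p11b 60 0x32290990c85488b91484c8a425a
    2093796557 53687092 1546077239 140552477 2951601997 140552477 = 1 := by decide +kernel

theorem c11b_874 : go p11b 60 0xc8642a484c85390c85486429a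
    2040109466 107374183 (-1405524761) 281104953 6465413901 281104953 = 1 := by decide +kernel

theorem c11b_222 : go p11b 60 0x32290990c84b91488c8a445a
    1610612736 107374183 (-281104951) 281104953 3654364379 281104953 = 1 := by decide +kernel

theorem c11b_686 : go p11b 60 0x32291191488b91488c8a445a
    2281701377 26843546 2038010905 70276239 2459668331 70276239 = 1 := by decide +kernel

theorem c11b_1132 : go p11b 60 0x32190b90c85a90c85c8642d1
    2684354560 107374183 (-140552475) 140552477 4357126759 140552477 = 1 := by decide +kernel

theorem c11b_1546 : go p11b 60 0x32190990c84b90c88c8a445a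
    3060164199 53687092 702762381 140552477 3513811903 140552477 = 1 := by decide +kernel

theorem c11b_705 : go p11b 60 0xc8642a431191c8d486428b
    2201170741 53687092 1475801001 70276239 2951601997 140552477 = 1 := by decide +kernel

theorem c11b_828 : go p11b 60 0xd90a91484a90c8cc864653
    2523293287 53687092 1546077239 140552477 3513811903 140552477 = 1 := by decide +kernel

theorem c11b_913 : go p11b 60 0x3242e432166485c8642ca
    2469606196 107374183 (-421657427) 140552477 4919336663 140552477 = 1 := by decide +kernel

theorem c11b_742 : go p11b 60 0xd90b90c85ab2425c8642d1
    2415919105 53687092 2178563381 70276239 2459668331 70276239 = 1 := by decide +kernel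

theorem c11b_545 : go p11b 60 0xc8642a431190c85488b
    2469606196 107374183 (-1546077237) 140552477 4216574283 281104953 = 1 := by decide +kernel

theorem c11b_137 : go p11b 60 0xc8642e43216a431cad2
    1825361102 107374183 (-2811049521) 562209905 4778784187 281104953 = 1 := by decide +kernel

theorem c11b_534 : go p11b 60 0x32190a90c85991488b
    2040109466 107374183 (-983867331) 140552477 4216574283 281104953 = 1 := by decide +kernel

theorem c11b_1370 : go p11b 60 0x32390c85992132185a
    2952790015 53687092 983867333 140552477 3513811903 140552477 = 1 := by decide +kernel

theorem c11b_1353 : go p11b 60 0xc90a90990c85484b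
    2845415833 53687092 210828715 70276239 3513811903 140552477 = 1 := by decide +kernel

theorem c11b_1260 : go p11b 60 0x3219212e432425a
    3167538381 53687092 (-421657427) 140552477 4357126759 140552477 = 1 := by decide +kernel

theorem c11b_1583 : go p11b 60 0xc8e485a90c851
    2684354560 107374183 (-1827182189) 140552477 4919336663 140552477 = 1 := by decide +kernel

theorem c11b_1138 : go p11b 60 0xc86426baa5721351aea
    2899102924 107374183 (-702762379) 140552477 3513811903 140552477 = 1 := by decide +kernel

theorem c11b_761 : go p11b 60 0xdb6484ab6484b45a
    2469606196 107374183 2108287143 140552477 2951601997 140552477 = 1 := by decide +kernel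

theorem c11b_1579 : go p11b 60 0xd
    3328599654 107374183 1967734667 281104953 3935469331 562209905 = 1 := by decide +kernel

end Pool.Agent.MP_5cfbf6_gt.P8.K2
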