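import Pool.Agent.MP_5cfbf6_gt.P8.KP11b

set_option autoImplicit false

namespace Pool.Agent.MP_5cfbf6_gt.P8.K2

theorem c11b_368 : go p11b 60 0x32426484a9213214e484c85486429a
    1020054733 53687092 (-983867331) 140552477 5762651521 140552477 = 1 := by decide +kernel

theorem c11b_421 : go p11b 60 0xc8a44e45226a43215227218a44d1
    1127428915 53687092 (-702762379) 140552477 6605966377 140552477 = 1 := by decide +kernel

theorem c11b_604 : go p11b 60 0x32190c2e432185a90c85c8642d1
    2040109466 107374183 1546077239 140552477 3232706949 140552477 = 1 := by decide +kernel

theorem c11b_888 : go p11b 60 0xc8642a431488b91488c86425a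
    2254857832 107374183 (-1967734665) 281104953 4778784187 281104953 = 1 := by decide +kernel

theorem c11b_223 : go p11b 60 0x32190a91488b90c85486429a
    1610612736 107374183 (-843314855) 281104953 4216574283 281104953 = 1 := by decide +kernel

theorem c11b_687 : go p11b 60 0x32191190c88b90c88c86445a
    2335388469 26843546 2038010905 70276239 2459668331 70276239 = 1 := by decide +kernel

theorem c11b_1137 : go p11b 60 0x32190b90c85a90c85c8642d1
    2952790015 53687092 (-913591093) 70276239 3865193093 70276239 = 1 := by decide +kernel

theorem c11b_1547 : go p11b 60 0x32190990c84b90c84c86425a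
    3167538381 53687092 702762381 140552477 3513811903 140552477 = 1 := by decide +kernel

theorem c11b_751 : go p11b 60 0xc8642645222e484c86425a
    2415919105 53687092 1264972287 140552477 3232706949 140552477 = 1 := by decide +kernel

theorem c11b_999 : go p11b 60 0xc8642e43216a4321721ad3
    3221225472 214748365 (-5340994091) 281104953 6184308949 562209905 = 1 := by decide +kernel

theorem c11b_928 : go p11b 60 0x32426484a90c84c864253
    2254857832 107374183 (-702762379) 140552477 5903203997 281104953 = 1 := by decide +kernel

theorem c11b_946 : go p11b 60 0xdb2185391484c8642a445a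
    2040109466 107374183 843314857 281104953 5340994091 281104953 = 1 := by decide +kernel

theorem c11b_589 : go p11b 60 0xc8a191484b90c32185a
    1986422375 53687092 1827182191 140552477 2670497045 140552477 = 1 := by decide +kernel

theorem c11b_540 : go p11b 60 0xc8642643212e432155a
    2254857832 107374183 (-1967734665) 281104953 4216574283 281104953 = 1 := by decide +kernel

theorem c11b_570 : go p11b 60 0x32190b90c85a91c8d1
    2040109466 107374183 983867333 140552477 2951601997 140552477 = 1 := by decide +kernel

theorem c11b_1376 : go p11b 60 0x32190c2e430c86425a
    2845415833 53687092 421657429 140552477 4076021807 140552477 = 1 := by decide +kernel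

theorem c11b_1355 : go p11b 60 0xc8e485a9217242d1
    2952790015 53687092 70276239 70276239 3584088141 70276239 = 1 := by decide +kernel

theorem c11b_1302 : go p11b 60 0x3242642e484c85a
    2738041651 53687092 1546077239 140552477 3232706949 140552477 = 1 := by decide +kernel

theorem c11b_1607 : go p11b 60 0xc8644e47242d1
    2899102924 107374183 (-2108287141) 140552477 5481546567 140552477 = 1 := by decide +kernel

theorem c11b_1514 : go p11b 60 0x36db2156428c8612d3
    3113851290 107374183 2108287143 140552477 3092154473 281104953 = 1 := by decide +kernel

theorem c11b_1031 : go p11b 60 0xc90b90c85a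
    2630667469 53687092 (-2670497045) 140552477 5200441615 140552477 = 1 := by decide +kernel

end Pool.Agent.MP_5cfbf6_gt.P8.K2
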