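import Pool.Agent.MP_5cfbf6_gt.P8.KP11b

set_option autoImplicit false

namespace Pool.Agent.MP_5cfbf6_gt.P8.K2

theorem c11b_372 : go p11b 60 0x32291391489a91489c8644a43224d1
    1020054733 53687092 (-702762379) 140552477 6043756473 140552477 = 1 := by decide +kernel

theorem c11b_426 : go p11b 60 0xc8a391485a90c85485c8642a42d1
    1127428915 53687092 (-421657427) 140552477 6605966377 140552477 = 1 := by decide +kernel

theorem c11b_611 : go p11b 60 0x32290990c85488b91484c8a425a
    1825361102 107374183 843314857 281104953 3654364379 281104953 = 1 := by decide +kernel

theorem c11b_907 : go p11b 60 0xc8e46647232a47242cc8e4653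
    2254857832 107374183 (-702762379) 140552477 5340994091 281104953 = 1 := by decide +kernel

theorem c11b_224 : go p11b 60 0x32291391489a90c85c8a44d1
    1610612736 107374183 (-281104951) 281104953 4216574283 281104953 = 1 := by decide +kernel

theorem c11b_696 : go p11b 60 0x32190990c88b90c84c86445a
    2335388469 26843546 2038010905 70276239 2600220807 70276239 = 1 := by decide +kernel

theorem c11b_1143 : go p11b 60 0x32190b90c85a90c85c8642d1
    2952790015 53687092 (-773038617) 70276239 3865193093 70276239 = 1 := by decide +kernel

theorem c11b_1551 : go p11b 60 0x32190990c84b90c84c86425a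
    3167538381 53687092 983867333 140552477 3513811903 140552477 = 1 := by decide +kernel

theorem c11b_753 : go p11b 60 0xc86290c85190c8548e428b
    2415919105 53687092 1475801001 70276239 2951601997 140552477 = 1 := by decide +kernel

theorem c11b_1202 : go p11b 60 0xc8642e45216a4321721ad3
    3033320653 26843546 (-1335248523) 70276239 4076021807 140552477 = 1 := by decide +kernel

theorem c11b_970 : go p11b 60 0x32190c84b90c84c86425a
    2523293287 53687092 702762381 140552477 4638231711 140552477 = 1 := by decide +kernel

theorem c11b_1096 : go p11b 60 0xc91c88990d6a4321721ad1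
    2952790015 53687092 (-1897458427) 70276239 4286850521 70276239 = 1 := by decide +kernel

theorem c11b_733 : go p11b 60 0xc86391a90c85c8642d1
    2415919105 53687092 1756905953 70276239 2600220807 70276239 = 1 := by decide +kernel

theorem c11b_833 : go p11b 60 0xd91c84a91c8d486428b
    2523293287 53687092 1335248525 70276239 4076021807 140552477 = 1 := by decide +kernel

theorem c11b_571 : go p11b 60 0x32190b90c85a91c8d1
    2040109466 107374183 983867333 140552477 3232706949 140552477 = 1 := by decide +kernel

theorem c11b_1385 : go p11b 60 0x32190a90c85191484b
    2630667469 53687092 1335248525 70276239 3513811903 140552477 = 1 := by decide +kernel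

theorem c11b_1362 : go p11b 60 0xc8a446432152428b
    2952790015 53687092 491933667 70276239 3513811903 140552477 = 1 := by decide +kernel

theorem c11b_1323 : go p11b 60 0x32190990b90c85a
    2630667469 53687092 702762381 140552477 3513811903 140552477 = 1 := by decide +kernel

theorem c11b_1633 : go p11b 60 0xc8e46a43242d1
    2899102924 107374183 (-421657427) 140552477 4919336663 140552477 = 1 := by decide +kernel

theorem c11b_625 : go p11b 60 0xdb6291356432168a
    1825361102 107374183 1686629715 562209905 4216574283 281104953 = 1 := by decide +kernel

theorem c11b_435 : go p11b 60 0xc8642e431a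
    1610612736 107374183 (-1967734665) 281104953 4778784187 281104953 = 1 := by decide +kernel

end Pool.Agent.MP_5cfbf6_gt.P8.K2
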