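import Pool.Agent.MP_5cfbf6_gt.P8.KP11b

set_option autoImplicit false

namespace Pool.Agent.MP_5cfbf6_gt.P8.K2

theorem c11b_374 : go p11b 60 0x32291489992252449c9214a490a4ca
    912680551 53687092 (-281104951) 281104953 6043756473 140552477 = 1 := by decide +kernel

theorem c11b_455 : go p11b 60 0xc86291391489a90c8548948a4499
    1395864372 107374183 (-1967734665) 281104953 5903203997 281104953 = 1 := by decide +kernel

theorem c11b_642 : go p11b 60 0x32190b90c85a92132425c8642d1
    2469606196 107374183 983867333 140552477 2951601997 140552477 = 1 := by decide +kernel

theorem c11b_909 : go p11b 60 0xc8642643212a47233242e4653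
    2254857832 107374183 (-140552475) 140552477 5340994091 281104953 = 1 := by decide +kernel

theorem c11b_231 : go p11b 60 0x32290b91485991489c8a44ca
    966367642 107374183 562209905 562209905 4216574283 281104953 = 1 := by decide +kernel

theorem c11b_702 : go p11b 60 0x32190a90c85190c85486428b
    2308544923 53687092 1335248525 70276239 2951601997 140552477 = 1 := by decide +kernel

theorem c11b_1144 : go p11b 60 0x32190b90c85a90c85c8642d1
    2952790015 53687092 (-632486141) 70276239 3724640617 70276239 = 1 := by decide +kernel

theorem c11b_1554 : go p11b 60 0x32190b90c85a90c85c8642d1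
    3328599654 107374183 702762381 140552477 3794916855 140552477 = 1 := by decide +kernel

theorem c11b_767 : go p11b 60 0xc8642e485a90c85c8642d1
    2254857832 107374183 702762381 140552477 3513811903 140552477 = 1 := by decide +kernel

theorem c11b_1396 : go p11b 60 0xd90c85c8ca91c8d48e468b
    2630667469 53687092 1475801001 70276239 3794916855 140552477 = 1 := by decide +kernel

theorem c11b_1006 : go p11b 60 0x3242a485392150c90a85a
    2630667469 53687092 (-2951601997) 140552477 4919336663 140552477 = 1 := by decide +kernel

theorem c11b_1315 : go p11b 60 0xd8e46a432146c85c8642d1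
    2899102924 107374183 1827182191 140552477 3232706949 140552477 = 1 := by decide +kernel

theorem c11b_757 : go p11b 60 0xc86426430a921324253
    2523293287 53687092 1546077239 140552477 3232706949 140552477 = 1 := by decide +kernel

theorem c11b_1172 : go p11b 60 0xc8e46a446472b52428b
    2845415833 53687092 (-210828713) 70276239 3513811903 140552477 = 1 := by decide +kernel

theorem c11b_574 : go p11b 60 0x32190b90c85a91c851
    1825361102 107374183 1827182191 140552477 2670497045 140552477 = 1 := by decide +kernel

theorem c11b_1387 : go p11b 60 0x32190a90c85190c88b
    2738041651 53687092 1335248525 70276239 3513811903 140552477 = 1 := by decide +kernel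

theorem c11b_1372 : go p11b 60 0xc8e485991c8642ca
    2952790015 53687092 983867333 140552477 3794916855 140552477 = 1 := by decide +kernel

theorem c11b_1443 : go p11b 60 0x32390c85991c8ca
    3382286745 53687092 983867333 140552477 2951601997 140552477 = 1 := by decide +kernel

theorem c11b_1652 : go p11b 60 0xc8a43217242d1
    3113851290 107374183 (-1827182189) 140552477 4919336663 140552477 = 1 := by decide +kernel

theorem c11b_164 : go p11b 60 0x3218a435b90d6ab
    2469606196 107374183 (-4216574283) 281104953 5059889139 562209905 = 1 := by decide +kernel

theorem c11b_622 : go p11b 60 0x36291391489a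
    1771674011 53687092 1405524763 281104953 3654364379 281104953 = 1 := by decide +kernel

end Pool.Agent.MP_5cfbf6_gt.P8.K2
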