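import Pool.Agent.MP_5cfbf6_gt.P8.KP11b

set_option autoImplicit false

namespace Pool.Agent.MP_5cfbf6_gt.P8.K2

theorem c11b_396 : go p11b 60 0x32291391489a9148642948a4322499
    1020054733 53687092 (-702762379) 140552477 6324861425 140552477 = 1 := by decide +kernel

theorem c11b_482 : go p11b 60 0xc8e431a90c7218d290c854864693
    1449551463 53687092 (-281104951) 281104953 6465413901 281104953 = 1 := by decide +kernel

theorem c11b_669 : go p11b 60 0x32190c2e432185a90c85c8642d1
    2201170741 53687092 1897458429 70276239 2740773283 70276239 = 1 := by decide +kernel

theorem c11b_1003 : go p11b 60 0xc91c85190c8e428b92232445a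
    2791728742 214748365 (-3654364379) 281104953 5340994091 281104953 = 1 := by decide +kernel

theorem c11b_233 : go p11b 60 0x32291391489991489c8a44ca
    1181116006 107374183 562209905 562209905 4216574283 281104953 = 1 := by decide +kernel

theorem c11b_704 : go p11b 60 0x32190991488b90c84c8a445a
    2308544923 53687092 1264972287 140552477 3232706949 140552477 = 1 := by decide +kernel

theorem c11b_1148 : go p11b 60 0x32190b90c85a90c85c8642d1
    2952790015 53687092 (-1054143569) 70276239 4005745569 70276239 = 1 := by decide +kernel

theorem c11b_1557 : go p11b 60 0x32190a90c85390c854864299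
    3328599654 107374183 983867333 140552477 3794916855 140552477 = 1 := by decide +kernel

theorem c11b_798 : go p11b 60 0xc8642643212e432132185a
    2415919105 53687092 421657429 140552477 4357126759 140552477 = 1 := by decide +kernel

theorem c11b_14 : go p11b 60 0x32426484b90c88c86445a
    1181116006 107374183 (-6043756473) 140552477 6605966377 140552477 = 1 := by decide +kernel

theorem c11b_554 : go p11b 60 0x32190b90c85a90c7218d1
    2254857832 107374183 (-140552475) 140552477 4357126759 140552477 = 1 := by decide +kernel

theorem c11b_1599 : go p11b 60 0x32452226485a91c8642d1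
    2952790015 53687092 (-1897458427) 70276239 4567955473 70276239 = 1 := by decide +kernel

theorem c11b_1647 : go p11b 60 0xc90b9216a485c8642d2
    2684354560 107374183 (-562209903) 562209905 6465413901 281104953 = 1 := by decide +kernel

theorem c11b_441 : go p11b 60 0x32190a90c852914893
    1449551463 53687092 (-843314855) 281104953 4778784187 281104953 = 1 := by decide +kernel

theorem c11b_1331 : go p11b 60 0x3218a432146452188b
    2738041651 53687092 913591095 70276239 3794916855 140552477 = 1 := by decide +kernel

theorem c11b_318 : go p11b 60 0xc8642e431a914852
    1234803097 53687092 (-1405524761) 281104953 5762651521 140552477 = 1 := by decide +kernel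

theorem c11b_1254 : go p11b 60 0xc86290c85c8642d1
    3328599654 107374183 (-140552475) 140552477 3513811903 140552477 = 1 := by decide +kernel

theorem c11b_1149 : go p11b 60 0x3239216a485c8d1
    2952790015 53687092 (-1054143569) 70276239 4146298045 70276239 = 1 := by decide +kernel

theorem c11b_1229 : go p11b 60 0xc86485190c8d1
    3060164199 53687092 (-1054143569) 70276239 4427402997 70276239 = 1 := by decide +kernel

theorem c11b_1635 : go p11b 60 0x32190a90c851
    2899102924 107374183 (-140552475) 140552477 4919336663 140552477 = 1 := by decide +kernel

theorem c11b_1521 : go p11b 60 0x36c864253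
    3274912563 53687092 1897458429 70276239 3232706949 140552477 = 1 := by decide +kernel

theorem c11b_521 : go p11b 60 0xd
    1503238554 214748365 1686629715 562209905 6184308949 562209905 = 1 := by decide +kernel

theorem c11b_1421 : go p11b 60 0xd
    3113851290 107374183 140552477 140552477 2951601997 140552477 = 1 := by decide +kernel

end Pool.Agent.MP_5cfbf6_gt.P8.K2
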