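import Pool.Agent.MP_5cfbf6_gt.P8.KP11b

set_option autoImplicit false

namespace Pool.Agent.MP_5cfbf6_gt.P8.K2

theorem c11b_431 : go p11b 60 0x32291390c6a45227218d190c85c8d2
    1395864372 107374183 (-1686629713) 562209905 4778784187 281104953 = 1 := by decide +kernel

theorem c11b_557 : go p11b 60 0xc8e46a452266485486429c86468b
    2469606196 107374183 (-140552475) 140552477 3654364379 281104953 = 1 := by decide +kernel

theorem c11b_709 : go p11b 60 0x32290990c85488b91484c8a445a
    2201170741 53687092 1546077239 140552477 3232706949 140552477 = 1 := by decide +kernel

theorem c11b_1023 : go p11b 60 0xc86292426232432145c8644d1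
    2899102924 107374183 (-2670497045) 140552477 4919336663 140552477 = 1 := by decide +kernel

theorem c11b_238 : go p11b 60 0x32391a91489991c8948a428a
    1395864372 107374183 1686629715 562209905 2529944569 281104953 = 1 := by decide +kernel

theorem c11b_707 : go p11b 60 0x32390a91c85191c8d48e468b
    2308544923 53687092 1475801001 70276239 2951601997 140552477 = 1 := by decide +kernel

theorem c11b_1150 : go p11b 60 0x32190b90c85a90c85c8642d1
    2952790015 53687092 (-913591093) 70276239 4005745569 70276239 = 1 := by decide +kernel

theorem c11b_1565 : go p11b 60 0x32190990c84b90c84c86425a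
    3167538381 53687092 1264972287 140552477 3513811903 140552477 = 1 := by decide +kernel

theorem c11b_809 : go p11b 60 0xc86191484b90c84c8a425a
    2415919105 53687092 983867333 140552477 4357126759 140552477 = 1 := by decide +kernel

theorem c11b_65 : go p11b 60 0x3218e431a91485c8a44d2
    966367642 107374183 (-3935469331) 562209905 5903203997 281104953 = 1 := by decide +kernel

theorem c11b_561 : go p11b 60 0x32190b90c85991c8642ca
    2469606196 107374183 (-421657427) 140552477 4357126759 140552477 = 1 := by decide +kernel

theorem c11b_1603 : go p11b 60 0x3218a485191c85486428b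
    2952790015 53687092 (-1897458427) 70276239 4919336663 140552477 = 1 := by decide +kernel

theorem c11b_1660 : go p11b 60 0xc8642a43217219212d1
    3113851290 107374183 (-1264972285) 140552477 4919336663 140552477 = 1 := by decide +kernel

theorem c11b_447 : go p11b 60 0x32190a91390c85489a
    1556925645 53687092 (-843314855) 281104953 4778784187 281104953 = 1 := by decide +kernel

theorem c11b_1342 : go p11b 60 0x32291190c85486428b
    2630667469 53687092 632486143 70276239 4357126759 140552477 = 1 := by decide +kernel

theorem c11b_337 : go p11b 60 0xc8e48a448c864299
    885837005 26843546 (-790607676) 17569060 5692375283 70276239 = 1 := by decide +kernel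

theorem c11b_1255 : go p11b 60 0xc86290c85c8642d1
    3328599654 107374183 (-140552475) 140552477 3794916855 140552477 = 1 := by decide +kernel

theorem c11b_1156 : go p11b 60 0x32290990c85488b
    2845415833 53687092 (-632486141) 70276239 4076021807 140552477 = 1 := by decide +kernel

theorem c11b_1233 : go p11b 60 0xc8e485a90c8d1
    3060164199 53687092 (-773038617) 70276239 4146298045 70276239 = 1 := by decide +kernel

theorem c11b_1649 : go p11b 60 0x32391a91c8d2
    2899102924 107374183 (-562209903) 562209905 6465413901 281104953 = 1 := by decide +kernel

theorem c11b_1011 : go p11b 60 0x32291b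
    2899102924 107374183 (-3232706949) 140552477 5340994091 281104953 = 1 := by decide +kernel

theorem c11b_119 : go p11b 60 0xd
    2362232014 214748365 (-6465413901) 281104953 5903203997 281104953 = 1 := by decide +kernel

theorem c11b_1059 : go p11b 60 0xd
    3650722202 214748365 (-6465413901) 281104953 5903203997 281104953 = 1 := by decide +kernel

end Pool.Agent.MP_5cfbf6_gt.P8.K2
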