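import Pool.Agent.MP_5cfbf6_gt.P8.KP11b

set_option autoImplicit false

namespace Pool.Agent.MP_5cfbf6_gt.P8.K2

theorem c11b_456 : go p11b 60 0x32190b90c6a47224a431c8d4864293
    1342177281 53687092 (-1405524761) 281104953 5903203997 281104953 = 1 := by decide +kernel

theorem c11b_592 : go p11b 60 0xc90b90990c85484b91484c8a425a
    1986422375 53687092 2108287143 140552477 2389392093 140552477 = 1 := by decide +kernel

theorem c11b_728 : go p11b 60 0x32190c46432188b90c88c86445a
    2523293287 53687092 1546077239 140552477 2670497045 140552477 = 1 := by decide +kernel

theorem c11b_1041 : go p11b 60 0xc8642e43216a432425c8642d3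
    2791728742 214748365 (-4216574283) 281104953 6184308949 562209905 = 1 := by decide +kernel

theorem c11b_244 : go p11b 60 0x32291290c85191489486448a
    1395864372 107374183 562209905 562209905 3654364379 281104953 = 1 := by decide +kernel

theorem c11b_714 : go p11b 60 0x32190b90c85a90c85c8642d1
    2308544923 53687092 1756905953 70276239 2881325759 70276239 = 1 := by decide +kernel

theorem c11b_1152 : go p11b 60 0x3218645212e430c8642a445a
    2845415833 53687092 (-983867331) 140552477 4357126759 140552477 = 1 := by decide +kernel

theorem c11b_1566 : go p11b 60 0x32190a90c85391c8d48e4489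
    3113851290 107374183 1264972287 140552477 3794916855 140552477 = 1 := by decide +kernel

theorem c11b_824 : go p11b 60 0xc8a42643212e450c86425a
    2415919105 53687092 1264972287 140552477 3794916855 140552477 = 1 := by decide +kernel

theorem c11b_149 : go p11b 60 0x32190990c85a90c8642d3
    2040109466 107374183 (-3794916855) 140552477 5903203997 281104953 = 1 := by decide +kernel

theorem c11b_562 : go p11b 60 0x32190b90c6a43217218d1
    2469606196 107374183 (-140552475) 140552477 4076021807 140552477 = 1 := by decide +kernel

theorem c11b_1616 : go p11b 60 0x32190b90c85a9217242d1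
    2899102924 107374183 (-1264972285) 140552477 4919336663 140552477 = 1 := by decide +kernel

theorem c11b_1682 : go p11b 60 0xc90b9216a43217242d1
    2684354560 107374183 421657429 140552477 4919336663 140552477 = 1 := by decide +kernel

theorem c11b_454 : go p11b 60 0x32290c852914864293
    1664299827 53687092 (-281104951) 281104953 5340994091 281104953 = 1 := by decide +kernel

theorem c11b_1343 : go p11b 60 0x32291190c85486428b
    2630667469 53687092 773038619 70276239 4357126759 140552477 = 1 := by decide +kernel

theorem c11b_339 : go p11b 60 0xc90a90c85c90c652
    885837005 26843546 (-632486141) 70276239 5692375283 70276239 = 1 := by decide +kernel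

theorem c11b_1262 : go p11b 60 0xc86484b92132445a
    3167538381 53687092 (-140552475) 140552477 4076021807 140552477 = 1 := by decide +kernel

theorem c11b_1160 : go p11b 60 0x32190c2e432185a
    2845415833 53687092 (-702762379) 140552477 4357126759 140552477 = 1 := by decide +kernel

theorem c11b_1386 : go p11b 60 0xc8a431190c84b
    2738041651 53687092 1194696049 70276239 3513811903 140552477 = 1 := by decide +kernel

theorem c11b_1653 : go p11b 60 0x32190b90c85a
    3328599654 107374183 (-1967734665) 281104953 4778784187 281104953 = 1 := by decide +kernel

theorem c11b_1198 : go p11b 60 0x32390a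
    3167538381 53687092 (-1546077237) 140552477 4076021807 140552477 = 1 := by decide +kernel

theorem c11b_120 : go p11b 60 0xd
    2362232014 214748365 (-6605966377) 140552477 6324861425 140552477 = 1 := by decide +kernel

theorem c11b_1077 : go p11b 60 0xd
    2684354560 107374183 (-1967734665) 281104953 3654364379 281104953 = 1 := by decide +kernel

end Pool.Agent.MP_5cfbf6_gt.P8.K2
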