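import Pool.Agent.MP_5cfbf6_gt.P8.KP11b

set_option autoImplicit false

namespace Pool.Agent.MP_5cfbf6_gt.P8.K2

theorem c11b_530 : go p11b 60 0x32190a91191488b90c85488c8a445a
    1825361102 107374183 (-281104951) 281104953 4216574283 281104953 = 1 := by decide +kernel

theorem c11b_617 : go p11b 60 0xc8e46a43214643217242d48e468b
    2040109466 107374183 983867333 140552477 3654364379 281104953 = 1 := by decide +kernel

theorem c11b_765 : go p11b 60 0x32190a91391c85190c84c864253
    2254857832 107374183 140552477 140552477 3654364379 281104953 = 1 := by decide +kernel

theorem c11b_1044 : go p11b 60 0xc8644e47242d190c9117242d2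
    2684354560 107374183 (-3092154473) 281104953 5762651521 140552477 = 1 := by decide +kernel

theorem c11b_245 : go p11b 60 0x32291391489991c8d48a44ca
    1395864372 107374183 562209905 562209905 4216574283 281104953 = 1 := by decide +kernel

theorem c11b_716 : go p11b 60 0x32190b90c85a90c85c8642d1
    2308544923 53687092 1897458429 70276239 2881325759 70276239 = 1 := by decide +kernel

theorem c11b_1159 : go p11b 60 0x32190a9214647242d48e468b
    2952790015 53687092 (-632486141) 70276239 4076021807 140552477 = 1 := by decide +kernel

theorem c11b_1572 : go p11b 60 0x32190991484b90c84c86425a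
    3274912563 53687092 1264972287 140552477 3513811903 140552477 = 1 := by decide +kernel

theorem c11b_855 : go p11b 60 0xc90a90c85390c85486449a
    1879048193 53687092 (-281104951) 281104953 5340994091 281104953 = 1 := by decide +kernel

theorem c11b_176 : go p11b 60 0x32190b90992152429c8ca
    2469606196 107374183 (-3232706949) 140552477 5200441615 140552477 = 1 := by decide +kernel

theorem c11b_634 : go p11b 60 0x32190990c84b90c32185a
    2201170741 53687092 983867333 140552477 2951601997 140552477 = 1 := by decide +kernel

theorem c11b_1618 : go p11b 60 0x32290c85190c8d486428b
    2899102924 107374183 (-1264972285) 140552477 5340994091 281104953 = 1 := by decide +kernel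

theorem c11b_1690 : go p11b 60 0xc8a485190c8548e468b
    2684354560 107374183 421657429 140552477 5340994091 281104953 = 1 := by decide +kernel

theorem c11b_460 : go p11b 60 0x32190b90c85a91c8d2
    1342177281 53687092 (-1405524761) 281104953 6324861425 140552477 = 1 := by decide +kernel

theorem c11b_1349 : go p11b 60 0x32291190c85486428b
    2630667469 53687092 913591095 70276239 4357126759 140552477 = 1 := by decide +kernel

theorem c11b_361 : go p11b 60 0xc91a9217219212d2
    885837005 26843546 (-632486141) 70276239 5973480235 70276239 = 1 := by decide +kernel

theorem c11b_1290 : go p11b 60 0xc8639216647218ca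
    2845415833 53687092 983867333 140552477 3232706949 140552477 = 1 := by decide +kernel

theorem c11b_1179 : go p11b 60 0x32290990c8d488b
    2845415833 53687092 (-70276237) 70276239 3794916855 140552477 = 1 := by decide +kernel

theorem c11b_1410 : go p11b 60 0xc8e466485c8ca
    2952790015 53687092 1264972287 140552477 3794916855 140552477 = 1 := by decide +kernel

theorem c11b_1667 : go p11b 60 0x3242e47242d1
    3113851290 107374183 (-702762379) 140552477 4919336663 140552477 = 1 := by decide +kernel

theorem c11b_1201 : go p11b 60 0x32390a
    3167538381 53687092 (-1546077237) 140552477 4357126759 140552477 = 1 := by decide +kernel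

theorem c11b_495 : go p11b 60 0xd
    1073741824 214748365 1686629715 562209905 5059889139 562209905 = 1 := by decide +kernel

theorem c11b_1088 : go p11b 60 0xd
    2899102924 107374183 (-1967734665) 281104953 3654364379 281104953 = 1 := by decide +kernel

end Pool.Agent.MP_5cfbf6_gt.P8.K2
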