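import Pool.Agent.MP_5cfbf6_gt.P8.KP11b

set_option autoImplicit false

namespace Pool.Agent.MP_5cfbf6_gt.P8.K2

theorem c11b_552 : go p11b 60 0x32190b90c85a91c8d191c8d48a44cb
    2254857832 107374183 (-421657427) 140552477 4216574283 281104953 = 1 := by decide +kernel

theorem c11b_712 : go p11b 60 0xc8e46a43214643217242d48e468b
    2201170741 53687092 1756905953 70276239 2951601997 140552477 = 1 := by decide +kernel

theorem c11b_766 : go p11b 60 0x32190a91391c8d191c8d48e468b
    2254857832 107374183 421657429 140552477 3654364379 281104953 = 1 := by decide +kernel

theorem c11b_1049 : go p11b 60 0xc8a451391490c8517219222d3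
    2899102924 107374183 (-2529944569) 281104953 6184308949 562209905 = 1 := by decide +kernel

theorem c11b_255 : go p11b 60 0x32290b90c6a4312914854893
    912680551 53687092 (-1405524761) 281104953 5340994091 281104953 = 1 := by decide +kernel

theorem c11b_735 : go p11b 60 0x32190b90c85a90c85c8642d1
    2415919105 53687092 1897458429 70276239 2600220807 70276239 = 1 := by decide +kernel

theorem c11b_1165 : go p11b 60 0x32190b90c85a90c85c8642d1
    2952790015 53687092 (-351381189) 70276239 3584088141 70276239 = 1 := by decide +kernel

theorem c11b_1576 : go p11b 60 0x32426484a90c90b32190c453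
    3382286745 53687092 1546077239 140552477 3513811903 140552477 = 1 := by decide +kernel

theorem c11b_868 : go p11b 60 0xc8642a43214e431486429a
    1771674011 53687092 (-1405524761) 281104953 6465413901 281104953 = 1 := by decide +kernel

theorem c11b_182 : go p11b 60 0x32291391991489c8642ca
    2254857832 107374183 (-3794916855) 140552477 5762651521 140552477 = 1 := by decide +kernel

theorem c11b_635 : go p11b 60 0x32190991488b92132425a
    2308544923 53687092 983867333 140552477 2951601997 140552477 = 1 := by decide +kernel

theorem c11b_1626 : go p11b 60 0x32290c85190c8548e428b
    2684354560 107374183 (-421657427) 140552477 5340994091 281104953 = 1 := by decide +kernel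

theorem c11b_1692 : go p11b 60 0xc8642643232a47242d1
    2899102924 107374183 140552477 140552477 4638231711 140552477 = 1 := by decide +kernel

theorem c11b_475 : go p11b 60 0x32290c852914864293
    1449551463 53687092 (-281104951) 281104953 5903203997 281104953 = 1 := by decide +kernel

theorem c11b_1350 : go p11b 60 0x32291190c85486428b
    2630667469 53687092 1054143571 70276239 4357126759 140552477 = 1 := by decide +kernel

theorem c11b_425 : go p11b 60 0xc8646a431c8642d2
    1127428915 53687092 (-281104951) 281104953 6324861425 140552477 = 1 := by decide +kernel

theorem c11b_1291 : go p11b 60 0xc8642e430c86425a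
    2952790015 53687092 983867333 140552477 3232706949 140552477 = 1 := by decide +kernel

theorem c11b_1185 : go p11b 60 0x32190c2e432185a
    2845415833 53687092 (-421657427) 140552477 4357126759 140552477 = 1 := by decide +kernel

theorem c11b_1509 : go p11b 60 0xc8e485a90c851
    3060164199 53687092 1827182191 140552477 2951601997 140552477 = 1 := by decide +kernel

theorem c11b_1693 : go p11b 60 0x32190a90c851
    2899102924 107374183 140552477 140552477 4919336663 140552477 = 1 := by decide +kernel

theorem c11b_1656 : go p11b 60 0x32190a
    3167538381 53687092 (-1546077237) 140552477 4638231711 140552477 = 1 := by decide +kernel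

theorem c11b_500 : go p11b 60 0xd
    966367642 107374183 843314857 281104953 6465413901 281104953 = 1 := by decide +kernel

theorem c11b_1089 : go p11b 60 0xd
    2899102924 107374183 (-2108287141) 140552477 4076021807 140552477 = 1 := by decide +kernel

end Pool.Agent.MP_5cfbf6_gt.P8.K2
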