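import Pool.Agent.MP_5cfbf6_gt.P8.KP11b

set_option autoImplicit false

namespace Pool.Agent.MP_5cfbf6_gt.P8.K2

theorem c11b_559 : go p11b 60 0x32391991c8ca90c85c8642d48a468b
    2469606196 107374183 (-702762379) 140552477 4216574283 281104953 = 1 := by decide +kernel

theorem c11b_749 : go p11b 60 0xc8a431191486428b90c88c86445a
    2415919105 53687092 1264972287 140552477 2951601997 140552477 = 1 := by decide +kernel

theorem c11b_786 : go p11b 60 0x32190a91191484b91488c86425a
    2523293287 53687092 702762381 140552477 3794916855 140552477 = 1 := by decide +kernel

theorem c11b_1097 : go p11b 60 0xc91c88990c85a90c85c8642d1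
    2952790015 53687092 (-1897458427) 70276239 4427402997 70276239 = 1 := by decide +kernel

theorem c11b_287 : go p11b 60 0x32190a91c8d291485c8642d2
    1127428915 53687092 (-843314855) 281104953 5481546567 140552477 = 1 := by decide +kernel

theorem c11b_769 : go p11b 60 0x32190b90c85a90c85c8642d1
    2254857832 107374183 983867333 140552477 3513811903 140552477 = 1 := by decide +kernel

theorem c11b_1168 : go p11b 60 0x32190b90c85a90c85c8642d1
    2952790015 53687092 (-491933665) 70276239 3724640617 70276239 = 1 := by decide +kernel

theorem c11b_1608 : go p11b 60 0x32190c2e432425a9217242d1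
    2899102924 107374183 (-1827182189) 140552477 5200441615 140552477 = 1 := by decide +kernel

theorem c11b_887 : go p11b 60 0xc90990c84b90c85486429a
    2040109466 107374183 (-281104951) 281104953 6465413901 281104953 = 1 := by decide +kernel

theorem c11b_189 : go p11b 60 0x3244e432166484c91425a
    2469606196 107374183 (-3513811903) 140552477 5762651521 140552477 = 1 := by decide +kernel

theorem c11b_736 : go p11b 60 0x3242e485a90c85c8642d1
    2415919105 53687092 1897458429 70276239 2740773283 70276239 = 1 := by decide +kernel

theorem c11b_1634 : go p11b 60 0x32190b9216a485c8642d1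
    2899102924 107374183 (-140552475) 140552477 4638231711 140552477 = 1 := by decide +kernel

theorem c11b_1735 : go p11b 60 0xc8e46a452189c8642d1
    3543348020 107374183 281104953 281104953 3654364379 281104953 = 1 := by decide +kernel

theorem c11b_486 : go p11b 60 0x32290c852914864293
    1664299827 53687092 (-281104951) 281104953 5903203997 281104953 = 1 := by decide +kernel

theorem c11b_1359 : go p11b 60 0x32291190c85486428b
    2952790015 53687092 210828715 70276239 3794916855 140552477 = 1 := by decide +kernel

theorem c11b_437 : go p11b 60 0xc8642a431391485a
    1610612736 107374183 (-1967734665) 281104953 5340994091 281104953 = 1 := by decide +kernel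

theorem c11b_1324 : go p11b 60 0xc90990b90c32185a
    2738041651 53687092 702762381 140552477 3513811903 140552477 = 1 := by decide +kernel

theorem c11b_1231 : go p11b 60 0x3219212e432425a
    3167538381 53687092 (-983867331) 140552477 4357126759 140552477 = 1 := by decide +kernel

theorem c11b_1550 : go p11b 60 0xc8642e432185a
    3060164199 53687092 983867333 140552477 3794916855 140552477 = 1 := by decide +kernel

theorem c11b_1742 : go p11b 60 0x32190a90c853
    3597035111 53687092 1405524763 281104953 3654364379 281104953 = 1 := by decide +kernel

theorem c11b_497 : go p11b 60 0x36c853b6c499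
    966367642 107374183 843314857 281104953 5903203997 281104953 = 1 := by decide +kernel

theorem c11b_1002 : go p11b 60 0xc865559aab
    2791728742 214748365 (-3654364379) 281104953 4778784187 281104953 = 1 := by decide +kernel

end Pool.Agent.MP_5cfbf6_gt.P8.K2
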