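import Pool.Agent.MP_5cfbf6_gt.P8.KP11b

set_option autoImplicit false

namespace Pool.Agent.MP_5cfbf6_gt.P8.K2

theorem c11b_566 : go p11b 60 0x32190a91190c85488b91484c8a425a
    1825361102 107374183 843314857 281104953 3092154473 281104953 = 1 := by decide +kernel

theorem c11b_756 : go p11b 60 0xc86446452190a2e432232290c45a
    2415919105 53687092 1546077239 140552477 3232706949 140552477 = 1 := by decide +kernel

theorem c11b_812 : go p11b 60 0x32190c84b90c85a90c85c8642d1
    2254857832 107374183 1264972287 140552477 3513811903 140552477 = 1 := by decide +kernel

theorem c11b_1111 : go p11b 60 0xc8e46a472346485c8d48e468b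
    2952790015 53687092 (-1194696047) 70276239 4076021807 140552477 = 1 := by decide +kernel

theorem c11b_301 : go p11b 60 0x3218a44e45226a45217228d2
    912680551 53687092 (-1967734665) 281104953 6605966377 140552477 = 1 := by decide +kernel

theorem c11b_795 : go p11b 60 0x32190990c84b90c84c86425a
    2523293287 53687092 140552477 140552477 4357126759 140552477 = 1 := by decide +kernel

theorem c11b_1175 : go p11b 60 0x32190b90c85a90c85c8642d1
    2952790015 53687092 (-210828713) 70276239 3584088141 70276239 = 1 := by decide +kernel

theorem c11b_1615 : go p11b 60 0x3218645212e430c8642a425a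
    2952790015 53687092 (-1264972285) 140552477 4638231711 140552477 = 1 := by decide +kernel

theorem c11b_905 : go p11b 60 0xc8642e43216a485c8642d1
    2254857832 107374183 (-140552475) 140552477 4919336663 140552477 = 1 := by decide +kernel

theorem c11b_197 : go p11b 60 0x3219215212e48548a445a
    2469606196 107374183 (-2529944569) 281104953 5903203997 281104953 = 1 := by decide +kernel

theorem c11b_773 : go p11b 60 0x32190b90c85a914864299
    2254857832 107374183 421657429 140552477 4076021807 140552477 = 1 := by decide +kernel

theorem c11b_1641 : go p11b 60 0x32190b90c85a9217242d2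
    2684354560 107374183 (-1686629713) 562209905 6465413901 281104953 = 1 := by decide +kernel

theorem c11b_1430 : go p11b 60 0xc90990ca89aea95484d72186b351aea
    3221225472 214748365 843314857 281104953 2529944569 281104953 = 1 := by decide +kernel

theorem c11b_316 : go p11b 60 0x32290b90c85a914852
    1127428915 53687092 (-1405524761) 281104953 5762651521 140552477 = 1 := by decide +kernel

theorem c11b_1094 : go p11b 60 0x32190a91190c85488b
    2845415833 53687092 (-1897458427) 70276239 4357126759 140552477 = 1 := by decide +kernel

theorem c11b_1278 : go p11b 60 0xc8e46a4723465721353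
    2952790015 53687092 210828715 70276239 3232706949 140552477 = 1 := by decide +kernel

theorem c11b_637 : go p11b 60 0xc90990c84b90c85a
    2308544923 53687092 983867333 140552477 3232706949 140552477 = 1 := by decide +kernel

theorem c11b_560 : go p11b 60 0x32390c66485c8ca
    2469606196 107374183 (-421657427) 140552477 4076021807 140552477 = 1 := by decide +kernel

theorem c11b_271 : go p11b 60 0xc86472146484b
    912680551 53687092 (-948729212) 35138120 5481546567 140552477 = 1 := by decide +kernel

theorem c11b_155 : go p11b 60 0x32291391489a
    1825361102 107374183 (-3092154473) 281104953 6465413901 281104953 = 1 := by decide +kernel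

theorem c11b_819 : go p11b 60 0xd90c85c8ca
    2254857832 107374183 1264972287 140552477 4357126759 140552477 = 1 := by decide +kernel

theorem c11b_1399 : go p11b 60 0xd
    2684354560 107374183 1967734667 281104953 3654364379 281104953 = 1 := by decide +kernel

end Pool.Agent.MP_5cfbf6_gt.P8.K2
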