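import Pool.Agent.MP_5cfbf6_gt.P8.KP11b

set_option autoImplicit false

namespace Pool.Agent.MP_5cfbf6_gt.P8.K2

theorem c11b_600 : go p11b 60 0x32186450b90c32185a90c85c8642d1
    2040109466 107374183 1264972287 140552477 2951601997 140552477 = 1 := by decide +kernel

theorem c11b_758 : go p11b 60 0xc8642a472346472352190b92168b
    2415919105 53687092 1756905953 70276239 2951601997 140552477 = 1 := by decide +kernel

theorem c11b_897 : go p11b 60 0x32190a9215222e485484c8a445a
    2469606196 107374183 (-1967734665) 281104953 5340994091 281104953 = 1 := by decide +kernel

theorem c11b_1181 : go p11b 60 0xc8642a432146472352392168b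
    2952790015 53687092 (-70276237) 70276239 3794916855 140552477 = 1 := by decide +kernel

theorem c11b_327 : go p11b 60 0x32291391489a90c85c8642d2
    1234803097 53687092 (-1405524761) 281104953 6605966377 140552477 = 1 := by decide +kernel

theorem c11b_797 : go p11b 60 0x32291191488b91488c86425a
    2523293287 53687092 421657429 140552477 4076021807 140552477 = 1 := by decide +kernel

theorem c11b_1176 : go p11b 60 0x32190b90c85a90c85c8642d1
    2952790015 53687092 (-70276237) 70276239 3443535665 70276239 = 1 := by decide +kernel

theorem c11b_1617 : go p11b 60 0x32190a90c4647242d486468b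
    2899102924 107374183 (-1546077237) 140552477 5340994091 281104953 = 1 := by decide +kernel

theorem c11b_910 : go p11b 60 0xc86426484a90c84c864253
    2469606196 107374183 (-983867331) 140552477 4778784187 281104953 = 1 := by decide +kernel

theorem c11b_242 : go p11b 60 0x32291390c85a90c85c8d1
    1610612736 107374183 1405524763 281104953 3092154473 281104953 = 1 := by decide +kernel

theorem c11b_775 : go p11b 60 0x32190b90c85a914864299
    2254857832 107374183 702762381 140552477 4076021807 140552477 = 1 := by decide +kernel

theorem c11b_1642 : go p11b 60 0x3242643222e484c86445a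
    2899102924 107374183 (-1967734665) 281104953 5903203997 281104953 = 1 := by decide +kernel

theorem c11b_235 : go p11b 60 0x36c562762b132ac8a44e4522653
    1181116006 107374183 1686629715 562209905 3935469331 562209905 = 1 := by decide +kernel

theorem c11b_92 : go p11b 60 0x32190a91390c85489a
    1610612736 107374183 (-3654364379) 281104953 6465413901 281104953 = 1 := by decide +kernel

theorem c11b_896 : go p11b 60 0x32190c2a472352428b
    2469606196 107374183 (-1264972285) 140552477 4778784187 281104953 = 1 := by decide +kernel

theorem c11b_1725 : go p11b 60 0x32291c8919148e448b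
    3489660929 53687092 1264972287 140552477 3092154473 281104953 = 1 := by decide +kernel

theorem c11b_651 : go p11b 60 0x32190b95a90c85cad1
    2308544923 53687092 1475801001 70276239 2600220807 70276239 = 1 := by decide +kernel

theorem c11b_34 : go p11b 60 0x3218e431a91c8d3
    1181116006 107374183 (-4638231711) 140552477 6465413901 281104953 = 1 := by decide +kernel

theorem c11b_1680 : go p11b 60 0x32391a9217242d1
    2684354560 107374183 140552477 140552477 4919336663 140552477 = 1 := by decide +kernel

theorem c11b_509 : go p11b 60 0xd90a913b14899
    1395864372 107374183 843314857 281104953 5340994091 281104953 = 1 := by decide +kernel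

theorem c11b_1216 : go p11b 60 0xc90d46484d751aea
    3113851290 107374183 (-702762379) 140552477 3513811903 140552477 = 1 := by decide +kernel

theorem c11b_1699 : go p11b 60 0xd
    2791728742 214748365 1686629715 562209905 5059889139 562209905 = 1 := by decide +kernel

end Pool.Agent.MP_5cfbf6_gt.P8.K2
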