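import Pool.Agent.MP_5cfbf6_gt.P8.KP11b

set_option autoImplicit false

namespace Pool.Agent.MP_5cfbf6_gt.P8.K2

theorem c11b_626 : go p11b 60 0x32391a90c85190c85c8642d48e468b
    2040109466 107374183 1264972287 140552477 3654364379 281104953 = 1 := by decide +kernel

theorem c11b_838 : go p11b 60 0xc8642642a452188b90c85486429a
    1825361102 107374183 (-1405524761) 281104953 4778784187 281104953 = 1 := by decide +kernel

theorem c11b_921 : go p11b 60 0x32190a92132425390c85486429a
    2254857832 107374183 (-1405524761) 281104953 5903203997 281104953 = 1 := by decide +kernel

theorem c11b_1230 : go p11b 60 0xc8642a485191486428c86428b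
    3060164199 53687092 (-913591093) 70276239 4357126759 140552477 = 1 := by decide +kernel

theorem c11b_344 : go p11b 60 0x32190a90c85390c8d486429a
    939524097 26843546 (-773038617) 70276239 5762651521 140552477 = 1 := by decide +kernel

theorem c11b_799 : go p11b 60 0x32291191488b91488c8a445a
    2523293287 53687092 421657429 140552477 4357126759 140552477 = 1 := by decide +kernel

theorem c11b_1177 : go p11b 60 0x32190b90c85a90c85c8642d1
    2952790015 53687092 (-70276237) 70276239 3584088141 70276239 = 1 := by decide +kernel

theorem c11b_1632 : go p11b 60 0x3242e43216a432425c8642d1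
    2899102924 107374183 (-421657427) 140552477 4638231711 140552477 = 1 := by decide +kernel

theorem c11b_915 : go p11b 60 0xc8642e485a90c85c8642d1
    2469606196 107374183 (-140552475) 140552477 4919336663 140552477 = 1 := by decide +kernel

theorem c11b_248 : go p11b 60 0x32190b90c85a91c8642d1
    1610612736 107374183 281104953 281104953 4216574283 281104953 = 1 := by decide +kernel

theorem c11b_777 : go p11b 60 0x32190b90c85a914864299
    2254857832 107374183 983867333 140552477 4076021807 140552477 = 1 := by decide +kernel

theorem c11b_1644 : go p11b 60 0x3242e485a921722921652
    2899102924 107374183 (-1686629713) 562209905 6465413901 281104953 = 1 := by decide +kernel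

theorem c11b_250 : go p11b 60 0x36c562762b132ac8a44e4522653
    1395864372 107374183 1686629715 562209905 3935469331 562209905 = 1 := by decide +kernel

theorem c11b_95 : go p11b 60 0x32291291391485489a
    1342177281 53687092 (-2529944569) 281104953 6465413901 281104953 = 1 := by decide +kernel

theorem c11b_900 : go p11b 60 0x32190b90c85991c8ca
    2254857832 107374183 (-702762379) 140552477 4638231711 140552477 = 1 := by decide +kernel

theorem c11b_1730 : go p11b 60 0x32446488b92232445a
    3597035111 53687092 1967734667 281104953 2529944569 281104953 = 1 := by decide +kernel

theorem c11b_660 : go p11b 60 0x32190990d4e432135a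
    2281701377 26843546 1756905953 70276239 2459668331 70276239 = 1 := by decide +kernel

theorem c11b_52 : go p11b 60 0x32190b92132445a
    1395864372 107374183 (-4919336663) 140552477 6324861425 140552477 = 1 := by decide +kernel

theorem c11b_1684 : go p11b 60 0x3219212e432425a
    2738041651 53687092 702762381 140552477 4638231711 140552477 = 1 := by decide +kernel

theorem c11b_587 : go p11b 60 0xc8e56a432146b
    2093796557 53687092 1756905953 70276239 2389392093 140552477 = 1 := by decide +kernel

theorem c11b_609 : go p11b 60 0x36db218548612d3
    2040109466 107374183 2108287143 140552477 3092154473 281104953 = 1 := by decide +kernel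

theorem c11b_1453 : go p11b 60 0xd
    3328599654 107374183 1264972287 140552477 2389392093 140552477 = 1 := by decide +kernel

end Pool.Agent.MP_5cfbf6_gt.P8.K2
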