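import Pool.Agent.MP_5cfbf6_gt.P8.KP11b

set_option autoImplicit false

namespace Pool.Agent.MP_5cfbf6_gt.P8.K2

theorem c11b_665 : go p11b 60 0x32190990c84b90c85a90c85c8642d1
    2201170741 53687092 1756905953 70276239 2600220807 70276239 = 1 := by decide +kernel

theorem c11b_881 : go p11b 60 0xc8a44e45226a452272190a9214d1
    1825361102 107374183 (-281104951) 281104953 6465413901 281104953 = 1 := by decide +kernel

theorem c11b_926 : go p11b 60 0x32190c85390c89a90c85c8642d2
    2469606196 107374183 (-1686629713) 562209905 6465413901 281104953 = 1 := by decide +kernel

theorem c11b_1263 : go p11b 60 0xc90b90c85a90c85c8643212d1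
    3113851290 107374183 (-140552475) 140552477 4357126759 140552477 = 1 := by decide +kernel

theorem c11b_350 : go p11b 60 0x3245242a43132648a452264b
    885837005 26843546 (-860883914) 17569060 5973480235 70276239 = 1 := by decide +kernel

theorem c11b_803 : go p11b 60 0x32190991484b90c84c86425a
    2415919105 53687092 702762381 140552477 4357126759 140552477 = 1 := by decide +kernel

theorem c11b_1203 : go p11b 60 0x32190b90c85a90c85c8642d3
    3033320653 26843546 (-1194696047) 70276239 4076021807 140552477 = 1 := by decide +kernel

theorem c11b_1639 : go p11b 60 0x3219215212e432152292145a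
    2684354560 107374183 (-1967734665) 281104953 5903203997 281104953 = 1 := by decide +kernel

theorem c11b_916 : go p11b 60 0xc86426484a90c84c864253
    2469606196 107374183 (-983867331) 140552477 5340994091 281104953 = 1 := by decide +kernel

theorem c11b_256 : go p11b 60 0x32190b91a90c4a4314893
    1020054733 53687092 (-1405524761) 281104953 5340994091 281104953 = 1 := by decide +kernel

theorem c11b_780 : go p11b 60 0x32190b90c6a4321521899
    2469606196 107374183 140552477 140552477 3794916855 140552477 = 1 := by decide +kernel

theorem c11b_1672 : go p11b 60 0x32292146432272392168b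
    3113851290 107374183 (-140552475) 140552477 4778784187 281104953 = 1 := by decide +kernel

theorem c11b_11 : go p11b 60 0xc8a446552a2e485486568d6ab
    1181116006 107374183 (-6605966377) 140552477 6465413901 281104953 = 1 := by decide +kernel

theorem c11b_66 : go p11b 60 0x32426392231a90c853
    966367642 107374183 (-4357126759) 140552477 6465413901 281104953 = 1 := by decide +kernel

theorem c11b_789 : go p11b 60 0x3218643212e430c85a
    2415919105 53687092 983867333 140552477 3794916855 140552477 = 1 := by decide +kernel

theorem c11b_1637 : go p11b 60 0x32190990c85486448b
    2899102924 107374183 (-702762379) 140552477 5340994091 281104953 = 1 := by decide +kernel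

theorem c11b_104 : go p11b 60 0xc86426552a2e452235a
    1825361102 107374183 (-6605966377) 140552477 6605966377 140552477 = 1 := by decide +kernel

theorem c11b_1485 : go p11b 60 0xc8642e435a90c851
    3060164199 53687092 1827182191 140552477 2389392093 140552477 = 1 := by decide +kernel

theorem c11b_504 : go p11b 60 0x36c85489ab21724293
    1234803097 53687092 281104953 281104953 6465413901 281104953 = 1 := by decide +kernel

theorem c11b_1027 : go p11b 60 0x3218a431391a
    2952790015 53687092 (-2389392093) 140552477 4638231711 140552477 = 1 := by decide +kernel

theorem c11b_101 : go p11b 60 0xcaea92135d46aaeaaea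
    1932735284 214748365 (-5622099044) 1124419810 5059889139 562209905 = 1 := by decide +kernel

theorem c11b_506 : go p11b 60 0xd
    1073741824 214748365 1686629715 562209905 6184308949 562209905 = 1 := by decide +kernel

theorem c11b_1398 : go p11b 60 0xd
    2684354560 107374183 1616353477 70276239 3794916855 140552477 = 1 := by decide +kernel

end Pool.Agent.MP_5cfbf6_gt.P8.K2
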