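import Pool.Agent.MP_5cfbf6_gt.P8.KP11b

set_option autoImplicit false

namespace Pool.Agent.MP_5cfbf6_gt.P8.K2

theorem c11b_700 : go p11b 60 0x3218a446432152188b91488c8a445a
    2201170741 53687092 1264972287 140552477 2951601997 140552477 = 1 := by decide +kernel

theorem c11b_886 : go p11b 60 0xc8642a432425390c85490992129a
    2040109466 107374183 (-843314855) 281104953 6465413901 281104953 = 1 := by decide +kernel

theorem c11b_933 : go p11b 60 0x32190a92132425390c85486429a
    2469606196 107374183 (-843314855) 281104953 5903203997 281104953 = 1 := by decide +kernel

theorem c11b_1271 : go p11b 60 0xc90a90b90c7232a43148a4259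
    2684354560 107374183 702762381 140552477 3232706949 140552477 = 1 := by decide +kernel

theorem c11b_357 : go p11b 60 0x32391a91489a91c8d48a44d3
    939524097 26843546 (-913591093) 70276239 6043756473 140552477 = 1 := by decide +kernel

theorem c11b_806 : go p11b 60 0x32290991484b91484c8a425a
    2415919105 53687092 983867333 140552477 4076021807 140552477 = 1 := by decide +kernel

theorem c11b_1206 : go p11b 60 0x32190b90c85a90c85c8642d3
    3033320653 26843546 (-1335248523) 70276239 4357126759 140552477 = 1 := by decide +kernel

theorem c11b_1645 : go p11b 60 0x32190a90c88b90c85486445a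
    2684354560 107374183 (-843314855) 281104953 5903203997 281104953 = 1 := by decide +kernel

theorem c11b_944 : go p11b 60 0xc8642a485190c85486428b
    2040109466 107374183 140552477 140552477 5340994091 281104953 = 1 := by decide +kernel

theorem c11b_273 : go p11b 60 0x32290c85291c8d48e4292
    885837005 26843546 (-702762379) 140552477 5411270329 70276239 = 1 := by decide +kernel

theorem c11b_781 : go p11b 60 0x32190a90c85390c854899
    2469606196 107374183 421657429 140552477 3513811903 140552477 = 1 := by decide +kernel

theorem c11b_1685 : go p11b 60 0x3242e485a90c85c8642d1
    2684354560 107374183 702762381 140552477 4919336663 140552477 = 1 := by decide +kernel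

theorem c11b_62 : go p11b 60 0x3239216a4321721ad295d553
    1181116006 107374183 (-3935469331) 562209905 5059889139 562209905 = 1 := by decide +kernel

theorem c11b_1487 : go p11b 60 0xc8642a4521264321353
    3167538381 53687092 1897458429 70276239 2389392093 140552477 = 1 := by decide +kernel

theorem c11b_793 : go p11b 60 0x32190990c84b90c85a
    2523293287 53687092 140552477 140552477 4076021807 140552477 = 1 := by decide +kernel

theorem c11b_1643 : go p11b 60 0x32190c84b90c86445a
    2899102924 107374183 (-1405524761) 281104953 5903203997 281104953 = 1 := by decide +kernel

theorem c11b_1428 : go p11b 60 0x32190a90c85c86b46b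
    3328599654 107374183 140552477 140552477 3092154473 281104953 = 1 := by decide +kernel

theorem c11b_678 : go p11b 60 0x32291190d4e452235a
    2228014287 26843546 2038010905 70276239 2319115855 70276239 = 1 := by decide +kernel

theorem c11b_1759 : go p11b 60 0xd90c89d8a43214ca
    3650722202 214748365 1124419810 1124419810 6184308949 562209905 = 1 := by decide +kernel

theorem c11b_324 : go p11b 60 0x32291391485a
    1127428915 53687092 (-1546077237) 140552477 6605966377 140552477 = 1 := by decide +kernel

theorem c11b_1100 : go p11b 60 0xc86baa5721351aeaaea
    2899102924 107374183 (-1405524761) 281104953 3654364379 281104953 = 1 := by decide +kernel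

theorem c11b_836 : go p11b 60 0xd
    2469606196 107374183 1967734667 281104953 4216574283 281104953 = 1 := by decide +kernel

end Pool.Agent.MP_5cfbf6_gt.P8.K2
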