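import Pool.Agent.MP_5cfbf6_gt.P8.KP11b

set_option autoImplicit false

namespace Pool.Agent.MP_5cfbf6_gt.P8.K2

theorem c11b_708 : go p11b 60 0x32391a91c8d192172352190b92168b
    2308544923 53687092 1616353477 70276239 2951601997 140552477 = 1 := by decide +kernel

theorem c11b_911 : go p11b 60 0xc8e485991c8ca91c8642cc864653
    2469606196 107374183 (-702762379) 140552477 4778784187 281104953 = 1 := by decide +kernel

theorem c11b_934 : go p11b 60 0x32190991488b90c88c8a432145a
    2469606196 107374183 (-281104951) 281104953 5903203997 281104953 = 1 := by decide +kernel

theorem c11b_1317 : go p11b 60 0xc90990b90c85a90c85c8642d1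
    2684354560 107374183 140552477 140552477 3513811903 140552477 = 1 := by decide +kernel

theorem c11b_379 : go p11b 60 0x32446488a921913324322653
    885837005 26843546 (-878452974) 35138120 6254585187 70276239 = 1 := by decide +kernel

theorem c11b_807 : go p11b 60 0x32190a90c85190c85486428b
    2523293287 53687092 913591095 70276239 4076021807 140552477 = 1 := by decide +kernel

theorem c11b_1208 : go p11b 60 0x32390a90c85c8d390c52189a
    3087007745 26843546 (-1264972285) 140552477 4357126759 140552477 = 1 := by decide +kernel

theorem c11b_1676 : go p11b 60 0x32190c89990c85c8a43214cb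
    3221225472 214748365 (-1405524761) 281104953 6184308949 562209905 = 1 := by decide +kernel

theorem c11b_967 : go p11b 60 0xc8642643212e484c86425a
    2523293287 53687092 421657429 140552477 4638231711 140552477 = 1 := by decide +kernel

theorem c11b_276 : go p11b 60 0x32390c85a91489486429a
    939524097 26843546 (-702762379) 140552477 5481546567 140552477 = 1 := by decide +kernel

theorem c11b_788 : go p11b 60 0x32290990c2a4321324253
    2523293287 53687092 983867333 140552477 3513811903 140552477 = 1 := by decide +kernel

theorem c11b_1689 : go p11b 60 0x32290c85190c8548e468b
    2684354560 107374183 140552477 140552477 5340994091 281104953 = 1 := by decide +kernel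

theorem c11b_82 : go p11b 60 0x32390c6a4321722ad295d553
    1395864372 107374183 (-3935469331) 562209905 5059889139 562209905 = 1 := by decide +kernel

theorem c11b_1497 : go p11b 60 0xc8642e432146432135b
    3274912563 53687092 1897458429 70276239 2389392093 140552477 = 1 := by decide +kernel

theorem c11b_796 : go p11b 60 0x32186430b90c32185a
    2415919105 53687092 421657429 140552477 4076021807 140552477 = 1 := by decide +kernel

theorem c11b_1650 : go p11b 60 0x32191c85190c8e428b
    3113851290 107374183 (-2108287141) 140552477 4778784187 281104953 = 1 := by decide +kernel

theorem c11b_110 : go p11b 60 0x32190a90d4e432155a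
    1825361102 107374183 (-5340994091) 281104953 5903203997 281104953 = 1 := by decide +kernel

theorem c11b_684 : go p11b 60 0x32291190d4e452235a
    2281701377 26843546 2038010905 70276239 2319115855 70276239 = 1 := by decide +kernel

theorem c11b_240 : go p11b 60 0xc8a42e435a91cad1
    1610612736 107374183 1405524763 281104953 2529944569 281104953 = 1 := by decide +kernel

theorem c11b_329 : go p11b 60 0x3242642e431a
    885837005 26843546 (-948729212) 35138120 5692375283 70276239 = 1 := by decide +kernel

theorem c11b_1093 : go p11b 60 0xcaa1aea90c351aea
    2899102924 107374183 (-1827182189) 140552477 4076021807 140552477 = 1 := by decide +kernel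

theorem c11b_835 : go p11b 60 0xd
    2469606196 107374183 1546077239 140552477 4216574283 281104953 = 1 := by decide +kernel

end Pool.Agent.MP_5cfbf6_gt.P8.K2
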