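import Pool.Agent.MP_5cfbf6_gt.P8.KP11b

set_option autoImplicit false

namespace Pool.Agent.MP_5cfbf6_gt.P8.K2

theorem c11b_760 : go p11b 60 0x32191190c86428b90c88c86432145a
    2523293287 53687092 1827182191 140552477 2951601997 140552477 = 1 := by decide +kernel

theorem c11b_1014 : go p11b 60 0xc8a488b9216a43227242a45212d1
    2684354560 107374183 (-2951601997) 140552477 5481546567 140552477 = 1 := by decide +kernel

theorem c11b_1021 : go p11b 60 0x3242a430b91432285a91c8642d1
    2684354560 107374183 (-2389392093) 140552477 4919336663 140552477 = 1 := by decide +kernel

theorem c11b_1344 : go p11b 60 0xc86446452188b90c84c86445a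
    2738041651 53687092 702762381 140552477 4357126759 140552477 = 1 := by decide +kernel

theorem c11b_382 : go p11b 60 0x32291391489a90c85c8642d2
    939524097 26843546 (-983867331) 140552477 6254585187 70276239 = 1 := by decide +kernel

theorem c11b_808 : go p11b 60 0x32190a90c85190c85486428b
    2523293287 53687092 1054143571 70276239 4076021807 140552477 = 1 := by decide +kernel

theorem c11b_1214 : go p11b 60 0x32190b90c85990c88c8642ca
    3060164199 53687092 (-913591093) 70276239 3865193093 70276239 = 1 := by decide +kernel

theorem c11b_1677 : go p11b 60 0x32190c89990c85c8a43214cb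
    3221225472 214748365 (-843314855) 281104953 6184308949 562209905 = 1 := by decide +kernel

theorem c11b_1007 : go p11b 60 0xc86452146432428b91489a
    2738041651 53687092 (-2951601997) 140552477 4919336663 140552477 = 1 := by decide +kernel

theorem c11b_279 : go p11b 60 0x32390c85a90c85c8642d2
    1020054733 53687092 (-702762379) 140552477 5481546567 140552477 = 1 := by decide +kernel

theorem c11b_800 : go p11b 60 0x32190990c2e432132185a
    2415919105 53687092 702762381 140552477 4076021807 140552477 = 1 := by decide +kernel

theorem c11b_1704 : go p11b 60 0x32190c85190c85486428b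
    3113851290 107374183 421657429 140552477 4778784187 281104953 = 1 := by decide +kernel

theorem c11b_37 : go p11b 60 0x322911954a8b9217242cd6ab
    1395864372 107374183 (-6605966377) 140552477 6465413901 281104953 = 1 := by decide +kernel

theorem c11b_1714 : go p11b 60 0xc8642e46a4321721ad3
    3543348020 107374183 (-843314855) 281104953 3935469331 562209905 = 1 := by decide +kernel

theorem c11b_802 : go p11b 60 0x32190a91190c85488b
    2523293287 53687092 773038619 70276239 4076021807 140552477 = 1 := by decide +kernel

theorem c11b_1651 : go p11b 60 0x32290c52445c8642d1
    3113851290 107374183 (-1827182189) 140552477 4638231711 140552477 = 1 := by decide +kernel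

theorem c11b_169 : go p11b 60 0x32190a90d4e432155a
    2254857832 107374183 (-3092154473) 281104953 4778784187 281104953 = 1 := by decide +kernel

theorem c11b_685 : go p11b 60 0x32191190d4e432235a
    2335388469 26843546 2038010905 70276239 2319115855 70276239 = 1 := by decide +kernel

theorem c11b_576 : go p11b 60 0xd90b90c85ab1c8d1
    1825361102 107374183 2108287143 140552477 2670497045 140552477 = 1 := by decide +kernel

theorem c11b_334 : go p11b 60 0x3218e44a4513
    939524097 26843546 (-1054143569) 70276239 5762651521 140552477 = 1 := by decide +kernel

theorem c11b_638 : go p11b 60 0x32192126baabaaa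
    2469606196 107374183 562209905 562209905 2529944569 281104953 = 1 := by decide +kernel

theorem c11b_830 : go p11b 60 0xd
    2469606196 107374183 1967734667 281104953 3654364379 281104953 = 1 := by decide +kernel

end Pool.Agent.MP_5cfbf6_gt.P8.K2
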