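import Pool.Agent.MP_5cfbf6_gt.P8.KP11b

set_option autoImplicit false

namespace Pool.Agent.MP_5cfbf6_gt.P8.K2

theorem c11b_889 : go p11b 60 0x32190990a90c84c85390c85486429a
    2254857832 107374183 (-1405524761) 281104953 4778784187 281104953 = 1 := by decide +kernel

theorem c11b_1020 : go p11b 60 0xc86190c2e450c8a16a431c8642d1
    2684354560 107374183 (-2389392093) 140552477 4638231711 140552477 = 1 := by decide +kernel

theorem c11b_1038 : go p11b 60 0x32290990c85488b9227229214ca
    2845415833 53687092 (-2389392093) 140552477 5200441615 140552477 = 1 := by decide +kernel

theorem c11b_1357 : go p11b 60 0xc8642645212e45213242a425a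
    2845415833 53687092 140552477 140552477 3794916855 140552477 = 1 := by decide +kernel

theorem c11b_383 : go p11b 60 0x32190b90c85a90c85c8642d2
    939524097 26843546 (-983867331) 140552477 6395137663 70276239 = 1 := by decide +kernel

theorem c11b_823 : go p11b 60 0x32290991484a90c84c864253
    2523293287 53687092 1264972287 140552477 3513811903 140552477 = 1 := by decide +kernel

theorem c11b_1218 : go p11b 60 0x32190b90c85a90c85c8642d1
    3060164199 53687092 (-773038617) 70276239 3865193093 70276239 = 1 := by decide +kernel

theorem c11b_1678 : go p11b 60 0x32190c85190c85c90b92168b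
    3221225472 214748365 (-281104951) 281104953 6184308949 562209905 = 1 := by decide +kernel

theorem c11b_1012 : go p11b 60 0xc90a9214e485484c90a85a
    2630667469 53687092 (-2951601997) 140552477 5200441615 140552477 = 1 := by decide +kernel

theorem c11b_289 : go p11b 60 0x3242a43216a43217218d2
    1234803097 53687092 (-843314855) 281104953 5481546567 140552477 = 1 := by decide +kernel

theorem c11b_813 : go p11b 60 0x32190a90c8539217242d1
    2254857832 107374183 1264972287 140552477 3794916855 140552477 = 1 := by decide +kernel

theorem c11b_1739 : go p11b 60 0x32191390c85490b90c499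
    3543348020 107374183 843314857 281104953 4216574283 281104953 = 1 := by decide +kernel

theorem c11b_629 : go p11b 60 0xdb643212a452172190a2d2
    2040109466 107374183 1686629715 562209905 4216574283 281104953 = 1 := by decide +kernel

theorem c11b_1297 : go p11b 60 0xc8642644ec85c8642d1
    2684354560 107374183 2108287143 140552477 2670497045 140552477 = 1 := by decide +kernel

theorem c11b_575 : go p11b 60 0x32190b90c85a91c8d1
    1825361102 107374183 2108287143 140552477 2389392093 140552477 = 1 := by decide +kernel

theorem c11b_1392 : go p11b 60 0x32190a90c85991488b
    2630667469 53687092 1475801001 70276239 3513811903 140552477 = 1 := by decide +kernel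

theorem c11b_1377 : go p11b 60 0xc9099212e432185a
    2952790015 53687092 421657429 140552477 4076021807 140552477 = 1 := by decide +kernel

theorem c11b_1445 : go p11b 60 0x32390c85991c8ca
    3382286745 53687092 983867333 140552477 3232706949 140552477 = 1 := by decide +kernel

theorem c11b_1665 : go p11b 60 0xc90b9217242d1
    3113851290 107374183 (-983867331) 140552477 4919336663 140552477 = 1 := by decide +kernel

theorem c11b_1279 : go p11b 60 0x321909aa4309aea
    2899102924 107374183 421657429 140552477 2951601997 140552477 = 1 := by decide +kernel

theorem c11b_816 : go p11b 60 0x3643217242ca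
    2254857832 107374183 1546077239 140552477 3794916855 140552477 = 1 := by decide +kernel

end Pool.Agent.MP_5cfbf6_gt.P8.K2
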