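import Pool.Agent.MP_5cfbf6_gt.P8.KP11b

set_option autoImplicit false

namespace Pool.Agent.MP_5cfbf6_gt.P8.K2

theorem c11b_908 : go p11b 60 0x32391991c8ca9217242cc90b921653
    2254857832 107374183 (-421657427) 140552477 5340994091 281104953 = 1 := by decide +kernel

theorem c11b_1032 : go p11b 60 0xc8a19215212e431488c8642a445a
    2738041651 53687092 (-2670497045) 140552477 5200441615 140552477 = 1 := by decide +kernel

theorem c11b_1121 : go p11b 60 0x3218642e430c8616a43213218d1
    2684354560 107374183 (-140552475) 140552477 3513811903 140552477 = 1 := by decide +kernel

theorem c11b_1365 : go p11b 60 0xc86290b90c85990c84c86425a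
    2845415833 53687092 702762381 140552477 3513811903 140552477 = 1 := by decide +kernel

theorem c11b_388 : go p11b 60 0x32291391489a91489c8644d2
    885837005 26843546 (-983867331) 140552477 6535690139 70276239 = 1 := by decide +kernel

theorem c11b_832 : go p11b 60 0x32391a90c85191c8d486428b
    2523293287 53687092 1194696049 70276239 4076021807 140552477 = 1 := by decide +kernel

theorem c11b_1223 : go p11b 60 0x32446486444a90c85c8642d1
    3060164199 53687092 (-1054143569) 70276239 4005745569 70276239 = 1 := by decide +kernel

theorem c11b_1697 : go p11b 60 0x32426432190a2e484c86445a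
    2899102924 107374183 281104953 281104953 5340994091 281104953 = 1 := by decide +kernel

theorem c11b_1013 : go p11b 60 0xc90c85190c86428b91489a
    2738041651 53687092 (-2951601997) 140552477 5200441615 140552477 = 1 := by decide +kernel

theorem c11b_299 : go p11b 60 0x3242642a43214e431489a
    1020054733 53687092 (-1264972285) 140552477 6043756473 140552477 = 1 := by decide +kernel

theorem c11b_818 : go p11b 60 0x32190b90c85a914864299
    2254857832 107374183 1264972287 140552477 4076021807 140552477 = 1 := by decide +kernel

theorem c11b_1755 : go p11b 60 0x3242e432266485c8644ca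
    3543348020 107374183 562209905 562209905 4778784187 281104953 = 1 := by decide +kernel

theorem c11b_1163 : go p11b 60 0xc8642e435a90c85c86b46b
    2952790015 53687092 (-491933665) 70276239 3513811903 140552477 = 1 := by decide +kernel

theorem c11b_1397 : go p11b 60 0xd91c8ca90c8548e468b
    2738041651 53687092 1475801001 70276239 3794916855 140552477 = 1 := by decide +kernel

theorem c11b_577 : go p11b 60 0x32190a91191c85488b
    1825361102 107374183 1264972287 140552477 3092154473 281104953 = 1 := by decide +kernel

theorem c11b_1394 : go p11b 60 0x32190a90c85190c88b
    2738041651 53687092 1475801001 70276239 3513811903 140552477 = 1 := by decide +kernel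

theorem c11b_1384 : go p11b 60 0xc8642a431190c84b
    2630667469 53687092 1194696049 70276239 3513811903 140552477 = 1 := by decide +kernel

theorem c11b_1461 : go p11b 60 0x32390c85a91c8d1
    3060164199 53687092 1264972287 140552477 3232706949 140552477 = 1 := by decide +kernel

theorem c11b_1751 : go p11b 60 0xc8642a485c853
    3758096384 107374183 (-562209903) 562209905 5059889139 562209905 = 1 := by decide +kernel

theorem c11b_1449 : go p11b 60 0x321909aa4309aea
    3113851290 107374183 1546077239 140552477 2389392093 140552477 = 1 := by decide +kernel

theorem c11b_1743 : go p11b 60 0x36484c92165a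
    3543348020 107374183 1405524763 281104953 4216574283 281104953 = 1 := by decide +kernel

end Pool.Agent.MP_5cfbf6_gt.P8.K2
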