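import Pool.Agent.MP_5cfbf6_gt.P8.KP11b

set_option autoImplicit false

namespace Pool.Agent.MP_5cfbf6_gt.P8.K2

theorem c11b_935 : go p11b 60 0x32190b90c89a90c86429c8643214d2
    2469606196 107374183 (-562209903) 562209905 6465413901 281104953 = 1 := by decide +kernel

theorem c11b_1127 : go p11b 60 0xc86430b90c32285a90c85c8642d1
    2684354560 107374183 (-702762379) 140552477 4076021807 140552477 = 1 := by decide +kernel

theorem c11b_1200 : go p11b 60 0x32190b90c52291a3218a4723459
    3060164199 53687092 (-1475800999) 70276239 4357126759 140552477 = 1 := by decide +kernel

theorem c11b_1375 : go p11b 60 0xc8642e43216a432172190c2d1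
    2899102924 107374183 140552477 140552477 4357126759 140552477 = 1 := by decide +kernel

theorem c11b_394 : go p11b 60 0x3229129148939148948a429a
    993211187 26843546 (-983867331) 140552477 6324861425 140552477 = 1 := by decide +kernel

theorem c11b_841 : go p11b 60 0x32190990c84a90c84c864253
    1825361102 107374183 (-1264972285) 140552477 5340994091 281104953 = 1 := by decide +kernel

theorem c11b_1225 : go p11b 60 0x32190b90c85990c88c8642ca
    3060164199 53687092 (-913591093) 70276239 4005745569 70276239 = 1 := by decide +kernel

theorem c11b_1706 : go p11b 60 0x32290c85390c9097219212d1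
    3221225472 214748365 281104953 281104953 5340994091 281104953 = 1 := by decide +kernel

theorem c11b_1028 : go p11b 60 0xc8629144e432352190c699
    2845415833 53687092 (-2459668331) 70276239 4919336663 140552477 = 1 := by decide +kernel

theorem c11b_325 : go p11b 60 0x32190a90c85390c52189a
    1127428915 53687092 (-1264972285) 140552477 6605966377 140552477 = 1 := by decide +kernel

theorem c11b_825 : go p11b 60 0x32390a90c85190c85488b
    2523293287 53687092 1194696049 70276239 3794916855 140552477 = 1 := by decide +kernel

theorem c11b_204 : go p11b 60 0x3229129554e4521521894aaaa99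
    966367642 107374183 (-843314855) 281104953 3654364379 281104953 = 1 := by decide +kernel

theorem c11b_954 : go p11b 60 0xc8642e43216a47242d1
    2254857832 107374183 140552477 140552477 4919336663 140552477 = 1 := by decide +kernel

theorem c11b_67 : go p11b 60 0x32426392131a90c853
    966367642 107374183 (-4076021807) 140552477 6465413901 281104953 = 1 := by decide +kernel

theorem c11b_810 : go p11b 60 0x32291190c85486428b
    2523293287 53687092 913591095 70276239 4357126759 140552477 = 1 := by decide +kernel

theorem c11b_1657 : go p11b 60 0x32290c9117219212d1
    3113851290 107374183 (-1546077237) 140552477 4919336663 140552477 = 1 := by decide +kernel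

theorem c11b_221 : go p11b 60 0x32291190d4e432155a
    1610612736 107374183 (-843314855) 281104953 3654364379 281104953 = 1 := by decide +kernel

theorem c11b_697 : go p11b 60 0x36c85390c84c86425a
    2281701377 26843546 2038010905 70276239 2740773283 70276239 = 1 := by decide +kernel

theorem c11b_593 : go p11b 60 0xc8642e435a91cad1
    2093796557 53687092 2038010905 70276239 2319115855 70276239 = 1 := by decide +kernel

theorem c11b_345 : go p11b 60 0x32190b91489a
    939524097 26843546 (-632486141) 70276239 5762651521 140552477 = 1 := by decide +kernel

theorem c11b_694 : go p11b 60 0xdb6c8548612d3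
    2201170741 53687092 2178563381 70276239 2670497045 140552477 = 1 := by decide +kernel

theorem c11b_821 : go p11b 60 0xd
    2254857832 107374183 1967734667 281104953 4216574283 281104953 = 1 := by decide +kernel

end Pool.Agent.MP_5cfbf6_gt.P8.K2
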