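import Pool.Agent.MP_5cfbf6_gt.P8.KP11b

set_option autoImplicit false

namespace Pool.Agent.MP_5cfbf6_gt.P8.K2

theorem c11b_964 : go p11b 60 0x32190c84b90c9096a432185c8642d1
    2469606196 107374183 140552477 140552477 4638231711 140552477 = 1 := by decide +kernel

theorem c11b_1131 : go p11b 60 0xc86190c84b90c32425a90c7242d1
    2684354560 107374183 (-140552475) 140552477 4076021807 140552477 = 1 := by decide +kernel

theorem c11b_1204 : go p11b 60 0x32190b91a90c85c8d390c52189a
    3087007745 26843546 (-1264972285) 140552477 4076021807 140552477 = 1 := by decide +kernel

theorem c11b_1378 : go p11b 60 0xc8e46647242ca90c85c8642d1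
    2899102924 107374183 421657429 140552477 4357126759 140552477 = 1 := by decide +kernel

theorem c11b_397 : go p11b 60 0x32290a90c85290c8948a4293
    993211187 26843546 (-983867331) 140552477 6605966377 140552477 = 1 := by decide +kernel

theorem c11b_847 : go p11b 60 0x32190990c84a90c84c864253
    2040109466 107374183 (-1264972285) 140552477 5340994091 281104953 = 1 := by decide +kernel

theorem c11b_1234 : go p11b 60 0x32190a90c85190c8d48e468b
    3060164199 53687092 (-632486141) 70276239 4076021807 140552477 = 1 := by decide +kernel

theorem c11b_1715 : go p11b 60 0x32191990c85a9148cc864653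
    3543348020 107374183 (-281104951) 281104953 3935469331 562209905 = 1 := by decide +kernel

theorem c11b_1042 : go p11b 60 0xc90c4648e428b92132445a
    2791728742 214748365 (-3654364379) 281104953 5903203997 281104953 = 1 := by decide +kernel

theorem c11b_333 : go p11b 60 0x32452291326486452264b
    885837005 26843546 (-860883914) 17569060 5832927759 70276239 = 1 := by decide +kernel

theorem c11b_826 : go p11b 60 0x32391a90c85190c85488b
    2523293287 53687092 1335248525 70276239 3794916855 140552477 = 1 := by decide +kernel

theorem c11b_123 : go p11b 60 0xc8e431a91c8642d195d52ba8b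
    2362232014 214748365 (-6324861425) 140552477 6465413901 281104953 = 1 := by decide +kernel

theorem c11b_827 : go p11b 60 0xc86190c2a4321324253
    2415919105 53687092 1546077239 140552477 3513811903 140552477 = 1 := by decide +kernel

theorem c11b_1746 : go p11b 60 0xc8642a431390c85cad3
    3972844750 107374183 562209905 562209905 3373259426 1124419810 = 1 := by decide +kernel

theorem c11b_811 : go p11b 60 0x32291190c85486428b
    2523293287 53687092 1054143571 70276239 4357126759 140552477 = 1 := by decide +kernel

theorem c11b_1668 : go p11b 60 0x32426488b92132445a
    3328599654 107374183 (-843314855) 281104953 4778784187 281104953 = 1 := by decide +kernel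

theorem c11b_527 : go p11b 60 0x32190a90d4e432155a
    1825361102 107374183 (-843314855) 281104953 3654364379 281104953 = 1 := by decide +kernel

theorem c11b_698 : go p11b 60 0x36c85390c84c86425a
    2335388469 26843546 2038010905 70276239 2740773283 70276239 = 1 := by decide +kernel

theorem c11b_596 : go p11b 60 0xd90a90c853b14899
    2093796557 53687092 2178563381 70276239 2459668331 70276239 = 1 := by decide +kernel

theorem c11b_365 : go p11b 60 0x3242a47242d2
    885837005 26843546 (-632486141) 70276239 6114032711 70276239 = 1 := by decide +kernel

theorem c11b_656 : go p11b 60 0x321aa4309aea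
    2201170741 53687092 1897458429 70276239 2319115855 70276239 = 1 := by decide +kernel

theorem c11b_820 : go p11b 60 0xd
    2254857832 107374183 1546077239 140552477 4216574283 281104953 = 1 := by decide +kernel

end Pool.Agent.MP_5cfbf6_gt.P8.K2
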