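import Pool.Agent.MP_5cfbf6_gt.P8.KP11b

set_option autoImplicit false

namespace Pool.Agent.MP_5cfbf6_gt.P8.K2

theorem c11b_990 : go p11b 60 0x32291190c88b92152428c90a92145a
    2791728742 214748365 (-5903203997) 281104953 6465413901 281104953 = 1 := by decide +kernel

theorem c11b_1161 : go p11b 60 0xc86426485488b91484c8642a445a
    2952790015 53687092 (-702762379) 140552477 4357126759 140552477 = 1 := by decide +kernel

theorem c11b_1244 : go p11b 60 0x32190a91c8d190c8d490b92168b
    3060164199 53687092 (-351381189) 70276239 3794916855 140552477 = 1 := by decide +kernel

theorem c11b_1380 : go p11b 60 0xc8642e47212a432425c8642d1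
    2899102924 107374183 702762381 140552477 4357126759 140552477 = 1 := by decide +kernel

theorem c11b_404 : go p11b 60 0x3218e431a90c7218d2914893
    939524097 26843546 (-421657427) 140552477 6605966377 140552477 = 1 := by decide +kernel

theorem c11b_848 : go p11b 60 0x32190990c84a90c85486428b
    1825361102 107374183 (-983867331) 140552477 4778784187 281104953 = 1 := by decide +kernel

theorem c11b_1250 : go p11b 60 0x32190a90c85190c8548e468b
    3060164199 53687092 (-210828713) 70276239 3794916855 140552477 = 1 := by decide +kernel

theorem c11b_1726 : go p11b 60 0x32190a91c8d190c8548e468b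
    3489660929 53687092 1546077239 140552477 3092154473 281104953 = 1 := by decide +kernel

theorem c11b_1107 : go p11b 60 0xc8646a485191c8d486468b
    2952790015 53687092 (-1475800999) 70276239 4357126759 140552477 = 1 := by decide +kernel

theorem c11b_340 : go p11b 60 0x32452391a26486452264b
    885837005 26843546 (-825745796) 17569060 5832927759 70276239 = 1 := by decide +kernel

theorem c11b_854 : go p11b 60 0x3242a485390c85486429a
    1771674011 53687092 (-281104951) 281104953 5340994091 281104953 = 1 := by decide +kernel

theorem c11b_1060 : go p11b 60 0x3242e484d6a485c86426b46b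
    3650722202 214748365 (-6605966377) 140552477 6465413901 281104953 = 1 := by decide +kernel

theorem c11b_772 : go p11b 60 0xc8642e43216a47218d1
    2254857832 107374183 140552477 140552477 4357126759 140552477 = 1 := by decide +kernel

theorem c11b_1401 : go p11b 60 0xd91c8ca91c8d48e468b
    2630667469 53687092 1335248525 70276239 4076021807 140552477 = 1 := by decide +kernel

theorem c11b_585 : go p11b 60 0x32190a91190c85488b
    2093796557 53687092 1616353477 70276239 2670497045 140552477 = 1 := by decide +kernel

theorem c11b_1407 : go p11b 60 0x3219119212e484c85a
    2845415833 53687092 1264972287 140552477 3513811903 140552477 = 1 := by decide +kernel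

theorem c11b_1408 : go p11b 60 0xc8e485991c8642ca
    2952790015 53687092 1264972287 140552477 3513811903 140552477 = 1 := by decide +kernel

theorem c11b_1469 : go p11b 60 0x32290990c85488b
    3167538381 53687092 1475801001 70276239 3232706949 140552477 = 1 := by decide +kernel

theorem c11b_1196 : go p11b 60 0x325464321ae4359a8d751aea
    3221225472 214748365 (-1405524761) 281104953 3654364379 281104953 = 1 := by decide +kernel

theorem c11b_1035 : go p11b 60 0x3239216a4851
    2684354560 107374183 (-2389392093) 140552477 5481546567 140552477 = 1 := by decide +kernel

theorem c11b_630 : go p11b 60 0xc86a90d46baabaaa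
    2254857832 107374183 562209905 562209905 2529944569 281104953 = 1 := by decide +kernel

theorem c11b_103 : go p11b 60 0xd
    1932735284 214748365 (-6605966377) 140552477 6324861425 140552477 = 1 := by decide +kernel

theorem c11b_994 : go p11b 60 0xd
    3221225472 214748365 (-6465413901) 281104953 5903203997 281104953 = 1 := by decide +kernel

end Pool.Agent.MP_5cfbf6_gt.P8.K2
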