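import Pool.Agent.MP_5cfbf6_gt.P8.KP11b

set_option autoImplicit false

namespace Pool.Agent.MP_5cfbf6_gt.P8.K2

theorem c11b_998 : go p11b 60 0x32190990c84b92152428c90b92165a
    3221225472 214748365 (-5903203997) 281104953 6465413901 281104953 = 1 := by decide +kernel

theorem c11b_1188 : go p11b 60 0xc8a426485488b91488c8642a445a
    2952790015 53687092 (-140552475) 140552477 4076021807 140552477 = 1 := by decide +kernel

theorem c11b_1299 : go p11b 60 0x32190b90c85a921321524264299
    2684354560 107374183 1264972287 140552477 3232706949 140552477 = 1 := by decide +kernel

theorem c11b_1389 : go p11b 60 0xc86391a91c8d191c8d48e468b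
    2630667469 53687092 1335248525 70276239 3794916855 140552477 = 1 := by decide +kernel

theorem c11b_410 : go p11b 60 0x3218e451a9139147228d4899
    1020054733 53687092 (-140552475) 140552477 6605966377 140552477 = 1 := by decide +kernel

theorem c11b_849 : go p11b 60 0x32190990c84a90c85486428b
    1825361102 107374183 (-702762379) 140552477 4778784187 281104953 = 1 := by decide +kernel

theorem c11b_1269 : go p11b 60 0x32291991c84a90c854864459
    2684354560 107374183 421657429 140552477 3232706949 140552477 = 1 := by decide +kernel

theorem c11b_1737 : go p11b 60 0x32191190c8622e488c86445a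
    3489660929 53687092 843314857 281104953 3654364379 281104953 = 1 := by decide +kernel

theorem c11b_1125 : go p11b 60 0xc86191484b91484c8a425a
    2738041651 53687092 (-983867331) 140552477 4076021807 140552477 = 1 := by decide +kernel

theorem c11b_341 : go p11b 60 0x32390c8e468c864723459
    885837005 26843546 (-790607676) 17569060 5832927759 70276239 = 1 := by decide +kernel

theorem c11b_865 : go p11b 60 0x3219099212a4321324253
    1825361102 107374183 (-1546077237) 140552477 5903203997 281104953 = 1 := by decide +kernel

theorem c11b_132 : go p11b 60 0x32191a90d4e432172186b55a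
    1825361102 107374183 (-4216574283) 281104953 5340994091 281104953 = 1 := by decide +kernel

theorem c11b_783 : go p11b 60 0xc8a426430b90c84c85a
    2523293287 53687092 421657429 140552477 3794916855 140552477 = 1 := by decide +kernel

theorem c11b_1403 : go p11b 60 0xd90c8ca91c8548e468b
    2738041651 53687092 1335248525 70276239 4076021807 140552477 = 1 := by decide +kernel

theorem c11b_594 : go p11b 60 0x32190b90c85a91c851
    2093796557 53687092 2038010905 70276239 2459668331 70276239 = 1 := by decide +kernel

theorem c11b_1450 : go p11b 60 0x32190b90c85a91c8d1
    3060164199 53687092 1546077239 140552477 2670497045 140552477 = 1 := by decide +kernel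

theorem c11b_1465 : go p11b 60 0xc90b90c85a91c8d1
    3060164199 53687092 1546077239 140552477 2951601997 140552477 = 1 := by decide +kernel

theorem c11b_1474 : go p11b 60 0x32191190c52188b
    3274912563 53687092 1194696049 70276239 3232706949 140552477 = 1 := by decide +kernel

theorem c11b_720 : go p11b 60 0xdb6d90c8612d5b2185a2d3
    2254857832 107374183 2108287143 140552477 3092154473 281104953 = 1 := by decide +kernel

theorem c11b_402 : go p11b 60 0x322913914899
    912680551 53687092 (-140552475) 140552477 6324861425 140552477 = 1 := by decide +kernel

theorem c11b_982 : go p11b 60 0xdb217242d2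
    2469606196 107374183 562209905 562209905 6465413901 281104953 = 1 := by decide +kernel

theorem c11b_721 : go p11b 60 0xd
    2469606196 107374183 1264972287 140552477 2389392093 140552477 = 1 := by decide +kernel

end Pool.Agent.MP_5cfbf6_gt.P8.K2
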