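import Pool.Agent.MP_5cfbf6_gt.P8.KP11b

set_option autoImplicit false

namespace Pool.Agent.MP_5cfbf6_gt.P8.K2

theorem c11b_1080 : go p11b 60 0x32186430b90c32185a90c85c8642d1
    2684354560 107374183 (-1827182189) 140552477 4357126759 140552477 = 1 := by decide +kernel

theorem c11b_1248 : go p11b 60 0xc8646a47242d190c8548e432168b
    3060164199 53687092 (-70276237) 70276239 3513811903 140552477 = 1 := by decide +kernel

theorem c11b_1356 : go p11b 60 0x32191a90c8d191c8d48e432168b
    2952790015 53687092 210828715 70276239 3513811903 140552477 = 1 := by decide +kernel

theorem c11b_1542 : go p11b 60 0xc8642e43216a43217219212d1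
    3113851290 107374183 421657429 140552477 4076021807 140552477 = 1 := by decide +kernel

theorem c11b_414 : go p11b 60 0x32190a90c85a90c85c8642d2
    1234803097 53687092 (-843314855) 281104953 5762651521 140552477 = 1 := by decide +kernel

theorem c11b_852 : go p11b 60 0x32291290c85391485486429a
    1771674011 53687092 (-843314855) 281104953 5340994091 281104953 = 1 := by decide +kernel

theorem c11b_1280 : go p11b 60 0x3229099142e485484c8a425a
    2845415833 53687092 421657429 140552477 3232706949 140552477 = 1 := by decide +kernel

theorem c11b_498 : go p11b 60 0x36d8a352176c8546a44cab1588c8a4453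
    912680551 53687092 281104953 281104953 6465413901 281104953 = 1 := by decide +kernel

theorem c11b_1760 : go p11b 60 0x36450c84c86444c86432265a
    4080218932 214748365 1124419810 1124419810 5622099044 1124419810 = 1 := by decide +kernel

theorem c11b_517 : go p11b 60 0xdb6290b56291276c85485ab1490a4ca
    1395864372 107374183 562209905 562209905 6465413901 281104953 = 1 := by decide +kernel

theorem c11b_473 : go p11b 60 0x32390c85a90c85c8642d2
    1449551463 53687092 (-843314855) 281104953 6043756473 140552477 = 1 := by decide +kernel

theorem c11b_1539 : go p11b 60 0x32190c84b90c84c86445a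
    3060164199 53687092 140552477 140552477 4076021807 140552477 = 1 := by decide +kernel

theorem c11b_1606 : go p11b 60 0xc8629219092e432445a
    2952790015 53687092 (-2108287141) 140552477 5200441615 140552477 = 1 := by decide +kernel

theorem c11b_408 : go p11b 60 0x32391a91c8d2914893
    993211187 26843546 (-421657427) 140552477 6605966377 140552477 = 1 := by decide +kernel

theorem c11b_1252 : go p11b 60 0x32446488b92232445a
    3167538381 53687092 (-140552475) 140552477 3794916855 140552477 = 1 := by decide +kernel

theorem c11b_258 : go p11b 60 0xc8a42e46a4514899
    1181116006 107374183 (-1967734665) 281104953 5340994091 281104953 = 1 := by decide +kernel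

theorem c11b_1105 : go p11b 60 0xc86390c85a91c8d1
    2952790015 53687092 (-1616353475) 70276239 4286850521 70276239 = 1 := by decide +kernel

theorem c11b_972 : go p11b 60 0x32190c2e432185a
    2415919105 53687092 983867333 140552477 4638231711 140552477 = 1 := by decide +kernel

theorem c11b_1075 : go p11b 60 0xc8a190990c8d1
    4080218932 214748365 (-2811049521) 562209905 6184308949 562209905 = 1 := by decide +kernel

theorem c11b_1559 : go p11b 60 0x32190b91c8d1
    3113851290 107374183 702762381 140552477 4357126759 140552477 = 1 := by decide +kernel

theorem c11b_730 : go p11b 60 0x321909aea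
    2415919105 53687092 1897458429 70276239 2319115855 70276239 = 1 := by decide +kernel

theorem c11b_2 : go p11b 60 0xcaabaaaae555d55566a
    1073741824 214748365 (-5622099044) 1124419810 5059889139 562209905 = 1 := by decide +kernel

end Pool.Agent.MP_5cfbf6_gt.P8.K2
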