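import Pool.Agent.MP_5cfbf6_gt.P8.KP11b

set_option autoImplicit false

namespace Pool.Agent.MP_5cfbf6_gt.P8.K2

theorem c11b_1112 : go p11b 60 0x32290990c85488b91484c8642a445a
    2845415833 53687092 (-1264972285) 140552477 4357126759 140552477 = 1 := by decide +kernel

theorem c11b_1261 : go p11b 60 0xc8642645222e43223242a432145a
    3060164199 53687092 (-140552475) 140552477 4076021807 140552477 = 1 := by decide +kernel

theorem c11b_1437 : go p11b 60 0x3218a426431484b90c84c86425a
    3167538381 53687092 983867333 140552477 2951601997 140552477 = 1 := by decide +kernel

theorem c11b_1545 : go p11b 60 0xc90b90c85990c85c8a43214cb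
    3328599654 107374183 421657429 140552477 4216574283 281104953 = 1 := by decide +kernel

theorem c11b_415 : go p11b 60 0x32190b90c85a91489c8a42d2
    1234803097 53687092 (-843314855) 281104953 6043756473 140552477 = 1 := by decide +kernel

theorem c11b_853 : go p11b 60 0x32391a9148d391c8548a429a
    1879048193 53687092 (-843314855) 281104953 5340994091 281104953 = 1 := by decide +kernel

theorem c11b_1282 : go p11b 60 0x32190a90c85190c85486428b
    2952790015 53687092 491933667 70276239 3232706949 140552477 = 1 := by decide +kernel

theorem c11b_16 : go p11b 60 0xc8e291c8d195d52ba8b9148e428d6ab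
    966367642 107374183 (-5481546567) 140552477 5903203997 281104953 = 1 := by decide +kernel

theorem c11b_1728 : go p11b 60 0x32390a91c8d191c8948e568b
    3489660929 53687092 1827182191 140552477 2529944569 281104953 = 1 := by decide +kernel

theorem c11b_1555 : go p11b 60 0xc8642643212e484c86425a
    3274912563 53687092 983867333 140552477 3513811903 140552477 = 1 := by decide +kernel

theorem c11b_1367 : go p11b 60 0x32426430b90c3218a425a
    2845415833 53687092 702762381 140552477 3794916855 140552477 = 1 := by decide +kernel

theorem c11b_307 : go p11b 60 0xc8e44a45224e431489a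
    939524097 26843546 (-1264972285) 140552477 6324861425 140552477 = 1 := by decide +kernel

theorem c11b_1219 : go p11b 60 0xc8e485a90c85c8642d1
    3060164199 53687092 (-632486141) 70276239 3724640617 70276239 = 1 := by decide +kernel

theorem c11b_246 : go p11b 60 0x32190b90c85a91c8d1
    1610612736 107374183 281104953 281104953 3654364379 281104953 = 1 := by decide +kernel

theorem c11b_973 : go p11b 60 0x32190c84b90c86425a
    2523293287 53687092 983867333 140552477 4638231711 140552477 = 1 := by decide +kernel

theorem c11b_243 : go p11b 60 0x3644ac5224ec854864299
    1610612736 107374183 1967734667 281104953 3092154473 281104953 = 1 := by decide +kernel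

theorem c11b_440 : go p11b 60 0xc8642a4312914893
    1342177281 53687092 (-843314855) 281104953 4778784187 281104953 = 1 := by decide +kernel

theorem c11b_336 : go p11b 60 0x3248a42c992188b
    885837005 26843546 (-825745796) 17569060 5692375283 70276239 = 1 := by decide +kernel

theorem c11b_1246 : go p11b 60 0xc8656a4321721ad1
    3060164199 53687092 (-210828713) 70276239 3443535665 70276239 = 1 := by decide +kernel

theorem c11b_1043 : go p11b 60 0x32190b90c85a
    2791728742 214748365 (-3654364379) 281104953 6465413901 281104953 = 1 := by decide +kernel

theorem c11b_1266 : go p11b 60 0x321ae4359aabaaa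
    2684354560 107374183 562209905 562209905 2529944569 281104953 = 1 := by decide +kernel

theorem c11b_42 : go p11b 60 0xd
    1610612736 107374183 (-6465413901) 281104953 5903203997 281104953 = 1 := by decide +kernel

theorem c11b_983 : go p11b 60 0xd
    2362232014 214748365 1686629715 562209905 6184308949 562209905 = 1 := by decide +kernel

end Pool.Agent.MP_5cfbf6_gt.P8.K2
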