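import Pool.Agent.MP_5cfbf6_gt.P8.KP11b

set_option autoImplicit false

namespace Pool.Agent.MP_5cfbf6_gt.P8.K2

theorem c11b_1120 : go p11b 60 0x32186430b90c32185a90c85c8642d1
    2684354560 107374183 (-421657427) 140552477 3794916855 140552477 = 1 := by decide +kernel

theorem c11b_1311 : go p11b 60 0xc86431990c85a90c85c86190c2d1
    2899102924 107374183 1264972287 140552477 3232706949 140552477 = 1 := by decide +kernel

theorem c11b_1575 : go p11b 60 0x32190990c84a9217223242e4253
    3274912563 53687092 1546077239 140552477 3513811903 140552477 = 1 := by decide +kernel

theorem c11b_1580 : go p11b 60 0xc86430b90c32185a9217242d1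
    2684354560 107374183 (-2108287141) 140552477 4638231711 140552477 = 1 := by decide +kernel

theorem c11b_416 : go p11b 60 0x3242a452190b4a4521921493
    1127428915 53687092 (-281104951) 281104953 5903203997 281104953 = 1 := by decide +kernel

theorem c11b_856 : go p11b 60 0x32391990c84a91c84c864253
    2040109466 107374183 (-983867331) 140552477 4778784187 281104953 = 1 := by decide +kernel

theorem c11b_1303 : go p11b 60 0x32190a90c85390c854864299
    2684354560 107374183 1827182191 140552477 2951601997 140552477 = 1 := by decide +kernel

theorem c11b_46 : go p11b 60 0x32446488b90c85a92a35d4e472b55a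
    1395864372 107374183 (-5340994091) 281104953 5903203997 281104953 = 1 := by decide +kernel

theorem c11b_1281 : go p11b 60 0x32391a90c85190cad486428b
    2952790015 53687092 351381191 70276239 3232706949 140552477 = 1 := by decide +kernel

theorem c11b_1300 : go p11b 60 0xc86290c85390c854864299
    2684354560 107374183 1546077239 140552477 2951601997 140552477 = 1 := by decide +kernel

theorem c11b_1265 : go p11b 60 0x32290c89990c5242e468b
    3328599654 107374183 (-140552475) 140552477 4216574283 281104953 = 1 := by decide +kernel

theorem c11b_152 : go p11b 60 0xc86485a90c85c8642d3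
    2040109466 107374183 (-4076021807) 140552477 6465413901 281104953 = 1 := by decide +kernel

theorem c11b_1034 : go p11b 60 0xc8642e432429a91c8d1
    2684354560 107374183 (-2389392093) 140552477 5200441615 140552477 = 1 := by decide +kernel

theorem c11b_96 : go p11b 60 0x32190a91390c85489a
    1449551463 53687092 (-2529944569) 281104953 6465413901 281104953 = 1 := by decide +kernel

theorem c11b_901 : go p11b 60 0x32190b90c85991c8ca
    2254857832 107374183 (-702762379) 140552477 4919336663 140552477 = 1 := by decide +kernel

theorem c11b_234 : go p11b 60 0xdb1589d8ac4cab2290b90c653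
    966367642 107374183 1686629715 562209905 3935469331 562209905 = 1 := by decide +kernel

theorem c11b_771 : go p11b 60 0xc8642e431a914899
    2254857832 107374183 140552477 140552477 4076021807 140552477 = 1 := by decide +kernel

theorem c11b_785 : go p11b 60 0x3218642e430c85a
    2415919105 53687092 702762381 140552477 3794916855 140552477 = 1 := by decide +kernel

theorem c11b_347 : go p11b 60 0xc91c85192188b
    885837005 26843546 (-966298272) 17569060 5973480235 70276239 = 1 := by decide +kernel

theorem c11b_1045 : go p11b 60 0x32192146489a
    2684354560 107374183 (-3092154473) 281104953 6043756473 140552477 = 1 := by decide +kernel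

theorem c11b_1005 : go p11b 60 0xc865551951aea
    2684354560 107374183 (-2951601997) 140552477 4638231711 140552477 = 1 := by decide +kernel

theorem c11b_200 : go p11b 60 0xcaaaae555566a
    966367642 107374183 (-1686629713) 562209905 3654364379 281104953 = 1 := by decide +kernel

end Pool.Agent.MP_5cfbf6_gt.P8.K2
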