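import Pool.Agent.MP_5cfbf6_gt.P8.KP11b

set_option autoImplicit false

namespace Pool.Agent.MP_5cfbf6_gt.P8.K2

theorem c11b_1129 : go p11b 60 0x3242642e432185a90c8617218642d1
    2684354560 107374183 (-421657427) 140552477 4076021807 140552477 = 1 := by decide +kernel

theorem c11b_1325 : go p11b 60 0xc86290c85191488b91488c86425a
    2630667469 53687092 702762381 140552477 3794916855 140552477 = 1 := by decide +kernel

theorem c11b_1585 : go p11b 60 0x32390a9148519217242d48e428b
    2684354560 107374183 (-1264972285) 140552477 4778784187 281104953 = 1 := by decide +kernel

theorem c11b_1598 : go p11b 60 0xc86191484b91484c8642a445a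
    2845415833 53687092 (-1827182189) 140552477 4638231711 140552477 = 1 := by decide +kernel

theorem c11b_418 : go p11b 60 0x32190a90c85390c85486429a
    1127428915 53687092 (-983867331) 140552477 6324861425 140552477 = 1 := by decide +kernel

theorem c11b_857 : go p11b 60 0x32391991c8ca91c8d48e468b
    2040109466 107374183 (-702762379) 140552477 4778784187 281104953 = 1 := by decide +kernel

theorem c11b_1310 : go p11b 60 0x32190b90c85a91c8cc864651
    2899102924 107374183 1264972287 140552477 2951601997 140552477 = 1 := by decide +kernel

theorem c11b_520 : go p11b 60 0xdb2172190a9135643214ac5224ca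
    1610612736 107374183 562209905 562209905 6465413901 281104953 = 1 := by decide +kernel

theorem c11b_831 : go p11b 60 0x36290991484b91484c8a425a
    2415919105 53687092 1264972287 140552477 4076021807 140552477 = 1 := by decide +kernel

theorem c11b_1256 : go p11b 60 0xc90a90c85190c85486428b
    3060164199 53687092 (-491933665) 70276239 4076021807 140552477 = 1 := by decide +kernel

theorem c11b_1221 : go p11b 60 0x32446490a2e47218a44ca
    3167538381 53687092 (-702762379) 140552477 3794916855 140552477 = 1 := by decide +kernel

theorem c11b_130 : go p11b 60 0xc9099222e488c86445a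
    2362232014 214748365 (-4778784187) 281104953 6465413901 281104953 = 1 := by decide +kernel

theorem c11b_966 : go p11b 60 0xc8643212e430c86425a
    2415919105 53687092 421657429 140552477 4638231711 140552477 = 1 := by decide +kernel

theorem c11b_69 : go p11b 60 0x32391a91391c8d489a
    1020054733 53687092 (-3654364379) 281104953 6465413901 281104953 = 1 := by decide +kernel

theorem c11b_815 : go p11b 60 0x32190c84b90c86425a
    2308544923 53687092 1546077239 140552477 3513811903 140552477 = 1 := by decide +kernel

theorem c11b_1683 : go p11b 60 0x32190c84b90c86425a
    2630667469 53687092 702762381 140552477 4638231711 140552477 = 1 := by decide +kernel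

theorem c11b_531 : go p11b 60 0x32190a90d4e432155a
    2040109466 107374183 (-843314855) 281104953 3654364379 281104953 = 1 := by decide +kernel

theorem c11b_717 : go p11b 60 0x36290c853b14864299
    2308544923 53687092 1897458429 70276239 3021878235 70276239 = 1 := by decide +kernel

theorem c11b_746 : go p11b 60 0xd8e46ac85c8642d1
    2415919105 53687092 2038010905 70276239 2740773283 70276239 = 1 := by decide +kernel

theorem c11b_480 : go p11b 60 0x32190a91c8d2
    1342177281 53687092 (-281104951) 281104953 6324861425 140552477 = 1 := by decide +kernel

theorem c11b_1079 : go p11b 60 0xc861909aea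
    2684354560 107374183 (-1827182189) 140552477 4076021807 140552477 = 1 := by decide +kernel

theorem c11b_764 : go p11b 60 0xd
    2469606196 107374183 2108287143 140552477 3232706949 140552477 = 1 := by decide +kernel

end Pool.Agent.MP_5cfbf6_gt.P8.K2
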