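import Pool.Agent.MP_5cfbf6_gt.P8.KP11b

set_option autoImplicit false

namespace Pool.Agent.MP_5cfbf6_gt.P8.K2

theorem c11b_1180 : go p11b 60 0x32191a90c85192172190b5242e468b
    2952790015 53687092 (-210828713) 70276239 3794916855 140552477 = 1 := by decide +kernel

theorem c11b_1409 : go p11b 60 0xc86432146432188b90c88c86445a
    2845415833 53687092 1264972287 140552477 3794916855 140552477 = 1 := by decide +kernel

theorem c11b_1593 : go p11b 60 0x32290990c5222e431488c8a429b
    2925946469 26843546 (-2038010903) 70276239 4638231711 140552477 = 1 := by decide +kernel

theorem c11b_1648 : go p11b 60 0xc8642e43216a432172190c2d2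
    2899102924 107374183 (-562209903) 562209905 5903203997 281104953 = 1 := by decide +kernel

theorem c11b_420 : go p11b 60 0x32190a90c85390c85486429a
    1127428915 53687092 (-983867331) 140552477 6605966377 140552477 = 1 := by decide +kernel

theorem c11b_858 : go p11b 60 0x32391191c8ca91c8d486428b
    2040109466 107374183 (-421657427) 140552477 4778784187 281104953 = 1 := by decide +kernel

theorem c11b_1313 : go p11b 60 0x32291990c8ca90c85c8642d1
    2899102924 107374183 1546077239 140552477 3232706949 140552477 = 1 := by decide +kernel

theorem c11b_1522 : go p11b 60 0xd90ab14853b2190b5642a4322299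
    3382286745 53687092 1827182191 140552477 3232706949 140552477 = 1 := by decide +kernel

theorem c11b_1139 : go p11b 60 0x32391a90c85191cad486428b
    2845415833 53687092 (-773038617) 70276239 3794916855 140552477 = 1 := by decide +kernel

theorem c11b_1259 : go p11b 60 0xc90990c84b90c84c8a445a
    3060164199 53687092 (-421657427) 140552477 4357126759 140552477 = 1 := by decide +kernel

theorem c11b_1226 : go p11b 60 0x32190a9148919217242d1
    3060164199 53687092 (-913591093) 70276239 4146298045 70276239 = 1 := by decide +kernel

theorem c11b_143 : go p11b 60 0xc8a485390c8d486429a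
    1825361102 107374183 (-3654364379) 281104953 5903203997 281104953 = 1 := by decide +kernel

theorem c11b_1009 : go p11b 60 0xc8e488c9116648642ca
    2684354560 107374183 (-3232706949) 140552477 5200441615 140552477 = 1 := by decide +kernel

theorem c11b_75 : go p11b 60 0x32391a91391c8d489a
    1020054733 53687092 (-3092154473) 281104953 6465413901 281104953 = 1 := by decide +kernel

theorem c11b_877 : go p11b 60 0x32290c852914864293
    1771674011 53687092 (-281104951) 281104953 5903203997 281104953 = 1 := by decide +kernel

theorem c11b_1686 : go p11b 60 0x32190c84b90c86425a
    2630667469 53687092 983867333 140552477 4638231711 140552477 = 1 := by decide +kernel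

theorem c11b_565 : go p11b 60 0x32290990d4e452135a
    1825361102 107374183 281104953 281104953 3092154473 281104953 = 1 := by decide +kernel

theorem c11b_1688 : go p11b 60 0x3642e485ab217242d1
    2684354560 107374183 983867333 140552477 4919336663 140552477 = 1 := by decide +kernel

theorem c11b_763 : go p11b 60 0xd90c84a962324453
    2523293287 53687092 1827182191 140552477 3232706949 140552477 = 1 := by decide +kernel

theorem c11b_532 : go p11b 60 0x32291190c853
    2040109466 107374183 (-421657427) 140552477 3654364379 281104953 = 1 := by decide +kernel

theorem c11b_1116 : go p11b 60 0xc861909aea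
    2684354560 107374183 (-702762379) 140552477 3513811903 140552477 = 1 := by decide +kernel

theorem c11b_817 : go p11b 60 0xd
    2254857832 107374183 1967734667 281104953 3654364379 281104953 = 1 := by decide +kernel

end Pool.Agent.MP_5cfbf6_gt.P8.K2
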