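import Pool.Agent.MP_5cfbf6_gt.P8.KP11b

set_option autoImplicit false

namespace Pool.Agent.MP_5cfbf6_gt.P8.K2

theorem c11b_1239 : go p11b 60 0x32190c85190c86428b92188c90c45a
    3328599654 107374183 (-843314855) 281104953 4216574283 281104953 = 1 := by decide +kernel

theorem c11b_1553 : go p11b 60 0xc8646643232a43219097219212d1
    3328599654 107374183 702762381 140552477 3513811903 140552477 = 1 := by decide +kernel

theorem c11b_1595 : go p11b 60 0x3228645212e485484c8646a445a
    2845415833 53687092 (-2108287141) 140552477 4919336663 140552477 = 1 := by decide +kernel

theorem c11b_1666 : go p11b 60 0xc90b9216a432425c8643212d1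
    3113851290 107374183 (-702762379) 140552477 4638231711 140552477 = 1 := by decide +kernel

theorem c11b_422 : go p11b 60 0x32190b91489a91489c8a44d2
    1234803097 53687092 (-843314855) 281104953 6324861425 140552477 = 1 := by decide +kernel

theorem c11b_859 : go p11b 60 0x32390991c84a91c8d486428b
    2040109466 107374183 (-140552475) 140552477 4778784187 281104953 = 1 := by decide +kernel

theorem c11b_1326 : go p11b 60 0x32290c4643222e432232425a
    2738041651 53687092 702762381 140552477 3794916855 140552477 = 1 := by decide +kernel

theorem c11b_1090 : go p11b 60 0x32191a91190c35391c86b52235a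
    2845415833 53687092 (-2108287141) 140552477 4357126759 140552477 = 1 := by decide +kernel

theorem c11b_56 : go p11b 60 0x32426488b91a92132425cad3
    1610612736 107374183 (-4919336663) 140552477 5903203997 281104953 = 1 := by decide +kernel

theorem c11b_1182 : go p11b 60 0xc86191484b90c84c8a445a
    2845415833 53687092 (-421657427) 140552477 4076021807 140552477 = 1 := by decide +kernel

theorem c11b_1157 : go p11b 60 0x3242e43216a485c8642d1
    2952790015 53687092 (-773038617) 70276239 4005745569 70276239 = 1 := by decide +kernel

theorem c11b_51 : go p11b 60 0xc86391a90c9097242d3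
    1395864372 107374183 (-5200441615) 140552477 6465413901 281104953 = 1 := by decide +kernel

theorem c11b_845 : go p11b 60 0xc8642a43214e431485a
    2040109466 107374183 (-1967734665) 281104953 5340994091 281104953 = 1 := by decide +kernel

theorem c11b_19 : go p11b 60 0x32291c8519148e428b
    966367642 107374183 (-5551822805) 70276239 6324861425 140552477 = 1 := by decide +kernel

theorem c11b_607 : go p11b 60 0x32190a91190c89c88b
    2093796557 53687092 1897458429 70276239 2951601997 140552477 = 1 := by decide +kernel

theorem c11b_1462 : go p11b 60 0x32190a90990c85488b
    3167538381 53687092 1194696049 70276239 2951601997 140552477 = 1 := by decide +kernel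

theorem c11b_1479 : go p11b 60 0xc8642e4314864299
    3382286745 53687092 1475801001 70276239 2951601997 140552477 = 1 := by decide +kernel

theorem c11b_1534 : go p11b 60 0x3219212e432425a
    3167538381 53687092 421657429 140552477 3794916855 140552477 = 1 := by decide +kernel

theorem c11b_1456 : go p11b 60 0x32190d664321351aea
    3328599654 107374183 1546077239 140552477 2389392093 140552477 = 1 := by decide +kernel

theorem c11b_1486 : go p11b 60 0xc8642a452126b
    3167538381 53687092 1756905953 70276239 2389392093 140552477 = 1 := by decide +kernel

theorem c11b_1037 : go p11b 60 0xc8a485c8d1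
    2899102924 107374183 (-2670497045) 140552477 5481546567 140552477 = 1 := by decide +kernel

end Pool.Agent.MP_5cfbf6_gt.P8.K2
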