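import Pool.Agent.MP_5cfbf6_gt.P8.KP11b

set_option autoImplicit false

namespace Pool.Agent.MP_5cfbf6_gt.P8.K2

theorem c11b_1289 : go p11b 60 0x32190b90c84c86425a91c84c8e4251
    2899102924 107374183 983867333 140552477 2951601997 140552477 = 1 := by decide +kernel

theorem c11b_1574 : go p11b 60 0xc8642a43214e4321521909921299
    3328599654 107374183 1264972287 140552477 3794916855 140552477 = 1 := by decide +kernel

theorem c11b_1601 : go p11b 60 0x32390a91191c89486468c86428b
    2952790015 53687092 (-1756905951) 70276239 4638231711 140552477 = 1 := by decide +kernel

theorem c11b_1669 : go p11b 60 0xc90a90c90a2e484c86432145a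
    3113851290 107374183 (-843314855) 281104953 5340994091 281104953 = 1 := by decide +kernel

theorem c11b_444 : go p11b 60 0x32291a91c89290c854864293
    1449551463 53687092 (-843314855) 281104953 5340994091 281104953 = 1 := by decide +kernel

theorem c11b_860 : go p11b 60 0x32391990c84a91c8cc864253
    2040109466 107374183 (-983867331) 140552477 5340994091 281104953 = 1 := by decide +kernel

theorem c11b_1329 : go p11b 60 0x32190a90c85190c85486428b
    2630667469 53687092 913591095 70276239 3794916855 140552477 = 1 := by decide +kernel

theorem c11b_608 : go p11b 60 0x36c85390c3229096ac85c8642d1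
    2040109466 107374183 1827182191 140552477 3232706949 140552477 = 1 := by decide +kernel

theorem c11b_125 : go p11b 60 0x32191a91c8d190c85486568b
    2362232014 214748365 (-6043756473) 140552477 6465413901 281104953 = 1 := by decide +kernel

theorem c11b_1186 : go p11b 60 0xc86190c84b90c84c8a425a
    2952790015 53687092 (-421657427) 140552477 4357126759 140552477 = 1 := by decide +kernel

theorem c11b_1178 : go p11b 60 0x32190a91191c8d486428b
    2845415833 53687092 (-210828713) 70276239 3794916855 140552477 = 1 := by decide +kernel

theorem c11b_80 : go p11b 60 0xc8e46a47234a4314893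
    1127428915 53687092 (-2529944569) 281104953 6465413901 281104953 = 1 := by decide +kernel

theorem c11b_851 : go p11b 60 0xc86190c2a432152428b
    1825361102 107374183 (-140552475) 140552477 4778784187 281104953 = 1 := by decide +kernel

theorem c11b_25 : go p11b 60 0x32446392231a90c8d3
    966367642 107374183 (-4638231711) 140552477 6465413901 281104953 = 1 := by decide +kernel

theorem c11b_641 : go p11b 60 0x3218e431a90c85c8d1
    2469606196 107374183 702762381 140552477 3232706949 140552477 = 1 := by decide +kernel

theorem c11b_1480 : go p11b 60 0x32191390c854864299
    3382286745 53687092 1616353477 70276239 2951601997 140552477 = 1 := by decide +kernel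

theorem c11b_1527 : go p11b 60 0xc8a446485486428b
    3060164199 53687092 70276239 70276239 3794916855 140552477 = 1 := by decide +kernel

theorem c11b_1556 : go p11b 60 0x32390c85991c8ca
    3382286745 53687092 983867333 140552477 3513811903 140552477 = 1 := by decide +kernel

theorem c11b_1519 : go p11b 60 0x36d90c84ab2190945a
    3328599654 107374183 2108287143 140552477 2951601997 140552477 = 1 := by decide +kernel

theorem c11b_1496 : go p11b 60 0xc8642a432146b
    3274912563 53687092 1756905953 70276239 2389392093 140552477 = 1 := by decide +kernel

theorem c11b_1209 : go p11b 60 0xc8642e485a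
    3167538381 53687092 (-1264972285) 140552477 4357126759 140552477 = 1 := by decide +kernel

end Pool.Agent.MP_5cfbf6_gt.P8.K2
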