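import Pool.Agent.MP_5cfbf6_gt.P8.KP11b

set_option autoImplicit false

namespace Pool.Agent.MP_5cfbf6_gt.P8.K2

theorem c11b_1309 : go p11b 60 0x3218a43214645222e485488c86429a
    2952790015 53687092 1967734667 281104953 2529944569 281104953 = 1 := by decide +kernel

theorem c11b_1584 : go p11b 60 0xc8646a432146485c8642d48e468b
    2684354560 107374183 (-1546077237) 140552477 4778784187 281104953 = 1 := by decide +kernel

theorem c11b_1630 : go p11b 60 0x32190c2e432185a90c85c8642d1
    2899102924 107374183 (-702762379) 140552477 4638231711 140552477 = 1 := by decide +kernel

theorem c11b_1673 : go p11b 60 0xc9099212a432428c864321453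
    3328599654 107374183 (-281104951) 281104953 4778784187 281104953 = 1 := by decide +kernel

theorem c11b_451 : go p11b 60 0x32191291489290c854864293
    1556925645 53687092 (-843314855) 281104953 5340994091 281104953 = 1 := by decide +kernel

theorem c11b_861 : go p11b 60 0x32391991c8ca91c8cc8e4653
    2040109466 107374183 (-702762379) 140552477 5340994091 281104953 = 1 := by decide +kernel

theorem c11b_1330 : go p11b 60 0x32391a91c8d190c85486428b
    2630667469 53687092 1054143571 70276239 3794916855 140552477 = 1 := by decide +kernel

theorem c11b_645 : go p11b 60 0x32190a90c46572135390c52235a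
    2201170741 53687092 1264972287 140552477 2670497045 140552477 = 1 := by decide +kernel

theorem c11b_139 : go p11b 60 0x3242a42e43216a4321721ad2
    2040109466 107374183 (-2811049521) 562209905 4778784187 281104953 = 1 := by decide +kernel

theorem c11b_1224 : go p11b 60 0xc91992444a90c85c8642d1
    3060164199 53687092 (-1054143569) 70276239 4146298045 70276239 = 1 := by decide +kernel

theorem c11b_1183 : go p11b 60 0x32190a91190c85486428b
    2952790015 53687092 (-491933665) 70276239 4076021807 140552477 = 1 := by decide +kernel

theorem c11b_81 : go p11b 60 0xc8e44a45224a4314893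
    1234803097 53687092 (-2529944569) 281104953 6465413901 281104953 = 1 := by decide +kernel

theorem c11b_878 : go p11b 60 0xc8a485390c85486429a
    1879048193 53687092 (-281104951) 281104953 5903203997 281104953 = 1 := by decide +kernel

theorem c11b_53 : go p11b 60 0x32186430b92232425a
    1395864372 107374183 (-4919336663) 140552477 6605966377 140552477 = 1 := by decide +kernel

theorem c11b_650 : go p11b 60 0x32190b90c85a91c8d1
    2201170741 53687092 1616353477 70276239 2740773283 70276239 = 1 := by decide +kernel

theorem c11b_1483 : go p11b 60 0x32190b90c854864299
    3382286745 53687092 1475801001 70276239 3232706949 140552477 = 1 := by decide +kernel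

theorem c11b_1602 : go p11b 60 0xc86430b90c32185a
    2845415833 53687092 (-1827182189) 140552477 4919336663 140552477 = 1 := by decide +kernel

theorem c11b_1589 : go p11b 60 0x32291191485488b
    2684354560 107374183 (-1264972285) 140552477 5340994091 281104953 = 1 := by decide +kernel

theorem c11b_55 : go p11b 60 0x32391a95d4e472b55a
    1610612736 107374183 (-5340994091) 281104953 5903203997 281104953 = 1 := by decide +kernel

theorem c11b_1569 : go p11b 60 0xd90c85c8a464a
    3113851290 107374183 1546077239 140552477 3794916855 140552477 = 1 := by decide +kernel

theorem c11b_1318 : go p11b 60 0xc8642e485a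
    2630667469 53687092 140552477 140552477 3794916855 140552477 = 1 := by decide +kernel

end Pool.Agent.MP_5cfbf6_gt.P8.K2
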