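import Pool.Agent.MP_5cfbf6_gt.P8.KP11b

set_option autoImplicit false

namespace Pool.Agent.MP_5cfbf6_gt.P8.K2

theorem c11b_1320 : go p11b 60 0x32286430b90c84c9096a431c8642d1
    2684354560 107374183 421657429 140552477 3513811903 140552477 = 1 := by decide +kernel

theorem c11b_1622 : go p11b 60 0xc8e42a47234647242d48642e468b
    2684354560 107374183 (-421657427) 140552477 4778784187 281104953 = 1 := by decide +kernel

theorem c11b_1638 : go p11b 60 0x32426485488b90c84c8642a445a
    2899102924 107374183 (-281104951) 281104953 5340994091 281104953 = 1 := by decide +kernel

theorem c11b_1679 : go p11b 60 0xc8642e43216a432425c8642d1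
    2684354560 107374183 140552477 140552477 4638231711 140552477 = 1 := by decide +kernel

theorem c11b_452 : go p11b 60 0x32191290c85391489486429a
    1664299827 53687092 (-843314855) 281104953 5340994091 281104953 = 1 := by decide +kernel

theorem c11b_862 : go p11b 60 0x32390991c8ca91c8cc8e4653
    2040109466 107374183 (-421657427) 140552477 5340994091 281104953 = 1 := by decide +kernel

theorem c11b_1332 : go p11b 60 0x32190a91c85190c85486428b
    2738041651 53687092 1054143571 70276239 3794916855 140552477 = 1 := by decide +kernel

theorem c11b_646 : go p11b 60 0x32390a91c85190d75391486235a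
    2308544923 53687092 1264972287 140552477 2670497045 140552477 = 1 := by decide +kernel

theorem c11b_681 : go p11b 60 0x36290991484b91484c8a425a
    2174327195 26843546 2178563381 70276239 2319115855 70276239 = 1 := by decide +kernel

theorem c11b_1232 : go p11b 60 0xc8642e43216a485c8642d1
    3060164199 53687092 (-773038617) 70276239 4005745569 70276239 = 1 := by decide +kernel

theorem c11b_1199 : go p11b 60 0x32390c85c8d48642e4699
    3060164199 53687092 (-1616353475) 70276239 4357126759 140552477 = 1 := by decide +kernel

theorem c11b_88 : go p11b 60 0xc8e46a44e472352429a
    1395864372 107374183 (-3654364379) 281104953 6465413901 281104953 = 1 := by decide +kernel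

theorem c11b_927 : go p11b 60 0xc90990a90c84c864253
    2254857832 107374183 (-983867331) 140552477 5903203997 281104953 = 1 := by decide +kernel

theorem c11b_54 : go p11b 60 0x3239216a485c8642d3
    1395864372 107374183 (-4638231711) 140552477 6465413901 281104953 = 1 := by decide +kernel

theorem c11b_657 : go p11b 60 0x32186430b90c32185a
    2174327195 26843546 1897458429 70276239 2459668331 70276239 = 1 := by decide +kernel

theorem c11b_1484 : go p11b 60 0x32190b90c854864299
    3382286745 53687092 1616353477 70276239 3232706949 140552477 = 1 := by decide +kernel

theorem c11b_1604 : go p11b 60 0xc90990991488c88b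
    2952790015 53687092 (-1756905951) 70276239 4919336663 140552477 = 1 := by decide +kernel

theorem c11b_1596 : go p11b 60 0x3247119242e428b
    2952790015 53687092 (-2178563379) 70276239 4919336663 140552477 = 1 := by decide +kernel

theorem c11b_1424 : go p11b 60 0xc864264321351aea
    3113851290 107374183 421657429 140552477 2951601997 140552477 = 1 := by decide +kernel

theorem c11b_1417 : go p11b 60 0xd9217219212ca
    2899102924 107374183 1264972287 140552477 4357126759 140552477 = 1 := by decide +kernel

theorem c11b_1030 : go p11b 60 0xc86431391a
    2952790015 53687092 (-2389392093) 140552477 4919336663 140552477 = 1 := by decide +kernel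

end Pool.Agent.MP_5cfbf6_gt.P8.K2
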