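import Pool.Agent.MP_5cfbf6_gt.P8.KP11b

set_option autoImplicit false

namespace Pool.Agent.MP_5cfbf6_gt.P8.K2

theorem c11b_1333 : go p11b 60 0x32190b90c8a16a432152189c8642d1
    2684354560 107374183 140552477 140552477 4076021807 140552477 = 1 := by decide +kernel

theorem c11b_1655 : go p11b 60 0xc9222648a48512e486232432145a
    3060164199 53687092 (-1546077237) 140552477 4638231711 140552477 = 1 := by decide +kernel

theorem c11b_1658 : go p11b 60 0x3244e432190a66485c8a43234ca
    3060164199 53687092 (-1264972285) 140552477 4638231711 140552477 = 1 := by decide +kernel

theorem c11b_1740 : go p11b 60 0xc86466488a90c86428c864653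
    3758096384 107374183 562209905 562209905 3935469331 562209905 = 1 := by decide +kernel

theorem c11b_457 : go p11b 60 0x32391a91485291c894864293
    1449551463 53687092 (-1405524761) 281104953 5903203997 281104953 = 1 := by decide +kernel

theorem c11b_863 : go p11b 60 0x32190990c84a91c84c8e4253
    2040109466 107374183 (-140552475) 140552477 5340994091 281104953 = 1 := by decide +kernel

theorem c11b_1335 : go p11b 60 0x32190a91488b90c85486429a
    2630667469 53687092 421657429 140552477 4076021807 140552477 = 1 := by decide +kernel

theorem c11b_1082 : go p11b 60 0x32290990d4e430d6a4321721ad1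
    2684354560 107374183 (-1546077237) 140552477 4076021807 140552477 = 1 := by decide +kernel

theorem c11b_725 : go p11b 60 0x32190a91c8d190c8548e568b
    2415919105 53687092 1475801001 70276239 2670497045 140552477 = 1 := by decide +kernel

theorem c11b_1251 : go p11b 60 0xc90a90c85190c85486468b
    3060164199 53687092 (-70276237) 70276239 3794916855 140552477 = 1 := by decide +kernel

theorem c11b_1207 : go p11b 60 0x3242e485a90c85c8642d3
    3033320653 26843546 (-1194696047) 70276239 4357126759 140552477 = 1 := by decide +kernel

theorem c11b_94 : go p11b 60 0xc8e46a431391c8d489a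
    1395864372 107374183 (-3092154473) 281104953 6465413901 281104953 = 1 := by decide +kernel

theorem c11b_941 : go p11b 60 0xc8642a485190c85488b
    2040109466 107374183 421657429 140552477 4778784187 281104953 = 1 := by decide +kernel

theorem c11b_59 : go p11b 60 0x32446391a92425c8d3
    1610612736 107374183 (-4919336663) 140552477 6465413901 281104953 = 1 := by decide +kernel

theorem c11b_671 : go p11b 60 0x3242643212e432425a
    2335388469 26843546 1756905953 70276239 2600220807 70276239 = 1 := by decide +kernel

theorem c11b_1488 : go p11b 60 0x32190b90c85a914891
    3060164199 53687092 1827182191 140552477 2670497045 140552477 = 1 := by decide +kernel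

theorem c11b_1610 : go p11b 60 0xc86430b90c86425a
    2845415833 53687092 (-1546077237) 140552477 4638231711 140552477 = 1 := by decide +kernel

theorem c11b_1600 : go p11b 60 0x32190b90a90c8d1
    2952790015 53687092 (-1897458427) 70276239 4708507949 70276239 = 1 := by decide +kernel

theorem c11b_27 : go p11b 60 0x324464a8b92135a
    1181116006 107374183 (-5481546567) 140552477 6043756473 140552477 = 1 := by decide +kernel

theorem c11b_525 : go p11b 60 0xc8642642e435a
    2040109466 107374183 (-1967734665) 281104953 4216574283 281104953 = 1 := by decide +kernel

theorem c11b_252 : go p11b 60 0xc8a42a4511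
    966367642 107374183 (-1967734665) 281104953 4778784187 281104953 = 1 := by decide +kernel

end Pool.Agent.MP_5cfbf6_gt.P8.K2
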