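import Pool.Agent.MP_5cfbf6_gt.P8.KP11b

set_option autoImplicit false

namespace Pool.Agent.MP_5cfbf6_gt.P8.K2

theorem c11b_1334 : go p11b 60 0x32190b90c85a90c84c86425c8642d1
    2684354560 107374183 140552477 140552477 4357126759 140552477 = 1 := by decide +kernel

theorem c11b_1664 : go p11b 60 0xc90b9216a43219097242645222d1
    3113851290 107374183 (-983867331) 140552477 4638231711 140552477 = 1 := by decide +kernel

theorem c11b_1662 : go p11b 60 0x3244643219132e488c86432265a
    3113851290 107374183 (-1405524761) 281104953 5340994091 281104953 = 1 := by decide +kernel

theorem c11b_1749 : go p11b 60 0xc92166432190a2e488c90c45a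
    3650722202 214748365 (-1686629713) 562209905 5059889139 562209905 = 1 := by decide +kernel

theorem c11b_458 : go p11b 60 0x32391a914892914894864293
    1342177281 53687092 (-1967734665) 281104953 6465413901 281104953 = 1 := by decide +kernel

theorem c11b_864 : go p11b 60 0x32190a90c85390c85486429a
    1825361102 107374183 (-1967734665) 281104953 5903203997 281104953 = 1 := by decide +kernel

theorem c11b_1337 : go p11b 60 0x32291191488b90c88c8a445a
    2630667469 53687092 421657429 140552477 4357126759 140552477 = 1 := by decide +kernel

theorem c11b_544 : go p11b 60 0xc8642a446430d4e432152235a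
    2469606196 107374183 (-1967734665) 281104953 4216574283 281104953 = 1 := by decide +kernel

theorem c11b_588 : go p11b 60 0xc8642e43216a432146430d753
    2093796557 53687092 1897458429 70276239 2389392093 140552477 = 1 := by decide +kernel

theorem c11b_1146 : go p11b 60 0xc8642a485191c8d486428b
    2845415833 53687092 (-1054143569) 70276239 4076021807 140552477 = 1 := by decide +kernel

theorem c11b_1147 : go p11b 60 0x32190a91191c8d486428b
    2845415833 53687092 (-913591093) 70276239 4076021807 140552477 = 1 := by decide +kernel

theorem c11b_48 : go p11b 60 0xc86430b91488c8a445a
    1395864372 107374183 (-4919336663) 140552477 6043756473 140552477 = 1 := by decide +kernel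

theorem c11b_844 : go p11b 60 0xc8642643212a430c853
    2040109466 107374183 (-1264972285) 140552477 4778784187 281104953 = 1 := by decide +kernel

theorem c11b_1747 : go p11b 60 0xd90c85a90c85c8642d3
    3972844750 107374183 1686629715 562209905 3373259426 1124419810 = 1 := by decide +kernel

theorem c11b_880 : go p11b 60 0x32290c85391486429a
    1879048193 53687092 (-843314855) 281104953 6465413901 281104953 = 1 := by decide +kernel

theorem c11b_1703 : go p11b 60 0x32190c46485c86428b
    3113851290 107374183 140552477 140552477 4778784187 281104953 = 1 := by decide +kernel

theorem c11b_586 : go p11b 60 0x32290995484b91435a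
    1986422375 53687092 1827182191 140552477 2389392093 140552477 = 1 := by decide +kernel

theorem c11b_121 : go p11b 60 0xc8643212e452235a
    2254857832 107374183 (-6605966377) 140552477 6605966377 140552477 = 1 := by decide +kernel

theorem c11b_1687 : go p11b 60 0x3219212e432425a
    2738041651 53687092 983867333 140552477 4638231711 140552477 = 1 := by decide +kernel

theorem c11b_1008 : go p11b 60 0xc86471190d753
    2899102924 107374183 (-2951601997) 140552477 4778784187 281104953 = 1 := by decide +kernel

theorem c11b_980 : go p11b 60 0x36c85c8642d2
    2254857832 107374183 562209905 562209905 6465413901 281104953 = 1 := by decide +kernel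

theorem c11b_1414 : go p11b 60 0xd
    2899102924 107374183 1967734667 281104953 3654364379 281104953 = 1 := by decide +kernel

end Pool.Agent.MP_5cfbf6_gt.P8.K2
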