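import Pool.Agent.MP_5cfbf6_gt.P8.KP11b

set_option autoImplicit false

namespace Pool.Agent.MP_5cfbf6_gt.P8.K2

theorem c11b_1341 : go p11b 60 0x32290c85191486428b90c88c86445a
    2738041651 53687092 702762381 140552477 4076021807 140552477 = 1 := by decide +kernel

theorem c11b_1671 : go p11b 60 0xc90a90c85191490a7242e432168b
    3113851290 107374183 (-421657427) 140552477 4778784187 281104953 = 1 := by decide +kernel

theorem c11b_1065 : go p11b 60 0x32391489a95d4e432352aa9c95390cad56ab55a
    3919157659 53687092 (-5622099044) 1124419810 5622099044 1124419810 = 1 := by decide +kernel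

theorem c11b_436 : go p11b 60 0xc8642642a43214e432152189a
    1610612736 107374183 (-1405524761) 281104953 4778784187 281104953 = 1 := by decide +kernel

theorem c11b_99 : go p11b 60 0x32190a90c85390c85486429a
    1610612736 107374183 (-2529944569) 281104953 6465413901 281104953 = 1 := by decide +kernel

theorem c11b_528 : go p11b 60 0x32291191488b91488c8a445a
    1825361102 107374183 (-281104951) 281104953 3654364379 281104953 = 1 := by decide +kernel

theorem c11b_923 : go p11b 60 0x32190a90c85390c85486429a
    2254857832 107374183 (-1405524761) 281104953 6465413901 281104953 = 1 := by decide +kernel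

theorem c11b_1444 : go p11b 60 0x32190990c88b90c84c86425a
    3274912563 53687092 983867333 140552477 3232706949 140552477 = 1 := by decide +kernel

theorem c11b_282 : go p11b 60 0xc8a452191a4a4521921493
    1020054733 53687092 (-281104951) 281104953 5340994091 281104953 = 1 := by decide +kernel

theorem c11b_1717 : go p11b 60 0x32191c8d190d75392132395a35a
    4080218932 214748365 (-1124419808) 1124419810 3373259426 1124419810 = 1 := by decide +kernel

theorem c11b_399 : go p11b 60 0x322912914892914864293
    993211187 26843546 (-702762379) 140552477 6605966377 140552477 = 1 := by decide +kernel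

theorem c11b_1476 : go p11b 60 0x32190b90c89991c8642ca
    3382286745 53687092 1264972287 140552477 3232706949 140552477 = 1 := by decide +kernel

theorem c11b_1538 : go p11b 60 0xc90b91a90c85c8642d1
    3328599654 107374183 421657429 140552477 3794916855 140552477 = 1 := by decide +kernel

theorem c11b_371 : go p11b 60 0x32446488a922324453
    1020054733 53687092 (-913591093) 70276239 6043756473 140552477 = 1 := by decide +kernel

theorem c11b_1227 : go p11b 60 0x32426488b90c52189a
    3167538381 53687092 (-983867331) 140552477 4076021807 140552477 = 1 := by decide +kernel

theorem c11b_1733 : go p11b 60 0x32291c8d19148e568b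
    3758096384 107374183 1405524763 281104953 2811049521 562209905 = 1 := by decide +kernel

theorem c11b_1026 : go p11b 60 0xc8644e42648cc84a
    2845415833 53687092 (-2319115855) 70276239 4708507949 70276239 = 1 := by decide +kernel

theorem c11b_922 : go p11b 60 0x32290c85390c89a
    2254857832 107374183 (-1967734665) 281104953 6465413901 281104953 = 1 := by decide +kernel

theorem c11b_846 : go p11b 60 0xc90990a90c853
    2040109466 107374183 (-1546077237) 140552477 5340994091 281104953 = 1 := by decide +kernel

theorem c11b_1441 : go p11b 60 0x32191990c8ca
    3382286745 53687092 702762381 140552477 3232706949 140552477 = 1 := by decide +kernel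

theorem c11b_1719 : go p11b 60 0x32190d751aea
    3543348020 107374183 843314857 281104953 2529944569 281104953 = 1 := by decide +kernel

theorem c11b_993 : go p11b 60 0x32baabaaa
    3221225472 214748365 (-5622099044) 1124419810 5059889139 562209905 = 1 := by decide +kernel

end Pool.Agent.MP_5cfbf6_gt.P8.K2
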