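import Pool.Agent.MP_5cfbf6_gt.P8.KP11b

set_option autoImplicit false

namespace Pool.Agent.MP_5cfbf6_gt.P8.K2

theorem c11b_1351 : go p11b 60 0x32191191486428b90c88c8a432145a
    2738041651 53687092 983867333 140552477 4357126759 140552477 = 1 := by decide +kernel

theorem c11b_1674 : go p11b 60 0xc8a43214e484c9097242e43212d1
    3221225472 214748365 (-281104951) 281104953 5340994091 281104953 = 1 := by decide +kernel

theorem c11b_1066 : go p11b 60 0x32390c85a95d4e432152aa9c95390cad56ab55a
    4026531841 53687092 (-5622099044) 1124419810 5622099044 1124419810 = 1 := by decide +kernel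

theorem c11b_442 : go p11b 60 0xc8a485290c89390c894864499
    1395864372 107374183 (-281104951) 281104953 4778784187 281104953 = 1 := by decide +kernel

theorem c11b_109 : go p11b 60 0x32191a91c8d190c8548e468b
    1932735284 214748365 (-5762651521) 140552477 6465413901 281104953 = 1 := by decide +kernel

theorem c11b_537 : go p11b 60 0x32191a90c85991485c86428b
    2040109466 107374183 (-140552475) 140552477 4216574283 281104953 = 1 := by decide +kernel

theorem c11b_925 : go p11b 60 0x32190a90c85390c85486429a
    2469606196 107374183 (-1405524761) 281104953 5903203997 281104953 = 1 := by decide +kernel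

theorem c11b_1451 : go p11b 60 0x32190a91484990c8548a424b
    3167538381 53687092 1475801001 70276239 2670497045 140552477 = 1 := by decide +kernel

theorem c11b_283 : go p11b 60 0xc8a44a43214a4321521893
    1127428915 53687092 (-843314855) 281104953 4778784187 281104953 = 1 := by decide +kernel

theorem c11b_1078 : go p11b 60 0xc86190c2e430d6a432172b46b
    2684354560 107374183 (-2108287141) 140552477 4216574283 281104953 = 1 := by decide +kernel

theorem c11b_349 : go p11b 60 0x32452391a2648a472344b
    885837005 26843546 (-896022034) 17569060 5973480235 70276239 = 1 := by decide +kernel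

theorem c11b_1435 : go p11b 60 0x32190b91990c85c8642ca
    3060164199 53687092 983867333 140552477 2951601997 140552477 = 1 := by decide +kernel

theorem c11b_1298 : go p11b 60 0xc8a43214e4321521899
    2684354560 107374183 1264972287 140552477 2951601997 140552477 = 1 := by decide +kernel

theorem c11b_332 : go p11b 60 0x32432391a2648e428b
    885837005 26843546 (-896022034) 17569060 5832927759 70276239 = 1 := by decide +kernel

theorem c11b_1095 : go p11b 60 0x32190a91190c85488b
    2845415833 53687092 (-1756905951) 70276239 4357126759 140552477 = 1 := by decide +kernel

theorem c11b_105 : go p11b 60 0x3242643212e452235a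
    2040109466 107374183 (-6605966377) 140552477 6605966377 140552477 = 1 := by decide +kernel

theorem c11b_801 : go p11b 60 0xc8642a446431488b
    2523293287 53687092 632486143 70276239 4076021807 140552477 = 1 := by decide +kernel

theorem c11b_790 : go p11b 60 0x32190a91191484b
    2523293287 53687092 913591095 70276239 3794916855 140552477 = 1 := by decide +kernel

theorem c11b_541 : go p11b 60 0xc86291190c84b
    2254857832 107374183 (-1546077237) 140552477 4216574283 281104953 = 1 := by decide +kernel

theorem c11b_1158 : go p11b 60 0x32191a90c8d1
    2952790015 53687092 (-773038617) 70276239 4146298045 70276239 = 1 := by decide +kernel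

theorem c11b_1081 : go p11b 60 0xc86a909aeaaea
    2684354560 107374183 (-1405524761) 281104953 3654364379 281104953 = 1 := by decide +kernel

theorem c11b_39 : go p11b 60 0xcaeaaab
    1395864372 107374183 (-5903203997) 281104953 5903203997 281104953 = 1 := by decide +kernel

end Pool.Agent.MP_5cfbf6_gt.P8.K2
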