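import Pool.Agent.MP_5cfbf6_gt.P8.KP11b

set_option autoImplicit false

namespace Pool.Agent.MP_5cfbf6_gt.P8.K2

theorem c11b_1379 : go p11b 60 0x3239216647242ca92132425c8642d1
    2899102924 107374183 702762381 140552477 4076021807 140552477 = 1 := by decide +kernel

theorem c11b_1694 : go p11b 60 0xc8642a472346432185490b92168b
    2899102924 107374183 421657429 140552477 4778784187 281104953 = 1 := by decide +kernel

theorem c11b_1115 : go p11b 60 0xc8a42655212e452135a90c85c86b46b
    2684354560 107374183 (-983867331) 140552477 3654364379 281104953 = 1 := by decide +kernel

theorem c11b_29 : go p11b 60 0x32390a9214e472190b52390d69a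
    1181116006 107374183 (-4778784187) 281104953 5903203997 281104953 = 1 := by decide +kernel

theorem c11b_1750 : go p11b 60 0xc8642e485a9148644cc8e4693
    3543348020 107374183 (-562209903) 562209905 5059889139 562209905 = 1 := by decide +kernel

theorem c11b_866 : go p11b 60 0x32191190c84a90c84c864253
    1825361102 107374183 (-1264972285) 140552477 5903203997 281104953 = 1 := by decide +kernel

theorem c11b_1340 : go p11b 60 0x32190a90c85190c85486428b
    2630667469 53687092 773038619 70276239 4076021807 140552477 = 1 := by decide +kernel

theorem c11b_1276 : go p11b 60 0xc8642a426430d4e432152235a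
    2845415833 53687092 140552477 140552477 3232706949 140552477 = 1 := by decide +kernel

theorem c11b_24 : go p11b 60 0xc9118e484c85a91c8642d3
    966367642 107374183 (-4919336663) 140552477 6465413901 281104953 = 1 := by decide +kernel

theorem c11b_1312 : go p11b 60 0xc8642643216a485c8642d1
    2899102924 107374183 1546077239 140552477 2951601997 140552477 = 1 := by decide +kernel

theorem c11b_1272 : go p11b 60 0x32190a90c88b90c7242d1
    2684354560 107374183 983867333 140552477 2951601997 140552477 = 1 := by decide +kernel

theorem c11b_156 : go p11b 60 0xc8642a43214e431489a
    1825361102 107374183 (-2529944569) 281104953 6465413901 281104953 = 1 := by decide +kernel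

theorem c11b_1053 : go p11b 60 0xc8644e432189c8642d1
    3221225472 214748365 (-2529944569) 281104953 5340994091 281104953 = 1 := by decide +kernel

theorem c11b_98 : go p11b 60 0x32190a91390c85489a
    1610612736 107374183 (-3092154473) 281104953 6465413901 281104953 = 1 := by decide +kernel

theorem c11b_920 : go p11b 60 0x32190a90c85391489a
    2254857832 107374183 (-1967734665) 281104953 5903203997 281104953 = 1 := by decide +kernel

theorem c11b_61 : go p11b 60 0xc8e46a4321721ad295d553
    966367642 107374183 (-3935469331) 562209905 5059889139 562209905 = 1 := by decide +kernel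

theorem c11b_652 : go p11b 60 0xc90b91a90c85c8d1
    2308544923 53687092 1475801001 70276239 2740773283 70276239 = 1 := by decide +kernel

theorem c11b_583 : go p11b 60 0x32186430b90c85a
    1986422375 53687092 1546077239 140552477 2670497045 140552477 = 1 := by decide +kernel

theorem c11b_275 : go p11b 60 0xc90a91c8642d2
    885837005 26843546 (-632486141) 70276239 5551822805 70276239 = 1 := by decide +kernel

theorem c11b_180 : go p11b 60 0x32390a91c853
    2254857832 107374183 (-4357126759) 140552477 5903203997 281104953 = 1 := by decide +kernel

theorem c11b_1193 : go p11b 60 0xc86472146b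
    3113851290 107374183 (-2108287141) 140552477 4216574283 281104953 = 1 := by decide +kernel

theorem c11b_1405 : go p11b 60 0xd
    2684354560 107374183 1546077239 140552477 4216574283 281104953 = 1 := by decide +kernel

end Pool.Agent.MP_5cfbf6_gt.P8.K2
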