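import Pool.Agent.MP_5cfbf6_gt.P8.KP11b

set_option autoImplicit false

namespace Pool.Agent.MP_5cfbf6_gt.P8.K2

theorem c11b_1459 : go p11b 60 0x32290b90c8548626643217218a42ca
    3382286745 53687092 1546077239 140552477 2670497045 140552477 = 1 := by decide +kernel

theorem c11b_1102 : go p11b 60 0x32391a91c8d195cacd4e485c86b52395a35a
    2952790015 53687092 (-1546077237) 140552477 4076021807 140552477 = 1 := by decide +kernel

theorem c11b_648 : go p11b 60 0xc90b91a91c85190c85cad48e428b
    2201170741 53687092 1475801001 70276239 2670497045 140552477 = 1 := by decide +kernel

theorem c11b_192 : go p11b 60 0xc86430c85390c32185486429a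
    2254857832 107374183 (-3092154473) 281104953 5903203997 281104953 = 1 := by decide +kernel

theorem c11b_84 : go p11b 60 0xc86391a91c8d291c8948e5693
    1395864372 107374183 (-2811049521) 562209905 5059889139 562209905 = 1 := by decide +kernel

theorem c11b_487 : go p11b 60 0x32391a91c8d29148d48e4693
    1556925645 53687092 (-843314855) 281104953 6465413901 281104953 = 1 := by decide +kernel

theorem c11b_903 : go p11b 60 0x32190b90c85990c85c8642ca
    2254857832 107374183 (-421657427) 140552477 4919336663 140552477 = 1 := by decide +kernel

theorem c11b_1390 : go p11b 60 0x32190a91c8d190c8548e428b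
    2738041651 53687092 1194696049 70276239 3794916855 140552477 = 1 := by decide +kernel

theorem c11b_194 : go p11b 60 0xc8642e43216a43217244d2
    2254857832 107374183 (-2811049521) 562209905 6465413901 281104953 = 1 := by decide +kernel

theorem c11b_1568 : go p11b 60 0xc8642643212e430c86425a
    3167538381 53687092 1546077239 140552477 3513811903 140552477 = 1 := by decide +kernel

theorem c11b_1371 : go p11b 60 0x3219119222e484c86425a
    2845415833 53687092 983867333 140552477 3794916855 140552477 = 1 := by decide +kernel

theorem c11b_321 : go p11b 60 0xc8642e43216a431c8d2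
    1127428915 53687092 (-1967734665) 281104953 6605966377 140552477 = 1 := by decide +kernel

theorem c11b_1236 : go p11b 60 0xc90a91190c85486428b
    3060164199 53687092 (-773038617) 70276239 4357126759 140552477 = 1 := by decide +kernel

theorem c11b_278 : go p11b 60 0x32190a90c4e431489a
    1020054733 53687092 (-983867331) 140552477 5481546567 140552477 = 1 := by decide +kernel

theorem c11b_1010 : go p11b 60 0x32390c5244599242ca
    2684354560 107374183 (-3232706949) 140552477 5481546567 140552477 = 1 := by decide +kernel

theorem c11b_127 : go p11b 60 0xc86446432a2e432235a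
    2362232014 214748365 (-5340994091) 281104953 5903203997 281104953 = 1 := by decide +kernel

theorem c11b_445 : go p11b 60 0xc8a43214a4524293
    1342177281 53687092 (-281104951) 281104953 5340994091 281104953 = 1 := by decide +kernel

theorem c11b_352 : go p11b 60 0x3247214648e428b
    885837005 26843546 (-966298272) 17569060 6114032711 70276239 = 1 := by decide +kernel

theorem c11b_1294 : go p11b 60 0xc8656a4321721ad1
    2684354560 107374183 1827182191 140552477 2389392093 140552477 = 1 := by decide +kernel

theorem c11b_1083 : go p11b 60 0x32190b90c85a
    2630667469 53687092 (-1546077237) 140552477 4357126759 140552477 = 1 := by decide +kernel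

theorem c11b_165 : go p11b 60 0xc86a909aabaab
    2469606196 107374183 (-3654364379) 281104953 4778784187 281104953 = 1 := by decide +kernel

theorem c11b_3 : go p11b 60 0xcaa546aaeaaea
    966367642 107374183 (-6184308949) 562209905 5903203997 281104953 = 1 := by decide +kernel

end Pool.Agent.MP_5cfbf6_gt.P8.K2
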