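import Pool.Agent.MP_5cfbf6_gt.P8.KP11b

set_option autoImplicit false

namespace Pool.Agent.MP_5cfbf6_gt.P8.K2

theorem c11b_1464 : go p11b 60 0x32290990c85488b91484c8642a445a
    3167538381 53687092 1264972287 140552477 3232706949 140552477 = 1 := by decide +kernel

theorem c11b_216 : go p11b 60 0xc8642a431390c85a90c85cad290d55d553
    1610612736 107374183 (-1686629713) 562209905 3935469331 562209905 = 1 := by decide +kernel

theorem c11b_1454 : go p11b 60 0x32190a90c85190c84d4e452190a35a
    3274912563 53687092 1264972287 140552477 2670497045 140552477 = 1 := by decide +kernel

theorem c11b_293 : go p11b 60 0xc91190a90c4e45216a431c852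
    912680551 53687092 (-1405524761) 281104953 5762651521 140552477 = 1 := by decide +kernel

theorem c11b_627 : go p11b 60 0xd91c84a90c85c8642d48e468b
    2040109466 107374183 1546077239 140552477 3654364379 281104953 = 1 := by decide +kernel

theorem c11b_488 : go p11b 60 0x32291291489290c8948a4493
    1664299827 53687092 (-843314855) 281104953 6465413901 281104953 = 1 := by decide +kernel

theorem c11b_904 : go p11b 60 0x32190b90c85a90c85c8642d1
    2254857832 107374183 (-140552475) 140552477 4638231711 140552477 = 1 := by decide +kernel

theorem c11b_1391 : go p11b 60 0x32390a91c8d190c8548e468b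
    2738041651 53687092 1335248525 70276239 3794916855 140552477 = 1 := by decide +kernel

theorem c11b_218 : go p11b 60 0xc8642e45226a431c8a44d1
    1395864372 107374183 (-281104951) 281104953 3654364379 281104953 = 1 := by decide +kernel

theorem c11b_1586 : go p11b 60 0xc90a90c4647242d486428b
    2684354560 107374183 (-2108287141) 140552477 5340994091 281104953 = 1 := by decide +kernel

theorem c11b_1373 : go p11b 60 0x3218643212e484c86425a
    2845415833 53687092 140552477 140552477 4076021807 140552477 = 1 := by decide +kernel

theorem c11b_348 : go p11b 60 0xc9148e46899218e468b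
    885837005 26843546 (-931160152) 17569060 5973480235 70276239 = 1 := by decide +kernel

theorem c11b_1257 : go p11b 60 0xc8a485190c85486428b
    3060164199 53687092 (-351381189) 70276239 4076021807 140552477 = 1 := by decide +kernel

theorem c11b_280 : go p11b 60 0x3229242948a432348a
    912680551 53687092 (-281104951) 281104953 5200441615 140552477 = 1 := by decide +kernel

theorem c11b_1018 : go p11b 60 0x32190a91190c89488b
    2738041651 53687092 (-2740773283) 70276239 4919336663 140552477 = 1 := by decide +kernel

theorem c11b_513 : go p11b 60 0xd90a90c853b21521899
    1610612736 107374183 843314857 281104953 5340994091 281104953 = 1 := by decide +kernel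

theorem c11b_446 : go p11b 60 0xc8a43214a4524293
    1449551463 53687092 (-281104951) 281104953 5340994091 281104953 = 1 := by decide +kernel

theorem c11b_398 : go p11b 60 0x32190a91391489a
    1046898279 26843546 (-983867331) 140552477 6605966377 140552477 = 1 := by decide +kernel

theorem c11b_1447 : go p11b 60 0xc8642e435a91cad1
    3060164199 53687092 1264972287 140552477 2670497045 140552477 = 1 := by decide +kernel

theorem c11b_1085 : go p11b 60 0x32190b90c85a
    2630667469 53687092 (-1264972285) 140552477 4076021807 140552477 = 1 := by decide +kernel

theorem c11b_202 : go p11b 60 0xc86baa435566a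
    1181116006 107374183 (-1686629713) 562209905 3654364379 281104953 = 1 := by decide +kernel

theorem c11b_118 : go p11b 60 0x32546aaeaaea
    2362232014 214748365 (-5622099044) 1124419810 5059889139 562209905 = 1 := by decide +kernel

end Pool.Agent.MP_5cfbf6_gt.P8.K2
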