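import Pool.Agent.MP_5cfbf6_gt.P8.KP11b

set_option autoImplicit false

namespace Pool.Agent.MP_5cfbf6_gt.P8.K2

theorem c11b_1548 : go p11b 60 0x32190b90c9096a432185c8643212d1
    3113851290 107374183 702762381 140552477 3794916855 140552477 = 1 := by decide +kernel

theorem c11b_683 : go p11b 60 0xdb216ec8548a445ab218558a4264321299
    2201170741 53687092 2178563381 70276239 2459668331 70276239 = 1 := by decide +kernel

theorem c11b_1570 : go p11b 60 0x36c8642548a43214e432152190a25a
    3113851290 107374183 1405524763 281104953 4216574283 281104953 = 1 := by decide +kernel

theorem c11b_322 : go p11b 60 0xc86391a91c8d291c894864293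
    1234803097 53687092 (-1967734665) 281104953 6465413901 281104953 = 1 := by decide +kernel

theorem c11b_1051 : go p11b 60 0xc8642e47234643217218e568b
    3221225472 214748365 (-3092154473) 281104953 5059889139 562209905 = 1 := by decide +kernel

theorem c11b_491 : go p11b 60 0x32291391489991489c8a44ca
    966367642 107374183 562209905 562209905 4778784187 281104953 = 1 := by decide +kernel

theorem c11b_906 : go p11b 60 0x32191990c84a91c8cc864253
    2254857832 107374183 (-983867331) 140552477 5340994091 281104953 = 1 := by decide +kernel

theorem c11b_1400 : go p11b 60 0x32391a91c8d191c8d48e468b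
    2630667469 53687092 1194696049 70276239 4076021807 140552477 = 1 := by decide +kernel

theorem c11b_230 : go p11b 60 0xc8642e431991489c8a44ca
    966367642 107374183 562209905 562209905 3654364379 281104953 = 1 := by decide +kernel

theorem c11b_1675 : go p11b 60 0xc8a432146485c8a43214cb
    3221225472 214748365 (-1967734665) 281104953 6184308949 562209905 = 1 := by decide +kernel

theorem c11b_1374 : go p11b 60 0x32190c84b90c84c8a425a
    2952790015 53687092 140552477 140552477 4076021807 140552477 = 1 := by decide +kernel

theorem c11b_376 : go p11b 60 0xc90a90c8d48a432168a
    1020054733 53687092 (-281104951) 281104953 6043756473 140552477 = 1 := by decide +kernel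

theorem c11b_1286 : go p11b 60 0xc86426430b90c32185a
    2845415833 53687092 702762381 140552477 3232706949 140552477 = 1 := by decide +kernel

theorem c11b_286 : go p11b 60 0x3242a43216a431c892
    1127428915 53687092 (-843314855) 281104953 5200441615 140552477 = 1 := by decide +kernel

theorem c11b_1040 : go p11b 60 0x3218a43217219212d1
    2899102924 107374183 (-2389392093) 140552477 5481546567 140552477 = 1 := by decide +kernel

theorem c11b_974 : go p11b 60 0xd90b90c85ab217242d1
    2469606196 107374183 983867333 140552477 4919336663 140552477 = 1 := by decide +kernel

theorem c11b_450 : go p11b 60 0xc8a44e432152429a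
    1664299827 53687092 (-281104951) 281104953 4778784187 281104953 = 1 := by decide +kernel

theorem c11b_413 : go p11b 60 0x32291392152429a
    1127428915 53687092 (-702762379) 140552477 6043756473 140552477 = 1 := by decide +kernel

theorem c11b_1494 : go p11b 60 0xd90b90c85ab14851
    3060164199 53687092 2108287143 140552477 2670497045 140552477 = 1 := by decide +kernel

theorem c11b_1117 : go p11b 60 0x32190b91484a
    2630667469 53687092 (-702762379) 140552477 3794916855 140552477 = 1 := by decide +kernel

theorem c11b_214 : go p11b 60 0xc86baa435d46a
    1395864372 107374183 (-1686629713) 562209905 3654364379 281104953 = 1 := by decide +kernel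

theorem c11b_26 : go p11b 60 0xcaa546baaa
    1181116006 107374183 (-5340994091) 281104953 5762651521 140552477 = 1 := by decide +kernel

end Pool.Agent.MP_5cfbf6_gt.P8.K2
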