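import Pool.Agent.MP_5cfbf6_gt.P8.KP11b

set_option autoImplicit false

namespace Pool.Agent.MP_5cfbf6_gt.P8.K2

theorem c11b_1562 : go p11b 60 0x32191391486429990c89c8a43214ca
    3328599654 107374183 843314857 281104953 4076021807 140552477 = 1 := by decide +kernel

theorem c11b_639 : go p11b 60 0x32191a91c85190d75392152a72190a35a
    2469606196 107374183 281104953 281104953 3092154473 281104953 = 1 := by decide +kernel

theorem c11b_1508 : go p11b 60 0xdb217642cb92232425c8642e43216ca
    3382286745 53687092 2108287143 140552477 2670497045 140552477 = 1 := by decide +kernel

theorem c11b_377 : go p11b 60 0xc90990a92232425390c52189a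
    885837005 26843546 (-1054143569) 70276239 6254585187 70276239 = 1 := by decide +kernel

theorem c11b_1307 : go p11b 60 0xc8646a43148644c990c909353
    2899102924 107374183 1546077239 140552477 2529944569 281104953 = 1 := by decide +kernel

theorem c11b_493 : go p11b 60 0x32291391489991489c8a44ca
    1181116006 107374183 562209905 562209905 4778784187 281104953 = 1 := by decide +kernel

theorem c11b_912 : go p11b 60 0x32190b90c85990c85c8642ca
    2469606196 107374183 (-421657427) 140552477 4638231711 140552477 = 1 := by decide +kernel

theorem c11b_1402 : go p11b 60 0x32190a91c8d190c8548e468b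
    2738041651 53687092 1194696049 70276239 4076021807 140552477 = 1 := by decide +kernel

theorem c11b_232 : go p11b 60 0xc8a42e43216648548a44ca
    1181116006 107374183 562209905 562209905 3654364379 281104953 = 1 := by decide +kernel

theorem c11b_1754 : go p11b 60 0xc8a19142a44e4321524299
    4187593114 107374183 (-1124419808) 1124419810 5622099044 1124419810 = 1 := by decide +kernel

theorem c11b_1381 : go p11b 60 0x32191190c88b92132425a
    2845415833 53687092 983867333 140552477 4076021807 140552477 = 1 := by decide +kernel

theorem c11b_380 : go p11b 60 0xc8642a43214e452189a
    885837005 26843546 (-1054143569) 70276239 6395137663 70276239 = 1 := by decide +kernel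

theorem c11b_1287 : go p11b 60 0xc8642a485190c85488b
    2952790015 53687092 632486143 70276239 3232706949 140552477 = 1 := by decide +kernel

theorem c11b_291 : go p11b 60 0x32290c892914864293
    1234803097 53687092 (-281104951) 281104953 5340994091 281104953 = 1 := by decide +kernel

theorem c11b_1070 : go p11b 60 0x32446488b92132425a
    3650722202 214748365 (-2811049521) 562209905 5059889139 562209905 = 1 := by decide +kernel

theorem c11b_1242 : go p11b 60 0xc921464a8b92190a35a
    3167538381 53687092 (-421657427) 140552477 3513811903 140552477 = 1 := by decide +kernel

theorem c11b_453 : go p11b 60 0xc8a43214a4524293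
    1556925645 53687092 (-281104951) 281104953 5340994091 281104953 = 1 := by decide +kernel

theorem c11b_419 : go p11b 60 0x32291392152429a
    1127428915 53687092 (-702762379) 140552477 6324861425 140552477 = 1 := by decide +kernel

theorem c11b_161 : go p11b 60 0x32190b91190c35a
    2254857832 107374183 (-3794916855) 140552477 5200441615 140552477 = 1 := by decide +kernel

theorem c11b_190 : go p11b 60 0x3218a4324253
    2469606196 107374183 (-3513811903) 140552477 6043756473 140552477 = 1 := by decide +kernel

theorem c11b_1195 : go p11b 60 0xc8642e435a
    3328599654 107374183 (-1967734665) 281104953 4216574283 281104953 = 1 := by decide +kernel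

theorem c11b_1406 : go p11b 60 0xd
    2684354560 107374183 1967734667 281104953 4216574283 281104953 = 1 := by decide +kernel

end Pool.Agent.MP_5cfbf6_gt.P8.K2
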