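import Pool.Agent.MP_5cfbf6_gt.P8.KP11b

set_option autoImplicit false

namespace Pool.Agent.MP_5cfbf6_gt.P8.K2

theorem c11b_1613 : go p11b 60 0x32190c2e430c8a425a90c85c8642d1
    2899102924 107374183 (-1546077237) 140552477 4919336663 140552477 = 1 := by decide +kernel

theorem c11b_237 : go p11b 60 0x3218e46a472246432172186b4a435d553
    1610612736 107374183 562209905 562209905 2811049521 562209905 = 1 := by decide +kernel

theorem c11b_17 : go p11b 60 0x32186430b9235223242a445a90d753
    966367642 107374183 (-5200441615) 140552477 5903203997 281104953 = 1 := by decide +kernel

theorem c11b_23 : go p11b 60 0xc8642645212e485488c8a445a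
    966367642 107374183 (-5200441615) 140552477 6605966377 140552477 = 1 := by decide +kernel

theorem c11b_236 : go p11b 60 0xc8642a446432252428a90d52a353
    1395864372 107374183 562209905 562209905 2811049521 562209905 = 1 := by decide +kernel

theorem c11b_578 : go p11b 60 0x32391a90c85191c8d486428b
    1825361102 107374183 1546077239 140552477 3092154473 281104953 = 1 := by decide +kernel

theorem c11b_936 : go p11b 60 0x32291391489a90c85c8a44d1
    1825361102 107374183 281104953 281104953 4778784187 281104953 = 1 := by decide +kernel

theorem c11b_1457 : go p11b 60 0x32190a90c85190c85486428b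
    3274912563 53687092 1475801001 70276239 2670497045 140552477 = 1 := by decide +kernel

theorem c11b_306 : go p11b 60 0xc8a44e43216a45227218d3
    885837005 26843546 (-1194696047) 70276239 6324861425 140552477 = 1 := by decide +kernel

theorem c11b_225 : go p11b 60 0xc8a426452a7229532a4321353
    966367642 107374183 562209905 562209905 2811049521 562209905 = 1 := by decide +kernel

theorem c11b_389 : go p11b 60 0x32190b90c85a9217242d2
    885837005 26843546 (-983867331) 140552477 6676242615 70276239 = 1 := by decide +kernel

theorem c11b_1473 : go p11b 60 0x32190b91489991c8642ca
    3382286745 53687092 1264972287 140552477 2951601997 140552477 = 1 := by decide +kernel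

theorem c11b_1506 : go p11b 60 0xc8a431a90c85c8642d1
    3382286745 53687092 2108287143 140552477 2459668331 70276239 = 1 := by decide +kernel

theorem c11b_367 : go p11b 60 0x32191290c8548e4692
    939524097 26843546 (-702762379) 140552477 6114032711 70276239 = 1 := by decide +kernel

theorem c11b_1184 : go p11b 60 0x32291190c85486428b
    2952790015 53687092 (-351381189) 70276239 4076021807 140552477 = 1 := by decide +kernel

theorem c11b_1253 : go p11b 60 0x32291c8d19148e568b
    3328599654 107374183 (-421657427) 140552477 3654364379 281104953 = 1 := by decide +kernel

theorem c11b_956 : go p11b 60 0xc90b90c85a91c8d1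
    2254857832 107374183 421657429 140552477 4919336663 140552477 = 1 := by decide +kernel

theorem c11b_869 : go p11b 60 0x32290c85391489a
    1879048193 53687092 (-1405524761) 281104953 6465413901 281104953 = 1 := by decide +kernel

theorem c11b_779 : go p11b 60 0xc8a4853914859
    2469606196 107374183 140552477 140552477 3513811903 140552477 = 1 := by decide +kernel

theorem c11b_1412 : go p11b 60 0x32391991c8ca
    2952790015 53687092 1546077239 140552477 3513811903 140552477 = 1 := by decide +kernel

theorem c11b_662 : go p11b 60 0x321ae4351aea
    2308544923 53687092 1897458429 70276239 2319115855 70276239 = 1 := by decide +kernel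

theorem c11b_10 : go p11b 60 0xc86baaaaea
    1181116006 107374183 (-6184308949) 562209905 5903203997 281104953 = 1 := by decide +kernel

end Pool.Agent.MP_5cfbf6_gt.P8.K2
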