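import Pool.Agent.MP_5cfbf6_gt.P8.KP11b

set_option autoImplicit false

namespace Pool.Agent.MP_5cfbf6_gt.P8.K2

theorem c11b_1621 : go p11b 60 0x32190a90c85190c85c8e465486468b
    2684354560 107374183 (-702762379) 140552477 4778784187 281104953 = 1 := by decide +kernel

theorem c11b_1134 : go p11b 60 0x32391a90c85195c84d4e472b52190a35a
    2845415833 53687092 (-983867331) 140552477 3794916855 140552477 = 1 := by decide +kernel

theorem c11b_963 : go p11b 60 0x36c86425390c85488c8642a432145a
    2254857832 107374183 843314857 281104953 5340994091 281104953 = 1 := by decide +kernel

theorem c11b_77 : go p11b 60 0xc86390c6a431c8d290c854893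
    1020054733 53687092 (-2529944569) 281104953 6465413901 281104953 = 1 := by decide +kernel

theorem c11b_1498 : go p11b 60 0xc86290c85995486b2e432190a35a
    3382286745 53687092 1827182191 140552477 2389392093 140552477 = 1 := by decide +kernel

theorem c11b_590 : go p11b 60 0x32391a90c85191c8d486428b
    2093796557 53687092 1756905953 70276239 2670497045 140552477 = 1 := by decide +kernel

theorem c11b_937 : go p11b 60 0x32190b90c85a90c85c8642d1
    1825361102 107374183 843314857 281104953 4778784187 281104953 = 1 := by decide +kernel

theorem c11b_1458 : go p11b 60 0x32190a90c85190c85486428b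
    3274912563 53687092 1616353477 70276239 2670497045 140552477 = 1 := by decide +kernel

theorem c11b_308 : go p11b 60 0xc8e42a47214e432152189a
    912680551 53687092 (-1546077237) 140552477 6605966377 140552477 = 1 := by decide +kernel

theorem c11b_547 : go p11b 60 0xc8a44a446435d4e432172235a
    2254857832 107374183 (-843314855) 281104953 3654364379 281104953 = 1 := by decide +kernel

theorem c11b_392 : go p11b 60 0x3218e431a90c85c8642d2
    885837005 26843546 (-702762379) 140552477 6676242615 70276239 = 1 := by decide +kernel

theorem c11b_1475 : go p11b 60 0x3218a431190c85486428b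
    3274912563 53687092 1335248525 70276239 3232706949 140552477 = 1 := by decide +kernel

theorem c11b_1537 : go p11b 60 0xc90991a90c85c8642d1
    3328599654 107374183 421657429 140552477 3513811903 140552477 = 1 := by decide +kernel

theorem c11b_370 : go p11b 60 0x32446484a921324253
    1020054733 53687092 (-1054143569) 70276239 6043756473 140552477 = 1 := by decide +kernel

theorem c11b_1210 : go p11b 60 0x32426488b92132425a
    3328599654 107374183 (-1405524761) 281104953 4216574283 281104953 = 1 := by decide +kernel

theorem c11b_1455 : go p11b 60 0x32190b90c85992135a
    3382286745 53687092 1264972287 140552477 2670497045 140552477 = 1 := by decide +kernel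

theorem c11b_1025 : go p11b 60 0xc8a44e42648cc84a
    2845415833 53687092 (-2319115855) 70276239 4567955473 70276239 = 1 := by decide +kernel

theorem c11b_885 : go p11b 60 0x32291190c864253
    2040109466 107374183 (-140552475) 140552477 5903203997 281104953 = 1 := by decide +kernel

theorem c11b_792 : go p11b 60 0xc86190b90c85a
    2415919105 53687092 140552477 140552477 4076021807 140552477 = 1 := by decide +kernel

theorem c11b_1416 : go p11b 60 0x32190b90c85a
    2952790015 53687092 1264972287 140552477 4076021807 140552477 = 1 := by decide +kernel

theorem c11b_1283 : go p11b 60 0x321909aeaaab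
    2899102924 107374183 843314857 281104953 2529944569 281104953 = 1 := by decide +kernel

theorem c11b_985 : go p11b 60 0xc86baabaaa
    2791728742 214748365 (-5622099044) 1124419810 5059889139 562209905 = 1 := by decide +kernel

end Pool.Agent.MP_5cfbf6_gt.P8.K2
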