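import Pool.Agent.MP_5cfbf6_gt.P8.KP11b

set_option autoImplicit false

namespace Pool.Agent.MP_5cfbf6_gt.P8.K2

theorem c11b_1625 : go p11b 60 0x32290c46452190a2e43223242a445a
    2684354560 107374183 (-843314855) 281104953 5340994091 281104953 = 1 := by decide +kernel

theorem c11b_1422 : go p11b 60 0x32190a91c85190cacd4e432152395a35a
    3060164199 53687092 140552477 140552477 3232706949 140552477 = 1 := by decide +kernel

theorem c11b_1062 : go p11b 60 0x32190990b90c88c86425a90c84d753
    3650722202 214748365 (-5903203997) 281104953 6184308949 562209905 = 1 := by decide +kernel

theorem c11b_93 : go p11b 60 0xc8642a42e45216a43217218d2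
    1395864372 107374183 (-2811049521) 562209905 5903203997 281104953 = 1 := by decide +kernel

theorem c11b_492 : go p11b 60 0x362913b148999215227242a44ca
    966367642 107374183 562209905 562209905 5340994091 281104953 = 1 := by decide +kernel

theorem c11b_501 : go p11b 60 0x32191290c85390c894864299
    1181116006 107374183 281104953 281104953 5903203997 281104953 = 1 := by decide +kernel

theorem c11b_914 : go p11b 60 0x32190b90c85a90c85c8642d1
    2469606196 107374183 (-140552475) 140552477 4638231711 140552477 = 1 := by decide +kernel

theorem c11b_1426 : go p11b 60 0x32190a90c85190c85486428b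
    3060164199 53687092 491933667 70276239 3232706949 140552477 = 1 := by decide +kernel

theorem c11b_253 : go p11b 60 0xc8a42a451390c521522899
    966367642 107374183 (-1405524761) 281104953 4778784187 281104953 = 1 := by decide +kernel

theorem c11b_83 : go p11b 60 0x3218e43216a452a72195aad295d553
    1610612736 107374183 (-3935469331) 562209905 5059889139 562209905 = 1 := by decide +kernel

theorem c11b_470 : go p11b 60 0x32390c85a90c85c8642d2
    1342177281 53687092 (-843314855) 281104953 5762651521 140552477 = 1 := by decide +kernel

theorem c11b_1510 : go p11b 60 0x32190a91190c85486428b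
    3167538381 53687092 1756905953 70276239 2951601997 140552477 = 1 := by decide +kernel

theorem c11b_1587 : go p11b 60 0xc86292146432152188b
    2684354560 107374183 (-1827182189) 140552477 5340994091 281104953 = 1 := by decide +kernel

theorem c11b_395 : go p11b 60 0x3242a43214e431489a
    1046898279 26843546 (-983867331) 140552477 6324861425 140552477 = 1 := by decide +kernel

theorem c11b_1247 : go p11b 60 0x32390a90c85c8642d1
    3060164199 53687092 (-210828713) 70276239 3584088141 70276239 = 1 := by decide +kernel

theorem c11b_228 : go p11b 60 0xc8a44e431991488a
    1181116006 107374183 1686629715 562209905 2529944569 281104953 = 1 := by decide +kernel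

theorem c11b_1056 : go p11b 60 0xc8643119148a44cb
    3221225472 214748365 (-2529944569) 281104953 6184308949 562209905 = 1 := by decide +kernel

theorem c11b_958 : go p11b 60 0x3242e485a90c8d1
    2254857832 107374183 702762381 140552477 4919336663 140552477 = 1 := by decide +kernel

theorem c11b_924 : go p11b 60 0xc8a431390c89a
    2469606196 107374183 (-1967734665) 281104953 5903203997 281104953 = 1 := by decide +kernel

theorem c11b_1540 : go p11b 60 0x32190b90c85a
    3167538381 53687092 140552477 140552477 4076021807 140552477 = 1 := by decide +kernel

theorem c11b_1268 : go p11b 60 0xc86b90d66a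
    2684354560 107374183 421657429 140552477 2951601997 140552477 = 1 := by decide +kernel

theorem c11b_124 : go p11b 60 0x32a951aea
    2362232014 214748365 (-5903203997) 281104953 5903203997 281104953 = 1 := by decide +kernel

end Pool.Agent.MP_5cfbf6_gt.P8.K2
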