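import Pool.Agent.MP_5cfbf6_gt.P8.KP11b

set_option autoImplicit false

namespace Pool.Agent.MP_5cfbf6_gt.P8.K2

theorem c11b_1628 : go p11b 60 0x32190c84b90c86425a90c85c8642d1
    2899102924 107374183 (-983867331) 140552477 4638231711 140552477 = 1 := by decide +kernel

theorem c11b_1731 : go p11b 60 0x36d9212d390c85d8a44cc8642e472345a
    3489660929 53687092 1967734667 281104953 3092154473 281104953 = 1 := by decide +kernel

theorem c11b_1293 : go p11b 60 0x32190b91190c85c8642d190c84d753
    2684354560 107374183 1546077239 140552477 2529944569 281104953 = 1 := by decide +kernel

theorem c11b_97 : go p11b 60 0xc86290b91485a90c85c8642d2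
    1610612736 107374183 (-2811049521) 562209905 5903203997 281104953 = 1 := by decide +kernel

theorem c11b_762 : go p11b 60 0x36c86425391488c8642a432165a
    2415919105 53687092 1827182191 140552477 3232706949 140552477 = 1 := by decide +kernel

theorem c11b_512 : go p11b 60 0x32190a90c85390c854864299
    1610612736 107374183 281104953 281104953 5340994091 281104953 = 1 := by decide +kernel

theorem c11b_917 : go p11b 60 0x32191190c84a91c8cc864653
    2469606196 107374183 (-702762379) 140552477 5340994091 281104953 = 1 := by decide +kernel

theorem c11b_1427 : go p11b 60 0x32190990c84b90c84c86425a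
    3167538381 53687092 421657429 140552477 3232706949 140552477 = 1 := by decide +kernel

theorem c11b_261 : go p11b 60 0xc86390c6a47214a4314852
    912680551 53687092 (-843314855) 281104953 4638231711 140552477 = 1 := by decide +kernel

theorem c11b_159 : go p11b 60 0x32426484b91a9213556e43156ab
    2254857832 107374183 (-4216574283) 281104953 5059889139 562209905 = 1 := by decide +kernel

theorem c11b_354 : go p11b 60 0x32452190a6648a452264b
    885837005 26843546 (-896022034) 17569060 6114032711 70276239 = 1 := by decide +kernel

theorem c11b_1436 : go p11b 60 0x32190b91990c85c8642ca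
    3060164199 53687092 983867333 140552477 3232706949 140552477 = 1 := by decide +kernel

theorem c11b_1321 : go p11b 60 0xc8642a43212e431485a
    2630667469 53687092 421657429 140552477 3794916855 140552477 = 1 := by decide +kernel

theorem c11b_353 : go p11b 60 0x3245226648a452264b
    885837005 26843546 (-931160152) 17569060 6114032711 70276239 = 1 := by decide +kernel

theorem c11b_1103 : go p11b 60 0x32190a91190c85488b
    2845415833 53687092 (-1616353475) 70276239 4357126759 140552477 = 1 := by decide +kernel

theorem c11b_661 : go p11b 60 0x32190990c84b92135a
    2335388469 26843546 1756905953 70276239 2459668331 70276239 = 1 := by decide +kernel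

theorem c11b_805 : go p11b 60 0xc8a446432152188b
    2523293287 53687092 773038619 70276239 4357126759 140552477 = 1 := by decide +kernel

theorem c11b_804 : go p11b 60 0x32291190c85488b
    2523293287 53687092 632486143 70276239 4357126759 140552477 = 1 := by decide +kernel

theorem c11b_584 : go p11b 60 0xc8a426431484b
    2093796557 53687092 1475801001 70276239 2670497045 140552477 = 1 := by decide +kernel

theorem c11b_1171 : go p11b 60 0x32391a91c8d1
    2952790015 53687092 (-351381189) 70276239 3865193093 70276239 = 1 := by decide +kernel

theorem c11b_1712 : go p11b 60 0xc864359aabaaa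
    3650722202 214748365 (-1124419808) 1124419810 2811049521 562209905 = 1 := by decide +kernel

theorem c11b_36 : go p11b 60 0xd
    1395864372 107374183 (-6465413901) 281104953 5903203997 281104953 = 1 := by decide +kernel

theorem c11b_978 : go p11b 60 0xd
    2362232014 214748365 1686629715 562209905 5059889139 562209905 = 1 := by decide +kernel

end Pool.Agent.MP_5cfbf6_gt.P8.K2
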