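import Pool.Agent.MP_5cfbf6_gt.P8.KP11b

set_option autoImplicit false

namespace Pool.Agent.MP_5cfbf6_gt.P8.K2

theorem c11b_1654 : go p11b 60 0x32291392232190c8997218a48622d1
    3221225472 214748365 (-1967734665) 281104953 5340994091 281104953 = 1 := by decide +kernel

theorem c11b_1404 : go p11b 60 0xdb2152290c8597642a432152190a2ca
    2684354560 107374183 1264972287 140552477 4357126759 140552477 = 1 := by decide +kernel

theorem c11b_1448 : go p11b 60 0xc8642a432146435486a2e432152235a
    3167538381 53687092 1264972287 140552477 2670497045 140552477 = 1 := by decide +kernel

theorem c11b_154 : go p11b 60 0xc86290b90c85a90c85c8642d2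
    1825361102 107374183 (-2811049521) 562209905 5903203997 281104953 = 1 := by decide +kernel

theorem c11b_1241 : go p11b 60 0x32191a90c85c8642d190c86b353
    3060164199 53687092 (-351381189) 70276239 3513811903 140552477 = 1 := by decide +kernel

theorem c11b_515 : go p11b 60 0x32190a90c85390c894864299
    1395864372 107374183 281104953 281104953 5903203997 281104953 = 1 := by decide +kernel

theorem c11b_918 : go p11b 60 0x32191190c88a91c8cc8e4653
    2469606196 107374183 (-421657427) 140552477 5340994091 281104953 = 1 := by decide +kernel

theorem c11b_1434 : go p11b 60 0x32190990c84b90c84c86425a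
    3167538381 53687092 702762381 140552477 3232706949 140552477 = 1 := by decide +kernel

theorem c11b_277 : go p11b 60 0xc8646a47234a4721521892
    1020054733 53687092 (-843314855) 281104953 5200441615 140552477 = 1 := by decide +kernel

theorem c11b_581 : go p11b 60 0x32286550b90c35a90c85c86b46b
    2040109466 107374183 1264972287 140552477 2529944569 281104953 = 1 := by decide +kernel

theorem c11b_356 : go p11b 60 0x32190b90c85a90c85c893
    939524097 26843546 (-1054143569) 70276239 6043756473 140552477 = 1 := by decide +kernel

theorem c11b_1440 : go p11b 60 0x32190990c84b92132425a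
    3274912563 53687092 702762381 140552477 3232706949 140552477 = 1 := by decide +kernel

theorem c11b_1328 : go p11b 60 0xc8a446484b90c84c85a
    2738041651 53687092 983867333 140552477 3513811903 140552477 = 1 := by decide +kernel

theorem c11b_362 : go p11b 60 0x3247234648a452264b
    885837005 26843546 (-825745796) 17569060 6114032711 70276239 = 1 := by decide +kernel

theorem c11b_1106 : go p11b 60 0x32190b90c85a90c851
    2952790015 53687092 (-1616353475) 70276239 4427402997 70276239 = 1 := by decide +kernel

theorem c11b_677 : go p11b 60 0x32190990c84b90c35a
    2174327195 26843546 2038010905 70276239 2319115855 70276239 = 1 := by decide +kernel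

theorem c11b_839 : go p11b 60 0xc8642a431391485a
    1825361102 107374183 (-1967734665) 281104953 5340994091 281104953 = 1 := by decide +kernel

theorem c11b_814 : go p11b 60 0x32190c2e432185a
    2201170741 53687092 1546077239 140552477 3513811903 140552477 = 1 := by decide +kernel

theorem c11b_602 : go p11b 60 0xc86430b90c85a
    1986422375 53687092 1546077239 140552477 2951601997 140552477 = 1 := by decide +kernel

theorem c11b_1205 : go p11b 60 0x32190b90c85a
    3167538381 53687092 (-1264972285) 140552477 4076021807 140552477 = 1 := by decide +kernel

theorem c11b_502 : go p11b 60 0x36c853b64299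
    1181116006 107374183 843314857 281104953 5903203997 281104953 = 1 := by decide +kernel

theorem c11b_564 : go p11b 60 0xc861aabaaa
    1825361102 107374183 562209905 562209905 2529944569 281104953 = 1 := by decide +kernel

end Pool.Agent.MP_5cfbf6_gt.P8.K2
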