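import Pool.Agent.MP_5cfbf6_gt.P8.KP11b

set_option autoImplicit false

namespace Pool.Agent.MP_5cfbf6_gt.P8.K2

theorem c11b_1681 : go p11b 60 0x32190b90c85a90c86425c8643212d1
    2684354560 107374183 421657429 140552477 4638231711 140552477 = 1 := by decide +kernel

theorem c11b_572 : go p11b 60 0xc86391a90c85195c84d4e432152235a
    1825361102 107374183 1405524763 281104953 2529944569 281104953 = 1 := by decide +kernel

theorem c11b_977 : go p11b 60 0xdb642d390c85486428c8e46a472345a
    2469606196 107374183 843314857 281104953 5340994091 281104953 = 1 := by decide +kernel

theorem c11b_598 : go p11b 60 0x36391a90c8599217242d486428b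
    2093796557 53687092 2038010905 70276239 2670497045 140552477 = 1 := by decide +kernel

theorem c11b_7 : go p11b 60 0x32291191488b91488c8a445a
    966367642 107374183 (-6043756473) 140552477 6605966377 140552477 = 1 := by decide +kernel

theorem c11b_464 : go p11b 60 0x32391290c85291c894864293
    1556925645 53687092 (-1405524761) 281104953 5903203997 281104953 = 1 := by decide +kernel

theorem c11b_867 : go p11b 60 0x32190a90c85390c85486429a
    1825361102 107374183 (-1967734665) 281104953 6465413901 281104953 = 1 := by decide +kernel

theorem c11b_1345 : go p11b 60 0x32190a90c85190c85486428b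
    2630667469 53687092 913591095 70276239 4076021807 140552477 = 1 := by decide +kernel

theorem c11b_70 : go p11b 60 0xc86390c6a45227242a44d2
    1181116006 107374183 (-3935469331) 562209905 5903203997 281104953 = 1 := by decide +kernel

theorem c11b_1354 : go p11b 60 0xc86390c85a90c85c8642d1
    2952790015 53687092 70276239 70276239 3443535665 70276239 = 1 := by decide +kernel

theorem c11b_1296 : go p11b 60 0x32190990b90c85c8642d1
    2684354560 107374183 1827182191 140552477 2670497045 140552477 = 1 := by decide +kernel

theorem c11b_162 : go p11b 60 0xc8a42e46645217218ca
    2254857832 107374183 (-3794916855) 140552477 5481546567 140552477 = 1 := by decide +kernel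

theorem c11b_1084 : go p11b 60 0xc86190c84b90c32185a
    2738041651 53687092 (-1546077237) 140552477 4357126759 140552477 = 1 := by decide +kernel

theorem c11b_116 : go p11b 60 0x32390a91c85391489a
    2040109466 107374183 (-4778784187) 281104953 5903203997 281104953 = 1 := by decide +kernel

theorem c11b_929 : go p11b 60 0x32190a90c84c864253
    2254857832 107374183 (-421657427) 140552477 5903203997 281104953 = 1 := by decide +kernel

theorem c11b_43 : go p11b 60 0xc8a446552a2e45242cd6ab
    1610612736 107374183 (-6605966377) 140552477 6465413901 281104953 = 1 := by decide +kernel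

theorem c11b_710 : go p11b 60 0xc8a446431486428b
    2308544923 53687092 1475801001 70276239 3232706949 140552477 = 1 := by decide +kernel

theorem c11b_667 : go p11b 60 0x32190c2e432185a
    2174327195 26843546 1897458429 70276239 2600220807 70276239 = 1 := by decide +kernel

theorem c11b_288 : go p11b 60 0xc8e431a91c8d2
    1234803097 53687092 (-843314855) 281104953 5200441615 140552477 = 1 := by decide +kernel

theorem c11b_193 : go p11b 60 0x32190b90c89a
    2254857832 107374183 (-2529944569) 281104953 5903203997 281104953 = 1 := by decide +kernel

theorem c11b_385 : go p11b 60 0x32290c8d2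
    885837005 26843546 (-632486141) 70276239 6254585187 70276239 = 1 := by decide +kernel

theorem c11b_1192 : go p11b 60 0xd
    3221225472 214748365 (-1967734665) 281104953 3654364379 281104953 = 1 := by decide +kernel

end Pool.Agent.MP_5cfbf6_gt.P8.K2
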