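import Pool.Agent.MP_5cfbf6_gt.P8.KP11b

set_option autoImplicit false

namespace Pool.Agent.MP_5cfbf6_gt.P8.K2

theorem c11b_1695 : go p11b 60 0x32190a91c8d190c8548642e432168b
    2899102924 107374183 702762381 140552477 4778784187 281104953 = 1 := by decide +kernel

theorem c11b_631 : go p11b 60 0xc8e44a472346435d4e432132190955a
    2254857832 107374183 281104953 281104953 3092154473 281104953 = 1 := by decide +kernel

theorem c11b_979 : go p11b 60 0xdb6429a90c84c8a425c8642645222d2
    2254857832 107374183 562209905 562209905 5903203997 281104953 = 1 := by decide +kernel

theorem c11b_15 : go p11b 60 0xc8642e432425a90c85c8642d3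
    1181116006 107374183 (-5762651521) 140552477 6465413901 281104953 = 1 := by decide +kernel

theorem c11b_4 : go p11b 60 0x3242a4323465521a8b90cad48e568d6ab
    966367642 107374183 (-6605966377) 140552477 6465413901 281104953 = 1 := by decide +kernel

theorem c11b_614 : go p11b 60 0x32190a90c85190c85486428b
    2040109466 107374183 140552477 140552477 3654364379 281104953 = 1 := by decide +kernel

theorem c11b_961 : go p11b 60 0x32190a90c85191c8d48e468b
    2254857832 107374183 140552477 140552477 5340994091 281104953 = 1 := by decide +kernel

theorem c11b_1478 : go p11b 60 0x32190a90c85190c85486428b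
    3274912563 53687092 1616353477 70276239 2951601997 140552477 = 1 := by decide +kernel

theorem c11b_330 : go p11b 60 0xc91c8519222e486232425a
    885837005 26843546 (-878452974) 35138120 5692375283 70276239 = 1 := by decide +kernel

theorem c11b_1691 : go p11b 60 0xdb642d391488c8642a472345a
    2684354560 107374183 843314857 281104953 5340994091 281104953 = 1 := by decide +kernel

theorem c11b_481 : go p11b 60 0x3218e431a91485c8a42d2
    1342177281 53687092 (-281104951) 281104953 6605966377 140552477 = 1 := by decide +kernel

theorem c11b_1560 : go p11b 60 0x32290c85390c85c8642d1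
    3113851290 107374183 983867333 140552477 4076021807 140552477 = 1 := by decide +kernel

theorem c11b_1611 : go p11b 60 0xc8642a44647242d488b
    2952790015 53687092 (-1616353475) 70276239 4638231711 140552477 = 1 := by decide +kernel

theorem c11b_409 : go p11b 60 0x32290b91489290c893
    1046898279 26843546 (-421657427) 140552477 6605966377 140552477 = 1 := by decide +kernel

theorem c11b_1258 : go p11b 60 0x32426488b92232445a
    3167538381 53687092 (-421657427) 140552477 4076021807 140552477 = 1 := by decide +kernel

theorem c11b_266 : go p11b 60 0xc8a43224a4324293
    1020054733 53687092 (-281104951) 281104953 4778784187 281104953 = 1 := by decide +kernel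

theorem c11b_1154 : go p11b 60 0xc8a446432152428b
    2952790015 53687092 (-913591093) 70276239 4357126759 140552477 = 1 := by decide +kernel

theorem c11b_1019 : go p11b 60 0x3242a426485484b
    2738041651 53687092 (-2600220807) 70276239 4919336663 140552477 = 1 := by decide +kernel

theorem c11b_1122 : go p11b 60 0xc8642e430c85a
    2630667469 53687092 (-140552475) 140552477 3794916855 140552477 = 1 := by decide +kernel

theorem c11b_1561 : go p11b 60 0x32190b90c8d1
    3113851290 107374183 983867333 140552477 4357126759 140552477 = 1 := by decide +kernel

theorem c11b_997 : go p11b 60 0x321909aea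
    3221225472 214748365 (-5903203997) 281104953 5903203997 281104953 = 1 := by decide +kernel

theorem c11b_160 : go p11b 60 0x321aeaaea
    2254857832 107374183 (-3654364379) 281104953 4778784187 281104953 = 1 := by decide +kernel

end Pool.Agent.MP_5cfbf6_gt.P8.K2
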