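import Pool.Agent.MP_5cfbf6_gt.P8.KP11b

set_option autoImplicit false

namespace Pool.Agent.MP_5cfbf6_gt.P8.K2

theorem c11b_1707 : go p11b 60 0x32190990c86424b90c84c8a432145a
    3113851290 107374183 843314857 281104953 4778784187 281104953 = 1 := by decide +kernel

theorem c11b_948 : go p11b 60 0xdb6429a90c85c8644d48642e432168a
    1825361102 107374183 562209905 562209905 5903203997 281104953 = 1 := by decide +kernel

theorem c11b_1162 : go p11b 60 0xc8e42a432146430d4e472b52190a35a
    2845415833 53687092 (-421657427) 140552477 3513811903 140552477 = 1 := by decide +kernel

theorem c11b_21 : go p11b 60 0xc8a47234645222e488c8a445a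
    966367642 107374183 (-5481546567) 140552477 6605966377 140552477 = 1 := by decide +kernel

theorem c11b_690 : go p11b 60 0x36c853b215219116ad90a7642a45222d1
    2308544923 53687092 2178563381 70276239 2459668331 70276239 = 1 := by decide +kernel

theorem c11b_615 : go p11b 60 0x32390a90c85191c8d486428b
    2040109466 107374183 421657429 140552477 3654364379 281104953 = 1 := by decide +kernel

theorem c11b_962 : go p11b 60 0x32190a90c85191c8d486428b
    2254857832 107374183 421657429 140552477 5340994091 281104953 = 1 := by decide +kernel

theorem c11b_1481 : go p11b 60 0x32190a90c85190c85486428b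
    3274912563 53687092 1475801001 70276239 3232706949 140552477 = 1 := by decide +kernel

theorem c11b_331 : go p11b 60 0xc91c85192188b92232425a
    885837005 26843546 (-948729212) 35138120 5832927759 70276239 = 1 := by decide +kernel

theorem c11b_1713 : go p11b 60 0xc864721464acd4e432190a35a
    3650722202 214748365 (-1686629713) 562209905 3935469331 562209905 = 1 := by decide +kernel

theorem c11b_510 : go p11b 60 0x32190b90c85a921524299
    1610612736 107374183 281104953 281104953 4778784187 281104953 = 1 := by decide +kernel

theorem c11b_1563 : go p11b 60 0x3242e432166485c8642ca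
    3328599654 107374183 843314857 281104953 4357126759 140552477 = 1 := by decide +kernel

theorem c11b_1623 : go p11b 60 0xc90b91a90c85c8642d1
    2684354560 107374183 (-140552475) 140552477 4638231711 140552477 = 1 := by decide +kernel

theorem c11b_424 : go p11b 60 0x32190a91390c85489a
    1234803097 53687092 (-702762379) 140552477 6605966377 140552477 = 1 := by decide +kernel

theorem c11b_1264 : go p11b 60 0x32191c8519148e468b
    3328599654 107374183 (-421657427) 140552477 4216574283 281104953 = 1 := by decide +kernel

theorem c11b_300 : go p11b 60 0xc8a42e431a91c892
    912680551 53687092 (-1967734665) 281104953 6324861425 140552477 = 1 := by decide +kernel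

theorem c11b_1190 : go p11b 60 0xc86430b90c86425a
    2952790015 53687092 (-140552475) 140552477 4357126759 140552477 = 1 := by decide +kernel

theorem c11b_1055 : go p11b 60 0x32190b9148644cb
    3221225472 214748365 (-3092154473) 281104953 6184308949 562209905 = 1 := by decide +kernel

theorem c11b_1141 : go p11b 60 0xc8e485a90c851
    2845415833 53687092 (-632486141) 70276239 3865193093 70276239 = 1 := by decide +kernel

theorem c11b_1567 : go p11b 60 0x32391a91c8d1
    3060164199 53687092 1546077239 140552477 3513811903 140552477 = 1 := by decide +kernel

theorem c11b_1136 : go p11b 60 0x321909aea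
    2952790015 53687092 (-913591093) 70276239 3724640617 70276239 = 1 := by decide +kernel

theorem c11b_524 : go p11b 60 0x321aabaaa
    2040109466 107374183 (-1686629713) 562209905 3654364379 281104953 = 1 := by decide +kernel

end Pool.Agent.MP_5cfbf6_gt.P8.K2
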