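import Pool.Agent.MP_5cfbf6_gt.P8.KP11b

set_option autoImplicit false

namespace Pool.Agent.MP_5cfbf6_gt.P8.K2

theorem c11b_1752 : go p11b 60 0x32190a92132425390c85490992129a
    3650722202 214748365 (-1124419808) 1124419810 6184308949 562209905 = 1 := by decide +kernel

theorem c11b_950 : go p11b 60 0xdb6429a90c84c86425c8642645222d2
    2040109466 107374183 562209905 562209905 5903203997 281104953 = 1 := by decide +kernel

theorem c11b_1429 : go p11b 60 0xc8642e46a432172190b46435c86b353
    3328599654 107374183 421657429 140552477 3092154473 281104953 = 1 := by decide +kernel

theorem c11b_22 : go p11b 60 0xc86426430b9215223242a445a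
    966367642 107374183 (-5200441615) 140552477 6324861425 140552477 = 1 := by decide +kernel

theorem c11b_45 : go p11b 60 0xc8e46a47234e472352395a6a5755753
    1610612736 107374183 (-5903203997) 281104953 6184308949 562209905 = 1 := by decide +kernel

theorem c11b_610 : go p11b 60 0x32290991484b91488c8a425a
    1825361102 107374183 281104953 281104953 3654364379 281104953 = 1 := by decide +kernel

theorem c11b_940 : go p11b 60 0x32191a90c85190c8d486428b
    2040109466 107374183 140552477 140552477 4778784187 281104953 = 1 := by decide +kernel

theorem c11b_1477 : go p11b 60 0x32190a90c85190c85486428b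
    3274912563 53687092 1475801001 70276239 2951601997 140552477 = 1 := by decide +kernel

theorem c11b_326 : go p11b 60 0xc8a44e43216a43217218d2
    1234803097 53687092 (-1405524761) 281104953 6324861425 140552477 = 1 := by decide +kernel

theorem c11b_748 : go p11b 60 0xdb2c65391486428c8a472145a
    2523293287 53687092 2108287143 140552477 2670497045 140552477 = 1 := by decide +kernel

theorem c11b_471 : go p11b 60 0x32390c85a90c85c8642d2
    1342177281 53687092 (-843314855) 281104953 6043756473 140552477 = 1 := by decide +kernel

theorem c11b_1511 : go p11b 60 0x32290990990c8548642cb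
    3167538381 53687092 1897458429 70276239 2951601997 140552477 = 1 := by decide +kernel

theorem c11b_1588 : go p11b 60 0xc90a90990c85486428b
    2684354560 107374183 (-1546077237) 140552477 5340994091 281104953 = 1 := by decide +kernel

theorem c11b_400 : go p11b 60 0x32190a90c852914893
    1046898279 26843546 (-702762379) 140552477 6605966377 140552477 = 1 := by decide +kernel

theorem c11b_1249 : go p11b 60 0x32446488b92232445a
    3167538381 53687092 (-140552475) 140552477 3513811903 140552477 = 1 := by decide +kernel

theorem c11b_247 : go p11b 60 0xc8642e431a91c8d1
    1610612736 107374183 843314857 281104953 3654364379 281104953 = 1 := by decide +kernel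

theorem c11b_1064 : go p11b 60 0xc90a92146452428b
    3650722202 214748365 (-4778784187) 281104953 6184308949 562209905 = 1 := by decide +kernel

theorem c11b_969 : go p11b 60 0x32190c2e432185a
    2415919105 53687092 702762381 140552477 4638231711 140552477 = 1 := by decide +kernel

theorem c11b_1015 : go p11b 60 0xc90c46432388b
    2899102924 107374183 (-2951601997) 140552477 5340994091 281104953 = 1 := by decide +kernel

theorem c11b_1552 : go p11b 60 0x32190b90c85a
    3167538381 53687092 983867333 140552477 3794916855 140552477 = 1 := by decide +kernel

theorem c11b_1304 : go p11b 60 0xdb2156428b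
    2684354560 107374183 2108287143 140552477 2951601997 140552477 = 1 := by decide +kernel

theorem c11b_1058 : go p11b 60 0x321aabaaa
    3650722202 214748365 (-5622099044) 1124419810 5059889139 562209905 = 1 := by decide +kernel

end Pool.Agent.MP_5cfbf6_gt.P8.K2
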