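import Pool.Agent.MP_5cfbf6_gt.P8.KP11b

set_option autoImplicit false

namespace Pool.Agent.MP_5cfbf6_gt.P8.K2

theorem c11b_251 : go p11b 60 0xdb2156429d8ac4cab2190b90c85a914862653
    1610612736 107374183 1686629715 562209905 3935469331 562209905 = 1 := by decide +kernel

theorem c11b_556 : go p11b 60 0x32190b90c6a43234647215242a54cb
    2469606196 107374183 (-421657427) 140552477 3654364379 281104953 = 1 := by decide +kernel

theorem c11b_76 : go p11b 60 0x3228e431a90c7218d290c854893
    912680551 53687092 (-2529944569) 281104953 6465413901 281104953 = 1 := by decide +kernel

theorem c11b_403 : go p11b 60 0xc8a39146a451c8a34a4524293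
    885837005 26843546 (-421657427) 140552477 6605966377 140552477 = 1 := by decide +kernel

theorem c11b_8 : go p11b 60 0x32291191488b91488c8a445a
    966367642 107374183 (-5762651521) 140552477 6324861425 140552477 = 1 := by decide +kernel

theorem c11b_465 : go p11b 60 0x32290a91485390c85486429a
    1664299827 53687092 (-1405524761) 281104953 5903203997 281104953 = 1 := by decide +kernel

theorem c11b_875 : go p11b 60 0x32191290c8d39148948e449a
    1771674011 53687092 (-843314855) 281104953 5903203997 281104953 = 1 := by decide +kernel

theorem c11b_1346 : go p11b 60 0x32390a91c8d191c8d48e468b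
    2630667469 53687092 1054143571 70276239 4076021807 140552477 = 1 := by decide +kernel

theorem c11b_74 : go p11b 60 0xc86390c6a431c8d2914893
    912680551 53687092 (-3092154473) 281104953 6465413901 281104953 = 1 := by decide +kernel

theorem c11b_1358 : go p11b 60 0xc90a90c85190c85486428b
    2952790015 53687092 70276239 70276239 3794916855 140552477 = 1 := by decide +kernel

theorem c11b_1301 : go p11b 60 0x32190990c84a921324253
    2630667469 53687092 1546077239 140552477 3232706949 140552477 = 1 := by decide +kernel

theorem c11b_163 : go p11b 60 0xc86191c84a90c323853
    2254857832 107374183 (-3513811903) 140552477 5340994091 281104953 = 1 := by decide +kernel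

theorem c11b_1118 : go p11b 60 0xc8a19142e452132285a
    2738041651 53687092 (-702762379) 140552477 3794916855 140552477 = 1 := by decide +kernel

theorem c11b_153 : go p11b 60 0x32191392152192169a
    2040109466 107374183 (-3654364379) 281104953 6465413901 281104953 = 1 := by decide +kernel

theorem c11b_930 : go p11b 60 0x32291190c85486428b
    2254857832 107374183 (-140552475) 140552477 5903203997 281104953 = 1 := by decide +kernel

theorem c11b_580 : go p11b 60 0xdb642d3b1c8d490b92169a
    1879048193 53687092 1967734667 281104953 3092154473 281104953 = 1 := by decide +kernel

theorem c11b_727 : go p11b 60 0xc8e46a43217242d1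
    2415919105 53687092 1616353477 70276239 2740773283 70276239 = 1 := by decide +kernel

theorem c11b_691 : go p11b 60 0x32190c2e432185a
    2174327195 26843546 2038010905 70276239 2600220807 70276239 = 1 := by decide +kernel

theorem c11b_302 : go p11b 60 0xc86391a91c892
    1020054733 53687092 (-1967734665) 281104953 6324861425 140552477 = 1 := by decide +kernel

theorem c11b_249 : go p11b 60 0x32391a914899
    1610612736 107374183 843314857 281104953 4216574283 281104953 = 1 := by decide +kernel

theorem c11b_1663 : go p11b 60 0x32290c853
    3328599654 107374183 (-1405524761) 281104953 5340994091 281104953 = 1 := by decide +kernel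

theorem c11b_1211 : go p11b 60 0xd
    3113851290 107374183 (-983867331) 140552477 3513811903 140552477 = 1 := by decide +kernel

end Pool.Agent.MP_5cfbf6_gt.P8.K2
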