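import Pool.Agent.MP_5cfbf6_gt.P8.KP11b

set_option autoImplicit false

namespace Pool.Agent.MP_5cfbf6_gt.P8.K2

theorem c11b_1197 : go p11b 60 0x32190b91452391a32a951a9992190b95a35a
    3060164199 53687092 (-1546077237) 140552477 4076021807 140552477 = 1 := by decide +kernel

theorem c11b_85 : go p11b 60 0x32190b90c6a47242d291c8d48e5693
    1610612736 107374183 (-2811049521) 562209905 5059889139 562209905 = 1 := by decide +kernel

theorem c11b_991 : go p11b 60 0xc8642e432132425a90c85c909ad3
    2791728742 214748365 (-5340994091) 281104953 6184308949 562209905 = 1 := by decide +kernel

theorem c11b_205 : go p11b 60 0xc8644a489390c90a521921499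
    966367642 107374183 (-281104951) 281104953 3654364379 281104953 = 1 := by decide +kernel

theorem c11b_32 : go p11b 60 0x3242a44645222e486232445a
    1181116006 107374183 (-5200441615) 140552477 6605966377 140552477 = 1 := by decide +kernel

theorem c11b_469 : go p11b 60 0x32290a90c852914854864293
    1664299827 53687092 (-1405524761) 281104953 6465413901 281104953 = 1 := by decide +kernel

theorem c11b_879 : go p11b 60 0x32190a90c85290c854864293
    1771674011 53687092 (-843314855) 281104953 6465413901 281104953 = 1 := by decide +kernel

theorem c11b_1361 : go p11b 60 0x32190a90c85190c85486428b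
    2952790015 53687092 351381191 70276239 3513811903 140552477 = 1 := by decide +kernel

theorem c11b_89 : go p11b 60 0xc8646a431390c8d486469a
    1610612736 107374183 (-4216574283) 281104953 5903203997 281104953 = 1 := by decide +kernel

theorem c11b_1463 : go p11b 60 0xc8642a431190c85486428b
    3167538381 53687092 1335248525 70276239 2951601997 140552477 = 1 := by decide +kernel

theorem c11b_1327 : go p11b 60 0x32291190c84b91488c85a
    2630667469 53687092 983867333 140552477 3513811903 140552477 = 1 := by decide +kernel

theorem c11b_260 : go p11b 60 0xc8e42a431290c854893
    1234803097 53687092 (-1405524761) 281104953 5340994091 281104953 = 1 := by decide +kernel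

theorem c11b_1155 : go p11b 60 0xc90a90990c85486428b
    2845415833 53687092 (-773038617) 70276239 4076021807 140552477 = 1 := by decide +kernel

theorem c11b_175 : go p11b 60 0x32190a91190c85488b
    2469606196 107374183 (-2389392093) 140552477 4778784187 281104953 = 1 := by decide +kernel

theorem c11b_942 : go p11b 60 0x32190a91190c85488b
    2040109466 107374183 702762381 140552477 4778784187 281104953 = 1 := by decide +kernel

theorem c11b_226 : go p11b 60 0x3229119215222a552a353
    1181116006 107374183 562209905 562209905 2811049521 562209905 = 1 := by decide +kernel

theorem c11b_472 : go p11b 60 0xc8e46a43217218d2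
    1449551463 53687092 (-843314855) 281104953 5762651521 140552477 = 1 := by decide +kernel

theorem c11b_423 : go p11b 60 0x32190a91391489a
    1234803097 53687092 (-983867331) 140552477 6605966377 140552477 = 1 := by decide +kernel

theorem c11b_960 : go p11b 60 0x3642e485a90c851
    2254857832 107374183 983867333 140552477 4919336663 140552477 = 1 := by decide +kernel

theorem c11b_270 : go p11b 60 0x3244642a4313
    912680551 53687092 (-1054143569) 70276239 5481546567 140552477 = 1 := by decide +kernel

theorem c11b_1 : go p11b 60 0xcaeaaab95d55566aae555555c86aaab35566a
    1288490189 429496730 (-4497679235) 2248839619 3373259426 1124419810 = 1 := by decide +kernel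

theorem c11b_1275 : go p11b 60 0xd
    2899102924 107374183 140552477 140552477 2951601997 140552477 = 1 := by decide +kernel

end Pool.Agent.MP_5cfbf6_gt.P8.K2
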