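import Pool.Agent.MP_5cfbf6_gt.P8.KP11b

set_option autoImplicit false

namespace Pool.Agent.MP_5cfbf6_gt.P8.K2

theorem c11b_173 : go p11b 60 0xc8e191c84a95435390c85c84c90a86b55a
    2469606196 107374183 (-3092154473) 281104953 4778784187 281104953 = 1 := by decide +kernel

theorem c11b_1495 : go p11b 60 0xdb219094e432172190a32190a91425a
    3167538381 53687092 2108287143 140552477 2670497045 140552477 = 1 := by decide +kernel

theorem c11b_30 : go p11b 60 0x3242e485a92232445c9099212d3
    1181116006 107374183 (-5481546567) 140552477 6465413901 281104953 = 1 := by decide +kernel

theorem c11b_157 : go p11b 60 0xc8a42e43216a43217229214d2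
    2040109466 107374183 (-2811049521) 562209905 5903203997 281104953 = 1 := by decide +kernel

theorem c11b_1513 : go p11b 60 0x36c85484b90c85484c86426425a
    3167538381 53687092 1827182191 140552477 3232706949 140552477 = 1 := by decide +kernel

theorem c11b_518 : go p11b 60 0x32190a90c85390c854864299
    1610612736 107374183 281104953 281104953 5903203997 281104953 = 1 := by decide +kernel

theorem c11b_919 : go p11b 60 0x32190a90c85191c8d48e468b
    2469606196 107374183 (-140552475) 140552477 5340994091 281104953 = 1 := by decide +kernel

theorem c11b_1442 : go p11b 60 0x32191190c88b90c84c86425a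
    3274912563 53687092 983867333 140552477 2951601997 140552477 = 1 := by decide +kernel

theorem c11b_281 : go p11b 60 0xc90a91491a5248529224ca
    912680551 53687092 (-281104951) 281104953 5481546567 140552477 = 1 := by decide +kernel

theorem c11b_1092 : go p11b 60 0x3218a43539148548a429caaba99
    2952790015 53687092 (-2038010903) 70276239 4357126759 140552477 = 1 := by decide +kernel

theorem c11b_358 : go p11b 60 0x3245229132648a472344b
    885837005 26843546 (-825745796) 17569060 5973480235 70276239 = 1 := by decide +kernel

theorem c11b_1467 : go p11b 60 0x32190a91190c85486428b
    3167538381 53687092 1616353477 70276239 2951601997 140552477 = 1 := by decide +kernel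

theorem c11b_1338 : go p11b 60 0xc90990c88b92132425a
    2738041651 53687092 421657429 140552477 4357126759 140552477 = 1 := by decide +kernel

theorem c11b_364 : go p11b 60 0x3219212e488c92145a
    885837005 26843546 (-737900498) 35138120 6114032711 70276239 = 1 := by decide +kernel

theorem c11b_1123 : go p11b 60 0x32426430b90c32185a
    2738041651 53687092 (-140552475) 140552477 3794916855 140552477 = 1 := by decide +kernel

theorem c11b_744 : go p11b 60 0x322b1c8d19148e468b
    2523293287 53687092 2178563381 70276239 2389392093 140552477 = 1 := by decide +kernel

theorem c11b_842 : go p11b 60 0xc86291391486429a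
    2040109466 107374183 (-1967734665) 281104953 4778784187 281104953 = 1 := by decide +kernel

theorem c11b_822 : go p11b 60 0x32186430a90c853
    2415919105 53687092 1264972287 140552477 3513811903 140552477 = 1 := by decide +kernel

theorem c11b_701 : go p11b 60 0xc8a446452188b
    2308544923 53687092 1194696049 70276239 2951601997 140552477 = 1 := by decide +kernel

theorem c11b_1288 : go p11b 60 0x32290991484b
    2952790015 53687092 773038619 70276239 3232706949 140552477 = 1 := by decide +kernel

theorem c11b_516 : go p11b 60 0x36c853b64299
    1395864372 107374183 843314857 281104953 5903203997 281104953 = 1 := by decide +kernel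

theorem c11b_1316 : go p11b 60 0xdb642ec653
    2899102924 107374183 2108287143 140552477 3092154473 281104953 = 1 := by decide +kernel

end Pool.Agent.MP_5cfbf6_gt.P8.K2
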