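import Pool.Agent.MP_5cfbf6_gt.P8.KP11b

set_option autoImplicit false

namespace Pool.Agent.MP_5cfbf6_gt.P8.K2

theorem c11b_5 : go p11b 60 0xc8a44645222e452428c8a445a954a8d753
    966367642 107374183 (-6324861425) 140552477 6465413901 281104953 = 1 := by decide +kernel

theorem c11b_1016 : go p11b 60 0x3242a426435390c85488d6a4321721ad1
    2684354560 107374183 (-2670497045) 140552477 4638231711 140552477 = 1 := by decide +kernel

theorem c11b_31 : go p11b 60 0x3229099215222e432232290c45a
    1181116006 107374183 (-5200441615) 140552477 6324861425 140552477 = 1 := by decide +kernel

theorem c11b_206 : go p11b 60 0xc8642a43129144a4522521893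
    912680551 53687092 (-843314855) 281104953 4216574283 281104953 = 1 := by decide +kernel

theorem c11b_58 : go p11b 60 0x32391a91c8d391c8d48e469a
    1610612736 107374183 (-5340994091) 281104953 6465413901 281104953 = 1 := by decide +kernel

theorem c11b_476 : go p11b 60 0x32190b90c85a90c85c8642d2
    1342177281 53687092 (-843314855) 281104953 6324861425 140552477 = 1 := by decide +kernel

theorem c11b_882 : go p11b 60 0x32190990c84a90c88c864253
    2040109466 107374183 (-983867331) 140552477 5903203997 281104953 = 1 := by decide +kernel

theorem c11b_1363 : go p11b 60 0x32290b90c85990c84c86425a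
    2845415833 53687092 421657429 140552477 3794916855 140552477 = 1 := by decide +kernel

theorem c11b_129 : go p11b 60 0xc8644643222e432232445a
    2362232014 214748365 (-4778784187) 281104953 5903203997 281104953 = 1 := by decide +kernel

theorem c11b_1490 : go p11b 60 0xc8642a450990c8548a424b
    3167538381 53687092 1897458429 70276239 2670497045 140552477 = 1 := by decide +kernel

theorem c11b_1336 : go p11b 60 0x32191190c88b92132425a
    2738041651 53687092 421657429 140552477 4076021807 140552477 = 1 := by decide +kernel

theorem c11b_267 : go p11b 60 0xc90990b90c85a91c852
    912680551 53687092 (-983867331) 140552477 5200441615 140552477 = 1 := by decide +kernel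

theorem c11b_1167 : go p11b 60 0xc8642a446432352188b
    2845415833 53687092 (-351381189) 70276239 3794916855 140552477 = 1 := by decide +kernel

theorem c11b_185 : go p11b 60 0x3218e47234e452189a
    2254857832 107374183 (-4216574283) 281104953 6465413901 281104953 = 1 := by decide +kernel

theorem c11b_943 : go p11b 60 0x32190a91190c85488b
    2040109466 107374183 983867333 140552477 4778784187 281104953 = 1 := by decide +kernel

theorem c11b_1004 : go p11b 60 0x32291c91192a2cc86b46b
    2791728742 214748365 (-3232706949) 140552477 4778784187 281104953 = 1 := by decide +kernel

theorem c11b_511 : go p11b 60 0xc8642a4853914899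
    1610612736 107374183 843314857 281104953 4778784187 281104953 = 1 := by decide +kernel

theorem c11b_428 : go p11b 60 0x32191291c8642d2
    1234803097 53687092 (-281104951) 281104953 6324861425 140552477 = 1 := by decide +kernel

theorem c11b_1744 : go p11b 60 0x36485a90c8644cb
    3758096384 107374183 1405524763 281104953 3935469331 562209905 = 1 := by decide +kernel

theorem c11b_295 : go p11b 60 0x3242642a4313
    912680551 53687092 (-1335248523) 70276239 6043756473 140552477 = 1 := by decide +kernel

theorem c11b_199 : go p11b 60 0x32aae5559aab955721aab35566a
    1073741824 214748365 (-1124419808) 1124419810 2811049521 562209905 = 1 := by decide +kernel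

theorem c11b_952 : go p11b 60 0xd
    1932735284 214748365 1686629715 562209905 6184308949 562209905 = 1 := by decide +kernel

end Pool.Agent.MP_5cfbf6_gt.P8.K2
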