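import Pool.Agent.MP_5cfbf6_gt.P8.KP11b

set_option autoImplicit false

namespace Pool.Agent.MP_5cfbf6_gt.P8.K2

theorem c11b_135 : go p11b 60 0xc8642e430c8616a435d4e484c90972b55a
    2040109466 107374183 (-4216574283) 281104953 5340994091 281104953 = 1 := by decide +kernel

theorem c11b_1507 : go p11b 60 0x36c86425bb1c85486428c8642e432145a
    3274912563 53687092 2108287143 140552477 2670497045 140552477 = 1 := by decide +kernel

theorem c11b_73 : go p11b 60 0x3228e431a91485489990c7218d2
    966367642 107374183 (-2811049521) 562209905 5903203997 281104953 = 1 := by decide +kernel

theorem c11b_211 : go p11b 60 0xc8a44a45224e43148948a4499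
    1181116006 107374183 (-843314855) 281104953 4216574283 281104953 = 1 := by decide +kernel

theorem c11b_68 : go p11b 60 0x3218e431a91390c7218d489a
    912680551 53687092 (-3654364379) 281104953 6465413901 281104953 = 1 := by decide +kernel

theorem c11b_477 : go p11b 60 0x32290b91485a91485c8642d2
    1342177281 53687092 (-843314855) 281104953 6605966377 140552477 = 1 := by decide +kernel

theorem c11b_883 : go p11b 60 0x32190990c84a90c84c8a4453
    2040109466 107374183 (-702762379) 140552477 5903203997 281104953 = 1 := by decide +kernel

theorem c11b_1364 : go p11b 60 0x3218643212e43213242a445a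
    2952790015 53687092 421657429 140552477 3794916855 140552477 = 1 := by decide +kernel

theorem c11b_170 : go p11b 60 0xc86426431390c85486429a
    2254857832 107374183 (-2529944569) 281104953 4778784187 281104953 = 1 := by decide +kernel

theorem c11b_1492 : go p11b 60 0xc8642a452126432152284b
    3167538381 53687092 2038010905 70276239 2389392093 140552477 = 1 := by decide +kernel

theorem c11b_1339 : go p11b 60 0x3218a432146431486428b
    2630667469 53687092 632486143 70276239 4076021807 140552477 = 1 := by decide +kernel

theorem c11b_284 : go p11b 60 0xc8642a431290c854893
    1234803097 53687092 (-843314855) 281104953 4778784187 281104953 = 1 := by decide +kernel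

theorem c11b_1170 : go p11b 60 0xc8642e43216a47242d1
    2952790015 53687092 (-351381189) 70276239 3724640617 70276239 = 1 := by decide +kernel

theorem c11b_188 : go p11b 60 0x3242e46a432425c8d3
    2469606196 107374183 (-3794916855) 140552477 5903203997 281104953 = 1 := by decide +kernel

theorem c11b_955 : go p11b 60 0x32190b90c85a91c8d1
    2254857832 107374183 421657429 140552477 4638231711 140552477 = 1 := by decide +kernel

theorem c11b_1135 : go p11b 60 0x32190b90d6a432172b46b
    2952790015 53687092 (-1054143569) 70276239 3794916855 140552477 = 1 := by decide +kernel

theorem c11b_548 : go p11b 60 0xc8a44a446485488b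
    2254857832 107374183 (-421657427) 140552477 3654364379 281104953 = 1 := by decide +kernel

theorem c11b_430 : go p11b 60 0x32190a8e431c85a
    1234803097 53687092 (-140552475) 140552477 6605966377 140552477 = 1 := by decide +kernel

theorem c11b_90 : go p11b 60 0xc8642e452429a
    1610612736 107374183 (-3654364379) 281104953 5903203997 281104953 = 1 := by decide +kernel

theorem c11b_41 : go p11b 60 0x32391a91c8d3
    1395864372 107374183 (-5762651521) 140552477 6465413901 281104953 = 1 := by decide +kernel

theorem c11b_1738 : go p11b 60 0xc8642e485a
    3597035111 53687092 843314857 281104953 3654364379 281104953 = 1 := by decide +kernel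

end Pool.Agent.MP_5cfbf6_gt.P8.K2
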