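import Pool.Agent.MP_5cfbf6_gt.P8.KP11b

set_option autoImplicit false

namespace Pool.Agent.MP_5cfbf6_gt.P8.K2

theorem c11b_1700 : go p11b 60 0xdb1c90b4ad9212d48643212e4321909693
    2684354560 107374183 562209905 562209905 6184308949 562209905 = 1 := by decide +kernel

theorem c11b_555 : go p11b 60 0xc8642a472146432135390c85486235a
    2469606196 107374183 (-843314855) 281104953 3654364379 281104953 = 1 := by decide +kernel

theorem c11b_1073 : go p11b 60 0xc90991c8d191488c90a32390d68a
    4080218932 214748365 (-3373259426) 1124419810 5059889139 562209905 = 1 := by decide +kernel

theorem c11b_265 : go p11b 60 0xc8a48948648922a4521921493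
    912680551 53687092 (-281104951) 281104953 4778784187 281104953 = 1 := by decide +kernel

theorem c11b_87 : go p11b 60 0x32391a90c85391c8d486469a
    1395864372 107374183 (-4216574283) 281104953 6465413901 281104953 = 1 := by decide +kernel

theorem c11b_479 : go p11b 60 0x32190b90c85a90c85c8642d2
    1449551463 53687092 (-843314855) 281104953 6605966377 140552477 = 1 := by decide +kernel

theorem c11b_898 : go p11b 60 0x32190a90c85390c85486429a
    2469606196 107374183 (-1405524761) 281104953 5340994091 281104953 = 1 := by decide +kernel

theorem c11b_1366 : go p11b 60 0x32190990c84b91484c8a445a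
    2952790015 53687092 702762381 140552477 3513811903 140552477 = 1 := by decide +kernel

theorem c11b_172 : go p11b 60 0xc90a91484b90c85486425a
    2254857832 107374183 (-2529944569) 281104953 5340994091 281104953 = 1 := by decide +kernel

theorem c11b_1493 : go p11b 60 0xc8642e452126432152284b
    3167538381 53687092 2178563381 70276239 2389392093 140552477 = 1 := by decide +kernel

theorem c11b_1347 : go p11b 60 0x3218a432146431486428b
    2738041651 53687092 913591095 70276239 4076021807 140552477 = 1 := by decide +kernel

theorem c11b_290 : go p11b 60 0xc8a4324292914864293
    1127428915 53687092 (-281104951) 281104953 5340994091 281104953 = 1 := by decide +kernel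

theorem c11b_1173 : go p11b 60 0xc8e46a485191c8d488b
    2845415833 53687092 (-70276237) 70276239 3513811903 140552477 = 1 := by decide +kernel

theorem c11b_207 : go p11b 60 0x32190a90c4a4314893
    1020054733 53687092 (-843314855) 281104953 4216574283 281104953 = 1 := by decide +kernel

theorem c11b_957 : go p11b 60 0x32190b90c85a91c8d1
    2254857832 107374183 702762381 140552477 4638231711 140552477 = 1 := by decide +kernel

theorem c11b_1292 : go p11b 60 0x32290990d4e432172b46b
    2684354560 107374183 1264972287 140552477 2529944569 281104953 = 1 := by decide +kernel

theorem c11b_605 : go p11b 60 0xc86190c2e432185a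
    1986422375 53687092 1827182191 140552477 2951601997 140552477 = 1 := by decide +kernel

theorem c11b_449 : go p11b 60 0x32290c852914893
    1556925645 53687092 (-281104951) 281104953 4778784187 281104953 = 1 := by decide +kernel

theorem c11b_146 : go p11b 60 0xc8a44e452429a
    1825361102 107374183 (-3654364379) 281104953 6465413901 281104953 = 1 := by decide +kernel

theorem c11b_49 : go p11b 60 0x32191a90c8d3
    1395864372 107374183 (-4638231711) 140552477 5903203997 281104953 = 1 := by decide +kernel

theorem c11b_522 : go p11b 60 0xc86426aaeaaab90d55d55566a
    1932735284 214748365 (-1124419808) 1124419810 2811049521 562209905 = 1 := by decide +kernel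

theorem c11b_1710 : go p11b 60 0xd
    3221225472 214748365 1686629715 562209905 5059889139 562209905 = 1 := by decide +kernel

end Pool.Agent.MP_5cfbf6_gt.P8.K2
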