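import Pool.Agent.MP_5cfbf6_gt.P8.KP11b

set_option autoImplicit false

namespace Pool.Agent.MP_5cfbf6_gt.P8.K2

theorem c11b_12 : go p11b 60 0x32291191488b91488c8a445a90ca8d753
    1181116006 107374183 (-6324861425) 140552477 6465413901 281104953 = 1 := by decide +kernel

theorem c11b_568 : go p11b 60 0x32390a90c85195c84d4e432152190a35a
    2040109466 107374183 281104953 281104953 3092154473 281104953 = 1 := by decide +kernel

theorem c11b_1415 : go p11b 60 0xc86c46432190a2e432232190c45a
    2845415833 53687092 1264972287 140552477 4076021807 140552477 = 1 := by decide +kernel

theorem c11b_268 : go p11b 60 0xc8642e45216a431485c8a42d2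
    885837005 26843546 (-702762379) 140552477 5200441615 140552477 = 1 := by decide +kernel

theorem c11b_91 : go p11b 60 0x32190a9214e432352392169a
    1610612736 107374183 (-4216574283) 281104953 6465413901 281104953 = 1 := by decide +kernel

theorem c11b_483 : go p11b 60 0x32291a91c8d29148d48e4693
    1556925645 53687092 (-843314855) 281104953 5903203997 281104953 = 1 := by decide +kernel

theorem c11b_899 : go p11b 60 0x32391990c84a91c8cc864253
    2254857832 107374183 (-983867331) 140552477 4778784187 281104953 = 1 := by decide +kernel

theorem c11b_1383 : go p11b 60 0x3242e485a90c9097219212d1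
    2899102924 107374183 983867333 140552477 4357126759 140552477 = 1 := by decide +kernel

theorem c11b_177 : go p11b 60 0xc8642e446485486429c8ca
    2469606196 107374183 (-3232706949) 140552477 5481546567 140552477 = 1 := by decide +kernel

theorem c11b_1530 : go p11b 60 0xc90a90c85190c85486428b
    3060164199 53687092 351381191 70276239 3513811903 140552477 = 1 := by decide +kernel

theorem c11b_1360 : go p11b 60 0x32190990c2e450c8a425a
    2845415833 53687092 421657429 140552477 3513811903 140552477 = 1 := by decide +kernel

theorem c11b_297 : go p11b 60 0xc86291390c85a91c852
    1020054733 53687092 (-1405524761) 281104953 5762651521 140552477 = 1 := by decide +kernel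

theorem c11b_1187 : go p11b 60 0xc90990c2e430c8a425a
    2845415833 53687092 (-140552475) 140552477 4076021807 140552477 = 1 := by decide +kernel

theorem c11b_210 : go p11b 60 0x3244a4893922524499
    1181116006 107374183 (-281104951) 281104953 3654364379 281104953 = 1 := by decide +kernel

theorem c11b_959 : go p11b 60 0x32190b90c85a91c8d1
    2254857832 107374183 983867333 140552477 4638231711 140552477 = 1 := by decide +kernel

theorem c11b_1306 : go p11b 60 0x32190b90d6a484c86b46b
    2899102924 107374183 1264972287 140552477 2529944569 281104953 = 1 := by decide +kernel

theorem c11b_606 : go p11b 60 0xc86290990c85488b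
    2093796557 53687092 1756905953 70276239 2951601997 140552477 = 1 := by decide +kernel

theorem c11b_467 : go p11b 60 0x3218a431391489a
    1664299827 53687092 (-1967734665) 281104953 6465413901 281104953 = 1 := by decide +kernel

theorem c11b_150 : go p11b 60 0xc86485a90c853
    2040109466 107374183 (-3513811903) 140552477 5903203997 281104953 = 1 := by decide +kernel

theorem c11b_50 : go p11b 60 0x32391a91c8d3
    1395864372 107374183 (-5481546567) 140552477 6465413901 281104953 = 1 := by decide +kernel

theorem c11b_724 : go p11b 60 0xc909aa484d751aea
    2469606196 107374183 1546077239 140552477 2389392093 140552477 = 1 := by decide +kernel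

theorem c11b_1571 : go p11b 60 0xd
    3113851290 107374183 1967734667 281104953 3935469331 562209905 = 1 := by decide +kernel

end Pool.Agent.MP_5cfbf6_gt.P8.K2
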