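import Pool.Agent.MP_5cfbf6_gt.P8.KS2
import Pool.Agent.MP_5cfbf6_gt.P8.K11b00
import Pool.Agent.MP_5cfbf6_gt.P8.K11b01
import Pool.Agent.MP_5cfbf6_gt.P8.K11b02
import Pool.Agent.MP_5cfbf6_gt.P8.K11b03
import Pool.Agent.MP_5cfbf6_gt.P8.K11b04
import Pool.Agent.MP_5cfbf6_gt.P8.K11b05
import Pool.Agent.MP_5cfbf6_gt.P8.K11b06
import Pool.Agent.MP_5cfbf6_gt.P8.K11b07
import Pool.Agent.MP_5cfbf6_gt.P8.K11b08
import Pool.Agent.MP_5cfbf6_gt.P8.K11b09
import Pool.Agent.MP_5cfbf6_gt.P8.K11b10
import Pool.Agent.MP_5cfbf6_gt.P8.K11b11
import Pool.Agent.MP_5cfbf6_gt.P8.K11b12
import Pool.Agent.MP_5cfbf6_gt.P8.K11b13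
import Pool.Agent.MP_5cfbf6_gt.P8.K11b14
import Pool.Agent.MP_5cfbf6_gt.P8.K11b15
import Pool.Agent.MP_5cfbf6_gt.P8.K11b16
import Pool.Agent.MP_5cfbf6_gt.P8.K11b17
import Pool.Agent.MP_5cfbf6_gt.P8.K11b18
import Pool.Agent.MP_5cfbf6_gt.P8.K11b19
import Pool.Agent.MP_5cfbf6_gt.P8.K11b20
import Pool.Agent.MP_5cfbf6_gt.P8.K11b21
import Pool.Agent.MP_5cfbf6_gt.P8.K11b22
import Pool.Agent.MP_5cfbf6_gt.P8.K11b23
import Pool.Agent.MP_5cfbf6_gt.P8.K11b24
import Pool.Agent.MP_5cfbf6_gt.P8.K11b25
import Pool.Agent.MP_5cfbf6_gt.P8.K11b26
import Pool.Agent.MP_5cfbf6_gt.P8.K11b27
import Pool.Agent.MP_5cfbf6_gt.P8.K11b28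
import Pool.Agent.MP_5cfbf6_gt.P8.K11b29
import Pool.Agent.MP_5cfbf6_gt.P8.K11b30
import Pool.Agent.MP_5cfbf6_gt.P8.K11b31
import Pool.Agent.MP_5cfbf6_gt.P8.K11b32
import Pool.Agent.MP_5cfbf6_gt.P8.K11b33
import Pool.Agent.MP_5cfbf6_gt.P8.K11b34
import Pool.Agent.MP_5cfbf6_gt.P8.K11b35
import Pool.Agent.MP_5cfbf6_gt.P8.K11b36
import Pool.Agent.MP_5cfbf6_gt.P8.K11b37
import Pool.Agent.MP_5cfbf6_gt.P8.K11b38
import Pool.Agent.MP_5cfbf6_gt.P8.K11b39
import Pool.Agent.MP_5cfbf6_gt.P8.K11b40
import Pool.Agent.MP_5cfbf6_gt.P8.K11b41
import Pool.Agent.MP_5cfbf6_gt.P8.K11b42
import Pool.Agent.MP_5cfbf6_gt.P8.K11b43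
import Pool.Agent.MP_5cfbf6_gt.P8.K11b44
import Pool.Agent.MP_5cfbf6_gt.P8.K11b45
import Pool.Agent.MP_5cfbf6_gt.P8.K11b46
import Pool.Agent.MP_5cfbf6_gt.P8.K11b47
import Pool.Agent.MP_5cfbf6_gt.P8.K11b48
import Pool.Agent.MP_5cfbf6_gt.P8.K11b49
import Pool.Agent.MP_5cfbf6_gt.P8.K11b50
import Pool.Agent.MP_5cfbf6_gt.P8.K11b51
import Pool.Agent.MP_5cfbf6_gt.P8.K11b52
import Pool.Agent.MP_5cfbf6_gt.P8.K11b53
import Pool.Agent.MP_5cfbf6_gt.P8.K11b54
import Pool.Agent.MP_5cfbf6_gt.P8.K11b55
import Pool.Agent.MP_5cfbf6_gt.P8.K11b56
import Pool.Agent.MP_5cfbf6_gt.P8.K11b57
import Pool.Agent.MP_5cfbf6_gt.P8.K11b58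
import Pool.Agent.MP_5cfbf6_gt.P8.K11b59
import Pool.Agent.MP_5cfbf6_gt.P8.K11b60
import Pool.Agent.MP_5cfbf6_gt.P8.K11b61
import Pool.Agent.MP_5cfbf6_gt.P8.K11b62
import Pool.Agent.MP_5cfbf6_gt.P8.K11b63
import Pool.Agent.MP_5cfbf6_gt.P8.K11b64
import Pool.Agent.MP_5cfbf6_gt.P8.K11b65
import Pool.Agent.MP_5cfbf6_gt.P8.K11b66
import Pool.Agent.MP_5cfbf6_gt.P8.K11b67
import Pool.Agent.MP_5cfbf6_gt.P8.K11b68
import Pool.Agent.MP_5cfbf6_gt.P8.K11b69
import Pool.Agent.MP_5cfbf6_gt.P8.K11b70
import Pool.Agent.MP_5cfbf6_gt.P8.K11b71
import Pool.Agent.MP_5cfbf6_gt.P8.K11b72
import Pool.Agent.MP_5cfbf6_gt.P8.K11b73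
import Pool.Agent.MP_5cfbf6_gt.P8.K11b74
import Pool.Agent.MP_5cfbf6_gt.P8.K11b75
import Pool.Agent.MP_5cfbf6_gt.P8.K11b76
import Pool.Agent.MP_5cfbf6_gt.P8.K11b77
import Pool.Agent.MP_5cfbf6_gt.P8.K11b78
import Pool.Agent.MP_5cfbf6_gt.P8.K11b79

set_option autoImplicit false

namespace Pool.Agent.MP_5cfbf6_gt.P8.K2

variable {L : List Ck} {b s : ℝ}

theorem ok11b_1 (H : Good p11b L b s) :
    Ok L b s 1288490189 429496730 (-4497679235) 2248839619 3373259426 1124419810 :=
  (ok_go H c11b_1)

theorem ok11b_2 (H : Good p11b L b s) :
    Ok L b s 1288490189 429496730 (-5622099044) 1124419810 5622099044 1124419810 :=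
  (.s1 1073741824 1503238554 214748365 (by decide)
   (.s3 5059889139 6184308949 562209905 (by decide)
    (ok_go H c11b_2)
    (.s2 (-6184308949) (-5059889139) 562209905 (by decide)
     (.s1 966367642 1181116006 107374183 (by decide)
      (.s3 5903203997 6465413901 281104953 (by decide)
       (ok_go H c11b_3)
       (.s2 (-6465413901) (-5903203997) 281104953 (by decide)
        (.s2 (-6605966377) (-6324861425) 140552477 (by decide)
         (ok_go H c11b_4)
         (ok_go H c11b_5))
        (.s2 (-6043756473) (-5762651521) 140552477 (by decide)
         (.s3 6324861425 6605966377 140552477 (by decide)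
          (ok_go H c11b_6)
          (ok_go H c11b_7))
         (.s3 6324861425 6605966377 140552477 (by decide)
          (ok_go H c11b_8)
          (ok_go H c11b_9)))))
      (.s3 5903203997 6465413901 281104953 (by decide)
       (ok_go H c11b_10)
       (.s2 (-6465413901) (-5903203997) 281104953 (by decide)
        (.s2 (-6605966377) (-6324861425) 140552477 (by decide)
         (ok_go H c11b_11)
         (ok_go H c11b_12))
        (.s2 (-6043756473) (-5762651521) 140552477 (by decide)
         (.s3 6324861425 6605966377 140552477 (by decide)
          (ok_go H c11b_13)
          (ok_go H c11b_14))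
         (ok_go H c11b_15)))))
     (.s1 966367642 1181116006 107374183 (by decide)
      (.s3 5903203997 6465413901 281104953 (by decide)
       (.s2 (-5340994091) (-4778784187) 281104953 (by decide)
        (.s2 (-5481546567) (-5200441615) 140552477 (by decide)
         (ok_go H c11b_16)
         (ok_go H c11b_17))
        (ok_go H c11b_18))
       (.s2 (-5340994091) (-4778784187) 281104953 (by decide)
        (.s2 (-5481546567) (-5200441615) 140552477 (by decide)
         (.s3 6324861425 6605966377 140552477 (by decide)
          (.s2 (-5551822805) (-5411270329) 70276239 (by decide)
           (ok_go H c11b_19)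
           (ok_go H c11b_20))
          (ok_go H c11b_21))
         (.s3 6324861425 6605966377 140552477 (by decide)
          (ok_go H c11b_22)
          (ok_go H c11b_23)))
        (.s2 (-4919336663) (-4638231711) 140552477 (by decide)
         (ok_go H c11b_24)
         (ok_go H c11b_25))))
      (.s3 5903203997 6465413901 281104953 (by decide)
       (.s2 (-5340994091) (-4778784187) 281104953 (by decide)
        (.s3 5762651521 6043756473 140552477 (by decide)
         (ok_go H c11b_26)
         (.s2 (-5481546567) (-5200441615) 140552477 (by decide)
          (ok_go H c11b_27)
          (ok_go H c11b_28)))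
        (ok_go H c11b_29))
       (.s2 (-5340994091) (-4778784187) 281104953 (by decide)
        (.s2 (-5481546567) (-5200441615) 140552477 (by decide)
         (ok_go H c11b_30)
         (.s3 6324861425 6605966377 140552477 (by decide)
          (ok_go H c11b_31)
          (ok_go H c11b_32)))
        (.s2 (-4919336663) (-4638231711) 140552477 (by decide)
         (ok_go H c11b_33)
         (ok_go H c11b_34)))))))
   (.s3 5059889139 6184308949 562209905 (by decide)
    (ok_go H c11b_35)
    (.s2 (-6184308949) (-5059889139) 562209905 (by decide)
     (.s1 1395864372 1610612736 107374183 (by decide)
      (.s2 (-6465413901) (-5903203997) 281104953 (by decide)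
       (.s3 5903203997 6465413901 281104953 (by decide)
        (ok_go H c11b_36)
        (.s2 (-6605966377) (-6324861425) 140552477 (by decide)
         (ok_go H c11b_37)
         (ok_go H c11b_38)))
       (.s3 5903203997 6465413901 281104953 (by decide)
        (ok_go H c11b_39)
        (.s2 (-6043756473) (-5762651521) 140552477 (by decide)
         (ok_go H c11b_40)
         (ok_go H c11b_41))))
      (.s2 (-6465413901) (-5903203997) 281104953 (by decide)
       (.s3 5903203997 6465413901 281104953 (by decide)
        (ok_go H c11b_42)
        (.s2 (-6605966377) (-6324861425) 140552477 (by decide)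
         (ok_go H c11b_43)
         (ok_go H c11b_44)))
       (ok_go H c11b_45)))
     (.s1 1395864372 1610612736 107374183 (by decide)
      (.s3 5903203997 6465413901 281104953 (by decide)
       (.s2 (-5340994091) (-4778784187) 281104953 (by decide)
        (ok_go H c11b_46)
        (.s2 (-4919336663) (-4638231711) 140552477 (by decide)
         (.s3 5762651521 6043756473 140552477 (by decide)
          (ok_go H c11b_47)
          (ok_go H c11b_48))
         (ok_go H c11b_49)))
       (.s2 (-5340994091) (-4778784187) 281104953 (by decide)
        (.s2 (-5481546567) (-5200441615) 140552477 (by decide)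
         (ok_go H c11b_50)
         (ok_go H c11b_51))
        (.s2 (-4919336663) (-4638231711) 140552477 (by decide)
         (.s3 6324861425 6605966377 140552477 (by decide)
          (ok_go H c11b_52)
          (ok_go H c11b_53))
         (ok_go H c11b_54))))
      (.s3 5903203997 6465413901 281104953 (by decide)
       (.s2 (-5340994091) (-4778784187) 281104953 (by decide)
        (ok_go H c11b_55)
        (.s2 (-4919336663) (-4638231711) 140552477 (by decide)
         (ok_go H c11b_56)
         (ok_go H c11b_57)))
       (.s2 (-5340994091) (-4778784187) 281104953 (by decide)
        (ok_go H c11b_58)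
        (.s2 (-4919336663) (-4638231711) 140552477 (by decide)
         (ok_go H c11b_59)
         (ok_go H c11b_60))))))))

theorem ok11b_3 (H : Good p11b L b s) :
    Ok L b s 1288490189 429496730 (-3373259426) 1124419810 5622099044 1124419810 :=
  (.s1 1073741824 1503238554 214748365 (by decide)
   (.s3 5059889139 6184308949 562209905 (by decide)
    (.s2 (-3935469331) (-2811049521) 562209905 (by decide)
     (.s1 966367642 1181116006 107374183 (by decide)
      (ok_go H c11b_61)
      (ok_go H c11b_62))
     (.s1 966367642 1181116006 107374183 (by decide)
      (ok_go H c11b_63)
      (ok_go H c11b_64)))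
    (.s2 (-3935469331) (-2811049521) 562209905 (by decide)
     (.s1 966367642 1181116006 107374183 (by decide)
      (.s3 5903203997 6465413901 281104953 (by decide)
       (ok_go H c11b_65)
       (.s2 (-4216574283) (-3654364379) 281104953 (by decide)
        (.s2 (-4357126759) (-4076021807) 140552477 (by decide)
         (ok_go H c11b_66)
         (ok_go H c11b_67))
        (.s1 912680551 1020054733 53687092 (by decide)
         (ok_go H c11b_68)
         (ok_go H c11b_69))))
      (.s3 5903203997 6465413901 281104953 (by decide)
       (ok_go H c11b_70)
       (.s2 (-4216574283) (-3654364379) 281104953 (by decide)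
        (ok_go H c11b_71)
        (ok_go H c11b_72))))
     (.s1 966367642 1181116006 107374183 (by decide)
      (.s3 5903203997 6465413901 281104953 (by decide)
       (ok_go H c11b_73)
       (.s2 (-3092154473) (-2529944569) 281104953 (by decide)
        (.s1 912680551 1020054733 53687092 (by decide)
         (ok_go H c11b_74)
         (ok_go H c11b_75))
        (.s1 912680551 1020054733 53687092 (by decide)
         (ok_go H c11b_76)
         (ok_go H c11b_77))))
      (.s3 5903203997 6465413901 281104953 (by decide)
       (ok_go H c11b_78)
       (.s2 (-3092154473) (-2529944569) 281104953 (by decide)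
        (ok_go H c11b_79)
        (.s1 1127428915 1234803097 53687092 (by decide)
         (ok_go H c11b_80)
         (ok_go H c11b_81)))))))
   (.s3 5059889139 6184308949 562209905 (by decide)
    (.s2 (-3935469331) (-2811049521) 562209905 (by decide)
     (.s1 1395864372 1610612736 107374183 (by decide)
      (ok_go H c11b_82)
      (ok_go H c11b_83))
     (.s1 1395864372 1610612736 107374183 (by decide)
      (ok_go H c11b_84)
      (ok_go H c11b_85)))
    (.s2 (-3935469331) (-2811049521) 562209905 (by decide)
     (.s1 1395864372 1610612736 107374183 (by decide)
      (.s3 5903203997 6465413901 281104953 (by decide)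
       (ok_go H c11b_86)
       (.s2 (-4216574283) (-3654364379) 281104953 (by decide)
        (ok_go H c11b_87)
        (ok_go H c11b_88)))
      (.s3 5903203997 6465413901 281104953 (by decide)
       (.s2 (-4216574283) (-3654364379) 281104953 (by decide)
        (ok_go H c11b_89)
        (ok_go H c11b_90))
       (.s2 (-4216574283) (-3654364379) 281104953 (by decide)
        (ok_go H c11b_91)
        (ok_go H c11b_92))))
     (.s1 1395864372 1610612736 107374183 (by decide)
      (.s3 5903203997 6465413901 281104953 (by decide)
       (ok_go H c11b_93)
       (.s2 (-3092154473) (-2529944569) 281104953 (by decide)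
        (ok_go H c11b_94)
        (.s1 1342177281 1449551463 53687092 (by decide)
         (ok_go H c11b_95)
         (ok_go H c11b_96))))
      (.s3 5903203997 6465413901 281104953 (by decide)
       (ok_go H c11b_97)
       (.s2 (-3092154473) (-2529944569) 281104953 (by decide)
        (ok_go H c11b_98)
        (ok_go H c11b_99)))))))

theorem ok11b_4 (H : Good p11b L b s) :
    Ok L b s 2147483649 429496730 (-4497679235) 2248839619 3373259426 1124419810 :=
  (ok_go H c11b_100)

theorem ok11b_5 (H : Good p11b L b s) :
    Ok L b s 2147483649 429496730 (-5622099044) 1124419810 5622099044 1124419810 :=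
  (.s1 1932735284 2362232014 214748365 (by decide)
   (.s3 5059889139 6184308949 562209905 (by decide)
    (ok_go H c11b_101)
    (.s2 (-6184308949) (-5059889139) 562209905 (by decide)
     (.s2 (-6465413901) (-5903203997) 281104953 (by decide)
      (.s3 5903203997 6465413901 281104953 (by decide)
       (ok_go H c11b_102)
       (.s2 (-6605966377) (-6324861425) 140552477 (by decide)
        (.s3 6324861425 6605966377 140552477 (by decide)
         (ok_go H c11b_103)
         (.s1 1825361102 2040109466 107374183 (by decide)
          (ok_go H c11b_104)
          (ok_go H c11b_105)))
        (ok_go H c11b_106)))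
      (.s3 5903203997 6465413901 281104953 (by decide)
       (ok_go H c11b_107)
       (.s2 (-6043756473) (-5762651521) 140552477 (by decide)
        (ok_go H c11b_108)
        (ok_go H c11b_109))))
     (.s1 1825361102 2040109466 107374183 (by decide)
      (.s3 5903203997 6465413901 281104953 (by decide)
       (.s2 (-5340994091) (-4778784187) 281104953 (by decide)
        (ok_go H c11b_110)
        (.s2 (-4919336663) (-4638231711) 140552477 (by decide)
         (ok_go H c11b_111)
         (ok_go H c11b_112)))
       (.s2 (-5340994091) (-4778784187) 281104953 (by decide)
        (ok_go H c11b_113)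
        (ok_go H c11b_114)))
      (.s2 (-5340994091) (-4778784187) 281104953 (by decide)
       (ok_go H c11b_115)
       (.s3 5903203997 6465413901 281104953 (by decide)
        (ok_go H c11b_116)
        (ok_go H c11b_117))))))
   (.s3 5059889139 6184308949 562209905 (by decide)
    (ok_go H c11b_118)
    (.s2 (-6184308949) (-5059889139) 562209905 (by decide)
     (.s2 (-6465413901) (-5903203997) 281104953 (by decide)
      (.s3 5903203997 6465413901 281104953 (by decide)
       (ok_go H c11b_119)
       (.s2 (-6605966377) (-6324861425) 140552477 (by decide)
        (.s3 6324861425 6605966377 140552477 (by decide)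
         (ok_go H c11b_120)
         (.s1 2254857832 2469606196 107374183 (by decide)
          (ok_go H c11b_121)
          (ok_go H c11b_122)))
        (ok_go H c11b_123)))
      (.s3 5903203997 6465413901 281104953 (by decide)
       (ok_go H c11b_124)
       (.s2 (-6043756473) (-5762651521) 140552477 (by decide)
        (ok_go H c11b_125)
        (ok_go H c11b_126))))
     (.s2 (-5340994091) (-4778784187) 281104953 (by decide)
      (.s3 5903203997 6465413901 281104953 (by decide)
       (ok_go H c11b_127)
       (ok_go H c11b_128))
      (.s3 5903203997 6465413901 281104953 (by decide)
       (ok_go H c11b_129)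
       (ok_go H c11b_130))))))

theorem ok11b_6 (H : Good p11b L b s) :
    Ok L b s 2147483649 429496730 (-3373259426) 1124419810 5622099044 1124419810 :=
  (.s1 1932735284 2362232014 214748365 (by decide)
   (.s3 5059889139 6184308949 562209905 (by decide)
    (.s2 (-3935469331) (-2811049521) 562209905 (by decide)
     (.s1 1825361102 2040109466 107374183 (by decide)
      (.s3 4778784187 5340994091 281104953 (by decide)
       (ok_go H c11b_131)
       (.s2 (-4216574283) (-3654364379) 281104953 (by decide)
        (ok_go H c11b_132)
        (ok_go H c11b_133)))
      (.s3 4778784187 5340994091 281104953 (by decide)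
       (ok_go H c11b_134)
       (.s2 (-4216574283) (-3654364379) 281104953 (by decide)
        (ok_go H c11b_135)
        (ok_go H c11b_136))))
     (.s1 1825361102 2040109466 107374183 (by decide)
      (.s3 4778784187 5340994091 281104953 (by decide)
       (ok_go H c11b_137)
       (ok_go H c11b_138))
      (.s3 4778784187 5340994091 281104953 (by decide)
       (ok_go H c11b_139)
       (ok_go H c11b_140))))
    (.s2 (-3935469331) (-2811049521) 562209905 (by decide)
     (.s1 1825361102 2040109466 107374183 (by decide)
      (.s3 5903203997 6465413901 281104953 (by decide)
       (.s2 (-4216574283) (-3654364379) 281104953 (by decide)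
        (.s2 (-4357126759) (-4076021807) 140552477 (by decide)
         (ok_go H c11b_141)
         (ok_go H c11b_142))
        (ok_go H c11b_143))
       (.s2 (-4216574283) (-3654364379) 281104953 (by decide)
        (.s2 (-4357126759) (-4076021807) 140552477 (by decide)
         (ok_go H c11b_144)
         (ok_go H c11b_145))
        (ok_go H c11b_146)))
      (.s3 5903203997 6465413901 281104953 (by decide)
       (.s2 (-4216574283) (-3654364379) 281104953 (by decide)
        (.s2 (-4357126759) (-4076021807) 140552477 (by decide)
         (ok_go H c11b_147)
         (ok_go H c11b_148))
        (.s2 (-3794916855) (-3513811903) 140552477 (by decide)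
         (ok_go H c11b_149)
         (ok_go H c11b_150)))
       (.s2 (-4216574283) (-3654364379) 281104953 (by decide)
        (.s2 (-4357126759) (-4076021807) 140552477 (by decide)
         (ok_go H c11b_151)
         (ok_go H c11b_152))
        (ok_go H c11b_153))))
     (.s1 1825361102 2040109466 107374183 (by decide)
      (.s3 5903203997 6465413901 281104953 (by decide)
       (ok_go H c11b_154)
       (.s2 (-3092154473) (-2529944569) 281104953 (by decide)
        (ok_go H c11b_155)
        (ok_go H c11b_156)))
      (.s3 5903203997 6465413901 281104953 (by decide)
       (ok_go H c11b_157)
       (ok_go H c11b_158)))))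
   (.s3 5059889139 6184308949 562209905 (by decide)
    (.s2 (-3935469331) (-2811049521) 562209905 (by decide)
     (.s1 2254857832 2469606196 107374183 (by decide)
      (.s2 (-4216574283) (-3654364379) 281104953 (by decide)
       (ok_go H c11b_159)
       (.s3 4778784187 5340994091 281104953 (by decide)
        (ok_go H c11b_160)
        (.s2 (-3794916855) (-3513811903) 140552477 (by decide)
         (.s3 5200441615 5481546567 140552477 (by decide)
          (ok_go H c11b_161)
          (ok_go H c11b_162))
         (ok_go H c11b_163))))
      (.s2 (-4216574283) (-3654364379) 281104953 (by decide)
       (ok_go H c11b_164)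
       (.s3 4778784187 5340994091 281104953 (by decide)
        (ok_go H c11b_165)
        (.s2 (-3794916855) (-3513811903) 140552477 (by decide)
         (ok_go H c11b_166)
         (.s3 5200441615 5481546567 140552477 (by decide)
          (ok_go H c11b_167)
          (ok_go H c11b_168))))))
     (.s1 2254857832 2469606196 107374183 (by decide)
      (.s3 4778784187 5340994091 281104953 (by decide)
       (.s2 (-3092154473) (-2529944569) 281104953 (by decide)
        (ok_go H c11b_169)
        (ok_go H c11b_170))
       (.s2 (-3092154473) (-2529944569) 281104953 (by decide)
        (ok_go H c11b_171)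
        (ok_go H c11b_172)))
      (.s3 4778784187 5340994091 281104953 (by decide)
       (.s2 (-3092154473) (-2529944569) 281104953 (by decide)
        (ok_go H c11b_173)
        (.s2 (-2670497045) (-2389392093) 140552477 (by decide)
         (ok_go H c11b_174)
         (ok_go H c11b_175)))
       (.s2 (-3092154473) (-2529944569) 281104953 (by decide)
        (.s2 (-3232706949) (-2951601997) 140552477 (by decide)
         (.s3 5200441615 5481546567 140552477 (by decide)
          (ok_go H c11b_176)
          (ok_go H c11b_177))
         (ok_go H c11b_178))
        (ok_go H c11b_179)))))
    (.s2 (-3935469331) (-2811049521) 562209905 (by decide)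
     (.s1 2254857832 2469606196 107374183 (by decide)
      (.s3 5903203997 6465413901 281104953 (by decide)
       (.s2 (-4216574283) (-3654364379) 281104953 (by decide)
        (.s2 (-4357126759) (-4076021807) 140552477 (by decide)
         (ok_go H c11b_180)
         (ok_go H c11b_181))
        (.s2 (-3794916855) (-3513811903) 140552477 (by decide)
         (.s3 5762651521 6043756473 140552477 (by decide)
          (ok_go H c11b_182)
          (ok_go H c11b_183))
         (ok_go H c11b_184)))
       (.s2 (-4216574283) (-3654364379) 281104953 (by decide)
        (ok_go H c11b_185)
        (ok_go H c11b_186)))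
      (.s2 (-4216574283) (-3654364379) 281104953 (by decide)
       (ok_go H c11b_187)
       (.s3 5903203997 6465413901 281104953 (by decide)
        (.s2 (-3794916855) (-3513811903) 140552477 (by decide)
         (ok_go H c11b_188)
         (.s3 5762651521 6043756473 140552477 (by decide)
          (ok_go H c11b_189)
          (ok_go H c11b_190)))
        (ok_go H c11b_191))))
     (.s1 2254857832 2469606196 107374183 (by decide)
      (.s3 5903203997 6465413901 281104953 (by decide)
       (.s2 (-3092154473) (-2529944569) 281104953 (by decide)
        (ok_go H c11b_192)
        (ok_go H c11b_193))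
       (ok_go H c11b_194))
      (.s3 5903203997 6465413901 281104953 (by decide)
       (.s2 (-3092154473) (-2529944569) 281104953 (by decide)
        (.s2 (-3232706949) (-2951601997) 140552477 (by decide)
         (ok_go H c11b_195)
         (ok_go H c11b_196))
        (ok_go H c11b_197))
       (ok_go H c11b_198))))))

theorem ok11b_7 (H : Good p11b L b s) :
    Ok L b s 1288490189 429496730 1 2248839619 3373259426 1124419810 :=
  (.s2 (-1124419808) 1124419810 1124419810 (by decide)
   (.s1 1073741824 1503238554 214748365 (by decide)
    (.s3 2811049521 3935469331 562209905 (by decide)
     (ok_go H c11b_199)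
     (.s2 (-1686629713) (-562209903) 562209905 (by decide)
      (.s1 966367642 1181116006 107374183 (by decide)
       (.s3 3654364379 4216574283 281104953 (by decide)
        (ok_go H c11b_200)
        (ok_go H c11b_201))
       (.s3 3654364379 4216574283 281104953 (by decide)
        (ok_go H c11b_202)
        (ok_go H c11b_203)))
      (.s1 966367642 1181116006 107374183 (by decide)
       (.s3 3654364379 4216574283 281104953 (by decide)
        (.s2 (-843314855) (-281104951) 281104953 (by decide)
         (ok_go H c11b_204)
         (ok_go H c11b_205))
        (.s2 (-843314855) (-281104951) 281104953 (by decide)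
         (.s1 912680551 1020054733 53687092 (by decide)
          (ok_go H c11b_206)
          (ok_go H c11b_207))
         (ok_go H c11b_208)))
       (.s3 3654364379 4216574283 281104953 (by decide)
        (.s2 (-843314855) (-281104951) 281104953 (by decide)
         (ok_go H c11b_209)
         (ok_go H c11b_210))
        (.s2 (-843314855) (-281104951) 281104953 (by decide)
         (ok_go H c11b_211)
         (ok_go H c11b_212))))))
    (.s3 2811049521 3935469331 562209905 (by decide)
     (ok_go H c11b_213)
     (.s2 (-1686629713) (-562209903) 562209905 (by decide)
      (.s1 1395864372 1610612736 107374183 (by decide)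
       (.s3 3654364379 4216574283 281104953 (by decide)
        (ok_go H c11b_214)
        (ok_go H c11b_215))
       (ok_go H c11b_216))
      (.s1 1395864372 1610612736 107374183 (by decide)
       (.s3 3654364379 4216574283 281104953 (by decide)
        (.s2 (-843314855) (-281104951) 281104953 (by decide)
         (ok_go H c11b_217)
         (ok_go H c11b_218))
        (.s2 (-843314855) (-281104951) 281104953 (by decide)
         (ok_go H c11b_219)
         (ok_go H c11b_220)))
       (.s3 3654364379 4216574283 281104953 (by decide)
        (.s2 (-843314855) (-281104951) 281104953 (by decide)
         (ok_go H c11b_221)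
         (ok_go H c11b_222))
        (.s2 (-843314855) (-281104951) 281104953 (by decide)
         (ok_go H c11b_223)
         (ok_go H c11b_224)))))))
   (.s1 1073741824 1503238554 214748365 (by decide)
    (.s3 2811049521 3935469331 562209905 (by decide)
     (.s2 562209905 1686629715 562209905 (by decide)
      (.s1 966367642 1181116006 107374183 (by decide)
       (ok_go H c11b_225)
       (ok_go H c11b_226))
      (.s1 966367642 1181116006 107374183 (by decide)
       (ok_go H c11b_227)
       (.s3 2529944569 3092154473 281104953 (by decide)
        (ok_go H c11b_228)
        (ok_go H c11b_229))))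
     (.s2 562209905 1686629715 562209905 (by decide)
      (.s1 966367642 1181116006 107374183 (by decide)
       (.s3 3654364379 4216574283 281104953 (by decide)
        (ok_go H c11b_230)
        (ok_go H c11b_231))
       (.s3 3654364379 4216574283 281104953 (by decide)
        (ok_go H c11b_232)
        (ok_go H c11b_233)))
      (.s1 966367642 1181116006 107374183 (by decide)
       (ok_go H c11b_234)
       (ok_go H c11b_235))))
    (.s3 2811049521 3935469331 562209905 (by decide)
     (.s2 562209905 1686629715 562209905 (by decide)
      (.s1 1395864372 1610612736 107374183 (by decide)
       (ok_go H c11b_236)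
       (ok_go H c11b_237))
      (.s1 1395864372 1610612736 107374183 (by decide)
       (.s3 2529944569 3092154473 281104953 (by decide)
        (ok_go H c11b_238)
        (ok_go H c11b_239))
       (.s3 2529944569 3092154473 281104953 (by decide)
        (.s2 1405524763 1967734667 281104953 (by decide)
         (ok_go H c11b_240)
         (ok_go H c11b_241))
        (.s2 1405524763 1967734667 281104953 (by decide)
         (ok_go H c11b_242)
         (ok_go H c11b_243)))))
     (.s2 562209905 1686629715 562209905 (by decide)
      (.s1 1395864372 1610612736 107374183 (by decide)
       (.s3 3654364379 4216574283 281104953 (by decide)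
        (ok_go H c11b_244)
        (ok_go H c11b_245))
       (.s3 3654364379 4216574283 281104953 (by decide)
        (.s2 281104953 843314857 281104953 (by decide)
         (ok_go H c11b_246)
         (ok_go H c11b_247))
        (.s2 281104953 843314857 281104953 (by decide)
         (ok_go H c11b_248)
         (ok_go H c11b_249))))
      (.s1 1395864372 1610612736 107374183 (by decide)
       (ok_go H c11b_250)
       (ok_go H c11b_251))))))

theorem ok11b_8 (H : Good p11b L b s) :
    Ok L b s 1073741824 214748365 (-1124419808) 1124419810 5059889139 562209905 :=
  (.s2 (-1686629713) (-562209903) 562209905 (by decide)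
   (.s1 966367642 1181116006 107374183 (by decide)
    (.s3 4778784187 5340994091 281104953 (by decide)
     (.s2 (-1967734665) (-1405524761) 281104953 (by decide)
      (ok_go H c11b_252)
      (ok_go H c11b_253))
     (.s2 (-1967734665) (-1405524761) 281104953 (by decide)
      (ok_go H c11b_254)
      (.s1 912680551 1020054733 53687092 (by decide)
       (ok_go H c11b_255)
       (ok_go H c11b_256))))
    (.s3 4778784187 5340994091 281104953 (by decide)
     (ok_go H c11b_257)
     (.s2 (-1967734665) (-1405524761) 281104953 (by decide)
      (ok_go H c11b_258)
      (.s1 1127428915 1234803097 53687092 (by decide)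
       (ok_go H c11b_259)
       (ok_go H c11b_260)))))
   (.s1 966367642 1181116006 107374183 (by decide)
    (.s3 4778784187 5340994091 281104953 (by decide)
     (.s2 (-843314855) (-281104951) 281104953 (by decide)
      (.s1 912680551 1020054733 53687092 (by decide)
       (.s3 4638231711 4919336663 140552477 (by decide)
        (ok_go H c11b_261)
        (.s2 (-983867331) (-702762379) 140552477 (by decide)
         (ok_go H c11b_262)
         (ok_go H c11b_263)))
       (ok_go H c11b_264))
      (.s1 912680551 1020054733 53687092 (by decide)
       (ok_go H c11b_265)
       (ok_go H c11b_266)))
     (.s2 (-843314855) (-281104951) 281104953 (by decide)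
      (.s1 912680551 1020054733 53687092 (by decide)
       (.s3 5200441615 5481546567 140552477 (by decide)
        (.s2 (-983867331) (-702762379) 140552477 (by decide)
         (ok_go H c11b_267)
         (.s1 885837005 939524097 26843546 (by decide)
          (ok_go H c11b_268)
          (ok_go H c11b_269)))
        (.s2 (-983867331) (-702762379) 140552477 (by decide)
         (.s2 (-1054143569) (-913591093) 70276239 (by decide)
          (ok_go H c11b_270)
          (.s2 (-948729212) (-878452974) 35138120 (by decide)
           (ok_go H c11b_271)
           (ok_go H c11b_272)))
         (.s1 885837005 939524097 26843546 (by decide)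
          (.s3 5411270329 5551822805 70276239 (by decide)
           (ok_go H c11b_273)
           (.s2 (-773038617) (-632486141) 70276239 (by decide)
            (ok_go H c11b_274)
            (ok_go H c11b_275)))
          (ok_go H c11b_276))))
       (.s3 5200441615 5481546567 140552477 (by decide)
        (ok_go H c11b_277)
        (.s2 (-983867331) (-702762379) 140552477 (by decide)
         (ok_go H c11b_278)
         (ok_go H c11b_279))))
      (.s1 912680551 1020054733 53687092 (by decide)
       (.s3 5200441615 5481546567 140552477 (by decide)
        (ok_go H c11b_280)
        (ok_go H c11b_281))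
       (ok_go H c11b_282))))
    (.s3 4778784187 5340994091 281104953 (by decide)
     (.s2 (-843314855) (-281104951) 281104953 (by decide)
      (.s1 1127428915 1234803097 53687092 (by decide)
       (ok_go H c11b_283)
       (ok_go H c11b_284))
      (ok_go H c11b_285))
     (.s2 (-843314855) (-281104951) 281104953 (by decide)
      (.s1 1127428915 1234803097 53687092 (by decide)
       (.s3 5200441615 5481546567 140552477 (by decide)
        (ok_go H c11b_286)
        (ok_go H c11b_287))
       (.s3 5200441615 5481546567 140552477 (by decide)
        (ok_go H c11b_288)
        (ok_go H c11b_289)))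
      (.s1 1127428915 1234803097 53687092 (by decide)
       (ok_go H c11b_290)
       (ok_go H c11b_291))))))

theorem ok11b_9 (H : Good p11b L b s) :
    Ok L b s 1073741824 214748365 (-1686629713) 562209905 6184308949 562209905 :=
  (.s1 966367642 1181116006 107374183 (by decide)
   (.s3 5903203997 6465413901 281104953 (by decide)
    (.s2 (-1967734665) (-1405524761) 281104953 (by decide)
     (ok_go H c11b_292)
     (.s1 912680551 1020054733 53687092 (by decide)
      (.s3 5762651521 6043756473 140552477 (by decide)
       (ok_go H c11b_293)
       (.s2 (-1546077237) (-1264972285) 140552477 (by decide)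
        (ok_go H c11b_294)
        (.s2 (-1335248523) (-1194696047) 70276239 (by decide)
         (ok_go H c11b_295)
         (ok_go H c11b_296))))
      (.s3 5762651521 6043756473 140552477 (by decide)
       (ok_go H c11b_297)
       (.s2 (-1546077237) (-1264972285) 140552477 (by decide)
        (ok_go H c11b_298)
        (ok_go H c11b_299)))))
    (.s2 (-1967734665) (-1405524761) 281104953 (by decide)
     (.s1 912680551 1020054733 53687092 (by decide)
      (.s3 6324861425 6605966377 140552477 (by decide)
       (ok_go H c11b_300)
       (ok_go H c11b_301))
      (.s3 6324861425 6605966377 140552477 (by decide)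
       (ok_go H c11b_302)
       (ok_go H c11b_303)))
     (.s1 912680551 1020054733 53687092 (by decide)
      (.s3 6324861425 6605966377 140552477 (by decide)
       (.s2 (-1546077237) (-1264972285) 140552477 (by decide)
        (ok_go H c11b_304)
        (.s1 885837005 939524097 26843546 (by decide)
         (.s2 (-1335248523) (-1194696047) 70276239 (by decide)
          (ok_go H c11b_305)
          (ok_go H c11b_306))
         (ok_go H c11b_307)))
       (.s2 (-1546077237) (-1264972285) 140552477 (by decide)
        (ok_go H c11b_308)
        (.s1 885837005 939524097 26843546 (by decide)
         (ok_go H c11b_309)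
         (ok_go H c11b_310))))
      (.s3 6324861425 6605966377 140552477 (by decide)
       (.s2 (-1546077237) (-1264972285) 140552477 (by decide)
        (ok_go H c11b_311)
        (ok_go H c11b_312))
       (.s2 (-1546077237) (-1264972285) 140552477 (by decide)
        (ok_go H c11b_313)
        (ok_go H c11b_314))))))
   (.s3 5903203997 6465413901 281104953 (by decide)
    (.s2 (-1967734665) (-1405524761) 281104953 (by decide)
     (ok_go H c11b_315)
     (.s1 1127428915 1234803097 53687092 (by decide)
      (.s3 5762651521 6043756473 140552477 (by decide)
       (ok_go H c11b_316)
       (ok_go H c11b_317))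
      (.s3 5762651521 6043756473 140552477 (by decide)
       (ok_go H c11b_318)
       (ok_go H c11b_319))))
    (.s2 (-1967734665) (-1405524761) 281104953 (by decide)
     (.s1 1127428915 1234803097 53687092 (by decide)
      (.s3 6324861425 6605966377 140552477 (by decide)
       (ok_go H c11b_320)
       (ok_go H c11b_321))
      (ok_go H c11b_322))
     (.s1 1127428915 1234803097 53687092 (by decide)
      (.s3 6324861425 6605966377 140552477 (by decide)
       (ok_go H c11b_323)
       (.s2 (-1546077237) (-1264972285) 140552477 (by decide)
        (ok_go H c11b_324)
        (ok_go H c11b_325)))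
      (.s3 6324861425 6605966377 140552477 (by decide)
       (ok_go H c11b_326)
       (ok_go H c11b_327))))))

theorem ok11b_10 (H : Good p11b L b s) :
    Ok L b s 966367642 107374183 (-562209903) 562209905 6184308949 562209905 :=
  (.s3 5903203997 6465413901 281104953 (by decide)
   (.s2 (-843314855) (-281104951) 281104953 (by decide)
    (.s1 912680551 1020054733 53687092 (by decide)
     (.s3 5762651521 6043756473 140552477 (by decide)
      (.s2 (-983867331) (-702762379) 140552477 (by decide)
       (.s1 885837005 939524097 26843546 (by decide)
        (.s2 (-1054143569) (-913591093) 70276239 (by decide)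
         (ok_go H c11b_328)
         (.s3 5692375283 5832927759 70276239 (by decide)
          (.s2 (-948729212) (-878452974) 35138120 (by decide)
           (ok_go H c11b_329)
           (ok_go H c11b_330))
          (.s2 (-948729212) (-878452974) 35138120 (by decide)
           (ok_go H c11b_331)
           (.s2 (-896022034) (-860883914) 17569060 (by decide)
            (ok_go H c11b_332)
            (ok_go H c11b_333)))))
        (.s2 (-1054143569) (-913591093) 70276239 (by decide)
         (ok_go H c11b_334)
         (ok_go H c11b_335)))
       (.s1 885837005 939524097 26843546 (by decide)
        (.s3 5692375283 5832927759 70276239 (by decide)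
         (.s2 (-773038617) (-632486141) 70276239 (by decide)
          (.s2 (-808176736) (-737900498) 35138120 (by decide)
           (.s2 (-825745796) (-790607676) 17569060 (by decide)
            (ok_go H c11b_336)
            (ok_go H c11b_337))
           (ok_go H c11b_338))
          (ok_go H c11b_339))
         (.s2 (-773038617) (-632486141) 70276239 (by decide)
          (.s2 (-808176736) (-737900498) 35138120 (by decide)
           (.s2 (-825745796) (-790607676) 17569060 (by decide)
            (ok_go H c11b_340)
            (ok_go H c11b_341))
           (ok_go H c11b_342))
          (ok_go H c11b_343)))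
        (.s2 (-773038617) (-632486141) 70276239 (by decide)
         (ok_go H c11b_344)
         (ok_go H c11b_345))))
      (.s2 (-983867331) (-702762379) 140552477 (by decide)
       (.s1 885837005 939524097 26843546 (by decide)
        (.s3 5973480235 6114032711 70276239 (by decide)
         (.s2 (-1054143569) (-913591093) 70276239 (by decide)
          (ok_go H c11b_346)
          (.s2 (-948729212) (-878452974) 35138120 (by decide)
           (.s2 (-966298272) (-931160152) 17569060 (by decide)
            (ok_go H c11b_347)
            (ok_go H c11b_348))
           (.s2 (-896022034) (-860883914) 17569060 (by decide)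
            (ok_go H c11b_349)
            (ok_go H c11b_350))))
         (.s2 (-1054143569) (-913591093) 70276239 (by decide)
          (ok_go H c11b_351)
          (.s2 (-948729212) (-878452974) 35138120 (by decide)
           (.s2 (-966298272) (-931160152) 17569060 (by decide)
            (ok_go H c11b_352)
            (ok_go H c11b_353))
           (.s2 (-896022034) (-860883914) 17569060 (by decide)
            (ok_go H c11b_354)
            (ok_go H c11b_355)))))
        (.s2 (-1054143569) (-913591093) 70276239 (by decide)
         (ok_go H c11b_356)
         (ok_go H c11b_357)))
       (.s1 885837005 939524097 26843546 (by decide)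
        (.s3 5973480235 6114032711 70276239 (by decide)
         (.s2 (-773038617) (-632486141) 70276239 (by decide)
          (.s2 (-808176736) (-737900498) 35138120 (by decide)
           (.s2 (-825745796) (-790607676) 17569060 (by decide)
            (ok_go H c11b_358)
            (ok_go H c11b_359))
           (ok_go H c11b_360))
          (ok_go H c11b_361))
         (.s2 (-773038617) (-632486141) 70276239 (by decide)
          (.s2 (-808176736) (-737900498) 35138120 (by decide)
           (.s2 (-825745796) (-790607676) 17569060 (by decide)
            (ok_go H c11b_362)
            (ok_go H c11b_363))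
           (ok_go H c11b_364))
          (ok_go H c11b_365)))
        (.s3 5973480235 6114032711 70276239 (by decide)
         (ok_go H c11b_366)
         (ok_go H c11b_367)))))
     (.s3 5762651521 6043756473 140552477 (by decide)
      (.s2 (-983867331) (-702762379) 140552477 (by decide)
       (ok_go H c11b_368)
       (ok_go H c11b_369))
      (.s2 (-983867331) (-702762379) 140552477 (by decide)
       (.s2 (-1054143569) (-913591093) 70276239 (by decide)
        (ok_go H c11b_370)
        (ok_go H c11b_371))
       (ok_go H c11b_372))))
    (.s1 912680551 1020054733 53687092 (by decide)
     (.s3 5762651521 6043756473 140552477 (by decide)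
      (ok_go H c11b_373)
      (ok_go H c11b_374))
     (.s3 5762651521 6043756473 140552477 (by decide)
      (ok_go H c11b_375)
      (ok_go H c11b_376))))
   (.s2 (-843314855) (-281104951) 281104953 (by decide)
    (.s1 912680551 1020054733 53687092 (by decide)
     (.s3 6324861425 6605966377 140552477 (by decide)
      (.s2 (-983867331) (-702762379) 140552477 (by decide)
       (.s1 885837005 939524097 26843546 (by decide)
        (.s3 6254585187 6395137663 70276239 (by decide)
         (.s2 (-1054143569) (-913591093) 70276239 (by decide)
          (ok_go H c11b_377)
          (.s2 (-948729212) (-878452974) 35138120 (by decide)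
           (ok_go H c11b_378)
           (ok_go H c11b_379)))
         (.s2 (-1054143569) (-913591093) 70276239 (by decide)
          (ok_go H c11b_380)
          (ok_go H c11b_381)))
        (.s3 6254585187 6395137663 70276239 (by decide)
         (ok_go H c11b_382)
         (ok_go H c11b_383)))
       (.s1 885837005 939524097 26843546 (by decide)
        (.s3 6254585187 6395137663 70276239 (by decide)
         (.s2 (-773038617) (-632486141) 70276239 (by decide)
          (ok_go H c11b_384)
          (ok_go H c11b_385))
         (ok_go H c11b_386))
        (ok_go H c11b_387)))
      (.s2 (-983867331) (-702762379) 140552477 (by decide)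
       (.s1 885837005 939524097 26843546 (by decide)
        (.s3 6535690139 6676242615 70276239 (by decide)
         (ok_go H c11b_388)
         (ok_go H c11b_389))
        (ok_go H c11b_390))
       (.s1 885837005 939524097 26843546 (by decide)
        (.s3 6535690139 6676242615 70276239 (by decide)
         (ok_go H c11b_391)
         (ok_go H c11b_392))
        (ok_go H c11b_393))))
     (.s3 6324861425 6605966377 140552477 (by decide)
      (.s2 (-983867331) (-702762379) 140552477 (by decide)
       (.s1 993211187 1046898279 26843546 (by decide)
        (ok_go H c11b_394)
        (ok_go H c11b_395))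
       (ok_go H c11b_396))
      (.s2 (-983867331) (-702762379) 140552477 (by decide)
       (.s1 993211187 1046898279 26843546 (by decide)
        (ok_go H c11b_397)
        (ok_go H c11b_398))
       (.s1 993211187 1046898279 26843546 (by decide)
        (ok_go H c11b_399)
        (ok_go H c11b_400)))))
    (.s1 912680551 1020054733 53687092 (by decide)
     (.s3 6324861425 6605966377 140552477 (by decide)
      (.s2 (-421657427) (-140552475) 140552477 (by decide)
       (ok_go H c11b_401)
       (ok_go H c11b_402))
      (.s2 (-421657427) (-140552475) 140552477 (by decide)
       (.s1 885837005 939524097 26843546 (by decide)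
        (ok_go H c11b_403)
        (ok_go H c11b_404))
       (.s1 885837005 939524097 26843546 (by decide)
        (ok_go H c11b_405)
        (ok_go H c11b_406))))
     (.s3 6324861425 6605966377 140552477 (by decide)
      (ok_go H c11b_407)
      (.s2 (-421657427) (-140552475) 140552477 (by decide)
       (.s1 993211187 1046898279 26843546 (by decide)
        (ok_go H c11b_408)
        (ok_go H c11b_409))
       (ok_go H c11b_410))))))

theorem ok11b_11 (H : Good p11b L b s) :
    Ok L b s 1181116006 107374183 (-562209903) 562209905 6184308949 562209905 :=
  (.s3 5903203997 6465413901 281104953 (by decide)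
   (.s2 (-843314855) (-281104951) 281104953 (by decide)
    (.s1 1127428915 1234803097 53687092 (by decide)
     (.s3 5762651521 6043756473 140552477 (by decide)
      (ok_go H c11b_411)
      (.s2 (-983867331) (-702762379) 140552477 (by decide)
       (ok_go H c11b_412)
       (ok_go H c11b_413)))
     (.s3 5762651521 6043756473 140552477 (by decide)
      (ok_go H c11b_414)
      (ok_go H c11b_415)))
    (.s1 1127428915 1234803097 53687092 (by decide)
     (ok_go H c11b_416)
     (ok_go H c11b_417)))
   (.s2 (-843314855) (-281104951) 281104953 (by decide)
    (.s1 1127428915 1234803097 53687092 (by decide)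
     (.s3 6324861425 6605966377 140552477 (by decide)
      (.s2 (-983867331) (-702762379) 140552477 (by decide)
       (ok_go H c11b_418)
       (ok_go H c11b_419))
      (.s2 (-983867331) (-702762379) 140552477 (by decide)
       (ok_go H c11b_420)
       (ok_go H c11b_421)))
     (.s3 6324861425 6605966377 140552477 (by decide)
      (ok_go H c11b_422)
      (.s2 (-983867331) (-702762379) 140552477 (by decide)
       (ok_go H c11b_423)
       (ok_go H c11b_424))))
    (.s1 1127428915 1234803097 53687092 (by decide)
     (.s3 6324861425 6605966377 140552477 (by decide)
      (ok_go H c11b_425)
      (.s2 (-421657427) (-140552475) 140552477 (by decide)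
       (ok_go H c11b_426)
       (ok_go H c11b_427)))
     (.s3 6324861425 6605966377 140552477 (by decide)
      (ok_go H c11b_428)
      (.s2 (-421657427) (-140552475) 140552477 (by decide)
       (ok_go H c11b_429)
       (ok_go H c11b_430))))))

theorem ok11b_12 (H : Good p11b L b s) :
    Ok L b s 1503238554 214748365 (-1124419808) 1124419810 5622099044 1124419810 :=
  (.s3 5059889139 6184308949 562209905 (by decide)
   (.s2 (-1686629713) (-562209903) 562209905 (by decide)
    (.s1 1395864372 1610612736 107374183 (by decide)
     (.s3 4778784187 5340994091 281104953 (by decide)
      (ok_go H c11b_431)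
      (.s2 (-1967734665) (-1405524761) 281104953 (by decide)
       (ok_go H c11b_432)
       (.s1 1342177281 1449551463 53687092 (by decide)
        (ok_go H c11b_433)
        (ok_go H c11b_434))))
     (.s3 4778784187 5340994091 281104953 (by decide)
      (.s2 (-1967734665) (-1405524761) 281104953 (by decide)
       (ok_go H c11b_435)
       (ok_go H c11b_436))
      (.s2 (-1967734665) (-1405524761) 281104953 (by decide)
       (ok_go H c11b_437)
       (.s1 1556925645 1664299827 53687092 (by decide)
        (ok_go H c11b_438)
        (ok_go H c11b_439)))))
    (.s1 1395864372 1610612736 107374183 (by decide)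
     (.s3 4778784187 5340994091 281104953 (by decide)
      (.s2 (-843314855) (-281104951) 281104953 (by decide)
       (.s1 1342177281 1449551463 53687092 (by decide)
        (ok_go H c11b_440)
        (ok_go H c11b_441))
       (ok_go H c11b_442))
      (.s2 (-843314855) (-281104951) 281104953 (by decide)
       (.s1 1342177281 1449551463 53687092 (by decide)
        (ok_go H c11b_443)
        (ok_go H c11b_444))
       (.s1 1342177281 1449551463 53687092 (by decide)
        (ok_go H c11b_445)
        (ok_go H c11b_446))))
     (.s3 4778784187 5340994091 281104953 (by decide)
      (.s2 (-843314855) (-281104951) 281104953 (by decide)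
       (.s1 1556925645 1664299827 53687092 (by decide)
        (ok_go H c11b_447)
        (ok_go H c11b_448))
       (.s1 1556925645 1664299827 53687092 (by decide)
        (ok_go H c11b_449)
        (ok_go H c11b_450)))
      (.s2 (-843314855) (-281104951) 281104953 (by decide)
       (.s1 1556925645 1664299827 53687092 (by decide)
        (ok_go H c11b_451)
        (ok_go H c11b_452))
       (.s1 1556925645 1664299827 53687092 (by decide)
        (ok_go H c11b_453)
        (ok_go H c11b_454))))))
   (.s2 (-1686629713) (-562209903) 562209905 (by decide)
    (.s1 1395864372 1610612736 107374183 (by decide)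
     (.s3 5903203997 6465413901 281104953 (by decide)
      (.s2 (-1967734665) (-1405524761) 281104953 (by decide)
       (ok_go H c11b_455)
       (.s1 1342177281 1449551463 53687092 (by decide)
        (ok_go H c11b_456)
        (ok_go H c11b_457)))
      (.s2 (-1967734665) (-1405524761) 281104953 (by decide)
       (.s1 1342177281 1449551463 53687092 (by decide)
        (ok_go H c11b_458)
        (ok_go H c11b_459))
       (.s1 1342177281 1449551463 53687092 (by decide)
        (.s3 6324861425 6605966377 140552477 (by decide)
         (ok_go H c11b_460)
         (ok_go H c11b_461))
        (ok_go H c11b_462))))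
     (.s3 5903203997 6465413901 281104953 (by decide)
      (.s2 (-1967734665) (-1405524761) 281104953 (by decide)
       (ok_go H c11b_463)
       (.s1 1556925645 1664299827 53687092 (by decide)
        (ok_go H c11b_464)
        (ok_go H c11b_465)))
      (.s2 (-1967734665) (-1405524761) 281104953 (by decide)
       (.s1 1556925645 1664299827 53687092 (by decide)
        (ok_go H c11b_466)
        (ok_go H c11b_467))
       (.s1 1556925645 1664299827 53687092 (by decide)
        (ok_go H c11b_468)
        (ok_go H c11b_469)))))
    (.s1 1395864372 1610612736 107374183 (by decide)
     (.s3 5903203997 6465413901 281104953 (by decide)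
      (.s2 (-843314855) (-281104951) 281104953 (by decide)
       (.s1 1342177281 1449551463 53687092 (by decide)
        (.s3 5762651521 6043756473 140552477 (by decide)
         (ok_go H c11b_470)
         (ok_go H c11b_471))
        (.s3 5762651521 6043756473 140552477 (by decide)
         (ok_go H c11b_472)
         (ok_go H c11b_473)))
       (.s1 1342177281 1449551463 53687092 (by decide)
        (ok_go H c11b_474)
        (ok_go H c11b_475)))
      (.s2 (-843314855) (-281104951) 281104953 (by decide)
       (.s1 1342177281 1449551463 53687092 (by decide)
        (.s3 6324861425 6605966377 140552477 (by decide)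
         (ok_go H c11b_476)
         (ok_go H c11b_477))
        (.s3 6324861425 6605966377 140552477 (by decide)
         (ok_go H c11b_478)
         (ok_go H c11b_479)))
       (.s1 1342177281 1449551463 53687092 (by decide)
        (.s3 6324861425 6605966377 140552477 (by decide)
         (ok_go H c11b_480)
         (ok_go H c11b_481))
        (ok_go H c11b_482))))
     (.s3 5903203997 6465413901 281104953 (by decide)
      (.s2 (-843314855) (-281104951) 281104953 (by decide)
       (.s1 1556925645 1664299827 53687092 (by decide)
        (ok_go H c11b_483)
        (ok_go H c11b_484))
       (.s1 1556925645 1664299827 53687092 (by decide)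
        (ok_go H c11b_485)
        (ok_go H c11b_486)))
      (.s2 (-843314855) (-281104951) 281104953 (by decide)
       (.s1 1556925645 1664299827 53687092 (by decide)
        (ok_go H c11b_487)
        (ok_go H c11b_488))
       (.s1 1556925645 1664299827 53687092 (by decide)
        (ok_go H c11b_489)
        (ok_go H c11b_490)))))))

theorem ok11b_13 (H : Good p11b L b s) :
    Ok L b s 1288490189 429496730 1124419810 1124419810 5622099044 1124419810 :=
  (.s1 1073741824 1503238554 214748365 (by decide)
   (.s3 5059889139 6184308949 562209905 (by decide)
    (.s2 562209905 1686629715 562209905 (by decide)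
     (.s1 966367642 1181116006 107374183 (by decide)
      (.s3 4778784187 5340994091 281104953 (by decide)
       (ok_go H c11b_491)
       (ok_go H c11b_492))
      (.s3 4778784187 5340994091 281104953 (by decide)
       (ok_go H c11b_493)
       (ok_go H c11b_494)))
     (ok_go H c11b_495))
    (.s2 562209905 1686629715 562209905 (by decide)
     (.s1 966367642 1181116006 107374183 (by decide)
      (.s3 5903203997 6465413901 281104953 (by decide)
       (.s2 281104953 843314857 281104953 (by decide)
        (ok_go H c11b_496)
        (ok_go H c11b_497))
       (.s2 281104953 843314857 281104953 (by decide)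
        (.s1 912680551 1020054733 53687092 (by decide)
         (ok_go H c11b_498)
         (ok_go H c11b_499))
        (ok_go H c11b_500)))
      (.s3 5903203997 6465413901 281104953 (by decide)
       (.s2 281104953 843314857 281104953 (by decide)
        (ok_go H c11b_501)
        (ok_go H c11b_502))
       (.s2 281104953 843314857 281104953 (by decide)
        (.s1 1127428915 1234803097 53687092 (by decide)
         (ok_go H c11b_503)
         (ok_go H c11b_504))
        (ok_go H c11b_505))))
     (ok_go H c11b_506)))
   (.s3 5059889139 6184308949 562209905 (by decide)
    (.s2 562209905 1686629715 562209905 (by decide)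
     (.s1 1395864372 1610612736 107374183 (by decide)
      (.s3 4778784187 5340994091 281104953 (by decide)
       (ok_go H c11b_507)
       (.s2 281104953 843314857 281104953 (by decide)
        (ok_go H c11b_508)
        (ok_go H c11b_509)))
      (.s3 4778784187 5340994091 281104953 (by decide)
       (.s2 281104953 843314857 281104953 (by decide)
        (ok_go H c11b_510)
        (ok_go H c11b_511))
       (.s2 281104953 843314857 281104953 (by decide)
        (ok_go H c11b_512)
        (ok_go H c11b_513))))
     (ok_go H c11b_514))
    (.s2 562209905 1686629715 562209905 (by decide)
     (.s1 1395864372 1610612736 107374183 (by decide)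
      (.s3 5903203997 6465413901 281104953 (by decide)
       (.s2 281104953 843314857 281104953 (by decide)
        (ok_go H c11b_515)
        (ok_go H c11b_516))
       (ok_go H c11b_517))
      (.s3 5903203997 6465413901 281104953 (by decide)
       (.s2 281104953 843314857 281104953 (by decide)
        (ok_go H c11b_518)
        (ok_go H c11b_519))
       (ok_go H c11b_520)))
     (ok_go H c11b_521))))

theorem ok11b_14 (H : Good p11b L b s) :
    Ok L b s 2147483649 429496730 (-1124419808) 1124419810 3373259426 1124419810 :=
  (.s1 1932735284 2362232014 214748365 (by decide)
   (.s3 2811049521 3935469331 562209905 (by decide)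
    (ok_go H c11b_522)
    (.s2 (-1686629713) (-562209903) 562209905 (by decide)
     (.s1 1825361102 2040109466 107374183 (by decide)
      (ok_go H c11b_523)
      (.s3 3654364379 4216574283 281104953 (by decide)
       (ok_go H c11b_524)
       (.s2 (-1967734665) (-1405524761) 281104953 (by decide)
        (ok_go H c11b_525)
        (ok_go H c11b_526))))
     (.s1 1825361102 2040109466 107374183 (by decide)
      (.s3 3654364379 4216574283 281104953 (by decide)
       (.s2 (-843314855) (-281104951) 281104953 (by decide)
        (ok_go H c11b_527)
        (ok_go H c11b_528))
       (.s2 (-843314855) (-281104951) 281104953 (by decide)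
        (ok_go H c11b_529)
        (ok_go H c11b_530)))
      (.s3 3654364379 4216574283 281104953 (by decide)
       (.s2 (-843314855) (-281104951) 281104953 (by decide)
        (ok_go H c11b_531)
        (.s2 (-421657427) (-140552475) 140552477 (by decide)
         (ok_go H c11b_532)
         (ok_go H c11b_533)))
       (.s2 (-843314855) (-281104951) 281104953 (by decide)
        (.s2 (-983867331) (-702762379) 140552477 (by decide)
         (ok_go H c11b_534)
         (ok_go H c11b_535))
        (.s2 (-421657427) (-140552475) 140552477 (by decide)
         (ok_go H c11b_536)
         (ok_go H c11b_537)))))))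
   (.s3 2811049521 3935469331 562209905 (by decide)
    (ok_go H c11b_538)
    (.s2 (-1686629713) (-562209903) 562209905 (by decide)
     (.s1 2254857832 2469606196 107374183 (by decide)
      (.s3 3654364379 4216574283 281104953 (by decide)
       (ok_go H c11b_539)
       (.s2 (-1967734665) (-1405524761) 281104953 (by decide)
        (ok_go H c11b_540)
        (.s2 (-1546077237) (-1264972285) 140552477 (by decide)
         (ok_go H c11b_541)
         (ok_go H c11b_542))))
      (.s3 3654364379 4216574283 281104953 (by decide)
       (ok_go H c11b_543)
       (.s2 (-1967734665) (-1405524761) 281104953 (by decide)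
        (ok_go H c11b_544)
        (.s2 (-1546077237) (-1264972285) 140552477 (by decide)
         (ok_go H c11b_545)
         (ok_go H c11b_546)))))
     (.s1 2254857832 2469606196 107374183 (by decide)
      (.s3 3654364379 4216574283 281104953 (by decide)
       (.s2 (-843314855) (-281104951) 281104953 (by decide)
        (ok_go H c11b_547)
        (.s2 (-421657427) (-140552475) 140552477 (by decide)
         (ok_go H c11b_548)
         (ok_go H c11b_549)))
       (.s2 (-843314855) (-281104951) 281104953 (by decide)
        (.s2 (-983867331) (-702762379) 140552477 (by decide)
         (ok_go H c11b_550)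
         (ok_go H c11b_551))
        (.s2 (-421657427) (-140552475) 140552477 (by decide)
         (ok_go H c11b_552)
         (.s3 4076021807 4357126759 140552477 (by decide)
          (ok_go H c11b_553)
          (ok_go H c11b_554)))))
      (.s3 3654364379 4216574283 281104953 (by decide)
       (.s2 (-843314855) (-281104951) 281104953 (by decide)
        (ok_go H c11b_555)
        (.s2 (-421657427) (-140552475) 140552477 (by decide)
         (ok_go H c11b_556)
         (ok_go H c11b_557)))
       (.s2 (-843314855) (-281104951) 281104953 (by decide)
        (.s2 (-983867331) (-702762379) 140552477 (by decide)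
         (ok_go H c11b_558)
         (ok_go H c11b_559))
        (.s2 (-421657427) (-140552475) 140552477 (by decide)
         (.s3 4076021807 4357126759 140552477 (by decide)
          (ok_go H c11b_560)
          (ok_go H c11b_561))
         (.s3 4076021807 4357126759 140552477 (by decide)
          (ok_go H c11b_562)
          (ok_go H c11b_563)))))))))

theorem ok11b_15 (H : Good p11b L b s) :
    Ok L b s 1932735284 214748365 1124419810 1124419810 3373259426 1124419810 :=
  (.s3 2811049521 3935469331 562209905 (by decide)
   (.s2 562209905 1686629715 562209905 (by decide)
    (.s1 1825361102 2040109466 107374183 (by decide)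
     (.s3 2529944569 3092154473 281104953 (by decide)
      (ok_go H c11b_564)
      (.s2 281104953 843314857 281104953 (by decide)
       (ok_go H c11b_565)
       (ok_go H c11b_566)))
     (.s3 2529944569 3092154473 281104953 (by decide)
      (ok_go H c11b_567)
      (.s2 281104953 843314857 281104953 (by decide)
       (ok_go H c11b_568)
       (.s2 702762381 983867333 140552477 (by decide)
        (ok_go H c11b_569)
        (.s3 2951601997 3232706949 140552477 (by decide)
         (ok_go H c11b_570)
         (ok_go H c11b_571))))))
    (.s1 1825361102 2040109466 107374183 (by decide)
     (.s3 2529944569 3092154473 281104953 (by decide)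
      (.s2 1405524763 1967734667 281104953 (by decide)
       (ok_go H c11b_572)
       (.s2 1827182191 2108287143 140552477 (by decide)
        (.s3 2389392093 2670497045 140552477 (by decide)
         (ok_go H c11b_573)
         (ok_go H c11b_574))
        (.s3 2389392093 2670497045 140552477 (by decide)
         (ok_go H c11b_575)
         (ok_go H c11b_576))))
      (.s2 1405524763 1967734667 281104953 (by decide)
       (.s2 1264972287 1546077239 140552477 (by decide)
        (ok_go H c11b_577)
        (ok_go H c11b_578))
       (.s1 1771674011 1879048193 53687092 (by decide)
        (ok_go H c11b_579)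
        (ok_go H c11b_580))))
     (.s3 2529944569 3092154473 281104953 (by decide)
      (.s2 1405524763 1967734667 281104953 (by decide)
       (.s2 1264972287 1546077239 140552477 (by decide)
        (ok_go H c11b_581)
        (.s3 2389392093 2670497045 140552477 (by decide)
         (ok_go H c11b_582)
         (.s1 1986422375 2093796557 53687092 (by decide)
          (ok_go H c11b_583)
          (.s2 1475801001 1616353477 70276239 (by decide)
           (ok_go H c11b_584)
           (ok_go H c11b_585)))))
       (.s2 1827182191 2108287143 140552477 (by decide)
        (.s3 2389392093 2670497045 140552477 (by decide)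
         (.s1 1986422375 2093796557 53687092 (by decide)
          (ok_go H c11b_586)
          (.s2 1756905953 1897458429 70276239 (by decide)
           (ok_go H c11b_587)
           (ok_go H c11b_588)))
         (.s1 1986422375 2093796557 53687092 (by decide)
          (ok_go H c11b_589)
          (.s2 1756905953 1897458429 70276239 (by decide)
           (ok_go H c11b_590)
           (ok_go H c11b_591))))
        (.s3 2389392093 2670497045 140552477 (by decide)
         (.s1 1986422375 2093796557 53687092 (by decide)
          (ok_go H c11b_592)
          (.s2 2038010905 2178563381 70276239 (by decide)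
           (.s3 2319115855 2459668331 70276239 (by decide)
            (ok_go H c11b_593)
            (ok_go H c11b_594))
           (.s3 2319115855 2459668331 70276239 (by decide)
            (ok_go H c11b_595)
            (ok_go H c11b_596))))
         (.s1 1986422375 2093796557 53687092 (by decide)
          (ok_go H c11b_597)
          (.s2 2038010905 2178563381 70276239 (by decide)
           (ok_go H c11b_598)
           (ok_go H c11b_599))))))
      (.s2 1405524763 1967734667 281104953 (by decide)
       (.s2 1264972287 1546077239 140552477 (by decide)
        (.s3 2951601997 3232706949 140552477 (by decide)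
         (ok_go H c11b_600)
         (ok_go H c11b_601))
        (.s3 2951601997 3232706949 140552477 (by decide)
         (.s1 1986422375 2093796557 53687092 (by decide)
          (ok_go H c11b_602)
          (ok_go H c11b_603))
         (ok_go H c11b_604)))
       (.s2 1827182191 2108287143 140552477 (by decide)
        (.s3 2951601997 3232706949 140552477 (by decide)
         (.s1 1986422375 2093796557 53687092 (by decide)
          (ok_go H c11b_605)
          (.s2 1756905953 1897458429 70276239 (by decide)
           (ok_go H c11b_606)
           (ok_go H c11b_607)))
         (ok_go H c11b_608))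
        (ok_go H c11b_609))))))
   (.s2 562209905 1686629715 562209905 (by decide)
    (.s1 1825361102 2040109466 107374183 (by decide)
     (.s3 3654364379 4216574283 281104953 (by decide)
      (.s2 281104953 843314857 281104953 (by decide)
       (ok_go H c11b_610)
       (ok_go H c11b_611))
      (.s2 281104953 843314857 281104953 (by decide)
       (ok_go H c11b_612)
       (ok_go H c11b_613)))
     (.s3 3654364379 4216574283 281104953 (by decide)
      (.s2 281104953 843314857 281104953 (by decide)
       (.s2 140552477 421657429 140552477 (by decide)
        (ok_go H c11b_614)
        (ok_go H c11b_615))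
       (.s2 702762381 983867333 140552477 (by decide)
        (ok_go H c11b_616)
        (ok_go H c11b_617)))
      (.s2 281104953 843314857 281104953 (by decide)
       (.s2 140552477 421657429 140552477 (by decide)
        (ok_go H c11b_618)
        (ok_go H c11b_619))
       (.s2 702762381 983867333 140552477 (by decide)
        (ok_go H c11b_620)
        (ok_go H c11b_621)))))
    (.s1 1825361102 2040109466 107374183 (by decide)
     (.s3 3654364379 4216574283 281104953 (by decide)
      (.s2 1405524763 1967734667 281104953 (by decide)
       (.s1 1771674011 1879048193 53687092 (by decide)
        (ok_go H c11b_622)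
        (ok_go H c11b_623))
       (ok_go H c11b_624))
      (ok_go H c11b_625))
     (.s3 3654364379 4216574283 281104953 (by decide)
      (.s2 1405524763 1967734667 281104953 (by decide)
       (.s2 1264972287 1546077239 140552477 (by decide)
        (ok_go H c11b_626)
        (ok_go H c11b_627))
       (ok_go H c11b_628))
      (ok_go H c11b_629)))))

theorem ok11b_16 (H : Good p11b L b s) :
    Ok L b s 2362232014 214748365 562209905 562209905 2811049521 562209905 :=
  (.s1 2254857832 2469606196 107374183 (by decide)
   (.s3 2529944569 3092154473 281104953 (by decide)
    (ok_go H c11b_630)
    (.s2 281104953 843314857 281104953 (by decide)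
     (ok_go H c11b_631)
     (.s2 702762381 983867333 140552477 (by decide)
      (.s3 2951601997 3232706949 140552477 (by decide)
       (ok_go H c11b_632)
       (ok_go H c11b_633))
      (.s3 2951601997 3232706949 140552477 (by decide)
       (.s1 2201170741 2308544923 53687092 (by decide)
        (ok_go H c11b_634)
        (ok_go H c11b_635))
       (.s1 2201170741 2308544923 53687092 (by decide)
        (ok_go H c11b_636)
        (ok_go H c11b_637))))))
   (.s3 2529944569 3092154473 281104953 (by decide)
    (ok_go H c11b_638)
    (.s2 281104953 843314857 281104953 (by decide)
     (ok_go H c11b_639)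
     (.s2 702762381 983867333 140552477 (by decide)
      (.s3 2951601997 3232706949 140552477 (by decide)
       (ok_go H c11b_640)
       (ok_go H c11b_641))
      (.s3 2951601997 3232706949 140552477 (by decide)
       (ok_go H c11b_642)
       (ok_go H c11b_643))))))

theorem ok11b_17 (H : Good p11b L b s) :
    Ok L b s 2254857832 107374183 1686629715 562209905 2811049521 562209905 :=
  (.s3 2529944569 3092154473 281104953 (by decide)
   (.s2 1405524763 1967734667 281104953 (by decide)
    (.s2 1264972287 1546077239 140552477 (by decide)
     (.s3 2389392093 2670497045 140552477 (by decide)
      (ok_go H c11b_644)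
      (.s1 2201170741 2308544923 53687092 (by decide)
       (ok_go H c11b_645)
       (ok_go H c11b_646)))
     (.s3 2389392093 2670497045 140552477 (by decide)
      (ok_go H c11b_647)
      (.s1 2201170741 2308544923 53687092 (by decide)
       (.s2 1475801001 1616353477 70276239 (by decide)
        (ok_go H c11b_648)
        (.s3 2600220807 2740773283 70276239 (by decide)
         (ok_go H c11b_649)
         (ok_go H c11b_650)))
       (.s2 1475801001 1616353477 70276239 (by decide)
        (.s3 2600220807 2740773283 70276239 (by decide)
         (ok_go H c11b_651)
         (ok_go H c11b_652))
        (.s3 2600220807 2740773283 70276239 (by decide)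
         (ok_go H c11b_653)
         (ok_go H c11b_654))))))
    (.s2 1827182191 2108287143 140552477 (by decide)
     (.s3 2389392093 2670497045 140552477 (by decide)
      (.s1 2201170741 2308544923 53687092 (by decide)
       (.s2 1756905953 1897458429 70276239 (by decide)
        (ok_go H c11b_655)
        (.s3 2319115855 2459668331 70276239 (by decide)
         (ok_go H c11b_656)
         (.s1 2174327195 2228014287 26843546 (by decide)
          (ok_go H c11b_657)
          (ok_go H c11b_658))))
       (.s2 1756905953 1897458429 70276239 (by decide)
        (.s3 2319115855 2459668331 70276239 (by decide)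
         (ok_go H c11b_659)
         (.s1 2281701377 2335388469 26843546 (by decide)
          (ok_go H c11b_660)
          (ok_go H c11b_661)))
        (.s3 2319115855 2459668331 70276239 (by decide)
         (ok_go H c11b_662)
         (.s1 2281701377 2335388469 26843546 (by decide)
          (ok_go H c11b_663)
          (ok_go H c11b_664)))))
      (.s1 2201170741 2308544923 53687092 (by decide)
       (.s2 1756905953 1897458429 70276239 (by decide)
        (.s3 2600220807 2740773283 70276239 (by decide)
         (ok_go H c11b_665)
         (ok_go H c11b_666))
        (.s3 2600220807 2740773283 70276239 (by decide)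
         (.s1 2174327195 2228014287 26843546 (by decide)
          (ok_go H c11b_667)
          (ok_go H c11b_668))
         (ok_go H c11b_669)))
       (.s2 1756905953 1897458429 70276239 (by decide)
        (.s3 2600220807 2740773283 70276239 (by decide)
         (.s1 2281701377 2335388469 26843546 (by decide)
          (ok_go H c11b_670)
          (ok_go H c11b_671))
         (ok_go H c11b_672))
        (.s3 2600220807 2740773283 70276239 (by decide)
         (.s1 2281701377 2335388469 26843546 (by decide)
          (ok_go H c11b_673)
          (ok_go H c11b_674))
         (.s1 2281701377 2335388469 26843546 (by decide)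
          (ok_go H c11b_675)
          (ok_go H c11b_676))))))
     (.s3 2389392093 2670497045 140552477 (by decide)
      (.s1 2201170741 2308544923 53687092 (by decide)
       (.s2 2038010905 2178563381 70276239 (by decide)
        (.s3 2319115855 2459668331 70276239 (by decide)
         (.s1 2174327195 2228014287 26843546 (by decide)
          (ok_go H c11b_677)
          (ok_go H c11b_678))
         (.s1 2174327195 2228014287 26843546 (by decide)
          (ok_go H c11b_679)
          (ok_go H c11b_680)))
        (.s3 2319115855 2459668331 70276239 (by decide)
         (.s1 2174327195 2228014287 26843546 (by decide)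
          (ok_go H c11b_681)
          (ok_go H c11b_682))
         (ok_go H c11b_683)))
       (.s2 2038010905 2178563381 70276239 (by decide)
        (.s3 2319115855 2459668331 70276239 (by decide)
         (.s1 2281701377 2335388469 26843546 (by decide)
          (ok_go H c11b_684)
          (ok_go H c11b_685))
         (.s1 2281701377 2335388469 26843546 (by decide)
          (ok_go H c11b_686)
          (ok_go H c11b_687)))
        (.s3 2319115855 2459668331 70276239 (by decide)
         (.s1 2281701377 2335388469 26843546 (by decide)
          (ok_go H c11b_688)
          (ok_go H c11b_689))
         (ok_go H c11b_690))))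
      (.s1 2201170741 2308544923 53687092 (by decide)
       (.s2 2038010905 2178563381 70276239 (by decide)
        (.s3 2600220807 2740773283 70276239 (by decide)
         (.s1 2174327195 2228014287 26843546 (by decide)
          (ok_go H c11b_691)
          (ok_go H c11b_692))
         (ok_go H c11b_693))
        (ok_go H c11b_694))
       (.s2 2038010905 2178563381 70276239 (by decide)
        (.s3 2600220807 2740773283 70276239 (by decide)
         (.s1 2281701377 2335388469 26843546 (by decide)
          (ok_go H c11b_695)
          (ok_go H c11b_696))
         (.s1 2281701377 2335388469 26843546 (by decide)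
          (ok_go H c11b_697)
          (ok_go H c11b_698)))
        (ok_go H c11b_699))))))
   (.s2 1405524763 1967734667 281104953 (by decide)
    (.s2 1264972287 1546077239 140552477 (by decide)
     (.s3 2951601997 3232706949 140552477 (by decide)
      (.s1 2201170741 2308544923 53687092 (by decide)
       (ok_go H c11b_700)
       (.s2 1194696049 1335248525 70276239 (by decide)
        (ok_go H c11b_701)
        (ok_go H c11b_702)))
      (.s1 2201170741 2308544923 53687092 (by decide)
       (ok_go H c11b_703)
       (ok_go H c11b_704)))
     (.s3 2951601997 3232706949 140552477 (by decide)
      (.s1 2201170741 2308544923 53687092 (by decide)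
       (.s2 1475801001 1616353477 70276239 (by decide)
        (ok_go H c11b_705)
        (ok_go H c11b_706))
       (.s2 1475801001 1616353477 70276239 (by decide)
        (ok_go H c11b_707)
        (ok_go H c11b_708)))
      (.s1 2201170741 2308544923 53687092 (by decide)
       (ok_go H c11b_709)
       (.s2 1475801001 1616353477 70276239 (by decide)
        (ok_go H c11b_710)
        (ok_go H c11b_711)))))
    (.s2 1827182191 2108287143 140552477 (by decide)
     (.s3 2951601997 3232706949 140552477 (by decide)
      (.s1 2201170741 2308544923 53687092 (by decide)
       (.s2 1756905953 1897458429 70276239 (by decide)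
        (ok_go H c11b_712)
        (ok_go H c11b_713))
       (.s2 1756905953 1897458429 70276239 (by decide)
        (.s3 2881325759 3021878235 70276239 (by decide)
         (ok_go H c11b_714)
         (ok_go H c11b_715))
        (.s3 2881325759 3021878235 70276239 (by decide)
         (ok_go H c11b_716)
         (ok_go H c11b_717))))
      (.s1 2201170741 2308544923 53687092 (by decide)
       (ok_go H c11b_718)
       (ok_go H c11b_719)))
     (ok_go H c11b_720))))

theorem ok11b_18 (H : Good p11b L b s) :
    Ok L b s 2469606196 107374183 1686629715 562209905 2811049521 562209905 :=
  (.s3 2529944569 3092154473 281104953 (by decide)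
   (.s2 1405524763 1967734667 281104953 (by decide)
    (.s2 1264972287 1546077239 140552477 (by decide)
     (.s3 2389392093 2670497045 140552477 (by decide)
      (ok_go H c11b_721)
      (.s1 2415919105 2523293287 53687092 (by decide)
       (ok_go H c11b_722)
       (ok_go H c11b_723)))
     (.s3 2389392093 2670497045 140552477 (by decide)
      (ok_go H c11b_724)
      (.s1 2415919105 2523293287 53687092 (by decide)
       (.s2 1475801001 1616353477 70276239 (by decide)
        (ok_go H c11b_725)
        (.s3 2600220807 2740773283 70276239 (by decide)
         (ok_go H c11b_726)
         (ok_go H c11b_727)))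
       (ok_go H c11b_728))))
    (.s2 1827182191 2108287143 140552477 (by decide)
     (.s3 2389392093 2670497045 140552477 (by decide)
      (.s1 2415919105 2523293287 53687092 (by decide)
       (.s2 1756905953 1897458429 70276239 (by decide)
        (ok_go H c11b_729)
        (.s3 2319115855 2459668331 70276239 (by decide)
         (ok_go H c11b_730)
         (ok_go H c11b_731)))
       (ok_go H c11b_732))
      (.s1 2415919105 2523293287 53687092 (by decide)
       (.s2 1756905953 1897458429 70276239 (by decide)
        (.s3 2600220807 2740773283 70276239 (by decide)
         (ok_go H c11b_733)
         (ok_go H c11b_734))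
        (.s3 2600220807 2740773283 70276239 (by decide)
         (ok_go H c11b_735)
         (ok_go H c11b_736)))
       (.s2 1756905953 1897458429 70276239 (by decide)
        (ok_go H c11b_737)
        (ok_go H c11b_738))))
     (.s3 2389392093 2670497045 140552477 (by decide)
      (.s1 2415919105 2523293287 53687092 (by decide)
       (.s3 2319115855 2459668331 70276239 (by decide)
        (.s2 2038010905 2178563381 70276239 (by decide)
         (ok_go H c11b_739)
         (ok_go H c11b_740))
        (.s2 2038010905 2178563381 70276239 (by decide)
         (ok_go H c11b_741)
         (ok_go H c11b_742)))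
       (.s2 2038010905 2178563381 70276239 (by decide)
        (ok_go H c11b_743)
        (ok_go H c11b_744)))
      (.s1 2415919105 2523293287 53687092 (by decide)
       (.s2 2038010905 2178563381 70276239 (by decide)
        (.s3 2600220807 2740773283 70276239 (by decide)
         (ok_go H c11b_745)
         (ok_go H c11b_746))
        (ok_go H c11b_747))
       (ok_go H c11b_748)))))
   (.s2 1405524763 1967734667 281104953 (by decide)
    (.s2 1264972287 1546077239 140552477 (by decide)
     (.s3 2951601997 3232706949 140552477 (by decide)
      (.s1 2415919105 2523293287 53687092 (by decide)
       (ok_go H c11b_749)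
       (ok_go H c11b_750))
      (.s1 2415919105 2523293287 53687092 (by decide)
       (ok_go H c11b_751)
       (ok_go H c11b_752)))
     (.s3 2951601997 3232706949 140552477 (by decide)
      (.s1 2415919105 2523293287 53687092 (by decide)
       (.s2 1475801001 1616353477 70276239 (by decide)
        (ok_go H c11b_753)
        (ok_go H c11b_754))
       (ok_go H c11b_755))
      (.s1 2415919105 2523293287 53687092 (by decide)
       (ok_go H c11b_756)
       (ok_go H c11b_757))))
    (.s3 2951601997 3232706949 140552477 (by decide)
     (.s2 1827182191 2108287143 140552477 (by decide)
      (.s1 2415919105 2523293287 53687092 (by decide)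
       (.s2 1756905953 1897458429 70276239 (by decide)
        (ok_go H c11b_758)
        (ok_go H c11b_759))
       (ok_go H c11b_760))
      (ok_go H c11b_761))
     (.s2 1827182191 2108287143 140552477 (by decide)
      (.s1 2415919105 2523293287 53687092 (by decide)
       (ok_go H c11b_762)
       (ok_go H c11b_763))
      (ok_go H c11b_764)))))

theorem ok11b_19 (H : Good p11b L b s) :
    Ok L b s 2362232014 214748365 1124419810 1124419810 3935469331 562209905 :=
  (.s2 562209905 1686629715 562209905 (by decide)
   (.s1 2254857832 2469606196 107374183 (by decide)
    (.s3 3654364379 4216574283 281104953 (by decide)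
     (.s2 281104953 843314857 281104953 (by decide)
      (.s2 140552477 421657429 140552477 (by decide)
       (ok_go H c11b_765)
       (ok_go H c11b_766))
      (.s2 702762381 983867333 140552477 (by decide)
       (.s3 3513811903 3794916855 140552477 (by decide)
        (ok_go H c11b_767)
        (ok_go H c11b_768))
       (.s3 3513811903 3794916855 140552477 (by decide)
        (ok_go H c11b_769)
        (ok_go H c11b_770))))
     (.s2 281104953 843314857 281104953 (by decide)
      (.s2 140552477 421657429 140552477 (by decide)
       (.s3 4076021807 4357126759 140552477 (by decide)
        (ok_go H c11b_771)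
        (ok_go H c11b_772))
       (.s3 4076021807 4357126759 140552477 (by decide)
        (ok_go H c11b_773)
        (ok_go H c11b_774)))
      (.s2 702762381 983867333 140552477 (by decide)
       (.s3 4076021807 4357126759 140552477 (by decide)
        (ok_go H c11b_775)
        (ok_go H c11b_776))
       (.s3 4076021807 4357126759 140552477 (by decide)
        (ok_go H c11b_777)
        (ok_go H c11b_778)))))
    (.s3 3654364379 4216574283 281104953 (by decide)
     (.s2 281104953 843314857 281104953 (by decide)
      (.s2 140552477 421657429 140552477 (by decide)
       (.s3 3513811903 3794916855 140552477 (by decide)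
        (ok_go H c11b_779)
        (ok_go H c11b_780))
       (.s3 3513811903 3794916855 140552477 (by decide)
        (ok_go H c11b_781)
        (.s1 2415919105 2523293287 53687092 (by decide)
         (ok_go H c11b_782)
         (ok_go H c11b_783))))
      (.s2 702762381 983867333 140552477 (by decide)
       (.s3 3513811903 3794916855 140552477 (by decide)
        (ok_go H c11b_784)
        (.s1 2415919105 2523293287 53687092 (by decide)
         (ok_go H c11b_785)
         (ok_go H c11b_786)))
       (.s3 3513811903 3794916855 140552477 (by decide)
        (.s1 2415919105 2523293287 53687092 (by decide)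
         (ok_go H c11b_787)
         (ok_go H c11b_788))
        (.s1 2415919105 2523293287 53687092 (by decide)
         (ok_go H c11b_789)
         (.s2 913591095 1054143571 70276239 (by decide)
          (ok_go H c11b_790)
          (ok_go H c11b_791))))))
     (.s2 281104953 843314857 281104953 (by decide)
      (.s2 140552477 421657429 140552477 (by decide)
       (.s3 4076021807 4357126759 140552477 (by decide)
        (.s1 2415919105 2523293287 53687092 (by decide)
         (ok_go H c11b_792)
         (ok_go H c11b_793))
        (.s1 2415919105 2523293287 53687092 (by decide)
         (ok_go H c11b_794)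
         (ok_go H c11b_795)))
       (.s3 4076021807 4357126759 140552477 (by decide)
        (.s1 2415919105 2523293287 53687092 (by decide)
         (ok_go H c11b_796)
         (ok_go H c11b_797))
        (.s1 2415919105 2523293287 53687092 (by decide)
         (ok_go H c11b_798)
         (ok_go H c11b_799))))
      (.s2 702762381 983867333 140552477 (by decide)
       (.s3 4076021807 4357126759 140552477 (by decide)
        (.s1 2415919105 2523293287 53687092 (by decide)
         (ok_go H c11b_800)
         (.s2 632486143 773038619 70276239 (by decide)
          (ok_go H c11b_801)
          (ok_go H c11b_802)))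
        (.s1 2415919105 2523293287 53687092 (by decide)
         (ok_go H c11b_803)
         (.s2 632486143 773038619 70276239 (by decide)
          (ok_go H c11b_804)
          (ok_go H c11b_805))))
       (.s3 4076021807 4357126759 140552477 (by decide)
        (.s1 2415919105 2523293287 53687092 (by decide)
         (ok_go H c11b_806)
         (.s2 913591095 1054143571 70276239 (by decide)
          (ok_go H c11b_807)
          (ok_go H c11b_808)))
        (.s1 2415919105 2523293287 53687092 (by decide)
         (ok_go H c11b_809)
         (.s2 913591095 1054143571 70276239 (by decide)
          (ok_go H c11b_810)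
          (ok_go H c11b_811))))))))
   (.s1 2254857832 2469606196 107374183 (by decide)
    (.s3 3654364379 4216574283 281104953 (by decide)
     (.s2 1405524763 1967734667 281104953 (by decide)
      (.s2 1264972287 1546077239 140552477 (by decide)
       (.s3 3513811903 3794916855 140552477 (by decide)
        (ok_go H c11b_812)
        (ok_go H c11b_813))
       (.s3 3513811903 3794916855 140552477 (by decide)
        (.s1 2201170741 2308544923 53687092 (by decide)
         (ok_go H c11b_814)
         (ok_go H c11b_815))
        (ok_go H c11b_816)))
      (ok_go H c11b_817))
     (.s2 1405524763 1967734667 281104953 (by decide)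
      (.s2 1264972287 1546077239 140552477 (by decide)
       (.s3 4076021807 4357126759 140552477 (by decide)
        (ok_go H c11b_818)
        (ok_go H c11b_819))
       (ok_go H c11b_820))
      (ok_go H c11b_821)))
    (.s3 3654364379 4216574283 281104953 (by decide)
     (.s2 1405524763 1967734667 281104953 (by decide)
      (.s2 1264972287 1546077239 140552477 (by decide)
       (.s3 3513811903 3794916855 140552477 (by decide)
        (.s1 2415919105 2523293287 53687092 (by decide)
         (ok_go H c11b_822)
         (ok_go H c11b_823))
        (.s1 2415919105 2523293287 53687092 (by decide)
         (ok_go H c11b_824)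
         (.s2 1194696049 1335248525 70276239 (by decide)
          (ok_go H c11b_825)
          (ok_go H c11b_826))))
       (.s3 3513811903 3794916855 140552477 (by decide)
        (.s1 2415919105 2523293287 53687092 (by decide)
         (ok_go H c11b_827)
         (ok_go H c11b_828))
        (ok_go H c11b_829)))
      (ok_go H c11b_830))
     (.s2 1405524763 1967734667 281104953 (by decide)
      (.s2 1264972287 1546077239 140552477 (by decide)
       (.s3 4076021807 4357126759 140552477 (by decide)
        (.s1 2415919105 2523293287 53687092 (by decide)
         (ok_go H c11b_831)
         (.s2 1194696049 1335248525 70276239 (by decide)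
          (ok_go H c11b_832)
          (ok_go H c11b_833)))
        (ok_go H c11b_834))
       (ok_go H c11b_835))
      (ok_go H c11b_836)))))

theorem ok11b_20 (H : Good p11b L b s) :
    Ok L b s 1932735284 214748365 (-1124419808) 1124419810 5622099044 1124419810 :=
  (.s3 5059889139 6184308949 562209905 (by decide)
   (.s2 (-1686629713) (-562209903) 562209905 (by decide)
    (.s1 1825361102 2040109466 107374183 (by decide)
     (.s3 4778784187 5340994091 281104953 (by decide)
      (.s2 (-1967734665) (-1405524761) 281104953 (by decide)
       (ok_go H c11b_837)
       (ok_go H c11b_838))
      (.s2 (-1967734665) (-1405524761) 281104953 (by decide)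
       (ok_go H c11b_839)
       (.s2 (-1546077237) (-1264972285) 140552477 (by decide)
        (ok_go H c11b_840)
        (ok_go H c11b_841))))
     (.s3 4778784187 5340994091 281104953 (by decide)
      (.s2 (-1967734665) (-1405524761) 281104953 (by decide)
       (ok_go H c11b_842)
       (.s2 (-1546077237) (-1264972285) 140552477 (by decide)
        (ok_go H c11b_843)
        (ok_go H c11b_844)))
      (.s2 (-1967734665) (-1405524761) 281104953 (by decide)
       (ok_go H c11b_845)
       (.s2 (-1546077237) (-1264972285) 140552477 (by decide)
        (ok_go H c11b_846)
        (ok_go H c11b_847)))))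
    (.s1 1825361102 2040109466 107374183 (by decide)
     (.s3 4778784187 5340994091 281104953 (by decide)
      (.s2 (-843314855) (-281104951) 281104953 (by decide)
       (.s2 (-983867331) (-702762379) 140552477 (by decide)
        (ok_go H c11b_848)
        (ok_go H c11b_849))
       (.s2 (-421657427) (-140552475) 140552477 (by decide)
        (ok_go H c11b_850)
        (ok_go H c11b_851)))
      (.s2 (-843314855) (-281104951) 281104953 (by decide)
       (.s1 1771674011 1879048193 53687092 (by decide)
        (ok_go H c11b_852)
        (ok_go H c11b_853))
       (.s1 1771674011 1879048193 53687092 (by decide)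
        (ok_go H c11b_854)
        (ok_go H c11b_855))))
     (.s3 4778784187 5340994091 281104953 (by decide)
      (.s2 (-843314855) (-281104951) 281104953 (by decide)
       (.s2 (-983867331) (-702762379) 140552477 (by decide)
        (ok_go H c11b_856)
        (ok_go H c11b_857))
       (.s2 (-421657427) (-140552475) 140552477 (by decide)
        (ok_go H c11b_858)
        (ok_go H c11b_859)))
      (.s2 (-843314855) (-281104951) 281104953 (by decide)
       (.s2 (-983867331) (-702762379) 140552477 (by decide)
        (ok_go H c11b_860)
        (ok_go H c11b_861))
       (.s2 (-421657427) (-140552475) 140552477 (by decide)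
        (ok_go H c11b_862)
        (ok_go H c11b_863))))))
   (.s2 (-1686629713) (-562209903) 562209905 (by decide)
    (.s1 1825361102 2040109466 107374183 (by decide)
     (.s3 5903203997 6465413901 281104953 (by decide)
      (.s2 (-1967734665) (-1405524761) 281104953 (by decide)
       (ok_go H c11b_864)
       (.s2 (-1546077237) (-1264972285) 140552477 (by decide)
        (ok_go H c11b_865)
        (ok_go H c11b_866)))
      (.s2 (-1967734665) (-1405524761) 281104953 (by decide)
       (ok_go H c11b_867)
       (.s1 1771674011 1879048193 53687092 (by decide)
        (ok_go H c11b_868)
        (ok_go H c11b_869))))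
     (.s3 5903203997 6465413901 281104953 (by decide)
      (.s2 (-1967734665) (-1405524761) 281104953 (by decide)
       (ok_go H c11b_870)
       (.s2 (-1546077237) (-1264972285) 140552477 (by decide)
        (ok_go H c11b_871)
        (ok_go H c11b_872)))
      (.s2 (-1967734665) (-1405524761) 281104953 (by decide)
       (ok_go H c11b_873)
       (ok_go H c11b_874))))
    (.s1 1825361102 2040109466 107374183 (by decide)
     (.s3 5903203997 6465413901 281104953 (by decide)
      (.s2 (-843314855) (-281104951) 281104953 (by decide)
       (.s1 1771674011 1879048193 53687092 (by decide)
        (ok_go H c11b_875)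
        (ok_go H c11b_876))
       (.s1 1771674011 1879048193 53687092 (by decide)
        (ok_go H c11b_877)
        (ok_go H c11b_878)))
      (.s2 (-843314855) (-281104951) 281104953 (by decide)
       (.s1 1771674011 1879048193 53687092 (by decide)
        (ok_go H c11b_879)
        (ok_go H c11b_880))
       (ok_go H c11b_881)))
     (.s3 5903203997 6465413901 281104953 (by decide)
      (.s2 (-843314855) (-281104951) 281104953 (by decide)
       (.s2 (-983867331) (-702762379) 140552477 (by decide)
        (ok_go H c11b_882)
        (ok_go H c11b_883))
       (.s2 (-421657427) (-140552475) 140552477 (by decide)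
        (ok_go H c11b_884)
        (ok_go H c11b_885)))
      (.s2 (-843314855) (-281104951) 281104953 (by decide)
       (ok_go H c11b_886)
       (ok_go H c11b_887))))))

theorem ok11b_21 (H : Good p11b L b s) :
    Ok L b s 2362232014 214748365 (-1124419808) 1124419810 5622099044 1124419810 :=
  (.s3 5059889139 6184308949 562209905 (by decide)
   (.s2 (-1686629713) (-562209903) 562209905 (by decide)
    (.s1 2254857832 2469606196 107374183 (by decide)
     (.s3 4778784187 5340994091 281104953 (by decide)
      (.s2 (-1967734665) (-1405524761) 281104953 (by decide)
       (ok_go H c11b_888)
       (ok_go H c11b_889))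
      (.s2 (-1967734665) (-1405524761) 281104953 (by decide)
       (ok_go H c11b_890)
       (.s2 (-1546077237) (-1264972285) 140552477 (by decide)
        (ok_go H c11b_891)
        (ok_go H c11b_892))))
     (.s3 4778784187 5340994091 281104953 (by decide)
      (.s2 (-1967734665) (-1405524761) 281104953 (by decide)
       (.s2 (-2108287141) (-1827182189) 140552477 (by decide)
        (ok_go H c11b_893)
        (ok_go H c11b_894))
       (.s2 (-1546077237) (-1264972285) 140552477 (by decide)
        (ok_go H c11b_895)
        (ok_go H c11b_896)))
      (.s2 (-1967734665) (-1405524761) 281104953 (by decide)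
       (ok_go H c11b_897)
       (ok_go H c11b_898))))
    (.s1 2254857832 2469606196 107374183 (by decide)
     (.s3 4778784187 5340994091 281104953 (by decide)
      (.s2 (-843314855) (-281104951) 281104953 (by decide)
       (.s2 (-983867331) (-702762379) 140552477 (by decide)
        (ok_go H c11b_899)
        (.s3 4638231711 4919336663 140552477 (by decide)
         (ok_go H c11b_900)
         (ok_go H c11b_901)))
       (.s2 (-421657427) (-140552475) 140552477 (by decide)
        (.s3 4638231711 4919336663 140552477 (by decide)
         (ok_go H c11b_902)
         (ok_go H c11b_903))
        (.s3 4638231711 4919336663 140552477 (by decide)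
         (ok_go H c11b_904)
         (ok_go H c11b_905))))
      (.s2 (-843314855) (-281104951) 281104953 (by decide)
       (.s2 (-983867331) (-702762379) 140552477 (by decide)
        (ok_go H c11b_906)
        (ok_go H c11b_907))
       (.s2 (-421657427) (-140552475) 140552477 (by decide)
        (ok_go H c11b_908)
        (ok_go H c11b_909))))
     (.s3 4778784187 5340994091 281104953 (by decide)
      (.s2 (-843314855) (-281104951) 281104953 (by decide)
       (.s2 (-983867331) (-702762379) 140552477 (by decide)
        (ok_go H c11b_910)
        (ok_go H c11b_911))
       (.s2 (-421657427) (-140552475) 140552477 (by decide)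
        (.s3 4638231711 4919336663 140552477 (by decide)
         (ok_go H c11b_912)
         (ok_go H c11b_913))
        (.s3 4638231711 4919336663 140552477 (by decide)
         (ok_go H c11b_914)
         (ok_go H c11b_915))))
      (.s2 (-843314855) (-281104951) 281104953 (by decide)
       (.s2 (-983867331) (-702762379) 140552477 (by decide)
        (ok_go H c11b_916)
        (ok_go H c11b_917))
       (.s2 (-421657427) (-140552475) 140552477 (by decide)
        (ok_go H c11b_918)
        (ok_go H c11b_919))))))
   (.s2 (-1686629713) (-562209903) 562209905 (by decide)
    (.s1 2254857832 2469606196 107374183 (by decide)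
     (.s3 5903203997 6465413901 281104953 (by decide)
      (.s2 (-1967734665) (-1405524761) 281104953 (by decide)
       (ok_go H c11b_920)
       (ok_go H c11b_921))
      (.s2 (-1967734665) (-1405524761) 281104953 (by decide)
       (ok_go H c11b_922)
       (ok_go H c11b_923)))
     (.s3 5903203997 6465413901 281104953 (by decide)
      (.s2 (-1967734665) (-1405524761) 281104953 (by decide)
       (ok_go H c11b_924)
       (ok_go H c11b_925))
      (ok_go H c11b_926)))
    (.s1 2254857832 2469606196 107374183 (by decide)
     (.s3 5903203997 6465413901 281104953 (by decide)
      (.s2 (-843314855) (-281104951) 281104953 (by decide)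
       (.s2 (-983867331) (-702762379) 140552477 (by decide)
        (ok_go H c11b_927)
        (ok_go H c11b_928))
       (.s2 (-421657427) (-140552475) 140552477 (by decide)
        (ok_go H c11b_929)
        (ok_go H c11b_930)))
      (.s2 (-843314855) (-281104951) 281104953 (by decide)
       (ok_go H c11b_931)
       (ok_go H c11b_932)))
     (.s3 5903203997 6465413901 281104953 (by decide)
      (.s2 (-843314855) (-281104951) 281104953 (by decide)
       (ok_go H c11b_933)
       (ok_go H c11b_934))
      (ok_go H c11b_935)))))

theorem ok11b_22 (H : Good p11b L b s) :
    Ok L b s 2147483649 429496730 1124419810 1124419810 5622099044 1124419810 :=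
  (.s1 1932735284 2362232014 214748365 (by decide)
   (.s3 5059889139 6184308949 562209905 (by decide)
    (.s2 562209905 1686629715 562209905 (by decide)
     (.s1 1825361102 2040109466 107374183 (by decide)
      (.s3 4778784187 5340994091 281104953 (by decide)
       (.s2 281104953 843314857 281104953 (by decide)
        (ok_go H c11b_936)
        (ok_go H c11b_937))
       (.s2 281104953 843314857 281104953 (by decide)
        (ok_go H c11b_938)
        (ok_go H c11b_939)))
      (.s3 4778784187 5340994091 281104953 (by decide)
       (.s2 281104953 843314857 281104953 (by decide)
        (.s2 140552477 421657429 140552477 (by decide)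
         (ok_go H c11b_940)
         (ok_go H c11b_941))
        (.s2 702762381 983867333 140552477 (by decide)
         (ok_go H c11b_942)
         (ok_go H c11b_943)))
       (.s2 281104953 843314857 281104953 (by decide)
        (.s2 140552477 421657429 140552477 (by decide)
         (ok_go H c11b_944)
         (ok_go H c11b_945))
        (ok_go H c11b_946))))
     (ok_go H c11b_947))
    (.s2 562209905 1686629715 562209905 (by decide)
     (.s1 1825361102 2040109466 107374183 (by decide)
      (.s3 5903203997 6465413901 281104953 (by decide)
       (ok_go H c11b_948)
       (ok_go H c11b_949))
      (.s3 5903203997 6465413901 281104953 (by decide)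
       (ok_go H c11b_950)
       (ok_go H c11b_951)))
     (ok_go H c11b_952)))
   (.s3 5059889139 6184308949 562209905 (by decide)
    (.s2 562209905 1686629715 562209905 (by decide)
     (.s1 2254857832 2469606196 107374183 (by decide)
      (.s3 4778784187 5340994091 281104953 (by decide)
       (.s2 281104953 843314857 281104953 (by decide)
        (.s2 140552477 421657429 140552477 (by decide)
         (.s3 4638231711 4919336663 140552477 (by decide)
          (ok_go H c11b_953)
          (ok_go H c11b_954))
         (.s3 4638231711 4919336663 140552477 (by decide)
          (ok_go H c11b_955)
          (ok_go H c11b_956)))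
        (.s2 702762381 983867333 140552477 (by decide)
         (.s3 4638231711 4919336663 140552477 (by decide)
          (ok_go H c11b_957)
          (ok_go H c11b_958))
         (.s3 4638231711 4919336663 140552477 (by decide)
          (ok_go H c11b_959)
          (ok_go H c11b_960))))
       (.s2 281104953 843314857 281104953 (by decide)
        (.s2 140552477 421657429 140552477 (by decide)
         (ok_go H c11b_961)
         (ok_go H c11b_962))
        (ok_go H c11b_963)))
      (.s3 4778784187 5340994091 281104953 (by decide)
       (.s2 281104953 843314857 281104953 (by decide)
        (.s2 140552477 421657429 140552477 (by decide)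
         (.s3 4638231711 4919336663 140552477 (by decide)
          (ok_go H c11b_964)
          (ok_go H c11b_965))
         (.s3 4638231711 4919336663 140552477 (by decide)
          (.s1 2415919105 2523293287 53687092 (by decide)
           (ok_go H c11b_966)
           (ok_go H c11b_967))
          (ok_go H c11b_968)))
        (.s2 702762381 983867333 140552477 (by decide)
         (.s3 4638231711 4919336663 140552477 (by decide)
          (.s1 2415919105 2523293287 53687092 (by decide)
           (ok_go H c11b_969)
           (ok_go H c11b_970))
          (ok_go H c11b_971))
         (.s3 4638231711 4919336663 140552477 (by decide)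
          (.s1 2415919105 2523293287 53687092 (by decide)
           (ok_go H c11b_972)
           (ok_go H c11b_973))
          (ok_go H c11b_974))))
       (.s2 281104953 843314857 281104953 (by decide)
        (.s2 140552477 421657429 140552477 (by decide)
         (ok_go H c11b_975)
         (ok_go H c11b_976))
        (ok_go H c11b_977))))
     (ok_go H c11b_978))
    (.s2 562209905 1686629715 562209905 (by decide)
     (.s1 2254857832 2469606196 107374183 (by decide)
      (.s3 5903203997 6465413901 281104953 (by decide)
       (ok_go H c11b_979)
       (ok_go H c11b_980))
      (.s3 5903203997 6465413901 281104953 (by decide)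
       (ok_go H c11b_981)
       (ok_go H c11b_982)))
     (ok_go H c11b_983))))

theorem ok11b_23 (H : Good p11b L b s) :
    Ok L b s 3435973837 858993460 (-4497679235) 2248839619 4497679235 2248839619 :=
  (.s1 3006477107 3865470567 429496730 (by decide)
   (.s3 3373259426 5622099044 1124419810 (by decide)
    (ok_go H c11b_984)
    (.s2 (-5622099044) (-3373259426) 1124419810 (by decide)
     (.s1 2791728742 3221225472 214748365 (by decide)
      (.s3 5059889139 6184308949 562209905 (by decide)
       (ok_go H c11b_985)
       (.s2 (-6184308949) (-5059889139) 562209905 (by decide)
        (.s2 (-6465413901) (-5903203997) 281104953 (by decide)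
         (.s3 5903203997 6465413901 281104953 (by decide)
          (ok_go H c11b_986)
          (.s2 (-6605966377) (-6324861425) 140552477 (by decide)
           (ok_go H c11b_987)
           (ok_go H c11b_988)))
         (.s3 5903203997 6465413901 281104953 (by decide)
          (ok_go H c11b_989)
          (ok_go H c11b_990)))
        (.s2 (-5340994091) (-4778784187) 281104953 (by decide)
         (ok_go H c11b_991)
         (ok_go H c11b_992))))
      (.s3 5059889139 6184308949 562209905 (by decide)
       (ok_go H c11b_993)
       (.s2 (-6184308949) (-5059889139) 562209905 (by decide)
        (.s2 (-6465413901) (-5903203997) 281104953 (by decide)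
         (.s3 5903203997 6465413901 281104953 (by decide)
          (ok_go H c11b_994)
          (.s2 (-6605966377) (-6324861425) 140552477 (by decide)
           (ok_go H c11b_995)
           (ok_go H c11b_996)))
         (.s3 5903203997 6465413901 281104953 (by decide)
          (ok_go H c11b_997)
          (ok_go H c11b_998)))
        (.s2 (-5340994091) (-4778784187) 281104953 (by decide)
         (ok_go H c11b_999)
         (ok_go H c11b_1000)))))
     (.s1 2791728742 3221225472 214748365 (by decide)
      (.s3 5059889139 6184308949 562209905 (by decide)
       (.s2 (-3935469331) (-2811049521) 562209905 (by decide)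
        (.s2 (-4216574283) (-3654364379) 281104953 (by decide)
         (ok_go H c11b_1001)
         (.s3 4778784187 5340994091 281104953 (by decide)
          (ok_go H c11b_1002)
          (ok_go H c11b_1003)))
        (.s2 (-3092154473) (-2529944569) 281104953 (by decide)
         (.s3 4778784187 5340994091 281104953 (by decide)
          (.s2 (-3232706949) (-2951601997) 140552477 (by decide)
           (ok_go H c11b_1004)
           (.s1 2684354560 2899102924 107374183 (by decide)
            (.s3 4638231711 4919336663 140552477 (by decide)
             (ok_go H c11b_1005)
             (.s1 2630667469 2738041651 53687092 (by decide)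
              (ok_go H c11b_1006)
              (ok_go H c11b_1007)))
            (ok_go H c11b_1008)))
          (.s2 (-3232706949) (-2951601997) 140552477 (by decide)
           (.s1 2684354560 2899102924 107374183 (by decide)
            (.s3 5200441615 5481546567 140552477 (by decide)
             (ok_go H c11b_1009)
             (ok_go H c11b_1010))
            (ok_go H c11b_1011))
           (.s1 2684354560 2899102924 107374183 (by decide)
            (.s3 5200441615 5481546567 140552477 (by decide)
             (.s1 2630667469 2738041651 53687092 (by decide)
              (ok_go H c11b_1012)
              (ok_go H c11b_1013))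
             (ok_go H c11b_1014))
            (ok_go H c11b_1015))))
         (.s3 4778784187 5340994091 281104953 (by decide)
          (.s1 2684354560 2899102924 107374183 (by decide)
           (.s2 (-2670497045) (-2389392093) 140552477 (by decide)
            (.s3 4638231711 4919336663 140552477 (by decide)
             (ok_go H c11b_1016)
             (.s1 2630667469 2738041651 53687092 (by decide)
              (ok_go H c11b_1017)
              (.s2 (-2740773283) (-2600220807) 70276239 (by decide)
               (ok_go H c11b_1018)
               (ok_go H c11b_1019))))
            (.s3 4638231711 4919336663 140552477 (by decide)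
             (ok_go H c11b_1020)
             (ok_go H c11b_1021)))
           (.s2 (-2670497045) (-2389392093) 140552477 (by decide)
            (.s3 4638231711 4919336663 140552477 (by decide)
             (ok_go H c11b_1022)
             (ok_go H c11b_1023))
            (.s3 4638231711 4919336663 140552477 (by decide)
             (.s1 2845415833 2952790015 53687092 (by decide)
              (.s2 (-2459668331) (-2319115855) 70276239 (by decide)
               (ok_go H c11b_1024)
               (.s3 4567955473 4708507949 70276239 (by decide)
                (ok_go H c11b_1025)
                (ok_go H c11b_1026)))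
              (ok_go H c11b_1027))
             (.s1 2845415833 2952790015 53687092 (by decide)
              (.s2 (-2459668331) (-2319115855) 70276239 (by decide)
               (ok_go H c11b_1028)
               (ok_go H c11b_1029))
              (ok_go H c11b_1030)))))
          (.s1 2684354560 2899102924 107374183 (by decide)
           (.s2 (-2670497045) (-2389392093) 140552477 (by decide)
            (.s3 5200441615 5481546567 140552477 (by decide)
             (.s1 2630667469 2738041651 53687092 (by decide)
              (ok_go H c11b_1031)
              (ok_go H c11b_1032))
             (ok_go H c11b_1033))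
            (.s3 5200441615 5481546567 140552477 (by decide)
             (ok_go H c11b_1034)
             (ok_go H c11b_1035)))
           (.s2 (-2670497045) (-2389392093) 140552477 (by decide)
            (.s3 5200441615 5481546567 140552477 (by decide)
             (ok_go H c11b_1036)
             (ok_go H c11b_1037))
            (.s3 5200441615 5481546567 140552477 (by decide)
             (.s1 2845415833 2952790015 53687092 (by decide)
              (ok_go H c11b_1038)
              (ok_go H c11b_1039))
             (ok_go H c11b_1040)))))))
       (.s2 (-3935469331) (-2811049521) 562209905 (by decide)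
        (.s2 (-4216574283) (-3654364379) 281104953 (by decide)
         (ok_go H c11b_1041)
         (.s3 5903203997 6465413901 281104953 (by decide)
          (ok_go H c11b_1042)
          (ok_go H c11b_1043)))
        (.s1 2684354560 2899102924 107374183 (by decide)
         (.s3 5903203997 6465413901 281104953 (by decide)
          (.s2 (-3092154473) (-2529944569) 281104953 (by decide)
           (.s3 5762651521 6043756473 140552477 (by decide)
            (ok_go H c11b_1044)
            (ok_go H c11b_1045))
           (ok_go H c11b_1046))
          (ok_go H c11b_1047))
         (.s2 (-3092154473) (-2529944569) 281104953 (by decide)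
          (ok_go H c11b_1048)
          (ok_go H c11b_1049)))))
      (.s3 5059889139 6184308949 562209905 (by decide)
       (.s2 (-3935469331) (-2811049521) 562209905 (by decide)
        (ok_go H c11b_1050)
        (.s2 (-3092154473) (-2529944569) 281104953 (by decide)
         (ok_go H c11b_1051)
         (.s3 4778784187 5340994091 281104953 (by decide)
          (ok_go H c11b_1052)
          (ok_go H c11b_1053))))
       (.s2 (-3935469331) (-2811049521) 562209905 (by decide)
        (ok_go H c11b_1054)
        (.s2 (-3092154473) (-2529944569) 281104953 (by decide)
         (ok_go H c11b_1055)
         (ok_go H c11b_1056)))))))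
   (.s3 3373259426 5622099044 1124419810 (by decide)
    (ok_go H c11b_1057)
    (.s2 (-5622099044) (-3373259426) 1124419810 (by decide)
     (.s1 3650722202 4080218932 214748365 (by decide)
      (.s3 5059889139 6184308949 562209905 (by decide)
       (ok_go H c11b_1058)
       (.s2 (-6184308949) (-5059889139) 562209905 (by decide)
        (.s2 (-6465413901) (-5903203997) 281104953 (by decide)
         (.s3 5903203997 6465413901 281104953 (by decide)
          (ok_go H c11b_1059)
          (.s2 (-6605966377) (-6324861425) 140552477 (by decide)
           (ok_go H c11b_1060)
           (ok_go H c11b_1061)))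
         (ok_go H c11b_1062))
        (.s2 (-5340994091) (-4778784187) 281104953 (by decide)
         (ok_go H c11b_1063)
         (ok_go H c11b_1064))))
      (.s1 3972844750 4187593114 107374183 (by decide)
       (.s1 3919157659 4026531841 53687092 (by decide)
        (ok_go H c11b_1065)
        (ok_go H c11b_1066))
       (.s1 4133906023 4241280205 53687092 (by decide)
        (ok_go H c11b_1067)
        (ok_go H c11b_1068))))
     (.s1 3650722202 4080218932 214748365 (by decide)
      (.s3 5059889139 6184308949 562209905 (by decide)
       (.s2 (-3935469331) (-2811049521) 562209905 (by decide)
        (ok_go H c11b_1069)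
        (ok_go H c11b_1070))
       (.s2 (-3935469331) (-2811049521) 562209905 (by decide)
        (ok_go H c11b_1071)
        (ok_go H c11b_1072)))
      (.s3 5059889139 6184308949 562209905 (by decide)
       (ok_go H c11b_1073)
       (.s2 (-3935469331) (-2811049521) 562209905 (by decide)
        (ok_go H c11b_1074)
        (ok_go H c11b_1075)))))))

theorem ok11b_24 (H : Good p11b L b s) :
    Ok L b s 2791728742 214748365 (-1124419808) 1124419810 2811049521 562209905 :=
  (ok_go H c11b_1076)

theorem ok11b_25 (H : Good p11b L b s) :
    Ok L b s 2791728742 214748365 (-1686629713) 562209905 3935469331 562209905 :=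
  (.s1 2684354560 2899102924 107374183 (by decide)
   (.s2 (-1967734665) (-1405524761) 281104953 (by decide)
    (.s3 3654364379 4216574283 281104953 (by decide)
     (ok_go H c11b_1077)
     (.s2 (-2108287141) (-1827182189) 140552477 (by decide)
      (ok_go H c11b_1078)
      (.s3 4076021807 4357126759 140552477 (by decide)
       (ok_go H c11b_1079)
       (ok_go H c11b_1080))))
    (.s3 3654364379 4216574283 281104953 (by decide)
     (ok_go H c11b_1081)
     (.s2 (-1546077237) (-1264972285) 140552477 (by decide)
      (.s3 4076021807 4357126759 140552477 (by decide)
       (ok_go H c11b_1082)
       (.s1 2630667469 2738041651 53687092 (by decide)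
        (ok_go H c11b_1083)
        (ok_go H c11b_1084)))
      (.s3 4076021807 4357126759 140552477 (by decide)
       (.s1 2630667469 2738041651 53687092 (by decide)
        (ok_go H c11b_1085)
        (ok_go H c11b_1086))
       (ok_go H c11b_1087)))))
   (.s2 (-1967734665) (-1405524761) 281104953 (by decide)
    (.s3 3654364379 4216574283 281104953 (by decide)
     (ok_go H c11b_1088)
     (.s2 (-2108287141) (-1827182189) 140552477 (by decide)
      (.s3 4076021807 4357126759 140552477 (by decide)
       (ok_go H c11b_1089)
       (.s1 2845415833 2952790015 53687092 (by decide)
        (ok_go H c11b_1090)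
        (.s2 (-2178563379) (-2038010903) 70276239 (by decide)
         (ok_go H c11b_1091)
         (ok_go H c11b_1092))))
      (.s3 4076021807 4357126759 140552477 (by decide)
       (ok_go H c11b_1093)
       (.s1 2845415833 2952790015 53687092 (by decide)
        (.s2 (-1897458427) (-1756905951) 70276239 (by decide)
         (ok_go H c11b_1094)
         (ok_go H c11b_1095))
        (.s2 (-1897458427) (-1756905951) 70276239 (by decide)
         (.s3 4286850521 4427402997 70276239 (by decide)
          (ok_go H c11b_1096)
          (ok_go H c11b_1097))
         (.s3 4286850521 4427402997 70276239 (by decide)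
          (ok_go H c11b_1098)
          (ok_go H c11b_1099)))))))
    (.s3 3654364379 4216574283 281104953 (by decide)
     (ok_go H c11b_1100)
     (.s2 (-1546077237) (-1264972285) 140552477 (by decide)
      (.s3 4076021807 4357126759 140552477 (by decide)
       (.s1 2845415833 2952790015 53687092 (by decide)
        (ok_go H c11b_1101)
        (ok_go H c11b_1102))
       (.s1 2845415833 2952790015 53687092 (by decide)
        (.s2 (-1616353475) (-1475800999) 70276239 (by decide)
         (ok_go H c11b_1103)
         (ok_go H c11b_1104))
        (.s2 (-1616353475) (-1475800999) 70276239 (by decide)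
         (.s3 4286850521 4427402997 70276239 (by decide)
          (ok_go H c11b_1105)
          (ok_go H c11b_1106))
         (ok_go H c11b_1107))))
      (.s3 4076021807 4357126759 140552477 (by decide)
       (.s1 2845415833 2952790015 53687092 (by decide)
        (.s2 (-1335248523) (-1194696047) 70276239 (by decide)
         (ok_go H c11b_1108)
         (ok_go H c11b_1109))
        (.s2 (-1335248523) (-1194696047) 70276239 (by decide)
         (ok_go H c11b_1110)
         (ok_go H c11b_1111)))
       (.s1 2845415833 2952790015 53687092 (by decide)
        (ok_go H c11b_1112)
        (.s2 (-1335248523) (-1194696047) 70276239 (by decide)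
         (ok_go H c11b_1113)
         (ok_go H c11b_1114))))))))

theorem ok11b_26 (H : Good p11b L b s) :
    Ok L b s 2791728742 214748365 (-562209903) 562209905 3935469331 562209905 :=
  (.s1 2684354560 2899102924 107374183 (by decide)
   (.s3 3654364379 4216574283 281104953 (by decide)
    (.s2 (-843314855) (-281104951) 281104953 (by decide)
     (.s2 (-983867331) (-702762379) 140552477 (by decide)
      (ok_go H c11b_1115)
      (.s3 3513811903 3794916855 140552477 (by decide)
       (ok_go H c11b_1116)
       (.s1 2630667469 2738041651 53687092 (by decide)
        (ok_go H c11b_1117)
        (ok_go H c11b_1118))))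
     (.s2 (-421657427) (-140552475) 140552477 (by decide)
      (.s3 3513811903 3794916855 140552477 (by decide)
       (ok_go H c11b_1119)
       (ok_go H c11b_1120))
      (.s3 3513811903 3794916855 140552477 (by decide)
       (ok_go H c11b_1121)
       (.s1 2630667469 2738041651 53687092 (by decide)
        (ok_go H c11b_1122)
        (ok_go H c11b_1123)))))
    (.s2 (-843314855) (-281104951) 281104953 (by decide)
     (.s2 (-983867331) (-702762379) 140552477 (by decide)
      (.s3 4076021807 4357126759 140552477 (by decide)
       (.s1 2630667469 2738041651 53687092 (by decide)
        (ok_go H c11b_1124)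
        (ok_go H c11b_1125))
       (ok_go H c11b_1126))
      (.s3 4076021807 4357126759 140552477 (by decide)
       (ok_go H c11b_1127)
       (ok_go H c11b_1128)))
     (.s2 (-421657427) (-140552475) 140552477 (by decide)
      (.s3 4076021807 4357126759 140552477 (by decide)
       (ok_go H c11b_1129)
       (ok_go H c11b_1130))
      (.s3 4076021807 4357126759 140552477 (by decide)
       (ok_go H c11b_1131)
       (ok_go H c11b_1132)))))
   (.s2 (-843314855) (-281104951) 281104953 (by decide)
    (.s3 3654364379 4216574283 281104953 (by decide)
     (.s2 (-983867331) (-702762379) 140552477 (by decide)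
      (.s3 3513811903 3794916855 140552477 (by decide)
       (ok_go H c11b_1133)
       (.s1 2845415833 2952790015 53687092 (by decide)
        (ok_go H c11b_1134)
        (.s2 (-1054143569) (-913591093) 70276239 (by decide)
         (ok_go H c11b_1135)
         (.s3 3724640617 3865193093 70276239 (by decide)
          (ok_go H c11b_1136)
          (ok_go H c11b_1137)))))
      (.s3 3513811903 3794916855 140552477 (by decide)
       (ok_go H c11b_1138)
       (.s1 2845415833 2952790015 53687092 (by decide)
        (.s2 (-773038617) (-632486141) 70276239 (by decide)
         (ok_go H c11b_1139)
         (.s3 3724640617 3865193093 70276239 (by decide)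
          (ok_go H c11b_1140)
          (ok_go H c11b_1141)))
        (.s2 (-773038617) (-632486141) 70276239 (by decide)
         (.s3 3724640617 3865193093 70276239 (by decide)
          (ok_go H c11b_1142)
          (ok_go H c11b_1143))
         (.s3 3724640617 3865193093 70276239 (by decide)
          (ok_go H c11b_1144)
          (ok_go H c11b_1145))))))
     (.s2 (-983867331) (-702762379) 140552477 (by decide)
      (.s3 4076021807 4357126759 140552477 (by decide)
       (.s1 2845415833 2952790015 53687092 (by decide)
        (.s2 (-1054143569) (-913591093) 70276239 (by decide)
         (ok_go H c11b_1146)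
         (ok_go H c11b_1147))
        (.s2 (-1054143569) (-913591093) 70276239 (by decide)
         (.s3 4005745569 4146298045 70276239 (by decide)
          (ok_go H c11b_1148)
          (ok_go H c11b_1149))
         (.s3 4005745569 4146298045 70276239 (by decide)
          (ok_go H c11b_1150)
          (ok_go H c11b_1151))))
       (.s1 2845415833 2952790015 53687092 (by decide)
        (ok_go H c11b_1152)
        (.s2 (-1054143569) (-913591093) 70276239 (by decide)
         (ok_go H c11b_1153)
         (ok_go H c11b_1154))))
      (.s3 4076021807 4357126759 140552477 (by decide)
       (.s1 2845415833 2952790015 53687092 (by decide)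
        (.s2 (-773038617) (-632486141) 70276239 (by decide)
         (ok_go H c11b_1155)
         (ok_go H c11b_1156))
        (.s2 (-773038617) (-632486141) 70276239 (by decide)
         (.s3 4005745569 4146298045 70276239 (by decide)
          (ok_go H c11b_1157)
          (ok_go H c11b_1158))
         (ok_go H c11b_1159)))
       (.s1 2845415833 2952790015 53687092 (by decide)
        (ok_go H c11b_1160)
        (ok_go H c11b_1161)))))
    (.s3 3654364379 4216574283 281104953 (by decide)
     (.s2 (-421657427) (-140552475) 140552477 (by decide)
      (.s3 3513811903 3794916855 140552477 (by decide)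
       (.s1 2845415833 2952790015 53687092 (by decide)
        (ok_go H c11b_1162)
        (.s2 (-491933665) (-351381189) 70276239 (by decide)
         (ok_go H c11b_1163)
         (.s3 3443535665 3584088141 70276239 (by decide)
          (ok_go H c11b_1164)
          (ok_go H c11b_1165))))
       (.s1 2845415833 2952790015 53687092 (by decide)
        (.s2 (-491933665) (-351381189) 70276239 (by decide)
         (ok_go H c11b_1166)
         (ok_go H c11b_1167))
        (.s2 (-491933665) (-351381189) 70276239 (by decide)
         (.s3 3724640617 3865193093 70276239 (by decide)
          (ok_go H c11b_1168)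
          (ok_go H c11b_1169))
         (.s3 3724640617 3865193093 70276239 (by decide)
          (ok_go H c11b_1170)
          (ok_go H c11b_1171)))))
      (.s3 3513811903 3794916855 140552477 (by decide)
       (.s1 2845415833 2952790015 53687092 (by decide)
        (.s2 (-210828713) (-70276237) 70276239 (by decide)
         (ok_go H c11b_1172)
         (ok_go H c11b_1173))
        (.s2 (-210828713) (-70276237) 70276239 (by decide)
         (.s3 3443535665 3584088141 70276239 (by decide)
          (ok_go H c11b_1174)
          (ok_go H c11b_1175))
         (.s3 3443535665 3584088141 70276239 (by decide)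
          (ok_go H c11b_1176)
          (ok_go H c11b_1177))))
       (.s1 2845415833 2952790015 53687092 (by decide)
        (.s2 (-210828713) (-70276237) 70276239 (by decide)
         (ok_go H c11b_1178)
         (ok_go H c11b_1179))
        (.s2 (-210828713) (-70276237) 70276239 (by decide)
         (ok_go H c11b_1180)
         (ok_go H c11b_1181)))))
     (.s2 (-421657427) (-140552475) 140552477 (by decide)
      (.s3 4076021807 4357126759 140552477 (by decide)
       (.s1 2845415833 2952790015 53687092 (by decide)
        (ok_go H c11b_1182)
        (.s2 (-491933665) (-351381189) 70276239 (by decide)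
         (ok_go H c11b_1183)
         (ok_go H c11b_1184)))
       (.s1 2845415833 2952790015 53687092 (by decide)
        (ok_go H c11b_1185)
        (ok_go H c11b_1186)))
      (.s3 4076021807 4357126759 140552477 (by decide)
       (.s1 2845415833 2952790015 53687092 (by decide)
        (ok_go H c11b_1187)
        (ok_go H c11b_1188))
       (.s1 2845415833 2952790015 53687092 (by decide)
        (ok_go H c11b_1189)
        (ok_go H c11b_1190)))))))

theorem ok11b_27 (H : Good p11b L b s) :
    Ok L b s 3221225472 214748365 (-1124419808) 1124419810 3373259426 1124419810 :=
  (.s3 2811049521 3935469331 562209905 (by decide)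
   (ok_go H c11b_1191)
   (.s2 (-1686629713) (-562209903) 562209905 (by decide)
    (.s2 (-1967734665) (-1405524761) 281104953 (by decide)
     (.s3 3654364379 4216574283 281104953 (by decide)
      (ok_go H c11b_1192)
      (.s1 3113851290 3328599654 107374183 (by decide)
       (.s2 (-2108287141) (-1827182189) 140552477 (by decide)
        (ok_go H c11b_1193)
        (ok_go H c11b_1194))
       (ok_go H c11b_1195)))
     (.s3 3654364379 4216574283 281104953 (by decide)
      (ok_go H c11b_1196)
      (.s1 3113851290 3328599654 107374183 (by decide)
       (.s2 (-1546077237) (-1264972285) 140552477 (by decide)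
        (.s3 4076021807 4357126759 140552477 (by decide)
         (.s1 3060164199 3167538381 53687092 (by decide)
          (ok_go H c11b_1197)
          (ok_go H c11b_1198))
         (.s1 3060164199 3167538381 53687092 (by decide)
          (.s2 (-1616353475) (-1475800999) 70276239 (by decide)
           (ok_go H c11b_1199)
           (ok_go H c11b_1200))
          (ok_go H c11b_1201)))
        (.s3 4076021807 4357126759 140552477 (by decide)
         (.s1 3060164199 3167538381 53687092 (by decide)
          (.s1 3033320653 3087007745 26843546 (by decide)
           (.s2 (-1335248523) (-1194696047) 70276239 (by decide)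
            (ok_go H c11b_1202)
            (ok_go H c11b_1203))
           (ok_go H c11b_1204))
          (ok_go H c11b_1205))
         (.s1 3060164199 3167538381 53687092 (by decide)
          (.s1 3033320653 3087007745 26843546 (by decide)
           (.s2 (-1335248523) (-1194696047) 70276239 (by decide)
            (ok_go H c11b_1206)
            (ok_go H c11b_1207))
           (ok_go H c11b_1208))
          (ok_go H c11b_1209))))
       (ok_go H c11b_1210))))
    (.s2 (-843314855) (-281104951) 281104953 (by decide)
     (.s3 3654364379 4216574283 281104953 (by decide)
      (.s1 3113851290 3328599654 107374183 (by decide)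
       (.s2 (-983867331) (-702762379) 140552477 (by decide)
        (.s3 3513811903 3794916855 140552477 (by decide)
         (ok_go H c11b_1211)
         (.s1 3060164199 3167538381 53687092 (by decide)
          (.s2 (-1054143569) (-913591093) 70276239 (by decide)
           (ok_go H c11b_1212)
           (.s3 3724640617 3865193093 70276239 (by decide)
            (ok_go H c11b_1213)
            (ok_go H c11b_1214)))
          (ok_go H c11b_1215)))
        (.s3 3513811903 3794916855 140552477 (by decide)
         (ok_go H c11b_1216)
         (.s1 3060164199 3167538381 53687092 (by decide)
          (.s2 (-773038617) (-632486141) 70276239 (by decide)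
           (.s3 3724640617 3865193093 70276239 (by decide)
            (ok_go H c11b_1217)
            (ok_go H c11b_1218))
           (.s3 3724640617 3865193093 70276239 (by decide)
            (ok_go H c11b_1219)
            (ok_go H c11b_1220)))
          (ok_go H c11b_1221))))
       (ok_go H c11b_1222))
      (.s1 3113851290 3328599654 107374183 (by decide)
       (.s2 (-983867331) (-702762379) 140552477 (by decide)
        (.s3 4076021807 4357126759 140552477 (by decide)
         (.s1 3060164199 3167538381 53687092 (by decide)
          (.s2 (-1054143569) (-913591093) 70276239 (by decide)
           (.s3 4005745569 4146298045 70276239 (by decide)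
            (ok_go H c11b_1223)
            (ok_go H c11b_1224))
           (.s3 4005745569 4146298045 70276239 (by decide)
            (ok_go H c11b_1225)
            (ok_go H c11b_1226)))
          (ok_go H c11b_1227))
         (.s1 3060164199 3167538381 53687092 (by decide)
          (.s2 (-1054143569) (-913591093) 70276239 (by decide)
           (.s3 4286850521 4427402997 70276239 (by decide)
            (ok_go H c11b_1228)
            (ok_go H c11b_1229))
           (ok_go H c11b_1230))
          (ok_go H c11b_1231)))
        (.s3 4076021807 4357126759 140552477 (by decide)
         (.s1 3060164199 3167538381 53687092 (by decide)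
          (.s2 (-773038617) (-632486141) 70276239 (by decide)
           (.s3 4005745569 4146298045 70276239 (by decide)
            (ok_go H c11b_1232)
            (ok_go H c11b_1233))
           (ok_go H c11b_1234))
          (ok_go H c11b_1235))
         (.s1 3060164199 3167538381 53687092 (by decide)
          (.s2 (-773038617) (-632486141) 70276239 (by decide)
           (ok_go H c11b_1236)
           (ok_go H c11b_1237))
          (ok_go H c11b_1238))))
       (ok_go H c11b_1239)))
     (.s3 3654364379 4216574283 281104953 (by decide)
      (.s1 3113851290 3328599654 107374183 (by decide)
       (.s2 (-421657427) (-140552475) 140552477 (by decide)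
        (.s3 3513811903 3794916855 140552477 (by decide)
         (.s1 3060164199 3167538381 53687092 (by decide)
          (.s2 (-491933665) (-351381189) 70276239 (by decide)
           (ok_go H c11b_1240)
           (ok_go H c11b_1241))
          (ok_go H c11b_1242))
         (.s1 3060164199 3167538381 53687092 (by decide)
          (.s2 (-491933665) (-351381189) 70276239 (by decide)
           (ok_go H c11b_1243)
           (ok_go H c11b_1244))
          (ok_go H c11b_1245)))
        (.s3 3513811903 3794916855 140552477 (by decide)
         (.s1 3060164199 3167538381 53687092 (by decide)
          (.s2 (-210828713) (-70276237) 70276239 (by decide)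
           (.s3 3443535665 3584088141 70276239 (by decide)
            (ok_go H c11b_1246)
            (ok_go H c11b_1247))
           (ok_go H c11b_1248))
          (ok_go H c11b_1249))
         (.s1 3060164199 3167538381 53687092 (by decide)
          (.s2 (-210828713) (-70276237) 70276239 (by decide)
           (ok_go H c11b_1250)
           (ok_go H c11b_1251))
          (ok_go H c11b_1252))))
       (.s2 (-421657427) (-140552475) 140552477 (by decide)
        (ok_go H c11b_1253)
        (.s3 3513811903 3794916855 140552477 (by decide)
         (ok_go H c11b_1254)
         (ok_go H c11b_1255))))
      (.s1 3113851290 3328599654 107374183 (by decide)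
       (.s2 (-421657427) (-140552475) 140552477 (by decide)
        (.s3 4076021807 4357126759 140552477 (by decide)
         (.s1 3060164199 3167538381 53687092 (by decide)
          (.s2 (-491933665) (-351381189) 70276239 (by decide)
           (ok_go H c11b_1256)
           (ok_go H c11b_1257))
          (ok_go H c11b_1258))
         (.s1 3060164199 3167538381 53687092 (by decide)
          (ok_go H c11b_1259)
          (ok_go H c11b_1260)))
        (.s3 4076021807 4357126759 140552477 (by decide)
         (.s1 3060164199 3167538381 53687092 (by decide)
          (ok_go H c11b_1261)
          (ok_go H c11b_1262))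
         (ok_go H c11b_1263)))
       (.s2 (-421657427) (-140552475) 140552477 (by decide)
        (ok_go H c11b_1264)
        (ok_go H c11b_1265)))))))

theorem ok11b_28 (H : Good p11b L b s) :
    Ok L b s 2791728742 214748365 1124419810 1124419810 2811049521 562209905 :=
  (.s2 562209905 1686629715 562209905 (by decide)
   (.s1 2684354560 2899102924 107374183 (by decide)
    (.s3 2529944569 3092154473 281104953 (by decide)
     (ok_go H c11b_1266)
     (.s2 281104953 843314857 281104953 (by decide)
      (.s2 140552477 421657429 140552477 (by decide)
       (ok_go H c11b_1267)
       (.s3 2951601997 3232706949 140552477 (by decide)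
        (ok_go H c11b_1268)
        (ok_go H c11b_1269)))
      (.s2 702762381 983867333 140552477 (by decide)
       (.s3 2951601997 3232706949 140552477 (by decide)
        (ok_go H c11b_1270)
        (ok_go H c11b_1271))
       (.s3 2951601997 3232706949 140552477 (by decide)
        (ok_go H c11b_1272)
        (ok_go H c11b_1273)))))
    (.s2 281104953 843314857 281104953 (by decide)
     (.s3 2529944569 3092154473 281104953 (by decide)
      (ok_go H c11b_1274)
      (.s2 140552477 421657429 140552477 (by decide)
       (.s3 2951601997 3232706949 140552477 (by decide)
        (ok_go H c11b_1275)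
        (.s1 2845415833 2952790015 53687092 (by decide)
         (ok_go H c11b_1276)
         (.s2 70276239 210828715 70276239 (by decide)
          (ok_go H c11b_1277)
          (ok_go H c11b_1278))))
       (.s3 2951601997 3232706949 140552477 (by decide)
        (ok_go H c11b_1279)
        (.s1 2845415833 2952790015 53687092 (by decide)
         (ok_go H c11b_1280)
         (.s2 351381191 491933667 70276239 (by decide)
          (ok_go H c11b_1281)
          (ok_go H c11b_1282))))))
     (.s3 2529944569 3092154473 281104953 (by decide)
      (ok_go H c11b_1283)
      (.s2 702762381 983867333 140552477 (by decide)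
       (.s3 2951601997 3232706949 140552477 (by decide)
        (.s1 2845415833 2952790015 53687092 (by decide)
         (ok_go H c11b_1284)
         (ok_go H c11b_1285))
        (.s1 2845415833 2952790015 53687092 (by decide)
         (ok_go H c11b_1286)
         (.s2 632486143 773038619 70276239 (by decide)
          (ok_go H c11b_1287)
          (ok_go H c11b_1288))))
       (.s3 2951601997 3232706949 140552477 (by decide)
        (ok_go H c11b_1289)
        (.s1 2845415833 2952790015 53687092 (by decide)
         (ok_go H c11b_1290)
         (ok_go H c11b_1291)))))))
   (.s1 2684354560 2899102924 107374183 (by decide)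
    (.s3 2529944569 3092154473 281104953 (by decide)
     (.s2 1405524763 1967734667 281104953 (by decide)
      (.s2 1264972287 1546077239 140552477 (by decide)
       (ok_go H c11b_1292)
       (ok_go H c11b_1293))
      (.s3 2389392093 2670497045 140552477 (by decide)
       (.s2 1827182191 2108287143 140552477 (by decide)
        (ok_go H c11b_1294)
        (ok_go H c11b_1295))
       (.s2 1827182191 2108287143 140552477 (by decide)
        (ok_go H c11b_1296)
        (ok_go H c11b_1297))))
     (.s2 1405524763 1967734667 281104953 (by decide)
      (.s2 1264972287 1546077239 140552477 (by decide)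
       (.s3 2951601997 3232706949 140552477 (by decide)
        (ok_go H c11b_1298)
        (ok_go H c11b_1299))
       (.s3 2951601997 3232706949 140552477 (by decide)
        (ok_go H c11b_1300)
        (.s1 2630667469 2738041651 53687092 (by decide)
         (ok_go H c11b_1301)
         (ok_go H c11b_1302))))
      (.s3 2951601997 3232706949 140552477 (by decide)
       (.s2 1827182191 2108287143 140552477 (by decide)
        (ok_go H c11b_1303)
        (ok_go H c11b_1304))
       (ok_go H c11b_1305))))
    (.s3 2529944569 3092154473 281104953 (by decide)
     (.s2 1405524763 1967734667 281104953 (by decide)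
      (.s2 1264972287 1546077239 140552477 (by decide)
       (ok_go H c11b_1306)
       (ok_go H c11b_1307))
      (.s1 2845415833 2952790015 53687092 (by decide)
       (ok_go H c11b_1308)
       (ok_go H c11b_1309)))
     (.s2 1405524763 1967734667 281104953 (by decide)
      (.s2 1264972287 1546077239 140552477 (by decide)
       (.s3 2951601997 3232706949 140552477 (by decide)
        (ok_go H c11b_1310)
        (ok_go H c11b_1311))
       (.s3 2951601997 3232706949 140552477 (by decide)
        (ok_go H c11b_1312)
        (ok_go H c11b_1313)))
      (.s2 1827182191 2108287143 140552477 (by decide)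
       (.s3 2951601997 3232706949 140552477 (by decide)
        (ok_go H c11b_1314)
        (ok_go H c11b_1315))
       (ok_go H c11b_1316))))))

theorem ok11b_29 (H : Good p11b L b s) :
    Ok L b s 2791728742 214748365 562209905 562209905 3935469331 562209905 :=
  (.s1 2684354560 2899102924 107374183 (by decide)
   (.s3 3654364379 4216574283 281104953 (by decide)
    (.s2 281104953 843314857 281104953 (by decide)
     (.s2 140552477 421657429 140552477 (by decide)
      (.s3 3513811903 3794916855 140552477 (by decide)
       (ok_go H c11b_1317)
       (.s1 2630667469 2738041651 53687092 (by decide)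
        (ok_go H c11b_1318)
        (ok_go H c11b_1319)))
      (.s3 3513811903 3794916855 140552477 (by decide)
       (ok_go H c11b_1320)
       (.s1 2630667469 2738041651 53687092 (by decide)
        (ok_go H c11b_1321)
        (ok_go H c11b_1322))))
     (.s2 702762381 983867333 140552477 (by decide)
      (.s3 3513811903 3794916855 140552477 (by decide)
       (.s1 2630667469 2738041651 53687092 (by decide)
        (ok_go H c11b_1323)
        (ok_go H c11b_1324))
       (.s1 2630667469 2738041651 53687092 (by decide)
        (ok_go H c11b_1325)
        (ok_go H c11b_1326)))
      (.s3 3513811903 3794916855 140552477 (by decide)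
       (.s1 2630667469 2738041651 53687092 (by decide)
        (ok_go H c11b_1327)
        (ok_go H c11b_1328))
       (.s1 2630667469 2738041651 53687092 (by decide)
        (.s2 913591095 1054143571 70276239 (by decide)
         (ok_go H c11b_1329)
         (ok_go H c11b_1330))
        (.s2 913591095 1054143571 70276239 (by decide)
         (ok_go H c11b_1331)
         (ok_go H c11b_1332))))))
    (.s2 281104953 843314857 281104953 (by decide)
     (.s2 140552477 421657429 140552477 (by decide)
      (.s3 4076021807 4357126759 140552477 (by decide)
       (ok_go H c11b_1333)
       (ok_go H c11b_1334))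
      (.s3 4076021807 4357126759 140552477 (by decide)
       (.s1 2630667469 2738041651 53687092 (by decide)
        (ok_go H c11b_1335)
        (ok_go H c11b_1336))
       (.s1 2630667469 2738041651 53687092 (by decide)
        (ok_go H c11b_1337)
        (ok_go H c11b_1338))))
     (.s2 702762381 983867333 140552477 (by decide)
      (.s3 4076021807 4357126759 140552477 (by decide)
       (.s1 2630667469 2738041651 53687092 (by decide)
        (.s2 632486143 773038619 70276239 (by decide)
         (ok_go H c11b_1339)
         (ok_go H c11b_1340))
        (ok_go H c11b_1341))
       (.s1 2630667469 2738041651 53687092 (by decide)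
        (.s2 632486143 773038619 70276239 (by decide)
         (ok_go H c11b_1342)
         (ok_go H c11b_1343))
        (ok_go H c11b_1344)))
      (.s3 4076021807 4357126759 140552477 (by decide)
       (.s1 2630667469 2738041651 53687092 (by decide)
        (.s2 913591095 1054143571 70276239 (by decide)
         (ok_go H c11b_1345)
         (ok_go H c11b_1346))
        (.s2 913591095 1054143571 70276239 (by decide)
         (ok_go H c11b_1347)
         (ok_go H c11b_1348)))
       (.s1 2630667469 2738041651 53687092 (by decide)
        (.s2 913591095 1054143571 70276239 (by decide)
         (ok_go H c11b_1349)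
         (ok_go H c11b_1350))
        (ok_go H c11b_1351))))))
   (.s3 3654364379 4216574283 281104953 (by decide)
    (.s2 281104953 843314857 281104953 (by decide)
     (.s2 140552477 421657429 140552477 (by decide)
      (.s3 3513811903 3794916855 140552477 (by decide)
       (.s1 2845415833 2952790015 53687092 (by decide)
        (.s2 70276239 210828715 70276239 (by decide)
         (ok_go H c11b_1352)
         (ok_go H c11b_1353))
        (.s2 70276239 210828715 70276239 (by decide)
         (.s3 3443535665 3584088141 70276239 (by decide)
          (ok_go H c11b_1354)
          (ok_go H c11b_1355))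
         (ok_go H c11b_1356)))
       (.s1 2845415833 2952790015 53687092 (by decide)
        (ok_go H c11b_1357)
        (.s2 70276239 210828715 70276239 (by decide)
         (ok_go H c11b_1358)
         (ok_go H c11b_1359))))
      (.s3 3513811903 3794916855 140552477 (by decide)
       (.s1 2845415833 2952790015 53687092 (by decide)
        (ok_go H c11b_1360)
        (.s2 351381191 491933667 70276239 (by decide)
         (ok_go H c11b_1361)
         (ok_go H c11b_1362)))
       (.s1 2845415833 2952790015 53687092 (by decide)
        (ok_go H c11b_1363)
        (ok_go H c11b_1364))))
     (.s2 702762381 983867333 140552477 (by decide)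
      (.s3 3513811903 3794916855 140552477 (by decide)
       (.s1 2845415833 2952790015 53687092 (by decide)
        (ok_go H c11b_1365)
        (ok_go H c11b_1366))
       (.s1 2845415833 2952790015 53687092 (by decide)
        (ok_go H c11b_1367)
        (ok_go H c11b_1368)))
      (.s3 3513811903 3794916855 140552477 (by decide)
       (.s1 2845415833 2952790015 53687092 (by decide)
        (ok_go H c11b_1369)
        (ok_go H c11b_1370))
       (.s1 2845415833 2952790015 53687092 (by decide)
        (ok_go H c11b_1371)
        (ok_go H c11b_1372)))))
    (.s2 281104953 843314857 281104953 (by decide)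
     (.s2 140552477 421657429 140552477 (by decide)
      (.s3 4076021807 4357126759 140552477 (by decide)
       (.s1 2845415833 2952790015 53687092 (by decide)
        (ok_go H c11b_1373)
        (ok_go H c11b_1374))
       (ok_go H c11b_1375))
      (.s3 4076021807 4357126759 140552477 (by decide)
       (.s1 2845415833 2952790015 53687092 (by decide)
        (ok_go H c11b_1376)
        (ok_go H c11b_1377))
       (ok_go H c11b_1378)))
     (.s2 702762381 983867333 140552477 (by decide)
      (.s3 4076021807 4357126759 140552477 (by decide)
       (ok_go H c11b_1379)
       (ok_go H c11b_1380))
      (.s3 4076021807 4357126759 140552477 (by decide)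
       (.s1 2845415833 2952790015 53687092 (by decide)
        (ok_go H c11b_1381)
        (ok_go H c11b_1382))
       (ok_go H c11b_1383))))))

theorem ok11b_30 (H : Good p11b L b s) :
    Ok L b s 2791728742 214748365 1686629715 562209905 3935469331 562209905 :=
  (.s1 2684354560 2899102924 107374183 (by decide)
   (.s3 3654364379 4216574283 281104953 (by decide)
    (.s2 1405524763 1967734667 281104953 (by decide)
     (.s2 1264972287 1546077239 140552477 (by decide)
      (.s3 3513811903 3794916855 140552477 (by decide)
       (.s1 2630667469 2738041651 53687092 (by decide)
        (.s2 1194696049 1335248525 70276239 (by decide)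
         (ok_go H c11b_1384)
         (ok_go H c11b_1385))
        (.s2 1194696049 1335248525 70276239 (by decide)
         (ok_go H c11b_1386)
         (ok_go H c11b_1387)))
       (.s1 2630667469 2738041651 53687092 (by decide)
        (.s2 1194696049 1335248525 70276239 (by decide)
         (ok_go H c11b_1388)
         (ok_go H c11b_1389))
        (.s2 1194696049 1335248525 70276239 (by decide)
         (ok_go H c11b_1390)
         (ok_go H c11b_1391))))
      (.s3 3513811903 3794916855 140552477 (by decide)
       (.s1 2630667469 2738041651 53687092 (by decide)
        (.s2 1475801001 1616353477 70276239 (by decide)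
         (ok_go H c11b_1392)
         (ok_go H c11b_1393))
        (.s2 1475801001 1616353477 70276239 (by decide)
         (ok_go H c11b_1394)
         (ok_go H c11b_1395)))
       (.s2 1475801001 1616353477 70276239 (by decide)
        (.s1 2630667469 2738041651 53687092 (by decide)
         (ok_go H c11b_1396)
         (ok_go H c11b_1397))
        (ok_go H c11b_1398))))
     (ok_go H c11b_1399))
    (.s2 1405524763 1967734667 281104953 (by decide)
     (.s2 1264972287 1546077239 140552477 (by decide)
      (.s3 4076021807 4357126759 140552477 (by decide)
       (.s1 2630667469 2738041651 53687092 (by decide)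
        (.s2 1194696049 1335248525 70276239 (by decide)
         (ok_go H c11b_1400)
         (ok_go H c11b_1401))
        (.s2 1194696049 1335248525 70276239 (by decide)
         (ok_go H c11b_1402)
         (ok_go H c11b_1403)))
       (ok_go H c11b_1404))
      (ok_go H c11b_1405))
     (ok_go H c11b_1406)))
   (.s3 3654364379 4216574283 281104953 (by decide)
    (.s2 1405524763 1967734667 281104953 (by decide)
     (.s2 1264972287 1546077239 140552477 (by decide)
      (.s3 3513811903 3794916855 140552477 (by decide)
       (.s1 2845415833 2952790015 53687092 (by decide)
        (ok_go H c11b_1407)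
        (ok_go H c11b_1408))
       (.s1 2845415833 2952790015 53687092 (by decide)
        (ok_go H c11b_1409)
        (ok_go H c11b_1410)))
      (.s3 3513811903 3794916855 140552477 (by decide)
       (.s1 2845415833 2952790015 53687092 (by decide)
        (ok_go H c11b_1411)
        (ok_go H c11b_1412))
       (ok_go H c11b_1413)))
     (ok_go H c11b_1414))
    (.s2 1405524763 1967734667 281104953 (by decide)
     (.s2 1264972287 1546077239 140552477 (by decide)
      (.s3 4076021807 4357126759 140552477 (by decide)
       (.s1 2845415833 2952790015 53687092 (by decide)
        (ok_go H c11b_1415)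
        (ok_go H c11b_1416))
       (ok_go H c11b_1417))
      (ok_go H c11b_1418))
     (ok_go H c11b_1419))))

theorem ok11b_31 (H : Good p11b L b s) :
    Ok L b s 3221225472 214748365 562209905 562209905 2811049521 562209905 :=
  (.s2 281104953 843314857 281104953 (by decide)
   (.s3 2529944569 3092154473 281104953 (by decide)
    (ok_go H c11b_1420)
    (.s1 3113851290 3328599654 107374183 (by decide)
     (.s2 140552477 421657429 140552477 (by decide)
      (.s3 2951601997 3232706949 140552477 (by decide)
       (ok_go H c11b_1421)
       (.s1 3060164199 3167538381 53687092 (by decide)
        (ok_go H c11b_1422)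
        (ok_go H c11b_1423)))
      (.s3 2951601997 3232706949 140552477 (by decide)
       (ok_go H c11b_1424)
       (.s1 3060164199 3167538381 53687092 (by decide)
        (.s2 351381191 491933667 70276239 (by decide)
         (ok_go H c11b_1425)
         (ok_go H c11b_1426))
        (ok_go H c11b_1427))))
     (.s2 140552477 421657429 140552477 (by decide)
      (ok_go H c11b_1428)
      (ok_go H c11b_1429))))
   (.s3 2529944569 3092154473 281104953 (by decide)
    (ok_go H c11b_1430)
    (.s1 3113851290 3328599654 107374183 (by decide)
     (.s2 702762381 983867333 140552477 (by decide)
      (.s1 3060164199 3167538381 53687092 (by decide)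
       (.s3 2951601997 3232706949 140552477 (by decide)
        (ok_go H c11b_1431)
        (ok_go H c11b_1432))
       (.s3 2951601997 3232706949 140552477 (by decide)
        (ok_go H c11b_1433)
        (ok_go H c11b_1434)))
      (.s1 3060164199 3167538381 53687092 (by decide)
       (.s3 2951601997 3232706949 140552477 (by decide)
        (ok_go H c11b_1435)
        (ok_go H c11b_1436))
       (.s3 2951601997 3232706949 140552477 (by decide)
        (ok_go H c11b_1437)
        (ok_go H c11b_1438))))
     (.s2 702762381 983867333 140552477 (by decide)
      (.s3 2951601997 3232706949 140552477 (by decide)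
       (ok_go H c11b_1439)
       (.s1 3274912563 3382286745 53687092 (by decide)
        (ok_go H c11b_1440)
        (ok_go H c11b_1441)))
      (.s3 2951601997 3232706949 140552477 (by decide)
       (.s1 3274912563 3382286745 53687092 (by decide)
        (ok_go H c11b_1442)
        (ok_go H c11b_1443))
       (.s1 3274912563 3382286745 53687092 (by decide)
        (ok_go H c11b_1444)
        (ok_go H c11b_1445)))))))

theorem ok11b_32 (H : Good p11b L b s) :
    Ok L b s 3221225472 214748365 1686629715 562209905 2811049521 562209905 :=
  (.s2 1405524763 1967734667 281104953 (by decide)
   (.s3 2529944569 3092154473 281104953 (by decide)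
    (.s1 3113851290 3328599654 107374183 (by decide)
     (.s2 1264972287 1546077239 140552477 (by decide)
      (.s3 2389392093 2670497045 140552477 (by decide)
       (ok_go H c11b_1446)
       (.s1 3060164199 3167538381 53687092 (by decide)
        (ok_go H c11b_1447)
        (ok_go H c11b_1448)))
      (.s3 2389392093 2670497045 140552477 (by decide)
       (ok_go H c11b_1449)
       (.s1 3060164199 3167538381 53687092 (by decide)
        (ok_go H c11b_1450)
        (.s2 1475801001 1616353477 70276239 (by decide)
         (ok_go H c11b_1451)
         (ok_go H c11b_1452)))))
     (.s2 1264972287 1546077239 140552477 (by decide)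
      (.s3 2389392093 2670497045 140552477 (by decide)
       (ok_go H c11b_1453)
       (.s1 3274912563 3382286745 53687092 (by decide)
        (ok_go H c11b_1454)
        (ok_go H c11b_1455)))
      (.s3 2389392093 2670497045 140552477 (by decide)
       (ok_go H c11b_1456)
       (.s1 3274912563 3382286745 53687092 (by decide)
        (.s2 1475801001 1616353477 70276239 (by decide)
         (ok_go H c11b_1457)
         (ok_go H c11b_1458))
        (ok_go H c11b_1459)))))
    (.s1 3113851290 3328599654 107374183 (by decide)
     (.s2 1264972287 1546077239 140552477 (by decide)
      (.s1 3060164199 3167538381 53687092 (by decide)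
       (.s3 2951601997 3232706949 140552477 (by decide)
        (ok_go H c11b_1460)
        (ok_go H c11b_1461))
       (.s3 2951601997 3232706949 140552477 (by decide)
        (.s2 1194696049 1335248525 70276239 (by decide)
         (ok_go H c11b_1462)
         (ok_go H c11b_1463))
        (ok_go H c11b_1464)))
      (.s3 2951601997 3232706949 140552477 (by decide)
       (.s1 3060164199 3167538381 53687092 (by decide)
        (ok_go H c11b_1465)
        (.s2 1475801001 1616353477 70276239 (by decide)
         (ok_go H c11b_1466)
         (ok_go H c11b_1467)))
       (.s1 3060164199 3167538381 53687092 (by decide)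
        (ok_go H c11b_1468)
        (.s2 1475801001 1616353477 70276239 (by decide)
         (ok_go H c11b_1469)
         (ok_go H c11b_1470)))))
     (.s2 1264972287 1546077239 140552477 (by decide)
      (.s3 2951601997 3232706949 140552477 (by decide)
       (.s1 3274912563 3382286745 53687092 (by decide)
        (.s2 1194696049 1335248525 70276239 (by decide)
         (ok_go H c11b_1471)
         (ok_go H c11b_1472))
        (ok_go H c11b_1473))
       (.s1 3274912563 3382286745 53687092 (by decide)
        (.s2 1194696049 1335248525 70276239 (by decide)
         (ok_go H c11b_1474)
         (ok_go H c11b_1475))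
        (ok_go H c11b_1476)))
      (.s3 2951601997 3232706949 140552477 (by decide)
       (.s1 3274912563 3382286745 53687092 (by decide)
        (.s2 1475801001 1616353477 70276239 (by decide)
         (ok_go H c11b_1477)
         (ok_go H c11b_1478))
        (.s2 1475801001 1616353477 70276239 (by decide)
         (ok_go H c11b_1479)
         (ok_go H c11b_1480)))
       (.s1 3274912563 3382286745 53687092 (by decide)
        (.s2 1475801001 1616353477 70276239 (by decide)
         (ok_go H c11b_1481)
         (ok_go H c11b_1482))
        (.s2 1475801001 1616353477 70276239 (by decide)
         (ok_go H c11b_1483)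
         (ok_go H c11b_1484)))))))
   (.s3 2529944569 3092154473 281104953 (by decide)
    (.s1 3113851290 3328599654 107374183 (by decide)
     (.s2 1827182191 2108287143 140552477 (by decide)
      (.s3 2389392093 2670497045 140552477 (by decide)
       (.s1 3060164199 3167538381 53687092 (by decide)
        (ok_go H c11b_1485)
        (.s2 1756905953 1897458429 70276239 (by decide)
         (ok_go H c11b_1486)
         (ok_go H c11b_1487)))
       (.s1 3060164199 3167538381 53687092 (by decide)
        (ok_go H c11b_1488)
        (.s2 1756905953 1897458429 70276239 (by decide)
         (ok_go H c11b_1489)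
         (ok_go H c11b_1490))))
      (.s3 2389392093 2670497045 140552477 (by decide)
       (.s1 3060164199 3167538381 53687092 (by decide)
        (ok_go H c11b_1491)
        (.s2 2038010905 2178563381 70276239 (by decide)
         (ok_go H c11b_1492)
         (ok_go H c11b_1493)))
       (.s1 3060164199 3167538381 53687092 (by decide)
        (ok_go H c11b_1494)
        (ok_go H c11b_1495))))
     (.s2 1827182191 2108287143 140552477 (by decide)
      (.s3 2389392093 2670497045 140552477 (by decide)
       (.s1 3274912563 3382286745 53687092 (by decide)
        (.s2 1756905953 1897458429 70276239 (by decide)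
         (ok_go H c11b_1496)
         (ok_go H c11b_1497))
        (ok_go H c11b_1498))
       (.s1 3274912563 3382286745 53687092 (by decide)
        (.s2 1756905953 1897458429 70276239 (by decide)
         (ok_go H c11b_1499)
         (ok_go H c11b_1500))
        (.s2 1756905953 1897458429 70276239 (by decide)
         (ok_go H c11b_1501)
         (ok_go H c11b_1502))))
      (.s3 2389392093 2670497045 140552477 (by decide)
       (.s1 3274912563 3382286745 53687092 (by decide)
        (.s3 2319115855 2459668331 70276239 (by decide)
         (ok_go H c11b_1503)
         (ok_go H c11b_1504))
        (.s3 2319115855 2459668331 70276239 (by decide)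
         (ok_go H c11b_1505)
         (ok_go H c11b_1506)))
       (.s1 3274912563 3382286745 53687092 (by decide)
        (ok_go H c11b_1507)
        (ok_go H c11b_1508)))))
    (.s1 3113851290 3328599654 107374183 (by decide)
     (.s2 1827182191 2108287143 140552477 (by decide)
      (.s3 2951601997 3232706949 140552477 (by decide)
       (.s1 3060164199 3167538381 53687092 (by decide)
        (ok_go H c11b_1509)
        (.s2 1756905953 1897458429 70276239 (by decide)
         (ok_go H c11b_1510)
         (ok_go H c11b_1511)))
       (.s1 3060164199 3167538381 53687092 (by decide)
        (ok_go H c11b_1512)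
        (ok_go H c11b_1513)))
      (ok_go H c11b_1514))
     (.s3 2951601997 3232706949 140552477 (by decide)
      (.s2 1827182191 2108287143 140552477 (by decide)
       (.s1 3274912563 3382286745 53687092 (by decide)
        (.s2 1756905953 1897458429 70276239 (by decide)
         (ok_go H c11b_1515)
         (ok_go H c11b_1516))
        (.s1 3355443199 3409130291 26843546 (by decide)
         (ok_go H c11b_1517)
         (ok_go H c11b_1518)))
       (ok_go H c11b_1519))
      (.s2 1827182191 2108287143 140552477 (by decide)
       (.s1 3274912563 3382286745 53687092 (by decide)
        (.s2 1756905953 1897458429 70276239 (by decide)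
         (ok_go H c11b_1520)
         (ok_go H c11b_1521))
        (ok_go H c11b_1522))
       (ok_go H c11b_1523))))))

theorem ok11b_33 (H : Good p11b L b s) :
    Ok L b s 3221225472 214748365 1124419810 1124419810 3935469331 562209905 :=
  (.s2 562209905 1686629715 562209905 (by decide)
   (.s2 281104953 843314857 281104953 (by decide)
    (.s3 3654364379 4216574283 281104953 (by decide)
     (.s1 3113851290 3328599654 107374183 (by decide)
      (.s2 140552477 421657429 140552477 (by decide)
       (.s3 3513811903 3794916855 140552477 (by decide)
        (.s1 3060164199 3167538381 53687092 (by decide)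
         (.s2 70276239 210828715 70276239 (by decide)
          (ok_go H c11b_1524)
          (ok_go H c11b_1525))
         (ok_go H c11b_1526))
        (.s1 3060164199 3167538381 53687092 (by decide)
         (.s2 70276239 210828715 70276239 (by decide)
          (ok_go H c11b_1527)
          (ok_go H c11b_1528))
         (ok_go H c11b_1529)))
       (.s3 3513811903 3794916855 140552477 (by decide)
        (.s1 3060164199 3167538381 53687092 (by decide)
         (.s2 351381191 491933667 70276239 (by decide)
          (ok_go H c11b_1530)
          (ok_go H c11b_1531))
         (ok_go H c11b_1532))
        (.s1 3060164199 3167538381 53687092 (by decide)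
         (ok_go H c11b_1533)
         (ok_go H c11b_1534))))
      (.s2 140552477 421657429 140552477 (by decide)
       (.s3 3513811903 3794916855 140552477 (by decide)
        (ok_go H c11b_1535)
        (ok_go H c11b_1536))
       (.s3 3513811903 3794916855 140552477 (by decide)
        (ok_go H c11b_1537)
        (ok_go H c11b_1538))))
     (.s1 3113851290 3328599654 107374183 (by decide)
      (.s2 140552477 421657429 140552477 (by decide)
       (.s3 4076021807 4357126759 140552477 (by decide)
        (.s1 3060164199 3167538381 53687092 (by decide)
         (ok_go H c11b_1539)
         (ok_go H c11b_1540))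
        (ok_go H c11b_1541))
       (.s3 4076021807 4357126759 140552477 (by decide)
        (ok_go H c11b_1542)
        (ok_go H c11b_1543)))
      (.s2 140552477 421657429 140552477 (by decide)
       (ok_go H c11b_1544)
       (ok_go H c11b_1545))))
    (.s3 3654364379 4216574283 281104953 (by decide)
     (.s1 3113851290 3328599654 107374183 (by decide)
      (.s2 702762381 983867333 140552477 (by decide)
       (.s3 3513811903 3794916855 140552477 (by decide)
        (.s1 3060164199 3167538381 53687092 (by decide)
         (ok_go H c11b_1546)
         (ok_go H c11b_1547))
        (ok_go H c11b_1548))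
       (.s1 3060164199 3167538381 53687092 (by decide)
        (.s3 3513811903 3794916855 140552477 (by decide)
         (ok_go H c11b_1549)
         (ok_go H c11b_1550))
        (.s3 3513811903 3794916855 140552477 (by decide)
         (ok_go H c11b_1551)
         (ok_go H c11b_1552))))
      (.s2 702762381 983867333 140552477 (by decide)
       (.s3 3513811903 3794916855 140552477 (by decide)
        (ok_go H c11b_1553)
        (ok_go H c11b_1554))
       (.s3 3513811903 3794916855 140552477 (by decide)
        (.s1 3274912563 3382286745 53687092 (by decide)
         (ok_go H c11b_1555)
         (ok_go H c11b_1556))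
        (ok_go H c11b_1557))))
     (.s1 3113851290 3328599654 107374183 (by decide)
      (.s2 702762381 983867333 140552477 (by decide)
       (.s3 4076021807 4357126759 140552477 (by decide)
        (ok_go H c11b_1558)
        (ok_go H c11b_1559))
       (.s3 4076021807 4357126759 140552477 (by decide)
        (ok_go H c11b_1560)
        (ok_go H c11b_1561)))
      (.s3 4076021807 4357126759 140552477 (by decide)
       (ok_go H c11b_1562)
       (ok_go H c11b_1563)))))
   (.s1 3113851290 3328599654 107374183 (by decide)
    (.s2 1405524763 1967734667 281104953 (by decide)
     (.s3 3654364379 4216574283 281104953 (by decide)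
      (.s2 1264972287 1546077239 140552477 (by decide)
       (.s3 3513811903 3794916855 140552477 (by decide)
        (.s1 3060164199 3167538381 53687092 (by decide)
         (ok_go H c11b_1564)
         (ok_go H c11b_1565))
        (ok_go H c11b_1566))
       (.s3 3513811903 3794916855 140552477 (by decide)
        (.s1 3060164199 3167538381 53687092 (by decide)
         (ok_go H c11b_1567)
         (ok_go H c11b_1568))
        (ok_go H c11b_1569)))
      (ok_go H c11b_1570))
     (ok_go H c11b_1571))
    (.s2 1405524763 1967734667 281104953 (by decide)
     (.s3 3654364379 4216574283 281104953 (by decide)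
      (.s2 1264972287 1546077239 140552477 (by decide)
       (.s3 3513811903 3794916855 140552477 (by decide)
        (.s1 3274912563 3382286745 53687092 (by decide)
         (ok_go H c11b_1572)
         (ok_go H c11b_1573))
        (ok_go H c11b_1574))
       (.s3 3513811903 3794916855 140552477 (by decide)
        (.s1 3274912563 3382286745 53687092 (by decide)
         (ok_go H c11b_1575)
         (ok_go H c11b_1576))
        (ok_go H c11b_1577)))
      (ok_go H c11b_1578))
     (ok_go H c11b_1579))))

theorem ok11b_34 (H : Good p11b L b s) :
    Ok L b s 2791728742 214748365 (-1124419808) 1124419810 5622099044 1124419810 :=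
  (.s3 5059889139 6184308949 562209905 (by decide)
   (.s2 (-1686629713) (-562209903) 562209905 (by decide)
    (.s1 2684354560 2899102924 107374183 (by decide)
     (.s3 4778784187 5340994091 281104953 (by decide)
      (.s2 (-1967734665) (-1405524761) 281104953 (by decide)
       (.s2 (-2108287141) (-1827182189) 140552477 (by decide)
        (.s3 4638231711 4919336663 140552477 (by decide)
         (ok_go H c11b_1580)
         (ok_go H c11b_1581))
        (.s3 4638231711 4919336663 140552477 (by decide)
         (ok_go H c11b_1582)
         (ok_go H c11b_1583)))
       (.s2 (-1546077237) (-1264972285) 140552477 (by decide)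
        (ok_go H c11b_1584)
        (ok_go H c11b_1585)))
      (.s2 (-1967734665) (-1405524761) 281104953 (by decide)
       (.s2 (-2108287141) (-1827182189) 140552477 (by decide)
        (ok_go H c11b_1586)
        (ok_go H c11b_1587))
       (.s2 (-1546077237) (-1264972285) 140552477 (by decide)
        (ok_go H c11b_1588)
        (ok_go H c11b_1589))))
     (.s2 (-1967734665) (-1405524761) 281104953 (by decide)
      (.s3 4778784187 5340994091 281104953 (by decide)
       (.s2 (-2108287141) (-1827182189) 140552477 (by decide)
        (.s3 4638231711 4919336663 140552477 (by decide)
         (.s1 2845415833 2952790015 53687092 (by decide)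
          (.s2 (-2178563379) (-2038010903) 70276239 (by decide)
           (ok_go H c11b_1590)
           (ok_go H c11b_1591))
          (.s2 (-2178563379) (-2038010903) 70276239 (by decide)
           (ok_go H c11b_1592)
           (.s1 2925946469 2979633561 26843546 (by decide)
            (ok_go H c11b_1593)
            (ok_go H c11b_1594))))
         (.s1 2845415833 2952790015 53687092 (by decide)
          (ok_go H c11b_1595)
          (.s2 (-2178563379) (-2038010903) 70276239 (by decide)
           (ok_go H c11b_1596)
           (ok_go H c11b_1597))))
        (.s3 4638231711 4919336663 140552477 (by decide)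
         (.s1 2845415833 2952790015 53687092 (by decide)
          (ok_go H c11b_1598)
          (.s2 (-1897458427) (-1756905951) 70276239 (by decide)
           (.s3 4567955473 4708507949 70276239 (by decide)
            (ok_go H c11b_1599)
            (ok_go H c11b_1600))
           (ok_go H c11b_1601)))
         (.s1 2845415833 2952790015 53687092 (by decide)
          (ok_go H c11b_1602)
          (.s2 (-1897458427) (-1756905951) 70276239 (by decide)
           (ok_go H c11b_1603)
           (ok_go H c11b_1604)))))
       (.s2 (-2108287141) (-1827182189) 140552477 (by decide)
        (.s3 5200441615 5481546567 140552477 (by decide)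
         (.s1 2845415833 2952790015 53687092 (by decide)
          (ok_go H c11b_1605)
          (ok_go H c11b_1606))
         (ok_go H c11b_1607))
        (.s3 5200441615 5481546567 140552477 (by decide)
         (ok_go H c11b_1608)
         (ok_go H c11b_1609))))
      (.s3 4778784187 5340994091 281104953 (by decide)
       (.s2 (-1546077237) (-1264972285) 140552477 (by decide)
        (.s3 4638231711 4919336663 140552477 (by decide)
         (.s1 2845415833 2952790015 53687092 (by decide)
          (ok_go H c11b_1610)
          (.s2 (-1616353475) (-1475800999) 70276239 (by decide)
           (ok_go H c11b_1611)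
           (ok_go H c11b_1612)))
         (ok_go H c11b_1613))
        (.s3 4638231711 4919336663 140552477 (by decide)
         (.s1 2845415833 2952790015 53687092 (by decide)
          (ok_go H c11b_1614)
          (ok_go H c11b_1615))
         (ok_go H c11b_1616)))
       (.s2 (-1546077237) (-1264972285) 140552477 (by decide)
        (ok_go H c11b_1617)
        (ok_go H c11b_1618)))))
    (.s1 2684354560 2899102924 107374183 (by decide)
     (.s3 4778784187 5340994091 281104953 (by decide)
      (.s2 (-843314855) (-281104951) 281104953 (by decide)
       (.s2 (-983867331) (-702762379) 140552477 (by decide)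
        (.s3 4638231711 4919336663 140552477 (by decide)
         (ok_go H c11b_1619)
         (ok_go H c11b_1620))
        (ok_go H c11b_1621))
       (.s2 (-421657427) (-140552475) 140552477 (by decide)
        (ok_go H c11b_1622)
        (.s3 4638231711 4919336663 140552477 (by decide)
         (ok_go H c11b_1623)
         (ok_go H c11b_1624))))
      (.s2 (-843314855) (-281104951) 281104953 (by decide)
       (ok_go H c11b_1625)
       (.s2 (-421657427) (-140552475) 140552477 (by decide)
        (ok_go H c11b_1626)
        (ok_go H c11b_1627))))
     (.s3 4778784187 5340994091 281104953 (by decide)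
      (.s2 (-843314855) (-281104951) 281104953 (by decide)
       (.s2 (-983867331) (-702762379) 140552477 (by decide)
        (.s3 4638231711 4919336663 140552477 (by decide)
         (ok_go H c11b_1628)
         (ok_go H c11b_1629))
        (.s3 4638231711 4919336663 140552477 (by decide)
         (ok_go H c11b_1630)
         (ok_go H c11b_1631)))
       (.s2 (-421657427) (-140552475) 140552477 (by decide)
        (.s3 4638231711 4919336663 140552477 (by decide)
         (ok_go H c11b_1632)
         (ok_go H c11b_1633))
        (.s3 4638231711 4919336663 140552477 (by decide)
         (ok_go H c11b_1634)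
         (ok_go H c11b_1635))))
      (.s2 (-843314855) (-281104951) 281104953 (by decide)
       (.s2 (-983867331) (-702762379) 140552477 (by decide)
        (ok_go H c11b_1636)
        (ok_go H c11b_1637))
       (ok_go H c11b_1638)))))
   (.s2 (-1686629713) (-562209903) 562209905 (by decide)
    (.s1 2684354560 2899102924 107374183 (by decide)
     (.s3 5903203997 6465413901 281104953 (by decide)
      (.s2 (-1967734665) (-1405524761) 281104953 (by decide)
       (ok_go H c11b_1639)
       (ok_go H c11b_1640))
      (ok_go H c11b_1641))
     (.s3 5903203997 6465413901 281104953 (by decide)
      (.s2 (-1967734665) (-1405524761) 281104953 (by decide)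
       (ok_go H c11b_1642)
       (ok_go H c11b_1643))
      (ok_go H c11b_1644)))
    (.s1 2684354560 2899102924 107374183 (by decide)
     (.s3 5903203997 6465413901 281104953 (by decide)
      (.s2 (-843314855) (-281104951) 281104953 (by decide)
       (ok_go H c11b_1645)
       (ok_go H c11b_1646))
      (ok_go H c11b_1647))
     (.s3 5903203997 6465413901 281104953 (by decide)
      (ok_go H c11b_1648)
      (ok_go H c11b_1649)))))

theorem ok11b_35 (H : Good p11b L b s) :
    Ok L b s 3221225472 214748365 (-1124419808) 1124419810 5622099044 1124419810 :=
  (.s3 5059889139 6184308949 562209905 (by decide)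
   (.s2 (-1686629713) (-562209903) 562209905 (by decide)
    (.s2 (-1967734665) (-1405524761) 281104953 (by decide)
     (.s3 4778784187 5340994091 281104953 (by decide)
      (.s1 3113851290 3328599654 107374183 (by decide)
       (.s2 (-2108287141) (-1827182189) 140552477 (by decide)
        (ok_go H c11b_1650)
        (.s3 4638231711 4919336663 140552477 (by decide)
         (ok_go H c11b_1651)
         (ok_go H c11b_1652)))
       (ok_go H c11b_1653))
      (ok_go H c11b_1654))
     (.s3 4778784187 5340994091 281104953 (by decide)
      (.s1 3113851290 3328599654 107374183 (by decide)
       (.s2 (-1546077237) (-1264972285) 140552477 (by decide)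
        (.s3 4638231711 4919336663 140552477 (by decide)
         (.s1 3060164199 3167538381 53687092 (by decide)
          (ok_go H c11b_1655)
          (ok_go H c11b_1656))
         (ok_go H c11b_1657))
        (.s3 4638231711 4919336663 140552477 (by decide)
         (.s1 3060164199 3167538381 53687092 (by decide)
          (ok_go H c11b_1658)
          (ok_go H c11b_1659))
         (ok_go H c11b_1660)))
       (ok_go H c11b_1661))
      (.s1 3113851290 3328599654 107374183 (by decide)
       (ok_go H c11b_1662)
       (ok_go H c11b_1663))))
    (.s2 (-843314855) (-281104951) 281104953 (by decide)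
     (.s3 4778784187 5340994091 281104953 (by decide)
      (.s1 3113851290 3328599654 107374183 (by decide)
       (.s2 (-983867331) (-702762379) 140552477 (by decide)
        (.s3 4638231711 4919336663 140552477 (by decide)
         (ok_go H c11b_1664)
         (ok_go H c11b_1665))
        (.s3 4638231711 4919336663 140552477 (by decide)
         (ok_go H c11b_1666)
         (ok_go H c11b_1667)))
       (ok_go H c11b_1668))
      (.s1 3113851290 3328599654 107374183 (by decide)
       (ok_go H c11b_1669)
       (ok_go H c11b_1670)))
     (.s3 4778784187 5340994091 281104953 (by decide)
      (.s1 3113851290 3328599654 107374183 (by decide)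
       (.s2 (-421657427) (-140552475) 140552477 (by decide)
        (ok_go H c11b_1671)
        (ok_go H c11b_1672))
       (ok_go H c11b_1673))
      (ok_go H c11b_1674))))
   (.s2 (-1686629713) (-562209903) 562209905 (by decide)
    (.s2 (-1967734665) (-1405524761) 281104953 (by decide)
     (ok_go H c11b_1675)
     (ok_go H c11b_1676))
    (.s2 (-843314855) (-281104951) 281104953 (by decide)
     (ok_go H c11b_1677)
     (ok_go H c11b_1678))))

theorem ok11b_36 (H : Good p11b L b s) :
    Ok L b s 3006477107 429496730 1124419810 1124419810 5622099044 1124419810 :=
  (.s1 2791728742 3221225472 214748365 (by decide)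
   (.s3 5059889139 6184308949 562209905 (by decide)
    (.s2 562209905 1686629715 562209905 (by decide)
     (.s1 2684354560 2899102924 107374183 (by decide)
      (.s3 4778784187 5340994091 281104953 (by decide)
       (.s2 281104953 843314857 281104953 (by decide)
        (.s2 140552477 421657429 140552477 (by decide)
         (.s3 4638231711 4919336663 140552477 (by decide)
          (ok_go H c11b_1679)
          (ok_go H c11b_1680))
         (.s3 4638231711 4919336663 140552477 (by decide)
          (ok_go H c11b_1681)
          (ok_go H c11b_1682)))
        (.s2 702762381 983867333 140552477 (by decide)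
         (.s3 4638231711 4919336663 140552477 (by decide)
          (.s1 2630667469 2738041651 53687092 (by decide)
           (ok_go H c11b_1683)
           (ok_go H c11b_1684))
          (ok_go H c11b_1685))
         (.s3 4638231711 4919336663 140552477 (by decide)
          (.s1 2630667469 2738041651 53687092 (by decide)
           (ok_go H c11b_1686)
           (ok_go H c11b_1687))
          (ok_go H c11b_1688))))
       (.s2 281104953 843314857 281104953 (by decide)
        (.s2 140552477 421657429 140552477 (by decide)
         (ok_go H c11b_1689)
         (ok_go H c11b_1690))
        (ok_go H c11b_1691)))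
      (.s3 4778784187 5340994091 281104953 (by decide)
       (.s2 281104953 843314857 281104953 (by decide)
        (.s2 140552477 421657429 140552477 (by decide)
         (.s3 4638231711 4919336663 140552477 (by decide)
          (ok_go H c11b_1692)
          (ok_go H c11b_1693))
         (ok_go H c11b_1694))
        (.s2 702762381 983867333 140552477 (by decide)
         (ok_go H c11b_1695)
         (ok_go H c11b_1696)))
       (.s2 281104953 843314857 281104953 (by decide)
        (ok_go H c11b_1697)
        (ok_go H c11b_1698))))
     (ok_go H c11b_1699))
    (.s2 562209905 1686629715 562209905 (by decide)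
     (.s1 2684354560 2899102924 107374183 (by decide)
      (ok_go H c11b_1700)
      (ok_go H c11b_1701))
     (ok_go H c11b_1702)))
   (.s3 5059889139 6184308949 562209905 (by decide)
    (.s2 562209905 1686629715 562209905 (by decide)
     (.s2 281104953 843314857 281104953 (by decide)
      (.s3 4778784187 5340994091 281104953 (by decide)
       (.s1 3113851290 3328599654 107374183 (by decide)
        (.s2 140552477 421657429 140552477 (by decide)
         (ok_go H c11b_1703)
         (ok_go H c11b_1704))
        (ok_go H c11b_1705))
       (ok_go H c11b_1706))
      (.s3 4778784187 5340994091 281104953 (by decide)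
       (.s1 3113851290 3328599654 107374183 (by decide)
        (ok_go H c11b_1707)
        (ok_go H c11b_1708))
       (ok_go H c11b_1709)))
     (ok_go H c11b_1710))
    (ok_go H c11b_1711)))

theorem ok11b_37 (H : Good p11b L b s) :
    Ok L b s 3865470567 429496730 1 2248839619 4497679235 2248839619 :=
  (.s3 3373259426 5622099044 1124419810 (by decide)
   (.s2 (-1124419808) 1124419810 1124419810 (by decide)
    (.s1 3650722202 4080218932 214748365 (by decide)
     (.s3 2811049521 3935469331 562209905 (by decide)
      (ok_go H c11b_1712)
      (.s2 (-1686629713) (-562209903) 562209905 (by decide)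
       (ok_go H c11b_1713)
       (.s1 3543348020 3758096384 107374183 (by decide)
        (.s2 (-843314855) (-281104951) 281104953 (by decide)
         (ok_go H c11b_1714)
         (ok_go H c11b_1715))
        (ok_go H c11b_1716))))
     (ok_go H c11b_1717))
    (.s1 3650722202 4080218932 214748365 (by decide)
     (.s3 2811049521 3935469331 562209905 (by decide)
      (.s2 562209905 1686629715 562209905 (by decide)
       (.s1 3543348020 3758096384 107374183 (by decide)
        (.s2 281104953 843314857 281104953 (by decide)
         (ok_go H c11b_1718)
         (.s3 2529944569 3092154473 281104953 (by decide)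
          (ok_go H c11b_1719)
          (.s1 3489660929 3597035111 53687092 (by decide)
           (ok_go H c11b_1720)
           (ok_go H c11b_1721))))
        (ok_go H c11b_1722))
       (.s1 3543348020 3758096384 107374183 (by decide)
        (.s2 1405524763 1967734667 281104953 (by decide)
         (.s3 2529944569 3092154473 281104953 (by decide)
          (.s1 3489660929 3597035111 53687092 (by decide)
           (ok_go H c11b_1723)
           (ok_go H c11b_1724))
          (.s1 3489660929 3597035111 53687092 (by decide)
           (.s2 1264972287 1546077239 140552477 (by decide)
            (ok_go H c11b_1725)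
            (ok_go H c11b_1726))
           (ok_go H c11b_1727)))
         (.s3 2529944569 3092154473 281104953 (by decide)
          (.s1 3489660929 3597035111 53687092 (by decide)
           (.s2 1827182191 2108287143 140552477 (by decide)
            (ok_go H c11b_1728)
            (ok_go H c11b_1729))
           (ok_go H c11b_1730))
          (.s1 3489660929 3597035111 53687092 (by decide)
           (ok_go H c11b_1731)
           (ok_go H c11b_1732))))
        (.s2 1405524763 1967734667 281104953 (by decide)
         (ok_go H c11b_1733)
         (ok_go H c11b_1734))))
      (.s2 562209905 1686629715 562209905 (by decide)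
       (.s1 3543348020 3758096384 107374183 (by decide)
        (.s2 281104953 843314857 281104953 (by decide)
         (.s3 3654364379 4216574283 281104953 (by decide)
          (ok_go H c11b_1735)
          (ok_go H c11b_1736))
         (.s3 3654364379 4216574283 281104953 (by decide)
          (.s1 3489660929 3597035111 53687092 (by decide)
           (ok_go H c11b_1737)
           (ok_go H c11b_1738))
          (ok_go H c11b_1739)))
        (ok_go H c11b_1740))
       (.s2 1405524763 1967734667 281104953 (by decide)
        (.s1 3543348020 3758096384 107374183 (by decide)
         (.s3 3654364379 4216574283 281104953 (by decide)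
          (.s1 3489660929 3597035111 53687092 (by decide)
           (ok_go H c11b_1741)
           (ok_go H c11b_1742))
          (ok_go H c11b_1743))
         (ok_go H c11b_1744))
        (ok_go H c11b_1745))))
     (.s1 3972844750 4187593114 107374183 (by decide)
      (.s2 562209905 1686629715 562209905 (by decide)
       (ok_go H c11b_1746)
       (ok_go H c11b_1747))
      (ok_go H c11b_1748))))
   (.s2 (-1124419808) 1124419810 1124419810 (by decide)
    (.s1 3650722202 4080218932 214748365 (by decide)
     (.s3 5059889139 6184308949 562209905 (by decide)
      (.s2 (-1686629713) (-562209903) 562209905 (by decide)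
       (ok_go H c11b_1749)
       (.s1 3543348020 3758096384 107374183 (by decide)
        (ok_go H c11b_1750)
        (ok_go H c11b_1751)))
      (ok_go H c11b_1752))
     (.s1 3972844750 4187593114 107374183 (by decide)
      (ok_go H c11b_1753)
      (ok_go H c11b_1754)))
    (.s1 3650722202 4080218932 214748365 (by decide)
     (.s3 5059889139 6184308949 562209905 (by decide)
      (.s2 562209905 1686629715 562209905 (by decide)
       (.s1 3543348020 3758096384 107374183 (by decide)
        (.s3 4778784187 5340994091 281104953 (by decide)
         (ok_go H c11b_1755)
         (ok_go H c11b_1756))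
        (ok_go H c11b_1757))
       (ok_go H c11b_1758))
      (ok_go H c11b_1759))
     (ok_go H c11b_1760))))

theorem ok11b (H : Good p11b L b s) :
    Ok L b s 2576980378 1717986919 (-2248839617) 4497679237 4497679235 2248839619 :=
  (.s1 1717986919 3435973837 858993460 (by decide)
   (.s2 (-4497679235) 1 2248839619 (by decide)
    (.s1 1288490189 2147483649 429496730 (by decide)
     (.s3 3373259426 5622099044 1124419810 (by decide)
      (ok11b_1 H)
      (.s2 (-5622099044) (-3373259426) 1124419810 (by decide)
       (ok11b_2 H)
       (ok11b_3 H)))
     (.s3 3373259426 5622099044 1124419810 (by decide)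
      (ok11b_4 H)
      (.s2 (-5622099044) (-3373259426) 1124419810 (by decide)
       (ok11b_5 H)
       (ok11b_6 H))))
    (.s1 1288490189 2147483649 429496730 (by decide)
     (.s3 3373259426 5622099044 1124419810 (by decide)
      (ok11b_7 H)
      (.s2 (-1124419808) 1124419810 1124419810 (by decide)
       (.s1 1073741824 1503238554 214748365 (by decide)
        (.s3 5059889139 6184308949 562209905 (by decide)
         (ok11b_8 H)
         (.s2 (-1686629713) (-562209903) 562209905 (by decide)
          (ok11b_9 H)
          (.s1 966367642 1181116006 107374183 (by decide)
           (ok11b_10 H)
           (ok11b_11 H))))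
        (ok11b_12 H))
       (ok11b_13 H)))
     (.s3 3373259426 5622099044 1124419810 (by decide)
      (.s2 (-1124419808) 1124419810 1124419810 (by decide)
       (ok11b_14 H)
       (.s1 1932735284 2362232014 214748365 (by decide)
        (ok11b_15 H)
        (.s3 2811049521 3935469331 562209905 (by decide)
         (.s2 562209905 1686629715 562209905 (by decide)
          (ok11b_16 H)
          (.s1 2254857832 2469606196 107374183 (by decide)
           (ok11b_17 H)
           (ok11b_18 H)))
         (ok11b_19 H))))
      (.s2 (-1124419808) 1124419810 1124419810 (by decide)
       (.s1 1932735284 2362232014 214748365 (by decide)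
        (ok11b_20 H)
        (ok11b_21 H))
       (ok11b_22 H)))))
   (.s2 (-4497679235) 1 2248839619 (by decide)
    (ok11b_23 H)
    (.s1 3006477107 3865470567 429496730 (by decide)
     (.s3 3373259426 5622099044 1124419810 (by decide)
      (.s2 (-1124419808) 1124419810 1124419810 (by decide)
       (.s1 2791728742 3221225472 214748365 (by decide)
        (.s3 2811049521 3935469331 562209905 (by decide)
         (ok11b_24 H)
         (.s2 (-1686629713) (-562209903) 562209905 (by decide)
          (ok11b_25 H)
          (ok11b_26 H)))
        (ok11b_27 H))
       (.s1 2791728742 3221225472 214748365 (by decide)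
        (.s3 2811049521 3935469331 562209905 (by decide)
         (ok11b_28 H)
         (.s2 562209905 1686629715 562209905 (by decide)
          (ok11b_29 H)
          (ok11b_30 H)))
        (.s3 2811049521 3935469331 562209905 (by decide)
         (.s2 562209905 1686629715 562209905 (by decide)
          (ok11b_31 H)
          (ok11b_32 H))
         (ok11b_33 H))))
      (.s2 (-1124419808) 1124419810 1124419810 (by decide)
       (.s1 2791728742 3221225472 214748365 (by decide)
        (ok11b_34 H)
        (ok11b_35 H))
       (ok11b_36 H)))
     (ok11b_37 H))))

end Pool.Agent.MP_5cfbf6_gt.P8.K2
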