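import Pool.Agent.MP_5cfbf6_gt.P8.D11p
import Pool.Agent.MP_5cfbf6_gt.P8.D11q
import Pool.Agent.MP_5cfbf6_gt.P8.D11r
import Pool.Agent.MP_5cfbf6_gt.P8.D11s
import Pool.Agent.MP_5cfbf6_gt.P8.D11t
import Pool.Agent.MP_5cfbf6_gt.P8.D11u
import Pool.Agent.MP_5cfbf6_gt.P8.G11a
import Pool.Agent.MP_5cfbf6_gt.P8.G11b
import Pool.Agent.MP_5cfbf6_gt.P8.KA11a
import Pool.Agent.MP_5cfbf6_gt.P8.KA11b
import Pool.Agent.MP_5cfbf6_gt.P8.Comp11
import Pool.Agent.MP_5cfbf6_gt.P8.Enum11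
import Pool.Agent.MP_5cfbf6_gt.P8.Conn
import Pool.Agent.MP_5cfbf6_gt.P8.Def3

set_option autoImplicit false

namespace Pool.Agent.MP_5cfbf6_gt.P8

open P7 Set Filter Topology Real

lemma allV_of {b s : ℝ} {LL : List (List Ck)} (h : BB2 b s (K2.fl LL)) :
    ∀ R ∈ LL, AllV b s R := fun R hR C hC =>
  ana2 h fun _ hD => List.mem_flatMap.2 ⟨R, hR, List.mem_flatMap.2 ⟨C, hC, hD⟩⟩

lemma val11a : ∀ R ∈ LL11a, AllV 0.8 0.85 R :=
  allV_of (K2.ok11a ⟨by norm_num [K2.p11a, abs_le], by norm_num [K2.p11a, abs_le], gp11a⟩).root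

lemma v11ad : AllV 0.8 0.85 R11ad := val11a _ (List.mem_of_getElem? (i := 0) rfl)

lemma v11w01 : AllV 0.8 0.85 R11w01 := val11a _ (List.mem_of_getElem? (i := 1) rfl)

lemma v11w12 : AllV 0.8 0.85 R11w12 := val11a _ (List.mem_of_getElem? (i := 2) rfl)

lemma v11w24 : AllV 0.8 0.85 R11w24 := val11a _ (List.mem_of_getElem? (i := 3) rfl)

lemma v11w46 : AllV 0.8 0.85 R11w46 := val11a _ (List.mem_of_getElem? (i := 4) rfl)

lemma v11cC : AllV 0.8 0.85 R11cC := val11a _ (List.mem_of_getElem? (i := 5) rfl)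

lemma v11cE : AllV 0.8 0.85 R11cE := val11a _ (List.mem_of_getElem? (i := 6) rfl)

lemma v11cF : AllV 0.8 0.85 R11cF := val11a _ (List.mem_of_getElem? (i := 7) rfl)

lemma v11cG : AllV 0.8 0.85 R11cG := val11a _ (List.mem_of_getElem? (i := 8) rfl)

lemma v11cH : AllV 0.8 0.85 R11cH := val11a _ (List.mem_of_getElem? (i := 9) rfl)

lemma v11cA : AllV 0.8 0.85 R11cA := val11a _ (List.mem_of_getElem? (i := 10) rfl)

lemma v11m1 : AllV 0.8 0.85 R11m1 := val11a _ (List.mem_of_getElem? (i := 11) rfl)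

lemma v11m2 : AllV 0.8 0.85 R11m2 := val11a _ (List.mem_of_getElem? (i := 12) rfl)

lemma v11m9 : AllV 0.8 0.85 R11m9 := val11a _ (List.mem_of_getElem? (i := 13) rfl)

lemma v11m10 : AllV 0.8 0.85 R11m10 := val11a _ (List.mem_of_getElem? (i := 14) rfl)

lemma v11m17 : AllV 0.8 0.85 R11m17 := val11a _ (List.mem_of_getElem? (i := 15) rfl)

lemma val11b : ∀ R ∈ LL11b, AllV 0.8 0.85 R :=
  allV_of (K2.ok11b ⟨by norm_num [K2.p11b, abs_le], by norm_num [K2.p11b, abs_le], gp11b⟩).root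

lemma v11w02 : AllV 0.8 0.85 R11w02 := val11b _ (List.mem_of_getElem? (i := 0) rfl)

lemma v11w05 : AllV 0.8 0.85 R11w05 := val11b _ (List.mem_of_getElem? (i := 1) rfl)

lemma v11w14 : AllV 0.8 0.85 R11w14 := val11b _ (List.mem_of_getElem? (i := 2) rfl)

lemma v11w27 : AllV 0.8 0.85 R11w27 := val11b _ (List.mem_of_getElem? (i := 3) rfl)

lemma v11m3 : AllV 0.8 0.85 R11m3 := val11b _ (List.mem_of_getElem? (i := 4) rfl)

lemma v11m4 : AllV 0.8 0.85 R11m4 := val11b _ (List.mem_of_getElem? (i := 5) rfl)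

lemma v11m5 : AllV 0.8 0.85 R11m5 := val11b _ (List.mem_of_getElem? (i := 6) rfl)

lemma v11m6 : AllV 0.8 0.85 R11m6 := val11b _ (List.mem_of_getElem? (i := 7) rfl)

lemma v11m7 : AllV 0.8 0.85 R11m7 := val11b _ (List.mem_of_getElem? (i := 8) rfl)

lemma v11m8 : AllV 0.8 0.85 R11m8 := val11b _ (List.mem_of_getElem? (i := 9) rfl)

lemma v11m11 : AllV 0.8 0.85 R11m11 := val11b _ (List.mem_of_getElem? (i := 10) rfl)

lemma v11m12 : AllV 0.8 0.85 R11m12 := val11b _ (List.mem_of_getElem? (i := 11) rfl)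

lemma v11m13 : AllV 0.8 0.85 R11m13 := val11b _ (List.mem_of_getElem? (i := 12) rfl)

lemma v11m14 : AllV 0.8 0.85 R11m14 := val11b _ (List.mem_of_getElem? (i := 13) rfl)

lemma v11m15 : AllV 0.8 0.85 R11m15 := val11b _ (List.mem_of_getElem? (i := 14) rfl)

lemma v11m16 : AllV 0.8 0.85 R11m16 := val11b _ (List.mem_of_getElem? (i := 15) rfl)

lemma v11m18 : AllV 0.8 0.85 R11m18 := val11b _ (List.mem_of_getElem? (i := 16) rfl)

lemma v11m19 : AllV 0.8 0.85 R11m19 := val11b _ (List.mem_of_getElem? (i := 17) rfl)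

lemma v11m20 : AllV 0.8 0.85 R11m20 := val11b _ (List.mem_of_getElem? (i := 18) rfl)

lemma v11m21 : AllV 0.8 0.85 R11m21 := val11b _ (List.mem_of_getElem? (i := 19) rfl)

lemma v11m22 : AllV 0.8 0.85 R11m22 := val11b _ (List.mem_of_getElem? (i := 20) rfl)

lemma v11m23 : AllV 0.8 0.85 R11m23 := val11b _ (List.mem_of_getElem? (i := 21) rfl)

lemma v11m24 : AllV 0.8 0.85 R11m24 := val11b _ (List.mem_of_getElem? (i := 22) rfl)

lemma v11m25 : AllV 0.8 0.85 R11m25 := val11b _ (List.mem_of_getElem? (i := 23) rfl)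

lemma v11m26 : AllV 0.8 0.85 R11m26 := val11b _ (List.mem_of_getElem? (i := 24) rfl)

lemma v11m27 : AllV 0.8 0.85 R11m27 := val11b _ (List.mem_of_getElem? (i := 25) rfl)

lemma v11m28 : AllV 0.8 0.85 R11m28 := val11b _ (List.mem_of_getElem? (i := 26) rfl)

lemma v11m29 : AllV 0.8 0.85 R11m29 := val11b _ (List.mem_of_getElem? (i := 27) rfl)

lemma v11m30 : AllV 0.8 0.85 R11m30 := val11b _ (List.mem_of_getElem? (i := 28) rfl)

lemma v11m31 : AllV 0.8 0.85 R11m31 := val11b _ (List.mem_of_getElem? (i := 29) rfl)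

lemma v11m32 : AllV 0.8 0.85 R11m32 := val11b _ (List.mem_of_getElem? (i := 30) rfl)

lemma v11m33 : AllV 0.8 0.85 R11m33 := val11b _ (List.mem_of_getElem? (i := 31) rfl)

lemma v11m34 : AllV 0.8 0.85 R11m34 := val11b _ (List.mem_of_getElem? (i := 32) rfl)

lemma v11m35 : AllV 0.8 0.85 R11m35 := val11b _ (List.mem_of_getElem? (i := 33) rfl)

lemma v11m36 : AllV 0.8 0.85 R11m36 := val11b _ (List.mem_of_getElem? (i := 34) rfl)

lemma v11m37 : AllV 0.8 0.85 R11m37 := val11b _ (List.mem_of_getElem? (i := 35) rfl)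

lemma v11m38 : AllV 0.8 0.85 R11m38 := val11b _ (List.mem_of_getElem? (i := 36) rfl)

lemma v11m39 : AllV 0.8 0.85 R11m39 := val11b _ (List.mem_of_getElem? (i := 37) rfl)

lemma v11m40 : AllV 0.8 0.85 R11m40 := val11b _ (List.mem_of_getElem? (i := 38) rfl)

lemma v11m41 : AllV 0.8 0.85 R11m41 := val11b _ (List.mem_of_getElem? (i := 39) rfl)

lemma v11m42 : AllV 0.8 0.85 R11m42 := val11b _ (List.mem_of_getElem? (i := 40) rfl)

lemma v11m43 : AllV 0.8 0.85 R11m43 := val11b _ (List.mem_of_getElem? (i := 41) rfl)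

lemma v11m44 : AllV 0.8 0.85 R11m44 := val11b _ (List.mem_of_getElem? (i := 42) rfl)

lemma v11m45 : AllV 0.8 0.85 R11m45 := val11b _ (List.mem_of_getElem? (i := 43) rfl)

lemma v11m46 : AllV 0.8 0.85 R11m46 := val11b _ (List.mem_of_getElem? (i := 44) rfl)

lemma v11m47 : AllV 0.8 0.85 R11m47 := val11b _ (List.mem_of_getElem? (i := 45) rfl)

lemma v11m48 : AllV 0.8 0.85 R11m48 := val11b _ (List.mem_of_getElem? (i := 46) rfl)

lemma v11m49 : AllV 0.8 0.85 R11m49 := val11b _ (List.mem_of_getElem? (i := 47) rfl)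

lemma v11m50 : AllV 0.8 0.85 R11m50 := val11b _ (List.mem_of_getElem? (i := 48) rfl)

lemma v11m51 : AllV 0.8 0.85 R11m51 := val11b _ (List.mem_of_getElem? (i := 49) rfl)

lemma v11m52 : AllV 0.8 0.85 R11m52 := val11b _ (List.mem_of_getElem? (i := 50) rfl)

lemma v11m53 : AllV 0.8 0.85 R11m53 := val11b _ (List.mem_of_getElem? (i := 51) rfl)

lemma v11m54 : AllV 0.8 0.85 R11m54 := val11b _ (List.mem_of_getElem? (i := 52) rfl)

lemma v11m55 : AllV 0.8 0.85 R11m55 := val11b _ (List.mem_of_getElem? (i := 53) rfl)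

lemma v11m56 : AllV 0.8 0.85 R11m56 := val11b _ (List.mem_of_getElem? (i := 54) rfl)

lemma v11m57 : AllV 0.8 0.85 R11m57 := val11b _ (List.mem_of_getElem? (i := 55) rfl)

lemma v11m58 : AllV 0.8 0.85 R11m58 := val11b _ (List.mem_of_getElem? (i := 56) rfl)

lemma v11m59 : AllV 0.8 0.85 R11m59 := val11b _ (List.mem_of_getElem? (i := 57) rfl)

lemma v11m60 : AllV 0.8 0.85 R11m60 := val11b _ (List.mem_of_getElem? (i := 58) rfl)

lemma v11m61 : AllV 0.8 0.85 R11m61 := val11b _ (List.mem_of_getElem? (i := 59) rfl)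

lemma v11m62 : AllV 0.8 0.85 R11m62 := val11b _ (List.mem_of_getElem? (i := 60) rfl)

lemma v11m63 : AllV 0.8 0.85 R11m63 := val11b _ (List.mem_of_getElem? (i := 61) rfl)

lemma v11m64 : AllV 0.8 0.85 R11m64 := val11b _ (List.mem_of_getElem? (i := 62) rfl)

lemma v11m65 : AllV 0.8 0.85 R11m65 := val11b _ (List.mem_of_getElem? (i := 63) rfl)

lemma v11m66 : AllV 0.8 0.85 R11m66 := val11b _ (List.mem_of_getElem? (i := 64) rfl)

lemma v11m67 : AllV 0.8 0.85 R11m67 := val11b _ (List.mem_of_getElem? (i := 65) rfl)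

lemma v11m68 : AllV 0.8 0.85 R11m68 := val11b _ (List.mem_of_getElem? (i := 66) rfl)

lemma v11m69 : AllV 0.8 0.85 R11m69 := val11b _ (List.mem_of_getElem? (i := 67) rfl)

lemma v11m70 : AllV 0.8 0.85 R11m70 := val11b _ (List.mem_of_getElem? (i := 68) rfl)

lemma v11m71 : AllV 0.8 0.85 R11m71 := val11b _ (List.mem_of_getElem? (i := 69) rfl)

lemma v11m72 : AllV 0.8 0.85 R11m72 := val11b _ (List.mem_of_getElem? (i := 70) rfl)

def A11 (p : Bool) : ℕ := cond p 17964 18424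

def G11 (p : Bool) : ℤ := cond p (-19823) (-20465)

lemma ad11 : ∀ p q r, InP (addK A11 G11 p q r) R11ad := by decide +kernel

lemma deg11 {n : ℕ} {u : Fin n → E3} {Tr : Fin n → Fin n → Fin n → Prop} (hu : Unit1 u)
    (S : Sys u 1 Tr) (h25 : ∀ x ∈ poly u 1, dt x x ≤ 25) :
    n * ((33901.3 : ℝ) + 4 * 20145.2) - 20145.2 * (∑ i, dg Tr i : ℕ)
      + 319.7 * (∑ i, un (dg Tr i) : ℕ) ≤ 30000 * vol u 1 :=
  deg_Key (b := 0.8) (s := 0.85) 33901.3 20145.2 319.7 (by norm_num) (fun p q r => by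
      obtain ⟨C, c1, -, c2⟩ := ad11 p q r
      exact addK_valid ((v11ad C c1).perms c2))
    (by norm_num [A11, G11]) (by norm_num [A11, G11]) (by norm_num [A11, G11]) (by norm_num [A11, G11])
    hu S h25

lemma t11_iff : ∀ i j k : Fin 11, i ≠ j → j ≠ k → i ≠ k →
    (tb 11 M11_0 i j k = true ↔ {i, j, k} ∈ gold11) := by
  decide +kernel

lemma wall25 : Wall (tb 11 M11_0) 173373 2 5 := by
  intro u Tr σ hu S h25 hσ hw
  have b0 : (0 : ℝ) ≤ 0.8 := by norm_num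
  rcases le_total (53 / 125) (yx (xx u (σ 5) (σ 7))) with h1 | h1
  · exact lab_st2 b0 v11cC ok11cC hu S h25 hσ hw (by simp) (by simp [h1])
  rcases le_total (53 / 125) (yx (xx u (σ 3) (σ 5))) with h2 | h2
  · exact lab_st2 b0 v11cE ok11cE hu S h25 hσ hw (by simp [h1]) (by simp [h2])
  rcases le_total (53 / 125) (yx (xx u (σ 4) (σ 7))) with h3 | h3
  · exact lab_st2 b0 v11cF ok11cF hu S h25 hσ hw (by simp [h1, h2]) (by simp [h3])
  rcases le_total (53 / 125) (yx (xx u (σ 5) (σ 8))) with h4 | h4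
  · exact lab_st2 b0 v11cG ok11cG hu S h25 hσ hw (by simp [h1, h2, h3]) (by simp [h4])
  rcases le_total (53 / 125) (yx (xx u (σ 7) (σ 9))) with h5 | h5
  · exact lab_st2 b0 v11cH ok11cH hu S h25 hσ hw (by simp [h1, h2, h3, h4]) (by simp [h5])
  · exact lab_st2 b0 v11cA ok11cA hu S h25 hσ hw (by simp [h1, h2, h3, h4, h5]) (by simp)

lemma cov11 : Cov (tb 11 M11_0) [D11w01, D11w02, D11w05, D11w12, D11w14, D11w24, D11w27, D11w46, D11cA]
    [0xa9876543210, 0xa9784562310, 0x132654879a, 0x123456789a] := by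
  decide +kernel

lemma walls11 : ∀ D ∈ [D11w01, D11w02, D11w05, D11w12, D11w14, D11w24, D11w27, D11w46, D11cA],
    Wall (tb 11 M11_0) 173373 D.i0 D.j0 := by
  have b0 : (0 : ℝ) ≤ 0.8 := by norm_num
  simp only [List.forall_mem_cons, List.not_mem_nil, false_imp_iff, implies_true, and_true]
  exact ⟨wall_lab b0 v11w01 ok11w01, wall_lab b0 v11w02 ok11w02, wall_lab b0 v11w05 ok11w05,
    wall_lab b0 v11w12 ok11w12, wall_lab b0 v11w14 ok11w14, wall_lab b0 v11w24 ok11w24,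
    wall_lab b0 v11w27 ok11w27, wall_lab b0 v11w46 ok11w46, wall25⟩

lemma excl11 : ∀ M ∈ Ms11, M = M11_0 ∨ Excl (tb 11 M) 173373 := by
  have b0 : (0 : ℝ) ≤ 0.8 := by norm_num
  unfold Ms11
  refine List.forall_mem_cons.2 ⟨Or.inl rfl, ?_⟩
  refine List.forall_mem_cons.2 ⟨Or.inr (excl_lab b0 v11m1 ok11m1 rfl), ?_⟩
  refine List.forall_mem_cons.2 ⟨Or.inr (excl_lab b0 v11m2 ok11m2 rfl), ?_⟩
  refine List.forall_mem_cons.2 ⟨Or.inr (excl_lab b0 v11m3 ok11m3 rfl), ?_⟩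
  refine List.forall_mem_cons.2 ⟨Or.inr (excl_lab b0 v11m4 ok11m4 rfl), ?_⟩
  refine List.forall_mem_cons.2 ⟨Or.inr (excl_lab b0 v11m5 ok11m5 rfl), ?_⟩
  refine List.forall_mem_cons.2 ⟨Or.inr (excl_lab b0 v11m6 ok11m6 rfl), ?_⟩
  refine List.forall_mem_cons.2 ⟨Or.inr (excl_lab b0 v11m7 ok11m7 rfl), ?_⟩
  refine List.forall_mem_cons.2 ⟨Or.inr (excl_lab b0 v11m8 ok11m8 rfl), ?_⟩
  refine List.forall_mem_cons.2 ⟨Or.inr (excl_lab b0 v11m9 ok11m9 rfl), ?_⟩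
  refine List.forall_mem_cons.2 ⟨Or.inr (excl_lab b0 v11m10 ok11m10 rfl), ?_⟩
  refine List.forall_mem_cons.2 ⟨Or.inr (excl_lab b0 v11m11 ok11m11 rfl), ?_⟩
  refine List.forall_mem_cons.2 ⟨Or.inr (excl_lab b0 v11m12 ok11m12 rfl), ?_⟩
  refine List.forall_mem_cons.2 ⟨Or.inr (excl_lab b0 v11m13 ok11m13 rfl), ?_⟩
  refine List.forall_mem_cons.2 ⟨Or.inr (excl_lab b0 v11m14 ok11m14 rfl), ?_⟩
  refine List.forall_mem_cons.2 ⟨Or.inr (excl_lab b0 v11m15 ok11m15 rfl), ?_⟩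
  refine List.forall_mem_cons.2 ⟨Or.inr (excl_lab b0 v11m16 ok11m16 rfl), ?_⟩
  refine List.forall_mem_cons.2 ⟨Or.inr (excl_lab b0 v11m17 ok11m17 rfl), ?_⟩
  refine List.forall_mem_cons.2 ⟨Or.inr (excl_lab b0 v11m18 ok11m18 rfl), ?_⟩
  refine List.forall_mem_cons.2 ⟨Or.inr (excl_lab b0 v11m19 ok11m19 rfl), ?_⟩
  refine List.forall_mem_cons.2 ⟨Or.inr (excl_lab b0 v11m20 ok11m20 rfl), ?_⟩
  refine List.forall_mem_cons.2 ⟨Or.inr (excl_lab b0 v11m21 ok11m21 rfl), ?_⟩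
  refine List.forall_mem_cons.2 ⟨Or.inr (excl_lab b0 v11m22 ok11m22 rfl), ?_⟩
  refine List.forall_mem_cons.2 ⟨Or.inr (excl_lab b0 v11m23 ok11m23 rfl), ?_⟩
  refine List.forall_mem_cons.2 ⟨Or.inr (excl_lab b0 v11m24 ok11m24 rfl), ?_⟩
  refine List.forall_mem_cons.2 ⟨Or.inr (excl_lab b0 v11m25 ok11m25 rfl), ?_⟩
  refine List.forall_mem_cons.2 ⟨Or.inr (excl_lab b0 v11m26 ok11m26 rfl), ?_⟩
  refine List.forall_mem_cons.2 ⟨Or.inr (excl_lab b0 v11m27 ok11m27 rfl), ?_⟩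
  refine List.forall_mem_cons.2 ⟨Or.inr (excl_lab b0 v11m28 ok11m28 rfl), ?_⟩
  refine List.forall_mem_cons.2 ⟨Or.inr (excl_lab b0 v11m29 ok11m29 rfl), ?_⟩
  refine List.forall_mem_cons.2 ⟨Or.inr (excl_lab b0 v11m30 ok11m30 rfl), ?_⟩
  refine List.forall_mem_cons.2 ⟨Or.inr (excl_lab b0 v11m31 ok11m31 rfl), ?_⟩
  refine List.forall_mem_cons.2 ⟨Or.inr (excl_lab b0 v11m32 ok11m32 rfl), ?_⟩
  refine List.forall_mem_cons.2 ⟨Or.inr (excl_lab b0 v11m33 ok11m33 rfl), ?_⟩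
  refine List.forall_mem_cons.2 ⟨Or.inr (excl_lab b0 v11m34 ok11m34 rfl), ?_⟩
  refine List.forall_mem_cons.2 ⟨Or.inr (excl_lab b0 v11m35 ok11m35 rfl), ?_⟩
  refine List.forall_mem_cons.2 ⟨Or.inr (excl_lab b0 v11m36 ok11m36 rfl), ?_⟩
  refine List.forall_mem_cons.2 ⟨Or.inr (excl_lab b0 v11m37 ok11m37 rfl), ?_⟩
  refine List.forall_mem_cons.2 ⟨Or.inr (excl_lab b0 v11m38 ok11m38 rfl), ?_⟩
  refine List.forall_mem_cons.2 ⟨Or.inr (excl_lab b0 v11m39 ok11m39 rfl), ?_⟩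
  refine List.forall_mem_cons.2 ⟨Or.inr (excl_lab b0 v11m40 ok11m40 rfl), ?_⟩
  refine List.forall_mem_cons.2 ⟨Or.inr (excl_lab b0 v11m41 ok11m41 rfl), ?_⟩
  refine List.forall_mem_cons.2 ⟨Or.inr (excl_lab b0 v11m42 ok11m42 rfl), ?_⟩
  refine List.forall_mem_cons.2 ⟨Or.inr (excl_lab b0 v11m43 ok11m43 rfl), ?_⟩
  refine List.forall_mem_cons.2 ⟨Or.inr (excl_lab b0 v11m44 ok11m44 rfl), ?_⟩
  refine List.forall_mem_cons.2 ⟨Or.inr (excl_lab b0 v11m45 ok11m45 rfl), ?_⟩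
  refine List.forall_mem_cons.2 ⟨Or.inr (excl_lab b0 v11m46 ok11m46 rfl), ?_⟩
  refine List.forall_mem_cons.2 ⟨Or.inr (excl_lab b0 v11m47 ok11m47 rfl), ?_⟩
  refine List.forall_mem_cons.2 ⟨Or.inr (excl_lab b0 v11m48 ok11m48 rfl), ?_⟩
  refine List.forall_mem_cons.2 ⟨Or.inr (excl_lab b0 v11m49 ok11m49 rfl), ?_⟩
  refine List.forall_mem_cons.2 ⟨Or.inr (excl_lab b0 v11m50 ok11m50 rfl), ?_⟩
  refine List.forall_mem_cons.2 ⟨Or.inr (excl_lab b0 v11m51 ok11m51 rfl), ?_⟩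
  refine List.forall_mem_cons.2 ⟨Or.inr (excl_lab b0 v11m52 ok11m52 rfl), ?_⟩
  refine List.forall_mem_cons.2 ⟨Or.inr (excl_lab b0 v11m53 ok11m53 rfl), ?_⟩
  refine List.forall_mem_cons.2 ⟨Or.inr (excl_lab b0 v11m54 ok11m54 rfl), ?_⟩
  refine List.forall_mem_cons.2 ⟨Or.inr (excl_lab b0 v11m55 ok11m55 rfl), ?_⟩
  refine List.forall_mem_cons.2 ⟨Or.inr (excl_lab b0 v11m56 ok11m56 rfl), ?_⟩
  refine List.forall_mem_cons.2 ⟨Or.inr (excl_lab b0 v11m57 ok11m57 rfl), ?_⟩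
  refine List.forall_mem_cons.2 ⟨Or.inr (excl_lab b0 v11m58 ok11m58 rfl), ?_⟩
  refine List.forall_mem_cons.2 ⟨Or.inr (excl_lab b0 v11m59 ok11m59 rfl), ?_⟩
  refine List.forall_mem_cons.2 ⟨Or.inr (excl_lab b0 v11m60 ok11m60 rfl), ?_⟩
  refine List.forall_mem_cons.2 ⟨Or.inr (excl_lab b0 v11m61 ok11m61 rfl), ?_⟩
  refine List.forall_mem_cons.2 ⟨Or.inr (excl_lab b0 v11m62 ok11m62 rfl), ?_⟩
  refine List.forall_mem_cons.2 ⟨Or.inr (excl_lab b0 v11m63 ok11m63 rfl), ?_⟩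
  refine List.forall_mem_cons.2 ⟨Or.inr (excl_lab b0 v11m64 ok11m64 rfl), ?_⟩
  refine List.forall_mem_cons.2 ⟨Or.inr (excl_lab b0 v11m65 ok11m65 rfl), ?_⟩
  refine List.forall_mem_cons.2 ⟨Or.inr (excl_lab b0 v11m66 ok11m66 rfl), ?_⟩
  refine List.forall_mem_cons.2 ⟨Or.inr (excl_lab b0 v11m67 ok11m67 rfl), ?_⟩
  refine List.forall_mem_cons.2 ⟨Or.inr (excl_lab b0 v11m68 ok11m68 rfl), ?_⟩
  refine List.forall_mem_cons.2 ⟨Or.inr (excl_lab b0 v11m69 ok11m69 rfl), ?_⟩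
  refine List.forall_mem_cons.2 ⟨Or.inr (excl_lab b0 v11m70 ok11m70 rfl), ?_⟩
  refine List.forall_mem_cons.2 ⟨Or.inr (excl_lab b0 v11m71 ok11m71 rfl), ?_⟩
  refine List.forall_mem_cons.2 ⟨Or.inr (excl_lab b0 v11m72 ok11m72 rfl), ?_⟩
  exact fun _ h => absurd h List.not_mem_nil

theorem best11 : ∃ Q : Set E3, HasType gold11 Q ∧ IsBest Q ∧
    ∀ R : Set E3, IsPolytope R → (twoFaces R).ncard ≤ 11 → isoQuot R ≤ isoQuot Q := by
  refine mainG_st ex_st cont_st redG_st lim_st 10 gold11 (173373 / 30000) (1 / 10000) (by norm_num)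
    (by linarith [pi_gt_d2]) ?_ (fun u Tr hu S => ?_) fun u Tr hu S hv => ?_
  · obtain ⟨u, h1, h2, h3⟩ := comp11_st
    exact ⟨u, h1, h2, by linarith⟩
  · by_contra hv
    have h1 := deg11 hu S (ball_Key hu S (by linarith))
    have h2 := euler_st _ u 1 Tr S
    have h3 : ((∑ i, dg Tr i : ℕ) : ℝ) ≤ 48 := by
      rw [Fintype.card_fin] at h2
      exact_mod_cast (by omega : ∑ i, dg Tr i ≤ 48)
    have h4 := Nat.cast_nonneg (α := ℝ) (∑ i, un (dg Tr i))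
    push_cast at h1 h3 h4
    linarith
  · have h25 := ball_Key hu S (by linarith)
    have h1 := deg11 hu S h25
    have h2 := euler_st _ u 1 Tr S
    rw [Fintype.card_fin] at h2
    have h4 := Nat.cast_nonneg (α := ℝ) (∑ i, un (dg Tr i))
    have h5 : ∑ i, dg Tr i = 54 := by
      by_contra h
      have : ((∑ i, dg Tr i : ℕ) : ℝ) ≤ 53 := by exact_mod_cast (by omega : ∑ i, dg Tr i ≤ 53)
      rw [Nat.cast_add, Nat.cast_ofNat, Nat.cast_one] at h1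
      linarith
    have h6 : ∑ i, un (dg Tr i) ≤ 5 := by
      by_contra h
      have : (6 : ℝ) ≤ (∑ i, un (dg Tr i) : ℕ) := by exact_mod_cast (by omega : 6 ≤ _)
      rw [h5, Nat.cast_add, Nat.cast_ofNat, Nat.cast_one, Nat.cast_ofNat] at h1
      linarith
    obtain ⟨σ, M, hM, hσ⟩ := enum11_st Tr (comb_of_sys S) (conn_st _ u 1 Tr S).1
      (conn_st _ u 1 Tr S).2 h5 h6
    have hv' : ¬ ((173373 : ℤ) : ℝ) ≤ 30000 * vol u 1 := by
      push_cast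
      linarith
    rcases excl11 M hM with rfl | h
    · exact ⟨long_Key2 walls11 cov11 hu S h25 hσ (not_le.1 hv'),
        type_st _ _ u 1 Tr σ S fun i j k a b c => (hσ i j k).trans (t11_iff i j k a b c)⟩
    · exact absurd (h u Tr σ hu S h25 hσ) hv'

end Pool.Agent.MP_5cfbf6_gt.P8
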