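import Pool.Agent.MP_5cfbf6_gt.P8.KP8

set_option autoImplicit false

namespace Pool.Agent.MP_5cfbf6_gt.P8.KK

theorem c8_106 : go p8 60 0x32190b91a9217242d190c85c8642d48642e432168b91c8d48642e432168c8642e432166432429c86430b29a91c8642cc8e46548e485a90c72345c8e485a91c85190c85c8642d48e489a2d1
    2362232014 214748365 281104953 281104953 4216574283 281104953 = 1 := by decide +kernel

theorem c8_198 : go p8 60 0x3218a431390c85a90c85c8a44cc86190c2cc86485c8c990c32185952191190c26432132184b90c8e464c8642ca7218a431390a91485c85390c85c8a44d48642e455a651
    2684354560 107374183 (-1264972285) 140552477 4076021807 140552477 = 1 := by decide +kernel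

theorem c8_256 : go p8 60 0x32431192190a2e488c9116a432272191332390a91c8d172190a90c85190c85486428b46486232425c9099212d48e42a47214643148e428b90c52190a32290c85168b
    2952790015 53687092 1616353477 70276239 2670497045 140552477 = 1 := by decide +kernel

theorem c8_229 : go p8 60 0x3242e49096a485c8643212d192232290c8d17219214643215242e432429a2d48a426432352191a2e432152428c90b90c86425a9217242d168b
    2684354560 107374183 (-421657427) 140552477 4216574283 281104953 = 1 := by decide +kernel

theorem c8_154 : go p8 60 0xc8642a432425290c90952426488a4e488c86485952290c8599148644ca5219216647229214ca92172290c85332190b90c854864299499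
    966367642 107374183 (-702762379) 140552477 6324861425 140552477 = 1 := by decide +kernel

theorem c8_65 : go p8 60 0x36d90c29590c85488a76430ab218532ad90c2a45212a432172232190a9094e430c8615218642994ed90ab214ec85590a65590c85486429c862913299
    1288490189 429496730 1686629715 562209905 3935469331 562209905 = 1 := by decide +kernel

theorem c8_169 : go p8 60 0x32291990c88a9148cc86445390c84c90952190992129a91c8cc8e46548a46643212948e42645212a4321321909499
    1932735284 214748365 (-281104951) 281104953 4778784187 281104953 = 1 := by decide +kernel

theorem c8_268 : go p8 60 0xdb217642cbb2356428c8a44e432165ab21b1152190990c84a66c85590a32190b90c4548a426432152229c8642a43214cb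
    2952790015 53687092 2178563381 70276239 2389392093 140552477 = 1 := by decide +kernel

theorem c8_142 : go p8 60 0x32190a90c85c9119222d191c8d490c90b46486432168b90c8642e48a44ca32192132172452265168a
    912680551 53687092 (-632486141) 70276239 5832927759 70276239 = 1 := by decide +kernel

theorem c8_178 : go p8 60 0xc8642a472346432152391a2a485c90b52190c85390c86268c90b9216a432272190b453
    2362232014 214748365 (-562209903) 562209905 6184308949 562209905 = 1 := by decide +kernel

theorem c8_109 : go p8 60 0x3643217232a432172190b52391a2a432172190b52291332190b90c6a4721453
    1825361102 107374183 1405524763 281104953 3654364379 281104953 = 1 := by decide +kernel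

theorem c8_149 : go p8 60 0x32426488a90c88c864452921321911521921664323293
    1020054733 53687092 (-702762379) 140552477 6043756473 140552477 = 1 := by decide +kernel

theorem c8_200 : go p8 60 0x32190a90c85390c85a
    2899102924 107374183 (-1405524761) 281104953 4216574283 281104953 = 1 := by decide +kernel

theorem c8_69 : go p8 60 0xd
    2469606196 107374183 140552477 140552477 2951601997 140552477 = 1 := by decide +kernel

end Pool.Agent.MP_5cfbf6_gt.P8.KK
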