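import Pool.Agent.MP_5cfbf6_gt.P8.KP8

set_option autoImplicit false

namespace Pool.Agent.MP_5cfbf6_gt.P8.KK

theorem c8_263 : go p8 60 0x32446486428b92190a32432145a90c85c8644cc8e46a47242d172191390c89991c8d48e468b46486428c91172432146488b52391a91c8d191485c8a44cb91c8d486391a32190b91c85168b
    2952790015 53687092 1756905953 70276239 2670497045 140552477 = 1 := by decide +kernel

theorem c8_82 : go p8 60 0xc8642642e43213216a432152190a66430c85c86352190a90c8532a432152189c8e468c86291390c8514e432152272390a3218e431a90c4548e46a4721464314862299
    1932735284 214748365 1405524763 281104953 3092154473 281104953 = 1 := by decide +kernel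

theorem c8_124 : go p8 60 0x3219212a484c9094a432152190a4e45218e432168c8642a484c85c91190b4548642a488c85c90990b46431486390c68a52190c8d190c8e468a90c8e428c864311499
    966367642 107374183 (-702762379) 140552477 5481546567 140552477 = 1 := by decide +kernel

theorem c8_24 : go p8 60 0xc91190c86428a92188c8648514e472352190c85390c89a32426484b92132425a52190b91a90c85c8d491991a7218a431346484c90972426b499
    3435973837 858993460 (-3373259426) 1124419810 5622099044 1124419810 = 1 := by decide +kernel

theorem c8_212 : go p8 60 0xc8a46a485c86484b46472352190b90c84c90968b91c8d48e469c90a9148d390c8548642e430a6a452352291a72190b90c2a47218d34ca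
    2738041651 53687092 (-421657427) 140552477 3794916855 140552477 = 1 := by decide +kernel

theorem c8_181 : go p8 60 0x3645222ac8615242a4453b229095642a432129992152232190990c84a52190a91190c84c86425272290990c8614a452132190a4ca
    1503238554 214748365 562209905 562209905 5340994091 281104953 = 1 := by decide +kernel

theorem c8_57 : go p8 60 0xc90b90c85a90c90b46432185c86430b52290b90c85a2e485c90b5242e431a32191484b90c3229096a432172190b45a
    2254857832 107374183 (-281104951) 281104953 4216574283 281104953 = 1 := by decide +kernel

theorem c8_171 : go p8 60 0x32291190c8d486428b9215223242e485a91c90b45a90c85488c8642a472345c8a432146432152190a2d1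
    2362232014 214748365 (-843314855) 281104953 4778784187 281104953 = 1 := by decide +kernel

theorem c8_285 : go p8 60 0xdb219096ec8642e42548a42e432165ab2185c86190c2d1b215623218e445486446432129c8642a430c8614cb
    2845415833 53687092 1897458429 70276239 2951601997 140552477 = 1 := by decide +kernel

theorem c8_16 : go p8 60 0x32190a90c85391489990c86152190c29c8a44ca914324254aa1a9c8642a43533238a4321851ad2
    1932735284 214748365 (-2811049521) 562209905 4778784187 281104953 = 1 := by decide +kernel

theorem c8_39 : go p8 60 0xc8a42645212e45213219096a432172190b464355721acd4e431485c8642cc86b95955a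
    2254857832 107374183 (-843314855) 281104953 3654364379 281104953 = 1 := by decide +kernel

theorem c8_227 : go p8 60 0xc86490a2e452432345a90c8a445c86426432352190a2d1
    2684354560 107374183 (-702762379) 140552477 4357126759 140552477 = 1 := by decide +kernel

theorem c8_319 : go p8 60 0x3242648622e432189a
    3221225472 214748365 (-1686629713) 562209905 5059889139 562209905 = 1 := by decide +kernel

theorem c8_314 : go p8 60 0xd
    2791728742 214748365 1967734667 281104953 3654364379 281104953 = 1 := by decide +kernel

end Pool.Agent.MP_5cfbf6_gt.P8.KK
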