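import Pool.Agent.MP_5cfbf6_gt.P8.KP8

set_option autoImplicit false

namespace Pool.Agent.MP_5cfbf6_gt.P8.KK

theorem c8_188 : go p8 60 0xd91486428ab63b1952391a91c8d14ec8642a432145590c84a90c8d486428a6643213219095219099216948e46647232a472332291949c8642a43214643213219094a472352190a32391991c8ca4ca
    1932735284 214748365 562209905 562209905 5340994091 281104953 = 1 := by decide +kernel

theorem c8_75 : go p8 60 0xc8642a432352191a2e43213239195242e43216a485c8642d16a43213242a425c90a91190c8d488b46472190b52391a32b909a9c8642a432146bad490a90995484b90c85488d68b
    2523293287 53687092 351381191 70276239 3232706949 140552477 = 1 := by decide +kernel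

theorem c8_100 : go p8 60 0x32190c88b90c86429990c84c8a432145c8642a43213229094ca91490a32190c84a72290c8d190c84c86465352190c84a90c85490a2e452332391952191a90c8d168b
    2523293287 53687092 210828715 70276239 3513811903 140552477 = 1 := by decide +kernel

theorem c8_107 : go p8 60 0xc86484b90c84c86425990c85c86290c8532a432172190b52190990c88b92132189a2e432172190b32190b90c85952190b90c85990c72190b29a
    2254857832 107374183 843314857 281104953 4216574283 281104953 = 1 := by decide +kernel

theorem c8_193 : go p8 60 0xdb218ac723455b219096a485c90b5219214e432190a68a76c85c90b5642e432268ab6c85356d90a4cc8643222e452190a6a432132190a52291190c9094994ca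
    2147483649 429496730 1124419810 1124419810 6184308949 562209905 = 1 := by decide +kernel

theorem c8_216 : go p8 60 0x32190a9215219122e485486468c8646a472190b45a92152190a32191a9217242d172191a90c8d192172190b5242e432429a2d1
    2684354560 107374183 (-140552475) 140552477 3794916855 140552477 = 1 := by decide +kernel

theorem c8_34 : go p8 60 0xc8642a44643215222e43225223219129116a430c86172186430b46472152232b86a721912911ad486190c2e430d68b
    2469606196 107374183 (-1546077237) 140552477 4216574283 281104953 = 1 := by decide +kernel

theorem c8_275 : go p8 60 0xc8642e43216a432346432425c8642d48642a43213219094cb90c85c8d48e468c8642e43216a432172190b45a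
    2845415833 53687092 1264972287 140552477 2951601997 140552477 = 1 := by decide +kernel

theorem c8_296 : go p8 60 0x32190ab1c8642d1b642ec8597642ac8d190c85c8a42cb46432232190a762b214643148642ca90c88c8648514cb
    3060164199 53687092 2178563381 70276239 2389392093 140552477 = 1 := by decide +kernel

theorem c8_287 : go p8 60 0x3642e432190b2ad90bb2165d90ab218d190c85c8a42cb46432172190b562b2146452190a2a43213219094cb
    2952790015 53687092 1897458429 70276239 2951601997 140552477 = 1 := by decide +kernel

theorem c8_40 : go p8 60 0x32190b90c85a91c8d190d72b35390c85c86b52190a35a91484caa425c8a426b46b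
    2469606196 107374183 (-983867331) 140552477 3654364379 281104953 = 1 := by decide +kernel

theorem c8_204 : go p8 60 0xc86432426431a90c5217214cc86290c4d192426baab35392190b90a35a
    2738041651 53687092 (-983867331) 140552477 3794916855 140552477 = 1 := by decide +kernel

theorem c8_31 : go p8 60 0x321ae426a95426baa435c84d46baaa
    2362232014 214748365 (-1686629713) 562209905 3654364379 281104953 = 1 := by decide +kernel

theorem c8_182 : go p8 60 0xd
    1288490189 429496730 1686629715 562209905 5059889139 562209905 = 1 := by decide +kernel

end Pool.Agent.MP_5cfbf6_gt.P8.KK
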