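import Pool.Agent.MP_5cfbf6_gt.P8.KP8

set_option autoImplicit false

namespace Pool.Agent.MP_5cfbf6_gt.P8.KK

theorem c8_58 : go p8 60 0xc8e46a47242d190c86429c8645222cc8a484c9094e430c8642a48516539217242d490b92168c8642a432152190a2e452132191a90c8516a432132190a90c85172290990c85486428b45a
    2469606196 107374183 (-281104951) 281104953 4216574283 281104953 = 1 := by decide +kernel

theorem c8_278 : go p8 60 0xc8642a431191484b91484c86425a90c32172190b46430c86152190a90990c52129c8642e432168b90c32172190b52190b90c68c8619142e430c8616a432152190c84a65a
    2845415833 53687092 1546077239 140552477 2951601997 140552477 = 1 := by decide +kernel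

theorem c8_150 : go p8 60 0x32291391489a92152190a72190a90c85346452272190b52190a90c85391489a2a452272291352190b90c85a90c85486429a32290b90c85a90c85486272290b453
    1181116006 107374183 (-843314855) 281104953 5903203997 281104953 = 1 := by decide +kernel

theorem c8_41 : go p8 60 0xc8642e43216a432146432172190b52190b90a2e432172190b52190a32190b90d6a472b45a90c84c85486426432129c8a44645222d190d721acd521909a8d753
    2469606196 107374183 (-702762379) 140552477 3654364379 281104953 = 1 := by decide +kernel

theorem c8_260 : go p8 60 0x32290990c2e484c9096a431c8633219117218e432166485486428b46432132426a35d4e484c95172426b52190b90c85190c84d6e432152190a35a35a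
    2952790015 53687092 1827182191 140552477 2389392093 140552477 = 1 := by decide +kernel

theorem c8_91 : go p8 60 0xc8a44645212e43213219096a430c86172190b46432132172190b52190b90c68b90c85c8642d48642e431a3218e46a472145a
    2040109466 107374183 843314857 281104953 3654364379 281104953 = 1 := by decide +kernel

theorem c8_191 : go p8 60 0xd90d88b90c86445ab6432129c86446432152190a2d190c86445c8643222d486446432152190a2e432232190990c85a68a
    2362232014 214748365 562209905 562209905 5340994091 281104953 = 1 := by decide +kernel

theorem c8_174 : go p8 60 0xc8642e46a45215218a429991c8948642e468a90c85c8642d486290a90c5214cc90b90c85a90c85c90b453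
    1932735284 214748365 (-1686629713) 562209905 6184308949 562209905 = 1 := by decide +kernel

theorem c8_283 : go p8 60 0xdb6d8d484bb21653b642a172190a90c8539195642e432168c8642a190c89c84b90c85432390a9096a432172190b45a
    2684354560 107374183 1967734667 281104953 3092154473 281104953 = 1 := by decide +kernel

theorem c8_3 : go p8 60 0xc8a44e432152429a9148948a46948a44a452249990c85c8642d486ba9c8642e435aad295575486aaea353
    2147483649 429496730 (-5622099044) 1124419810 5622099044 1124419810 = 1 := by decide +kernel

theorem c8_246 : go p8 60 0xc86446431486428b90c84c8643116a452232190a90c85172290990c52190a2d1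
    2899102924 107374183 983867333 140552477 3232706949 140552477 = 1 := by decide +kernel

theorem c8_315 : go p8 60 0x36c86c4643227219132ec56428c8644e4524289652
    2791728742 214748365 1686629715 562209905 4216574283 281104953 = 1 := by decide +kernel

theorem c8_323 : go p8 60 0xc90c85192190b2a48a4313324321453
    3865470567 429496730 (-1124419808) 1124419810 5622099044 1124419810 = 1 := by decide +kernel

end Pool.Agent.MP_5cfbf6_gt.P8.KK
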