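import Pool.Agent.MP_5cfbf6_gt.P8.KP8

set_option autoImplicit false

namespace Pool.Agent.MP_5cfbf6_gt.P8.KK

theorem c8_121 : go p8 60 0xc8642a43213219094a432152190a4e452428c8644a432252429952291192152190a29990c84c8642548642642948642a432149c8a44a472152190a4643148a428a90c52190a32190a4ca
    1073741824 214748365 (-562209903) 562209905 4778784187 281104953 = 1 := by decide +kernel

theorem c8_252 : go p8 60 0x32291191488a90c85c8644cc86290c8514e452232191390c8997218a432146432152190a2d190c85490b91a32b90d66a72190a90c851ad490b91a91c8d190d72b35391c85486428d68b
    2845415833 53687092 1475801001 70276239 2670497045 140552477 = 1 := by decide +kernel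

theorem c8_81 : go p8 60 0xd8e46ac85c90b46472352190b90c85a2e472352391a32395a91cad16ac85c8642d590b90c85a32190b90c85a90c85c8d152190b90c85a90c85c8642d190c85c86b52190b95a299
    1932735284 214748365 1967734667 281104953 2529944569 281104953 = 1 := by decide +kernel

theorem c8_313 : go p8 60 0xd90c90972190c84b2a436428c86485952190b91486429990c8548a43214ca7643212a432152190a72290c8532e485c90b3242e485a9217242d168b
    2899102924 107374183 1546077239 140552477 3654364379 281104953 = 1 := by decide +kernel

theorem c8_288 : go p8 60 0x36db642e42548612d3b219095642ac85192172190a29d90c2e432185a3647212a432172190b52190a2e472152190a32391a90c8516a432172332190b91945a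
    2845415833 53687092 1827182191 140552477 3232706949 140552477 = 1 := by decide +kernel

theorem c8_267 : go p8 60 0xc8e46a432146472152190a2e432152188c8629116a432232291152190990c84a66431488cae545c86426b52190c84b90c88d68b
    2952790015 53687092 2038010905 70276239 2389392093 140552477 = 1 := by decide +kernel

theorem c8_61 : go p8 60 0x36391a90c85191c8d48622a472352190a32390a90c4539143218548a190c29990c85488c8a4254861aaa7218642a430d4ca
    1503238554 214748365 1686629715 562209905 2529944569 281104953 = 1 := by decide +kernel

theorem c8_77 : go p8 60 0xc8619212e484c85a90c85c8642d190c84c8d486390a2e472132390952190b90c84a32190b90d6a432145a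
    2254857832 107374183 843314857 281104953 3092154473 281104953 = 1 := by decide +kernel

theorem c8_238 : go p8 60 0xc90b90c9096a432425c90991490a2d192132425c9099212d48a44645222e485486428c90a90c85168b
    2630667469 53687092 491933667 70276239 3232706949 140552477 = 1 := by decide +kernel

theorem c8_164 : go p8 60 0xc8643214e43229116a431486272191346430c90972190c85352190c85392152168a
    1932735284 214748365 (-1686629713) 562209905 5340994091 281104953 = 1 := by decide +kernel

theorem c8_175 : go p8 60 0x32191291c89190c89486468a92172190b5242e485a32190b91a90c90972190b453
    2362232014 214748365 (-1686629713) 562209905 6184308949 562209905 = 1 := by decide +kernel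

theorem c8_130 : go p8 60 0x32190a91290c5214e484c8548625218a4299
    1073741824 214748365 (-1967734665) 281104953 5903203997 281104953 = 1 := by decide +kernel

theorem c8_194 : go p8 60 0x321921359aabaa572426b32190d66a921321951355751acd55d55566a
    3006477107 429496730 (-1124419808) 1124419810 2811049521 562209905 = 1 := by decide +kernel

end Pool.Agent.MP_5cfbf6_gt.P8.KK
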