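import Pool.Agent.MP_5cfbf6_gt.P8.KP8

set_option autoImplicit false

namespace Pool.Agent.MP_5cfbf6_gt.P8.KK

theorem c8_126 : go p8 60 0xc90a92146432172190b5242a432348a90c8642548e43216a48548642914e48548a44cc86485290c90a4e452426432428a52290c9114995242a485192152191a52290c9094a4324293299
    1073741824 214748365 (-281104951) 281104953 5340994091 281104953 = 1 := by decide +kernel

theorem c8_21 : go p8 60 0x3219212e431a90c85292132445c86488b5242e469391c90b52391a32190b9216643218dc8642da52190b90c89a92272190b46432190a72191332426484b91486428b499
    2147483649 429496730 (-2811049521) 562209905 6184308949 562209905 = 1 := by decide +kernel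

theorem c8_207 : go p8 60 0x32190a92146432152190a2e432152190a32190a90c8516a45213229097242a42645212d190c85490a32291172190a90c85190c86425352290990c2e452132290968b
    2630667469 53687092 (-632486141) 70276239 3794916855 140552477 = 1 := by decide +kernel

theorem c8_101 : go p8 60 0x32190a90c85c8643212d39217242d490992152428b90c86445c8643214ca6a45213239216a432145c8646a485192185c8645212d48e485a2d1
    2469606196 107374183 140552477 140552477 3794916855 140552477 = 1 := by decide +kernel

theorem c8_258 : go p8 60 0x36d90b5622ec85486429c88c8642e43216a425ab2172190b46c85486429c90b32190b90c85a90c85172190b90c6a4464321721ad48622d48642e472128b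
    2684354560 107374183 2108287143 140552477 2529944569 281104953 = 1 := by decide +kernel

theorem c8_289 : go p8 60 0x36d9212ed90d90b2994ec85486429d9212a436428c8648594cc86485990c8cab2156468c8642a43217242d172190a91c85190c8548e428b45a
    2952790015 53687092 1827182191 140552477 3232706949 140552477 = 1 := by decide +kernel

theorem c8_136 : go p8 60 0x32190a90c85290c85486429390c88c9095242e429486446484a90c85266452152290a72190a90c4a43215224ca
    1503238554 214748365 (-1686629713) 562209905 6465413901 281104953 = 1 := by decide +kernel

theorem c8_265 : go p8 60 0x32190b90c85990c72190b2a45223219094e432172132190a90952186430a664321909721909ad48642a430d4cb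
    2845415833 53687092 2038010905 70276239 2389392093 140552477 = 1 := by decide +kernel

theorem c8_14 : go p8 60 0x32190b91a91489486429991c8644d486392168a9217244d486392168c8a42e45226a432272290b453
    1503238554 214748365 (-2811049521) 562209905 6184308949 562209905 = 1 := by decide +kernel

theorem c8_37 : go p8 60 0x3218e42a452346432152188b90c85486232190a9116a432185486190a5218a4464321299
    1932735284 214748365 (-843314855) 281104953 4216574283 281104953 = 1 := by decide +kernel

theorem c8_248 : go p8 60 0x32186430b90c32185a90c85190c35c84d4e4321721ad486428d6a432172332186b46b
    2684354560 107374183 1264972287 140552477 2529944569 281104953 = 1 := by decide +kernel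

theorem c8_123 : go p8 60 0x3218e431a91485a90c8623242548625242642a4499
    966367642 107374183 (-983867331) 140552477 5481546567 140552477 = 1 := by decide +kernel

theorem c8_233 : go p8 60 0x32432390a2648e428a921aea353
    3865470567 429496730 (-1124419808) 1124419810 3373259426 1124419810 = 1 := by decide +kernel

end Pool.Agent.MP_5cfbf6_gt.P8.KK
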