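import Pool.Agent.MP_5cfbf6_gt.P8.KP8

set_option autoImplicit false

namespace Pool.Agent.MP_5cfbf6_gt.P8.KK

theorem c8_138 : go p8 60 0xc90a90c85c9119212d191c8d490c86346490a2e432190b92132168c91c8d168a91489c86452291291326486290b2e432291485489932472145a32391a9218e468c90c45c90c46484b452
    912680551 53687092 (-702762379) 140552477 5692375283 70276239 = 1 := by decide +kernel

theorem c8_52 : go p8 60 0x3242e485a9217242d19213219117242643212d48642a432152190a2e432232190990a68b92172190b5242e485a32290990c85488b91484c8629116a432185c86430b459
    2469606196 107374183 (-210828713) 70276239 3794916855 140552477 = 1 := by decide +kernel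

theorem c8_243 : go p8 60 0x3218645222e432132190a92145a91c8d486428c8642e485a90c85172190a90c85190c85486428b4e43219097242a43214d48a426431484b90c3219095242a4851699
    2684354560 107374183 983867333 140552477 3092154473 281104953 = 1 := by decide +kernel

theorem c8_176 : go p8 60 0x32190a90c85290c85486429390c8549099212948642643212a432132190949990c85486429c8a43135242642a43214a432132425490990a4ca
    1932735284 214748365 (-562209903) 562209905 5903203997 281104953 = 1 := by decide +kernel

theorem c8_249 : go p8 60 0x32190c2e432185a90c85191432285c8a44e465486428b90c32285c86190c2d486468c8a54e466450d6a452125a91c84c86391946430d75486a35c86b353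
    2684354560 107374183 1546077239 140552477 2529944569 281104953 = 1 := by decide +kernel

theorem c8_85 : go p8 60 0x3218ac511b148626643215229112e432152390a32190a90c8516a431d90a90b32190b90c85485952190b90c85192152a72195a299
    2362232014 214748365 1967734667 281104953 2529944569 281104953 = 1 := by decide +kernel

theorem c8_167 : go p8 60 0x32191484b90c3229116a430c86445c90990c84b46484c8642a485172190a91486428b52191484b90c85486430a68a
    2362232014 214748365 (-1686629713) 562209905 5340994091 281104953 = 1 := by decide +kernel

theorem c8_26 : go p8 60 0x32190a90b90c85a91485486266432172b52190a2a435d521aab35390c85486272190a90c85332190a914a99521aab90d559a99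
    1288490189 429496730 (-1686629713) 562209905 3935469331 562209905 = 1 := by decide +kernel

theorem c8_42 : go p8 60 0x32190a91190c85488b90c85484c8642a445a90c85c8642d191485488c861a9c8642a446b52190b90d68b
    2254857832 107374183 (-421657427) 140552477 3654364379 281104953 = 1 := by decide +kernel

theorem c8_220 : go p8 60 0x3242e44647246e486172186450b6dc8622e489c86152291391429a90c3229097218645212d1
    2630667469 53687092 (-1054143569) 70276239 4146298045 70276239 = 1 := by decide +kernel

theorem c8_232 : go p8 60 0xc86290c85c8642d19149099212e432168b90c8e468c86432172b45a
    3221225472 214748365 (-562209903) 562209905 3935469331 562209905 = 1 := by decide +kernel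

theorem c8_134 : go p8 60 0x32391290c85c8d19148cc86445291c8642cc8a4654864464322293
    1181116006 107374183 (-1405524761) 281104953 6465413901 281104953 = 1 := by decide +kernel

theorem c8_205 : go p8 60 0x32a90d55990d521a8d66aaea
    2684354560 107374183 (-702762379) 140552477 3513811903 140552477 = 1 := by decide +kernel

theorem c8_236 : go p8 60 0x32426aae4321a8d75566a
    2684354560 107374183 421657429 140552477 2951601997 140552477 = 1 := by decide +kernel

end Pool.Agent.MP_5cfbf6_gt.P8.KK
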