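import Pool.Agent.MP_5cfbf6_gt.P8.KP8

set_option autoImplicit false

namespace Pool.Agent.MP_5cfbf6_gt.P8.KK

theorem c8_279 : go p8 60 0xc8642e43216a452190a3219117219119212d190c90952426484a72190990c84a92172190b32190a9216532e452190a7242642e432168c86484b90c85a90c84c8a431172190990c84b45a
    2952790015 53687092 1546077239 140552477 2951601997 140552477 = 1 := by decide +kernel

theorem c8_49 : go p8 60 0x32290c46472352190a2e432152232391a90c8516a472332190952391990c84a72190990a9213214d190c85c8642d486428c86b909a9c90b95a90c851ad48642642a575390c84d68b
    2523293287 53687092 (-210828713) 70276239 3513811903 140552477 = 1 := by decide +kernel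

theorem c8_301 : go p8 60 0xc8642a485c8642d19217219212d48643222e485486432145a2e485c90b52190b90c90a68c90990c88b90c88c8a432145a90c84c8a432145c86484a90c84c86425345a
    2630667469 53687092 140552477 140552477 3513811903 140552477 = 1 := by decide +kernel

theorem c8_307 : go p8 60 0x32190b90c85a90c90972190b46484c91172190b52190991488b90c84c86425a2e485c8d48642e432168c8642e43216a432190972190c84b45a
    2899102924 107374183 843314857 281104953 3654364379 281104953 = 1 := by decide +kernel

theorem c8_312 : go p8 60 0xc8642a484c85390c85486426432129990c86428c86291c85172191190c86428b52190a90c85192172352390a2e452232190a90c85168b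
    2899102924 107374183 1264972287 140552477 3654364379 281104953 = 1 := by decide +kernel

theorem c8_133 : go p8 60 0x32291390c85a90c8548948642a449990c85c8d48a44e432168a91489c8642d48642a44a43215224cc86391290c85c863453
    966367642 107374183 (-1405524761) 281104953 6465413901 281104953 = 1 := by decide +kernel

theorem c8_153 : go p8 60 0xc90990a90c8529213242548642939148642cc8a485952191992229490b91486429991c8a43132a452190b321911499
    966367642 107374183 (-983867331) 140552477 6324861425 140552477 = 1 := by decide +kernel

theorem c8_223 : go p8 60 0x32190a92391a2e431490c45a91488c90b9216a47242d172190a90c85190c85c8645214d490b90c85a2d1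
    2684354560 107374183 (-983867331) 140552477 4357126759 140552477 = 1 := by decide +kernel

theorem c8_116 : go p8 60 0x36432190b2a430c8642d48642e432168b92172190b52190b90c85a32190b90c85a90c85c86430b45a
    2469606196 107374183 1405524763 281104953 3654364379 281104953 = 1 := by decide +kernel

theorem c8_7 : go p8 60 0xc8e43212a432146432190952428b9148642cc91485952390c85992135a6a472152ba9c86b4a430d55d553
    1503238554 214748365 (-3935469331) 562209905 5059889139 562209905 = 1 := by decide +kernel

theorem c8_242 : go p8 60 0xc86446452190a2e432190b3229148896a431486428c86426a722914889ad3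
    2738041651 53687092 702762381 140552477 3092154473 281104953 = 1 := by decide +kernel

theorem c8_80 : go p8 60 0x32190a91c85190cad486428a90d7554e472152390a3218a4311521aeaa99
    1932735284 214748365 1405524763 281104953 2529944569 281104953 = 1 := by decide +kernel

theorem c8_25 : go p8 60 0xcaaaae435566aae4355721aab35566a
    1288490189 429496730 (-1124419808) 1124419810 2811049521 562209905 = 1 := by decide +kernel

theorem c8_22 : go p8 60 0x32566aae4355721aeaaea35566a
    3435973837 858993460 (-4497679235) 2248839619 3373259426 1124419810 = 1 := by decide +kernel

end Pool.Agent.MP_5cfbf6_gt.P8.KK
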