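import Pool.Agent.MP_5cfbf6_gt.P8.KP8

set_option autoImplicit false

namespace Pool.Agent.MP_5cfbf6_gt.P8.KK

theorem c8_78 : go p8 60 0x3242a485190c90b52190a2e47242d486468c8642e430c86425a92172190b45a91484c8a425c8642a44643215212d191c8642d486428c86426a72190b90c35a90c721ad1ad48a19542e485488d68b
    2469606196 107374183 702762381 140552477 3092154473 281104953 = 1 := by decide +kernel

theorem c8_179 : go p8 60 0xd90c84a90c84c8614ec86425486426429990c84c8a445486426432149c8642643212a43219094ca90c32152190a72190a90c8533218643214a432190a4e432190952190a653
    1073741824 214748365 562209905 562209905 5059889139 562209905 = 1 := by decide +kernel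

theorem c8_27 : go p8 60 0xc8642a43214a43219094e432132291152426432229990c85486252190990a72291190c4a43215224ca90c85486429c8643214a432190a4cc8642a555390c522521aaa653
    1073741824 214748365 (-562209903) 562209905 3935469331 562209905 = 1 := by decide +kernel

theorem c8_186 : go p8 60 0xc90b90c8599217242ca91c8cc8e465290c85c8642cc8642e43216548e466472329391c8d486448c8e44647222948e46a432146472352190a299
    1932735284 214748365 281104953 281104953 4778784187 281104953 = 1 := by decide +kernel

theorem c8_300 : go p8 60 0xc8642ec85590a91266c864313b2c85172446488b455b2425db21b216532a432152190c45c86432166432190a2a432172290c85332190a921723453299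
    3221225472 214748365 1967734667 281104953 3092154473 281104953 = 1 := by decide +kernel

theorem c8_156 : go p8 60 0x32190b90c85a9148948a449990c85c90b52191390c89a2a432172191352291292152190a4cc8642e43216a452190a722913453
    1181116006 107374183 (-843314855) 281104953 6465413901 281104953 = 1 := by decide +kernel

theorem c8_199 : go p8 60 0x32190c4e485a90c32185c9139195219099213212e48e464c8642ca7238a432189c85391c91352190b91489a651
    2684354560 107374183 (-1264972285) 140552477 4357126759 140552477 = 1 := by decide +kernel

theorem c8_172 : go p8 60 0x3242e485190c85490b91a2e452190a32190a90c8516a43213242548642a432145c90a91192172352190a2d1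
    2362232014 214748365 (-281104951) 281104953 4778784187 281104953 = 1 := by decide +kernel

theorem c8_139 : go p8 60 0x3218e46a432191c8548e429992188c91168c86486232425c90990b45c86484c85c86346486391a2d1
    912680551 53687092 (-808176736) 35138120 5832927759 70276239 = 1 := by decide +kernel

theorem c8_111 : go p8 60 0x36c86152190a91176290991484b2a45223218a445c8a44645222d48a42645212e430c86168a
    2040109466 107374183 1405524763 281104953 3794916855 140552477 = 1 := by decide +kernel

theorem c8_122 : go p8 60 0xc8e431a91c8d292132425490990a52190a90c49990c85489486391a90c48a
    966367642 107374183 (-843314855) 281104953 5200441615 140552477 = 1 := by decide +kernel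

theorem c8_10 : go p8 60 0x32291390c8d486432169a90c85490a52290c90b499
    1073741824 214748365 (-3654364379) 281104953 5903203997 281104953 = 1 := by decide +kernel

theorem c8_218 : go p8 60 0x32290991484b91484c8a425a
    2603823923 26843546 (-1054143569) 70276239 4005745569 70276239 = 1 := by decide +kernel

end Pool.Agent.MP_5cfbf6_gt.P8.KK
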