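import Pool.Agent.MP_5cfbf6_gt.P8.KP8

set_option autoImplicit false

namespace Pool.Agent.MP_5cfbf6_gt.P8.KK

theorem c8_214 : go p8 60 0x32190c88b90c86429992152192145c8642a432132190b4ca91486428c8a432145c8a472346452195a2d48642647232a472332390c6539217242cc8642e43216548642e432166432135a68b
    2630667469 53687092 (-70276237) 70276239 3513811903 140552477 = 1 := by decide +kernel

theorem c8_213 : go p8 60 0xc91190c86428b92232190c8516a432152391991c90b29c8642643212a472352391a2d191486428c959a9c86432146b52190b90c85990c85c8642ca90c84d75390c85c8642ccae565568b
    2630667469 53687092 (-210828713) 70276239 3513811903 140552477 = 1 := by decide +kernel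

theorem c8_257 : go p8 60 0x32190b90c85a90990c85c8642d490a2e485486429c90a32190c2e430c8616a432145a90c85c8642d190c85c8642d490a321aea9517218e426430d6a432146b52390990d68b
    2684354560 107374183 1827182191 140552477 2529944569 281104953 = 1 := by decide +kernel

theorem c8_159 : go p8 60 0x32191190c88a90c88c9094a452332291952191192129391c8642cc8e43216548e43216645232948642e432166432172190b2a472190b322919499
    1503238554 214748365 (-843314855) 281104953 5903203997 281104953 = 1 := by decide +kernel

theorem c8_137 : go p8 60 0xc9119212a484c85390c52189a91c85491c85192188b92132168c86390c72345486431190a5218a484c85c86346432188a921321499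
    966367642 107374183 (-983867331) 140552477 5762651521 140552477 = 1 := by decide +kernel

theorem c8_269 : go p8 60 0x36432172190b2a432152272190a9132e432172190b52190b90c85a3218e46a431c8d16ac8d484c8a42e425c8e46a42647215212d1
    2845415833 53687092 2038010905 70276239 2600220807 70276239 = 1 := by decide +kernel

theorem c8_18 : go p8 60 0x32485990a92190b3214e472132190b90952390990c85c84a6643227238a45214647148a428b2a4862324351721ad2
    2362232014 214748365 (-2811049521) 562209905 4778784187 281104953 = 1 := by decide +kernel

theorem c8_76 : go p8 60 0x32190c84b90c84c90a9116a432172190c2d191488c8a445c8642a485190c85490a2d486190c2e450c86168b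
    2523293287 53687092 491933667 70276239 3232706949 140552477 = 1 := by decide +kernel

theorem c8_47 : go p8 60 0xc8e42a446472152188b90c5223218a445a90c32185c86190c2d190c52232186a721909ad486430b90d68b
    2415919105 53687092 (-210828713) 70276239 3513811903 140552477 = 1 := by decide +kernel

theorem c8_132 : go p8 60 0xc8642e431a91c85290c72152190a4e484c85c8642d48642e431a52190b90c6a4721499
    1073741824 214748365 (-1967734665) 281104953 6465413901 281104953 = 1 := by decide +kernel

theorem c8_240 : go p8 60 0xc8642e43216a432132190972426484b46432195135d4e432172b52426484b92135a35a
    2899102924 107374183 281104953 281104953 3092154473 281104953 = 1 := by decide +kernel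

theorem c8_230 : go p8 60 0x32191a91c8d192272190c88b5219214e432291168b
    2684354560 107374183 (-140552475) 140552477 4216574283 281104953 = 1 := by decide +kernel

theorem c8_234 : go p8 60 0x321959aa435c86b351aea90d72135575486aaea26baaa
    2791728742 214748365 562209905 562209905 2529944569 281104953 = 1 := by decide +kernel

theorem c8_117 : go p8 60 0xd
    2362232014 214748365 1967734667 281104953 3654364379 281104953 = 1 := by decide +kernel

end Pool.Agent.MP_5cfbf6_gt.P8.KK
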