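import Pool.Agent.MP_5cfbf6_gt.P8.KP8

set_option autoImplicit false

namespace Pool.Agent.MP_5cfbf6_gt.P8.KK

theorem c8_64 : go p8 60 0x3218a44645222a45213229094e430c86152186429991488c8a44548a426452129c86190c84a90c8532a452132290952290990c29c86190a90c85332190990c2a43214e432152190a653
    1503238554 214748365 562209905 562209905 3935469331 562209905 = 1 := by decide +kernel

theorem c8_187 : go p8 60 0xd90b9216ac85c90b46485c90b5242e432168a90c86172190b52190b90c85a32190b90c85a90c85c8642d14ec72352190a32391a90c85152190b90c85a90c85190c72352190a299
    1932735284 214748365 843314857 281104953 4778784187 281104953 = 1 := by decide +kernel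

theorem c8_119 : go p8 60 0xc86446484a90c85290c8548624e452188c8642548642948642642a431266431486272190a90c4ca90c8548548a429c8642a42a431485332190a90c4e4522653
    1073741824 214748365 (-1686629713) 562209905 5059889139 562209905 = 1 := by decide +kernel

theorem c8_131 : go p8 60 0x32390c8599148ca90c88c9094a47218cc86445490990a4e452272190b52190a90c4e452168c8a431990c88a52190b91a91489c863464321321499
    1073741824 214748365 (-1405524761) 281104953 5903203997 281104953 = 1 := by decide +kernel

theorem c8_277 : go p8 60 0xc86290c85c8d190c8548642e468b90c86428c8642a432145a90c85c8d48642e468c8642e46a432172345c8642a432146432152190a2d1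
    2899102924 107374183 1264972287 140552477 3232706949 140552477 = 1 := by decide +kernel

theorem c8_311 : go p8 60 0xd90c85c86424a90c32190a85c86190c50b52190990c84a2e432172190b52190990c85a32186450b90c32185a90c32190b45a
    2684354560 107374183 1405524763 281104953 3654364379 281104953 = 1 := by decide +kernel

theorem c8_274 : go p8 60 0x32190a90c85391990c85486429c8ca90c85c86425190c8543219214e445c8642a426452190a72190a2d48642e472328b
    2684354560 107374183 1546077239 140552477 3092154473 281104953 = 1 := by decide +kernel

theorem c8_118 : go p8 60 0x36d90c8642ca90c8548642e432168b56c86484bb215219096549099212e484c9096ac8548a445c8642645222d168a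
    2362232014 214748365 1686629715 562209905 4216574283 281104953 = 1 := by decide +kernel

theorem c8_59 : go p8 60 0xc86190a90c3214e432152190a664321521a9c86290d4ca90c355721aab35391489c8a44cc8a54e4854a9952aae5559a99
    1288490189 429496730 562209905 562209905 2811049521 562209905 = 1 := by decide +kernel

theorem c8_276 : go p8 60 0xc90b9216a43217242d190c85c8642d486484b90c85a2e47215242e468c8e42a432172190b45a
    2952790015 53687092 1264972287 140552477 2951601997 140552477 = 1 := by decide +kernel

theorem c8_147 : go p8 60 0xc90a9217219212d191c8d491192468b92191a3219217219212d168a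
    912680551 53687092 (-632486141) 70276239 5973480235 70276239 = 1 := by decide +kernel

theorem c8_90 : go p8 60 0x32190b90c6a432146472352190a2a472352190a32190a90c453
    1825361102 107374183 843314857 281104953 3654364379 281104953 = 1 := by decide +kernel

theorem c8_290 : go p8 60 0xdb6d90c90929db62b1190c2532d3
    2899102924 107374183 2108287143 140552477 3092154473 281104953 = 1 := by decide +kernel

theorem c8_202 : go p8 60 0xd
    2684354560 107374183 (-983867331) 140552477 3513811903 140552477 = 1 := by decide +kernel

end Pool.Agent.MP_5cfbf6_gt.P8.KK
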