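import Pool.Agent.MP_5cfbf6_gt.P8.KP8

set_option autoImplicit false

namespace Pool.Agent.MP_5cfbf6_gt.P8.KK

theorem c8_157 : go p8 60 0x3218e43214a43214e43215217218e431a52192149990c8548642948a432149c86390c85a90c88c86425290c8548642932a485489c90a9214cc8644a43242939148642948a4324252653
    966367642 107374183 (-281104951) 281104953 6465413901 281104953 = 1 := by decide +kernel

theorem c8_9 : go p8 60 0x3244e432166452191a90c8648622d32a431486429c90a9214cc8e43213243148626548a46648646a486432189a2ca65392232431172190b5219217148642e429990c90969a
    1073741824 214748365 (-4216574283) 281104953 5903203997 281104953 = 1 := by decide +kernel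

theorem c8_183 : go p8 60 0x36d8e46ac7218d15642ac85190c85486428a76c90952276432190a2a43214cab215642cc8642e45216532adb1588a76d8ac65332291191488a90c84c8a445391486332290c85952190991488a653
    1073741824 214748365 562209905 562209905 6184308949 562209905 = 1 := by decide +kernel

theorem c8_5 : go p8 60 0x32190a90c8539215242999217229199148cb92390c85c90b8a432171390c85c52190b89b44c90c90d711559ada2a435cacd55390c9099212e42a484d75332426b55a
    1073741824 214748365 (-4216574283) 281104953 5340994091 281104953 = 1 := by decide +kernel

theorem c8_273 : go p8 60 0x3228643142e450c8a425a91c84c86430b46432272232190a90c85390c85172191390c85190c85c8642d486428b5242e466430c86168b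
    2684354560 107374183 1264972287 140552477 3092154473 281104953 = 1 := by decide +kernel

theorem c8_298 : go p8 60 0x362913b225642a431266d90a90c853b2425486c85190c88a655b2425db2156c68b2a43215242e468d90ab2146432172391a2e452190a3218a432145a299
    3113851290 107374183 2108287143 140552477 2670497045 140552477 = 1 := by decide +kernel

theorem c8_245 : go p8 60 0x3218a43214643148e428b91486232190c45a91c8548e428c8642e46a432172345c8642a432146432152190a2d1
    2899102924 107374183 983867333 140552477 2951601997 140552477 = 1 := by decide +kernel

theorem c8_11 : go p8 60 0xc8a43242d292152190a4e452469490b91c86349991472389c8644d48642e471a9217243134e452391268a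
    1073741824 214748365 (-3935469331) 562209905 6465413901 281104953 = 1 := by decide +kernel

theorem c8_255 : go p8 60 0xc9099212e484c85a90c52188c86290c85172190990c8622d1921321721ad4864321465521a8b90c86428d68b
    2952790015 53687092 1475801001 70276239 2670497045 140552477 = 1 := by decide +kernel

theorem c8_84 : go p8 60 0xc8642a432146432135390c85c86b52390d68d6a485c8635242a485332190a90c85486a654aa546ba99
    2362232014 214748365 1405524763 281104953 2529944569 281104953 = 1 := by decide +kernel

theorem c8_177 : go p8 60 0xc90b90c85a90c90a52190a90c85266432272190b52190a90c4a432152190a4ca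
    1932735284 214748365 (-562209903) 562209905 6465413901 281104953 = 1 := by decide +kernel

theorem c8_29 : go p8 60 0x321909aa435d46b90c354a8d66aae430d55c86b26aaeaaab90d52135d52a909aea35566a
    2147483649 429496730 (-1124419808) 1124419810 2811049521 562209905 = 1 := by decide +kernel

theorem c8_228 : go p8 60 0x32190c85190c90b91a2e486232432145a
    2899102924 107374183 (-843314855) 281104953 4216574283 281104953 = 1 := by decide +kernel

end Pool.Agent.MP_5cfbf6_gt.P8.KK
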