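import Pool.Agent.MP_5cfbf6_gt.P8.KP8

set_option autoImplicit false

namespace Pool.Agent.MP_5cfbf6_gt.P8.KK

theorem c8_211 : go p8 60 0x3242e43219096a485c8642d190c85c8642643212d48643212e432190968b90c8548a445c8642a485488b52190c2e430c8a425a32291190c84b91488c8a445a90c32190972186430b45a
    2630667469 53687092 (-421657427) 140552477 3794916855 140552477 = 1 := by decide +kernel

theorem c8_264 : go p8 60 0x32190991484b92132192145a91488c8642a432145c90a92166432352191a2d190c5223218a445c8644643222d48642a432146432152190a2e472352391a32290b91485968b
    2952790015 53687092 1897458429 70276239 2670497045 140552477 = 1 := by decide +kernel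

theorem c8_105 : go p8 60 0xc8642e43216a485c86430b46432172190b52186484b92132425a2e432172190b5219212e432425a32190c85390c85490990c84a6a484c86172186485484b45a
    2469606196 107374183 843314857 281104953 3654364379 281104953 = 1 := by decide +kernel

theorem c8_104 : go p8 60 0x32426431390c85a90c85486429c86291346432172190c2d486290b90c85a2e432172190c2d48642e431a3218643212e43213216a432172191345a
    2254857832 107374183 843314857 281104953 3654364379 281104953 = 1 := by decide +kernel

theorem c8_92 : go p8 60 0xc8642e43216a43217218d190c85c8642cc8e465391c8cc8e465486426432129a91c8d486428c8e42a43214548e42a4321464321522299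
    1932735284 214748365 281104953 281104953 4216574283 281104953 = 1 := by decide +kernel

theorem c8_146 : go p8 60 0xc90b90c85a90c90b90c85a32192132485172446486468b45c86432152426484a66452190b90c85490b5239216a45226992d1
    912680551 53687092 (-737900498) 35138120 5973480235 70276239 = 1 := by decide +kernel

theorem c8_148 : go p8 60 0x32291c90b46432172190b90c91168a91489c9099222a48642cc90c8994cc8a44e488c9115243226648644ca652
    912680551 53687092 (-702762379) 140552477 6114032711 70276239 = 1 := by decide +kernel

theorem c8_125 : go p8 60 0x32290b90c85a92152272190a91346432172290b3218e432165290c85c8642cc86390c85952390c464321293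
    1181116006 107374183 (-843314855) 281104953 5340994091 281104953 = 1 := by decide +kernel

theorem c8_244 : go p8 60 0xc90990c84b92132425a90c84c8a445c8642643222d190c88c86425c909ad486290c46432135391488d68b
    2899102924 107374183 702762381 140552477 3092154473 281104953 = 1 := by decide +kernel

theorem c8_152 : go p8 60 0xc8642a432246485c8642d48642e452268a90c85486428c8642e43216a432172391a453
    1181116006 107374183 (-281104951) 281104953 5903203997 281104953 = 1 := by decide +kernel

theorem c8_60 : go p8 60 0x3642a43214ec52266432152189c8a44ca90c85486429c8a44cc86290d4e4521653
    1073741824 214748365 1686629715 562209905 2811049521 562209905 = 1 := by decide +kernel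

theorem c8_103 : go p8 60 0x32190c85392152190c84a6a432185c8619215222d1
    2469606196 107374183 421657429 140552477 3794916855 140552477 = 1 := by decide +kernel

theorem c8_297 : go p8 60 0x32391a90c8548637218a44d1
    3167538381 53687092 2108287143 140552477 2389392093 140552477 = 1 := by decide +kernel

end Pool.Agent.MP_5cfbf6_gt.P8.KK
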