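import Pool.Agent.MP_5cfbf6_gt.P8.KP8

set_option autoImplicit false

namespace Pool.Agent.MP_5cfbf6_gt.P8.KK

theorem c8_262 : go p8 60 0x32190b90c85991c8548e428b92172188c8642a43116a485c84c8642a425c8a190c5212d191c8548e428c8642a432145c8646a431190c85c88b52190a90990c85484b90c52132290968b
    2845415833 53687092 1897458429 70276239 2670497045 140552477 = 1 := by decide +kernel

theorem c8_210 : go p8 60 0x32391a90c85c86484b465721acd4e484c86445c8642643212d486290c85190c8548e428b91488c90990a68c86a95cacd46ba9991cad48642a435390c85568c86426435390c8556a4321521a9c861ad135a
    2684354560 107374183 (-421657427) 140552477 3513811903 140552477 = 1 := by decide +kernel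

theorem c8_95 : go p8 60 0x32190c84b90c32425a9217244d190c86172186450b52290b90c85a2e432285c8619215212d48a42e432168c90a9099142e432152132190a9096a432172190b45a
    2254857832 107374183 281104953 281104953 3654364379 281104953 = 1 := by decide +kernel

theorem c8_310 : go p8 60 0x32190b90c8549099212999148644cc86432146452290c8532e486428c86472345a2e432172190a92132425332390a92188c90c85172446488b45a
    3221225472 214748365 562209905 562209905 3935469331 562209905 = 1 := by decide +kernel

theorem c8_129 : go p8 60 0x32190991c8ca91c8cc8e465291484c8e44548e466472329390c84c8a42548e431990c85c8642ca5218643212a47233218e4319499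
    1503238554 214748365 (-281104951) 281104953 5340994091 281104953 = 1 := by decide +kernel

theorem c8_304 : go p8 60 0x32190b90c85a90c90972190c88b46432192145c86426432190a2d486485190c85486468b9148e485a3239216a43217219212d168b
    2684354560 107374183 421657429 140552477 3654364379 281104953 = 1 := by decide +kernel

theorem c8_45 : go p8 60 0xc8642e43216a485c90b4643213229097218643212d48642e432168b9217235242e468c8642e432166472329a
    2415919105 53687092 (-421657427) 140552477 3794916855 140552477 = 1 := by decide +kernel

theorem c8_309 : go p8 60 0xc8644643217219132e432232190a90c8996a485486428c8e485a91c8d172190a90c8519217242d48e485a2d1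
    2791728742 214748365 843314857 281104953 4216574283 281104953 = 1 := by decide +kernel

theorem c8_79 : go p8 60 0xc86430b90c84c8a445a90c85c86190c2d190c84c86425c90a9119215222d48642e430c86168b
    2469606196 107374183 983867333 140552477 3092154473 281104953 = 1 := by decide +kernel

theorem c8_254 : go p8 60 0xc8642e426432152190a2e432152132190a90c8996a432132290952190a92146432272190b299
    2845415833 53687092 1616353477 70276239 2740773283 70276239 = 1 := by decide +kernel

theorem c8_225 : go p8 60 0xc8e485a91c90b46432190a72190a90c85490a2d486430b90c32290968b
    2630667469 53687092 (-632486141) 70276239 4076021807 140552477 = 1 := by decide +kernel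

theorem c8_270 : go p8 60 0xdb219094ad90c84b52290c8539148642994ed90a90956c6a4264322721299
    2845415833 53687092 2038010905 70276239 2740773283 70276239 = 1 := by decide +kernel

theorem c8_195 : go p8 60 0xc86a90d55c861aeaaeaaeaacd46baaa
    2791728742 214748365 (-1686629713) 562209905 3654364379 281104953 = 1 := by decide +kernel

theorem c8_73 : go p8 60 0xc86a909aea954351aea
    2469606196 107374183 421657429 140552477 2951601997 140552477 = 1 := by decide +kernel

end Pool.Agent.MP_5cfbf6_gt.P8.KK
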