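import Pool.Agent.MP_5cfbf6_gt.P8.KP8

set_option autoImplicit false

namespace Pool.Agent.MP_5cfbf6_gt.P8.KK

theorem c8_235 : go p8 60 0x32290c85c864451921acd4e48548642e435a35a92132425c86426484b52190a91c8d190c8548642e432168b90c52391a32190c46b68c90990c86b351aea72191190d4e432428d6a452390a32566a722911aeb46b46b
    2684354560 107374183 140552477 140552477 3092154473 281104953 = 1 := by decide +kernel

theorem c8_140 : go p8 60 0xc8a432152191a90c8d392291a32472345a2643242a432352190a7247234647234d12e432190b92291332452265c91c8d192391a2d132190c7245226647234a452172189325a
    885837005 26843546 (-737900498) 35138120 5832927759 70276239 = 1 := by decide +kernel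

theorem c8_259 : go p8 60 0x32190b91191484b90c85c90a32190a9116a450c8617242a446485484b46435484c86135d4e432152190a321909a9c8642a472b46b52190a921464354a8b91c86b52190a35a35a
    2845415833 53687092 1827182191 140552477 2389392093 140552477 = 1 := by decide +kernel

theorem c8_190 : go p8 60 0x32290c85190c8548e468b91486428c8642a472345ab1c8d590b92168c8642e43216a432172190b45c8e46a485c90b46432172190b52190b90c85a2d1
    2362232014 214748365 843314857 281104953 4778784187 281104953 = 1 := by decide +kernel

theorem c8_56 : go p8 60 0xc86430b90c90a9096a485c8642d190c85488c90b90c85a90c8517239216a432146432172190b52191a2d48642643148622e432132291168b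
    2469606196 107374183 (-702762379) 140552477 4216574283 281104953 = 1 := by decide +kernel

theorem c8_99 : go p8 60 0xc8a48519148e468b9213219095239199217242ca66452191232291c8d172391991c90b2a432172190b32190b90c8594ca
    2523293287 53687092 70276239 70276239 3584088141 70276239 = 1 := by decide +kernel

theorem c8_281 : go p8 60 0xc8642643215222e43213229096a432185c8642d190c85486428c8642a432145c86291190c5222d48642e446472228b
    2845415833 53687092 1616353477 70276239 3232706949 140552477 = 1 := by decide +kernel

theorem c8_291 : go p8 60 0x32190c85990d6a432172352191c8d190c8e428b92190a32432145a321ae432aacd66a72190a92188c90d65c909ad1ad1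
    3221225472 214748365 1405524763 281104953 2529944569 281104953 = 1 := by decide +kernel

theorem c8_88 : go p8 60 0x36d90b56c68bb1484c8e425486466484a76390c6a485490a6cab6c8537642e484c85ab2172191190b46452272190a9132d1
    2362232014 214748365 1967734667 281104953 3092154473 281104953 = 1 := by decide +kernel

theorem c8_115 : go p8 60 0xd90d88c86445d90a91486428b2ac85486445c8644643222d59212a45222e484c90952190a68b
    2254857832 107374183 1546077239 140552477 3654364379 281104953 = 1 := by decide +kernel

theorem c8_93 : go p8 60 0xc8642e43216a472146485c8d486428a90c85c8642d486428c8642e46a4321453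
    1825361102 107374183 843314857 281104953 4216574283 281104953 = 1 := by decide +kernel

theorem c8_15 : go p8 60 0xc8e42a555b9156a48e232471172190b52395a521aeaaeaa99
    2147483649 429496730 (-3935469331) 562209905 5059889139 562209905 = 1 := by decide +kernel

theorem c8_196 : go p8 60 0xc8e42a432190b90a324359a9c862ad1
    2791728742 214748365 (-1967734665) 281104953 4216574283 281104953 = 1 := by decide +kernel

end Pool.Agent.MP_5cfbf6_gt.P8.KK
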