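import Pool.Agent.MP_5cfbf6_gt.P8.KP8

set_option autoImplicit false

namespace Pool.Agent.MP_5cfbf6_gt.P8.KK

theorem c8_324 : go p8 60 0x36c52190a764312b642d490b9216932ac9119222a432191332290c8994e485d90b90c8ca3244e43217242d152290c85392132190c84972426432190a2d191486429c90990c88b90c52191168a653
    3006477107 429496730 1124419810 1124419810 5622099044 1124419810 = 1 := by decide +kernel

theorem c8_35 : go p8 60 0x32190a9119217242d486428b90c85488c8e46a432145a90c32285c86190c2d190c85c8642d486428c8642e431a90c8517242e46a432146472b52190a2d48a19142e450c8a168b
    2469606196 107374183 (-1264972285) 140552477 4216574283 281104953 = 1 := by decide +kernel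

theorem c8_292 : go p8 60 0xc86290c85c8d190c89c9099222e484c90968c8642e46a43242cc86432265c90c85992190a2d172190b90c9097219212d190c8548e431486429991c8a44ca2d1
    3221225472 214748365 1405524763 281104953 3092154473 281104953 = 1 := by decide +kernel

theorem c8_155 : go p8 60 0x32190a90c85290c8548642939213242549099212949099212a432232191149990c8548948642a432149c90991a90c85290c88c91152426485a4ca
    966367642 107374183 (-843314855) 281104953 6605966377 140552477 = 1 := by decide +kernel

theorem c8_36 : go p8 60 0xc86390a91c85190c85484b90c85486232190a9116a485484c86445c86291190c84b46432152232186a72190a911ad48642e432166430d68a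
    1932735284 214748365 (-562209903) 562209905 3654364379 281104953 = 1 := by decide +kernel

theorem c8_237 : go p8 60 0x3219212e484c9096a452232190a90c8d172290c8d190c85490b90c85a2d192132425c909ad48642a47218d190ca8d4e432190a35d68b
    2630667469 53687092 351381191 70276239 3232706949 140552477 = 1 := by decide +kernel

theorem c8_43 : go p8 60 0x32290990c89484b90c85484c8e46a445a90c85c8642d190c85484c8642a425c8642a426432b5222d48642e432168b
    2254857832 107374183 (-140552475) 140552477 3654364379 281104953 = 1 := by decide +kernel

theorem c8_163 : go p8 60 0xc86291191488b90c84c8a425a90c85486190a72190a9212d191484c8a425c8642cc8642a43214e4321652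
    1932735284 214748365 (-1686629713) 562209905 4778784187 281104953 = 1 := by decide +kernel

theorem c8_161 : go p8 60 0xc8642a43214a484c90952426484a4e432332191952191990c88a5229216645242ca91490b322919499
    1503238554 214748365 (-843314855) 281104953 6465413901 281104953 = 1 := by decide +kernel

theorem c8_33 : go p8 60 0x32190b90c85a90c85190c85c8642d486428b90c85c86352190a32190b90d6a432145a
    2254857832 107374183 (-1405524761) 281104953 4216574283 281104953 = 1 := by decide +kernel

theorem c8_19 : go p8 60 0xc8a485c85390c85486190c84a66486428c8643148642896a488c90c45c8642d2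
    2362232014 214748365 (-2811049521) 562209905 5340994091 281104953 = 1 := by decide +kernel

theorem c8_231 : go p8 60 0xc86485190c52392168b90c86428c8a485c90b45a
    2899102924 107374183 (-281104951) 281104953 4216574283 281104953 = 1 := by decide +kernel

theorem c8_209 : go p8 60 0x32290c85c86346486b35392390a35a
    2899102924 107374183 (-843314855) 281104953 3654364379 281104953 = 1 := by decide +kernel

end Pool.Agent.MP_5cfbf6_gt.P8.KK
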