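import Pool.Agent.MP_5cfbf6_gt.P8.KP8

set_option autoImplicit false

namespace Pool.Agent.MP_5cfbf6_gt.P8.KK

theorem c8_102 : go p8 60 0xc90990c8ca91c90b32190b90c8594e485c90b3242e43218595219212e43223219116a432190972190a91488b45a9215223219216a48517239216a432146432172186430b52191a2d1
    2469606196 107374183 421657429 140552477 3513811903 140552477 = 1 := by decide +kernel

theorem c8_197 : go p8 60 0x3218a43217228a47246d991c52392429b92152429c90a9214db92152429c90a9214dc90a6cb3229145238994645148a471490a92152429c90a9136e45227236c992135d4e484c85568b
    2684354560 107374183 (-1546077237) 140552477 4216574283 281104953 = 1 := by decide +kernel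

theorem c8_166 : go p8 60 0xc8646a432146432185c8645212d490b92168b9217242d486468c86191484b90c3229116a432172191345a91488c8646a445c8642a446472352190a2d1
    2362232014 214748365 (-1405524761) 281104953 4778784187 281104953 = 1 := by decide +kernel

theorem c8_48 : go p8 60 0x32391a90c85190c7218d486428b91c8d486428c8e46a432145a90c32185c86190c2d191c8d490a32190a91172390a9119215222d486190b90c32168b
    2415919105 53687092 (-70276237) 70276239 3513811903 140552477 = 1 := by decide +kernel

theorem c8_284 : go p8 60 0xc8642e431a90c85191485c8642cb91c8d486428c8642a43116a430c86172186430b46431484c8a425c8a426485484b52190c2e432168b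
    2845415833 53687092 1756905953 70276239 2951601997 140552477 = 1 := by decide +kernel

theorem c8_12 : go p8 60 0x3242a29144e485c86429c8629134643227242d29215223219212a485172426485a90c90b3219212d35218a47214e4321693
    1503238554 214748365 (-3935469331) 562209905 6184308949 562209905 = 1 := by decide +kernel

theorem c8_50 : go p8 60 0x32190a91c8d190c8548622e47242d486428c8e56a48516a432172190b3218e431952190b90c84a72391990c84a92132b4d1
    2523293287 53687092 (-70276237) 70276239 3443535665 70276239 = 1 := by decide +kernel

theorem c8_62 : go p8 60 0x3643215222ad8e42548e42a43114ec86156290990c29990c85488c8a42548642a446452129c86190a90c3214ca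
    1503238554 214748365 1686629715 562209905 3092154473 281104953 = 1 := by decide +kernel

theorem c8_63 : go p8 60 0x32190a90c85390c85489990c85486429c8642a43214ca90c52272291332190a9214e485490a653
    1073741824 214748365 562209905 562209905 3935469331 562209905 = 1 := by decide +kernel

theorem c8_23 : go p8 60 0xc90a90c8d190c90a32190b90d68a90d7554e432152190a72190a90c85352191a90d4e485486568d69486aaeaa99
    3435973837 858993460 (-5622099044) 1124419810 5622099044 1124419810 = 1 := by decide +kernel

theorem c8_68 : go p8 60 0xc86190c2e430c8a16a432346430d72135391432a85c8642a426b5218e435a35a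
    2254857832 107374183 281104953 281104953 3092154473 281104953 = 1 := by decide +kernel

theorem c8_303 : go p8 60 0x32190c84b9215229116a484c8a432345c8644648548e485a2d1
    2684354560 107374183 140552477 140552477 3794916855 140552477 = 1 := by decide +kernel

theorem c8_201 : go p8 60 0x32431192135390c55a
    3221225472 214748365 (-1686629713) 562209905 3935469331 562209905 = 1 := by decide +kernel

theorem c8_185 : go p8 60 0xd
    1288490189 429496730 1686629715 562209905 6184308949 562209905 = 1 := by decide +kernel

end Pool.Agent.MP_5cfbf6_gt.P8.KK
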