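import Pool.Agent.MP_5cfbf6_gt.P8.KP8

set_option autoImplicit false

namespace Pool.Agent.MP_5cfbf6_gt.P8.KK

theorem c8_127 : go p8 60 0xc8642645212a45213219094a430c86425486426432129390c32190952190990c84a52190a90c85266432132190952190a5218642a432149c8642643212a43213214a432152190a4ca
    1503238554 214748365 (-562209903) 562209905 4778784187 281104953 = 1 := by decide +kernel

theorem c8_55 : go p8 60 0xc8642643215222e45213239216a432145a90c86172190c2d192172190b52190a32190b90c85a91c85172190b90c85a90c85190c85c8642d486428b52290991484b91484c8a168b
    2469606196 107374183 (-983867331) 140552477 4216574283 281104953 = 1 := by decide +kernel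

theorem c8_272 : go p8 60 0x36db6356428d8ac8592d3b219095642ac46431488a76588a90d90a32190c8594cd90ab2146472352190a2e432152190a32190a90c8516a436428c86432165c90a90c85191486428b45a
    2952790015 53687092 2108287143 140552477 2670497045 140552477 = 1 := by decide +kernel

theorem c8_66 : go p8 60 0xc86391a91c8d191c8d486428a91490a72232190b90c8514e432152232290952290991484a66432152190a321ae4359722909ad48a190c7212a57554ca90d75575486aaab353
    1932735284 214748365 562209905 562209905 2811049521 562209905 = 1 := by decide +kernel

theorem c8_286 : go p8 60 0x32190c85990c85a90c85486390c68c8642a472145c8642a472146452190a2d190c85490992129c86431191488b90c84c8642a485968b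
    2952790015 53687092 1756905953 70276239 2951601997 140552477 = 1 := by decide +kernel

theorem c8_241 : go p8 60 0xc86484a90c8d486468b90c8d48a485a3242e43216a43217242643214d16a432352390c68c86426a72190b90d6a4321721909ad1ad3
    2630667469 53687092 702762381 140552477 3092154473 281104953 = 1 := by decide +kernel

theorem c8_32 : go p8 60 0xc8a44e42a45227214e432189991c8e46cc8642ca95575486135d4e432172152190b95caca35a91c8d486428cae426a72395a90c851ad1
    2362232014 214748365 (-1967734665) 281104953 4216574283 281104953 = 1 := by decide +kernel

theorem c8_222 : go p8 60 0xc86431491c85172190c4d190c86431490990a7242d490990c85a66486290c4ca2e47242e42a43217214ca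
    2738041651 53687092 (-983867331) 140552477 4076021807 140552477 = 1 := by decide +kernel

theorem c8_108 : go p8 60 0xc8642a432172190b46432132190b52190b90c68b90c32290952391a32190b90c85a92172190b45a
    2469606196 107374183 843314857 281104953 4216574283 281104953 = 1 := by decide +kernel

theorem c8_158 : go p8 60 0x32390c6a432252429990c85c8642d48a44a43214ca90c8d48e468c8e43216a432152190a653
    1181116006 107374183 (-281104951) 281104953 6465413901 281104953 = 1 := by decide +kernel

theorem c8_293 : go p8 60 0x32391485990d6a43217235219119212e432168c86a921351adc86291cad1ad1
    3113851290 107374183 1827182191 140552477 2389392093 140552477 = 1 := by decide +kernel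

theorem c8_317 : go p8 60 0xc86c86484b4648a452264a90c86291486272190b44c91490b95a253
    3865470567 429496730 1124419810 1124419810 3373259426 1124419810 = 1 := by decide +kernel

theorem c8_67 : go p8 60 0xc861ae4359aabaa435486b35d46a
    2362232014 214748365 562209905 562209905 2529944569 281104953 = 1 := by decide +kernel

theorem c8_112 : go p8 60 0xd
    1932735284 214748365 1967734667 281104953 3654364379 281104953 = 1 := by decide +kernel

end Pool.Agent.MP_5cfbf6_gt.P8.KK
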