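import Pool.Agent.MP_5cfbf6_gt.P8.KP8

set_option autoImplicit false

namespace Pool.Agent.MP_5cfbf6_gt.P8.KK

theorem c8_170 : go p8 60 0xc90b90c85a90c85c86445392132425486426484a6a432232291952191990c88a52391991c8ca9148cc86445266432152190a7218a431352190990c84a90c85290c84c90952190a4ca
    1932735284 214748365 (-562209903) 562209905 5340994091 281104953 = 1 := by decide +kernel

theorem c8_165 : go p8 60 0xc8642e43216a485c90b46431484c8644e429c8644cc8e452366432165390c85488c8e46a432145991c8548642e472328c8642e42a432172391145c8e42647212a472352190a2ca
    2362232014 214748365 (-1967734665) 281104953 4778784187 281104953 = 1 := by decide +kernel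

theorem c8_151 : go p8 60 0xc8a44e485490a66432429486485272290c86445291490990c90a2932a45227242a48533219214a432429392152426432191a29490a921321923452653
    966367642 107374183 (-281104951) 281104953 5903203997 281104953 = 1 := by decide +kernel

theorem c8_282 : go p8 60 0xc8642e485a92132190c45c90990c88b4643233246548a432146452190a2e432188c86431168b9217215219212e432168c8642e46a484c90972190b45a
    2952790015 53687092 1546077239 140552477 3232706949 140552477 = 1 := by decide +kernel

theorem c8_160 : go p8 60 0x3242643212a43213219114a43213219095229199148ca4e432132190952291991c8642ca52190990c84a91c90b32190b90c859499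
    1503238554 214748365 (-281104951) 281104953 5903203997 281104953 = 1 := by decide +kernel

theorem c8_247 : go p8 60 0xc8a472246431486484b90c85a3218a452190b32190b45c86432172346432190b95a2d190d721aa484d751acd4e472152190c851921a8b92235a35a
    3221225472 214748365 562209905 562209905 2811049521 562209905 = 1 := by decide +kernel

theorem c8_38 : go p8 60 0xc8642643212a47213242e425391484c8646a42548642e46a472345a90c84c86425486190a522911921522299
    1932735284 214748365 (-281104951) 281104953 4216574283 281104953 = 1 := by decide +kernel

theorem c8_305 : go p8 60 0xc8644e485c90b46432172190b5219212e432425a2e472352190b90c90968c8642e46a484c90972426484b45a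
    2899102924 107374183 281104953 281104953 3654364379 281104953 = 1 := by decide +kernel

theorem c8_89 : go p8 60 0x32391990c84a91c90b52190a2e47242d486428c8642a452145a90c85488c8a42548a4264521299
    1932735284 214748365 281104953 281104953 3654364379 281104953 = 1 := by decide +kernel

theorem c8_83 : go p8 60 0x36c85c8642642d590a90c8532ad90c29c8642a43214e4321522653b642a44ec522655b2185a92172352391a299
    1932735284 214748365 1967734667 281104953 3092154473 281104953 = 1 := by decide +kernel

theorem c8_280 : go p8 60 0x32190c84b90c85a90c85c8642d190c84c86425c8642d48642e432168b
    2845415833 53687092 1475801001 70276239 3232706949 140552477 = 1 := by decide +kernel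

theorem c8_71 : go p8 60 0x3242e485991c8ca90c84d75390c85575a91c85486428cae426a721909aeb46b
    2523293287 53687092 70276239 70276239 3232706949 140552477 = 1 := by decide +kernel

theorem c8_325 : go p8 60 0x36488ab2452190a653
    3865470567 429496730 1124419810 1124419810 5622099044 1124419810 = 1 := by decide +kernel

theorem c8_192 : go p8 60 0xd
    2147483649 429496730 1686629715 562209905 5059889139 562209905 = 1 := by decide +kernel

end Pool.Agent.MP_5cfbf6_gt.P8.KK
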