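import Pool.Agent.MP_5cfbf6_gt.P8.KP8

set_option autoImplicit false

namespace Pool.Agent.MP_5cfbf6_gt.P8.KK

theorem c8_219 : go p8 60 0xc8a19142e450c8a16e450c8a172286450b6e450c8a172286450b72286450b91432285b6e431191432285c8a19142dc8a19142e430c8616dc8e391b72188b91489c8e152291390c29a
    2657511015 26843546 (-1054143569) 70276239 4005745569 70276239 = 1 := by decide +kernel

theorem c8_250 : go p8 60 0xc8642e431a90c84c91172426484b46435c951acd4e472152190b90d68d6a432232290c45c8642643212d48a446431486428b90c84c8a445a32a90d464321351aea7219212e435a90c84c86425c86b46b46b
    2899102924 107374183 1264972287 140552477 2529944569 281104953 = 1 := by decide +kernel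

theorem c8_53 : go p8 60 0x32190b9217242ca90c86445c90990c88b5242a43213242d390c8548642e432129a2e485c90b52191a32186485488b91484c8642a445a90c85c86430b459
    2469606196 107374183 (-70276237) 70276239 3794916855 140552477 = 1 := by decide +kernel

theorem c8_120 : go p8 60 0x32190a90c4a43215214e484c85486252190a90c49990c85486429c86290c8532a43148948642a431272190a90a90c89332290b90c85a90c854862653
    1503238554 214748365 (-1686629713) 562209905 5059889139 562209905 = 1 := by decide +kernel

theorem c8_13 : go p8 60 0xc8642a431291485390c72352390a52190a91266452252190a72190a90c4a43214ca90c52272190a91332485290c853921521912653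
    1073741824 214748365 (-2811049521) 562209905 6184308949 562209905 = 1 := by decide +kernel

theorem c8_203 : go p8 60 0x32190990c84a90c84c85390c84c8a15229116a432152232290972290991484b46432135486a35d4e43228d486a72290aad48a426435390c35a35a
    2630667469 53687092 (-983867331) 140552477 3794916855 140552477 = 1 := by decide +kernel

theorem c8_87 : go p8 60 0xc8642e431a90c85c8642d190c8548642e432168b91c8642d48619212e484c85a32190b90c85a90c72190b45a
    2469606196 107374183 1405524763 281104953 3092154473 281104953 = 1 := by decide +kernel

theorem c8_113 : go p8 60 0xdb6432132190972190b295b2152291172190991488b5218643212e430c86168a76c8642e4652b2190b90c85a91c8d14ca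
    1932735284 214748365 1686629715 562209905 4216574283 281104953 = 1 := by decide +kernel

theorem c8_295 : go p8 60 0x32190c85990c85a90c8548e468c8642a472145c86290c8519148622d190c85c86b52290c46432b2e484d68b
    3060164199 53687092 2038010905 70276239 2389392093 140552477 = 1 := by decide +kernel

theorem c8_266 : go p8 60 0xdb219094ac85c8a4453b642a425486190c29992132425c86484b52190990c84b90c32190968b
    2845415833 53687092 2178563381 70276239 2389392093 140552477 = 1 := by decide +kernel

theorem c8_168 : go p8 60 0x32190a90c32285390c8548e42a432145a90c84c90952190a5242642a4321499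
    1932735284 214748365 (-843314855) 281104953 4778784187 281104953 = 1 := by decide +kernel

theorem c8_143 : go p8 60 0x3242643222a4322324452921324454911922293
    1020054733 53687092 (-702762379) 140552477 5762651521 140552477 = 1 := by decide +kernel

theorem c8_299 : go p8 60 0x32391290c85c86429c86290c4d1
    3328599654 107374183 1967734667 281104953 2529944569 281104953 = 1 := by decide +kernel

end Pool.Agent.MP_5cfbf6_gt.P8.KK
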