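import Pool.Agent.MP_5cfbf6_gt.P8.KP8

set_option autoImplicit false

namespace Pool.Agent.MP_5cfbf6_gt.P8.KK

theorem c8_261 : go p8 60 0xc8642e42647235222e432172132391a9116a430c86172191484b46472352232290b90c85172391a90c89990c8d48e485a2d490a90990c85490a2e432352190a32390c85a90c8d168b
    2845415833 53687092 1756905953 70276239 2670497045 140552477 = 1 := by decide +kernel

theorem c8_208 : go p8 60 0x32190a91490a32190a90c85172291390c85486429946452152190a9214643214e452172190a9214ca2e452190b91a9148948629224548a44a452229932291cad48a291488a95555325a
    2738041651 53687092 (-702762379) 140552477 3794916855 140552477 = 1 := by decide +kernel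

theorem c8_72 : go p8 60 0x3242e48599217242ca90c85c8642d48642e432168b92172190b3242e43216548642643212ab6a432352428c8e46a445c8e46a432146455c90a2d190c84d754ae1a8d753
    2523293287 53687092 210828715 70276239 3232706949 140552477 = 1 := by decide +kernel

theorem c8_94 : go p8 60 0x32190990c84b90c32185a90c85c8642d190c85c8642d48642e432168a90c84c8a445c8642643212d486190c2e432168c8642e43216a432172190b453
    2040109466 107374183 843314857 281104953 4216574283 281104953 = 1 := by decide +kernel

theorem c8_306 : go p8 60 0x32190b90c85a9217242d190c32185c86430b52190b90c85a2e432172190b52190b90c85a32190b90c86425a90c90972426452428b45a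
    2684354560 107374183 843314857 281104953 3654364379 281104953 = 1 := by decide +kernel

theorem c8_46 : go p8 60 0xc90b9216a485c90b46432190972190c84b52190990c85390c86268b92172190b5242e468c8643212e43216a432172190b45a
    2523293287 53687092 (-421657427) 140552477 3794916855 140552477 = 1 := by decide +kernel

theorem c8_184 : go p8 60 0x36c90952190990c88a76452190a2ac8548a48514cab6c85276d90a4cc8644645222a452232190c84a4e452232291152290990c852653
    1503238554 214748365 562209905 562209905 6184308949 562209905 = 1 := by decide +kernel

theorem c8_114 : go p8 60 0x3244643222e484c9096a452232190a72291190c85346432232425c90990b52190a90c85390c85486268b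
    2254857832 107374183 1264972287 140552477 3654364379 281104953 = 1 := by decide +kernel

theorem c8_54 : go p8 60 0x3242e485a91c8d190c32290972190c2d48642e432168b9217242d48e428c8642e43216a432172345a
    2254857832 107374183 (-843314855) 281104953 4216574283 281104953 = 1 := by decide +kernel

theorem c8_30 : go p8 60 0x32291191488b91484c8a425a90c84c86172190b464521321a9c8642cc8a426426b4a435575486aaea353
    1932735284 214748365 (-1686629713) 562209905 3935469331 562209905 = 1 := by decide +kernel

theorem c8_70 : go p8 60 0xc86190c2e450c8a425a90c72190b464355721acd4e452132186a72186bad48642e435a35a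
    2415919105 53687092 140552477 140552477 3232706949 140552477 = 1 := by decide +kernel

theorem c8_20 : go p8 60 0xc8a44a47215224e431c8d48e44948643214e43216a4723499
    2147483649 429496730 (-3935469331) 562209905 6184308949 562209905 = 1 := by decide +kernel

theorem c8_141 : go p8 60 0x32190b90c85a
    939524097 26843546 (-737900498) 35138120 5832927759 70276239 = 1 := by decide +kernel

theorem c8_271 : go p8 60 0xdb6d8ac45d90b9092d3
    2845415833 53687092 2178563381 70276239 2670497045 140552477 = 1 := by decide +kernel

end Pool.Agent.MP_5cfbf6_gt.P8.KK
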