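import Pool.Agent.MP_5cfbf6_gt.P8.KP8

set_option autoImplicit false

namespace Pool.Agent.MP_5cfbf6_gt.P8.KK

theorem c8_318 : go p8 60 0xc8e42a432190a72431346431490b92168a90c89c90b52290c90b46472152191488b9217244ca2e432391a3218a432152452325c86431345a32390a92132152192172145c8a4313453
    2791728742 214748365 (-1686629713) 562209905 5059889139 562209905 = 1 := by decide +kernel

theorem c8_144 : go p8 60 0x32446484a90c85292232425486429390c89c9119212a490b32445332190b90c85c8d152291c8519222948e46a48e428c91c85172446488b4643148642e468a9148e428c909499
    966367642 107374183 (-983867331) 140552477 6043756473 140552477 = 1 := by decide +kernel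

theorem c8_253 : go p8 60 0xc8646a452429991c8d48642e432168b91c8d48a43214cc8e56a4321721ad16a452190a72191a32190b90c85a91c8d172190b90c85a91c8d190c85c86b52395a2d1
    2845415833 53687092 1616353477 70276239 2600220807 70276239 = 1 := by decide +kernel

theorem c8_206 : go p8 60 0xc8642a432146432152190a2e472352190a32190a90c8516a431484c8642a425c8642a44645212d190c84c85486426a72190c84aad48a426435391484d68b
    2630667469 53687092 (-773038617) 70276239 3794916855 140552477 = 1 := by decide +kernel

theorem c8_128 : go p8 60 0x32391990c8ca90c88c9094a452332191152190990a4e432172190b32190b90c85952390c6643222948e431991c8632a4322321909499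
    1503238554 214748365 (-843314855) 281104953 5340994091 281104953 = 1 := by decide +kernel

theorem c8_224 : go p8 60 0x32190c84b90c86429a92172190c2d190c86152191a90c85172190a90c85191c85486428b5229099215222e452132190a91168b
    2630667469 53687092 (-773038617) 70276239 4076021807 140552477 = 1 := by decide +kernel

theorem c8_17 : go p8 60 0xc90a90c85390c85990c85486430a7229214ca90c32152286484a72190a90c8533218a432146471486430a2d2
    1932735284 214748365 (-2811049521) 562209905 5340994091 281104953 = 1 := by decide +kernel

theorem c8_226 : go p8 60 0xc86472191946432152190c88b9217219214ca2e43218a485486484a64c8a472352291488a9148948a445325a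
    2738041651 53687092 (-702762379) 140552477 4076021807 140552477 = 1 := by decide +kernel

theorem c8_135 : go p8 60 0xc8642a431290c8548624e432232425486429486426484a90c85266452172190b5218a42a45214ca
    1503238554 214748365 (-1686629713) 562209905 5903203997 281104953 = 1 := by decide +kernel

theorem c8_162 : go p8 60 0xc8642a43214a432152426484a4e432172191952191990c8ca5242643212a4322322919499
    1503238554 214748365 (-281104951) 281104953 6465413901 281104953 = 1 := by decide +kernel

theorem c8_74 : go p8 60 0x32390c85a92146472190b52428b90c85c86190b52191a32190b90d6a432b45a
    2415919105 53687092 421657429 140552477 3232706949 140552477 = 1 := by decide +kernel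

theorem c8_302 : go p8 60 0x32192146452392168b91486468c8a432172190b45a
    2738041651 53687092 140552477 140552477 3513811903 140552477 = 1 := by decide +kernel

theorem c8_251 : go p8 60 0x324264321351aea95c86b35486b959a8d751aea
    2899102924 107374183 1546077239 140552477 2389392093 140552477 = 1 := by decide +kernel

theorem c8_4 : go p8 60 0x321aabaaa
    1073741824 214748365 (-3935469331) 562209905 4778784187 281104953 = 1 := by decide +kernel

end Pool.Agent.MP_5cfbf6_gt.P8.KK
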