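import Pool.Agent.MP_5cfbf6_gt.P8.KP8

set_option autoImplicit false

namespace Pool.Agent.MP_5cfbf6_gt.P8.KK

theorem c8_320 : go p8 60 0x32191390c85c8642d192132425c8e490a65290c85c90991488b32190c85390c84c90a90c8516548643214e432232291a91c90b45990c86429c8a43214647235242e432190968b293
    2791728742 214748365 (-562209903) 562209905 5059889139 562209905 = 1 := by decide +kernel

theorem c8_28 : go p8 60 0x32291191488a90c84c86425390c84c8a445486190c84a66432152190a52190a90c85272190a90c4a43242932a432185486450a72190a90c85332190990a90c84d4e4854909521aaa653
    1503238554 214748365 (-562209903) 562209905 3935469331 562209905 = 1 := by decide +kernel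

theorem c8_2 : go p8 60 0xc8e46a47234a431c8d48e569391486429c8a44d48a44e45226948e42a47214e43148626a452a722ad26647218d48642e435a52baaa72291391489a914a9c8ab4a435d5532a575555caeaaeaaab353
    1288490189 429496730 (-5622099044) 1124419810 5622099044 1124419810 = 1 := by decide +kernel

theorem c8_180 : go p8 60 0xc8642a44643215222a432152232190a9114e432132190952186430a6643215223218643212948642a446432152229c8a42643214a43213229094ca
    1503238554 214748365 562209905 562209905 4778784187 281104953 = 1 := by decide +kernel

theorem c8_294 : go p8 60 0xc8e432266432190b2a43217242d490990c88b90c90968c91990c85a90c88c86431172426484b45c8642a432172346432152190b91a2d1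
    3113851290 107374183 1827182191 140552477 2670497045 140552477 = 1 := by decide +kernel

theorem c8_96 : go p8 60 0x3242a42643235222e43235223239216a48516a432172190c2d190c85488c8642a425c8e46a44643215222d48642e432168b
    2415919105 53687092 70276239 70276239 3513811903 140552477 = 1 := by decide +kernel

theorem c8_86 : go p8 60 0xc90990b9213216a432232172190990b46472190b5218e468b90c85c86430b5242642e431a32190b90c88a91c90b45a
    2254857832 107374183 1405524763 281104953 3092154473 281104953 = 1 := by decide +kernel

theorem c8_173 : go p8 60 0x32190c84b90c86425a90c85490b92129c8642a43214d190c86445c90990c84b5218a43212e432290968a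
    2362232014 214748365 (-562209903) 562209905 5340994091 281104953 = 1 := by decide +kernel

theorem c8_217 : go p8 60 0xc8e42a432425c86484b46472152426484b92132425a2e431486484b90c85a3218a4321521a9c86b45a
    2899102924 107374183 (-281104951) 281104953 3654364379 281104953 = 1 := by decide +kernel

theorem c8_322 : go p8 60 0xc8a43214e432152190a52291c8d19217242d266485c90b52190a9129217242d490b91a4ca
    3006477107 429496730 (-1124419808) 1124419810 6184308949 562209905 = 1 := by decide +kernel

theorem c8_215 : go p8 60 0x3242a485c90b4648548642e432328b90c85490b90c85a32195a90c85c86b45a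
    2738041651 53687092 (-140552475) 140552477 3513811903 140552477 = 1 := by decide +kernel

theorem c8_6 : go p8 60 0xc8a44e432190b52190d69a91489c8643216a432b4d1
    1073741824 214748365 (-3654364379) 281104953 5340994091 281104953 = 1 := by decide +kernel

theorem c8_321 : go p8 60 0x3244643219132e488c86472145a
    3221225472 214748365 (-562209903) 562209905 5059889139 562209905 = 1 := by decide +kernel

end Pool.Agent.MP_5cfbf6_gt.P8.KK
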