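import Pool.Agent.MP_5cfbf6_gt.P8.KS
import Pool.Agent.MP_5cfbf6_gt.P8.K800
import Pool.Agent.MP_5cfbf6_gt.P8.K801
import Pool.Agent.MP_5cfbf6_gt.P8.K802
import Pool.Agent.MP_5cfbf6_gt.P8.K803
import Pool.Agent.MP_5cfbf6_gt.P8.K804
import Pool.Agent.MP_5cfbf6_gt.P8.K805
import Pool.Agent.MP_5cfbf6_gt.P8.K806
import Pool.Agent.MP_5cfbf6_gt.P8.K807
import Pool.Agent.MP_5cfbf6_gt.P8.K808
import Pool.Agent.MP_5cfbf6_gt.P8.K809
import Pool.Agent.MP_5cfbf6_gt.P8.K810
import Pool.Agent.MP_5cfbf6_gt.P8.K811
import Pool.Agent.MP_5cfbf6_gt.P8.K812
import Pool.Agent.MP_5cfbf6_gt.P8.K813
import Pool.Agent.MP_5cfbf6_gt.P8.K814
import Pool.Agent.MP_5cfbf6_gt.P8.K815
import Pool.Agent.MP_5cfbf6_gt.P8.K816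
import Pool.Agent.MP_5cfbf6_gt.P8.K817
import Pool.Agent.MP_5cfbf6_gt.P8.K818
import Pool.Agent.MP_5cfbf6_gt.P8.K819
import Pool.Agent.MP_5cfbf6_gt.P8.K820
import Pool.Agent.MP_5cfbf6_gt.P8.K821
import Pool.Agent.MP_5cfbf6_gt.P8.K822
import Pool.Agent.MP_5cfbf6_gt.P8.K823

set_option autoImplicit false

namespace Pool.Agent.MP_5cfbf6_gt.P8.KK

theorem ok8 {L : List Chk} {b s : ℝ} (H : Good p8 L b s) :
    Ok L b s 2576980378 1717986919 (-2248839617) 4497679237 4497679235 2248839619 :=
  (.s2 (-4497679235) 1 2248839619 (by decide)
   (.s1 1717986919 3435973837 858993460 (by decide)
    (.s3 3373259426 5622099044 1124419810 (by decide)
     (ok_go H c8_1)
     (.s2 (-5622099044) (-3373259426) 1124419810 (by decide)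
      (.s1 1288490189 2147483649 429496730 (by decide)
       (ok_go H c8_2)
       (ok_go H c8_3))
      (.s1 1288490189 2147483649 429496730 (by decide)
       (.s3 5059889139 6184308949 562209905 (by decide)
        (.s2 (-3935469331) (-2811049521) 562209905 (by decide)
         (.s1 1073741824 1503238554 214748365 (by decide)
          (.s3 4778784187 5340994091 281104953 (by decide)
           (ok_go H c8_4)
           (.s2 (-4216574283) (-3654364379) 281104953 (by decide)
            (ok_go H c8_5)
            (ok_go H c8_6)))
          (ok_go H c8_7))
         (ok_go H c8_8))
        (.s2 (-3935469331) (-2811049521) 562209905 (by decide)
         (.s1 1073741824 1503238554 214748365 (by decide)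
          (.s3 5903203997 6465413901 281104953 (by decide)
           (.s2 (-4216574283) (-3654364379) 281104953 (by decide)
            (ok_go H c8_9)
            (ok_go H c8_10))
           (ok_go H c8_11))
          (ok_go H c8_12))
         (.s1 1073741824 1503238554 214748365 (by decide)
          (ok_go H c8_13)
          (ok_go H c8_14))))
       (.s3 5059889139 6184308949 562209905 (by decide)
        (.s2 (-3935469331) (-2811049521) 562209905 (by decide)
         (ok_go H c8_15)
         (.s1 1932735284 2362232014 214748365 (by decide)
          (.s3 4778784187 5340994091 281104953 (by decide)
           (ok_go H c8_16)
           (ok_go H c8_17))
          (.s3 4778784187 5340994091 281104953 (by decide)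
           (ok_go H c8_18)
           (ok_go H c8_19))))
        (.s2 (-3935469331) (-2811049521) 562209905 (by decide)
         (ok_go H c8_20)
         (ok_go H c8_21))))))
    (.s3 3373259426 5622099044 1124419810 (by decide)
     (ok_go H c8_22)
     (.s2 (-5622099044) (-3373259426) 1124419810 (by decide)
      (ok_go H c8_23)
      (ok_go H c8_24))))
   (.s1 1717986919 3435973837 858993460 (by decide)
    (.s3 3373259426 5622099044 1124419810 (by decide)
     (.s2 (-1124419808) 1124419810 1124419810 (by decide)
      (.s1 1288490189 2147483649 429496730 (by decide)
       (.s3 2811049521 3935469331 562209905 (by decide)
        (ok_go H c8_25)
        (.s2 (-1686629713) (-562209903) 562209905 (by decide)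
         (ok_go H c8_26)
         (.s1 1073741824 1503238554 214748365 (by decide)
          (ok_go H c8_27)
          (ok_go H c8_28))))
       (.s3 2811049521 3935469331 562209905 (by decide)
        (ok_go H c8_29)
        (.s2 (-1686629713) (-562209903) 562209905 (by decide)
         (.s1 1932735284 2362232014 214748365 (by decide)
          (ok_go H c8_30)
          (.s3 3654364379 4216574283 281104953 (by decide)
           (ok_go H c8_31)
           (.s2 (-1967734665) (-1405524761) 281104953 (by decide)
            (ok_go H c8_32)
            (.s1 2254857832 2469606196 107374183 (by decide)
             (ok_go H c8_33)
             (.s2 (-1546077237) (-1264972285) 140552477 (by decide)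
              (ok_go H c8_34)
              (ok_go H c8_35))))))
         (.s1 1932735284 2362232014 214748365 (by decide)
          (.s3 3654364379 4216574283 281104953 (by decide)
           (ok_go H c8_36)
           (.s2 (-843314855) (-281104951) 281104953 (by decide)
            (ok_go H c8_37)
            (ok_go H c8_38)))
          (.s3 3654364379 4216574283 281104953 (by decide)
           (.s2 (-843314855) (-281104951) 281104953 (by decide)
            (.s1 2254857832 2469606196 107374183 (by decide)
             (ok_go H c8_39)
             (.s2 (-983867331) (-702762379) 140552477 (by decide)
              (ok_go H c8_40)
              (ok_go H c8_41)))
            (.s1 2254857832 2469606196 107374183 (by decide)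
             (.s2 (-421657427) (-140552475) 140552477 (by decide)
              (ok_go H c8_42)
              (ok_go H c8_43))
             (.s2 (-421657427) (-140552475) 140552477 (by decide)
              (.s3 3513811903 3794916855 140552477 (by decide)
               (ok_go H c8_44)
               (.s1 2415919105 2523293287 53687092 (by decide)
                (ok_go H c8_45)
                (ok_go H c8_46)))
              (.s3 3513811903 3794916855 140552477 (by decide)
               (.s1 2415919105 2523293287 53687092 (by decide)
                (.s2 (-210828713) (-70276237) 70276239 (by decide)
                 (ok_go H c8_47)
                 (ok_go H c8_48))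
                (.s2 (-210828713) (-70276237) 70276239 (by decide)
                 (ok_go H c8_49)
                 (.s3 3443535665 3584088141 70276239 (by decide)
                  (ok_go H c8_50)
                  (ok_go H c8_51))))
               (.s2 (-210828713) (-70276237) 70276239 (by decide)
                (ok_go H c8_52)
                (ok_go H c8_53))))))
           (.s2 (-843314855) (-281104951) 281104953 (by decide)
            (.s1 2254857832 2469606196 107374183 (by decide)
             (ok_go H c8_54)
             (.s2 (-983867331) (-702762379) 140552477 (by decide)
              (ok_go H c8_55)
              (ok_go H c8_56)))
            (.s1 2254857832 2469606196 107374183 (by decide)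
             (ok_go H c8_57)
             (ok_go H c8_58))))))))
      (.s1 1288490189 2147483649 429496730 (by decide)
       (.s3 2811049521 3935469331 562209905 (by decide)
        (.s2 562209905 1686629715 562209905 (by decide)
         (ok_go H c8_59)
         (.s1 1073741824 1503238554 214748365 (by decide)
          (ok_go H c8_60)
          (.s3 2529944569 3092154473 281104953 (by decide)
           (ok_go H c8_61)
           (ok_go H c8_62))))
        (.s2 562209905 1686629715 562209905 (by decide)
         (.s1 1073741824 1503238554 214748365 (by decide)
          (ok_go H c8_63)
          (ok_go H c8_64))
         (ok_go H c8_65)))
       (.s3 2811049521 3935469331 562209905 (by decide)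
        (.s2 562209905 1686629715 562209905 (by decide)
         (.s1 1932735284 2362232014 214748365 (by decide)
          (ok_go H c8_66)
          (.s3 2529944569 3092154473 281104953 (by decide)
           (ok_go H c8_67)
           (.s2 281104953 843314857 281104953 (by decide)
            (.s1 2254857832 2469606196 107374183 (by decide)
             (ok_go H c8_68)
             (.s2 140552477 421657429 140552477 (by decide)
              (.s3 2951601997 3232706949 140552477 (by decide)
               (ok_go H c8_69)
               (.s1 2415919105 2523293287 53687092 (by decide)
                (ok_go H c8_70)
                (.s2 70276239 210828715 70276239 (by decide)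
                 (ok_go H c8_71)
                 (ok_go H c8_72))))
              (.s3 2951601997 3232706949 140552477 (by decide)
               (ok_go H c8_73)
               (.s1 2415919105 2523293287 53687092 (by decide)
                (ok_go H c8_74)
                (.s2 351381191 491933667 70276239 (by decide)
                 (ok_go H c8_75)
                 (ok_go H c8_76))))))
            (.s1 2254857832 2469606196 107374183 (by decide)
             (ok_go H c8_77)
             (.s2 702762381 983867333 140552477 (by decide)
              (ok_go H c8_78)
              (ok_go H c8_79))))))
         (.s1 1932735284 2362232014 214748365 (by decide)
          (.s3 2529944569 3092154473 281104953 (by decide)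
           (.s2 1405524763 1967734667 281104953 (by decide)
            (ok_go H c8_80)
            (ok_go H c8_81))
           (.s2 1405524763 1967734667 281104953 (by decide)
            (ok_go H c8_82)
            (ok_go H c8_83)))
          (.s3 2529944569 3092154473 281104953 (by decide)
           (.s2 1405524763 1967734667 281104953 (by decide)
            (ok_go H c8_84)
            (ok_go H c8_85))
           (.s2 1405524763 1967734667 281104953 (by decide)
            (.s1 2254857832 2469606196 107374183 (by decide)
             (ok_go H c8_86)
             (ok_go H c8_87))
            (ok_go H c8_88)))))
        (.s2 562209905 1686629715 562209905 (by decide)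
         (.s1 1932735284 2362232014 214748365 (by decide)
          (.s3 3654364379 4216574283 281104953 (by decide)
           (.s2 281104953 843314857 281104953 (by decide)
            (ok_go H c8_89)
            (.s1 1825361102 2040109466 107374183 (by decide)
             (ok_go H c8_90)
             (ok_go H c8_91)))
           (.s2 281104953 843314857 281104953 (by decide)
            (ok_go H c8_92)
            (.s1 1825361102 2040109466 107374183 (by decide)
             (ok_go H c8_93)
             (ok_go H c8_94))))
          (.s3 3654364379 4216574283 281104953 (by decide)
           (.s2 281104953 843314857 281104953 (by decide)
            (.s1 2254857832 2469606196 107374183 (by decide)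
             (ok_go H c8_95)
             (.s2 140552477 421657429 140552477 (by decide)
              (.s3 3513811903 3794916855 140552477 (by decide)
               (.s1 2415919105 2523293287 53687092 (by decide)
                (.s2 70276239 210828715 70276239 (by decide)
                 (ok_go H c8_96)
                 (ok_go H c8_97))
                (.s2 70276239 210828715 70276239 (by decide)
                 (.s3 3443535665 3584088141 70276239 (by decide)
                  (ok_go H c8_98)
                  (ok_go H c8_99))
                 (ok_go H c8_100)))
               (ok_go H c8_101))
              (.s3 3513811903 3794916855 140552477 (by decide)
               (ok_go H c8_102)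
               (ok_go H c8_103))))
            (.s1 2254857832 2469606196 107374183 (by decide)
             (ok_go H c8_104)
             (ok_go H c8_105)))
           (.s2 281104953 843314857 281104953 (by decide)
            (ok_go H c8_106)
            (.s1 2254857832 2469606196 107374183 (by decide)
             (ok_go H c8_107)
             (ok_go H c8_108)))))
         (.s1 1932735284 2362232014 214748365 (by decide)
          (.s3 3654364379 4216574283 281104953 (by decide)
           (.s2 1405524763 1967734667 281104953 (by decide)
            (.s1 1825361102 2040109466 107374183 (by decide)
             (ok_go H c8_109)
             (.s3 3513811903 3794916855 140552477 (by decide)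
              (ok_go H c8_110)
              (ok_go H c8_111)))
            (ok_go H c8_112))
           (ok_go H c8_113))
          (.s3 3654364379 4216574283 281104953 (by decide)
           (.s2 1405524763 1967734667 281104953 (by decide)
            (.s1 2254857832 2469606196 107374183 (by decide)
             (.s2 1264972287 1546077239 140552477 (by decide)
              (ok_go H c8_114)
              (ok_go H c8_115))
             (ok_go H c8_116))
            (ok_go H c8_117))
           (ok_go H c8_118)))))))
     (.s2 (-1124419808) 1124419810 1124419810 (by decide)
      (.s1 1288490189 2147483649 429496730 (by decide)
       (.s3 5059889139 6184308949 562209905 (by decide)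
        (.s2 (-1686629713) (-562209903) 562209905 (by decide)
         (.s1 1073741824 1503238554 214748365 (by decide)
          (ok_go H c8_119)
          (ok_go H c8_120))
         (.s1 1073741824 1503238554 214748365 (by decide)
          (.s3 4778784187 5340994091 281104953 (by decide)
           (ok_go H c8_121)
           (.s2 (-843314855) (-281104951) 281104953 (by decide)
            (.s1 966367642 1181116006 107374183 (by decide)
             (.s3 5200441615 5481546567 140552477 (by decide)
              (ok_go H c8_122)
              (.s2 (-983867331) (-702762379) 140552477 (by decide)
               (ok_go H c8_123)
               (ok_go H c8_124)))
             (ok_go H c8_125))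
            (ok_go H c8_126)))
          (.s3 4778784187 5340994091 281104953 (by decide)
           (ok_go H c8_127)
           (.s2 (-843314855) (-281104951) 281104953 (by decide)
            (ok_go H c8_128)
            (ok_go H c8_129)))))
        (.s2 (-1686629713) (-562209903) 562209905 (by decide)
         (.s1 1073741824 1503238554 214748365 (by decide)
          (.s3 5903203997 6465413901 281104953 (by decide)
           (.s2 (-1967734665) (-1405524761) 281104953 (by decide)
            (ok_go H c8_130)
            (ok_go H c8_131))
           (.s2 (-1967734665) (-1405524761) 281104953 (by decide)
            (ok_go H c8_132)
            (.s1 966367642 1181116006 107374183 (by decide)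
             (ok_go H c8_133)
             (ok_go H c8_134))))
          (.s3 5903203997 6465413901 281104953 (by decide)
           (ok_go H c8_135)
           (ok_go H c8_136)))
         (.s1 1073741824 1503238554 214748365 (by decide)
          (.s3 5903203997 6465413901 281104953 (by decide)
           (.s2 (-843314855) (-281104951) 281104953 (by decide)
            (.s1 966367642 1181116006 107374183 (by decide)
             (.s3 5762651521 6043756473 140552477 (by decide)
              (.s2 (-983867331) (-702762379) 140552477 (by decide)
               (ok_go H c8_137)
               (.s1 912680551 1020054733 53687092 (by decide)
                (.s3 5692375283 5832927759 70276239 (by decide)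
                 (ok_go H c8_138)
                 (.s2 (-773038617) (-632486141) 70276239 (by decide)
                  (.s2 (-808176736) (-737900498) 35138120 (by decide)
                   (ok_go H c8_139)
                   (.s1 885837005 939524097 26843546 (by decide)
                    (ok_go H c8_140)
                    (ok_go H c8_141)))
                  (ok_go H c8_142)))
                (ok_go H c8_143)))
              (.s2 (-983867331) (-702762379) 140552477 (by decide)
               (ok_go H c8_144)
               (.s1 912680551 1020054733 53687092 (by decide)
                (.s3 5973480235 6114032711 70276239 (by decide)
                 (.s2 (-773038617) (-632486141) 70276239 (by decide)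
                  (.s2 (-808176736) (-737900498) 35138120 (by decide)
                   (ok_go H c8_145)
                   (ok_go H c8_146))
                  (ok_go H c8_147))
                 (ok_go H c8_148))
                (ok_go H c8_149))))
             (ok_go H c8_150))
            (.s1 966367642 1181116006 107374183 (by decide)
             (ok_go H c8_151)
             (ok_go H c8_152)))
           (.s2 (-843314855) (-281104951) 281104953 (by decide)
            (.s1 966367642 1181116006 107374183 (by decide)
             (.s3 6324861425 6605966377 140552477 (by decide)
              (.s2 (-983867331) (-702762379) 140552477 (by decide)
               (ok_go H c8_153)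
               (ok_go H c8_154))
              (ok_go H c8_155))
             (ok_go H c8_156))
            (.s1 966367642 1181116006 107374183 (by decide)
             (ok_go H c8_157)
             (ok_go H c8_158))))
          (.s3 5903203997 6465413901 281104953 (by decide)
           (.s2 (-843314855) (-281104951) 281104953 (by decide)
            (ok_go H c8_159)
            (ok_go H c8_160))
           (.s2 (-843314855) (-281104951) 281104953 (by decide)
            (ok_go H c8_161)
            (ok_go H c8_162))))))
       (.s3 5059889139 6184308949 562209905 (by decide)
        (.s2 (-1686629713) (-562209903) 562209905 (by decide)
         (.s1 1932735284 2362232014 214748365 (by decide)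
          (.s3 4778784187 5340994091 281104953 (by decide)
           (ok_go H c8_163)
           (ok_go H c8_164))
          (.s3 4778784187 5340994091 281104953 (by decide)
           (.s2 (-1967734665) (-1405524761) 281104953 (by decide)
            (ok_go H c8_165)
            (ok_go H c8_166))
           (ok_go H c8_167)))
         (.s1 1932735284 2362232014 214748365 (by decide)
          (.s3 4778784187 5340994091 281104953 (by decide)
           (.s2 (-843314855) (-281104951) 281104953 (by decide)
            (ok_go H c8_168)
            (ok_go H c8_169))
           (ok_go H c8_170))
          (.s3 4778784187 5340994091 281104953 (by decide)
           (.s2 (-843314855) (-281104951) 281104953 (by decide)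
            (ok_go H c8_171)
            (ok_go H c8_172))
           (ok_go H c8_173))))
        (.s2 (-1686629713) (-562209903) 562209905 (by decide)
         (.s1 1932735284 2362232014 214748365 (by decide)
          (ok_go H c8_174)
          (ok_go H c8_175))
         (.s1 1932735284 2362232014 214748365 (by decide)
          (.s3 5903203997 6465413901 281104953 (by decide)
           (ok_go H c8_176)
           (ok_go H c8_177))
          (ok_go H c8_178)))))
      (.s1 1288490189 2147483649 429496730 (by decide)
       (.s3 5059889139 6184308949 562209905 (by decide)
        (.s2 562209905 1686629715 562209905 (by decide)
         (.s1 1073741824 1503238554 214748365 (by decide)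
          (ok_go H c8_179)
          (.s3 4778784187 5340994091 281104953 (by decide)
           (ok_go H c8_180)
           (ok_go H c8_181)))
         (ok_go H c8_182))
        (.s2 562209905 1686629715 562209905 (by decide)
         (.s1 1073741824 1503238554 214748365 (by decide)
          (ok_go H c8_183)
          (ok_go H c8_184))
         (ok_go H c8_185)))
       (.s3 5059889139 6184308949 562209905 (by decide)
        (.s2 562209905 1686629715 562209905 (by decide)
         (.s1 1932735284 2362232014 214748365 (by decide)
          (.s3 4778784187 5340994091 281104953 (by decide)
           (.s2 281104953 843314857 281104953 (by decide)
            (ok_go H c8_186)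
            (ok_go H c8_187))
           (ok_go H c8_188))
          (.s3 4778784187 5340994091 281104953 (by decide)
           (.s2 281104953 843314857 281104953 (by decide)
            (ok_go H c8_189)
            (ok_go H c8_190))
           (ok_go H c8_191)))
         (ok_go H c8_192))
        (ok_go H c8_193)))))
    (.s3 3373259426 5622099044 1124419810 (by decide)
     (.s2 (-1124419808) 1124419810 1124419810 (by decide)
      (.s1 3006477107 3865470567 429496730 (by decide)
       (.s3 2811049521 3935469331 562209905 (by decide)
        (ok_go H c8_194)
        (.s2 (-1686629713) (-562209903) 562209905 (by decide)
         (.s1 2791728742 3221225472 214748365 (by decide)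
          (.s3 3654364379 4216574283 281104953 (by decide)
           (ok_go H c8_195)
           (.s2 (-1967734665) (-1405524761) 281104953 (by decide)
            (ok_go H c8_196)
            (.s1 2684354560 2899102924 107374183 (by decide)
             (.s2 (-1546077237) (-1264972285) 140552477 (by decide)
              (ok_go H c8_197)
              (.s3 4076021807 4357126759 140552477 (by decide)
               (ok_go H c8_198)
               (ok_go H c8_199)))
             (ok_go H c8_200))))
          (ok_go H c8_201))
         (.s1 2791728742 3221225472 214748365 (by decide)
          (.s3 3654364379 4216574283 281104953 (by decide)
           (.s2 (-843314855) (-281104951) 281104953 (by decide)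
            (.s1 2684354560 2899102924 107374183 (by decide)
             (.s2 (-983867331) (-702762379) 140552477 (by decide)
              (.s3 3513811903 3794916855 140552477 (by decide)
               (ok_go H c8_202)
               (.s1 2630667469 2738041651 53687092 (by decide)
                (ok_go H c8_203)
                (ok_go H c8_204)))
              (.s3 3513811903 3794916855 140552477 (by decide)
               (ok_go H c8_205)
               (.s1 2630667469 2738041651 53687092 (by decide)
                (.s2 (-773038617) (-632486141) 70276239 (by decide)
                 (ok_go H c8_206)
                 (ok_go H c8_207))
                (ok_go H c8_208))))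
             (ok_go H c8_209))
            (.s1 2684354560 2899102924 107374183 (by decide)
             (.s2 (-421657427) (-140552475) 140552477 (by decide)
              (.s3 3513811903 3794916855 140552477 (by decide)
               (ok_go H c8_210)
               (.s1 2630667469 2738041651 53687092 (by decide)
                (ok_go H c8_211)
                (ok_go H c8_212)))
              (.s3 3513811903 3794916855 140552477 (by decide)
               (.s1 2630667469 2738041651 53687092 (by decide)
                (.s2 (-210828713) (-70276237) 70276239 (by decide)
                 (ok_go H c8_213)
                 (ok_go H c8_214))
                (ok_go H c8_215))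
               (ok_go H c8_216)))
             (ok_go H c8_217)))
           (.s2 (-843314855) (-281104951) 281104953 (by decide)
            (.s1 2684354560 2899102924 107374183 (by decide)
             (.s2 (-983867331) (-702762379) 140552477 (by decide)
              (.s3 4076021807 4357126759 140552477 (by decide)
               (.s1 2630667469 2738041651 53687092 (by decide)
                (.s2 (-1054143569) (-913591093) 70276239 (by decide)
                 (.s3 4005745569 4146298045 70276239 (by decide)
                  (.s1 2603823923 2657511015 26843546 (by decide)
                   (ok_go H c8_218)
                   (ok_go H c8_219))
                  (ok_go H c8_220))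
                 (ok_go H c8_221))
                (ok_go H c8_222))
               (ok_go H c8_223))
              (.s3 4076021807 4357126759 140552477 (by decide)
               (.s1 2630667469 2738041651 53687092 (by decide)
                (.s2 (-773038617) (-632486141) 70276239 (by decide)
                 (ok_go H c8_224)
                 (ok_go H c8_225))
                (ok_go H c8_226))
               (ok_go H c8_227)))
             (ok_go H c8_228))
            (.s1 2684354560 2899102924 107374183 (by decide)
             (.s2 (-421657427) (-140552475) 140552477 (by decide)
              (ok_go H c8_229)
              (ok_go H c8_230))
             (ok_go H c8_231))))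
          (ok_go H c8_232))))
       (ok_go H c8_233))
      (.s1 3006477107 3865470567 429496730 (by decide)
       (.s3 2811049521 3935469331 562209905 (by decide)
        (.s2 562209905 1686629715 562209905 (by decide)
         (.s1 2791728742 3221225472 214748365 (by decide)
          (.s3 2529944569 3092154473 281104953 (by decide)
           (ok_go H c8_234)
           (.s2 281104953 843314857 281104953 (by decide)
            (.s1 2684354560 2899102924 107374183 (by decide)
             (.s2 140552477 421657429 140552477 (by decide)
              (ok_go H c8_235)
              (.s3 2951601997 3232706949 140552477 (by decide)
               (ok_go H c8_236)
               (.s1 2630667469 2738041651 53687092 (by decide)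
                (.s2 351381191 491933667 70276239 (by decide)
                 (ok_go H c8_237)
                 (ok_go H c8_238))
                (ok_go H c8_239))))
             (ok_go H c8_240))
            (.s1 2684354560 2899102924 107374183 (by decide)
             (.s2 702762381 983867333 140552477 (by decide)
              (.s1 2630667469 2738041651 53687092 (by decide)
               (ok_go H c8_241)
               (ok_go H c8_242))
              (ok_go H c8_243))
             (.s2 702762381 983867333 140552477 (by decide)
              (ok_go H c8_244)
              (.s3 2951601997 3232706949 140552477 (by decide)
               (ok_go H c8_245)
               (ok_go H c8_246))))))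
          (ok_go H c8_247))
         (.s1 2791728742 3221225472 214748365 (by decide)
          (.s3 2529944569 3092154473 281104953 (by decide)
           (.s2 1405524763 1967734667 281104953 (by decide)
            (.s1 2684354560 2899102924 107374183 (by decide)
             (.s2 1264972287 1546077239 140552477 (by decide)
              (ok_go H c8_248)
              (ok_go H c8_249))
             (.s2 1264972287 1546077239 140552477 (by decide)
              (ok_go H c8_250)
              (.s3 2389392093 2670497045 140552477 (by decide)
               (ok_go H c8_251)
               (.s1 2845415833 2952790015 53687092 (by decide)
                (.s2 1475801001 1616353477 70276239 (by decide)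
                 (ok_go H c8_252)
                 (.s3 2600220807 2740773283 70276239 (by decide)
                  (ok_go H c8_253)
                  (ok_go H c8_254)))
                (.s2 1475801001 1616353477 70276239 (by decide)
                 (ok_go H c8_255)
                 (ok_go H c8_256))))))
            (.s1 2684354560 2899102924 107374183 (by decide)
             (.s2 1827182191 2108287143 140552477 (by decide)
              (ok_go H c8_257)
              (ok_go H c8_258))
             (.s2 1827182191 2108287143 140552477 (by decide)
              (.s3 2389392093 2670497045 140552477 (by decide)
               (.s1 2845415833 2952790015 53687092 (by decide)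
                (ok_go H c8_259)
                (ok_go H c8_260))
               (.s1 2845415833 2952790015 53687092 (by decide)
                (.s2 1756905953 1897458429 70276239 (by decide)
                 (ok_go H c8_261)
                 (ok_go H c8_262))
                (.s2 1756905953 1897458429 70276239 (by decide)
                 (ok_go H c8_263)
                 (ok_go H c8_264))))
              (.s3 2389392093 2670497045 140552477 (by decide)
               (.s1 2845415833 2952790015 53687092 (by decide)
                (.s2 2038010905 2178563381 70276239 (by decide)
                 (ok_go H c8_265)
                 (ok_go H c8_266))
                (.s2 2038010905 2178563381 70276239 (by decide)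
                 (ok_go H c8_267)
                 (ok_go H c8_268)))
               (.s1 2845415833 2952790015 53687092 (by decide)
                (.s2 2038010905 2178563381 70276239 (by decide)
                 (.s3 2600220807 2740773283 70276239 (by decide)
                  (ok_go H c8_269)
                  (ok_go H c8_270))
                 (ok_go H c8_271))
                (ok_go H c8_272))))))
           (.s2 1405524763 1967734667 281104953 (by decide)
            (.s1 2684354560 2899102924 107374183 (by decide)
             (.s2 1264972287 1546077239 140552477 (by decide)
              (ok_go H c8_273)
              (ok_go H c8_274))
             (.s2 1264972287 1546077239 140552477 (by decide)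
              (.s3 2951601997 3232706949 140552477 (by decide)
               (.s1 2845415833 2952790015 53687092 (by decide)
                (ok_go H c8_275)
                (ok_go H c8_276))
               (ok_go H c8_277))
              (.s3 2951601997 3232706949 140552477 (by decide)
               (.s1 2845415833 2952790015 53687092 (by decide)
                (ok_go H c8_278)
                (ok_go H c8_279))
               (.s1 2845415833 2952790015 53687092 (by decide)
                (.s2 1475801001 1616353477 70276239 (by decide)
                 (ok_go H c8_280)
                 (ok_go H c8_281))
                (ok_go H c8_282)))))
            (.s1 2684354560 2899102924 107374183 (by decide)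
             (ok_go H c8_283)
             (.s2 1827182191 2108287143 140552477 (by decide)
              (.s3 2951601997 3232706949 140552477 (by decide)
               (.s1 2845415833 2952790015 53687092 (by decide)
                (.s2 1756905953 1897458429 70276239 (by decide)
                 (ok_go H c8_284)
                 (ok_go H c8_285))
                (.s2 1756905953 1897458429 70276239 (by decide)
                 (ok_go H c8_286)
                 (ok_go H c8_287)))
               (.s1 2845415833 2952790015 53687092 (by decide)
                (ok_go H c8_288)
                (ok_go H c8_289)))
              (ok_go H c8_290)))))
          (.s2 1405524763 1967734667 281104953 (by decide)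
           (.s3 2529944569 3092154473 281104953 (by decide)
            (ok_go H c8_291)
            (ok_go H c8_292))
           (.s3 2529944569 3092154473 281104953 (by decide)
            (.s1 3113851290 3328599654 107374183 (by decide)
             (.s2 1827182191 2108287143 140552477 (by decide)
              (.s3 2389392093 2670497045 140552477 (by decide)
               (ok_go H c8_293)
               (ok_go H c8_294))
              (.s3 2389392093 2670497045 140552477 (by decide)
               (.s1 3060164199 3167538381 53687092 (by decide)
                (.s2 2038010905 2178563381 70276239 (by decide)
                 (ok_go H c8_295)
                 (ok_go H c8_296))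
                (ok_go H c8_297))
               (ok_go H c8_298)))
             (ok_go H c8_299))
            (ok_go H c8_300)))))
        (.s2 562209905 1686629715 562209905 (by decide)
         (.s1 2791728742 3221225472 214748365 (by decide)
          (.s3 3654364379 4216574283 281104953 (by decide)
           (.s2 281104953 843314857 281104953 (by decide)
            (.s1 2684354560 2899102924 107374183 (by decide)
             (.s2 140552477 421657429 140552477 (by decide)
              (.s3 3513811903 3794916855 140552477 (by decide)
               (.s1 2630667469 2738041651 53687092 (by decide)
                (ok_go H c8_301)
                (ok_go H c8_302))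
               (ok_go H c8_303))
              (ok_go H c8_304))
             (ok_go H c8_305))
            (.s1 2684354560 2899102924 107374183 (by decide)
             (ok_go H c8_306)
             (ok_go H c8_307)))
           (.s2 281104953 843314857 281104953 (by decide)
            (ok_go H c8_308)
            (ok_go H c8_309)))
          (ok_go H c8_310))
         (.s1 2791728742 3221225472 214748365 (by decide)
          (.s3 3654364379 4216574283 281104953 (by decide)
           (.s2 1405524763 1967734667 281104953 (by decide)
            (.s1 2684354560 2899102924 107374183 (by decide)
             (ok_go H c8_311)
             (.s2 1264972287 1546077239 140552477 (by decide)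
              (ok_go H c8_312)
              (ok_go H c8_313)))
            (ok_go H c8_314))
           (ok_go H c8_315))
          (ok_go H c8_316))))
       (ok_go H c8_317)))
     (.s2 (-1124419808) 1124419810 1124419810 (by decide)
      (.s1 3006477107 3865470567 429496730 (by decide)
       (.s3 5059889139 6184308949 562209905 (by decide)
        (.s2 (-1686629713) (-562209903) 562209905 (by decide)
         (.s1 2791728742 3221225472 214748365 (by decide)
          (ok_go H c8_318)
          (ok_go H c8_319))
         (.s1 2791728742 3221225472 214748365 (by decide)
          (ok_go H c8_320)
          (ok_go H c8_321)))
        (ok_go H c8_322))
       (ok_go H c8_323))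
      (.s1 3006477107 3865470567 429496730 (by decide)
       (ok_go H c8_324)
       (ok_go H c8_325))))))

end Pool.Agent.MP_5cfbf6_gt.P8.KK
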