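import Pool.Agent.MP_5cfbf6_gt.P8.D8
import Pool.Agent.MP_5cfbf6_gt.P8.KA8
import Pool.Agent.MP_5cfbf6_gt.P8.Comp8
import Pool.Agent.MP_5cfbf6_gt.P8.Enum8

set_option autoImplicit false

namespace Pool.Agent.MP_5cfbf6_gt.P8

open P7 Set Filter Topology Real

lemma val8 : ∀ C ∈ L8, C.Valid 1.03 1.07 :=
  ana_st _ _ _ (KK.ok8 ⟨by norm_num [KK.p8, abs_le], by norm_num [KK.p8, abs_le], gp8⟩).root cl8

lemma deg8 {n : ℕ} {u : Fin n → E3} {Tr : Fin n → Fin n → Fin n → Prop} (hu : Unit1 u)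
    (S : Sys u 1 Tr) (h25 : ∀ x ∈ poly u 1, dt x x ≤ 25) :
    n * ((38317.5 : ℝ) + 4 * 26837.7) - 26837.7 * (∑ i, dg Tr i : ℕ)
      + 922.3 * (∑ i, un (dg Tr i) : ℕ) ≤ 30000 * vol u 1 :=
  deg_Key 38317.5 26837.7 922.3 (by norm_num) (fun p q r => val8 _ (ad8 p q r))
    (by norm_num [A8, G8]) (by norm_num [A8, G8]) (by norm_num [A8, G8]) (by norm_num [A8, G8])
    hu S h25

theorem best8 : ∃ Q : Set E3, HasType gold8 Q ∧ IsBest Q ∧
    ∀ R : Set E3, IsPolytope R → (twoFaces R).ncard ≤ 8 → isoQuot R ≤ isoQuot Q := by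
  refine mainG_st ex_st cont_st redG_st lim_st 7 gold8 (201030 / 30000) (1 / 10000) (by norm_num)
    (by linarith [pi_gt_d2]) ?_ (fun u Tr hu S => ?_) fun u Tr hu S hv => ?_
  · obtain ⟨u, h1, h2, h3⟩ := comp8_st
    exact ⟨u, h1, h2, by linarith⟩
  · by_contra hv
    have h1 := deg8 hu S (ball_Key hu S (by linarith))
    have h2 := euler_st _ u 1 Tr S
    have h3 : ((∑ i, dg Tr i : ℕ) : ℝ) ≤ 30 := by
      rw [Fintype.card_fin] at h2
      exact_mod_cast (by omega : ∑ i, dg Tr i ≤ 30)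
    have h4 := Nat.cast_nonneg (α := ℝ) (∑ i, un (dg Tr i))
    push_cast at h1 h3 h4
    linarith
  · have h25 := ball_Key hu S (by linarith)
    have h1 := deg8 hu S h25
    have h2 := euler_st _ u 1 Tr S
    rw [Fintype.card_fin] at h2
    have h4 := Nat.cast_nonneg (α := ℝ) (∑ i, un (dg Tr i))
    have h5 : ∑ i, dg Tr i = 36 := by
      by_contra h
      have : ((∑ i, dg Tr i : ℕ) : ℝ) ≤ 35 := by exact_mod_cast (by omega : ∑ i, dg Tr i ≤ 35)
      rw [Nat.cast_add, Nat.cast_ofNat, Nat.cast_one] at h1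
      linarith
    have h6 : ∑ i, un (dg Tr i) ≤ 1 := by
      by_contra h
      have : (2 : ℝ) ≤ (∑ i, un (dg Tr i) : ℕ) := by exact_mod_cast (by omega : 2 ≤ _)
      rw [h5, Nat.cast_add, Nat.cast_ofNat, Nat.cast_one, Nat.cast_ofNat] at h1
      linarith
    obtain ⟨σ, hσ⟩ := enum8_st Tr (comb_of_sys S) h5 h6
    refine ⟨long_Key (W := 201030) (by norm_num) val8 ?_ cov8 hu S h25 hσ (by push_cast; linarith),
      type_st _ _ u 1 Tr σ S fun i j k a b c => (hσ i j k).trans (t8_iff i j k a b c)⟩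
    simp only [List.forall_mem_cons, List.not_mem_nil, false_imp_iff, implies_true, and_true]
    exact ⟨ok8_0, ok8_1, ok8_2, ok8_3⟩

end Pool.Agent.MP_5cfbf6_gt.P8
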