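import Pool.Agent.MP_5cfbf6_gt.P8.KP9

set_option autoImplicit false

namespace Pool.Agent.MP_5cfbf6_gt.P8.KK

theorem c9_100 : go p9 60 0x32391990c8ca90c84c86425390c84c90952190a6a472352390a32190a90c85172190a90c85191488b46432152425c8642a42d48a44642e432132168b
    2254857832 107374183 983867333 140552477 3654364379 281104953 = 1 := by decide +kernel

theorem c9_344 : go p9 60 0xdb2156c90968b92232190a76290ab217242d190c8548642e432168b2a43215642a43222cc8a432152265c8642a432232190a6648548642a43532d3
    3274912563 53687092 2108287143 140552477 2529944569 281104953 = 1 := by decide +kernel

theorem c9_260 : go p9 60 0x32190c2e430c86425a92172190b4645223239216a432345c8642a485192172190b5242e485a2d48619215212e452132190a91168b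
    2684354560 107374183 (-702762379) 140552477 4216574283 281104953 = 1 := by decide +kernel

theorem c9_53 : go p9 60 0x32190b90c85a91c8d192172352190a2a432185c8642d48e468c8642e46a432145390c5213229095218a4264521299
    1503238554 214748365 1405524763 281104953 3092154473 281104953 = 1 := by decide +kernel

theorem c9_87 : go p9 60 0xdb642d3b1c8635642e484c85a32290b9148596ad90b90c84c85ab2190952426432129956c8648494e432152291172190a90c853299
    2362232014 214748365 1967734667 281104953 3092154473 281104953 = 1 := by decide +kernel

theorem c9_160 : go p9 60 0x32190b90c52190a66485c8a44ca9148642cc86465290c85c8642a43214cc8642e45226548a4321664322293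
    912680551 53687092 (-983867331) 140552477 6324861425 140552477 = 1 := by decide +kernel

theorem c9_360 : go p9 60 0x3239216a432146432172190b5242e432168b9217242d490b92128c8642e43216a432425c86484b45a
    2899102924 107374183 843314857 281104953 3654364379 281104953 = 1 := by decide +kernel

theorem c9_323 : go p9 60 0x32190b90c85a90c85190c85c8642d48a43214cb9217242d486428c8642e43216a432172190b45a
    3060164199 53687092 1546077239 140552477 2951601997 140552477 = 1 := by decide +kernel

theorem c9_102 : go p9 60 0x32190b90c85a91486428c8a431172191190c88b46432185c8619212d48644642e432168b
    2469606196 107374183 983867333 140552477 3654364379 281104953 = 1 := by decide +kernel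

theorem c9_158 : go p9 60 0x3242a48539215242999148642948a432149c90a92132292145292152426452428a4ca
    966367642 107374183 (-281104951) 281104953 6043756473 140552477 = 1 := by decide +kernel

theorem c9_127 : go p9 60 0x36c90b92132191165486484b90c9096ac90952290c85172290c85191486428b45a
    2469606196 107374183 1405524763 281104953 4216574283 281104953 = 1 := by decide +kernel

theorem c9_229 : go p9 60 0xc8a432190a72190b46452291c52190b89990c52189a2e48e232191c45a
    2899102924 107374183 (-1405524761) 281104953 4216574283 281104953 = 1 := by decide +kernel

theorem c9_217 : go p9 60 0x32290c85190c8d490b92168b91486428c8e42a485c90b45a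
    2469606196 107374183 843314857 281104953 4778784187 281104953 = 1 := by decide +kernel

theorem c9_114 : go p9 60 0x36c86190c2e4321652b2186430b90c3216a432172190b453
    1825361102 107374183 1405524763 281104953 4216574283 281104953 = 1 := by decide +kernel

theorem c9_291 : go p9 60 0xc8642a446485190c30d4e4521721ad486435a35a
    2684354560 107374183 1405524763 281104953 2529944569 281104953 = 1 := by decide +kernel

theorem c9_128 : go p9 60 0xd
    2362232014 214748365 1967734667 281104953 4216574283 281104953 = 1 := by decide +kernel

end Pool.Agent.MP_5cfbf6_gt.P8.KK
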