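import Pool.Agent.MP_5cfbf6_gt.P8.KP9

set_option autoImplicit false

namespace Pool.Agent.MP_5cfbf6_gt.P8.KK

theorem c9_356 : go p9 60 0x32190b90c90a6a432172190c84b46432152426432329c8643212a485c90b5242e432429a2d486426432352428b92152428c90b90c8616a47242d168b
    2684354560 107374183 421657429 140552477 3654364379 281104953 = 1 := by decide +kernel

theorem c9_305 : go p9 60 0x3242e446432272190b2a432152190a32390c85a90c8d14e432185c86190c2d190c85486428c8e435a90c851521aa4351a9c8642e426430d68b
    2952790015 53687092 2038010905 70276239 2389392093 140552477 = 1 := by decide +kernel

theorem c9_240 : go p9 60 0x32484b90c8626a486290c85332452265390c86429c86426432252190a2d48646a432346472352391a2e472352391a32395a91cad1699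
    2845415833 53687092 (-632486141) 70276239 3794916855 140552477 = 1 := by decide +kernel

theorem c9_189 : go p9 60 0xc8a43222e45219116a432152190b90c84a72190a92132425346432190972191484b52190a9213214e432152190a68a
    2362232014 214748365 (-562209903) 562209905 5340994091 281104953 = 1 := by decide +kernel

theorem c9_248 : go p9 60 0xc90990c88b90c85486425a90c85486426484a72190a90c85346432188c909a9c86446b52190990c84a90d75390c85568b
    2738041651 53687092 (-210828713) 70276239 3513811903 140552477 = 1 := by decide +kernel

theorem c9_271 : go p9 60 0xc86485a90c85191c8642d486428b90c85c8642d48e485a32190a911ada91432285c90a9099142d195c84d52184d753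
    2630667469 53687092 210828715 70276239 3232706949 140552477 = 1 := by decide +kernel

theorem c9_288 : go p9 60 0x32190c46432190a2e484c86445a90c85486428c8642e42a432172145c8642a432146432152190a2d1
    3113851290 107374183 983867333 140552477 2951601997 140552477 = 1 := by decide +kernel

theorem c9_214 : go p9 60 0x32391a9217242d190c85c8643214cc8642e432165391c90b32391952190b90c85992172190b29a
    2254857832 107374183 281104953 281104953 4778784187 281104953 = 1 := by decide +kernel

theorem c9_329 : go p9 60 0xc8642642e484c85a90c84c9097219099212d19213219093556e4321721ad491190c84b92235a35a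
    3167538381 53687092 1827182191 140552477 2389392093 140552477 = 1 := by decide +kernel

theorem c9_109 : go p9 60 0xc90b9216a484c86445c86488b46432172190b52190c46452190a2e432232191168b
    2469606196 107374183 983867333 140552477 4216574283 281104953 = 1 := by decide +kernel

theorem c9_101 : go p9 60 0xc86430b90c3219096a484c86272190b46432132425c90990b52190b92152168b
    2469606196 107374183 702762381 140552477 3654364379 281104953 = 1 := by decide +kernel

theorem c9_355 : go p9 60 0xc8643214e432132290966432152190990c84a72190990c85490a2ca
    2684354560 107374183 140552477 140552477 3794916855 140552477 = 1 := by decide +kernel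

theorem c9_334 : go p9 60 0xc86190c84b90c84c90a92145a92132191152192166432190b299
    3060164199 53687092 1897458429 70276239 2600220807 70276239 = 1 := by decide +kernel

theorem c9_26 : go p9 60 0xc86432266484c8e468a90c8e468c864521653
    3865470567 429496730 (-3373259426) 1124419810 5622099044 1124419810 = 1 := by decide +kernel

theorem c9_223 : go p9 60 0x321921acd46baabaa432a32b90d66a35c959aa435c86b351ae430d754861a8d66aacd55d55566a
    3006477107 429496730 (-1124419808) 1124419810 2811049521 562209905 = 1 := by decide +kernel

theorem c9_113 : go p9 60 0xd
    1932735284 214748365 1967734667 281104953 3654364379 281104953 = 1 := by decide +kernel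

theorem c9_222 : go p9 60 0xd
    2147483649 429496730 1686629715 562209905 6184308949 562209905 = 1 := by decide +kernel

end Pool.Agent.MP_5cfbf6_gt.P8.KK
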