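import Pool.Agent.MP_5cfbf6_gt.P8.KP9

set_option autoImplicit false

namespace Pool.Agent.MP_5cfbf6_gt.P8.KK

theorem c9_332 : go p9 60 0xd90d88a921324253b642a425486190c29990c85486429c8642a43214cb90c88c86445490992129c8642a426431484a90c32185332190a90d4e432152186a65a
    3167538381 53687092 2108287143 140552477 2389392093 140552477 = 1 := by decide +kernel

theorem c9_139 : go p9 60 0x32391991c8ca9148cc86425291c8cc8e465486426432129390c85c8642cc86390c85952390c6643222948e46647232a4321321909499
    1503238554 214748365 (-843314855) 281104953 5340994091 281104953 = 1 := by decide +kernel

theorem c9_19 : go p9 60 0x32391a91c89290c85c8d48e429392428c86352432146431272190b9216948a485191c85290c52190a32190b90a4e452272190b499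
    2147483649 429496730 (-3935469331) 562209905 6184308949 562209905 = 1 := by decide +kernel

theorem c9_186 : go p9 60 0x32190b90c85a90c85c8e465390c88c8642548e466432329a9148cc8e46548e46647232948e46647232a4723323919499
    1932735284 214748365 (-281104951) 281104953 5340994091 281104953 = 1 := by decide +kernel

theorem c9_47 : go p9 60 0x32190b90c6a485c90b46432172190c2d48642e432168b9217242d48642e431a32190c2e43216a432172190b45a
    2469606196 107374183 (-281104951) 281104953 4216574283 281104953 = 1 := by decide +kernel

theorem c9_374 : go p9 60 0xc8643214e432132190a91166489c8a426432152190a2ca92172352446431486468b90c85486484c85168a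
    2791728742 214748365 (-1686629713) 562209905 5340994091 281104953 = 1 := by decide +kernel

theorem c9_153 : go p9 60 0x32190a91c8642d191489c8642e484c90968a91489c9099212a484c9094cc8642e484c85490990a652
    912680551 53687092 (-702762379) 140552477 6114032711 70276239 = 1 := by decide +kernel

theorem c9_185 : go p9 60 0xc86426484a90c84c86425390c85486429a9148cc86445486426484a52391990c88a90c84c909499
    1932735284 214748365 (-843314855) 281104953 5340994091 281104953 = 1 := by decide +kernel

theorem c9_347 : go p9 60 0x32190a90c85390c8548642999213219117242643212d48642643148622e432132290968b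
    3167538381 53687092 1756905953 70276239 2951601997 140552477 = 1 := by decide +kernel

theorem c9_156 : go p9 60 0xc8a44e45226a432152190a72190a90c85346452272190b52190a90c85390c52268a
    1181116006 107374183 (-843314855) 281104953 6043756473 140552477 = 1 := by decide +kernel

theorem c9_71 : go p9 60 0xdb643212d3b1489d8e468c8642e43216a485c8642d16adb2169d8e46a432146472352190a2d1
    1825361102 107374183 2108287143 140552477 2670497045 140552477 = 1 := by decide +kernel

theorem c9_381 : go p9 60 0x32190a92232445390c88c8a43214548644e47234643215242e485a299
    3006477107 429496730 (-562209903) 562209905 6184308949 562209905 = 1 := by decide +kernel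

theorem c9_349 : go p9 60 0xd90c84ab2190952190b90c8994ed90ab2145c86426432172190a2d1
    3113851290 107374183 1827182191 140552477 3232706949 140552477 = 1 := by decide +kernel

theorem c9_164 : go p9 60 0x3242643222a43223219114a484c864454864664323293
    1020054733 53687092 (-702762379) 140552477 6324861425 140552477 = 1 := by decide +kernel

theorem c9_350 : go p9 60 0xdb6d90d90a3642ac8512d5b2185d8ca2d3
    3113851290 107374183 2108287143 140552477 3092154473 281104953 = 1 := by decide +kernel

theorem c9_268 : go p9 60 0xcae426a90d52126baab90d721acd559aaa
    2791728742 214748365 562209905 562209905 2529944569 281104953 = 1 := by decide +kernel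

end Pool.Agent.MP_5cfbf6_gt.P8.KK
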