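import Pool.Agent.MP_5cfbf6_gt.P8.KP9

set_option autoImplicit false

namespace Pool.Agent.MP_5cfbf6_gt.P8.KK

theorem c9_343 : go p9 60 0xc8a472346452395a2e432152190a72190a9217234643218cc8646533218a431390c8cc91952191990c85a65486295b90c85c8642d486aad99148642e568d699
    3328599654 107374183 1827182191 140552477 2529944569 281104953 = 1 := by decide +kernel

theorem c9_94 : go p9 60 0x32391a90c85191c85486428b90c85486232190a9116a452132290972290990c2d190c52232290972290991484b52186430b90c32168a
    2040109466 107374183 843314857 281104953 4076021807 140552477 = 1 := by decide +kernel

theorem c9_92 : go p9 60 0x32190990c84b90c32185a90c85c8642d190c84c8617218642d48642e432168b90c85c8642cc8642e43216548642e431990c72329a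
    2040109466 107374183 281104953 281104953 4216574283 281104953 = 1 := by decide +kernel

theorem c9_208 : go p9 60 0x32190b90c85990c85c8642ca90c86425c8642d48642e432168b92172190b3242e43216548642e432166432172190b29a
    2040109466 107374183 281104953 281104953 4778784187 281104953 = 1 := by decide +kernel

theorem c9_151 : go p9 60 0x3219119212a484c85390c8548626a432172190a90c4cc8e452165486466484a5218e45216643218ca921321499
    966367642 107374183 (-983867331) 140552477 6043756473 140552477 = 1 := by decide +kernel

theorem c9_112 : go p9 60 0xdb2390952190a91176290990c2ca91c8d486428c8642a445c8e42a431190c5222d48a426430b91484c86168a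
    2040109466 107374183 1405524763 281104953 3794916855 140552477 = 1 := by decide +kernel

theorem c9_195 : go p9 60 0xc8646a485c90b4647235242e485a2a485c90b52190c85391486429a3242e485a91486429c864313453
    2362232014 214748365 (-562209903) 562209905 6184308949 562209905 = 1 := by decide +kernel

theorem c9_312 : go p9 60 0x36db215622ec861653b2185c86430b5642e432168c8642643212a485c90a32191390c8594e432152186430a65a
    2899102924 107374183 1967734667 281104953 3092154473 281104953 = 1 := by decide +kernel

theorem c9_110 : go p9 60 0xd90c85c8642ca90c85c8642d48642a44ca90c85486429c90b92168c8642e431a921723453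
    1825361102 107374183 1405524763 281104953 3654364379 281104953 = 1 := by decide +kernel

theorem c9_167 : go p9 60 0x32291391489a90c85486429c8642a43214d191489c8642d48642a43214e431486268a
    1181116006 107374183 (-843314855) 281104953 6324861425 140552477 = 1 := by decide +kernel

theorem c9_63 : go p9 60 0x3218e46a431486429992152190a72190a2e472190b5219133218a42e472b45a
    2254857832 107374183 843314857 281104953 3092154473 281104953 = 1 := by decide +kernel

theorem c9_322 : go p9 60 0x32190990c52190a2e432132290c45a90c84c8642a445c8642643215222d1
    3113851290 107374183 1264972287 140552477 3232706949 140552477 = 1 := by decide +kernel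

theorem c9_225 : go p9 60 0xc86290d4e432272152190b91489a32aae4359a9990c92126435a35a
    2791728742 214748365 (-1967734665) 281104953 4216574283 281104953 = 1 := by decide +kernel

theorem c9_40 : go p9 60 0xc8642e431a91c8d190c8548622e472352188c8e56a445a
    2254857832 107374183 (-281104951) 281104953 3654364379 281104953 = 1 := by decide +kernel

theorem c9_301 : go p9 60 0x3242a190c8542e432170c8a426425a
    2845415833 53687092 1827182191 140552477 2670497045 140552477 = 1 := by decide +kernel

theorem c9_22 : go p9 60 0xc865559aab90d555724351aeaaab35566a
    3435973837 858993460 (-4497679235) 2248839619 3373259426 1124419810 = 1 := by decide +kernel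

end Pool.Agent.MP_5cfbf6_gt.P8.KK
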