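import Pool.Agent.MP_5cfbf6_gt.P8.KP9

set_option autoImplicit false

namespace Pool.Agent.MP_5cfbf6_gt.P8.KK

theorem c9_57 : go p9 60 0xc8e46a432146432152188a90c85486428c8642a432145391484c8a42548a426430a6643215223218a445486291191484a72190990c84a90c3214ca
    1503238554 214748365 562209905 562209905 4216574283 281104953 = 1 := by decide +kernel

theorem c9_352 : go p9 60 0xc90b90c86425a92172190c2d192152428c90b9216a47242d172190a90c8519217242d490b92168b5228643215212e452132190a90968b
    2630667469 53687092 70276239 70276239 3513811903 140552477 = 1 := by decide +kernel

theorem c9_369 : go p9 60 0xc91190c85c8642d48642ec85486429990c8548642e432168b90c5242e468c86290c85cad168992232190b95a9148e428c86ba9c8642ab44a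
    3865470567 429496730 1124419810 1124419810 2811049521 562209905 = 1 := by decide +kernel

theorem c9_212 : go p9 60 0x32190990c84a90c85c8642d291c8cc8e46548e466432169390c84c8642548642645232948e46647232a4723323919499
    1932735284 214748365 281104953 281104953 5340994091 281104953 = 1 := by decide +kernel

theorem c9_182 : go p9 60 0x3218645222e43223229096a432290972191488b46432132190a91172290990c85488b5218643212e484c86168a
    2362232014 214748365 (-1686629713) 562209905 5340994091 281104953 = 1 := by decide +kernel

theorem c9_138 : go p9 60 0x32190991c84a91c84c8e425290c85486428c8642a432145390c84c8642548642643212948a4464522299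
    1503238554 214748365 (-281104951) 281104953 4778784187 281104953 = 1 := by decide +kernel

theorem c9_107 : go p9 60 0xc8a432146431486428b91488c8a432145a90c84c8642548e466472329c8642643212a43213219094d1
    2254857832 107374183 983867333 140552477 4357126759 140552477 = 1 := by decide +kernel

theorem c9_187 : go p9 60 0xc8642a485190c85486390a2e452188c8642a43116a484c85486485a9117242a446472152190a2d1
    2362232014 214748365 (-843314855) 281104953 4778784187 281104953 = 1 := by decide +kernel

theorem c9_49 : go p9 60 0xd90c2a430c853b2152189990c85486429c8a44ca90c32152190a72291332190a90d4e452a653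
    1073741824 214748365 1686629715 562209905 2811049521 562209905 = 1 := by decide +kernel

theorem c9_325 : go p9 60 0xc8642643217219132e432132190a90c8596a432132190b90c85172190990c85c8622d1
    3113851290 107374183 1546077239 140552477 3232706949 140552477 = 1 := by decide +kernel

theorem c9_50 : go p9 60 0x32186430b90c85a91c8d190c85cad486428a90c30d7554e431484c8a425486a909a99
    1503238554 214748365 1405524763 281104953 2529944569 281104953 = 1 := by decide +kernel

theorem c9_144 : go p9 60 0x32190a90c4e45226a484c8548625242642a449990c85c86352290b90c68a
    966367642 107374183 (-1405524761) 281104953 6324861425 140552477 = 1 := by decide +kernel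

theorem c9_384 : go p9 60 0x32290c8599148642ca90c89c8a43214cc8644e452190a653
    3221225472 214748365 562209905 562209905 5059889139 562209905 = 1 := by decide +kernel

theorem c9_299 : go p9 60 0xc90b91a91c8d190d72b35391c85486428d6a452a72332286b46b
    2952790015 53687092 1756905953 70276239 2389392093 140552477 = 1 := by decide +kernel

theorem c9_386 : go p9 60 0x36c85490992129d9212ac85590a32190a90c8d14ca
    3006477107 429496730 1124419810 1124419810 6184308949 562209905 = 1 := by decide +kernel

theorem c9_202 : go p9 60 0xd
    1288490189 429496730 1686629715 562209905 5059889139 562209905 = 1 := by decide +kernel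

end Pool.Agent.MP_5cfbf6_gt.P8.KK
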