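import Pool.Agent.MP_5cfbf6_gt.P8.KP9

set_option autoImplicit false

namespace Pool.Agent.MP_5cfbf6_gt.P8.KK

theorem c9_148 : go p9 60 0xc9099212a43214a43213242548642939148cc8a46548644643212948a46643222a43223242526643215225218a449c86390a90c85290c8548624ca
    1503238554 214748365 (-1686629713) 562209905 6465413901 281104953 = 1 := by decide +kernel

theorem c9_52 : go p9 60 0x36c8539143229096ac85c8642d191432285c8a19142d48642e432168a91484c8a425c8a426450b52190b90c85a32286550b91435a90c85c86b453
    1610612736 107374183 1967734667 281104953 2529944569 281104953 = 1 := by decide +kernel

theorem c9_245 : go p9 60 0x3219216a432346432172190c84b52190b90c85a2e485c86430b5242e485a32190991488b91488c8642a445a90c86172186430b45a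
    2738041651 53687092 (-421657427) 140552477 3794916855 140552477 = 1 := by decide +kernel

theorem c9_283 : go p9 60 0x32190991488b90c84c86445a90c84c86432145c86485190c86428b46452232a951721909ad48642e4321321a9990c86428d68b
    2899102924 107374183 702762381 140552477 3092154473 281104953 = 1 := by decide +kernel

theorem c9_315 : go p9 60 0x32190990c85486428b90c84c8a445a90c32285c8619142d190c85486428c86426a72290c46b5218a190d5212e450d68b
    3060164199 53687092 1475801001 70276239 2670497045 140552477 = 1 := by decide +kernel

theorem c9_4 : go p9 60 0x32391a90c8627242d390c8548e429a91489c8642d292232445c8642d49119222e469c8e42a431352295390d693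
    1073741824 214748365 (-5059889139) 562209905 6184308949 562209905 = 1 := by decide +kernel

theorem c9_337 : go p9 60 0x32190a90c85191486428b91486428c8643116a472152190a32190a90c85172190a90c85190c5222d1
    3167538381 53687092 1897458429 70276239 2600220807 70276239 = 1 := by decide +kernel

theorem c9_281 : go p9 60 0x32190a90c86425390c84c8646548e466485c8642ca6a43213242a425c8642a44643242d490a2d1
    2684354560 107374183 702762381 140552477 3232706949 140552477 = 1 := by decide +kernel

theorem c9_199 : go p9 60 0xd8e46a432146472352190a2a472352190a32390a90c8514e431488c8a44548a4464521299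
    1503238554 214748365 843314857 281104953 4778784187 281104953 = 1 := by decide +kernel

theorem c9_207 : go p9 60 0x32190b90c85a91c8d190c85c8cc90b9194a432172190b52391a32190b90c6a4723453
    1825361102 107374183 281104953 281104953 4778784187 281104953 = 1 := by decide +kernel

theorem c9_132 : go p9 60 0xc86430a90c84c86425290c85486429391488c8642a4321454864464522299
    1073741824 214748365 (-281104951) 281104953 4778784187 281104953 = 1 := by decide +kernel

theorem c9_180 : go p9 60 0x32190a91190c85488b90c84c8a425990c85488c8642a445c8642643212ca
    2362232014 214748365 (-1967734665) 281104953 4778784187 281104953 = 1 := by decide +kernel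

theorem c9_341 : go p9 60 0x36c855b1a2ec85590a32190a91c8d16adb1ab2145d90ab2146472352190a2d1
    3167538381 53687092 2038010905 70276239 2740773283 70276239 = 1 := by decide +kernel

theorem c9_154 : go p9 60 0x3244643222a43223219114a484c864454864464322293
    1020054733 53687092 (-702762379) 140552477 6043756473 140552477 = 1 := by decide +kernel

theorem c9_230 : go p9 60 0xc8a432172346486b35390c86235a
    3221225472 214748365 (-1686629713) 562209905 3935469331 562209905 = 1 := by decide +kernel

theorem c9_232 : go p9 60 0xc861aa4309aea90d721351aea
    2684354560 107374183 (-702762379) 140552477 3513811903 140552477 = 1 := by decide +kernel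

end Pool.Agent.MP_5cfbf6_gt.P8.KK
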