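import Pool.Agent.MP_5cfbf6_gt.P8.KP9

set_option autoImplicit false

namespace Pool.Agent.MP_5cfbf6_gt.P8.KK

theorem c9_354 : go p9 60 0xc8e485a91c90b46432425c90990c90a2d48643214e432232190a90c8d168b91c90b52191a3219215222e452132191a90c8516a432185c86450b459
    2684354560 107374183 210828715 70276239 3513811903 140552477 = 1 := by decide +kernel

theorem c9_29 : go p9 60 0x3218643212a43214e484c86445486432149990c84c85486429c8642a42a45214ca90c85486429c8644a43224cc8642a435390c85486a653
    1073741824 214748365 (-562209903) 562209905 3935469331 562209905 = 1 := by decide +kernel

theorem c9_140 : go p9 60 0xc8e46647232a47233239194a452132391952391991c8ca4e45213239195218e432166432172190b2948642647222a4723323919499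
    1503238554 214748365 (-281104951) 281104953 5340994091 281104953 = 1 := by decide +kernel

theorem c9_261 : go p9 60 0x3218a484c92125c8642a48622d191c85486452428991491391a9217242d12e485c9099216a43246cc91486265328b
    2899102924 107374183 (-983867331) 140552477 4216574283 281104953 = 1 := by decide +kernel

theorem c9_359 : go p9 60 0xc8a42a43217219212d191c90b5242642e432168b91c90b5242642e432168c8642e432190a6a432172191484b45a
    2684354560 107374183 843314857 281104953 3654364379 281104953 = 1 := by decide +kernel

theorem c9_351 : go p9 60 0x36d90bb642ad90b4594e432190a3642a588c9114cc8a452266432191332190a90c8548a44c972190c8999148a472344b45a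
    3328599654 107374183 1967734667 281104953 3092154473 281104953 = 1 := by decide +kernel

theorem c9_159 : go p9 60 0x32191a90c8642d190c85c8a44d48642e485490a68a90c8d486431a32190b91485a90c85c90a913453
    1181116006 107374183 (-281104951) 281104953 5903203997 281104953 = 1 := by decide +kernel

theorem c9_41 : go p9 60 0x32290990c85488b90c84c8629116a432185c8642d191c85486232b909a9c862911ad486190c2e430d68b
    2469606196 107374183 (-421657427) 140552477 3654364379 281104953 = 1 := by decide +kernel

theorem c9_196 : go p9 60 0xc8642643212a430c8614e432132152190a66432132190a52186432129c8643212a43214ca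
    1073741824 214748365 562209905 562209905 4778784187 281104953 = 1 := by decide +kernel

theorem c9_54 : go p9 60 0xdb2172190b56391a2ad90c3212d486430b90c8616a485c8d14ec8642a445590c2a4321522299
    1503238554 214748365 1967734667 281104953 3092154473 281104953 = 1 := by decide +kernel

theorem c9_136 : go p9 60 0xc8646a432346432172190b52190b91485a2a432132190952390c66431c863293
    1181116006 107374183 (-281104951) 281104953 5340994091 281104953 = 1 := by decide +kernel

theorem c9_379 : go p9 60 0xc8a432266432272190a9213242532e45219133218a432172190b45a
    3221225472 214748365 (-562209903) 562209905 5059889139 562209905 = 1 := by decide +kernel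

theorem c9_378 : go p9 60 0xc90b9216a43217219212d192172485352190c84b92132290968a
    2791728742 214748365 (-562209903) 562209905 5340994091 281104953 = 1 := by decide +kernel

theorem c9_141 : go p9 60 0xc8642a431290c5214e484c8548625218a4299
    1073741824 214748365 (-1967734665) 281104953 5903203997 281104953 = 1 := by decide +kernel

theorem c9_58 : go p9 60 0x36c86156429d90ab214cab2190a90c85390c854862653
    1073741824 214748365 1686629715 562209905 3935469331 562209905 = 1 := by decide +kernel

theorem c9_2 : go p9 60 0x321aabaab92a35575575566a
    1288490189 429496730 (-5622099044) 1124419810 5059889139 562209905 = 1 := by decide +kernel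

end Pool.Agent.MP_5cfbf6_gt.P8.KK
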