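import Pool.Agent.MP_5cfbf6_gt.P8.KP9

set_option autoImplicit false

namespace Pool.Agent.MP_5cfbf6_gt.P8.KK

theorem c9_368 : go p9 60 0xdb219212e484c8a43214594acb119222a452190c85332290c862653b2191952190a90c85390c85486429972191390c89990c85486429c8642e432168b453
    3221225472 214748365 1686629715 562209905 3935469331 562209905 = 1 := by decide +kernel

theorem c9_190 : go p9 60 0xc8644e43216a43215218948642a431266432172352290b90c85a2a431486272190b52190a90c85390c52189a3218e485a90c85c863453
    1932735284 214748365 (-1686629713) 562209905 6184308949 562209905 = 1 := by decide +kernel

theorem c9_8 : go p9 60 0xc90b90c85a91c90b46431c86332190b9194a472132290952390990d69390c8d48a44cc8e46a47218d152290a90c85190c321909499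
    1288490189 429496730 (-2811049521) 562209905 5059889139 562209905 = 1 := by decide +kernel

theorem c9_133 : go p9 60 0xc8642a44e431485a9213242548642948642a449990c85c86352290b90c48a90c7218948a42e432148c8642a4521453
    966367642 107374183 (-843314855) 281104953 5340994091 281104953 = 1 := by decide +kernel

theorem c9_218 : go p9 60 0xd90d88b90c86445ab6436329c86446432152391a2d191486445c8a43222d48a44643215239122e432152190990c85a68a
    2362232014 214748365 562209905 562209905 5340994091 281104953 = 1 := by decide +kernel

theorem c9_81 : go p9 60 0xdb2185486429db214e432425a2adb24255b2168b5219119148622e484c86445a91488c8642e432165c8a446431486428b453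
    2040109466 107374183 1967734667 281104953 3092154473 281104953 = 1 := by decide +kernel

theorem c9_220 : go p9 60 0x36c85c90b5642e432190a68ab6c85356d90a68c90a90c85390c85486429a90c84c8642948a485190c84c864252653
    1932735284 214748365 562209905 562209905 6184308949 562209905 = 1 := by decide +kernel

theorem c9_67 : go p9 60 0x32190b90c85a90c85c8642d190c84d75390c85cad48642e568d6a432172190b52390a321ae566a72395a90c851ad1
    1825361102 107374183 1827182191 140552477 2389392093 140552477 = 1 := by decide +kernel

theorem c9_178 : go p9 60 0x32190a91488b91484c86425a90c85486429c8643214d19213217242a42cc8642e4321652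
    1932735284 214748365 (-1686629713) 562209905 4778784187 281104953 = 1 := by decide +kernel

theorem c9_111 : go p9 60 0x36290990c84b91484c86425a90c85486429991484c86425c8a42642d48642a43214ca
    2040109466 107374183 1405524763 281104953 3513811903 140552477 = 1 := by decide +kernel

theorem c9_287 : go p9 60 0x3219212e43216a43213219117242643212d192132425c86b52291192135390c84d68b
    3113851290 107374183 702762381 140552477 3092154473 281104953 = 1 := by decide +kernel

theorem c9_277 : go p9 60 0x3242e43216a485c8648534643217242642d48642e432152190968b
    2738041651 53687092 491933667 70276239 3232706949 140552477 = 1 := by decide +kernel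

theorem c9_295 : go p9 60 0xc8642a43213214e432172190b464321321909721ad490b91990d68b
    2952790015 53687092 1475801001 70276239 2670497045 140552477 = 1 := by decide +kernel

theorem c9_265 : go p9 60 0x32190a92132445c86431346472152446484d4e431568b
    3221225472 214748365 (-843314855) 281104953 3935469331 562209905 = 1 := by decide +kernel

theorem c9_304 : go p9 60 0x32190a86432150b90c85486429c8ca
    2845415833 53687092 2108287143 140552477 2389392093 140552477 = 1 := by decide +kernel

theorem c9_27 : go p9 60 0xc86aae435566aae4355721aab35566a
    1288490189 429496730 (-1124419808) 1124419810 2811049521 562209905 = 1 := by decide +kernel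

end Pool.Agent.MP_5cfbf6_gt.P8.KK
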