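import Pool.Agent.MP_5cfbf6_gt.P8.KP9

set_option autoImplicit false

namespace Pool.Agent.MP_5cfbf6_gt.P8.KK

theorem c9_30 : go p9 60 0xc8a44645222a43213219094e432132190952190a66452132185486426429c8642642a43214ca90c85c8642d48642a43214cc8642a555390c85486a653
    1503238554 214748365 (-562209903) 562209905 3935469331 562209905 = 1 := by decide +kernel

theorem c9_130 : go p9 60 0xc90990a90c4a432152189390c84c8548642948642a449990c85c8d48642e468a90c85485486429c86290a90c85332190b90c6a4522653
    1503238554 214748365 (-1686629713) 562209905 5059889139 562209905 = 1 := by decide +kernel

theorem c9_361 : go p9 60 0xc8a485190c85486428b90c85486428c8e46a47242d16a45242e485a32291a90c85c8642d172190a91c8d19217242d490b90c85a2d1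
    2791728742 214748365 281104953 281104953 4216574283 281104953 = 1 := by decide +kernel

theorem c9_372 : go p9 60 0x3242e485a91c8d190c86172190a90c85352190b90c85a2e432172190b5242e485a32190c2e45232a432172190b45a
    2684354560 107374183 (-1405524761) 281104953 4778784187 281104953 = 1 := by decide +kernel

theorem c9_273 : go p9 60 0x32191190c88b91486428c8a432145a90c8d48a468c8e46a47218d172391a92172190b46452190a35b46432a321959a8d753
    2738041651 53687092 210828715 70276239 3232706949 140552477 = 1 := by decide +kernel

theorem c9_210 : go p9 60 0xc8642645222e43213229116a430c8a425c86191484b46432132291172190990c84b5218643212e430c86168a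
    2040109466 107374183 843314857 281104953 4638231711 140552477 = 1 := by decide +kernel

theorem c9_209 : go p9 60 0xd90b90c85ab217242d190c85c8642d48e468a90c85c8642d48642e432168c8642e43216a4321723453
    1825361102 107374183 843314857 281104953 4778784187 281104953 = 1 := by decide +kernel

theorem c9_276 : go p9 60 0x3219212e484c86445a92152190a72190c84a90c84c86445346484c90972446b52190a90d4e432235d68b
    2738041651 53687092 351381191 70276239 3232706949 140552477 = 1 := by decide +kernel

theorem c9_204 : go p9 60 0xdb6391ab1c86345590ab2146432152190a29db2172190990b5643215628ca90c8532ac855b1332290b9148994ca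
    1073741824 214748365 562209905 562209905 6465413901 281104953 = 1 := by decide +kernel

theorem c9_192 : go p9 60 0xc8642a484c85390c85486429a90c84c90952426484a52191190c84a90c84c909499
    1932735284 214748365 (-843314855) 281104953 5903203997 281104953 = 1 := by decide +kernel

theorem c9_285 : go p9 60 0x32390c521a9992135a90c85c8d49099212e432425a321ae484d66a72190a90c85c86b46b46b
    3221225472 214748365 281104953 281104953 2811049521 562209905 = 1 := by decide +kernel

theorem c9_108 : go p9 60 0xc90b91a90c9097219212d190c85c8642d48644643222e484c86268b
    2469606196 107374183 702762381 140552477 4216574283 281104953 = 1 := by decide +kernel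

theorem c9_317 : go p9 60 0xc86426485490a2e432132190a90c8516a430c8a425c8619142d1
    3060164199 53687092 1616353477 70276239 2740773283 70276239 = 1 := by decide +kernel

theorem c9_34 : go p9 60 0xc8e42a431195c84d4e432152235a91484c86a722909ad1
    2362232014 214748365 (-1967734665) 281104953 4216574283 281104953 = 1 := by decide +kernel

theorem c9_161 : go p9 60 0x3219119222a484c85290c88c909524264293
    1020054733 53687092 (-983867331) 140552477 6324861425 140552477 = 1 := by decide +kernel

theorem c9_122 : go p9 60 0xd
    2362232014 214748365 1967734667 281104953 3654364379 281104953 = 1 := by decide +kernel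

theorem c9_385 : go p9 60 0xd
    3006477107 429496730 1686629715 562209905 5059889139 562209905 = 1 := by decide +kernel

end Pool.Agent.MP_5cfbf6_gt.P8.KK
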