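import Pool.Agent.MP_5cfbf6_gt.P8.KP9

set_option autoImplicit false

namespace Pool.Agent.MP_5cfbf6_gt.P8.KK

theorem c9_318 : go p9 60 0x32426484b90c85a90c84c86425c9099212d192132172190b5219119222e472191328b90c85c8642d486484b90c90968c8642e56a472190b32426b45a
    3167538381 53687092 1546077239 140552477 2670497045 140552477 = 1 := by decide +kernel

theorem c9_256 : go p9 60 0xc9119222e488c92145a91c8d490b90c85a32390c85a90c85c9099212d172190b90c85a90c90972426484b46488c86b52426484b92135a2d1
    2899102924 107374183 (-140552475) 140552477 3513811903 140552477 = 1 := by decide +kernel

theorem c9_74 : go p9 60 0xd90a90c853b215642a485a66484c90972426484b5642a43212e432132190968b90c85c8642d486431390c85a32190b90d6a4321521a9c86b45a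
    1986422375 53687092 2108287143 140552477 2389392093 140552477 = 1 := by decide +kernel

theorem c9_55 : go p9 60 0x3218642a43214e432152190a66432185486429c8642a43214ca90c85486429c8a44cc8642a43214e432152190a653
    1073741824 214748365 562209905 562209905 3935469331 562209905 = 1 := by decide +kernel

theorem c9_20 : go p9 60 0xc8e46647232a43242a172186191490a2d292185c8cc86190c4e490a65486291392152266485486429c862913293
    1932735284 214748365 (-2811049521) 562209905 6184308949 562209905 = 1 := by decide +kernel

theorem c9_362 : go p9 60 0xc86426432172428b90c84c8642a432145a92132190a32190a91c86145c8642a432146432152190b90c85a2d1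
    2791728742 214748365 843314857 281104953 4216574283 281104953 = 1 := by decide +kernel

theorem c9_346 : go p9 60 0x3642a43214e432146430c86172186430b52391a2e432152190a72190a32190c2e432185a91c90b45a
    3060164199 53687092 1827182191 140552477 2951601997 140552477 = 1 := by decide +kernel

theorem c9_45 : go p9 60 0x3242e46a472346432172190c2d48642e485a2e485c90b52191a32190c2e43216a432172190b45a
    2469606196 107374183 (-843314855) 281104953 4216574283 281104953 = 1 := by decide +kernel

theorem c9_198 : go p9 60 0x32190a90c85190c84c86425290c85486428c8642a432145391488c86190c2948a4264522299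
    1503238554 214748365 281104953 281104953 4778784187 281104953 = 1 := by decide +kernel

theorem c9_98 : go p9 60 0x3219099212e484c85a90c90a72186430b46432185c8619215212d48642e432168b
    2469606196 107374183 421657429 140552477 3654364379 281104953 = 1 := by decide +kernel

theorem c9_25 : go p9 60 0x3218a43214e432152190a52190b9216a472149990c88c86432145c9119222d2
    3006477107 429496730 (-3373259426) 1124419810 6184308949 562209905 = 1 := by decide +kernel

theorem c9_78 : go p9 60 0x32190c84b90c86425a90c86172190c2d190c85c8642cc8642e4321652
    1825361102 107374183 1405524763 281104953 3232706949 140552477 = 1 := by decide +kernel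

theorem c9_297 : go p9 60 0xd8e46a43215222e432152445990c85488c8642a425c8642a44ca
    2684354560 107374183 1967734667 281104953 2529944569 281104953 = 1 := by decide +kernel

theorem c9_228 : go p9 60 0xc86191488b90c85486432269a90c86172190c2d1
    2684354560 107374183 (-1264972285) 140552477 4357126759 140552477 = 1 := by decide +kernel

theorem c9_259 : go p9 60 0x3218645212e430c8a445a90c86172190c2d1
    2684354560 107374183 (-983867331) 140552477 4357126759 140552477 = 1 := by decide +kernel

theorem c9_206 : go p9 60 0xd
    1288490189 429496730 1686629715 562209905 6184308949 562209905 = 1 := by decide +kernel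

end Pool.Agent.MP_5cfbf6_gt.P8.KK
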