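import Pool.Agent.MP_5cfbf6_gt.P8.KP9

set_option autoImplicit false

namespace Pool.Agent.MP_5cfbf6_gt.P8.KK

theorem c9_383 : go p9 60 0x3642e485ab217242d191486429c90b90c85a2a432425c86484b5242643222e484c86445a32190c84b90c86425a90c84c8a485172190991486428b453
    2791728742 214748365 562209905 562209905 5059889139 562209905 = 1 := by decide +kernel

theorem c9_105 : go p9 60 0xc8644645222e43215218a431166432132291172291190c8532a452188c90990a7218a431190c8548622cc8642a43214e4321522911653
    2254857832 107374183 702762381 140552477 4216574283 281104953 = 1 := by decide +kernel

theorem c9_166 : go p9 60 0xc9099212a484c9094a484c90952426488a4e45218cc8a43216548a43216645242ca52292166452190b2a485c8644cc90b90c899499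
    966367642 107374183 (-702762379) 140552477 6605966377 140552477 = 1 := by decide +kernel

theorem c9_364 : go p9 60 0x32446432390a2e484c86432145a90c85c8a44cc90b9216a432172190b45c8642a472346485c90b52190b90c85a2d1
    3221225472 214748365 843314857 281104953 3654364379 281104953 = 1 := by decide +kernel

theorem c9_115 : go p9 60 0xdb643212a472352190a2ec8548a42594ad91c84a91c8d486428b91c8d486428c8e46a432145ab2152290972290991484b453
    2040109466 107374183 1405524763 281104953 4216574283 281104953 = 1 := by decide +kernel

theorem c9_235 : go p9 60 0xc8645212e430c90a9116a432172190c2d190c85488c8642a445c8642a44643215222d486190c2e430c86168b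
    2738041651 53687092 (-632486141) 70276239 3794916855 140552477 = 1 := by decide +kernel

theorem c9_348 : go p9 60 0xd90a90c853b2152190a66484c90952192166432190a29c86426432172190b2e432132190a90c85168b
    3167538381 53687092 1897458429 70276239 2951601997 140552477 = 1 := by decide +kernel

theorem c9_234 : go p9 60 0xc8a42643215222e452132190a9116a432185c8642d190c85488c861a9c8642a446b52186430b90d68b
    2738041651 53687092 (-773038617) 70276239 3794916855 140552477 = 1 := by decide +kernel

theorem c9_14 : go p9 60 0xc8642e431a90c52252290a6647235218e431a2a47235218e468c9139215216a472190b453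
    1503238554 214748365 (-2811049521) 562209905 6184308949 562209905 = 1 := by decide +kernel

theorem c9_270 : go p9 60 0x32190b90c85a90c85c8642d190d721acd4e432152190a35d6a4321521321aa425c8642a426b46b
    2630667469 53687092 70276239 70276239 3232706949 140552477 = 1 := by decide +kernel

theorem c9_137 : go p9 60 0xc8e42643212a43213214a430c85486429390c84c8642548642948642a4321499
    1503238554 214748365 (-843314855) 281104953 4778784187 281104953 = 1 := by decide +kernel

theorem c9_37 : go p9 60 0x32190c2a431490a2e431488c86425a90c85486429c8642a45212d1
    1932735284 214748365 (-843314855) 281104953 4216574283 281104953 = 1 := by decide +kernel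

theorem c9_242 : go p9 60 0xc86190c84b90c85a90c85c8642d190c84c84d75390c85c86b52390a35a
    2630667469 53687092 (-421657427) 140552477 3513811903 140552477 = 1 := by decide +kernel

theorem c9_43 : go p9 60 0x3218643215212e432132190a9116a432172190c2d1
    2469606196 107374183 (-140552475) 140552477 3794916855 140552477 = 1 := by decide +kernel

theorem c9_387 : go p9 60 0x36484d8a43214cab24264322722914893253
    3865470567 429496730 1124419810 1124419810 5622099044 1124419810 = 1 := by decide +kernel

theorem c9_342 : go p9 60 0x36db1d90b3642ec8592d3
    3167538381 53687092 2178563381 70276239 2670497045 140552477 = 1 := by decide +kernel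

end Pool.Agent.MP_5cfbf6_gt.P8.KK
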