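import Pool.Agent.MP_5cfbf6_gt.P8.KP9

set_option autoImplicit false

namespace Pool.Agent.MP_5cfbf6_gt.P8.KK

theorem c9_142 : go p9 60 0x32190b90c85991c8632a43223219094a47218cc86425490990a4e452272190b5218a44e452168c8e431990c84a5218e44a4321722464321321499
    1073741824 214748365 (-1405524761) 281104953 5903203997 281104953 = 1 := by decide +kernel

theorem c9_366 : go p9 60 0xdb2156428c8642e43216a432265c8644e432146432172190b52391a2d590a91486428bb2352390c84a66432352390c84a32390a91c8cc8642d168a
    2791728742 214748365 1686629715 562209905 3654364379 281104953 = 1 := by decide +kernel

theorem c9_13 : go p9 60 0xc8e42a43214a431485390c7218d48e46948642a449991485c8a42d48642a44a43214ca90c72352190a9133239216a4522653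
    1073741824 214748365 (-2811049521) 562209905 6184308949 562209905 = 1 := by decide +kernel

theorem c9_310 : go p9 60 0xc86430b90c8616a432152190a66452232190a90c8515219214e432429991486429c8643214ca7218648542e430c8642a168b
    2899102924 107374183 1546077239 140552477 3092154473 281104953 = 1 := by decide +kernel

theorem c9_143 : go p9 60 0xc8642e43216a431c8634a43217218d486429390c88c9097242642d490990b90c85a52190b90c85a90c721499
    1073741824 214748365 (-1967734665) 281104953 6465413901 281104953 = 1 := by decide +kernel

theorem c9_333 : go p9 60 0xc90a92146432152190a2e432152190a32190a90c8d16a432428c90a9216548642a432166432152190a299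
    3060164199 53687092 1756905953 70276239 2600220807 70276239 = 1 := by decide +kernel

theorem c9_42 : go p9 60 0xc90b9216a432146432172190b52190a2e485c90b52190a32190b90d6a432145a90c32185c86190c2d1
    2469606196 107374183 (-140552475) 140552477 3513811903 140552477 = 1 := by decide +kernel

theorem c9_262 : go p9 60 0xc8e42a432425c9099212d19217242d486446432152392168b90c86429c8642a485c8645224d328b
    2899102924 107374183 (-702762379) 140552477 4216574283 281104953 = 1 := by decide +kernel

theorem c9_246 : go p9 60 0xc86191484b90c3229096a432185c86430b46432152232186a722909ad48a42655212e430d68b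
    2630667469 53687092 (-210828713) 70276239 3513811903 140552477 = 1 := by decide +kernel

theorem c9_23 : go p9 60 0xc8642a472346432428c8e568a90d7554e432232425c8642a43214d48642a435390c88d694909aaba99
    3435973837 858993460 (-5622099044) 1124419810 5622099044 1124419810 = 1 := by decide +kernel

theorem c9_179 : go p9 60 0xc86290c4e43226a432152190a7218a42d190c8617218642d48642e432268a
    1932735284 214748365 (-1686629713) 562209905 5340994091 281104953 = 1 := by decide +kernel

theorem c9_46 : go p9 60 0xc8e46643232a485c8cc8642e46539217242d486428c8642e42a472345a
    2254857832 107374183 (-281104951) 281104953 4216574283 281104953 = 1 := by decide +kernel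

theorem c9_201 : go p9 60 0x36432152190a2ac8642548642a4321453b218a445590c2a4522299
    1503238554 214748365 843314857 281104953 5340994091 281104953 = 1 := by decide +kernel

theorem c9_233 : go p9 60 0x32391a91190c85c8642d48622e47235223242e56a445a
    2630667469 53687092 (-702762379) 140552477 3794916855 140552477 = 1 := by decide +kernel

theorem c9_125 : go p9 60 0x36c90952190a91c8d17643212a47233239194ca
    2254857832 107374183 1264972287 140552477 4357126759 140552477 = 1 := by decide +kernel

theorem c9_126 : go p9 60 0xd
    2254857832 107374183 1546077239 140552477 4216574283 281104953 = 1 := by decide +kernel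

end Pool.Agent.MP_5cfbf6_gt.P8.KK
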