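import Pool.Agent.MP_5cfbf6_gt.P8.KP9

set_option autoImplicit false

namespace Pool.Agent.MP_5cfbf6_gt.P8.KK

theorem c9_176 : go p9 60 0x3242643212a432132425290c88c86445486446432229391c8642cc8e43216548e432166472190b2948e432166472190b2a472190b32390c859499
    1503238554 214748365 (-843314855) 281104953 6465413901 281104953 = 1 := by decide +kernel

theorem c9_70 : go p9 60 0x32391a91c8d190c85c90b52190b90c85a2e472352391a3242e46a432172345a91c8d486428c8e46a432145c8e46a432146472352190a2d1
    1825361102 107374183 1827182191 140552477 2670497045 140552477 = 1 := by decide +kernel

theorem c9_69 : go p9 60 0xd90a90c321853b2172190b46432132190972190990c84b52190b90c85a2e432185c8642d48642e432168c86190c2e435a90c85c86b45a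
    1879048193 53687092 2108287143 140552477 2389392093 140552477 = 1 := by decide +kernel

theorem c9_106 : go p9 60 0x32190a91c8d191c8548e468b91c8d48e468c8e46a472345990c85486428c8642a432145c8642a432146432152190a2ca
    2254857832 107374183 983867333 140552477 4076021807 140552477 = 1 := by decide +kernel

theorem c9_18 : go p9 60 0x3218a446472152428b92132152426429a90c85486429c8642a43214d191486291132290c52225c90c4648622d2
    2362232014 214748365 (-2811049521) 562209905 5340994091 281104953 = 1 := by decide +kernel

theorem c9_77 : go p9 60 0xc8a446432152190a2e432152190a6a45213218a445c8642645212d190c84c86272190c2cc8642e4321652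
    1825361102 107374183 1405524763 281104953 2951601997 140552477 = 1 := by decide +kernel

theorem c9_39 : go p9 60 0xc86191484b90c32185a90c85c8642d190d52135d4e430c86172186b52190b90d68d6a432152232b86a72190a911ad1
    2362232014 214748365 (-843314855) 281104953 3654364379 281104953 = 1 := by decide +kernel

theorem c9_191 : go p9 60 0x3229216643232a472191a5239122a485c86430b52190b92168c86484b90c8616a485c86430b453
    2362232014 214748365 (-1686629713) 562209905 6184308949 562209905 = 1 := by decide +kernel

theorem c9_12 : go p9 60 0xc9214e485486429a9217229214d192428c9119222dc9119222e488c9116dc8642e43214d2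
    1503238554 214748365 (-3935469331) 562209905 6465413901 281104953 = 1 := by decide +kernel

theorem c9_380 : go p9 60 0xc86488b90c86429a91486428c90b91a52426484b90c8549096a432425c86484b499
    3006477107 429496730 (-1686629713) 562209905 6184308949 562209905 = 1 := by decide +kernel

theorem c9_327 : go p9 60 0x32190a90c85190c84d4e432152190a35a90c85490b91a321aa435d45c8642a432146b46b
    3060164199 53687092 1756905953 70276239 2389392093 140552477 = 1 := by decide +kernel

theorem c9_155 : go p9 60 0xc8a44e45216a432152190a72190a9134643217218a44cc8642e4321652
    1181116006 107374183 (-843314855) 281104953 5762651521 140552477 = 1 := by decide +kernel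

theorem c9_174 : go p9 60 0x3229199148ca90c8cc86445291c8cc8e46548a4664322293
    1610612736 107374183 (-843314855) 281104953 5903203997 281104953 = 1 := by decide +kernel

theorem c9_280 : go p9 60 0x3242a485190d4e432b52190d68d6a485484caa425c8656a4851ad1
    2684354560 107374183 702762381 140552477 2951601997 140552477 = 1 := by decide +kernel

theorem c9_373 : go p9 60 0x32190c85190c90b91a2e488c90c45a
    2899102924 107374183 (-1405524761) 281104953 4778784187 281104953 = 1 := by decide +kernel

theorem c9_274 : go p9 60 0x321909aea90d721351aea
    2684354560 107374183 421657429 140552477 2951601997 140552477 = 1 := by decide +kernel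

end Pool.Agent.MP_5cfbf6_gt.P8.KK
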