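import Pool.Agent.MP_5cfbf6_gt.P8.KP9

set_option autoImplicit false

namespace Pool.Agent.MP_5cfbf6_gt.P8.KK

theorem c9_336 : go p9 60 0x32190c85190c86428b90c88c86445a90c85486428c8642a432145c8a44645222d190c8623219097219099212d486290c4643222e432232191168b
    3167538381 53687092 1756905953 70276239 2670497045 140552477 = 1 := by decide +kernel

theorem c9_309 : go p9 60 0x32190c84b90c8a425a90c85c86430b4643215242cc90b9216a432189972190a92166485c8d48e428b5228643215212e452132190a90968b
    2899102924 107374183 1264972287 140552477 3092154473 281104953 = 1 := by decide +kernel

theorem c9_90 : go p9 60 0xc8642a44645212e452132185a90c32172190b46430c85c8642d48642a43132e45213217218642d48642e431a3218e46a452165a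
    2040109466 107374183 843314857 281104953 3654364379 281104953 = 1 := by decide +kernel

theorem c9_10 : go p9 60 0xc8a44a43242939148948644999239095218e449c8a451b9146e43148626d490a9217242a42d290c8635218e432429a4ca
    1073741824 214748365 (-3935469331) 562209905 6465413901 281104953 = 1 := by decide +kernel

theorem c9_231 : go p9 60 0xc8a426431484b91484c8a425a90c85c8642d190c35484d75390c321909721ad48642e435a35a91c85488cae1a9c8642a446b46b
    2684354560 107374183 (-983867331) 140552477 3654364379 281104953 = 1 := by decide +kernel

theorem c9_197 : go p9 60 0xd91488ab1588c864253b2190952190990c84a6645223242a44548a426432149c8642645222a43213229094ca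
    1073741824 214748365 562209905 562209905 5340994091 281104953 = 1 := by decide +kernel

theorem c9_340 : go p9 60 0xd90ab2346431c8642cb90c8548e468c8642a432165ab2356428c8642e432165c8e46a432146432172190b2d1
    3167538381 53687092 2038010905 70276239 2600220807 70276239 = 1 := by decide +kernel

theorem c9_56 : go p9 60 0xc8642a446431484a90c85488c8a425390c84c86152186430a66452132152186429c8642a43214ca
    1503238554 214748365 562209905 562209905 3654364379 281104953 = 1 := by decide +kernel

theorem c9_169 : go p9 60 0x32190a9214e432252429992152190a52290c85272190a90c8644529215242643242ca4ca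
    966367642 107374183 (-281104951) 281104953 6324861425 140552477 = 1 := by decide +kernel

theorem c9_82 : go p9 60 0xc8642a432190a664354aab2e432152190a90d4cd6a432152190b90c85a32426ba9c90b95a91cad1ad1
    2362232014 214748365 1405524763 281104953 2529944569 281104953 = 1 := by decide +kernel

theorem c9_306 : go p9 60 0xd90c84ab1588c90b9094ec8548a4259b1484c86425c90a9119215222d48e426472128b
    2952790015 53687092 2178563381 70276239 2389392093 140552477 = 1 := by decide +kernel

theorem c9_163 : go p9 60 0x32290c85990c85c8a48532a43217242a43214cc8642e432152190a652
    912680551 53687092 (-702762379) 140552477 6395137663 70276239 = 1 := by decide +kernel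

theorem c9_91 : go p9 60 0xc8642e431a91c8d191c8d486428a91c8d486428c8642a4453
    1825361102 107374183 281104953 281104953 4216574283 281104953 = 1 := by decide +kernel

theorem c9_44 : go p9 60 0xc86390a91c8d190c8548622e432152188c8642a445a
    2254857832 107374183 (-843314855) 281104953 4216574283 281104953 = 1 := by decide +kernel

theorem c9_1 : go p9 60 0xcaa1aa4351aeaaab90c35d55566aae435d555721aa4351aab35566a
    1717986919 858993460 (-4497679235) 2248839619 3373259426 1124419810 = 1 := by decide +kernel

theorem c9_241 : go p9 60 0xc86290c85390c85a
    2952790015 53687092 (-702762379) 140552477 3794916855 140552477 = 1 := by decide +kernel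

end Pool.Agent.MP_5cfbf6_gt.P8.KK
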