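import Pool.Agent.MP_5cfbf6_gt.P8.KP9

set_option autoImplicit false

namespace Pool.Agent.MP_5cfbf6_gt.P8.KK

theorem c9_363 : go p9 60 0x32190b90c85a90c88c8a432145c91190c86428b46484c9117219212d48642a472346485c8d48642e432168b90c52391a32190a90c85c8642d168b
    3221225472 214748365 281104953 281104953 3935469331 562209905 = 1 := by decide +kernel

theorem c9_353 : go p9 60 0x3242e432425a92425c8643214d190c88c8a432145c8a432146452391a2d48a485191c8d490b92168b90c85486428c8e485a9217242d168b
    2738041651 53687092 70276239 70276239 3513811903 140552477 = 1 := by decide +kernel

theorem c9_150 : go p9 60 0xc9099212a484c9094a432152190a4e452391a32190a90c8548995218e43148999148a42ca52190c85190c8632a432188c911499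
    966367642 107374183 (-702762379) 140552477 5762651521 140552477 = 1 := by decide +kernel

theorem c9_324 : go p9 60 0xc8642e485a90c85c8642d190c90972190b52190990c84b90c90968b9217242d490b92168c8642e43216a432172190b45a
    3167538381 53687092 1546077239 140552477 2951601997 140552477 = 1 := by decide +kernel

theorem c9_227 : go p9 60 0xc8e46a432146432172190b52390a2e452132290a91c8d485352390991cad485569a91484c8629097228645212d1
    2684354560 107374183 (-1264972285) 140552477 4076021807 140552477 = 1 := by decide +kernel

theorem c9_249 : go p9 60 0x32290c85191486428b90c86428c8a432145a91c8cc8e46548e46a43217242d172391990c8ca91c8cc86b4d1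
    2738041651 53687092 (-70276237) 70276239 3443535665 70276239 = 1 := by decide +kernel

theorem c9_296 : go p9 60 0xc8642a43213219094e432152190a6643215242cc8642a432145c8a44645222d486190c2e432172328b
    2952790015 53687092 1616353477 70276239 2670497045 140552477 = 1 := by decide +kernel

theorem c9_146 : go p9 60 0xc8642e43216a452272290b46472190b3242642d290c85c8a44cc86390c85952390c664523293
    1181116006 107374183 (-1405524761) 281104953 6465413901 281104953 = 1 := by decide +kernel

theorem c9_330 : go p9 60 0x32190b90c85a90d88c90972192146432190b2d190c86425486a72290c85190c85c90a9532a5521a8d4ca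
    3060164199 53687092 2108287143 140552477 2319115855 70276239 = 1 := by decide +kernel

theorem c9_307 : go p9 60 0x36432190a7219132ad90c2ec85952190a90c84c90b9114e48548642994ed8a172186485c2d1
    2899102924 107374183 2108287143 140552477 2670497045 140552477 = 1 := by decide +kernel

theorem c9_226 : go p9 60 0xc86190c5212e47246ca90c86172190b46471488cae1a9c919ad486190c2e430d68b
    2684354560 107374183 (-1546077237) 140552477 4216574283 281104953 = 1 := by decide +kernel

theorem c9_99 : go p9 60 0xc8642a43214e452232190966431485c8642642ca90c7218d486390c68b
    2254857832 107374183 702762381 140552477 3654364379 281104953 = 1 := by decide +kernel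

theorem c9_124 : go p9 60 0xd91c8ca91c8d48642e432168b91c8548e468c8e46a472345a
    2308544923 53687092 1264972287 140552477 4076021807 140552477 = 1 := by decide +kernel

theorem c9_221 : go p9 60 0x36432156391a2ad90d90a2d490b9216a432190a72190c853453
    2362232014 214748365 562209905 562209905 6184308949 562209905 = 1 := by decide +kernel

theorem c9_5 : go p9 60 0xc8a44e43216a47234a45227218d48e5693
    1503238554 214748365 (-5059889139) 562209905 6184308949 562209905 = 1 := by decide +kernel

theorem c9_237 : go p9 60 0x321aa4acd55d52b959aaba89aea
    2899102924 107374183 (-702762379) 140552477 3513811903 140552477 = 1 := by decide +kernel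

end Pool.Agent.MP_5cfbf6_gt.P8.KK
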