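import Pool.Agent.MP_5cfbf6_gt.P8.KP9

set_option autoImplicit false

namespace Pool.Agent.MP_5cfbf6_gt.P8.KK

theorem c9_205 : go p9 60 0xdb2425590a90c88a76432156290a2ac9095242a43214532adb2149db6429332291190c9094a485490a32190990c84a4e452188c90990c84a52291190c84c864252653
    1503238554 214748365 562209905 562209905 6184308949 562209905 = 1 := by decide +kernel

theorem c9_284 : go p9 60 0xc8645212e43213229116a43219097242643212d190c85486428c8642a432145c8642a43214643215222d48a431390c85991489c90990b28b
    2899102924 107374183 983867333 140552477 3092154473 281104953 = 1 := by decide +kernel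

theorem c9_147 : go p9 60 0xc86426484a90c85290c84c8548642939148cc8644548642642948644643212a432149990c52272190b52190a91290c5214ca
    1503238554 214748365 (-1686629713) 562209905 5903203997 281104953 = 1 := by decide +kernel

theorem c9_7 : go p9 60 0x32290990c84b9215223242a445a90c52190a321951adc8e2ad290c84d7554e472232190990c84b52190c2a435390c85c8cc92146b55a521aeaa99
    1288490189 429496730 (-3935469331) 562209905 5059889139 562209905 = 1 := by decide +kernel

theorem c9_97 : go p9 60 0xc86430b90c3229096a430c85c8642d19215213239216a445c8646a446432172190b52428b52190b90c86168b
    2469606196 107374183 140552477 140552477 3654364379 281104953 = 1 := by decide +kernel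

theorem c9_93 : go p9 60 0xc8642e43216a432172190b46432172190b52190b91a2a432172190b52190b90c68c8642e43216a4723453
    1825361102 107374183 843314857 281104953 4216574283 281104953 = 1 := by decide +kernel

theorem c9_243 : go p9 60 0x32190a90c85391484c8a425a90c84c86429c86190c2d190d521a8d75391488c86a7242a446b52186430b90c35a35a
    2738041651 53687092 (-421657427) 140552477 3513811903 140552477 = 1 := by decide +kernel

theorem c9_170 : go p9 60 0x3218e484a92132425290c8548642939213217242642d48a431991486329486484a921321911499
    966367642 107374183 (-421657427) 140552477 6605966377 140552477 = 1 := by decide +kernel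

theorem c9_123 : go p9 60 0x36432172190b2a432172190b52190b90c85a2e485c8d48642e485a32190b91a90c85c86345a
    2201170741 53687092 1264972287 140552477 4076021807 140552477 = 1 := by decide +kernel

theorem c9_15 : go p9 60 0xc8642e46a47214a435575390c52189c90a9214cc8642e42a43217214d48a42e569486a951aaba99
    2147483649 429496730 (-3935469331) 562209905 5059889139 562209905 = 1 := by decide +kernel

theorem c9_181 : go p9 60 0xc8642a44643215222e432152232190a90c8516a431488c8a445c8642645212d1
    2362232014 214748365 (-1405524761) 281104953 4778784187 281104953 = 1 := by decide +kernel

theorem c9_257 : go p9 60 0x3219212e432445a9215242a432145c8643212a43233242e48594d1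
    2899102924 107374183 (-140552475) 140552477 3794916855 140552477 = 1 := by decide +kernel

theorem c9_75 : go p9 60 0xc8642ec52266432152190b90c85a2e432152391a32190a92172b45a
    2093796557 53687092 2108287143 140552477 2389392093 140552477 = 1 := by decide +kernel

theorem c9_311 : go p9 60 0x36d90b90c25390c72190a32190c29d90b9216a430c9094ca
    2684354560 107374183 1967734667 281104953 3092154473 281104953 = 1 := by decide +kernel

theorem c9_3 : go p9 60 0x32391a91cad295575391c8d48e5694aaba99
    1288490189 429496730 (-6184308949) 562209905 6184308949 562209905 = 1 := by decide +kernel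

theorem c9_293 : go p9 60 0x321909aa4309aea90d509aea
    2899102924 107374183 1546077239 140552477 2389392093 140552477 = 1 := by decide +kernel

end Pool.Agent.MP_5cfbf6_gt.P8.KK
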