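import Pool.Agent.MP_5cfbf6_gt.P8.KP9

set_option autoImplicit false

namespace Pool.Agent.MP_5cfbf6_gt.P8.KK

theorem c9_216 : go p9 60 0xd90b9216ac85c8642d190c86445c8643212d48642645222e432132190a68b9217242d48642e485a3219212e432189a90c85486429c86290c85345a
    2254857832 107374183 843314857 281104953 4778784187 281104953 = 1 := by decide +kernel

theorem c9_118 : go p9 60 0xc8e46a431c90b46472352391a2e472352391a32391991c8ca6a432172190b5218e431a3218e46a472345c8642e46a472346472352390a2d1
    2254857832 107374183 1264972287 140552477 3794916855 140552477 = 1 := by decide +kernel

theorem c9_238 : go p9 60 0xc8a446452352190a2e489c8a44d48a44a452272391a4e452252391a91c8d269a91c8d48e468caab959a9c8e46a47234a57554e472b52b95a55aad3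
    2818572287 26843546 (-773038617) 70276239 3794916855 140552477 = 1 := by decide +kernel

theorem c9_129 : go p9 60 0x32190990a90c85290c85485390c84c85486252190a90a6643148627218a44ca90c52152189c86290a90c4cc8a44e4522653
    1073741824 214748365 (-1686629713) 562209905 5059889139 562209905 = 1 := by decide +kernel

theorem c9_59 : go p9 60 0xdb6472129591c8d48642ca76c852b229094cab647212a472352188a91c8d486428c8e46a4321453b2152290952290991484a653
    1503238554 214748365 1686629715 562209905 3935469331 562209905 = 1 := by decide +kernel

theorem c9_200 : go p9 60 0xc8642a43214643213229094a432352190a32390991c84a4e485488c86426432129490a91190c321909499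
    1503238554 214748365 281104953 281104953 5340994091 281104953 = 1 := by decide +kernel

theorem c9_83 : go p9 60 0x362913b2425c9099212d191c8d49119222e484c90968b91c8d49099212e432425a32395a92132425c86b45a
    2254857832 107374183 1967734667 281104953 2529944569 281104953 = 1 := by decide +kernel

theorem c9_371 : go p9 60 0xc86290c4e43216a485c8548642e432268c8642e44a432172291345c8a43213234648a424c9194d1
    2791728742 214748365 (-1967734665) 281104953 4778784187 281104953 = 1 := by decide +kernel

theorem c9_152 : go p9 60 0xc90a91c8642d190c85c8642e484c85a2a432172426484a90c85332190b90c854862652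
    912680551 53687092 (-702762379) 140552477 5973480235 70276239 = 1 := by decide +kernel

theorem c9_168 : go p9 60 0xc8a44e45226a432152190a52190a90c85266432272190b52190a90c85390c52190a68a
    1181116006 107374183 (-843314855) 281104953 6605966377 140552477 = 1 := by decide +kernel

theorem c9_72 : go p9 60 0xc86291c8d190cacd4e452188d6a432172352190b90c85a321909aea72390a91cad1ad1
    2040109466 107374183 1827182191 140552477 2389392093 140552477 = 1 := by decide +kernel

theorem c9_131 : go p9 60 0x32190990c84a90c85290c85486429390c85486428c8642948a4464321499
    1073741824 214748365 (-843314855) 281104953 4778784187 281104953 = 1 := by decide +kernel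

theorem c9_250 : go p9 60 0x32190c88b9213219116a432192129c8642a43213219094d1
    2738041651 53687092 (-70276237) 70276239 3584088141 70276239 = 1 := by decide +kernel

theorem c9_289 : go p9 60 0xc90990c88b92132425a90c84c8a445c8642645222d1
    3113851290 107374183 983867333 140552477 3232706949 140552477 = 1 := by decide +kernel

theorem c9_286 : go p9 60 0x321aa435d464321a8d721ae4359aab351aea
    3221225472 214748365 843314857 281104953 2529944569 281104953 = 1 := by decide +kernel

theorem c9_314 : go p9 60 0x321ae4a8d66a90cacd55c86a90d46b351aea
    3113851290 107374183 1546077239 140552477 2389392093 140552477 = 1 := by decide +kernel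

end Pool.Agent.MP_5cfbf6_gt.P8.KK
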