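import Pool.Agent.MP_5cfbf6_gt.P8.KP9

set_option autoImplicit false

namespace Pool.Agent.MP_5cfbf6_gt.P8.KK

theorem c9_95 : go p9 60 0xc8642a432146472152190a2e432152188c8642a43116a452132290972290991484b4645223218a445c8a42645222d48a42645212e430c86168a
    2040109466 107374183 843314857 281104953 4357126759 140552477 = 1 := by decide +kernel

theorem c9_62 : go p9 60 0x32286450b90c85484c8642a425a90c85c8642d195435c86b35391c8642d488cae1a9c8642e435a911ad48e426435a35a90c85490b91a321ae435972190a90c859ad1
    2362232014 214748365 281104953 281104953 3092154473 281104953 = 1 := by decide +kernel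

theorem c9_258 : go p9 60 0xc8646a432146432185c86430b5242e485a2e472352190a32190c2e43216a485c90b45a91484c8642a445c8a42643215222d1
    2684354560 107374183 (-983867331) 140552477 4076021807 140552477 = 1 := by decide +kernel

theorem c9_85 : go p9 60 0x32190990b90c84c85a90c84c8615242642999213217218d48642a43214ca90c85486429c8642e432168c86291390c721453
    2254857832 107374183 1405524763 281104953 3092154473 281104953 = 1 := by decide +kernel

theorem c9_338 : go p9 60 0x32190a90c85190c85486428b91486428c8a432145a90c85486428c8642a432145c8642a432146432152190a2d1
    3167538381 53687092 1897458429 70276239 2740773283 70276239 = 1 := by decide +kernel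

theorem c9_279 : go p9 60 0xc8644643212e43223219096a452272190a91352191a91c8d392172190b52190b90d69a26432132190d44d753
    2899102924 107374183 421657429 140552477 3092154473 281104953 = 1 := by decide +kernel

theorem c9_36 : go p9 60 0xc8642a44643148cb90c85488c86445a90c84c85c86426450b46432132190972186b52291190c84b90d68a
    1932735284 214748365 (-562209903) 562209905 3654364379 281104953 = 1 := by decide +kernel

theorem c9_86 : go p9 60 0xc86390c85a9213217242642d191c8642d48e468b90c85c8642d486390c68c86466484a91c90b45a
    2469606196 107374183 1405524763 281104953 3092154473 281104953 = 1 := by decide +kernel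

theorem c9_183 : go p9 60 0x3219099212a432132425390c85486429a91c8cc86425486426432129c8642642a43214d1
    1932735284 214748365 (-843314855) 281104953 4778784187 281104953 = 1 := by decide +kernel

theorem c9_96 : go p9 60 0xc8642e432166431c8632a485c8642d48e448b92172190b52391a3218e42a472345a
    2254857832 107374183 281104953 281104953 3654364379 281104953 = 1 := by decide +kernel

theorem c9_339 : go p9 60 0xdb6430bb242594ec86172190b91956290c85332186430b90c32185a90c85490990c88a65a
    3060164199 53687092 2108287143 140552477 2670497045 140552477 = 1 := by decide +kernel

theorem c9_278 : go p9 60 0x32191190ca8b90c88d6a432152a72190b90c8ca90d75332195a90c8cc86b46b46b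
    2899102924 107374183 140552477 140552477 3092154473 281104953 = 1 := by decide +kernel

theorem c9_68 : go p9 60 0xd90b91ab1c85191c8d48e428b92172190b52391a32190b90d6a432b45a
    1771674011 53687092 2108287143 140552477 2389392093 140552477 = 1 := by decide +kernel

theorem c9_267 : go p9 60 0x3218a472152191390c85a26432190b90d68a90d524351aea353
    3865470567 429496730 (-1124419808) 1124419810 3373259426 1124419810 = 1 := by decide +kernel

theorem c9_367 : go p9 60 0xdb2190990c85484b90d90a32290991c8d1652
    2791728742 214748365 1686629715 562209905 4216574283 281104953 = 1 := by decide +kernel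

theorem c9_61 : go p9 60 0x32a951ae435cacd46baaa
    2362232014 214748365 562209905 562209905 2529944569 281104953 = 1 := by decide +kernel

end Pool.Agent.MP_5cfbf6_gt.P8.KK
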