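import Pool.Agent.MP_5cfbf6_gt.P8.KP9

set_option autoImplicit false

namespace Pool.Agent.MP_5cfbf6_gt.P8.KK

theorem c9_175 : go p9 60 0xc8642643222a43233229194a432232291952391991c8ca4e432132391952390c85992172190b2948a42647232a432172190b32190b90c859499
    1503238554 214748365 (-281104951) 281104953 5903203997 281104953 = 1 := by decide +kernel

theorem c9_275 : go p9 60 0x3242e43216a43242d190c85c86190c2d486432168b90c3229097242a44643215222d48642e432185a32290995484b90c85488d6a432172186b45a
    2630667469 53687092 421657429 140552477 3232706949 140552477 = 1 := by decide +kernel

theorem c9_313 : go p9 60 0x32390a90c8cc91946435486ba8b90c52190b95a35a90c84c86425c8643212d486190c2e485c8ca32190990c26ba9c8642e435a91c88c86b46b46b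
    3113851290 107374183 1264972287 140552477 2529944569 281104953 = 1 := by decide +kernel

theorem c9_300 : go p9 60 0x32290c85390c89990c85c8642d48e431a2e432152190a72290c85332190b90d6a431cad16a432172332291391946435572ba8d52186a35b
    2952790015 53687092 1897458429 70276239 2389392093 140552477 = 1 := by decide +kernel

theorem c9_9 : go p9 60 0x32290b90c5226a432429486429990c84c8e425486432129c8642e46647242a48532a43217233239215242994d2
    1073741824 214748365 (-3935469331) 562209905 5903203997 281104953 = 1 := by decide +kernel

theorem c9_38 : go p9 60 0xc8642e431991c8ca91c84c86425391c8cc86425486190c29a91c8d486428c86291172190990c2a45212d1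
    1932735284 214748365 (-281104951) 281104953 4216574283 281104953 = 1 := by decide +kernel

theorem c9_264 : go p9 60 0xc8642e432425a91c8d48642e432268b91c8d48642e432168c90b9216a432190a72426485486428b45a
    2899102924 107374183 (-281104951) 281104953 4216574283 281104953 = 1 := by decide +kernel

theorem c9_135 : go p9 60 0xc8646a485490a6643235242a44d48a432425291490a4ca92152428c90a90c6a432252190a653
    966367642 107374183 (-281104951) 281104953 5340994091 281104953 = 1 := by decide +kernel

theorem c9_319 : go p9 60 0xc8a472146435d4e43217242646a431c8d332190b90c85486429952195566ba9991c8548e4314a9992135a35a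
    3328599654 107374183 1405524763 281104953 2529944569 281104953 = 1 := by decide +kernel

theorem c9_134 : go p9 60 0x32190b90c85a91485c8a42d190c72190b3239194a47218cc8a4654864264321293
    1181116006 107374183 (-843314855) 281104953 5340994091 281104953 = 1 := by decide +kernel

theorem c9_377 : go p9 60 0x3242a43234e43215242e432169a90c90a3242a432145c8a446432352190a2d1
    2791728742 214748365 (-281104951) 281104953 4778784187 281104953 = 1 := by decide +kernel

theorem c9_89 : go p9 60 0x32190b90c85a90c52266432172352290b2a472352390a32190a90c453
    1825361102 107374183 843314857 281104953 3654364379 281104953 = 1 := by decide +kernel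

theorem c9_244 : go p9 60 0x32190a92146485c90b52391a2e432152188c90b9216a472145a
    2630667469 53687092 (-421657427) 140552477 3794916855 140552477 = 1 := by decide +kernel

theorem c9_149 : go p9 60 0x32190a90c4e45216a43218cc9095218948642a4499
    966367642 107374183 (-983867331) 140552477 5762651521 140552477 = 1 := by decide +kernel

theorem c9_31 : go p9 60 0x321ae426a90c26baa4354ac9aeaaab954a8d75486aaea35566a
    2147483649 429496730 (-1124419808) 1124419810 2811049521 562209905 = 1 := by decide +kernel

theorem c9_224 : go p9 60 0xc921acd559aa435cacd52186a35d46baaa
    2791728742 214748365 (-1686629713) 562209905 3654364379 281104953 = 1 := by decide +kernel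

end Pool.Agent.MP_5cfbf6_gt.P8.KK
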