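import Pool.Agent.MP_5cfbf6_gt.P8.KP9

set_option autoImplicit false

namespace Pool.Agent.MP_5cfbf6_gt.P8.KK

theorem c9_184 : go p9 60 0xc90b90c85991c90b2a432172190b3242e432165391c8cc8a46548e466452329a9217233218e46548e46647232948e46647232a4723323909499
    1932735284 214748365 (-281104951) 281104953 4778784187 281104953 = 1 := by decide +kernel

theorem c9_103 : go p9 60 0xc90990c85390c85486429990c85c86290c4ca90c85486272190a90c85332190b90c52165390c85c8642cc8e432165486390c85991c86329a
    2254857832 107374183 281104953 281104953 4216574283 281104953 = 1 := by decide +kernel

theorem c9_263 : go p9 60 0xc8646a472346485c86430b5219212e432190968b92172190b5242e485a32191484b90c84c8642a48516a432190972191484b45a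
    2684354560 107374183 (-281104951) 281104953 4216574283 281104953 = 1 := by decide +kernel

theorem c9_65 : go p9 60 0xc8e46643212a47233219094e432152190a6a432152232190a91172290991484b46431486a721ad486190c2e435a2a435d52186a35d553
    1825361102 107374183 1405524763 281104953 2529944569 281104953 = 1 := by decide +kernel

theorem c9_188 : go p9 60 0x32190c4643242d486428b92152232391a90c8642916a47233219195239199148ca7219199212a43223219094d1
    2362232014 214748365 (-281104951) 281104953 4778784187 281104953 = 1 := by decide +kernel

theorem c9_253 : go p9 60 0x3242e489a92172190c85346488c90c8d172192152391a6548642a485490a2e432190952191a90c8d168b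
    2845415833 53687092 (-491933665) 70276239 3794916855 140552477 = 1 := by decide +kernel

theorem c9_173 : go p9 60 0xc8642e432166432172190b2a472190b32390c8594a432172190b32190b90c85952390c85991c863293
    1395864372 107374183 (-843314855) 281104953 5903203997 281104953 = 1 := by decide +kernel

theorem c9_66 : go p9 60 0x32191190c88b90c85a91486428c86291c85172291191488b46432a321959a8d75390c85cad49099212e435a35a
    2040109466 107374183 1405524763 281104953 2529944569 281104953 = 1 := by decide +kernel

theorem c9_11 : go p9 60 0x3229214645212e432352428c8642a445a90c90a32192145c8a290c90945c8e42a47214d2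
    1503238554 214748365 (-3935469331) 562209905 5903203997 281104953 = 1 := by decide +kernel

theorem c9_292 : go p9 60 0x32190b90c85a90c85c8642d190d721acd4e4321721ad48e428d6a4321521a9c8642cc8642a426b46b
    2899102924 107374183 1264972287 140552477 2529944569 281104953 = 1 := by decide +kernel

theorem c9_282 : go p9 60 0xc8642e43219096a432172190c2d190c85c8a44643212d48642e430c86168b
    2684354560 107374183 983867333 140552477 3092154473 281104953 = 1 := by decide +kernel

theorem c9_32 : go p9 60 0xc86426430b90c3216a452132172190b46432172190b321ae565290c35d521aea353
    1932735284 214748365 (-1686629713) 562209905 3935469331 562209905 = 1 := by decide +kernel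

theorem c9_321 : go p9 60 0x32190a91c85191c8548642e485a2e431486428c86292172145a
    3167538381 53687092 1264972287 140552477 2951601997 140552477 = 1 := by decide +kernel

theorem c9_84 : go p9 60 0x32290c85990c85c8642ca90c85c88c8a42e432b453
    2469606196 107374183 1967734667 281104953 2529944569 281104953 = 1 := by decide +kernel

theorem c9_294 : go p9 60 0x32190a90991484c84b90c8548a425c8642ca
    2845415833 53687092 1546077239 140552477 2670497045 140552477 = 1 := by decide +kernel

theorem c9_219 : go p9 60 0xd
    2147483649 429496730 1686629715 562209905 5059889139 562209905 = 1 := by decide +kernel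

end Pool.Agent.MP_5cfbf6_gt.P8.KK
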