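import Pool.Agent.MP_5cfbf6_gt.P8.KP9

set_option autoImplicit false

namespace Pool.Agent.MP_5cfbf6_gt.P8.KK

theorem c9_119 : go p9 60 0xdb2391952391a91c8d17643217218ca90c7218d48e468b2ac8e46548a432145c8e46a472346452190a2d591c84a90c85488b91c8d486428c86291168b
    2254857832 107374183 1546077239 140552477 3654364379 281104953 = 1 := by decide +kernel

theorem c9_60 : go p9 60 0x3218e46a472146432332425390c52232190a6a472332190952391990c84a72190990a90c853464521321aea7218e426b52190990d4e435a2a432b355754ae566aaab353
    1932735284 214748365 562209905 562209905 2811049521 562209905 = 1 := by decide +kernel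

theorem c9_328 : go p9 60 0x32291190c88b90c85486428c90a90c8516a485c8a48533242e452190a6548642e432152190a66432152190b90d68a664355721ae435566b353
    3060164199 53687092 1897458429 70276239 2389392093 140552477 = 1 := by decide +kernel

theorem c9_35 : go p9 60 0x3242e485a91c8d190c85c8642d48642e468b92172352190a32190b90d6a432145a90c85488c8642a445c86291190c5222d1
    2362232014 214748365 (-1405524761) 281104953 4216574283 281104953 = 1 := by decide +kernel

theorem c9_251 : go p9 60 0x32190a91c8cc90b92165392152428c90b9216a485c90b45a91484c8e485a90c8d17242a446485c90b52391a2d1
    2684354560 107374183 (-140552475) 140552477 3794916855 140552477 = 1 := by decide +kernel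

theorem c9_203 : go p9 60 0xdb62b114edb1590b29990c52188c8642a43214548a446485490a29c8642a432166432152190b2a452232290c8594ca
    1073741824 214748365 562209905 562209905 5903203997 281104953 = 1 := by decide +kernel

theorem c9_104 : go p9 60 0xc8e42a432172190b46432172190b52190b90c85a2e430c90b52391a3219212e43216a485c86430b45a
    2469606196 107374183 281104953 281104953 4216574283 281104953 = 1 := by decide +kernel

theorem c9_21 : go p9 60 0xc86290c4e47242d190c89c8dc90b4a431490991272186484b90c90a68c8644a48a444b90c911693
    2362232014 214748365 (-2811049521) 562209905 6184308949 562209905 = 1 := by decide +kernel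

theorem c9_236 : go p9 60 0xc8642e42a431486a72191390c2a484c84c86425390c89c8a44ca95555d55d4cc8645239533242642ab46b46b
    2899102924 107374183 (-983867331) 140552477 3654364379 281104953 = 1 := by decide +kernel

theorem c9_157 : go p9 60 0xc90a9214e485490a66452190a52290c8527242a484c8648514a485490990c88a4ca
    966367642 107374183 (-281104951) 281104953 5762651521 140552477 = 1 := by decide +kernel

theorem c9_76 : go p9 60 0x36c86c65390c52191332190a91c8d16adb2190969d8a44ec52266485c90b52190b90c85a2d1
    2040109466 107374183 2108287143 140552477 2670497045 140552477 = 1 := by decide +kernel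

theorem c9_6 : go p9 60 0xc8642a431391489a91c8d48a44948e46a452149991c8d4aea72395aad295555caabaab353
    2147483649 429496730 (-5622099044) 1124419810 5622099044 1124419810 = 1 := by decide +kernel

theorem c9_272 : go p9 60 0xc8a432146484d4e4522acd6a472352190b90c85a32b90d66a72290c851aeb46b
    2738041651 53687092 70276239 70276239 3232706949 140552477 = 1 := by decide +kernel

theorem c9_365 : go p9 60 0x32190a9213214e484c8642548a485991490b299
    3221225472 214748365 843314857 281104953 4216574283 281104953 = 1 := by decide +kernel

theorem c9_51 : go p9 60 0x32190a91190c85488a90c85488c8642a4253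
    1395864372 107374183 1967734667 281104953 2529944569 281104953 = 1 := by decide +kernel

theorem c9_116 : go p9 60 0xd
    1932735284 214748365 1967734667 281104953 4216574283 281104953 = 1 := by decide +kernel

theorem c9_269 : go p9 60 0xd
    2684354560 107374183 140552477 140552477 2951601997 140552477 = 1 := by decide +kernel

end Pool.Agent.MP_5cfbf6_gt.P8.KK
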