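import Pool.Agent.MP_5cfbf6_gt.P8.KP9

set_option autoImplicit false

namespace Pool.Agent.MP_5cfbf6_gt.P8.KK

theorem c9_79 : go p9 60 0x32186430a90c85390c86272190b46484c86445c8642d486446452188b90c84c86445a2e430c85489c8642e485a32190b91a90c86272190b45a
    2040109466 107374183 1405524763 281104953 3092154473 281104953 = 1 := by decide +kernel

theorem c9_302 : go p9 60 0x32190991488a90c85c90b32191390c8594e432185486190c29990c85486428c90b9216548644e432266432272190b29c86190c2a450c8614ca
    2952790015 53687092 1827182191 140552477 2600220807 70276239 = 1 := by decide +kernel

theorem c9_357 : go p9 60 0x3242e43216a432425c8643222d19213219117242643222d48a432146485490b90c85a2e48548e485a32291a90c85c8642d168b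
    2899102924 107374183 140552477 140552477 3654364379 281104953 = 1 := by decide +kernel

theorem c9_16 : go p9 60 0xc8642e452166452272190b2a485489c8642cc8642a43214e452165290c85c8642cc8642e431952295390c85990c85484d693
    1932735284 214748365 (-2811049521) 562209905 5059889139 562209905 = 1 := by decide +kernel

theorem c9_24 : go p9 60 0x32190a90c85390c85a91c8643133219212d48e431486266484c85a72190b91a90c85c85346432188c90d65c911ad2
    3006477107 429496730 (-3373259426) 1124419810 5059889139 562209905 = 1 := by decide +kernel

theorem c9_316 : go p9 60 0xc8642a432146432152390a2e432152190a32190a90c8516a432152232190a90c45c8642a42643215212d1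
    3060164199 53687092 1616353477 70276239 2600220807 70276239 = 1 := by decide +kernel

theorem c9_17 : go p9 60 0xc8e44a485191c89490a2e452132290966484c8d490990a72190a90c8532a45218a444caa4351724311ad2
    2362232014 214748365 (-2811049521) 562209905 4778784187 281104953 = 1 := by decide +kernel

theorem c9_308 : go p9 60 0xc90990c2a432132190b46430c8615218e428b9217242d48642e432168c8644e43216a472190b45a
    2684354560 107374183 1405524763 281104953 3092154473 281104953 = 1 := by decide +kernel

theorem c9_88 : go p9 60 0xc86390c6a47234643215218cb91c8548623242a465a90c8548633229097218e46642d1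
    1932735284 214748365 281104953 281104953 3654364379 281104953 = 1 := by decide +kernel

theorem c9_162 : go p9 60 0xc90b91489990c85c8642a43214ca91489c86484a92132425332190b90c85490990a652
    912680551 53687092 (-702762379) 140552477 6254585187 70276239 = 1 := by decide +kernel

theorem c9_358 : go p9 60 0xc90b9216a432172190b46432425c86484b5242e432266432232290c8d168b
    2899102924 107374183 421657429 140552477 3654364379 281104953 = 1 := by decide +kernel

theorem c9_213 : go p9 60 0x36d90b4e432152190a32391a91c90b45ab2190a90c85156c7212a472352391a299
    1932735284 214748365 843314857 281104953 5340994091 281104953 = 1 := by decide +kernel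

theorem c9_290 : go p9 60 0xc86290c4e432172190b52191992229990c85c8e42a47214ca
    3328599654 107374183 843314857 281104953 3092154473 281104953 = 1 := by decide +kernel

theorem c9_215 : go p9 60 0xc8a43214643215242e468b91486428c8642a472345a
    2469606196 107374183 281104953 281104953 4778784187 281104953 = 1 := by decide +kernel

theorem c9_239 : go p9 60 0xc8642e485a92190b321ad3
    2872259379 26843546 (-773038617) 70276239 3794916855 140552477 = 1 := by decide +kernel

theorem c9_345 : go p9 60 0x322b1c8d19148a44cb
    3382286745 53687092 2108287143 140552477 2529944569 281104953 = 1 := by decide +kernel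

end Pool.Agent.MP_5cfbf6_gt.P8.KK
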