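import Pool.Agent.MP_5cfbf6_gt.P8.KP9

set_option autoImplicit false

namespace Pool.Agent.MP_5cfbf6_gt.P8.KK

theorem c9_247 : go p9 60 0x32191488b90c3229116a432185c86430b46452152190a32391a91c8d172190a90c85190c85486428b52190a90990c85484b91484c86290968b
    2630667469 53687092 (-70276237) 70276239 3513811903 140552477 = 1 := by decide +kernel

theorem c9_48 : go p9 60 0x32190a91191484a90c85488c8a425390c32152186429990c32152186a72190a90d4ca90c35555c861aab35390c85486429c8a44cc8642a435392152a65486aae5559a99
    1288490189 429496730 562209905 562209905 2811049521 562209905 = 1 := by decide +kernel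

theorem c9_376 : go p9 60 0x3219214643215242e485a2e432191232290c89c8644d16a43215223242e485a90c8d172191a90c85190c85c86430b5242e485a2d1
    2791728742 214748365 (-843314855) 281104953 4778784187 281104953 = 1 := by decide +kernel

theorem c9_120 : go p9 60 0x32426484b92132425a9148e428c8a432145c8a432146452190a2d192132172190b52290c85190c88b91488c90968b
    2469606196 107374183 1264972287 140552477 3654364379 281104953 = 1 := by decide +kernel

theorem c9_165 : go p9 60 0xc9099212a43214a488c90952426429391490b3229216548a46643222948e43226647219132a452190b321919499
    966367642 107374183 (-983867331) 140552477 6605966377 140552477 = 1 := by decide +kernel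

theorem c9_64 : go p9 60 0xc8642e43216a485c8642d190c85c8642d486466428b90c85c86190c2d48e466432128c8e426430d6a432145a
    2469606196 107374183 843314857 281104953 3092154473 281104953 = 1 := by decide +kernel

theorem c9_266 : go p9 60 0x3242e46a488c86432145c9119222d190c85c8642d48a472346452190b91a2e432190a32190c85168b
    3221225472 214748365 (-281104951) 281104953 3935469331 562209905 = 1 := by decide +kernel

theorem c9_194 : go p9 60 0x32190b90c90a6a48548642948642a432149990c86429c8a43214d48642a43214a432152190a4ca
    1932735284 214748365 (-562209903) 562209905 6465413901 281104953 = 1 := by decide +kernel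

theorem c9_28 : go p9 60 0x32190a90c85390c85486429990c8548e448a90d75486aacd4e431489c862913322953914a99521aab90d559a99
    1288490189 429496730 (-1686629713) 562209905 3935469331 562209905 = 1 := by decide +kernel

theorem c9_193 : go p9 60 0xc8642a43214e43215242e484a6a43242549099212948642643212a4322321911499
    1932735284 214748365 (-281104951) 281104953 5903203997 281104953 = 1 := by decide +kernel

theorem c9_121 : go p9 60 0xd92132425d9232a452190a2ca9213217242642d59212a43222e452190a32191168b
    2469606196 107374183 1546077239 140552477 3654364379 281104953 = 1 := by decide +kernel

theorem c9_370 : go p9 60 0xcb11b242ec8548a432265946488c90b91a90c85c86252291c85190c85264a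
    3865470567 429496730 1124419810 1124419810 3935469331 562209905 = 1 := by decide +kernel

theorem c9_303 : go p9 60 0xc90a90c85391486429990c85486426432129c8642a43214ca
    2952790015 53687092 1827182191 140552477 2740773283 70276239 = 1 := by decide +kernel

theorem c9_254 : go p9 60 0xc8642647232a432429c90a9212d48642e432290968b
    2845415833 53687092 (-351381189) 70276239 3794916855 140552477 = 1 := by decide +kernel

theorem c9_255 : go p9 60 0xc8642a488b92132445a
    2952790015 53687092 (-421657427) 140552477 3794916855 140552477 = 1 := by decide +kernel

theorem c9_298 : go p9 60 0xc8a190d4e466450c35a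
    2845415833 53687092 1827182191 140552477 2389392093 140552477 = 1 := by decide +kernel

end Pool.Agent.MP_5cfbf6_gt.P8.KK
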