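import Pool.Agent.MP_5cfbf6_gt.P8.KS
import Pool.Agent.MP_5cfbf6_gt.P8.K900
import Pool.Agent.MP_5cfbf6_gt.P8.K901
import Pool.Agent.MP_5cfbf6_gt.P8.K902
import Pool.Agent.MP_5cfbf6_gt.P8.K903
import Pool.Agent.MP_5cfbf6_gt.P8.K904
import Pool.Agent.MP_5cfbf6_gt.P8.K905
import Pool.Agent.MP_5cfbf6_gt.P8.K906
import Pool.Agent.MP_5cfbf6_gt.P8.K907
import Pool.Agent.MP_5cfbf6_gt.P8.K908
import Pool.Agent.MP_5cfbf6_gt.P8.K909
import Pool.Agent.MP_5cfbf6_gt.P8.K910
import Pool.Agent.MP_5cfbf6_gt.P8.K911
import Pool.Agent.MP_5cfbf6_gt.P8.K912
import Pool.Agent.MP_5cfbf6_gt.P8.K913
import Pool.Agent.MP_5cfbf6_gt.P8.K914
import Pool.Agent.MP_5cfbf6_gt.P8.K915
import Pool.Agent.MP_5cfbf6_gt.P8.K916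
import Pool.Agent.MP_5cfbf6_gt.P8.K917
import Pool.Agent.MP_5cfbf6_gt.P8.K918
import Pool.Agent.MP_5cfbf6_gt.P8.K919
import Pool.Agent.MP_5cfbf6_gt.P8.K920
import Pool.Agent.MP_5cfbf6_gt.P8.K921
import Pool.Agent.MP_5cfbf6_gt.P8.K922
import Pool.Agent.MP_5cfbf6_gt.P8.K923

set_option autoImplicit false

namespace Pool.Agent.MP_5cfbf6_gt.P8.KK

theorem ok9 {L : List Chk} {b s : ℝ} (H : Good p9 L b s) :
    Ok L b s 2576980378 1717986919 (-2248839617) 4497679237 4497679235 2248839619 :=
  (.s2 (-4497679235) 1 2248839619 (by decide)
   (.s1 1717986919 3435973837 858993460 (by decide)
    (.s3 3373259426 5622099044 1124419810 (by decide)
     (ok_go H c9_1)
     (.s2 (-5622099044) (-3373259426) 1124419810 (by decide)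
      (.s1 1288490189 2147483649 429496730 (by decide)
       (.s3 5059889139 6184308949 562209905 (by decide)
        (ok_go H c9_2)
        (.s2 (-6184308949) (-5059889139) 562209905 (by decide)
         (ok_go H c9_3)
         (.s1 1073741824 1503238554 214748365 (by decide)
          (ok_go H c9_4)
          (ok_go H c9_5))))
       (ok_go H c9_6))
      (.s1 1288490189 2147483649 429496730 (by decide)
       (.s3 5059889139 6184308949 562209905 (by decide)
        (.s2 (-3935469331) (-2811049521) 562209905 (by decide)
         (ok_go H c9_7)
         (ok_go H c9_8))
        (.s2 (-3935469331) (-2811049521) 562209905 (by decide)
         (.s1 1073741824 1503238554 214748365 (by decide)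
          (.s3 5903203997 6465413901 281104953 (by decide)
           (ok_go H c9_9)
           (ok_go H c9_10))
          (.s3 5903203997 6465413901 281104953 (by decide)
           (ok_go H c9_11)
           (ok_go H c9_12)))
         (.s1 1073741824 1503238554 214748365 (by decide)
          (ok_go H c9_13)
          (ok_go H c9_14))))
       (.s3 5059889139 6184308949 562209905 (by decide)
        (.s2 (-3935469331) (-2811049521) 562209905 (by decide)
         (ok_go H c9_15)
         (.s1 1932735284 2362232014 214748365 (by decide)
          (ok_go H c9_16)
          (.s3 4778784187 5340994091 281104953 (by decide)
           (ok_go H c9_17)
           (ok_go H c9_18))))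
        (.s2 (-3935469331) (-2811049521) 562209905 (by decide)
         (ok_go H c9_19)
         (.s1 1932735284 2362232014 214748365 (by decide)
          (ok_go H c9_20)
          (ok_go H c9_21)))))))
    (.s3 3373259426 5622099044 1124419810 (by decide)
     (ok_go H c9_22)
     (.s2 (-5622099044) (-3373259426) 1124419810 (by decide)
      (ok_go H c9_23)
      (.s1 3006477107 3865470567 429496730 (by decide)
       (.s3 5059889139 6184308949 562209905 (by decide)
        (ok_go H c9_24)
        (ok_go H c9_25))
       (ok_go H c9_26)))))
   (.s1 1717986919 3435973837 858993460 (by decide)
    (.s3 3373259426 5622099044 1124419810 (by decide)
     (.s2 (-1124419808) 1124419810 1124419810 (by decide)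
      (.s1 1288490189 2147483649 429496730 (by decide)
       (.s3 2811049521 3935469331 562209905 (by decide)
        (ok_go H c9_27)
        (.s2 (-1686629713) (-562209903) 562209905 (by decide)
         (ok_go H c9_28)
         (.s1 1073741824 1503238554 214748365 (by decide)
          (ok_go H c9_29)
          (ok_go H c9_30))))
       (.s3 2811049521 3935469331 562209905 (by decide)
        (ok_go H c9_31)
        (.s2 (-1686629713) (-562209903) 562209905 (by decide)
         (.s1 1932735284 2362232014 214748365 (by decide)
          (ok_go H c9_32)
          (.s3 3654364379 4216574283 281104953 (by decide)
           (ok_go H c9_33)
           (.s2 (-1967734665) (-1405524761) 281104953 (by decide)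
            (ok_go H c9_34)
            (ok_go H c9_35))))
         (.s1 1932735284 2362232014 214748365 (by decide)
          (.s3 3654364379 4216574283 281104953 (by decide)
           (ok_go H c9_36)
           (.s2 (-843314855) (-281104951) 281104953 (by decide)
            (ok_go H c9_37)
            (ok_go H c9_38)))
          (.s3 3654364379 4216574283 281104953 (by decide)
           (.s2 (-843314855) (-281104951) 281104953 (by decide)
            (ok_go H c9_39)
            (.s1 2254857832 2469606196 107374183 (by decide)
             (ok_go H c9_40)
             (.s2 (-421657427) (-140552475) 140552477 (by decide)
              (ok_go H c9_41)
              (.s3 3513811903 3794916855 140552477 (by decide)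
               (ok_go H c9_42)
               (ok_go H c9_43)))))
           (.s2 (-843314855) (-281104951) 281104953 (by decide)
            (.s1 2254857832 2469606196 107374183 (by decide)
             (ok_go H c9_44)
             (ok_go H c9_45))
            (.s1 2254857832 2469606196 107374183 (by decide)
             (ok_go H c9_46)
             (ok_go H c9_47))))))))
      (.s1 1288490189 2147483649 429496730 (by decide)
       (.s3 2811049521 3935469331 562209905 (by decide)
        (.s2 562209905 1686629715 562209905 (by decide)
         (ok_go H c9_48)
         (.s1 1073741824 1503238554 214748365 (by decide)
          (ok_go H c9_49)
          (.s3 2529944569 3092154473 281104953 (by decide)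
           (.s2 1405524763 1967734667 281104953 (by decide)
            (ok_go H c9_50)
            (.s1 1395864372 1610612736 107374183 (by decide)
             (ok_go H c9_51)
             (ok_go H c9_52)))
           (.s2 1405524763 1967734667 281104953 (by decide)
            (ok_go H c9_53)
            (ok_go H c9_54)))))
        (.s2 562209905 1686629715 562209905 (by decide)
         (.s1 1073741824 1503238554 214748365 (by decide)
          (ok_go H c9_55)
          (.s3 3654364379 4216574283 281104953 (by decide)
           (ok_go H c9_56)
           (ok_go H c9_57)))
         (.s1 1073741824 1503238554 214748365 (by decide)
          (ok_go H c9_58)
          (ok_go H c9_59))))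
       (.s3 2811049521 3935469331 562209905 (by decide)
        (.s2 562209905 1686629715 562209905 (by decide)
         (.s1 1932735284 2362232014 214748365 (by decide)
          (ok_go H c9_60)
          (.s3 2529944569 3092154473 281104953 (by decide)
           (ok_go H c9_61)
           (.s2 281104953 843314857 281104953 (by decide)
            (ok_go H c9_62)
            (.s1 2254857832 2469606196 107374183 (by decide)
             (ok_go H c9_63)
             (ok_go H c9_64)))))
         (.s1 1932735284 2362232014 214748365 (by decide)
          (.s3 2529944569 3092154473 281104953 (by decide)
           (.s2 1405524763 1967734667 281104953 (by decide)
            (.s1 1825361102 2040109466 107374183 (by decide)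
             (ok_go H c9_65)
             (ok_go H c9_66))
            (.s1 1825361102 2040109466 107374183 (by decide)
             (.s3 2389392093 2670497045 140552477 (by decide)
              (.s2 1827182191 2108287143 140552477 (by decide)
               (ok_go H c9_67)
               (.s1 1771674011 1879048193 53687092 (by decide)
                (ok_go H c9_68)
                (ok_go H c9_69)))
              (.s2 1827182191 2108287143 140552477 (by decide)
               (ok_go H c9_70)
               (ok_go H c9_71)))
             (.s2 1827182191 2108287143 140552477 (by decide)
              (.s3 2389392093 2670497045 140552477 (by decide)
               (ok_go H c9_72)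
               (ok_go H c9_73))
              (.s3 2389392093 2670497045 140552477 (by decide)
               (.s1 1986422375 2093796557 53687092 (by decide)
                (ok_go H c9_74)
                (ok_go H c9_75))
               (ok_go H c9_76)))))
           (.s2 1405524763 1967734667 281104953 (by decide)
            (.s1 1825361102 2040109466 107374183 (by decide)
             (.s3 2951601997 3232706949 140552477 (by decide)
              (ok_go H c9_77)
              (ok_go H c9_78))
             (ok_go H c9_79))
            (.s1 1825361102 2040109466 107374183 (by decide)
             (ok_go H c9_80)
             (ok_go H c9_81))))
          (.s3 2529944569 3092154473 281104953 (by decide)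
           (.s2 1405524763 1967734667 281104953 (by decide)
            (ok_go H c9_82)
            (.s1 2254857832 2469606196 107374183 (by decide)
             (ok_go H c9_83)
             (ok_go H c9_84)))
           (.s2 1405524763 1967734667 281104953 (by decide)
            (.s1 2254857832 2469606196 107374183 (by decide)
             (ok_go H c9_85)
             (ok_go H c9_86))
            (ok_go H c9_87)))))
        (.s2 562209905 1686629715 562209905 (by decide)
         (.s1 1932735284 2362232014 214748365 (by decide)
          (.s3 3654364379 4216574283 281104953 (by decide)
           (.s2 281104953 843314857 281104953 (by decide)
            (ok_go H c9_88)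
            (.s1 1825361102 2040109466 107374183 (by decide)
             (ok_go H c9_89)
             (ok_go H c9_90)))
           (.s2 281104953 843314857 281104953 (by decide)
            (.s1 1825361102 2040109466 107374183 (by decide)
             (ok_go H c9_91)
             (ok_go H c9_92))
            (.s1 1825361102 2040109466 107374183 (by decide)
             (ok_go H c9_93)
             (.s3 4076021807 4357126759 140552477 (by decide)
              (ok_go H c9_94)
              (ok_go H c9_95)))))
          (.s3 3654364379 4216574283 281104953 (by decide)
           (.s2 281104953 843314857 281104953 (by decide)
            (.s1 2254857832 2469606196 107374183 (by decide)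
             (ok_go H c9_96)
             (.s2 140552477 421657429 140552477 (by decide)
              (ok_go H c9_97)
              (ok_go H c9_98)))
            (.s1 2254857832 2469606196 107374183 (by decide)
             (.s2 702762381 983867333 140552477 (by decide)
              (ok_go H c9_99)
              (ok_go H c9_100))
             (.s2 702762381 983867333 140552477 (by decide)
              (ok_go H c9_101)
              (ok_go H c9_102))))
           (.s2 281104953 843314857 281104953 (by decide)
            (.s1 2254857832 2469606196 107374183 (by decide)
             (ok_go H c9_103)
             (ok_go H c9_104))
            (.s1 2254857832 2469606196 107374183 (by decide)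
             (.s2 702762381 983867333 140552477 (by decide)
              (ok_go H c9_105)
              (.s3 4076021807 4357126759 140552477 (by decide)
               (ok_go H c9_106)
               (ok_go H c9_107)))
             (.s2 702762381 983867333 140552477 (by decide)
              (ok_go H c9_108)
              (ok_go H c9_109))))))
         (.s1 1932735284 2362232014 214748365 (by decide)
          (.s3 3654364379 4216574283 281104953 (by decide)
           (.s2 1405524763 1967734667 281104953 (by decide)
            (.s1 1825361102 2040109466 107374183 (by decide)
             (ok_go H c9_110)
             (.s3 3513811903 3794916855 140552477 (by decide)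
              (ok_go H c9_111)
              (ok_go H c9_112)))
            (ok_go H c9_113))
           (.s2 1405524763 1967734667 281104953 (by decide)
            (.s1 1825361102 2040109466 107374183 (by decide)
             (ok_go H c9_114)
             (ok_go H c9_115))
            (ok_go H c9_116)))
          (.s3 3654364379 4216574283 281104953 (by decide)
           (.s2 1405524763 1967734667 281104953 (by decide)
            (.s1 2254857832 2469606196 107374183 (by decide)
             (.s2 1264972287 1546077239 140552477 (by decide)
              (.s3 3513811903 3794916855 140552477 (by decide)
               (ok_go H c9_117)
               (ok_go H c9_118))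
              (ok_go H c9_119))
             (.s2 1264972287 1546077239 140552477 (by decide)
              (ok_go H c9_120)
              (ok_go H c9_121)))
            (ok_go H c9_122))
           (.s2 1405524763 1967734667 281104953 (by decide)
            (.s1 2254857832 2469606196 107374183 (by decide)
             (.s2 1264972287 1546077239 140552477 (by decide)
              (.s3 4076021807 4357126759 140552477 (by decide)
               (.s1 2201170741 2308544923 53687092 (by decide)
                (ok_go H c9_123)
                (ok_go H c9_124))
               (ok_go H c9_125))
              (ok_go H c9_126))
             (ok_go H c9_127))
            (ok_go H c9_128))))))))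
     (.s2 (-1124419808) 1124419810 1124419810 (by decide)
      (.s1 1288490189 2147483649 429496730 (by decide)
       (.s3 5059889139 6184308949 562209905 (by decide)
        (.s2 (-1686629713) (-562209903) 562209905 (by decide)
         (.s1 1073741824 1503238554 214748365 (by decide)
          (ok_go H c9_129)
          (ok_go H c9_130))
         (.s1 1073741824 1503238554 214748365 (by decide)
          (.s3 4778784187 5340994091 281104953 (by decide)
           (.s2 (-843314855) (-281104951) 281104953 (by decide)
            (ok_go H c9_131)
            (ok_go H c9_132))
           (.s2 (-843314855) (-281104951) 281104953 (by decide)
            (.s1 966367642 1181116006 107374183 (by decide)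
             (ok_go H c9_133)
             (ok_go H c9_134))
            (.s1 966367642 1181116006 107374183 (by decide)
             (ok_go H c9_135)
             (ok_go H c9_136))))
          (.s3 4778784187 5340994091 281104953 (by decide)
           (.s2 (-843314855) (-281104951) 281104953 (by decide)
            (ok_go H c9_137)
            (ok_go H c9_138))
           (.s2 (-843314855) (-281104951) 281104953 (by decide)
            (ok_go H c9_139)
            (ok_go H c9_140)))))
        (.s2 (-1686629713) (-562209903) 562209905 (by decide)
         (.s1 1073741824 1503238554 214748365 (by decide)
          (.s3 5903203997 6465413901 281104953 (by decide)
           (.s2 (-1967734665) (-1405524761) 281104953 (by decide)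
            (ok_go H c9_141)
            (ok_go H c9_142))
           (.s2 (-1967734665) (-1405524761) 281104953 (by decide)
            (ok_go H c9_143)
            (.s1 966367642 1181116006 107374183 (by decide)
             (.s3 6324861425 6605966377 140552477 (by decide)
              (ok_go H c9_144)
              (ok_go H c9_145))
             (ok_go H c9_146))))
          (.s3 5903203997 6465413901 281104953 (by decide)
           (ok_go H c9_147)
           (ok_go H c9_148)))
         (.s1 1073741824 1503238554 214748365 (by decide)
          (.s3 5903203997 6465413901 281104953 (by decide)
           (.s2 (-843314855) (-281104951) 281104953 (by decide)
            (.s1 966367642 1181116006 107374183 (by decide)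
             (.s3 5762651521 6043756473 140552477 (by decide)
              (.s2 (-983867331) (-702762379) 140552477 (by decide)
               (ok_go H c9_149)
               (ok_go H c9_150))
              (.s2 (-983867331) (-702762379) 140552477 (by decide)
               (ok_go H c9_151)
               (.s1 912680551 1020054733 53687092 (by decide)
                (.s3 5973480235 6114032711 70276239 (by decide)
                 (ok_go H c9_152)
                 (ok_go H c9_153))
                (ok_go H c9_154))))
             (.s3 5762651521 6043756473 140552477 (by decide)
              (ok_go H c9_155)
              (ok_go H c9_156)))
            (.s1 966367642 1181116006 107374183 (by decide)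
             (.s3 5762651521 6043756473 140552477 (by decide)
              (ok_go H c9_157)
              (ok_go H c9_158))
             (ok_go H c9_159)))
           (.s2 (-843314855) (-281104951) 281104953 (by decide)
            (.s1 966367642 1181116006 107374183 (by decide)
             (.s3 6324861425 6605966377 140552477 (by decide)
              (.s2 (-983867331) (-702762379) 140552477 (by decide)
               (.s1 912680551 1020054733 53687092 (by decide)
                (ok_go H c9_160)
                (ok_go H c9_161))
               (.s1 912680551 1020054733 53687092 (by decide)
                (.s3 6254585187 6395137663 70276239 (by decide)
                 (ok_go H c9_162)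
                 (ok_go H c9_163))
                (ok_go H c9_164)))
              (.s2 (-983867331) (-702762379) 140552477 (by decide)
               (ok_go H c9_165)
               (ok_go H c9_166)))
             (.s3 6324861425 6605966377 140552477 (by decide)
              (ok_go H c9_167)
              (ok_go H c9_168)))
            (.s1 966367642 1181116006 107374183 (by decide)
             (.s3 6324861425 6605966377 140552477 (by decide)
              (ok_go H c9_169)
              (.s2 (-421657427) (-140552475) 140552477 (by decide)
               (ok_go H c9_170)
               (ok_go H c9_171)))
             (ok_go H c9_172))))
          (.s3 5903203997 6465413901 281104953 (by decide)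
           (.s2 (-843314855) (-281104951) 281104953 (by decide)
            (.s1 1395864372 1610612736 107374183 (by decide)
             (ok_go H c9_173)
             (ok_go H c9_174))
            (ok_go H c9_175))
           (.s2 (-843314855) (-281104951) 281104953 (by decide)
            (ok_go H c9_176)
            (ok_go H c9_177))))))
       (.s3 5059889139 6184308949 562209905 (by decide)
        (.s2 (-1686629713) (-562209903) 562209905 (by decide)
         (.s1 1932735284 2362232014 214748365 (by decide)
          (.s3 4778784187 5340994091 281104953 (by decide)
           (ok_go H c9_178)
           (ok_go H c9_179))
          (.s3 4778784187 5340994091 281104953 (by decide)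
           (.s2 (-1967734665) (-1405524761) 281104953 (by decide)
            (ok_go H c9_180)
            (ok_go H c9_181))
           (ok_go H c9_182)))
         (.s1 1932735284 2362232014 214748365 (by decide)
          (.s3 4778784187 5340994091 281104953 (by decide)
           (.s2 (-843314855) (-281104951) 281104953 (by decide)
            (ok_go H c9_183)
            (ok_go H c9_184))
           (.s2 (-843314855) (-281104951) 281104953 (by decide)
            (ok_go H c9_185)
            (ok_go H c9_186)))
          (.s3 4778784187 5340994091 281104953 (by decide)
           (.s2 (-843314855) (-281104951) 281104953 (by decide)
            (ok_go H c9_187)
            (ok_go H c9_188))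
           (ok_go H c9_189))))
        (.s2 (-1686629713) (-562209903) 562209905 (by decide)
         (.s1 1932735284 2362232014 214748365 (by decide)
          (ok_go H c9_190)
          (ok_go H c9_191))
         (.s1 1932735284 2362232014 214748365 (by decide)
          (.s3 5903203997 6465413901 281104953 (by decide)
           (.s2 (-843314855) (-281104951) 281104953 (by decide)
            (ok_go H c9_192)
            (ok_go H c9_193))
           (ok_go H c9_194))
          (ok_go H c9_195)))))
      (.s1 1288490189 2147483649 429496730 (by decide)
       (.s3 5059889139 6184308949 562209905 (by decide)
        (.s2 562209905 1686629715 562209905 (by decide)
         (.s1 1073741824 1503238554 214748365 (by decide)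
          (.s3 4778784187 5340994091 281104953 (by decide)
           (ok_go H c9_196)
           (ok_go H c9_197))
          (.s3 4778784187 5340994091 281104953 (by decide)
           (.s2 281104953 843314857 281104953 (by decide)
            (ok_go H c9_198)
            (ok_go H c9_199))
           (.s2 281104953 843314857 281104953 (by decide)
            (ok_go H c9_200)
            (ok_go H c9_201))))
         (ok_go H c9_202))
        (.s2 562209905 1686629715 562209905 (by decide)
         (.s1 1073741824 1503238554 214748365 (by decide)
          (.s3 5903203997 6465413901 281104953 (by decide)
           (ok_go H c9_203)
           (ok_go H c9_204))
          (ok_go H c9_205))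
         (ok_go H c9_206)))
       (.s3 5059889139 6184308949 562209905 (by decide)
        (.s2 562209905 1686629715 562209905 (by decide)
         (.s1 1932735284 2362232014 214748365 (by decide)
          (.s3 4778784187 5340994091 281104953 (by decide)
           (.s2 281104953 843314857 281104953 (by decide)
            (.s1 1825361102 2040109466 107374183 (by decide)
             (ok_go H c9_207)
             (ok_go H c9_208))
            (.s1 1825361102 2040109466 107374183 (by decide)
             (ok_go H c9_209)
             (.s3 4638231711 4919336663 140552477 (by decide)
              (ok_go H c9_210)
              (ok_go H c9_211))))
           (.s2 281104953 843314857 281104953 (by decide)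
            (ok_go H c9_212)
            (ok_go H c9_213)))
          (.s3 4778784187 5340994091 281104953 (by decide)
           (.s2 281104953 843314857 281104953 (by decide)
            (.s1 2254857832 2469606196 107374183 (by decide)
             (ok_go H c9_214)
             (ok_go H c9_215))
            (.s1 2254857832 2469606196 107374183 (by decide)
             (ok_go H c9_216)
             (ok_go H c9_217)))
           (ok_go H c9_218)))
         (ok_go H c9_219))
        (.s2 562209905 1686629715 562209905 (by decide)
         (.s1 1932735284 2362232014 214748365 (by decide)
          (ok_go H c9_220)
          (ok_go H c9_221))
         (ok_go H c9_222))))))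
    (.s3 3373259426 5622099044 1124419810 (by decide)
     (.s2 (-1124419808) 1124419810 1124419810 (by decide)
      (.s1 3006477107 3865470567 429496730 (by decide)
       (.s3 2811049521 3935469331 562209905 (by decide)
        (ok_go H c9_223)
        (.s2 (-1686629713) (-562209903) 562209905 (by decide)
         (.s1 2791728742 3221225472 214748365 (by decide)
          (.s3 3654364379 4216574283 281104953 (by decide)
           (ok_go H c9_224)
           (.s2 (-1967734665) (-1405524761) 281104953 (by decide)
            (ok_go H c9_225)
            (.s1 2684354560 2899102924 107374183 (by decide)
             (.s2 (-1546077237) (-1264972285) 140552477 (by decide)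
              (ok_go H c9_226)
              (.s3 4076021807 4357126759 140552477 (by decide)
               (ok_go H c9_227)
               (ok_go H c9_228)))
             (ok_go H c9_229))))
          (ok_go H c9_230))
         (.s1 2791728742 3221225472 214748365 (by decide)
          (.s3 3654364379 4216574283 281104953 (by decide)
           (.s2 (-843314855) (-281104951) 281104953 (by decide)
            (.s1 2684354560 2899102924 107374183 (by decide)
             (.s2 (-983867331) (-702762379) 140552477 (by decide)
              (ok_go H c9_231)
              (.s3 3513811903 3794916855 140552477 (by decide)
               (ok_go H c9_232)
               (.s1 2630667469 2738041651 53687092 (by decide)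
                (ok_go H c9_233)
                (.s2 (-773038617) (-632486141) 70276239 (by decide)
                 (ok_go H c9_234)
                 (ok_go H c9_235)))))
             (.s2 (-983867331) (-702762379) 140552477 (by decide)
              (ok_go H c9_236)
              (.s3 3513811903 3794916855 140552477 (by decide)
               (ok_go H c9_237)
               (.s1 2845415833 2952790015 53687092 (by decide)
                (.s2 (-773038617) (-632486141) 70276239 (by decide)
                 (.s1 2818572287 2872259379 26843546 (by decide)
                  (ok_go H c9_238)
                  (ok_go H c9_239))
                 (ok_go H c9_240))
                (ok_go H c9_241)))))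
            (.s1 2684354560 2899102924 107374183 (by decide)
             (.s2 (-421657427) (-140552475) 140552477 (by decide)
              (.s3 3513811903 3794916855 140552477 (by decide)
               (.s1 2630667469 2738041651 53687092 (by decide)
                (ok_go H c9_242)
                (ok_go H c9_243))
               (.s1 2630667469 2738041651 53687092 (by decide)
                (ok_go H c9_244)
                (ok_go H c9_245)))
              (.s3 3513811903 3794916855 140552477 (by decide)
               (.s1 2630667469 2738041651 53687092 (by decide)
                (.s2 (-210828713) (-70276237) 70276239 (by decide)
                 (ok_go H c9_246)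
                 (ok_go H c9_247))
                (.s2 (-210828713) (-70276237) 70276239 (by decide)
                 (ok_go H c9_248)
                 (.s3 3443535665 3584088141 70276239 (by decide)
                  (ok_go H c9_249)
                  (ok_go H c9_250))))
               (ok_go H c9_251)))
             (.s2 (-421657427) (-140552475) 140552477 (by decide)
              (.s3 3513811903 3794916855 140552477 (by decide)
               (ok_go H c9_252)
               (.s1 2845415833 2952790015 53687092 (by decide)
                (.s2 (-491933665) (-351381189) 70276239 (by decide)
                 (ok_go H c9_253)
                 (ok_go H c9_254))
                (ok_go H c9_255)))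
              (.s3 3513811903 3794916855 140552477 (by decide)
               (ok_go H c9_256)
               (ok_go H c9_257)))))
           (.s2 (-843314855) (-281104951) 281104953 (by decide)
            (.s1 2684354560 2899102924 107374183 (by decide)
             (.s2 (-983867331) (-702762379) 140552477 (by decide)
              (.s3 4076021807 4357126759 140552477 (by decide)
               (ok_go H c9_258)
               (ok_go H c9_259))
              (ok_go H c9_260))
             (.s2 (-983867331) (-702762379) 140552477 (by decide)
              (ok_go H c9_261)
              (ok_go H c9_262)))
            (.s1 2684354560 2899102924 107374183 (by decide)
             (ok_go H c9_263)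
             (ok_go H c9_264))))
          (.s2 (-843314855) (-281104951) 281104953 (by decide)
           (ok_go H c9_265)
           (ok_go H c9_266)))))
       (ok_go H c9_267))
      (.s1 3006477107 3865470567 429496730 (by decide)
       (.s3 2811049521 3935469331 562209905 (by decide)
        (.s2 562209905 1686629715 562209905 (by decide)
         (.s1 2791728742 3221225472 214748365 (by decide)
          (.s3 2529944569 3092154473 281104953 (by decide)
           (ok_go H c9_268)
           (.s2 281104953 843314857 281104953 (by decide)
            (.s1 2684354560 2899102924 107374183 (by decide)
             (.s2 140552477 421657429 140552477 (by decide)
              (.s3 2951601997 3232706949 140552477 (by decide)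
               (ok_go H c9_269)
               (.s1 2630667469 2738041651 53687092 (by decide)
                (.s2 70276239 210828715 70276239 (by decide)
                 (ok_go H c9_270)
                 (ok_go H c9_271))
                (.s2 70276239 210828715 70276239 (by decide)
                 (ok_go H c9_272)
                 (ok_go H c9_273))))
              (.s3 2951601997 3232706949 140552477 (by decide)
               (ok_go H c9_274)
               (.s1 2630667469 2738041651 53687092 (by decide)
                (ok_go H c9_275)
                (.s2 351381191 491933667 70276239 (by decide)
                 (ok_go H c9_276)
                 (ok_go H c9_277)))))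
             (.s2 140552477 421657429 140552477 (by decide)
              (ok_go H c9_278)
              (ok_go H c9_279)))
            (.s1 2684354560 2899102924 107374183 (by decide)
             (.s2 702762381 983867333 140552477 (by decide)
              (.s3 2951601997 3232706949 140552477 (by decide)
               (ok_go H c9_280)
               (ok_go H c9_281))
              (ok_go H c9_282))
             (.s2 702762381 983867333 140552477 (by decide)
              (ok_go H c9_283)
              (ok_go H c9_284)))))
          (.s2 281104953 843314857 281104953 (by decide)
           (ok_go H c9_285)
           (.s3 2529944569 3092154473 281104953 (by decide)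
            (ok_go H c9_286)
            (.s1 3113851290 3328599654 107374183 (by decide)
             (.s2 702762381 983867333 140552477 (by decide)
              (ok_go H c9_287)
              (.s3 2951601997 3232706949 140552477 (by decide)
               (ok_go H c9_288)
               (ok_go H c9_289)))
             (ok_go H c9_290)))))
         (.s1 2791728742 3221225472 214748365 (by decide)
          (.s3 2529944569 3092154473 281104953 (by decide)
           (.s2 1405524763 1967734667 281104953 (by decide)
            (.s1 2684354560 2899102924 107374183 (by decide)
             (ok_go H c9_291)
             (.s2 1264972287 1546077239 140552477 (by decide)
              (ok_go H c9_292)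
              (.s3 2389392093 2670497045 140552477 (by decide)
               (ok_go H c9_293)
               (.s1 2845415833 2952790015 53687092 (by decide)
                (ok_go H c9_294)
                (.s2 1475801001 1616353477 70276239 (by decide)
                 (ok_go H c9_295)
                 (ok_go H c9_296))))))
            (.s1 2684354560 2899102924 107374183 (by decide)
             (ok_go H c9_297)
             (.s2 1827182191 2108287143 140552477 (by decide)
              (.s3 2389392093 2670497045 140552477 (by decide)
               (.s1 2845415833 2952790015 53687092 (by decide)
                (ok_go H c9_298)
                (.s2 1756905953 1897458429 70276239 (by decide)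
                 (ok_go H c9_299)
                 (ok_go H c9_300)))
               (.s1 2845415833 2952790015 53687092 (by decide)
                (ok_go H c9_301)
                (.s3 2600220807 2740773283 70276239 (by decide)
                 (ok_go H c9_302)
                 (ok_go H c9_303))))
              (.s3 2389392093 2670497045 140552477 (by decide)
               (.s1 2845415833 2952790015 53687092 (by decide)
                (ok_go H c9_304)
                (.s2 2038010905 2178563381 70276239 (by decide)
                 (ok_go H c9_305)
                 (ok_go H c9_306)))
               (ok_go H c9_307)))))
           (.s2 1405524763 1967734667 281104953 (by decide)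
            (.s1 2684354560 2899102924 107374183 (by decide)
             (ok_go H c9_308)
             (.s2 1264972287 1546077239 140552477 (by decide)
              (ok_go H c9_309)
              (ok_go H c9_310)))
            (.s1 2684354560 2899102924 107374183 (by decide)
             (ok_go H c9_311)
             (ok_go H c9_312))))
          (.s2 1405524763 1967734667 281104953 (by decide)
           (.s3 2529944569 3092154473 281104953 (by decide)
            (.s1 3113851290 3328599654 107374183 (by decide)
             (.s2 1264972287 1546077239 140552477 (by decide)
              (ok_go H c9_313)
              (.s3 2389392093 2670497045 140552477 (by decide)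
               (ok_go H c9_314)
               (.s1 3060164199 3167538381 53687092 (by decide)
                (.s2 1475801001 1616353477 70276239 (by decide)
                 (ok_go H c9_315)
                 (.s3 2600220807 2740773283 70276239 (by decide)
                  (ok_go H c9_316)
                  (ok_go H c9_317)))
                (ok_go H c9_318))))
             (ok_go H c9_319))
            (.s1 3113851290 3328599654 107374183 (by decide)
             (.s2 1264972287 1546077239 140552477 (by decide)
              (.s3 2951601997 3232706949 140552477 (by decide)
               (.s1 3060164199 3167538381 53687092 (by decide)
                (ok_go H c9_320)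
                (ok_go H c9_321))
               (ok_go H c9_322))
              (.s3 2951601997 3232706949 140552477 (by decide)
               (.s1 3060164199 3167538381 53687092 (by decide)
                (ok_go H c9_323)
                (ok_go H c9_324))
               (ok_go H c9_325)))
             (ok_go H c9_326)))
           (.s3 2529944569 3092154473 281104953 (by decide)
            (.s1 3113851290 3328599654 107374183 (by decide)
             (.s3 2389392093 2670497045 140552477 (by decide)
              (.s2 1827182191 2108287143 140552477 (by decide)
               (.s1 3060164199 3167538381 53687092 (by decide)
                (.s2 1756905953 1897458429 70276239 (by decide)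
                 (ok_go H c9_327)
                 (ok_go H c9_328))
                (ok_go H c9_329))
               (.s1 3060164199 3167538381 53687092 (by decide)
                (.s3 2319115855 2459668331 70276239 (by decide)
                 (ok_go H c9_330)
                 (ok_go H c9_331))
                (ok_go H c9_332)))
              (.s2 1827182191 2108287143 140552477 (by decide)
               (.s1 3060164199 3167538381 53687092 (by decide)
                (.s3 2600220807 2740773283 70276239 (by decide)
                 (.s2 1756905953 1897458429 70276239 (by decide)
                  (ok_go H c9_333)
                  (ok_go H c9_334))
                 (ok_go H c9_335))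
                (.s2 1756905953 1897458429 70276239 (by decide)
                 (ok_go H c9_336)
                 (.s3 2600220807 2740773283 70276239 (by decide)
                  (ok_go H c9_337)
                  (ok_go H c9_338))))
               (.s1 3060164199 3167538381 53687092 (by decide)
                (ok_go H c9_339)
                (.s2 2038010905 2178563381 70276239 (by decide)
                 (.s3 2600220807 2740773283 70276239 (by decide)
                  (ok_go H c9_340)
                  (ok_go H c9_341))
                 (ok_go H c9_342)))))
             (.s2 1827182191 2108287143 140552477 (by decide)
              (ok_go H c9_343)
              (.s1 3274912563 3382286745 53687092 (by decide)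
               (ok_go H c9_344)
               (ok_go H c9_345))))
            (.s1 3113851290 3328599654 107374183 (by decide)
             (.s2 1827182191 2108287143 140552477 (by decide)
              (.s3 2951601997 3232706949 140552477 (by decide)
               (.s1 3060164199 3167538381 53687092 (by decide)
                (ok_go H c9_346)
                (.s2 1756905953 1897458429 70276239 (by decide)
                 (ok_go H c9_347)
                 (ok_go H c9_348)))
               (ok_go H c9_349))
              (ok_go H c9_350))
             (ok_go H c9_351))))))
        (.s2 562209905 1686629715 562209905 (by decide)
         (.s1 2791728742 3221225472 214748365 (by decide)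
          (.s3 3654364379 4216574283 281104953 (by decide)
           (.s2 281104953 843314857 281104953 (by decide)
            (.s1 2684354560 2899102924 107374183 (by decide)
             (.s2 140552477 421657429 140552477 (by decide)
              (.s3 3513811903 3794916855 140552477 (by decide)
               (.s2 70276239 210828715 70276239 (by decide)
                (.s1 2630667469 2738041651 53687092 (by decide)
                 (ok_go H c9_352)
                 (ok_go H c9_353))
                (ok_go H c9_354))
               (ok_go H c9_355))
              (ok_go H c9_356))
             (.s2 140552477 421657429 140552477 (by decide)
              (ok_go H c9_357)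
              (ok_go H c9_358)))
            (.s1 2684354560 2899102924 107374183 (by decide)
             (ok_go H c9_359)
             (ok_go H c9_360)))
           (.s2 281104953 843314857 281104953 (by decide)
            (ok_go H c9_361)
            (ok_go H c9_362)))
          (.s2 281104953 843314857 281104953 (by decide)
           (ok_go H c9_363)
           (.s3 3654364379 4216574283 281104953 (by decide)
            (ok_go H c9_364)
            (ok_go H c9_365))))
         (.s1 2791728742 3221225472 214748365 (by decide)
          (.s3 3654364379 4216574283 281104953 (by decide)
           (ok_go H c9_366)
           (ok_go H c9_367))
          (ok_go H c9_368))))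
       (.s3 2811049521 3935469331 562209905 (by decide)
        (ok_go H c9_369)
        (ok_go H c9_370))))
     (.s2 (-1124419808) 1124419810 1124419810 (by decide)
      (.s1 3006477107 3865470567 429496730 (by decide)
       (.s3 5059889139 6184308949 562209905 (by decide)
        (.s2 (-1686629713) (-562209903) 562209905 (by decide)
         (.s1 2791728742 3221225472 214748365 (by decide)
          (.s3 4778784187 5340994091 281104953 (by decide)
           (.s2 (-1967734665) (-1405524761) 281104953 (by decide)
            (ok_go H c9_371)
            (.s1 2684354560 2899102924 107374183 (by decide)
             (ok_go H c9_372)
             (ok_go H c9_373)))
           (ok_go H c9_374))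
          (ok_go H c9_375))
         (.s1 2791728742 3221225472 214748365 (by decide)
          (.s3 4778784187 5340994091 281104953 (by decide)
           (.s2 (-843314855) (-281104951) 281104953 (by decide)
            (ok_go H c9_376)
            (ok_go H c9_377))
           (ok_go H c9_378))
          (ok_go H c9_379)))
        (.s2 (-1686629713) (-562209903) 562209905 (by decide)
         (ok_go H c9_380)
         (ok_go H c9_381)))
       (ok_go H c9_382))
      (.s1 3006477107 3865470567 429496730 (by decide)
       (.s3 5059889139 6184308949 562209905 (by decide)
        (.s2 562209905 1686629715 562209905 (by decide)
         (.s1 2791728742 3221225472 214748365 (by decide)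
          (ok_go H c9_383)
          (ok_go H c9_384))
         (ok_go H c9_385))
        (ok_go H c9_386))
       (ok_go H c9_387))))))

end Pool.Agent.MP_5cfbf6_gt.P8.KK
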