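import Pool.Agent.MP_5cfbf6_gt.P8.Key

set_option autoImplicit false
set_option linter.unusedSectionVars false

namespace Pool.Agent.MP_5cfbf6_gt.P8

open P7 Set Filter Topology Real MeasureTheory

variable {ι : Type} [Fintype ι] [DecidableEq ι]
variable {u : ι → E3} {h : ι → ℝ} {Tr : ι → ι → ι → Prop}

/-- an optimal simple polyhedron is circumscribed about a ball -/
lemma lind_Uniq (S : Sys u h Tr) (O : Opt u h Tr) (hu : ∀ i, dt (u i) (u i) = 1)
    (hh : ∀ i, 0 < h i) :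
    ∃ o : E3, ∀ l, (∑ l, ar u h l) * h l - 3 * vol u h = dt (u l) o := by
  obtain ⟨z, hz⟩ : ∃ z, z = (∑ l, ar u h l) • h + (-(3 * vol u h)) • (1 : ι → ℝ) := ⟨_, rfl⟩
  have z1 : ∀ i, aa u Tr h z i = 0 := fun i => hz ▸ S.critical O hu hh i
  have z2 : ∀ i, aa u Tr z z i = 0 := by
    have e : TT u Tr h z z = 0 := by
      rw [S.TT_swap13]
      exact Finset.sum_eq_zero fun l _ => by rw [S.aa_symm hu, z1, mul_zero]
    have := (Finset.sum_eq_zero_iff_of_nonpos fun l _ =>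
      mul_nonpos_of_nonneg_of_nonpos (hh l).le (S.aa_nonpos hu hh (z1 l))).1 e
    exact fun i => (mul_eq_zero.1 (this i (Finset.mem_univ i))).resolve_left (hh i).ne'
  have z3 : ∀ y i, aa u Tr h y i = 0 → aa u Tr z y i = 0 := fun y i hy =>
    lind_quad (c := aa u Tr y y i) fun s => by
      have := S.aa_nonpos hu hh (y := z + s • y) (i := i) (by
        rw [aa_add_right, aa_smul_right, z1, hy, mul_zero, add_zero])
      rwa [S.lind_aa hu, z2, zero_add] at this
  have z4 : ∀ y i, aa u Tr z y i = 0 := fun y i => by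
    have p : aa u Tr h h i ≠ 0 := by
      have := S.ar_pos hh i
      rw [S.ar_aa hu hh] at this
      intro e
      rw [e] at this
      simp at this
    have := z3 (y + (-(aa u Tr h y i / aa u Tr h h i)) • h) i (by
      rw [aa_add_right, aa_smul_right]
      field_simp
      ring)
    rwa [aa_add_right, aa_smul_right, S.aa_symm hu z h, z1, mul_zero, add_zero] at this
  obtain ⟨o, ho⟩ := S.conn (z := z) fun i j => by
    rcases eq_or_ne j i with rfl | hij
    · exact mu_of_not (fun A => S.adj_ne A rfl) z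
    · simpa [aa, Pi.single_apply, hij.symm] using z4 (Pi.single j 1) i
  refine ⟨o, fun l => ?_⟩
  rw [← ho l, hz]
  simp only [Pi.add_apply, Pi.smul_apply, Pi.one_apply, smul_eq_mul]
  ring

lemma bdd_Uniq (hb : Bornology.IsBounded (poly u 1)) (k : ι → ℝ) :
    Bornology.IsBounded (poly u k) := by
  obtain ⟨M, hM⟩ := (finite_range k).bddAbove
  have hs : 0 < |M| + 1 := by positivity
  refine (aff_poly u 1 hs 0 ▸ (hb.smul₀ _).vadd _ :
    Bornology.IsBounded (poly u _)).subset fun y hy i => ?_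
  rw [dt_zero, Pi.one_apply]
  linarith [hy i, hM (mem_range_self i), le_abs_self M]

lemma bm_Uniq (hb : Bornology.IsBounded (poly u 1)) {k₁ k₂ : ι → ℝ} {a b ρ : ℝ} (ha : 0 < a)
    (hb' : 0 < b) (hρ : 0 < ρ) (e : vol u k₂ = ρ ^ 3 * vol u k₁) :
    (a + b * ρ) ^ 3 * vol u k₁ ≤ vol u fun l => a * k₁ l + b * k₂ l := by
  have fin : ∀ k : ι → ℝ, volume (poly u k) ≠ ⊤ := fun k => (bdd_Uniq hb k).measure_lt_top.ne
  have ms : ∀ k : ι → ℝ, MeasurableSet (poly u k) := fun k => (isClosed_poly u k).measurableSet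
  have hs : 0 < a + b * ρ := by positivity
  have h3 := ENNReal.toReal_mono (fin _) (bm_Wulff (ms k₁) (ms fun l => ρ⁻¹ * k₂ l + dt (u l) 0)
    (ms fun l => (a + b * ρ)⁻¹ * (a * k₁ l + b * k₂ l) + dt (u l) 0) (a := a / (a + b * ρ))
    (b := b * ρ / (a + b * ρ)) (by positivity) (by positivity) (by field_simp)
    (fun x hx y hy i => by
      have h4 := mul_le_mul_of_nonneg_left (hx i) (show 0 ≤ a / (a + b * ρ) by positivity)
      have h5 := mul_le_mul_of_nonneg_left (hy i) (show 0 ≤ b * ρ / (a + b * ρ) by positivity)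
      have h6 : a / (a + b * ρ) * k₁ i + b * ρ / (a + b * ρ) * (ρ⁻¹ * k₂ i) =
          (a + b * ρ)⁻¹ * (a * k₁ i + b * k₂ i) := by field_simp
      simp only [dt_add, dt_smul, dt_zero, add_zero] at h5 ⊢
      linarith) (by
      rw [← ENNReal.toReal_eq_toReal_iff' (fin _) (fin _)]
      refine (vol_affine u k₂ (inv_pos.2 hρ) 0).trans ?_
      rw [e, vol]
      field_simp))
  have h4 : vol u k₁ ≤ _ := h3.trans_eq (vol_affine u (fun l => a * k₁ l + b * k₂ l) (inv_pos.2 hs) 0)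
  rwa [inv_pow, le_inv_mul_iff₀ (by positivity)] at h4

lemma cube_Uniq {x y : ℝ} (hy : 0 < y) (hx : 0 < x) : ∃ t : ℝ, 0 < t ∧ x = t ^ 3 * y := by
  obtain ⟨t, ht, e3⟩ : ∃ t : ℝ, 0 < t ∧ t ^ 3 = x / y :=
    ⟨_, by positivity, Real.rpow_inv_natCast_pow (by positivity) three_ne_zero⟩
  exact ⟨t, ht, by rw [e3]; field_simp⟩

/-- in the case of equality the volume of the parallel bodies is a third power -/
lemma par_Uniq (hu : Unit1 u) (hb : Bornology.IsBounded (poly u 1)) {t : ℝ} (ht : 0 < t)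
    (hW : 0 < vol u 1) (e : vol u h = t ^ 3 * vol u 1) (hS : ∑ i, ar u h i ≤ 3 * t ^ 2 * vol u 1)
    {E : ℝ} (hE : 0 < E) : vol u (fun l => h l + E) = (t + E) ^ 3 * vol u 1 := by
  have lo := bm_Uniq hb hE one_pos ht e
  simp only [Pi.one_apply, mul_one, one_mul, add_comm E] at lo
  refine le_antisymm ?_ lo
  have hV : 0 < vol u h := by rw [e]; positivity
  obtain ⟨ρ, hρ, e2⟩ := cube_Uniq hV (lt_of_lt_of_le (by positivity) lo)
  have key : 3 * vol u h * (ρ - 1) / E ≤ ∑ i, ar u h i := by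
    refine le_of_forall_gt_imp_ge_of_dense fun s hs => ?_
    obtain ⟨ε, ⟨h2, hε⟩, h3⟩ := (((slab_st ι u h hu (bdd_Uniq hb _) s hs).and
      self_mem_nhdsWithin).and (nhdsWithin_le_nhds (gt_mem_nhds hE))).exists
    have hε : 0 < ε := hε
    have p1 : 0 < 1 - ε / E := by rw [sub_pos, div_lt_one hE]; exact h3
    have p2 : 0 < ε / E := by positivity
    have h4 := bm_Uniq hb p1 p2 hρ e2
    have e4 : (fun l => (1 - ε / E) * h l + ε / E * (h l + E)) = fun l => h l + ε := by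
      funext l
      field_simp
      ring
    rw [e4] at h4
    obtain ⟨x, hx⟩ : ∃ x, x = ε / E * (ρ - 1) := ⟨_, rfl⟩
    have e5 : 1 - ε / E + ε / E * ρ = 1 + x := by rw [hx]; ring
    have p3 : 0 < 1 + x := by rw [← e5]; positivity
    rw [e5] at h4
    have h5 : 1 + 3 * x ≤ (1 + x) ^ 3 := by nlinarith [mul_nonneg (sq_nonneg x) p3.le, sq_nonneg x]
    have h6 := mul_le_mul_of_nonneg_right h5 hV.le
    have e6 : ε * (3 * vol u h * (ρ - 1) / E) = 3 * x * vol u h := by rw [hx]; ring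
    refine le_of_mul_le_mul_left ?_ hε
    rw [e6]
    linarith
  have k2 := key.trans hS
  rw [div_le_iff₀ hE, e] at k2
  have k3 : t * ρ ≤ t + E := by
    refine le_of_mul_le_mul_left ?_ (show 0 < 3 * t ^ 2 * vol u 1 by positivity)
    linarith
  rw [e2, e, ← mul_assoc, ← mul_pow, mul_comm ρ]
  exact mul_le_mul_of_nonneg_right (pow_le_pow_left₀ (by positivity) k3 3) hW.le

/-- the case of equality in the inequality of Minkowski, for an optimal system of normals -/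
theorem eq_Uniq (S : Sys u 1 Tr) (O : Opt u 1 Tr) (hu : Unit1 u) (hV : 0 < vol u h)
    (H : (∑ i, ar u h i) ^ 3 ≤ 27 * vol u h ^ 2 * vol u 1) : Sys u h Tr := by
  have p0 := S.var1_sum_pos
  have e0 := S.var1_sum_ar hu
  have hW : 0 < vol u 1 := by linarith
  obtain ⟨t, ht, e⟩ := cube_Uniq hW hV
  have hS : ∑ i, ar u h i ≤ 3 * t ^ 2 * vol u 1 := by
    refine le_of_pow_le_pow_left₀ three_ne_zero (by positivity) (H.trans_eq ?_)
    rw [e]
    ring
  obtain ⟨z, hz⟩ : ∃ z : ι → ℝ, z = fun l => h l - t := ⟨_, rfl⟩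
  have v1 : ∀ s : ℝ, 0 < s → s < t⁻¹ → vol u (1 + s • z) = vol u 1 := fun s s0 s1 => by
    have hE : 0 < s⁻¹ - t := by rw [sub_pos]; exact (lt_inv_comm₀ ht s0).2 s1
    have h1 := par_Uniq hu S.bdd ht hW e hS hE
    have h2 := vol_affine u (1 + s • z) (inv_pos.2 s0) 0
    have e2 : (fun l => s⁻¹ * (1 + s • z) l + dt (u l) 0) = fun l => h l + (s⁻¹ - t) := by
      funext l
      simp only [hz, Pi.add_apply, Pi.smul_apply, Pi.one_apply, smul_eq_mul, dt_zero]
      field_simp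
      ring
    rw [e2, h1, add_sub_cancel] at h2
    exact (mul_left_cancel₀ (by positivity) h2).symm
  have one : ∀ i, 0 < (1 : ι → ℝ) i := fun _ => one_pos
  have ev : ∀ᶠ s : ℝ in 𝓝 0, (Sys u (1 + s • z) Tr ∧ ∀ l, 0 < (1 + s • z) l) ∧ s < t⁻¹ :=
    (S.lind_ev one z).and (gt_mem_nhds (inv_pos.2 ht))
  obtain ⟨δ, hδ, hb⟩ := Metric.eventually_nhds_iff.1 ev
  have q : ∀ s : ℝ, 0 < s → s < δ →
      3 * TT u Tr 1 1 z + 3 * s * TT u Tr 1 z z + s ^ 2 * TT u Tr z z z = 0 := fun s s0 s1 => by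
    obtain ⟨⟨S1, p1⟩, s2⟩ := hb (y := s) (by rwa [Real.dist_eq, sub_zero, abs_of_pos s0])
    have h1 := v1 s s0 s2
    rw [S1.vol_TT hu p1, S.vol_TT hu one] at h1
    have a1 := S.TT_swap13 z 1 1
    have a2 : TT u Tr z 1 z = TT u Tr 1 z z := by
      rw [S.TT_swap13 1 z z]
      exact Finset.sum_congr rfl fun i _ => by rw [S.aa_symm hu 1 z]
    have a3 : TT u Tr (1 + s • z) (1 + s • z) (1 + s • z) = TT u Tr 1 1 1 + 2 * s * TT u Tr 1 1 z
        + s ^ 2 * TT u Tr 1 z z + s * (TT u Tr z 1 1 + 2 * s * TT u Tr z 1 z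
        + s ^ 2 * TT u Tr z z z) := by
      simp only [TT, S.lind_aa hu, Finset.mul_sum, ← Finset.sum_add_distrib, mul_add]
      refine Finset.sum_congr rfl fun i _ => ?_
      simp only [Pi.add_apply, Pi.smul_apply, smul_eq_mul]
      ring
    rw [a3, a1, a2] at h1
    refine mul_left_cancel₀ s0.ne' ?_
    linarith
  obtain ⟨s, hs⟩ : ∃ s, s = δ / 4 := ⟨_, rfl⟩
  have s0 : 0 < s := by rw [hs]; positivity
  have q1 := q s s0 (by linarith)
  have q2 := q (2 * s) (by linarith) (by linarith)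
  have q3 := q (3 * s) (by linarith) (by linarith)
  have c0 : s * TT u Tr 1 z z = 0 := by linarith
  have b0 : TT u Tr 1 1 z = 0 := by linarith
  obtain ⟨⟨S1, p1⟩, s2⟩ := hb (y := s) (by rw [Real.dist_eq, sub_zero, abs_of_pos s0]; linarith)
  have w1 := v1 s s0 s2
  have w2 : ∑ i, ar u (1 + s • z) i = ∑ i, ar u 1 i := by
    have a3 : ∑ i, ar u (1 + s • z) i = ∑ i, ar u 1 i + s * TT u Tr 1 1 z
        + s / 2 * (s * TT u Tr 1 z z) := by
      simp only [TT, Finset.mul_sum, ← Finset.sum_add_distrib]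
      refine Finset.sum_congr rfl fun i _ => ?_
      rw [S1.ar_aa hu p1, S.ar_aa hu one, S.lind_aa hu, Pi.one_apply]
      ring
    rw [a3, b0, c0]
    ring
  obtain ⟨o, ho⟩ := lind_Uniq S1 (fun u' h' S' => by rw [w1, w2]; exact O u' h' S') hu p1
  have e3 : h = fun l => t * (1 : ι → ℝ) l + dt (u l) ((3 * vol u 1 * s)⁻¹ • o) := by
    funext l
    have := ho l
    rw [w1, w2, e0] at this
    simp only [hz, Pi.add_apply, Pi.smul_apply, Pi.one_apply, smul_eq_mul] at this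
    rw [dt_smul, ← this, Pi.one_apply]
    field_simp
    ring
  rw [e3]
  exact S.affine ht _

theorem mainU (n : ℕ) (V : Finset (Finset (Fin (n + 1)))) (W η : ℝ) (hη : 0 < η)
    (hW : W ≤ 7 * π / 3)
    (h0 : ∃ u : Fin (n + 1) → E3, Unit1 u ∧ Bornology.IsBounded (poly u 1) ∧ vol u 1 < W)
    (hn : ∀ (u : Fin n → E3) (Tr : Fin n → Fin n → Fin n → Prop), Unit1 u → Sys u 1 Tr →
      W ≤ vol u 1)
    (hL : ∀ (u : Fin (n + 1) → E3) (Tr : Fin (n + 1) → Fin (n + 1) → Fin (n + 1) → Prop),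
      Unit1 u → Sys u 1 Tr → vol u 1 < W →
      Long η u Tr ∧ ∀ h, Sys u h Tr → HasType V (poly u h)) :
    ∃ Q : Set E3, HasType V Q ∧ IsBest Q ∧
      ∀ R : Set E3, IsPolytope R → (twoFaces R).ncard ≤ n + 1 →
        isoQuot R ≤ isoQuot Q ∧ (isoQuot R = isoQuot Q → HasType V R) := by
  obtain ⟨u₀, a1, a2, a3⟩ := h0
  obtain ⟨u, hu, hb, hm⟩ := ex_st (n + 1) u₀ a1 a2 (a3.trans_le hW)
  have hv : vol u 1 < W := (hm u₀ a1 a2).trans_lt a3
  have sim : ∀ u : Fin (n + 1) → E3, Unit1 u → Bornology.IsBounded (poly u 1) → vol u 1 < W →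
      ∃ Tr, Sys u 1 Tr := fun u hu hb hv => by
    have hi : Function.Injective u := fun i j e => by
      by_contra hij
      have e1 := drop_Main hij e
      have := redG_st n W hn (Fin n) (fun l => u (j.succAbove l)) (by simp) (fun l => hu _) (e1 ▸ hb)
      rw [vol, e1] at this
      exact absurd hv (not_lt.2 this)
    obtain ⟨δ, hδ, hc⟩ := cont_st (n + 1) u W hb hv
    exact ⟨_, simple_st _ u hu hi hb
      (lim_st (n + 1) u η δ hη hδ hu hi hb fun w Tr hw hd S => (hL w Tr hw S (hc w hd)).1)⟩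
  obtain ⟨Tr, S⟩ := sim u hu hb hv
  have hP := S.isPolytope
  have hc : ∀ {u : Fin (n + 1) → E3} {h Tr}, Sys u h Tr → (twoFaces (poly u h)).ncard = n + 1 :=
    fun S => by
      rw [S.twoFaces_eq, ncard_range_of_injective S.face_inj]
      simp
  have p0 := S.var1_sum_pos
  rw [S.var1_sum_ar hu] at p0
  have eQ : isoQuot (poly u 1) = vol u 1 ^ 2 / (3 * vol u 1) ^ 3 := by
    rw [isoQuot, S.surfaceArea_eq, S.var1_sum_ar hu, vol]
  have key : ∀ R : Set E3, IsPolytope R → (twoFaces R).ncard ≤ n + 1 →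
      isoQuot R ≤ isoQuot (poly u 1) := by
    intro R hR h7
    obtain ⟨ι, _, _, w, h, hw, eR, ec, es⟩ := rep_st R hR
    obtain ⟨b1, b2⟩ := wulff_st slab_st ι w h hw (eR ▸ hR.isCompact.isBounded) (eR ▸ hR.2)
    have b3 := redG_st (n + 1) (vol u 1) (fun w' _ hw' S' => hm w' hw' S'.bdd) ι w
      (ec.trans_le h7) hw b1
    have b4 := alg_Main (by linarith : 0 < vol u 1) b3
      (Finset.sum_nonneg fun i _ => ENNReal.toReal_nonneg) b2
    rw [eQ, isoQuot, es, eR]
    exact b4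
  refine ⟨poly u 1, (hL u _ hu S hv).2 1 S,
    ⟨hP, fun Q hQ hT => key Q hQ ((card_st _ _ hP hQ hT).symm.trans (hc S)).le⟩,
    fun R hR h7 => ⟨key R hR h7, fun hE => ?_⟩⟩
  obtain ⟨ι, _, _, w, h, hw, eR, ec, es⟩ := rep_st R hR
  obtain ⟨b1, b2⟩ := wulff_st slab_st ι w h hw (eR ▸ hR.isCompact.isBounded) (eR ▸ hR.2)
  have b3 := redG_st (n + 1) (vol u 1) (fun w' _ hw' S' => hm w' hw' S'.bdd) ι w
    (ec.trans_le h7) hw b1
  have v0 : 0 < vol u 1 := by linarith
  rw [eQ, isoQuot, es, eR] at hE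
  change vol w h ^ 2 / _ = _ at hE
  have p1 : 0 < vol w h ^ 2 / (∑ i, ar w h i) ^ 3 := by rw [hE]; positivity
  have p2 : vol w h ≠ 0 := fun e => by simp [e] at p1
  have p3 : 0 < vol w h := lt_of_le_of_ne ENNReal.toReal_nonneg p2.symm
  have p4 : (∑ i, ar w h i) ^ 3 ≠ 0 := fun e => by simp [e] at p1
  have e1 : (∑ i, ar w h i) ^ 3 = 27 * vol w h ^ 2 * vol u 1 := by
    rw [div_eq_div_iff p4 (by positivity)] at hE
    refine mul_left_cancel₀ (pow_pos v0 2).ne' ?_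
    rw [← hE]
    ring
  have e2 : vol w 1 = vol u 1 := by
    refine le_antisymm (le_of_mul_le_mul_left (e1 ▸ b2) (by positivity)) b3
  have e3 : Fintype.card ι = n + 1 := by
    by_contra hne
    have := redG_st n W hn ι w (by omega) hw b1
    linarith
  obtain ⟨f⟩ : Nonempty (Fin (n + 1) ≃ ι) := ⟨(Fintype.equivFinOfCardEq e3).symm⟩
  have t1 : ∀ k : ι → ℝ, poly (w ∘ f) (k ∘ f) = poly w k := fun k => by
    ext x
    exact (f.surjective.forall (p := fun i => dt (w i) x ≤ k i)).symm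
  have t2 : ∑ i, ar (w ∘ f) (h ∘ f) i = ∑ i, ar w h i := by
    rw [← Equiv.sum_comp f]
    refine Finset.sum_congr rfl fun i _ => ?_
    simp only [ar, fc, t1, mem_singleton_iff, forall_eq, Function.comp]
  have t3 : poly (w ∘ f) 1 = poly w 1 := t1 1
  have t4 : vol (w ∘ f) 1 = vol u 1 := by rw [vol, t3, ← e2, vol]
  have t5 : vol (w ∘ f) (h ∘ f) = vol w h := by rw [vol, t1, vol]
  have hw' : Unit1 (w ∘ f) := fun i => hw _
  obtain ⟨Tr', S'⟩ := sim (w ∘ f) hw' (t3 ▸ b1) (t4 ▸ hv)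
  have S2 := eq_Uniq (h := h ∘ f) S' (fun u' h' S3 => by
    have := key _ S3.isPolytope (hc S3).le
    rwa [eQ, isoQuot, S3.surfaceArea_eq, ← t4, ← S'.var1_sum_ar hw'] at this) hw' (t5 ▸ p3)
    (by rw [t2, t5, t4, e1])
  rw [eR, ← t1]
  exact (hL _ _ hw' S' (t4 ▸ hv)).2 _ S2

end Pool.Agent.MP_5cfbf6_gt.P8
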