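import Pool.Agent.MP_5cfbf6_gt.P8.Fin8
import Pool.Agent.MP_5cfbf6_gt.P8.Fin9
import Pool.Agent.MP_5cfbf6_gt.P8.Fin10
import Pool.Agent.MP_5cfbf6_gt.P8.Fin11
import Pool.Agent.MP_5cfbf6_gt.P8.Uniq

set_option autoImplicit false

namespace Pool.Agent.MP_5cfbf6_gt.P8

open P7 Set Filter Topology Real

theorem uniq8 : ∃ Q : Set E3, HasType gold8 Q ∧ IsBest Q ∧
    ∀ R : Set E3, IsPolytope R → (twoFaces R).ncard ≤ 8 →
      isoQuot R ≤ isoQuot Q ∧ (isoQuot R = isoQuot Q → HasType gold8 R) := by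
  refine mainU 7 gold8 (201030 / 30000) (1 / 10000) (by norm_num)
    (by linarith [pi_gt_d2]) ?_ (fun u Tr hu S => ?_) fun u Tr hu S hv => ?_
  · obtain ⟨u, h1, h2, h3⟩ := comp8_st
    exact ⟨u, h1, h2, by linarith⟩
  · by_contra hv
    have h1 := deg8 hu S (ball_Key hu S (by linarith))
    have h2 := euler_st _ u 1 Tr S
    have h3 : ((∑ i, dg Tr i : ℕ) : ℝ) ≤ 30 := by
      rw [Fintype.card_fin] at h2
      exact_mod_cast (by omega : ∑ i, dg Tr i ≤ 30)
    have h4 := Nat.cast_nonneg (α := ℝ) (∑ i, un (dg Tr i))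
    push_cast at h1 h3 h4
    linarith
  · have h25 := ball_Key hu S (by linarith)
    have h1 := deg8 hu S h25
    have h2 := euler_st _ u 1 Tr S
    rw [Fintype.card_fin] at h2
    have h4 := Nat.cast_nonneg (α := ℝ) (∑ i, un (dg Tr i))
    have h5 : ∑ i, dg Tr i = 36 := by
      by_contra h
      have : ((∑ i, dg Tr i : ℕ) : ℝ) ≤ 35 := by exact_mod_cast (by omega : ∑ i, dg Tr i ≤ 35)
      rw [Nat.cast_add, Nat.cast_ofNat, Nat.cast_one] at h1
      linarith
    have h6 : ∑ i, un (dg Tr i) ≤ 1 := by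
      by_contra h
      have : (2 : ℝ) ≤ (∑ i, un (dg Tr i) : ℕ) := by exact_mod_cast (by omega : 2 ≤ _)
      rw [h5, Nat.cast_add, Nat.cast_ofNat, Nat.cast_one, Nat.cast_ofNat] at h1
      linarith
    obtain ⟨σ, hσ⟩ := enum8_st Tr (comb_of_sys S) h5 h6
    refine ⟨long_Key (W := 201030) (by norm_num) val8 ?_ cov8 hu S h25 hσ (by push_cast; linarith),
      fun h S' => type_st _ _ u h Tr σ S' fun i j k a b c => (hσ i j k).trans (t8_iff i j k a b c)⟩
    simp only [List.forall_mem_cons, List.not_mem_nil, false_imp_iff, implies_true, and_true]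
    exact ⟨ok8_0, ok8_1, ok8_2, ok8_3⟩

theorem uniq9 : ∃ Q : Set E3, HasType gold9 Q ∧ IsBest Q ∧
    ∀ R : Set E3, IsPolytope R → (twoFaces R).ncard ≤ 9 →
      isoQuot R ≤ isoQuot Q ∧ (isoQuot R = isoQuot Q → HasType gold9 R) := by
  refine mainU 8 gold9 (187898 / 30000) (1 / 10000) (by norm_num)
    (by linarith [pi_gt_d2]) ?_ (fun u Tr hu S => ?_) fun u Tr hu S hv => ?_
  · obtain ⟨u, h1, h2, h3⟩ := comp9_st
    exact ⟨u, h1, h2, by linarith⟩
  · by_contra hv
    have h1 := deg9 hu S (ball_Key hu S (by linarith))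
    have h2 := euler_st _ u 1 Tr S
    have h3 : ((∑ i, dg Tr i : ℕ) : ℝ) ≤ 36 := by
      rw [Fintype.card_fin] at h2
      exact_mod_cast (by omega : ∑ i, dg Tr i ≤ 36)
    have h4 := Nat.cast_nonneg (α := ℝ) (∑ i, un (dg Tr i))
    push_cast at h1 h3 h4
    linarith
  · have h25 := ball_Key hu S (by linarith)
    have h1 := deg9 hu S h25
    have h2 := euler_st _ u 1 Tr S
    rw [Fintype.card_fin] at h2
    have h4 := Nat.cast_nonneg (α := ℝ) (∑ i, un (dg Tr i))
    have h5 : ∑ i, dg Tr i = 42 := by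
      by_contra h
      have : ((∑ i, dg Tr i : ℕ) : ℝ) ≤ 41 := by exact_mod_cast (by omega : ∑ i, dg Tr i ≤ 41)
      rw [Nat.cast_add, Nat.cast_ofNat, Nat.cast_one] at h1
      linarith
    have h6 : ∑ i, un (dg Tr i) ≤ 1 := by
      by_contra h
      have : (2 : ℝ) ≤ (∑ i, un (dg Tr i) : ℕ) := by exact_mod_cast (by omega : 2 ≤ _)
      rw [h5, Nat.cast_add, Nat.cast_ofNat, Nat.cast_one, Nat.cast_ofNat] at h1
      linarith
    obtain ⟨σ, hσ | hσ⟩ := enum9_st Tr (comb_of_sys S) h5 h6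
    · refine ⟨long_Key (W := 187898) (by norm_num) val9 ?_ cov9 hu S h25 hσ
        (by push_cast; linarith),
        fun h S' => type_st _ _ u h Tr σ S' fun i j k a b c => (hσ i j k).trans (t9_iff i j k a b c)⟩
      simp only [List.forall_mem_cons, List.not_mem_nil, false_imp_iff, implies_true, and_true]
      exact ⟨ok9_0, ok9_1, ok9_2⟩
    · have := none_Key (by norm_num) val9 ok9_3 rfl hu S h25 hσ
      push_cast at this
      linarith

theorem uniq10 : ∃ Q : Set E3, HasType gold10 Q ∧ IsBest Q ∧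
    ∀ R : Set E3, IsPolytope R → (twoFaces R).ncard ≤ 10 →
      isoQuot R ≤ isoQuot Q ∧ (isoQuot R = isoQuot Q → HasType gold10 R) := by
  refine mainU 9 gold10 (179238 / 30000) (1 / 10000) (by norm_num)
    (by linarith [pi_gt_d2]) ?_ (fun u Tr hu S => ?_) fun u Tr hu S hv => ?_
  · obtain ⟨u, h1, h2, h3⟩ := comp10_st
    exact ⟨u, h1, h2, by linarith⟩
  · by_contra hv
    have h1 := deg10 hu S (ball_Key hu S (by linarith))
    have h2 := euler_st _ u 1 Tr S
    have h3 : ((∑ i, dg Tr i : ℕ) : ℝ) ≤ 42 := by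
      rw [Fintype.card_fin] at h2
      exact_mod_cast (by omega : ∑ i, dg Tr i ≤ 42)
    have h4 := Nat.cast_nonneg (α := ℝ) (∑ i, un (dg Tr i))
    push_cast at h1 h3 h4
    linarith
  · have h25 := ball_Key hu S (by linarith)
    have h1 := deg10 hu S h25
    have h2 := euler_st _ u 1 Tr S
    rw [Fintype.card_fin] at h2
    have h4 := Nat.cast_nonneg (α := ℝ) (∑ i, un (dg Tr i))
    have h5 : ∑ i, dg Tr i = 48 := by
      by_contra h
      have : ((∑ i, dg Tr i : ℕ) : ℝ) ≤ 47 := by exact_mod_cast (by omega : ∑ i, dg Tr i ≤ 47)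
      rw [Nat.cast_add, Nat.cast_ofNat, Nat.cast_one] at h1
      linarith
    have h6 : ∑ i, un (dg Tr i) ≤ 2 := by
      by_contra h
      have : (3 : ℝ) ≤ (∑ i, un (dg Tr i) : ℕ) := by exact_mod_cast (by omega : 3 ≤ _)
      rw [h5, Nat.cast_add, Nat.cast_ofNat, Nat.cast_one, Nat.cast_ofNat] at h1
      linarith
    obtain ⟨σ, M, hM, hσ⟩ := enum10_st Tr (comb_of_sys S) (conn_st _ u 1 Tr S).1
      (conn_st _ u 1 Tr S).2 h5 h6
    have hv' : ¬ ((179238 : ℤ) : ℝ) ≤ 30000 * vol u 1 := by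
      push_cast
      linarith
    simp only [List.mem_cons, List.not_mem_nil, or_false] at hM
    rcases hM with rfl | rfl | rfl | rfl | rfl
    · refine ⟨long_Key (W := 179238) (by norm_num) val10 ?_ cov10 hu S h25 hσ (not_le.1 hv'),
        fun h S' => type_st _ _ u h Tr σ S' fun i j k a b c => (hσ i j k).trans (t10_iff i j k a b c)⟩
      simp only [List.forall_mem_cons, List.not_mem_nil, false_imp_iff, implies_true, and_true]
      exact ⟨ok10_0, ok10_1, ok10_2⟩
    · exact absurd (none_Key (by norm_num) val10 ok10_3 rfl hu S h25 hσ) hv'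
    · exact absurd (none_Key (by norm_num) val10 ok10_4 rfl hu S h25 hσ) hv'
    · exact absurd (none_Key (by norm_num) val10 ok10_5 rfl hu S h25 hσ) hv'
    · exact absurd (none_Key (by norm_num) val10 ok10_6 rfl hu S h25 hσ) hv'

theorem uniq11 : ∃ Q : Set E3, HasType gold11 Q ∧ IsBest Q ∧
    ∀ R : Set E3, IsPolytope R → (twoFaces R).ncard ≤ 11 →
      isoQuot R ≤ isoQuot Q ∧ (isoQuot R = isoQuot Q → HasType gold11 R) := by
  refine mainU 10 gold11 (173373 / 30000) (1 / 10000) (by norm_num)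
    (by linarith [pi_gt_d2]) ?_ (fun u Tr hu S => ?_) fun u Tr hu S hv => ?_
  · obtain ⟨u, h1, h2, h3⟩ := comp11_st
    exact ⟨u, h1, h2, by linarith⟩
  · by_contra hv
    have h1 := deg11 hu S (ball_Key hu S (by linarith))
    have h2 := euler_st _ u 1 Tr S
    have h3 : ((∑ i, dg Tr i : ℕ) : ℝ) ≤ 48 := by
      rw [Fintype.card_fin] at h2
      exact_mod_cast (by omega : ∑ i, dg Tr i ≤ 48)
    have h4 := Nat.cast_nonneg (α := ℝ) (∑ i, un (dg Tr i))
    push_cast at h1 h3 h4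
    linarith
  · have h25 := ball_Key hu S (by linarith)
    have h1 := deg11 hu S h25
    have h2 := euler_st _ u 1 Tr S
    rw [Fintype.card_fin] at h2
    have h4 := Nat.cast_nonneg (α := ℝ) (∑ i, un (dg Tr i))
    have h5 : ∑ i, dg Tr i = 54 := by
      by_contra h
      have : ((∑ i, dg Tr i : ℕ) : ℝ) ≤ 53 := by exact_mod_cast (by omega : ∑ i, dg Tr i ≤ 53)
      rw [Nat.cast_add, Nat.cast_ofNat, Nat.cast_one] at h1
      linarith
    have h6 : ∑ i, un (dg Tr i) ≤ 5 := by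
      by_contra h
      have : (6 : ℝ) ≤ (∑ i, un (dg Tr i) : ℕ) := by exact_mod_cast (by omega : 6 ≤ _)
      rw [h5, Nat.cast_add, Nat.cast_ofNat, Nat.cast_one, Nat.cast_ofNat] at h1
      linarith
    obtain ⟨σ, M, hM, hσ⟩ := enum11_st Tr (comb_of_sys S) (conn_st _ u 1 Tr S).1
      (conn_st _ u 1 Tr S).2 h5 h6
    have hv' : ¬ ((173373 : ℤ) : ℝ) ≤ 30000 * vol u 1 := by
      push_cast
      linarith
    rcases excl11 M hM with rfl | h
    · exact ⟨long_Key2 walls11 cov11 hu S h25 hσ (not_le.1 hv'),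
        fun h S' => type_st _ _ u h Tr σ S' fun i j k a b c => (hσ i j k).trans (t11_iff i j k a b c)⟩
    · exact absurd (h u Tr σ hu S h25 hσ) hv'

end Pool.Agent.MP_5cfbf6_gt.P8
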