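import Pool.Agent.MP_5cfbf6_gt.P8.KP10

set_option autoImplicit false

namespace Pool.Agent.MP_5cfbf6_gt.P8.KK

theorem c10_187 : go p10 60 0x32186430a90c5222e430c8548a445a90c8548a445c8642a45222d190c85486429c8642a43214d48642a45222e432152190a68a
    1932735284 214748365 (-562209903) 562209905 4778784187 281104953 = 1 := by decide +kernel

theorem c10_409 : go p10 60 0x32390a92172190c2d190c8627242d48a42643225222e488c84c8a446445a2e452190b92268c8629217229133218a431345a
    2899102924 107374183 (-1967734665) 281104953 4778784187 281104953 = 1 := by decide +kernel

theorem c10_346 : go p10 60 0xc90a90c85390c85990c86172186430b52190a9112e432152190c29c90a91132186450b90c3229096a432252225a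
    3060164199 53687092 1827182191 140552477 2670497045 140552477 = 1 := by decide +kernel

theorem c10_197 : go p10 60 0xc8646a485c90b46472190b32390c8594a485c8643214cc8642e432190a6548642e432190a664321721913293
    2362232014 214748365 (-562209903) 562209905 6184308949 562209905 = 1 := by decide +kernel

theorem c10_343 : go p10 60 0x32191390c8548a429990c85c8644cc8a432266432152190a65c8642e432266452191332190b90c85a2d1
    3328599654 107374183 1546077239 140552477 3232706949 140552477 = 1 := by decide +kernel

theorem c10_226 : go p10 60 0x32192166432146451490a9214cc90b90c85a2e47215229213214e485a7239216a432172190b4ca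
    2952790015 53687092 (-1264972285) 140552477 4357126759 140552477 = 1 := by decide +kernel

theorem c10_22 : go p10 60 0xc8644647212a485c8d48e485a2a490972190b52392185a32190c85390c8599246dc864853293
    2362232014 214748365 (-2811049521) 562209905 6184308949 562209905 = 1 := by decide +kernel

theorem c10_79 : go p10 60 0xc8a43214e452190a66432132190a90c85172190991488b52186431488b90c32290968b
    2201170741 53687092 1897458429 70276239 2670497045 140552477 = 1 := by decide +kernel

theorem c10_349 : go p10 60 0x3642e47212a452126472132390952284b90c85c86430b5242a424c8e466430d6a452125a
    3060164199 53687092 2108287143 140552477 2389392093 140552477 = 1 := by decide +kernel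

theorem c10_292 : go p10 60 0x32186446430c84b90c85490a32190a92145a90c84c86425c90a9119215212d1
    2899102924 107374183 983867333 140552477 2951601997 140552477 = 1 := by decide +kernel

theorem c10_39 : go p10 60 0x32190a90c88b90c84c85a90c84c85c8642d190c85c86b52190b90d68a90c35d52aaea353
    1932735284 214748365 (-1686629713) 562209905 3935469331 562209905 = 1 := by decide +kernel

theorem c10_150 : go p10 60 0x3239148e46a47234e472352391a68c8a472352190a72391a90c853459
    885837005 26843546 (-825745796) 17569060 5832927759 70276239 = 1 := by decide +kernel

theorem c10_193 : go p10 60 0xc8644e43216a432152252190a90c49990c85c8d48a44e432168a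
    1932735284 214748365 (-1686629713) 562209905 6465413901 281104953 = 1 := by decide +kernel

theorem c10_264 : go p10 60 0x3239216a432346432190972191488b52190c2e432190968b
    2899102924 107374183 (-140552475) 140552477 4216574283 281104953 = 1 := by decide +kernel

theorem c10_400 : go p10 60 0xdb2190c84bb14864299b2391952391a90c85c8642d1652
    2791728742 214748365 1686629715 562209905 4216574283 281104953 = 1 := by decide +kernel

theorem c10_381 : go p10 60 0xc8643212e43229116a432185c8645212d1
    2899102924 107374183 421657429 140552477 3794916855 140552477 = 1 := by decide +kernel

theorem c10_284 : go p10 60 0x321ae4359aa435c86b351aea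
    2899102924 107374183 421657429 140552477 2951601997 140552477 = 1 := by decide +kernel

theorem c10_54 : go p10 60 0xc86b909aabaa552135d46a
    1932735284 214748365 562209905 562209905 2529944569 281104953 = 1 := by decide +kernel

end Pool.Agent.MP_5cfbf6_gt.P8.KK
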