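import Pool.Agent.MP_5cfbf6_gt.P8.KP11b

set_option autoImplicit false

namespace Pool.Agent.MP_5cfbf6_gt.P8.K2

theorem c11b_257 : go p11b 60 0x32290a9144e452152289990c85c8d2
    1181116006 107374183 (-1686629713) 562209905 4778784187 281104953 = 1 := by decide +kernel

theorem c11b_309 : go p11b 60 0xc8e46a45214a43217242d48a4293
    885837005 26843546 (-1264972285) 140552477 6605966377 140552477 = 1 := by decide +kernel

theorem c11b_360 : go p11b 60 0x32446490a2e486468c92191a25a
    885837005 26843546 (-737900498) 35138120 5973480235 70276239 = 1 := by decide +kernel

theorem c11b_643 : go p11b 60 0xc8642a43214e432425c8642d1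
    2469606196 107374183 983867333 140552477 3232706949 140552477 = 1 := by decide +kernel

theorem c11b_178 : go p11b 60 0x32386485c84a91c3218e4253
    2469606196 107374183 (-2951601997) 140552477 5340994091 281104953 = 1 := by decide +kernel

theorem c11b_666 : go p11b 60 0x32190b90c85a90c85c8642d1
    2201170741 53687092 1756905953 70276239 2740773283 70276239 = 1 := by decide +kernel

theorem c11b_1086 : go p11b 60 0x32290991484b91484c8a425a
    2738041651 53687092 (-1264972285) 140552477 4076021807 140552477 = 1 := by decide +kernel

theorem c11b_1524 : go p11b 60 0x32190a91c8d190c8548e468b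
    3060164199 53687092 70276239 70276239 3513811903 140552477 = 1 := by decide +kernel

theorem c11b_546 : go p11b 60 0xc8e42a472146432152188b
    2469606196 107374183 (-1264972285) 140552477 4216574283 281104953 = 1 := by decide +kernel

theorem c11b_1431 : go p11b 60 0x32190b914a9990c85490a35a
    3060164199 53687092 702762381 140552477 2951601997 140552477 = 1 := by decide +kernel

theorem c11b_1130 : go p11b 60 0x32190b90c85a90c7242d1
    2684354560 107374183 (-421657427) 140552477 4357126759 140552477 = 1 := by decide +kernel

theorem c11b_20 : go p11b 60 0xc8a47234647148e468b
    966367642 107374183 (-5411270329) 70276239 6324861425 140552477 = 1 := by decide +kernel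

theorem c11b_401 : go p11b 60 0xc9129224e4322524499
    912680551 53687092 (-421657427) 140552477 6324861425 140552477 = 1 := by decide +kernel

theorem c11b_503 : go p11b 60 0xdb219095226ac854864293
    1127428915 53687092 281104953 281104953 6465413901 281104953 = 1 := by decide +kernel

theorem c11b_743 : go p11b 60 0x32291c8d19148e428b
    2523293287 53687092 2038010905 70276239 2389392093 140552477 = 1 := by decide +kernel

theorem c11b_1541 : go p11b 60 0x3239216a485c8642d1
    3113851290 107374183 140552477 140552477 4357126759 140552477 = 1 := by decide +kernel

theorem c11b_217 : go p11b 60 0x3229539156a452252aa99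
    1395864372 107374183 (-843314855) 281104953 3654364379 281104953 = 1 := by decide +kernel

theorem c11b_126 : go p11b 60 0x32292146452428b
    2362232014 214748365 (-5762651521) 140552477 6465413901 281104953 = 1 := by decide +kernel

theorem c11b_1191 : go p11b 60 0xc864359aa4a8c86566a35d46baabaaa
    3221225472 214748365 (-1124419808) 1124419810 2811049521 562209905 = 1 := by decide +kernel

theorem c11b_1756 : go p11b 60 0x32190b90c85a
    3543348020 107374183 562209905 562209905 5340994091 281104953 = 1 := by decide +kernel

theorem c11b_567 : go p11b 60 0x32186baabaaa
    2040109466 107374183 562209905 562209905 2529944569 281104953 = 1 := by decide +kernel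

theorem c11b_543 : go p11b 60 0xc861aabaaa
    2469606196 107374183 (-1686629713) 562209905 3654364379 281104953 = 1 := by decide +kernel

end Pool.Agent.MP_5cfbf6_gt.P8.K2
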