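import Pool.Agent.MP_5cfbf6_gt.P8.KP11b

set_option autoImplicit false

namespace Pool.Agent.MP_5cfbf6_gt.P8.K2

theorem c11b_558 : go p11b 60 0x3242e43216a432246484c8548e428b
    2469606196 107374183 (-983867331) 140552477 4216574283 281104953 = 1 := by decide +kernel

theorem c11b_741 : go p11b 60 0xc8642e43216a484c85c9099212d1
    2415919105 53687092 2038010905 70276239 2459668331 70276239 = 1 := by decide +kernel

theorem c11b_784 : go p11b 60 0x3218642a484c85390c321521899
    2469606196 107374183 702762381 140552477 3513811903 140552477 = 1 := by decide +kernel

theorem c11b_1087 : go p11b 60 0xc86430b90c8616a485c8642d1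
    2684354560 107374183 (-1264972285) 140552477 4357126759 140552477 = 1 := by decide +kernel

theorem c11b_263 : go p11b 60 0x32191990c8ca90c85c8642d2
    912680551 53687092 (-702762379) 140552477 4919336663 140552477 = 1 := by decide +kernel

theorem c11b_755 : go p11b 60 0x32191190c8622e488c86445a
    2523293287 53687092 1546077239 140552477 2951601997 140552477 = 1 := by decide +kernel

theorem c11b_1166 : go p11b 60 0x32191a9214647242d486428b
    2845415833 53687092 (-491933665) 70276239 3794916855 140552477 = 1 := by decide +kernel

theorem c11b_1592 : go p11b 60 0x32432189c8d192452326468b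
    2952790015 53687092 (-2178563379) 70276239 4638231711 140552477 = 1 := by decide +kernel

theorem c11b_872 : go p11b 60 0xc86426484a90c84c864253
    2040109466 107374183 (-1264972285) 140552477 5903203997 281104953 = 1 := by decide +kernel

theorem c11b_184 : go p11b 60 0x3242645212a450c8e4253
    2254857832 107374183 (-3513811903) 140552477 5903203997 281104953 = 1 := by decide +kernel

theorem c11b_649 : go p11b 60 0x32190b90c85a90c85c8d1
    2201170741 53687092 1616353477 70276239 2600220807 70276239 = 1 := by decide +kernel

theorem c11b_1627 : go p11b 60 0x32290c85190c8548e468b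
    2684354560 107374183 (-140552475) 140552477 5340994091 281104953 = 1 := by decide +kernel

theorem c11b_1705 : go p11b 60 0xc86484a90c88c864453
    3328599654 107374183 281104953 281104953 4778784187 281104953 = 1 := by decide +kernel

theorem c11b_485 : go p11b 60 0x32290c852914864293
    1556925645 53687092 (-281104951) 281104953 5903203997 281104953 = 1 := by decide +kernel

theorem c11b_1352 : go p11b 60 0x32191a91190c85488b
    2845415833 53687092 70276239 70276239 3513811903 140552477 = 1 := by decide +kernel

theorem c11b_432 : go p11b 60 0xc8642a431390c85a
    1395864372 107374183 (-1967734665) 281104953 5340994091 281104953 = 1 := by decide +kernel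

theorem c11b_1322 : go p11b 60 0xc90990c2e432285a
    2738041651 53687092 421657429 140552477 3794916855 140552477 = 1 := by decide +kernel

theorem c11b_1189 : go p11b 60 0x3219212e484c85a
    2845415833 53687092 (-140552475) 140552477 4357126759 140552477 = 1 := by decide +kernel

theorem c11b_1543 : go p11b 60 0xc8646a47242d1
    3113851290 107374183 421657429 140552477 4357126759 140552477 = 1 := by decide +kernel

theorem c11b_1721 : go p11b 60 0x32190b90c85a
    3597035111 53687092 843314857 281104953 3092154473 281104953 = 1 := by decide +kernel

theorem c11b_1659 : go p11b 60 0x32391a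
    3167538381 53687092 (-1264972285) 140552477 4638231711 140552477 = 1 := by decide +kernel

theorem c11b_505 : go p11b 60 0xd
    1181116006 107374183 843314857 281104953 6465413901 281104953 = 1 := by decide +kernel

theorem c11b_1133 : go p11b 60 0xd
    2899102924 107374183 (-983867331) 140552477 3513811903 140552477 = 1 := by decide +kernel

end Pool.Agent.MP_5cfbf6_gt.P8.K2
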