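import Pool.Agent.MP_5cfbf6_gt.P8.KP11b

set_option autoImplicit false

namespace Pool.Agent.MP_5cfbf6_gt.P8.K2

theorem c11b_1046 : go p11b 60 0x32191191488b91488c86485a92145a
    2684354560 107374183 (-2529944569) 281104953 5903203997 281104953 = 1 := by decide +kernel

theorem c11b_1243 : go p11b 60 0xc8646a47234647235242e432168b
    3060164199 53687092 (-491933665) 70276239 3794916855 140552477 = 1 := by decide +kernel

theorem c11b_1308 : go p11b 60 0x32190b90c89a91484c8a4321653
    2845415833 53687092 1967734667 281104953 2529944569 281104953 = 1 := by decide +kernel

theorem c11b_1438 : go p11b 60 0xc86426431484b90c84c86425a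
    3167538381 53687092 983867333 140552477 3232706949 140552477 = 1 := by decide +kernel

theorem c11b_412 : go p11b 60 0x32190a90c85390c85486429a
    1127428915 53687092 (-983867331) 140552477 6043756473 140552477 = 1 := by decide +kernel

theorem c11b_850 : go p11b 60 0x32190990c84a90c85486428b
    1825361102 107374183 (-421657427) 140552477 4778784187 281104953 = 1 := by decide +kernel

theorem c11b_1273 : go p11b 60 0x32190b90c85a90c8548a4459
    2684354560 107374183 983867333 140552477 3232706949 140552477 = 1 := by decide +kernel

theorem c11b_1753 : go p11b 60 0x32190b90c85a91489c8644d3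
    3972844750 107374183 (-1124419808) 1124419810 5622099044 1124419810 = 1 := by decide +kernel

theorem c11b_1145 : go p11b 60 0xc8642e43216a485c8642d1
    2952790015 53687092 (-632486141) 70276239 3865193093 70276239 = 1 := by decide +kernel

theorem c11b_343 : go p11b 60 0x32191a90c85c864321652
    885837005 26843546 (-632486141) 70276239 5832927759 70276239 = 1 := by decide +kernel

theorem c11b_870 : go p11b 60 0x32190a90c85390c52189a
    2040109466 107374183 (-1967734665) 281104953 5903203997 281104953 = 1 := by decide +kernel

theorem c11b_1701 : go p11b 60 0x36d90b4e43215242e432169a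
    2899102924 107374183 562209905 562209905 6184308949 562209905 = 1 := by decide +kernel

theorem c11b_791 : go p11b 60 0xc8642a431190c85488b
    2523293287 53687092 1054143571 70276239 3794916855 140552477 = 1 := by decide +kernel

theorem c11b_1433 : go p11b 60 0xc8642643212e432135a
    3167538381 53687092 702762381 140552477 2951601997 140552477 = 1 := by decide +kernel

theorem c11b_595 : go p11b 60 0x32190b90c85a91c8d1
    2093796557 53687092 2178563381 70276239 2319115855 70276239 = 1 := by decide +kernel

theorem c11b_1460 : go p11b 60 0x32190b90c85a91c8d1
    3060164199 53687092 1264972287 140552477 2951601997 140552477 = 1 := by decide +kernel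

theorem c11b_1470 : go p11b 60 0xc86290990c85484b
    3167538381 53687092 1616353477 70276239 3232706949 140552477 = 1 := by decide +kernel

theorem c11b_1528 : go p11b 60 0x32191191486428b
    3060164199 53687092 210828715 70276239 3794916855 140552477 = 1 := by decide +kernel

theorem c11b_647 : go p11b 60 0x321909aea90c84d751aea
    2254857832 107374183 1546077239 140552477 2389392093 140552477 = 1 := by decide +kernel

theorem c11b_133 : go p11b 60 0x32190b91489a
    1825361102 107374183 (-3654364379) 281104953 5340994091 281104953 = 1 := by decide +kernel

theorem c11b_582 : go p11b 60 0xc861aa4309aea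
    2040109466 107374183 1546077239 140552477 2389392093 140552477 = 1 := by decide +kernel

theorem c11b_1446 : go p11b 60 0xd
    3113851290 107374183 1264972287 140552477 2389392093 140552477 = 1 := by decide +kernel

end Pool.Agent.MP_5cfbf6_gt.P8.K2
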