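import Pool.Agent.MP_5cfbf6_gt.P8.KP11b

set_option autoImplicit false

namespace Pool.Agent.MP_5cfbf6_gt.P8.K2

theorem c11b_1432 : go p11b 60 0x32191190c88b91490a32190a92145a
    3060164199 53687092 702762381 140552477 3232706949 140552477 = 1 := by decide +kernel

theorem c11b_1720 : go p11b 60 0xc8a431191486428b90c88c86429a
    3489660929 53687092 843314857 281104953 3092154473 281104953 = 1 := by decide +kernel

theorem c11b_1711 : go p11b 60 0xdb6c90969c86484992172290c8532d2
    3221225472 214748365 1124419810 1124419810 6184308949 562209905 = 1 := by decide +kernel

theorem c11b_215 : go p11b 60 0x32190b91a90c85c8d190c85cad2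
    1395864372 107374183 (-1686629713) 562209905 4216574283 281104953 = 1 := by decide +kernel

theorem c11b_1067 : go p11b 60 0xc8e43216a575392152ba9c95390cad56ab55a
    4133906023 53687092 (-5622099044) 1124419810 5622099044 1124419810 = 1 := by decide +kernel

theorem c11b_618 : go p11b 60 0x32190a90c85991485c86428b
    2040109466 107374183 140552477 140552477 4216574283 281104953 = 1 := by decide +kernel

theorem c11b_965 : go p11b 60 0x32190b90c85a90c85c8642d1
    2469606196 107374183 140552477 140552477 4919336663 140552477 = 1 := by decide +kernel

theorem c11b_1482 : go p11b 60 0x32190a90c85990c85486428b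
    3274912563 53687092 1616353477 70276239 3232706949 140552477 = 1 := by decide +kernel

theorem c11b_335 : go p11b 60 0xc8e46a43214a4321721893
    939524097 26843546 (-913591093) 70276239 5762651521 140552477 = 1 := by decide +kernel

theorem c11b_693 : go p11b 60 0x36430b90c8616ac854864299
    2201170741 53687092 2038010905 70276239 2740773283 70276239 = 1 := by decide +kernel

theorem c11b_536 : go p11b 60 0x32391a91485990c85488b
    2040109466 107374183 (-421657427) 140552477 4216574283 281104953 = 1 := by decide +kernel

theorem c11b_1582 : go p11b 60 0x32190b90c8616a47242d1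
    2684354560 107374183 (-1827182189) 140552477 4638231711 140552477 = 1 := by decide +kernel

theorem c11b_1631 : go p11b 60 0xc8e485a90c84c8642d1
    2899102924 107374183 (-702762379) 140552477 4919336663 140552477 = 1 := by decide +kernel

theorem c11b_429 : go p11b 60 0x32190a90b90c85485a
    1234803097 53687092 (-421657427) 140552477 6605966377 140552477 = 1 := by decide +kernel

theorem c11b_1295 : go p11b 60 0x32190a90c85c8642d1
    2684354560 107374183 2108287143 140552477 2389392093 140552477 = 1 := by decide +kernel

theorem c11b_304 : go p11b 60 0xc8642a431391489a
    912680551 53687092 (-1546077237) 140552477 6324861425 140552477 = 1 := by decide +kernel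

theorem c11b_1220 : go p11b 60 0xc8e46a485c8642d1
    3060164199 53687092 (-632486141) 70276239 3865193093 70276239 = 1 := by decide +kernel

theorem c11b_1072 : go p11b 60 0x32190a921324253
    3650722202 214748365 (-2811049521) 562209905 6184308949 562209905 = 1 := by decide +kernel

theorem c11b_1151 : go p11b 60 0xc8e46a47242d1
    2952790015 53687092 (-913591093) 70276239 4146298045 70276239 = 1 := by decide +kernel

theorem c11b_1609 : go p11b 60 0x32190a90c851
    2899102924 107374183 (-1827182189) 140552477 5481546567 140552477 = 1 := by decide +kernel

theorem c11b_1164 : go p11b 60 0x321909aea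
    2952790015 53687092 (-351381189) 70276239 3443535665 70276239 = 1 := by decide +kernel

theorem c11b_134 : go p11b 60 0xcaabaaa
    2040109466 107374183 (-3935469331) 562209905 4778784187 281104953 = 1 := by decide +kernel

end Pool.Agent.MP_5cfbf6_gt.P8.K2
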