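import Pool.Agent.MP_5cfbf6_gt.P8.KP11b

set_option autoImplicit false

namespace Pool.Agent.MP_5cfbf6_gt.P8.K2

theorem c11b_523 : go p11b 60 0x32190a90c4e43216a4321721ad290d55d553
    1825361102 107374183 (-1686629713) 562209905 3935469331 562209905 = 1 := by decide +kernel

theorem c11b_1729 : go p11b 60 0xd8a44ec85c90b46472352190b92168b
    3489660929 53687092 2108287143 140552477 2529944569 281104953 = 1 := by decide +kernel

theorem c11b_86 : go p11b 60 0x3218e43216a485489c8e42a44d2
    1395864372 107374183 (-3935469331) 562209905 5903203997 281104953 = 1 := by decide +kernel

theorem c11b_407 : go p11b 60 0xc90a9224645218d49129214ca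
    1020054733 53687092 (-281104951) 281104953 6324861425 140552477 = 1 := by decide +kernel

theorem c11b_9 : go p11b 60 0x32191191488b90c88c8a445a
    966367642 107374183 (-5762651521) 140552477 6605966377 140552477 = 1 := by decide +kernel

theorem c11b_468 : go p11b 60 0x32391291489291c8d48a4293
    1556925645 53687092 (-1405524761) 281104953 6465413901 281104953 = 1 := by decide +kernel

theorem c11b_876 : go p11b 60 0x32190a90c89390c8548e449a
    1879048193 53687092 (-843314855) 281104953 5903203997 281104953 = 1 := by decide +kernel

theorem c11b_1348 : go p11b 60 0x32190a90c85190c8548e428b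
    2738041651 53687092 1054143571 70276239 4076021807 140552477 = 1 := by decide +kernel

theorem c11b_78 : go p11b 60 0xc86290b91485a90c7218d2
    1181116006 107374183 (-2811049521) 562209905 5903203997 281104953 = 1 := by decide +kernel

theorem c11b_1425 : go p11b 60 0xc8642a432346485486428b
    3060164199 53687092 351381191 70276239 3232706949 140552477 = 1 := by decide +kernel

theorem c11b_1319 : go p11b 60 0x3228643212e432132425a
    2738041651 53687092 140552477 140552477 3794916855 140552477 = 1 := by decide +kernel

theorem c11b_259 : go p11b 60 0xc86391290c4a4314893
    1127428915 53687092 (-1405524761) 281104953 5340994091 281104953 = 1 := by decide +kernel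

theorem c11b_1153 : go p11b 60 0xc90a91190c85486428b
    2952790015 53687092 (-1054143569) 70276239 4357126759 140552477 = 1 := by decide +kernel

theorem c11b_174 : go p11b 60 0x32191291190c85488b
    2469606196 107374183 (-2670497045) 140552477 4778784187 281104953 = 1 := by decide +kernel

theorem c11b_932 : go p11b 60 0x32190c84b91486429a
    2254857832 107374183 (-281104951) 281104953 6465413901 281104953 = 1 := by decide +kernel

theorem c11b_1050 : go p11b 60 0xc86290c4e43556e472b55a
    3221225472 214748365 (-3935469331) 562209905 5059889139 562209905 = 1 := by decide +kernel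

theorem c11b_752 : go p11b 60 0xc86190c2a484c853
    2523293287 53687092 1264972287 140552477 3232706949 140552477 = 1 := by decide +kernel

theorem c11b_750 : go p11b 60 0x32426484b90c85a
    2523293287 53687092 1264972287 140552477 2951601997 140552477 = 1 := by decide +kernel

theorem c11b_320 : go p11b 60 0xc86391a914852
    1127428915 53687092 (-1967734665) 281104953 6324861425 140552477 = 1 := by decide +kernel

theorem c11b_269 : go p11b 60 0x32291a91c8d2
    939524097 26843546 (-702762379) 140552477 5200441615 140552477 = 1 := by decide +kernel

theorem c11b_1670 : go p11b 60 0x32290c853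
    3328599654 107374183 (-843314855) 281104953 5340994091 281104953 = 1 := by decide +kernel

theorem c11b_1274 : go p11b 60 0xd
    2899102924 107374183 281104953 281104953 2529944569 281104953 = 1 := by decide +kernel

end Pool.Agent.MP_5cfbf6_gt.P8.K2
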