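import Pool.Agent.MP_5cfbf6_gt.P8.KP8

set_option autoImplicit false

namespace Pool.Agent.MP_5cfbf6_gt.P8.KK

theorem c8_8 : go p8 60 0x32190b90c85a90c85c86346432272190b3242a446485488b4a432172190b52291a32290b90c85992152135a4e48548627229133218e43216a432152429952190a91489991c86b52195a299
    1288490189 429496730 (-2811049521) 562209905 5059889139 562209905 = 1 := by decide +kernel

theorem c8_44 : go p8 60 0x32190a91191c8548622e431488c8629116a432152190972190990c2d195c84d521a8d75390c8548627218642d48642e432168c861909aea664321521a9c86b52186430b90d68c8642e431995caca35a
    2469606196 107374183 (-421657427) 140552477 3513811903 140552477 = 1 := by decide +kernel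

theorem c8_221 : go p8 60 0x32190991488b90c84c8644a432145a90c8a425c86191484b46432152190a32190a90c85172191290c85190c89486428b52190a90990c5212e452132290968b
    2630667469 53687092 (-913591093) 70276239 4076021807 140552477 = 1 := by decide +kernel

theorem c8_51 : go p8 60 0x32291c8d19148e468b90c86428c8642a472145a90c86425c90b9216548642e432166432172190b29c90b9216647232a432172190b3218e43194d1
    2523293287 53687092 (-70276237) 70276239 3584088141 70276239 = 1 := by decide +kernel

theorem c8_98 : go p8 60 0xc8a472346452152391a2e452391a32190a91c8516a431c8642cc8642e43216548e46a472345c8642e432166432172190b2a47233239194d1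
    2523293287 53687092 70276239 70276239 3443535665 70276239 = 1 := by decide +kernel

theorem c8_308 : go p8 60 0xc86446431486428b90c88c8642a452345a90c85486428c90b9216a485c90b45c8642a472346485c90b52190b90c85a2d1
    2791728742 214748365 281104953 281104953 4216574283 281104953 = 1 := by decide +kernel

theorem c8_189 : go p8 60 0xc8a432146432152390a2e485488c8646a432145a91c8d48e468c8e432166472329c8646643232a45233219114d1
    2362232014 214748365 281104953 281104953 4778784187 281104953 = 1 := by decide +kernel

theorem c8_145 : go p8 60 0xc86290c4e432190a92132425332192172190a91291c8548624c972190c85c90b46432426484b90c85a2d1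
    912680551 53687092 (-808176736) 35138120 5973480235 70276239 = 1 := by decide +kernel

theorem c8_110 : go p8 60 0xd90c2a45222e43215223229116ac50c86172286430b46452232290972290990c84b52186430b90c32168a
    2040109466 107374183 1405524763 281104953 3513811903 140552477 = 1 := by decide +kernel

theorem c8_316 : go p8 60 0x36c8643244594ac8a432266436468c8a432152426429972190c8999148642e432168b453
    3221225472 214748365 1686629715 562209905 3935469331 562209905 = 1 := by decide +kernel

theorem c8_97 : go p8 60 0x32190c2e430c90a9096a47242d191484c8a172190a9099215212d48642e432168b
    2415919105 53687092 210828715 70276239 3513811903 140552477 = 1 := by decide +kernel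

theorem c8_239 : go p8 60 0xc8a45222645229112e452192168c8a432145a
    2738041651 53687092 421657429 140552477 3232706949 140552477 = 1 := by decide +kernel

theorem c8_1 : go p8 60 0x32426baa5721351aeaaab90d52135d55566aae435c84d555721aa4351aab35566a
    1717986919 858993460 (-4497679235) 2248839619 3373259426 1124419810 = 1 := by decide +kernel

end Pool.Agent.MP_5cfbf6_gt.P8.KK
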