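import Pool.Agent.MP_5cfbf6_gt.P8.KP9

set_option autoImplicit false

namespace Pool.Agent.MP_5cfbf6_gt.P8.KK

theorem c9_252 : go p9 60 0xc91192135392235a92132425c8a488c9096548642643212e452232291168c86a90d46ba9c8a43242d486a6648642e568d6a432152190a32186a72190a90c851ad1ad1
    2899102924 107374183 (-421657427) 140552477 3513811903 140552477 = 1 := by decide +kernel

theorem c9_326 : go p9 60 0xc86446432445c86484b46452390a32190b90c85490b91a66485c8642a43214ca2e432152190c45c86484b90c85a91c8a431332390c8594ca
    3328599654 107374183 1405524763 281104953 3092154473 281104953 = 1 := by decide +kernel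

theorem c9_172 : go p9 60 0xc86390c85a92152172190a90b46432172190b52190a90c85291490a4ca91c8d48e432168c8642e43226a4324294864852653
    1181116006 107374183 (-281104951) 281104953 6465413901 281104953 = 1 := by decide +kernel

theorem c9_80 : go p9 60 0xdb6429c8643212d590c84b90c86168ab6d90b56430a2d48a446432152190a2e452232190a90c8516a452132190a91172290990c85488b453
    1825361102 107374183 1967734667 281104953 3092154473 281104953 = 1 := by decide +kernel

theorem c9_73 : go p9 60 0xc8a43214643148e468b91486232290c45a91c8d48e468c90b91a90c85c90b45c8e42a472346472152391a2d1
    2040109466 107374183 1827182191 140552477 2670497045 140552477 = 1 := by decide +kernel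

theorem c9_177 : go p9 60 0x32190a92132425290c90952190990c88a4e43233219195229199148632948642643232a472332390c859499
    1503238554 214748365 (-281104951) 281104953 6465413901 281104953 = 1 := by decide +kernel

theorem c9_331 : go p9 60 0x3642a43214ec909521b1190c88a66432425486432129c8648599148642ca9148642cc8642e45242994ca
    3060164199 53687092 2108287143 140552477 2459668331 70276239 = 1 := by decide +kernel

theorem c9_145 : go p9 60 0xc8642a43214e431489a90c88c90b52190a52191190c6a432149991489c8a42d48642a44e452268a
    966367642 107374183 (-1405524761) 281104953 6605966377 140552477 = 1 := by decide +kernel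

theorem c9_320 : go p9 60 0x32391a90c89990c85c8642d48642e432168b90c8548e468c8642e43216a432172190b45a
    3060164199 53687092 1264972287 140552477 2951601997 140552477 = 1 := by decide +kernel

theorem c9_117 : go p9 60 0xc8646643212a45222e432132425486425a91c85486428c8a445c8642a44643212d1
    2254857832 107374183 1264972287 140552477 3513811903 140552477 = 1 := by decide +kernel

theorem c9_335 : go p9 60 0xc8642e46643217232a485486429990c3219097218643222d48642a43219094ca
    3060164199 53687092 1827182191 140552477 2740773283 70276239 = 1 := by decide +kernel

theorem c9_382 : go p9 60 0x32426452190a66484c8a44ca92132190a9213214cc86452391a253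
    3865470567 429496730 (-1124419808) 1124419810 5622099044 1124419810 = 1 := by decide +kernel

theorem c9_171 : go p9 60 0xc8a42e431c8634a432429390c85485c863921321694864321499
    966367642 107374183 (-140552475) 140552477 6605966377 140552477 = 1 := by decide +kernel

theorem c9_211 : go p9 60 0x3642e43216ac85c8642d190c85c8642d48642e432168a
    2040109466 107374183 843314857 281104953 4919336663 140552477 = 1 := by decide +kernel

theorem c9_375 : go p9 60 0xc8647214645242e468b92232190c45a
    3221225472 214748365 (-1686629713) 562209905 5059889139 562209905 = 1 := by decide +kernel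

theorem c9_33 : go p9 60 0x321ae4359aa430d46baaa
    2362232014 214748365 (-1686629713) 562209905 3654364379 281104953 = 1 := by decide +kernel

end Pool.Agent.MP_5cfbf6_gt.P8.KK
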