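import Pool.Agent.MP_5cfbf6_gt.P8.Base
import Pool.Agent.MP_5cfbf6_gt.P7.Cert
import Pool.Agent.MP_5cfbf6_gt.P7.Tri

set_option autoImplicit false

namespace Pool.Agent.MP_5cfbf6_gt.P8

open P7 Set Filter Topology Real

lemma atan_Lab {a b : ℝ} (h : 0 ≤ a + b) :
    0 ≤ arctan a + arctan b ∧ arctan a + arctan b ≤ a + b := by
  have hm : Monotone fun x : ℝ => x - arctan x := by
    refine monotone_of_hasDerivAt_nonneg (f' := fun x => 1 - (1 + x ^ 2)⁻¹)
      (fun x => (hasDerivAt_id' x).sub (hasDerivAt_arctan' x)) fun x => ?_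
    have h1 : (1 + x ^ 2)⁻¹ ≤ 1 := inv_le_one_of_one_le₀ (by nlinarith [sq_nonneg x])
    simpa using h1
  have h1 := arctan_strictMono.monotone (show -b ≤ a by linarith)
  have h2 := hm (show -b ≤ a by linarith)
  simp only [arctan_neg] at h1 h2
  constructor <;> linarith

lemma wall_Lab {A l w c y t T e : ℝ} (h1 : A - l ≤ c) (h2 : A - l - w ≤ c) (hy0 : 0 ≤ y)
    (hy1 : y ≤ 1) (ht0 : 0 ≤ t) (ht : t ≤ T) (hT : T ≤ e) (hc : 0 ≤ c) :
    (A - l - w * y) * t ≤ c * e := by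
  have h3 : A - l - w * y ≤ c := by
    nlinarith [mul_nonneg hy0 (sub_nonneg.2 h2), mul_nonneg (sub_nonneg.2 hy1) (sub_nonneg.2 h1)]
  exact (mul_le_mul_of_nonneg_right h3 ht0).trans (mul_le_mul_of_nonneg_left (ht.trans hT) hc)

lemma edge_Lab {S S' : Sd} (A y θ θ' : ℝ) (hp : S.p + S'.p = 0) (hq : S.q + S'.q = 0)
    (hl : S.l = S'.l) (hw : S.w = S'.w) :
    S.val y θ + S'.val y θ' + A * (θ + θ') = (A - S.l - S.w * y) * (θ + θ') := by
  have hp' : (S.p : ℝ) + S'.p = 0 := by exact_mod_cast hp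
  have hq' : (S.q : ℝ) + S'.q = 0 := by exact_mod_cast hq
  unfold Sd.val
  rw [← hl, ← hw]
  linear_combination y * hp' + y ^ 2 * hq'

lemma pos_Lab {ι : Type} [Fintype ι] [DecidableEq ι] {u : ι → E3} {Tr : ι → ι → ι → Prop}
    (hu : Unit1 u) (S : Sys u 1 Tr) {i j k l : ι} (T : Tr i j k) (T' : Tr i j l) (hkl : k ≠ l) :
    0 < TT3 u i j k + TT3 u i j l := by
  have A : Adj Tr i j := ⟨k, T⟩
  have h := (area_st ι u Tr hu S).1 i j A
  rcases (tr_iff S A k).1 T with e | e <;> rcases (tr_iff S A l).1 T' with e' | e'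
  · exact absurd (e.trans e'.symm) hkl
  · rw [e, e']; exact h
  · rw [e, e', add_comm]; exact h
  · exact absurd (e.trans e'.symm) hkl

lemma beta_Lab {n : ℕ} (a b : Fin n) {c : ℝ} (hc : 0 ≤ c) :
    (∑ i : Fin n, ∑ j : Fin n, if (i = a ∧ j = b) ∨ (i = b ∧ j = a) then c else 0) ≤ 2 * c := by
  have key : ∀ a b : Fin n, (∑ i : Fin n, ∑ j : Fin n, if i = a ∧ j = b then c else 0) = c := by
    intro a b
    simp only [ite_and]
    simp
  calc (∑ i : Fin n, ∑ j : Fin n, if (i = a ∧ j = b) ∨ (i = b ∧ j = a) then c else 0)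
      ≤ ∑ i : Fin n, ∑ j : Fin n,
        ((if i = a ∧ j = b then c else 0) + if i = b ∧ j = a then c else 0) := by
        refine Finset.sum_le_sum fun i _ => Finset.sum_le_sum fun j _ => ?_
        by_cases h1 : i = a ∧ j = b <;> by_cases h2 : i = b ∧ j = a
        · rw [if_pos (Or.inl h1), if_pos h1, if_pos h2]; linarith
        · rw [if_pos (Or.inl h1), if_pos h1, if_neg h2]; linarith
        · rw [if_pos (Or.inr h2), if_neg h1, if_pos h2]; linarith
        · rw [if_neg (not_or.2 ⟨h1, h2⟩), if_neg h1, if_neg h2]; linarith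
    _ = 2 * c := by
        simp only [Finset.sum_add_distrib]
        rw [key, key]; ring

theorem add_st (h : CertG) : AddSt := by
  intro b s ι _ _ u Tr A G cl hb hu S hbd hv
  have main := h b s ι u Tr (fun i => (A (cl i) : ℝ))
    (fun i j _ => ⟨A (cl i) + A (cl j), 0, 0, 0⟩)
    (fun i j k => G (cl i) + G (cl j) + G (cl k)) (fun _ _ => 0) hb hu S hbd
    (fun i => Nat.cast_nonneg _) (fun _ _ => le_rfl) (fun i j k _ => hv (cl i) (cl j) (cl k))
    (fun i j k l _ _ _ => by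
      unfold Sd.val
      push_cast
      exact le_of_eq (by ring))
  have eG := Sg_three_Cert S fun i _ _ => (G (cl i) : ℝ)
  rw [Sg_ga_Cert S] at eG
  have e : Sg_Cert Tr (fun i j k => ((G (cl i) + G (cl j) + G (cl k) : ℤ) : ℝ)) =
      Sg_Cert Tr fun i j k => (G (cl j) : ℝ) + (G (cl k) : ℝ) + (G (cl i) : ℝ) := by
    congr 1
    funext i j k
    push_cast
    ring
  rw [eG] at e
  unfold Sg_Cert at e
  rw [e] at main
  simp only [Finset.sum_const_zero] at main
  rw [Finset.sum_add_distrib, ← Finset.mul_sum]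
  linarith

theorem lab_st (h : CertG) : LabSt := by
  intro n b s L t D W u Tr σ hb hL hD hu S hbd hT hw
  obtain ⟨hD1, hD2, hD3⟩ := hD
  have hT' : ∀ i j k, Tr i j k ↔ t (σ.symm i) (σ.symm j) (σ.symm k) = true := fun i j k => by
    rw [← hT]; simp
  have hc : (0 : ℝ) ≤ (D.cst : ℝ) * (1 / 10000) := by positivity
  have main := h b s (Fin n) u Tr (fun i => (D.al (σ.symm i) : ℝ))
    (fun i j k => D.S (σ.symm i) (σ.symm j) (σ.symm k))
    (fun i j k => D.m (σ.symm i) (σ.symm j) (σ.symm k))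
    (fun i j => if (σ.symm i = D.i0 ∧ σ.symm j = D.j0) ∨ (σ.symm i = D.j0 ∧ σ.symm j = D.i0)
      then (D.cst : ℝ) * (1 / 10000) else 0) hb hu S hbd
    (fun i => Nat.cast_nonneg _) (fun _ _ => by split_ifs; exacts [hc, le_rfl])
    (fun i j k T => hL _ (hD1 _ _ _ ((hT' i j k).1 T)))
    (fun i j k l T T' hkl => by
      have hkl' : σ.symm k ≠ σ.symm l := fun e => hkl (σ.symm.injective e)
      obtain ⟨hp, hq, hl, hw', hif⟩ := hD2 _ _ _ ((hT' i j k).1 T) _ ((hT' i j l).1 T') hkl'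
      rw [edge_Lab _ _ _ _ hp hq hl hw']
      have hx := (tri_st _ u Tr hu S i j k T).2.2.2.2.2.1
      have hy0 : 0 ≤ xx u i j / (1 + xx u i j) := by positivity
      have hy1 : xx u i j / (1 + xx u i j) ≤ 1 := by
        rw [div_le_one (by positivity)]; linarith
      obtain ⟨t0, t1⟩ := atan_Lab (pos_Lab hu S T T' hkl).le
      by_cases hij : (σ.symm i = D.i0 ∧ σ.symm j = D.j0) ∨ (σ.symm i = D.j0 ∧ σ.symm j = D.i0)
      · rw [if_pos hij] at hif ⊢
        obtain ⟨c1, c2⟩ := hif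
        have hTT : TT3 u i j k + TT3 u i j l ≤ 1 / 10000 := by
          rcases hij with ⟨e1, e2⟩ | ⟨e1, e2⟩
          · have := hw (σ.symm k) (σ.symm l) (e1 ▸ e2 ▸ (hT' i j k).1 T)
              (e1 ▸ e2 ▸ (hT' i j l).1 T') hkl'
            rw [← e1, ← e2] at this
            simpa using this
          · have := hw (σ.symm k) (σ.symm l) (e1 ▸ e2 ▸ (hT' j i k).1 (S.s12 _ _ _ T))
              (e1 ▸ e2 ▸ (hT' j i l).1 (S.s12 _ _ _ T')) hkl'
            rw [← e1, ← e2] at this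
            simp only [Equiv.apply_symm_apply] at this
            rwa [TT3_swap u i j k, TT3_swap u i j l] at this
        exact wall_Lab (by exact_mod_cast c1) (by exact_mod_cast c2) hy0 hy1 t0 t1 hTT
          (Nat.cast_nonneg _)
      · rw [if_neg hij] at hif ⊢
        rw [hif.1, hif.2]
        push_cast
        exact le_of_eq (by ring))
  have eβ := beta_Lab D.i0 D.j0 hc
  rw [← Equiv.sum_comp σ.symm] at eβ
  simp only [← Equiv.sum_comp σ.symm (fun j => if (σ.symm _ = D.i0 ∧ j = D.j0) ∨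
    (σ.symm _ = D.j0 ∧ j = D.i0) then (D.cst : ℝ) * (1 / 10000) else 0)] at eβ
  have ea : ∑ i, (D.al (σ.symm i) : ℝ) = ∑ i, (D.al i : ℝ) :=
    Equiv.sum_comp σ.symm fun i => (D.al i : ℝ)
  have em : ∀ _ : ∀ i j k, Decidable (Tr i j k), (∑ i, ∑ j, ∑ k, if Tr i j k then
      (D.m (σ.symm i) (σ.symm j) (σ.symm k) : ℝ) else 0) =
      ∑ i, ∑ j, ∑ k, if t i j k = true then (D.m i j k : ℝ) else 0 := by
    intro _
    rw [← Equiv.sum_comp σ]
    refine Finset.sum_congr rfl fun i _ => ?_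
    rw [← Equiv.sum_comp σ]
    refine Finset.sum_congr rfl fun j _ => ?_
    rw [← Equiv.sum_comp σ]
    refine Finset.sum_congr rfl fun k _ => ?_
    simp only [Equiv.symm_apply_apply]
    exact if_congr (hT i j k) rfl rfl
  rw [em, ea] at main
  have h3 : (6000000 : ℝ) * W + 600 * D.cst ≤
      1000000 * (∑ i, ∑ j, ∑ k, if t i j k = true then (D.m i j k : ℝ) else 0)
        + 37699104 * ∑ i, (D.al i : ℝ) := by exact_mod_cast hD3
  have ha : 0 ≤ ∑ i, (D.al i : ℝ) := Finset.sum_nonneg fun i _ => Nat.cast_nonneg _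
  have hpi := mul_le_mul_of_nonneg_right pi_gt_d6.le ha
  linarith

end Pool.Agent.MP_5cfbf6_gt.P8
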