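import Pool.Agent.MP_5cfbf6_gt.P8.Base
import Pool.Agent.MP_5cfbf6_gt.P7.Gen
import Pool.Agent.MP_5cfbf6_gt.P7.Simple
import Pool.Agent.MP_5cfbf6_gt.P7.Red

set_option autoImplicit false

namespace Pool.Agent.MP_5cfbf6_gt.P8

open P7 Set Filter Topology Real

lemma dt_lt_Lim {a b : E3} (ha : dt a a = 1) (hb : dt b b = 1) (h : a ≠ b) : dt a b < 1 := by
  have := dt_self_pos (sub_ne_zero.2 h)
  rw [sub_dt, dt_sub, dt_sub, ha, hb, dt_comm b a] at this
  linarith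

lemma dt_le_Lim {a b : E3} (ha : dt a a = 1) (hb : dt b b = 1) : dt a b ≤ 1 := by
  have := dt_self_nonneg (a - b)
  rw [sub_dt, dt_sub, dt_sub, ha, hb, dt_comm b a] at this
  linarith

lemma det_Lim {a b c x : E3} (ha : dt a a = 1) (hb : dt b b = 1) (hc : dt c c = 1)
    (hab : a ≠ b) (hbc : b ≠ c) (hac : a ≠ c) (h1 : dt a x = 1) (h2 : dt b x = 1)
    (h3 : dt c x = 1) : det3 a b c ≠ 0 := by
  intro h
  have e : cr (b - a) (c - a) = det3 a b c • x + (1 - dt a x) • cr b c + (1 - dt b x) • cr c a +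
      (1 - dt c x) • cr a b := by
    apply ext3 <;> simp [det3, dt] <;> ring
  rw [h, h1, h2, h3, sub_self, zero_smul, zero_smul, zero_smul, zero_smul, add_zero, add_zero,
    add_zero] at e
  have e2 := dt_cr_cr (b - a) (c - a)
  rw [e, dt_zero] at e2
  simp only [sub_dt, dt_sub, ha, hb, hc, dt_comm b a, dt_comm c a] at e2
  have e3 : dt (b - a) (b - a) • (c - a) = dt (b - a) (c - a) • (b - a) := by
    have k : dt (b - a) (b - a) • (c - a) - dt (b - a) (c - a) • (b - a) =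
        cr (cr (b - a) (c - a)) (b - a) := by
      apply ext3 <;> simp [dt] <;> ring
    rw [e] at k
    refine sub_eq_zero.1 (k.trans ?_)
    apply ext3 <;> simp
  have e4 := congrArg (dt a) e3
  simp only [dt_smul, sub_dt, dt_sub, ha, hb, dt_comm b a] at e4
  have k1 := dt_lt_Lim ha hb hab
  have k2 := dt_lt_Lim hb hc hbc
  have k3 := dt_lt_Lim ha hc hac
  generalize dt a b = p at *
  generalize dt b c = q at *
  generalize dt a c = s at *
  have k4 : q - p - (s - 1) = 2 * (1 - s) := by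
    have : (1 - p) * (q - p - (s - 1) - 2 * (1 - s)) = 0 := by linear_combination e4
    rcases mul_eq_zero.1 this with k | k <;> linarith
  have k5 : p = s := by
    rw [show q - s - (p - 1) = 2 * (1 - s) by linarith] at e2
    have : (1 - s) * (s - p) = 0 := by linear_combination (-1 / 4 : ℝ) * e2
    rcases mul_eq_zero.1 this with k | k <;> linarith
  linarith

/-- `y` is the other end of the edge `p q` at `v`, and the edge is long -/
def Edge_Lim {n : ℕ} (η : ℝ) (w : Fin n → E3) (p q : Fin n) (v y : E3) : Prop :=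
  y ∈ poly w 1 ∧ dt (w p) y = 1 ∧ dt (w q) y = 1 ∧
    (1 - dt (w p) (w q)) * η ≤ |dt (v - y) (cr (w p) (w q))|

lemma closed_poly_Lim {n : ℕ} {X : Type} [TopologicalSpace X] {w : X → Fin n → E3} {y : X → E3}
    (hw : Continuous w) (hy : Continuous y) : IsClosed {z | y z ∈ poly (w z) 1} := by
  have : {z | y z ∈ poly (w z) 1} = ⋂ m, {z | dt (w z m) (y z) ≤ 1} := by
    ext z
    simp [poly]
  rw [this]
  exact isClosed_iInter fun m => isClosed_le (by fun_prop) continuous_const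

lemma closed_edge_Lim {n : ℕ} {X : Type} [TopologicalSpace X] (η : ℝ) (p q : Fin n)
    {w : X → Fin n → E3} {v y : X → E3} (hw : Continuous w) (hv : Continuous v)
    (hy : Continuous y) : IsClosed {z | Edge_Lim η (w z) p q (v z) (y z)} := by
  have h1 : IsClosed {z | dt (w z p) (y z) = 1} := isClosed_eq (by fun_prop) continuous_const
  have h2 : IsClosed {z | dt (w z q) (y z) = 1} := isClosed_eq (by fun_prop) continuous_const
  have h3 : IsClosed {z | (1 - dt (w z p) (w z q)) * η ≤ |dt (v z - y z) (cr (w z p) (w z q))|} :=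
    isClosed_le (by fun_prop) (by fun_prop)
  exact (closed_poly_Lim hw hy).inter (h1.inter (h2.inter h3))

lemma edge_Lim {n : ℕ} {η : ℝ} {w : Fin n → E3} {Tr : Fin n → Fin n → Fin n → Prop}
    (hw : Unit1 w) (S : Sys w 1 Tr) (hL : Long η w Tr) {p q c : Fin n} (T : Tr p q c) :
    ∃ y, Edge_Lim η w p q (vx w 1 p q c) y := by
  have A : Adj Tr p q := ⟨c, T⟩
  have h0 : 0 ≤ 1 - dt (w p) (w q) := sub_nonneg.2 (dt_le_Lim (hw p) (hw q))
  have h1 := mul_le_mul_of_nonneg_left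
    (hL p q _ _ (S.kp_spec A).1 (S.km_spec A).1 (S.kp_ne_km A)) h0
  have h2 : dt (ep w Tr 1 p q - em w Tr 1 p q) (cr (w p) (w q)) =
      (1 - dt (w p) (w q)) * (TT3 w p q (kp w Tr p q) + TT3 w p q (km w Tr p q)) := by
    rw [sub_dt, T_kp S hw A, T_km S hw A]
    ring
  rw [← h2] at h1
  rcases (tr_iff S A c).1 T with rfl | rfl
  · have T' := (S.km_spec A).1
    exact ⟨em w Tr 1 p q, S.vx_mem T', S.vx1 T' 1, S.vx2 T' 1, h1.trans (le_abs_self _)⟩
  · have T' := (S.kp_spec A).1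
    refine ⟨ep w Tr 1 p q, S.vx_mem T', S.vx1 T' 1, S.vx2 T' 1, h1.trans ?_⟩
    rw [← abs_neg, ← neg_dt, neg_sub]
    exact le_abs_self _

lemma vertex_Lim {n : ℕ} {w : Fin n → E3} (hb : Bornology.IsBounded (poly w 1)) (g : E3) :
    ∃ a b c, (det3 (w a) (w b) (w c) ≠ 0 ∧ vx w 1 a b c ∈ poly w 1) ∧
      ∀ z ∈ poly w 1, dt g z ≤ dt g (vx w 1 a b c) := by
  have hK : IsCompact (poly w 1) := Metric.isCompact_of_isClosed_isBounded (isClosed_poly w 1) hb
  obtain ⟨x, hx, hx'⟩ := hK.exists_isMaxOn ⟨0, fun l => by simp⟩ (dtL g).continuous.continuousOn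
  have hE := ContinuousLinearMap.toExposed.isExposed (l := dtL g) (A := poly w 1)
  obtain ⟨y, hy⟩ := (hE.isCompact hK).extremePoints_nonempty ⟨x, hx, hx'⟩
  obtain ⟨a, b, c, ha, hb, hc, hd⟩ := extreme_triple (hE.isExtreme.extremePoints_subset_extremePoints hy)
  have e : y = vx w 1 a b c := by
    rw [vx, ← ha, ← hb, ← hc]
    exact eq_sol hd y
  refine ⟨a, b, c, ⟨hd, e ▸ hy.1.1⟩, fun z hz => ?_⟩
  simpa only [dtL_apply, e] using hy.1.2 z hz

/-- the coefficient of `u a` is not negative -/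
lemma coef_Lim {n : ℕ} {η : ℝ} (hη : 0 < η) {u : Fin n → E3} (hu : Unit1 u) {a b c m : Fin n}
    (hbc : u b ≠ u c) {x y : E3} (hd : det3 (u a) (u b) (u c) ≠ 0) (ha : dt (u a) x = 1)
    (hb : dt (u b) x = 1) (hc : dt (u c) x = 1) (hy : Edge_Lim η u b c x y) {al be ga : ℝ}
    (hs : al + be + ga = 1) (e : u m = al • u a + be • u b + ga • u c) : 0 ≤ al := by
  obtain ⟨h1, h2, h3, h4⟩ := hy
  have h5 : dt (u a) y < 1 := by
    refine lt_of_le_of_ne (h1 a) fun k => ?_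
    rw [eq_of_dt3 hd (ha.trans k.symm) (hb.trans h2.symm) (hc.trans h3.symm), sub_self, zero_dt,
      abs_zero] at h4
    nlinarith [dt_lt_Lim (hu b) (hu c) hbc]
  have h6 : dt (u m) y ≤ 1 := h1 m
  rw [e, add_dt, add_dt, smul_dt, smul_dt, smul_dt, h2, h3] at h6
  by_contra k
  nlinarith [not_le.1 k]

lemma final_Lim {n : ℕ} {η : ℝ} (hη : 0 < η) {u : Fin n → E3} (hu : Unit1 u)
    (hi : Function.Injective u) {a b c m : Fin n} (hab : a ≠ b) (hbc : b ≠ c) (hac : a ≠ c)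
    {x ya yb yc : E3} (ha : dt (u a) x = 1) (hb : dt (u b) x = 1) (hc : dt (u c) x = 1)
    (hm : dt (u m) x = 1) (h1 : Edge_Lim η u b c x ya) (h2 : Edge_Lim η u c a x yb)
    (h3 : Edge_Lim η u a b x yc) : m = a ∨ m = b ∨ m = c := by
  by_contra hn
  push Not at hn
  have hd := det_Lim (hu a) (hu b) (hu c) (hi.ne hab) (hi.ne hbc) (hi.ne hac) ha hb hc
  obtain ⟨al, be, ga, e⟩ : ∃ al be ga : ℝ, u m = al • u a + be • u b + ga • u c :=
    ⟨_, _, _, decomp hd (u m)⟩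
  have hs : al + be + ga = 1 := by
    rw [e, add_dt, add_dt, smul_dt, smul_dt, smul_dt, ha, hb, hc] at hm
    linarith
  have hd2 : det3 (u b) (u c) (u a) ≠ 0 := by rwa [det3_rot]
  have hd3 : det3 (u c) (u a) (u b) ≠ 0 := by rwa [det3_rot]
  have k1 := coef_Lim hη hu (hi.ne hbc) hd ha hb hc h1 hs e
  have k2 := coef_Lim hη hu (hi.ne hac.symm) hd2 hb hc ha h2 (al := be) (be := ga) (ga := al)
    (by linarith) (e.trans (by abel))
  have k3 := coef_Lim hη hu (hi.ne hab) hd3 hc ha hb h3 (al := ga) (be := al) (ga := be)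
    (by linarith) (e.trans (by abel))
  have k4 : dt (u m) (u m) = al * dt (u m) (u a) + be * dt (u m) (u b) + ga * dt (u m) (u c) := by
    conv_lhs => enter [2]; rw [e]
    rw [dt_add, dt_add, dt_smul, dt_smul, dt_smul]
  rw [hu m] at k4
  have k5 := dt_lt_Lim (hu m) (hu a) (hi.ne hn.1)
  have k6 := dt_lt_Lim (hu m) (hu b) (hi.ne hn.2.1)
  have k7 := dt_lt_Lim (hu m) (hu c) (hi.ne hn.2.2)
  have k8 : al * (1 - dt (u m) (u a)) + be * (1 - dt (u m) (u b)) + ga * (1 - dt (u m) (u c)) = 0 := by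
    linarith
  have p1 := mul_nonneg k1 (sub_pos.2 k5).le
  have p2 := mul_nonneg k2 (sub_pos.2 k6).le
  have p3 := mul_nonneg k3 (sub_pos.2 k7).le
  have z1 := (mul_eq_zero.1 (by linarith : al * (1 - dt (u m) (u a)) = 0)).resolve_right
    (sub_pos.2 k5).ne'
  have z2 := (mul_eq_zero.1 (by linarith : be * (1 - dt (u m) (u b)) = 0)).resolve_right
    (sub_pos.2 k6).ne'
  have z3 := (mul_eq_zero.1 (by linarith : ga * (1 - dt (u m) (u c)) = 0)).resolve_right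
    (sub_pos.2 k7).ne'
  linarith

/-- the closed set of configurations -/
def Cfg_Lim {n : ℕ} (η r : ℝ) (u : Fin n → E3) (x : E3) (i j k l : Fin n)
    (t : Fin n × Fin n × Fin n) : Set (ℝ × (Fin n → E3) × E3 × E3 × E3 × E3) :=
  (Icc 0 1 ×ˢ Metric.closedBall u 1 ×ˢ Metric.closedBall 0 r ×ˢ Metric.closedBall 0 r ×ˢ
    Metric.closedBall 0 r ×ˢ Metric.closedBall 0 r) ∩
  {z | ‖z.2.1 - u‖ ≤ z.1 ∧ z.2.2.1 ∈ poly z.2.1 1 ∧ dt (z.2.1 t.1) z.2.2.1 = 1 ∧
    dt (z.2.1 t.2.1) z.2.2.1 = 1 ∧ dt (z.2.1 t.2.2) z.2.2.1 = 1 ∧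
    dt (z.2.1 i + z.2.1 j + z.2.1 k + z.2.1 l) x ≤
      (1 + z.1 * ‖x‖) * dt (z.2.1 i + z.2.1 j + z.2.1 k + z.2.1 l) z.2.2.1 ∧
    Edge_Lim η z.2.1 t.2.1 t.2.2 z.2.2.1 z.2.2.2.1 ∧
    Edge_Lim η z.2.1 t.2.2 t.1 z.2.2.1 z.2.2.2.2.1 ∧
    Edge_Lim η z.2.1 t.1 t.2.1 z.2.2.1 z.2.2.2.2.2}

lemma compact_Lim {n : ℕ} (η r : ℝ) (u : Fin n → E3) (x : E3) (i j k l : Fin n)
    (t : Fin n × Fin n × Fin n) : IsCompact (Cfg_Lim η r u x i j k l t) := by
  have hB := isCompact_closedBall (0 : E3) r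
  refine (isCompact_Icc.prod ((isCompact_closedBall u 1).prod
    (hB.prod (hB.prod (hB.prod hB))))).inter_right ?_
  simp only [ofPred_and]
  refine (isClosed_le (by fun_prop) (by fun_prop)).inter
    ((closed_poly_Lim (by fun_prop) (by fun_prop)).inter
    ((isClosed_eq (by fun_prop) (by fun_prop)).inter
    ((isClosed_eq (by fun_prop) (by fun_prop)).inter
    ((isClosed_eq (by fun_prop) (by fun_prop)).inter
    ((isClosed_le (by fun_prop) (by fun_prop)).inter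
    ((closed_edge_Lim _ _ _ (by fun_prop) (by fun_prop) (by fun_prop)).inter
    ((closed_edge_Lim _ _ _ (by fun_prop) (by fun_prop) (by fun_prop)).inter
    (closed_edge_Lim _ _ _ (by fun_prop) (by fun_prop) (by fun_prop)))))))))

theorem lim_st : LimSt := by
  intro n u η δ hη hδ hu hinj hb H x hx i j k l hi hj hk hl
  obtain ⟨r, hr0, hr⟩ := hb.exists_pos_norm_le
  have hcl : IsClosed (⋃ t : {t : Fin n × Fin n × Fin n // t.1 ≠ t.2.1 ∧ t.2.1 ≠ t.2.2 ∧
      t.1 ≠ t.2.2}, Prod.fst '' Cfg_Lim η (2 * r) u x i j k l t.1) :=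
    isClosed_iUnion_of_finite fun t => ((compact_Lim _ _ _ _ _ _ _ _ _).image continuous_fst).isClosed
  have hmem : ∀ d, 0 < d → d ≤ δ → d ≤ 1 → d * r ≤ 1 / 2 →
      d ∈ ⋃ t : {t : Fin n × Fin n × Fin n // t.1 ≠ t.2.1 ∧ t.2.1 ≠ t.2.2 ∧ t.1 ≠ t.2.2},
        Prod.fst '' Cfg_Lim η (2 * r) u x i j k l t.1 := by
    intro d hd h1 h2 h3
    obtain ⟨w, hw1, hw2, hw3, hw4⟩ := gen_st (Fin n) u hu d hd
    have hb1 : ∀ y ∈ poly w 1, ‖y‖ ≤ 2 * r := fun y hy => bd_Red hd.le h3 hw2 hr hy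
    have hbw : Bornology.IsBounded (poly w 1) := isBounded_iff_forall_norm_le.2 ⟨_, hb1⟩
    have S := simple_st (Fin n) w hw1 hw3 hbw fun y _ => hw4 y (mem_univ y)
    have hL := H w _ hw1 (fun m => (hw2 m).trans h1) S
    obtain ⟨a, b, c, T, hmax⟩ := vertex_Lim hbw (w i + w j + w k + w l)
    obtain ⟨ya, ha⟩ := edge_Lim hw1 S hL (S.rot T)
    obtain ⟨yb, hb⟩ := edge_Lim hw1 S hL (S.rot (S.rot T))
    obtain ⟨yc, hc⟩ := edge_Lim hw1 S hL T
    have r1 : ∀ a b c, vx w 1 b c a = vx w 1 a b c := fun a b c => by rw [vx_swap23, vx_swap12]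
    rw [r1] at ha
    rw [r1, r1] at hb
    have hn : ‖w - u‖ ≤ d := (pi_norm_le_iff_of_nonneg hd.le).2 hw2
    have hp : 0 < 1 + d * ‖x‖ := by positivity
    have hx' : (1 + d * ‖x‖)⁻¹ • x ∈ poly w 1 := fun m => by
      rw [dt_smul, inv_mul_le_iff₀ hp, Pi.one_apply, mul_one]
      exact near_Red (fun m => (norm_sub_rev _ _).trans_le (hw2 m)) hx m
    have h4 := hmax _ hx'
    rw [dt_smul, inv_mul_le_iff₀ hp] at h4
    refine mem_iUnion.2 ⟨⟨(a, b, c), S.ne12 T, S.ne23 T, S.ne13 T⟩,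
      (d, w, vx w 1 a b c, ya, yb, yc), ⟨⟨⟨hd.le, h2⟩, ?_, ?_, ?_, ?_, ?_⟩, hn, T.2, S.vx1 T 1,
        S.vx2 T 1, S.vx3 T 1, h4, ha, hb, hc⟩, rfl⟩
    · exact mem_closedBall_iff_norm.2 (hn.trans h2)
    · exact mem_closedBall_zero_iff.2 (hb1 _ T.2)
    · exact mem_closedBall_zero_iff.2 (hb1 _ ha.1)
    · exact mem_closedBall_zero_iff.2 (hb1 _ hb.1)
    · exact mem_closedBall_zero_iff.2 (hb1 _ hc.1)
  have h0 := hcl.mem_of_tendsto (f := id) (b := 𝓝[>] 0) (x := 0)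
    (tendsto_id.mono_left nhdsWithin_le_nhds) (by
      have e1 : ∀ᶠ d : ℝ in 𝓝 0, d * r < 1 / 2 :=
        (by fun_prop : Continuous fun d : ℝ => d * r).continuousAt.eventually_lt continuousAt_const
          (by simp)
      filter_upwards [self_mem_nhdsWithin, nhdsWithin_le_nhds (gt_mem_nhds hδ),
        nhdsWithin_le_nhds (gt_mem_nhds one_pos), nhdsWithin_le_nhds e1] with d k1 k2 k3 k4
      exact hmem d k1 k2.le k3.le k4.le)
  obtain ⟨⟨⟨a, b, c⟩, hab, hbc, hac⟩, ⟨d, w, v, ya, yb, yc⟩, ⟨-, h1, h2, h3, h4, h5, h6, h7, h8, h9⟩,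
    rfl⟩ := mem_iUnion.1 h0
  obtain rfl : w = u := sub_eq_zero.1 (norm_le_zero_iff.1 h1)
  simp only [add_dt, hi, hj, hk, hl, zero_mul, add_zero, one_mul] at h6
  have q1 : dt (w i) v ≤ 1 := h2 i
  have q2 : dt (w j) v ≤ 1 := h2 j
  have q3 : dt (w k) v ≤ 1 := h2 k
  have q4 : dt (w l) v ≤ 1 := h2 l
  have f := fun m hm => final_Lim hη hu hinj (m := m) hab hbc hac h3 h4 h5 hm h7 h8 h9
  have fi := f i (by linarith)
  have fj := f j (by linarith)
  have fk := f k (by linarith)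
  have fl := f l (by linarith)
  rcases fi with rfl | rfl | rfl <;> rcases fj with e | e | e <;> rcases fk with e' | e' | e' <;>
    rcases fl with e'' | e'' | e'' <;> simp [e, e', e'']

end Pool.Agent.MP_5cfbf6_gt.P8
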