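import Pool.Agent.MP_5cfbf6_gt.P8.Base
import Pool.Agent.MP_5cfbf6_gt.P7.Main
import Pool.Agent.MP_5cfbf6_gt.P7.Simple
import Pool.Agent.MP_5cfbf6_gt.P7.Wulff
import Pool.Agent.MP_5cfbf6_gt.P7.Slab
import Pool.Agent.MP_5cfbf6_gt.P7.Rep

set_option autoImplicit false

namespace Pool.Agent.MP_5cfbf6_gt.P8

open P7 Set Filter Topology Real

lemma drop_Main {n : ℕ} {u : Fin (n + 1) → E3} {i j : Fin (n + 1)} (hij : i ≠ j)
    (e : u i = u j) : poly (fun l => u (j.succAbove l)) 1 = poly u 1 := by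
  ext x
  refine ⟨fun hx l => ?_, fun hx l => hx _⟩
  by_cases hl : l = j
  · obtain ⟨m, rfl⟩ := Fin.exists_succAbove_eq hij
    rw [hl, ← e]
    exact hx m
  · obtain ⟨m, rfl⟩ := Fin.exists_succAbove_eq hl
    exact hx m

theorem mainG_st (h1 : ExSt) (h2 : ContSt) (h3 : RedG) (h4 : LimSt) : MainSt := by
  rintro n V W η hη hW ⟨u₀, a1, a2, a3⟩ hn hL
  obtain ⟨u, hu, hb, hm⟩ := h1 (n + 1) u₀ a1 a2 (a3.trans_le hW)
  have hv : vol u 1 < W := (hm u₀ a1 a2).trans_lt a3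
  have hi : Function.Injective u := fun i j e => by
    by_contra hij
    have e1 := drop_Main hij e
    have := h3 n W hn (Fin n) (fun l => u (j.succAbove l)) (by simp) (fun l => hu _) (e1 ▸ hb)
    rw [vol, e1] at this
    exact absurd hv (not_lt.2 this)
  obtain ⟨δ, hδ, hc⟩ := h2 (n + 1) u W hb hv
  have S := simple_st _ u hu hi hb
    (h4 (n + 1) u η δ hη hδ hu hi hb fun w Tr hw hd S => (hL w Tr hw S (hc w hd)).1)
  have hP := S.isPolytope
  have hc : (twoFaces (poly u 1)).ncard = n + 1 := by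
    rw [S.twoFaces_eq, ncard_range_of_injective S.face_inj]
    simp
  have p0 := S.var1_sum_pos
  rw [S.var1_sum_ar hu] at p0
  have key : ∀ R : Set E3, IsPolytope R → (twoFaces R).ncard ≤ n + 1 →
      isoQuot R ≤ isoQuot (poly u 1) := by
    intro R hR h7
    obtain ⟨ι, _, _, w, h, hw, eR, ec, es⟩ := rep_st R hR
    obtain ⟨b1, b2⟩ := wulff_st slab_st ι w h hw (eR ▸ hR.isCompact.isBounded) (eR ▸ hR.2)
    have b3 := h3 (n + 1) (vol u 1) (fun w' _ hw' S' => hm w' hw' S'.bdd) ι w (ec.trans_le h7)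
      hw b1
    have b4 := alg_Main (by linarith : 0 < vol u 1) b3
      (Finset.sum_nonneg fun i _ => ENNReal.toReal_nonneg) b2
    rw [isoQuot, isoQuot, es, S.surfaceArea_eq, S.var1_sum_ar hu, eR]
    exact b4
  exact ⟨poly u 1, (hL u _ hu S hv).2,
    ⟨hP, fun Q hQ hT => key Q hQ ((card_st _ _ hP hQ hT).symm.trans hc).le⟩, key⟩

end Pool.Agent.MP_5cfbf6_gt.P8
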