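import Pool.Agent.MP_5cfbf6_gt.P8.Base
import Pool.Agent.MP_5cfbf6_gt.P7.Red
import Pool.Agent.MP_5cfbf6_gt.P7.Gen
import Pool.Agent.MP_5cfbf6_gt.P7.Simple

set_option autoImplicit false

namespace Pool.Agent.MP_5cfbf6_gt.P8

open P7 Set Filter Topology Real MeasureTheory

lemma key_Red {ι : Type} [Fintype ι] [DecidableEq ι] {u w : ι → E3} {δ r : ℝ}
    (hb : Bornology.IsBounded (poly u 1))
    (hr0 : 0 < r) (hr : ∀ x ∈ poly u 1, ‖x‖ ≤ r) (hδ : 0 ≤ δ) (hδr : δ * r ≤ 1 / 2)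
    (hw : ∀ i, ‖w i - u i‖ ≤ δ) : vol w 1 ≤ (1 + δ * (2 * r)) ^ 3 * vol u 1 := by
  have hb1 : ∀ x ∈ poly w 1, ‖x‖ ≤ 2 * r := fun x hx => bd_Red hδ hδr hw hr hx
  have ht : 0 < 1 + δ * (2 * r) := by positivity
  rw [← vol_affine u 1 ht 0]
  refine ENNReal.toReal_mono ?_ (measure_mono fun x hx i => ?_)
  · rw [aff_poly u 1 ht]
    exact ((hb.smul₀ _).vadd _).measure_lt_top.ne
  · have h3 := near_Red hw hx i
    have h4 := mul_le_mul_of_nonneg_left (hb1 x hx) hδ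
    have h5 : dt (u i) 0 = 0 := by simp [dt]
    simp only [Pi.one_apply, h5]
    linarith

theorem cont_st : ContSt := by
  intro n u W hb hW
  obtain ⟨r, hr0, hr⟩ := hb.exists_pos_norm_le
  have hc : Continuous fun δ : ℝ => (1 + δ * (2 * r)) ^ 3 * vol u 1 := by fun_prop
  have ht : Tendsto (fun δ : ℝ => (1 + δ * (2 * r)) ^ 3 * vol u 1) (𝓝[>] 0) (𝓝 (vol u 1)) := by
    have := (hc.tendsto 0).mono_left (nhdsWithin_le_nhds (s := Ioi 0))
    simpa using this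
  obtain ⟨δ, h1, h2⟩ := ((ht.eventually (gt_mem_nhds hW)).and
    (Ioo_mem_nhdsGT (show (0 : ℝ) < 1 / 2 / r by positivity))).exists
  exact ⟨δ, h2.1, fun w hw =>
    (key_Red hb hr0 hr h2.1.le ((le_div_iff₀ hr0).1 h2.2.le) hw).trans_lt h1⟩

theorem redG_st : RedG := by
  intro n V hV ι _ _ u hc hu hb
  have hne : Nonempty ι := by
    by_contra hn
    rw [not_nonempty_iff] at hn
    have : poly u 1 = univ := eq_univ_of_forall fun x i => hn.elim i
    rw [this] at hb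
    exact NormedSpace.unbounded_univ ℝ E3 hb
  obtain ⟨e⟩ : Nonempty (ι ↪ Fin n) :=
    Function.Embedding.nonempty_of_card_le (by rwa [Fintype.card_fin])
  have hg : Function.Surjective (Function.invFun e) := Function.invFun_surjective e.injective
  have hp : poly (fun i => u (Function.invFun e i)) 1 = poly u 1 := by
    ext x
    refine ⟨fun hx i => ?_, fun hx j => hx _⟩
    obtain ⟨j, rfl⟩ := hg i
    exact hx j
  have hv : vol (fun i => u (Function.invFun e i)) 1 = vol u 1 := by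
    unfold vol
    rw [hp]
  obtain ⟨r, hr0, hr⟩ := hb.exists_pos_norm_le
  have key : ∀ δ : ℝ, 0 < δ → δ * r ≤ 1 / 2 → V ≤ (1 + δ * (2 * r)) ^ 3 * vol u 1 := by
    intro δ hδ hδr
    obtain ⟨w, hw1, hw2, hw3, hw4⟩ := gen_st (Fin n) (fun i => u (Function.invFun e i))
      (fun i => hu _) δ hδ
    have hb1 : ∀ x ∈ poly w 1, ‖x‖ ≤ 2 * r := fun x hx =>
      bd_Red hδ.le hδr hw2 (by rw [hp]; exact hr) hx
    have hbw : Bornology.IsBounded (poly w 1) := isBounded_iff_forall_norm_le.2 ⟨_, hb1⟩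
    refine (hV w _ hw1 (simple_st (Fin n) w hw1 hw3 hbw fun x _ => hw4 x (mem_univ x))).trans ?_
    rw [← hv]
    exact key_Red (by rw [hp]; exact hb) hr0 (by rw [hp]; exact hr) hδ.le hδr hw2
  have hc : Continuous fun δ : ℝ => (1 + δ * (2 * r)) ^ 3 * vol u 1 := by fun_prop
  have ht : Tendsto (fun δ : ℝ => (1 + δ * (2 * r)) ^ 3 * vol u 1) (𝓝[>] 0) (𝓝 (vol u 1)) := by
    have := (hc.tendsto 0).mono_left (nhdsWithin_le_nhds (s := Ioi 0))
    simpa using this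
  refine ge_of_tendsto ht ?_
  filter_upwards [Ioo_mem_nhdsGT (show (0 : ℝ) < 1 / 2 / r by positivity)] with δ hδ
  exact key δ hδ.1 ((le_div_iff₀ hr0).1 hδ.2.le)

end Pool.Agent.MP_5cfbf6_gt.P8
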