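import Pool.Agent.MP_5cfbf6_gt.P8.Base

set_option autoImplicit false

namespace Pool.Agent.MP_5cfbf6_gt.P8

open P7 Set Filter Topology Real

section

variable {ι : Type} [Fintype ι] [DecidableEq ι] {u : ι → E3} {h : ι → ℝ}
  {Tr : ι → ι → ι → Prop}

theorem perm_Type (S : Sys u h Tr) {a b c i j k : ι} (T : Tr a b c) (ij : i ≠ j) (jk : j ≠ k)
    (ik : i ≠ k) (hi : i = a ∨ i = b ∨ i = c) (hj : j = a ∨ j = b ∨ j = c)
    (hk : k = a ∨ k = b ∨ k = c) : Tr i j k := by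
  have T1 := S.s12 _ _ _ T
  have T2 := S.s23 _ _ _ T
  have T3 := S.s23 _ _ _ T1
  have T4 := S.s12 _ _ _ T2
  have T5 := S.s12 _ _ _ T3
  rcases hi with rfl | rfl | rfl <;> rcases hj with rfl | rfl | rfl <;>
    rcases hk with rfl | rfl | rfl <;> first | assumption | contradiction

theorem meet_Type (S : Sys u h Tr) {i j k : ι} (ij : i ≠ j) (jk : j ≠ k) (ik : i ≠ k) :
    (fc u h {i} ∩ fc u h {j} ∩ fc u h {k}).Nonempty ↔ Tr i j k := by
  constructor
  · rintro ⟨x, ⟨h1, h2⟩, h3⟩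
    obtain ⟨a, b, c, T, H⟩ := S.cover x h1.1
    exact perm_Type S T ij jk ik (H i (h1.2 i rfl)) (H j (h2.2 j rfl)) (H k (h3.2 k rfl))
  · intro T
    refine ⟨vx u h i j k, ⟨⟨S.vx_mem T, ?_⟩, S.vx_mem T, ?_⟩, S.vx_mem T, ?_⟩
    · rintro l rfl; exact S.vx1 T h
    · rintro l rfl; exact S.vx2 T h
    · rintro l rfl; exact S.vx3 T h

theorem simple_Type (S : Sys u h Tr) : IsSimple (poly u h) := by
  intro v hv
  obtain ⟨i, j, k, T, rfl⟩ := S.extreme_sub hv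
  refine Set.ncard_eq_three.2 ⟨fc u h {i}, fc u h {j}, fc u h {k},
    fun e => S.ne12 T (S.face_inj e), fun e => S.ne13 T (S.face_inj e),
    fun e => S.ne23 T (S.face_inj e), ?_⟩
  rw [S.twoFaces_eq]
  ext F
  constructor
  · rintro ⟨⟨l, rfl⟩, hl⟩
    rcases S.vx_act T (hl.2 l rfl) with rfl | rfl | rfl
    · exact Or.inl rfl
    · exact Or.inr (Or.inl rfl)
    · exact Or.inr (Or.inr rfl)
  · rintro (rfl | rfl | rfl)
    · exact ⟨⟨i, rfl⟩, S.vx_mem T, by rintro l rfl; exact S.vx1 T h⟩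
    · exact ⟨⟨j, rfl⟩, S.vx_mem T, by rintro l rfl; exact S.vx2 T h⟩
    · exact ⟨⟨k, rfl⟩, S.vx_mem T, by rintro l rfl; exact S.vx3 T h⟩

end

theorem type_st : TypeSt := by
  intro n V u h Tr σ S H
  refine ⟨S.isPolytope, simple_Type S, fun i => fc u h {σ i}, S.face_inj.comp σ.injective, ?_,
    fun i j k ij jk ik => ?_⟩
  · rw [S.twoFaces_eq]
    exact σ.surjective.range_comp fun i => fc u h {i}
  · rw [← H i j k ij jk ik]
    exact meet_Type S (σ.injective.ne ij) (σ.injective.ne jk) (σ.injective.ne ik)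

end Pool.Agent.MP_5cfbf6_gt.P8
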