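import Pool.Agent.MP_5cfbf6_gt.P8.Ana
import Pool.Agent.MP_5cfbf6_gt.P8.CertG
import Pool.Agent.MP_5cfbf6_gt.P8.Lab
import Pool.Agent.MP_5cfbf6_gt.P8.Ex
import Pool.Agent.MP_5cfbf6_gt.P8.Red
import Pool.Agent.MP_5cfbf6_gt.P8.Lim
import Pool.Agent.MP_5cfbf6_gt.P8.Type
import Pool.Agent.MP_5cfbf6_gt.P8.Main
import Pool.Agent.MP_5cfbf6_gt.P7.Euler

set_option autoImplicit false

namespace Pool.Agent.MP_5cfbf6_gt.P8

open P7 Set Filter Topology Real

/-- the map whose values are the digits of `c` in base 16 -/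
def pf (n c : ℕ) (i : Fin (n + 1)) : Fin (n + 1) := Fin.ofNat (n + 1) ((c >>> (4 * i.1)) % 16)

/-- a certificate read from tables: `cs` and `cm` hold the positions in the lists -/
def mkLab (n : ℕ) (al : List ℕ) (sd : List Sd) (ms : List ℤ) (cs cm : ℕ) (i0 j0 : Fin n)
    (cst : ℕ) : Lab n :=
  ⟨fun i => al.getD i.1 0,
    fun i j k => sd.getD ((cs >>> (6 * (n * (n * i.1 + j.1) + k.1))) % 64) ⟨0, 0, 0, 0⟩,
    fun i j k => ms.getD ((cm >>> (5 * (n * (n * i.1 + j.1) + k.1))) % 32) 0, i0, j0, cst⟩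

/-- every edge is the image of the short edge of a certificate under an automorphism -/
def Cov {n : ℕ} (t : Fin (n + 1) → Fin (n + 1) → Fin (n + 1) → Bool) (Ds : List (Lab (n + 1)))
    (G : List ℕ) : Prop :=
  (∀ g ∈ G, (∀ i j, pf n g i = pf n g j → i = j) ∧
    ∀ i j k, t (pf n g i) (pf n g j) (pf n g k) = t i j k) ∧
  ∀ i j k, t i j k = true → ∃ D ∈ Ds, ∃ g ∈ G,
    (pf n g D.i0 = i ∧ pf n g D.j0 = j) ∨ (pf n g D.i0 = j ∧ pf n g D.j0 = i)

instance {n : ℕ} (t : Fin (n + 1) → Fin (n + 1) → Fin (n + 1) → Bool) (Ds : List (Lab (n + 1)))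
    (G : List ℕ) : Decidable (Cov t Ds G) := by
  unfold Cov; infer_instance

lemma ball_Key {ι : Type} [Fintype ι] [DecidableEq ι] {u : ι → E3} {Tr : ι → ι → ι → Prop}
    (hu : Unit1 u) (S : Sys u 1 Tr) (hv : 30000 * vol u 1 < 219000) :
    ∀ x ∈ poly u 1, dt x x ≤ 25 := fun x hx => by
  by_contra h
  have := apr_st ι u hu S.bdd x hx (not_le.1 h).le
  linarith [pi_gt_d2]

lemma long_Key {n : ℕ} {b s : ℝ} {L : List Chk}
    {t : Fin (n + 1) → Fin (n + 1) → Fin (n + 1) → Bool} {W : ℤ} (hb : 0 ≤ b)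
    (hL : ∀ C ∈ L, C.Valid b s) {Ds : List (Lab (n + 1))} {G : List ℕ}
    (hD : ∀ D ∈ Ds, D.Ok t L W) (hc : Cov t Ds G) {u : Fin (n + 1) → E3}
    {Tr : Fin (n + 1) → Fin (n + 1) → Fin (n + 1) → Prop} {σ : Equiv.Perm (Fin (n + 1))}
    (hu : Unit1 u) (S : Sys u 1 Tr) (h25 : ∀ x ∈ poly u 1, dt x x ≤ 25)
    (hσ : ∀ i j k, Tr (σ i) (σ j) (σ k) ↔ t i j k = true) (hv : 30000 * vol u 1 < W) :
    Long (1 / 10000) u Tr := by
  have K : ∀ i j k l, Tr i j k → Tr i j l → k ≠ l → (∃ D ∈ Ds, ∃ g ∈ G,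
      pf n g D.i0 = σ.symm i ∧ pf n g D.j0 = σ.symm j) →
      1 / 10000 ≤ TT3 u i j k + TT3 u i j l := by
    rintro i j k l T T' hkl ⟨D, hDs, g, hg, e1, e2⟩
    by_contra hlt
    obtain ⟨g1, g2⟩ := hc.1 g hg
    have hbij := Finite.injective_iff_bijective.1 fun i j h => g1 i j h
    have h3 : ∀ i j k, Tr (((Equiv.ofBijective _ hbij).trans σ) i)
        (((Equiv.ofBijective _ hbij).trans σ) j) (((Equiv.ofBijective _ hbij).trans σ) k) ↔
        t i j k = true := fun i j k => by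
      rw [← g2]
      exact hσ _ _ _
    have e3 : ((Equiv.ofBijective _ hbij).trans σ) D.i0 = i := by
      simp [Equiv.ofBijective_apply, e1]
    have e4 : ((Equiv.ofBijective _ hbij).trans σ) D.j0 = j := by
      simp [Equiv.ofBijective_apply, e2]
    refine absurd (lab_st certG_st _ b s L t D W u Tr _ hb hL (hD D hDs) hu S h25 h3 ?_)
      (not_le.2 hv)
    intro k' l' p q hne
    rw [← h3, e3, e4] at p q
    rw [e3, e4]
    have hne' := fun h => hne (((Equiv.ofBijective _ hbij).trans σ).injective h)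
    generalize ((Equiv.ofBijective _ hbij).trans σ) k' = a at p hne' ⊢
    generalize ((Equiv.ofBijective _ hbij).trans σ) l' = c at q hne' ⊢
    obtain ⟨k2, -, -, h2⟩ := two_tr S T
    have hl := (h2 l T').resolve_left hkl.symm
    subst hl
    rcases h2 a p with rfl | rfl <;> rcases h2 c q with rfl | rfl
    · exact absurd rfl hne'
    · linarith
    · linarith
    · exact absurd rfl hne'
  intro i j k l T T' hkl
  obtain ⟨D, hDs, g, hg, h | h⟩ := hc.2 (σ.symm i) (σ.symm j) (σ.symm k) ((hσ _ _ _).1 (by simpa))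
  · exact K i j k l T T' hkl ⟨D, hDs, g, hg, h⟩
  · rw [← TT3_swap u i j k, ← TT3_swap u i j l]
    exact K j i k l (S.s12 _ _ _ T) (S.s12 _ _ _ T') hkl ⟨D, hDs, g, hg, h⟩

/-- a type that is excluded by a certificate without short edge -/
lemma none_Key {n : ℕ} {b s : ℝ} {L : List Chk} {t : Fin n → Fin n → Fin n → Bool} {W : ℤ}
    (hb : 0 ≤ b) (hL : ∀ C ∈ L, C.Valid b s) {D : Lab n} (hD : D.Ok t L W) (h0 : D.i0 = D.j0)
    {u : Fin n → E3} {Tr : Fin n → Fin n → Fin n → Prop} {σ : Equiv.Perm (Fin n)}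
    (hu : Unit1 u) (S : Sys u 1 Tr) (h25 : ∀ x ∈ poly u 1, dt x x ≤ 25)
    (hσ : ∀ i j k, Tr (σ i) (σ j) (σ k) ↔ t i j k = true) : (W : ℝ) ≤ 30000 * vol u 1 :=
  lab_st certG_st _ b s L t D W u Tr σ hb hL hD hu S h25 hσ fun _ _ p _ _ =>
    absurd (congrArg σ h0) (S.ne12 ((hσ _ _ _).2 p))

lemma deg_Key {n : ℕ} {b s : ℝ} {A : Bool → ℕ} {G : Bool → ℤ} (F σ κ : ℝ) (hb : 0 ≤ b)
    (hV : ∀ p q r, (addC A G p q r).Valid b s) (h0 : F ≤ 2 * 3.141592 * A false + 4 * G false)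
    (h1 : σ + κ ≤ -G false) (h2 : F - σ ≤ 2 * 3.141592 * A true + 5 * G true)
    (h3 : κ - σ ≤ G true) {u : Fin n → E3} {Tr : Fin n → Fin n → Fin n → Prop} (hu : Unit1 u)
    (S : Sys u 1 Tr) (h25 : ∀ x ∈ poly u 1, dt x x ≤ 25) :
    n * (F + 4 * σ) - σ * (∑ i, dg Tr i : ℕ) + κ * (∑ i, un (dg Tr i) : ℕ) ≤ 30000 * vol u 1 := by
  refine le_trans ?_ (add_st certG_st b s _ u Tr A G (fun i => decide (5 ≤ dg Tr i)) hb hu S h25 hV)
  have e : (n : ℝ) * (F + 4 * σ) = ∑ _i : Fin n, (F + 4 * σ) := by simp [mul_add]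
  rw [e, Nat.cast_sum, Nat.cast_sum, Finset.mul_sum, Finset.mul_sum, ← Finset.sum_sub_distrib,
    ← Finset.sum_add_distrib]
  refine Finset.sum_le_sum fun i _ => ?_
  have p0 := mul_le_mul_of_nonneg_right pi_gt_d6.le (Nat.cast_nonneg (α := ℝ) (A false))
  have p1 := mul_le_mul_of_nonneg_right pi_gt_d6.le (Nat.cast_nonneg (α := ℝ) (A true))
  generalize dg Tr i = d
  rcases le_or_gt 5 d with h | h
  · obtain ⟨e, rfl⟩ := Nat.exists_eq_add_of_le h
    have : un (5 + e) = e := by unfold un; omega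
    rw [this, decide_eq_true h]
    push_cast
    nlinarith [mul_le_mul_of_nonneg_left h3 (Nat.cast_nonneg (α := ℝ) e)]
  · obtain ⟨e, he⟩ := Nat.exists_eq_add_of_le (Nat.lt_succ_iff.1 h)
    have h4 : un d = e := by unfold un; omega
    have h5 : (d : ℝ) = 4 - e := by
      rw [eq_sub_iff_add_eq]
      exact_mod_cast he.symm
    rw [h4, decide_eq_false (not_le.2 h), h5]
    nlinarith [mul_le_mul_of_nonneg_left h1 (Nat.cast_nonneg (α := ℝ) e)]

end Pool.Agent.MP_5cfbf6_gt.P8
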