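import Pool.Agent.MP_5cfbf6_gt.P8.Ana2
import Pool.Agent.MP_5cfbf6_gt.P8.Key

set_option autoImplicit false

namespace Pool.Agent.MP_5cfbf6_gt.P8

open P7 Set Filter Topology Real

open Classical in
theorem certG2 (b s : ℝ) (ι : Type) [Fintype ι] [DecidableEq ι] (u : ι → E3)
    (Tr : ι → ι → ι → Prop) (al : ι → ℝ) (S : ι → ι → ι → Sd) (m : ι → ι → ι → ℤ)
    (R : ι → ι → ℤ) (β : ι → ι → ℝ) (hb : 0 ≤ b) (hu : Unit1 u) (Sy : Sys u 1 Tr)
    (h25 : ∀ x ∈ poly u 1, dt x x ≤ 25) (hal : ∀ i, 0 ≤ al i) (hβ : ∀ i j, 0 ≤ β i j)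
    (hR : ∀ i j, Rst (R i j) (yx (xx u i j)))
    (H : ∀ i j k, Tr i j k →
      Ck.Valid b s ⟨m i j k, S j k i, S k i j, S i j k, R j k, R k i, R i j⟩)
    (E : ∀ i j k l, Tr i j k → Tr i j l → k ≠ l →
      (S i j k).val (xx u i j / (1 + xx u i j)) (arctan (TT3 u i j k))
        + (S i j l).val (xx u i j / (1 + xx u i j)) (arctan (TT3 u i j l))
        + (al i + al j) * (arctan (TT3 u i j k) + arctan (TT3 u i j l)) ≤ β i j) :
    (∑ i, ∑ j, ∑ k, if Tr i j k then (m i j k : ℝ) else 0) / 6 + 2 * π * ∑ i, al i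
      - (∑ i, ∑ j, β i j) / 2 ≤ 30000 * vol u 1 := by
  obtain ⟨ha1, ha2⟩ := area_st ι u Tr hu Sy
  have hang := angle_st ι u Tr hu Sy
  have htri := tri_st ι u Tr hu Sy
  have eF := Sg_three_Cert Sy fun i j k => sdv b s (S i j k) (xx u i j) (TT3 u i j k)
  have main : Sg_Cert Tr (fun i j k => (m i j k : ℝ)) ≤
      Sg_Cert Tr (fun i j k => sdv b s (S j k i) (xx u j k) (TT3 u j k i) +
        sdv b s (S k i j) (xx u k i) (TT3 u k i j) +
        sdv b s (S i j k) (xx u i j) (TT3 u i j k)) := by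
    refine Sg_mono_Cert fun i j k T => ?_
    obtain ⟨d1, d2, d3, d4, d5, -, t1⟩ := htri i j k T
    have t2 := (htri j k i (Sy.rot T)).2.2.2.2.2.2
    have t3 := (htri k i j (Sy.rot (Sy.rot T))).2.2.2.2.2.2
    rw [e2_rot] at t2
    rw [← e2_rot] at t3
    have := H i j k T _ _ _ ⟨d1, d2, d3, d5, d4 ▸ h25 _ (Sy.vx_mem T)⟩
    rw [← t1, ← t2, ← t3] at this
    exact this (hR j k) (hR k i) (hR i j)
  rw [eF] at main
  have bH : Sg_Cert Tr (fun i j k => sdv b s (S i j k) (xx u i j) (TT3 u i j k) +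
      (al i + al j) * arctan (TT3 u i j k)) ≤ 10000 * (6 * vol u 1) + ∑ i, ∑ j, β i j := by
    rw [ha2, Finset.mul_sum, ← Finset.sum_add_distrib]
    unfold Sg_Cert
    refine Finset.sum_le_sum fun i _ => ?_
    rw [Finset.mul_sum, ← Finset.sum_add_distrib]
    refine Finset.sum_le_sum fun j _ => ?_
    rw [sum_tr Sy i j fun k => sdv b s (S i j k) (xx u i j) (TT3 u i j k) +
        (al i + al j) * arctan (TT3 u i j k),
      sum_tr Sy i j fun k => xx u i j * TT3 u i j k]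
    split_ifs with A
    · have h1 := hg_CertG s hb (htri i j _ (Sy.kp_spec A).1).2.2.2.2.2.1.le (ha1 i j A).le
      have h2 := E i j _ _ (Sy.kp_spec A).1 (Sy.km_spec A).1 (Sy.kp_ne_km A)
      unfold sdv
      linarith
    · linarith [hβ i j]
  have bA0 : ∑ i, 2 * π * al i ≤ Sg_Cert Tr (fun i j k => al i * arctan (TT3 u i j k)) := by
    unfold Sg_Cert
    refine Finset.sum_le_sum fun i _ => ?_
    have := mul_le_mul_of_nonneg_left (hang i) (hal i)
    rw [mul_comm]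
    refine this.trans (le_of_eq ?_)
    rw [Finset.mul_sum]
    refine Finset.sum_congr rfl fun j _ => ?_
    rw [Finset.mul_sum]
    refine Finset.sum_congr rfl fun k _ => ?_
    split_ifs <;> simp
  have bA : Sg_Cert Tr (fun i j k => (al i + al j) * arctan (TT3 u i j k)) =
      2 * Sg_Cert Tr (fun i j k => al i * arctan (TT3 u i j k)) := by
    have s := Sg_s12_Cert Sy fun i j k => al i * arctan (TT3 u i j k)
    have a := Sg_add_Cert (Tr := Tr) (fun i j k => al i * arctan (TT3 u i j k))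
      fun i j k => al j * arctan (TT3 u j i k)
    rw [s] at a
    rw [two_mul, ← a]
    congr 1
    funext i j k
    rw [TT3_swap u i j k, add_mul]
  rw [Sg_add_Cert (fun i j k => sdv b s (S i j k) (xx u i j) (TT3 u i j k))
    fun i j k => (al i + al j) * arctan (TT3 u i j k), bA] at bH
  rw [← Finset.mul_sum] at bA0
  change Sg_Cert Tr (fun i j k => (m i j k : ℝ)) / 6 + _ - _ ≤ _
  linarith

/-- the inequality at a vertex for multipliers that depend only on the classes of the faces -/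
def addK (A : Bool → ℕ) (G : Bool → ℤ) (p q r : Bool) : Ck :=
  ⟨G p + G q + G r, ⟨A q + A r, 0, 0, 0⟩, ⟨A r + A p, 0, 0, 0⟩, ⟨A p + A q, 0, 0, 0⟩, 0, 0, 0⟩

lemma rst_zero (y : ℝ) : Rst 0 y := ⟨fun h => absurd h (lt_irrefl _), fun h => absurd h (lt_irrefl _)⟩

lemma addK_valid {b s : ℝ} {A : Bool → ℕ} {G : Bool → ℤ} {p q r : Bool}
    (h : (addK A G p q r).Valid b s) : (addC A G p q r).Valid b s :=
  fun a1 a2 a3 d => h a1 a2 a3 d (rst_zero _) (rst_zero _) (rst_zero _)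

/-- the restrictions given by a list of edges with small and a list of edges with large `y` -/
def mkR {n : ℕ} (hi lo : List (Fin n × Fin n)) (i j : Fin n) : ℤ :=
  if (i, j) ∈ hi ∨ (j, i) ∈ hi then 1 else if (i, j) ∈ lo ∨ (j, i) ∈ lo then -1 else 0

lemma rst_mkR {n : ℕ} {hi lo : List (Fin n × Fin n)} {Y : Fin n → Fin n → ℝ}
    (hs : ∀ i j, Y i j = Y j i) (h1 : ∀ e ∈ hi, Y e.1 e.2 ≤ 53 / 125)
    (h2 : ∀ e ∈ lo, 53 / 125 ≤ Y e.1 e.2) (i j : Fin n) : Rst (mkR hi lo i j) (Y i j) := by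
  unfold mkR
  split_ifs with a b
  · refine ⟨fun _ => ?_, fun h => absurd h (by norm_num)⟩
    rcases a with a | a
    · exact h1 _ a
    · rw [hs]; exact h1 _ a
  · refine ⟨fun h => absurd h (by norm_num), fun _ => ?_⟩
    rcases b with b | b
    · exact h2 _ b
    · rw [hs]; exact h2 _ b
  · exact rst_zero _

def InP (C : Ck) (L : List Ck) : Prop := ∃ D ∈ L, D.m = C.m ∧ C ∈ D.perms

instance (C : Ck) (L : List Ck) : Decidable (InP C L) := by
  unfold InP; infer_instance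

def Lab.Ok2 {n : ℕ} (D : Lab n) (hi lo : List (Fin n × Fin n))
    (t : Fin n → Fin n → Fin n → Bool) (L : List Ck) (W : ℤ) : Prop :=
  (∀ i j k, t i j k = true → InP ⟨D.m i j k, D.S j k i, D.S k i j, D.S i j k,
    mkR hi lo j k, mkR hi lo k i, mkR hi lo i j⟩ L) ∧
  (∀ i j k, t i j k = true → ∀ l, t i j l = true → k ≠ l →
    (D.S i j k).p + (D.S i j l).p = 0 ∧ (D.S i j k).q + (D.S i j l).q = 0 ∧
    (D.S i j k).l = (D.S i j l).l ∧ (D.S i j k).w = (D.S i j l).w ∧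
    if (i = D.i0 ∧ j = D.j0) ∨ (i = D.j0 ∧ j = D.i0) then
      (D.al i : ℤ) + D.al j - (D.S i j k).l ≤ D.cst ∧
        (D.al i : ℤ) + D.al j - (D.S i j k).l - (D.S i j k).w ≤ D.cst
    else (D.S i j k).l = D.al i + D.al j ∧ (D.S i j k).w = 0) ∧
  6000000 * W + 600 * D.cst ≤
    1000000 * (∑ i, ∑ j, ∑ k, if t i j k = true then D.m i j k else 0)
      + 37699104 * ∑ i, (D.al i : ℤ)

instance {n : ℕ} (D : Lab n) (hi lo : List (Fin n × Fin n)) (t : Fin n → Fin n → Fin n → Bool)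
    (L : List Ck) (W : ℤ) : Decidable (D.Ok2 hi lo t L W) := by
  unfold Lab.Ok2; infer_instance

def AllV (b s : ℝ) (L : List Ck) : Prop := ∀ C ∈ L, C.Valid b s

/-- the edge `i0 j0` is short -/
def Short {n : ℕ} (t : Fin n → Fin n → Fin n → Bool) (i0 j0 : Fin n) (u : Fin n → E3)
    (σ : Equiv.Perm (Fin n)) : Prop :=
  ∀ k l, t i0 j0 k = true → t i0 j0 l = true → k ≠ l →
    TT3 u (σ i0) (σ j0) (σ k) + TT3 u (σ i0) (σ j0) (σ l) ≤ 1 / 10000

theorem lab_st2 {n : ℕ} {b s : ℝ} {L : List Ck} {t : Fin n → Fin n → Fin n → Bool} {D : Lab n}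
    {hi lo : List (Fin n × Fin n)} {W : ℤ} {u : Fin n → E3} {Tr : Fin n → Fin n → Fin n → Prop}
    {σ : Equiv.Perm (Fin n)} (hb : 0 ≤ b) (hL : AllV b s L) (hD : D.Ok2 hi lo t L W)
    (hu : Unit1 u) (S : Sys u 1 Tr) (hbd : ∀ x ∈ poly u 1, dt x x ≤ 25)
    (hT : ∀ i j k, Tr (σ i) (σ j) (σ k) ↔ t i j k = true) (hw : Short t D.i0 D.j0 u σ)
    (r1 : ∀ e ∈ hi, yx (xx u (σ e.1) (σ e.2)) ≤ 53 / 125)
    (r2 : ∀ e ∈ lo, 53 / 125 ≤ yx (xx u (σ e.1) (σ e.2))) : (W : ℝ) ≤ 30000 * vol u 1 := by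
  have hR := rst_mkR (Y := fun i j => yx (xx u (σ i) (σ j)))
    (fun i j => by simp only [xx, dt_comm (u (σ i)) (u (σ j))]) r1 r2
  obtain ⟨hD1, hD2, hD3⟩ := hD
  have hT' : ∀ i j k, Tr i j k ↔ t (σ.symm i) (σ.symm j) (σ.symm k) = true := fun i j k => by
    rw [← hT]; simp
  have hc : (0 : ℝ) ≤ (D.cst : ℝ) * (1 / 10000) := by positivity
  have main := certG2 b s (Fin n) u Tr (fun i => (D.al (σ.symm i) : ℝ))
    (fun i j k => D.S (σ.symm i) (σ.symm j) (σ.symm k))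
    (fun i j k => D.m (σ.symm i) (σ.symm j) (σ.symm k))
    (fun i j => mkR hi lo (σ.symm i) (σ.symm j))
    (fun i j => if (σ.symm i = D.i0 ∧ σ.symm j = D.j0) ∨ (σ.symm i = D.j0 ∧ σ.symm j = D.i0)
      then (D.cst : ℝ) * (1 / 10000) else 0) hb hu S hbd
    (fun i => Nat.cast_nonneg _) (fun _ _ => by split_ifs; exacts [hc, le_rfl])
    (fun i j => by simpa using hR (σ.symm i) (σ.symm j))
    (fun i j k T => by
      obtain ⟨C, c1, -, c2⟩ := hD1 _ _ _ ((hT' i j k).1 T)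
      exact (hL C c1).perms c2)
    (fun i j k l T T' hkl => by
      have hkl' : σ.symm k ≠ σ.symm l := fun e => hkl (σ.symm.injective e)
      obtain ⟨hp, hq, hl, hw', hif⟩ := hD2 _ _ _ ((hT' i j k).1 T) _ ((hT' i j l).1 T') hkl'
      rw [edge_Lab _ _ _ _ hp hq hl hw']
      have hx := (tri_st _ u Tr hu S i j k T).2.2.2.2.2.1
      have hy0 : 0 ≤ xx u i j / (1 + xx u i j) := by positivity
      have hy1 : xx u i j / (1 + xx u i j) ≤ 1 := by
        rw [div_le_one (by positivity)]; linarith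
      obtain ⟨t0, t1⟩ := atan_Lab (pos_Lab hu S T T' hkl).le
      by_cases hij : (σ.symm i = D.i0 ∧ σ.symm j = D.j0) ∨ (σ.symm i = D.j0 ∧ σ.symm j = D.i0)
      · rw [if_pos hij] at hif ⊢
        obtain ⟨c1, c2⟩ := hif
        have hTT : TT3 u i j k + TT3 u i j l ≤ 1 / 10000 := by
          rcases hij with ⟨e1, e2⟩ | ⟨e1, e2⟩
          · have := hw (σ.symm k) (σ.symm l) (e1 ▸ e2 ▸ (hT' i j k).1 T)
              (e1 ▸ e2 ▸ (hT' i j l).1 T') hkl'
            rw [← e1, ← e2] at this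
            simpa using this
          · have := hw (σ.symm k) (σ.symm l) (e1 ▸ e2 ▸ (hT' j i k).1 (S.s12 _ _ _ T))
              (e1 ▸ e2 ▸ (hT' j i l).1 (S.s12 _ _ _ T')) hkl'
            rw [← e1, ← e2] at this
            simp only [Equiv.apply_symm_apply] at this
            rwa [TT3_swap u i j k, TT3_swap u i j l] at this
        exact wall_Lab (by exact_mod_cast c1) (by exact_mod_cast c2) hy0 hy1 t0 t1 hTT
          (Nat.cast_nonneg _)
      · rw [if_neg hij] at hif ⊢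
        rw [hif.1, hif.2]
        push_cast
        exact le_of_eq (by ring))
  have eβ := beta_Lab D.i0 D.j0 hc
  rw [← Equiv.sum_comp σ.symm] at eβ
  simp only [← Equiv.sum_comp σ.symm (fun j => if (σ.symm _ = D.i0 ∧ j = D.j0) ∨
    (σ.symm _ = D.j0 ∧ j = D.i0) then (D.cst : ℝ) * (1 / 10000) else 0)] at eβ
  have ea : ∑ i, (D.al (σ.symm i) : ℝ) = ∑ i, (D.al i : ℝ) :=
    Equiv.sum_comp σ.symm fun i => (D.al i : ℝ)
  have em : ∀ _ : ∀ i j k, Decidable (Tr i j k), (∑ i, ∑ j, ∑ k, if Tr i j k then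
      (D.m (σ.symm i) (σ.symm j) (σ.symm k) : ℝ) else 0) =
      ∑ i, ∑ j, ∑ k, if t i j k = true then (D.m i j k : ℝ) else 0 := by
    intro _
    rw [← Equiv.sum_comp σ]
    refine Finset.sum_congr rfl fun i _ => ?_
    rw [← Equiv.sum_comp σ]
    refine Finset.sum_congr rfl fun j _ => ?_
    rw [← Equiv.sum_comp σ]
    refine Finset.sum_congr rfl fun k _ => ?_
    simp only [Equiv.symm_apply_apply]
    exact if_congr (hT i j k) rfl rfl
  rw [em, ea] at main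
  have h3 : (6000000 : ℝ) * W + 600 * D.cst ≤
      1000000 * (∑ i, ∑ j, ∑ k, if t i j k = true then (D.m i j k : ℝ) else 0)
        + 37699104 * ∑ i, (D.al i : ℝ) := by exact_mod_cast hD3
  have ha : 0 ≤ ∑ i, (D.al i : ℝ) := Finset.sum_nonneg fun i _ => Nat.cast_nonneg _
  have hpi := mul_le_mul_of_nonneg_right pi_gt_d6.le ha
  linarith

/-- a polyhedron of type `t` with the edge `i0 j0` short has large volume -/
def Wall {n : ℕ} (t : Fin n → Fin n → Fin n → Bool) (W : ℤ) (i0 j0 : Fin n) : Prop :=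
  ∀ (u : Fin n → E3) (Tr : Fin n → Fin n → Fin n → Prop) (σ : Equiv.Perm (Fin n)), Unit1 u →
    Sys u 1 Tr → (∀ x ∈ poly u 1, dt x x ≤ 25) →
    (∀ i j k, Tr (σ i) (σ j) (σ k) ↔ t i j k = true) → Short t i0 j0 u σ →
    (W : ℝ) ≤ 30000 * vol u 1

lemma wall_lab {n : ℕ} {b s : ℝ} {L : List Ck} {t : Fin n → Fin n → Fin n → Bool} {D : Lab n}
    {W : ℤ} (hb : 0 ≤ b) (hL : AllV b s L) (hD : D.Ok2 [] [] t L W) : Wall t W D.i0 D.j0 :=
  fun _ _ _ hu S h25 hσ hw => lab_st2 hb hL hD hu S h25 hσ hw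
    (fun _ h => absurd h List.not_mem_nil) fun _ h => absurd h List.not_mem_nil

/-- every polyhedron of type `t` has large volume -/
def Excl {n : ℕ} (t : Fin n → Fin n → Fin n → Bool) (W : ℤ) : Prop :=
  ∀ (u : Fin n → E3) (Tr : Fin n → Fin n → Fin n → Prop) (σ : Equiv.Perm (Fin n)), Unit1 u →
    Sys u 1 Tr → (∀ x ∈ poly u 1, dt x x ≤ 25) →
    (∀ i j k, Tr (σ i) (σ j) (σ k) ↔ t i j k = true) → (W : ℝ) ≤ 30000 * vol u 1

lemma excl_lab {n : ℕ} {b s : ℝ} {L : List Ck} {t : Fin n → Fin n → Fin n → Bool} {D : Lab n}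
    {W : ℤ} (hb : 0 ≤ b) (hL : AllV b s L) (hD : D.Ok2 [] [] t L W) (h0 : D.i0 = D.j0) :
    Excl t W :=
  fun u Tr σ hu S h25 hσ => wall_lab hb hL hD u Tr σ hu S h25 hσ fun _ _ p _ _ =>
    absurd (congrArg σ h0) (S.ne12 ((hσ _ _ _).2 p))

lemma long_Key2 {n : ℕ} {t : Fin (n + 1) → Fin (n + 1) → Fin (n + 1) → Bool} {W : ℤ}
    {Ds : List (Lab (n + 1))} {G : List ℕ}
    (hD : ∀ D ∈ Ds, Wall t W D.i0 D.j0) (hc : Cov t Ds G) {u : Fin (n + 1) → E3}
    {Tr : Fin (n + 1) → Fin (n + 1) → Fin (n + 1) → Prop} {σ : Equiv.Perm (Fin (n + 1))}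
    (hu : Unit1 u) (S : Sys u 1 Tr) (h25 : ∀ x ∈ poly u 1, dt x x ≤ 25)
    (hσ : ∀ i j k, Tr (σ i) (σ j) (σ k) ↔ t i j k = true) (hv : 30000 * vol u 1 < W) :
    Long (1 / 10000) u Tr := by
  have K : ∀ i j k l, Tr i j k → Tr i j l → k ≠ l → (∃ D ∈ Ds, ∃ g ∈ G,
      pf n g D.i0 = σ.symm i ∧ pf n g D.j0 = σ.symm j) →
      1 / 10000 ≤ TT3 u i j k + TT3 u i j l := by
    rintro i j k l T T' hkl ⟨D, hDs, g, hg, e1, e2⟩
    by_contra hlt
    obtain ⟨g1, g2⟩ := hc.1 g hg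
    have hbij := Finite.injective_iff_bijective.1 fun i j h => g1 i j h
    have h3 : ∀ i j k, Tr (((Equiv.ofBijective _ hbij).trans σ) i)
        (((Equiv.ofBijective _ hbij).trans σ) j) (((Equiv.ofBijective _ hbij).trans σ) k) ↔
        t i j k = true := fun i j k => by
      rw [← g2]
      exact hσ _ _ _
    have e3 : ((Equiv.ofBijective _ hbij).trans σ) D.i0 = i := by
      simp [Equiv.ofBijective_apply, e1]
    have e4 : ((Equiv.ofBijective _ hbij).trans σ) D.j0 = j := by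
      simp [Equiv.ofBijective_apply, e2]
    refine absurd (hD D hDs u Tr _ hu S h25 h3 ?_)
      (not_le.2 hv)
    intro k' l' p q hne
    rw [← h3, e3, e4] at p q
    rw [e3, e4]
    have hne' := fun h => hne (((Equiv.ofBijective _ hbij).trans σ).injective h)
    generalize ((Equiv.ofBijective _ hbij).trans σ) k' = a at p hne' ⊢
    generalize ((Equiv.ofBijective _ hbij).trans σ) l' = c at q hne' ⊢
    obtain ⟨k2, -, -, h2⟩ := two_tr S T
    have hl := (h2 l T').resolve_left hkl.symm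
    subst hl
    rcases h2 a p with rfl | rfl <;> rcases h2 c q with rfl | rfl
    · exact absurd rfl hne'
    · linarith
    · linarith
    · exact absurd rfl hne'
  intro i j k l T T' hkl
  obtain ⟨D, hDs, g, hg, h | h⟩ := hc.2 (σ.symm i) (σ.symm j) (σ.symm k) ((hσ _ _ _).1 (by simpa))
  · exact K i j k l T T' hkl ⟨D, hDs, g, hg, h⟩
  · rw [← TT3_swap u i j k, ← TT3_swap u i j l]
    exact K j i k l (S.s12 _ _ _ T) (S.s12 _ _ _ T') hkl ⟨D, hDs, g, hg, h⟩

end Pool.Agent.MP_5cfbf6_gt.P8
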